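import Mathlib

/-!
# MP_9d6bd1_lc: the word RAM

A word RAM with word length `w`: finitely many registers (those occurring in the program), a working
memory of words and a read-only input memory of words, random access through registers, constant
time arithmetic modulo `2 ^ w`, conditional jumps.  A program is a finite list of instructions.
-/

set_option autoImplicit false

namespace Pool.Agent.MP9d6bd1

/-- Instructions of the word RAM. `i j k` are register numbers, `c` a constant, `l` a program
line. -/
inductive Instr
  /-- `r_i := c` -/
  | const (i c : ℕ)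
  /-- `r_i := r_j + r_k` -/
  | add (i j k : ℕ)
  /-- `r_i := r_j - r_k` (and `0` if `r_j < r_k`) -/
  | sub (i j k : ℕ)
  /-- `r_i := r_j * r_k` -/
  | mul (i j k : ℕ)
  /-- `r_i := r_j / r_k` (integer part) -/
  | div (i j k : ℕ)
  /-- `r_i := r_j mod r_k` -/
  | mod (i j k : ℕ)
  /-- `r_i := input[r_j]` (read-only memory) -/
  | input (i j : ℕ)
  /-- `r_i := work[r_j]` -/
  | load (i j : ℕ)
  /-- `work[r_i] := r_j` -/
  | store (i j : ℕ)
  /-- if `r_i < r_j` continue with line `l` -/
  | jlt (i j l : ℕ)

/-- The registers that occur in an instruction are `< Instr.regs`. -/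
def Instr.regs : Instr → ℕ
  | .const i _ => i + 1
  | .add i j k | .sub i j k | .mul i j k | .div i j k | .mod i j k => max (i + 1) (max (j + 1) (k + 1))
  | .input i j | .load i j | .store i j | .jlt i j _ => max (i + 1) (j + 1)

/-- The number of registers of a program. -/
def numRegs (P : List Instr) : ℕ := P.foldr (fun I m => max I.regs m) 0

/-- A configuration: program counter, registers, working memory. -/
structure Config where
  /-- program counter -/
  pc : ℕ
  /-- registers -/
  reg : ℕ → ℕ
  /-- working memory -/
  work : ℕ → ℕ

/-- The effect of one instruction on a word RAM with word length `w` and input memory `inp`. -/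
def Instr.exec (w : ℕ) (inp : ℕ → ℕ) : Instr → Config → Config
  | .const i c, s => ⟨s.pc + 1, Function.update s.reg i (c % 2 ^ w), s.work⟩
  | .add i j k, s => ⟨s.pc + 1, Function.update s.reg i ((s.reg j + s.reg k) % 2 ^ w), s.work⟩
  | .sub i j k, s => ⟨s.pc + 1, Function.update s.reg i (s.reg j - s.reg k), s.work⟩
  | .mul i j k, s => ⟨s.pc + 1, Function.update s.reg i ((s.reg j * s.reg k) % 2 ^ w), s.work⟩
  | .div i j k, s => ⟨s.pc + 1, Function.update s.reg i (s.reg j / s.reg k), s.work⟩
  | .mod i j k, s => ⟨s.pc + 1, Function.update s.reg i (s.reg j % s.reg k), s.work⟩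
  | .input i j, s => ⟨s.pc + 1, Function.update s.reg i (inp (s.reg j) % 2 ^ w), s.work⟩
  | .load i j, s => ⟨s.pc + 1, Function.update s.reg i (s.work (s.reg j)), s.work⟩
  | .store i j, s => ⟨s.pc + 1, s.reg, Function.update s.work (s.reg i) (s.reg j)⟩
  | .jlt i j l, s => ⟨if s.reg i < s.reg j then l else s.pc + 1, s.reg, s.work⟩

/-- The cell of the working memory used by an instruction (if any) has address `< S`. -/
def Instr.within (S : ℕ) : Instr → Config → Prop
  | .load _ j, s => s.reg j < S
  | .store i _, s => s.reg i < S
  | _, _ => True

/-- `Run P w inp S T s s'`: starting in configuration `s`, the program performs exactly `T` steps,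
ends in `s'`, and only uses cells of the working memory with address `< S`. -/
inductive Run (P : List Instr) (w : ℕ) (inp : ℕ → ℕ) (S : ℕ) : ℕ → Config → Config → Prop
  | refl (s : Config) : Run P w inp S 0 s s
  | step {T : ℕ} {s s' : Config} (I : Instr) (hI : P[s.pc]? = some I) (hS : I.within S s)
      (h : Run P w inp S T (I.exec w inp s) s') : Run P w inp S (T + 1) s s'

/-- The initial configuration: everything is `0`. -/
def init : Config := ⟨0, fun _ => 0, fun _ => 0⟩

/-- On input `inp`, the program halts after exactly `T` steps (by leaving the list of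
instructions), uses only cells `< S` of the working memory and has output `b` (the content of
register `0`; `1` means yes). -/
def Decides (P : List Instr) (w : ℕ) (inp : ℕ → ℕ) (S T : ℕ) (b : Prop) : Prop :=
  ∃ s' : Config, Run P w inp S T init s' ∧ P.length ≤ s'.pc ∧ (s'.reg 0 = 1 ↔ b)

/-- `inp` is an encoding of the graph `G` on the vertices `0, ..., n-1` by adjacency arrays: cell
`0` contains `n`, cell `v + 1` the address where the array of neighbours of `v` starts, cell
`n + 1` the address behind the last array; each array lists the neighbours of its vertex without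
repetition, in any order; the arrays are stored one after the other in the order of the vertices. -/
structure AdjArrays {n : ℕ} (G : SimpleGraph (Fin n)) (inp : ℕ → ℕ) : Prop where
  size : inp 0 = n
  start : inp 1 = n + 2
  mono : ∀ v < n, inp (v + 1) ≤ inp (v + 2)
  adj : ∀ u v : Fin n, G.Adj u v ↔ ∃ p, inp (u + 1) ≤ p ∧ p < inp (u + 2) ∧ inp p = v
  mem : ∀ (u : Fin n) (p : ℕ), inp (u + 1) ≤ p → p < inp (u + 2) → inp p < n
  inj : ∀ (u : Fin n) (p q : ℕ), inp (u + 1) ≤ p → p < inp (u + 2) → inp (u + 1) ≤ q →
    q < inp (u + 2) → inp p = inp q → p = q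

end Pool.Agent.MP9d6bd1
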