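import Mathlib
import Pool.Agent.Lib.MP_9d6bd1_lc.Machine

/-!
# MP_9d6bd1_lc: a small structured language

Pure expressions (total, with local variables, bounded iteration) and statements (assignments,
stores, loops).  All programs respect the resource limits by construction: the iterations inside
expressions are cut off at `cap`, memory accesses are restricted to indices `< lim`, all
stored values are cut off at `top`.
-/

set_option autoImplicit false

namespace Pool.Agent.MP9d6bd1

/-- parameters of a run -/
structure Par where
  /-- the input memory -/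
  inp : ℕ → ℕ
  /-- bound for the number of iterations of every `fold` -/
  cap : ℕ
  /-- bound for the indices in the memory banks -/
  lim : ℕ
  /-- bound for all values -/
  top : ℕ

/-- state: global variables and 16 memory banks -/
structure St where
  /-- global variables -/
  g : ℕ → ℕ
  /-- memory banks -/
  m : Fin 16 → ℕ → ℕ

/-- arithmetic operations -/
inductive Op
  | add | sub | mul | div | mod | lt | eq

/-- value of an arithmetic operation -/
def Op.ev : Op → ℕ → ℕ → ℕ
  | .add, a, b => a + b
  | .sub, a, b => a - b
  | .mul, a, b => a * b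
  | .div, a, b => a / b
  | .mod, a, b => a % b
  | .lt, a, b => if a < b then 1 else 0
  | .eq, a, b => if a = b then 1 else 0

/-- expressions. The local variables are numbered from the bottom of a stack. -/
inductive E
  /-- constant -/
  | c (k : ℕ)
  /-- local variable -/
  | v (x : ℕ)
  /-- global variable -/
  | g (x : ℕ)
  /-- cell of the input -/
  | inp (a : E)
  /-- cell of a memory bank -/
  | ld (b : Fin 16) (a : E)
  /-- operation -/
  | op (o : Op) (a b : E)
  /-- conditional (`b` if `a ≠ 0`, otherwise `d`) -/
  | ite (a b d : E)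
  /-- push the value of `a`, then evaluate `b` -/
  | lt (a b : E)
  /-- evaluate `f`, which sees only the last `k` local variables -/
  | fr (k : ℕ) (f : E)
  /-- iteration: `n` times, with initial value `a`; `b` sees three additional local variables:
  the index, the accumulator, the number of iterations -/
  | fold (n a b : E)

/-- value of an expression -/
def E.ev (κ : Par) (σ : St) : E → List ℕ → ℕ
  | .c k, _ => k
  | .v x, l => l.getD x 0
  | .g x, _ => σ.g x
  | .inp a, l => min (κ.inp (a.ev κ σ l)) κ.top
  | .ld b a, l => if a.ev κ σ l < κ.lim then σ.m b (a.ev κ σ l) else 0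
  | .op o a b, l => o.ev (a.ev κ σ l) (b.ev κ σ l)
  | .ite a b d, l => if a.ev κ σ l = 0 then d.ev κ σ l else b.ev κ σ l
  | .lt a b, l => b.ev κ σ (l ++ [a.ev κ σ l])
  | .fr k f, l => f.ev κ σ (l.drop (l.length - k))
  | .fold n a b, l => Nat.rec (a.ev κ σ l)
      (fun i acc => min (b.ev κ σ (l ++ [i, acc, min (n.ev κ σ l) κ.cap])) κ.top)
      (min (n.ev κ σ l) κ.cap)

/-- statements -/
inductive S
  | skip
  /-- assignment to a global variable -/
  | set (x : ℕ) (e : E)
  /-- store in a memory bank -/
  | st (b : Fin 16) (i e : E)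
  | seq (s t : S)
  /-- `s` if `e ≠ 0`, otherwise `t` -/
  | ite (e : E) (s t : S)
  /-- loop, the global variable `x` runs through `0, ..., e - 1` -/
  | loop (x : ℕ) (e : E) (s : S)

/-- effect of a statement -/
def S.run (κ : Par) : S → St → St
  | .skip, σ => σ
  | .set x e, σ => ⟨Function.update σ.g x (min (e.ev κ σ []) κ.top), σ.m⟩
  | .st b i e, σ => if i.ev κ σ [] < κ.lim then
      ⟨σ.g, Function.update σ.m b
        (Function.update (σ.m b) (i.ev κ σ []) (min (e.ev κ σ []) κ.top))⟩ else σ
  | .seq s t, σ => t.run κ (s.run κ σ)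
  | .ite e s t, σ => if e.ev κ σ [] = 0 then t.run κ σ else s.run κ σ
  | .loop x e s, σ => Nat.rec σ (fun i τ => s.run κ ⟨Function.update τ.g x i, τ.m⟩)
      (min (e.ev κ σ []) κ.top)

/-- number of basic statements performed -/
def S.cost (κ : Par) : S → St → ℕ
  | .skip, _ => 1
  | .set _ _, _ => 1
  | .st _ _ _, _ => 1
  | .seq s t, σ => s.cost κ σ + t.cost κ (s.run κ σ)
  | .ite e s t, σ => 1 + if e.ev κ σ [] = 0 then t.cost κ σ else s.cost κ σ
  | .loop x e s, σ => 1 + ∑ i ∈ Finset.range (min (e.ev κ σ []) κ.top),
      (1 + s.cost κ ⟨Function.update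
        (Nat.rec σ (fun i τ => s.run κ ⟨Function.update τ.g x i, τ.m⟩) i : St).g x i,
        (Nat.rec σ (fun i τ => s.run κ ⟨Function.update τ.g x i, τ.m⟩) i : St).m⟩)

/-- initial state -/
def st0 : St := ⟨fun _ => 0, fun _ _ => 0⟩

end Pool.Agent.MP9d6bd1
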