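import Mathlib
import Pool.Agent.Lib.MP_9d6bd1_lc.Lang

/-!
# MP_9d6bd1_lc: the pure functions of the program

Global variables: 0 output, 1 cap, 2 lim, 3 `N` (number of vertices of the current graph), 4 `D`
(degree bound), 5 `L` (size bound of the clusters), 6 `X = (D+1)^L` (number of walk codes), 7 `J`
(number of rounds), 8 `q` (bits per word), 9 `B` (block length of the rank directory), 10 `bad`,
11 `NR` (number of marked vertices), 12 `NV` (number of vertices of the new graph), 13 `EC`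
(number of edges of the new graph), 14 `EM` (bound for `EC`), 20 source flag (`1`: the current
graph is the input, `0`: it is in bank 0), from 21 on: scratch and loop variables.

Banks: 0 current graph, 1 new graph, 2 kept bits (cell `u * D + j`), 3 new kept bits, 4 decided
bits, 5 X bits, 6 R bits, 7 rank directory, 8 and 9 ends of the new edges, 10 stamps, 11 powers
of two, 12 positions for the counting sort.
-/

set_option autoImplicit false

namespace Pool.Agent.MP9d6bd1

namespace E

instance : Add E := ⟨.op .add⟩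
instance : Sub E := ⟨.op .sub⟩
instance : Mul E := ⟨.op .mul⟩
instance : Div E := ⟨.op .div⟩
instance : Mod E := ⟨.op .mod⟩
instance (n : ℕ) : OfNat E n := ⟨.c n⟩

/-- `a < b` -/
def less (a b : E) : E := .op .lt a b

/-- `a = b` -/
def eqn (a b : E) : E := .op .eq a b

/-- negation -/
def neg (a : E) : E := .ite a 0 1

/-- conjunction -/
def and (a b : E) : E := .ite a b 0

/-- disjunction -/
def or (a b : E) : E := .ite a 1 b

/-- call of a function with one argument -/
def call1 (f a : E) : E := .lt a (.fr 1 f)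

/-- call of a function with two arguments -/
def call2 (f a b : E) : E := .lt a (.lt b (.fr 2 f))

/-- call of a function with three arguments -/
def call3 (f a b d : E) : E := .lt a (.lt b (.lt d (.fr 3 f)))

/-- call of a function with four arguments -/
def call4 (f a b d e : E) : E := .lt a (.lt b (.lt d (.lt e (.fr 4 f))))

/-- call of a function with six arguments -/
def call6 (f a b d e h i : E) : E := .lt a (.lt b (.lt d (.lt e (.lt h (.lt i (.fr 6 f))))))

/-- for all `i < n`; `d` is the number of local variables; `b` may use the local variable `d` -/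
def all (d : ℕ) (n b : E) : E := .fold n 1 (.ite b (.v (d + 1)) 0)

/-- there is an `i < n`; `d` is the number of local variables; `b` may use the local variable `d` -/
def ex (d : ℕ) (n b : E) : E := .fold n 0 (.ite b 1 (.v (d + 1)))

end E

open E

/-! ### the current graph -/

/-- `[a]`: cell `a` of the current graph -/
def rdE : E := .ite (.g 20) (.inp (.v 0)) (.ld 0 (.v 0))

/-- `[u]`: length of the list of `u` -/
def dgE : E := call1 rdE (.v 0 + 2) - call1 rdE (.v 0 + 1)

/-- `[u, j]`: entry number `j` of the list of `u` -/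
def nbE : E := call1 rdE (call1 rdE (.v 0 + 1) + .v 1)

/-! ### bits and powers -/

/-- `[i]`: bit `i` of the bit array in bank `b` -/
def bitE (b : Fin 16) : E := .ld b (.v 0 / .g 8) / .ld 11 (.v 0 % .g 8) % 2

/-- `[b, k]`: `b ^ k` -/
def powE : E := .fold (.v 1) 1 (.v 0 * .v 3)

/-! ### walks and enumeration -/

/-- `[u, x]`: end of the walk with code `x` starting at `u`; `stp` is a function `[u, j]` -/
def walkE (stp : E) : E :=
  .fold (.g 5) (.v 0) (call2 stp (.v 3) (.v 1 / call2 powE (.g 4 + 1) (.v 2) % (.g 4 + 1)))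

/-- `[u]`: least value `f [u, i]`, `i < dom`, if it is less than `N`, otherwise `N` -/
def mnE (dom f : E) : E :=
  .fold dom (.g 3) (.lt (call2 f (.v 0) (.v 1)) (.ite (less (.v 4) (.v 2)) (.v 4) (.v 2)))

/-- `[u, t]`: least value `f [u, i] > t`, `i < dom`, if it is less than `N`, otherwise `N` -/
def nxE (dom f : E) : E :=
  .fold dom (.g 3) (.lt (call2 f (.v 0) (.v 2))
    (.ite (and (less (.v 1) (.v 5)) (less (.v 5) (.v 3))) (.v 5) (.v 3)))

/-- `[u, k]`: the element number `k` (in increasing order) of the set of values `f [u, i] < N` -/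
def elE (dom f : E) : E :=
  .fold (.v 1) (call1 (mnE dom f) (.v 0)) (call2 (nxE dom f) (.v 0) (.v 3))

/-! ### clusters -/

/-- `[u]`: `u` has degree at most `D` -/
def lowE : E := neg (less (.g 4) (call1 dgE (.v 0)))

/-- `[u, j]`: step along entry `j` if it is kept -/
def stK : E := .ite (and (less (.v 1) (.g 4)) (call1 (bitE 2) (.v 0 * .g 4 + .v 1)))
  (call2 nbE (.v 0) (.v 1)) (.v 0)

/-- `[u]`: least vertex of the cluster of `u` -/
def idE : E := mnE (.g 6) (walkE stK)

/-- `[u, k]`: element number `k` of the cluster of `u` -/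
def elK : E := elE (.g 6) (walkE stK)

/-- `[u, j]`: cluster of the entry `j` of `u`, or `N` if it does not exist or has high degree -/
def cnE : E := .ite (and (less (.v 0) (.g 3)) (less (.v 1) (call1 dgE (.v 0))))
  (.lt (call2 nbE (.v 0) (.v 1)) (.ite (call1 lowE (.v 2)) (call1 idE (.v 2)) (.g 3))) (.g 3)

/-- `[u, c]`: number of entries from the cluster of `u` to the cluster `c` -/
def wtE : E := .fold (.g 5) 0 (.fold (.g 4) (.v 3)
  (.ite (and (less (.v 1) (.g 3)) (eqn (call2 cnE (call2 elK (.v 0) (.v 2)) (.v 5)) (.v 1)))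
    (.v 6 + 1) (.v 6)))

/-- `[u]`: heaviest neighbour cluster of the cluster of `u`, or `N` -/
def hvE : E := .fold (.g 5) (.g 3) (.fold (.g 4) (.v 2)
  (.lt (call2 cnE (call2 elK (.v 0) (.v 1)) (.v 4))
    (.ite (and (less (.v 7) (.g 3)) (and (neg (eqn (.v 7) (call1 idE (.v 0))))
      (less (call2 wtE (.v 0) (.v 5)) (call2 wtE (.v 0) (.v 7))))) (.v 7) (.v 5))))

/-- `[c]`: twice the conditional probability of `c ∈ X` -/
def ppE : E := .ite (call1 (bitE 4) (.v 0)) (2 * call1 (bitE 5) (.v 0)) 1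

/-- `[u]`: sum over the entries to clusters that point to the cluster of `u` -/
def inE : E := .fold (.g 5) 0 (.fold (.g 4) (.v 2)
  (.lt (call2 cnE (call2 elK (.v 0) (.v 1)) (.v 4))
    (.ite (and (less (.v 7) (.g 3)) (and (neg (eqn (.v 7) (call1 idE (.v 0))))
      (eqn (call1 hvE (.v 7)) (call1 idE (.v 0))))) (.v 5 + call1 ppE (.v 7)) (.v 5))))

/-- `[u]`: decision for the cluster of `u` -/
def dcE : E := .lt (call1 hvE (.v 0))
  (neg (less (call2 wtE (.v 0) (.v 1) * (2 - call1 ppE (.v 1))) (call1 inE (.v 0))))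

/-- `[a, b]`: the cluster `a` is merged into the cluster `b` -/
def mgE : E := and (call1 (bitE 5) (.v 0)) (and (eqn (call1 hvE (.v 0)) (.v 1))
  (neg (call1 (bitE 5) (.v 1))))

/-- `[u, j]`: new kept bit of entry `j` of `u` -/
def nkE : E := .ite (call1 lowE (.v 0)) (.lt (call2 cnE (.v 0) (.v 1)) (.lt (call1 idE (.v 0))
  (.ite (less (.v 2) (.g 3)) (or (eqn (.v 2) (.v 3)) (or (and (call2 mgE (.v 2) (.v 3)) 1)
    (and (call2 mgE (.v 3) (.v 2)) 1))) 0))) 0

/-- `[u]`: mark of `u` -/
def mkE : E := .ite (call1 lowE (.v 0))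
  (ex 1 (.g 4) (.lt (call2 cnE (.v 0) (.v 1))
    (and (less (.v 4) (.g 3)) (neg (eqn (.v 4) (call1 idE (.v 0))))))) 1

/-! ### pieces -/

/-- `[u, j]`: step along entry `j` if it leads to an unmarked vertex -/
def stR : E := .ite (and (less (.v 1) (call1 dgE (.v 0)))
  (neg (call1 (bitE 6) (call2 nbE (.v 0) (.v 1))))) (call2 nbE (.v 0) (.v 1)) (.v 0)

/-- `[u]`: least vertex of the piece of `u` -/
def piE : E := mnE (.g 6) (walkE stR)

/-- `[u, k]`: element number `k` of the piece of `u` -/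
def elP : E := elE (.g 6) (walkE stR)

/-- `[u, t]`: marked neighbour of the piece of `u` with code `t`, or `N` -/
def atE : E := .lt (call2 (walkE stR) (.v 0) (.v 1 / .g 4)) (.lt (.v 1 % .g 4)
  (.ite (and (less (.v 3) (call1 dgE (.v 2))) (call1 (bitE 6) (call2 nbE (.v 2) (.v 3))))
    (call2 nbE (.v 2) (.v 3)) (.g 3)))

/-- `[u, k]`: attachment number `k` of the piece of `u` -/
def elT : E := elE (.g 6 * .g 4) atE

/-- `[u]`: number of attachments of the piece of `u` -/
def pkE : E := .fold (.g 5 * .g 4) 0 (.v 2 + less (call2 elT (.v 0) (.v 1)) (.g 3))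

/-- `[u]`: number of vertices of the piece of `u` -/
def plE : E := .fold (.g 5) 0 (.v 2 + less (call2 elP (.v 0) (.v 1)) (.g 3))

/-- `[u, k, a]`: name of the local vertex `a` (`k` = number of attachments) -/
def nmE : E := .ite (less (.v 2) (.v 1)) (call2 elT (.v 0) (.v 2)) (call2 elP (.v 0) (.v 2 - .v 1))

/-- `[u, k, a, b]`: the local vertex `a ≥ k` has an entry to the local vertex `b` -/
def adE : E := and (neg (less (.v 2) (.v 1))) (.lt (call3 nmE (.v 0) (.v 1) (.v 2))
  (.lt (call3 nmE (.v 0) (.v 1) (.v 3))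
    (ex 6 (.g 4) (and (less (.v 6) (call1 dgE (.v 4))) (eqn (call2 nbE (.v 4) (.v 6)) (.v 5))))))

/-- `[u, k, l]`: code of the piece of `u` with its attachments -/
def cdE : E := .fold (.v 1 + .v 2) 0 (.fold (.v 1 + .v 2) (.v 4)
  (.v 7 + call4 adE (.v 0) (.v 1) (.v 3) (.v 6) * call2 powE 2 (.v 3 * (.v 1 + .v 2) + .v 6)))

/-! ### codes of graphs -/

/-- `[c, i]`: bit `i` of the number `c` -/
def bcE : E := .v 0 / call2 powE 2 (.v 1) % 2

/-- `[s, c, a, b]`: adjacency of `a, b` in the graph on `0, ..., s-1` with code `c` -/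
def acE : E := and (and (less (.v 2) (.v 0)) (less (.v 3) (.v 0)))
  (or (call2 bcE (.v 1) (.v 2 * .v 0 + .v 3)) (call2 bcE (.v 1) (.v 3 * .v 0 + .v 2)))

/-- `[k, l, a]`: the vertex `a` of the union is a vertex of the test graph -/
def vaE : E := or (less (.v 2) (.v 0)) (neg (less (.v 2) (.v 0 + .v 1)))

/-- `[k, l, a]`: number of the vertex `a` in the test graph -/
def naE : E := .ite (less (.v 2) (.v 0)) (.v 2) (.v 2 - .v 1)

/-- `[k, l, c, q, a, b]`: adjacency in the union of the graph on `0, ..., k+l-1` with code `c`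
and the test graph on `0, ..., k-1, k+l, ..., k+l+5` with code `q` -/
def uaE : E := or (call4 acE (.v 0 + .v 1) (.v 2) (.v 4) (.v 5))
  (and (call3 vaE (.v 0) (.v 1) (.v 4)) (and (call3 vaE (.v 0) (.v 1) (.v 5))
    (call4 acE (.v 0 + 6) (.v 3) (call3 naE (.v 0) (.v 1) (.v 4))
      (call3 naE (.v 0) (.v 1) (.v 5)))))

/-- `[b, x, a]`: digit `a` of `x` in base `b` -/
def diE : E := .v 1 / call2 powE (.v 0) (.v 2) % .v 0

/-- `[k, l, c, q, φ, x]`: the class `x` of `φ` is connected -/
def ccE : E := all 6 (call2 powE 2 (.v 0 + .v 1 + 6))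
  (or (neg (all 9 (.v 0 + .v 1 + 6) (all 12 (.v 0 + .v 1 + 6)
    (or (neg (and (eqn (call3 diE 7 (.v 4) (.v 9)) (.v 5))
      (and (eqn (call3 diE 7 (.v 4) (.v 12)) (.v 5))
        (call6 uaE (.v 0) (.v 1) (.v 2) (.v 3) (.v 9) (.v 12)))))
      (eqn (call3 diE 2 (.v 6) (.v 9)) (call3 diE 2 (.v 6) (.v 12)))))))
    (all 9 (.v 0 + .v 1 + 6) (all 12 (.v 0 + .v 1 + 6)
      (or (neg (and (eqn (call3 diE 7 (.v 4) (.v 9)) (.v 5))
        (eqn (call3 diE 7 (.v 4) (.v 12)) (.v 5))))
        (eqn (call3 diE 2 (.v 6) (.v 9)) (call3 diE 2 (.v 6) (.v 12)))))))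

/-- `[t, x, y]`: adjacency in `K₅` (`t = 0`) or `K₃,₃` (`t = 1`) -/
def paE : E := .ite (.v 0) (neg (eqn (less (.v 1) 3) (less (.v 2) 3))) (neg (eqn (.v 1) (.v 2)))

/-- `[k, l, c, q]`: the union is not planar -/
def npE : E := ex 4 2 (ex 7 (call2 powE 7 (.v 0 + .v 1 + 6))
  (and (all 10 (5 + .v 4) (and (ex 13 (.v 0 + .v 1 + 6) (eqn (call3 diE 7 (.v 7) (.v 13)) (.v 10)))
    (call6 ccE (.v 0) (.v 1) (.v 2) (.v 3) (.v 7) (.v 10))))
    (all 10 (5 + .v 4) (all 13 (5 + .v 4) (or (neg (call3 paE (.v 4) (.v 10) (.v 13)))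
      (ex 16 (.v 0 + .v 1 + 6) (ex 19 (.v 0 + .v 1 + 6)
        (and (eqn (call3 diE 7 (.v 7) (.v 16)) (.v 10))
          (and (eqn (call3 diE 7 (.v 7) (.v 19)) (.v 13))
            (call6 uaE (.v 0) (.v 1) (.v 2) (.v 3) (.v 16) (.v 19)))))))))))

/-- `[k, l, l', c]`: least code of a graph on `0, ..., k+l'-1` that is equivalent to the graph on
`0, ..., k+l-1` with code `c` -/
def bfE : E := .lt (call2 powE 2 ((.v 0 + .v 2) * (.v 0 + .v 2)))
  (.fold (.v 4) (.v 4) (.ite (less (.v 6) (.v 4)) (.v 6)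
    (.ite (all 8 (call2 powE 2 ((.v 0 + 6) * (.v 0 + 6)))
      (eqn (call4 npE (.v 0) (.v 1) (.v 3) (.v 8)) (call4 npE (.v 0) (.v 2) (.v 5) (.v 8))))
      (.v 5) (.v 6))))

/-- `[u]`: number of marked vertices `< u` -/
def rkE : E := .fold (.g 9) (.ld 7 (.v 0 / .g 9))
  (.ite (less (.v 0 / .g 9 * .g 9 + .v 1) (.v 0))
    (.v 2 + call1 (bitE 6) (.v 0 / .g 9 * .g 9 + .v 1)) (.v 2))

end Pool.Agent.MP9d6bd1
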