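import Mathlib

/-!
# MP_9d6bd1_lc: minors and planar graphs
-/

set_option autoImplicit false

namespace Pool.Agent.MP9d6bd1

/-- `K` is a minor of `G`: there are disjoint nonempty connected branch sets, one for every vertex of
`K`, with an edge of `G` between the branch sets of adjacent vertices. -/
def HasMinor {V W : Type} (G : SimpleGraph V) (K : SimpleGraph W) : Prop :=
  ∃ B : W → Set V, (∀ i, (G.induce (B i)).Connected) ∧ (∀ i j, i ≠ j → Disjoint (B i) (B j)) ∧
    ∀ i j, K.Adj i j → ∃ u ∈ B i, ∃ v ∈ B j, G.Adj u v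

/-- Planar graphs (Wagner's characterisation): no minor `K₅` and no minor `K₃,₃`. -/
def Planar {V : Type} (G : SimpleGraph V) : Prop :=
  ¬ HasMinor G (⊤ : SimpleGraph (Fin 5)) ∧ ¬ HasMinor G (completeBipartiteGraph (Fin 3) (Fin 3))

end Pool.Agent.MP9d6bd1
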