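import Mathlib
import Pool.Agent.Lib.MP_9d6bd1_lc.Minor

/-!
# MP_9d6bd1_lc: definitions for the graph theory part

Internal notion of planarity: abstract duals (Whitney), i.e. every edge has two faces `l e`, `r e`,
and the edge sets separating a set of faces from its complement are exactly the even edge sets.
-/

set_option autoImplicit false

open Classical

namespace Pool.Agent.MP9d6bd1

/-! ### even edge sets and duals -/

/-- every vertex is in an even number of members of `Z`. -/
def EvenSet {V : Type} (Z : Set (Sym2 V)) : Prop := ∀ v, Even {e | e ∈ Z ∧ v ∈ e}.ncard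

/-- the edges of `G` with exactly one of their two faces in `J`. -/
def cut {V ι : Type} (G : SimpleGraph V) (l r : Sym2 V → ι) (J : Set ι) : Set (Sym2 V) :=
  {e | e ∈ G.edgeSet ∧ ¬ (l e ∈ J ↔ r e ∈ J)}

/-- `l, r` make `ι` the vertex set of a (connected) dual of `G`. -/
structure IsDual {V ι : Type} (G : SimpleGraph V) (l r : Sym2 V → ι) : Prop where
  even : ∀ J, EvenSet (cut G l r J)
  exist : ∀ Z, Z ⊆ G.edgeSet → EvenSet Z → ∃ J, cut G l r J = Z
  conn : ∀ J, cut G l r J = ∅ → J = ∅ ∨ J = Set.univ

/-- `G` has an abstract dual with finitely many faces (at least one). -/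
def HasDual {V : Type} (G : SimpleGraph V) : Prop :=
  ∃ (ι : Type) (l r : Sym2 V → ι), Finite ι ∧ Nonempty ι ∧ IsDual G l r

/-! ### graphs on a fixed vertex type -/

/-- contraction of `x y`: the vertex `y` is merged into `x` (and becomes isolated). -/
noncomputable def contr {V : Type} (G : SimpleGraph V) (x y : V) : SimpleGraph V :=
  G.map (fun t => if t = y then x else t)

/-- the star with centre `c` and leaves `x, y, z` (those different from `c`). -/
def claw {V : Type} (c x y z : V) : SimpleGraph V :=
  SimpleGraph.edge c x ⊔ SimpleGraph.edge c y ⊔ SimpleGraph.edge c z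

/-- neighbours of a set of vertices outside of it. -/
def nbr {V : Type} (G : SimpleGraph V) (Z : Set V) : Set V :=
  {u | u ∉ Z ∧ ∃ v ∈ Z, G.Adj u v}

/-- the edges of `G` with at least one end in `Z`. -/
def inc {V : Type} (G : SimpleGraph V) (Z : Set V) : SimpleGraph V where
  Adj u v := G.Adj u v ∧ (u ∈ Z ∨ v ∈ Z)
  symm := ⟨fun _ _ h => ⟨h.1.symm, h.2.symm⟩⟩
  loopless := ⟨fun v h => G.loopless.irrefl v h.1⟩

/-- the edges of `G` with no end in `Z`. -/
def off {V : Type} (G : SimpleGraph V) (Z : Set V) : SimpleGraph V where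
  Adj u v := G.Adj u v ∧ u ∉ Z ∧ v ∉ Z
  symm := ⟨fun _ _ h => ⟨h.1.symm, h.2.2, h.2.1⟩⟩
  loopless := ⟨fun v h => G.loopless.irrefl v h.1⟩

/-- `B` spans a 2-connected subgraph with at least three vertices. -/
def TwoConn {V : Type} (G : SimpleGraph V) (B : Set V) : Prop :=
  3 ≤ B.ncard ∧ ∀ z, (G.induce (B \ {z})).Preconnected

/-- `c 0, c 1, ..., c m = c 0` is a cycle of length `m`. -/
structure IsCyc {V : Type} (G : SimpleGraph V) (m : ℕ) (c : ℕ → V) : Prop where
  len : 3 ≤ m
  close : c m = c 0
  inj : ∀ i j, i < m → j < m → c i = c j → i = j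
  adj : ∀ i, i < m → G.Adj (c i) (c (i + 1))

/-! ### boundaried graphs -/

/-- `A'` can replace `A` in every finite graph `A ⊔ Q` that meets `A` only in the terminals `T`.
(Used for `V = ℕ` only, so that there is room for every `Q`.) -/
def Red {V : Type} (T : Set V) (A A' : SimpleGraph V) : Prop :=
  A'.support \ T ⊆ A.support \ T ∧
    ∀ Q : SimpleGraph V, Q.support.Finite → Disjoint Q.support (A.support \ T) →
      (Planar (A ⊔ Q) ↔ Planar (A' ⊔ Q))

/-- the number of nonterminals (vertices outside `T` that are not isolated). -/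
noncomputable def rho {V : Type} (T : Set V) (A : SimpleGraph V) : ℕ := (A.support \ T).ncard

/-- `A` cannot be replaced by a graph with fewer nonterminals. -/
def Irr {V : Type} (T : Set V) (A : SimpleGraph V) : Prop :=
  ∀ A', Red T A A' → rho T A ≤ rho T A'

end Pool.Agent.MP9d6bd1
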