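import Mathlib
import Pool.Agent.Lib.MP_9d6bd1_lc.GDefs
import Pool.Agent.Lib.MP_9d6bd1_lc.Fun

/-!
# MP_9d6bd1_lc: graphs coded by numbers
-/

set_option autoImplicit false

namespace Pool.Agent.MP9d6bd1

/-- the graph on `0, ..., s-1` with code `c` -/
def cg (s c : ℕ) : SimpleGraph ℕ :=
  SimpleGraph.fromRel fun a b => a < s ∧ b < s ∧ c / 2 ^ (a * s + b) % 2 = 1

/-- position of the vertex `a` of a test graph (on `0, ..., k+5`) -/
def tpos (k l a : ℕ) : ℕ := if a < k then a else a + l

/-- union of the graph on `0, ..., k+l-1` with code `c` and the test graph with code `q` -/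
noncomputable def ug (k l c q : ℕ) : SimpleGraph ℕ := cg (k + l) c ⊔ (cg (k + 6) q).map (tpos k l)

end Pool.Agent.MP9d6bd1
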