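import Mathlib
import Pool.Agent.Lib.MP_9d6bd1_lc.Fun

/-!
# MP_9d6bd1_lc: evaluation lemmas
-/

set_option autoImplicit false

namespace Pool.Agent.MP9d6bd1

open E

variable (κ : Par) (σ : St) (l : List ℕ)

@[simp] theorem ev_c (k : ℕ) : (E.c k).ev κ σ l = k := rfl

@[simp] theorem ev_v (x : ℕ) : (E.v x).ev κ σ l = l.getD x 0 := rfl

@[simp] theorem ev_g (x : ℕ) : (E.g x).ev κ σ l = σ.g x := rfl

@[simp] theorem ev_inp (a : E) : (E.inp a).ev κ σ l = min (κ.inp (a.ev κ σ l)) κ.top := rfl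

@[simp] theorem ev_ld (b : Fin 16) (a : E) :
    (E.ld b a).ev κ σ l = if a.ev κ σ l < κ.lim then σ.m b (a.ev κ σ l) else 0 := rfl

@[simp] theorem ev_add (a b : E) : (a + b).ev κ σ l = a.ev κ σ l + b.ev κ σ l := rfl

@[simp] theorem ev_sub (a b : E) : (a - b).ev κ σ l = a.ev κ σ l - b.ev κ σ l := rfl

@[simp] theorem ev_mul (a b : E) : (a * b).ev κ σ l = a.ev κ σ l * b.ev κ σ l := rfl

@[simp] theorem ev_div (a b : E) : (a / b).ev κ σ l = a.ev κ σ l / b.ev κ σ l := rfl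

@[simp] theorem ev_mod (a b : E) : (a % b).ev κ σ l = a.ev κ σ l % b.ev κ σ l := rfl

@[simp] theorem ev_ofNat (n : ℕ) : (no_index (OfNat.ofNat n : E)).ev κ σ l = n := rfl

@[simp] theorem ev_zero : (0 : E).ev κ σ l = 0 := rfl

@[simp] theorem ev_one : (1 : E).ev κ σ l = 1 := rfl

@[simp] theorem ev_less (a b : E) :
    (less a b).ev κ σ l = if a.ev κ σ l < b.ev κ σ l then 1 else 0 := rfl

@[simp] theorem ev_eqn (a b : E) :
    (eqn a b).ev κ σ l = if a.ev κ σ l = b.ev κ σ l then 1 else 0 := rfl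

@[simp] theorem ev_ite (a b d : E) :
    (E.ite a b d).ev κ σ l = if a.ev κ σ l = 0 then d.ev κ σ l else b.ev κ σ l := rfl

@[simp] theorem ev_neg (a : E) : (neg a).ev κ σ l = if a.ev κ σ l = 0 then 1 else 0 := rfl

@[simp] theorem ev_and (a b : E) :
    (E.and a b).ev κ σ l = if a.ev κ σ l = 0 then 0 else b.ev κ σ l := rfl

@[simp] theorem ev_or (a b : E) :
    (E.or a b).ev κ σ l = if a.ev κ σ l = 0 then b.ev κ σ l else 1 := rfl

@[simp] theorem ev_lt (a b : E) : (E.lt a b).ev κ σ l = b.ev κ σ (l ++ [a.ev κ σ l]) := rfl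

theorem ev_fr (k : ℕ) (f : E) : (E.fr k f).ev κ σ l = f.ev κ σ (l.drop (l.length - k)) := rfl

@[simp] theorem ev_call1 (f a : E) : (call1 f a).ev κ σ l = f.ev κ σ [a.ev κ σ l] := by
  simp [call1, ev_fr]

@[simp] theorem ev_call2 (f a b : E) : (call2 f a b).ev κ σ l =
    f.ev κ σ [a.ev κ σ l, b.ev κ σ (l ++ [a.ev κ σ l])] := by
  simp [call2, ev_fr]

@[simp] theorem ev_call3 (f a b d : E) : (call3 f a b d).ev κ σ l =
    f.ev κ σ [a.ev κ σ l, b.ev κ σ (l ++ [a.ev κ σ l]),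
      d.ev κ σ (l ++ [a.ev κ σ l, b.ev κ σ (l ++ [a.ev κ σ l])])] := by
  simp [call3, ev_fr]

@[simp] theorem ev_call4 (f a b d e : E) : (call4 f a b d e).ev κ σ l =
    f.ev κ σ [a.ev κ σ l, b.ev κ σ (l ++ [a.ev κ σ l]),
      d.ev κ σ (l ++ [a.ev κ σ l, b.ev κ σ (l ++ [a.ev κ σ l])]),
      e.ev κ σ (l ++ [a.ev κ σ l, b.ev κ σ (l ++ [a.ev κ σ l]),
        d.ev κ σ (l ++ [a.ev κ σ l, b.ev κ σ (l ++ [a.ev κ σ l])])])] := by
  simp [call4, ev_fr]

theorem ev_call6 (f a b d e h i : E) : (call6 f a b d e h i).ev κ σ l =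
    (E.fr 6 f).ev κ σ ((((((l ++ [a.ev κ σ l]) ++ [b.ev κ σ (l ++ [a.ev κ σ l])]) ++
      [d.ev κ σ ((l ++ [a.ev κ σ l]) ++ [b.ev κ σ (l ++ [a.ev κ σ l])])]) ++
      [e.ev κ σ (((l ++ [a.ev κ σ l]) ++ [b.ev κ σ (l ++ [a.ev κ σ l])]) ++
        [d.ev κ σ ((l ++ [a.ev κ σ l]) ++ [b.ev κ σ (l ++ [a.ev κ σ l])])])]) ++
      [h.ev κ σ ((((l ++ [a.ev κ σ l]) ++ [b.ev κ σ (l ++ [a.ev κ σ l])]) ++
        [d.ev κ σ ((l ++ [a.ev κ σ l]) ++ [b.ev κ σ (l ++ [a.ev κ σ l])])]) ++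
        [e.ev κ σ (((l ++ [a.ev κ σ l]) ++ [b.ev κ σ (l ++ [a.ev κ σ l])]) ++
          [d.ev κ σ ((l ++ [a.ev κ σ l]) ++ [b.ev κ σ (l ++ [a.ev κ σ l])])])])]) ++
      [i.ev κ σ (((((l ++ [a.ev κ σ l]) ++ [b.ev κ σ (l ++ [a.ev κ σ l])]) ++
      [d.ev κ σ ((l ++ [a.ev κ σ l]) ++ [b.ev κ σ (l ++ [a.ev κ σ l])])]) ++
      [e.ev κ σ (((l ++ [a.ev κ σ l]) ++ [b.ev κ σ (l ++ [a.ev κ σ l])]) ++
        [d.ev κ σ ((l ++ [a.ev κ σ l]) ++ [b.ev κ σ (l ++ [a.ev κ σ l])])])]) ++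
      [h.ev κ σ ((((l ++ [a.ev κ σ l]) ++ [b.ev κ σ (l ++ [a.ev κ σ l])]) ++
        [d.ev κ σ ((l ++ [a.ev κ σ l]) ++ [b.ev κ σ (l ++ [a.ev κ σ l])])]) ++
        [e.ev κ σ (((l ++ [a.ev κ σ l]) ++ [b.ev κ σ (l ++ [a.ev κ σ l])]) ++
          [d.ev κ σ ((l ++ [a.ev κ σ l]) ++ [b.ev κ σ (l ++ [a.ev κ σ l])])])])])]) := rfl

/-- six arguments that do not depend on the temporary variables -/
theorem ev_call6' (f a b d e h i : E) (x₀ x₁ x₂ x₃ x₄ x₅ : ℕ)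
    (h₀ : ∀ t, a.ev κ σ (l ++ t) = x₀) (h₁ : ∀ t, b.ev κ σ (l ++ t) = x₁)
    (h₂ : ∀ t, d.ev κ σ (l ++ t) = x₂) (h₃ : ∀ t, e.ev κ σ (l ++ t) = x₃)
    (h₄ : ∀ t, h.ev κ σ (l ++ t) = x₄) (h₅ : ∀ t, i.ev κ σ (l ++ t) = x₅) :
    (call6 f a b d e h i).ev κ σ l = f.ev κ σ [x₀, x₁, x₂, x₃, x₄, x₅] := by
  have h₀' := h₀ []
  simp only [List.append_nil] at h₀'
  simp [call6, ev_fr, h₀', h₁, h₂, h₃, h₄, h₅]

/-- iteration: if `F i` describes the value of the accumulator after `i` steps -/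
theorem ev_fold (n a b : E) (m : ℕ) (F : ℕ → ℕ) (hn : n.ev κ σ l = m) (hm : m ≤ κ.cap)
    (h0 : a.ev κ σ l = F 0) (hF : ∀ i < m, b.ev κ σ (l ++ [i, F i, m]) = F (i + 1))
    (ht : ∀ i < m, F (i + 1) ≤ κ.top) : (E.fold n a b).ev κ σ l = F m := by
  have key : ∀ i ≤ m, (Nat.rec (a.ev κ σ l)
      (fun i acc => min (b.ev κ σ (l ++ [i, acc, min (n.ev κ σ l) κ.cap])) κ.top) i : ℕ) = F i := by
    intro i hi
    induction i with
    | zero => exact h0
    | succ i ih =>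
      have h1 := ih (by omega)
      simp only [h1]
      rw [hn, min_eq_left hm, hF i (by omega), min_eq_left (ht i (by omega))]
  have h2 : (E.fold n a b).ev κ σ l = (Nat.rec (a.ev κ σ l)
      (fun i acc => min (b.ev κ σ (l ++ [i, acc, min (n.ev κ σ l) κ.cap])) κ.top)
      (min (n.ev κ σ l) κ.cap) : ℕ) := rfl
  rw [h2, hn, min_eq_left hm]
  have := key m le_rfl
  rw [hn, min_eq_left hm] at this
  exact this

/-- sums -/
theorem ev_sum (n a b : E) (m s : ℕ) (F : ℕ → ℕ) (hn : n.ev κ σ l = m) (hm : m ≤ κ.cap)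
    (h0 : a.ev κ σ l = s) (hF : ∀ i < m, ∀ acc, b.ev κ σ (l ++ [i, acc, m]) = acc + F i)
    (ht : s + ∑ i ∈ Finset.range m, F i ≤ κ.top) :
    (E.fold n a b).ev κ σ l = s + ∑ i ∈ Finset.range m, F i := by
  refine ev_fold κ σ l n a b m (fun i => s + ∑ j ∈ Finset.range i, F j) hn hm (by simp [h0]) ?_ ?_
  · intro i hi
    rw [hF i hi, Finset.sum_range_succ]
    ring
  · intro i hi
    refine le_trans ?_ ht
    have : ∑ j ∈ Finset.range (i + 1), F j ≤ ∑ j ∈ Finset.range m, F j :=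
      Finset.sum_le_sum_of_subset (Finset.range_mono hi)
    omega

/-- bounded universal quantifier -/
theorem ev_all (d : ℕ) (n b : E) (m : ℕ) (P : ℕ → Prop) (hl : l.length = d)
    (hn : n.ev κ σ l = m) (hm : m ≤ κ.cap) (h1 : 1 ≤ κ.top)
    (hP : ∀ i < m, ∀ acc, (b.ev κ σ (l ++ [i, acc, m]) = 0 ↔ ¬ P i)) [Decidable (∀ i < m, P i)] :
    (all d n b).ev κ σ l = if ∀ i < m, P i then 1 else 0 := by
  classical
  have key := ev_fold κ σ l n 1 (.ite b (.v (d + 1)) 0) m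
    (fun i => if ∀ j < i, P j then 1 else 0) hn hm (by simp) ?_ ?_
  · rw [all, key]
    split_ifs <;> simp_all
  · intro i hi
    have hv : (l ++ [i, (if ∀ j < i, P j then 1 else 0 : ℕ), m]).getD (d + 1) 0 =
        if ∀ j < i, P j then 1 else 0 := by
      subst hl
      simp
    rw [ev_ite, ev_v, hv]
    by_cases h : P i
    · rw [if_neg (by rw [hP i hi]; simpa using h)]
      have : (∀ j < i + 1, P j) ↔ ∀ j < i, P j := by
        constructor
        · intro h2 j hj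
          exact h2 j (by omega)
        · intro h2 j hj
          rcases Nat.lt_succ_iff_lt_or_eq.mp hj with h3 | h3
          · exact h2 j h3
          · exact h3 ▸ h
      simp only [this]
    · rw [if_pos ((hP i hi _).mpr h)]
      have : ¬ (∀ j < i + 1, P j) := fun h2 => h (h2 i (by omega))
      simp only [this, if_false, ev_zero]
  · intro i hi
    split_ifs <;> omega

/-- bounded existential quantifier -/
theorem ev_ex (d : ℕ) (n b : E) (m : ℕ) (P : ℕ → Prop) (hl : l.length = d)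
    (hn : n.ev κ σ l = m) (hm : m ≤ κ.cap) (h1 : 1 ≤ κ.top)
    (hP : ∀ i < m, ∀ acc, (b.ev κ σ (l ++ [i, acc, m]) = 0 ↔ ¬ P i)) [Decidable (∃ i < m, P i)] :
    (ex d n b).ev κ σ l = if ∃ i < m, P i then 1 else 0 := by
  classical
  have key := ev_fold κ σ l n 0 (.ite b 1 (.v (d + 1))) m
    (fun i => if ∃ j < i, P j then 1 else 0) hn hm (by simp) ?_ ?_
  · rw [ex, key]
    split_ifs <;> simp_all
  · intro i hi
    have hv : (l ++ [i, (if ∃ j < i, P j then 1 else 0 : ℕ), m]).getD (d + 1) 0 =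
        if ∃ j < i, P j then 1 else 0 := by
      subst hl
      simp
    rw [ev_ite, ev_v, hv]
    by_cases h : P i
    · rw [if_neg (by rw [hP i hi]; simpa using h)]
      have : ∃ j < i + 1, P j := ⟨i, by omega, h⟩
      simp only [this, if_true, ev_one]
    · rw [if_pos ((hP i hi _).mpr h)]
      have : (∃ j < i + 1, P j) ↔ ∃ j < i, P j := by
        constructor
        · rintro ⟨j, hj, h2⟩
          rcases Nat.lt_succ_iff_lt_or_eq.mp hj with h3 | h3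
          · exact ⟨j, h3, h2⟩
          · exact absurd (h3 ▸ h2) h
        · rintro ⟨j, hj, h2⟩
          exact ⟨j, by omega, h2⟩
      simp only [this]
  · intro i hi
    split_ifs <;> omega

/-- powers -/
theorem ev_pow (b k : ℕ) (hk : k ≤ κ.cap) (hb : 1 ≤ b) (ht : b ^ k ≤ κ.top) :
    powE.ev κ σ [b, k] = b ^ k := by
  refine ev_fold κ σ [b, k] (.v 1) 1 (.v 0 * .v 3) k (fun i => b ^ i) (by simp) hk (by simp) ?_ ?_
  · intro i hi
    simp [pow_succ, mul_comm]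
  · intro i hi
    exact le_trans (Nat.pow_le_pow_right hb (by omega)) ht

/-- digits -/
theorem ev_di (b x a : ℕ) (hk : a ≤ κ.cap) (hb : 1 ≤ b) (ht : b ^ a ≤ κ.top) :
    diE.ev κ σ [b, x, a] = x / b ^ a % b := by
  simp only [diE, ev_mod, ev_div, ev_v, ev_call2]
  simp [ev_pow κ σ b a hk hb ht]

/-- bits of a number -/
theorem ev_bc (c i : ℕ) (hk : i ≤ κ.cap) (ht : 2 ^ i ≤ κ.top) :
    bcE.ev κ σ [c, i] = c / 2 ^ i % 2 := by
  simp only [bcE, ev_mod, ev_div, ev_v, ev_call2]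
  simp [ev_pow κ σ 2 i hk (by norm_num) ht]

end Pool.Agent.MP9d6bd1
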