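import Mathlib
import Pool.Agent.Lib.MP_9d6bd1_lc.GDefs

/-!
# MP_9d6bd1_lc, module G18a: calculus of reductions, formal part
-/

set_option autoImplicit false

open Classical

namespace Pool.Agent.MP9d6bd1

namespace GRedAAux

theorem mem_map {V V' : Type} (e : V ≃ V') (G : SimpleGraph V) (u v : V') :
    (G.map e).Adj u v ↔ G.Adj (e.symm u) (e.symm v) := by
  rw [SimpleGraph.map_adj']
  constructor
  · rintro ⟨-, a, b, hab, rfl, rfl⟩
    simpa using hab
  · intro h
    refine ⟨?_, e.symm u, e.symm v, h, by simp, by simp⟩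
    rintro rfl
    exact h.ne rfl

theorem map_sup {V V' : Type} (e : V ≃ V') (G H : SimpleGraph V) :
    (G ⊔ H).map e = G.map e ⊔ H.map e := by
  ext u v
  rw [SimpleGraph.sup_adj, mem_map, mem_map, mem_map, SimpleGraph.sup_adj]

theorem map_symm {V V' : Type} (e : V ≃ V') (G : SimpleGraph V') :
    (G.map e.symm).map e = G := by
  ext u v
  rw [mem_map, mem_map]
  simp

theorem map_symm' {V V' : Type} (e : V ≃ V') (G : SimpleGraph V) :
    (G.map e).map e.symm = G := by
  ext u v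
  rw [mem_map, mem_map]
  simp

theorem support_map {V V' : Type} (e : V ≃ V') (G : SimpleGraph V) :
    (G.map e).support = e '' G.support := by
  ext u
  rw [SimpleGraph.mem_support]
  constructor
  · rintro ⟨w, hw⟩
    rw [mem_map] at hw
    exact ⟨e.symm u, ⟨_, hw⟩, by simp⟩
  · rintro ⟨v, ⟨w, hw⟩, rfl⟩
    exact ⟨e w, by rw [mem_map]; simpa using hw⟩

theorem minor_equiv {V V' W : Type} (e : V ≃ V') (G : SimpleGraph V) (K : SimpleGraph W)
    (h : HasMinor G K) : HasMinor (G.map e) K := by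
  obtain ⟨B, h1, h2, h3⟩ := h
  refine ⟨fun i => e '' B i, fun i => ?_, fun i j hij => ?_, fun i j hij => ?_⟩
  · let f : G.induce (B i) →g (G.map e).induce (e '' B i) :=
      { toFun := fun x => ⟨e x.1, ⟨x.1, x.2, rfl⟩⟩
        map_rel' := by
          rintro ⟨a, ha⟩ ⟨b, hb⟩ hab
          show (G.map e).Adj (e a) (e b)
          rw [mem_map]
          simpa using hab }
    refine (h1 i).map f ?_
    rintro ⟨_, ⟨x, hx, rfl⟩⟩
    exact ⟨⟨x, hx⟩, rfl⟩
  · exact (Set.disjoint_image_iff e.injective).2 (h2 i j hij)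
  · obtain ⟨u, hu, v, hv, huv⟩ := h3 i j hij
    refine ⟨e u, ⟨u, hu, rfl⟩, e v, ⟨v, hv, rfl⟩, ?_⟩
    rw [mem_map]
    simpa using huv

theorem minor_equiv_iff {V V' W : Type} (e : V ≃ V') (G : SimpleGraph V) (K : SimpleGraph W) :
    HasMinor (G.map e) K ↔ HasMinor G K := by
  refine ⟨fun h => ?_, minor_equiv e G K⟩
  have := minor_equiv e.symm _ K h
  rwa [map_symm'] at this

theorem planar_equiv {V V' : Type} (e : V ≃ V') (G : SimpleGraph V) :
    Planar (G.map e) ↔ Planar G := by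
  unfold Planar
  rw [minor_equiv_iff, minor_equiv_iff]

theorem inc_sup_off {V : Type} (A : SimpleGraph V) (Z : Set V) : inc A Z ⊔ off A Z = A := by
  ext u v
  simp only [SimpleGraph.sup_adj, inc, off]
  tauto

theorem mem_inc_support {V : Type} {A : SimpleGraph V} {Z : Set V} {v : V}
    (h : v ∈ (inc A Z).support) : v ∈ Z ∨ v ∈ nbr A Z := by
  obtain ⟨w, h1, h2⟩ := h
  by_cases hv : v ∈ Z
  · exact Or.inl hv
  · refine Or.inr ⟨hv, w, ?_, h1⟩
    tauto

theorem mem_off_support {V : Type} {A : SimpleGraph V} {Z : Set V} {v : V}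
    (h : v ∈ (off A Z).support) : v ∉ Z := by
  obtain ⟨w, h1, h2, h3⟩ := h
  exact h2

theorem mem_nbr_support {V : Type} {A : SimpleGraph V} {Z : Set V} {v : V}
    (h : v ∈ nbr A Z) : v ∈ A.support := by
  obtain ⟨h1, w, h2, h3⟩ := h
  exact ⟨w, h3⟩

theorem off_le {V : Type} (A : SimpleGraph V) (Z : Set V) : off A Z ≤ A := by
  intro u v h
  exact h.1

theorem inc_le {V : Type} (A : SimpleGraph V) (Z : Set V) : inc A Z ≤ A := by
  intro u v h
  exact h.1

theorem mem_support_sup {V : Type} {A B : SimpleGraph V} {v : V} :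
    v ∈ (A ⊔ B).support ↔ v ∈ A.support ∨ v ∈ B.support := by
  simp only [SimpleGraph.mem_support, SimpleGraph.sup_adj, exists_or]

end GRedAAux

open GRedAAux

theorem red_refl (T : Set ℕ) (A : SimpleGraph ℕ) : Red T A A :=
  ⟨subset_rfl, fun _ _ _ => Iff.rfl⟩

theorem red_trans (T : Set ℕ) (A A' A'' : SimpleGraph ℕ) (h : Red T A A') (h' : Red T A' A'') :
    Red T A A'' :=
  ⟨h'.1.trans h.1, fun Q hQ hd => (h.2 Q hQ hd).trans (h'.2 Q hQ (hd.mono_right h.1))⟩

theorem red_equiv (T : Set ℕ) (A A' : SimpleGraph ℕ) (e : ℕ ≃ ℕ) (h : Red T A A') :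
    Red (e '' T) (A.map e) (A'.map e) := by
  obtain ⟨h1, h2⟩ := h
  constructor
  · rw [support_map, support_map, ← Set.image_sdiff e.injective, ← Set.image_sdiff e.injective]
    exact Set.image_mono h1
  · intro Q hQ hd
    rw [support_map, ← Set.image_sdiff e.injective] at hd
    have hQ' : Q = (Q.map e.symm).map e := (map_symm e Q).symm
    rw [hQ', ← map_sup, ← map_sup, planar_equiv, planar_equiv]
    apply h2
    · rw [support_map]
      exact hQ.image _
    · rw [support_map]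
      rw [Set.disjoint_left] at hd ⊢
      rintro _ ⟨v, hv, rfl⟩ hv'
      exact hd hv ⟨_, hv', by simp⟩

theorem exists_irr (T : Set ℕ) (A : SimpleGraph ℕ) (hA : A.support.Finite) (hT : T.Finite) :
    ∃ A', Red T A A' ∧ Irr T A' ∧ A'.support.Finite := by
  have hex : ∃ n, ∃ A', Red T A A' ∧ rho T A' = n := ⟨_, A, red_refl T A, rfl⟩
  obtain ⟨A', h1, h2⟩ := Nat.find_spec hex
  refine ⟨A', h1, fun A'' h3 => ?_, ?_⟩
  · rw [h2]
    exact Nat.find_min' hex ⟨A'', red_trans _ _ _ _ h1 h3, rfl⟩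
  · refine (hA.union hT).subset fun v hv => ?_
    by_cases hvT : v ∈ T
    · exact Or.inr hvT
    · exact Or.inl (h1.1 ⟨hv, hvT⟩).1

theorem red_sup (T S : Set ℕ) (A₁ A₂ A₁' : SimpleGraph ℕ) (hf : A₂.support.Finite)
    (h₁ : A₁.support ∩ (A₂.support ∪ T) ⊆ S) (h₂ : S \ T ⊆ (A₁ ⊔ A₂).support)
    (h : Red S A₁ A₁') : Red T (A₁ ⊔ A₂) (A₁' ⊔ A₂) := by
  constructor
  · rintro v ⟨hv, hvT⟩
    refine ⟨?_, hvT⟩
    by_cases hvS : v ∈ S
    · exact h₂ ⟨hvS, hvT⟩
    · rw [mem_support_sup] at hv ⊢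
      rcases hv with hv | hv
      · exact Or.inl (h.1 ⟨hv, hvS⟩).1
      · exact Or.inr hv
  · intro Q hQ hd
    rw [sup_assoc, sup_assoc]
    apply h.2
    · refine (hf.union hQ).subset fun v hv => ?_
      rw [mem_support_sup] at hv
      exact hv
    · rw [Set.disjoint_left] at hd ⊢
      intro v hv hv'
      rw [mem_support_sup] at hv
      apply hv'.2
      apply h₁
      refine ⟨hv'.1, ?_⟩
      rcases hv with hv | hv
      · exact Or.inl hv
      · right
        by_contra hvT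
        exact hd hv ⟨mem_support_sup.2 (Or.inl hv'.1), hvT⟩

theorem red_local (T Z : Set ℕ) (A A₁ : SimpleGraph ℕ) (hA : A.support.Finite)
    (h : Red (T ∩ Z ∪ nbr A Z) (inc A Z) A₁) : Red T A (A₁ ⊔ off A Z) := by
  have key := red_sup T (T ∩ Z ∪ nbr A Z) (inc A Z) (off A Z) A₁
    (hA.subset (SimpleGraph.support_mono (off_le A Z))) ?_ ?_ h
  · rwa [inc_sup_off] at key
  · rintro v ⟨hv, hv'⟩
    rcases mem_inc_support hv with hz | hz
    · rcases hv' with hv' | hv'
      · exact absurd hz (mem_off_support hv')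
      · exact Or.inl ⟨hv', hz⟩
    · exact Or.inr hz
  · rw [inc_sup_off]
    rintro v ⟨hv | hv, hv'⟩
    · exact absurd hv.1 hv'
    · exact mem_nbr_support hv

end Pool.Agent.MP9d6bd1
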