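import Mathlib
import Pool.Agent.Lib.MP_9d6bd1_lc.GDefs

/-!
# MP_9d6bd1_lc module G20, definitions
-/

set_option autoImplicit false

open Classical

namespace Pool.Agent.MP9d6bd1

/-- no separation of order at most 3 has at least four terminals strictly on both sides -/
def NoBal (T : Set ℕ) (A : SimpleGraph ℕ) : Prop :=
  ∀ Z : Set ℕ, (nbr A Z).Finite → (nbr A Z).ncard ≤ 3 →
    (T ∩ Z).ncard ≤ 3 ∨ (T \ (Z ∪ nbr A Z)).ncard ≤ 3

/-- sides with at most three terminals and at most three attachments have at most `M`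
nonterminals -/
def SmallSides (M : ℕ) (T : Set ℕ) (A : SimpleGraph ℕ) : Prop :=
  ∀ Z : Set ℕ, (nbr A Z).ncard ≤ 3 → (T ∩ Z).ncard ≤ 3 → ((A.support ∩ Z) \ T).ncard ≤ M

end Pool.Agent.MP9d6bd1
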