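import Mathlib
import Pool.Agent.Lib.MP_9d6bd1_lc.GDefs
import Pool.Agent.Lib.MP_9d6bd1_lc.GRedA
import Pool.Agent.Lib.MP_9d6bd1_lc.GSidesDefs

/-!
# MP_9d6bd1_lc, module G22: the gadget theorem, the induction
-/

set_option autoImplicit false

open Classical

namespace Pool.Agent.MP9d6bd1

namespace GGadgetAux

open GRedAAux

/-- replacing both sides of a separation -/
theorem red_both (T Z : Set ℕ) (A A₁ A₂ : SimpleGraph ℕ) (hA : A.support.Finite)
    (hT : T.Finite)
    (h₁ : Red (T ∩ Z ∪ nbr A Z) (inc A Z) A₁) (h₂ : Red (T \ Z ∪ nbr A Z) (off A Z) A₂) :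
    Red T A (A₁ ⊔ A₂) := by
  have hs₁ : ∀ v ∈ A₁.support, v ∈ Z ∨ v ∈ nbr A Z := by
    intro v hv
    by_cases hvT : v ∈ T ∩ Z ∪ nbr A Z
    · rcases hvT with hvT | hvT
      · exact Or.inl hvT.2
      · exact Or.inr hvT
    · exact mem_inc_support (h₁.1 ⟨hv, hvT⟩).1
  have hnf : (nbr A Z).Finite := hA.subset fun v hv => mem_nbr_support hv
  constructor
  · rintro v ⟨hv, hvT⟩
    refine ⟨?_, hvT⟩
    rw [mem_support_sup] at hv
    rcases hv with hv | hv
    · by_cases hvS : v ∈ T ∩ Z ∪ nbr A Z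
      · rcases hvS with hvS | hvS
        · exact absurd hvS.1 hvT
        · exact mem_nbr_support hvS
      · exact SimpleGraph.support_mono (inc_le A Z) (h₁.1 ⟨hv, hvS⟩).1
    · by_cases hvS : v ∈ T \ Z ∪ nbr A Z
      · rcases hvS with hvS | hvS
        · exact absurd hvS.1 hvT
        · exact mem_nbr_support hvS
      · exact SimpleGraph.support_mono (off_le A Z) (h₂.1 ⟨hv, hvS⟩).1
  · intro Q hQ hd
    rw [Set.disjoint_left] at hd
    have e1 : Planar (A ⊔ Q) ↔ Planar (A₁ ⊔ (off A Z ⊔ Q)) := by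
      have : A ⊔ Q = inc A Z ⊔ (off A Z ⊔ Q) := by rw [← sup_assoc, inc_sup_off]
      rw [this]
      apply h₁.2
      · refine (hA.union hQ).subset fun v hv => ?_
        rw [mem_support_sup] at hv
        rcases hv with hv | hv
        · exact Or.inl (SimpleGraph.support_mono (off_le A Z) hv)
        · exact Or.inr hv
      · rw [Set.disjoint_left]
        intro v hv hv'
        have hvA := SimpleGraph.support_mono (inc_le A Z) hv'.1
        rw [mem_support_sup] at hv
        rcases mem_inc_support hv'.1 with hz | hz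
        · rcases hv with hv | hv
          · exact mem_off_support hv hz
          · by_cases hvT : v ∈ T
            · exact hv'.2 (Or.inl ⟨hvT, hz⟩)
            · exact hd hv ⟨hvA, hvT⟩
        · exact hv'.2 (Or.inr hz)
    have e2 : Planar (A₁ ⊔ (off A Z ⊔ Q)) ↔ Planar (A₂ ⊔ (A₁ ⊔ Q)) := by
      have : A₁ ⊔ (off A Z ⊔ Q) = off A Z ⊔ (A₁ ⊔ Q) := by
        rw [← sup_assoc, ← sup_assoc, sup_comm A₁]
      rw [this]
      apply h₂.2
      · refine ((hA.union (hT.union hnf)).union hQ).subset fun v hv => ?_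
        rw [mem_support_sup] at hv
        rcases hv with hv | hv
        · left
          by_cases hvS : v ∈ T ∩ Z ∪ nbr A Z
          · rcases hvS with hvS | hvS
            · exact Or.inr (Or.inl hvS.1)
            · exact Or.inr (Or.inr hvS)
          · exact Or.inl (SimpleGraph.support_mono (inc_le A Z) (h₁.1 ⟨hv, hvS⟩).1)
        · exact Or.inr hv
      · rw [Set.disjoint_left]
        intro v hv hv'
        have hvA := SimpleGraph.support_mono (off_le A Z) hv'.1
        rw [mem_support_sup] at hv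
        rcases hv with hv | hv
        · rcases hs₁ v hv with hz | hz
          · exact mem_off_support hv'.1 hz
          · exact hv'.2 (Or.inr hz)
        · by_cases hvT : v ∈ T
          · exact hv'.2 (Or.inl ⟨hvT, mem_off_support hv'.1⟩)
          · exact hd hv ⟨hvA, hvT⟩
    rw [e1, e2, ← sup_assoc, sup_comm A₂]

theorem rho_both (T Z : Set ℕ) (A A₁ A₂ : SimpleGraph ℕ) (hn : (nbr A Z).Finite)
    (h1 : A₁.support.Finite) (h2 : A₂.support.Finite) :
    rho T (A₁ ⊔ A₂) ≤ rho (T ∩ Z ∪ nbr A Z) A₁ + rho (T \ Z ∪ nbr A Z) A₂ + (nbr A Z).ncard := by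
  unfold rho
  have hsub : (A₁ ⊔ A₂).support \ T ⊆
      (A₁.support \ (T ∩ Z ∪ nbr A Z)) ∪ (A₂.support \ (T \ Z ∪ nbr A Z)) ∪ nbr A Z := by
    rintro v ⟨hv, hvT⟩
    rw [mem_support_sup] at hv
    by_cases hz : v ∈ nbr A Z
    · exact Or.inr hz
    · left
      rcases hv with hv | hv
      · left
        refine ⟨hv, ?_⟩
        rintro (h | h)
        · exact hvT h.1
        · exact hz h
      · right
        refine ⟨hv, ?_⟩
        rintro (h | h)
        · exact hvT h.1
        · exact hz h
  refine (Set.ncard_le_ncard hsub ((h1.sdiff.union h2.sdiff).union hn)).trans ?_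
  refine (Set.ncard_union_le _ _).trans ?_
  exact Nat.add_le_add_right (Set.ncard_union_le _ _) _

theorem main (f M C₁ : ℕ)
    (hf : ∀ (T : Set ℕ) (A : SimpleGraph ℕ), T.Finite →
      A.support.Finite → T.ncard ≤ 13 → Irr T A → rho T A ≤ f)
    (hM : ∀ (T : Set ℕ) (A : SimpleGraph ℕ), T.Finite →
      A.support.Finite → Irr T A → SmallSides M T A)
    (hC : ∀ (T : Set ℕ) (A : SimpleGraph ℕ), T.Finite →
      A.support.Finite → Planar A → Irr T A → 14 ≤ T.ncard → NoBal T A → SmallSides M T A →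
      rho T A ≤ C₁ * T.ncard)
    (hN : ∀ (T : Set ℕ) (A : SimpleGraph ℕ), A.support.Finite →
      ¬ Planar A → Irr T A → rho T A ≤ 5) (j : ℕ) :
    7 ≤ j → ∀ (T : Set ℕ) (A : SimpleGraph ℕ), T.Finite → A.support.Finite → T.ncard ≤ j →
      Irr T A → rho T A + 3 ≤ (f + 2 * C₁ + 8) * (j - 6) := by
  induction j using Nat.strong_induction_on with
  | _ j ih =>
  intro hj T A hT hA hTj hI
  obtain ⟨i, rfl⟩ : ∃ i, j = i + 7 := ⟨j - 7, by omega⟩
  have hi : i + 7 - 6 = i + 1 := by omega
  rw [hi]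
  by_cases h13 : T.ncard ≤ 13
  · have := hf T A hT hA h13 hI
    nlinarith [Nat.zero_le (f * i), Nat.zero_le (C₁ * i)]
  · push Not at h13
    by_cases hP : Planar A
    · by_cases hB : NoBal T A
      · have h := hC T A hT hA hP hI h13 hB (hM T A hT hA hI)
        have h' : C₁ * T.ncard ≤ C₁ * (i + 7) := Nat.mul_le_mul_left _ hTj
        have h'' : C₁ * 5 ≤ C₁ * i := Nat.mul_le_mul_left _ (by omega)
        nlinarith [Nat.zero_le (f * i), Nat.zero_le (C₁ * i)]
      · unfold NoBal at hB
        push Not at hB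
        obtain ⟨Z, hZf, hZ3, ha1, ha2⟩ := hB
        obtain ⟨A₁, r1, i1, f1⟩ := exists_irr (T ∩ Z ∪ nbr A Z) (inc A Z)
          (hA.subset (SimpleGraph.support_mono (inc_le A Z)))
          ((hT.subset Set.inter_subset_left).union hZf)
        obtain ⟨A₂, r2, i2, f2⟩ := exists_irr (T \ Z ∪ nbr A Z) (off A Z)
          (hA.subset (SimpleGraph.support_mono (off_le A Z))) (hT.sdiff.union hZf)
        have hr := red_both T Z A A₁ A₂ hA hT r1 r2
        have hle := (hI _ hr).trans (rho_both T Z A A₁ A₂ hZf f1 f2)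
        -- counting terminals
        have hcount : (T ∩ Z).ncard + (T \ (Z ∪ nbr A Z)).ncard ≤ T.ncard := by
          rw [← Set.ncard_union_eq _ (hT.subset Set.inter_subset_left) hT.sdiff]
          · refine Set.ncard_le_ncard ?_ hT
            rintro v (hv | hv)
            · exact hv.1
            · exact hv.1
          · rw [Set.disjoint_left]
            rintro v hv hv'
            exact hv'.2 (Or.inl hv.2)
        have hT1 : (T ∩ Z ∪ nbr A Z).ncard ≤ (T ∩ Z).ncard + 3 :=
          (Set.ncard_union_le _ _).trans (by omega)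
        have hT2 : (T \ Z ∪ nbr A Z).ncard ≤ (T \ (Z ∪ nbr A Z)).ncard + 3 := by
          have : T \ Z ∪ nbr A Z = T \ (Z ∪ nbr A Z) ∪ nbr A Z := by
            ext v
            simp only [Set.mem_union, Set.mem_sdiff]
            tauto
          rw [this]
          exact (Set.ncard_union_le _ _).trans (by omega)
        have k1 := ih ((T ∩ Z).ncard + 3) (by omega) (by omega) _ A₁
          ((hT.subset Set.inter_subset_left).union hZf) f1 hT1 i1
        have k2 := ih ((T \ (Z ∪ nbr A Z)).ncard + 3) (by omega) (by omega) _ A₂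
          (hT.sdiff.union hZf) f2 hT2 i2
        obtain ⟨a, ha⟩ : ∃ a, (T ∩ Z).ncard = a + 4 := ⟨(T ∩ Z).ncard - 4, by omega⟩
        obtain ⟨b, hb⟩ : ∃ b, (T \ (Z ∪ nbr A Z)).ncard = b + 4 :=
          ⟨(T \ (Z ∪ nbr A Z)).ncard - 4, by omega⟩
        rw [ha] at k1 hcount
        rw [hb] at k2 hcount
        have ea : a + 4 + 3 - 6 = a + 1 := by omega
        have eb : b + 4 + 3 - 6 = b + 1 := by omega
        rw [ea] at k1
        rw [eb] at k2
        have hsum : (f + 2 * C₁ + 8) * (a + 1) + (f + 2 * C₁ + 8) * (b + 1) ≤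
            (f + 2 * C₁ + 8) * (i + 1) := by
          rw [← Nat.mul_add]
          exact Nat.mul_le_mul_left _ (by omega)
        omega
    · have := hN T A hA hP hI
      nlinarith [Nat.zero_le (f * i), Nat.zero_le (C₁ * i)]

end GGadgetAux

end Pool.Agent.MP9d6bd1
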