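import Mathlib
import Pool.Agent.Lib.MP_9d6bd1_lc.GDefs

set_option autoImplicit false

/-!
# MP_9d6bd1_lc, module G01a: minors (monotonicity, quotients, contraction)
-/

open Classical

namespace Pool.Agent.MP9d6bd1

namespace GMinorAux

variable {V V' W : Type}

/-- connection inside a set -/
def RS (G : SimpleGraph V) (S : Set V) (a b : V) : Prop :=
  Relation.ReflTransGen (fun u v => G.Adj u v ∧ u ∈ S ∧ v ∈ S) a b

theorem rtg_lift {α β : Type} {r : α → α → Prop} {q : β → β → Prop} (f : α → β)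
    (h : ∀ a b, r a b → q (f a) (f b)) {a b : α} (hab : Relation.ReflTransGen r a b) :
    Relation.ReflTransGen q (f a) (f b) := by
  induction hab with
  | refl => exact Relation.ReflTransGen.refl
  | tail _ h2 ih => exact ih.tail (h _ _ h2)

theorem rs_mono {G G' : SimpleGraph V} {S S' : Set V} (h : G ≤ G') (hS : S ⊆ S') {a b : V}
    (hab : RS G S a b) : RS G' S' a b :=
  rtg_lift id (fun _ _ h1 => ⟨h h1.1, hS h1.2.1, hS h1.2.2⟩) hab

theorem rs_trans {G : SimpleGraph V} {S : Set V} {a b c : V} (h1 : RS G S a b)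
    (h2 : RS G S b c) : RS G S a c := Relation.ReflTransGen.trans h1 h2

theorem rs_single {G : SimpleGraph V} {S : Set V} {a b : V} (h : G.Adj a b) (ha : a ∈ S)
    (hb : b ∈ S) : RS G S a b := Relation.ReflTransGen.single ⟨h, ha, hb⟩

theorem rs_of_reachable {G : SimpleGraph V} {S : Set V} {a b : S}
    (h : (G.induce S).Reachable a b) : RS G S a b := by
  rw [SimpleGraph.reachable_iff_reflTransGen] at h
  exact rtg_lift Subtype.val (fun u v huv => ⟨huv, u.2, v.2⟩) h

theorem reachable_of_rs {G : SimpleGraph V} {S : Set V} {a b : V} (ha : a ∈ S)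
    (h : RS G S a b) : ∃ hb : b ∈ S, (G.induce S).Reachable ⟨a, ha⟩ ⟨b, hb⟩ := by
  induction h with
  | refl => exact ⟨ha, SimpleGraph.Reachable.refl _⟩
  | tail _ h2 ih =>
    obtain ⟨hb, h3⟩ := ih
    refine ⟨h2.2.2, h3.trans ?_⟩
    exact SimpleGraph.Adj.reachable (show (G.induce S).Adj ⟨_, hb⟩ ⟨_, h2.2.2⟩ from h2.1)

theorem connected_iff {G : SimpleGraph V} {S : Set V} :
    (G.induce S).Connected ↔ S.Nonempty ∧ ∀ a ∈ S, ∀ b ∈ S, RS G S a b := by
  constructor
  · intro h
    obtain ⟨x⟩ := h.nonempty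
    exact ⟨⟨x, x.2⟩, fun a ha b hb => rs_of_reachable (h.preconnected ⟨a, ha⟩ ⟨b, hb⟩)⟩
  · rintro ⟨⟨x, hx⟩, h⟩
    refine (SimpleGraph.connected_iff _).2 ⟨fun a b => ?_, ⟨⟨x, hx⟩⟩⟩
    obtain ⟨_, h2⟩ := reachable_of_rs a.2 (h a a.2 b b.2)
    exact h2

theorem connected_singleton (G : SimpleGraph V) (x : V) : (G.induce {x}).Connected := by
  rw [connected_iff]
  refine ⟨⟨x, rfl⟩, ?_⟩
  rintro a rfl b rfl
  exact Relation.ReflTransGen.refl

theorem exists_of_mem_support {G : SimpleGraph V} {f : V → V'} {w : V'}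
    (h : w ∈ (G.map f).support) : ∃ u, f u = w := by
  obtain ⟨v, hv⟩ := h
  obtain ⟨_, u, _, _, hu, _⟩ := hv
  exact ⟨u, hu⟩

theorem minor_embed {G : SimpleGraph V} {K : SimpleGraph W} (f : V ↪ V') (hm : HasMinor G K) :
    HasMinor (G.map f) K := by
  obtain ⟨B, h1, h2, h3⟩ := hm
  refine ⟨fun i => f '' B i, fun i => ?_, fun i j hij => ?_, fun i j hij => ?_⟩
  · have h := connected_iff.1 (h1 i)
    rw [connected_iff]
    refine ⟨h.1.image f, ?_⟩
    rintro _ ⟨a, ha, rfl⟩ _ ⟨b, hb, rfl⟩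
    exact rtg_lift f (fun u v huv =>
      ⟨⟨fun h' => huv.1.ne (f.injective h'), u, v, huv.1, rfl, rfl⟩,
        ⟨u, huv.2.1, rfl⟩, ⟨v, huv.2.2, rfl⟩⟩) (h.2 a ha b hb)
  · exact (Set.disjoint_image_iff f.injective).2 (h2 i j hij)
  · obtain ⟨u, hu, v, hv, huv⟩ := h3 i j hij
    exact ⟨f u, ⟨u, hu, rfl⟩, f v, ⟨v, hv, rfl⟩,
      ⟨fun h' => huv.ne (f.injective h'), u, v, huv, rfl, rfl⟩⟩

theorem k5_noiso (i : Fin 5) : ∃ j, (⊤ : SimpleGraph (Fin 5)).Adj i j := by
  obtain ⟨j, hj⟩ := exists_ne i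
  exact ⟨j, by simpa using hj.symm⟩

theorem k33_noiso (i : Fin 3 ⊕ Fin 3) :
    ∃ j, (completeBipartiteGraph (Fin 3) (Fin 3)).Adj i j := by
  rcases i with i | i
  · exact ⟨Sum.inr 0, by simp [completeBipartiteGraph]⟩
  · exact ⟨Sum.inl 0, by simp [completeBipartiteGraph]⟩

end GMinorAux

open GMinorAux

theorem minor_mono {V W : Type} {G G' : SimpleGraph V} {K : SimpleGraph W} (h : G ≤ G')
    (hm : HasMinor G K) : HasMinor G' K := by
  obtain ⟨B, h1, h2, h3⟩ := hm
  refine ⟨B, fun i => ?_, h2, fun i j hij => ?_⟩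
  · have h4 := connected_iff.1 (h1 i)
    exact connected_iff.2 ⟨h4.1, fun a ha b hb => rs_mono h subset_rfl (h4.2 a ha b hb)⟩
  · obtain ⟨u, hu, v, hv, huv⟩ := h3 i j hij
    exact ⟨u, hu, v, hv, h huv⟩

theorem minor_map {V V' W : Type} (G : SimpleGraph V) (K : SimpleGraph W)
    (hK : ∀ i, ∃ j, K.Adj i j) (f : V → V')
    (hf : ∀ w ∈ (G.map f).support, (G.induce (f ⁻¹' {w})).Connected)
    (hm : HasMinor (G.map f) K) : HasMinor G K := by
  obtain ⟨B, h1, h2, h3⟩ := hm
  -- every vertex of a branch set is in the support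
  have hsupp : ∀ i, ∀ w ∈ B i, w ∈ (G.map f).support := by
    intro i w hw
    obtain ⟨j, hj⟩ := hK i
    obtain ⟨u, hu, v, _, huv⟩ := h3 i j hj
    have h4 := (connected_iff.1 (h1 i)).2 w hw u hu
    rcases Relation.ReflTransGen.cases_head h4 with rfl | ⟨c, hc, _⟩
    · exact ⟨v, huv⟩
    · exact ⟨c, hc.1⟩
  -- fibres
  have hfib : ∀ i, ∀ w ∈ B i, ∀ a, f a = w → ∀ b, f b = w → RS G (f ⁻¹' B i) a b := by
    intro i w hw a ha b hb
    have h4 := (connected_iff.1 (hf w (hsupp i w hw))).2 a ha b hb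
    refine rs_mono le_rfl ?_ h4
    intro x hx
    have hx' : f x = w := hx
    change f x ∈ B i
    rw [hx']
    exact hw
  have hpath : ∀ i, ∀ w w', w ∈ B i → RS (G.map f) (B i) w w' → w' ∈ B i ∧
      ∀ a, f a = w → ∀ b, f b = w' → RS G (f ⁻¹' B i) a b := by
    intro i w w' hw h
    induction h with
    | refl => exact ⟨hw, hfib i w hw⟩
    | tail _ h5 ih =>
      refine ⟨h5.2.2, fun a ha b hb => ?_⟩
      obtain ⟨_, u', v', huv', hu', hv'⟩ := h5.1
      have h6 := ih.2 a ha u' hu'
      refine rs_trans h6 (rs_trans (rs_single huv' ?_ ?_) (hfib i _ h5.2.2 v' hv' b hb))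
      · change f u' ∈ B i
        rw [hu']
        exact h5.2.1
      · change f v' ∈ B i
        rw [hv']
        exact h5.2.2
  refine ⟨fun i => f ⁻¹' B i, fun i => ?_, fun i j hij => ?_, fun i j hij => ?_⟩
  · have h4 := connected_iff.1 (h1 i)
    rw [connected_iff]
    refine ⟨?_, fun a ha b hb => (hpath i (f a) (f b) ha (h4.2 _ ha _ hb)).2 a rfl b rfl⟩
    obtain ⟨w, hw⟩ := h4.1
    obtain ⟨u, hu⟩ := exists_of_mem_support (hsupp i w hw)
    refine ⟨u, ?_⟩
    change f u ∈ B i
    rw [hu]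
    exact hw
  · exact (h2 i j hij).preimage f
  · obtain ⟨u, hu, v, hv, _, u', v', huv', rfl, rfl⟩ := h3 i j hij
    exact ⟨u', hu, v', hv, huv'⟩

theorem planar_mono {V : Type} {G G' : SimpleGraph V} (h : G ≤ G') (hG : Planar G') :
    Planar G :=
  ⟨fun h1 => hG.1 (minor_mono h h1), fun h1 => hG.2 (minor_mono h h1)⟩

theorem planar_map {V V' : Type} (G : SimpleGraph V) (f : V → V')
    (hf : ∀ w ∈ (G.map f).support, (G.induce (f ⁻¹' {w})).Connected) (hG : Planar G) :
    Planar (G.map f) :=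
  ⟨fun h1 => hG.1 (minor_map G _ k5_noiso f hf h1),
    fun h1 => hG.2 (minor_map G _ k33_noiso f hf h1)⟩

theorem planar_embed {V V' : Type} (G : SimpleGraph V) (f : V ↪ V') :
    Planar (G.map f) ↔ Planar G := by
  constructor
  · intro h
    exact ⟨fun h1 => h.1 (minor_embed f h1), fun h1 => h.2 (minor_embed f h1)⟩
  · intro h
    refine planar_map G f (fun w hw => ?_) h
    obtain ⟨u, rfl⟩ := exists_of_mem_support hw
    have h1 : f ⁻¹' {f u} = {u} := by
      ext x
      simp
    rw [h1]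
    exact connected_singleton G u

/-- contraction of a connected set `Z` onto one of its vertices `w`. -/
theorem planar_collapse {V : Type} (G : SimpleGraph V) (Z : Set V) (w : V) (hw : w ∈ Z)
    (hZ : (G.induce Z).Connected) (hG : Planar G) :
    Planar (G.map (fun t => if t ∈ Z then w else t)) := by
  refine planar_map G _ (fun v hv => ?_) hG
  obtain ⟨u, hu⟩ := exists_of_mem_support hv
  by_cases huZ : u ∈ Z
  · have hvw : v = w := by
      rw [← hu]
      simp [huZ]
    have h1 : (fun t => if t ∈ Z then w else t) ⁻¹' {v} = Z := by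
      ext x
      simp only [Set.mem_preimage, Set.mem_singleton_iff, hvw]
      by_cases hx : x ∈ Z
      · simp [hx]
      · simp only [hx, if_false, iff_false]
        intro h
        exact hx (h ▸ hw)
    rw [h1]
    exact hZ
  · have hvu : v = u := by
      rw [← hu]
      simp [huZ]
    have h1 : (fun t => if t ∈ Z then w else t) ⁻¹' {v} = {u} := by
      ext x
      simp only [Set.mem_preimage, Set.mem_singleton_iff, hvu]
      by_cases hx : x ∈ Z
      · simp only [hx, if_true]
        constructor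
        · intro h
          exact absurd (h ▸ hw) huZ
        · intro h
          exact absurd (h ▸ hx) huZ
      · simp [hx]
    rw [h1]
    exact connected_singleton G u

theorem planar_contr {V : Type} (G : SimpleGraph V) (x y : V) (hxy : G.Adj x y) (hG : Planar G) :
    Planar (contr G x y) := by
  have h1 : contr G x y =
      G.map (fun t => @ite V (t ∈ ({x, y} : Set V)) (propDecidable _) x t) := by
    unfold contr
    congr 1
    funext t
    by_cases hty : t = y
    · subst hty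
      simp
    · by_cases htx : t = x
      · subst htx
        simp
      · simp [hty, htx]
  rw [h1]
  refine planar_collapse G {x, y} x (by simp) ?_ hG
  rw [connected_iff]
  refine ⟨⟨x, by simp⟩, ?_⟩
  have h2 : RS G {x, y} x y := rs_single hxy (by simp) (by simp)
  have h3 : RS G {x, y} y x := rs_single hxy.symm (by simp) (by simp)
  intro a ha b hb
  simp only [Set.mem_insert_iff, Set.mem_singleton_iff] at ha hb
  rcases ha with rfl | rfl <;> rcases hb with rfl | rfl
  · exact Relation.ReflTransGen.refl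
  · exact h2
  · exact h3
  · exact Relation.ReflTransGen.refl

end Pool.Agent.MP9d6bd1
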