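import Mathlib
import Pool.Agent.Lib.MP_9d6bd1_lc.GDefs
import Pool.Agent.Lib.MP_9d6bd1_lc.GMinor

set_option autoImplicit false

/-!
# MP_9d6bd1_lc, module G17: finite index of boundaried planarity
-/

open Classical

namespace Pool.Agent.MP9d6bd1

namespace GIndexAux

open GMinorAux

theorem map_sup {V W : Type} (f : V → W) (G H : SimpleGraph V) :
    (G ⊔ H).map f = G.map f ⊔ H.map f := by
  ext u v
  simp only [SimpleGraph.map_adj', SimpleGraph.sup_adj]
  constructor
  · rintro ⟨hne, a, b, h | h, rfl, rfl⟩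
    · exact Or.inl ⟨hne, a, b, h, rfl, rfl⟩
    · exact Or.inr ⟨hne, a, b, h, rfl, rfl⟩
  · rintro (⟨hne, a, b, h, rfl, rfl⟩ | ⟨hne, a, b, h, rfl, rfl⟩)
    · exact ⟨hne, a, b, Or.inl h, rfl, rfl⟩
    · exact ⟨hne, a, b, Or.inr h, rfl, rfl⟩

theorem rtg_lift' {α β : Type} {r : α → α → Prop} {q : β → β → Prop} (f : α → β)
    (h : ∀ a b, r a b → Relation.ReflTransGen q (f a) (f b)) {a b : α}
    (hab : Relation.ReflTransGen r a b) : Relation.ReflTransGen q (f a) (f b) := by
  induction hab with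
  | refl => exact Relation.ReflTransGen.refl
  | tail _ h2 ih => exact ih.trans (h _ _ h2)

theorem exists_equiv {α β : Type} [Finite α] [Finite β] (h : Nat.card α = Nat.card β) :
    Nonempty (α ≃ β) := by
  have := Fintype.ofFinite α
  have := Fintype.ofFinite β
  rw [Nat.card_eq_fintype_card, Nat.card_eq_fintype_card] at h
  exact ⟨Fintype.equivOfCardEq h⟩

/-- a map that fixes the support fixes the graph -/
theorem map_fix {V : Type} (f : V → V) (G : SimpleGraph V) (h : ∀ v ∈ G.support, f v = v) :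
    G.map f = G := by
  ext u v
  simp only [SimpleGraph.map_adj']
  constructor
  · rintro ⟨_, a, b, hab, rfl, rfl⟩
    rwa [h a ⟨b, hab⟩, h b ⟨a, hab.symm⟩]
  · intro huv
    exact ⟨huv.ne, u, v, huv, h u ⟨v, huv⟩, h v ⟨u, huv.symm⟩⟩

/-- operations on `Q` which are compatible with every partner meeting `Q` in `T` only. -/
def RM (T : Set ℕ) (Q R : SimpleGraph ℕ) : Prop :=
  R.support ⊆ Q.support ∪ T ∧ ∀ A' : SimpleGraph ℕ, Disjoint Q.support (A'.support \ T) →
    Planar (A' ⊔ Q) → Planar (A' ⊔ R)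

theorem rm_trans {T : Set ℕ} {Q R S : SimpleGraph ℕ} (h : RM T Q R) (h' : RM T R S) :
    RM T Q S := by
  refine ⟨?_, fun A' hd hp => ?_⟩
  · intro v hv
    rcases h'.1 hv with hv | hv
    · exact h.1 hv
    · exact Or.inr hv
  · refine h'.2 A' ?_ (h.2 A' hd hp)
    rw [Set.disjoint_left] at hd ⊢
    intro v hv hv'
    rcases h.1 hv with hv1 | hv1
    · exact hd hv1 hv'
    · exact hv'.2 hv1

theorem rm_of_le {T : Set ℕ} {Q R : SimpleGraph ℕ} (h : R ≤ Q) : RM T Q R := by
  refine ⟨?_, fun A' _ hp => planar_mono (sup_le_sup_left h A') hp⟩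
  rintro v ⟨w, hw⟩
  exact Or.inl ⟨w, h hw⟩

theorem contr_support {Q : SimpleGraph ℕ} {u v : ℕ} (huv : Q.Adj u v) :
    (contr Q u v).support ⊆ Q.support \ {v} := by
  rintro w ⟨w', _, a, b, hab, ha, _⟩
  simp only at ha
  by_cases h : a = v
  · rw [if_pos h] at ha
    subst ha
    exact ⟨⟨v, huv⟩, huv.ne⟩
  · rw [if_neg h] at ha
    subst ha
    exact ⟨⟨b, hab⟩, h⟩

theorem sup_contr {A Q : SimpleGraph ℕ} {u v : ℕ} (hv : v ∉ A.support) :
    contr (A ⊔ Q) u v = A ⊔ contr Q u v := by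
  unfold contr
  rw [map_sup, map_fix _ A]
  intro w hw
  have : w ≠ v := fun h => hv (h ▸ hw)
  simp [this]

theorem rm_contr {T : Set ℕ} {Q : SimpleGraph ℕ} {u v : ℕ} (huv : Q.Adj u v) (hv : v ∉ T) :
    RM T Q (contr Q u v) := by
  refine ⟨fun w hw => Or.inl (contr_support huv hw).1, fun A' hd hp => ?_⟩
  have hvA : v ∉ A'.support := fun h =>
    (Set.disjoint_left.1 hd) (show v ∈ Q.support from ⟨u, huv.symm⟩) ⟨h, hv⟩
  rw [← sup_contr hvA]
  exact planar_contr _ u v (Or.inr huv) hp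

theorem off_le (G : SimpleGraph ℕ) (Z : Set ℕ) : off G Z ≤ G := fun _ _ h => h.1

/-- a nonplanar union `A ⊔ Q` stays nonplanar when `Q` is shrunk to at most six nonterminals. -/
theorem shrink {W : Type} [Fintype W] (K : SimpleGraph W) (hW : Fintype.card W ≤ 6) (T : Set ℕ)
    (A : SimpleGraph ℕ) : ∀ (n : ℕ) (Q : SimpleGraph ℕ), (Q.support \ T).ncard = n →
    Q.support.Finite → Disjoint Q.support (A.support \ T) → HasMinor (A ⊔ Q) K →
    ∃ R, RM T Q R ∧ R.support.Finite ∧ (R.support \ T).ncard ≤ 6 ∧ HasMinor (A ⊔ R) K := by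
  intro n
  induction n using Nat.strong_induction_on with
  | _ n ih =>
  intro Q hn hQ hd hm
  obtain ⟨B, h1, h2, h3⟩ := hm
  by_cases hc : ∃ i, ∃ v ∈ B i, ∃ u ∈ B i, v ∈ Q.support \ T ∧ Q.Adj u v
  · obtain ⟨i0, v, hv, u, hu, hvT, huv⟩ := hc
    have hvA : v ∉ A.support := fun h => (Set.disjoint_left.1 hd) hvT.1 ⟨h, hvT.2⟩
    set f : ℕ → ℕ := fun t => if t = v then u else t with hf
    have hfB : ∀ j, ∀ a ∈ B j, f a ∈ B j := by
      intro j a ha
      by_cases h : a = v
      · have hj : j = i0 := by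
          by_contra hne
          exact (Set.disjoint_left.1 (h2 j i0 hne)) (h ▸ ha) hv
        subst hj
        simp only [hf, if_pos h]
        exact hu
      · simp only [hf, if_neg h]
        exact ha
    have hcon : A ⊔ contr Q u v = (A ⊔ Q).map f := by
      rw [← sup_contr (u := u) (Q := Q) hvA]
      unfold contr
      congr 1
      funext t
      by_cases h : t = v <;> simp [hf, h]
    have hsub := contr_support huv
    have hm' : HasMinor (A ⊔ contr Q u v) K := by
      refine ⟨fun j => f '' B j, fun j => ?_, fun i j hij => ?_, fun i j hij => ?_⟩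
      · have h4 := connected_iff.1 (h1 j)
        refine connected_iff.2 ⟨h4.1.image f, ?_⟩
        rintro _ ⟨a, ha, rfl⟩ _ ⟨b, hb, rfl⟩
        refine rtg_lift' f ?_ (h4.2 a ha b hb)
        intro a b hab
        by_cases he : f a = f b
        · rw [he]
        · refine Relation.ReflTransGen.single ⟨?_, ⟨a, hab.2.1, rfl⟩, ⟨b, hab.2.2, rfl⟩⟩
          rw [hcon]
          exact ⟨he, a, b, hab.1, rfl, rfl⟩
      · refine (h2 i j hij).mono ?_ ?_
        · rintro _ ⟨a, ha, rfl⟩
          exact hfB i a ha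
        · rintro _ ⟨a, ha, rfl⟩
          exact hfB j a ha
      · obtain ⟨a, ha, b, hb, hab⟩ := h3 i j hij
        refine ⟨f a, ⟨a, ha, rfl⟩, f b, ⟨b, hb, rfl⟩, ?_⟩
        rw [hcon]
        refine ⟨?_, a, b, hab, rfl, rfl⟩
        intro he
        have hne : i ≠ j := hij.ne
        exact (Set.disjoint_left.1 (h2 i j hne)) (hfB i a ha) (he ▸ hfB j b hb)
    have hfin : (Q.support \ T).Finite := hQ.subset Set.sdiff_subset
    have hlt : ((contr Q u v).support \ T).ncard < n := by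
      rw [← hn]
      refine Set.ncard_lt_ncard ⟨fun w hw => ⟨(hsub hw.1).1, hw.2⟩, fun h => ?_⟩ hfin
      exact (hsub (h hvT).1).2 rfl
    obtain ⟨R, hR1, hR2, hR3, hR4⟩ := ih _ hlt (contr Q u v) rfl
      (hQ.subset fun w hw => (hsub hw).1) (hd.mono_left fun w hw => (hsub hw).1) hm'
    exact ⟨R, rm_trans (rm_contr huv hvT.2) hR1, hR2, hR3, hR4⟩
  · push Not at hc
    set Z : Set ℕ := (Q.support \ T) \ ⋃ i, B i with hZ
    have hRQ : off Q Z ≤ Q := off_le Q Z
    have hRs : (off Q Z).support ⊆ Q.support := by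
      rintro w ⟨w', hw⟩
      exact ⟨w', hRQ hw⟩
    have hnotZ : ∀ i, ∀ a ∈ B i, a ∉ Z := by
      intro i a ha h
      exact h.2 (Set.mem_iUnion.2 ⟨i, ha⟩)
    refine ⟨off Q Z, rm_of_le hRQ, hQ.subset hRs, ?_, B, fun i => ?_, h2, fun i j hij => ?_⟩
    · set g : W → ℕ := fun i => if h : (B i).Nonempty then h.some else 0 with hg
      have hsub : (off Q Z).support \ T ⊆ g '' Set.univ := by
        rintro v ⟨⟨w, hw⟩, hvT⟩
        have hvQ : v ∈ Q.support := ⟨w, hw.1⟩
        have hvB : v ∈ ⋃ i, B i := by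
          by_contra h
          exact hw.2.1 ⟨⟨hvQ, hvT⟩, h⟩
        obtain ⟨i, hi⟩ := Set.mem_iUnion.1 hvB
        refine ⟨i, Set.mem_univ _, ?_⟩
        have hne : (B i).Nonempty := ⟨v, hi⟩
        simp only [hg, dif_pos hne]
        by_contra hne'
        have h4 := (connected_iff.1 (h1 i)).2 v hi _ hne.some_mem
        rcases Relation.ReflTransGen.cases_head h4 with h5 | ⟨c, hc1, _⟩
        · exact hne' h5.symm
        · rcases hc1.1 with h6 | h6
          · exact (Set.disjoint_left.1 hd) hvQ ⟨⟨c, h6⟩, hvT⟩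
          · exact hc i v hi c hc1.2.2 ⟨hvQ, hvT⟩ h6.symm
      calc ((off Q Z).support \ T).ncard ≤ (g '' Set.univ).ncard :=
            Set.ncard_le_ncard hsub ((Set.finite_univ).image g)
        _ ≤ (Set.univ : Set W).ncard := Set.ncard_image_le Set.finite_univ
        _ = Fintype.card W := by rw [Set.ncard_univ, Nat.card_eq_fintype_card]
        _ ≤ 6 := hW
    · have h4 := connected_iff.1 (h1 i)
      refine connected_iff.2 ⟨h4.1, fun a ha b hb => ?_⟩
      refine rtg_lift id (fun a b hab => ⟨?_, hab.2.1, hab.2.2⟩) (h4.2 a ha b hb)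
      rcases hab.1 with h5 | h5
      · exact Or.inl h5
      · exact Or.inr ⟨h5, hnotZ i a hab.2.1, hnotZ i b hab.2.2⟩
    · obtain ⟨a, ha, b, hb, hab⟩ := h3 i j hij
      refine ⟨a, ha, b, hb, ?_⟩
      rcases hab with h5 | h5
      · exact Or.inl h5
      · exact Or.inr ⟨h5, hnotZ i a ha, hnotZ j b hb⟩

theorem shrink_planar (T : Set ℕ) (A Q : SimpleGraph ℕ) (hQ : Q.support.Finite)
    (hd : Disjoint Q.support (A.support \ T)) (hp : ¬ Planar (A ⊔ Q)) :
    ∃ R, RM T Q R ∧ R.support.Finite ∧ (R.support \ T).ncard ≤ 6 ∧ ¬ Planar (A ⊔ R) := by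
  unfold Planar at hp
  rw [not_and_or, not_not, not_not] at hp
  rcases hp with hp | hp
  · obtain ⟨R, h1, h2, h3, h4⟩ := shrink _ (by simp) T A _ Q rfl hQ hd hp
    exact ⟨R, h1, h2, h3, fun h => h.1 h4⟩
  · obtain ⟨R, h1, h2, h3, h4⟩ := shrink _ (by simp) T A _ Q rfl hQ hd hp
    exact ⟨R, h1, h2, h3, fun h => h.2 h4⟩

/-- the planar tests of the boundaried graph `A` with the terminals `t 0, ..., t (j - 1)`. -/
def Ty (j : ℕ) (t : Fin j → ℕ) (A : SimpleGraph ℕ) : Set (SimpleGraph (Fin j ⊕ Fin 6)) :=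
  {P | ∀ e : Fin 6 → ℕ, Function.Injective e → (∀ i, e i ∉ A.support ∪ Set.range t) →
    Planar (A ⊔ P.map (Sum.elim t e))}

theorem support_perm (σ : Equiv.Perm ℕ) (A : SimpleGraph ℕ) :
    (A.map σ).support = σ '' A.support := SimpleGraph.support_map σ.toEmbedding A

theorem planar_perm (σ : Equiv.Perm ℕ) (A : SimpleGraph ℕ) :
    Planar (A.map σ) ↔ Planar A := planar_embed A σ.toEmbedding

theorem ty_indep {j : ℕ} {t : Fin j → ℕ} {A : SimpleGraph ℕ} (hA : A.support.Finite)
    (P : SimpleGraph (Fin j ⊕ Fin 6)) {e e' : Fin 6 → ℕ} (he : Function.Injective e)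
    (he' : Function.Injective e') (h : ∀ i, e i ∉ A.support ∪ Set.range t)
    (h' : ∀ i, e' i ∉ A.support ∪ Set.range t) (hp : Planar (A ⊔ P.map (Sum.elim t e))) :
    Planar (A ⊔ P.map (Sum.elim t e')) := by
  have hfin : Finite ↥(A.support ∪ Set.range t) := (hA.union (Set.finite_range t)).to_subtype
  have inj : ∀ e : Fin 6 → ℕ, Function.Injective e → (∀ i, e i ∉ A.support ∪ Set.range t) →
      Function.Injective (Sum.elim (Subtype.val : ↥(A.support ∪ Set.range t) → ℕ) e) := by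
    intro e he h
    refine Function.Injective.sumElim Subtype.val_injective he ?_
    intro a b hab
    exact h b (hab ▸ a.2)
  obtain ⟨σ, hσ⟩ := Equiv.Perm.exists_extending_pair _ _ (inj e he h) (inj e' he' h')
  have hs : ∀ a ∈ A.support ∪ Set.range t, σ a = a := fun a ha => hσ (Sum.inl ⟨a, ha⟩)
  have hσe : ∀ i, σ (e i) = e' i := fun i => hσ (Sum.inr i)
  rw [← planar_perm σ, map_sup, map_fix σ A fun v hv => hs v (Or.inl hv),
    SimpleGraph.map_map] at hp
  have hcomp : (σ : ℕ → ℕ) ∘ Sum.elim t e = Sum.elim t e' := by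
    funext x
    rcases x with x | x
    · exact hs (t x) (Or.inr ⟨x, rfl⟩)
    · exact hσe x
  rwa [hcomp] at hp

theorem ty_sub {j : ℕ} (σ : Equiv.Perm ℕ) (t : Fin j → ℕ) (A : SimpleGraph ℕ) :
    Ty j t A ⊆ Ty j (σ ∘ t) (A.map σ) := by
  intro P hP e he h
  have h1 := hP (σ.symm ∘ e) (σ.symm.injective.comp he) (by
    intro i hi
    refine h i ?_
    rcases hi with hi | ⟨x, hx⟩
    · left
      rw [support_perm]
      exact ⟨_, hi, by simp⟩
    · right
      refine ⟨x, ?_⟩
      simp only [Function.comp_apply] at hx ⊢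
      rw [hx]
      simp)
  rw [← planar_perm σ, map_sup, SimpleGraph.map_map] at h1
  have hcomp : (σ : ℕ → ℕ) ∘ Sum.elim t (σ.symm ∘ e) = Sum.elim (σ ∘ t) e := by
    funext x
    rcases x with x | x
    · rfl
    · simp
  rwa [hcomp] at h1

theorem ty_nat {j : ℕ} (σ : Equiv.Perm ℕ) (t : Fin j → ℕ) (A : SimpleGraph ℕ) :
    Ty j (σ ∘ t) (A.map σ) = Ty j t A := by
  refine Set.Subset.antisymm ?_ (ty_sub σ t A)
  have h := ty_sub σ.symm (σ ∘ t) (A.map σ)
  rw [SimpleGraph.map_map] at h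
  have h1 : (σ.symm : ℕ → ℕ) ∘ (σ ∘ t) = t := by
    funext x
    simp
  have h2 : (σ.symm : ℕ → ℕ) ∘ (σ : ℕ → ℕ) = id := by
    funext x
    simp
  rw [h1, h2, SimpleGraph.map_id] at h
  exact h

theorem fresh {N S : Set ℕ} (hN : N.Finite) (hc : N.ncard ≤ 6) (hS : S.Finite)
    (hd : N ⊆ Sᶜ) : ∃ e : Fin 6 → ℕ, Function.Injective e ∧ (∀ i, e i ∉ S) ∧
      N ⊆ Set.range e := by
  obtain ⟨s, h1, h2, h3⟩ := Set.Infinite.exists_superset_ncard_eq hS.infinite_compl hd hN hc
  have hs : s.Finite := Set.finite_of_ncard_ne_zero (by omega)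
  have := hs.to_subtype
  have hcard : Nat.card ↥s = Nat.card (Fin 6) := by
    rw [Nat.card_coe_set_eq, h3]
    simp
  let E : Fin 6 ≃ ↥s := (exists_equiv hcard).some.symm
  refine ⟨fun i => (E i : ℕ), Subtype.val_injective.comp E.injective, fun i => h2 (E i).2, ?_⟩
  intro x hx
  exact ⟨E.symm ⟨x, h1 hx⟩, by simp⟩

theorem map_comap_of {V W : Type} (g : V → W) (R : SimpleGraph W) (h : R.support ⊆ Set.range g) :
    (R.comap g).map g = R := by
  ext u v
  simp only [SimpleGraph.map_adj', SimpleGraph.comap_adj]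
  constructor
  · rintro ⟨_, a, b, hab, rfl, rfl⟩
    exact hab
  · intro huv
    obtain ⟨a, rfl⟩ := h (⟨v, huv⟩ : u ∈ R.support)
    obtain ⟨b, rfl⟩ := h (⟨_, huv.symm⟩ : v ∈ R.support)
    exact ⟨huv.ne, a, b, huv, rfl, rfl⟩

theorem equiv_of_ty {j : ℕ} (t : Fin j → ℕ) (A A' : SimpleGraph ℕ) (hA : A.support.Finite)
    (hA' : A'.support.Finite) (h : Ty j t A = Ty j t A') (Q : SimpleGraph ℕ)
    (hQ : Q.support.Finite) (hd : Disjoint Q.support (A.support \ Set.range t))
    (hd' : Disjoint Q.support (A'.support \ Set.range t)) (hp : Planar (A' ⊔ Q)) :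
    Planar (A ⊔ Q) := by
  by_contra hn
  obtain ⟨R, hR, hRf, hR6, hRn⟩ := shrink_planar (Set.range t) A Q hQ hd hn
  have hNd : R.support \ Set.range t ⊆ (A.support ∪ A'.support ∪ Set.range t)ᶜ := by
    rintro v ⟨hv, hvt⟩ hv'
    have hvQ : v ∈ Q.support := by
      rcases hR.1 hv with h1 | h1
      · exact h1
      · exact absurd h1 hvt
    rcases hv' with (h1 | h1) | h1
    · exact (Set.disjoint_left.1 hd) hvQ ⟨h1, hvt⟩
    · exact (Set.disjoint_left.1 hd') hvQ ⟨h1, hvt⟩
    · exact hvt h1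
  obtain ⟨e, he, heS, hNe⟩ := fresh (hRf.subset Set.sdiff_subset) hR6
    ((hA.union hA').union (Set.finite_range t)) hNd
  set P : SimpleGraph (Fin j ⊕ Fin 6) := R.comap (Sum.elim t e) with hP
  have hPR : P.map (Sum.elim t e) = R := by
    refine map_comap_of _ R ?_
    intro v hv
    by_cases hvt : v ∈ Set.range t
    · obtain ⟨x, rfl⟩ := hvt
      exact ⟨Sum.inl x, rfl⟩
    · obtain ⟨x, rfl⟩ := hNe ⟨hv, hvt⟩
      exact ⟨Sum.inr x, rfl⟩
  have heA : ∀ i, e i ∉ A.support ∪ Set.range t := by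
    rintro i (h1 | h1)
    · exact heS i (Or.inl (Or.inl h1))
    · exact heS i (Or.inr h1)
  have heA' : ∀ i, e i ∉ A'.support ∪ Set.range t := by
    rintro i (h1 | h1)
    · exact heS i (Or.inl (Or.inr h1))
    · exact heS i (Or.inr h1)
  have h1 : P ∉ Ty j t A := by
    intro h2
    have h3 := h2 e he heA
    rw [hPR] at h3
    exact hRn h3
  rw [h] at h1
  apply h1
  intro e' he' heS'
  refine ty_indep hA' P he he' heA' heS' ?_
  rw [hPR]
  exact hR.2 A' hd' hp

theorem irr_le {j : ℕ} (t s : Fin j → ℕ) (ht : Function.Injective t) (hs : Function.Injective s)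
    (A C : SimpleGraph ℕ) (hA : A.support.Finite) (hC : C.support.Finite)
    (h : Ty j t A = Ty j s C) (hirr : Irr (Set.range t) A) :
    rho (Set.range t) A ≤ rho (Set.range s) C := by
  by_contra hlt
  push Not at hlt
  unfold rho at hlt
  obtain ⟨M, hM1, hM2⟩ := Set.exists_subset_card_eq hlt.le
  have hAf : (A.support \ Set.range t).Finite := hA.subset Set.sdiff_subset
  have hCf : (C.support \ Set.range s).Finite := hC.subset Set.sdiff_subset
  have hMf : M.Finite := hAf.subset hM1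
  have i1 : Finite ↥M := hMf.to_subtype
  have i2 : Finite ↥(C.support \ Set.range s) := hCf.to_subtype
  have hcard : Nat.card ↥(C.support \ Set.range s) = Nat.card ↥M := by
    rw [Nat.card_coe_set_eq, Nat.card_coe_set_eq, hM2]
  let E : ↥(C.support \ Set.range s) ≃ ↥M := (exists_equiv hcard).some
  have inj1 : Function.Injective
      (Sum.elim (Subtype.val : ↥(C.support \ Set.range s) → ℕ) s) := by
    refine Function.Injective.sumElim Subtype.val_injective hs ?_
    intro a b hab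
    exact a.2.2 ⟨b, hab.symm⟩
  have inj2 : Function.Injective
      (Sum.elim (fun x : ↥(C.support \ Set.range s) => (E x : ℕ)) t) := by
    refine Function.Injective.sumElim (Subtype.val_injective.comp E.injective) ht ?_
    intro a b hab
    exact (hM1 (E a).2).2 ⟨b, hab.symm⟩
  obtain ⟨σ, hσ⟩ := Equiv.Perm.exists_extending_pair _ _ inj1 inj2
  have hσs : ∀ i, σ (s i) = t i := fun i => hσ (Sum.inr i)
  have hσC : ∀ a (ha : a ∈ C.support \ Set.range s), σ a = (E ⟨a, ha⟩ : ℕ) :=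
    fun a ha => hσ (Sum.inl ⟨a, ha⟩)
  have hcomp : (σ : ℕ → ℕ) ∘ s = t := funext hσs
  have hty : Ty j t (C.map σ) = Ty j t A := by
    rw [h, ← ty_nat σ s C, hcomp]
  have hsupp : (C.map σ).support \ Set.range t = σ '' (C.support \ Set.range s) := by
    rw [support_perm, Set.image_sdiff σ.injective, ← Set.range_comp, hcomp]
  have hsub : (C.map σ).support \ Set.range t ⊆ A.support \ Set.range t := by
    rw [hsupp]
    rintro _ ⟨a, ha, rfl⟩
    rw [hσC a ha]
    exact hM1 (E ⟨a, ha⟩).2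
  have hCσ : (C.map σ).support.Finite := by
    rw [support_perm]
    exact hC.image _
  have hred : Red (Set.range t) A (C.map σ) := by
    refine ⟨hsub, fun Q hQ hd => ?_⟩
    have hd' : Disjoint Q.support ((C.map σ).support \ Set.range t) := hd.mono_right hsub
    exact ⟨equiv_of_ty t (C.map σ) A hCσ hA hty Q hQ hd' hd,
      equiv_of_ty t A (C.map σ) hA hCσ hty.symm Q hQ hd hd'⟩
  have h1 := hirr _ hred
  unfold rho at h1
  rw [hsupp, Set.ncard_image_of_injective _ σ.injective] at h1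
  omega

theorem index_j (j : ℕ) : ∃ f : ℕ, ∀ (t : Fin j → ℕ) (A : SimpleGraph ℕ),
    Function.Injective t → A.support.Finite → Irr (Set.range t) A →
    rho (Set.range t) A ≤ f := by
  have key : ∀ τ : Set (SimpleGraph (Fin j ⊕ Fin 6)), ∃ c : ℕ, ∀ (t : Fin j → ℕ)
      (A : SimpleGraph ℕ), Function.Injective t → A.support.Finite → Ty j t A = τ →
      Irr (Set.range t) A → rho (Set.range t) A ≤ c := by
    intro τ
    by_cases hex : ∃ (s : Fin j → ℕ) (C : SimpleGraph ℕ), Function.Injective s ∧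
        C.support.Finite ∧ Ty j s C = τ
    · obtain ⟨s, C, hs, hC, hτ⟩ := hex
      exact ⟨rho (Set.range s) C, fun t A ht hA hτ' hirr =>
        irr_le t s ht hs A C hA hC (hτ'.trans hτ.symm) hirr⟩
    · exact ⟨0, fun t A ht hA hτ' _ => absurd ⟨t, A, ht, hA, hτ'⟩ hex⟩
  choose c hc using key
  obtain ⟨f, hf⟩ := (Set.finite_range c).bddAbove
  exact ⟨f, fun t A ht hA hirr => (hc _ t A ht hA rfl hirr).trans (hf ⟨_, rfl⟩)⟩

end GIndexAux

open GIndexAux

theorem finite_index (k : ℕ) : ∃ f : ℕ, ∀ (T : Set ℕ) (A : SimpleGraph ℕ), T.Finite →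
    A.support.Finite → T.ncard ≤ k → Irr T A → rho T A ≤ f := by
  choose F hF using index_j
  refine ⟨∑ j ∈ Finset.range (k + 1), F j, fun T A hT hA hk hirr => ?_⟩
  have i1 : Finite ↥T := hT.to_subtype
  have hcard : Nat.card (Fin T.ncard) = Nat.card ↥T := by
    rw [Nat.card_coe_set_eq]
    simp
  let E : Fin T.ncard ≃ ↥T := (exists_equiv hcard).some
  have hr : Set.range (fun i => (E i : ℕ)) = T := by
    ext x
    constructor
    · rintro ⟨i, rfl⟩
      exact (E i).2
    · intro hx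
      exact ⟨E.symm ⟨x, hx⟩, by simp⟩
  have h1 := hF T.ncard (fun i => (E i : ℕ)) A (Subtype.val_injective.comp E.injective) hA
    (by rw [hr]; exact hirr)
  rw [hr] at h1
  refine h1.trans ?_
  exact Finset.single_le_sum (f := F) (fun _ _ => Nat.zero_le _)
    (Finset.mem_range.2 (Nat.lt_succ_of_le hk))

end Pool.Agent.MP9d6bd1
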