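import Mathlib
import Pool.Agent.Lib.MP_9d6bd1_lc.GDefs

/-!
# MP_9d6bd1_lc, module G03a: deleting edges keeps a dual
-/

set_option autoImplicit false

open Classical

namespace Pool.Agent.MP9d6bd1

namespace GDualMonoAux

/-- the two faces of a deleted edge are identified. -/
def rel {V ι : Type} (G G' : SimpleGraph V) (l r : Sym2 V → ι) (a b : ι) : Prop :=
  ∃ e, e ∈ G'.edgeSet ∧ e ∉ G.edgeSet ∧ l e = a ∧ r e = b

theorem cut_eq {V ι : Type} {G G' : SimpleGraph V} (h : G ≤ G') (l r : Sym2 V → ι)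
    (J : Set (Quot (rel G G' l r))) :
    cut G (fun e => Quot.mk (rel G G' l r) (l e)) (fun e => Quot.mk (rel G G' l r) (r e)) J =
      cut G' l r (Quot.mk (rel G G' l r) ⁻¹' J) := by
  ext e
  simp only [cut, Set.mem_ofPred_eq, Set.mem_preimage]
  constructor
  · rintro ⟨he, hne⟩
    exact ⟨SimpleGraph.edgeSet_mono h he, hne⟩
  · rintro ⟨he, hne⟩
    refine ⟨?_, hne⟩
    by_contra heG
    apply hne
    have : Quot.mk (rel G G' l r) (l e) = Quot.mk (rel G G' l r) (r e) :=
      Quot.sound ⟨e, he, heG, rfl, rfl⟩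
    rw [this]

end GDualMonoAux

open GDualMonoAux

theorem dual_mono {V : Type} [Finite V] {G G' : SimpleGraph V} (h : G ≤ G') (hG : HasDual G') :
    HasDual G := by
  obtain ⟨ι, l, r, hfin, hne, hd⟩ := hG
  refine ⟨Quot (rel G G' l r), fun e => Quot.mk _ (l e), fun e => Quot.mk _ (r e),
    Finite.of_surjective _ Quot.mk_surjective, hne.map (Quot.mk _), ?_, ?_, ?_⟩
  · intro J
    rw [cut_eq h]
    exact hd.even _
  · intro Z hZ he
    obtain ⟨J, hJ⟩ := hd.exist Z (hZ.trans (SimpleGraph.edgeSet_mono h)) he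
    have hres : ∀ a b, rel G G' l r a b → (a ∈ J) = (b ∈ J) := by
      rintro a b ⟨e, he1, he2, rfl, rfl⟩
      apply propext
      by_contra hne
      have : e ∈ cut G' l r J := ⟨he1, hne⟩
      rw [hJ] at this
      exact he2 (hZ this)
    refine ⟨{q | Quot.lift (fun a => a ∈ J) hres q}, ?_⟩
    rw [cut_eq h, ← hJ]
    rfl
  · intro J hJ
    rw [cut_eq h] at hJ
    rcases hd.conn _ hJ with h1 | h1
    · left
      ext q
      obtain ⟨a, rfl⟩ := Quot.mk_surjective q
      have : a ∉ (Quot.mk (rel G G' l r) ⁻¹' J) := by rw [h1]; exact id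
      simpa using this
    · right
      ext q
      obtain ⟨a, rfl⟩ := Quot.mk_surjective q
      have : a ∈ (Quot.mk (rel G G' l r) ⁻¹' J) := by rw [h1]; trivial
      simpa using this

end Pool.Agent.MP9d6bd1
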