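import Mathlib
import Pool.Agent.Lib.MP_9d6bd1_lc.GDefs
import Pool.Agent.Lib.MP_9d6bd1_lc.GDualMono

/-!
# MP_9d6bd1_lc, module G07: claw sums of duals
-/

set_option autoImplicit false

open Classical

namespace Pool.Agent.MP9d6bd1

namespace GClawAux

/-- parity of a symmetric difference of finite sets. -/
theorem even_ncard_symmDiff {α : Type} {A B : Set α} (hA : A.Finite) (hB : B.Finite) :
    Even (symmDiff A B).ncard ↔ (Even A.ncard ↔ Even B.ncard) := by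
  have h1 : (symmDiff A B).ncard = (A \ B).ncard + (B \ A).ncard := by
    rw [Set.symmDiff_def, Set.ncard_union_eq (by
      rw [Set.disjoint_left]
      rintro a ⟨h1, _⟩ ⟨_, h2⟩
      exact h2 h1) hA.sdiff hB.sdiff]
  have h2 : A.ncard = (A \ B).ncard + (A ∩ B).ncard := by
    rw [add_comm]
    exact (Set.ncard_inter_add_ncard_sdiff_eq_ncard A B hA).symm
  have h3 : B.ncard = (B \ A).ncard + (A ∩ B).ncard := by
    rw [Set.inter_comm, add_comm]
    exact (Set.ncard_inter_add_ncard_sdiff_eq_ncard B A hB).symm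
  rw [h1, h2, h3]
  simp only [Nat.even_add]
  tauto

theorem even_symm {V : Type} [Finite V] {Y Z : Set (Sym2 V)} (v : V) :
    Even {e | e ∈ symmDiff Y Z ∧ v ∈ e}.ncard ↔
      (Even {e | e ∈ Y ∧ v ∈ e}.ncard ↔ Even {e | e ∈ Z ∧ v ∈ e}.ncard) := by
  have h : {e | e ∈ symmDiff Y Z ∧ v ∈ e} =
      symmDiff {e | e ∈ Y ∧ v ∈ e} {e | e ∈ Z ∧ v ∈ e} := by
    ext e
    simp only [Set.mem_symmDiff, Set.mem_ofPred_eq]
    tauto
  rw [h, even_ncard_symmDiff (Set.toFinite _) (Set.toFinite _)]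

theorem ncard_three {V : Type} {x y z : V} (P : V → Prop) (hxy : x ≠ y) (hxz : x ≠ z)
    (hyz : y ≠ z) : {t | (t = x ∨ t = y ∨ t = z) ∧ P t}.ncard =
      (if P x then 1 else 0) + ((if P y then 1 else 0) + (if P z then 1 else 0)) := by
  have h : {t | (t = x ∨ t = y ∨ t = z) ∧ P t} =
      ((({x, y, z} : Finset V).filter P : Finset V) : Set V) := by
    ext t
    simp
  rw [h, Set.ncard_coe_finset, Finset.card_filter, Finset.sum_insert (by simp [hxy, hxz]),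
    Finset.sum_insert (by simp [hyz]), Finset.sum_singleton]

theorem even_three {V : Type} {x y z : V} (P : V → Prop) (hxy : x ≠ y) (hxz : x ≠ z)
    (hyz : y ≠ z) : Even {t | (t = x ∨ t = y ∨ t = z) ∧ P t}.ncard ↔ (P x ↔ ¬ (P y ↔ P z)) := by
  rw [ncard_three P hxy hxz hyz]
  by_cases h1 : P x <;> by_cases h2 : P y <;> by_cases h3 : P z <;>
    simp [h1, h2, h3, Nat.even_iff]

theorem mem_claw {V : Type} {c x y z : V} (hx : c ≠ x) (hy : c ≠ y) (hz : c ≠ z) (e : Sym2 V) :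
    e ∈ (claw c x y z).edgeSet ↔ ∃ t, (t = x ∨ t = y ∨ t = z) ∧ e = s(c, t) := by
  unfold claw
  rw [SimpleGraph.edgeSet_sup, SimpleGraph.edgeSet_sup, SimpleGraph.edge, SimpleGraph.edge,
    SimpleGraph.edge]
  simp only [SimpleGraph.edgeSet_fromEdgeSet, Set.mem_union, Set.mem_sdiff, Set.mem_singleton_iff]
  constructor
  · rintro ((⟨h, _⟩ | ⟨h, _⟩) | ⟨h, _⟩)
    · exact ⟨x, Or.inl rfl, h⟩
    · exact ⟨y, Or.inr (Or.inl rfl), h⟩
    · exact ⟨z, Or.inr (Or.inr rfl), h⟩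
  · rintro ⟨t, rfl | rfl | rfl, rfl⟩
    · refine Or.inl (Or.inl ⟨rfl, ?_⟩)
      simpa using hx
    · refine Or.inl (Or.inr ⟨rfl, ?_⟩)
      simpa using hy
    · refine Or.inr ⟨rfl, ?_⟩
      simpa using hz

theorem not_mem_of_support {V : Type} {G : SimpleGraph V} {c : V} (hc : c ∉ G.support)
    {e : Sym2 V} (he : e ∈ G.edgeSet) : c ∉ e := by
  intro h
  apply hc
  rw [SimpleGraph.mem_support]
  obtain ⟨t, rfl⟩ := h
  exact ⟨t, he⟩

/-- a set of claw edges given by its leaves. -/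
def star {V : Type} (c x y z : V) (P : V → Prop) : Set (Sym2 V) :=
  {e | ∃ t, ((t = x ∨ t = y ∨ t = z) ∧ P t) ∧ e = s(c, t)}

theorem star_centre {V : Type} {c x y z : V} (P : V → Prop) (hxy : x ≠ y) (hxz : x ≠ z)
    (hyz : y ≠ z) :
    Even {e | e ∈ star c x y z P ∧ c ∈ e}.ncard ↔ (P x ↔ ¬ (P y ↔ P z)) := by
  rw [← even_three P hxy hxz hyz]
  have h : {e | e ∈ star c x y z P ∧ c ∈ e} =
      (fun t => s(c, t)) '' {t | (t = x ∨ t = y ∨ t = z) ∧ P t} := by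
    ext e
    simp only [star, Set.mem_ofPred_eq, Set.mem_image]
    constructor
    · rintro ⟨⟨t, ht, rfl⟩, _⟩
      exact ⟨t, ht, rfl⟩
    · rintro ⟨t, ht, rfl⟩
      exact ⟨⟨t, ht, rfl⟩, Sym2.mem_mk_left _ _⟩
  rw [h, Set.ncard_image_of_injective]
  intro a b hab
  exact Sym2.congr_right.mp hab

theorem star_leaf {V : Type} {c x y z v : V} (P : V → Prop) (hv : v ≠ c) :
    Even {e | e ∈ star c x y z P ∧ v ∈ e}.ncard ↔ ¬ ((v = x ∨ v = y ∨ v = z) ∧ P v) := by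
  by_cases h : (v = x ∨ v = y ∨ v = z) ∧ P v
  · have h1 : {e | e ∈ star c x y z P ∧ v ∈ e} = {s(c, v)} := by
      ext e
      simp only [star, Set.mem_ofPred_eq, Set.mem_singleton_iff]
      constructor
      · rintro ⟨⟨t, _, rfl⟩, hm⟩
        rcases Sym2.mem_iff.mp hm with h2 | h2
        · exact absurd h2 hv
        · rw [h2]
      · rintro rfl
        exact ⟨⟨v, h, rfl⟩, Sym2.mem_mk_right _ _⟩
    rw [h1, Set.ncard_singleton]
    simp [h]
  · have h1 : {e | e ∈ star c x y z P ∧ v ∈ e} = ∅ := by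
      ext e
      simp only [star, Set.mem_ofPred_eq, Set.mem_empty_iff_false, iff_false]
      rintro ⟨⟨t, ht, rfl⟩, hm⟩
      rcases Sym2.mem_iff.mp hm with h2 | h2
      · exact hv h2
      · rw [h2] at h
        exact h ht
    rw [h1, Set.ncard_empty]
    simp [h]

/-- the cut of `G ⊔ claw` is the part in `G` together with a star. -/
theorem cut_split {V ι : Type} {G : SimpleGraph V} {c x y z : V} (hx : c ≠ x) (hy : c ≠ y)
    (hz : c ≠ z) (hc : c ∉ G.support) (l r : Sym2 V → ι) (J : Set ι) :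
    cut (G ⊔ claw c x y z) l r J = symmDiff (cut G l r J)
      (star c x y z (fun t => s(c, t) ∈ cut (G ⊔ claw c x y z) l r J)) := by
  ext e
  rw [Set.mem_symmDiff]
  have hdis : ∀ t, s(c, t) ∉ G.edgeSet := fun t h =>
    not_mem_of_support hc h (Sym2.mem_mk_left _ _)
  constructor
  · rintro ⟨he, hn⟩
    rw [SimpleGraph.edgeSet_sup, Set.mem_union, mem_claw hx hy hz] at he
    rcases he with he | ⟨t, ht, rfl⟩
    · refine Or.inl ⟨⟨he, hn⟩, ?_⟩
      rintro ⟨t, _, rfl⟩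
      exact hdis t he
    · refine Or.inr ⟨⟨t, ⟨ht, ?_, hn⟩, rfl⟩, fun h => hdis t h.1⟩
      rw [SimpleGraph.edgeSet_sup, Set.mem_union, mem_claw hx hy hz]
      exact Or.inr ⟨t, ht, rfl⟩
  · rintro (⟨⟨he, hn⟩, _⟩ | ⟨⟨t, ⟨_, ht⟩, rfl⟩, _⟩)
    · exact ⟨SimpleGraph.edgeSet_mono le_sup_left he, hn⟩
    · exact ht

/-- at the centre an even number of claw edges is in a cut. -/
theorem cut_centre {V ι : Type} [Finite V] {G : SimpleGraph V} {c x y z : V} (hx : c ≠ x)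
    (hy : c ≠ y) (hz : c ≠ z) (hxy : x ≠ y) (hxz : x ≠ z) (hyz : y ≠ z) (hc : c ∉ G.support)
    {l r : Sym2 V → ι} (hd : IsDual (G ⊔ claw c x y z) l r) (J : Set ι) :
    s(c, x) ∈ cut (G ⊔ claw c x y z) l r J ↔
      ¬ (s(c, y) ∈ cut (G ⊔ claw c x y z) l r J ↔ s(c, z) ∈ cut (G ⊔ claw c x y z) l r J) := by
  have h := hd.even J c
  rw [cut_split hx hy hz hc, even_symm] at h
  have h0 : {e | e ∈ cut G l r J ∧ c ∈ e} = ∅ := by
    ext e
    simp only [Set.mem_ofPred_eq, Set.mem_empty_iff_false, iff_false]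
    rintro ⟨⟨he, _⟩, hm⟩
    exact not_mem_of_support hc he hm
  rw [h0, Set.ncard_empty] at h
  have h1 := h.mp (by simp)
  exact (star_centre (c := c) (fun t => s(c, t) ∈ cut (G ⊔ claw c x y z) l r J) hxy hxz hyz).mp h1

theorem mem_cut_claw {V ι : Type} {G : SimpleGraph V} {c x y z t : V} (hx : c ≠ x) (hy : c ≠ y)
    (hz : c ≠ z) (ht : t = x ∨ t = y ∨ t = z) (l r : Sym2 V → ι) (J : Set ι) :
    s(c, t) ∈ cut (G ⊔ claw c x y z) l r J ↔ ¬ (l s(c, t) ∈ J ↔ r s(c, t) ∈ J) := by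
  constructor
  · exact fun h => h.2
  · intro h
    refine ⟨?_, h⟩
    rw [SimpleGraph.edgeSet_sup, Set.mem_union, mem_claw hx hy hz]
    exact Or.inr ⟨t, ht, rfl⟩

theorem faces_of_key {ι : Type} (p q s t u w : ι)
    (key : ∀ J : Set ι, (¬ (p ∈ J ↔ q ∈ J)) ↔ ¬ ((¬ (s ∈ J ↔ t ∈ J)) ↔ ¬ (u ∈ J ↔ w ∈ J))) :
    ∃ A B C : ι, ∀ J : Set ι, ((¬ (p ∈ J ↔ q ∈ J)) ↔ ¬ (A ∈ J ↔ B ∈ J)) ∧
      ((¬ (s ∈ J ↔ t ∈ J)) ↔ ¬ (B ∈ J ↔ C ∈ J)) ∧
      ((¬ (u ∈ J ↔ w ∈ J)) ↔ ¬ (C ∈ J ↔ A ∈ J)) := by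
  by_cases hpq : p = q
  · subst hpq
    refine ⟨s, s, t, fun J => ?_⟩
    have := key J
    grind
  · have h0 := key {p}
    simp only [Set.mem_singleton_iff, true_iff] at h0
    have hqp : ¬ q = p := fun h => hpq h.symm
    rw [iff_true_left hqp] at h0
    by_cases h1 : s = p
    · subst h1
      refine ⟨q, s, t, fun J => ?_⟩
      have := key J
      grind
    · by_cases h2 : t = p
      · subst h2
        refine ⟨q, t, s, fun J => ?_⟩
        have := key J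
        grind
      · by_cases h3 : u = p
        · subst h3
          refine ⟨u, q, w, fun J => ?_⟩
          have := key J
          grind
        · have h4 : w = p := by
            grind
          subst h4
          refine ⟨w, q, u, fun J => ?_⟩
          have := key J
          grind

/-- the three (not necessarily distinct) faces at the centre. -/
theorem three_faces {V ι : Type} [Finite V] {G : SimpleGraph V} {c x y z : V} (hx : c ≠ x)
    (hy : c ≠ y) (hz : c ≠ z) (hxy : x ≠ y) (hxz : x ≠ z) (hyz : y ≠ z) (hc : c ∉ G.support)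
    {l r : Sym2 V → ι} (hd : IsDual (G ⊔ claw c x y z) l r) :
    ∃ A B C : ι, ∀ J : Set ι,
      (s(c, x) ∈ cut (G ⊔ claw c x y z) l r J ↔ ¬ (A ∈ J ↔ B ∈ J)) ∧
      (s(c, y) ∈ cut (G ⊔ claw c x y z) l r J ↔ ¬ (B ∈ J ↔ C ∈ J)) ∧
      (s(c, z) ∈ cut (G ⊔ claw c x y z) l r J ↔ ¬ (C ∈ J ↔ A ∈ J)) := by
  have hX := fun J => mem_cut_claw (G := G) (t := x) hx hy hz (Or.inl rfl) l r J
  have hY := fun J => mem_cut_claw (G := G) (t := y) hx hy hz (Or.inr (Or.inl rfl)) l r J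
  have hZ := fun J => mem_cut_claw (G := G) (t := z) hx hy hz (Or.inr (Or.inr rfl)) l r J
  have hcc := cut_centre hx hy hz hxy hxz hyz hc hd
  obtain ⟨A, B, C, hABC⟩ := faces_of_key (l s(c, x)) (r s(c, x)) (l s(c, y)) (r s(c, y))
    (l s(c, z)) (r s(c, z)) (fun J => by
      rw [← hX J, ← hY J, ← hZ J]
      exact hcc J)
  refine ⟨A, B, C, fun J => ?_⟩
  rw [hX J, hY J, hZ J]
  exact hABC J

theorem cut_union {V ι κ Q : Type} (G₁ G₂ : SimpleGraph V)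
    (hdis : Disjoint G₁.edgeSet G₂.edgeSet) (l r : Sym2 V → Q) (f : ι → Q) (g : κ → Q)
    (l₁ r₁ : Sym2 V → ι) (l₂ r₂ : Sym2 V → κ) (hl₁ : ∀ e ∈ G₁.edgeSet, l e = f (l₁ e))
    (hr₁ : ∀ e ∈ G₁.edgeSet, r e = f (r₁ e)) (hl₂ : ∀ e ∉ G₁.edgeSet, l e = g (l₂ e))
    (hr₂ : ∀ e ∉ G₁.edgeSet, r e = g (r₂ e)) (J : Set Q) (J₁ : Set ι) (J₂ : Set κ)
    (hJ₁ : ∀ a, f a ∈ J ↔ a ∈ J₁) (hJ₂ : ∀ b, g b ∈ J ↔ b ∈ J₂) :
    cut (G₁ ⊔ G₂) l r J = symmDiff (cut G₁ l₁ r₁ J₁) (cut G₂ l₂ r₂ J₂) := by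
  ext e
  rw [Set.mem_symmDiff]
  simp only [cut, Set.mem_ofPred_eq, SimpleGraph.edgeSet_sup, Set.mem_union]
  by_cases he : e ∈ G₁.edgeSet
  · have he2 : e ∉ G₂.edgeSet := fun h' => Set.disjoint_left.mp hdis he h'
    rw [hl₁ e he, hr₁ e he, hJ₁, hJ₁]
    simp [he, he2]
  · rw [hl₂ e he, hr₂ e he, hJ₂, hJ₂]
    simp [he]

theorem prop_aux {a b a' b' : Prop} (h : ¬ (a ↔ b) ↔ ¬ (a' ↔ b')) (ha : a ↔ a') :
    b ↔ b' := by
  grind

theorem prop_not {a b : Prop} (h : ¬ (a ↔ b)) : a ↔ ¬ b := by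
  grind

theorem prop_aux' {a b a' b' : Prop} (h : ¬ (b ↔ a) ↔ ¬ (b' ↔ a')) (ha : a ↔ a') :
    b ↔ b' := by
  grind

/-- gluing of the faces -/
def rel {ι κ : Type} (A B C : ι) (A' B' C' : κ) (a b : ι ⊕ κ) : Prop :=
  (a = Sum.inl A ∧ b = Sum.inr A') ∨ (a = Sum.inl B ∧ b = Sum.inr B') ∨
    (a = Sum.inl C ∧ b = Sum.inr C')

/-- sets of faces of the glued dual. -/
theorem exists_set {ι κ : Type} {A B C : ι} {A' B' C' : κ} (J₁ : Set ι) (J₂ : Set κ)
    (hA : A ∈ J₁ ↔ A' ∈ J₂) (hB : B ∈ J₁ ↔ B' ∈ J₂) (hC : C ∈ J₁ ↔ C' ∈ J₂) :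
    ∃ J : Set (Quot (rel A B C A' B' C')), (∀ a, Quot.mk _ (Sum.inl a) ∈ J ↔ a ∈ J₁) ∧
      ∀ b, Quot.mk _ (Sum.inr b) ∈ J ↔ b ∈ J₂ := by
  refine ⟨{q | Quot.lift (Sum.elim (fun a => a ∈ J₁) (fun b => b ∈ J₂)) ?_ q}, fun a => Iff.rfl,
    fun b => Iff.rfl⟩
  rintro a b (⟨rfl, rfl⟩ | ⟨rfl, rfl⟩ | ⟨rfl, rfl⟩)
  · exact propext hA
  · exact propext hB
  · exact propext hC

/-- the number of odd vertices of an edge set is even. -/
theorem even_odd {V : Type} [Finite V] (G : SimpleGraph V) (Z : Set (Sym2 V))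
    (hZ : Z ⊆ G.edgeSet) : Even {v | ¬ Even {e | e ∈ Z ∧ v ∈ e}.ncard}.ncard := by
  have := Fintype.ofFinite V
  have h := SimpleGraph.even_card_odd_degree_vertices (SimpleGraph.fromEdgeSet Z)
  have hE : (SimpleGraph.fromEdgeSet Z).edgeSet = Z := by
    rw [SimpleGraph.edgeSet_fromEdgeSet, sdiff_eq_left, Set.disjoint_left]
    intro e he hd
    exact G.not_isDiag_of_mem_edgeSet (hZ he) hd
  have hdeg : ∀ v, (SimpleGraph.fromEdgeSet Z).degree v = {e | e ∈ Z ∧ v ∈ e}.ncard := by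
    intro v
    rw [← SimpleGraph.card_incidenceFinset_eq_degree, ← Set.ncard_coe_finset]
    congr 1
    ext e
    rw [Finset.mem_coe, SimpleGraph.mem_incidenceFinset, SimpleGraph.incidenceSet]
    simp only [Set.mem_ofPred_eq]
    rw [hE]
  have h2 : {v | ¬ Even {e | e ∈ Z ∧ v ∈ e}.ncard} =
      ((Finset.univ.filter fun v => Odd ((SimpleGraph.fromEdgeSet Z).degree v) : Finset V) :
        Set V) := by
    ext v
    simp only [Set.mem_ofPred_eq, Finset.coe_filter, Finset.mem_univ, true_and]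
    rw [hdeg v, Nat.not_even_iff_odd]
  rw [h2, Set.ncard_coe_finset]
  convert h

theorem main {V : Type} [Finite V] (G₁ G₂ : SimpleGraph V) (c x y z : V)
    (hx : c ≠ x) (hy : c ≠ y) (hz : c ≠ z) (hxy : x ≠ y) (hxz : x ≠ z) (hyz : y ≠ z)
    (hdis : Disjoint G₁.edgeSet G₂.edgeSet) (h : G₁.support ∩ G₂.support ⊆ {x, y, z})
    (hc₁ : c ∉ G₁.support) (hc₂ : c ∉ G₂.support) (h₁ : HasDual (G₁ ⊔ claw c x y z))
    (h₂ : HasDual (G₂ ⊔ claw c x y z)) : HasDual (G₁ ⊔ G₂) := by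
  obtain ⟨ι, l₁, r₁, hfin₁, hne₁, hd₁⟩ := h₁
  obtain ⟨κ, l₂, r₂, hfin₂, hne₂, hd₂⟩ := h₂
  obtain ⟨A, B, C, hABC⟩ := three_faces hx hy hz hxy hxz hyz hc₁ hd₁
  obtain ⟨A', B', C', hABC'⟩ := three_faces hx hy hz hxy hxz hyz hc₂ hd₂
  set H₁ := G₁ ⊔ claw c x y z with hH₁
  set H₂ := G₂ ⊔ claw c x y z with hH₂
  -- the faces
  let R := rel A B C A' B' C'
  let l : Sym2 V → Quot R := fun e =>
    if e ∈ G₁.edgeSet then Quot.mk R (Sum.inl (l₁ e)) else Quot.mk R (Sum.inr (l₂ e))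
  let r : Sym2 V → Quot R := fun e =>
    if e ∈ G₁.edgeSet then Quot.mk R (Sum.inl (r₁ e)) else Quot.mk R (Sum.inr (r₂ e))
  have hA : Quot.mk R (Sum.inl A) = Quot.mk R (Sum.inr A') := Quot.sound (Or.inl ⟨rfl, rfl⟩)
  have hB : Quot.mk R (Sum.inl B) = Quot.mk R (Sum.inr B') :=
    Quot.sound (Or.inr (Or.inl ⟨rfl, rfl⟩))
  have hC : Quot.mk R (Sum.inl C) = Quot.mk R (Sum.inr C') :=
    Quot.sound (Or.inr (Or.inr ⟨rfl, rfl⟩))
  -- cuts of the glued graph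
  have hcut : ∀ (J : Set (Quot R)) (J₁ : Set ι) (J₂ : Set κ),
      (∀ a, Quot.mk R (Sum.inl a) ∈ J ↔ a ∈ J₁) → (∀ b, Quot.mk R (Sum.inr b) ∈ J ↔ b ∈ J₂) →
      cut (G₁ ⊔ G₂) l r J = symmDiff (cut H₁ l₁ r₁ J₁) (cut H₂ l₂ r₂ J₂) := by
    intro J J₁ J₂ hJ₁ hJ₂
    have hAA : A ∈ J₁ ↔ A' ∈ J₂ := by rw [← hJ₁, ← hJ₂, hA]
    have hBB : B ∈ J₁ ↔ B' ∈ J₂ := by rw [← hJ₁, ← hJ₂, hB]
    have hCC : C ∈ J₁ ↔ C' ∈ J₂ := by rw [← hJ₁, ← hJ₂, hC]
    have hst : star c x y z (fun t => s(c, t) ∈ cut H₁ l₁ r₁ J₁) =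
        star c x y z (fun t => s(c, t) ∈ cut H₂ l₂ r₂ J₂) := by
      obtain ⟨a1, a2, a3⟩ := hABC J₁
      obtain ⟨b1, b2, b3⟩ := hABC' J₂
      ext e
      simp only [star, Set.mem_ofPred_eq]
      refine exists_congr fun t => and_congr_left' (and_congr_right fun ht => ?_)
      rcases ht with rfl | rfl | rfl
      · rw [a1, b1, hAA, hBB]
      · rw [a2, b2, hBB, hCC]
      · rw [a3, b3, hCC, hAA]
    have e1 : cut (G₁ ⊔ G₂) l r J = symmDiff (cut G₁ l₁ r₁ J₁) (cut G₂ l₂ r₂ J₂) :=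
      cut_union G₁ G₂ hdis l r (fun a => Quot.mk R (Sum.inl a)) (fun b => Quot.mk R (Sum.inr b))
        l₁ r₁ l₂ r₂ (fun e he => if_pos he) (fun e he => if_pos he) (fun e he => if_neg he)
        (fun e he => if_neg he) J J₁ J₂ hJ₁ hJ₂
    rw [e1, hH₁, hH₂, cut_split hx hy hz hc₁, cut_split hx hy hz hc₂, ← hH₁, ← hH₂, hst]
    rw [symmDiff_symmDiff_symmDiff_comm, symmDiff_self, symmDiff_bot]
  refine ⟨Quot R, l, r, Finite.of_surjective _ Quot.mk_surjective,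
    ⟨Quot.mk R (Sum.inl A)⟩, ?_, ?_, ?_⟩
  · intro J v
    rw [hcut J {a | Quot.mk R (Sum.inl a) ∈ J} {b | Quot.mk R (Sum.inr b) ∈ J}
      (fun a => Iff.rfl) (fun b => Iff.rfl), even_symm]
    exact iff_of_true (hd₁.even _ v) (hd₂.even _ v)
  · intro Z hZ hev
    rw [SimpleGraph.edgeSet_sup] at hZ
    set Z₁ := Z ∩ G₁.edgeSet with hZ₁
    set Z₂ := Z ∩ G₂.edgeSet with hZ₂
    have hsum : Z = symmDiff Z₁ Z₂ := by
      ext e
      have h1 := @hZ e
      have h2 : e ∈ G₁.edgeSet → e ∉ G₂.edgeSet := fun h' => Set.disjoint_left.mp hdis h'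
      rw [Set.mem_symmDiff, hZ₁, hZ₂]
      simp only [Set.mem_inter_iff, Set.mem_union] at *
      tauto
    set P : V → Prop := fun v => ¬ Even {e | e ∈ Z₁ ∧ v ∈ e}.ncard with hP
    have hP2 : ∀ v, P v ↔ ¬ Even {e | e ∈ Z₂ ∧ v ∈ e}.ncard := by
      intro v
      have := hev v
      rw [hsum, even_symm] at this
      rw [hP]
      exact not_congr this
    have hsupp : ∀ (G : SimpleGraph V) (W : Set (Sym2 V)) (v : V), W ⊆ G.edgeSet →
        ¬ Even {e | e ∈ W ∧ v ∈ e}.ncard → v ∈ G.support := by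
      intro G W v hW hodd
      by_contra hv
      apply hodd
      have : {e | e ∈ W ∧ v ∈ e} = ∅ := by
        ext e
        simp only [Set.mem_ofPred_eq, Set.mem_empty_iff_false, iff_false]
        rintro ⟨he, hm⟩
        exact not_mem_of_support hv (hW he) hm
      rw [this, Set.ncard_empty]
      exact Even.zero
    have hPxyz : ∀ v, P v → v = x ∨ v = y ∨ v = z := by
      intro v hv
      exact h ⟨hsupp G₁ Z₁ v Set.inter_subset_right hv,
        hsupp G₂ Z₂ v Set.inter_subset_right ((hP2 v).mp hv)⟩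
    have hPpar : P x ↔ ¬ (P y ↔ P z) := by
      rw [← even_three P hxy hxz hyz]
      have h3 := even_odd G₁ Z₁ Set.inter_subset_right
      have h4 : {t | (t = x ∨ t = y ∨ t = z) ∧ P t} = {v | ¬ Even {e | e ∈ Z₁ ∧ v ∈ e}.ncard} := by
        ext v
        constructor
        · exact fun h' => h'.2
        · exact fun h' => ⟨hPxyz v h', h'⟩
      rw [h4]
      exact h3
    -- the completed sets are even
    have hst : ∀ (G : SimpleGraph V) (W : Set (Sym2 V)), c ∉ G.support → W ⊆ G.edgeSet →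
        (∀ v, P v ↔ ¬ Even {e | e ∈ W ∧ v ∈ e}.ncard) →
        symmDiff W (star c x y z P) ⊆ (G ⊔ claw c x y z).edgeSet ∧
          EvenSet (symmDiff W (star c x y z P)) := by
      intro G W hcG hW hPW
      constructor
      · intro e he
        rw [SimpleGraph.edgeSet_sup, Set.mem_union, mem_claw hx hy hz]
        rcases (Set.mem_symmDiff.mp he) with ⟨he, _⟩ | ⟨⟨t, ⟨ht, _⟩, rfl⟩, _⟩
        · exact Or.inl (hW he)
        · exact Or.inr ⟨t, ht, rfl⟩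
      · intro v
        rw [even_symm]
        by_cases hv : v = c
        · subst hv
          refine iff_of_true ?_ ((star_centre P hxy hxz hyz).mpr hPpar)
          by_contra hodd
          exact hcG (hsupp G W v hW hodd)
        · rw [star_leaf P hv]
          have h5 := hPW v
          have h6 := hPxyz v
          tauto
    obtain ⟨s₁, s₂⟩ := hst G₁ Z₁ hc₁ Set.inter_subset_right (fun v => Iff.rfl)
    obtain ⟨t₁, t₂⟩ := hst G₂ Z₂ hc₂ Set.inter_subset_right hP2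
    obtain ⟨J₁, hJ₁⟩ := hd₁.exist _ s₁ s₂
    obtain ⟨J₂', hJ₂'⟩ := hd₂.exist _ t₁ t₂
    -- complement if necessary
    obtain ⟨J₂, hJ₂, hAA⟩ : ∃ J₂, cut H₂ l₂ r₂ J₂ = symmDiff Z₂ (star c x y z P) ∧
        (A ∈ J₁ ↔ A' ∈ J₂) := by
      by_cases hAA : A ∈ J₁ ↔ A' ∈ J₂'
      · exact ⟨J₂', hJ₂', hAA⟩
      · refine ⟨J₂'ᶜ, ?_, ?_⟩
        · rw [← hJ₂']
          ext e
          simp only [cut, Set.mem_ofPred_eq, Set.mem_compl_iff, not_iff_not]
        · rw [Set.mem_compl_iff]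
          exact prop_not hAA
    have hleaf : ∀ t, (t = x ∨ t = y ∨ t = z) → (s(c, t) ∈ cut H₁ l₁ r₁ J₁ ↔
        s(c, t) ∈ cut H₂ l₂ r₂ J₂) := by
      intro t ht
      rw [hJ₁, hJ₂, Set.mem_symmDiff, Set.mem_symmDiff]
      have n1 : s(c, t) ∉ Z₁ := fun h' => not_mem_of_support hc₁ h'.2 (Sym2.mem_mk_left _ _)
      have n2 : s(c, t) ∉ Z₂ := fun h' => not_mem_of_support hc₂ h'.2 (Sym2.mem_mk_left _ _)
      simp only [n1, n2, false_and, false_or, not_false_eq_true, and_true]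
    obtain ⟨a1, a2, a3⟩ := hABC J₁
    obtain ⟨b1, b2, b3⟩ := hABC' J₂
    have u1 := hleaf x (Or.inl rfl)
    have u3 := hleaf z (Or.inr (Or.inr rfl))
    rw [a1, b1] at u1
    rw [a3, b3] at u3
    have hBB : B ∈ J₁ ↔ B' ∈ J₂ := prop_aux u1 hAA
    have hCC : C ∈ J₁ ↔ C' ∈ J₂ := prop_aux' u3 hAA
    obtain ⟨J, hJa, hJb⟩ := exists_set J₁ J₂ hAA hBB hCC
    refine ⟨J, ?_⟩
    rw [hcut J J₁ J₂ hJa hJb, hJ₁, hJ₂, symmDiff_symmDiff_symmDiff_comm, symmDiff_self,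
      symmDiff_bot, ← hsum]
  · intro J hJ
    obtain ⟨J₁, hJ₁⟩ : ∃ J₁ : Set ι, ∀ a, Quot.mk R (Sum.inl a) ∈ J ↔ a ∈ J₁ :=
      ⟨{a | Quot.mk R (Sum.inl a) ∈ J}, fun a => Iff.rfl⟩
    obtain ⟨J₂, hJ₂⟩ : ∃ J₂ : Set κ, ∀ b, Quot.mk R (Sum.inr b) ∈ J ↔ b ∈ J₂ :=
      ⟨{b | Quot.mk R (Sum.inr b) ∈ J}, fun a => Iff.rfl⟩
    have hAA : A ∈ J₁ ↔ A' ∈ J₂ := by rw [← hJ₁, ← hJ₂, hA]
    have hc := hcut J J₁ J₂ hJ₁ hJ₂
    rw [hJ] at hc
    have heq : cut H₁ l₁ r₁ J₁ = cut H₂ l₂ r₂ J₂ := by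
      have := hc.symm
      rwa [← Set.bot_eq_empty, symmDiff_eq_bot] at this
    -- no edge of `G₁` or `G₂` is in this set
    have hnone : ∀ e, e ∉ cut H₁ l₁ r₁ J₁ := by
      intro e he
      have he2 := heq ▸ he
      have hcl : ∃ t, (t = x ∨ t = y ∨ t = z) ∧ e = s(c, t) := by
        rw [← mem_claw hx hy hz]
        have m1 := he.1
        have m2 := he2.1
        rw [hH₁, SimpleGraph.edgeSet_sup, Set.mem_union] at m1
        rw [hH₂, SimpleGraph.edgeSet_sup, Set.mem_union] at m2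
        have m3 : e ∈ G₁.edgeSet → e ∉ G₂.edgeSet := fun h' => Set.disjoint_left.mp hdis h'
        tauto
      obtain ⟨t, ht, rfl⟩ := hcl
      have htc : t ≠ c := by
        rintro rfl
        rcases ht with h' | h' | h'
        · exact hx h'
        · exact hy h'
        · exact hz h'
      have hone : {e | e ∈ cut H₁ l₁ r₁ J₁ ∧ t ∈ e} = {s(c, t)} := by
        ext e
        simp only [Set.mem_ofPred_eq, Set.mem_singleton_iff]
        constructor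
        · rintro ⟨f1, f2⟩
          have f3 := heq ▸ f1
          have hcl : ∃ t, (t = x ∨ t = y ∨ t = z) ∧ e = s(c, t) := by
            rw [← mem_claw hx hy hz]
            have m1 := f1.1
            have m2 := f3.1
            rw [hH₁, SimpleGraph.edgeSet_sup, Set.mem_union] at m1
            rw [hH₂, SimpleGraph.edgeSet_sup, Set.mem_union] at m2
            have m3 : e ∈ G₁.edgeSet → e ∉ G₂.edgeSet := fun h' => Set.disjoint_left.mp hdis h'
            tauto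
          obtain ⟨t', _, rfl⟩ := hcl
          rcases Sym2.mem_iff.mp f2 with h2 | h2
          · exact absurd h2 htc
          · rw [h2]
        · rintro rfl
          exact ⟨he, Sym2.mem_mk_right _ _⟩
      have := hd₁.even J₁ t
      rw [hone, Set.ncard_singleton] at this
      exact absurd this (by decide)
    have e1 : cut H₁ l₁ r₁ J₁ = ∅ := Set.eq_empty_of_forall_notMem hnone
    have e2 : cut H₂ l₂ r₂ J₂ = ∅ := heq ▸ e1
    have hmem : ∀ q : Quot R, q ∈ J ↔ (∃ a, q = Quot.mk R (Sum.inl a) ∧ a ∈ J₁) ∨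
        (∃ b, q = Quot.mk R (Sum.inr b) ∧ b ∈ J₂) := by
      intro q
      constructor
      · intro hq
        obtain ⟨a | b, rfl⟩ := Quot.exists_rep q
        · exact Or.inl ⟨a, rfl, (hJ₁ a).mp hq⟩
        · exact Or.inr ⟨b, rfl, (hJ₂ b).mp hq⟩
      · rintro (⟨a, rfl, ha⟩ | ⟨b, rfl, hb⟩)
        · exact (hJ₁ a).mpr ha
        · exact (hJ₂ b).mpr hb
    rcases hd₁.conn J₁ e1 with k1 | k1 <;> rcases hd₂.conn J₂ e2 with k2 | k2
    · left
      ext q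
      rw [hmem, k1, k2]
      simp
    · rw [k1, k2] at hAA
      simp at hAA
    · rw [k1, k2] at hAA
      simp at hAA
    · right
      ext q
      rw [hmem, k1, k2]
      simp only [Set.mem_univ, and_true, iff_true]
      obtain ⟨a | b, rfl⟩ := Quot.exists_rep q
      · exact Or.inl ⟨a, rfl⟩
      · exact Or.inr ⟨b, rfl⟩

end GClawAux

open GClawAux

theorem dual_claw {V : Type} [Finite V] (G₁ G₂ : SimpleGraph V) (c x y z : V)
    (hd : [c, x, y, z].Nodup) (h : G₁.support ∩ G₂.support ⊆ {x, y, z}) (hc₁ : c ∉ G₁.support)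
    (hc₂ : c ∉ G₂.support) (h₁ : HasDual (G₁ ⊔ claw c x y z)) (h₂ : HasDual (G₂ ⊔ claw c x y z)) :
    HasDual (G₁ ⊔ G₂) := by
  simp only [List.nodup_cons, List.mem_cons, List.not_mem_nil, or_false, not_or] at hd
  obtain ⟨⟨hx, hy, hz⟩, ⟨hxy, hxz⟩, hyz, _⟩ := hd
  have hsup : (G₂ \ G₁).support ⊆ G₂.support := SimpleGraph.support_mono sdiff_le
  have key := main G₁ (G₂ \ G₁) c x y z hx hy hz hxy hxz hyz
    (by
      rw [SimpleGraph.edgeSet_sdiff]
      exact Set.disjoint_sdiff_right)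
    ((Set.inter_subset_inter_right _ hsup).trans h) hc₁ (fun h' => hc₂ (hsup h')) h₁
    (dual_mono (sup_le_sup_right sdiff_le _) h₂)
  rwa [sup_sdiff_self_right] at key

end Pool.Agent.MP9d6bd1
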