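import Mathlib
import Pool.Agent.Lib.MP_9d6bd1_lc.GDefs

/-!
# MP_9d6bd1_lc: even edge sets, cuts, cycles
-/

set_option autoImplicit false

open Classical

namespace Pool.Agent.MP9d6bd1

namespace GEvenAux

theorem ncard_symmDiff_add {α : Type} [Finite α] (A B : Set α) :
    (symmDiff A B).ncard + 2 * (A ∩ B).ncard = A.ncard + B.ncard := by
  have h1 : (symmDiff A B).ncard = (A \ B).ncard + (B \ A).ncard := by
    rw [Set.symmDiff_def, Set.ncard_union_eq]
    exact disjoint_sdiff_sdiff
  have h2 := Set.ncard_inter_add_ncard_sdiff_eq_ncard A B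
  have h3 := Set.ncard_inter_add_ncard_sdiff_eq_ncard B A
  rw [Set.inter_comm B A] at h3
  omega

theorem at_symmDiff {V : Type} (Y Z : Set (Sym2 V)) (v : V) :
    {e | e ∈ symmDiff Y Z ∧ v ∈ e} =
      symmDiff {e | e ∈ Y ∧ v ∈ e} {e | e ∈ Z ∧ v ∈ e} := by
  ext e
  simp only [Set.mem_ofPred_eq, Set.mem_symmDiff]
  tauto

/-- the two edges of a cycle at a vertex -/
theorem cyc_at {V : Type} (G : SimpleGraph V) (m : ℕ) (c : ℕ → V) (hc : IsCyc G m c)
    (t : ℕ) (ht : t < m) (e : Sym2 V) (he : ∃ i, 0 ≤ i ∧ i < m ∧ e = s(c i, c (i + 1)))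
    (hv : c t ∈ e) :
    e = s(c t, c (t + 1)) ∨ (0 < t ∧ e = s(c (t - 1), c t)) ∨
      (t = 0 ∧ e = s(c (m - 1), c m)) := by
  obtain ⟨i, -, hi, rfl⟩ := he
  have h3 := hc.len
  rw [Sym2.mem_iff] at hv
  rcases hv with hv | hv
  · have := hc.inj _ _ ht hi hv
    subst this
    exact Or.inl rfl
  · rcases Nat.lt_or_ge (i + 1) m with h | h
    · have := hc.inj _ _ ht h hv
      subst this
      right; left
      exact ⟨Nat.succ_pos _, by simp⟩
    · have hm : i + 1 = m := by omega
      rw [hm, hc.close] at hv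
      have := hc.inj _ _ ht (by omega) hv
      subst this
      right; right
      refine ⟨rfl, ?_⟩
      have : i = m - 1 := by omega
      subst this
      rw [hm]

end GEvenAux

open GEvenAux

theorem even_symmDiff {V : Type} [Finite V] {Y Z : Set (Sym2 V)} (hY : EvenSet Y)
    (hZ : EvenSet Z) : EvenSet (symmDiff Y Z) := by
  intro v
  rw [at_symmDiff]
  have h := ncard_symmDiff_add {e | e ∈ Y ∧ v ∈ e} {e | e ∈ Z ∧ v ∈ e}
  have h1 := hY v
  have h2 := hZ v
  rw [Nat.even_iff] at *
  omega

theorem cut_symmDiff {V ι : Type} (G : SimpleGraph V) (l r : Sym2 V → ι) (I J : Set ι) :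
    cut G l r (symmDiff I J) = symmDiff (cut G l r I) (cut G l r J) := by
  ext e
  simp only [cut, Set.mem_ofPred_eq, Set.mem_symmDiff]
  tauto

theorem cut_compl {V ι : Type} (G : SimpleGraph V) (l r : Sym2 V → ι) (J : Set ι) :
    cut G l r Jᶜ = cut G l r J := by
  ext e
  simp only [cut, Set.mem_ofPred_eq, Set.mem_compl_iff]
  tauto

namespace GEvenAux

theorem ncard_trail {V : Type} (G : SimpleGraph V) (u v : V)
    (p : G.Walk u v) (hp : p.IsTrail) (t : V) :
    {e | e ∈ p.edges ∧ t ∈ e}.ncard = p.edges.countP fun e => t ∈ e := by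
  have h1 : {e | e ∈ p.edges ∧ t ∈ e} = ((p.edges.filter fun e => t ∈ e).toFinset : Set (Sym2 V)) := by
    ext e
    simp
  rw [h1, Set.ncard_coe_finset, List.toFinset_card_of_nodup, List.countP_eq_length_filter]
  exact List.Nodup.filter _ hp.edges_nodup

end GEvenAux

/-- the edges of a path from `u` to `v` have odd degree exactly at `u` and `v`. -/
theorem even_path {V : Type} [Finite V] (G : SimpleGraph V) (u v : V) (huv : u ≠ v)
    (p : G.Walk u v) (hp : p.IsPath) (t : V) :
    Odd {e | e ∈ p.edges ∧ t ∈ e}.ncard ↔ t = u ∨ t = v := by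
  rw [ncard_trail G u v p hp.isTrail t, ← Nat.not_even_iff_odd,
    hp.isTrail.even_countP_edges_iff t]
  tauto

theorem even_cycle {V : Type} [Finite V] (G : SimpleGraph V) (u : V) (p : G.Walk u u)
    (hp : p.IsCycle) : EvenSet {e | e ∈ p.edges} := by
  intro t
  have h : {e | e ∈ {e | e ∈ p.edges} ∧ t ∈ e} = {e | e ∈ p.edges ∧ t ∈ e} := rfl
  rw [h, ncard_trail G u u p hp.isTrail t, hp.isTrail.even_countP_edges_iff t]
  tauto

/-- edges of the segment `c i, ..., c j` -/
def seg {V : Type} (c : ℕ → V) (i j : ℕ) : Set (Sym2 V) :=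
  {e | ∃ t, i ≤ t ∧ t < j ∧ e = s(c t, c (t + 1))}

namespace GEvenAux

/-- the edge of the cycle before `c t` -/
def prevE {V : Type} (m : ℕ) (c : ℕ → V) (t : ℕ) : Sym2 V :=
  if t = 0 then s(c (m - 1), c m) else s(c (t - 1), c t)

theorem at_sub {V : Type} (G : SimpleGraph V) (m : ℕ) (c : ℕ → V) (hc : IsCyc G m c)
    (t : ℕ) (ht : t < m) (e : Sym2 V) (he : e ∈ seg c 0 m) (hv : c t ∈ e) :
    e = s(c t, c (t + 1)) ∨ e = prevE m c t := by
  rcases cyc_at G m c hc t ht e he hv with h | ⟨h0, h⟩ | ⟨h0, h⟩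
  · exact Or.inl h
  · right
    rw [prevE, if_neg (by omega), h]
  · right
    rw [prevE, if_pos h0, h]

theorem ne_prev {V : Type} (G : SimpleGraph V) (m : ℕ) (c : ℕ → V) (hc : IsCyc G m c)
    (t : ℕ) (ht : t < m) : s(c t, c (t + 1)) ≠ prevE m c t := by
  have h3 := hc.len
  intro h
  have hadj := hc.adj t ht
  rw [prevE] at h
  split_ifs at h with h0
  · subst h0
    rw [hc.close, Sym2.eq_iff] at h
    rcases h with ⟨h1, h2⟩ | ⟨h1, h2⟩
    · have := hc.inj _ _ (by omega) (by omega) h1
      omega
    · have := hc.inj _ _ (by omega) (by omega) h2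
      omega
  · rw [Sym2.eq_iff] at h
    rcases h with ⟨h1, h2⟩ | ⟨h1, h2⟩
    · have := hc.inj _ _ (by omega) (by omega) h1
      omega
    · rcases Nat.lt_or_ge (t + 1) m with h4 | h4
      · have := hc.inj _ _ (by omega) (by omega) h2
        omega
      · have hm : t + 1 = m := by omega
        rw [hm, hc.close] at h2
        have := hc.inj _ _ (by omega) (by omega) h2
        omega

theorem mem_seg_self {V : Type} (m : ℕ) (c : ℕ → V) (t : ℕ) (ht : t < m) :
    s(c t, c (t + 1)) ∈ seg c 0 m := ⟨t, Nat.zero_le _, ht, rfl⟩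

theorem mem_seg_prev {V : Type} (m : ℕ) (c : ℕ → V) (h3 : 3 ≤ m)
    (t : ℕ) (ht : t < m) : prevE m c t ∈ seg c 0 m := by
  rw [prevE]
  split_ifs with h0
  · refine ⟨m - 1, Nat.zero_le _, by omega, ?_⟩
    rw [show m - 1 + 1 = m by omega]
  · refine ⟨t - 1, Nat.zero_le _, by omega, ?_⟩
    rw [show t - 1 + 1 = t by omega]

theorem mem_prev {V : Type} (G : SimpleGraph V) (m : ℕ) (c : ℕ → V) (hc : IsCyc G m c)
    (t : ℕ) : c t ∈ prevE m c t := by
  rw [prevE]
  split_ifs with h0
  · rw [h0, hc.close]; simp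
  · simp

end GEvenAux

theorem even_cyc {V : Type} [Finite V] (G : SimpleGraph V) (m : ℕ) (c : ℕ → V)
    (hc : IsCyc G m c) : EvenSet (seg c 0 m) := by
  intro v
  have h3 := hc.len
  by_cases hv : ∃ t, t < m ∧ c t = v
  · obtain ⟨t, ht, rfl⟩ := hv
    have h : {e | e ∈ seg c 0 m ∧ c t ∈ e} = {s(c t, c (t + 1)), prevE m c t} := by
      ext e
      constructor
      · rintro ⟨h1, h2⟩
        exact at_sub G m c hc t ht e h1 h2
      · rintro (h1 | h1)
        · rw [h1]
          exact ⟨mem_seg_self m c t ht, by simp⟩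
        · rw [h1]
          exact ⟨mem_seg_prev m c h3 t ht, mem_prev G m c hc t⟩
    rw [h, Set.ncard_pair (ne_prev G m c hc t ht)]
    exact even_two
  · have h : {e | e ∈ seg c 0 m ∧ v ∈ e} = ∅ := by
      rw [Set.eq_empty_iff_forall_notMem]
      rintro e ⟨⟨t, -, ht, rfl⟩, hve⟩
      rw [Sym2.mem_iff] at hve
      rcases hve with h1 | h1
      · exact hv ⟨t, ht, h1.symm⟩
      · rcases Nat.lt_or_ge (t + 1) m with h4 | h4
        · exact hv ⟨t + 1, h4, h1.symm⟩
        · have hm : t + 1 = m := by omega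
          rw [hm, hc.close] at h1
          exact hv ⟨0, by omega, h1.symm⟩
    rw [h, Set.ncard_empty]
    exact Even.zero

/-- an even subset of the edge set of a cycle is empty or the whole cycle. -/
theorem even_sub_cyc {V : Type} [Finite V] (G : SimpleGraph V) (m : ℕ) (c : ℕ → V)
    (hc : IsCyc G m c) (Z : Set (Sym2 V)) (hZ : Z ⊆ seg c 0 m) (he : EvenSet Z) :
    Z = ∅ ∨ Z = seg c 0 m := by
  have h3 := hc.len
  -- the two edges at a vertex of the cycle are both in `Z` or both outside
  have key : ∀ t, t < m → (s(c t, c (t + 1)) ∈ Z ↔ prevE m c t ∈ Z) := by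
    intro t ht
    have h1 := he (c t)
    have hsub : {e | e ∈ Z ∧ c t ∈ e} ⊆ {s(c t, c (t + 1)), prevE m c t} := by
      rintro e ⟨h1, h2⟩
      exact at_sub G m c hc t ht e (hZ h1) h2
    constructor
    · intro h
      by_contra hn
      have : {e | e ∈ Z ∧ c t ∈ e} = {s(c t, c (t + 1))} := by
        apply Set.eq_singleton_iff_unique_mem.2
        refine ⟨⟨h, by simp⟩, ?_⟩
        intro e hE
        rcases hsub hE with h4 | h4
        · exact h4
        · exact absurd (h4 ▸ hE.1) hn
      rw [this, Set.ncard_singleton] at h1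
      exact absurd h1 (by decide)
    · intro h
      by_contra hn
      have : {e | e ∈ Z ∧ c t ∈ e} = {prevE m c t} := by
        apply Set.eq_singleton_iff_unique_mem.2
        refine ⟨⟨h, mem_prev G m c hc t⟩, ?_⟩
        intro e hE
        rcases hsub hE with h4 | h4
        · exact absurd (h4 ▸ hE.1) hn
        · exact h4
      rw [this, Set.ncard_singleton] at h1
      exact absurd h1 (by decide)
  have key2 : ∀ t, t + 1 < m → (s(c (t + 1), c (t + 1 + 1)) ∈ Z ↔ s(c t, c (t + 1)) ∈ Z) := by
    intro t ht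
    have := key (t + 1) ht
    rw [prevE, if_neg (by omega), Nat.add_sub_cancel] at this
    exact this
  have key3 : ∀ t, t < m → (s(c t, c (t + 1)) ∈ Z ↔ s(c 0, c (0 + 1)) ∈ Z) := by
    intro t
    induction t with
    | zero => intro _; exact Iff.rfl
    | succ t ih =>
      intro ht
      rw [key2 t ht]
      exact ih (by omega)
  by_cases h0 : s(c 0, c (0 + 1)) ∈ Z
  · right
    apply Set.Subset.antisymm hZ
    rintro e ⟨t, -, ht, rfl⟩
    exact (key3 t ht).2 h0
  · left
    rw [Set.eq_empty_iff_forall_notMem]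
    intro e hE
    obtain ⟨t, -, ht, rfl⟩ := hZ hE
    exact h0 ((key3 t ht).1 hE)

/-- a nonempty even set of edges contains a cycle; a minimal one is a cycle. -/
theorem exists_cyc_of_even {V : Type} [Finite V] (G : SimpleGraph V) (Z : Set (Sym2 V))
    (hZ : Z ⊆ G.edgeSet) (he : EvenSet Z) (hne : Z.Nonempty) :
    ∃ m c, IsCyc G m c ∧ seg c 0 m ⊆ Z := by
  -- a second edge at the end of an edge of `Z`
  have step : ∀ a b : V, s(a, b) ∈ Z → ∃ w, w ≠ a ∧ s(b, w) ∈ Z := by
    intro a b hab
    have h1 := he b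
    by_contra hno
    push Not at hno
    have : {e | e ∈ Z ∧ b ∈ e} = {s(a, b)} := by
      apply Set.eq_singleton_iff_unique_mem.2
      refine ⟨⟨hab, by simp⟩, ?_⟩
      rintro e ⟨hE, hb⟩
      obtain ⟨w, rfl⟩ := Sym2.mem_iff_exists.1 hb
      by_contra hne'
      have hwa : w ≠ a := by
        rintro rfl
        exact hne' Sym2.eq_swap
      exact hno w hwa hE
    rw [this, Set.ncard_singleton] at h1
    exact absurd h1 (by decide)
  -- paths in `Z`
  let P : ℕ → Prop := fun n => ∃ c : ℕ → V, (∀ i j, i ≤ n → j ≤ n → c i = c j → i = j) ∧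
    ∀ i, i < n → s(c i, c (i + 1)) ∈ Z
  have hP1 : P 1 := by
    obtain ⟨e, he'⟩ := hne
    induction e using Sym2.ind with
    | _ a b =>
      have hab : G.Adj a b := hZ he'
      refine ⟨fun i => if i = 0 then a else b, ?_, ?_⟩
      · intro i j hi hj hij
        have hne'' := hab.ne
        by_cases h1 : i = 0 <;> by_cases h2 : j = 0
        · omega
        · simp [h1, h2] at hij; exact absurd hij hne''
        · simp [h1, h2] at hij; exact absurd hij.symm hne''
        · omega
      · intro i hi
        have : i = 0 := by omega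
        subst this
        simpa using he'
  have hbd : ∀ n, P n → n ≤ Nat.card V := by
    rintro n ⟨c, hc, -⟩
    have : Function.Injective (fun i : Fin n => c i) := by
      intro i j hij
      exact Fin.ext (hc i j (by omega) (by omega) hij)
    have h := Nat.card_le_card_of_injective _ this
    simpa using h
  obtain ⟨n, hn, hmax⟩ : ∃ n, P n ∧ ∀ k, P k → k ≤ n := by
    refine ⟨Nat.findGreatest P (Nat.card V), ?_, ?_⟩
    · exact Nat.findGreatest_spec (hbd 1 hP1) hP1
    · intro k hk
      exact Nat.le_findGreatest (hbd k hk) hk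
  have hn1 : 1 ≤ n := hmax 1 hP1
  obtain ⟨c, hinj, hadj⟩ := hn
  have hlast : s(c (n - 1), c n) ∈ Z := by
    have := hadj (n - 1) (by omega)
    rwa [show n - 1 + 1 = n by omega] at this
  obtain ⟨w, hw1, hw2⟩ := step _ _ hlast
  have hwn : w ≠ c n := by
    rintro rfl
    exact (hZ hw2 : G.Adj (c n) (c n)).ne rfl
  -- `w` is on the path
  obtain ⟨j, hj, hjw⟩ : ∃ j, j ≤ n ∧ c j = w := by
    by_contra hno
    push Not at hno
    have : P (n + 1) := by
      refine ⟨fun i => if i ≤ n then c i else w, ?_, ?_⟩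
      · intro i j hi hj hij
        by_cases h1 : i ≤ n <;> by_cases h2 : j ≤ n
        · simp only [h1, h2, if_true] at hij
          exact hinj i j h1 h2 hij
        · simp only [h1, h2, if_true, if_false] at hij
          exact absurd hij (hno i h1)
        · simp only [h1, h2, if_true, if_false] at hij
          exact absurd hij.symm (hno j h2)
        · omega
      · intro i hi
        by_cases h1 : i + 1 ≤ n
        · have h2 : i ≤ n := by omega
          simp only [h1, h2, if_true]
          exact hadj i (by omega)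
        · have h2 : i = n := by omega
          subst h2
          simp only [h1, le_refl, if_true, if_false]
          exact hw2
    have := hmax _ this
    omega
  have hjn : j ≠ n := by
    rintro rfl
    exact hwn hjw.symm
  have hjn1 : j ≠ n - 1 := by
    rintro rfl
    exact hw1 hjw.symm
  subst hjw
  refine ⟨n - j + 1, fun i => if i ≤ n - j then c (j + i) else c j, ⟨by omega, ?_, ?_, ?_⟩, ?_⟩
  · simp
  · intro a b ha hb hab
    have h1 : a ≤ n - j := by omega
    have h2 : b ≤ n - j := by omega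
    simp only [h1, h2, if_true] at hab
    have := hinj _ _ (by omega) (by omega) hab
    omega
  · intro i hi
    rw [← SimpleGraph.mem_edgeSet]
    apply hZ
    by_cases h1 : i + 1 ≤ n - j
    · have h2 : i ≤ n - j := by omega
      simp only [h1, h2, if_true]
      exact hadj (j + i) (by omega)
    · have h2 : i = n - j := by omega
      subst h2
      simp only [h1, le_refl, if_true, if_false]
      rw [show j + (n - j) = n by omega]
      exact hw2
  · rintro e ⟨i, -, hi, rfl⟩
    by_cases h1 : i + 1 ≤ n - j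
    · have h2 : i ≤ n - j := by omega
      simp only [h1, h2, if_true]
      exact hadj (j + i) (by omega)
    · have h2 : i = n - j := by omega
      subst h2
      simp only [h1, le_refl, if_true, if_false]
      rw [show j + (n - j) = n by omega]
      exact hw2

end Pool.Agent.MP9d6bd1
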