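import Mathlib
import Pool.Agent.Lib.MP_9d6bd1_lc.GDefs
import Pool.Agent.Lib.MP_9d6bd1_lc.GEven

/-!
# MP_9d6bd1_lc: Euler bounds for planar graphs
-/

set_option autoImplicit false

open Classical

namespace Pool.Agent.MP9d6bd1

namespace GEulerAux

/-- parity vectors: many even sets -/
theorem even_of_parity {V : Type} [Finite V] (G : SimpleGraph V) (Y Z : Set (Sym2 V))
    (hY : Y ⊆ G.edgeSet) (hZ : Z ⊆ G.edgeSet)
    (h : ∀ v ∈ G.support, (Odd {e | e ∈ Y ∧ v ∈ e}.ncard ↔ Odd {e | e ∈ Z ∧ v ∈ e}.ncard)) :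
    EvenSet (symmDiff Y Z) := by
  intro v
  by_cases hv : v ∈ G.support
  · rw [GEvenAux.at_symmDiff]
    have h1 := GEvenAux.ncard_symmDiff_add {e | e ∈ Y ∧ v ∈ e} {e | e ∈ Z ∧ v ∈ e}
    have h2 := h v hv
    rw [Nat.odd_iff, Nat.odd_iff] at h2
    rw [Nat.even_iff]
    omega
  · have h0 : {e | e ∈ symmDiff Y Z ∧ v ∈ e} = ∅ := by
      rw [Set.eq_empty_iff_forall_notMem]
      rintro e ⟨h1, h2⟩
      have h3 : e ∈ G.edgeSet := by
        rcases h1 with h1 | h1
        · exact hY h1.1
        · exact hZ h1.1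
      obtain ⟨w, rfl⟩ := Sym2.mem_iff_exists.1 h2
      exact hv (G.mem_support.2 ⟨w, h3⟩)
    rw [h0, Set.ncard_empty]
    exact Even.zero

theorem edges_le {V ι : Type} [Finite V] [Finite ι] (G : SimpleGraph V) (l r : Sym2 V → ι)
    (hD : IsDual G l r) : G.edgeSet.ncard ≤ G.support.ncard + Nat.card ι := by
  -- the set of edges as a set of the ambient type
  let up : Set G.edgeSet → Set (Sym2 V) := fun Z => Subtype.val '' Z
  have hup : ∀ Z, up Z ⊆ G.edgeSet := by
    rintro Z e ⟨x, -, rfl⟩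
    exact x.2
  let par : Set G.edgeSet → (G.support → Prop) := fun Z v =>
    Odd {e | e ∈ up Z ∧ (v : V) ∈ e}.ncard
  let sec : (G.support → Prop) → Set G.edgeSet := fun p =>
    if h : ∃ Z, par Z = p then h.choose else ∅
  have hsec : ∀ Z, par (sec (par Z)) = par Z := by
    intro Z
    have h : ∃ Z', par Z' = par Z := ⟨Z, rfl⟩
    simp only [sec, dif_pos h]
    exact h.choose_spec
  have hex : ∀ Z : Set G.edgeSet, ∃ J, cut G l r J = symmDiff (up Z) (up (sec (par Z))) := by
    intro Z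
    apply hD.exist
    · rintro e (h | h)
      · exact hup _ h.1
      · exact hup _ h.1
    · apply even_of_parity G _ _ (hup _) (hup _)
      intro v hv
      have := congrFun (hsec Z) ⟨v, hv⟩
      exact (iff_of_eq this).symm
  choose J hJ using hex
  have hinj : Function.Injective (fun Z : Set G.edgeSet => (par Z, J Z)) := by
    intro Z Z' h
    simp only [Prod.mk.injEq] at h
    obtain ⟨h1, h2⟩ := h
    have h3 := hJ Z
    have h4 := hJ Z'
    rw [h2, h4, h1] at h3
    have h5 : up Z = up Z' := symmDiff_left_injective _ h3.symm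
    exact Set.image_injective.2 Subtype.val_injective h5
  have hc := Nat.card_le_card_of_injective _ hinj
  have h1 : Nat.card (Set G.edgeSet) = 2 ^ G.edgeSet.ncard := by
    have : Fintype G.edgeSet := Fintype.ofFinite _
    rw [Nat.card_eq_fintype_card, Fintype.card_set, ← Nat.card_eq_fintype_card]
    rfl
  have h2 : Nat.card (G.support → Prop) = 2 ^ G.support.ncard := by
    have : Fintype G.support := Fintype.ofFinite _
    rw [Nat.card_fun, Nat.card_eq_fintype_card (α := Prop), Fintype.card_prop]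
    rfl
  have h3 : Nat.card (Set ι) = 2 ^ Nat.card ι := by
    have : Fintype ι := Fintype.ofFinite _
    rw [Nat.card_eq_fintype_card, Fintype.card_set, ← Nat.card_eq_fintype_card]
  rw [Nat.card_prod, h1, h2, h3, ← pow_add] at hc
  exact (Nat.pow_le_pow_iff_right (by norm_num)).1 hc

theorem faces_le {V ι : Type} [Finite V] [Finite ι] (G : SimpleGraph V) (l r : Sym2 V → ι)
    (hD : IsDual G l r) (g : ℕ) (hι : 2 ≤ Nat.card ι)
    (hg : ∀ Z : Set (Sym2 V), Z ⊆ G.edgeSet → EvenSet Z → Z.Nonempty → g ≤ Z.ncard) :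
    g * Nat.card ι ≤ 2 * G.edgeSet.ncard := by
  have : Fintype ι := Fintype.ofFinite _
  let F : (Σ j : ι, cut G l r {j}) → G.edgeSet × Bool :=
    fun x => (⟨x.2.1, x.2.2.1⟩, decide (l x.2.1 = x.1))
  have hF : Function.Injective F := by
    rintro ⟨j, e, he⟩ ⟨j', e', he'⟩ h
    simp only [F, Prod.mk.injEq, Subtype.mk.injEq, decide_eq_decide] at h
    obtain ⟨h1, h2⟩ := h
    subst h1
    have h3 := he.2
    have h4 := he'.2
    simp only [Set.mem_singleton_iff] at h3 h4
    have hj : j = j' := by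
      by_cases h5 : l e = j
      · exact h5.symm.trans (h2.1 h5)
      · have h6 : l e ≠ j' := fun h => h5 (h2.2 h)
        have h7 : r e = j := by tauto
        have h8 : r e = j' := by tauto
        exact h7.symm.trans h8
    subst hj
    rfl
  have h1 := Nat.card_le_card_of_injective F hF
  rw [Nat.card_sigma, Nat.card_prod] at h1
  have h2 : Nat.card Bool = 2 := by simp
  have h3 : Nat.card G.edgeSet = G.edgeSet.ncard := rfl
  rw [h2, h3] at h1
  have h4 : ∀ j : ι, g ≤ Nat.card (cut G l r {j}) := by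
    intro j
    apply hg _ (fun e he => he.1) (hD.even _)
    rw [Set.nonempty_iff_ne_empty]
    intro h
    rcases hD.conn _ h with h | h
    · exact absurd h (Set.singleton_nonempty j).ne_empty
    · have h5 : Nat.card ι = 1 := by
        rw [← Set.ncard_univ, ← h, Set.ncard_singleton]
      omega
  have h5 : ∑ j : ι, g ≤ ∑ j : ι, Nat.card (cut G l r {j}) := Finset.sum_le_sum (fun j _ => h4 j)
  rw [Finset.sum_const, Finset.card_univ, smul_eq_mul, ← Nat.card_eq_fintype_card] at h5
  calc g * Nat.card ι = Nat.card ι * g := Nat.mul_comm _ _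
    _ ≤ _ := h5
    _ ≤ _ := h1
    _ = _ := Nat.mul_comm _ _

/-- a second edge at the end of an edge of an even set -/
theorem step {V : Type} (Z : Set (Sym2 V)) (he : EvenSet Z) (a b : V) (hab : s(a, b) ∈ Z) :
    ∃ w, w ≠ a ∧ s(b, w) ∈ Z := by
  have h1 := he b
  by_contra hno
  push Not at hno
  have : {e | e ∈ Z ∧ b ∈ e} = {s(a, b)} := by
    apply Set.eq_singleton_iff_unique_mem.2
    refine ⟨⟨hab, by simp⟩, ?_⟩
    rintro e ⟨hE, hb⟩
    obtain ⟨w, rfl⟩ := Sym2.mem_iff_exists.1 hb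
    by_contra hne'
    have hwa : w ≠ a := by
      rintro rfl
      exact hne' Sym2.eq_swap
    exact hno w hwa hE
  rw [this, Set.ncard_singleton] at h1
  exact absurd h1 (by decide)

theorem three_path {V : Type} (G : SimpleGraph V) (Z : Set (Sym2 V)) (hZ : Z ⊆ G.edgeSet)
    (he : EvenSet Z) (hne : Z.Nonempty) :
    ∃ a b c d, s(a, b) ∈ Z ∧ s(b, c) ∈ Z ∧ s(c, d) ∈ Z ∧ c ≠ a ∧ d ≠ b ∧ a ≠ b ∧ b ≠ c ∧
      c ≠ d := by
  obtain ⟨e, h0⟩ := hne
  induction e using Sym2.ind with
  | _ a b =>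
    obtain ⟨c, hc, h1⟩ := step Z he a b h0
    obtain ⟨d, hd, h2⟩ := step Z he b c h1
    exact ⟨a, b, c, d, h0, h1, h2, hc, hd, (hZ h0 : G.Adj a b).ne, (hZ h1 : G.Adj b c).ne,
      (hZ h2 : G.Adj c d).ne⟩

theorem girth3 {V : Type} [Finite V] (G : SimpleGraph V) (Z : Set (Sym2 V))
    (hZ : Z ⊆ G.edgeSet) (he : EvenSet Z) (hne : Z.Nonempty) : 3 ≤ Z.ncard := by
  obtain ⟨a, b, c, d, h0, h1, h2, hca, hdb, hab, hbc, hcd⟩ := three_path G Z hZ he hne
  have hs : ({s(a, b), s(b, c), s(c, d)} : Finset (Sym2 V)).card = 3 := by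
    rw [Finset.card_eq_three]
    refine ⟨s(a, b), s(b, c), s(c, d), ?_, ?_, ?_, rfl⟩
    · simp only [ne_eq, Sym2.eq_iff, not_or]
      constructor
      · exact fun h => hab h.1
      · exact fun h => hca h.1.symm
    · simp only [ne_eq, Sym2.eq_iff, not_or]
      constructor
      · exact fun h => hca h.1.symm
      · exact fun h => hbc h.2
    · simp only [ne_eq, Sym2.eq_iff, not_or]
      constructor
      · exact fun h => hbc h.1
      · exact fun h => hdb h.1.symm
  rw [← hs, ← Set.ncard_coe_finset]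
  apply Set.ncard_le_ncard _ (Set.toFinite _)
  intro e hE
  simp only [Finset.coe_insert, Finset.coe_singleton, Set.mem_insert_iff,
    Set.mem_singleton_iff] at hE
  rcases hE with rfl | rfl | rfl <;> assumption

theorem girth4 {V : Type} [Finite V] (G : SimpleGraph V) (X : Set V)
    (hX : ∀ u v, G.Adj u v → (u ∈ X ↔ v ∉ X)) (Z : Set (Sym2 V))
    (hZ : Z ⊆ G.edgeSet) (he : EvenSet Z) (hne : Z.Nonempty) : 4 ≤ Z.ncard := by
  obtain ⟨a, b, c, d, h0, h1, h2, hca, hdb, hab, hbc, hcd⟩ := three_path G Z hZ he hne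
  have k0 := hX a b (hZ h0)
  have k1 := hX b c (hZ h1)
  have k2 := hX c d (hZ h2)
  have hda : d ≠ a := by
    rintro rfl
    tauto
  obtain ⟨f, hfc, h3⟩ := step Z he c d h2
  have hdf : d ≠ f := (hZ h3 : G.Adj d f).ne
  have hs : ({s(a, b), s(b, c), s(c, d), s(d, f)} : Finset (Sym2 V)).card = 4 := by
    rw [Finset.card_insert_of_notMem, Finset.card_eq_three.2]
    · refine ⟨s(b, c), s(c, d), s(d, f), ?_, ?_, ?_, rfl⟩
      · simp only [ne_eq, Sym2.eq_iff, not_or]
        constructor
        · exact fun h => hbc h.1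
        · exact fun h => hdb h.1.symm
      · simp only [ne_eq, Sym2.eq_iff, not_or]
        constructor
        · exact fun h => hdb h.1.symm
        · exact fun h => hcd h.2
      · simp only [ne_eq, Sym2.eq_iff, not_or]
        constructor
        · exact fun h => hcd h.1
        · exact fun h => hfc h.1.symm
    · simp only [Finset.mem_insert, Finset.mem_singleton, Sym2.eq_iff, not_or]
      refine ⟨⟨fun h => hab h.1, fun h => hca h.1.symm⟩,
        ⟨fun h => hca h.1.symm, fun h => hda h.1.symm⟩,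
        ⟨fun h => hda h.1.symm, fun h => hdb h.2.symm⟩⟩
  rw [← hs, ← Set.ncard_coe_finset]
  apply Set.ncard_le_ncard _ (Set.toFinite _)
  intro e hE
  simp only [Finset.coe_insert, Finset.coe_singleton, Set.mem_insert_iff,
    Set.mem_singleton_iff] at hE
  rcases hE with rfl | rfl | rfl | rfl <;> assumption

theorem support_pos {V : Type} [Finite V] (G : SimpleGraph V) :
    G.edgeSet.ncard = 0 ∨ 1 ≤ G.support.ncard := by
  rcases Set.eq_empty_or_nonempty G.edgeSet with h | ⟨e, he⟩
  · left; rw [h, Set.ncard_empty]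
  · right
    induction e using Sym2.ind with
    | _ a b =>
      rw [Nat.one_le_iff_ne_zero, ← Nat.pos_iff_ne_zero, Set.ncard_pos]
      exact ⟨a, G.mem_support.2 ⟨b, he⟩⟩

theorem edges_of_dual {V : Type} [Finite V] (G : SimpleGraph V) (hG : HasDual G) :
    G.edgeSet.ncard ≤ 3 * G.support.ncard := by
  obtain ⟨ι, l, r, hι, hne, hD⟩ := hG
  have h1 := edges_le G l r hD
  have h2 := support_pos G
  have h3 : 0 < Nat.card ι := Nat.card_pos
  by_cases h4 : 2 ≤ Nat.card ι
  · have h5 := faces_le G l r hD 3 h4 (fun Z a b c => girth3 G Z a b c)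
    omega
  · omega

theorem bip_of_dual {V : Type} [Finite V] (G : SimpleGraph V) (hG : HasDual G) (X : Set V)
    (hX : ∀ u v, G.Adj u v → (u ∈ X ↔ v ∉ X)) :
    G.edgeSet.ncard ≤ 2 * G.support.ncard := by
  obtain ⟨ι, l, r, hι, hne, hD⟩ := hG
  have h1 := edges_le G l r hD
  have h2 := support_pos G
  have h3 : 0 < Nat.card ι := Nat.card_pos
  by_cases h4 : 2 ≤ Nat.card ι
  · have h5 := faces_le G l r hD 4 h4 (fun Z a b c => girth4 G X hX Z a b c)
    omega
  · omega

end GEulerAux

end Pool.Agent.MP9d6bd1
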