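import Mathlib
import Pool.Agent.Lib.MP_9d6bd1_lc.GDefs

/-!
# MP_9d6bd1_lc, module G13: contractible edges in 3-connected graphs
-/

set_option autoImplicit false

open Classical

namespace Pool.Agent.MP9d6bd1

namespace GContrEdgeAux

/-- `D` is a nonempty proper part of `S` without edges to the rest of `S`. -/
def Part {V : Type} (G : SimpleGraph V) (S D : Set V) : Prop :=
  D ⊆ S ∧ D.Nonempty ∧ (S \ D).Nonempty ∧ ∀ a ∈ D, ∀ b ∈ S, G.Adj a b → b ∈ D

theorem exists_part {V : Type} {G : SimpleGraph V} {S : Set V}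
    (h : ¬ (G.induce S).Preconnected) : ∃ D, Part G S D := by
  rw [SimpleGraph.Preconnected] at h
  push Not at h
  obtain ⟨u, v, huv⟩ := h
  refine ⟨{x | ∃ hx : x ∈ S, (G.induce S).Reachable u ⟨x, hx⟩}, ?_, ⟨u.1, u.2, ?_⟩,
    ⟨v.1, v.2, ?_⟩, ?_⟩
  · rintro x ⟨hx, -⟩
    exact hx
  · exact SimpleGraph.Reachable.refl _
  · rintro ⟨hv, hr⟩
    exact huv hr
  · rintro a ⟨ha, hra⟩ b hb hab
    refine ⟨hb, hra.trans ?_⟩
    exact (SimpleGraph.Adj.reachable (G := G.induce S) (u := ⟨a, ha⟩) (v := ⟨b, hb⟩) hab)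

theorem not_part {V : Type} {G : SimpleGraph V} {S D : Set V}
    (h : (G.induce S).Preconnected) : ¬ Part G S D := by
  rintro ⟨hDS, ⟨a, ha⟩, ⟨b, hb, hbD⟩, hcl⟩
  obtain ⟨p⟩ := h ⟨a, hDS ha⟩ ⟨b, hb⟩
  apply hbD
  have key : ∀ (u v : S), (G.induce S).Walk u v → u.1 ∈ D → v.1 ∈ D := by
    intro u v p
    induction p with
    | nil => exact id
    | cons hadj _ ih =>
      intro hu
      exact ih (hcl _ hu _ (Subtype.property _) hadj)
  exact key _ _ p ha

end GContrEdgeAux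

open GContrEdgeAux

theorem exists_contractible {V : Type} [Finite V] (G : SimpleGraph V)
    (h5 : 5 ≤ G.support.ncard) (h3 : ∀ a b, (G.induce (G.support \ {a, b})).Preconnected) :
    ∃ x y, G.Adj x y ∧ ∀ z, (G.induce (G.support \ {x, y, z})).Preconnected := by
  by_contra hcon
  push Not at hcon
  -- all triples with a separated part
  have hex : ∃ n : ℕ, ∃ x y z D, G.Adj x y ∧ Part G (G.support \ {x, y, z}) D ∧ D.ncard = n := by
    have hne : G.support.Nonempty := by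
      rw [← Set.ncard_pos]
      omega
    obtain ⟨x, hx⟩ := hne
    obtain ⟨y, hy⟩ := hx
    obtain ⟨z, hz⟩ := hcon x y hy
    obtain ⟨D, hD⟩ := exists_part hz
    exact ⟨_, x, y, z, D, hy, hD, rfl⟩
  obtain ⟨x, y, z, D, hxy, hD, hn⟩ := Nat.find_spec hex
  have hmin := fun m (hm : m < Nat.find hex) => Nat.find_min hex hm
  rw [← hn] at hmin
  obtain ⟨hDS, hDne, hDc, hcl⟩ := hD
  have hxs : x ∈ G.support := ⟨y, hxy⟩
  have hys : y ∈ G.support := ⟨x, hxy.symm⟩
  -- a neighbour of `z` in `D`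
  have hzu : ∃ u ∈ D, G.Adj u z := by
    by_contra hno
    push Not at hno
    refine not_part (h3 x y) (D := D) ⟨?_, hDne, ?_, ?_⟩
    · intro a ha
      have := hDS ha
      simp only [Set.mem_sdiff, Set.mem_insert_iff, Set.mem_singleton_iff, not_or] at this ⊢
      exact ⟨this.1, this.2.1, this.2.2.1⟩
    · obtain ⟨b, hb, hbD⟩ := hDc
      refine ⟨b, ?_, hbD⟩
      simp only [Set.mem_sdiff, Set.mem_insert_iff, Set.mem_singleton_iff, not_or] at hb ⊢
      exact ⟨hb.1, hb.2.1, hb.2.2.1⟩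
    · intro a ha b hb hab
      by_cases hbz : b = z
      · subst hbz
        exact absurd hab (hno a ha)
      · refine hcl a ha b ?_ hab
        simp only [Set.mem_sdiff, Set.mem_insert_iff, Set.mem_singleton_iff, not_or] at hb ⊢
        exact ⟨hb.1, hb.2.1, hb.2.2, hbz⟩
  obtain ⟨u, huD, huz⟩ := hzu
  have hzs : z ∈ G.support := ⟨u, huz.symm⟩
  have hus : u ∈ G.support := ⟨z, huz⟩
  have huS := hDS huD
  simp only [Set.mem_sdiff, Set.mem_insert_iff, Set.mem_singleton_iff, not_or] at huS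
  obtain ⟨-, hux, huy, huz'⟩ := huS
  obtain ⟨w, hw⟩ := hcon z u huz.symm
  obtain ⟨D₁, hD₁⟩ := exists_part hw
  -- the side avoiding `x` and `y`
  have hside : ∃ D₂, Part G (G.support \ {z, u, w}) D₂ ∧ x ∉ D₂ ∧ y ∉ D₂ := by
    by_cases hxD : x ∈ D₁ ∨ y ∈ D₁
    · refine ⟨(G.support \ {z, u, w}) \ D₁, ⟨Set.sdiff_subset, hD₁.2.2.1, ?_, ?_⟩, ?_, ?_⟩
      · rw [Set.sdiff_sdiff_cancel_left hD₁.1]
        exact hD₁.2.1
      · intro a ha b hb hab
        exact ⟨hb, fun hbD => ha.2 (hD₁.2.2.2 b hbD a ha.1 hab.symm)⟩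
      · rintro ⟨hx1, hx2⟩
        rcases hxD with h | h
        · exact hx2 h
        · exact hx2 (hD₁.2.2.2 y h x hx1 hxy.symm)
      · rintro ⟨hy1, hy2⟩
        rcases hxD with h | h
        · exact hy2 (hD₁.2.2.2 x h y hy1 hxy)
        · exact hy2 h
    · push Not at hxD
      exact ⟨D₁, hD₁, hxD.1, hxD.2⟩
  obtain ⟨D₂, ⟨hD₂S, hD₂ne, hD₂c, hD₂cl⟩, hxD₂, hyD₂⟩ := hside
  -- a neighbour of `u` in `D₂`
  have huv : ∃ v ∈ D₂, G.Adj v u := by
    by_contra hno
    push Not at hno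
    refine not_part (h3 z w) (D := D₂) ⟨?_, hD₂ne, ?_, ?_⟩
    · intro a ha
      have := hD₂S ha
      simp only [Set.mem_sdiff, Set.mem_insert_iff, Set.mem_singleton_iff, not_or] at this ⊢
      exact ⟨this.1, this.2.1, this.2.2.2⟩
    · obtain ⟨b, hb, hbD⟩ := hD₂c
      refine ⟨b, ?_, hbD⟩
      simp only [Set.mem_sdiff, Set.mem_insert_iff, Set.mem_singleton_iff, not_or] at hb ⊢
      exact ⟨hb.1, hb.2.1, hb.2.2.2⟩
    · intro a ha b hb hab
      by_cases hbu : b = u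
      · subst hbu
        exact absurd hab (hno a ha)
      · refine hD₂cl a ha b ?_ hab
        simp only [Set.mem_sdiff, Set.mem_insert_iff, Set.mem_singleton_iff, not_or] at hb ⊢
        exact ⟨hb.1, hb.2.1, hbu, hb.2.2⟩
  obtain ⟨v, hvD₂, hvu⟩ := huv
  have hsub : ∀ a ∈ D₂, a ∈ G.support \ {x, y, z} := by
    intro a ha
    have := hD₂S ha
    simp only [Set.mem_sdiff, Set.mem_insert_iff, Set.mem_singleton_iff, not_or] at this ⊢
    refine ⟨this.1, ?_, ?_, this.2.1⟩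
    · rintro rfl
      exact hxD₂ ha
    · rintro rfl
      exact hyD₂ ha
  have hvD : v ∈ D := hcl u huD v (hsub v hvD₂) hvu.symm
  have huD₂ : u ∉ D₂ := by
    intro h
    have := hD₂S h
    simp at this
  have hlt : (D₂ ∩ D).ncard < D.ncard := by
    refine Set.ncard_lt_ncard ⟨Set.inter_subset_right, fun h => huD₂ (h huD).1⟩ (Set.toFinite D)
  refine hmin _ hlt ⟨z, u, w, D₂ ∩ D, huz.symm, ⟨?_, ⟨v, hvD₂, hvD⟩, ?_, ?_⟩, rfl⟩
  · exact Set.inter_subset_left.trans hD₂S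
  · obtain ⟨b, hb, hbD⟩ := hD₂c
    exact ⟨b, hb, fun h => hbD h.1⟩
  · rintro a ⟨ha, haD⟩ b hb hab
    have hb2 : b ∈ D₂ := hD₂cl a ha b hb hab
    exact ⟨hb2, hcl a haD b (hsub b hb2) hab⟩

end Pool.Agent.MP9d6bd1
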