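import Mathlib
import Pool.Agent.Lib.MP_9d6bd1_lc.GDefs
import Pool.Agent.Lib.MP_9d6bd1_lc.GDualMono

/-!
# MP_9d6bd1_lc, module G03b: a minor of a graph with a dual has a dual
-/

set_option autoImplicit false

open Classical

namespace Pool.Agent.MP9d6bd1

namespace GDualMinorAux

/-- transfer of a dual along a map `ψ` from the edges of `G'` to the edges of `G`. -/
theorem transfer {V V' : Type} (G : SimpleGraph V) (G' : SimpleGraph V')
    (ψ : Sym2 V' → Sym2 V) (hψ : ∀ e ∈ G'.edgeSet, ψ e ∈ G.edgeSet)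
    (h1 : ∀ Z, Z ⊆ G.edgeSet → EvenSet Z → EvenSet {e | e ∈ G'.edgeSet ∧ ψ e ∈ Z})
    (h2 : ∀ Z', Z' ⊆ G'.edgeSet → EvenSet Z' → ∃ Z, Z ⊆ G.edgeSet ∧ EvenSet Z ∧
      {e | e ∈ G'.edgeSet ∧ ψ e ∈ Z} = Z')
    (h3 : ∀ Z, Z ⊆ G.edgeSet → EvenSet Z → {e | e ∈ G'.edgeSet ∧ ψ e ∈ Z} = ∅ → Z = ∅)
    (hG : HasDual G) : HasDual G' := by
  obtain ⟨ι, l, r, hf, hne, hD⟩ := hG
  have key : ∀ J, cut G' (fun e => l (ψ e)) (fun e => r (ψ e)) J
      = {e | e ∈ G'.edgeSet ∧ ψ e ∈ cut G l r J} := by
    intro J
    ext e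
    simp only [cut, Set.mem_ofPred_eq]
    constructor
    · rintro ⟨he, hc⟩
      exact ⟨he, hψ e he, hc⟩
    · rintro ⟨he, -, hc⟩
      exact ⟨he, hc⟩
  have hsub : ∀ J, cut G l r J ⊆ G.edgeSet := fun J e he => he.1
  refine ⟨ι, fun e => l (ψ e), fun e => r (ψ e), hf, hne, ?_, ?_, ?_⟩
  · intro J
    rw [key]
    exact h1 _ (hsub J) (hD.even J)
  · intro Z' hZ' he'
    obtain ⟨Z, hZ, heZ, hZZ'⟩ := h2 Z' hZ' he'
    obtain ⟨J, hJ⟩ := hD.exist Z hZ heZ
    refine ⟨J, ?_⟩
    rw [key, hJ, hZZ']
  · intro J hJ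
    rw [key] at hJ
    exact hD.conn J (h3 _ (hsub J) (hD.even J) hJ)

/-- a graph that embeds into a graph with a dual has a dual. -/
theorem dual_embed {V W : Type} [Finite V] [Finite W] (G : SimpleGraph V) (K : SimpleGraph W)
    (b : W → V) (hb : Function.Injective b) (h : ∀ i j, K.Adj i j → G.Adj (b i) (b j))
    (hG : HasDual G) : HasDual K := by
  have hle : K.map b ≤ G := by
    intro u v huv
    obtain ⟨-, i, j, hij, rfl, rfl⟩ := huv
    exact h i j hij
  have hK' : HasDual (K.map b) := dual_mono hle hG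
  have hmem : ∀ e : Sym2 W, Sym2.map b e ∈ (K.map b).edgeSet ↔ e ∈ K.edgeSet := by
    intro e
    induction e using Sym2.ind with
    | _ u v =>
      rw [Sym2.map_mk, SimpleGraph.mem_edgeSet, SimpleGraph.mem_edgeSet]
      constructor
      · rintro ⟨-, i, j, hij, hi, hj⟩
        rw [← hb hi, ← hb hj]
        exact hij
      · intro huv
        exact ⟨fun hne => huv.ne (hb hne), u, v, huv, rfl, rfl⟩
  have hsurj : ∀ e' ∈ (K.map b).edgeSet, ∃ e ∈ K.edgeSet, Sym2.map b e = e' := by
    intro e'
    induction e' using Sym2.ind with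
    | _ u v =>
      rw [SimpleGraph.mem_edgeSet]
      rintro ⟨-, i, j, hij, rfl, rfl⟩
      exact ⟨s(i, j), hij, rfl⟩
  have hinj : Function.Injective (Sym2.map b) := Sym2.map.injective hb
  have hcount : ∀ (Z : Set (Sym2 V)), Z ⊆ (K.map b).edgeSet → ∀ i : W,
      {e | e ∈ Z ∧ b i ∈ e} = Sym2.map b '' {e | e ∈ {e | e ∈ K.edgeSet ∧ Sym2.map b e ∈ Z} ∧ i ∈ e} := by
    intro Z hZ i
    ext e'
    simp only [Set.mem_ofPred_eq, Set.mem_image]
    constructor
    · rintro ⟨he', hi⟩
      obtain ⟨e, he, rfl⟩ := hsurj e' (hZ he')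
      refine ⟨e, ⟨⟨he, he'⟩, ?_⟩, rfl⟩
      rw [Sym2.mem_map] at hi
      obtain ⟨j, hj, hji⟩ := hi
      rwa [← hb hji]
    · rintro ⟨e, ⟨⟨he, he'⟩, hi⟩, rfl⟩
      refine ⟨he', ?_⟩
      rw [Sym2.mem_map]
      exact ⟨i, hi, rfl⟩
  have heven : ∀ (Z : Set (Sym2 V)), Z ⊆ (K.map b).edgeSet →
      (EvenSet Z ↔ EvenSet {e | e ∈ K.edgeSet ∧ Sym2.map b e ∈ Z}) := by
    intro Z hZ
    constructor
    · intro hE i
      have := hE (b i)
      rw [hcount Z hZ i, Set.ncard_image_of_injective _ hinj] at this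
      exact this
    · intro hE v
      by_cases hv : ∃ i, b i = v
      · obtain ⟨i, rfl⟩ := hv
        rw [hcount Z hZ i, Set.ncard_image_of_injective _ hinj]
        exact hE i
      · have : {e | e ∈ Z ∧ v ∈ e} = ∅ := by
          ext e'
          simp only [Set.mem_ofPred_eq, Set.mem_empty_iff_false, iff_false, not_and]
          intro he' hve
          obtain ⟨e, he, rfl⟩ := hsurj e' (hZ he')
          rw [Sym2.mem_map] at hve
          obtain ⟨i, -, hi⟩ := hve
          exact hv ⟨i, hi⟩
        rw [this]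
        simp
  refine transfer (K.map b) K (Sym2.map b) (fun e he => (hmem e).2 he) ?_ ?_ ?_ hK'
  · intro Z hZ hE
    exact (heven Z hZ).1 hE
  · intro Z' hZ' hE
    have hsub : Sym2.map b '' Z' ⊆ (K.map b).edgeSet := by
      rintro _ ⟨e, he, rfl⟩
      exact (hmem e).2 (hZ' he)
    have heq : {e | e ∈ K.edgeSet ∧ Sym2.map b e ∈ Sym2.map b '' Z'} = Z' := by
      ext e
      simp only [Set.mem_ofPred_eq]
      constructor
      · rintro ⟨-, e', he', hee⟩
        rwa [← hinj hee]
      · intro he
        exact ⟨hZ' he, e, he, rfl⟩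
    refine ⟨Sym2.map b '' Z', hsub, ?_, heq⟩
    rw [heven _ hsub, heq]
    exact hE
  · intro Z hZ hE h0
    rw [Set.eq_empty_iff_forall_notMem]
    intro e' he'
    obtain ⟨e, he, rfl⟩ := hsurj e' (hZ he')
    have : e ∈ {e | e ∈ K.edgeSet ∧ Sym2.map b e ∈ Z} := ⟨he, he'⟩
    rw [h0] at this
    exact this

/-- contraction of an edge whose ends have no common neighbour. -/
theorem dual_contr_simple {V : Type} [Finite V] (G : SimpleGraph V) (x y : V) (hxy : G.Adj x y)
    (hno : ∀ a, G.Adj x a → ¬ G.Adj y a) (hG : HasDual G) : HasDual (contr G x y) := by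
  have hne : x ≠ y := hxy.ne
  obtain ⟨f, hf⟩ : ∃ f : V → V, f = fun t => if t = y then x else t := ⟨_, rfl⟩
  have hfy : f y = x := by rw [hf]; simp
  have hft : ∀ t, t ≠ y → f t = t := by intro t ht; rw [hf]; simp [ht]
  have hadj : ∀ a b, (contr G x y).Adj a b ↔ a ≠ b ∧ ∃ u v, G.Adj u v ∧ f u = a ∧ f v = b := by
    intro a b
    rw [hf]
    exact Iff.rfl
  obtain ⟨φ, hφ⟩ : ∃ φ : Sym2 V → Sym2 V, φ = Sym2.map f := ⟨_, rfl⟩
  have hφm : ∀ u v, φ s(u, v) = s(f u, f v) := by intro u v; rw [hφ]; rfl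
  obtain ⟨D, hD⟩ : ∃ D : Set (Sym2 V), D = G.edgeSet \ {s(x, y)} := ⟨_, rfl⟩
  have hmemD : ∀ u v, s(u, v) ∈ D ↔ G.Adj u v ∧ s(u, v) ≠ s(x, y) := by
    intro u v
    rw [hD, Set.mem_sdiff, SimpleGraph.mem_edgeSet, Set.mem_singleton_iff]
  have hmaps : ∀ e ∈ D, φ e ∈ (contr G x y).edgeSet := by
    intro e
    induction e using Sym2.ind with
    | _ u v =>
      intro he
      rw [hmemD] at he
      rw [hφm, SimpleGraph.mem_edgeSet, hadj]
      refine ⟨?_, u, v, he.1, rfl, rfl⟩
      intro huv
      by_cases hu : u = y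
      · by_cases hv : v = y
        · exact he.1.ne (hu.trans hv.symm)
        · rw [hu, hfy, hft v hv] at huv
          apply he.2
          rw [hu, ← huv]
          exact Sym2.eq_swap
      · by_cases hv : v = y
        · rw [hv, hfy, hft u hu] at huv
          apply he.2
          rw [hv, huv]
        · rw [hft u hu, hft v hv] at huv
          exact he.1.ne huv
  have hsurj : ∀ e' ∈ (contr G x y).edgeSet, ∃ e ∈ D, φ e = e' := by
    intro e'
    induction e' using Sym2.ind with
    | _ a b =>
      rw [SimpleGraph.mem_edgeSet, hadj]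
      rintro ⟨hab, u, v, huv, rfl, rfl⟩
      refine ⟨s(u, v), ?_, hφm u v⟩
      rw [hmemD]
      refine ⟨huv, ?_⟩
      intro hs
      rw [Sym2.eq_iff] at hs
      rcases hs with ⟨h1, h2⟩ | ⟨h1, h2⟩
      · apply hab
        rw [h1, h2, hfy, hft x hne]
      · apply hab
        rw [h1, h2, hfy, hft x hne]
  have hinj : Set.InjOn φ D := by
    intro e
    induction e using Sym2.ind with
    | _ u v =>
      intro he e'
      induction e' using Sym2.ind with
      | _ u' v' =>
        intro he' hee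
        rw [hmemD] at he he'
        rw [hφm, hφm] at hee
        -- auxiliary: no clash between an edge at `x` and an edge at `y`
        have clash : ∀ p q, G.Adj y p → s(y, p) ≠ s(x, y) → G.Adj x q → s(x, q) ≠ s(x, y) →
            f p ≠ f q := by
          intro p q hp hp' hq hq' hpq
          have hpy : p ≠ y := fun h => hp.ne h.symm
          have hqy : q ≠ y := by
            rintro rfl
            exact hq' rfl
          rw [hft p hpy, hft q hqy] at hpq
          subst hpq
          exact hno p hq hp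
        have main : ∀ u v u' v', G.Adj u v → s(u, v) ≠ s(x, y) → G.Adj u' v' →
            s(u', v') ≠ s(x, y) → f u = f u' → f v = f v' → s(u, v) = s(u', v') := by
          intro u v u' v' h1 h2 h3 h4 h5 h6
          have e1 : u = u' := by
            by_contra hc
            by_cases hu : u = y
            · have hu' : u' ≠ y := fun h => hc (hu.trans h.symm)
              rw [hu, hfy, hft u' hu'] at h5
              subst hu
              subst h5
              exact clash v v' h1 h2 h3 h4 h6
            · by_cases hu' : u' = y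
              · rw [hu', hfy, hft u hu] at h5
                subst hu'
                subst h5
                exact clash v' v h3 h4 h1 h2 h6.symm
              · rw [hft u hu, hft u' hu'] at h5
                exact hc h5
          have e2 : v = v' := by
            by_contra hc
            by_cases hv : v = y
            · have hv' : v' ≠ y := fun h => hc (hv.trans h.symm)
              rw [hv, hfy, hft v' hv'] at h6
              subst hv
              subst h6
              refine clash u u' h1.symm ?_ h3.symm ?_ h5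
              · rw [Sym2.eq_swap]; exact h2
              · rw [Sym2.eq_swap]; exact h4
            · by_cases hv' : v' = y
              · rw [hv', hfy, hft v hv] at h6
                subst hv'
                subst h6
                refine clash u' u h3.symm ?_ h1.symm ?_ h5.symm
                · rw [Sym2.eq_swap]; exact h4
                · rw [Sym2.eq_swap]; exact h2
              · rw [hft v hv, hft v' hv'] at h6
                exact hc h6
          rw [e1, e2]
        rw [Sym2.eq_iff] at hee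
        rcases hee with ⟨h1, h2⟩ | ⟨h1, h2⟩
        · exact main u v u' v' he.1 he.2 he'.1 he'.2 h1 h2
        · rw [Sym2.eq_swap (a := u') (b := v')]
          refine main u v v' u' he.1 he.2 he'.1.symm ?_ h1 h2
          rw [Sym2.eq_swap]
          exact he'.2
  -- membership in an image
  have hmem1 : ∀ v, v ≠ x → v ≠ y → ∀ e, v ∈ φ e ↔ v ∈ e := by
    intro v hvx hvy e
    rw [hφ, Sym2.mem_map]
    constructor
    · rintro ⟨t, ht, htv⟩
      by_cases h : t = y
      · rw [h, hfy] at htv
        exact absurd htv.symm hvx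
      · rw [hft t h] at htv
        rwa [← htv]
    · intro h
      exact ⟨v, h, hft v hvy⟩
  have hmem2 : ∀ e, x ∈ φ e ↔ (x ∈ e ∨ y ∈ e) := by
    intro e
    rw [hφ, Sym2.mem_map]
    constructor
    · rintro ⟨t, ht, htv⟩
      by_cases h : t = y
      · right; rwa [← h]
      · rw [hft t h] at htv
        left; rwa [← htv]
    · rintro (h | h)
      · exact ⟨x, h, hft x hne⟩
      · exact ⟨y, h, hfy⟩
  have hmem3 : ∀ e, y ∉ φ e := by
    intro e
    rw [hφ, Sym2.mem_map]
    rintro ⟨t, ht, htv⟩
    by_cases h : t = y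
    · rw [h, hfy] at htv
      exact hne htv
    · rw [hft t h] at htv
      exact h htv
  have hboth : ∀ e : Sym2 V, x ∈ e → y ∈ e → e = s(x, y) := by
    intro e hx hy
    exact (Sym2.mem_and_mem_iff hne).1 ⟨hx, hy⟩
  -- degrees
  have hfin : ∀ Z : Set (Sym2 V), Z.Finite := fun Z => Set.toFinite Z
  have degA : ∀ Y : Set (Sym2 V), Y ⊆ D → ∀ v, v ≠ x → v ≠ y →
      {e | e ∈ φ '' Y ∧ v ∈ e}.ncard = {e | e ∈ Y ∧ v ∈ e}.ncard := by
    intro Y hY v hvx hvy
    have : {e | e ∈ φ '' Y ∧ v ∈ e} = φ '' {e | e ∈ Y ∧ v ∈ e} := by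
      ext e'
      constructor
      · rintro ⟨⟨e, he, rfl⟩, hv⟩
        exact ⟨e, ⟨he, (hmem1 v hvx hvy e).1 hv⟩, rfl⟩
      · rintro ⟨e, ⟨he, hv⟩, rfl⟩
        exact ⟨⟨e, he, rfl⟩, (hmem1 v hvx hvy e).2 hv⟩
    rw [this]
    exact (hinj.mono fun e he => hY he.1).ncard_image
  have degB : ∀ Y : Set (Sym2 V), Y ⊆ D →
      {e | e ∈ φ '' Y ∧ x ∈ e}.ncard = {e | e ∈ Y ∧ x ∈ e}.ncard + {e | e ∈ Y ∧ y ∈ e}.ncard := by
    intro Y hY
    have h1 : {e | e ∈ φ '' Y ∧ x ∈ e} = φ '' ({e | e ∈ Y ∧ x ∈ e} ∪ {e | e ∈ Y ∧ y ∈ e}) := by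
      ext e'
      constructor
      · rintro ⟨⟨e, he, rfl⟩, hv⟩
        rcases (hmem2 e).1 hv with h | h
        · exact ⟨e, Or.inl ⟨he, h⟩, rfl⟩
        · exact ⟨e, Or.inr ⟨he, h⟩, rfl⟩
      · rintro ⟨e, ⟨he, hv⟩ | ⟨he, hv⟩, rfl⟩
        · exact ⟨⟨e, he, rfl⟩, (hmem2 e).2 (Or.inl hv)⟩
        · exact ⟨⟨e, he, rfl⟩, (hmem2 e).2 (Or.inr hv)⟩
    have h2 : Set.InjOn φ ({e | e ∈ Y ∧ x ∈ e} ∪ {e | e ∈ Y ∧ y ∈ e}) := by
      apply hinj.mono
      rintro e (he | he)
      · exact hY he.1
      · exact hY he.1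
    rw [h1, h2.ncard_image]
    refine Set.ncard_union_eq ?_ (hfin _) (hfin _)
    rw [Set.disjoint_left]
    rintro e ⟨he, hx⟩ ⟨-, hy⟩
    have := hY he
    rw [hboth e hx hy, hmemD] at this
    exact this.2 rfl
  have degC : ∀ Y : Set (Sym2 V), {e | e ∈ φ '' Y ∧ y ∈ e}.ncard = 0 := by
    intro Y
    have : {e | e ∈ φ '' Y ∧ y ∈ e} = ∅ := by
      rw [Set.eq_empty_iff_forall_notMem]
      rintro _ ⟨⟨e, he, rfl⟩, hv⟩
      exact hmem3 e hv
    rw [this, Set.ncard_empty]
  -- evenness of an image
  have hevenimg : ∀ Y : Set (Sym2 V), Y ⊆ D → (EvenSet (φ '' Y) ↔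
      (∀ v, v ≠ x → v ≠ y → Even {e | e ∈ Y ∧ v ∈ e}.ncard) ∧
        Even ({e | e ∈ Y ∧ x ∈ e}.ncard + {e | e ∈ Y ∧ y ∈ e}.ncard)) := by
    intro Y hY
    constructor
    · intro h
      refine ⟨fun v hvx hvy => ?_, ?_⟩
      · rw [← degA Y hY v hvx hvy]
        exact h v
      · rw [← degB Y hY]
        exact h x
    · rintro ⟨h1, h2⟩ v
      by_cases hvx : v = x
      · rw [hvx, degB Y hY]
        exact h2
      · by_cases hvy : v = y
        · rw [hvy, degC]
          exact Even.zero
        · rw [degA Y hY v hvx hvy]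
          exact h1 v hvx hvy
  -- adding or removing the edge `x y`
  have hins : ∀ Y : Set (Sym2 V), Y ⊆ D → (EvenSet (insert s(x, y) Y) ↔
      (∀ v, v ≠ x → v ≠ y → Even {e | e ∈ Y ∧ v ∈ e}.ncard) ∧
        ¬ Even {e | e ∈ Y ∧ x ∈ e}.ncard ∧ ¬ Even {e | e ∈ Y ∧ y ∈ e}.ncard) := by
    intro Y hY
    have hnot : s(x, y) ∉ Y := by
      intro h
      have := hY h
      rw [hmemD] at this
      exact this.2 rfl
    have e1 : ∀ v, v ≠ x → v ≠ y →
        {e | e ∈ insert s(x, y) Y ∧ v ∈ e} = {e | e ∈ Y ∧ v ∈ e} := by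
      intro v hvx hvy
      ext e
      constructor
      · rintro ⟨he | he, hv⟩
        · rw [he, Sym2.mem_iff] at hv
          exact absurd hv (by rintro (h | h); exacts [hvx h, hvy h])
        · exact ⟨he, hv⟩
      · rintro ⟨he, hv⟩
        exact ⟨Or.inr he, hv⟩
    have e2 : ∀ v, v ∈ s(x, y) →
        {e | e ∈ insert s(x, y) Y ∧ v ∈ e}.ncard = {e | e ∈ Y ∧ v ∈ e}.ncard + 1 := by
      intro v hv
      have : {e | e ∈ insert s(x, y) Y ∧ v ∈ e} = insert s(x, y) {e | e ∈ Y ∧ v ∈ e} := by
        ext e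
        constructor
        · rintro ⟨he | he, hv⟩
          · exact Or.inl he
          · exact Or.inr ⟨he, hv⟩
        · rintro (he | he)
          · rw [he]
            exact ⟨Or.inl rfl, hv⟩
          · exact ⟨Or.inr he.1, he.2⟩
      rw [this, Set.ncard_insert_of_notMem (fun h => hnot h.1) (hfin _)]
    constructor
    · intro h
      refine ⟨fun v hvx hvy => ?_, ?_, ?_⟩
      · have := h v
        rwa [e1 v hvx hvy] at this
      · have := h x
        rw [e2 x (Sym2.mem_mk_left x y)] at this
        exact fun h' => absurd this (by simpa [Nat.even_add_one] using h')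
      · have := h y
        rw [e2 y (Sym2.mem_mk_right x y)] at this
        exact fun h' => absurd this (by simpa [Nat.even_add_one] using h')
    · rintro ⟨h1, h2, h3⟩ v
      by_cases hvx : v = x
      · rw [hvx, e2 x (Sym2.mem_mk_left x y), Nat.even_add_one]
        exact h2
      · by_cases hvy : v = y
        · rw [hvy, e2 y (Sym2.mem_mk_right x y), Nat.even_add_one]
          exact h3
        · rw [e1 v hvx hvy]
          exact h1 v hvx hvy
  have hdich : ∀ Z : Set (Sym2 V), Z ⊆ G.edgeSet →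
      Z \ {s(x, y)} ⊆ D ∧ (Z = Z \ {s(x, y)} ∨ Z = insert s(x, y) (Z \ {s(x, y)})) := by
    intro Z hZ
    refine ⟨?_, ?_⟩
    · rw [hD]
      exact Set.sdiff_subset_sdiff_left hZ
    · by_cases h : s(x, y) ∈ Z
      · right
        ext e
        by_cases he : e = s(x, y)
        · simp [he, h]
        · simp [he]
      · left
        ext e
        constructor
        · intro he
          exact ⟨he, fun h' => h (h' ▸ he)⟩
        · exact fun he => he.1
  -- the inverse map
  have hex : ∀ e' : Sym2 V, ∃ e, e' ∈ (contr G x y).edgeSet → (e ∈ D ∧ φ e = e') := by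
    intro e'
    by_cases h : e' ∈ (contr G x y).edgeSet
    · obtain ⟨e, he, hee⟩ := hsurj e' h
      exact ⟨e, fun _ => ⟨he, hee⟩⟩
    · exact ⟨e', fun h' => absurd h' h⟩
  choose ψ hψ using hex
  have himg : ∀ Z : Set (Sym2 V), Z ⊆ G.edgeSet →
      {e | e ∈ (contr G x y).edgeSet ∧ ψ e ∈ Z} = φ '' (Z \ {s(x, y)}) := by
    intro Z hZ
    ext e'
    constructor
    · rintro ⟨he', hz⟩
      obtain ⟨h1, h2⟩ := hψ e' he'
      refine ⟨ψ e', ⟨hz, ?_⟩, h2⟩
      rw [hD] at h1
      exact h1.2
    · rintro ⟨e, ⟨he, hne'⟩, rfl⟩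
      have heD : e ∈ D := by
        rw [hD]
        exact ⟨hZ he, hne'⟩
      have hmm := hmaps e heD
      refine ⟨hmm, ?_⟩
      obtain ⟨h1, h2⟩ := hψ (φ e) hmm
      have : ψ (φ e) = e := hinj h1 heD h2
      rw [this]
      exact he
  refine transfer G (contr G x y) ψ ?_ ?_ ?_ ?_ hG
  · intro e he
    have := (hψ e he).1
    rw [hD] at this
    exact this.1
  · intro Z hZ hE
    rw [himg Z hZ]
    obtain ⟨hsub, hor⟩ := hdich Z hZ
    rw [hevenimg _ hsub]
    rcases hor with h | h
    · rw [← h]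
      exact ⟨fun v _ _ => hE v, (hE x).add (hE y)⟩
    · rw [h] at hE
      rw [hins _ hsub] at hE
      refine ⟨hE.1, ?_⟩
      rw [Nat.even_add]
      exact ⟨fun h' => absurd h' hE.2.1, fun h' => absurd h' hE.2.2⟩
  · intro Z' hZ' hE
    obtain ⟨Y, hY, hYZ⟩ : ∃ Y, Y ⊆ D ∧ φ '' Y = Z' := by
      refine ⟨{e | e ∈ D ∧ φ e ∈ Z'}, fun e he => he.1, ?_⟩
      ext e'
      constructor
      · rintro ⟨e, he, rfl⟩
        exact he.2
      · intro he'
        obtain ⟨e, he, rfl⟩ := hsurj e' (hZ' he')
        exact ⟨e, ⟨he, he'⟩, rfl⟩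
    have hYG : Y ⊆ G.edgeSet := fun e he => by
      have := hY he
      rw [hD] at this
      exact this.1
    have hnot : s(x, y) ∉ Y := by
      intro h
      have := hY h
      rw [hmemD] at this
      exact this.2 rfl
    rw [← hYZ, hevenimg Y hY, Nat.even_add] at hE
    by_cases hx : Even {e | e ∈ Y ∧ x ∈ e}.ncard
    · refine ⟨Y, hYG, ?_, ?_⟩
      · intro v
        by_cases hvx : v = x
        · rw [hvx]; exact hx
        · by_cases hvy : v = y
          · rw [hvy]; exact hE.2.1 hx
          · exact hE.1 v hvx hvy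
      · rw [himg Y hYG, Set.sdiff_singleton_eq_self hnot, hYZ]
    · refine ⟨insert s(x, y) Y, ?_, ?_, ?_⟩
      · rintro e (he | he)
        · rw [he]
          exact hxy
        · exact hYG he
      · rw [hins Y hY]
        exact ⟨hE.1, hx, fun h => hx (hE.2.2 h)⟩
      · rw [himg]
        · rw [Set.insert_sdiff_of_mem _ (Set.mem_singleton _), Set.sdiff_singleton_eq_self hnot, hYZ]
        · rintro e (he | he)
          · rw [he]
            exact hxy
          · exact hYG he
  · intro Z hZ hE h0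
    rw [himg Z hZ, Set.image_eq_empty] at h0
    obtain ⟨hsub, hor⟩ := hdich Z hZ
    rcases hor with h | h
    · rw [h, h0]
    · exfalso
      rw [h, h0] at hE
      have := (hins ∅ (Set.empty_subset _)).1 hE
      apply this.2.1
      simp

/-- contraction of an edge. -/
theorem dual_contr {V : Type} [Finite V] (G : SimpleGraph V) (x y : V) (hxy : G.Adj x y)
    (hG : HasDual G) : HasDual (contr G x y) := by
  obtain ⟨H, hH⟩ : ∃ H : SimpleGraph V, ∀ u v, H.Adj u v ↔ G.Adj u v ∧
      ¬ (u = y ∧ G.Adj x v) ∧ ¬ (v = y ∧ G.Adj x u) := by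
    refine ⟨⟨fun u v => G.Adj u v ∧ ¬ (u = y ∧ G.Adj x v) ∧ ¬ (v = y ∧ G.Adj x u), ⟨?_⟩, ⟨?_⟩⟩, ?_⟩
    · rintro u v ⟨h1, h2, h3⟩
      exact ⟨h1.symm, h3, h2⟩
    · rintro u ⟨h1, -⟩
      exact h1.ne rfl
    · intro u v
      exact Iff.rfl
  have hle : H ≤ G := fun u v huv => ((hH u v).1 huv).1
  have hHD : HasDual H := dual_mono hle hG
  have hxyH : H.Adj x y := by
    rw [hH]
    refine ⟨hxy, ?_, ?_⟩
    · rintro ⟨h, -⟩
      exact hxy.ne h
    · rintro ⟨-, h⟩
      exact h.ne rfl
  have hno : ∀ a, H.Adj x a → ¬ H.Adj y a := by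
    intro a h1 h2
    have h3 := ((hH x a).1 h1).1
    exact ((hH y a).1 h2).2.1 ⟨rfl, h3⟩
  have heq : contr G x y = contr H x y := by
    ext a b
    have hadj : ∀ (G : SimpleGraph V) (a b : V), (contr G x y).Adj a b ↔ a ≠ b ∧
        ∃ u v, G.Adj u v ∧ (if u = y then x else u) = a ∧ (if v = y then x else v) = b :=
      fun G a b => Iff.rfl
    rw [hadj, hadj]
    refine and_congr_right fun hab => ⟨?_, ?_⟩
    · rintro ⟨u, v, huv, hu, hv⟩
      by_cases h : H.Adj u v
      · exact ⟨u, v, h, hu, hv⟩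
      · rw [hH] at h
        have h' : (u = y ∧ G.Adj x v) ∨ (v = y ∧ G.Adj x u) := by
          by_contra hcon
          rw [not_or] at hcon
          exact h ⟨huv, hcon⟩
        rcases h' with ⟨h1, h2⟩ | ⟨h1, h2⟩
        · have hvy : v ≠ y := by
            rintro rfl
            exact huv.ne h1
          refine ⟨x, v, ?_, ?_, hv⟩
          · rw [hH]
            exact ⟨h2, fun h => hxy.ne h.1, fun h => hvy h.1⟩
          · rw [if_neg hxy.ne, ← hu, if_pos h1]
        · have huy : u ≠ y := by
            rintro rfl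
            exact huv.ne h1.symm
          refine ⟨u, x, ?_, hu, ?_⟩
          · rw [hH]
            exact ⟨h2.symm, fun h => huy h.1, fun h => hxy.ne h.1⟩
          · rw [if_neg hxy.ne, ← hv, if_pos h1]
    · rintro ⟨u, v, huv, hu, hv⟩
      exact ⟨u, v, hle huv, hu, hv⟩
  rw [heq]
  exact dual_contr_simple H x y hxyH hno hHD

end GDualMinorAux

theorem dual_minor {V W : Type} [Finite V] [Finite W] (G : SimpleGraph V) (K : SimpleGraph W)
    (hm : HasMinor G K) (hG : HasDual G) : HasDual K := by
  have aux : ∀ (n : ℕ) (G : SimpleGraph V) (B : W → Set V),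
      (∀ i, (G.induce (B i)).Connected) → (∀ i j, i ≠ j → Disjoint (B i) (B j)) →
      (∀ i j, K.Adj i j → ∃ u ∈ B i, ∃ v ∈ B j, G.Adj u v) → (⋃ i, B i).ncard ≤ n →
      HasDual G → HasDual K := by
    intro n
    induction n with
    | zero =>
      intro G B hc hd he hn hG
      have h0 : (⋃ i, B i) = ∅ := by
        rw [← Set.ncard_eq_zero (Set.toFinite _)]
        omega
      have hW : IsEmpty W := by
        constructor
        intro i
        obtain ⟨⟨v, hv⟩⟩ := (hc i).nonempty
        have : v ∈ ⋃ i, B i := Set.mem_iUnion.2 ⟨i, hv⟩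
        rw [h0] at this
        exact this
      exact GDualMinorAux.dual_embed G K (fun i => (hW.false i).elim)
        (fun i => (hW.false i).elim) (fun i => (hW.false i).elim) hG
    | succ n ih =>
      intro G B hc hd he hn hG
      by_cases hsub : ∀ i, (B i).Subsingleton
      · have hne : ∀ i, ∃ v, v ∈ B i := by
          intro i
          obtain ⟨⟨v, hv⟩⟩ := (hc i).nonempty
          exact ⟨v, hv⟩
        choose b hb using hne
        refine GDualMinorAux.dual_embed G K b ?_ ?_ hG
        · intro i j hij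
          by_contra hne
          have := hd i j hne
          rw [Set.disjoint_left] at this
          exact this (hb i) (hij ▸ hb j)
        · intro i j hij
          obtain ⟨u, hu, v, hv, huv⟩ := he i j hij
          rwa [hsub i (hb i) hu, hsub j (hb j) hv]
      · rw [not_forall] at hsub
        obtain ⟨i, hi⟩ := hsub
        rw [Set.not_subsingleton_iff] at hi
        -- an edge inside `B i`
        obtain ⟨x, y, hx, hy, hxy⟩ : ∃ x y, x ∈ B i ∧ y ∈ B i ∧ G.Adj x y := by
          obtain ⟨p, hp, q, hq, hpq⟩ := hi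
          have hr := (hc i).preconnected ⟨p, hp⟩ ⟨q, hq⟩
          obtain ⟨w⟩ := hr
          cases w with
          | nil => exact absurd rfl hpq
          | cons h w' => exact ⟨_, _, hp, Subtype.prop _, h⟩
        have hne : x ≠ y := hxy.ne
        obtain ⟨f, hf⟩ : ∃ f : V → V, f = fun t => if t = y then x else t := ⟨_, rfl⟩
        have hfy : f y = x := by rw [hf]; simp
        have hft : ∀ t, t ≠ y → f t = t := by intro t ht; rw [hf]; simp [ht]
        have hadj : ∀ a b, (contr G x y).Adj a b ↔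
            a ≠ b ∧ ∃ u v, G.Adj u v ∧ f u = a ∧ f v = b := by
          intro a b
          rw [hf]
          exact Iff.rfl
        have hfB : ∀ j, ∀ t ∈ B j, f t ∈ B j \ {y} := by
          intro j t ht
          by_cases hty : t = y
          · have hji : j = i := by
              by_contra hji
              have := hd j i hji
              rw [Set.disjoint_left] at this
              exact this ht (hty ▸ hy)
            rw [hty, hfy, hji]
            exact ⟨hx, hne⟩
          · rw [hft t hty]
            exact ⟨ht, hty⟩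
        refine ih (contr G x y) (fun j => B j \ {y}) ?_ ?_ ?_ ?_
          (GDualMinorAux.dual_contr G x y hxy hG)
        · intro j
          rw [SimpleGraph.connected_iff]
          constructor
          · have hreach : ∀ (u v : B j), (G.induce (B j)).Reachable u v →
                ((contr G x y).induce (B j \ {y})).Reachable ⟨f u, hfB j u u.2⟩
                  ⟨f v, hfB j v v.2⟩ := by
              intro u v huv
              obtain ⟨w⟩ := huv
              induction w with
              | nil => exact SimpleGraph.Reachable.refl _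
              | @cons a b c h w' ihw =>
                refine SimpleGraph.Reachable.trans ?_ ihw
                by_cases hab : f a = f b
                · have : (⟨f a, hfB j a a.2⟩ : (B j \ {y} : Set V)) = ⟨f b, hfB j b b.2⟩ :=
                    Subtype.ext hab
                  rw [this]
                · apply SimpleGraph.Adj.reachable
                  change (contr G x y).Adj (f a) (f b)
                  rw [hadj]
                  exact ⟨hab, a, b, h, rfl, rfl⟩
            rintro ⟨u, hu⟩ ⟨v, hv⟩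
            have := hreach ⟨u, hu.1⟩ ⟨v, hv.1⟩ ((hc j).preconnected _ _)
            have e1 : f u = u := hft u hu.2
            have e2 : f v = v := hft v hv.2
            simpa only [e1, e2] using this
          · obtain ⟨⟨t, ht⟩⟩ := (hc j).nonempty
            exact ⟨⟨f t, hfB j t ht⟩⟩
        · intro j k hjk
          exact (hd j k hjk).mono Set.sdiff_subset Set.sdiff_subset
        · intro j k hjk
          obtain ⟨u, hu, v, hv, huv⟩ := he j k hjk
          refine ⟨f u, hfB j u hu, f v, hfB k v hv, ?_⟩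
          rw [hadj]
          refine ⟨?_, u, v, huv, rfl, rfl⟩
          intro hfe
          have := hd j k hjk.ne
          rw [Set.disjoint_left] at this
          exact this (hfB j u hu).1 (hfe ▸ (hfB k v hv).1)
        · have hss : (⋃ j, (B j \ {y})) ⊂ ⋃ j, B j := by
            rw [Set.ssubset_iff_of_subset (Set.iUnion_mono fun j => Set.sdiff_subset)]
            refine ⟨y, Set.mem_iUnion.2 ⟨i, hy⟩, ?_⟩
            rw [Set.mem_iUnion]
            rintro ⟨j, -, hj⟩
            exact hj rfl
          have := Set.ncard_lt_ncard hss (Set.toFinite _)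
          omega
  obtain ⟨B, hc, hd, he⟩ := hm
  exact aux _ G B hc hd he le_rfl hG

end Pool.Agent.MP9d6bd1
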