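import Mathlib
import Pool.Agent.Lib.MP_9d6bd1_lc.GDefs

/-!
# MP_9d6bd1_lc, graph theory part: module GKur

`K₅` and `K₃,₃` have no abstract dual (counting).
-/

set_option autoImplicit false

open Classical

namespace Pool.Agent.MP9d6bd1

namespace GKurAux

/-- evenness for finsets -/
def Ev {V : Type} [DecidableEq V] (Z : Finset (Sym2 V)) : Prop :=
  ∀ v : V, (Z.filter (fun e => v ∈ e)).card % 2 = 0

theorem ev_iff {V : Type} [DecidableEq V] (Z : Finset (Sym2 V)) :
    EvenSet (Z : Set (Sym2 V)) ↔ Ev Z := by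
  unfold EvenSet Ev
  refine forall_congr' fun v => ?_
  rw [← Nat.even_iff]
  have h : {e | e ∈ (Z : Set (Sym2 V)) ∧ v ∈ e} =
      ((Z.filter (fun e => v ∈ e) : Finset (Sym2 V)) : Set (Sym2 V)) := by
    ext e
    simp
  rw [h, Set.ncard_coe_finset]

/-- in an even set every edge at `v` has a companion at `v` -/
theorem other {V : Type} [DecidableEq V] {Z : Finset (Sym2 V)} (hZ : Ev Z) {v : V} {e : Sym2 V}
    (he : e ∈ Z) (hv : v ∈ e) : ∃ e' ∈ Z, e' ≠ e ∧ v ∈ e' := by
  by_contra hcon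
  have h1 : Z.filter (fun e => v ∈ e) = {e} := by
    ext e'
    rw [Finset.mem_filter, Finset.mem_singleton]
    constructor
    · rintro ⟨h1, h2⟩
      by_contra h3
      exact hcon ⟨e', h1, h3, h2⟩
    · rintro rfl
      exact ⟨he, hv⟩
  have h2 := hZ v
  rw [h1, Finset.card_singleton] at h2
  omega

theorem min3 {V : Type} [DecidableEq V] (G : SimpleGraph V) {Z : Finset (Sym2 V)} (hZ : Ev Z)
    (hG : ∀ e ∈ Z, e ∈ G.edgeSet) (hne : Z ≠ ∅) : 3 ≤ Z.card := by
  obtain ⟨e, he⟩ := Finset.nonempty_iff_ne_empty.2 hne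
  induction e using Sym2.ind with
  | _ a b =>
    have hab : G.Adj a b := hG _ he
    obtain ⟨e2, h2, h2n, h2a⟩ := other hZ he (Sym2.mem_mk_left a b)
    obtain ⟨e3, h3, h3n, h3b⟩ := other hZ he (Sym2.mem_mk_right a b)
    have h23 : e2 ≠ e3 := by
      rintro rfl
      exact h2n ((Sym2.mem_and_mem_iff hab.ne).1 ⟨h2a, h3b⟩)
    have hsub : ({s(a, b), e2, e3} : Finset (Sym2 V)) ⊆ Z := by
      intro x hx
      simp only [Finset.mem_insert, Finset.mem_singleton] at hx
      rcases hx with rfl | rfl | rfl <;> assumption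
    have hc := Finset.card_le_card hsub
    rwa [Finset.card_eq_three.2 ⟨_, _, _, h2n.symm, h3n.symm, h23, rfl⟩] at hc

theorem min4 {V : Type} [DecidableEq V] (G : SimpleGraph V) {Z : Finset (Sym2 V)} (hZ : Ev Z)
    (hG : ∀ e ∈ Z, e ∈ G.edgeSet) (htri : ∀ a b c, G.Adj a b → G.Adj b c → G.Adj c a → False)
    (hne : Z ≠ ∅) : 4 ≤ Z.card := by
  obtain ⟨e, he⟩ := Finset.nonempty_iff_ne_empty.2 hne
  induction e using Sym2.ind with
  | _ a b =>
    have hab : G.Adj a b := hG _ he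
    obtain ⟨e2, h2, h2n, h2a⟩ := other hZ he (Sym2.mem_mk_left a b)
    obtain ⟨e3, h3, h3n, h3b⟩ := other hZ he (Sym2.mem_mk_right a b)
    obtain ⟨b', rfl⟩ := Sym2.mem_iff_exists.1 h2a
    obtain ⟨a', rfl⟩ := Sym2.mem_iff_exists.1 h3b
    have hab' : G.Adj a b' := hG _ h2
    have hba' : G.Adj b a' := hG _ h3
    have hb : b' ≠ b := by
      rintro rfl
      exact h2n rfl
    obtain ⟨e4, h4, h4n, h4b⟩ := other hZ h2 (Sym2.mem_mk_right a b')
    have h23 : s(a, b') ≠ s(b, a') := by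
      intro h
      have h5 : a ∈ s(b, a') := h ▸ Sym2.mem_mk_left a b'
      rcases Sym2.mem_iff.1 h5 with h6 | h6
      · exact hab.ne h6
      · subst h6
        exact h3n Sym2.eq_swap
    have h14 : e4 ≠ s(a, b) := by
      rintro rfl
      rcases Sym2.mem_iff.1 h4b with h6 | h6
      · exact hab'.ne h6.symm
      · exact hb h6
    have h34 : e4 ≠ s(b, a') := by
      rintro rfl
      rcases Sym2.mem_iff.1 h4b with h6 | h6
      · exact hb h6
      · subst h6
        exact htri a b b' hab hba' hab'.symm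
    have hsub : ({s(a, b), s(a, b'), s(b, a'), e4} : Finset (Sym2 V)) ⊆ Z := by
      intro x hx
      simp only [Finset.mem_insert, Finset.mem_singleton] at hx
      rcases hx with rfl | rfl | rfl | rfl <;> assumption
    have hc := Finset.card_le_card hsub
    rw [Finset.card_insert_of_notMem, Finset.card_eq_three.2 ⟨_, _, _, h23, h4n.symm, h34.symm,
      rfl⟩] at hc
    · exact hc
    · simp only [Finset.mem_insert, Finset.mem_singleton, not_or]
      exact ⟨h2n.symm, h3n.symm, h14.symm⟩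

theorem core {V : Type} [DecidableEq V] (G : SimpleGraph V)
    (E : Finset (Sym2 V)) (hE : G.edgeSet = (E : Set (Sym2 V))) (g k : ℕ)
    (hmin : ∀ Z ⊆ E, Z ≠ ∅ → Ev Z → g ≤ Z.card)
    (M : ℕ) (Φ : ℕ → Finset (Sym2 V)) (code : Finset (Sym2 V) → ℕ)
    (hΦ : ∀ n < M, Φ n ⊆ E ∧ Ev (Φ n)) (hcode : ∀ n < M, code (Φ n) = n)
    (hA : 2 ^ k < M) (h : 2 * E.card < g * (k + 2)) :
    ¬ HasDual G := by
  rintro ⟨ι, l, r, hfin, hne, hD⟩
  have : Fintype ι := Fintype.ofFinite ι
  obtain ⟨j0⟩ := hne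
  -- lower bound for the number of faces
  have hex : ∀ n ∈ Finset.range M, ∃ J : Finset ι, j0 ∉ J ∧
      cut G l r (J : Set ι) = (Φ n : Set (Sym2 V)) := by
    intro n hn
    have hn' := hΦ n (Finset.mem_range.1 hn)
    obtain ⟨J, hJ⟩ := hD.exist (Φ n : Set (Sym2 V)) (by rw [hE]; exact_mod_cast hn'.1)
      ((ev_iff _).2 hn'.2)
    by_cases hj : j0 ∈ J
    · refine ⟨Jᶜ.toFinset, by simpa using hj, ?_⟩
      rw [← hJ]
      ext e
      simp only [cut, Set.mem_ofPred_eq, Set.coe_toFinset, Set.mem_compl_iff]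
      tauto
    · refine ⟨J.toFinset, by simpa using hj, ?_⟩
      rw [← hJ, Set.coe_toFinset]
  choose! J hJ1 hJ2 using hex
  have hcard : M ≤ 2 ^ (Fintype.card ι - 1) := by
    have h1 : ((Finset.univ.erase j0).powerset).card = 2 ^ (Fintype.card ι - 1) := by
      rw [Finset.card_powerset, Finset.card_erase_of_mem (Finset.mem_univ _), Finset.card_univ]
    rw [← h1, ← Finset.card_range M]
    refine Finset.card_le_card_of_injOn J (fun n hn => ?_) (fun n hn n' hn' he => ?_)
    · rw [Finset.mem_coe, Finset.mem_powerset]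
      intro i hi
      rw [Finset.mem_erase]
      exact ⟨fun hc => hJ1 n hn (hc ▸ hi), Finset.mem_univ _⟩
    · have h2 := hJ2 n hn
      rw [he, hJ2 n' hn'] at h2
      have h3 : Φ n' = Φ n := by exact_mod_cast h2
      rw [← hcode n (Finset.mem_range.1 hn), ← hcode n' (Finset.mem_range.1 hn'), h3]
  have hk : k < Fintype.card ι - 1 := by
    by_contra hcon
    exact absurd (hA.trans_le hcard) (not_lt.2 (Nat.pow_le_pow_right (by norm_num)
      (not_lt.1 hcon)))
  -- every face has at least g edges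
  have hcutE : ∀ j : ι, ((E.filter (fun e => e ∈ cut G l r {j}) : Finset (Sym2 V)) :
      Set (Sym2 V)) = cut G l r {j} := by
    intro j
    ext e
    rw [Finset.mem_coe, Finset.mem_filter]
    refine ⟨fun h => h.2, fun he => ⟨?_, he⟩⟩
    have h3 : e ∈ G.edgeSet := he.1
    rw [hE] at h3
    exact_mod_cast h3
  have hface : ∀ j : ι, g ≤ (E.filter (fun e => e ∈ cut G l r {j})).card := by
    intro j
    refine hmin _ (Finset.filter_subset _ _) ?_ ?_
    · intro h0
      have h1 : cut G l r {j} = ∅ := by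
        rw [← hcutE j, h0, Finset.coe_empty]
      rcases hD.conn _ h1 with h2 | h2
      · exact absurd h2 (Set.singleton_ne_empty j)
      · have h3 : Fintype.card ι ≤ 1 := by
          rw [Fintype.card_le_one_iff]
          intro a b
          have ha : a ∈ ({j} : Set ι) := h2 ▸ Set.mem_univ a
          have hb : b ∈ ({j} : Set ι) := h2 ▸ Set.mem_univ b
          rw [Set.mem_singleton_iff] at ha hb
          rw [ha, hb]
        omega
    · rw [← ev_iff, hcutE j]
      exact hD.even _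
  -- double counting
  have hsum : ∑ j : ι, (E.filter (fun e => e ∈ cut G l r {j})).card ≤ 2 * E.card := by
    have h1 : ∑ j : ι, (E.filter (fun e => e ∈ cut G l r {j})).card =
        ∑ e ∈ E, (Finset.univ.filter (fun j : ι => e ∈ cut G l r {j})).card := by
      simp only [Finset.card_filter]
      exact Finset.sum_comm
    rw [h1]
    have h2 : ∀ e ∈ E, (Finset.univ.filter (fun j : ι => e ∈ cut G l r {j})).card ≤ 2 := by
      intro e _
      have h3 : Finset.univ.filter (fun j : ι => e ∈ cut G l r {j}) ⊆ {l e, r e} := by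
        intro j hj
        rw [Finset.mem_filter] at hj
        have h4 := hj.2.2
        rw [Finset.mem_insert, Finset.mem_singleton]
        by_contra h5
        rw [not_or] at h5
        apply h4
        simp only [Set.mem_singleton_iff]
        exact ⟨fun h => absurd h.symm h5.1, fun h => absurd h.symm h5.2⟩
      exact (Finset.card_le_card h3).trans Finset.card_le_two
    calc ∑ e ∈ E, (Finset.univ.filter (fun j : ι => e ∈ cut G l r {j})).card
        ≤ ∑ e ∈ E, 2 := Finset.sum_le_sum h2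
      _ = 2 * E.card := by rw [Finset.sum_const, smul_eq_mul, mul_comm]
  have hlow : g * Fintype.card ι ≤ ∑ j : ι, (E.filter (fun e => e ∈ cut G l r {j})).card := by
    have h1 : ∑ _j : ι, g ≤ ∑ j : ι, (E.filter (fun e => e ∈ cut G l r {j})).card :=
      Finset.sum_le_sum fun j _ => hface j
    rw [Finset.sum_const, smul_eq_mul, Finset.card_univ, mul_comm] at h1
    exact h1
  have h5 : g * (k + 2) ≤ g * Fintype.card ι := Nat.mul_le_mul_left g (by omega)
  omega

/-- the edges of `K₅` -/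
def E5 : Finset (Sym2 (Fin 5)) :=
  {s(0, 1), s(0, 2), s(0, 3), s(0, 4), s(1, 2), s(1, 3), s(1, 4), s(2, 3), s(2, 4), s(3, 4)}

theorem hE5 : (⊤ : SimpleGraph (Fin 5)).edgeSet = (E5 : Set (Sym2 (Fin 5))) := by
  have h : ∀ a b : Fin 5, a ≠ b ↔ s(a, b) ∈ E5 := by decide +kernel
  ext e
  induction e using Sym2.ind with
  | _ a b =>
    rw [Finset.mem_coe, ← h]
    simp

theorem E5_card : E5.card = 10 := by decide +kernel

/-- insert if odd -/
def opt {V : Type} (b : ℕ) (e : V) : List V := if b % 2 = 1 then [e] else []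

/-- the even set with given intersection with the edges of the first four vertices -/
def L5 (n : ℕ) : List (Sym2 (Fin 5)) :=
  opt n s(0, 1) ++ opt (n / 2) s(0, 2) ++ opt (n / 4) s(0, 3) ++ opt (n / 8) s(1, 2) ++
    opt (n / 16) s(1, 3) ++ opt (n / 32) s(2, 3) ++
    opt (n + n / 2 + n / 4) s(0, 4) ++ opt (n + n / 8 + n / 16) s(1, 4) ++
    opt (n / 2 + n / 8 + n / 32) s(2, 4) ++ opt (n / 4 + n / 16 + n / 32) s(3, 4)

/-- characteristic number -/
def chr {V : Type} [DecidableEq V] (Z : Finset V) (e : V) : ℕ := if e ∈ Z then 1 else 0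

def code5 (Z : Finset (Sym2 (Fin 5))) : ℕ :=
  chr Z s(0, 1) + 2 * chr Z s(0, 2) + 4 * chr Z s(0, 3) + 8 * chr Z s(1, 2) +
    16 * chr Z s(1, 3) + 32 * chr Z s(2, 3)

theorem L5_ev : ∀ n < 64, (L5 n).toFinset ⊆ E5 ∧
    ∀ v : Fin 5, ((L5 n).toFinset.filter (fun e => v ∈ e)).card % 2 = 0 := by decide +kernel

theorem L5_code : ∀ n < 64, code5 (L5 n).toFinset = n := by decide +kernel

/-- the edges of `K₃,₃` -/
def E33 : Finset (Sym2 (Fin 3 ⊕ Fin 3)) :=
  {s(Sum.inl 0, Sum.inr 0), s(Sum.inl 0, Sum.inr 1), s(Sum.inl 0, Sum.inr 2),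
    s(Sum.inl 1, Sum.inr 0), s(Sum.inl 1, Sum.inr 1), s(Sum.inl 1, Sum.inr 2),
    s(Sum.inl 2, Sum.inr 0), s(Sum.inl 2, Sum.inr 1), s(Sum.inl 2, Sum.inr 2)}

theorem hE33 : (completeBipartiteGraph (Fin 3) (Fin 3)).edgeSet =
    (E33 : Set (Sym2 (Fin 3 ⊕ Fin 3))) := by
  have h : ∀ a b : Fin 3 ⊕ Fin 3, (a.isLeft ∧ b.isRight ∨ a.isRight ∧ b.isLeft) ↔
      s(a, b) ∈ E33 := by decide +kernel
  ext e
  induction e using Sym2.ind with
  | _ a b =>
    rw [Finset.mem_coe, ← h]
    simp [completeBipartiteGraph]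

theorem E33_card : E33.card = 9 := by decide +kernel

/-- the even sets of `K₃,₃`: four free edges -/
def L33 (n : ℕ) : List (Sym2 (Fin 3 ⊕ Fin 3)) :=
  opt n s(Sum.inl 0, Sum.inr 0) ++ opt (n / 2) s(Sum.inl 0, Sum.inr 1) ++
    opt (n / 4) s(Sum.inl 1, Sum.inr 0) ++ opt (n / 8) s(Sum.inl 1, Sum.inr 1) ++
    opt (n + n / 2) s(Sum.inl 0, Sum.inr 2) ++ opt (n / 4 + n / 8) s(Sum.inl 1, Sum.inr 2) ++
    opt (n + n / 4) s(Sum.inl 2, Sum.inr 0) ++ opt (n / 2 + n / 8) s(Sum.inl 2, Sum.inr 1) ++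
    opt (n + n / 2 + n / 4 + n / 8) s(Sum.inl 2, Sum.inr 2)

def code33 (Z : Finset (Sym2 (Fin 3 ⊕ Fin 3))) : ℕ :=
  chr Z s(Sum.inl 0, Sum.inr 0) + 2 * chr Z s(Sum.inl 0, Sum.inr 1) +
    4 * chr Z s(Sum.inl 1, Sum.inr 0) + 8 * chr Z s(Sum.inl 1, Sum.inr 1)

theorem L33_ev : ∀ n < 16, (L33 n).toFinset ⊆ E33 ∧
    ∀ v : Fin 3 ⊕ Fin 3, ((L33 n).toFinset.filter (fun e => v ∈ e)).card % 2 = 0 := by
  decide +kernel

theorem L33_code : ∀ n < 16, code33 (L33 n).toFinset = n := by decide +kernel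

theorem tri33 (a b c : Fin 3 ⊕ Fin 3) (h1 : (completeBipartiteGraph (Fin 3) (Fin 3)).Adj a b)
    (h2 : (completeBipartiteGraph (Fin 3) (Fin 3)).Adj b c)
    (h3 : (completeBipartiteGraph (Fin 3) (Fin 3)).Adj c a) : False := by
  rcases a with a | a <;> rcases b with b | b <;> rcases c with c | c <;>
    simp [completeBipartiteGraph] at h1 h2 h3

end GKurAux

theorem not_dual_K5 : ¬ HasDual (⊤ : SimpleGraph (Fin 5)) :=
  GKurAux.core _ GKurAux.E5 GKurAux.hE5 3 5
    (fun Z hZ hne hev => GKurAux.min3 ⊤ hev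
      (fun e he => by rw [GKurAux.hE5]; exact_mod_cast hZ he) hne)
    64 (fun n => (GKurAux.L5 n).toFinset) GKurAux.code5 GKurAux.L5_ev GKurAux.L5_code
    (by norm_num) (by rw [GKurAux.E5_card]; norm_num)

theorem not_dual_K33 : ¬ HasDual (completeBipartiteGraph (Fin 3) (Fin 3)) :=
  GKurAux.core _ GKurAux.E33 GKurAux.hE33 4 3
    (fun Z hZ hne hev => GKurAux.min4 (completeBipartiteGraph (Fin 3) (Fin 3)) hev
      (fun e he => by rw [GKurAux.hE33]; exact_mod_cast hZ he) GKurAux.tri33 hne)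
    16 (fun n => (GKurAux.L33 n).toFinset) GKurAux.code33 GKurAux.L33_ev GKurAux.L33_code
    (by norm_num) (by rw [GKurAux.E33_card]; norm_num)

end Pool.Agent.MP9d6bd1
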