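import Mathlib
import Pool.Agent.Lib.MP_9d6bd1_lc.GDefs

/-!
# MP_9d6bd1_lc module G10: the neighbours of `x` and `y` on a cycle are separated by two arcs
-/

set_option autoImplicit false

open Classical

namespace Pool.Agent.MP9d6bd1

namespace GArcsAux

variable {V : Type}

theorem single_conn (A : SimpleGraph V) (v : V) : (A.induce ({v} : Set V)).Connected := by
  haveI : Nonempty ({v} : Set V) := ⟨⟨v, rfl⟩⟩
  refine ⟨fun a b => ?_⟩
  have h : a = b := Subsingleton.elim a b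
  rw [h]

theorem seg_conn {A : SimpleGraph V} {m : ℕ} {c : ℕ → V} (hc : IsCyc A m c) (a : ℕ) :
    ∀ b, a < b → b ≤ m → (A.induce (c '' Set.Ico a b)).Connected := by
  intro b
  induction b with
  | zero => intro h; omega
  | succ b ih =>
    intro hab hbm
    by_cases h : a = b
    · subst h
      have h1 : c '' Set.Ico a (a + 1) = {c a} := by
        ext v
        simp only [Set.mem_image, Set.mem_Ico, Set.mem_singleton_iff]
        constructor
        · rintro ⟨i, ⟨h1, h2⟩, rfl⟩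
          have : i = a := by omega
          rw [this]
        · rintro rfl
          exact ⟨a, ⟨le_refl a, by omega⟩, rfl⟩
      rw [h1]
      exact single_conn A _
    · have h1 := ih (by omega) (by omega)
      have h2 : c '' Set.Ico a (b + 1) = (c '' Set.Ico a b) ∪ {c b} := by
        ext v
        simp only [Set.mem_image, Set.mem_Ico, Set.mem_union, Set.mem_singleton_iff]
        constructor
        · rintro ⟨i, ⟨h1, h2⟩, rfl⟩
          by_cases hi : i = b
          · right; rw [hi]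
          · left; exact ⟨i, ⟨h1, by omega⟩, rfl⟩
        · rintro (⟨i, ⟨h1, h2⟩, rfl⟩ | rfl)
          · exact ⟨i, ⟨h1, by omega⟩, rfl⟩
          · exact ⟨b, ⟨by omega, by omega⟩, rfl⟩
      rw [h2]
      refine SimpleGraph.connected_induce_union (v := c (b - 1)) (w := c b) h1.preconnected
        (single_conn A _).preconnected ⟨b - 1, ⟨by omega, by omega⟩, rfl⟩ rfl ?_
      have h3 := hc.adj (b - 1) (by omega)
      rwa [Nat.sub_add_cancel (by omega)] at h3

theorem seg_disj {A : SimpleGraph V} {m : ℕ} {c : ℕ → V} (hc : IsCyc A m c) (a b a' b' : ℕ)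
    (h1 : b ≤ a') (h2 : b' ≤ m) : Disjoint (c '' Set.Ico a b) (c '' Set.Ico a' b') := by
  rw [Set.disjoint_left]
  rintro v ⟨i, ⟨hi1, hi2⟩, rfl⟩ ⟨j, ⟨hj1, hj2⟩, hj⟩
  have := hc.inj j i (by omega) (by omega) hj
  omega

theorem pt_disj {c : ℕ → V} {x : V} (hx : ∀ i, c i ≠ x) (a b : ℕ) :
    Disjoint ({x} : Set V) (c '' Set.Ico a b) := by
  rw [Set.disjoint_left]
  rintro v rfl ⟨i, _, hi⟩
  exact hx i hi

/-- obstruction with three common neighbours: a minor `K₅`. -/
theorem obs1 {A : SimpleGraph V} {m : ℕ} {c : ℕ → V} {x y : V} (hA : Planar A)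
    (hc : IsCyc A m c) (hxy : A.Adj x y) (hx : ∀ i, c i ≠ x) (hy : ∀ i, c i ≠ y)
    {i j k : ℕ} (hij : i < j) (hjk : j < k) (hkm : k < m)
    (xi : A.Adj x (c i)) (xj : A.Adj x (c j)) (xk : A.Adj x (c k))
    (yi : A.Adj y (c i)) (yj : A.Adj y (c j)) (yk : A.Adj y (c k)) : False := by
  apply hA.1
  have mi : c i ∈ c '' Set.Ico 0 j := ⟨i, ⟨by omega, by omega⟩, rfl⟩
  have mj : c j ∈ c '' Set.Ico j k := ⟨j, ⟨by omega, by omega⟩, rfl⟩
  have mk : c k ∈ c '' Set.Ico k m := ⟨k, ⟨by omega, by omega⟩, rfl⟩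
  have e1 : ∃ u ∈ c '' Set.Ico 0 j, ∃ v ∈ c '' Set.Ico j k, A.Adj u v := by
    refine ⟨c (j - 1), ⟨j - 1, ⟨by omega, by omega⟩, rfl⟩, c j, mj, ?_⟩
    have h3 := hc.adj (j - 1) (by omega)
    rwa [Nat.sub_add_cancel (by omega)] at h3
  have e2 : ∃ u ∈ c '' Set.Ico j k, ∃ v ∈ c '' Set.Ico k m, A.Adj u v := by
    refine ⟨c (k - 1), ⟨k - 1, ⟨by omega, by omega⟩, rfl⟩, c k, mk, ?_⟩
    have h3 := hc.adj (k - 1) (by omega)
    rwa [Nat.sub_add_cancel (by omega)] at h3
  have e3 : ∃ u ∈ c '' Set.Ico k m, ∃ v ∈ c '' Set.Ico 0 j, A.Adj u v := by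
    refine ⟨c (m - 1), ⟨m - 1, ⟨by omega, by omega⟩, rfl⟩, c 0, ⟨0, ⟨by omega, by omega⟩, rfl⟩, ?_⟩
    have h3 := hc.adj (m - 1) (by omega)
    rwa [Nat.sub_add_cancel (by omega), hc.close] at h3
  have ex : ∀ S : Set V, ∀ v ∈ S, A.Adj x v → ∃ u ∈ ({x} : Set V), ∃ v ∈ S, A.Adj u v :=
    fun S v hv h => ⟨x, rfl, v, hv, h⟩
  have ey : ∀ S : Set V, ∀ v ∈ S, A.Adj y v → ∃ u ∈ ({y} : Set V), ∃ v ∈ S, A.Adj u v :=
    fun S v hv h => ⟨y, rfl, v, hv, h⟩
  have symm : ∀ S T : Set V, (∃ u ∈ S, ∃ v ∈ T, A.Adj u v) → ∃ u ∈ T, ∃ v ∈ S, A.Adj u v :=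
    fun S T ⟨u, hu, v, hv, h⟩ => ⟨v, hv, u, hu, h.symm⟩
  have dxy : Disjoint ({x} : Set V) {y} := by
    rw [Set.disjoint_singleton]; exact hxy.ne
  have d1 := seg_disj hc 0 j j k le_rfl (by omega)
  have d2 := seg_disj hc 0 j k m (by omega) (by omega)
  have d3 := seg_disj hc j k k m (by omega) (by omega)
  refine ⟨![{x}, {y}, c '' Set.Ico 0 j, c '' Set.Ico j k, c '' Set.Ico k m], ?_, ?_, ?_⟩
  · intro t
    fin_cases t
    · exact single_conn A x
    · exact single_conn A y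
    · exact seg_conn hc 0 j (by omega) (by omega)
    · exact seg_conn hc j k (by omega) (by omega)
    · exact seg_conn hc k m (by omega) (by omega)
  · intro s t hst
    fin_cases s <;> fin_cases t <;>
      first
      | exact absurd rfl hst
      | exact dxy
      | exact dxy.symm
      | exact pt_disj hx _ _
      | exact (pt_disj hx _ _).symm
      | exact pt_disj hy _ _
      | exact (pt_disj hy _ _).symm
      | exact d1
      | exact d1.symm
      | exact d2
      | exact d2.symm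
      | exact d3
      | exact d3.symm
  · intro s t hst
    fin_cases s <;> fin_cases t <;>
      first
      | exact absurd rfl hst
      | exact ex _ _ rfl hxy
      | exact symm _ _ (ex _ _ rfl hxy)
      | exact ex _ _ mi xi
      | exact ex _ _ mj xj
      | exact ex _ _ mk xk
      | exact ey _ _ mi yi
      | exact ey _ _ mj yj
      | exact ey _ _ mk yk
      | exact symm _ _ (ex _ _ mi xi)
      | exact symm _ _ (ex _ _ mj xj)
      | exact symm _ _ (ex _ _ mk xk)
      | exact symm _ _ (ey _ _ mi yi)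
      | exact symm _ _ (ey _ _ mj yj)
      | exact symm _ _ (ey _ _ mk yk)
      | exact e1
      | exact e2
      | exact e3
      | exact symm _ _ e1
      | exact symm _ _ e2
      | exact symm _ _ e3

/-- crossing obstruction: a minor `K₃,₃`. -/
theorem obs2 {A : SimpleGraph V} {m : ℕ} {c : ℕ → V} {x y : V} (hA : Planar A)
    (hc : IsCyc A m c) (hxy : A.Adj x y) (hx : ∀ i, c i ≠ x) (hy : ∀ i, c i ≠ y)
    {i j k l : ℕ} (hij : i < j) (hjk : j < k) (hkl : k < l) (hlm : l < m)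
    (xi : A.Adj x (c i)) (yj : A.Adj y (c j)) (xk : A.Adj x (c k)) (yl : A.Adj y (c l)) :
    False := by
  apply hA.2
  have mi : c i ∈ c '' Set.Ico 0 j := ⟨i, ⟨by omega, by omega⟩, rfl⟩
  have mj : c j ∈ c '' Set.Ico j k := ⟨j, ⟨by omega, by omega⟩, rfl⟩
  have mk : c k ∈ c '' Set.Ico k l := ⟨k, ⟨by omega, by omega⟩, rfl⟩
  have ml : c l ∈ c '' Set.Ico l m := ⟨l, ⟨by omega, by omega⟩, rfl⟩
  have e1 : ∃ u ∈ c '' Set.Ico 0 j, ∃ v ∈ c '' Set.Ico j k, A.Adj u v := by
    refine ⟨c (j - 1), ⟨j - 1, ⟨by omega, by omega⟩, rfl⟩, c j, mj, ?_⟩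
    have h3 := hc.adj (j - 1) (by omega)
    rwa [Nat.sub_add_cancel (by omega)] at h3
  have e2 : ∃ u ∈ c '' Set.Ico j k, ∃ v ∈ c '' Set.Ico k l, A.Adj u v := by
    refine ⟨c (k - 1), ⟨k - 1, ⟨by omega, by omega⟩, rfl⟩, c k, mk, ?_⟩
    have h3 := hc.adj (k - 1) (by omega)
    rwa [Nat.sub_add_cancel (by omega)] at h3
  have e3 : ∃ u ∈ c '' Set.Ico k l, ∃ v ∈ c '' Set.Ico l m, A.Adj u v := by
    refine ⟨c (l - 1), ⟨l - 1, ⟨by omega, by omega⟩, rfl⟩, c l, ml, ?_⟩
    have h3 := hc.adj (l - 1) (by omega)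
    rwa [Nat.sub_add_cancel (by omega)] at h3
  have e4 : ∃ u ∈ c '' Set.Ico l m, ∃ v ∈ c '' Set.Ico 0 j, A.Adj u v := by
    refine ⟨c (m - 1), ⟨m - 1, ⟨by omega, by omega⟩, rfl⟩, c 0, ⟨0, ⟨by omega, by omega⟩, rfl⟩, ?_⟩
    have h3 := hc.adj (m - 1) (by omega)
    rwa [Nat.sub_add_cancel (by omega), hc.close] at h3
  have ex : ∀ S : Set V, ∀ v ∈ S, A.Adj x v → ∃ u ∈ ({x} : Set V), ∃ v ∈ S, A.Adj u v :=
    fun S v hv h => ⟨x, rfl, v, hv, h⟩
  have ey : ∀ S : Set V, ∀ v ∈ S, A.Adj y v → ∃ u ∈ ({y} : Set V), ∃ v ∈ S, A.Adj u v :=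
    fun S v hv h => ⟨y, rfl, v, hv, h⟩
  have symm : ∀ S T : Set V, (∃ u ∈ S, ∃ v ∈ T, A.Adj u v) → ∃ u ∈ T, ∃ v ∈ S, A.Adj u v :=
    fun S T ⟨u, hu, v, hv, h⟩ => ⟨v, hv, u, hu, h.symm⟩
  have dxy : Disjoint ({x} : Set V) {y} := by
    rw [Set.disjoint_singleton]; exact hxy.ne
  have d1 := seg_disj hc 0 j j k le_rfl (by omega)
  have d2 := seg_disj hc 0 j k l (by omega) (by omega)
  have d3 := seg_disj hc 0 j l m (by omega) (by omega)
  have d4 := seg_disj hc j k k l (by omega) (by omega)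
  have d5 := seg_disj hc j k l m (by omega) (by omega)
  have d6 := seg_disj hc k l l m (by omega) (by omega)
  refine ⟨Sum.elim ![{x}, c '' Set.Ico j k, c '' Set.Ico l m]
    ![{y}, c '' Set.Ico 0 j, c '' Set.Ico k l], ?_, ?_, ?_⟩
  · rintro (t | t) <;> fin_cases t
    · exact single_conn A x
    · exact seg_conn hc j k (by omega) (by omega)
    · exact seg_conn hc l m (by omega) (by omega)
    · exact single_conn A y
    · exact seg_conn hc 0 j (by omega) (by omega)
    · exact seg_conn hc k l (by omega) (by omega)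
  · rintro (s | s) (t | t) hst <;> fin_cases s <;> fin_cases t <;>
      first
      | exact absurd rfl hst
      | exact dxy
      | exact dxy.symm
      | exact pt_disj hx _ _
      | exact (pt_disj hx _ _).symm
      | exact pt_disj hy _ _
      | exact (pt_disj hy _ _).symm
      | exact d1
      | exact d1.symm
      | exact d2
      | exact d2.symm
      | exact d3
      | exact d3.symm
      | exact d4
      | exact d4.symm
      | exact d5
      | exact d5.symm
      | exact d6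
      | exact d6.symm
  · have key : ∀ s t : Fin 3, ∃ u ∈ (![{x}, c '' Set.Ico j k, c '' Set.Ico l m] : Fin 3 → Set V) s,
        ∃ v ∈ (![{y}, c '' Set.Ico 0 j, c '' Set.Ico k l] : Fin 3 → Set V) t, A.Adj u v := by
      intro s t
      fin_cases s <;> fin_cases t
      · exact ex _ _ rfl hxy
      · exact ex _ _ mi xi
      · exact ex _ _ mk xk
      · exact symm _ _ (ey _ _ mj yj)
      · exact symm _ _ e1
      · exact e2
      · exact symm _ _ (ey _ _ ml yl)
      · exact e4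
      · exact symm _ _ e3
    rintro (s | s) (t | t) hst
    · simp [completeBipartiteGraph] at hst
    · exact key s t
    · exact symm _ _ (key t s)
    · simp [completeBipartiteGraph] at hst

/-- rotation of a cycle -/
def rot (c : ℕ → V) (m s : ℕ) : ℕ → V := fun i => c ((i + s) % m)

theorem rot_cyc {A : SimpleGraph V} {m : ℕ} {c : ℕ → V} (hc : IsCyc A m c) (s : ℕ) :
    IsCyc A m (rot c m s) := by
  have hm : 0 < m := by have := hc.len; omega
  refine ⟨hc.len, ?_, ?_, ?_⟩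
  · show c ((m + s) % m) = c ((0 + s) % m)
    rw [Nat.add_mod_left, Nat.zero_add]
  · intro i j hi hj h
    have h1 := hc.inj _ _ (Nat.mod_lt _ hm) (Nat.mod_lt _ hm) h
    have h2 : i ≡ j [MOD m] := Nat.ModEq.add_right_cancel' s h1
    have h3 : i % m = j % m := h2
    rwa [Nat.mod_eq_of_lt hi, Nat.mod_eq_of_lt hj] at h3
  · intro i _
    show A.Adj (c ((i + s) % m)) (c ((i + 1 + s) % m))
    have h1 : (i + s) % m < m := Nat.mod_lt _ hm
    have h2 := hc.adj _ h1
    have h3 : (i + 1 + s) % m = ((i + s) % m + 1) % m := by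
      rw [Nat.mod_add_mod]
      congr 1
      omega
    rw [h3]
    by_cases h4 : (i + s) % m + 1 < m
    · rwa [Nat.mod_eq_of_lt h4]
    · have h5 : (i + s) % m + 1 = m := by omega
      rw [h5, Nat.mod_self]
      rwa [h5, hc.close] at h2

theorem rot_cover {m : ℕ} {c : ℕ → V} (hm : 0 < m) (s i : ℕ) (hi : i < m) :
    ∃ j < m, rot c m s j = c i := by
  have hs : s % m < m := Nat.mod_lt _ hm
  have hsm : s % m + m * (s / m) = s := Nat.mod_add_div s m
  by_cases h : s % m ≤ i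
  · refine ⟨i - s % m, by omega, ?_⟩
    show c ((i - s % m + s) % m) = c i
    have : i - s % m + s = i + m * (s / m) := by omega
    rw [this, Nat.add_mul_mod_self_left, Nat.mod_eq_of_lt hi]
  · refine ⟨i + m - s % m, by omega, ?_⟩
    show c ((i + m - s % m + s) % m) = c i
    have : i + m - s % m + s = i + m * (s / m + 1) := by
      rw [Nat.mul_add, Nat.mul_one]
      omega
    rw [this, Nat.add_mul_mod_self_left, Nat.mod_eq_of_lt hi]

theorem rot_mod {m : ℕ} {c : ℕ → V} (hm : 0 < m) (s t i : ℕ) :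
    rot (rot c m s) m t i = rot c m (t + s) i := by
  show c (((i + t) % m + s) % m) = c ((i + (t + s)) % m)
  rw [Nat.mod_add_mod, Nat.add_assoc]

/-- the final rotation -/
theorem final {A : SimpleGraph V} {m : ℕ} {c : ℕ → V} {x y : V}
    (hc : IsCyc A m c) (hx : ∀ i, c i ≠ x) (hy : ∀ i, c i ≠ y)
    (a b : ℕ) (hab : a < b) (hbm : b < m) (xa : A.Adj x (c a)) (xb : A.Adj x (c b))
    (hX : ∀ i < m, A.Adj x (c i) → a ≤ i ∧ i ≤ b)
    (hY : ∀ i < m, A.Adj y (c i) → i ≤ a ∨ b ≤ i) :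
    ∃ (c' : ℕ → V) (p : ℕ), IsCyc A m c' ∧ (∀ i, c' i ≠ x) ∧ (∀ i, c' i ≠ y) ∧
      (∀ u, (∃ i < m, c i = u) → ∃ i < m, c' i = u) ∧ 0 < p ∧ p < m ∧
      A.Adj x (c' 0) ∧ A.Adj x (c' p) ∧ (∀ i, i < m → A.Adj x (c' i) → i ≤ p) ∧
      (∀ i, i < m → A.Adj y (c' i) → i = 0 ∨ p ≤ i) := by
  have hm : 0 < m := by omega
  have ev : ∀ i, i + a < m → rot c m a i = c (i + a) := fun i hi => by
    show c ((i + a) % m) = c (i + a)
    rw [Nat.mod_eq_of_lt hi]
  have ev2 : ∀ i, i < m → m ≤ i + a → rot c m a i = c (i + a - m) := fun i hi h => by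
    show c ((i + a) % m) = c (i + a - m)
    rw [Nat.mod_eq_sub_mod h, Nat.mod_eq_of_lt (by omega)]
  refine ⟨rot c m a, b - a, rot_cyc hc a, fun i => hx _, fun i => hy _, ?_, by omega, by omega,
    ?_, ?_, ?_, ?_⟩
  · rintro u ⟨i, hi, rfl⟩
    exact rot_cover hm a i hi
  · rw [ev 0 (by omega), Nat.zero_add]; exact xa
  · rw [ev (b - a) (by omega), Nat.sub_add_cancel hab.le]; exact xb
  · intro i hi h
    by_cases h1 : i + a < m
    · rw [ev i h1] at h
      have := hX _ h1 h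
      omega
    · rw [ev2 i hi (by omega)] at h
      have := hX _ (by omega) h
      omega
  · intro i hi h
    by_cases h1 : i + a < m
    · rw [ev i h1] at h
      have := hY _ h1 h
      omega
    · right; omega

end GArcsAux

open GArcsAux in
theorem arcs {V : Type} [Finite V] (A : SimpleGraph V) (hA : Planar A) (x y : V)
    (hxy : A.Adj x y) (m : ℕ) (c : ℕ → V) (hc : IsCyc A m c) (hx : ∀ i, c i ≠ x)
    (hy : ∀ i, c i ≠ y) (hNx : ∀ u, A.Adj x u → u = y ∨ ∃ i < m, c i = u)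
    (hNy : ∀ u, A.Adj y u → u = x ∨ ∃ i < m, c i = u)
    (hdx : 2 ≤ {u | u ≠ y ∧ A.Adj x u}.ncard) (hdy : 2 ≤ {u | u ≠ x ∧ A.Adj y u}.ncard) :
    ∃ (c' : ℕ → V) (p : ℕ), IsCyc A m c' ∧ (∀ i, c' i ≠ x) ∧ (∀ i, c' i ≠ y) ∧
      (∀ u, (∃ i < m, c i = u) → ∃ i < m, c' i = u) ∧ 0 < p ∧ p < m ∧
      A.Adj x (c' 0) ∧ A.Adj x (c' p) ∧ (∀ i, i < m → A.Adj x (c' i) → i ≤ p) ∧
      (∀ i, i < m → A.Adj y (c' i) → i = 0 ∨ p ≤ i) := by
  have hm : 0 < m := by have := hc.len; omega
  -- transfer from a rotation back to the original cycle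
  have trans : ∀ s : ℕ, (∃ (c' : ℕ → V) (p : ℕ), IsCyc A m c' ∧ (∀ i, c' i ≠ x) ∧
      (∀ i, c' i ≠ y) ∧ (∀ u, (∃ i < m, rot c m s i = u) → ∃ i < m, c' i = u) ∧ 0 < p ∧ p < m ∧
      A.Adj x (c' 0) ∧ A.Adj x (c' p) ∧ (∀ i, i < m → A.Adj x (c' i) → i ≤ p) ∧
      (∀ i, i < m → A.Adj y (c' i) → i = 0 ∨ p ≤ i)) →
      ∃ (c' : ℕ → V) (p : ℕ), IsCyc A m c' ∧ (∀ i, c' i ≠ x) ∧ (∀ i, c' i ≠ y) ∧
      (∀ u, (∃ i < m, c i = u) → ∃ i < m, c' i = u) ∧ 0 < p ∧ p < m ∧
      A.Adj x (c' 0) ∧ A.Adj x (c' p) ∧ (∀ i, i < m → A.Adj x (c' i) → i ≤ p) ∧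
      (∀ i, i < m → A.Adj y (c' i) → i = 0 ∨ p ≤ i) := by
    rintro s ⟨c', p, h1, h2, h3, h4, h5⟩
    refine ⟨c', p, h1, h2, h3, ?_, h5⟩
    rintro u ⟨i, hi, rfl⟩
    obtain ⟨j, hj, hje⟩ := rot_cover (c := c) hm s i hi
    exact h4 _ ⟨j, hj, hje⟩
  -- index form of the degree conditions
  have degX : ∀ s : ℕ, ∃ i j, i < j ∧ j < m ∧ A.Adj x (rot c m s i) ∧ A.Adj x (rot c m s j) := by
    intro s
    obtain ⟨u, hu, v, hv, huv⟩ := (Set.one_lt_ncard (Set.toFinite _)).1
      (lt_of_lt_of_le one_lt_two hdx)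
    obtain ⟨i, hi, hiu⟩ := (hNx u hu.2).resolve_left hu.1
    obtain ⟨j, hj, hjv⟩ := (hNx v hv.2).resolve_left hv.1
    obtain ⟨i', hi', hiu'⟩ := rot_cover (c := c) hm s i hi
    obtain ⟨j', hj', hjv'⟩ := rot_cover (c := c) hm s j hj
    have hu' : A.Adj x (rot c m s i') := by rw [hiu', hiu]; exact hu.2
    have hv' : A.Adj x (rot c m s j') := by rw [hjv', hjv]; exact hv.2
    rcases lt_trichotomy i' j' with h | h | h
    · exact ⟨i', j', h, hj', hu', hv'⟩
    · exfalso
      apply huv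
      rw [← hiu, ← hjv, ← hiu', ← hjv', h]
    · exact ⟨j', i', h, hi', hv', hu'⟩
  have degY : ∃ i j, i < j ∧ j < m ∧ A.Adj y (c i) ∧ A.Adj y (c j) := by
    obtain ⟨u, hu, v, hv, huv⟩ := (Set.one_lt_ncard (Set.toFinite _)).1
      (lt_of_lt_of_le one_lt_two hdy)
    obtain ⟨i, hi, hiu⟩ := (hNy u hu.2).resolve_left hu.1
    obtain ⟨j, hj, hjv⟩ := (hNy v hv.2).resolve_left hv.1
    have hu' : A.Adj y (c i) := by rw [hiu]; exact hu.2
    have hv' : A.Adj y (c j) := by rw [hjv]; exact hv.2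
    rcases lt_trichotomy i j with h | h | h
    · exact ⟨i, j, h, hj, hu', hv'⟩
    · exfalso
      apply huv
      rw [← hiu, ← hjv, h]
    · exact ⟨j, i, h, hi, hv', hu'⟩
  by_cases hex : ∃ j < m, A.Adj y (c j) ∧ ¬ A.Adj x (c j)
  · -- a neighbour of `y` that is not a neighbour of `x`
    obtain ⟨j, hj, yj, nxj⟩ := hex
    apply trans j
    have hc' := rot_cyc hc j
    have h0 : rot c m j 0 = c j := by
      show c ((0 + j) % m) = c j
      rw [Nat.zero_add, Nat.mod_eq_of_lt hj]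
    have y0 : A.Adj y (rot c m j 0) := by rw [h0]; exact yj
    have nx0 : ¬ A.Adj x (rot c m j 0) := by rw [h0]; exact nxj
    have hx' : ∀ i, rot c m j i ≠ x := fun i => hx _
    have hy' : ∀ i, rot c m j i ≠ y := fun i => hy _
    obtain ⟨i1, i2, h12, h2m, xi1, xi2⟩ := degX j
    generalize rot c m j = d at *
    have hexi : ∃ i, i < m ∧ A.Adj x (d i) := ⟨i1, by omega, xi1⟩
    set a := Nat.find hexi with ha
    have ha1 := Nat.find_spec hexi
    have ha2 : ∀ i, i < m → A.Adj x (d i) → a ≤ i := fun i hi h => Nat.find_min' hexi ⟨hi, h⟩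
    -- the largest x-index
    have hexj : ∃ i, i < m ∧ A.Adj x (d (m - 1 - i)) := ⟨m - 1 - i2, by omega, by
      rw [show m - 1 - (m - 1 - i2) = i2 by omega]; exact xi2⟩
    set b' := Nat.find hexj with hb'
    have hb1 := Nat.find_spec hexj
    have hb2 : ∀ i, i < m → A.Adj x (d i) → i ≤ m - 1 - b' := fun i hi h => by
      have := Nat.find_min' hexj (m := m - 1 - i) ⟨by omega, by
        rw [show m - 1 - (m - 1 - i) = i by omega]; exact h⟩
      omega
    have hai1 := ha2 i1 (by omega) xi1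
    have hbi2 := hb2 i2 (by omega) xi2
    have ha0 : 0 < a := by
      rcases Nat.eq_zero_or_pos a with h | h
      · exfalso
        apply nx0
        have := ha1.2
        rw [← ha, h] at this
        exact this
      · exact h
    refine final hc' hx' hy' a (m - 1 - b') (by omega) (by omega) ha1.2 hb1.2
      (fun i hi h => ⟨ha2 i hi h, hb2 i hi h⟩) ?_
    intro i hi h
    by_contra hcon
    push Not at hcon
    exact obs2 (x := y) (y := x) hA hc' hxy.symm hy' hx' ha0 hcon.1 hcon.2 (by omega) y0 ha1.2 h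
      hb1.2
  · push Not at hex
    -- all neighbours of `y` are neighbours of `x`; there are exactly two
    have two : ∀ i j k, i < j → j < k → k < m → A.Adj y (c i) → A.Adj y (c j) → A.Adj y (c k) →
        False := by
      intro i j k hij hjk hkm yi yj yk
      exact obs1 hA hc hxy hx hy hij hjk hkm (hex i (by omega) yi) (hex j (by omega) yj)
        (hex k hkm yk) yi yj yk
    obtain ⟨i, j, hij, hj, yi, yj⟩ := degY
    have onlyY : ∀ k < m, A.Adj y (c k) → k = i ∨ k = j := by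
      intro k hk yk
      by_contra hcon
      push Not at hcon
      rcases lt_trichotomy k i with h | h | h
      · exact two k i j h hij hj yk yi yj
      · exact hcon.1 h
      · rcases lt_trichotomy k j with h' | h' | h'
        · exact two i k j h h' hj yi yk yj
        · exact hcon.2 h'
        · exact two i j k hij h' hk yi yj yk
    have xi := hex i (by omega) yi
    have xj := hex j hj yj
    by_cases hin : ∃ k, i < k ∧ k < j ∧ A.Adj x (c k)
    · -- then no x-neighbours outside [i, j]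
      obtain ⟨k, hik, hkj, xk⟩ := hin
      have hX : ∀ t < m, A.Adj x (c t) → i ≤ t ∧ t ≤ j := by
        intro t ht xt
        by_contra hcon
        rw [not_and_or, not_le, not_le] at hcon
        rcases hcon with h | h
        · exact obs2 hA hc hxy hx hy h hik hkj hj xt yi xk yj
        · exact obs2 (x := y) (y := x) hA hc hxy.symm hy hx hik hkj h ht yi xk yj xt
      refine final hc hx hy i j hij hj xi xj hX ?_
      intro t ht yt
      rcases onlyY t ht yt with h | h <;> omega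
    · -- no x-neighbours strictly between: rotate by j
      push Not at hin
      apply trans j
      have ev : ∀ t, t + j < m → rot c m j t = c (t + j) := fun t ht => by
        show c ((t + j) % m) = c (t + j)
        rw [Nat.mod_eq_of_lt ht]
      have ev2 : ∀ t, t < m → m ≤ t + j → rot c m j t = c (t + j - m) := fun t ht h => by
        show c ((t + j) % m) = c (t + j - m)
        rw [Nat.mod_eq_sub_mod h, Nat.mod_eq_of_lt (by omega)]
      refine final (rot_cyc hc j) (fun _ => hx _) (fun _ => hy _) 0 (m - (j - i)) (by omega)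
        (by omega) ?_ ?_ ?_ ?_
      · rw [ev 0 (by omega), Nat.zero_add]; exact xj
      · rw [ev2 _ (by omega) (by omega), show m - (j - i) + j - m = i by omega]; exact xi
      · intro t ht xt
        refine ⟨Nat.zero_le _, ?_⟩
        by_contra hcon
        rw [ev2 t ht (by omega)] at xt
        exact hin _ (by omega) (by omega) xt
      · intro t ht yt
        by_cases h1 : t + j < m
        · rw [ev t h1] at yt
          rcases onlyY _ h1 yt with h | h <;> omega
        · rw [ev2 t ht (by omega)] at yt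
          rcases onlyY _ (by omega) yt with h | h <;> omega

end Pool.Agent.MP9d6bd1
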