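import Mathlib
import Pool.Agent.Lib.MP_9d6bd1_lc.GDefs
import Pool.Agent.Lib.MP_9d6bd1_lc.GEven
import Pool.Agent.Lib.MP_9d6bd1_lc.GDualMono

/-!
# MP_9d6bd1_lc: the face cycle around a vertex
-/

set_option autoImplicit false

open Classical

namespace Pool.Agent.MP9d6bd1

namespace GFaceAux

/-- a cycle through two edges at `p`, whose other vertices are in `S`. -/
theorem cyc_through {V : Type} [Finite V] (H : SimpleGraph V) (p : V) (S : Set V) (hp : p ∉ S)
    (hS : (H.induce S).Preconnected) {a b : V} (ha : a ∈ S) (hb : b ∈ S) (hab : a ≠ b)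
    (hpa : H.Adj p a) (hpb : H.Adj p b) :
    ∃ Z : Set (Sym2 V), Z ⊆ H.edgeSet ∧ EvenSet Z ∧ s(p, a) ∈ Z ∧ s(p, b) ∈ Z ∧
      (∀ e ∈ Z, p ∈ e → e = s(p, a) ∨ e = s(p, b)) ∧ ∀ e ∈ Z, ∀ w ∈ e, w = p ∨ w ∈ S := by
  obtain ⟨q⟩ := hS ⟨a, ha⟩ ⟨b, hb⟩
  let q1 : H.Walk a b := q.map (SimpleGraph.Embedding.induce S).toHom
  have hq1 : ∀ w ∈ q1.support, w ∈ S := by
    intro w hw
    have hw' : w ∈ (q.map (SimpleGraph.Embedding.induce S).toHom).support := hw
    rw [SimpleGraph.Walk.support_map, List.mem_map] at hw'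
    obtain ⟨x, _, rfl⟩ := hw'
    exact x.2
  have hq3 : ∀ w ∈ q1.bypass.support, w ∈ S := fun w hw => hq1 w (q1.support_bypass_subset_support hw)
  have hpq : p ∉ q1.bypass.support := fun h => hp (hq3 p h)
  have hq4 : (q1.bypass.concat hpb.symm).IsPath :=
    (q1.bypass_isPath).concat hpq hpb.symm
  have hcyc : (SimpleGraph.Walk.cons hpa (q1.bypass.concat hpb.symm)).IsCycle := by
    rw [SimpleGraph.Walk.cons_isCycle_iff]
    refine ⟨hq4, ?_⟩
    rw [SimpleGraph.Walk.edges_concat]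
    simp only [List.concat_eq_append, List.mem_append, List.mem_singleton, not_or]
    refine ⟨fun h => hpq (SimpleGraph.Walk.fst_mem_support_of_mem_edges _ h), ?_⟩
    intro h
    rw [Sym2.eq_iff] at h
    rcases h with ⟨h1, h2⟩ | ⟨h1, h2⟩
    · exact hpb.ne h1
    · exact hab h2
  have hedge : ∀ e, e ∈ (SimpleGraph.Walk.cons hpa (q1.bypass.concat hpb.symm)).edges ↔
      e = s(p, a) ∨ e ∈ q1.bypass.edges ∨ e = s(p, b) := by
    intro e
    rw [SimpleGraph.Walk.edges_cons, SimpleGraph.Walk.edges_concat, List.mem_cons,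
      List.concat_eq_append, List.mem_append, List.mem_singleton, Sym2.eq_swap (a := b)]
  refine ⟨{e | e ∈ (SimpleGraph.Walk.cons hpa (q1.bypass.concat hpb.symm)).edges}, ?_,
    even_cycle H p _ hcyc, ?_, ?_, ?_, ?_⟩
  · intro e he
    exact SimpleGraph.Walk.edges_subset_edgeSet _ he
  · exact (hedge _).2 (Or.inl rfl)
  · exact (hedge _).2 (Or.inr (Or.inr rfl))
  · intro e he hpe
    rcases (hedge e).1 he with h | h | h
    · exact Or.inl h
    · exact absurd (SimpleGraph.Walk.mem_support_of_mem_edges h hpe) hpq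
    · exact Or.inr h
  · intro e he w hw
    rcases (hedge e).1 he with h | h | h
    · rw [h, Sym2.mem_iff] at hw
      rcases hw with hw | hw
      · exact Or.inl hw
      · exact Or.inr (hw ▸ ha)
    · exact Or.inr (hq3 w (SimpleGraph.Walk.mem_support_of_mem_edges h hw))
    · rw [h, Sym2.mem_iff] at hw
      rcases hw with hw | hw
      · exact Or.inl hw
      · exact Or.inr (hw ▸ hb)

/-- if no edge at `p` is in `cut J`, then every cut has an even number of edges at `p` with faces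
in `J`. -/
theorem even_side {V ι : Type} (H : SimpleGraph V) (l r : Sym2 V → ι)
    (hD : IsDual H l r) (J : Set ι) (p : V) (hJ : ∀ e ∈ cut H l r J, p ∉ e) (I : Set ι) :
    Even {e | e ∈ cut H l r I ∧ p ∈ e ∧ l e ∈ J}.ncard := by
  have h := hD.even (I ∩ J) p
  have h2 : {e | e ∈ cut H l r (I ∩ J) ∧ p ∈ e} = {e | e ∈ cut H l r I ∧ p ∈ e ∧ l e ∈ J} := by
    ext e
    simp only [Set.mem_ofPred_eq, cut, Set.mem_inter_iff]
    constructor
    · rintro ⟨⟨h1, h3⟩, h4⟩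
      have h5 : (l e ∈ J ↔ r e ∈ J) := by
        by_contra h5
        exact hJ e ⟨h1, h5⟩ h4
      tauto
    · rintro ⟨⟨h1, h3⟩, h4, h6⟩
      have h5 : (l e ∈ J ↔ r e ∈ J) := by
        by_contra h5
        exact hJ e ⟨h1, h5⟩ h4
      tauto
  rw [← h2]
  exact h

theorem exists_other {V : Type} [Finite V] (H : SimpleGraph V) (B : Set V) (hB : TwoConn H B)
    {x y : V} (hx : x ∈ B) (hxy : x ≠ y) : ∃ b ∈ B, b ≠ y ∧ H.Adj x b := by
  have h3 : ({x, y} : Set V).ncard < B.ncard :=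
    lt_of_le_of_lt (Set.ncard_insert_le x {y}) (by rw [Set.ncard_singleton]; exact hB.1)
  obtain ⟨c, hc, hc'⟩ := Set.exists_mem_notMem_of_ncard_lt_ncard h3
  have hcx : c ≠ x := fun h => hc' (by simp [h])
  have hcy : c ≠ y := fun h => hc' (by simp [h])
  obtain ⟨q⟩ := hB.2 y ⟨x, hx, hxy⟩ ⟨c, hc, hcy⟩
  cases q with
  | nil => exact absurd rfl hcx
  | @cons _ w _ h _ => exact ⟨w, w.2.1, w.2.2, h⟩

theorem core {V ι : Type} [Finite V] (H : SimpleGraph V) (l r : Sym2 V → ι)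
    (hD : IsDual H l r) (v : V) (B : Set V) (hvB : v ∉ B) (hB : TwoConn H B)
    (hN : ∀ u w, H.Adj u w → u = v ∨ u ∈ B) (a0 b0 : V) (hab0 : a0 ≠ b0) (ha0 : H.Adj v a0)
    (hb0 : H.Adj v b0) :
    ∃ (m : ℕ) (c : ℕ → V), IsCyc H m c ∧ (∀ i, c i ∈ B) ∧ ∀ u, H.Adj v u → ∃ i < m, c i = u := by
  have hconn : (H.induce B).Preconnected := by
    have h := hB.2 v
    rwa [Set.sdiff_singleton_eq_self hvB] at h
  have hNv : ∀ u, H.Adj v u → u ∈ B := fun u h => (hN u v h.symm).resolve_left h.ne'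
  have hE : ∀ e ∈ H.edgeSet, v ∉ e → ∀ w ∈ e, w ∈ B := by
    intro e he hve w hw
    obtain ⟨w', rfl⟩ := Sym2.mem_iff_exists.1 hw
    rcases hN w w' he with h | h
    · exact absurd (h ▸ Sym2.mem_mk_left w w') hve
    · exact h
  set Jv : Set ι := {j | ∃ e ∈ H.edgeSet, v ∈ e ∧ (l e = j ∨ r e = j)} with hJv
  have hlv : ∀ e ∈ H.edgeSet, v ∈ e → l e ∈ Jv := fun e he hv => ⟨e, he, hv, Or.inl rfl⟩
  have hrv : ∀ e ∈ H.edgeSet, v ∈ e → r e ∈ Jv := fun e he hv => ⟨e, he, hv, Or.inr rfl⟩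
  -- (i)
  have h1 : ∀ J : Set ι, (∀ e ∈ cut H l r J, v ∉ e) → (∀ j ∈ J, j ∉ Jv) ∨ Jv ⊆ J := by
    intro J hJ
    by_contra hcon
    push Not at hcon
    obtain ⟨⟨j, hj, e, he, hve, hje⟩, hcon2⟩ := hcon
    obtain ⟨j', ⟨f, hf, hvf, hjf⟩, hj'⟩ := Set.not_subset.1 hcon2
    have he1 : l e ∈ J ↔ r e ∈ J := by
      by_contra h
      exact hJ e ⟨he, h⟩ hve
    have hf1 : l f ∈ J ↔ r f ∈ J := by
      by_contra h
      exact hJ f ⟨hf, h⟩ hvf
    have he2 : l e ∈ J := by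
      rcases hje with h | h
      · rw [h]; exact hj
      · rw [he1, h]; exact hj
    have hf2 : l f ∉ J := by
      rcases hjf with h | h
      · rw [h]; exact hj'
      · rw [hf1, h]; exact hj'
    obtain ⟨x, rfl⟩ := Sym2.mem_iff_exists.1 hve
    obtain ⟨y, rfl⟩ := Sym2.mem_iff_exists.1 hvf
    have hxy : x ≠ y := by
      rintro rfl
      exact hf2 he2
    obtain ⟨Z, hZ1, hZ2, hZ3, hZ4, hZ5, hZ6⟩ := cyc_through H v B hvB hconn (hNv x he) (hNv y hf)
      hxy he hf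
    obtain ⟨J', hJ'⟩ := hD.exist Z hZ1 hZ2
    have h := even_side H l r hD J v hJ J'
    rw [hJ'] at h
    have h2 : {e | e ∈ Z ∧ v ∈ e ∧ l e ∈ J} = {s(v, x)} := by
      ext e
      constructor
      · rintro ⟨h3, h4, h5⟩
        rcases hZ5 e h3 h4 with h | h
        · exact h
        · rw [h] at h5
          exact absurd h5 hf2
      · intro h
        rw [Set.mem_singleton_iff] at h
        rw [h]
        exact ⟨hZ3, Sym2.mem_mk_left v x, he2⟩
    rw [h2, Set.ncard_singleton] at h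
    exact absurd h (by decide)
  have h1' : ∀ Z ⊆ H.edgeSet, EvenSet Z → (∀ e ∈ Z, v ∉ e) →
      ∃ J, cut H l r J = Z ∧ ∀ j ∈ J, j ∉ Jv := by
    intro Z hZ1 hZ2 hZ3
    obtain ⟨J, hJ⟩ := hD.exist Z hZ1 hZ2
    rcases h1 J (by rw [hJ]; exact hZ3) with h | h
    · exact ⟨J, hJ, h⟩
    · exact ⟨Jᶜ, by rw [cut_compl, hJ], fun j hj hj' => hj (h hj')⟩
  -- (ii)
  have h2 : ∀ e ∈ H.edgeSet, v ∉ e → ¬ (l e ∈ Jv ∧ r e ∈ Jv) := by
    intro e he hve hcon
    induction e using Sym2.ind with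
    | _ x y =>
      have hxB : x ∈ B := hE _ he hve x (Sym2.mem_mk_left x y)
      have hyB : y ∈ B := hE _ he hve y (Sym2.mem_mk_right x y)
      have hxy : H.Adj x y := he
      obtain ⟨b, hb, hby, hxb⟩ := exists_other H B hB hxB hxy.ne
      obtain ⟨Z, hZ1, hZ2, hZ3, hZ4, hZ5, hZ6⟩ := cyc_through H x (B \ {x})
        (fun h => h.2 rfl) (hB.2 x) (a := y) (b := b) ⟨hyB, hxy.ne'⟩ ⟨hb, hxb.ne'⟩ hby.symm hxy hxb
      obtain ⟨J, hJ, hJ'⟩ := h1' Z hZ1 hZ2 (by
        intro e he hv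
        rcases hZ6 e he v hv with h | h
        · exact hvB (h ▸ hxB)
        · exact hvB h.1)
      rw [← hJ] at hZ3
      have h3 := hZ3.2
      have h4 := hJ' (l s(x, y))
      have h5 := hJ' (r s(x, y))
      tauto
  -- the cut of `Jv`
  have hCv : ∀ e ∈ cut H l r Jv, v ∉ e := by
    intro e he hv
    exact he.2 ⟨fun _ => hrv e he.1 hv, fun _ => hlv e he.1 hv⟩
  have hCne : (cut H l r Jv).Nonempty := by
    by_contra hcon
    rw [Set.not_nonempty_iff_eq_empty] at hcon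
    rcases hD.conn Jv hcon with h | h
    · have h3 := hlv s(v, a0) ha0 (Sym2.mem_mk_left v a0)
      rw [h] at h3
      exact h3
    · obtain ⟨b, hb, _, hab⟩ := exists_other H B hB (hNv a0 ha0) hab0
      refine h2 s(a0, b) hab ?_ (by rw [h]; exact ⟨Set.mem_univ _, Set.mem_univ _⟩)
      rw [Sym2.mem_iff]
      rintro (h3 | h3)
      · exact hvB (h3 ▸ hNv a0 ha0)
      · exact hvB (h3 ▸ hb)
  obtain ⟨m, c, hc, hcC⟩ := exists_cyc_of_even H (cut H l r Jv) (fun e he => he.1) (hD.even Jv) hCne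
  have hC1 : EvenSet (seg c 0 m) := even_cyc H m c hc
  have hC1E : seg c 0 m ⊆ H.edgeSet := fun e he => (hcC he).1
  -- (iii)
  have h3 : cut H l r Jv ⊆ seg c 0 m := by
    intro e2 he2
    by_contra he2'
    obtain ⟨J1, hJ1, hJ1v⟩ := h1' (seg c 0 m) hC1E hC1 (fun e he => hCv e (hcC he))
    have hJ2 : ∀ e, e ∈ H.edgeSet → ¬ ((l e ∈ Jv ∨ l e ∈ J1) ↔ (r e ∈ Jv ∨ r e ∈ J1)) →
        e ∉ seg c 0 m := by
      intro e he h4 h5
      have h6 := (hcC h5).2
      have h7 := hJ1v (l e)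
      have h8 := hJ1v (r e)
      have h9 : e ∈ cut H l r J1 := by rw [hJ1]; exact h5
      have h10 := h9.2
      tauto
    -- an edge of `B` has no face in `J1` and one outside of `J1` and `Jv`
    have f2 : ∀ e ∈ H.edgeSet, v ∉ e → ¬ (l e ∈ J1 ∧ r e ∉ Jv ∧ r e ∉ J1) ∧
        ¬ (r e ∈ J1 ∧ l e ∉ Jv ∧ l e ∉ J1) := by
      intro e he hve
      constructor
      · rintro ⟨h4, h5, h6⟩
        refine hJ2 e he (by tauto) ?_
        rw [← hJ1]
        exact ⟨he, by tauto⟩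
      · rintro ⟨h4, h5, h6⟩
        refine hJ2 e he (by tauto) ?_
        rw [← hJ1]
        exact ⟨he, by tauto⟩
    let E1 : Set (Sym2 V) := {e | e ∈ H.edgeSet ∧ v ∉ e ∧ (l e ∈ J1 ∨ r e ∈ J1)}
    have hE1 : ∀ Z ⊆ H.edgeSet, EvenSet Z → (∀ e ∈ Z, v ∉ e) → EvenSet (Z ∩ E1) := by
      intro Z hZ1 hZ2 hZ3
      obtain ⟨J, hJ, hJ'⟩ := h1' Z hZ1 hZ2 hZ3
      have h4 : cut H l r (J ∩ J1) = Z ∩ E1 := by
        ext e
        constructor
        · rintro ⟨h5, h6⟩
          have hve : v ∉ e := by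
            intro hv
            have h7 := hlv e h5 hv
            have h8 := hrv e h5 hv
            have h9 := hJ' (l e)
            have h10 := hJ' (r e)
            simp only [Set.mem_inter_iff] at h6
            tauto
          have h7 := hJ' (l e)
          have h8 := hJ' (r e)
          have h9 := f2 e h5 hve
          simp only [Set.mem_inter_iff] at h6
          refine ⟨?_, h5, hve, by tauto⟩
          rw [← hJ]
          refine ⟨h5, ?_⟩
          tauto
        · rintro ⟨h5, h6, hve, h7⟩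
          rw [← hJ] at h5
          refine ⟨h6, ?_⟩
          have h8 := h5.2
          have h9 := hJ' (l e)
          have h10 := hJ' (r e)
          have h11 := f2 e h6 hve
          simp only [Set.mem_inter_iff]
          tauto
      rw [← h4]
      exact hD.even _
    have hmix : ∀ p e e', e ∈ E1 → e' ∈ H.edgeSet → v ∉ e' → e' ∉ E1 → p ∈ e → p ∈ e' → False := by
      intro p e e' he he' hve' hne hpe hpe'
      have hpB : p ∈ B := hE e he.1 he.2.1 p hpe
      obtain ⟨a, rfl⟩ := Sym2.mem_iff_exists.1 hpe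
      obtain ⟨b, rfl⟩ := Sym2.mem_iff_exists.1 hpe'
      have hpa : H.Adj p a := he.1
      have hpb : H.Adj p b := he'
      have haB : a ∈ B := hE _ he.1 he.2.1 a (Sym2.mem_mk_right p a)
      have hbB : b ∈ B := hE _ he' hve' b (Sym2.mem_mk_right p b)
      have hab : a ≠ b := by
        rintro rfl
        exact hne he
      obtain ⟨Z, hZ1, hZ2, hZ3, hZ4, hZ5, hZ6⟩ := cyc_through H p (B \ {p})
        (fun h => h.2 rfl) (hB.2 p) (a := a) (b := b) ⟨haB, hpa.ne'⟩ ⟨hbB, hpb.ne'⟩ hab hpa hpb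
      have h4 := hE1 Z hZ1 hZ2 (by
        intro e he hv
        rcases hZ6 e he v hv with h | h
        · exact hvB (h ▸ hpB)
        · exact hvB h.1) p
      have h5 : {e | e ∈ Z ∩ E1 ∧ p ∈ e} = {s(p, a)} := by
        ext e
        constructor
        · rintro ⟨⟨h5, h6⟩, h7⟩
          rcases hZ5 e h5 h7 with h | h
          · exact h
          · exact absurd (h ▸ h6) hne
        · intro h
          rw [Set.mem_singleton_iff] at h
          rw [h]
          exact ⟨⟨hZ3, he⟩, Sym2.mem_mk_left p a⟩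
      rw [h5, Set.ncard_singleton] at h4
      exact absurd h4 (by decide)
    have hwalk : ∀ (x y : B) (_ : (H.induce B).Walk x y),
        (∀ e ∈ H.edgeSet, v ∉ e → (x : V) ∈ e → e ∈ E1) →
        ∀ e ∈ H.edgeSet, v ∉ e → (y : V) ∈ e → e ∈ E1 := by
      intro x y q
      induction q with
      | nil => exact fun h => h
      | @cons x w y h q ih =>
        intro hx
        refine ih ?_
        intro e he hve hwe
        by_contra hne
        have hadj : H.Adj (x : V) (w : V) := h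
        have hxw : s((x : V), (w : V)) ∈ E1 := by
          refine hx _ hadj ?_ (Sym2.mem_mk_left _ _)
          rw [Sym2.mem_iff]
          rintro (h3 | h3)
          · exact hvB (h3 ▸ x.2)
          · exact hvB (h3 ▸ w.2)
        exact hmix w _ e hxw he hve hne (Sym2.mem_mk_right _ _) hwe
    -- the edge `c 0, c 1` is in `E1`, the edge `e2` is not
    have he1 : s(c 0, c (0 + 1)) ∈ seg c 0 m := ⟨0, le_rfl, by have := hc.len; omega, rfl⟩
    have he1E : s(c 0, c (0 + 1)) ∈ E1 := by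
      refine ⟨hC1E he1, hCv _ (hcC he1), ?_⟩
      have h4 : s(c 0, c (0 + 1)) ∈ cut H l r J1 := by rw [hJ1]; exact he1
      have h5 := h4.2
      tauto
    have he2E : e2 ∉ E1 := by
      rintro ⟨h4, h5, h6⟩
      refine he2' ?_
      rw [← hJ1]
      refine ⟨h4, ?_⟩
      have h7 := he2.2
      have h8 := hJ1v (l e2)
      have h9 := hJ1v (r e2)
      tauto
    have hc0B : c 0 ∈ B := hE _ he1E.1 he1E.2.1 _ (Sym2.mem_mk_left _ _)
    obtain ⟨x2, hx2⟩ : ∃ x2, x2 ∈ e2 := ⟨_, Sym2.out_fst_mem e2⟩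
    have hx2B : x2 ∈ B := hE e2 he2.1 (hCv e2 he2) x2 hx2
    obtain ⟨q⟩ := hconn ⟨c 0, hc0B⟩ ⟨x2, hx2B⟩
    refine he2E (hwalk _ _ q ?_ e2 he2.1 (hCv e2 he2) hx2)
    intro e he hve h0e
    by_contra hne
    exact hmix (c 0) _ e he1E he hve hne (Sym2.mem_mk_left _ _) h0e
  -- (iv)
  have hcB : ∀ i < m, c i ∈ B := by
    intro i hi
    have h4 : s(c i, c (i + 1)) ∈ cut H l r Jv := hcC ⟨i, Nat.zero_le i, hi, rfl⟩
    exact hE _ h4.1 (hCv _ h4) _ (Sym2.mem_mk_left _ _)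
  have hm3 := hc.len
  refine ⟨m, fun i => if i ≤ m then c i else c 0, ⟨hc.len, ?_, ?_, ?_⟩, ?_, ?_⟩
  · simp [hc.close]
  · intro i j hi hj h
    simp only [hi.le, hj.le, if_true] at h
    exact hc.inj i j hi hj h
  · intro i hi
    have h4 : i + 1 ≤ m := hi
    simp only [hi.le, h4, if_true]
    exact hc.adj i hi
  · intro i
    show (if i ≤ m then c i else c 0) ∈ B
    split_ifs with h4
    · rcases h4.lt_or_eq with h5 | h5
      · exact hcB i h5
      · rw [h5, hc.close]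
        exact hcB 0 (by omega)
    · exact hcB 0 (by omega)
  · intro u hu
    obtain ⟨u', hu', huu'⟩ : ∃ u', H.Adj v u' ∧ u ≠ u' := by
      by_cases h4 : u = a0
      · exact ⟨b0, hb0, h4 ▸ hab0⟩
      · exact ⟨a0, ha0, h4⟩
    obtain ⟨Z, hZ1, hZ2, hZ3, hZ4, hZ5, hZ6⟩ := cyc_through H v B hvB hconn (hNv u hu) (hNv u' hu')
      huu' hu hu'
    obtain ⟨J, hJ⟩ := hD.exist Z hZ1 hZ2
    have hlr : l s(v, u) ≠ r s(v, u) := by
      intro h4
      rw [← hJ] at hZ3
      exact hZ3.2 (by rw [h4])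
    have hs : s(v, u) ∈ cut H l r {l s(v, u)} := by
      refine ⟨hu, ?_⟩
      rw [Set.mem_singleton_iff, Set.mem_singleton_iff]
      exact fun h4 => hlr (h4.1 rfl).symm
    obtain ⟨e', ⟨he'1, he'2⟩, he'3⟩ : ∃ e' ∈ {e | e ∈ cut H l r {l s(v, u)} ∧ u ∈ e},
        e' ≠ s(v, u) := by
      by_contra hcon
      push Not at hcon
      have h4 : {e | e ∈ cut H l r {l s(v, u)} ∧ u ∈ e} = {s(v, u)} := by
        ext e
        constructor
        · exact fun h => hcon e h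
        · intro h
          rw [Set.mem_singleton_iff] at h
          rw [h]
          exact ⟨hs, Sym2.mem_mk_right v u⟩
      have h5 := hD.even {l s(v, u)} u
      rw [h4, Set.ncard_singleton] at h5
      exact absurd h5 (by decide)
    have hve' : v ∉ e' := by
      intro h4
      exact he'3 ((Sym2.mem_and_mem_iff hu.ne).1 ⟨h4, he'2⟩)
    have hsv : l s(v, u) ∈ Jv := hlv _ hu (Sym2.mem_mk_left v u)
    have he'C : e' ∈ seg c 0 m := by
      refine h3 ⟨he'1.1, ?_⟩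
      have h4 := he'1.2
      have h5 := h2 e' he'1.1 hve'
      rw [Set.mem_singleton_iff, Set.mem_singleton_iff] at h4
      intro h6
      by_cases h7 : l e' = l s(v, u)
      · have h8 : l e' ∈ Jv := by rw [h7]; exact hsv
        exact h5 ⟨h8, h6.1 h8⟩
      · have h9 : r e' = l s(v, u) := by
          by_contra h9
          exact h4 ⟨fun h => absurd h h7, fun h => absurd h h9⟩
        have h8 : r e' ∈ Jv := by rw [h9]; exact hsv
        exact h5 ⟨h6.2 h8, h8⟩
    obtain ⟨t, _, ht, rfl⟩ := he'C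
    rw [Sym2.mem_iff] at he'2
    rcases he'2 with h4 | h4
    · exact ⟨t, ht, by simp [ht.le, h4]⟩
    · rcases Nat.lt_or_ge (t + 1) m with h5 | h5
      · exact ⟨t + 1, h5, by simp only [h5.le, if_true, h4]⟩
      · have h6 : t + 1 = m := by omega
        refine ⟨0, by omega, ?_⟩
        rw [h4, h6, hc.close]
        simp

end GFaceAux

theorem face_cycle {V : Type} [Finite V] (H : SimpleGraph V) (hH : HasDual H) (v : V) (B : Set V)
    (hvB : v ∉ B) (hB : TwoConn H B) (hN : ∀ u, H.Adj v u → u ∈ B)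
    (h2 : 2 ≤ {u | H.Adj v u}.ncard) :
    ∃ (m : ℕ) (c : ℕ → V), IsCyc H m c ∧ (∀ i, c i ∈ B) ∧ ∀ u, H.Adj v u → ∃ i < m, c i = u := by
  let H' : SimpleGraph V :=
    { Adj := fun u w => H.Adj u w ∧ (u = v ∨ u ∈ B) ∧ (w = v ∨ w ∈ B)
      symm := ⟨fun _ _ h => ⟨h.1.symm, h.2.2, h.2.1⟩⟩
      loopless := ⟨fun u h => H.loopless.irrefl u h.1⟩ }
  have hle : H' ≤ H := fun _ _ h => h.1
  obtain ⟨ι, l, r, _, _, hD⟩ := dual_mono hle hH
  have hind : ∀ z, H'.induce (B \ {z}) = H.induce (B \ {z}) := by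
    intro z
    ext ⟨x, hx⟩ ⟨y, hy⟩
    exact ⟨fun h => h.1, fun h => ⟨h, Or.inr hx.1, Or.inr hy.1⟩⟩
  have hB' : TwoConn H' B := ⟨hB.1, fun z => by rw [hind z]; exact hB.2 z⟩
  have hadj : ∀ u, H.Adj v u → H'.Adj v u := fun u h => ⟨h, Or.inl rfl, Or.inr (hN u h)⟩
  obtain ⟨a0, b0, ha0, hb0, hab0⟩ := Set.one_lt_ncard_iff (Set.toFinite _) |>.1 h2
  obtain ⟨m, c, hc, hcB, hcN⟩ := GFaceAux.core H' l r hD v B hvB hB' (fun u w h => h.2.1) a0 b0
    hab0 (hadj a0 ha0) (hadj b0 hb0)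
  exact ⟨m, c, ⟨hc.len, hc.close, hc.inj, fun i hi => hle (hc.adj i hi)⟩, hcB,
    fun u hu => hcN u (hadj u hu)⟩

end Pool.Agent.MP9d6bd1
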