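import Mathlib
import Pool.Agent.Lib.MP_9d6bd1_lc.GDefs
import Pool.Agent.Lib.MP_9d6bd1_lc.GEven

/-!
# MP_9d6bd1_lc, module G09: the rotation at a vertex whose neighbours lie on a cycle
-/

set_option autoImplicit false

open Classical

namespace Pool.Agent.MP9d6bd1

namespace GRotAux

variable {V ι : Type}

theorem conn_of_cyc [Finite V] {G : SimpleGraph V} {l r : Sym2 V → ι} (hD : IsDual G l r)
    {m : ℕ} {c : ℕ → V} (hc : IsCyc G m c) {J K : Set ι} (hJ : cut G l r J = seg c 0 m)
    (hKJ : K ⊆ J) (hK : cut G l r K ⊆ seg c 0 m) : K = ∅ ∨ K = J := by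
  rcases even_sub_cyc G m c hc _ hK (hD.even K) with h | h
  · rcases hD.conn K h with h' | h'
    · exact Or.inl h'
    · right
      apply Set.Subset.antisymm hKJ
      rw [h']
      exact Set.subset_univ _
  · have h1 : cut G l r (symmDiff K J) = ∅ := by
      rw [cut_symmDiff, h, hJ, symmDiff_self]
      rfl
    rcases hD.conn _ h1 with h' | h'
    · right
      exact symmDiff_eq_bot.mp h'
    · left
      apply Set.eq_empty_of_forall_notMem
      intro k hk
      have h3 : k ∈ symmDiff K J := by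
        rw [h']
        trivial
      rcases h3 with h2 | h2
      · exact h2.2 (hKJ h2.1)
      · exact h2.2 hk

theorem local_even {G : SimpleGraph V} {l r : Sym2 V → ι} (hD : IsDual G l r) (p : V)
    (J J' : Set ι) (hJ : ∀ e ∈ G.edgeSet, p ∈ e → (l e ∈ J ↔ r e ∈ J)) :
    Even {e | (e ∈ cut G l r J' ∧ l e ∈ J) ∧ p ∈ e}.ncard := by
  have h := hD.even (J' ∩ J) p
  have h2 : {e | (e ∈ cut G l r J' ∧ l e ∈ J) ∧ p ∈ e} =
      {e | e ∈ cut G l r (J' ∩ J) ∧ p ∈ e} := by
    ext e
    constructor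
    · rintro ⟨⟨⟨h3, h4⟩, h5⟩, h6⟩
      refine ⟨⟨h3, ?_⟩, h6⟩
      have h7 := (hJ e h3 h6).mp h5
      intro h8
      apply h4
      constructor
      · intro h9
        exact (h8.mp ⟨h9, h5⟩).1
      · intro h9
        exact (h8.mpr ⟨h9, h7⟩).1
    · rintro ⟨⟨h3, h4⟩, h6⟩
      have h7 := hJ e h3 h6
      by_cases h5 : l e ∈ J
      · refine ⟨⟨⟨h3, ?_⟩, h5⟩, h6⟩
        intro h8
        apply h4
        constructor
        · intro h9
          exact ⟨h8.mp h9.1, h7.mp h9.2⟩
        · intro h9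
          exact ⟨h8.mpr h9.1, h7.mpr h9.2⟩
      · exfalso
        apply h4
        constructor
        · intro h9
          exact absurd h9.2 h5
        · intro h9
          exact absurd (h7.mpr h9.2) h5
  rw [h2]
  exact h

theorem mem_of_even {α : Type} {S : Set α} {a b : α} (hS : Even S.ncard) (hsub : S ⊆ {a, b})
    (ha : a ∈ S) : b ∈ S := by
  by_contra hb
  have h1 : S = {a} := by
    ext x
    constructor
    · intro hx
      rcases hsub hx with h | h
      · exact h
      · rw [h] at hx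
        exact absurd hx hb
    · intro hx
      rw [Set.mem_singleton_iff.mp hx]
      exact ha
  rw [h1, Set.ncard_singleton] at hS
  exact absurd hS (by decide)

/-- the cycle `v, c 0, ..., c t, v`. -/
def tri (v : V) (c : ℕ → V) (t : ℕ) : ℕ → V :=
  fun n => if n = 0 then v else if n ≤ t + 1 then c (n - 1) else v

theorem tri_zero (v : V) (c : ℕ → V) (t : ℕ) : tri v c t 0 = v := by
  simp [tri]

theorem tri_succ (v : V) (c : ℕ → V) (t k : ℕ) (hk : k ≤ t) : tri v c t (k + 1) = c k := by
  simp [tri, hk]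

theorem tri_last (v : V) (c : ℕ → V) (t : ℕ) : tri v c t (t + 2) = v := by
  simp [tri]

theorem isCyc_tri {M : SimpleGraph V} {v : V} {m : ℕ} {c : ℕ → V} (hc : IsCyc M m c)
    (hv : ∀ i, c i ≠ v) (h0 : M.Adj v (c 0)) {t : ℕ} (ht : 0 < t) (htm : t < m)
    (hvt : M.Adj v (c t)) : IsCyc M (t + 2) (tri v c t) where
  len := by omega
  close := by rw [tri_last, tri_zero]
  inj := by
    intro i j hi hj hij
    rcases i with _ | i <;> rcases j with _ | j
    · rfl
    · rw [tri_zero, tri_succ v c t j (by omega)] at hij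
      exact absurd hij.symm (hv j)
    · rw [tri_zero, tri_succ v c t i (by omega)] at hij
      exact absurd hij (hv i)
    · rw [tri_succ v c t i (by omega), tri_succ v c t j (by omega)] at hij
      have := hc.inj i j (by omega) (by omega) hij
      omega
  adj := by
    intro i hi
    rcases i with _ | i
    · rw [tri_zero, tri_succ v c t 0 (by omega)]
      exact h0
    · rw [tri_succ v c t i (by omega)]
      rcases Nat.lt_or_ge i t with h | h
      · rw [tri_succ v c t (i + 1) (by omega)]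
        exact hc.adj i (by omega)
      · have h2 : i = t := by omega
        rw [h2, tri_last]
        exact hvt.symm

theorem mem_tri {v : V} {c : ℕ → V} {t : ℕ} {e : Sym2 V} :
    e ∈ seg (tri v c t) 0 (t + 2) ↔
      e = s(v, c 0) ∨ e = s(v, c t) ∨ ∃ k, k < t ∧ e = s(c k, c (k + 1)) := by
  constructor
  · rintro ⟨i, -, hi, rfl⟩
    rcases i with _ | i
    · left
      rw [tri_zero, tri_succ v c t 0 (by omega)]
    · rw [tri_succ v c t i (by omega)]
      rcases Nat.lt_or_ge i t with h | h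
      · right
        right
        refine ⟨i, h, ?_⟩
        rw [tri_succ v c t (i + 1) (by omega)]
      · have h2 : i = t := by omega
        right
        left
        rw [h2, tri_last, Sym2.eq_swap]
  · rintro (h | h | ⟨k, hk, h⟩)
    · refine ⟨0, le_rfl, by omega, ?_⟩
      rw [tri_zero, tri_succ v c t 0 (by omega)]
      exact h
    · refine ⟨t + 1, by omega, by omega, ?_⟩
      rw [tri_succ v c t t le_rfl, tri_last, Sym2.eq_swap]
      exact h
    · refine ⟨k + 1, by omega, by omega, ?_⟩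
      rw [tri_succ v c t k (by omega), tri_succ v c t (k + 1) (by omega)]
      exact h

theorem seg_sub_edge {G : SimpleGraph V} {m : ℕ} {c : ℕ → V} (hc : IsCyc G m c) :
    seg c 0 m ⊆ G.edgeSet := by
  rintro e ⟨i, -, hi, rfl⟩
  exact hc.adj i hi

/-- spokes are not on the cycle. -/
theorem spoke_not_seg {v : V} {c : ℕ → V} (hv : ∀ i, c i ≠ v) {m : ℕ} {e : Sym2 V}
    (he : v ∈ e) : e ∉ seg c 0 m := by
  rintro ⟨i, -, hi, rfl⟩
  rcases Sym2.mem_iff.mp he with h | h
  · exact hv i h.symm
  · exact hv (i + 1) h.symm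

/-- the spokes of `tri`. -/
theorem spoke_mem_tri {v : V} {m : ℕ} {c : ℕ → V} {M : SimpleGraph V} (hc : IsCyc M m c)
    (hv : ∀ i, c i ≠ v) {t k : ℕ} (ht : t < m) (hk : k < m) :
    s(v, c k) ∈ seg (tri v c t) 0 (t + 2) ↔ k = 0 ∨ k = t := by
  rw [mem_tri]
  have hinj : ∀ a b : ℕ, a < m → b < m → s(v, c a) = s(v, c b) → a = b := by
    intro a b ha hb h
    have h1 := Sym2.congr_right.mp h
    exact hc.inj a b ha hb h1
  constructor
  · rintro (h | h | ⟨j, hj, h⟩)
    · exact Or.inl (hinj k 0 hk (by omega) h)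
    · exact Or.inr (hinj k t hk ht h)
    · exfalso
      have h2 : v ∈ s(c j, c (j + 1)) := by
        rw [← h]
        exact Sym2.mem_mk_left _ _
      rcases Sym2.mem_iff.mp h2 with h3 | h3
      · exact hv j h3.symm
      · exact hv (j + 1) h3.symm
  · rintro (rfl | rfl)
    · exact Or.inl rfl
    · exact Or.inr (Or.inl rfl)

/-- Step A: the side of the cycle that contains the faces of the spokes. -/
theorem exists_side [Finite V] {M : SimpleGraph V} {l r : Sym2 V → ι} (hD : IsDual M l r) {v : V}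
    {m : ℕ} {c : ℕ → V} (hc : IsCyc M m c) (hv : ∀ i, c i ≠ v)
    (hN : ∀ u, M.Adj v u → ∃ i < m, c i = u) (h0 : M.Adj v (c 0)) :
    ∃ J, cut M l r J = seg c 0 m ∧
      ∀ t, t < m → M.Adj v (c t) → l s(v, c t) ∈ J ∧ r s(v, c t) ∈ J := by
  have key : ∀ J, cut M l r J = seg c 0 m → l s(v, c 0) ∈ J →
      ∀ t, t < m → M.Adj v (c t) → l s(v, c t) ∈ J ∧ r s(v, c t) ∈ J := by
    intro J hJ hl t ht hvt
    have hJ' : ∀ e ∈ M.edgeSet, v ∈ e → (l e ∈ J ↔ r e ∈ J) := by
      intro e he hve
      by_contra hcon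
      have h1 : e ∈ cut M l r J := ⟨he, hcon⟩
      rw [hJ] at h1
      exact spoke_not_seg hv hve h1
    have hlr : l s(v, c t) ∈ J := by
      rcases Nat.eq_zero_or_pos t with rfl | htp
      · exact hl
      have hT := isCyc_tri hc hv h0 htp ht hvt
      obtain ⟨E, hE⟩ := hD.exist _ (seg_sub_edge hT) (even_cyc _ _ _ hT)
      have h1 := local_even hD v J E hJ'
      have h2 := mem_of_even (a := s(v, c 0)) (b := s(v, c t)) h1 ?_ ?_
      · exact h2.1.2
      · rintro e ⟨⟨h3, h4⟩, h5⟩
        obtain ⟨u, rfl⟩ := Sym2.mem_iff_exists.mp h5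
        obtain ⟨i, hi, rfl⟩ := hN u h3.1
        rw [hE] at h3
        rcases (spoke_mem_tri hc hv ht hi).mp h3 with h6 | h6
        · left
          rw [h6]
        · right
          rw [h6]
          rfl
      · refine ⟨⟨?_, hl⟩, Sym2.mem_mk_left _ _⟩
        rw [hE]
        exact (spoke_mem_tri hc hv ht (by omega)).mpr (Or.inl rfl)
    exact ⟨hlr, (hJ' _ hvt (Sym2.mem_mk_left _ _)).mp hlr⟩
  obtain ⟨J, hJ⟩ := hD.exist _ (seg_sub_edge hc) (even_cyc _ _ _ hc)
  by_cases hl : l s(v, c 0) ∈ J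
  · exact ⟨J, hJ, key J hJ hl⟩
  · have hJ2 : cut M l r Jᶜ = seg c 0 m := by rw [cut_compl, hJ]
    exact ⟨Jᶜ, hJ2, key Jᶜ hJ2 hl⟩

/-- Step B. -/
theorem exists_tri_side [Finite V] {M : SimpleGraph V} {l r : Sym2 V → ι} (hD : IsDual M l r)
    {v : V} {m : ℕ} {c : ℕ → V} (hc : IsCyc M m c) (hv : ∀ i, c i ≠ v)
    (h0 : M.Adj v (c 0)) {J : Set ι} (hJ : cut M l r J = seg c 0 m)
    (hsp : ∀ t, t < m → M.Adj v (c t) → l s(v, c t) ∈ J ∧ r s(v, c t) ∈ J)
    {t : ℕ} (htp : 0 < t) (ht : t < m) (hvt : M.Adj v (c t)) :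
    ∃ E, E ⊆ J ∧ cut M l r E = seg (tri v c t) 0 (t + 2) := by
  have hT := isCyc_tri hc hv h0 htp ht hvt
  obtain ⟨E, hE⟩ := hD.exist _ (seg_sub_edge hT) (even_cyc _ _ _ hT)
  have hJc : cut M l r Jᶜ = seg c 0 m := by rw [cut_compl, hJ]
  have hsub : cut M l r (E ∩ Jᶜ) ⊆ seg c 0 m := by
    rintro e ⟨he, h1⟩
    by_contra hcon
    have h2 : l e ∈ J ↔ r e ∈ J := by
      by_contra h3
      apply hcon
      rw [← hJ]
      exact ⟨he, h3⟩
    have h4 : l e ∉ J := by
      intro h5
      apply h1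
      constructor
      · intro h6
        exact absurd h5 h6.2
      · intro h6
        exact absurd (h2.mp h5) h6.2
    have h5 : r e ∉ J := fun h => h4 (h2.mpr h)
    have h6 : e ∈ cut M l r E := by
      refine ⟨he, ?_⟩
      intro h7
      apply h1
      exact ⟨fun h => ⟨h7.mp h.1, h5⟩, fun h => ⟨h7.mpr h.1, h4⟩⟩
    rw [hE] at h6
    rcases mem_tri.mp h6 with h7 | h7 | ⟨k, hk, h7⟩
    · rw [h7] at h4
      exact h4 (hsp 0 (by omega) h0).1
    · rw [h7] at h4
      exact h4 (hsp t ht hvt).1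
    · exact hcon ⟨k, Nat.zero_le _, by omega, h7⟩
  rcases conn_of_cyc hD hc hJc Set.inter_subset_right hsub with h | h
  · refine ⟨E, ?_, hE⟩
    intro x hx
    by_contra hx2
    have h3 : x ∈ E ∩ Jᶜ := ⟨hx, hx2⟩
    rw [h] at h3
    exact h3
  · refine ⟨Eᶜ, ?_, by rw [cut_compl, hE]⟩
    intro x hx
    by_contra hx2
    have h3 : x ∈ E ∩ Jᶜ := by
      rw [h]
      exact hx2
    exact hx h3.1

/-- Step C. -/
theorem tri_side_mono [Finite V] {M : SimpleGraph V} {l r : Sym2 V → ι} (hD : IsDual M l r)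
    {v : V} {m : ℕ} {c : ℕ → V} (hc : IsCyc M m c) (hv : ∀ i, c i ≠ v)
    (h0 : M.Adj v (c 0)) {J : Set ι} (hJ : cut M l r J = seg c 0 m)
    {a b : ℕ} (ha : 0 < a) (hab : a < b) (hb : b < m) (hva : M.Adj v (c a))
    {A B : Set ι} (hAJ : A ⊆ J) (hBJ : B ⊆ J)
    (hA : cut M l r A = seg (tri v c a) 0 (a + 2))
    (hB : cut M l r B = seg (tri v c b) 0 (b + 2)) : A ⊆ B := by
  have hT := isCyc_tri hc hv h0 ha (by omega) hva
  -- edges of the cycle have a face outside `J`
  have hout : ∀ k, k < m → ¬ (l s(c k, c (k + 1)) ∈ J ∧ r s(c k, c (k + 1)) ∈ J) := by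
    intro k hk h
    have h1 : s(c k, c (k + 1)) ∈ cut M l r J := by
      rw [hJ]
      exact ⟨k, Nat.zero_le _, hk, rfl⟩
    exact h1.2 ⟨fun _ => h.2, fun _ => h.1⟩
  -- the tri cycle `A` avoids `c b`
  have hav : ∀ e ∈ M.edgeSet, c b ∈ e → (l e ∈ A ↔ r e ∈ A) := by
    intro e he hbe
    by_contra hcon
    have h1 : e ∈ cut M l r A := ⟨he, hcon⟩
    rw [hA] at h1
    rcases mem_tri.mp h1 with h7 | h7 | ⟨k, hk, h7⟩
    · rw [h7] at hbe
      rcases Sym2.mem_iff.mp hbe with h8 | h8
      · exact hv b h8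
      · have := hc.inj b 0 hb (by omega) h8
        omega
    · rw [h7] at hbe
      rcases Sym2.mem_iff.mp hbe with h8 | h8
      · exact hv b h8
      · have := hc.inj b a hb (by omega) h8
        omega
    · rw [h7] at hbe
      rcases Sym2.mem_iff.mp hbe with h8 | h8
      · have := hc.inj b k hb (by omega) h8
        omega
      · have := hc.inj b (k + 1) hb (by omega) h8
        omega
  -- the spoke of `b` has its faces outside `A`
  have hsb : l s(v, c b) ∉ A := by
    intro hl
    have h1 := local_even hD (c b) A B hav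
    have h2 := mem_of_even (a := s(v, c b)) (b := s(c (b - 1), c b)) h1 ?_ ?_
    · have h3 := h2.1
      have h4 : l s(c (b - 1), c b) ∈ A := h3.2
      have h5 : r s(c (b - 1), c b) ∈ A := (hav _ h3.1.1 h2.2).mp h4
      have h6 := hout (b - 1) (by omega)
      rw [Nat.sub_add_cancel (by omega)] at h6
      exact h6 ⟨hAJ h4, hAJ h5⟩
    · rintro e ⟨⟨h3, h4⟩, h5⟩
      rw [hB] at h3
      rcases mem_tri.mp h3 with h7 | h7 | ⟨k, hk, h7⟩
      · exfalso
        rw [h7] at h5
        rcases Sym2.mem_iff.mp h5 with h8 | h8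
        · exact hv b h8
        · have := hc.inj b 0 hb (by omega) h8
          omega
      · left
        exact h7
      · right
        rw [h7] at h5
        rcases Sym2.mem_iff.mp h5 with h8 | h8
        · have := hc.inj b k hb (by omega) h8
          omega
        · have := hc.inj b (k + 1) hb (by omega) h8
          have h9 : k = b - 1 := by omega
          rw [h7, h9, Nat.sub_add_cancel (by omega)]
          rfl
    · refine ⟨⟨?_, hl⟩, Sym2.mem_mk_right _ _⟩
      rw [hB]
      exact mem_tri.mpr (Or.inr (Or.inl rfl))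
  have hsub : cut M l r (A \ B) ⊆ seg (tri v c a) 0 (a + 2) := by
    rintro e ⟨he, h1⟩
    by_contra hcon
    have h2 : l e ∈ A ↔ r e ∈ A := by
      by_contra h3
      apply hcon
      rw [← hA]
      exact ⟨he, h3⟩
    have h4 : l e ∈ A := by
      by_contra h5
      apply h1
      constructor
      · intro h6
        exact absurd h6.1 h5
      · intro h6
        exact absurd (h2.mpr h6.1) h5
    have h5 : r e ∈ A := h2.mp h4
    have h6 : e ∈ cut M l r B := by
      refine ⟨he, ?_⟩
      intro h7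
      apply h1
      exact ⟨fun h => ⟨h5, fun h8 => h.2 (h7.mpr h8)⟩, fun h => ⟨h4, fun h8 => h.2 (h7.mp h8)⟩⟩
    rw [hB] at h6
    rcases mem_tri.mp h6 with h7 | h7 | ⟨k, hk, h7⟩
    · exact hcon (mem_tri.mpr (Or.inl h7))
    · rw [h7] at h4
      exact hsb h4
    · rw [h7] at h4 h5
      exact hout k (by omega) ⟨hAJ h4, hAJ h5⟩
  rcases conn_of_cyc hD hT hA Set.sdiff_subset hsub with h | h
  · exact Set.sdiff_eq_empty.mp h
  · -- the inner face of `c 0 c 1` is in both
    exfalso
    have hin : ∀ (t : ℕ) (E : Set ι), 0 < t → t < m → E ⊆ J →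
        cut M l r E = seg (tri v c t) 0 (t + 2) →
        (l s(c 0, c 1) ∈ J ↔ l s(c 0, c 1) ∈ E) ∧ (r s(c 0, c 1) ∈ J ↔ r s(c 0, c 1) ∈ E) := by
      intro t E ht htm hEJ hE
      have h1 : s(c 0, c 1) ∈ cut M l r E := by
        rw [hE]
        exact mem_tri.mpr (Or.inr (Or.inr ⟨0, ht, rfl⟩))
      have h2 : s(c 0, c 1) ∈ cut M l r J := by
        rw [hJ]
        exact ⟨0, le_rfl, by omega, rfl⟩
      have h3 := h1.2
      have h4 := h2.2
      have h5 := @hEJ (l s(c 0, c 1))
      have h6 := @hEJ (r s(c 0, c 1))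
      tauto
    have hA1 := hin a A ha (by omega) hAJ hA
    have hB1 := hin b B (by omega) hb hBJ hB
    have h2 : s(c 0, c 1) ∈ cut M l r J := by
      rw [hJ]
      exact ⟨0, le_rfl, by omega, rfl⟩
    have h4 := h2.2
    have h5 : l s(c 0, c 1) ∈ A → l s(c 0, c 1) ∉ B := by
      intro h6
      rw [← h] at h6
      exact h6.2
    have h7 : r s(c 0, c 1) ∈ A → r s(c 0, c 1) ∉ B := by
      intro h6
      rw [← h] at h6
      exact h6.2
    tauto

/-- Step D: the chain of sides, indexed by the marked numbers. -/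
theorem exists_chain [Finite V] {M : SimpleGraph V} {l r : Sym2 V → ι} (hD : IsDual M l r)
    {v : V} {m : ℕ} {c : ℕ → V} (hc : IsCyc M m c) (hv : ∀ i, c i ≠ v)
    (hN : ∀ u, M.Adj v u → ∃ i < m, c i = u) (h0 : M.Adj v (c 0)) :
    ∃ E : ℕ → Set ι, (∀ a b, a ≤ b → (M.Adj v (c a)) → (M.Adj v (c b)) → b ≤ m → E a ⊆ E b) ∧
      (∀ n, 0 < n → n < m → M.Adj v (c n) → ∀ k, k < m → M.Adj v (c k) →
        (s(v, c k) ∈ cut M l r (E n) ↔ k = 0 ∨ k = n)) ∧
      (∀ k, s(v, c k) ∉ cut M l r (E 0)) ∧ (∀ k, s(v, c k) ∉ cut M l r (E m)) := by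
  obtain ⟨J, hJ, hsp⟩ := exists_side hD hc hv hN h0
  have hB : ∀ t, ∃ E : Set ι, 0 < t → t < m → M.Adj v (c t) →
      E ⊆ J ∧ cut M l r E = seg (tri v c t) 0 (t + 2) := by
    intro t
    by_cases h : 0 < t ∧ t < m ∧ M.Adj v (c t)
    · obtain ⟨E, hE⟩ := exists_tri_side hD hc hv h0 hJ hsp h.1 h.2.1 h.2.2
      exact ⟨E, fun _ _ _ => hE⟩
    · exact ⟨∅, fun h1 h2 h3 => absurd ⟨h1, h2, h3⟩ h⟩
  choose E hE using hB
  have hm : m ≠ 0 := by
    have := hc.len
    omega
  refine ⟨fun n => if n = 0 then ∅ else if n = m then J else E n, ?_, ?_, ?_, ?_⟩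
  · intro a b hab ha hb hbm
    dsimp only
    rcases Nat.eq_zero_or_pos a with rfl | ha0
    · rw [if_pos rfl]
      exact Set.empty_subset _
    rw [if_neg (by omega : ¬ a = 0), if_neg (by omega : ¬ b = 0)]
    by_cases hbm' : b = m
    · rw [if_pos hbm']
      by_cases ham : a = m
      · rw [if_pos ham]
      · rw [if_neg ham]
        exact (hE a ha0 (by omega) ha).1
    · rw [if_neg hbm', if_neg (by omega : ¬ a = m)]
      rcases Nat.lt_or_ge a b with h | h
      · have h1 := hE a ha0 (by omega) ha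
        have h2 := hE b (by omega) (by omega) hb
        exact tri_side_mono hD hc hv h0 hJ ha0 h (by omega) ha h1.1 h2.1 h1.2 h2.2
      · have h1 : a = b := by omega
        rw [h1]
  · intro n hn hnm hvn k hk hvk
    dsimp only
    rw [if_neg (by omega : ¬ n = 0), if_neg (by omega : ¬ n = m), (hE n hn hnm hvn).2]
    exact spoke_mem_tri hc hv hnm hk
  · intro k
    dsimp only
    rw [if_pos rfl]
    rintro ⟨-, h⟩
    exact h ⟨fun h => absurd h (Set.notMem_empty _), fun h => absurd h (Set.notMem_empty _)⟩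
  · intro k
    dsimp only
    rw [if_neg hm, if_pos rfl, hJ]
    exact spoke_not_seg hv (Sym2.mem_mk_left _ _)

/-- The sets `D` between consecutive marked numbers. -/
theorem spoke_mem_diff [Finite V] {M : SimpleGraph V} {l r : Sym2 V → ι}
    {v : V} {m : ℕ} {c : ℕ → V} (hc : IsCyc M m c)
    (h0 : M.Adj v (c 0))
    (h2 : ∃ i, 0 < i ∧ i < m ∧ M.Adj v (c i)) {E : ℕ → Set ι}
    (hmono : ∀ a b, a ≤ b → (M.Adj v (c a)) → (M.Adj v (c b)) → b ≤ m → E a ⊆ E b)
    (hcut : ∀ n, 0 < n → n < m → M.Adj v (c n) → ∀ k, k < m → M.Adj v (c k) →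
        (s(v, c k) ∈ cut M l r (E n) ↔ k = 0 ∨ k = n))
    (hE0 : ∀ k, s(v, c k) ∉ cut M l r (E 0)) (hEm : ∀ k, s(v, c k) ∉ cut M l r (E m))
    {i j : ℕ} (hij : i < j) (hjm : j ≤ m) (hvi : M.Adj v (c i)) (hvj : M.Adj v (c j))
    (hcons : ∀ k, i < k → k < j → ¬ M.Adj v (c k)) {k : ℕ} (hk : k < m) (hvk : M.Adj v (c k)) :
    s(v, c k) ∈ cut M l r (E j \ E i) ↔ k = i ∨ c k = c j := by
  have hd : E j \ E i = symmDiff (E j) (E i) := by
    have h1 := hmono i j hij.le hvi hvj hjm
    ext x
    constructor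
    · intro h
      exact Or.inl h
    · rintro (h | h)
      · exact h
      · exact absurd (h1 h.1) h.2
  rw [hd, cut_symmDiff, Set.mem_symmDiff]
  have hinj : ∀ a b : ℕ, a < m → b < m → c a = c b → a = b := fun a b ha hb => hc.inj a b ha hb
  rcases Nat.eq_zero_or_pos i with rfl | hi
  · have hjm' : j < m := by
      rcases Nat.lt_or_ge j m with h | h
      · exact h
      · obtain ⟨t, ht, htm, hvt⟩ := h2
        exact absurd hvt (hcons t ht (by omega))
    have h3 := hcut j hij hjm' hvj k hk hvk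
    have h4 := hE0 k
    have h5 : c k = c j ↔ k = j := ⟨fun h => hinj k j hk hjm' h, fun h => by rw [h]⟩
    rw [h3, h5]
    constructor
    · rintro (h | h)
      · exact h.1
      · exact absurd h.1 h4
    · intro h
      exact Or.inl ⟨h, h4⟩
  · rcases Nat.lt_or_ge j m with hjm' | hjm'
    · have h3 := hcut j (by omega) hjm' hvj k hk hvk
      have h4 := hcut i hi (by omega) hvi k hk hvk
      have h5 : c k = c j ↔ k = j := ⟨fun h => hinj k j hk hjm' h, fun h => by rw [h]⟩
      rw [h3, h4, h5]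
      constructor
      · rintro (⟨h, h'⟩ | ⟨h, h'⟩)
        · omega
        · omega
      · rintro (h | h)
        · right
          omega
        · left
          omega
    · have hjm'' : j = m := by omega
      have h4 := hcut i hi (by omega) hvi k hk hvk
      have h5 : c k = c j ↔ k = 0 := by
        rw [hjm'', hc.close]
        exact ⟨fun h => hinj k 0 hk (by omega) h, fun h => by rw [h]⟩
      rw [h4, h5, hjm'']
      have h6 := hEm k
      constructor
      · rintro (⟨h, h'⟩ | ⟨h, h'⟩)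
        · exact absurd h h6
        · omega
      · intro h
        right
        exact ⟨by omega, h6⟩

/-- every marked number below `m` has a next marked number. -/
theorem exists_next {P : ℕ → Prop} {m i : ℕ} (hi : i < m) (hm : P m) :
    ∃ j, i < j ∧ j ≤ m ∧ P j ∧ ∀ k, i < k → k < j → ¬ P k := by
  have hex : ∃ j, i < j ∧ P j := ⟨m, hi, hm⟩
  refine ⟨Nat.find hex, (Nat.find_spec hex).1, Nat.find_min' hex ⟨hi, hm⟩,
    (Nat.find_spec hex).2, ?_⟩
  intro k hk hk2 hPk
  exact Nat.find_min hex hk2 ⟨hk, hPk⟩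

theorem pair_eq {α : Type} {a b x y : α} (hxy : x ≠ y) (hx : x = a ∨ x = b) (hy : y = a ∨ y = b) :
    s(a, b) = s(x, y) := by
  rcases hx with rfl | rfl <;> rcases hy with rfl | rfl
  · exact absurd rfl hxy
  · rfl
  · exact Sym2.eq_swap
  · exact absurd rfl hxy

end GRotAux

open GRotAux in
theorem rotation {V ι : Type} [Finite V] (M : SimpleGraph V) (l r : Sym2 V → ι)
    (hD : IsDual M l r) (v : V) (m : ℕ) (c : ℕ → V) (hc : IsCyc M m c) (hv : ∀ i, c i ≠ v)
    (hN : ∀ u, M.Adj v u → ∃ i < m, c i = u) (h0 : M.Adj v (c 0))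
    (h2 : ∃ i, 0 < i ∧ i < m ∧ M.Adj v (c i)) :
    ∃ f : ℕ → ι,
      (∀ i j, i < m → j < m → M.Adj v (c i) → M.Adj v (c j) → f i = f j → i = j) ∧
      (∀ i j, i < j → j < m → M.Adj v (c i) → M.Adj v (c j) →
        (∀ k, i < k → k < j → ¬ M.Adj v (c k)) →
        s(l s(v, c j), r s(v, c j)) = s(f i, f j)) ∧
      (∀ i, i < m → M.Adj v (c i) → (∀ k, i < k → k < m → ¬ M.Adj v (c k)) →
        s(l s(v, c 0), r s(v, c 0)) = s(f i, f 0)) := by
  obtain ⟨E, hmono, hcut, hE0, hEm⟩ := exists_chain hD hc hv hN h0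
  have hvm : M.Adj v (c m) := by
    rw [hc.close]
    exact h0
  -- the next marked number
  have hnx : ∀ i, ∃ j, i < m → i < j ∧ j ≤ m ∧ M.Adj v (c j) ∧
      ∀ k, i < k → k < j → ¬ M.Adj v (c k) := by
    intro i
    by_cases hi : i < m
    · obtain ⟨j, hj⟩ := exists_next (P := fun j => M.Adj v (c j)) hi hvm
      exact ⟨j, fun _ => hj⟩
    · exact ⟨0, fun h => absurd h hi⟩
  choose nx hnx using hnx
  have hmem : ∀ i, i < m → M.Adj v (c i) → ∀ k, k < m → M.Adj v (c k) →
      (s(v, c k) ∈ cut M l r (E (nx i) \ E i) ↔ k = i ∨ c k = c (nx i)) := by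
    intro i hi hvi k hk hvk
    obtain ⟨h3, h4, h5, h6⟩ := hnx i hi
    exact spoke_mem_diff hc h0 h2 hmono hcut hE0 hEm h3 h4 hvi h5 h6 hk hvk
  -- disjointness
  have hdisj : ∀ i j, i < j → j < m → M.Adj v (c i) → M.Adj v (c j) →
      ∀ x, x ∈ E (nx i) \ E i → x ∉ E (nx j) \ E j := by
    intro i j hij hj hvi hvj x hx hx2
    obtain ⟨h3, h4, h5, h6⟩ := hnx i (by omega)
    have h7 : nx i ≤ j := by
      by_contra h8
      exact h6 j hij (by omega) hvj
    exact hx2.2 (hmono (nx i) j h7 h5 hvj hj.le hx.1)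
  have hdisj' : ∀ i j, i < m → j < m → M.Adj v (c i) → M.Adj v (c j) →
      ∀ x, x ∈ E (nx i) \ E i → x ∈ E (nx j) \ E j → i = j := by
    intro i j hi hj hvi hvj x hx hx2
    rcases Nat.lt_trichotomy i j with h | h | h
    · exact absurd hx2 (hdisj i j h hj hvi hvj x hx)
    · exact h
    · exact absurd hx (hdisj j i h hi hvj hvi x hx2)
  -- the face
  have hf : ∀ i, ∃ y : ι, i < m → M.Adj v (c i) → y ∈ E (nx i) \ E i ∧
      (y = l s(v, c i) ∨ y = r s(v, c i)) ∧
      (y = l s(v, c (nx i)) ∨ y = r s(v, c (nx i))) := by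
    intro i
    by_cases hi : i < m ∧ M.Adj v (c i)
    · obtain ⟨hi, hvi⟩ := hi
      obtain ⟨h3, h4, h5, h6⟩ := hnx i hi
      have h7 : s(v, c i) ∈ cut M l r (E (nx i) \ E i) := (hmem i hi hvi i hi hvi).mpr (Or.inl rfl)
      -- the face `y` of the spoke in the set, and the other face
      have h8 : ∃ y, y ∈ E (nx i) \ E i ∧ (y = l s(v, c i) ∨ y = r s(v, c i)) ∧
          ¬ (l s(v, c i) = y ↔ r s(v, c i) = y) := by
        by_cases h9 : l s(v, c i) ∈ E (nx i) \ E i
        · refine ⟨_, h9, Or.inl rfl, ?_⟩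
          intro h10
          have h11 := h10.mp rfl
          apply h7.2
          rw [h11]
        · have h10 : r s(v, c i) ∈ E (nx i) \ E i := by
            by_contra h11
            exact h7.2 ⟨fun h => absurd h h9, fun h => absurd h h11⟩
          refine ⟨_, h10, Or.inr rfl, ?_⟩
          intro h12
          have h11 := h12.mpr rfl
          apply h7.2
          rw [h11]
      obtain ⟨y, hy1, hy2, hy3⟩ := h8
      refine ⟨y, fun _ _ => ⟨hy1, hy2, ?_⟩⟩
      have hev := hD.even {y} v
      have hb := mem_of_even (a := s(v, c i)) (b := s(v, c (nx i))) hev ?_ ?_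
      · have h9 := hb.1.2
        by_contra h10
        apply h9
        constructor
        · intro h11
          exact absurd (Or.inl (Set.mem_singleton_iff.mp h11).symm) h10
        · intro h11
          exact absurd (Or.inr (Set.mem_singleton_iff.mp h11).symm) h10
      · rintro e ⟨⟨he, he2⟩, hve⟩
        obtain ⟨u, rfl⟩ := Sym2.mem_iff_exists.mp hve
        obtain ⟨k, hk, rfl⟩ := hN u he
        have hvk : M.Adj v (c k) := he
        -- `y` is a face of the spoke
        have h9 : y = l s(v, c k) ∨ y = r s(v, c k) := by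
          by_contra h10
          apply he2
          constructor
          · intro h11
            exact absurd (Or.inl (Set.mem_singleton_iff.mp h11).symm) h10
          · intro h11
            exact absurd (Or.inr (Set.mem_singleton_iff.mp h11).symm) h10
        by_cases h10 : s(v, c k) ∈ cut M l r (E (nx i) \ E i)
        · rcases (hmem i hi hvi k hk hvk).mp h10 with h11 | h11
          · left
            rw [h11]
          · right
            rw [h11]
            rfl
        · -- both faces in `D i`, and one face in `D k`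
          have h11 : l s(v, c k) ∈ E (nx i) \ E i ∧ r s(v, c k) ∈ E (nx i) \ E i := by
            have h12 : l s(v, c k) ∈ E (nx i) \ E i ↔ r s(v, c k) ∈ E (nx i) \ E i := by
              by_contra h13
              exact h10 ⟨he, h13⟩
            rcases h9 with h9 | h9
            · rw [h9] at hy1
              exact ⟨hy1, h12.mp hy1⟩
            · rw [h9] at hy1
              exact ⟨h12.mpr hy1, hy1⟩
          have h13 : s(v, c k) ∈ cut M l r (E (nx k) \ E k) :=
            (hmem k hk hvk k hk hvk).mpr (Or.inl rfl)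
          have h14 : k = i := by
            by_contra hne
            apply h13.2
            constructor
            · intro h15
              exact absurd (hdisj' k i hk hi hvk hvi _ h15 h11.1) hne
            · intro h15
              exact absurd (hdisj' k i hk hi hvk hvi _ h15 h11.2) hne
          left
          rw [h14]
      · exact ⟨⟨hvi, by
          intro h9
          apply hy3
          exact ⟨fun h => Set.mem_singleton_iff.mp (h9.mp (Set.mem_singleton_iff.mpr h)),
            fun h => Set.mem_singleton_iff.mp (h9.mpr (Set.mem_singleton_iff.mpr h))⟩⟩,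
          Sym2.mem_mk_left _ _⟩
    · exact ⟨l s(v, v), fun h1 h2 => absurd ⟨h1, h2⟩ hi⟩
  choose f hf using hf
  have hfinj : ∀ i j, i < m → j < m → M.Adj v (c i) → M.Adj v (c j) → f i = f j → i = j := by
    intro i j hi hj hvi hvj hij
    have h3 := (hf i hi hvi).1
    have h4 := (hf j hj hvj).1
    rw [hij] at h3
    exact hdisj' i j hi hj hvi hvj _ h3 h4
  refine ⟨f, hfinj, ?_, ?_⟩
  · intro i j hij hj hvi hvj hcons
    have hi : i < m := by omega
    have hnxi : nx i = j := by
      obtain ⟨h3, h4, h5, h6⟩ := hnx i hi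
      rcases Nat.lt_trichotomy (nx i) j with h | h | h
      · exact absurd h5 (hcons _ h3 h)
      · exact h
      · exact absurd hvj (h6 j hij h)
    have h3 := (hf i hi hvi).2.2
    rw [hnxi] at h3
    apply pair_eq ?_ h3 (hf j hj hvj).2.1
    intro h4
    have := hfinj i j hi hj hvi hvj h4
    omega
  · intro i hi hvi hcons
    have hnxi : nx i = m := by
      obtain ⟨h3, h4, h5, h6⟩ := hnx i hi
      rcases Nat.lt_or_ge (nx i) m with h | h
      · exact absurd h5 (hcons _ h3 h)
      · omega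
    have h3 := (hf i hi hvi).2.2
    rw [hnxi, hc.close] at h3
    apply pair_eq ?_ h3 (hf 0 (by omega) h0).2.1
    intro h4
    have h5 := hfinj i 0 hi (by omega) hvi h0 h4
    obtain ⟨t, ht, htm, hvt⟩ := h2
    exact hcons t (by omega) htm hvt

end Pool.Agent.MP9d6bd1
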