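import Mathlib
import Pool.Agent.Lib.MP_9d6bd1_lc.GDefs
import Pool.Agent.Lib.MP_9d6bd1_lc.GDualMono
import Pool.Agent.Lib.MP_9d6bd1_lc.GRot

/-!
# MP_9d6bd1_lc, G11: uncontraction of a dual
-/

set_option autoImplicit false
set_option linter.unusedSectionVars false
set_option linter.unusedSimpArgs false

open Classical

namespace Pool.Agent.MP9d6bd1

namespace GUncontrAux

/-- indicator with values in `ZMod 2` -/
noncomputable def ind (p : Prop) : ZMod 2 := if p then 1 else 0

lemma ind_pos {p : Prop} (h : p) : ind p = 1 := by simp [ind, h]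

lemma ind_neg {p : Prop} (h : ¬ p) : ind p = 0 := by simp [ind, h]

lemma zcases (a : ZMod 2) : a = 0 ∨ a = 1 := by revert a; decide

lemma zadd (a : ZMod 2) : a + a = 0 := by revert a; decide

lemma ind_eq_one {p : Prop} : ind p = 1 ↔ p := by
  by_cases h : p
  · simp [ind, h]
  · simp [ind, h]

lemma ind_eq_zero {p : Prop} : ind p = 0 ↔ ¬ p := by
  by_cases h : p
  · simp [ind, h]
  · simp [ind, h]

lemma ind_one (a : ZMod 2) : ind (a = 1) = a := by
  rcases zcases a with h | h
  · subst h; exact ind_neg (by decide)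
  · subst h; exact ind_pos rfl

lemma zeq_of_add {a b : ZMod 2} (h : a + b = 0) : a = b := by revert a b; decide

lemma card_parity {V : Type} [Fintype V] (S : Set V) : (S.ncard : ZMod 2) = ∑ u, ind (u ∈ S) := by
  rw [Set.ncard_eq_toFinset_card']
  simp only [ind]
  rw [Finset.sum_ite, Finset.sum_const_zero, add_zero, Finset.sum_const, nsmul_eq_mul, mul_one]
  congr 2
  ext u
  simp

lemma evenSet_iff {V : Type} [Fintype V] (Z : Set (Sym2 V)) :
    EvenSet Z ↔ ∀ v, ∑ u, ind (s(v, u) ∈ Z) = 0 := by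
  unfold EvenSet
  refine forall_congr' fun v => ?_
  have h1 : {e | e ∈ Z ∧ v ∈ e} = (fun u => s(v, u)) '' {u | s(v, u) ∈ Z} := by
    ext e
    constructor
    · rintro ⟨h1, h2⟩
      obtain ⟨u, rfl⟩ := h2
      exact ⟨u, h1, rfl⟩
    · rintro ⟨u, hu, rfl⟩
      exact ⟨hu, Sym2.mem_mk_left _ _⟩
  rw [h1, Set.ncard_image_of_injective _ (fun a b h => Sym2.congr_right.1 h),
    ← ZMod.natCast_eq_zero_iff_even, card_parity]
  rfl

/-- duals in terms of functions with values in `ZMod 2` -/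
structure IsD {V ι : Type} [Fintype V] (G : SimpleGraph V) (l r : Sym2 V → ι) : Prop where
  even : ∀ (g : ι → ZMod 2) (v : V),
    ∑ u, ind (G.Adj v u) * (g (l s(v, u)) + g (r s(v, u))) = 0
  exist : ∀ z : Sym2 V → ZMod 2, (∀ e, e ∉ G.edgeSet → z e = 0) →
    (∀ v, ∑ u, z s(v, u) = 0) → ∃ g : ι → ZMod 2, ∀ e ∈ G.edgeSet, g (l e) + g (r e) = z e
  conn : ∀ g : ι → ZMod 2, (∀ e ∈ G.edgeSet, g (l e) + g (r e) = 0) →
    (∀ j, g j = 0) ∨ (∀ j, g j = 1)

lemma ind_cut {V ι : Type} (G : SimpleGraph V) (l r : Sym2 V → ι) (J : Set ι) (e : Sym2 V) :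
    ind (e ∈ cut G l r J) = ind (e ∈ G.edgeSet) * (ind (l e ∈ J) + ind (r e ∈ J)) := by
  by_cases h1 : e ∈ G.edgeSet
  · by_cases h2 : l e ∈ J
    · by_cases h3 : r e ∈ J
      · have h : ¬ (e ∈ cut G l r J) := by
          rintro ⟨_, h⟩
          exact h (by tauto)
        rw [ind_neg h, ind_pos h1, ind_pos h2, ind_pos h3]
        decide
      · have h : e ∈ cut G l r J := ⟨h1, by tauto⟩
        rw [ind_pos h, ind_pos h1, ind_pos h2, ind_neg h3]
        decide
    · by_cases h3 : r e ∈ J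
      · have h : e ∈ cut G l r J := ⟨h1, by tauto⟩
        rw [ind_pos h, ind_pos h1, ind_neg h2, ind_pos h3]
        decide
      · have h : ¬ (e ∈ cut G l r J) := by
          rintro ⟨_, h⟩
          exact h (by tauto)
        rw [ind_neg h, ind_pos h1, ind_neg h2, ind_neg h3]
        decide
  · have h : ¬ (e ∈ cut G l r J) := fun h => h1 h.1
    rw [ind_neg h, ind_neg h1, zero_mul]

lemma isD_of {V ι : Type} [Fintype V] {G : SimpleGraph V} {l r : Sym2 V → ι}
    (h : IsDual G l r) : IsD G l r := by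
  constructor
  · intro g v
    have h1 := (evenSet_iff _).1 (h.even {j | g j = 1}) v
    rw [← h1]
    refine Finset.sum_congr rfl fun u _ => ?_
    rw [ind_cut]
    simp only [SimpleGraph.mem_edgeSet, Set.mem_ofPred_eq, ind_one]
  · intro z hz he
    obtain ⟨J, hJ⟩ := h.exist {e | z e = 1} (by
      intro e h1
      by_contra h2
      have h3 := hz e h2
      simp only [Set.mem_ofPred_eq] at h1
      rw [h3] at h1
      exact absurd h1 (by decide)) (by
      rw [evenSet_iff]
      intro v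
      rw [← he v]
      refine Finset.sum_congr rfl fun u _ => ?_
      simp only [Set.mem_ofPred_eq, ind_one])
    refine ⟨fun j => ind (j ∈ J), fun e he => ?_⟩
    have h1 := ind_cut G l r J e
    rw [hJ, ind_pos he, one_mul] at h1
    simp only [Set.mem_ofPred_eq, ind_one] at h1
    exact h1.symm
  · intro g hg
    have h1 : cut G l r {j | g j = 1} = ∅ := by
      rw [Set.eq_empty_iff_forall_notMem]
      intro e he
      have h2 := ind_cut G l r {j | g j = 1} e
      rw [ind_pos he, ind_pos he.1, one_mul] at h2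
      simp only [Set.mem_ofPred_eq, ind_one] at h2
      rw [hg e he.1] at h2
      exact absurd h2 (by decide)
    rcases h.conn _ h1 with h2 | h2
    · left
      intro j
      rcases zcases (g j) with h3 | h3
      · exact h3
      · exfalso
        have : j ∈ {j | g j = 1} := h3
        rw [h2] at this
        exact this
    · right
      intro j
      have : j ∈ {j | g j = 1} := by rw [h2]; trivial
      exact this

lemma isDual_of {V ι : Type} [Fintype V] {G : SimpleGraph V} {l r : Sym2 V → ι}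
    (h : IsD G l r) : IsDual G l r := by
  constructor
  · intro J
    rw [evenSet_iff]
    intro v
    rw [← h.even (fun j => ind (j ∈ J)) v]
    refine Finset.sum_congr rfl fun u _ => ?_
    rw [ind_cut]
    simp only [SimpleGraph.mem_edgeSet]
  · intro Z hZ he
    obtain ⟨g, hg⟩ := h.exist (fun e => ind (e ∈ Z)) (fun e h1 => ind_neg fun h2 => h1 (hZ h2))
      ((evenSet_iff _).1 he)
    refine ⟨{j | g j = 1}, ?_⟩
    ext e
    refine Iff.trans (ind_eq_one (p := e ∈ cut G l r {j | g j = 1})).symm ?_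
    rw [ind_cut]
    simp only [Set.mem_ofPred_eq, ind_one]
    by_cases h1 : e ∈ G.edgeSet
    · rw [ind_pos h1, one_mul, hg e h1, ind_eq_one]
    · rw [ind_neg h1, zero_mul]
      constructor
      · intro h2
        exact absurd h2 (by decide)
      · intro h2
        exact absurd (hZ h2) h1
  · intro J hJ
    rcases h.conn (fun j => ind (j ∈ J)) (fun e he => by
      have h1 := ind_cut G l r J e
      rw [hJ, ind_pos he, one_mul, ind_neg (Set.notMem_empty e)] at h1
      exact h1.symm) with h2 | h2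
    · left
      rw [Set.eq_empty_iff_forall_notMem]
      intro j
      exact ind_eq_zero.1 (h2 j)
    · right
      rw [Set.eq_univ_iff_forall]
      intro j
      exact ind_eq_one.1 (h2 j)

/-- the sum over the edges at a vertex whose neighbours are `w` and vertices on an arc -/
lemma arc_sum {V : Type} [Fintype V] (N : V → Prop) (E : V → ZMod 2) (w : V) (q : ℕ) (hq : 0 < q)
    (d : ℕ → V) (hd : ∀ i j, i ≤ q → j ≤ q → d i = d j → i = j) (hdw : ∀ i, d i ≠ w)
    (hN : ∀ u, N u → u = w ∨ ∃ i, i ≤ q ∧ d i = u) (hw : N w) (h0 : N (d 0)) (hq' : N (d q))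
    (χ : ℕ → ZMod 2) (A B : ZMod 2) (hEw : E w = A + B) (hE0 : E (d 0) = A + χ 0)
    (hEq : E (d q) = χ (q - 1) + B)
    (hE : ∀ i, 0 < i → i < q → N (d i) → E (d i) = χ (i - 1) + χ i)
    (hχ : ∀ i, 0 < i → i < q → ¬ N (d i) → χ (i - 1) = χ i) :
    ∑ u, ind (N u) * E u = 0 := by
  have h1 : ∑ u, ind (N u) * E u =
      ∑ u ∈ insert w (Finset.image d (Finset.range (q + 1))), ind (N u) * E u := by
    symm
    apply Finset.sum_subset (Finset.subset_univ _)
    intro u _ hu
    have h2 : ¬ N u := by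
      intro h3
      apply hu
      rcases hN u h3 with h4 | ⟨i, hi, h4⟩
      · rw [h4]; exact Finset.mem_insert_self _ _
      · rw [← h4]
        exact Finset.mem_insert_of_mem (Finset.mem_image_of_mem _ (Finset.mem_range.2 (by omega)))
    rw [ind_neg h2, zero_mul]
  rw [h1, Finset.sum_insert (by
    intro h2
    obtain ⟨i, _, h3⟩ := Finset.mem_image.1 h2
    exact hdw i h3), Finset.sum_image (by
    intro i hi j hj h2
    have hi' := Finset.mem_range.1 (Finset.mem_coe.1 hi)
    have hj' := Finset.mem_range.1 (Finset.mem_coe.1 hj)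
    exact hd i j (by omega) (by omega) h2)]
  have h2 : ∀ n, n < q → ∑ i ∈ Finset.range (n + 1), ind (N (d i)) * E (d i) = A + χ n := by
    intro n
    induction n with
    | zero =>
      intro _
      rw [Finset.sum_range_one, ind_pos h0, one_mul, hE0]
    | succ n ih =>
      intro hn
      rw [Finset.sum_range_succ, ih (by omega)]
      by_cases h3 : N (d (n + 1))
      · rw [ind_pos h3, one_mul, hE (n + 1) (by omega) hn h3, Nat.add_sub_cancel]
        linear_combination zadd (χ n)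
      · rw [ind_neg h3, zero_mul, add_zero]
        have h4 := hχ (n + 1) (by omega) hn h3
        rw [Nat.add_sub_cancel] at h4
        rw [h4]
  rw [Finset.sum_range_succ]
  obtain ⟨q', rfl⟩ : ∃ q', q = q' + 1 := ⟨q - 1, by omega⟩
  rw [h2 q' (by omega), ind_pos hw, ind_pos hq', one_mul, one_mul, hEw, hEq, Nat.add_sub_cancel]
  linear_combination zadd A + zadd B + zadd (χ q')

lemma sum_split {V : Type} [Fintype V] (x y : V) (hxy : x ≠ y) (h : V → ZMod 2) :
    ∑ u, h u = h x + h y + ∑ u ∈ (Finset.univ.erase x).erase y, h u := by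
  rw [← Finset.add_sum_erase _ _ (Finset.mem_univ x),
    ← Finset.add_sum_erase _ _ (Finset.mem_erase.2 ⟨hxy.symm, Finset.mem_univ y⟩)]
  ring

section core

variable {V : Type} (G : SimpleGraph V) (x y : V) (hxy : G.Adj x y)

/-- the contraction map -/
noncomputable def phi (x y : V) : V → V := fun t => if t = y then x else t

lemma phi_y : phi x y y = x := by simp [phi]

lemma phi_ne {t : V} (h : t ≠ y) : phi x y t = t := by simp [phi, h]

include hxy in
lemma phi_ne_y (t : V) : phi x y t ≠ y := by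
  by_cases h : t = y
  · rw [h, phi_y]
    exact hxy.ne
  · rw [phi_ne x y h]
    exact h

lemma contr_adj (u v : V) : (contr G x y).Adj u v ↔
    u ≠ v ∧ ∃ a b, G.Adj a b ∧ phi x y a = u ∧ phi x y b = v := Iff.rfl

include hxy in
lemma adj_y (u : V) : ¬ (contr G x y).Adj u y := by
  rintro ⟨_, a, b, _, _, h⟩
  exact phi_ne_y G x y hxy b h

lemma adj_rest {u v : V} (hux : u ≠ x) (huy : u ≠ y) (hvx : v ≠ x) (hvy : v ≠ y) :
    (contr G x y).Adj u v ↔ G.Adj u v := by
  rw [contr_adj]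
  constructor
  · rintro ⟨_, a, b, h, h1, h2⟩
    by_cases ha : a = y
    · rw [ha, phi_y] at h1
      exact absurd h1.symm hux
    · rw [phi_ne x y ha] at h1
      by_cases hb : b = y
      · rw [hb, phi_y] at h2
        exact absurd h2.symm hvx
      · rw [phi_ne x y hb] at h2
        rw [← h1, ← h2]
        exact h
  · intro h
    exact ⟨h.ne, u, v, h, phi_ne x y huy, phi_ne x y hvy⟩

include hxy in
lemma adj_x (u : V) : (contr G x y).Adj x u ↔ (u ≠ x ∧ u ≠ y ∧ (G.Adj x u ∨ G.Adj y u)) := by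
  constructor
  · intro h
    have h1 : u ≠ x := h.ne.symm
    have h2 : u ≠ y := fun h3 => adj_y G x y hxy x (h3 ▸ h)
    refine ⟨h1, h2, ?_⟩
    rw [contr_adj] at h
    obtain ⟨_, a, b, h3, h4, h5⟩ := h
    have hb : b ≠ y := fun h6 => by
      rw [h6, phi_y] at h5
      exact h1 h5.symm
    rw [phi_ne x y hb] at h5
    subst h5
    by_cases ha : a = y
    · right
      rw [← ha]
      exact h3
    · left
      rw [phi_ne x y ha] at h4
      rw [← h4]
      exact h3
  · rintro ⟨h1, h2, h3⟩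
    refine ⟨h1.symm, ?_⟩
    rcases h3 with h3 | h3
    · exact ⟨x, u, h3, phi_ne x y hxy.ne, phi_ne x y h2⟩
    · exact ⟨y, u, h3, phi_y x y, phi_ne x y h2⟩

end core

/-- the new faces -/
structure Setup {V ι : Type} [Fintype V] (G : SimpleGraph V) (x y : V) (l r : Sym2 V → ι) (m : ℕ)
    (c : ℕ → V) (p : ℕ) (F : ℕ → ι) : Prop where
  hxy : G.Adj x y
  hM : IsD (contr G x y) l r
  len : 3 ≤ m
  close : c m = c 0
  inj : ∀ i j, i < m → j < m → c i = c j → i = j
  cx : ∀ i, c i ≠ x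
  cy : ∀ i, c i ≠ y
  hNx : ∀ u, G.Adj x u → u = y ∨ ∃ i, i ≤ p ∧ c i = u
  hNy : ∀ u, G.Adj y u → u = x ∨ ∃ i, p ≤ i ∧ i ≤ m ∧ c i = u
  hp : 0 < p
  hpm : p < m
  hx0 : G.Adj x (c 0)
  hxp : G.Adj x (c p)
  hy0 : G.Adj y (c 0)
  hyp : G.Adj y (c p)
  F1 : ∀ (g : ι → ZMod 2) (n : ℕ), 0 < n → n < m → (contr G x y).Adj x (c n) →
    g (l s(x, c n)) + g (r s(x, c n)) = g (F (n - 1)) + g (F n)
  F2 : ∀ (n : ℕ), 0 < n → n < m → ¬ (contr G x y).Adj x (c n) → F (n - 1) = F n
  F3 : ∀ (g : ι → ZMod 2), g (l s(x, c 0)) + g (r s(x, c 0)) = g (F (m - 1)) + g (F 0)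

/-- first face -/
noncomputable def newl {V ι : Type} (x y : V) (l : Sym2 V → ι) (m : ℕ)
    (c : ℕ → V) (p : ℕ) (F : ℕ → ι) : Sym2 V → ι ⊕ Bool := fun e =>
  if e = s(x, y) then Sum.inr true else
  if e = s(x, c 0) then Sum.inr false else
  if e = s(y, c 0) then Sum.inl (F (m - 1)) else
  if e = s(x, c p) then Sum.inl (F (p - 1)) else
  if e = s(y, c p) then Sum.inr true else Sum.inl (l (e.map (phi x y)))

/-- second face -/
noncomputable def newr {V ι : Type} (x y : V) (r : Sym2 V → ι)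
    (c : ℕ → V) (p : ℕ) (F : ℕ → ι) : Sym2 V → ι ⊕ Bool := fun e =>
  if e = s(x, y) then Sum.inr false else
  if e = s(x, c 0) then Sum.inl (F 0) else
  if e = s(y, c 0) then Sum.inr false else
  if e = s(x, c p) then Sum.inr true else
  if e = s(y, c p) then Sum.inl (F p) else Sum.inl (r (e.map (phi x y)))

section setup

variable {V ι : Type} [Fintype V] {G : SimpleGraph V} {x y : V} {l r : Sym2 V → ι} {m : ℕ}
  {c : ℕ → V} {p : ℕ} {F : ℕ → ι} (h : Setup G x y l r m c p F)

/-- the value on an edge -/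
noncomputable def DD (x y : V) (l r : Sym2 V → ι) (m : ℕ)
    (c : ℕ → V) (p : ℕ) (F : ℕ → ι) (g : ι ⊕ Bool → ZMod 2) (e : Sym2 V) : ZMod 2 :=
  g (newl x y l m c p F e) + g (newr x y r c p F e)

include h

lemma Setup.c0p : c 0 ≠ c p := fun h1 => by
  have := h.inj 0 p (by have := h.hpm; omega) h.hpm h1
  have := h.hp
  omega

lemma D_xy (g : ι ⊕ Bool → ZMod 2) :
    DD x y l r m c p F g s(x, y) = g (Sum.inr true) + g (Sum.inr false) := by
  simp only [DD, newl, newr, if_true]

lemma D_x0 (g : ι ⊕ Bool → ZMod 2) :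
    DD x y l r m c p F g s(x, c 0) = g (Sum.inr false) + g (Sum.inl (F 0)) := by
  have h1 : s(x, c 0) ≠ s(x, y) := fun h1 => h.cy 0 (Sym2.congr_right.1 h1)
  simp only [DD, newl, newr, if_true, if_neg h1]

lemma D_y0 (g : ι ⊕ Bool → ZMod 2) :
    DD x y l r m c p F g s(y, c 0) = g (Sum.inl (F (m - 1))) + g (Sum.inr false) := by
  have h1 : s(y, c 0) ≠ s(x, y) := fun h1 => by
    rw [Sym2.eq_swap (a := x)] at h1
    exact h.cx 0 (Sym2.congr_right.1 h1)
  have h2 : s(y, c 0) ≠ s(x, c 0) := fun h1 => h.hxy.ne.symm (Sym2.congr_left.1 h1)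
  simp only [DD, newl, newr, if_true, if_neg h1, if_neg h2]

lemma D_xp (g : ι ⊕ Bool → ZMod 2) :
    DD x y l r m c p F g s(x, c p) = g (Sum.inl (F (p - 1))) + g (Sum.inr true) := by
  have h1 : s(x, c p) ≠ s(x, y) := fun h1 => h.cy p (Sym2.congr_right.1 h1)
  have h2 : s(x, c p) ≠ s(x, c 0) := fun h1 => h.c0p (Sym2.congr_right.1 h1).symm
  have h3 : s(x, c p) ≠ s(y, c 0) := fun h1 => by
    rcases Sym2.eq_iff.1 h1 with ⟨h4, _⟩ | ⟨h4, _⟩
    · exact h.hxy.ne h4
    · exact h.cx 0 h4.symm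
  simp only [DD, newl, newr, if_true, if_neg h1, if_neg h2, if_neg h3]

lemma D_yp (g : ι ⊕ Bool → ZMod 2) :
    DD x y l r m c p F g s(y, c p) = g (Sum.inr true) + g (Sum.inl (F p)) := by
  have h1 : s(y, c p) ≠ s(x, y) := fun h1 => by
    rw [Sym2.eq_swap (a := x)] at h1
    exact h.cx p (Sym2.congr_right.1 h1)
  have h2 : s(y, c p) ≠ s(x, c 0) := fun h1 => by
    rcases Sym2.eq_iff.1 h1 with ⟨h4, _⟩ | ⟨h4, _⟩
    · exact h.hxy.ne h4.symm
    · exact h.cy 0 h4.symm
  have h3 : s(y, c p) ≠ s(y, c 0) := fun h1 => h.c0p (Sym2.congr_right.1 h1).symm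
  have h4 : s(y, c p) ≠ s(x, c p) := fun h1 => h.hxy.ne.symm (Sym2.congr_left.1 h1)
  simp only [DD, newl, newr, if_true, if_neg h1, if_neg h2, if_neg h3, if_neg h4]

lemma D_rest (g : ι ⊕ Bool → ZMod 2) (u v : V) (hux : u ≠ x) (huy : u ≠ y) (hvx : v ≠ x)
    (hvy : v ≠ y) :
    DD x y l r m c p F g s(u, v) = g (Sum.inl (l s(u, v))) + g (Sum.inl (r s(u, v))) := by
  have hx : ∀ t, s(u, v) ≠ s(x, t) := fun t h1 => by
    rcases Sym2.eq_iff.1 h1 with ⟨h4, _⟩ | ⟨_, h4⟩
    · exact hux h4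
    · exact hvx h4
  have hy : ∀ t, s(u, v) ≠ s(y, t) := fun t h1 => by
    rcases Sym2.eq_iff.1 h1 with ⟨h4, _⟩ | ⟨_, h4⟩
    · exact huy h4
    · exact hvy h4
  simp only [DD, newl, newr, if_neg (hx _), if_neg (hy _), Sym2.map_mk, Prod.map_apply,
    phi_ne x y huy, phi_ne x y hvy]

lemma D_x (g : ι ⊕ Bool → ZMod 2) (v : V) (hvy : v ≠ y) (h0 : v ≠ c 0)
    (hp : v ≠ c p) :
    DD x y l r m c p F g s(x, v) = g (Sum.inl (l s(x, v))) + g (Sum.inl (r s(x, v))) := by
  have h1 : s(x, v) ≠ s(x, y) := fun h1 => hvy (Sym2.congr_right.1 h1)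
  have h2 : s(x, v) ≠ s(x, c 0) := fun h1 => h0 (Sym2.congr_right.1 h1)
  have h3 : s(x, v) ≠ s(y, c 0) := fun h1 => by
    rcases Sym2.eq_iff.1 h1 with ⟨h4, _⟩ | ⟨h4, _⟩
    · exact h.hxy.ne h4
    · exact h.cx 0 h4.symm
  have h4 : s(x, v) ≠ s(x, c p) := fun h1 => hp (Sym2.congr_right.1 h1)
  have h5 : s(x, v) ≠ s(y, c p) := fun h1 => by
    rcases Sym2.eq_iff.1 h1 with ⟨h4, _⟩ | ⟨h4, _⟩
    · exact h.hxy.ne h4
    · exact h.cx p h4.symm
  simp only [DD, newl, newr, if_neg h1, if_neg h2, if_neg h3, if_neg h4, if_neg h5, Sym2.map_mk,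
    Prod.map_apply, phi_ne x y h.hxy.ne, phi_ne x y hvy]

lemma D_y (g : ι ⊕ Bool → ZMod 2) (v : V) (hvx : v ≠ x) (hvy : v ≠ y) (h0 : v ≠ c 0)
    (hp : v ≠ c p) :
    DD x y l r m c p F g s(y, v) = g (Sum.inl (l s(x, v))) + g (Sum.inl (r s(x, v))) := by
  have h1 : s(y, v) ≠ s(x, y) := fun h1 => by
    rw [Sym2.eq_swap (a := x)] at h1
    exact hvx (Sym2.congr_right.1 h1)
  have h2 : s(y, v) ≠ s(x, c 0) := fun h1 => by
    rcases Sym2.eq_iff.1 h1 with ⟨h4, _⟩ | ⟨h4, _⟩
    · exact h.hxy.ne h4.symm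
    · exact h.cy 0 h4.symm
  have h3 : s(y, v) ≠ s(y, c 0) := fun h1 => h0 (Sym2.congr_right.1 h1)
  have h4 : s(y, v) ≠ s(x, c p) := fun h1 => by
    rcases Sym2.eq_iff.1 h1 with ⟨h4, _⟩ | ⟨h4, _⟩
    · exact h.hxy.ne h4.symm
    · exact h.cy p h4.symm
  have h5 : s(y, v) ≠ s(y, c p) := fun h1 => hp (Sym2.congr_right.1 h1)
  simp only [DD, newl, newr, if_neg h1, if_neg h2, if_neg h3, if_neg h4, if_neg h5, Sym2.map_mk,
    Prod.map_apply, phi_y, phi_ne x y hvy]

/-- a vertex that is not `c 0` or `c p` is not adjacent to both -/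
lemma not_both (v : V) (hvx : v ≠ x) (hvy : v ≠ y) (h0 : v ≠ c 0) (hp : v ≠ c p)
    (h1 : G.Adj x v) (h2 : G.Adj y v) : False := by
  rcases h.hNx v h1 with h3 | ⟨i, hi, h3⟩
  · exact hvy h3
  · rcases h.hNy v h2 with h4 | ⟨j, hj, hj', h4⟩
    · exact hvx h4
    · have hpm := h.hpm
      by_cases hjm : j = m
      · rw [hjm, h.close] at h4
        exact h0 h4.symm
      · have h5 := h.inj i j (by omega) (by omega) (h3.trans h4.symm)
        have h6 : i = p := by omega
        rw [h6] at h3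
        exact hp h3.symm

/-- at a vertex different from `x` and `y` -/
lemma local_sum (g : ι ⊕ Bool → ZMod 2) (v : V) (hvx : v ≠ x) (hvy : v ≠ y) :
    ind (G.Adj v x) * DD x y l r m c p F g s(v, x) + ind (G.Adj v y) * DD x y l r m c p F g s(v, y)
      = ind ((contr G x y).Adj v x) * (g (Sum.inl (l s(v, x))) + g (Sum.inl (r s(v, x)))) := by
  rw [Sym2.eq_swap (a := v) (b := x), Sym2.eq_swap (a := v) (b := y)]
  have hM : (contr G x y).Adj v x ↔ (G.Adj v x ∨ G.Adj v y) := by
    rw [SimpleGraph.adj_comm, adj_x G x y h.hxy, G.adj_comm x, G.adj_comm y]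
    tauto
  have hpm := h.hpm
  have hp0 := h.hp
  by_cases h0 : v = c 0
  · have h1 : G.Adj v x := by rw [h0]; exact h.hx0.symm
    have h2 : G.Adj v y := by rw [h0]; exact h.hy0.symm
    rw [ind_pos h1, ind_pos h2, ind_pos (hM.2 (Or.inl h1)), h0, D_x0 h, D_y0 h,
      h.F3 (fun j => g (Sum.inl j))]
    linear_combination zadd (g (Sum.inr false))
  by_cases h1 : v = c p
  · have h1' : G.Adj v x := by rw [h1]; exact h.hxp.symm
    have h2 : G.Adj v y := by rw [h1]; exact h.hyp.symm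
    have h3 : (contr G x y).Adj x (c p) := by
      rw [← h1]
      exact (hM.2 (Or.inl h1')).symm
    rw [ind_pos h1', ind_pos h2, ind_pos (hM.2 (Or.inl h1')), h1, D_xp h, D_yp h,
      h.F1 (fun j => g (Sum.inl j)) p hp0 hpm h3]
    linear_combination zadd (g (Sum.inr true))
  rw [D_x h g v hvy h0 h1, D_y h g v hvx hvy h0 h1]
  by_cases h2 : G.Adj v x
  · have h3 : ¬ G.Adj v y := fun h3 => not_both h v hvx hvy h0 h1 h2.symm h3.symm
    rw [ind_pos h2, ind_neg h3, ind_pos (hM.2 (Or.inl h2))]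
    ring
  · by_cases h3 : G.Adj v y
    · rw [ind_neg h2, ind_pos h3, ind_pos (hM.2 (Or.inr h3))]
      ring
    · rw [ind_neg h2, ind_neg h3, ind_neg (fun h4 => by rcases hM.1 h4 with h5 | h5 <;> tauto)]
      ring

lemma new_even (g : ι ⊕ Bool → ZMod 2) (v : V) :
    ∑ u, ind (G.Adj v u) * DD x y l r m c p F g s(v, u) = 0 := by
  have hpm := h.hpm
  have hp0 := h.hp
  by_cases hvx : v = x
  · subst hvx
    refine arc_sum (fun u => G.Adj v u) (fun u => DD v y l r m c p F g s(v, u)) y p hp0 c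
      (fun i j hi hj h1 => h.inj i j (by omega) (by omega) h1) h.cy h.hNx h.hxy h.hx0 h.hxp
      (fun n => g (Sum.inl (F n))) (g (Sum.inr false)) (g (Sum.inr true)) ?_ ?_ ?_ ?_ ?_
    · rw [D_xy h]; ring
    · rw [D_x0 h]
    · rw [D_xp h]
    · intro i hi hip h1
      rw [D_x h g (c i) (h.cy i)
        (fun h2 => by have := h.inj i 0 (by omega) (by omega) h2; omega)
        (fun h2 => by have := h.inj i p (by omega) (by omega) h2; omega)]
      exact h.F1 (fun j => g (Sum.inl j)) i hi (by omega)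
        ((adj_x G v y h.hxy _).2 ⟨h.cx i, h.cy i, Or.inl h1⟩)
    · intro i hi hip h1
      have h2 : ¬ (contr G v y).Adj v (c i) := by
        rw [adj_x G v y h.hxy]
        rintro ⟨_, _, h3 | h3⟩
        · exact h1 h3
        · rcases h.hNy _ h3 with h4 | ⟨j, hj, hj', h4⟩
          · exact h.cx i h4
          · by_cases hjm : j = m
            · rw [hjm, h.close] at h4
              have := h.inj 0 i (by omega) (by omega) h4
              omega
            · have := h.inj j i (by omega) (by omega) h4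
              omega
      rw [h.F2 i hi (by omega) h2]
  by_cases hvy : v = y
  · subst hvy
    refine arc_sum (fun u => G.Adj v u) (fun u => DD x v l r m c p F g s(v, u)) x (m - p)
      (by omega) (fun i => c (p + i)) ?_ (fun i => h.cx _) ?_ h.hxy.symm ?_ ?_
      (fun n => g (Sum.inl (F (p + n)))) (g (Sum.inr true)) (g (Sum.inr false)) ?_ ?_ ?_ ?_ ?_
    · intro i j hi hj h1
      by_cases hi' : p + i = m
      · by_cases hj' : p + j = m
        · omega
        · exfalso
          simp only [hi'] at h1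
          rw [h.close] at h1
          have := h.inj 0 (p + j) (by omega) (by omega) h1
          omega
      · by_cases hj' : p + j = m
        · exfalso
          simp only [hj'] at h1
          rw [h.close] at h1
          have := h.inj (p + i) 0 (by omega) (by omega) h1
          omega
        · have := h.inj (p + i) (p + j) (by omega) (by omega) h1
          omega
    · intro u hu
      rcases h.hNy u hu with h1 | ⟨j, hj, hj', h1⟩
      · exact Or.inl h1
      · refine Or.inr ⟨j - p, by omega, ?_⟩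
        have : p + (j - p) = j := by omega
        rw [this]
        exact h1
    · exact h.hyp
    · have : p + (m - p) = m := by omega
      simp only [this, h.close]
      exact h.hy0
    · show DD x v l r m c p F g s(v, x) = _
      rw [Sym2.eq_swap, D_xy h]
    · show DD x v l r m c p F g s(v, c (p + 0)) = _
      rw [Nat.add_zero, D_yp h]
    · have h1 : p + (m - p) = m := by omega
      have h2 : p + (m - p - 1) = m - 1 := by omega
      simp only [h1, h2, h.close]
      rw [D_y0 h]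
    · intro i hi hip h1
      have h2 : p + (i - 1) = p + i - 1 := by omega
      simp only [h2]
      rw [D_y h g (c (p + i)) (h.cx _) (h.cy _)
        (fun h2 => by have := h.inj (p + i) 0 (by omega) (by omega) h2; omega)
        (fun h2 => by have := h.inj (p + i) p (by omega) (by omega) h2; omega)]
      exact h.F1 (fun j => g (Sum.inl j)) (p + i) (by omega) (by omega)
        ((adj_x G x v h.hxy _).2 ⟨h.cx _, h.cy _, Or.inr h1⟩)
    · intro i hi hip h1
      have h2 : p + (i - 1) = p + i - 1 := by omega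
      simp only [h2]
      have h3 : ¬ (contr G x v).Adj x (c (p + i)) := by
        rw [adj_x G x v h.hxy]
        rintro ⟨_, _, h3 | h3⟩
        · rcases h.hNx _ h3 with h4 | ⟨j, hj, h4⟩
          · exact h.cy _ h4
          · have := h.inj j (p + i) (by omega) (by omega) h4
            omega
        · exact h1 h3
      rw [h.F2 (p + i) (by omega) (by omega) h3]
  rw [sum_split x y h.hxy.ne, local_sum h g v hvx hvy, ← h.hM.even (fun j => g (Sum.inl j)) v,
    sum_split x y h.hxy.ne (fun u => ind ((contr G x y).Adj v u) * _),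
    ind_neg (adj_y G x y h.hxy v), zero_mul, add_zero]
  congr 1
  refine Finset.sum_congr rfl fun u hu => ?_
  have huy : u ≠ y := (Finset.mem_erase.1 hu).1
  have hux : u ≠ x := (Finset.mem_erase.1 (Finset.mem_erase.1 hu).2).1
  rw [D_rest h g v u hvx hvy hux huy]
  have h1 := adj_rest G x y hvx hvy hux huy
  by_cases h2 : G.Adj v u
  · rw [ind_pos h2, ind_pos (h1.2 h2)]
  · rw [ind_neg h2, ind_neg (fun h3 => h2 (h1.1 h3))]

end setup

/-- the image of an edge function -/
noncomputable def push {V : Type} (G : SimpleGraph V) (x y : V) (z : Sym2 V → ZMod 2) :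
    Sym2 V → ZMod 2 := fun e =>
  if e ∈ (contr G x y).edgeSet then (if x ∈ e then z e + z (e.map (Equiv.swap x y)) else z e)
  else 0

section setup2

variable {V ι : Type} [Fintype V] {G : SimpleGraph V} {x y : V} {l r : Sym2 V → ι} {m : ℕ}
  {c : ℕ → V} {p : ℕ} {F : ℕ → ι}

lemma push_rest (z : Sym2 V → ZMod 2) (hz : ∀ e, e ∉ G.edgeSet → z e = 0) (u v : V)
    (hux : u ≠ x) (huy : u ≠ y) (hvx : v ≠ x) (hvy : v ≠ y) : push G x y z s(u, v) = z s(u, v) := by
  have h1 : x ∉ s(u, v) := by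
    rw [Sym2.mem_iff]
    rintro (h | h)
    · exact hux h.symm
    · exact hvx h.symm
  unfold push
  rw [if_neg h1]
  by_cases h2 : G.Adj u v
  · rw [if_pos]
    exact (adj_rest G x y hux huy hvx hvy).2 h2
  · rw [if_neg, hz _ h2]
    exact fun h3 => h2 ((adj_rest G x y hux huy hvx hvy).1 h3)

lemma push_x (hxy : G.Adj x y) (z : Sym2 V → ZMod 2) (hz : ∀ e, e ∉ G.edgeSet → z e = 0) (u : V)
    (hux : u ≠ x) (huy : u ≠ y) : push G x y z s(x, u) = z s(x, u) + z s(y, u) := by
  unfold push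
  rw [if_pos (Sym2.mem_mk_left x u), Sym2.map_mk, Equiv.swap_apply_left,
    Equiv.swap_apply_of_ne_of_ne hux huy]
  by_cases h2 : (contr G x y).Adj x u
  · rw [if_pos]
    exact h2
  · rw [if_neg (show ¬ s(x, u) ∈ (contr G x y).edgeSet from h2)]
    rw [adj_x G x y hxy] at h2
    rw [hz s(x, u) (fun h3 => h2 ⟨hux, huy, Or.inl h3⟩),
      hz s(y, u) (fun h3 => h2 ⟨hux, huy, Or.inr h3⟩)]
    decide

lemma push_even (hxy : G.Adj x y) (z : Sym2 V → ZMod 2) (hz : ∀ e, e ∉ G.edgeSet → z e = 0)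
    (he : ∀ v, ∑ u, z s(v, u) = 0) (v : V) : ∑ u, push G x y z s(v, u) = 0 := by
  by_cases hvx : v = x
  · subst hvx
    rw [sum_split v y hxy.ne]
    have h1 : push G v y z s(v, v) = 0 := by
      unfold push
      rw [if_neg]
      exact fun h => (SimpleGraph.mem_edgeSet _).1 h |>.ne rfl
    have h2 : push G v y z s(v, y) = 0 := by
      unfold push
      rw [if_neg]
      exact adj_y G v y hxy v
    rw [h1, h2]
    have h3 : ∑ u ∈ (Finset.univ.erase v).erase y, push G v y z s(v, u) =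
        ∑ u ∈ (Finset.univ.erase v).erase y, (z s(v, u) + z s(y, u)) := by
      refine Finset.sum_congr rfl fun u hu => ?_
      exact push_x hxy z hz u (Finset.mem_erase.1 (Finset.mem_erase.1 hu).2).1
        (Finset.mem_erase.1 hu).1
    rw [h3, Finset.sum_add_distrib]
    have h4 := he v
    have h5 := he y
    rw [sum_split v y hxy.ne, hz s(v, v) (fun h => h.ne rfl)] at h4
    rw [sum_split v y hxy.ne, hz s(y, y) (fun h => h.ne rfl), Sym2.eq_swap (a := y) (b := v)] at h5
    linear_combination h4 + h5 - zadd (z s(v, y))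
  by_cases hvy : v = y
  · subst hvy
    apply Finset.sum_eq_zero
    intro u _
    unfold push
    rw [if_neg]
    exact fun h => adj_y G x v hxy u h.symm
  rw [← he v, sum_split x y hxy.ne, sum_split x y hxy.ne (fun u => z s(v, u))]
  have h1 : push G x y z s(v, x) = z s(v, x) + z s(v, y) := by
    rw [Sym2.eq_swap, push_x hxy z hz v hvx hvy, Sym2.eq_swap (a := x), Sym2.eq_swap (a := y)]
  have h2 : push G x y z s(v, y) = 0 := by
    unfold push
    rw [if_neg]
    exact adj_y G x y hxy v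
  rw [h1, h2, add_zero]
  congr 1
  refine Finset.sum_congr rfl fun u hu => ?_
  exact push_rest z hz v u hvx hvy (Finset.mem_erase.1 (Finset.mem_erase.1 hu).2).1
        (Finset.mem_erase.1 hu).1

variable (h : Setup G x y l r m c p F)

include h

lemma new_exist (z : Sym2 V → ZMod 2) (hz : ∀ e, e ∉ G.edgeSet → z e = 0)
    (he : ∀ v, ∑ u, z s(v, u) = 0) : ∃ g : ι ⊕ Bool → ZMod 2, ∀ e ∈ G.edgeSet,
      DD x y l r m c p F g e = z e := by
  have hpm := h.hpm
  have hp0 := h.hp
  obtain ⟨g, hg⟩ := h.hM.exist (push G x y z)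
    (fun e h1 => by unfold push; rw [if_neg h1]) (push_even h.hxy z hz he)
  obtain ⟨g', hg1, hg2, hg3⟩ : ∃ g' : ι ⊕ Bool → ZMod 2, (∀ j, g' (Sum.inl j) = g j) ∧
      g' (Sum.inr true) = g (F (p - 1)) + z s(x, c p) ∧
      g' (Sum.inr false) = g (F 0) + z s(x, c 0) :=
    ⟨Sum.elim g (fun b => if b then g (F (p - 1)) + z s(x, c p) else g (F 0) + z s(x, c 0)),
      fun _ => rfl, rfl, rfl⟩
  have hMx : ∀ u, u ≠ x → u ≠ y → (G.Adj x u ∨ G.Adj y u) →
      g (l s(x, u)) + g (r s(x, u)) = z s(x, u) + z s(y, u) := by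
    intro u hux huy h1
    rw [hg s(x, u) ((adj_x G x y h.hxy u).2 ⟨hux, huy, h1⟩)]
    exact push_x h.hxy z hz u hux huy
  have hM0 := hMx (c 0) (h.cx 0) (h.cy 0) (Or.inl h.hx0)
  rw [h.F3 g] at hM0
  have hMp := hMx (c p) (h.cx p) (h.cy p) (Or.inl h.hxp)
  rw [h.F1 g p hp0 hpm ((adj_x G x y h.hxy _).2 ⟨h.cx p, h.cy p, Or.inl h.hxp⟩)] at hMp
  have hX : ∀ u, u ≠ y → G.Adj x u → DD x y l r m c p F g' s(x, u) = z s(x, u) := by
    intro u huy h1
    have hux : u ≠ x := h1.ne.symm
    by_cases h0 : u = c 0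
    · rw [h0, D_x0 h, hg1, hg3]
      linear_combination zadd (g (F 0))
    by_cases h2 : u = c p
    · rw [h2, D_xp h, hg1, hg2]
      linear_combination zadd (g (F (p - 1)))
    rw [D_x h g' u huy h0 h2, hg1, hg1, hMx u hux huy (Or.inl h1),
      hz s(y, u) (fun h3 => not_both h u hux huy h0 h2 h1 h3), add_zero]
  have hY : ∀ u, u ≠ x → G.Adj y u → DD x y l r m c p F g' s(y, u) = z s(y, u) := by
    intro u hux h1
    have huy : u ≠ y := h1.ne.symm
    by_cases h0 : u = c 0
    · rw [h0, D_y0 h, hg1, hg3]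
      linear_combination hM0 + zadd (z s(x, c 0))
    by_cases h2 : u = c p
    · rw [h2, D_yp h, hg1, hg2]
      linear_combination hMp + zadd (z s(x, c p))
    rw [D_y h g' u hux huy h0 h2, hg1, hg1, hMx u hux huy (Or.inr h1),
      hz s(x, u) (fun h3 => not_both h u hux huy h0 h2 h3 h1), zero_add]
  have hXY : DD x y l r m c p F g' s(x, y) = z s(x, y) := by
    have h1 := new_even h g' x
    have h2 := he x
    rw [← Finset.add_sum_erase _ _ (Finset.mem_univ y), ind_pos h.hxy, one_mul] at h1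
    rw [← Finset.add_sum_erase _ _ (Finset.mem_univ y)] at h2
    have h3 : ∑ u ∈ Finset.univ.erase y, ind (G.Adj x u) * DD x y l r m c p F g' s(x, u) =
        ∑ u ∈ Finset.univ.erase y, z s(x, u) := by
      refine Finset.sum_congr rfl fun u hu => ?_
      by_cases h4 : G.Adj x u
      · rw [ind_pos h4, one_mul, hX u (Finset.mem_erase.1 hu).1 h4]
      · rw [ind_neg h4, zero_mul, hz s(x, u) h4]
    rw [h3] at h1
    linear_combination h1 - h2
  refine ⟨g', fun e => ?_⟩
  induction e using Sym2.ind with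
  | _ u v =>
    intro h1
    have h1' : G.Adj u v := h1
    by_cases hux : u = x
    · subst hux
      by_cases hvy : v = y
      · subst hvy; exact hXY
      · exact hX v hvy h1'
    by_cases huy : u = y
    · subst huy
      by_cases hvx : v = x
      · subst hvx
        rw [Sym2.eq_swap]; exact hXY
      · exact hY v hvx h1'
    by_cases hvx : v = x
    · subst hvx
      rw [Sym2.eq_swap]
      exact hX u huy h1'.symm
    by_cases hvy : v = y
    · subst hvy
      rw [Sym2.eq_swap]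
      exact hY u hux h1'.symm
    rw [D_rest h g' u v hux huy hvx hvy, hg1, hg1,
      hg s(u, v) ((adj_rest G x y hux huy hvx hvy).2 h1'), push_rest z hz u v hux huy hvx hvy]

lemma new_conn (g : ι ⊕ Bool → ZMod 2) (hg : ∀ e ∈ G.edgeSet, DD x y l r m c p F g e = 0) :
    (∀ j, g j = 0) ∨ (∀ j, g j = 1) := by
  have hpm := h.hpm
  have hp0 := h.hp
  have h0x := hg s(x, c 0) h.hx0
  have h0y := hg s(y, c 0) h.hy0
  have hpx := hg s(x, c p) h.hxp
  have hpy := hg s(y, c p) h.hyp
  rw [D_x0 h] at h0x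
  rw [D_y0 h] at h0y
  rw [D_xp h] at hpx
  rw [D_yp h] at hpy
  have hx : ∀ u, (contr G x y).Adj x u →
      g (Sum.inl (l s(x, u))) + g (Sum.inl (r s(x, u))) = 0 := by
    intro u h1
    have h1' := h1
    rw [adj_x G x y h.hxy] at h1
    obtain ⟨hux, huy, h1⟩ := h1
    by_cases h0 : u = c 0
    · rw [h0, h.F3 (fun j => g (Sum.inl j))]
      linear_combination h0x + h0y - zadd (g (Sum.inr false))
    by_cases h2 : u = c p
    · rw [h2] at h1' ⊢
      rw [h.F1 (fun j => g (Sum.inl j)) p hp0 hpm h1']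
      linear_combination hpx + hpy - zadd (g (Sum.inr true))
    rcases h1 with h1 | h1
    · rw [← D_x h g u huy h0 h2]
      exact hg _ h1
    · rw [← D_y h g u hux huy h0 h2]
      exact hg _ h1
  have hall : ∀ e ∈ (contr G x y).edgeSet,
      g (Sum.inl (l e)) + g (Sum.inl (r e)) = 0 := by
    intro e
    induction e using Sym2.ind with
    | _ u v =>
      intro h1
      have h1' : (contr G x y).Adj u v := h1
      have huy : u ≠ y := fun h2 => adj_y G x y h.hxy v (h2 ▸ h1'.symm)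
      have hvy : v ≠ y := fun h2 => adj_y G x y h.hxy u (h2 ▸ h1')
      by_cases hux : u = x
      · subst hux
        exact hx v h1'
      by_cases hvx : v = x
      · subst hvx
        rw [Sym2.eq_swap]
        exact hx u h1'.symm
      rw [← D_rest h g u v hux huy hvx hvy]
      exact hg _ ((adj_rest G x y hux huy hvx hvy).1 h1')
  have ht : g (Sum.inr true) = g (Sum.inl (F (p - 1))) := (zeq_of_add hpx).symm
  have hf : g (Sum.inr false) = g (Sum.inl (F 0)) := zeq_of_add h0x
  rcases h.hM.conn (fun j => g (Sum.inl j)) hall with h1 | h1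
  · left
    rintro (j | b)
    · exact h1 j
    · cases b
      · rw [hf]; exact h1 _
      · rw [ht]; exact h1 _
  · right
    rintro (j | b)
    · exact h1 j
    · cases b
      · rw [hf]; exact h1 _
      · rw [ht]; exact h1 _

lemma new_dual [Finite ι] [Nonempty ι] : HasDual G := by
  refine ⟨ι ⊕ Bool, newl x y l m c p F, newr x y r c p F, inferInstance, inferInstance,
    isDual_of ⟨fun g v => new_even h g v, fun z hz he => new_exist h z hz he,
      fun g hg => new_conn h g hg⟩⟩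

end setup2

lemma sum_of_pair {ι : Type} {a b a' b' : ι} (h : s(a, b) = s(a', b')) (g : ι → ZMod 2) :
    g a + g b = g a' + g b' := by
  rcases Sym2.eq_iff.1 h with ⟨h1, h2⟩ | ⟨h1, h2⟩
  · rw [h1, h2]
  · rw [h1, h2, add_comm]

/-- the case in which both `c 0` and `c p` are common neighbours -/
theorem uncontract_core {V : Type} [Finite V] (G : SimpleGraph V) (x y : V) (hxy : G.Adj x y)
    (m : ℕ) (c : ℕ → V) (p : ℕ) (hc : IsCyc G m c) (hx : ∀ i, c i ≠ x) (hy : ∀ i, c i ≠ y)
    (hNx : ∀ u, G.Adj x u → u = y ∨ ∃ i < m, c i = u)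
    (hNy : ∀ u, G.Adj y u → u = x ∨ ∃ i < m, c i = u) (hp : 0 < p) (hpm : p < m)
    (hx0 : G.Adj x (c 0)) (hxp : G.Adj x (c p)) (hX : ∀ i, i < m → G.Adj x (c i) → i ≤ p)
    (hY : ∀ i, i < m → G.Adj y (c i) → i = 0 ∨ p ≤ i) (hy0 : G.Adj y (c 0)) (hyp : G.Adj y (c p))
    (h : HasDual (contr G x y)) : HasDual G := by
  have : Fintype V := Fintype.ofFinite V
  obtain ⟨ι, l, r, hfin, hne, hD⟩ := h
  have hcyc : IsCyc (contr G x y) m c :=
    ⟨hc.len, hc.close, hc.inj, fun i hi =>
      (adj_rest G x y (hx _) (hy _) (hx _) (hy _)).2 (hc.adj i hi)⟩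
  obtain ⟨f, _, hf2, hf3⟩ := rotation (contr G x y) l r hD x m c hcyc hx
    (by
      intro u hu
      rw [adj_x G x y hxy] at hu
      obtain ⟨h1, h2, h3 | h3⟩ := hu
      · rcases hNx u h3 with h4 | h4
        · exact absurd h4 h2
        · exact h4
      · rcases hNy u h3 with h4 | h4
        · exact absurd h4 h1
        · exact h4)
    ((adj_x G x y hxy _).2 ⟨hx _, hy _, Or.inl hx0⟩)
    ⟨p, hp, hpm, (adj_x G x y hxy _).2 ⟨hx _, hy _, Or.inl hxp⟩⟩
  have hP0 : (contr G x y).Adj x (c 0) := (adj_x G x y hxy _).2 ⟨hx _, hy _, Or.inl hx0⟩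
  have hfg : ∀ n, (contr G x y).Adj x (c (Nat.findGreatest (fun i => (contr G x y).Adj x (c i)) n)) :=
    fun n => Nat.findGreatest_spec (P := fun i => (contr G x y).Adj x (c i)) (Nat.zero_le n) hP0
  have hS : Setup G x y l r m c p
      (fun n => f (Nat.findGreatest (fun i => (contr G x y).Adj x (c i)) n)) := by
    refine ⟨hxy, isD_of hD, hc.len, hc.close, hc.inj, hx, hy, ?_, ?_, hp, hpm, hx0, hxp, hy0, hyp,
      ?_, ?_, ?_⟩
    · intro u hu
      rcases hNx u hu with h1 | ⟨i, hi, h1⟩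
      · exact Or.inl h1
      · exact Or.inr ⟨i, hX i hi (by rw [h1]; exact hu), h1⟩
    · intro u hu
      rcases hNy u hu with h1 | ⟨i, hi, h1⟩
      · exact Or.inl h1
      · rcases hY i hi (by rw [h1]; exact hu) with h2 | h2
        · refine Or.inr ⟨m, hpm.le, le_rfl, ?_⟩
          rw [hc.close, ← h2]
          exact h1
        · exact Or.inr ⟨i, h2, hi.le, h1⟩
    · intro g n hn hnm h1
      refine sum_of_pair ?_ g
      obtain ⟨n', rfl⟩ : ∃ n', n = n' + 1 := ⟨n - 1, by omega⟩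
      rw [Nat.add_sub_cancel]
      have h2 : Nat.findGreatest (fun i => (contr G x y).Adj x (c i)) (n' + 1) = n' + 1 := by
        rw [Nat.findGreatest_succ, if_pos h1]
      rw [h2]
      refine hf2 _ _ (Nat.lt_succ_of_le (Nat.findGreatest_le n')) hnm (hfg n') h1 ?_
      intro k hk1 hk2
      exact Nat.findGreatest_is_greatest hk1 (by omega)
    · intro n hn hnm h1
      obtain ⟨n', rfl⟩ : ∃ n', n = n' + 1 := ⟨n - 1, by omega⟩
      rw [Nat.add_sub_cancel]
      have h2 : Nat.findGreatest (fun i => (contr G x y).Adj x (c i)) (n' + 1) =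
          Nat.findGreatest (fun i => (contr G x y).Adj x (c i)) n' := by
        rw [Nat.findGreatest_succ, if_neg h1]
      rw [h2]
    · intro g
      refine sum_of_pair ?_ g
      rw [Nat.findGreatest_zero]
      have hle := Nat.findGreatest_le (P := fun i => (contr G x y).Adj x (c i)) (m - 1)
      refine hf3 _ (by omega) (hfg (m - 1)) ?_
      intro k hk1 hk2
      exact Nat.findGreatest_is_greatest hk1 (by omega)
  exact new_dual hS

end GUncontrAux

theorem uncontract {V : Type} [Finite V] (G : SimpleGraph V) (x y : V) (hxy : G.Adj x y) (m : ℕ)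
    (c : ℕ → V) (p : ℕ) (hc : IsCyc G m c) (hx : ∀ i, c i ≠ x) (hy : ∀ i, c i ≠ y)
    (hNx : ∀ u, G.Adj x u → u = y ∨ ∃ i < m, c i = u)
    (hNy : ∀ u, G.Adj y u → u = x ∨ ∃ i < m, c i = u) (hp : 0 < p) (hpm : p < m)
    (hx0 : G.Adj x (c 0)) (hxp : G.Adj x (c p)) (hX : ∀ i, i < m → G.Adj x (c i) → i ≤ p)
    (hY : ∀ i, i < m → G.Adj y (c i) → i = 0 ∨ p ≤ i) (hY' : ∃ i, i < m ∧ G.Adj y (c i))
    (h : HasDual (contr G x y)) : HasDual G := by
  have hle : G ≤ G ⊔ SimpleGraph.edge y (c 0) ⊔ SimpleGraph.edge y (c p) :=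
    le_sup_left.trans le_sup_left
  refine dual_mono hle ?_
  have hadj : ∀ u v, (G ⊔ SimpleGraph.edge y (c 0) ⊔ SimpleGraph.edge y (c p)).Adj u v ↔
      G.Adj u v ∨ (u = y ∧ (v = c 0 ∨ v = c p)) ∨ (v = y ∧ (u = c 0 ∨ u = c p)) := by
    intro u v
    have h0 := hy 0
    have hp' := hy p
    rw [SimpleGraph.sup_adj, SimpleGraph.sup_adj, SimpleGraph.edge_adj, SimpleGraph.edge_adj]
    constructor
    · rintro ((h1 | ⟨⟨h1, h2⟩ | ⟨h1, h2⟩, h3⟩) | ⟨⟨h1, h2⟩ | ⟨h1, h2⟩, h3⟩) <;> tauto
    · rintro (h1 | ⟨h1, h2 | h2⟩ | ⟨h1, h2 | h2⟩)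
      · exact Or.inl (Or.inl h1)
      · exact Or.inl (Or.inr ⟨Or.inl ⟨h1, h2⟩, by rw [h1, h2]; exact h0.symm⟩)
      · exact Or.inr ⟨Or.inl ⟨h1, h2⟩, by rw [h1, h2]; exact hp'.symm⟩
      · exact Or.inl (Or.inr ⟨Or.inr ⟨h2, h1⟩, by rw [h1, h2]; exact h0⟩)
      · exact Or.inr ⟨Or.inr ⟨h2, h1⟩, by rw [h1, h2]; exact hp'⟩
  have hcon : contr (G ⊔ SimpleGraph.edge y (c 0) ⊔ SimpleGraph.edge y (c p)) x y =
      contr G x y := by
    ext u v
    rw [GUncontrAux.contr_adj, GUncontrAux.contr_adj]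
    constructor
    · rintro ⟨h1, a, b, h2, h3, h4⟩
      refine ⟨h1, ?_⟩
      rw [hadj] at h2
      rcases h2 with h2 | ⟨h2, h5⟩ | ⟨h2, h5⟩
      · exact ⟨a, b, h2, h3, h4⟩
      · subst h2
        rw [GUncontrAux.phi_y] at h3
        refine ⟨x, b, ?_, ?_, h4⟩
        · rcases h5 with h5 | h5
          · rw [h5]; exact hx0
          · rw [h5]; exact hxp
        · rw [GUncontrAux.phi_ne x a hxy.ne]
          exact h3
      · subst h2
        rw [GUncontrAux.phi_y] at h4
        refine ⟨a, x, ?_, h3, ?_⟩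
        · rcases h5 with h5 | h5
          · rw [h5]; exact hx0.symm
          · rw [h5]; exact hxp.symm
        · rw [GUncontrAux.phi_ne x b hxy.ne]
          exact h4
    · rintro ⟨h1, a, b, h2, h3, h4⟩
      exact ⟨h1, a, b, (hadj a b).2 (Or.inl h2), h3, h4⟩
  have hxadj : ∀ u, (G ⊔ SimpleGraph.edge y (c 0) ⊔ SimpleGraph.edge y (c p)).Adj x u →
      G.Adj x u := by
    intro u hu
    rw [hadj] at hu
    rcases hu with h1 | ⟨h1, _⟩ | ⟨_, h1 | h1⟩
    · exact h1
    · exact absurd h1 hxy.ne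
    · exact absurd h1.symm (hx 0)
    · exact absurd h1.symm (hx p)
  have hyadj : ∀ u, (G ⊔ SimpleGraph.edge y (c 0) ⊔ SimpleGraph.edge y (c p)).Adj y u →
      G.Adj y u ∨ u = c 0 ∨ u = c p := by
    intro u hu
    rw [hadj] at hu
    rcases hu with h1 | ⟨_, h1⟩ | ⟨_, h1 | h1⟩
    · exact Or.inl h1
    · exact Or.inr h1
    · exact absurd h1.symm (hy 0)
    · exact absurd h1.symm (hy p)
  refine GUncontrAux.uncontract_core _ x y (hle hxy) m c p
    ⟨hc.len, hc.close, hc.inj, fun i hi => hle (hc.adj i hi)⟩ hx hy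
    (fun u hu => hNx u (hxadj u hu)) ?_ hp hpm (hle hx0) (hle hxp)
    (fun i hi hu => hX i hi (hxadj _ hu)) ?_
    ((hadj _ _).2 (Or.inr (Or.inl ⟨rfl, Or.inl rfl⟩)))
    ((hadj _ _).2 (Or.inr (Or.inl ⟨rfl, Or.inr rfl⟩))) (by rw [hcon]; exact h)
  · intro u hu
    rcases hyadj u hu with h1 | h1 | h1
    · exact hNy u h1
    · exact Or.inr ⟨0, by omega, h1.symm⟩
    · exact Or.inr ⟨p, hpm, h1.symm⟩
  · intro i hi hu
    rcases hyadj _ hu with h1 | h1 | h1
    · exact hY i hi h1
    · exact Or.inl (hc.inj i 0 hi (by omega) h1)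
    · exact Or.inr (hc.inj i p hi hpm h1).ge

end Pool.Agent.MP9d6bd1
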