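import Mathlib
import Pool.Agent.Lib.MP_9d6bd1_lc.GDefs
import Pool.Agent.Lib.MP_9d6bd1_lc.GDualMono
import Pool.Agent.Lib.MP_9d6bd1_lc.GFace
import Pool.Agent.Lib.MP_9d6bd1_lc.GArcs
import Pool.Agent.Lib.MP_9d6bd1_lc.GUncontr

/-!
# MP_9d6bd1_lc, module G12: the lifting lemma
-/

set_option autoImplicit false

open Classical

namespace Pool.Agent.MP9d6bd1

namespace GLiftAux

theorem contr_adj {V : Type} {A : SimpleGraph V} {x y u v : V} :
    (contr A x y).Adj u v ↔ u ≠ v ∧ ∃ a b, A.Adj a b ∧ (if a = y then x else a) = u ∧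
      (if b = y then x else b) = v := by
  unfold contr
  rw [SimpleGraph.map_adj']

/-- away from `x`, `y` contraction does not change adjacency. -/
theorem contr_adj_of_mem {V : Type} {A : SimpleGraph V} {x y u v : V} (hux : u ≠ x) (huy : u ≠ y)
    (hvx : v ≠ x) (hvy : v ≠ y) : (contr A x y).Adj u v ↔ A.Adj u v := by
  rw [contr_adj]
  constructor
  · rintro ⟨-, a, b, hab, ha, hb⟩
    by_cases h1 : a = y
    · rw [if_pos h1] at ha
      exact absurd ha.symm hux
    by_cases h2 : b = y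
    · rw [if_pos h2] at hb
      exact absurd hb.symm hvx
    rw [if_neg h1] at ha
    rw [if_neg h2] at hb
    rw [← ha, ← hb]
    exact hab
  · intro h
    exact ⟨h.ne, u, v, h, if_neg huy, if_neg hvy⟩

theorem contr_mono {V : Type} {A G : SimpleGraph V} (h : A ≤ G) (x y : V) :
    contr A x y ≤ contr G x y := by
  intro u v huv
  rw [contr_adj] at huv ⊢
  obtain ⟨h1, a, b, hab, h2⟩ := huv
  exact ⟨h1, a, b, h hab, h2⟩

/-- the neighbours of the contracted vertex. -/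
theorem contr_adj_left {V : Type} {A : SimpleGraph V} {x y u : V} :
    (contr A x y).Adj x u → u ≠ x ∧ u ≠ y ∧ (A.Adj x u ∨ A.Adj y u) := by
  rw [contr_adj]
  rintro ⟨h0, a, b, hab, ha, hb⟩
  by_cases h2 : b = y
  · rw [if_pos h2] at hb
    exact absurd hb h0
  rw [if_neg h2] at hb
  subst hb
  refine ⟨h0.symm, h2, ?_⟩
  by_cases h1 : a = y
  · exact Or.inr (h1 ▸ hab)
  · rw [if_neg h1] at ha
    exact Or.inl (ha ▸ hab)

theorem adj_contr_left {V : Type} {A : SimpleGraph V} {x y u : V} (hxy : x ≠ y) (hux : u ≠ x)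
    (huy : u ≠ y) (h : A.Adj x u ∨ A.Adj y u) : (contr A x y).Adj x u := by
  rw [contr_adj]
  refine ⟨hux.symm, ?_⟩
  rcases h with h | h
  · exact ⟨x, u, h, if_neg hxy, if_neg huy⟩
  · exact ⟨y, u, h, if_pos rfl, if_neg huy⟩

end GLiftAux

open GLiftAux

theorem lift_contr {V : Type} [Finite V] (G A : SimpleGraph V) (x y : V) (hAG : A ≤ G)
    (hA : Planar A) (hxy : A.Adj x y)
    (hxA : ∀ u, G.Adj x u → A.Adj x u)
    (hyA : ∀ u, G.Adj y u → A.Adj y u) (B : Set V) (hxB : x ∉ B) (hyB : y ∉ B)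
    (hB : TwoConn A B) (hNx : ∀ u, A.Adj x u → u = y ∨ u ∈ B)
    (hNy : ∀ u, A.Adj y u → u = x ∨ u ∈ B) (hdx : 2 ≤ {u | u ≠ y ∧ A.Adj x u}.ncard)
    (hdy : 2 ≤ {u | u ≠ x ∧ A.Adj y u}.ncard) (h : HasDual (contr G x y)) : HasDual G := by
  have hH : HasDual (contr A x y) := dual_mono (contr_mono hAG x y) h
  have hne : ∀ u ∈ B, u ≠ x ∧ u ≠ y := by
    intro u hu
    exact ⟨fun h => hxB (h ▸ hu), fun h => hyB (h ▸ hu)⟩
  have hind : ∀ z, (contr A x y).induce (B \ {z}) = A.induce (B \ {z}) := by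
    intro z
    ext ⟨u, hu⟩ ⟨v, hv⟩
    rw [SimpleGraph.induce_adj, SimpleGraph.induce_adj]
    exact contr_adj_of_mem (hne u hu.1).1 (hne u hu.1).2 (hne v hv.1).1 (hne v hv.1).2
  have hB' : TwoConn (contr A x y) B := by
    refine ⟨hB.1, fun z => ?_⟩
    rw [hind]
    exact hB.2 z
  have hN : ∀ u, (contr A x y).Adj x u → u ∈ B := by
    intro u hu
    obtain ⟨h1, h2, h3 | h3⟩ := contr_adj_left hu
    · rcases hNx u h3 with h4 | h4
      · exact absurd h4 h2
      · exact h4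
    · rcases hNy u h3 with h4 | h4
      · exact absurd h4 h1
      · exact h4
  have h2 : 2 ≤ {u | (contr A x y).Adj x u}.ncard := by
    refine hdx.trans (Set.ncard_le_ncard ?_ (Set.toFinite _))
    rintro u ⟨h3, h4⟩
    exact adj_contr_left hxy.ne h4.ne.symm h3 (Or.inl h4)
  obtain ⟨m, c, hc, hcB, hcN⟩ := face_cycle (contr A x y) hH x B hxB hB' hN h2
  have hcA : IsCyc A m c := by
    refine ⟨hc.len, hc.close, hc.inj, fun i hi => ?_⟩
    exact (contr_adj_of_mem (hne _ (hcB i)).1 (hne _ (hcB i)).2 (hne _ (hcB (i + 1))).1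
      (hne _ (hcB (i + 1))).2).1 (hc.adj i hi)
  have hNx' : ∀ u, A.Adj x u → u = y ∨ ∃ i < m, c i = u := by
    intro u hu
    by_cases huy : u = y
    · exact Or.inl huy
    · exact Or.inr (hcN u (adj_contr_left hxy.ne hu.ne.symm huy (Or.inl hu)))
  have hNy' : ∀ u, A.Adj y u → u = x ∨ ∃ i < m, c i = u := by
    intro u hu
    by_cases hux : u = x
    · exact Or.inl hux
    · exact Or.inr (hcN u (adj_contr_left hxy.ne hux hu.ne.symm (Or.inr hu)))
  obtain ⟨c', p, hc', hx', hy', hcc, hp, hpm, hx0, hxp, hX, hY⟩ := arcs A hA x y hxy m c hcA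
    (fun i => (hne _ (hcB i)).1) (fun i => (hne _ (hcB i)).2) hNx' hNy' hdx hdy
  refine uncontract G x y (hAG hxy) m c' p ⟨hc'.len, hc'.close, hc'.inj,
    fun i hi => hAG (hc'.adj i hi)⟩ hx' hy' ?_ ?_ hp hpm (hAG hx0) (hAG hxp)
    (fun i hi hadj => hX i hi (hxA _ hadj)) (fun i hi hadj => hY i hi (hyA _ hadj)) ?_ h
  · intro u hu
    rcases hNx' u (hxA u hu) with h3 | h3
    · exact Or.inl h3
    · exact Or.inr (hcc u h3)
  · intro u hu
    rcases hNy' u (hyA u hu) with h3 | h3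
    · exact Or.inl h3
    · exact Or.inr (hcc u h3)
  · have hne' : {u | u ≠ x ∧ A.Adj y u}.Nonempty := by
      rw [← Set.ncard_pos (Set.toFinite _)]
      omega
    obtain ⟨u, hux, hu⟩ := hne'
    rcases hNy' u hu with h3 | h3
    · exact absurd h3 hux
    · obtain ⟨i, hi, e⟩ := hcc u h3
      exact ⟨i, hi, by rw [e]; exact hAG hu⟩

end Pool.Agent.MP9d6bd1
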