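import Mathlib
import Pool.Agent.Lib.MP_9d6bd1_lc.GDefs
import Pool.Agent.Lib.MP_9d6bd1_lc.GDualMono

/-!
# MP_9d6bd1_lc, module G14a: graphs with at most four non-isolated vertices have duals
-/

set_option autoImplicit false

namespace Pool.Agent.MP9d6bd1

namespace GSmallAux

/-- first face of an edge of the complete graph on four vertices (faces = triangles, named by
the opposite vertex). -/
def l4 (e : Sym2 (Fin 4)) : Fin 4 := if 0 ∉ e then 0 else if 1 ∉ e then 1 else 2

/-- second face. -/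
def r4 (e : Sym2 (Fin 4)) : Fin 4 := if 3 ∉ e then 3 else if 2 ∉ e then 2 else 1

/-- the edges of the complete graph on four vertices -/
def E4 : Finset (Sym2 (Fin 4)) := {s(0, 1), s(0, 2), s(0, 3), s(1, 2), s(1, 3), s(2, 3)}

/-- cuts as finsets -/
def cut4 (J : Finset (Fin 4)) : Finset (Sym2 (Fin 4)) :=
  E4.filter (fun e => ¬ (l4 e ∈ J ↔ r4 e ∈ J))

theorem even4 : ∀ J : Finset (Fin 4), ∀ v : Fin 4,
    Even ((cut4 J).filter (fun e => v ∈ e)).card := by
  decide +kernel

theorem exist4 : ∀ Z ∈ E4.powerset, (∀ v : Fin 4, Even (Z.filter (fun e => v ∈ e)).card) →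
    ∃ J : Finset (Fin 4), cut4 J = Z := by
  decide +kernel

theorem conn4 : ∀ J : Finset (Fin 4), cut4 J = ∅ → J = ∅ ∨ J = Finset.univ := by
  decide +kernel

theorem mem_E4 : ∀ e : Sym2 (Fin 4), e ∈ E4 ↔ ¬ e.IsDiag := by
  decide +kernel

theorem mem_top (e : Sym2 (Fin 4)) : e ∈ (⊤ : SimpleGraph (Fin 4)).edgeSet ↔ e ∈ E4 := by
  rw [mem_E4]
  induction e with
  | _ a b => simp

theorem cut_eq (J : Finset (Fin 4)) :
    cut (⊤ : SimpleGraph (Fin 4)) l4 r4 (J : Set (Fin 4)) = (cut4 J : Set (Sym2 (Fin 4))) := by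
  ext e
  simp only [cut, cut4, Set.mem_ofPred_eq, Finset.coe_filter, mem_top, Finset.mem_coe]

theorem ncard_eq (Z : Finset (Sym2 (Fin 4))) (v : Fin 4) :
    {e | e ∈ (Z : Set (Sym2 (Fin 4))) ∧ v ∈ e}.ncard = (Z.filter (fun e => v ∈ e)).card := by
  rw [← Set.ncard_coe_finset]
  congr 1
  ext e
  simp

theorem exists_coe {α : Type} [Finite α] (J : Set α) : ∃ Jf : Finset α, (Jf : Set α) = J :=
  ⟨J.toFinite.toFinset, by simp⟩

theorem dual4 : HasDual (⊤ : SimpleGraph (Fin 4)) := by
  refine ⟨Fin 4, l4, r4, inferInstance, inferInstance, ?_, ?_, ?_⟩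
  · intro J
    obtain ⟨J, rfl⟩ := exists_coe J
    intro v
    rw [cut_eq, ncard_eq]
    exact even4 J v
  · intro Z hZ he
    obtain ⟨Z, rfl⟩ := exists_coe Z
    obtain ⟨J, hJ⟩ := exist4 Z (by
      rw [Finset.mem_powerset]
      intro e he
      rw [← mem_top]
      exact hZ (by simpa using he)) (by
      intro v
      have := he v
      rwa [ncard_eq] at this)
    refine ⟨(J : Set (Fin 4)), ?_⟩
    rw [cut_eq, hJ]
  · intro J hJ
    obtain ⟨J, rfl⟩ := exists_coe J
    rw [cut_eq] at hJ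
    have hJ' : cut4 J = ∅ := by
      rw [← Finset.coe_eq_empty]
      exact hJ
    rcases conn4 J hJ' with h | h
    · left
      simp [h]
    · right
      simp [h]

/-- pulling a dual back along a map that is injective on the support -/
theorem dual_pull {V W : Type} [Finite V] [Finite W] (G : SimpleGraph V) (f : V → W)
    (hf : Set.InjOn f G.support) (h : HasDual (G.map f)) : HasDual G := by
  obtain ⟨ι, l, r, hfin, hne, hd⟩ := h
  -- edges
  have hmem : ∀ e ∈ G.edgeSet, e.map f ∈ (G.map f).edgeSet := by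
    intro e he
    induction e with
    | _ a b =>
      rw [SimpleGraph.mem_edgeSet] at he
      rw [Sym2.map_mk, SimpleGraph.mem_edgeSet]
      refine SimpleGraph.map_adj_apply' he ?_
      intro hab
      exact he.ne (hf ⟨b, he⟩ ⟨a, he.symm⟩ hab)
  have hinj : ∀ e ∈ G.edgeSet, ∀ e' ∈ G.edgeSet, e.map f = e'.map f → e = e' := by
    intro e he e' he' heq
    induction e with
    | _ a b =>
      induction e' with
      | _ a' b' =>
        rw [SimpleGraph.mem_edgeSet] at he he'
        rw [Sym2.map_mk, Sym2.map_mk, Sym2.eq_iff] at heq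
        rw [Sym2.eq_iff]
        rcases heq with ⟨h1, h2⟩ | ⟨h1, h2⟩
        · left
          exact ⟨hf ⟨b, he⟩ ⟨b', he'⟩ h1, hf ⟨a, he.symm⟩ ⟨a', he'.symm⟩ h2⟩
        · right
          exact ⟨hf ⟨b, he⟩ ⟨a', he'.symm⟩ h1, hf ⟨a, he.symm⟩ ⟨b', he'⟩ h2⟩
  have hsurj : ∀ e' ∈ (G.map f).edgeSet, ∃ e ∈ G.edgeSet, e.map f = e' := by
    intro e' he'
    induction e' with
    | _ a b =>
      rw [SimpleGraph.mem_edgeSet, SimpleGraph.map_adj'] at he'
      obtain ⟨_, u, v, huv, rfl, rfl⟩ := he'
      exact ⟨s(u, v), huv, rfl⟩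
  -- the star at a vertex
  have hstar : ∀ Z ⊆ G.edgeSet, ∀ v ∈ G.support,
      {e' | e' ∈ (Sym2.map f) '' Z ∧ f v ∈ e'}.ncard = {e | e ∈ Z ∧ v ∈ e}.ncard := by
    intro Z hZ v hv
    have : {e' | e' ∈ (Sym2.map f) '' Z ∧ f v ∈ e'} = (Sym2.map f) '' {e | e ∈ Z ∧ v ∈ e} := by
      ext e'
      constructor
      · rintro ⟨⟨e, he, rfl⟩, hv'⟩
        refine ⟨e, ⟨he, ?_⟩, rfl⟩
        rw [Sym2.mem_map] at hv'
        obtain ⟨a, ha, hav⟩ := hv'
        have ha' : a ∈ G.support := by
          have he' := hZ he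
          induction e with
          | _ p q =>
            rw [SimpleGraph.mem_edgeSet] at he'
            rw [Sym2.mem_iff] at ha
            rcases ha with rfl | rfl
            · exact ⟨q, he'⟩
            · exact ⟨p, he'.symm⟩
        rw [← hf ha' hv hav]
        exact ha
      · rintro ⟨e, ⟨he, hv'⟩, rfl⟩
        exact ⟨⟨e, he, rfl⟩, Sym2.mem_map.2 ⟨v, hv', rfl⟩⟩
    rw [this]
    apply Set.InjOn.ncard_image
    intro e he e' he' heq
    exact hinj e (hZ he.1) e' (hZ he'.1) heq
  have hzero : ∀ Z ⊆ G.edgeSet, ∀ v, v ∉ G.support → {e | e ∈ Z ∧ v ∈ e}.ncard = 0 := by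
    intro Z hZ v hv
    have : {e | e ∈ Z ∧ v ∈ e} = ∅ := by
      rw [Set.eq_empty_iff_forall_notMem]
      rintro e ⟨he, hve⟩
      apply hv
      have he' := hZ he
      induction e with
      | _ p q =>
        rw [SimpleGraph.mem_edgeSet] at he'
        rw [Sym2.mem_iff] at hve
        rcases hve with rfl | rfl
        · exact ⟨q, he'⟩
        · exact ⟨p, he'.symm⟩
    rw [this, Set.ncard_empty]
  have hcut : ∀ J : Set ι, cut (G.map f) l r J =
      (Sym2.map f) '' (cut G (fun e => l (e.map f)) (fun e => r (e.map f)) J) := by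
    intro J
    ext e'
    constructor
    · rintro ⟨he', hne⟩
      obtain ⟨e, he, rfl⟩ := hsurj e' he'
      exact ⟨e, ⟨he, hne⟩, rfl⟩
    · rintro ⟨e, ⟨he, hne⟩, rfl⟩
      exact ⟨hmem e he, hne⟩
  have hcutsub : ∀ J : Set ι, cut G (fun e => l (e.map f)) (fun e => r (e.map f)) J ⊆ G.edgeSet :=
    fun J e he => he.1
  refine ⟨ι, fun e => l (e.map f), fun e => r (e.map f), hfin, hne, ?_, ?_, ?_⟩
  · intro J v
    by_cases hv : v ∈ G.support
    · rw [← hstar _ (hcutsub J) v hv, ← hcut]
      exact hd.even J (f v)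
    · rw [hzero _ (hcutsub J) v hv]
      exact Even.zero
  · intro Z hZ he
    obtain ⟨J, hJ⟩ := hd.exist ((Sym2.map f) '' Z) (by
      rintro _ ⟨e, he, rfl⟩
      exact hmem e (hZ he)) (by
      intro w
      by_cases hw : ∃ v ∈ G.support, f v = w
      · obtain ⟨v, hv, rfl⟩ := hw
        rw [hstar Z hZ v hv]
        exact he v
      · have : {e' | e' ∈ (Sym2.map f) '' Z ∧ w ∈ e'} = ∅ := by
          rw [Set.eq_empty_iff_forall_notMem]
          rintro _ ⟨⟨e, he, rfl⟩, hw'⟩
          rw [Sym2.mem_map] at hw'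
          obtain ⟨a, ha, haw⟩ := hw'
          apply hw
          refine ⟨a, ?_, haw⟩
          have he' := hZ he
          induction e with
          | _ p q =>
            rw [SimpleGraph.mem_edgeSet] at he'
            rw [Sym2.mem_iff] at ha
            rcases ha with rfl | rfl
            · exact ⟨q, he'⟩
            · exact ⟨p, he'.symm⟩
        rw [this, Set.ncard_empty]
        exact Even.zero)
    refine ⟨J, ?_⟩
    rw [hcut] at hJ
    ext e
    constructor
    · intro he
      have : e.map f ∈ (Sym2.map f) '' Z := by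
        rw [← hJ]
        exact ⟨e, he, rfl⟩
      obtain ⟨e₂, he₂, heq⟩ := this
      rw [← hinj e₂ (hZ he₂) e (hcutsub J he) heq]
      exact he₂
    · intro he
      have : e.map f ∈ (Sym2.map f) '' (cut G (fun e => l (e.map f)) (fun e => r (e.map f)) J) := by
        rw [hJ]
        exact ⟨e, he, rfl⟩
      obtain ⟨e₂, he₂, heq⟩ := this
      rw [← hinj e₂ (hcutsub J he₂) e (hZ he) heq]
      exact he₂
  · intro J hJ
    apply hd.conn J
    rw [hcut, hJ, Set.image_empty]

/-- a set with at most four elements is injected into `Fin 4` -/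
theorem exists_inj {V : Type} [Finite V] (S : Set V) (h : S.ncard ≤ 4) :
    ∃ f : V → Fin 4, Set.InjOn f S := by
  obtain ⟨T, rfl⟩ := exists_coe S
  rw [Set.ncard_coe_finset] at h
  have e := T.equivFin
  classical
  refine ⟨fun v => if hv : v ∈ T then Fin.castLE h (e ⟨v, hv⟩) else 0, ?_⟩
  intro a ha b hb hab
  have ha' : a ∈ T := by simpa using ha
  have hb' : b ∈ T := by simpa using hb
  simp only [ha', hb', dif_pos] at hab
  have := e.injective (Fin.castLE_injective h hab)
  simpa using this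

end GSmallAux

open GSmallAux Classical

theorem dual_small {V : Type} [Finite V] (G : SimpleGraph V) (h : G.support.ncard ≤ 4) :
    HasDual G := by
  obtain ⟨f, hf⟩ := exists_inj G.support h
  exact dual_pull G f hf (dual_mono le_top dual4)

end Pool.Agent.MP9d6bd1
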