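import Mathlib
import Pool.Agent.Lib.MP_9d6bd1_lc.GDefs

/-!
# MP_9d6bd1_lc: gluing two duals along a face (used by the modules G05 and G06)
-/

set_option autoImplicit false

open Classical

namespace Pool.Agent.MP9d6bd1

namespace GSumAux

/-- identify two points of a disjoint union. -/
theorem exists_glue {ι₁ ι₂ : Type} [Finite ι₁] [Finite ι₂] (p₁ : ι₁) (p₂ : ι₂) :
    ∃ (ι : Type) (φ₁ : ι₁ → ι) (φ₂ : ι₂ → ι), Finite ι ∧ Nonempty ι ∧ φ₁ p₁ = φ₂ p₂ ∧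
      (∀ J₁ J₂, (p₁ ∈ J₁ ↔ p₂ ∈ J₂) → ∃ J, φ₁ ⁻¹' J = J₁ ∧ φ₂ ⁻¹' J = J₂) ∧
      ∀ x, (∃ a, φ₁ a = x) ∨ ∃ b, φ₂ b = x := by
  let R : ι₁ ⊕ ι₂ → ι₁ ⊕ ι₂ → Prop := fun a b => a = Sum.inl p₁ ∧ b = Sum.inr p₂
  refine ⟨Quot R, fun a => Quot.mk R (Sum.inl a), fun b => Quot.mk R (Sum.inr b),
    Finite.of_surjective _ Quot.mk_surjective, ⟨Quot.mk R (Sum.inl p₁)⟩,
    Quot.sound ⟨rfl, rfl⟩, ?_, ?_⟩
  · intro J₁ J₂ h
    have hres : ∀ a b, R a b → (Sum.elim (fun a => a ∈ J₁) (fun b => b ∈ J₂) a) =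
        (Sum.elim (fun a => a ∈ J₁) (fun b => b ∈ J₂) b) := by
      rintro a b ⟨rfl, rfl⟩
      exact propext h
    exact ⟨{q | Quot.lift _ hres q}, rfl, rfl⟩
  · intro x
    obtain ⟨a, rfl⟩ := Quot.mk_surjective x
    rcases a with a | b
    · exact Or.inl ⟨a, rfl⟩
    · exact Or.inr ⟨b, rfl⟩

theorem ncard_sdiff_inter {α : Type} (s t : Set α) (hs : s.Finite) :
    (s \ t).ncard + (s ∩ t).ncard = s.ncard := by
  rw [← Set.ncard_union_eq Set.disjoint_sdiff_inter (hs.subset Set.sdiff_subset)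
    (hs.subset Set.inter_subset_left), Set.sdiff_union_inter]

theorem even_symmDiff' {V : Type} [Finite V] {Y Z : Set (Sym2 V)} (hY : EvenSet Y)
    (hZ : EvenSet Z) : EvenSet (symmDiff Y Z) := by
  intro v
  have h1 := hY v
  have h2 := hZ v
  have hfin : ∀ S : Set (Sym2 V), S.Finite := fun S => S.toFinite
  have e1 : {e | e ∈ symmDiff Y Z ∧ v ∈ e} =
      ({e | e ∈ Y ∧ v ∈ e} \ {e | e ∈ Z ∧ v ∈ e}) ∪
        ({e | e ∈ Z ∧ v ∈ e} \ {e | e ∈ Y ∧ v ∈ e}) := by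
    ext e
    simp only [Set.mem_symmDiff, Set.mem_ofPred_eq, Set.mem_union, Set.mem_sdiff]
    tauto
  have hdisj : Disjoint ({e | e ∈ Y ∧ v ∈ e} \ {e | e ∈ Z ∧ v ∈ e})
      ({e | e ∈ Z ∧ v ∈ e} \ {e | e ∈ Y ∧ v ∈ e}) := by
    rw [Set.disjoint_left]
    intro e h3 h4
    exact h3.2 h4.1
  rw [e1, Set.ncard_union_eq hdisj (hfin _) (hfin _)]
  have e2 := ncard_sdiff_inter {e | e ∈ Y ∧ v ∈ e} {e | e ∈ Z ∧ v ∈ e} (hfin _)
  have e3 := ncard_sdiff_inter {e | e ∈ Z ∧ v ∈ e} {e | e ∈ Y ∧ v ∈ e} (hfin _)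
  rw [Set.inter_comm] at e3
  rw [← e2] at h1
  rw [← e3] at h2
  rw [Nat.even_add] at h1 h2 ⊢
  tauto

theorem cut_compl' {V ι : Type} (G : SimpleGraph V) (l r : Sym2 V → ι) (J : Set ι) :
    cut G l r Jᶜ = cut G l r J := by
  ext e
  simp only [cut, Set.mem_ofPred_eq, Set.mem_compl_iff]
  tauto

/-- the glued structure is a dual. -/
theorem glue_main {V : Type} [Finite V] {G G₁ G₂ : SimpleGraph V} {ι₁ ι₂ ι : Type}
    {l₁ r₁ : Sym2 V → ι₁} {l₂ r₂ : Sym2 V → ι₂} {l r : Sym2 V → ι} (hd₁ : IsDual G₁ l₁ r₁)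
    (hd₂ : IsDual G₂ l₂ r₂) (p₁ : ι₁) (p₂ : ι₂) (φ₁ : ι₁ → ι) (φ₂ : ι₂ → ι)
    (hp : φ₁ p₁ = φ₂ p₂)
    (hJ : ∀ J₁ J₂, (p₁ ∈ J₁ ↔ p₂ ∈ J₂) → ∃ J, φ₁ ⁻¹' J = J₁ ∧ φ₂ ⁻¹' J = J₂)
    (hsurj : ∀ x, (∃ a, φ₁ a = x) ∨ ∃ b, φ₂ b = x)
    (hcut : ∀ J, cut G l r J = symmDiff (cut G₁ l₁ r₁ (φ₁ ⁻¹' J)) (cut G₂ l₂ r₂ (φ₂ ⁻¹' J)))
    (hex : ∀ Z, Z ⊆ G.edgeSet → EvenSet Z → ∃ Z₁ Z₂, Z₁ ⊆ G₁.edgeSet ∧ Z₂ ⊆ G₂.edgeSet ∧
      EvenSet Z₁ ∧ EvenSet Z₂ ∧ symmDiff Z₁ Z₂ = Z)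
    (hcomm : ∀ Z, Z ⊆ G₁.edgeSet → Z ⊆ G₂.edgeSet → EvenSet Z → Z = ∅) :
    IsDual G l r := by
  refine ⟨?_, ?_, ?_⟩
  · intro J
    rw [hcut]
    exact even_symmDiff' (hd₁.even _) (hd₂.even _)
  · intro Z hZ he
    obtain ⟨Z₁, Z₂, h1, h2, h3, h4, h5⟩ := hex Z hZ he
    obtain ⟨J₁, hJ₁⟩ := hd₁.exist Z₁ h1 h3
    obtain ⟨J₂, hJ₂⟩ := hd₂.exist Z₂ h2 h4
    have hJ₂' : ∃ J₂, cut G₂ l₂ r₂ J₂ = Z₂ ∧ (p₁ ∈ J₁ ↔ p₂ ∈ J₂) := by
      by_cases h : p₁ ∈ J₁ ↔ p₂ ∈ J₂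
      · exact ⟨J₂, hJ₂, h⟩
      · refine ⟨J₂ᶜ, by rw [cut_compl', hJ₂], ?_⟩
        rw [Set.mem_compl_iff]
        tauto
    obtain ⟨J₂, hJ₂, h6⟩ := hJ₂'
    obtain ⟨J, hJa, hJb⟩ := hJ J₁ J₂ h6
    exact ⟨J, by rw [hcut, hJa, hJb, hJ₁, hJ₂, h5]⟩
  · intro J h
    rw [hcut] at h
    have h1 : cut G₁ l₁ r₁ (φ₁ ⁻¹' J) = cut G₂ l₂ r₂ (φ₂ ⁻¹' J) := by
      have := symmDiff_eq_bot.1 h
      exact this
    have h2 : cut G₁ l₁ r₁ (φ₁ ⁻¹' J) = ∅ := by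
      refine hcomm _ (fun e he => he.1) ?_ (hd₁.even _)
      rw [h1]
      exact fun e he => he.1
    have h3 := hd₁.conn _ h2
    rw [h1] at h2
    have h4 := hd₂.conn _ h2
    have h5 : p₁ ∈ φ₁ ⁻¹' J ↔ p₂ ∈ φ₂ ⁻¹' J := by
      rw [Set.mem_preimage, Set.mem_preimage, hp]
    rcases h3 with h3 | h3 <;> rcases h4 with h4 | h4
    · left
      ext x
      rcases hsurj x with ⟨a, rfl⟩ | ⟨b, rfl⟩
      · have : a ∉ φ₁ ⁻¹' J := by rw [h3]; exact id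
        simpa using this
      · have : b ∉ φ₂ ⁻¹' J := by rw [h4]; exact id
        simpa using this
    · rw [h3, h4] at h5
      exact absurd (h5.2 trivial) id
    · rw [h3, h4] at h5
      exact absurd (h5.1 trivial) id
    · right
      ext x
      rcases hsurj x with ⟨a, rfl⟩ | ⟨b, rfl⟩
      · have : a ∈ φ₁ ⁻¹' J := by rw [h3]; trivial
        simpa using this
      · have : b ∈ φ₂ ⁻¹' J := by rw [h4]; trivial
        simpa using this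

/-- handshake. -/
theorem sum_even {V : Type} [Fintype V] (G : SimpleGraph V) (Z : Set (Sym2 V))
    (hZ : Z ⊆ G.edgeSet) : Even (∑ v, {e | e ∈ Z ∧ v ∈ e}.ncard) := by
  have h := SimpleGraph.sum_degrees_eq_twice_card_edges (SimpleGraph.fromEdgeSet Z)
  have h1 : ∀ v, {e | e ∈ Z ∧ v ∈ e}.ncard = (SimpleGraph.fromEdgeSet Z).degree v := by
    intro v
    rw [← SimpleGraph.card_incidenceFinset_eq_degree, ← Set.ncard_coe_finset,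
      SimpleGraph.coe_incidenceFinset]
    congr 1
    ext e
    rw [SimpleGraph.incidenceSet, SimpleGraph.edgeSet_fromEdgeSet]
    simp only [Set.mem_ofPred_eq, Set.mem_sdiff]
    constructor
    · rintro ⟨h2, h3⟩
      exact ⟨⟨h2, G.not_isDiag_of_mem_edgeSet (hZ h2)⟩, h3⟩
    · rintro ⟨⟨h2, -⟩, h3⟩
      exact ⟨h2, h3⟩
  rw [Finset.sum_congr rfl fun v _ => h1 v, h]
  exact even_two_mul _

/-- if all degrees outside `{a, b}` are even then the degrees at `a` and `b` have the same parity. -/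
theorem parity_pair {V : Type} [Finite V] (G : SimpleGraph V) (Z : Set (Sym2 V))
    (hZ : Z ⊆ G.edgeSet) (a b : V) (hab : a ≠ b)
    (h : ∀ v, v ≠ a → v ≠ b → Even {e | e ∈ Z ∧ v ∈ e}.ncard) :
    Even {e | e ∈ Z ∧ a ∈ e}.ncard ↔ Even {e | e ∈ Z ∧ b ∈ e}.ncard := by
  have := Fintype.ofFinite V
  have h1 := sum_even G Z hZ
  rw [← Finset.add_sum_erase _ _ (Finset.mem_univ a), ← Finset.add_sum_erase _ _
    (Finset.mem_erase.2 ⟨hab.symm, Finset.mem_univ b⟩)] at h1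
  have h2 : Even (∑ x ∈ (Finset.univ.erase a).erase b, {e | e ∈ Z ∧ x ∈ e}.ncard) := by
    apply Finset.even_sum
    intro v hv
    rw [Finset.mem_erase, Finset.mem_erase] at hv
    exact h v hv.2.1 hv.1
  rw [Nat.even_add, Nat.even_add] at h1
  tauto

theorem parity_single {V : Type} [Finite V] (G : SimpleGraph V) (Z : Set (Sym2 V))
    (hZ : Z ⊆ G.edgeSet) (a : V) (h : ∀ v, v ≠ a → Even {e | e ∈ Z ∧ v ∈ e}.ncard) :
    Even {e | e ∈ Z ∧ a ∈ e}.ncard := by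
  have := Fintype.ofFinite V
  have h1 := sum_even G Z hZ
  rw [← Finset.add_sum_erase _ _ (Finset.mem_univ a)] at h1
  have h2 : Even (∑ x ∈ Finset.univ.erase a, {e | e ∈ Z ∧ x ∈ e}.ncard) := by
    apply Finset.even_sum
    intro v hv
    rw [Finset.mem_erase] at hv
    exact h v hv.1
  rw [Nat.even_add] at h1
  tauto

theorem mem_support_of_mem {V : Type} {G : SimpleGraph V} {e : Sym2 V} {v : V}
    (he : e ∈ G.edgeSet) (hv : v ∈ e) : v ∈ G.support := by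
  induction e with
  | _ x y =>
    rw [SimpleGraph.mem_edgeSet] at he
    rcases Sym2.mem_iff.1 hv with rfl | rfl
    · exact ⟨y, he⟩
    · exact ⟨x, he.symm⟩

end GSumAux

end Pool.Agent.MP9d6bd1
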