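import Mathlib
import Pool.Agent.Lib.MP_9d6bd1_lc.GDefs
import Pool.Agent.Lib.MP_9d6bd1_lc.GSumAux

/-!
# MP_9d6bd1_lc, module G05: 1-sums of duals
-/

set_option autoImplicit false

open Classical

namespace Pool.Agent.MP9d6bd1

open GSumAux

theorem dual_sum1 {V : Type} [Finite V] (G₁ G₂ : SimpleGraph V)
    (h : (G₁.support ∩ G₂.support).Subsingleton) (h₁ : HasDual G₁) (h₂ : HasDual G₂) :
    HasDual (G₁ ⊔ G₂) := by
  obtain ⟨ι₁, l₁, r₁, hf₁, ⟨p₁⟩, hd₁⟩ := h₁
  obtain ⟨ι₂, l₂, r₂, hf₂, ⟨p₂⟩, hd₂⟩ := h₂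
  obtain ⟨ι, φ₁, φ₂, hf, hn, hp, hJ, hs⟩ := exists_glue p₁ p₂
  have hdisj : ∀ e, e ∈ G₁.edgeSet → e ∉ G₂.edgeSet := by
    intro e
    induction e with
    | _ x y =>
      intro h1 h2
      rw [SimpleGraph.mem_edgeSet] at h1 h2
      exact h1.ne (h ⟨⟨y, h1⟩, ⟨y, h2⟩⟩ ⟨⟨x, h1.symm⟩, ⟨x, h2.symm⟩⟩)
  have hedge : (G₁ ⊔ G₂).edgeSet = G₁.edgeSet ∪ G₂.edgeSet := SimpleGraph.edgeSet_sup _ _
  refine ⟨ι, fun e => if e ∈ G₁.edgeSet then φ₁ (l₁ e) else φ₂ (l₂ e),
    fun e => if e ∈ G₁.edgeSet then φ₁ (r₁ e) else φ₂ (r₂ e), hf, hn, ?_⟩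
  refine glue_main hd₁ hd₂ p₁ p₂ φ₁ φ₂ hp hJ hs ?_ ?_ ?_
  · intro J
    ext e
    simp only [cut, Set.mem_symmDiff, Set.mem_ofPred_eq, Set.mem_preimage, hedge, Set.mem_union]
    by_cases h1 : e ∈ G₁.edgeSet
    · have h2 := hdisj e h1
      simp only [h1, h2, if_true]
      tauto
    · simp only [h1, if_false]
      tauto
  · intro Z hZ he
    refine ⟨Z ∩ G₁.edgeSet, Z ∩ G₂.edgeSet, Set.inter_subset_right, Set.inter_subset_right,
      ?_, ?_, ?_⟩
    · have key : ∀ v, v ∉ G₁.support ∩ G₂.support →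
          Even {e | e ∈ Z ∩ G₁.edgeSet ∧ v ∈ e}.ncard := by
        intro v hv
        by_cases hv1 : v ∈ G₁.support
        · have hv2 : v ∉ G₂.support := fun h2 => hv ⟨hv1, h2⟩
          have : {e | e ∈ Z ∩ G₁.edgeSet ∧ v ∈ e} = {e | e ∈ Z ∧ v ∈ e} := by
            ext e
            simp only [Set.mem_ofPred_eq, Set.mem_inter_iff]
            constructor
            · rintro ⟨⟨h3, -⟩, h4⟩
              exact ⟨h3, h4⟩
            · rintro ⟨h3, h4⟩
              refine ⟨⟨h3, ?_⟩, h4⟩
              have h5 := hZ h3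
              rw [hedge] at h5
              rcases h5 with h5 | h5
              · exact h5
              · exact absurd (mem_support_of_mem h5 h4) hv2
          rw [this]
          exact he v
        · have : {e | e ∈ Z ∩ G₁.edgeSet ∧ v ∈ e} = ∅ := by
            ext e
            simp only [Set.mem_ofPred_eq, Set.mem_inter_iff, Set.mem_empty_iff_false, iff_false]
            rintro ⟨⟨-, h3⟩, h4⟩
            exact hv1 (mem_support_of_mem h3 h4)
          rw [this]
          simp
      intro v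
      by_cases hv : v ∈ G₁.support ∩ G₂.support
      · exact parity_single G₁ _ Set.inter_subset_right v
          fun w hw => key w fun hw2 => hw (h hw2 hv)
      · exact key v hv
    · have key : ∀ v, v ∉ G₁.support ∩ G₂.support →
          Even {e | e ∈ Z ∩ G₂.edgeSet ∧ v ∈ e}.ncard := by
        intro v hv
        by_cases hv1 : v ∈ G₂.support
        · have hv2 : v ∉ G₁.support := fun h2 => hv ⟨h2, hv1⟩
          have : {e | e ∈ Z ∩ G₂.edgeSet ∧ v ∈ e} = {e | e ∈ Z ∧ v ∈ e} := by
            ext e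
            simp only [Set.mem_ofPred_eq, Set.mem_inter_iff]
            constructor
            · rintro ⟨⟨h3, -⟩, h4⟩
              exact ⟨h3, h4⟩
            · rintro ⟨h3, h4⟩
              refine ⟨⟨h3, ?_⟩, h4⟩
              have h5 := hZ h3
              rw [hedge] at h5
              rcases h5 with h5 | h5
              · exact absurd (mem_support_of_mem h5 h4) hv2
              · exact h5
          rw [this]
          exact he v
        · have : {e | e ∈ Z ∩ G₂.edgeSet ∧ v ∈ e} = ∅ := by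
            ext e
            simp only [Set.mem_ofPred_eq, Set.mem_inter_iff, Set.mem_empty_iff_false, iff_false]
            rintro ⟨⟨-, h3⟩, h4⟩
            exact hv1 (mem_support_of_mem h3 h4)
          rw [this]
          simp
      intro v
      by_cases hv : v ∈ G₁.support ∩ G₂.support
      · exact parity_single G₂ _ Set.inter_subset_right v
          fun w hw => key w fun hw2 => hw (h hw2 hv)
      · exact key v hv
    · ext e
      simp only [Set.mem_symmDiff, Set.mem_inter_iff]
      constructor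
      · tauto
      · intro h3
        have h5 := hZ h3
        rw [hedge] at h5
        have h6 := hdisj e
        rcases h5 with h5 | h5
        · exact Or.inl ⟨⟨h3, h5⟩, fun h7 => h6 h5 h7.2⟩
        · exact Or.inr ⟨⟨h3, h5⟩, fun h7 => h6 h7.2 h5⟩
  · intro Z h1 h2 _
    ext e
    simp only [Set.mem_empty_iff_false, iff_false]
    exact fun h3 => hdisj e (h1 h3) (h2 h3)

end Pool.Agent.MP9d6bd1
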