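import Mathlib
import Pool.Agent.Lib.MP_9d6bd1_lc.GDefs
import Pool.Agent.Lib.MP_9d6bd1_lc.GSumAux

/-!
# MP_9d6bd1_lc, module G06: 2-sums of duals
-/

set_option autoImplicit false

open Classical

namespace Pool.Agent.MP9d6bd1

open GSumAux

namespace GSum2Aux

theorem edgeSet_sup_edge {V : Type} (G : SimpleGraph V) {a b : V} (hab : a ≠ b) :
    (G ⊔ SimpleGraph.edge a b).edgeSet = G.edgeSet ∪ {s(a, b)} := by
  rw [SimpleGraph.edgeSet_sup, SimpleGraph.edgeSet_edge_of_ne hab]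

theorem eq_of_common {V : Type} {G₁ G₂ : SimpleGraph V} {a b : V}
    (h : G₁.support ∩ G₂.support ⊆ {a, b}) {e : Sym2 V} (h1 : e ∈ G₁.edgeSet)
    (h2 : e ∈ G₂.edgeSet) : e = s(a, b) := by
  induction e with
  | _ x y =>
    rw [SimpleGraph.mem_edgeSet] at h1 h2
    have hx := h ⟨⟨y, h1⟩, ⟨y, h2⟩⟩
    have hy := h ⟨⟨x, h1.symm⟩, ⟨x, h2.symm⟩⟩
    have hxy := h1.ne
    simp only [Set.mem_insert_iff, Set.mem_singleton_iff] at hx hy
    rcases hx with rfl | rfl <;> rcases hy with rfl | rfl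
    · exact absurd rfl hxy
    · rfl
    · exact Sym2.eq_swap
    · exact absurd rfl hxy

/-- splitting an even set of the union. -/
theorem split {V : Type} [Finite V] (G₁ G₂ : SimpleGraph V) (a b : V) (hab : a ≠ b)
    (h : G₁.support ∩ G₂.support ⊆ {a, b}) (Z : Set (Sym2 V))
    (hZ : Z ⊆ (G₁ ⊔ G₂ ⊔ SimpleGraph.edge a b).edgeSet) (he : EvenSet Z) :
    ∃ Z₁ Z₂, Z₁ ⊆ (G₁ ⊔ SimpleGraph.edge a b).edgeSet ∧
      Z₂ ⊆ (G₂ ⊔ SimpleGraph.edge a b).edgeSet ∧ EvenSet Z₁ ∧ EvenSet Z₂ ∧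
      symmDiff Z₁ Z₂ = Z := by
  have hZ' : ∀ e ∈ Z, e ∈ G₁.edgeSet ∨ e ∈ G₂.edgeSet ∨ e = s(a, b) := by
    intro e h1
    have h2 := hZ h1
    rw [edgeSet_sup_edge _ hab, SimpleGraph.edgeSet_sup] at h2
    rcases h2 with (h2 | h2) | h2
    · exact Or.inl h2
    · exact Or.inr (Or.inl h2)
    · exact Or.inr (Or.inr h2)
  rw [edgeSet_sup_edge _ hab, edgeSet_sup_edge _ hab]
  -- it is enough to find the first set
  suffices hs : ∃ Z₁, EvenSet Z₁ ∧ ∀ e, e ≠ s(a, b) → (e ∈ Z₁ ↔ e ∈ Z ∧ e ∈ G₁.edgeSet) by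
    obtain ⟨Z₁, h1, h2⟩ := hs
    refine ⟨Z₁, symmDiff Z₁ Z, ?_, ?_, h1, even_symmDiff' h1 he, ?_⟩
    · intro e h3
      by_cases h4 : e = s(a, b)
      · exact Or.inr h4
      · exact Or.inl ((h2 e h4).1 h3).2
    · intro e h3
      by_cases h4 : e = s(a, b)
      · exact Or.inr h4
      · left
        have h5 := h2 e h4
        rw [Set.mem_symmDiff] at h3
        have h6 := hZ' e
        tauto
    · rw [← symmDiff_assoc, symmDiff_self, bot_symmDiff]
  set Y : Set (Sym2 V) := {e | e ∈ Z ∧ e ∈ G₁.edgeSet ∧ e ≠ s(a, b)} with hY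
  have key : ∀ v, v ≠ a → v ≠ b → Even {e | e ∈ Y ∧ v ∈ e}.ncard := by
    intro v hva hvb
    have hvc : v ∉ s(a, b) := by
      rw [Sym2.mem_iff]
      tauto
    by_cases hv1 : v ∈ G₁.support
    · have hv2 : v ∉ G₂.support := fun h2 => by
        have := h ⟨hv1, h2⟩
        simp only [Set.mem_insert_iff, Set.mem_singleton_iff] at this
        tauto
      have : {e | e ∈ Y ∧ v ∈ e} = {e | e ∈ Z ∧ v ∈ e} := by
        ext e
        simp only [hY, Set.mem_ofPred_eq]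
        constructor
        · rintro ⟨⟨h3, -⟩, h4⟩
          exact ⟨h3, h4⟩
        · rintro ⟨h3, h4⟩
          have h6 : e ≠ s(a, b) := by
            rintro rfl
            exact hvc h4
          refine ⟨⟨h3, ?_, h6⟩, h4⟩
          rcases hZ' e h3 with h5 | h5 | h5
          · exact h5
          · exact absurd (mem_support_of_mem h5 h4) hv2
          · exact absurd h5 h6
      rw [this]
      exact he v
    · have : {e | e ∈ Y ∧ v ∈ e} = ∅ := by
        ext e
        simp only [hY, Set.mem_ofPred_eq, Set.mem_empty_iff_false, iff_false]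
        rintro ⟨⟨-, h3, -⟩, h4⟩
        exact hv1 (mem_support_of_mem h3 h4)
      rw [this]
      simp
  have hpar := parity_pair G₁ Y (fun e he => he.2.1) a b hab key
  by_cases ha : Even {e | e ∈ Y ∧ a ∈ e}.ncard
  · refine ⟨Y, ?_, ?_⟩
    · intro v
      by_cases hva : v = a
      · rw [hva]; exact ha
      by_cases hvb : v = b
      · rw [hvb]; exact hpar.1 ha
      exact key v hva hvb
    · intro e h1
      simp only [hY, Set.mem_ofPred_eq]
      tauto
  · refine ⟨insert s(a, b) Y, ?_, ?_⟩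
    · have hins : ∀ v, v ∈ s(a, b) → ¬ Even {e | e ∈ Y ∧ v ∈ e}.ncard →
          Even {e | e ∈ insert s(a, b) Y ∧ v ∈ e}.ncard := by
        intro v hv hne
        have h1 : {e | e ∈ insert s(a, b) Y ∧ v ∈ e} = insert s(a, b) {e | e ∈ Y ∧ v ∈ e} := by
          ext e
          simp only [Set.mem_ofPred_eq, Set.mem_insert_iff]
          constructor
          · rintro ⟨h2 | h2, h3⟩
            · exact Or.inl h2
            · exact Or.inr ⟨h2, h3⟩
          · rintro (h2 | h2)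
            · rw [h2]
              exact ⟨Or.inl rfl, hv⟩
            · exact ⟨Or.inr h2.1, h2.2⟩
        rw [h1, Set.ncard_insert_of_notMem (fun h2 => h2.1.2.2 rfl) (Set.toFinite _)]
        rw [Nat.even_add_one]
        exact hne
      intro v
      by_cases hva : v = a
      · rw [hva]
        exact hins a (Sym2.mem_mk_left a b) ha
      by_cases hvb : v = b
      · rw [hvb]
        exact hins b (Sym2.mem_mk_right a b) (fun h => ha (hpar.2 h))
      have h1 : {e | e ∈ insert s(a, b) Y ∧ v ∈ e} = {e | e ∈ Y ∧ v ∈ e} := by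
        ext e
        simp only [Set.mem_ofPred_eq, Set.mem_insert_iff]
        constructor
        · rintro ⟨h2 | h2, h3⟩
          · rw [h2, Sym2.mem_iff] at h3
            tauto
          · exact ⟨h2, h3⟩
        · rintro ⟨h2, h3⟩
          exact ⟨Or.inr h2, h3⟩
      rw [h1]
      exact key v hva hvb
    · intro e h1
      simp only [hY, Set.mem_insert_iff, Set.mem_ofPred_eq]
      tauto

end GSum2Aux

open GSum2Aux

theorem dual_sum2 {V : Type} [Finite V] (G₁ G₂ : SimpleGraph V) (a b : V) (hab : a ≠ b)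
    (h : G₁.support ∩ G₂.support ⊆ {a, b}) (h₁ : HasDual (G₁ ⊔ SimpleGraph.edge a b))
    (h₂ : HasDual (G₂ ⊔ SimpleGraph.edge a b)) :
    HasDual (G₁ ⊔ G₂ ⊔ SimpleGraph.edge a b) := by
  obtain ⟨ι₁, l₁, r₁, hf₁, -, hd₁⟩ := h₁
  obtain ⟨ι₂, l₂, r₂, hf₂, -, hd₂⟩ := h₂
  obtain ⟨ι, φ₁, φ₂, hf, hn, hp, hJ, hs⟩ := exists_glue (l₁ s(a, b)) (l₂ s(a, b))
  have hc₁ : ∀ e, e ∈ (G₁ ⊔ SimpleGraph.edge a b).edgeSet ↔ e ∈ G₁.edgeSet ∨ e = s(a, b) := by
    intro e
    rw [edgeSet_sup_edge _ hab, Set.mem_union, Set.mem_singleton_iff]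
  have hc₂ : ∀ e, e ∈ (G₂ ⊔ SimpleGraph.edge a b).edgeSet ↔ e ∈ G₂.edgeSet ∨ e = s(a, b) := by
    intro e
    rw [edgeSet_sup_edge _ hab, Set.mem_union, Set.mem_singleton_iff]
  have hc : ∀ e, e ∈ (G₁ ⊔ G₂ ⊔ SimpleGraph.edge a b).edgeSet ↔
      (e ∈ G₁.edgeSet ∨ e ∈ G₂.edgeSet) ∨ e = s(a, b) := by
    intro e
    rw [edgeSet_sup_edge _ hab, SimpleGraph.edgeSet_sup, Set.mem_union, Set.mem_union,
      Set.mem_singleton_iff]
  refine ⟨ι, fun e => if e = s(a, b) then φ₁ (r₁ e) else if e ∈ G₁.edgeSet then φ₁ (l₁ e)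
    else φ₂ (l₂ e), fun e => if e = s(a, b) then φ₂ (r₂ e) else if e ∈ G₁.edgeSet then
    φ₁ (r₁ e) else φ₂ (r₂ e), hf, hn, ?_⟩
  refine glue_main hd₁ hd₂ _ _ φ₁ φ₂ hp hJ hs ?_ (split G₁ G₂ a b hab h) ?_
  · intro J
    ext e
    simp only [cut, Set.mem_symmDiff, Set.mem_ofPred_eq, Set.mem_preimage, hc, hc₁, hc₂]
    by_cases h0 : e = s(a, b)
    · simp only [h0, if_true, hp]
      tauto
    · by_cases h1 : e ∈ G₁.edgeSet
      · have h2 : e ∉ G₂.edgeSet := fun h2 => h0 (eq_of_common h h1 h2)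
        simp only [h0, h1, h2, if_true, if_false]
        tauto
      · simp only [h0, h1, if_false]
        tauto
  · intro Z h1 h2 he
    have hZ : ∀ e ∈ Z, e = s(a, b) := by
      intro e h3
      rcases (hc₁ e).1 (h1 h3) with h4 | h4
      · rcases (hc₂ e).1 (h2 h3) with h5 | h5
        · exact eq_of_common h h4 h5
        · exact h5
      · exact h4
    by_contra hne
    obtain ⟨e, h3⟩ := Set.nonempty_iff_ne_empty.2 hne
    have h4 := hZ e h3
    have h5 : {e | e ∈ Z ∧ a ∈ e} = {s(a, b)} := by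
      ext f
      simp only [Set.mem_ofPred_eq, Set.mem_singleton_iff]
      constructor
      · rintro ⟨h6, -⟩
        exact hZ f h6
      · rintro rfl
        exact ⟨h4 ▸ h3, Sym2.mem_mk_left a b⟩
    have h6 := he a
    rw [h5, Set.ncard_singleton] at h6
    exact Nat.not_even_one h6

end Pool.Agent.MP9d6bd1
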