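import Mathlib
import Pool.Agent.Lib.MP_9d6bd1_lc.GDefs
import Pool.Agent.Lib.MP_9d6bd1_lc.GMinor
import Pool.Agent.Lib.MP_9d6bd1_lc.GDualMono
import Pool.Agent.Lib.MP_9d6bd1_lc.GDualMinor
import Pool.Agent.Lib.MP_9d6bd1_lc.GKur
import Pool.Agent.Lib.MP_9d6bd1_lc.GSum1
import Pool.Agent.Lib.MP_9d6bd1_lc.GSum2
import Pool.Agent.Lib.MP_9d6bd1_lc.GLift
import Pool.Agent.Lib.MP_9d6bd1_lc.GContrEdge
import Pool.Agent.Lib.MP_9d6bd1_lc.GSmall

/-!
# MP_9d6bd1_lc: Wagner's theorem, planar graphs are the graphs with an abstract dual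
-/

set_option autoImplicit false

open Classical

namespace Pool.Agent.MP9d6bd1

namespace GWagnerAux

theorem walk_mem {V : Type} {H : SimpleGraph V} {z a : V} (q : H.Walk z a) (w : V)
    (hw : w ∈ q.support) : w = z ∨ w ∈ H.support := by
  induction q with
  | nil => left; simpa using hw
  | cons h q ih =>
    rw [SimpleGraph.Walk.support_cons, List.mem_cons] at hw
    rcases hw with rfl | hw
    · left; rfl
    · right
      rcases ih hw with rfl | h'
      · exact ⟨_, h.symm⟩
      · exact h'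

/-- the vertices of a path from `a` to `b` without `b`. -/
theorem path_set {V : Type} (H : SimpleGraph V) (a b : V) (hab : a ≠ b) (h : H.Reachable a b) :
    ∃ Z : Set V, a ∈ Z ∧ b ∉ Z ∧ Z ⊆ H.support ∧ (H.induce Z).Connected ∧ ∃ z ∈ Z, H.Adj z b := by
  obtain ⟨p, hp⟩ := h.symm.exists_isPath
  cases p with
  | nil => exact absurd rfl hab
  | @cons _ z _ hz q =>
    rw [SimpleGraph.Walk.cons_isPath_iff] at hp
    refine ⟨{v | v ∈ q.support}, q.end_mem_support, hp.2, ?_, q.connected_induce_support, z,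
      q.start_mem_support, hz.symm⟩
    intro w hw
    rcases walk_mem q w hw with rfl | h'
    · exact ⟨_, hz.symm⟩
    · exact h'

theorem edge_le_iff {V : Type} (G : SimpleGraph V) (a b : V) (h : G.Adj a b) :
    SimpleGraph.edge a b ≤ G := by
  intro u v huv
  rw [SimpleGraph.edge_adj] at huv
  rcases huv.1 with ⟨rfl, rfl⟩ | ⟨rfl, rfl⟩
  · exact h
  · exact h.symm

/-- if `a` and `b` are connected in `G₂` then `G₁` plus the edge `ab` is a minor of `G₁ ⊔ G₂`. -/
theorem planar_add_edge {V : Type} (G₁ G₂ : SimpleGraph V) (a b : V) (hab : a ≠ b)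
    (h : G₁.support ∩ G₂.support ⊆ {a, b}) (hG : Planar (G₁ ⊔ G₂)) (hr : G₂.Reachable a b) :
    Planar (G₁ ⊔ SimpleGraph.edge a b) := by
  obtain ⟨Z, haZ, hbZ, hZs, hZc, z, hzZ, hzb⟩ := path_set G₂ a b hab hr
  have hZc' : ((G₁ ⊔ G₂).induce Z).Connected := by
    refine hZc.mono ?_
    intro u v huv
    exact Or.inr huv
  have hP := planar_collapse (G₁ ⊔ G₂) Z a haZ hZc' hG
  refine planar_mono ?_ hP
  have hfix : ∀ u ∈ G₁.support, (if u ∈ Z then a else u) = u := by
    intro u hu
    split_ifs with huZ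
    · have h1 : u ∈ ({a, b} : Set V) := h ⟨hu, hZs huZ⟩
      rcases h1 with rfl | h1
      · rfl
      · rw [Set.mem_singleton_iff] at h1
        subst h1
        exact absurd huZ hbZ
    · rfl
  refine sup_le ?_ ?_
  · intro u v huv
    refine ⟨huv.ne, u, v, Or.inl huv, hfix u ⟨v, huv⟩, hfix v ⟨u, huv.symm⟩⟩
  · apply edge_le_iff
    refine ⟨hab, z, b, Or.inr hzb, ?_, ?_⟩
    · simp [hzZ]
    · simp [hbZ]

/-- the induction hypothesis. -/
def IH {V : Type} (G : SimpleGraph V) : Prop :=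
  ∀ H : SimpleGraph V, H.edgeSet.ncard < G.edgeSet.ncard → Planar H → HasDual H

theorem lt_of_sub {V : Type} [Finite V] {H G : SimpleGraph V} (h : H ≤ G) (e : Sym2 V)
    (he : e ∈ G.edgeSet) (he' : e ∉ H.edgeSet) : H.edgeSet.ncard < G.edgeSet.ncard := by
  apply Set.ncard_lt_ncard _ (Set.toFinite _)
  refine ⟨SimpleGraph.edgeSet_mono h, fun h' => he' (h' he)⟩

theorem split1 {V : Type} [Finite V] (G G₁ G₂ : SimpleGraph V) (hI : IH G) (hG : Planar G)
    (hs : G₁ ⊔ G₂ = G) (hd : Disjoint G₁.edgeSet G₂.edgeSet) (h₁ : G₁.edgeSet.Nonempty)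
    (h₂ : G₂.edgeSet.Nonempty) (h : (G₁.support ∩ G₂.support).Subsingleton) : HasDual G := by
  have hl₁ : G₁ ≤ G := hs ▸ le_sup_left
  have hl₂ : G₂ ≤ G := hs ▸ le_sup_right
  obtain ⟨e₁, he₁⟩ := h₁
  obtain ⟨e₂, he₂⟩ := h₂
  have a₁ : HasDual G₁ := hI G₁ (lt_of_sub hl₁ e₂ (SimpleGraph.edgeSet_mono hl₂ he₂)
    (fun h' => Set.disjoint_left.1 hd h' he₂)) (planar_mono hl₁ hG)
  have a₂ : HasDual G₂ := hI G₂ (lt_of_sub hl₂ e₁ (SimpleGraph.edgeSet_mono hl₁ he₁)
    (fun h' => Set.disjoint_left.1 hd he₁ h')) (planar_mono hl₂ hG)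
  rw [← hs]
  exact dual_sum1 G₁ G₂ h a₁ a₂

theorem inc_le {V : Type} (G : SimpleGraph V) (Z : Set V) : inc G Z ≤ G := fun _ _ h => h.1

theorem off_le {V : Type} (G : SimpleGraph V) (Z : Set V) : off G Z ≤ G := fun _ _ h => h.1

theorem inc_sup_off {V : Type} (G : SimpleGraph V) (Z : Set V) : inc G Z ⊔ off G Z = G := by
  apply le_antisymm (sup_le (inc_le G Z) (off_le G Z))
  intro u v huv
  by_cases h : u ∈ Z ∨ v ∈ Z
  · exact Or.inl ⟨huv, h⟩
  · push Not at h
    exact Or.inr ⟨huv, h.1, h.2⟩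

theorem inc_off_disj {V : Type} (G : SimpleGraph V) (Z : Set V) :
    Disjoint (inc G Z).edgeSet (off G Z).edgeSet := by
  rw [Set.disjoint_left]
  intro e
  induction e using Sym2.ind with
  | _ u v =>
    intro h1 h2
    rw [SimpleGraph.mem_edgeSet] at h1 h2
    rcases h1.2 with h | h
    · exact h2.2.1 h
    · exact h2.2.2 h

/-- if `a` and `b` are in different components of `G₂` there is a smaller separation. -/
theorem split_unreach {V : Type} [Finite V] (G G₁ G₂ : SimpleGraph V) (hI : IH G) (hG : Planar G)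
    (hs : G₁ ⊔ G₂ = G) (hd : Disjoint G₁.edgeSet G₂.edgeSet) (h₁ : G₁.edgeSet.Nonempty) (a b : V)
    (h : G₁.support ∩ G₂.support ⊆ {a, b}) (ha : a ∈ G₂.support) (hr : ¬ G₂.Reachable a b) :
    HasDual G := by
  set D : Set V := {z | G₂.Reachable a z} with hD
  have haD : a ∈ D := SimpleGraph.Reachable.refl _
  have hbD : b ∉ D := hr
  have hinc : ∀ u v, (inc G₂ D).Adj u v → u ∈ D := by
    intro u v huv
    rcases huv.2 with h' | h'
    · exact h'
    · exact h'.trans (huv.1.symm.reachable)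
  have key : HasDual G := by
    refine split1 G (G₁ ⊔ off G₂ D) (inc G₂ D) hI hG ?_ ?_ ?_ ?_ ?_
    · rw [sup_assoc, sup_comm (off G₂ D), inc_sup_off]; exact hs
    · rw [SimpleGraph.edgeSet_sup, Set.disjoint_union_left]
      exact ⟨hd.mono_right (SimpleGraph.edgeSet_mono (inc_le _ _)), (inc_off_disj G₂ D).symm⟩
    · obtain ⟨e, he⟩ := h₁
      exact ⟨e, SimpleGraph.edgeSet_mono le_sup_left he⟩
    · obtain ⟨w, hw⟩ := ha
      exact ⟨s(a, w), (SimpleGraph.mem_edgeSet _).2 ⟨hw, Or.inl haD⟩⟩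
    · have hsub : ((G₁ ⊔ off G₂ D).support ∩ (inc G₂ D).support) ⊆ {a} := by
        rintro w ⟨⟨u, hu⟩, ⟨v, hv⟩⟩
        have hwD : w ∈ D := hinc w v hv
        rcases hu with hu | hu
        · have h1 : w ∈ ({a, b} : Set V) := h ⟨⟨u, hu⟩, ⟨v, hv.1⟩⟩
          rcases h1 with h1 | h1
          · exact h1
          · rw [Set.mem_singleton_iff] at h1
            subst h1
            exact absurd hwD hbD
        · exact absurd hwD hu.2.1
      exact Set.subsingleton_singleton.anti hsub
  exact key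

/-- adding the edge `ab` to one side gives a smaller graph. -/
theorem small_add {V : Type} [Finite V] (G G₁ G₂ : SimpleGraph V) (hs : G₁ ⊔ G₂ = G)
    (hd : Disjoint G₁.edgeSet G₂.edgeSet) (a b : V) (hab : a ≠ b) (ha : a ∈ G₂.support)
    (hb : b ∈ G₂.support) (h2 : ∃ e ∈ G₂.edgeSet, e ≠ s(a, b)) :
    (G₁ ⊔ SimpleGraph.edge a b).edgeSet.ncard < G.edgeSet.ncard := by
  have hl₁ : G₁ ≤ G := hs ▸ le_sup_left
  have hl₂ : G₂ ≤ G := hs ▸ le_sup_right
  have hes : (G₁ ⊔ SimpleGraph.edge a b).edgeSet ⊆ insert s(a, b) G₁.edgeSet := by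
    intro e
    induction e using Sym2.ind with
    | _ u v =>
      intro he
      rw [SimpleGraph.mem_edgeSet] at he
      rcases he with he | he
      · exact Or.inr he
      · left
        rw [SimpleGraph.edge_adj] at he
        rcases he.1 with ⟨rfl, rfl⟩ | ⟨rfl, rfl⟩
        · rfl
        · exact Sym2.eq_swap
  by_cases hadj : G.Adj a b
  · obtain ⟨e, he, hne⟩ := h2
    refine lt_of_sub (sup_le hl₁ (edge_le_iff G a b hadj)) e (SimpleGraph.edgeSet_mono hl₂ he) ?_
    intro h'
    rcases hes h' with h' | h'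
    · exact hne h'
    · exact Set.disjoint_left.1 hd h' he
  · obtain ⟨a', ha'⟩ := ha
    obtain ⟨b', hb'⟩ := hb
    have hne : s(a, a') ≠ s(b, b') := by
      intro heq
      rw [Sym2.eq_iff] at heq
      rcases heq with ⟨h1, -⟩ | ⟨-, h2⟩
      · exact hab h1
      · rw [h2] at ha'
        exact hadj (hl₂ ha')
    have h1 : (G₁ ⊔ SimpleGraph.edge a b).edgeSet.ncard ≤ G₁.edgeSet.ncard + 1 :=
      (Set.ncard_le_ncard hes (Set.toFinite _)).trans (Set.ncard_insert_le _ _)
    have h3 : insert s(a, a') (insert s(b, b') G₁.edgeSet) ⊆ G.edgeSet := by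
      intro e he
      rcases he with rfl | rfl | he
      · exact hl₂ ha'
      · exact hl₂ hb'
      · exact SimpleGraph.edgeSet_mono hl₁ he
    have hn1 : s(b, b') ∉ G₁.edgeSet := fun h' => Set.disjoint_left.1 hd h' hb'
    have hn2 : s(a, a') ∉ insert s(b, b') G₁.edgeSet := by
      rintro (h' | h')
      · exact hne h'
      · exact Set.disjoint_left.1 hd h' ha'
    have h4 := Set.ncard_le_ncard h3 (Set.toFinite _)
    rw [Set.ncard_insert_of_notMem hn2 (Set.toFinite _),
      Set.ncard_insert_of_notMem hn1 (Set.toFinite _)] at h4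
    omega

theorem main_sep {V : Type} [Finite V] (G G₁ G₂ : SimpleGraph V) (hI : IH G) (hG : Planar G)
    (hs : G₁ ⊔ G₂ = G) (hd : Disjoint G₁.edgeSet G₂.edgeSet) (a b : V)
    (h : G₁.support ∩ G₂.support ⊆ {a, b}) (h1 : ∃ e ∈ G₁.edgeSet, e ≠ s(a, b))
    (h2 : ∃ e ∈ G₂.edgeSet, e ≠ s(a, b)) : HasDual G := by
  have n1 : G₁.edgeSet.Nonempty := by obtain ⟨e, he, -⟩ := h1; exact ⟨e, he⟩
  have n2 : G₂.edgeSet.Nonempty := by obtain ⟨e, he, -⟩ := h2; exact ⟨e, he⟩
  by_cases hsub : (G₁.support ∩ G₂.support).Subsingleton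
  · exact split1 G G₁ G₂ hI hG hs hd n1 n2 hsub
  have hab : a ≠ b := by
    rintro rfl
    apply hsub
    rw [Set.pair_eq_singleton] at h
    exact Set.subsingleton_singleton.anti h
  have hmem : a ∈ G₁.support ∩ G₂.support ∧ b ∈ G₁.support ∩ G₂.support := by
    rw [Set.not_subsingleton_iff] at hsub
    obtain ⟨u, hu, v, hv, huv⟩ := hsub
    have hu' := h hu
    have hv' := h hv
    rcases hu' with rfl | hu' <;> rcases hv' with rfl | hv'
    · exact absurd rfl huv
    · rw [Set.mem_singleton_iff] at hv'; subst hv'; exact ⟨hu, hv⟩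
    · rw [Set.mem_singleton_iff] at hu'; subst hu'; exact ⟨hv, hu⟩
    · rw [Set.mem_singleton_iff] at hu' hv'; subst hu'; exact absurd hv'.symm huv
  by_cases hr₂ : G₂.Reachable a b
  · by_cases hr₁ : G₁.Reachable a b
    · have hG' : Planar (G₁ ⊔ G₂) := hs ▸ hG
      have hG'' : Planar (G₂ ⊔ G₁) := by rw [sup_comm]; exact hG'
      have p1 := planar_add_edge G₁ G₂ a b hab h hG' hr₂
      have p2 := planar_add_edge G₂ G₁ a b hab (by rw [Set.inter_comm]; exact h) hG'' hr₁
      have d1 := hI _ (small_add G G₁ G₂ hs hd a b hab hmem.1.2 hmem.2.2 h2) p1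
      have d2 := hI _ (small_add G G₂ G₁ (by rw [sup_comm]; exact hs) hd.symm a b hab hmem.1.1
        hmem.2.1 h1) p2
      refine dual_mono ?_ (dual_sum2 G₁ G₂ a b hab h d1 d2)
      rw [← hs]
      exact le_sup_left
    · exact split_unreach G G₂ G₁ hI hG (by rw [sup_comm]; exact hs) hd.symm n2 a b
        (by rw [Set.inter_comm]; exact h) hmem.1.1 hr₁
  · exact split_unreach G G₁ G₂ hI hG hs hd n1 a b h hmem.1.2 hr₂

/-- a vertex of a graph without small separations has many neighbours. -/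
theorem deg_ge {V : Type} [Finite V] (G : SimpleGraph V) (h5 : 5 ≤ G.support.ncard)
    (h3 : ∀ a b, (G.induce (G.support \ {a, b})).Preconnected) (x y : V) (hxy : G.Adj x y) :
    2 ≤ {u | u ≠ y ∧ G.Adj x u}.ncard := by
  by_contra hcon
  push Not at hcon
  obtain ⟨u₀, hu₀x, hu₀⟩ : ∃ u₀, u₀ ≠ x ∧ ∀ u, G.Adj x u → u = y ∨ u = u₀ := by
    rcases Set.eq_empty_or_nonempty {u | u ≠ y ∧ G.Adj x u} with h | ⟨u₀, h⟩
    · refine ⟨y, hxy.ne.symm, fun u hu => ?_⟩
      by_contra hne
      push Not at hne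
      have : u ∈ {u | u ≠ y ∧ G.Adj x u} := ⟨hne.1, hu⟩
      rw [h] at this
      exact this
    · refine ⟨u₀, h.2.ne.symm, fun u hu => ?_⟩
      by_contra hne
      push Not at hne
      have h1 : ({u, u₀} : Set V) ⊆ {u | u ≠ y ∧ G.Adj x u} := by
        rintro w (rfl | rfl)
        · exact ⟨hne.1, hu⟩
        · exact h
      have h2 := Set.ncard_le_ncard h1 (Set.toFinite _)
      rw [Set.ncard_pair hne.2] at h2
      omega
  have hx : x ∈ G.support \ {y, u₀} := by
    refine ⟨⟨y, hxy⟩, ?_⟩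
    rintro (h | h)
    · exact hxy.ne h
    · exact hu₀x h.symm
  obtain ⟨w, hw, hwx⟩ : ∃ w ∈ G.support \ {y, u₀}, w ≠ x := by
    by_contra hno
    push Not at hno
    have h1 : G.support ⊆ {x, y, u₀} := by
      intro w hw
      by_cases h : w ∈ ({y, u₀} : Set V)
      · exact Or.inr h
      · exact Or.inl (hno w ⟨hw, h⟩)
    have h2 := Set.ncard_le_ncard h1 (Set.toFinite _)
    have h4 : ({x, y, u₀} : Set V).ncard ≤ 3 := by
      refine (Set.ncard_insert_le _ _).trans ?_
      have := Set.ncard_insert_le y ({u₀} : Set V)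
      rw [Set.ncard_singleton] at this
      omega
    omega
  obtain ⟨p⟩ := h3 y u₀ ⟨x, hx⟩ ⟨w, hw⟩
  cases p with
  | nil => exact hwx rfl
  | @cons _ z _ hz q =>
    have h1 : G.Adj x z.1 := hz
    rcases hu₀ z.1 h1 with h | h
    · exact z.2.2 (Or.inl h)
    · exact z.2.2 (Or.inr h)

theorem contr_small {V : Type} [Finite V] (G : SimpleGraph V) (x y : V) (hxy : G.Adj x y) :
    (contr G x y).edgeSet.ncard < G.edgeSet.ncard := by
  have h1 : (contr G x y).edgeSet ⊆
      (Sym2.map (fun t => if t = y then x else t)) '' (G.edgeSet \ {s(x, y)}) := by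
    intro e
    induction e using Sym2.ind with
    | _ u v =>
      intro he
      rw [SimpleGraph.mem_edgeSet] at he
      obtain ⟨hne, u', v', huv', hu, hv⟩ := he
      refine ⟨s(u', v'), ⟨huv', ?_⟩, ?_⟩
      · intro h
        rw [Set.mem_singleton_iff, Sym2.eq_iff] at h
        apply hne
        rcases h with ⟨rfl, rfl⟩ | ⟨rfl, rfl⟩
        · rw [← hu, ← hv]; simp
        · rw [← hu, ← hv]; simp
      · rw [Sym2.map_mk, ← hu, ← hv]
  have h2 := Set.ncard_le_ncard h1 (Set.toFinite _)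
  have h3 : (Sym2.map (fun t => if t = y then x else t) '' (G.edgeSet \ {s(x, y)})).ncard ≤
      (G.edgeSet \ {s(x, y)}).ncard := Set.ncard_image_le (Set.toFinite _)
  have h4 := Set.ncard_sdiff_singleton_lt_of_mem (s := G.edgeSet) (a := s(x, y)) hxy
    (Set.toFinite _)
  omega

end GWagnerAux

open GWagnerAux

theorem planar_of_dual {V : Type} [Finite V] (G : SimpleGraph V) (hG : HasDual G) :
    Planar G :=
  ⟨fun h => not_dual_K5 (dual_minor G _ h hG), fun h => not_dual_K33 (dual_minor G _ h hG)⟩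

theorem wagner {V : Type} [Finite V] (G : SimpleGraph V) (hG : Planar G) : HasDual G := by
  induction hn : G.edgeSet.ncard using Nat.strong_induction_on generalizing G with
  | _ n ih =>
    have hI : IH G := fun H hH hP => ih _ (hn ▸ hH) H hP rfl
    by_cases h4 : G.support.ncard ≤ 4
    · exact dual_small G h4
    have h5 : 5 ≤ G.support.ncard := by omega
    by_cases h3 : ∀ a b, (G.induce (G.support \ {a, b})).Preconnected
    · obtain ⟨x, y, hxy, hz⟩ := exists_contractible G h5 h3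
      refine lift_contr G G x y le_rfl hG hxy (fun _ h => h) (fun _ h => h)
        (G.support \ {x, y}) (fun h => h.2 (Or.inl rfl)) (fun h => h.2 (Or.inr rfl)) ⟨?_, ?_⟩
        ?_ ?_ (deg_ge G h5 h3 x y hxy) (deg_ge G h5 h3 y x hxy.symm)
        (hI _ (contr_small G x y hxy) (planar_contr G x y hxy hG))
      · have h6 := Set.le_ncard_sdiff ({x, y} : Set V) G.support (Set.toFinite _)
        rw [Set.ncard_pair hxy.ne] at h6
        omega
      · intro z
        have h7 : (G.support \ {x, y}) \ {z} = G.support \ {x, y, z} := by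
          ext w
          simp only [Set.mem_sdiff, Set.mem_insert_iff, Set.mem_singleton_iff]
          tauto
        rw [h7]
        exact hz z
      · intro u hu
        by_cases h : u = y
        · exact Or.inl h
        · refine Or.inr ⟨⟨x, hu.symm⟩, ?_⟩
          rintro (h' | h')
          · exact hu.ne h'.symm
          · exact h h'
      · intro u hu
        by_cases h : u = x
        · exact Or.inl h
        · refine Or.inr ⟨⟨y, hu.symm⟩, ?_⟩
          rintro (h' | h')
          · exact h h'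
          · exact hu.ne h'.symm
    · push Not at h3
      obtain ⟨a, b, hnp⟩ := h3
      unfold SimpleGraph.Preconnected at hnp
      push Not at hnp
      obtain ⟨u, v, huv⟩ := hnp
      set C : Set V := {z | ∃ h : z ∈ G.support \ {a, b},
        (G.induce (G.support \ {a, b})).Reachable u ⟨z, h⟩} with hC
      have huC : (u : V) ∈ C := ⟨u.2, SimpleGraph.Reachable.refl _⟩
      have hvC : (v : V) ∉ C := fun h => huv h.2
      have hstep : ∀ z ∈ C, ∀ w, G.Adj z w → w ∈ C ∨ w ∈ ({a, b} : Set V) := by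
        rintro z ⟨hz, hr⟩ w hzw
        by_cases hw : w ∈ ({a, b} : Set V)
        · exact Or.inr hw
        · left
          have hw' : w ∈ G.support \ {a, b} := ⟨⟨z, hzw.symm⟩, hw⟩
          refine ⟨hw', hr.trans ?_⟩
          have : (G.induce (G.support \ {a, b})).Adj ⟨z, hz⟩ ⟨w, hw'⟩ := hzw
          exact this.reachable
      obtain ⟨u', hu'⟩ := u.2.1
      obtain ⟨v', hv'⟩ := v.2.1
      refine main_sep G (inc G C) (off G C) hI hG (inc_sup_off G C) (inc_off_disj G C) a b ?_ ?_ ?_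
      · rintro w ⟨⟨w₁, hw₁⟩, ⟨w₂, hw₂⟩⟩
        rcases hw₁.2 with h | h
        · exact absurd h hw₂.2.1
        · rcases hstep w₁ h w hw₁.1.symm with h' | h'
          · exact absurd h' hw₂.2.1
          · exact h'
      · refine ⟨s(u.1, u'), (SimpleGraph.mem_edgeSet _).2 ⟨hu', Or.inl huC⟩, ?_⟩
        intro h
        rw [Sym2.eq_iff] at h
        rcases h with ⟨h, -⟩ | ⟨h, -⟩
        · exact u.2.2 (Or.inl h)
        · exact u.2.2 (Or.inr h)
      · have hv'C : v' ∉ C := by
          intro h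
          rcases hstep v' h v.1 hv'.symm with h' | h'
          · exact hvC h'
          · exact v.2.2 h'
        refine ⟨s(v.1, v'), (SimpleGraph.mem_edgeSet _).2 ⟨hv', hvC, hv'C⟩, ?_⟩
        intro h
        rw [Sym2.eq_iff] at h
        rcases h with ⟨h, -⟩ | ⟨h, -⟩
        · exact v.2.2 (Or.inl h)
        · exact v.2.2 (Or.inr h)

theorem planar_iff_dual {V : Type} [Finite V] (G : SimpleGraph V) : Planar G ↔ HasDual G :=
  ⟨wagner G, planar_of_dual G⟩

end Pool.Agent.MP9d6bd1
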