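import Mathlib
import Pool.Agent.Lib.MP_9d6bd1_lc.GDefs
import Pool.Agent.Lib.MP_9d6bd1_lc.GEulerA
import Pool.Agent.Lib.MP_9d6bd1_lc.GWagner

/-!
# MP_9d6bd1_lc: Euler bounds for planar graphs
-/

set_option autoImplicit false

open Classical

namespace Pool.Agent.MP9d6bd1

theorem planar_edges {V : Type} [Finite V] (G : SimpleGraph V) (hG : Planar G) :
    G.edgeSet.ncard ≤ 3 * G.support.ncard :=
  GEulerAux.edges_of_dual G (wagner G hG)

theorem planar_bip {V : Type} [Finite V] (G : SimpleGraph V) (hG : Planar G) (X : Set V)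
    (hX : ∀ u v, G.Adj u v → (u ∈ X ↔ v ∉ X)) :
    G.edgeSet.ncard ≤ 2 * G.support.ncard :=
  GEulerAux.bip_of_dual G (wagner G hG) X hX

end Pool.Agent.MP9d6bd1
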