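import Mathlib
import Pool.Agent.Lib.MP_9d6bd1_lc.GDefs
import Pool.Agent.Lib.MP_9d6bd1_lc.GMinor
import Pool.Agent.Lib.MP_9d6bd1_lc.GKur
import Pool.Agent.Lib.MP_9d6bd1_lc.GSum1
import Pool.Agent.Lib.MP_9d6bd1_lc.GSum2
import Pool.Agent.Lib.MP_9d6bd1_lc.GClaw
import Pool.Agent.Lib.MP_9d6bd1_lc.GLift
import Pool.Agent.Lib.MP_9d6bd1_lc.GWagner
import Pool.Agent.Lib.MP_9d6bd1_lc.GEuler

set_option autoImplicit false

/-!
# MP_9d6bd1_lc, module G16: transfer to graphs with finite support on an arbitrary vertex type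
-/

open Classical

namespace Pool.Agent.MP9d6bd1

namespace GTransferAux

theorem map_sup {V W : Type} (f : V → W) (G H : SimpleGraph V) :
    (G ⊔ H).map f = G.map f ⊔ H.map f := by
  ext u v
  simp only [SimpleGraph.map_adj', SimpleGraph.sup_adj]
  constructor
  · rintro ⟨h, a, b, hab | hab, h1, h2⟩
    · exact Or.inl ⟨h, a, b, hab, h1, h2⟩
    · exact Or.inr ⟨h, a, b, hab, h1, h2⟩
  · rintro (⟨h, a, b, hab, h1, h2⟩ | ⟨h, a, b, hab, h1, h2⟩)
    · exact ⟨h, a, b, Or.inl hab, h1, h2⟩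
    · exact ⟨h, a, b, Or.inr hab, h1, h2⟩

theorem map_edge {V W : Type} (f : V ↪ W) (a b : V) :
    (SimpleGraph.edge a b).map f = SimpleGraph.edge (f a) (f b) := by
  ext u v
  simp only [SimpleGraph.map_adj, SimpleGraph.edge_adj]
  constructor
  · rintro ⟨p, q, ⟨h, hne⟩, rfl, rfl⟩
    refine ⟨?_, fun h' => hne (f.injective h')⟩
    rcases h with ⟨rfl, rfl⟩ | ⟨rfl, rfl⟩
    · exact Or.inl ⟨rfl, rfl⟩
    · exact Or.inr ⟨rfl, rfl⟩
  · rintro ⟨⟨rfl, rfl⟩ | ⟨rfl, rfl⟩, hne⟩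
    · exact ⟨a, b, ⟨Or.inl ⟨rfl, rfl⟩, fun h => hne (by rw [h])⟩, rfl, rfl⟩
    · exact ⟨b, a, ⟨Or.inr ⟨rfl, rfl⟩, fun h => hne (by rw [h])⟩, rfl, rfl⟩

theorem map_claw {V W : Type} (f : V ↪ W) (c x y z : V) :
    (claw c x y z).map f = claw (f c) (f x) (f y) (f z) := by
  unfold claw
  rw [map_sup, map_sup, map_edge, map_edge, map_edge]

theorem exists_restrict {V : Type} (G : SimpleGraph V) (S : Set V) (h : G.support ⊆ S) :
    ∃ H : SimpleGraph S, G = H.map (Function.Embedding.subtype (· ∈ S)) := by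
  refine ⟨G.induce S, ?_⟩
  exact ((SimpleGraph.spanningCoe_induce_eq_self (G := G) S).2 h).symm

theorem map_contr {V W : Type} (f : V ↪ W) (G : SimpleGraph V) (x y : V) :
    (contr G x y).map f = contr (G.map f) (f x) (f y) := by
  unfold contr
  rw [SimpleGraph.map_map, SimpleGraph.map_map]
  congr 1
  funext t
  by_cases h : t = y
  · simp [h]
  · simp [h]

theorem support_map' {V W : Type} (f : V ↪ W) (G : SimpleGraph V) (v : V) :
    f v ∈ (G.map f).support ↔ v ∈ G.support := by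
  rw [SimpleGraph.support_map]
  exact f.injective.mem_set_image

theorem twoConn_map {V W : Type} (f : V ↪ W) (G : SimpleGraph V) (B : Set V)
    (h : TwoConn (G.map f) (f '' B)) : TwoConn G B := by
  refine ⟨?_, ?_⟩
  · have := h.1
    rwa [Set.ncard_image_of_injective B f.injective] at this
  · intro z a b
    have h2 := h.2 (f z)
    have key : ∀ w : ↥(f '' B \ {f z}), ∃ u : ↥(B \ {z}), f u.1 = w.1 := by
      rintro ⟨w, ⟨u, hu, rfl⟩, hne⟩
      refine ⟨⟨u, hu, ?_⟩, rfl⟩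
      rintro rfl
      exact hne rfl
    choose g hg using key
    let φ : (G.map f).induce (f '' B \ {f z}) →g G.induce (B \ {z}) :=
      { toFun := g
        map_rel' := by
          intro u v huv
          have h3 : (G.map f).Adj u.1 v.1 := huv
          rw [← hg u, ← hg v, SimpleGraph.map_adj_apply] at h3
          exact h3 }
    have ha : f a.1 ∈ f '' B \ {f z} :=
      ⟨⟨a.1, a.2.1, rfl⟩, fun h' => a.2.2 (f.injective h')⟩
    have hb : f b.1 ∈ f '' B \ {f z} :=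
      ⟨⟨b.1, b.2.1, rfl⟩, fun h' => b.2.2 (f.injective h')⟩
    have h4 := (h2 ⟨f a.1, ha⟩ ⟨f b.1, hb⟩).map φ
    have h5 : φ ⟨f a.1, ha⟩ = a := Subtype.ext (f.injective (hg ⟨f a.1, ha⟩))
    have h6 : φ ⟨f b.1, hb⟩ = b := Subtype.ext (f.injective (hg ⟨f b.1, hb⟩))
    rwa [h5, h6] at h4

theorem le_of_map_le {V W : Type} (f : V ↪ W) (G H : SimpleGraph V) (h : G.map f ≤ H.map f) :
    G ≤ H := by
  intro u v huv
  have h1 : (G.map f).Adj (f u) (f v) := SimpleGraph.map_adj_apply.2 huv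
  exact SimpleGraph.map_adj_apply.1 (h h1)

theorem mem_of_pair {S W : Type} {f : S ↪ W} {x y : S} {v : S} (h : f v ∈ ({f x, f y} : Set W)) :
    v ∈ ({x, y} : Set S) := by
  rcases h with h | h
  · exact Or.inl (f.injective h)
  · exact Or.inr (f.injective h)

theorem mem_of_triple {S W : Type} {f : S ↪ W} {x y z : S} {v : S}
    (h : f v ∈ ({f x, f y, f z} : Set W)) : v ∈ ({x, y, z} : Set S) := by
  rcases h with h | h | h
  · exact Or.inl (f.injective h)
  · exact Or.inr (Or.inl (f.injective h))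
  · exact Or.inr (Or.inr (f.injective h))

theorem edgeSet_ncard_map {V W : Type} (f : V ↪ W) (G : SimpleGraph V) :
    (G.map f).edgeSet.ncard = G.edgeSet.ncard := by
  rw [SimpleGraph.edgeSet_map]
  exact Set.ncard_image_of_injective _ f.sym2Map.injective

theorem support_ncard_map {V W : Type} (f : V ↪ W) (G : SimpleGraph V) :
    (G.map f).support.ncard = G.support.ncard := by
  rw [SimpleGraph.support_map]
  exact Set.ncard_image_of_injective _ f.injective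

/-- the claw sum on a finite vertex type -/
theorem claw_fin {V : Type} [Finite V] (G₁ G₂ : SimpleGraph V) (c c' x y z : V)
    (hd : [x, y, z].Nodup) (h : G₁.support ∩ G₂.support ⊆ {x, y, z}) (hc₁ : c ∉ G₁.support)
    (hc₂ : c' ∉ G₂.support) (hc : c ≠ x ∧ c ≠ y ∧ c ≠ z) (hc' : c' ≠ x ∧ c' ≠ y ∧ c' ≠ z)
    (h₁ : Planar (G₁ ⊔ claw c x y z)) (h₂ : Planar (G₂ ⊔ claw c' x y z)) :
    Planar (G₁ ⊔ G₂) := by
  let s : V ↪ Option V := Function.Embedding.some
  -- the embedding that moves one vertex `d` to `none`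
  have key : ∀ (G : SimpleGraph V) (d : V), d ∉ G.support → (d ≠ x ∧ d ≠ y ∧ d ≠ z) →
      Planar (G ⊔ claw d x y z) →
      HasDual (G.map s ⊔ claw none (some x) (some y) (some z)) := by
    intro G d hdG hdn hp
    let g : V ↪ Option V :=
      ⟨fun v => if v = d then none else some v, by
        intro u v huv
        by_cases hu : u = d <;> by_cases hv : v = d
        · rw [hu, hv]
        · simp [hu, hv] at huv
        · simp [hu, hv] at huv
        · simpa [hu, hv] using huv⟩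
    have hg : ∀ v, v ≠ d → g v = some v := fun v hv => if_neg hv
    have hgd : g d = none := if_pos rfl
    have e1 : G.map g = G.map s := by
      ext u v
      simp only [SimpleGraph.map_adj]
      constructor
      · rintro ⟨a, b, hab, rfl, rfl⟩
        have ha : a ≠ d := by
          rintro rfl
          exact hdG ⟨b, hab⟩
        have hb : b ≠ d := by
          rintro rfl
          exact hdG ⟨a, hab.symm⟩
        exact ⟨a, b, hab, (hg a ha).symm, (hg b hb).symm⟩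
      · rintro ⟨a, b, hab, rfl, rfl⟩
        have ha : a ≠ d := by
          rintro rfl
          exact hdG ⟨b, hab⟩
        have hb : b ≠ d := by
          rintro rfl
          exact hdG ⟨a, hab.symm⟩
        exact ⟨a, b, hab, hg a ha, hg b hb⟩
    have e2 : (G ⊔ claw d x y z).map g = G.map s ⊔ claw none (some x) (some y) (some z) := by
      rw [map_sup, e1, map_claw, hgd, hg x hdn.1.symm, hg y hdn.2.1.symm, hg z hdn.2.2.symm]
    rw [← e2]
    exact wagner _ ((planar_embed _ g).2 hp)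
  have hx := key G₁ c hc₁ hc h₁
  have hy := key G₂ c' hc₂ hc' h₂
  have h3 : HasDual (G₁.map s ⊔ G₂.map s) := by
    refine dual_claw _ _ none (some x) (some y) (some z) ?_ ?_ ?_ ?_ hx hy
    · simpa using hd
    · rw [SimpleGraph.support_map, SimpleGraph.support_map]
      rintro _ ⟨⟨u, hu, rfl⟩, ⟨v, hv, hvu⟩⟩
      have : v = u := s.injective hvu
      subst this
      rcases h ⟨hu, hv⟩ with h | h | h
      · exact Or.inl (by rw [h]; rfl)
      · exact Or.inr (Or.inl (by rw [h]; rfl))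
      · exact Or.inr (Or.inr (by rw [h]; rfl))
    · rw [SimpleGraph.support_map]
      rintro ⟨u, _, hu⟩
      exact Option.some_ne_none u hu
    · rw [SimpleGraph.support_map]
      rintro ⟨u, _, hu⟩
      exact Option.some_ne_none u hu
  have h4 := planar_of_dual _ h3
  rw [← map_sup] at h4
  exact (planar_embed _ s).1 h4

end GTransferAux

open GTransferAux

theorem planar_sum1 {V : Type} (G₁ G₂ : SimpleGraph V) (hf₁ : G₁.support.Finite)
    (hf₂ : G₂.support.Finite) (h : (G₁.support ∩ G₂.support).Subsingleton) (h₁ : Planar G₁)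
    (h₂ : Planar G₂) : Planar (G₁ ⊔ G₂) := by
  have hS : (G₁.support ∪ G₂.support).Finite := hf₁.union hf₂
  obtain ⟨H₁, e₁⟩ := exists_restrict G₁ (G₁.support ∪ G₂.support) Set.subset_union_left
  obtain ⟨H₂, e₂⟩ := exists_restrict G₂ (G₁.support ∪ G₂.support) Set.subset_union_right
  generalize G₁.support ∪ G₂.support = S at *
  have : Finite S := hS
  generalize Function.Embedding.subtype (· ∈ S) = f at *
  subst e₁ e₂
  rw [← map_sup, planar_embed]
  rw [planar_embed] at h₁ h₂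
  refine planar_of_dual _ (dual_sum1 H₁ H₂ ?_ (wagner _ h₁) (wagner _ h₂))
  rintro u ⟨hu1, hu2⟩ v ⟨hv1, hv2⟩
  refine f.injective (h ⟨?_, ?_⟩ ⟨?_, ?_⟩)
  · exact (support_map' f H₁ u).2 hu1
  · exact (support_map' f H₂ u).2 hu2
  · exact (support_map' f H₁ v).2 hv1
  · exact (support_map' f H₂ v).2 hv2

theorem planar_sum2 {V : Type} (G₁ G₂ : SimpleGraph V) (hf₁ : G₁.support.Finite)
    (hf₂ : G₂.support.Finite) (a b : V) (hab : a ≠ b) (h : G₁.support ∩ G₂.support ⊆ {a, b})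
    (h₁ : Planar (G₁ ⊔ SimpleGraph.edge a b)) (h₂ : Planar (G₂ ⊔ SimpleGraph.edge a b)) :
    Planar (G₁ ⊔ G₂ ⊔ SimpleGraph.edge a b) := by
  obtain ⟨S, hS, hs₁, hs₂, ha, hb⟩ : ∃ S : Set V, S.Finite ∧ G₁.support ⊆ S ∧ G₂.support ⊆ S ∧
      a ∈ S ∧ b ∈ S := by
    refine ⟨G₁.support ∪ G₂.support ∪ {a, b}, (hf₁.union hf₂).union (Set.toFinite _), ?_, ?_, ?_,
      ?_⟩
    · exact Set.subset_union_left.trans Set.subset_union_left
    · exact Set.subset_union_right.trans Set.subset_union_left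
    · exact Or.inr (Or.inl rfl)
    · exact Or.inr (Or.inr rfl)
  obtain ⟨H₁, e₁⟩ := exists_restrict G₁ S hs₁
  obtain ⟨H₂, e₂⟩ := exists_restrict G₂ S hs₂
  have : Finite S := hS
  obtain ⟨f, hf⟩ : ∃ f : S ↪ V, f = Function.Embedding.subtype (· ∈ S) := ⟨_, rfl⟩
  obtain ⟨a', rfl⟩ : ∃ a', f a' = a := ⟨⟨a, ha⟩, by rw [hf]; rfl⟩
  obtain ⟨b', rfl⟩ : ∃ b', f b' = b := ⟨⟨b, hb⟩, by rw [hf]; rfl⟩
  rw [← hf] at e₁ e₂
  subst e₁ e₂
  rw [← map_edge, ← map_sup, ← map_sup, planar_embed]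
  rw [← map_edge, ← map_sup, planar_embed] at h₁ h₂
  refine planar_of_dual _ (dual_sum2 H₁ H₂ a' b' (fun hh => hab (by rw [hh])) ?_ (wagner _ h₁)
    (wagner _ h₂))
  rintro u ⟨hu1, hu2⟩
  exact mem_of_pair (h ⟨(support_map' f H₁ u).2 hu1, (support_map' f H₂ u).2 hu2⟩)

/-- the centres `c`, `c'` of the two claws may be different vertices. -/
theorem planar_claw {V : Type} (G₁ G₂ : SimpleGraph V) (hf₁ : G₁.support.Finite)
    (hf₂ : G₂.support.Finite) (c c' x y z : V) (hd : [x, y, z].Nodup)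
    (h : G₁.support ∩ G₂.support ⊆ {x, y, z}) (hc₁ : c ∉ G₁.support) (hc₂ : c' ∉ G₂.support)
    (hc : c ≠ x ∧ c ≠ y ∧ c ≠ z) (hc' : c' ≠ x ∧ c' ≠ y ∧ c' ≠ z)
    (h₁ : Planar (G₁ ⊔ claw c x y z)) (h₂ : Planar (G₂ ⊔ claw c' x y z)) :
    Planar (G₁ ⊔ G₂) := by
  obtain ⟨S, hS, hs₁, hs₂, hcS, hcS', hx, hy, hz⟩ : ∃ S : Set V, S.Finite ∧ G₁.support ⊆ S ∧
      G₂.support ⊆ S ∧ c ∈ S ∧ c' ∈ S ∧ x ∈ S ∧ y ∈ S ∧ z ∈ S := by
    refine ⟨G₁.support ∪ G₂.support ∪ {c, c', x, y, z},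
      (hf₁.union hf₂).union (Set.toFinite _), ?_, ?_, ?_, ?_, ?_, ?_, ?_⟩
    · exact Set.subset_union_left.trans Set.subset_union_left
    · exact Set.subset_union_right.trans Set.subset_union_left
    · exact Or.inr (by simp)
    · exact Or.inr (by simp)
    · exact Or.inr (by simp)
    · exact Or.inr (by simp)
    · exact Or.inr (by simp)
  obtain ⟨H₁, e₁⟩ := exists_restrict G₁ S hs₁
  obtain ⟨H₂, e₂⟩ := exists_restrict G₂ S hs₂
  have : Finite S := hS
  obtain ⟨f, hf⟩ : ∃ f : S ↪ V, f = Function.Embedding.subtype (· ∈ S) := ⟨_, rfl⟩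
  obtain ⟨c1, rfl⟩ : ∃ a', f a' = c := ⟨⟨c, hcS⟩, by rw [hf]; rfl⟩
  obtain ⟨c2, rfl⟩ : ∃ a', f a' = c' := ⟨⟨c', hcS'⟩, by rw [hf]; rfl⟩
  obtain ⟨x', rfl⟩ : ∃ a', f a' = x := ⟨⟨x, hx⟩, by rw [hf]; rfl⟩
  obtain ⟨y', rfl⟩ : ∃ a', f a' = y := ⟨⟨y, hy⟩, by rw [hf]; rfl⟩
  obtain ⟨z', rfl⟩ : ∃ a', f a' = z := ⟨⟨z, hz⟩, by rw [hf]; rfl⟩
  rw [← hf] at e₁ e₂
  subst e₁ e₂
  rw [← map_sup, planar_embed]
  rw [← map_claw, ← map_sup, planar_embed] at h₁ h₂
  refine claw_fin H₁ H₂ c1 c2 x' y' z' ?_ ?_ ?_ ?_ ?_ ?_ h₁ h₂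
  · have := List.Nodup.of_map (l := [x', y', z']) f hd
    exact this
  · rintro u ⟨hu1, hu2⟩
    exact mem_of_triple (h ⟨(support_map' f H₁ u).2 hu1, (support_map' f H₂ u).2 hu2⟩)
  · exact fun hh => hc₁ ((support_map' f H₁ c1).2 hh)
  · exact fun hh => hc₂ ((support_map' f H₂ c2).2 hh)
  · exact ⟨fun hh => hc.1 (by rw [hh]), fun hh => hc.2.1 (by rw [hh]),
      fun hh => hc.2.2 (by rw [hh])⟩
  · exact ⟨fun hh => hc'.1 (by rw [hh]), fun hh => hc'.2.1 (by rw [hh]),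
      fun hh => hc'.2.2 (by rw [hh])⟩

theorem planar_lift {V : Type} (G A : SimpleGraph V) (hf : G.support.Finite) (x y : V)
    (hAG : A ≤ G) (hA : Planar A) (hxy : A.Adj x y) (hxA : ∀ u, G.Adj x u → A.Adj x u)
    (hyA : ∀ u, G.Adj y u → A.Adj y u) (B : Set V) (hBf : B.Finite) (hxB : x ∉ B) (hyB : y ∉ B)
    (hB : TwoConn A B) (hNx : ∀ u, A.Adj x u → u = y ∨ u ∈ B)
    (hNy : ∀ u, A.Adj y u → u = x ∨ u ∈ B) (hdx : 2 ≤ {u | u ≠ y ∧ A.Adj x u}.ncard)
    (hdy : 2 ≤ {u | u ≠ x ∧ A.Adj y u}.ncard) (h : Planar (contr G x y)) : Planar G := by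
  obtain ⟨S, hS, hs, hBS⟩ : ∃ S : Set V, S.Finite ∧ G.support ⊆ S ∧ B ⊆ S :=
    ⟨G.support ∪ B, hf.union hBf, Set.subset_union_left, Set.subset_union_right⟩
  have hsA : A.support ⊆ S := (SimpleGraph.support_mono hAG).trans hs
  have hx : x ∈ S := hsA ⟨y, hxy⟩
  have hy : y ∈ S := hsA ⟨x, hxy.symm⟩
  obtain ⟨G', e₁⟩ := exists_restrict G S hs
  obtain ⟨A', e₂⟩ := exists_restrict A S hsA
  have : Finite S := hS
  obtain ⟨f, hf'⟩ : ∃ f : S ↪ V, f = Function.Embedding.subtype (· ∈ S) := ⟨_, rfl⟩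
  obtain ⟨x', rfl⟩ : ∃ a', f a' = x := ⟨⟨x, hx⟩, by rw [hf']; rfl⟩
  obtain ⟨y', rfl⟩ : ∃ a', f a' = y := ⟨⟨y, hy⟩, by rw [hf']; rfl⟩
  obtain ⟨B', rfl⟩ : ∃ B', f '' B' = B := by
    refine ⟨f ⁻¹' B, Set.image_preimage_eq_of_subset ?_⟩
    intro b hb
    exact ⟨⟨b, hBS hb⟩, by rw [hf']; rfl⟩
  rw [← hf'] at e₁ e₂
  subst e₁ e₂
  rw [← map_contr, planar_embed] at h
  rw [planar_embed] at hA ⊢
  have nb : ∀ u v : S, {w | w ≠ f v ∧ (A'.map f).Adj (f u) w} =
      f '' {w | w ≠ v ∧ A'.Adj u w} := by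
    intro u v
    ext w
    constructor
    · rintro ⟨hw, hadj⟩
      obtain ⟨p, q, hpq, h1, rfl⟩ := (SimpleGraph.map_adj f A' _ _).1 hadj
      have := f.injective h1
      subst this
      exact ⟨q, ⟨fun hh => hw (by rw [hh]), hpq⟩, rfl⟩
    · rintro ⟨q, ⟨hq, hadj⟩, rfl⟩
      exact ⟨fun hh => hq (f.injective hh), SimpleGraph.map_adj_apply.2 hadj⟩
  rw [nb, Set.ncard_image_of_injective _ f.injective] at hdx hdy
  refine planar_of_dual _ (lift_contr G' A' x' y' (le_of_map_le f _ _ hAG) hA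
    (SimpleGraph.map_adj_apply.1 hxy) ?_ ?_ B' ?_ ?_ (twoConn_map f A' B' hB) ?_ ?_ hdx hdy
    (wagner _ h))
  · intro u hu
    exact SimpleGraph.map_adj_apply.1 (hxA (f u) (SimpleGraph.map_adj_apply.2 hu))
  · intro u hu
    exact SimpleGraph.map_adj_apply.1 (hyA (f u) (SimpleGraph.map_adj_apply.2 hu))
  · exact fun hh => hxB ⟨x', hh, rfl⟩
  · exact fun hh => hyB ⟨y', hh, rfl⟩
  · intro u hu
    rcases hNx (f u) (SimpleGraph.map_adj_apply.2 hu) with h1 | ⟨v, hv, h1⟩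
    · exact Or.inl (f.injective h1)
    · rw [f.injective h1] at hv
      exact Or.inr hv
  · intro u hu
    rcases hNy (f u) (SimpleGraph.map_adj_apply.2 hu) with h1 | ⟨v, hv, h1⟩
    · exact Or.inl (f.injective h1)
    · rw [f.injective h1] at hv
      exact Or.inr hv

theorem planar_edges' {V : Type} (G : SimpleGraph V) (hf : G.support.Finite) (hG : Planar G) :
    G.edgeSet.ncard ≤ 3 * G.support.ncard := by
  obtain ⟨S, hS, hs⟩ : ∃ S : Set V, S.Finite ∧ G.support ⊆ S := ⟨G.support, hf, subset_rfl⟩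
  obtain ⟨G', e₁⟩ := exists_restrict G S hs
  have : Finite S := hS
  generalize Function.Embedding.subtype (· ∈ S) = f at *
  subst e₁
  rw [planar_embed] at hG
  rw [edgeSet_ncard_map, support_ncard_map]
  exact planar_edges G' hG

theorem planar_bip' {V : Type} (G : SimpleGraph V) (hf : G.support.Finite) (hG : Planar G)
    (X : Set V) (hX : ∀ u v, G.Adj u v → (u ∈ X ↔ v ∉ X)) :
    G.edgeSet.ncard ≤ 2 * G.support.ncard := by
  obtain ⟨S, hS, hs⟩ : ∃ S : Set V, S.Finite ∧ G.support ⊆ S := ⟨G.support, hf, subset_rfl⟩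
  obtain ⟨G', e₁⟩ := exists_restrict G S hs
  have : Finite S := hS
  generalize Function.Embedding.subtype (· ∈ S) = f at *
  subst e₁
  rw [planar_embed] at hG
  rw [edgeSet_ncard_map, support_ncard_map]
  refine planar_bip G' hG (f ⁻¹' X) ?_
  intro u v huv
  exact hX (f u) (f v) (SimpleGraph.map_adj_apply.2 huv)

end Pool.Agent.MP9d6bd1
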