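import Mathlib
import Pool.Agent.Lib.MP_9d6bd1_lc.GDefs
import Pool.Agent.Lib.MP_9d6bd1_lc.GMinor
import Pool.Agent.Lib.MP_9d6bd1_lc.GTransfer

/-!
# MP_9d6bd1_lc: calculus of reductions, the concrete reductions
-/

set_option autoImplicit false

open Classical

namespace Pool.Agent.MP9d6bd1

namespace GRedBAux

theorem sup_support {V : Type} (G H : SimpleGraph V) : (G ⊔ H).support = G.support ∪ H.support := by
  ext v
  simp only [SimpleGraph.mem_support, SimpleGraph.sup_adj, Set.mem_union, exists_or]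

theorem support_mono' {V : Type} {G H : SimpleGraph V} (h : G ≤ H) : G.support ⊆ H.support := by
  rintro v ⟨w, hw⟩
  exact ⟨w, h hw⟩

theorem edge_support {V : Type} {a b u : V} (h : u ∈ (SimpleGraph.edge a b).support) :
    u = a ∨ u = b := by
  obtain ⟨w, hw⟩ := h
  have hw' := (SimpleGraph.edge_adj (s := a) (t := b) u w).1 hw
  tauto

theorem le_map {V : Type} {G G' : SimpleGraph V} {f : V → V}
    (h : ∀ u v, G'.Adj u v → ∃ u' v', G.Adj u' v' ∧ f u' = u ∧ f v' = v) : G' ≤ G.map f :=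
  fun u v huv => ⟨huv.ne, h u v huv⟩

/-- the map which merges `y` into `x`. -/
noncomputable def cmap {V : Type} (x y t : V) : V := if t = y then x else t

theorem cmap_ne {V : Type} {x y t : V} (h : t ≠ y) : cmap x y t = t := if_neg h

theorem cmap_cases {V : Type} (x y t : V) : cmap x y t = x ∨ cmap x y t = t := by
  unfold cmap
  split_ifs
  · exact Or.inl rfl
  · exact Or.inr rfl

theorem contr_adj {V : Type} (G : SimpleGraph V) (x y u v : V) : (contr G x y).Adj u v ↔
    u ≠ v ∧ ∃ u' v', G.Adj u' v' ∧ cmap x y u' = u ∧ cmap x y v' = v := Iff.rfl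

theorem inc_off {V : Type} (A : SimpleGraph V) (Z : Set V) : inc A Z ⊔ off A Z = A := by
  ext u v
  simp only [SimpleGraph.sup_adj, inc, off]
  tauto

theorem inc_le {V : Type} (A : SimpleGraph V) (Z : Set V) : inc A Z ≤ A := fun _ _ h => h.1

theorem off_le {V : Type} (A : SimpleGraph V) (Z : Set V) : off A Z ≤ A := fun _ _ h => h.1

theorem inc_support {V : Type} (A : SimpleGraph V) (Z : Set V) {u : V}
    (h : u ∈ (inc A Z).support) : u ∈ Z ∨ u ∈ nbr A Z := by
  obtain ⟨w, hw, hw'⟩ := h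
  by_cases hu : u ∈ Z
  · exact Or.inl hu
  · exact Or.inr ⟨hu, w, hw'.resolve_left hu, hw⟩

theorem off_support {V : Type} (A : SimpleGraph V) (Z : Set V) {u : V}
    (h : u ∈ (off A Z).support) : u ∉ Z := by
  obtain ⟨w, hw⟩ := h
  exact hw.2.1

/-- the common vertices of the two parts are attachments. -/
theorem inter_support {T Z : Set ℕ} {A Q : SimpleGraph ℕ} (hT : Disjoint Z T)
    (hQ : Disjoint Q.support (A.support \ T)) :
    (inc A Z).support ∩ (off A Z ⊔ Q).support ⊆ nbr A Z := by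
  rintro u ⟨hu1, hu2⟩
  rcases inc_support A Z hu1 with h | h
  · exfalso
    rw [sup_support] at hu2
    rcases hu2 with h2 | h2
    · exact off_support A Z h2 h
    · exact Set.disjoint_left.1 hQ h2
        ⟨support_mono' (inc_le A Z) hu1, fun h3 => Set.disjoint_left.1 hT h h3⟩
  · exact h

theorem split {A Q : SimpleGraph ℕ} (Z : Set ℕ) : inc A Z ⊔ (off A Z ⊔ Q) = A ⊔ Q := by
  rw [← sup_assoc, inc_off]

/-- a connected set with an attachment consists of vertices of the support. -/
theorem sub_support {A : SimpleGraph ℕ} {Z : Set ℕ} (hZ : (A.induce Z).Connected) {a : ℕ}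
    (ha : a ∈ nbr A Z) : Z ⊆ A.support := by
  obtain ⟨ha1, z, hz, haz⟩ := ha
  intro u hu
  by_cases h : u = z
  · rw [h]
    exact ⟨a, haz.symm⟩
  · obtain ⟨q⟩ := hZ.preconnected ⟨u, hu⟩ ⟨z, hz⟩
    cases q with
    | nil => exact absurd rfl h
    | @cons _ w _ h _ => exact ⟨w, h⟩

theorem Q_disj {T Z : Set ℕ} {A Q : SimpleGraph ℕ} (hT : Disjoint Z T)
    (hQ : Disjoint Q.support (A.support \ T)) (hZ : Z ⊆ A.support) {u : ℕ}
    (hu : u ∈ Q.support) : u ∉ Z := fun h =>
  Set.disjoint_left.1 hQ hu ⟨hZ h, fun h3 => Set.disjoint_left.1 hT h h3⟩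

/-- the edges from the contracted set to an attachment. -/
theorem collapse_edge {V : Type} {A : SimpleGraph V} {Z : Set V} {f : V → V} {w x : V}
    (hw : ∀ z ∈ Z, f z = w) (hx : x ∈ nbr A Z) (hfx : f x = x) {u v : V}
    (h : (SimpleGraph.edge w x).Adj u v) : ∃ u' v', A.Adj u' v' ∧ f u' = u ∧ f v' = v := by
  obtain ⟨_, z, hz, hxz⟩ := hx
  rw [SimpleGraph.edge_adj] at h
  rcases h with ⟨⟨rfl, rfl⟩ | ⟨rfl, rfl⟩, _⟩
  · exact ⟨z, v, hxz.symm, hw z hz, hfx⟩
  · exact ⟨u, z, hxz, hfx, hw z hz⟩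

theorem induce_conn_mono {V : Type} {G G' : SimpleGraph V} (h : G ≤ G') {Z : Set V}
    (hZ : (G.induce Z).Connected) : (G'.induce Z).Connected :=
  hZ.mono (fun _ _ h1 => h h1)

theorem walk_support {V : Type} {Q : SimpleGraph V} {u v : V} (p : Q.Walk u v) :
    ∀ x ∈ p.support, x = v ∨ x ∈ Q.support := by
  induction p with
  | nil =>
    intro x hx
    rw [SimpleGraph.Walk.support_nil, List.mem_singleton] at hx
    exact Or.inl hx
  | cons h q ih =>
    intro x hx
    rw [SimpleGraph.Walk.support_cons, List.mem_cons] at hx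
    rcases hx with rfl | hx
    · exact Or.inr ⟨_, h⟩
    · exact ih x hx

/-- a path of `Q` from `a` to `b` can be contracted to the edge `a b`. -/
theorem glue_path {V : Type} {A Q : SimpleGraph V} {a b : V} (hab : a ≠ b)
    (hd : Q.support ∩ A.support ⊆ {a, b}) (hr : Q.Reachable b a) (h : Planar (A ⊔ Q)) :
    Planar (A ⊔ SimpleGraph.edge a b) := by
  obtain ⟨p0⟩ := hr
  obtain ⟨p, hp⟩ : ∃ p : Q.Walk b a, p.IsPath := ⟨p0.bypass, p0.bypass_isPath⟩
  cases p with
  | nil => exact absurd rfl hab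
  | @cons _ w _ hbw q =>
    rw [SimpleGraph.Walk.cons_isPath_iff] at hp
    obtain ⟨Z, hZ⟩ : ∃ Z : Set V, Z = {x | x ∈ q.support} := ⟨_, rfl⟩
    have hmem : ∀ x, x ∈ Z ↔ x ∈ q.support := fun x => by rw [hZ]; rfl
    have hconn : (Q.induce Z).Connected := by
      rw [hZ]
      exact q.connected_induce_support
    have haZ : a ∈ Z := (hmem a).2 q.end_mem_support
    have h1 := planar_collapse (A ⊔ Q) Z a haZ (induce_conn_mono le_sup_right hconn) h
    refine planar_mono (le_map ?_) h1
    have hfix : ∀ u ∈ A.support, (if u ∈ Z then a else u) = u := by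
      intro u hu
      split_ifs with h2
      · rw [hmem] at h2
        rcases walk_support q u h2 with h3 | h3
        · exact h3.symm
        · rcases hd ⟨h3, hu⟩ with h4 | h4
          · exact h4.symm
          · rw [Set.mem_singleton_iff] at h4
            rw [h4] at h2
            exact absurd h2 hp.2
      · rfl
    intro u v huv
    rcases huv with huv | huv
    · exact ⟨u, v, Or.inl huv, hfix u ⟨v, huv⟩, hfix v ⟨u, huv.symm⟩⟩
    · have hfb : (if b ∈ Z then a else b) = b := if_neg fun h2 => hp.2 ((hmem b).1 h2)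
      have hfw : (if w ∈ Z then a else w) = a := if_pos ((hmem w).2 q.start_mem_support)
      rw [SimpleGraph.edge_adj] at huv
      rcases huv with ⟨⟨rfl, rfl⟩ | ⟨rfl, rfl⟩, _⟩
      · exact ⟨w, v, Or.inr hbw.symm, hfw, hfb⟩
      · exact ⟨u, w, Or.inr hbw, hfb, hfw⟩

/-- no path of `Q` from `a` to `b`. -/
theorem glue_nopath {V : Type} {A Q : SimpleGraph V} {a b : V} (hA : A.support.Finite)
    (hQ : Q.support.Finite) (hd : Q.support ∩ A.support ⊆ {a, b}) (hr : ¬ Q.Reachable a b)
    (hpA : Planar A) (hpQ : Planar Q) : Planar (A ⊔ Q) := by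
  let Z : Set V := {v | Q.Reachable a v}
  have haZ : a ∈ Z := SimpleGraph.Reachable.refl a
  have hiZ : ∀ u ∈ (inc Q Z).support, u ∈ Z := by
    rintro u ⟨w, hw, hw'⟩
    rcases hw' with h | h
    · exact h
    · exact SimpleGraph.Reachable.trans h hw.symm.reachable
  have hi : (inc Q Z).support.Finite := hQ.subset (support_mono' (inc_le Q Z))
  have ho : (off Q Z).support.Finite := hQ.subset (support_mono' (off_le Q Z))
  have h1 : Planar (A ⊔ inc Q Z) := by
    refine planar_sum1 _ _ hA hi ?_ hpA (planar_mono (inc_le Q Z) hpQ)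
    have h2 : ∀ u ∈ A.support ∩ (inc Q Z).support, u = a := by
      rintro u ⟨hu1, hu2⟩
      rcases hd ⟨support_mono' (inc_le Q Z) hu2, hu1⟩ with h3 | h3
      · exact h3
      · rw [Set.mem_singleton_iff] at h3
        exact absurd (h3 ▸ hiZ u hu2) hr
    intro u hu v hv
    rw [h2 u hu, h2 v hv]
  have h2 : Planar ((A ⊔ inc Q Z) ⊔ off Q Z) := by
    refine planar_sum1 _ _ (by rw [sup_support]; exact hA.union hi) ho ?_ h1
      (planar_mono (off_le Q Z) hpQ)
    have h2 : ∀ u ∈ (A ⊔ inc Q Z).support ∩ (off Q Z).support, u = b := by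
      rintro u ⟨hu1, hu2⟩
      have huZ : u ∉ Z := off_support Q Z hu2
      rw [sup_support] at hu1
      rcases hu1 with hu1 | hu1
      · rcases hd ⟨support_mono' (off_le Q Z) hu2, hu1⟩ with h3 | h3
        · exact absurd (h3 ▸ haZ) huZ
        · exact h3
      · exact absurd (hiZ u hu1) huZ
    intro u hu v hv
    rw [h2 u hu, h2 v hv]
  rwa [sup_assoc, inc_off] at h2

theorem conn_single {V : Type} (G : SimpleGraph V) (i : V) : (G.induce {i}).Connected := by
  have : Nonempty ({i} : Set V) := ⟨⟨i, rfl⟩⟩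
  refine ⟨fun x y => ?_⟩
  have h : x = y := Subtype.ext (x.2.trans y.2.symm)
  rw [h]

theorem not_planar_top : ¬ Planar (⊤ : SimpleGraph (Fin 5)) := by
  intro h
  refine h.1 ⟨fun i => {i}, fun i => conn_single _ i, ?_, ?_⟩
  · intro i j hij
    exact Set.disjoint_singleton.2 hij
  · intro i j hij
    exact ⟨i, rfl, j, rfl, hij⟩

theorem not_planar_of_K5 {G : SimpleGraph ℕ} (e : Fin 5 ↪ ℕ)
    (h : ∀ i j, i ≠ j → G.Adj (e i) (e j)) : ¬ Planar G := by
  intro hG
  refine not_planar_top ((planar_embed _ e).1 (planar_mono ?_ hG))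
  intro u v huv
  rw [SimpleGraph.map_adj] at huv
  obtain ⟨i, j, hij, rfl, rfl⟩ := huv
  exact h i j hij

end GRedBAux

open GRedBAux

theorem red_del (T Z : Set ℕ) (A : SimpleGraph ℕ) (hA : A.support.Finite) (hT : Disjoint Z T)
    (hp : Planar (inc A Z)) (h : (nbr A Z).Subsingleton) : Red T A (off A Z) := by
  refine ⟨Set.sdiff_subset_sdiff_left (support_mono' (off_le A Z)), ?_⟩
  intro Q hQf hQ
  constructor
  · exact planar_mono (sup_le_sup_right (off_le A Z) Q)
  · intro h1
    rw [← split Z]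
    refine planar_sum1 _ _ (hA.subset (support_mono' (inc_le A Z))) ?_
      (h.anti (inter_support hT hQ)) hp h1
    rw [sup_support]
    exact (hA.subset (support_mono' (off_le A Z))).union hQf

theorem red_edge (T Z : Set ℕ) (A : SimpleGraph ℕ) (hA : A.support.Finite) (hT : Disjoint Z T)
    (hZ : (A.induce Z).Connected) (a b : ℕ) (hab : a ≠ b) (h : nbr A Z = {a, b})
    (hp : Planar (inc A Z ⊔ SimpleGraph.edge a b)) :
    Red T A (off A Z ⊔ SimpleGraph.edge a b) := by
  have ha : a ∈ nbr A Z := by rw [h]; simp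
  have hb : b ∈ nbr A Z := by rw [h]; simp
  have hZs : Z ⊆ A.support := sub_support hZ ha
  have has : a ∈ A.support := by
    obtain ⟨_, z, _, h1⟩ := ha
    exact ⟨z, h1⟩
  have hbs : b ∈ A.support := by
    obtain ⟨_, z, _, h1⟩ := hb
    exact ⟨z, h1⟩
  refine ⟨Set.sdiff_subset_sdiff_left ?_, ?_⟩
  · rw [sup_support]
    refine Set.union_subset (support_mono' (off_le A Z)) ?_
    intro u hu
    rcases edge_support hu with rfl | rfl
    · exact has
    · exact hbs
  intro Q hQf hQ
  have hQZ : ∀ u ∈ Q.support, u ∉ Z := fun u hu => Q_disj hT hQ hZs hu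
  constructor
  · intro h1
    obtain ⟨Z', hZ'⟩ : ∃ Z' : Set ℕ, Z' = {a} ∪ Z := ⟨_, rfl⟩
    have hZa : (A.induce Z').Connected := by
      obtain ⟨_, z, hz, haz⟩ := ha
      rw [hZ']
      exact SimpleGraph.connected_induce_union (conn_single A a).preconnected hZ.preconnected
        rfl hz haz
    have haZ' : a ∈ Z' := by rw [hZ']; exact Or.inl rfl
    have h2 := planar_collapse (A ⊔ Q) Z' a haZ' (induce_conn_mono le_sup_left hZa) h1
    refine planar_mono (le_map ?_) h2
    have hfix : ∀ u, u ∉ Z → (if u ∈ Z' then a else u) = u := by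
      intro u hu
      split_ifs with h3
      · rw [hZ'] at h3
        exact (h3.resolve_right hu).symm
      · rfl
    rintro u v ((huv | huv) | huv)
    · exact ⟨u, v, Or.inl huv.1, hfix u huv.2.1, hfix v huv.2.2⟩
    · obtain ⟨u', v', h3, h4, h5⟩ := collapse_edge (A := A) (Z := Z)
        (f := fun u => if u ∈ Z' then a else u)
        (fun z hz => if_pos (by rw [hZ']; exact Or.inr hz)) hb (hfix b hb.1) huv
      exact ⟨u', v', Or.inl h3, h4, h5⟩
    · exact ⟨u, v, Or.inr huv, hfix u (hQZ u ⟨v, huv⟩), hfix v (hQZ v ⟨u, huv.symm⟩)⟩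
  · intro h1
    have h2 := planar_sum2 (inc A Z) (off A Z ⊔ Q) (hA.subset (support_mono' (inc_le A Z))) (by
      rw [sup_support]
      exact (hA.subset (support_mono' (off_le A Z))).union hQf) a b hab
      (h ▸ inter_support hT hQ) hp (by
        rw [sup_right_comm]
        exact h1)
    rw [split] at h2
    exact planar_mono le_sup_left h2

theorem red_claw (T Z : Set ℕ) (A : SimpleGraph ℕ) (hA : A.support.Finite) (hT : Disjoint Z T)
    (hZ : (A.induce Z).Connected) (c w x y z : ℕ) (hd : [c, x, y, z].Nodup) (hc : c ∉ Z)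
    (hw : w ∈ Z) (h : nbr A Z = {x, y, z}) (hp : Planar (inc A Z ⊔ claw c x y z)) :
    Red T A (off A Z ⊔ claw w x y z) := by
  have hx : x ∈ nbr A Z := by rw [h]; simp
  have hy : y ∈ nbr A Z := by rw [h]; simp
  have hz : z ∈ nbr A Z := by rw [h]; simp
  have hZs : Z ⊆ A.support := sub_support hZ hx
  have hs : ∀ t ∈ nbr A Z, t ∈ A.support := by
    rintro t ⟨_, z', _, h1⟩
    exact ⟨z', h1⟩
  simp only [List.nodup_cons, List.mem_cons, List.not_mem_nil, or_false, not_or,
    not_false_eq_true, List.nodup_nil, and_true] at hd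
  have hwx : w ≠ x := fun h1 => hx.1 (h1 ▸ hw)
  have hwy : w ≠ y := fun h1 => hy.1 (h1 ▸ hw)
  have hwz : w ≠ z := fun h1 => hz.1 (h1 ▸ hw)
  refine ⟨Set.sdiff_subset_sdiff_left ?_, ?_⟩
  · rw [sup_support, claw, sup_support, sup_support]
    refine Set.union_subset (support_mono' (off_le A Z)) ?_
    rintro u ((hu | hu) | hu)
    · rcases edge_support hu with rfl | rfl
      · exact hZs hw
      · exact hs _ hx
    · rcases edge_support hu with rfl | rfl
      · exact hZs hw
      · exact hs _ hy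
    · rcases edge_support hu with rfl | rfl
      · exact hZs hw
      · exact hs _ hz
  intro Q hQf hQ
  have hQZ : ∀ u ∈ Q.support, u ∉ Z := fun u hu => Q_disj hT hQ hZs hu
  constructor
  · intro h1
    have h2 := planar_collapse (A ⊔ Q) Z w hw (induce_conn_mono le_sup_left hZ) h1
    refine planar_mono (le_map ?_) h2
    have hfix : ∀ u, u ∉ Z → (if u ∈ Z then w else u) = u := fun u hu => if_neg hu
    have hcol : ∀ t ∈ nbr A Z, ∀ u v, (SimpleGraph.edge w t).Adj u v →
        ∃ u' v', (A ⊔ Q).Adj u' v' ∧ (if u' ∈ Z then w else u') = u ∧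
          (if v' ∈ Z then w else v') = v := by
      intro t ht u v huv
      obtain ⟨u', v', h3, h4, h5⟩ := collapse_edge (A := A) (Z := Z)
        (f := fun u => if u ∈ Z then w else u)
        (fun z hz => if_pos hz) ht (hfix t ht.1) huv
      exact ⟨u', v', Or.inl h3, h4, h5⟩
    rintro u v ((huv | ((huv | huv) | huv)) | huv)
    · exact ⟨u, v, Or.inl huv.1, hfix u huv.2.1, hfix v huv.2.2⟩
    · exact hcol x hx u v huv
    · exact hcol y hy u v huv
    · exact hcol z hz u v huv
    · exact ⟨u, v, Or.inr huv, hfix u (hQZ u ⟨v, huv⟩), hfix v (hQZ v ⟨u, huv.symm⟩)⟩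
  · intro h1
    rw [← split Z]
    refine planar_claw (inc A Z) (off A Z ⊔ Q) (hA.subset (support_mono' (inc_le A Z))) (by
      rw [sup_support]
      exact (hA.subset (support_mono' (off_le A Z))).union hQf) c w x y z ?_
      (h ▸ inter_support hT hQ) ?_ ?_ ⟨hd.1.1, hd.1.2.1, hd.1.2.2⟩ ⟨hwx, hwy, hwz⟩ hp ?_
    · simp only [List.nodup_cons, List.mem_cons, List.not_mem_nil, or_false, not_or,
        not_false_eq_true, List.nodup_nil, and_true]
      exact hd.2
    · intro h3
      rcases inc_support A Z h3 with h4 | h4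
      · exact hc h4
      · rw [h] at h4
        simp only [Set.mem_insert_iff, Set.mem_singleton_iff] at h4
        tauto
    · intro h3
      rw [sup_support] at h3
      rcases h3 with h3 | h3
      · exact off_support A Z h3 hw
      · exact hQZ w h3 hw
    · rw [sup_right_comm]
      exact h1

theorem red_contr (T : Set ℕ) (A : SimpleGraph ℕ) (hf : A.support.Finite) (hA : Planar A)
    (x y : ℕ) (hx : x ∉ T) (hy : y ∉ T) (hxy : A.Adj x y) (B : Set ℕ) (hBf : B.Finite)
    (hxB : x ∉ B) (hyB : y ∉ B) (hB : TwoConn A B) (hNx : ∀ u, A.Adj x u → u = y ∨ u ∈ B)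
    (hNy : ∀ u, A.Adj y u → u = x ∨ u ∈ B) (hdx : 2 ≤ {u | u ≠ y ∧ A.Adj x u}.ncard)
    (hdy : 2 ≤ {u | u ≠ x ∧ A.Adj y u}.ncard) : Red T A (contr A x y) := by
  refine ⟨?_, ?_⟩
  · refine Set.sdiff_subset_sdiff_left ?_
    rintro u ⟨v, huv0⟩
    obtain ⟨hne, u', v', huv, rfl, rfl⟩ := (contr_adj A x y u v).1 huv0
    rcases cmap_cases x y u' with h1 | h1
    · rw [h1]
      exact ⟨y, hxy⟩
    · rw [h1]
      exact ⟨v', huv⟩
  intro Q hQf hQ
  have hxQ : ∀ u, ¬ Q.Adj x u := fun u hu =>
    Set.disjoint_left.1 hQ (show x ∈ Q.support from ⟨u, hu⟩) ⟨⟨y, hxy⟩, hx⟩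
  have hyQ : ∀ u, ¬ Q.Adj y u := fun u hu =>
    Set.disjoint_left.1 hQ (show y ∈ Q.support from ⟨u, hu⟩) ⟨⟨x, hxy.symm⟩, hy⟩
  have hfQ : ∀ u v, Q.Adj u v → cmap x y u = u := by
    intro u v huv
    refine cmap_ne ?_
    rintro rfl
    exact hyQ v huv
  constructor
  · intro h1
    refine planar_mono ?_ (planar_contr (A ⊔ Q) x y (Or.inl hxy) h1)
    rintro u v (huv | huv)
    · obtain ⟨hne, u', v', h2, h3, h4⟩ := (contr_adj A x y u v).1 huv
      exact (contr_adj _ x y u v).2 ⟨hne, u', v', Or.inl h2, h3, h4⟩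
    · exact (contr_adj _ x y u v).2 ⟨huv.ne, u, v, Or.inr huv, hfQ u v huv, hfQ v u huv.symm⟩
  · intro h1
    refine planar_lift (A ⊔ Q) A (by rw [sup_support]; exact hf.union hQf) x y le_sup_left hA hxy
      (fun u hu => hu.resolve_right (hxQ u)) (fun u hu => hu.resolve_right (hyQ u)) B hBf hxB hyB
      hB hNx hNy hdx hdy (planar_mono ?_ h1)
    intro u v huv
    obtain ⟨hne, u', v', h2, rfl, rfl⟩ := (contr_adj _ x y u v).1 huv
    rcases h2 with h2 | h2
    · exact Or.inl ((contr_adj _ x y _ _).2 ⟨hne, u', v', h2, rfl, rfl⟩)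
    · refine Or.inr ?_
      rw [hfQ u' v' h2, hfQ v' u' h2.symm]
      exact h2

theorem irr_nonplanar (T : Set ℕ) (A : SimpleGraph ℕ) (hf : A.support.Finite)
    (hA : ¬ Planar A) (h : Irr T A) : rho T A ≤ 5 := by
  by_contra hcon
  push Not at hcon
  obtain ⟨S, hS, hS5⟩ := Set.exists_subset_card_eq (show 5 ≤ (A.support \ T).ncard from hcon.le)
  have hSf : S.Finite := (hf.subset Set.sdiff_subset).subset hS
  have hc : Nat.card S = 5 := by rw [Nat.card_coe_set_eq, hS5]
  have : Finite S := hSf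
  obtain ⟨e0⟩ : Nonempty (Fin 5 ≃ S) := ⟨(Finite.equivFinOfCardEq hc).symm⟩
  let e : Fin 5 ↪ ℕ := e0.toEmbedding.trans (Function.Embedding.subtype _)
  have heS : ∀ i, e i ∈ S := fun i => (e0 i).2
  have hsup : ((⊤ : SimpleGraph (Fin 5)).map e).support ⊆ S := by
    rintro u ⟨v, huv⟩
    have h1 := (SimpleGraph.map_adj e ⊤ u v).1 huv
    obtain ⟨i, j, _, rfl, _⟩ := h1
    exact heS i
  have hnp : ∀ Q : SimpleGraph ℕ, ¬ Planar ((⊤ : SimpleGraph (Fin 5)).map e ⊔ Q) := by
    intro Q
    refine not_planar_of_K5 e fun i j hij => Or.inl ?_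
    exact (SimpleGraph.map_adj e ⊤ _ _).2 ⟨i, j, hij, rfl, rfl⟩
  have hred : Red T A ((⊤ : SimpleGraph (Fin 5)).map e) := by
    refine ⟨(Set.sdiff_subset.trans hsup).trans hS, fun Q _ _ => ?_⟩
    exact iff_of_false (fun h1 => hA (planar_mono le_sup_left h1)) (hnp Q)
  have h1 := h _ hred
  have h2 : rho T ((⊤ : SimpleGraph (Fin 5)).map e) ≤ S.ncard :=
    Set.ncard_le_ncard (Set.sdiff_subset.trans hsup) hSf
  omega

/-- `K₅` minus the edge `a b`, on the vertices `a, b, p, q, r`. -/
def k5m (a b p q r : ℕ) : SimpleGraph ℕ :=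
  SimpleGraph.edge a p ⊔ SimpleGraph.edge a q ⊔ SimpleGraph.edge a r ⊔ SimpleGraph.edge b p ⊔
    SimpleGraph.edge b q ⊔ SimpleGraph.edge b r ⊔ SimpleGraph.edge p q ⊔ SimpleGraph.edge q r ⊔
    SimpleGraph.edge p r

namespace GRedBAux

theorem k5m_support (a b p q r : ℕ) : (k5m a b p q r).support ⊆ {a, b, p, q, r} := by
  intro u hu
  simp only [k5m, sup_support, Set.mem_union] at hu
  simp only [Set.mem_insert_iff, Set.mem_singleton_iff]
  rcases hu with (((((((h | h) | h) | h) | h) | h) | h) | h) | h <;>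
    rcases edge_support h with rfl | rfl <;> simp

theorem k5m_not_adj {a b p q r : ℕ} (hd : [a, b, p, q, r].Nodup) :
    ¬ (k5m a b p q r).Adj a b := by
  simp only [List.nodup_cons, List.mem_cons, List.not_mem_nil, or_false, not_or,
    not_false_eq_true, List.nodup_nil, and_true] at hd
  simp only [k5m, SimpleGraph.sup_adj, SimpleGraph.edge_adj]
  tauto

theorem k5m_edge {a b p q r : ℕ} (hd : [a, b, p, q, r].Nodup) :
    ¬ Planar (k5m a b p q r ⊔ SimpleGraph.edge a b) := by
  have hinj : Function.Injective ![a, b, p, q, r] := by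
    have h : (List.ofFn ![a, b, p, q, r]).Nodup := by
      have h1 : List.ofFn ![a, b, p, q, r] = [a, b, p, q, r] := by simp [List.ofFn_succ]
      rw [h1]
      exact hd
    exact List.nodup_ofFn.1 h
  refine not_planar_of_K5 ⟨![a, b, p, q, r], hinj⟩ ?_
  intro i j hij
  have hne : ![a, b, p, q, r] i ≠ ![a, b, p, q, r] j := fun h => hij (hinj h)
  show (k5m a b p q r ⊔ SimpleGraph.edge a b).Adj (![a, b, p, q, r] i) (![a, b, p, q, r] j)
  simp only [k5m, SimpleGraph.sup_adj, SimpleGraph.edge_adj]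
  fin_cases i <;> fin_cases j <;> simp_all

theorem k5m_planar {a b p q r : ℕ} (hd : [a, b, p, q, r].Nodup) :
    Planar (k5m a b p q r) := by
  have hcard : ({a, b, p, q, r} : Finset ℕ).card ≤ 5 := by
    have h := Finset.card_le_five (a := a) (b := b) (c := p) (d := q) (e := r)
    exact h
  constructor
  · rintro ⟨B, hB1, hB2, hB3⟩
    have hex : ∀ i : Fin 5, ∃ u ∈ B i, u ∈ (k5m a b p q r).support := by
      intro i
      obtain ⟨j, hj⟩ : ∃ j : Fin 5, j ≠ i := exists_ne i
      obtain ⟨u, hu, v, _, huv⟩ := hB3 i j hj.symm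
      exact ⟨u, hu, v, huv⟩
    choose φ hφ1 hφ2 using hex
    have huniq : ∀ i j x, x ∈ B i → x ∈ B j → i = j := by
      intro i j x hi hj
      by_contra hij
      exact Set.disjoint_left.1 (hB2 i j hij) hi hj
    have hinj : Function.Injective φ := fun i j hij =>
      huniq i j (φ i) (hφ1 i) (hij ▸ hφ1 j)
    have himg : Finset.univ.image φ = {a, b, p, q, r} := by
      refine Finset.eq_of_subset_of_card_le ?_ ?_
      · intro x hx
        rw [Finset.mem_image] at hx
        obtain ⟨i, _, rfl⟩ := hx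
        have h := k5m_support a b p q r (hφ2 i)
        simpa using h
      · rw [Finset.card_image_of_injective _ hinj]
        simpa using hcard
    have hsurj : ∀ x ∈ (k5m a b p q r).support, ∃ i, φ i = x := by
      intro x hx
      have h : x ∈ Finset.univ.image φ := by
        rw [himg]
        have h := k5m_support a b p q r hx
        simpa using h
      rw [Finset.mem_image] at h
      obtain ⟨i, _, hi⟩ := h
      exact ⟨i, hi⟩
    have hmem : ∀ x ∈ ({a, b, p, q, r} : Finset ℕ), ∃ i, φ i = x := by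
      intro x hx
      rw [← himg, Finset.mem_image] at hx
      obtain ⟨i, _, hi⟩ := hx
      exact ⟨i, hi⟩
    obtain ⟨i, hi⟩ := hmem a (by simp)
    obtain ⟨j, hj⟩ := hmem b (by simp)
    have hij : i ≠ j := by
      rintro rfl
      simp only [List.nodup_cons, List.mem_cons, not_or] at hd
      exact hd.1.1 (hi.symm.trans hj)
    obtain ⟨u, hu, v, hv, huv⟩ := hB3 i j hij
    obtain ⟨i', hi'⟩ := hsurj u ⟨v, huv⟩
    obtain ⟨j', hj'⟩ := hsurj v ⟨u, huv.symm⟩
    have h1 : i = i' := huniq i i' u hu (hi' ▸ hφ1 i')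
    have h2 : j = j' := huniq j j' v hv (hj' ▸ hφ1 j')
    subst h1 h2
    rw [← hi', ← hj', hi, hj] at huv
    exact k5m_not_adj hd huv
  · rintro ⟨B, hB1, hB2, hB3⟩
    have hex : ∀ i : Fin 3 ⊕ Fin 3, ∃ u ∈ B i, u ∈ (k5m a b p q r).support := by
      intro i
      obtain ⟨j, hj⟩ : ∃ j, (completeBipartiteGraph (Fin 3) (Fin 3)).Adj i j := by
        rcases i with i | i
        · exact ⟨Sum.inr 0, by simp⟩
        · exact ⟨Sum.inl 0, by simp⟩
      obtain ⟨u, hu, v, _, huv⟩ := hB3 i j hj
      exact ⟨u, hu, v, huv⟩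
    choose φ hφ1 hφ2 using hex
    have hinj : Function.Injective φ := by
      intro i j hij
      by_contra hne
      exact Set.disjoint_left.1 (hB2 i j hne) (hφ1 i) (hij ▸ hφ1 j)
    have h1 : (Finset.univ.image φ).card ≤ ({a, b, p, q, r} : Finset ℕ).card := by
      refine Finset.card_le_card ?_
      intro x hx
      rw [Finset.mem_image] at hx
      obtain ⟨i, _, rfl⟩ := hx
      have h := k5m_support a b p q r (hφ2 i)
      simpa using h
    rw [Finset.card_image_of_injective _ hinj] at h1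
    simp only [Finset.card_univ, Fintype.card_sum, Fintype.card_fin] at h1
    omega

end GRedBAux

/-- a connected planar piece with two attachments whose union with the edge `a b` is not planar
is equivalent to `K₅` minus an edge. -/
theorem red_k5m (A : SimpleGraph ℕ) (hf : A.support.Finite) (a b p q r : ℕ)
    (hd : [a, b, p, q, r].Nodup) (hpqr : {p, q, r} ⊆ A.support)
    (hc : (A.induce (A.support \ {a, b})).Connected) (ha : a ∈ A.support) (hb : b ∈ A.support)
    (hab : ¬ A.Adj a b) (hA : Planar A) (h : ¬ Planar (A ⊔ SimpleGraph.edge a b)) :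
    Red {a, b} A (k5m a b p q r) := by
  have hne : a ≠ b := by
    rintro rfl
    simp at hd
  have hk : ∀ u ∈ (k5m a b p q r).support, u ∉ ({a, b} : Set ℕ) → u ∈ A.support \ {a, b} := by
    intro u hu hu'
    refine ⟨?_, hu'⟩
    have h1 := k5m_support a b p q r hu
    simp only [Set.mem_insert_iff, Set.mem_singleton_iff] at h1 hu'
    apply hpqr
    simp only [Set.mem_insert_iff, Set.mem_singleton_iff]
    tauto
  refine ⟨fun u hu => hk u hu.1 hu.2, ?_⟩
  intro Q hQf hQ
  have hdA : Q.support ∩ A.support ⊆ {a, b} := by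
    rintro u ⟨hu1, hu2⟩
    by_contra hu3
    exact Set.disjoint_left.1 hQ hu1 ⟨hu2, hu3⟩
  have hdk : Q.support ∩ (k5m a b p q r).support ⊆ {a, b} := by
    rintro u ⟨hu1, hu2⟩
    by_contra hu3
    exact Set.disjoint_left.1 hQ hu1 (hk u hu2 hu3)
  have hkf : (k5m a b p q r).support.Finite := (Set.toFinite _).subset (k5m_support a b p q r)
  by_cases hr : Q.Reachable a b
  · exact iff_of_false (fun h1 => h (glue_path hne hdA hr.symm h1))
      (fun h1 => k5m_edge hd (glue_path hne hdk hr.symm h1))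
  · constructor
    · intro h1
      exact glue_nopath hkf hQf hdk hr (k5m_planar hd) (planar_mono le_sup_right h1)
    · intro h1
      exact glue_nopath hf hQf hdA hr hA (planar_mono le_sup_right h1)

end Pool.Agent.MP9d6bd1
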