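import Mathlib
import Pool.Agent.Lib.MP_9d6bd1_lc.GSidesDefs
import Pool.Agent.Lib.MP_9d6bd1_lc.GRedA
import Pool.Agent.Lib.MP_9d6bd1_lc.GIndex

/-!
# MP_9d6bd1_lc module G20: small sides
-/

set_option autoImplicit false

open Classical

namespace Pool.Agent.MP9d6bd1

namespace GSidesAux

theorem nbr_sub (A : SimpleGraph ℕ) (Z : Set ℕ) : nbr A Z ⊆ A.support := by
  rintro u ⟨_, v, _, h⟩
  exact (SimpleGraph.mem_support A).2 ⟨v, h⟩

theorem inc_support_sub (A : SimpleGraph ℕ) (Z : Set ℕ) : (inc A Z).support ⊆ A.support := by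
  intro u hu
  obtain ⟨v, h⟩ := (SimpleGraph.mem_support _).1 hu
  exact (SimpleGraph.mem_support A).2 ⟨v, h.1⟩

theorem off_support_sub (A : SimpleGraph ℕ) (Z : Set ℕ) :
    (off A Z).support ⊆ A.support \ Z := by
  intro u hu
  obtain ⟨v, h⟩ := (SimpleGraph.mem_support _).1 hu
  exact ⟨(SimpleGraph.mem_support A).2 ⟨v, h.1⟩, h.2.1⟩

theorem inc_nonterm (T : Set ℕ) (A : SimpleGraph ℕ) (Z : Set ℕ) :
    (inc A Z).support \ (T ∩ Z ∪ nbr A Z) = (A.support ∩ Z) \ T := by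
  ext u
  constructor
  · rintro ⟨hu, hT⟩
    obtain ⟨v, h⟩ := (SimpleGraph.mem_support _).1 hu
    have hZ : u ∈ Z := by
      by_contra hZ
      exact hT (Or.inr ⟨hZ, v, h.2.resolve_left hZ, h.1⟩)
    exact ⟨⟨(SimpleGraph.mem_support A).2 ⟨v, h.1⟩, hZ⟩, fun h' => hT (Or.inl ⟨h', hZ⟩)⟩
  · rintro ⟨⟨hu, hZ⟩, hT⟩
    obtain ⟨v, h⟩ := (SimpleGraph.mem_support _).1 hu
    refine ⟨(SimpleGraph.mem_support _).2 ⟨v, h, Or.inl hZ⟩, ?_⟩
    rintro (h' | h')
    · exact hT h'.1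
    · exact h'.1 hZ

theorem irr_inc (T Z : Set ℕ) (A : SimpleGraph ℕ) (hA : A.support.Finite) (h : Irr T A) :
    Irr (T ∩ Z ∪ nbr A Z) (inc A Z) := by
  intro A₁ h₁
  have h2 := h _ (red_local T Z A A₁ hA h₁)
  have hs1 := h₁.1
  rw [inc_nonterm] at hs1
  unfold rho at h2 ⊢
  rw [inc_nonterm]
  have f1 : ((A.support ∩ Z) \ T).Finite := hA.subset (fun v hv => hv.1.1)
  have f2 : ((A.support \ Z) \ T).Finite := hA.subset (fun v hv => hv.1.1)
  have f3 : (A₁.support \ (T ∩ Z ∪ nbr A Z)).Finite := f1.subset hs1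
  have e1 : A.support \ T = ((A.support ∩ Z) \ T) ∪ ((A.support \ Z) \ T) := by
    ext v
    simp only [Set.mem_sdiff, Set.mem_union, Set.mem_inter_iff]
    tauto
  have d1 : Disjoint ((A.support ∩ Z) \ T) ((A.support \ Z) \ T) := by
    rw [Set.disjoint_left]
    rintro v ⟨⟨_, hv⟩, _⟩ ⟨⟨_, hv'⟩, _⟩
    exact hv' hv
  have e2 : (A₁ ⊔ off A Z).support \ T ⊆
      (A₁.support \ (T ∩ Z ∪ nbr A Z)) ∪ ((A.support \ Z) \ T) := by
    rintro v ⟨hv, hT⟩
    obtain ⟨w, hw⟩ := (SimpleGraph.mem_support _).1 hv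
    rcases hw with hw | hw
    · have hv1 : v ∈ A₁.support := (SimpleGraph.mem_support _).2 ⟨w, hw⟩
      by_cases h3 : v ∈ T ∩ Z ∪ nbr A Z
      · right
        rcases h3 with h3 | h3
        · exact absurd h3.1 hT
        · exact ⟨⟨nbr_sub A Z h3, h3.1⟩, hT⟩
      · left
        exact ⟨hv1, h3⟩
    · right
      exact ⟨off_support_sub A Z ((SimpleGraph.mem_support _).2 ⟨w, hw⟩), hT⟩
  have h4 := (Set.ncard_le_ncard e2 (f3.union f2)).trans (Set.ncard_union_le _ _)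
  rw [e1, Set.ncard_union_eq d1 f1 f2] at h2
  omega

end GSidesAux

open GSidesAux in
theorem small_sides : ∃ M : ℕ, ∀ (T : Set ℕ) (A : SimpleGraph ℕ), T.Finite →
    A.support.Finite → Irr T A → SmallSides M T A := by
  obtain ⟨f, hf⟩ := finite_index 6
  refine ⟨f, fun T A hT hA h Z hZ hTZ => ?_⟩
  have h1 := hf (T ∩ Z ∪ nbr A Z) (inc A Z) ((hT.subset Set.inter_subset_left).union
    (hA.subset (nbr_sub A Z))) (hA.subset (inc_support_sub A Z))
    ((Set.ncard_union_le _ _).trans (by omega)) (irr_inc T Z A hA h)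
  unfold rho at h1
  rwa [inc_nonterm] at h1

end Pool.Agent.MP9d6bd1
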