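import Mathlib
import Pool.Agent.Lib.MP_9d6bd1_lc.GDefs

/-!
# MP_9d6bd1_lc: a 2-connected set containing the neighbours of an edge (module G19)
-/

set_option autoImplicit false

open Classical

namespace Pool.Agent.MP9d6bd1

namespace GBlockAux

theorem walk_avoid {V : Type} (A : SimpleGraph V) (x y z q : V) {a b : V}
    (p : (off A ({x, y, z} : Set V)).Walk a b) (hq : q ∉ p.support) :
    (off A ({x, y, q} : Set V)).Reachable a b := by
  induction p with
  | nil => exact SimpleGraph.Reachable.refl _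
  | @cons a c b h p ih =>
    rw [SimpleGraph.Walk.support_cons, List.mem_cons, not_or] at hq
    have hc : c ≠ q := fun hcq => hq.2 (hcq ▸ p.start_mem_support)
    have ha : a ≠ q := fun haq => hq.1 haq.symm
    obtain ⟨h1, h2, h3⟩ := h
    simp only [Set.mem_insert_iff, Set.mem_singleton_iff, not_or] at h2 h3
    refine SimpleGraph.Reachable.trans (SimpleGraph.Adj.reachable ?_) (ih hq.2)
    refine ⟨h1, ?_, ?_⟩
    · simp only [Set.mem_insert_iff, Set.mem_singleton_iff, not_or]
      exact ⟨h2.1, h2.2.1, ha⟩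
    · simp only [Set.mem_insert_iff, Set.mem_singleton_iff, not_or]
      exact ⟨h3.1, h3.2.1, hc⟩

theorem walk_induce {V : Type} (A : SimpleGraph V) (x y z : V) (B : Set V) {u w : V}
    (p : (off A ({x, y, z} : Set V)).Walk u w) (hu : u ∈ B \ {z}) (hw : w ∈ B \ {z})
    (hB : ∀ t ∈ p.support, t ∈ B) : (A.induce (B \ {z})).Reachable ⟨u, hu⟩ ⟨w, hw⟩ := by
  induction p with
  | nil => exact SimpleGraph.Reachable.refl _
  | @cons a c b h p ih =>
    obtain ⟨h1, h2, h3⟩ := h
    simp only [Set.mem_insert_iff, Set.mem_singleton_iff, not_or] at h2 h3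
    have hcB : c ∈ B := hB c (by
      rw [SimpleGraph.Walk.support_cons]
      exact List.mem_cons_of_mem _ p.start_mem_support)
    have hc : c ∈ B \ {z} := ⟨hcB, fun hcz => h3.2.2 hcz⟩
    refine SimpleGraph.Reachable.trans (SimpleGraph.Adj.reachable (v := ⟨c, hc⟩) ?_)
      (ih hc hw (fun t ht => hB t ?_))
    · exact h1
    · rw [SimpleGraph.Walk.support_cons]
      exact List.mem_cons_of_mem _ ht

theorem off_of_induce {V : Type} (A : SimpleGraph V) (S : Set V) {u v : V} (hu : u ∈ Sᶜ)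
    (hv : v ∈ Sᶜ) (h : (A.induce Sᶜ).Reachable ⟨u, hu⟩ ⟨v, hv⟩) : (off A S).Reachable u v := by
  let f : A.induce Sᶜ →g off A S := ⟨Subtype.val, fun {a b} hab => ⟨hab, a.2, b.2⟩⟩
  exact h.map f

end GBlockAux

open GBlockAux in
theorem exists_block {V : Type} (A : SimpleGraph V) (hf : A.support.Finite) (x y : V)
    (h3 : 3 ≤ {u | u ≠ x ∧ u ≠ y ∧ (A.Adj x u ∨ A.Adj y u)}.ncard)
    (h : ∀ z u v : V, u ≠ x → u ≠ y → (A.Adj x u ∨ A.Adj y u) → v ≠ x → v ≠ y →
      (A.Adj x v ∨ A.Adj y v) → u ≠ z → v ≠ z →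
      ∃ (hu : u ∈ ({x, y, z} : Set V)ᶜ) (hv : v ∈ ({x, y, z} : Set V)ᶜ),
        (A.induce ({x, y, z} : Set V)ᶜ).Reachable ⟨u, hu⟩ ⟨v, hv⟩) :
    ∃ B : Set V, B.Finite ∧ x ∉ B ∧ y ∉ B ∧ TwoConn A B ∧ (∀ u, A.Adj x u → u = y ∨ u ∈ B) ∧
      ∀ u, A.Adj y u → u = x ∨ u ∈ B := by
  set W : Set V := {u | u ≠ x ∧ u ≠ y ∧ (A.Adj x u ∨ A.Adj y u)} with hW
  have hWfin : W.Finite := Set.finite_of_ncard_pos (by omega)
  -- avoiding two given elements
  have hpick : ∀ a : V, ∃ w ∈ W, w ≠ a := by
    intro a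
    by_contra hcon
    push Not at hcon
    have : W ⊆ {a} := fun w hw => hcon w hw
    have := Set.ncard_le_ncard this (Set.finite_singleton a)
    rw [Set.ncard_singleton] at this
    omega
  have hpick2 : ∀ a b : V, ∃ w ∈ W, w ≠ a ∧ w ≠ b := by
    intro a b
    by_contra hcon
    push Not at hcon
    have h1 : W ⊆ {a, b} := by
      intro w hw
      by_cases hwa : w = a
      · left; exact hwa
      · right; exact hcon w hw hwa
    have h2 := Set.ncard_le_ncard h1 (by simp)
    have h4 := Set.ncard_insert_le a ({b} : Set V)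
    rw [Set.ncard_singleton] at h4
    omega
  set B : Set V := {u | u ≠ x ∧ u ≠ y ∧ ∀ q, q ≠ u → ∀ w ∈ W, w ≠ q →
    (off A ({x, y, q} : Set V)).Reachable u w} with hBdef
  have hWB : W ⊆ B := by
    rintro u ⟨hux, huy, hu⟩
    refine ⟨hux, huy, ?_⟩
    rintro q hq w ⟨hwx, hwy, hw⟩ hwq
    obtain ⟨h1, h2, h4⟩ := h q u w hux huy hu hwx hwy hw hq.symm hwq
    exact off_of_induce A _ h1 h2 h4
  have hBsub : B ⊆ A.support := by
    rintro u ⟨hux, huy, hu⟩
    obtain ⟨w, hwW, hwu⟩ := hpick u
    obtain ⟨z, hzW, hzu, hzw⟩ := hpick2 u w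
    have hr := hu z hzu w hwW (Ne.symm hzw)
    obtain ⟨p⟩ := hr
    cases p with
    | nil => exact absurd rfl hwu
    | cons hadj p => exact ⟨_, hadj.1⟩
  have hBfin : B.Finite := hf.subset hBsub
  refine ⟨B, hBfin, fun hx => hx.1 rfl, fun hy => hy.2.1 rfl, ⟨?_, ?_⟩, ?_, ?_⟩
  · exact le_trans h3 (Set.ncard_le_ncard hWB hBfin)
  · intro z
    obtain ⟨w, hwW, hwz⟩ := hpick z
    have hwB : w ∈ B \ {z} := ⟨hWB hwW, hwz⟩
    have key : ∀ u (hu : u ∈ B \ {z}), (A.induce (B \ {z})).Reachable ⟨u, hu⟩ ⟨w, hwB⟩ := by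
      intro u hu
      have huz : z ≠ u := fun hzu => hu.2 hzu.symm
      have hr := hu.1.2.2 z huz w hwW hwz
      obtain ⟨p⟩ := hr
      have hp := p.toPath.2
      generalize hpp : (p.toPath : (off A ({x, y, z} : Set V)).Walk u w) = P at hp
      refine walk_induce A x y z B P hu hwB ?_
      intro t ht
      -- the vertex `t` is not in `{x, y}`
      have htxy : t ≠ x ∧ t ≠ y := by
        by_cases htu : t = u
        · rw [htu]; exact ⟨hu.1.1, hu.1.2.1⟩
        · have hr : (off A ({x, y, z} : Set V)).Reachable t u := ⟨(P.takeUntil t ht).reverse⟩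
          obtain ⟨p'⟩ := hr
          cases p' with
          | nil => exact absurd rfl htu
          | cons hadj p' =>
            have := hadj.2.1
            simp only [Set.mem_insert_iff, Set.mem_singleton_iff, not_or] at this
            exact ⟨this.1, this.2.1⟩
      refine ⟨htxy.1, htxy.2, ?_⟩
      intro q hqt w' hw' hw'q
      by_cases hq1 : q ∈ (P.takeUntil t ht).support
      · by_cases hq2 : q ∈ (P.dropUntil t ht).support
        · exfalso
          have hnd := hp.support_nodup
          rw [← P.take_spec ht, SimpleGraph.Walk.support_append] at hnd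
          have hdis := (List.nodup_append.mp hnd).2.2
          have hq2' : q ∈ (P.dropUntil t ht).support.tail := by
            rw [← (P.dropUntil t ht).cons_tail_support, List.mem_cons] at hq2
            rcases hq2 with hq2 | hq2
            · exact absurd hq2 hqt
            · exact hq2
          exact hdis q hq1 q hq2' rfl
        · have hwq : w ≠ q := fun hwq => hq2 (hwq ▸ (P.dropUntil t ht).end_mem_support)
          exact (walk_avoid A x y z q _ hq2).trans ((hWB hwW).2.2 q (Ne.symm hwq) w' hw' hw'q)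
      · have huq : u ≠ q := fun huq => hq1 (huq ▸ (P.takeUntil t ht).start_mem_support)
        exact (walk_avoid A x y z q _ hq1).symm.trans (hu.1.2.2 q (Ne.symm huq) w' hw' hw'q)
    intro u v
    exact (key u.1 u.2).trans (key v.1 v.2).symm
  · intro u hu
    by_cases huy : u = y
    · left; exact huy
    · right; exact hWB ⟨fun hux => A.loopless.irrefl x (hux ▸ hu), huy, Or.inl hu⟩
  · intro u hu
    by_cases hux : u = x
    · left; exact hux
    · right; exact hWB ⟨hux, fun huy => A.loopless.irrefl y (huy ▸ hu), Or.inr hu⟩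

end Pool.Agent.MP9d6bd1
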