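import Mathlib
import Pool.Agent.Lib.MP_9d6bd1_lc.GDefs

/-!
# MP_9d6bd1_lc, graph theory part: module GFew

Graphs with at most 8 edges are planar; the prism with a claw (nine edges, with a triangle) is planar.
-/

set_option autoImplicit false

open Classical

namespace Pool.Agent.MP9d6bd1

namespace GFewAux

/-- every minor model gives a labelling of the vertices such that all edges of `K` are images of
edges of `G`. -/
theorem label {V W : Type} {G : SimpleGraph V} {K : SimpleGraph W} (hm : HasMinor G K) :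
    ∃ lbl : V → Option W, (Sym2.map some) '' K.edgeSet ⊆ (Sym2.map lbl) '' G.edgeSet := by
  obtain ⟨B, -, hdis, hadj⟩ := hm
  refine ⟨fun v => if h : ∃ i, v ∈ B i then some h.choose else none, ?_⟩
  have hl : ∀ v i, v ∈ B i →
      (if h : ∃ i, v ∈ B i then some h.choose else none : Option W) = some i := by
    intro v i hi
    have h : ∃ i, v ∈ B i := ⟨i, hi⟩
    rw [dif_pos h]
    congr 1
    by_contra hne
    exact Set.disjoint_left.1 (hdis _ _ hne) h.choose_spec hi
  rintro _ ⟨e, he, rfl⟩
  induction e using Sym2.ind with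
  | _ i j =>
    obtain ⟨u, hu, v, hv, huv⟩ := hadj i j he
    refine ⟨s(u, v), huv, ?_⟩
    rw [Sym2.map_mk, Sym2.map_mk]
    simp only [hl u i hu, hl v j hv]

theorem some_ncard {W : Type} (K : SimpleGraph W) :
    ((Sym2.map (some : W → Option W)) '' K.edgeSet).ncard = K.edgeSet.ncard :=
  Set.ncard_image_of_injective _ (Sym2.map.injective (Option.some_injective W))

theorem ncard_le {V W : Type} {G : SimpleGraph V} {K : SimpleGraph W} (hf : G.edgeSet.Finite)
    (hm : HasMinor G K) : K.edgeSet.ncard ≤ G.edgeSet.ncard := by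
  obtain ⟨lbl, hl⟩ := label hm
  rw [← some_ncard]
  exact (Set.ncard_le_ncard hl (hf.image _)).trans (Set.ncard_image_le hf)

theorem five : (⊤ : SimpleGraph (Fin 5)).edgeSet.ncard = 10 := by
  rw [← SimpleGraph.coe_edgeFinset, Set.ncard_coe_finset,
    SimpleGraph.card_edgeFinset_top_eq_card_choose_two]
  rfl

theorem k33 : (completeBipartiteGraph (Fin 3) (Fin 3)).edgeSet.ncard = 9 := by
  have h1 : (completeBipartiteGraph (Fin 3) (Fin 3)).edgeSet =
      (fun p : Fin 3 × Fin 3 => (s(Sum.inl p.1, Sum.inr p.2) : Sym2 (Fin 3 ⊕ Fin 3))) ''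
        Set.univ := by
    ext e
    induction e using Sym2.ind with
    | _ a b =>
      rcases a with a | a <;> rcases b with b | b <;>
        simp [completeBipartiteGraph]
  rw [h1, Set.ncard_image_of_injective]
  · rw [Set.ncard_univ, Nat.card_eq_fintype_card]
    rfl
  · rintro ⟨a, b⟩ ⟨c, d⟩ h
    simpa using h

/-- a graph with at most nine edges and a triangle is planar -/
theorem nine {V : Type} (G : SimpleGraph V) (hf : G.edgeSet.Finite) (h : G.edgeSet.ncard ≤ 9)
    {x y w : V} (hxy : G.Adj x y) (hyw : G.Adj y w) (hwx : G.Adj w x) : Planar G := by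
  refine ⟨fun hm => ?_, fun hm => ?_⟩
  · have := ncard_le hf hm
    rw [five] at this
    omega
  · obtain ⟨lbl, hl⟩ := label hm
    have heq := Set.eq_of_subset_of_ncard_le hl
      (by rw [some_ncard, k33]; exact (Set.ncard_image_le hf).trans h) (hf.image _)
    have key : ∀ a b, G.Adj a b → ∃ i j, lbl a = some i ∧ lbl b = some j ∧
        (completeBipartiteGraph (Fin 3) (Fin 3)).Adj i j := by
      intro a b hab
      have h1 : Sym2.map lbl s(a, b) ∈ (Sym2.map some) ''
          (completeBipartiteGraph (Fin 3) (Fin 3)).edgeSet := by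
        rw [heq]
        exact ⟨_, hab, rfl⟩
      obtain ⟨e, he, he2⟩ := h1
      induction e using Sym2.ind with
      | _ i j =>
        rw [Sym2.map_mk, Sym2.map_mk] at he2
        rcases Sym2.eq_iff.1 he2 with ⟨h1, h2⟩ | ⟨h1, h2⟩
        · exact ⟨i, j, h1.symm, h2.symm, he⟩
        · exact ⟨j, i, h2.symm, h1.symm, he.symm⟩
    obtain ⟨i, j, h1, h2, h3⟩ := key _ _ hxy
    obtain ⟨j', k, h4, h5, h6⟩ := key _ _ hyw
    obtain ⟨k', i', h7, h8, h9⟩ := key _ _ hwx
    rw [h2] at h4
    rw [h5] at h7
    rw [h1] at h8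
    obtain rfl := Option.some_injective _ h4
    obtain rfl := Option.some_injective _ h7
    obtain rfl := Option.some_injective _ h8
    rcases i with i | i <;> rcases j with j | j <;> rcases k with k | k <;>
      simp [completeBipartiteGraph] at h3 h6 h9

end GFewAux

theorem planar_few_edges {V : Type} (G : SimpleGraph V) (hf : G.edgeSet.Finite)
    (h : G.edgeSet.ncard ≤ 8) : Planar G := by
  refine ⟨fun hm => ?_, fun hm => ?_⟩
  · have := GFewAux.ncard_le hf hm
    rw [GFewAux.five] at this
    omega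
  · have := GFewAux.ncard_le hf hm
    rw [GFewAux.k33] at this
    omega

/-- triangle `x y w` with legs `x x'`, `y y'`, `w w'` and a vertex `c` adjacent to `x', y', w'`. -/
theorem planar_prism {V : Type} (x y w x' y' w' c : V) (h : [x, y, w, x', y', w', c].Nodup) :
    Planar (SimpleGraph.edge x y ⊔ SimpleGraph.edge y w ⊔ SimpleGraph.edge w x ⊔
      SimpleGraph.edge x x' ⊔ SimpleGraph.edge y y' ⊔ SimpleGraph.edge w w' ⊔
      claw c x' y' w') := by
  have hxy : x ≠ y := by simp at h; tauto
  have hyw : y ≠ w := by simp at h; tauto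
  have hwx : w ≠ x := by
    have : x ≠ w := by simp at h; tauto
    exact this.symm
  let f : Fin 9 → Sym2 V := ![s(x, y), s(y, w), s(w, x), s(x, x'), s(y, y'), s(w, w'), s(c, x'),
    s(c, y'), s(c, w')]
  have hsub : (SimpleGraph.edge x y ⊔ SimpleGraph.edge y w ⊔ SimpleGraph.edge w x ⊔
      SimpleGraph.edge x x' ⊔ SimpleGraph.edge y y' ⊔ SimpleGraph.edge w w' ⊔
      claw c x' y' w').edgeSet ⊆ Set.range f := by
    intro e
    induction e using Sym2.ind with
    | _ a b =>
      intro he
      have hk : ∀ p q : V, (SimpleGraph.edge p q).Adj a b → s(a, b) = s(p, q) := by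
        intro p q hpq
        rw [SimpleGraph.edge_adj] at hpq
        rcases hpq.1 with h | h
        · rw [h.1, h.2]
        · rw [h.1, h.2, Sym2.eq_swap]
      simp only [SimpleGraph.mem_edgeSet, claw, SimpleGraph.sup_adj] at he
      rcases he with (((((he | he) | he) | he) | he) | he) | ((he | he) | he)
      · exact ⟨0, (hk _ _ he).symm⟩
      · exact ⟨1, (hk _ _ he).symm⟩
      · exact ⟨2, (hk _ _ he).symm⟩
      · exact ⟨3, (hk _ _ he).symm⟩
      · exact ⟨4, (hk _ _ he).symm⟩
      · exact ⟨5, (hk _ _ he).symm⟩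
      · exact ⟨6, (hk _ _ he).symm⟩
      · exact ⟨7, (hk _ _ he).symm⟩
      · exact ⟨8, (hk _ _ he).symm⟩
  have hc : (Set.range f).ncard ≤ 9 := by
    rw [← Set.image_univ]
    refine (Set.ncard_image_le Set.finite_univ).trans ?_
    simp [Set.ncard_univ]
  refine GFewAux.nine _ ((Set.finite_range f).subset hsub)
    ((Set.ncard_le_ncard hsub (Set.finite_range f)).trans hc) (x := x) (y := y) (w := w) ?_ ?_ ?_
  · simp [SimpleGraph.sup_adj, SimpleGraph.edge_adj, hxy]
  · simp [SimpleGraph.sup_adj, SimpleGraph.edge_adj, hyw]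
  · simp [SimpleGraph.sup_adj, SimpleGraph.edge_adj, hwx]

end Pool.Agent.MP9d6bd1
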