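import Mathlib
import Pool.Agent.Lib.MP_9d6bd1_lc.GDefs
import Pool.Agent.Lib.MP_9d6bd1_lc.GMinor
import Pool.Agent.Lib.MP_9d6bd1_lc.GFew
import Pool.Agent.Lib.MP_9d6bd1_lc.GTransfer
import Pool.Agent.Lib.MP_9d6bd1_lc.GRedA
import Pool.Agent.Lib.MP_9d6bd1_lc.GRedB
import Pool.Agent.Lib.MP_9d6bd1_lc.GBlock
import Pool.Agent.Lib.MP_9d6bd1_lc.GSidesDefs

/-!
# MP_9d6bd1_lc, module G21: the structure bound
-/

set_option autoImplicit false

open Classical

namespace Pool.Agent.MP9d6bd1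

namespace GStructAux

/-! ### components of `A - S` -/

/-- the component of `v` in `A - S` -/
def comp (A : SimpleGraph ℕ) (S : Set ℕ) (v : ℕ) : Set ℕ := {u | (off A S).Reachable v u}

theorem mem_self (A : SimpleGraph ℕ) (S : Set ℕ) (v : ℕ) : v ∈ comp A S v :=
  SimpleGraph.Reachable.refl _

theorem comp_step {A : SimpleGraph ℕ} {S : Set ℕ} {v a b : ℕ} (ha : a ∈ comp A S v)
    (hab : A.Adj a b) (haS : a ∉ S) (hbS : b ∉ S) : b ∈ comp A S v := by
  have h : (off A S).Adj a b := ⟨hab, haS, hbS⟩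
  exact SimpleGraph.Reachable.trans ha h.reachable

theorem comp_ind {A : SimpleGraph ℕ} {S : Set ℕ} {v : ℕ} {P : ℕ → Prop} (h0 : P v)
    (hs : ∀ a b, a ∈ comp A S v → P a → A.Adj a b → a ∉ S → b ∉ S → P b) :
    ∀ u ∈ comp A S v, P u := by
  intro u hu
  have hu' : Relation.ReflTransGen (off A S).Adj v u := by
    rwa [← SimpleGraph.reachable_iff_reflTransGen]
  induction hu' with
  | refl => exact h0
  | tail hab hbc ih =>
    have hb := (SimpleGraph.reachable_iff_reflTransGen _ _).2 hab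
    exact hs _ _ hb (ih hb) hbc.1 hbc.2.1 hbc.2.2

theorem comp_notMem {A : SimpleGraph ℕ} {S : Set ℕ} {v : ℕ} (hv : v ∉ S) :
    ∀ u ∈ comp A S v, u ∉ S :=
  comp_ind hv (fun _ _ _ _ _ _ hb => hb)

theorem nbr_comp {A : SimpleGraph ℕ} {S : Set ℕ} {v : ℕ} (hv : v ∉ S) :
    nbr A (comp A S v) ⊆ S := by
  rintro u ⟨hu, w, hw, huw⟩
  by_contra huS
  exact hu (comp_step hw huw.symm (comp_notMem hv w hw) huS)

theorem comp_symm {A : SimpleGraph ℕ} {S : Set ℕ} {u v : ℕ} (h : u ∈ comp A S v) :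
    v ∈ comp A S u :=
  SimpleGraph.Reachable.symm h

theorem comp_trans {A : SimpleGraph ℕ} {S : Set ℕ} {u v w : ℕ} (h : u ∈ comp A S v)
    (h' : w ∈ comp A S u) : w ∈ comp A S v :=
  SimpleGraph.Reachable.trans h h'

theorem comp_eq {A : SimpleGraph ℕ} {S : Set ℕ} {u v : ℕ} (h : u ∈ comp A S v) :
    comp A S u = comp A S v := by
  ext w
  exact ⟨fun hw => comp_trans h hw, fun hw => comp_trans (comp_symm h) hw⟩

theorem comp_mono {A : SimpleGraph ℕ} {S S' : Set ℕ} (h : S' ⊆ S) (v : ℕ) :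
    comp A S v ⊆ comp A S' v := by
  intro u hu
  refine SimpleGraph.Reachable.mono ?_ hu
  intro a b hab
  exact ⟨hab.1, fun ha => hab.2.1 (h ha), fun hb => hab.2.2 (h hb)⟩

theorem comp_sub_closed {A : SimpleGraph ℕ} {S Z : Set ℕ} {v : ℕ} (hv : v ∈ Z)
    (hZ : nbr A Z ⊆ S) : comp A S v ⊆ Z := by
  intro u hu
  refine comp_ind (P := fun u => u ∈ Z) hv ?_ u hu
  intro a b _ ha hab _ hb
  by_contra hbZ
  exact hb (hZ ⟨hbZ, a, ha, hab.symm⟩)

theorem comp_disj {A : SimpleGraph ℕ} {S : Set ℕ} {u v : ℕ} (h : u ∉ comp A S v) :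
    Disjoint (comp A S u) (comp A S v) := by
  rw [Set.disjoint_left]
  intro w hwu hwv
  exact h (comp_trans hwv (comp_symm hwu))

theorem comp_reach_induce {A : SimpleGraph ℕ} {S : Set ℕ} {v : ℕ} (hv : v ∉ S) :
    ∀ u ∈ comp A S v, ∃ (hv : v ∈ Sᶜ) (hu : u ∈ Sᶜ),
      (A.induce Sᶜ).Reachable ⟨v, hv⟩ ⟨u, hu⟩ := by
  refine comp_ind ⟨hv, hv, SimpleGraph.Reachable.refl _⟩ ?_
  rintro a b _ ⟨hv', ha, h⟩ hab _ hb
  refine ⟨hv', hb, h.trans ?_⟩
  exact SimpleGraph.Adj.reachable (G := A.induce Sᶜ) (u := ⟨a, ha⟩) (v := ⟨b, hb⟩) hab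

theorem comp_conn {A : SimpleGraph ℕ} {S : Set ℕ} {v : ℕ} (hv : v ∉ S) :
    (A.induce (comp A S v)).Connected := by
  rw [SimpleGraph.connected_iff_exists_forall_reachable]
  refine ⟨⟨v, mem_self A S v⟩, ?_⟩
  have key : ∀ u ∈ comp A S v, ∃ hu : u ∈ comp A S v,
      (A.induce (comp A S v)).Reachable ⟨v, mem_self A S v⟩ ⟨u, hu⟩ := by
    refine comp_ind ⟨mem_self A S v, SimpleGraph.Reachable.refl _⟩ ?_
    rintro a b _ ⟨ha, h⟩ hab haS hbS
    refine ⟨comp_step ha hab haS hbS, h.trans ?_⟩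
    exact SimpleGraph.Adj.reachable (G := A.induce (comp A S v)) (u := ⟨a, ha⟩)
      (v := ⟨b, comp_step ha hab haS hbS⟩) hab
  rintro ⟨u, hu⟩
  obtain ⟨_, h⟩ := key u hu
  exact h

theorem comp_supp {A : SimpleGraph ℕ} {S : Set ℕ} {v : ℕ} (hv : v ∈ A.support) :
    comp A S v ⊆ A.support := by
  intro u hu
  refine comp_ind (P := fun u => u ∈ A.support) hv ?_ u hu
  intro a b _ _ hab _ _
  exact ⟨a, hab.symm⟩

theorem comp_fin {A : SimpleGraph ℕ} (hf : A.support.Finite) (S : Set ℕ) (v : ℕ) :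
    (comp A S v).Finite := by
  refine (hf.insert v).subset ?_
  refine comp_ind (P := fun u => u ∈ insert v A.support) (Set.mem_insert _ _) ?_
  intro a b _ _ hab _ _
  exact Set.mem_insert_of_mem _ ⟨a, hab.symm⟩

theorem nbr_supp {A : SimpleGraph ℕ} (Z : Set ℕ) : nbr A Z ⊆ A.support := by
  rintro u ⟨_, v, _, huv⟩
  exact ⟨v, huv⟩

/-! ### reachability outside of a set -/

theorem no_path {A : SimpleGraph ℕ} (hA : Planar A) {K : Set ℕ} {a b : ℕ} (ha : a ∉ K)
    (hb : b ∉ K) (hab : a ≠ b) (hK : nbr A K ⊆ {a, b}) (h : b ∈ comp A K a) :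
    Planar (inc A K ⊔ SimpleGraph.edge a b) := by
  set P := comp A (K ∪ {b}) a with hP
  have haP : a ∈ P := mem_self _ _ _
  have haKb : a ∉ K ∪ {b} := by
    rintro (h' | h')
    · exact ha h'
    · exact hab h'
  have hPn : ∀ u ∈ P, u ∉ K ∪ {b} := comp_notMem haKb
  have hv : ∃ v ∈ P, A.Adj v b := by
    by_contra hno
    push Not at hno
    have : b ∈ P := by
      refine comp_ind (P := fun u => u ∈ P) haP ?_ b h
      intro c d _ hc hcd hcK hdK
      refine comp_step hc hcd (hPn c hc) ?_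
      rintro (h' | h')
      · exact hdK h'
      · have h'' : d = b := h'
        subst h''
        exact hno c hc hcd
    exact hPn b this (Or.inr rfl)
  obtain ⟨v, hvP, hvb⟩ := hv
  have hcol := planar_collapse A P a haP (comp_conn haKb) hA
  refine planar_mono ?_ hcol
  have hKP : ∀ u ∈ K, u ∉ P := fun u hu huP => hPn u huP (Or.inl hu)
  have hfix : ∀ u, (u ∈ K ∨ u ∈ nbr A K) → (if u ∈ P then a else u) = u := by
    intro u hu
    by_cases huP : u ∈ P
    · rw [if_pos huP]
      rcases hu with hu | hu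
      · exact absurd huP (hKP u hu)
      · rcases hK hu with h' | h'
        · exact h'.symm
        · exact absurd (Or.inr h') (hPn u huP)
    · rw [if_neg huP]
  have hbP : b ∉ P := fun h' => hPn b h' (Or.inr rfl)
  intro c d hcd
  rw [SimpleGraph.sup_adj] at hcd
  rcases hcd with hcd | hcd
  · have hc : (if c ∈ P then a else c) = c := by
      apply hfix
      rcases hcd.2 with h' | h'
      · exact Or.inl h'
      · by_cases hcK : c ∈ K
        · exact Or.inl hcK
        · exact Or.inr ⟨hcK, d, h', hcd.1⟩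
    have hd : (if d ∈ P then a else d) = d := by
      apply hfix
      rcases hcd.2 with h' | h'
      · by_cases hdK : d ∈ K
        · exact Or.inl hdK
        · exact Or.inr ⟨hdK, c, h', hcd.1.symm⟩
      · exact Or.inl h'
    exact ⟨hcd.1.ne, c, d, hcd.1, hc, hd⟩
  · rw [SimpleGraph.edge_adj] at hcd
    rcases hcd.1 with ⟨rfl, rfl⟩ | ⟨rfl, rfl⟩
    · exact ⟨hcd.2, v, d, hvb, if_pos hvP, if_neg hbP⟩
    · exact ⟨hcd.2, c, v, hvb.symm, if_neg hbP, if_pos hvP⟩

/-- contracting a connected set adjacent to all three neighbours of `K`. -/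
theorem claw_planar {A : SimpleGraph ℕ} (hA : Planar A) {K Y : Set ℕ} {t x y z : ℕ}
    (htY : t ∈ Y) (hY : (A.induce Y).Connected) (hKY : Disjoint K Y) (hK : nbr A K = {x, y, z})
    (hYn : nbr A Y = {x, y, z}) : Planar (inc A K ⊔ claw t x y z) := by
  have hcol := planar_collapse A Y t htY hY hA
  refine planar_mono ?_ hcol
  have hfix : ∀ u, (u ∈ K ∨ u ∈ nbr A K) → (if u ∈ Y then t else u) = u := by
    intro u hu
    apply if_neg
    rcases hu with hu | hu
    · exact Set.disjoint_left.1 hKY hu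
    · rw [hK, ← hYn] at hu
      exact hu.1
  have hleg : ∀ u ∈ nbr A Y, (A.map (fun s => if s ∈ Y then t else s)).Adj t u := by
    rintro u ⟨huY, v, hv, huv⟩
    refine ⟨?_, v, u, huv.symm, if_pos hv, if_neg huY⟩
    rintro rfl
    exact huY htY
  intro c d hcd
  rw [SimpleGraph.sup_adj] at hcd
  rcases hcd with hcd | hcd
  · have hc : (if c ∈ Y then t else c) = c := by
      apply hfix
      rcases hcd.2 with h' | h'
      · exact Or.inl h'
      · by_cases hcK : c ∈ K
        · exact Or.inl hcK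
        · exact Or.inr ⟨hcK, d, h', hcd.1⟩
    have hd : (if d ∈ Y then t else d) = d := by
      apply hfix
      rcases hcd.2 with h' | h'
      · by_cases hdK : d ∈ K
        · exact Or.inl hdK
        · exact Or.inr ⟨hdK, c, h', hcd.1.symm⟩
      · exact Or.inl h'
    exact ⟨hcd.1.ne, c, d, hcd.1, hc, hd⟩
  · have hxyz : ∀ u, u = x ∨ u = y ∨ u = z → u ∈ nbr A Y := by
      intro u hu
      rw [hYn]
      simpa using hu
    simp only [claw, SimpleGraph.sup_adj, SimpleGraph.edge_adj] at hcd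
    rcases hcd with (hcd | hcd) | hcd
    · rcases hcd.1 with ⟨rfl, rfl⟩ | ⟨rfl, rfl⟩
      · exact hleg _ (hxyz _ (Or.inl rfl))
      · exact (hleg _ (hxyz _ (Or.inl rfl))).symm
    · rcases hcd.1 with ⟨rfl, rfl⟩ | ⟨rfl, rfl⟩
      · exact hleg _ (hxyz _ (Or.inr (Or.inl rfl)))
      · exact (hleg _ (hxyz _ (Or.inr (Or.inl rfl)))).symm
    · rcases hcd.1 with ⟨rfl, rfl⟩ | ⟨rfl, rfl⟩
      · exact hleg _ (hxyz _ (Or.inr (Or.inr rfl)))
      · exact (hleg _ (hxyz _ (Or.inr (Or.inr rfl)))).symm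

/-! ### near vertices -/

/-- vertices that can be reached from `T` by at most `i` steps leaving vertices of degree `≤ D` -/
def near (A : SimpleGraph ℕ) (T : Set ℕ) (D : ℕ) : ℕ → Set ℕ
  | 0 => T
  | i + 1 => near A T D i ∪ {u | ∃ v ∈ near A T D i, A.Adj v u ∧ (A.neighborSet v).ncard ≤ D}

theorem near_mono (A : SimpleGraph ℕ) (T : Set ℕ) (D : ℕ) {i j : ℕ} (h : i ≤ j) :
    near A T D i ⊆ near A T D j := by
  induction h with
  | refl => exact subset_rfl
  | step _ ih => exact ih.trans Set.subset_union_left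

theorem nbs_fin {A : SimpleGraph ℕ} (hf : A.support.Finite) (v : ℕ) : (A.neighborSet v).Finite :=
  hf.subset (fun u hu => ⟨v, (SimpleGraph.mem_neighborSet _ _ _ |>.1 hu).symm⟩)

theorem near_card {A : SimpleGraph ℕ} {T : Set ℕ} (hf : A.support.Finite) (hT : T.Finite)
    (D i : ℕ) : (near A T D i).Finite ∧ (near A T D i).ncard ≤ T.ncard * (D + 1) ^ i := by
  induction i with
  | zero => exact ⟨hT, by simp [near]⟩
  | succ i ih =>
    obtain ⟨hfin, hcard⟩ := ih
    have hsub : near A T D (i + 1) ⊆ near A T D i ∪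
        ⋃ v ∈ {v | v ∈ near A T D i ∧ (A.neighborSet v).ncard ≤ D}, A.neighborSet v := by
      intro u hu
      rcases hu with hu | ⟨v, hv, hvu, hd⟩
      · exact Or.inl hu
      · refine Or.inr ?_
        simp only [Set.mem_iUnion]
        exact ⟨v, ⟨hv, hd⟩, hvu⟩
    set N := near A T D i with hN
    have hfin' : {v | v ∈ N ∧ (A.neighborSet v).ncard ≤ D}.Finite := hfin.subset (fun v hv => hv.1)
    have hUfin : (⋃ v ∈ {v | v ∈ N ∧ (A.neighborSet v).ncard ≤ D}, A.neighborSet v).Finite :=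
      hfin'.biUnion (fun v _ => nbs_fin hf v)
    have hUcard : (⋃ v ∈ {v | v ∈ N ∧ (A.neighborSet v).ncard ≤ D}, A.neighborSet v).ncard ≤
        N.ncard * D := by
      have h1 : (⋃ v ∈ {v | v ∈ N ∧ (A.neighborSet v).ncard ≤ D}, A.neighborSet v) =
          ⋃ v ∈ hfin'.toFinset, A.neighborSet v := by
        ext u; simp
      rw [h1]
      refine (Finset.set_ncard_biUnion_le _ _).trans ?_
      have h2 : ∑ v ∈ hfin'.toFinset, (A.neighborSet v).ncard ≤ ∑ v ∈ hfin'.toFinset, D := by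
        apply Finset.sum_le_sum
        intro v hv
        rw [Set.Finite.mem_toFinset] at hv
        exact hv.2
      refine h2.trans ?_
      rw [Finset.sum_const, smul_eq_mul]
      apply Nat.mul_le_mul_right
      rw [← Set.ncard_eq_toFinset_card _ hfin']
      exact Set.ncard_le_ncard (fun v hv => hv.1) hfin
    refine ⟨(hfin.union hUfin).subset hsub, ?_⟩
    calc (near A T D (i + 1)).ncard ≤ _ := Set.ncard_le_ncard hsub (hfin.union hUfin)
      _ ≤ N.ncard + N.ncard * D := (Set.ncard_union_le _ _).trans (by omega)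
      _ = N.ncard * (D + 1) := by ring
      _ ≤ T.ncard * (D + 1) ^ i * (D + 1) := Nat.mul_le_mul_right _ hcard
      _ = T.ncard * (D + 1) ^ (i + 1) := by ring

theorem near_comp_aux {A : SimpleGraph ℕ} {T S : Set ℕ} (hf : A.support.Finite) (D : ℕ) {t : ℕ}
    (ht : t ∈ T) (hdeg : ∀ v ∈ comp A S t, (A.neighborSet v).ncard ≤ D) (i : ℕ) :
    comp A S t ⊆ near A T D i ∨ i + 1 ≤ (near A T D i ∩ comp A S t).ncard := by
  induction i with
  | zero =>
    right
    have h1 : (near A T D 0 ∩ comp A S t).Finite := (comp_fin hf S t).inter_of_right _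
    have h2 : (near A T D 0 ∩ comp A S t).Nonempty := ⟨t, ht, mem_self _ _ _⟩
    have := (Set.ncard_pos h1).2 h2
    omega
  | succ i ih =>
    rcases ih with ih | ih
    · exact Or.inl (ih.trans (near_mono A T D (Nat.le_succ i)))
    · by_cases hall : comp A S t ⊆ near A T D i
      · exact Or.inl (hall.trans (near_mono A T D (Nat.le_succ i)))
      · right
        have hcross : ∃ a b, a ∈ comp A S t ∧ a ∈ near A T D i ∧ A.Adj a b ∧ b ∈ comp A S t ∧
            b ∉ near A T D i := by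
          by_contra hno
          apply hall
          refine comp_ind (P := fun u => u ∈ near A T D i)
            (near_mono A T D (Nat.zero_le i) ht) ?_
          intro a b ha haN hab haS hbS
          by_contra hb
          exact hno ⟨a, b, ha, haN, hab, comp_step ha hab haS hbS, hb⟩
        obtain ⟨a, b, ha, haN, hab, hb, hbN⟩ := hcross
        have hb1 : b ∈ near A T D (i + 1) := Or.inr ⟨a, haN, hab, hdeg a ha⟩
        have hsub : insert b (near A T D i ∩ comp A S t) ⊆ near A T D (i + 1) ∩ comp A S t := by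
          intro u hu
          rcases hu with rfl | hu
          · exact ⟨hb1, hb⟩
          · exact ⟨near_mono A T D (Nat.le_succ i) hu.1, hu.2⟩
        have hfin : (near A T D (i + 1) ∩ comp A S t).Finite :=
          (comp_fin hf S t).inter_of_right _
        have h1 := Set.ncard_le_ncard hsub hfin
        rw [Set.ncard_insert_of_notMem (fun h => hbN h.1) (hfin.subset
          ((Set.subset_insert _ _).trans hsub))] at h1
        omega

/-! ### the hypotheses -/

structure Hyp (M : ℕ) (T : Set ℕ) (A : SimpleGraph ℕ) : Prop where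
  hT : T.Finite
  hf : A.support.Finite
  hA : Planar A
  hI : Irr T A
  h14 : 14 ≤ T.ncard
  hNB : NoBal T A
  hSS : SmallSides M T A

theorem exists_big {M : ℕ} {T : Set ℕ} {A : SimpleGraph ℕ} (H : Hyp M T A) {S : Set ℕ}
    (hS : S.Finite) (hS3 : S.ncard ≤ 3) :
    ∃ t, t ∈ T ∧ t ∉ S ∧ 4 ≤ (T ∩ comp A S t).ncard := by
  have hex : ∃ n : ℕ, ∃ Z : Set ℕ, nbr A Z ⊆ S ∧ Disjoint Z S ∧ 4 ≤ (T ∩ Z).ncard ∧
      (T ∩ Z).ncard = n := by
    refine ⟨_, Sᶜ, ?_, disjoint_compl_left, ?_, rfl⟩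
    · rintro u ⟨hu, _⟩
      exact Set.notMem_compl_iff.1 hu
    · have h1 := Set.ncard_sdiff_add_ncard (s := T) (t := S) H.hT hS
      have h2 : T.ncard ≤ (T ∪ S).ncard :=
        Set.ncard_le_ncard Set.subset_union_left (H.hT.union hS)
      have h3 := H.h14
      rw [Set.sdiff_eq] at h1
      omega
  obtain ⟨Z, hZn, hZS, hZ4, hZc⟩ := Nat.find_spec hex
  have hmin := fun m (hm : m < Nat.find hex) => Nat.find_min hex hm
  rw [← hZc] at hmin
  have hfinZ : (T ∩ Z).Finite := H.hT.inter_of_left _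
  obtain ⟨t, htT, htZ⟩ : (T ∩ Z).Nonempty := by
    rw [← Set.ncard_pos hfinZ]
    omega
  have htS : t ∉ S := Set.disjoint_left.1 hZS htZ
  refine ⟨t, htT, htS, ?_⟩
  by_contra h4
  set K := comp A S t with hK
  have hKZ : K ⊆ Z := comp_sub_closed htZ hZn
  have hZ'n : nbr A (Z \ K) ⊆ S := by
    rintro u ⟨hu, v, hv, huv⟩
    by_cases huZ : u ∈ Z
    · have huK : u ∈ K := by
        by_contra huK
        exact hu ⟨huZ, huK⟩
      have : v ∈ nbr A K := ⟨hv.2, u, huK, huv.symm⟩
      exact absurd (nbr_comp htS this) (Set.disjoint_left.1 hZS hv.1)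
    · exact hZn ⟨huZ, v, hv.1, huv⟩
  have hlt : (T ∩ (Z \ K)).ncard < (T ∩ Z).ncard := by
    apply Set.ncard_lt_ncard _ hfinZ
    refine ⟨fun u hu => ⟨hu.1, hu.2.1⟩, ?_⟩
    intro hsub
    exact (hsub ⟨htT, htZ⟩).2.2 (mem_self _ _ _)
  have h3 : (T ∩ (Z \ K)).ncard ≤ 3 := by
    by_contra h
    exact hmin _ hlt ⟨Z \ K, hZ'n, hZS.mono_left Set.sdiff_subset, by omega, rfl⟩
  have h6 : (T ∩ Z).ncard ≤ 6 := by
    have hsub : T ∩ Z ⊆ (T ∩ (Z \ K)) ∪ (T ∩ K) := by
      intro u hu
      by_cases huK : u ∈ K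
      · exact Or.inr ⟨hu.1, huK⟩
      · exact Or.inl ⟨hu.1, hu.2, huK⟩
    have h1 := Set.ncard_le_ncard hsub ((H.hT.inter_of_left _).union (H.hT.inter_of_left _))
    have h2 := Set.ncard_union_le (T ∩ (Z \ K)) (T ∩ K)
    omega
  have hnfin : (nbr A Z).Finite := hS.subset hZn
  have hn3 : (nbr A Z).ncard ≤ 3 := (Set.ncard_le_ncard hZn hS).trans hS3
  rcases H.hNB Z hnfin hn3 with h | h
  · omega
  · have hsub : T ⊆ (T ∩ Z) ∪ (nbr A Z ∪ (T \ (Z ∪ nbr A Z))) := by
      intro u hu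
      by_cases h1 : u ∈ Z
      · exact Or.inl ⟨hu, h1⟩
      · by_cases h2 : u ∈ nbr A Z
        · exact Or.inr (Or.inl h2)
        · exact Or.inr (Or.inr ⟨hu, by rintro (h' | h'); exacts [h1 h', h2 h']⟩)
    have h1 := Set.ncard_le_ncard hsub
      (hfinZ.union (hnfin.union (H.hT.subset Set.sdiff_subset)))
    have h2 := Set.ncard_union_le (T ∩ Z) (nbr A Z ∪ (T \ (Z ∪ nbr A Z)))
    have h3 := Set.ncard_union_le (nbr A Z) (T \ (Z ∪ nbr A Z))
    have h4 := H.h14
    omega

theorem big_unique {M : ℕ} {T : Set ℕ} {A : SimpleGraph ℕ} (H : Hyp M T A) {S : Set ℕ}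
    (hS : S.Finite) (hS3 : S.ncard ≤ 3) {u v : ℕ} (hu : u ∉ S) (hv : v ∉ S)
    (h4u : 4 ≤ (T ∩ comp A S u).ncard) (h4v : 4 ≤ (T ∩ comp A S v).ncard) : u ∈ comp A S v := by
  by_contra hne
  have hd := comp_disj hne
  have hnS := nbr_comp (A := A) hu
  have hnfin : (nbr A (comp A S u)).Finite := hS.subset hnS
  have hn3 : (nbr A (comp A S u)).ncard ≤ 3 := (Set.ncard_le_ncard hnS hS).trans hS3
  rcases H.hNB _ hnfin hn3 with h | h
  · omega
  · have hsub : T ∩ comp A S v ⊆ T \ (comp A S u ∪ nbr A (comp A S u)) := by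
      rintro w ⟨hwT, hw⟩
      refine ⟨hwT, ?_⟩
      rintro (h' | h')
      · exact Set.disjoint_left.1 hd h' hw
      · exact comp_notMem hv w hw (hnS h')
    have := Set.ncard_le_ncard hsub (H.hT.subset Set.sdiff_subset)
    omega

/-- the set of near vertices -/
def NN (M : ℕ) (T : Set ℕ) (A : SimpleGraph ℕ) : Set ℕ := near A T (M + 6) (M + 4)

theorem T_sub_NN (M : ℕ) (T : Set ℕ) (A : SimpleGraph ℕ) : T ⊆ NN M T A :=
  near_mono A T (M + 6) (Nat.zero_le (M + 4))

theorem near_comp {M : ℕ} {T : Set ℕ} {A : SimpleGraph ℕ} (H : Hyp M T A) {S : Set ℕ}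
    (hS : S.Finite) (hS3 : S.ncard ≤ 3) {u : ℕ} (hu : u ∉ S) (hus : u ∈ A.support)
    (h3 : (T ∩ comp A S u).ncard ≤ 3) (hne : (T ∩ comp A S u).Nonempty) :
    comp A S u ∪ nbr A (comp A S u) ⊆ NN M T A := by
  obtain ⟨t, htT, ht⟩ := hne
  have htS := comp_notMem hu t ht
  have hts := comp_supp (S := S) hus ht
  rw [← comp_eq ht] at h3 ⊢
  set K := comp A S t with hK
  have hKfin : K.Finite := comp_fin H.hf S t
  have hKs : K ⊆ A.support := comp_supp hts
  have hnS : nbr A K ⊆ S := nbr_comp htS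
  have hn3 : (nbr A K).ncard ≤ 3 := (Set.ncard_le_ncard hnS hS).trans hS3
  have hM := H.hSS K hn3 h3
  have hKcard : K.ncard ≤ M + 3 := by
    have hsub : K ⊆ (T ∩ K) ∪ ((A.support ∩ K) \ T) := by
      intro w hw
      by_cases hwT : w ∈ T
      · exact Or.inl ⟨hwT, hw⟩
      · exact Or.inr ⟨⟨hKs hw, hw⟩, hwT⟩
    have h1 := Set.ncard_le_ncard hsub ((H.hT.inter_of_left _).union
      ((hKfin.inter_of_right _).subset Set.sdiff_subset))
    have h2 := Set.ncard_union_le (T ∩ K) ((A.support ∩ K) \ T)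
    omega
  have hdeg : ∀ v ∈ K, (A.neighborSet v).ncard ≤ M + 6 := by
    intro v hv
    have hsub : A.neighborSet v ⊆ K ∪ S := by
      intro w hw
      by_cases hwS : w ∈ S
      · exact Or.inr hwS
      · exact Or.inl (comp_step hv hw (comp_notMem htS v hv) hwS)
    have h1 := Set.ncard_le_ncard hsub (hKfin.union hS)
    have h2 := Set.ncard_union_le K S
    omega
  have hKN : K ⊆ near A T (M + 6) (M + 3) := by
    rcases near_comp_aux H.hf (M + 6) htT hdeg (M + 3) with h | h
    · exact h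
    · exfalso
      have := Set.ncard_le_ncard (s := near A T (M + 6) (M + 3) ∩ comp A S t) (t := K)
        Set.inter_subset_right hKfin
      omega
  rintro w (hw | ⟨_, v, hv, hwv⟩)
  · exact near_mono A T (M + 6) (Nat.le_succ _) (hKN hw)
  · exact Or.inr ⟨v, hKN hv, hwv.symm, hdeg v hv⟩

/-- a component next to (or containing) a vertex that is not near has no terminal or is big. -/
theorem tf_or_big {M : ℕ} {T : Set ℕ} {A : SimpleGraph ℕ} (H : Hyp M T A) {S : Set ℕ}
    (hS : S.Finite) (hS3 : S.ncard ≤ 3) {u x : ℕ} (hu : u ∉ S) (hus : u ∈ A.support)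
    (hx : x ∉ NN M T A) (hxK : x ∈ comp A S u ∪ nbr A (comp A S u)) :
    Disjoint (comp A S u) T ∨ 4 ≤ (T ∩ comp A S u).ncard := by
  by_contra hcon
  push Not at hcon
  have hne : (T ∩ comp A S u).Nonempty := by
    rw [Set.inter_comm]
    exact Set.not_disjoint_iff_nonempty_inter.1 hcon.1
  exact hx (near_comp H hS hS3 hu hus (by omega) hne hxK)

/-! ### reducible configurations -/

theorem irr_false {T : Set ℕ} {A A' : SimpleGraph ℕ} (hf : A.support.Finite) (hI : Irr T A)
    (hR : Red T A A') {v : ℕ} (hv : v ∈ A.support) (hvT : v ∉ T) (hv' : v ∉ A'.support) :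
    False := by
  have h1 := hI A' hR
  have h2 : rho T A' < rho T A := by
    apply Set.ncard_lt_ncard _ (hf.subset Set.sdiff_subset)
    refine ⟨hR.1, fun hsub => ?_⟩
    exact hv' (hsub ⟨hv, hvT⟩).1
  omega

theorem supp_off {A : SimpleGraph ℕ} {K : Set ℕ} {v : ℕ} (hv : v ∈ (off A K).support) :
    v ∉ K := by
  obtain ⟨w, hw⟩ := hv
  exact hw.2.1

theorem no_sub {M : ℕ} {T : Set ℕ} {A : SimpleGraph ℕ} (H : Hyp M T A) {K : Set ℕ}
    (hK : Disjoint K T) {v : ℕ} (hv : v ∈ K) (hvs : v ∈ A.support) :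
    ¬ (nbr A K).Subsingleton := by
  intro hs
  have hp : Planar (inc A K) := planar_mono (fun _ _ h => h.1) H.hA
  exact irr_false H.hf H.hI (red_del T K A H.hf hK hp hs) hvs (Set.disjoint_left.1 hK hv)
    (fun h => supp_off h hv)

theorem no_two {M : ℕ} {T : Set ℕ} {A : SimpleGraph ℕ} (H : Hyp M T A) {K : Set ℕ}
    (hK : Disjoint K T) (hc : (A.induce K).Connected) {a b : ℕ} (hab : a ≠ b)
    (hn : nbr A K = {a, b}) : ¬ Planar (inc A K ⊔ SimpleGraph.edge a b) := by
  intro hp
  have ha : a ∈ nbr A K := by rw [hn]; simp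
  have hb : b ∈ nbr A K := by rw [hn]; simp
  obtain ⟨haK, v, hv, hav⟩ := ha
  refine irr_false H.hf H.hI (red_edge T K A H.hf hK hc a b hab hn hp) (v := v) ⟨a, hav.symm⟩
    (Set.disjoint_left.1 hK hv) ?_
  rintro ⟨w, hw⟩
  have hw : (off A K ⊔ SimpleGraph.edge a b).Adj v w := hw
  rw [SimpleGraph.sup_adj, SimpleGraph.edge_adj] at hw
  rcases hw with hw | ⟨⟨rfl, _⟩ | ⟨rfl, _⟩, _⟩
  · exact hw.2.1 hv
  · exact haK hv
  · exact hb.1 hv

theorem no_three {M : ℕ} {T : Set ℕ} {A : SimpleGraph ℕ} (H : Hyp M T A) {K : Set ℕ}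
    (hK : Disjoint K T) (hc : (A.induce K).Connected) {c x y z w v : ℕ}
    (hd : [c, x, y, z].Nodup) (hcK : c ∉ K) (hn : nbr A K = {x, y, z}) (hw : w ∈ K) (hv : v ∈ K)
    (hvs : v ∈ A.support) (hvw : v ≠ w) : ¬ Planar (inc A K ⊔ claw c x y z) := by
  intro hp
  have hnK : ∀ u, u = x ∨ u = y ∨ u = z → u ∉ K := by
    intro u hu
    have : u ∈ nbr A K := by rw [hn]; simpa using hu
    exact this.1
  refine irr_false H.hf H.hI (red_claw T K A H.hf hK hc c w x y z hd hcK hw hn hp) hvs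
    (Set.disjoint_left.1 hK hv) ?_
  rintro ⟨u, hu⟩
  have hu : (off A K ⊔ claw w x y z).Adj v u := hu
  simp only [claw, SimpleGraph.sup_adj, SimpleGraph.edge_adj] at hu
  rcases hu with hu | (⟨⟨h, _⟩ | ⟨h, _⟩, _⟩ | ⟨⟨h, _⟩ | ⟨h, _⟩, _⟩) | ⟨⟨h, _⟩ | ⟨h, _⟩, _⟩
  · exact hu.2.1 hv
  · exact hvw h
  · exact hnK v (Or.inl h) hv
  · exact hvw h
  · exact hnK v (Or.inr (Or.inl h)) hv
  · exact hvw h
  · exact hnK v (Or.inr (Or.inr h)) hv

theorem few (G : SimpleGraph ℕ) (l : List (Sym2 ℕ)) (hl : l.length ≤ 8)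
    (h : ∀ e ∈ G.edgeSet, e ∈ l) : Planar G := by
  have hsub : G.edgeSet ⊆ (l.toFinset : Set (Sym2 ℕ)) := by
    intro e he
    simpa using h e he
  refine planar_few_edges G (l.toFinset.finite_toSet.subset hsub) ?_
  refine (Set.ncard_le_ncard hsub l.toFinset.finite_toSet).trans ?_
  rw [Set.ncard_coe_finset]
  exact l.toFinset_card_le.trans hl

/-- a terminal-free connected set with few edges has at least three neighbours -/
theorem three_nbrs {M : ℕ} {T : Set ℕ} {A : SimpleGraph ℕ} (H : Hyp M T A) {K : Set ℕ}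
    (hK : Disjoint K T) (hc : (A.induce K).Connected) {v : ℕ} (hv : v ∈ K) (hvs : v ∈ A.support)
    (h2 : ∀ a b : ℕ, a ≠ b → nbr A K = {a, b} → ∃ l : List (Sym2 ℕ), l.length ≤ 7 ∧
      ∀ e ∈ (inc A K).edgeSet, e ∈ l) : 3 ≤ (nbr A K).ncard := by
  have hfin : (nbr A K).Finite := H.hf.subset (nbr_supp K)
  have h1 : 1 < (nbr A K).ncard := by
    by_contra hle
    apply no_sub H hK hv hvs
    have : (nbr A K).ncard ≤ 1 := by omega
    have := hfin.to_subtype
    exact Set.ncard_le_one_iff_subsingleton.1 (by omega)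
  by_contra hlt
  have h2' : (nbr A K).ncard = 2 := by omega
  obtain ⟨a, b, hab, hn⟩ := Set.ncard_eq_two.1 h2'
  obtain ⟨l, hl, hle⟩ := h2 a b hab hn
  apply no_two H hK hc hab hn
  refine few _ (s(a, b) :: l) (by simp; omega) ?_
  intro e he
  rw [SimpleGraph.edgeSet_sup] at he
  rcases he with he | he
  · exact List.mem_cons_of_mem _ (hle e he)
  · have := SimpleGraph.edgeSet_edge_of_ne (V := ℕ) hab
    rw [this] at he
    simp only [Set.mem_singleton_iff] at he
    rw [he]
    exact List.mem_cons_self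

/-! ### local structure at an edge between vertices that are not near -/

/-- a terminal-free component `K` with two neighbours `x, z`, `x` not near: there is an
`x`-`z` path outside `K`. -/
theorem case_two {M : ℕ} {T : Set ℕ} {A : SimpleGraph ℕ} (H : Hyp M T A) {S : Set ℕ} {u x z : ℕ}
    (hu : u ∉ S) (hus : u ∈ A.support) (hxS : x ∈ S) (hzS : z ∈ S) (hx : x ∉ NN M T A)
    (hxs : x ∈ A.support) (hxz : x ≠ z)
    (hKT : Disjoint (comp A S u) T) (hn : nbr A (comp A S u) = {x, z}) :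
    z ∈ comp A (comp A S u) x := by
  set K := comp A S u with hK
  by_contra hno
  have hxT : x ∉ T := fun h => hx (T_sub_NN M T A h)
  have hxn : x ∈ nbr A K := by rw [hn]; simp
  have hzn : z ∈ nbr A K := by rw [hn]; simp
  have hxK : x ∉ K := hxn.1
  have hzK : z ∉ K := hzn.1
  have hzx : z ∉ ({x} : Set ℕ) := fun h => hxz (Set.mem_singleton_iff.1 h).symm
  have hxz' : x ∉ ({z} : Set ℕ) := fun h => hxz (Set.mem_singleton_iff.1 h)
  -- `K` is contained in both components
  have hKa : ∀ a b, a ∈ S → b ∈ nbr A K → b ≠ a → K ⊆ comp A {a} b := by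
    rintro a b ha ⟨_, v, hv, hbv⟩ hba
    have hvS : v ∉ S := comp_notMem hu v hv
    have h1 : K = comp A S v := (comp_eq hv).symm
    have h2 : comp A S v ⊆ comp A {a} v := comp_mono (by simpa using ha) v
    have h3 : v ∈ comp A {a} b := by
      refine comp_step (mem_self _ _ _) hbv (by simpa using hba) ?_
      rintro rfl
      exact hvS ha
    rw [← comp_eq h3, h1]
    exact h2
  have hKz : K ⊆ comp A {x} z := hKa x z hxS hzn (Ne.symm hxz)
  have hKx : K ⊆ comp A {z} x := hKa z x hzS hxn hxz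
  have hzs : z ∈ A.support := nbr_supp K hzn
  have h1 : 4 ≤ (T ∩ comp A {x} z).ncard := by
    rcases tf_or_big H (S := {x}) (Set.finite_singleton x) (by simp) hzx hzs hx (by
      right
      obtain ⟨_, v, hv, hxv⟩ := hxn
      exact ⟨fun h => comp_notMem hzx x h rfl, v, hKz hv, hxv⟩) with h | h
    · exfalso
      exact no_sub H h (mem_self _ _ _) hzs (Set.subsingleton_singleton.anti (nbr_comp hzx))
    · exact h
  have h2 : 4 ≤ (T ∩ comp A {z} x).ncard := by
    rcases tf_or_big H (S := {z}) (Set.finite_singleton z) (by simp) hxz' hxs hx (by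
      left
      exact mem_self _ _ _) with h | h
    · exfalso
      exact no_sub H h (mem_self _ _ _) hxs (Set.subsingleton_singleton.anti (nbr_comp hxz'))
    · exact h
  -- reachability outside `K`
  have hra : ∀ a b, nbr A K = {a, b} → ∀ w ∈ comp A {a} b, w ∈ K ∨ w ∈ comp A K b := by
    intro a b hab
    have hbn : b ∈ nbr A K := by rw [hab]; simp
    refine comp_ind (Or.inr (mem_self _ _ _)) ?_
    intro c d _ hc hcd hca hda
    by_cases hdK : d ∈ K
    · exact Or.inl hdK
    · right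
      by_cases hcK : c ∈ K
      · have hdn : d ∈ nbr A K := ⟨hdK, c, hcK, hcd.symm⟩
        rw [hab] at hdn
        rcases hdn with h' | h'
        · exact absurd h' hda
        · have h'' : d = b := h'
          rw [h'']
          exact mem_self _ _ _
      · rcases hc with hc | hc
        · exact absurd hc hcK
        · exact comp_step hc hcd hcK hdK
  have hrz := hra x z hn
  have hrx := hra z x (by rw [hn]; exact Set.pair_comm _ _)
  have hnx : nbr A (comp A {x} z) ⊆ {x} := nbr_comp hzx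
  rcases H.hNB (comp A {x} z) ((Set.finite_singleton x).subset hnx)
    ((Set.ncard_le_ncard hnx (Set.finite_singleton x)).trans (by simp)) with h | h
  · omega
  · have hsub : T ∩ comp A {z} x ⊆ T \ (comp A {x} z ∪ nbr A (comp A {x} z)) := by
      rintro w ⟨hwT, hw⟩
      refine ⟨hwT, ?_⟩
      rintro (h' | h')
      · rcases hrz w h' with h1 | h1
        · exact Set.disjoint_left.1 hKT h1 hwT
        · rcases hrx w hw with h2 | h2
          · exact Set.disjoint_left.1 hKT h2 hwT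
          · exact hno (comp_trans h2 (comp_symm h1))
      · have h'' := hnx h'
        simp only [Set.mem_singleton_iff] at h''
        subst h''
        exact hxT hwT
    have := Set.ncard_le_ncard hsub (H.hT.subset Set.sdiff_subset)
    omega

theorem pair_card (x y : ℕ) : ({x, y} : Set ℕ).ncard ≤ 2 := by
  have h1 := Set.ncard_insert_le x ({y} : Set ℕ)
  have h3 := Set.ncard_singleton y
  omega

theorem triple_card (x y z : ℕ) : ({x, y, z} : Set ℕ).ncard ≤ 3 := by
  have h1 := Set.ncard_insert_le x ({y, z} : Set ℕ)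
  have h2 := Set.ncard_insert_le y ({z} : Set ℕ)
  have h3 := Set.ncard_singleton z
  omega

/-- a terminal-free component with three neighbours, one of them not near, is a single vertex -/
theorem case_three {M : ℕ} {T : Set ℕ} {A : SimpleGraph ℕ} (H : Hyp M T A) {u x y z : ℕ}
    (hus : u ∈ A.support) (hu : u ∉ ({x, y, z} : Set ℕ)) (hx : x ∉ NN M T A)
    (hxy : x ≠ y) (hxz : x ≠ z) (hyz : y ≠ z)
    (hKT : Disjoint (comp A {x, y, z} u) T) (hn : nbr A (comp A {x, y, z} u) = {x, y, z}) :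
    comp A {x, y, z} u = {u} := by
  set S : Set ℕ := {x, y, z} with hS
  set K := comp A S u with hK
  have hSf : S.Finite := Set.toFinite _
  have hS3 : S.ncard ≤ 3 := triple_card x y z
  have hxT : x ∉ T := fun h => hx (T_sub_NN M T A h)
  obtain ⟨t, htT, htS, ht4⟩ := exists_big H hSf hS3
  set Y := comp A S t with hY
  have hYS : nbr A Y ⊆ S := nbr_comp htS
  have htK : t ∉ K := fun h => Set.disjoint_left.1 hKT h htT
  have huY : u ∉ Y := fun h => htK (comp_symm h)
  have hKY : Disjoint K Y := comp_disj huY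
  have hKc : (A.induce K).Connected := comp_conn hu
  by_cases hYn : nbr A Y = S
  · -- contract `Y`
    have hp : Planar (inc A K ⊔ claw t x y z) :=
      claw_planar H.hA (mem_self _ _ _) (comp_conn htS) hKY hn hYn
    by_contra hne
    obtain ⟨v, hv, hvu⟩ : ∃ v ∈ K, v ≠ u := by
      by_contra hno
      push Not at hno
      apply hne
      ext v
      exact ⟨fun h => hno v h, fun h => by rw [Set.mem_singleton_iff.1 h]; exact mem_self _ _ _⟩
    refine no_three H hKT hKc ?_ htK hn (mem_self _ _ _) hv (comp_supp hus hv) hvu hp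
    have htS' : t ≠ x ∧ t ≠ y ∧ t ≠ z := by
      simpa [hS] using htS
    simp only [List.nodup_cons, List.mem_cons, List.not_mem_nil, or_false, not_or,
      not_false_iff, List.nodup_nil, and_true]
    exact ⟨htS', ⟨hxy, hxz⟩, hyz⟩
  · exfalso
    set S' := nbr A Y with hS'
    obtain ⟨s0, hs0, hs0'⟩ : ∃ s0 ∈ S, s0 ∉ S' := by
      by_contra hno
      push Not at hno
      exact hYn (hYS.antisymm hno)
    have hlt : S'.ncard < S.ncard :=
      Set.ncard_lt_ncard ⟨hYS, fun h => hs0' (h hs0)⟩ hSf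
    have hS'f : S'.Finite := hSf.subset hYS
    have huS' : u ∉ S' := fun h => hu (hYS h)
    set K' := comp A S' u with hK'
    have hKK' : K ⊆ K' := comp_mono hYS u
    have htS' : t ∉ S' := fun h => htS (hYS h)
    -- `Y` is a component of `A - S'`
    have hYt : comp A S' t ⊆ Y := comp_sub_closed (mem_self _ _ _) subset_rfl
    have hYt' : Y ⊆ comp A S' t := comp_mono hYS t
    have htK' : t ∉ K' := fun h => huY (hYt (comp_symm h))
    have hK'Y : Disjoint K' Y := by
      rw [Set.disjoint_left]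
      intro w hw hwY
      exact htK' (comp_trans hw (comp_symm (hYt' hwY)))
    have hxK' : x ∈ K' ∪ nbr A K' := by
      by_cases h : x ∈ K'
      · exact Or.inl h
      · right
        have : x ∈ nbr A K := by rw [hn]; simp [hS]
        obtain ⟨_, v, hv, hxv⟩ := this
        exact ⟨h, v, hKK' hv, hxv⟩
    have hK'T : Disjoint K' T := by
      rcases tf_or_big H hS'f (by omega) huS' hus hx hxK' with h | h
      · exact h
      · exfalso
        have h4 : 4 ≤ (T ∩ comp A S' t).ncard := by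
          refine ht4.trans (Set.ncard_le_ncard ?_ (H.hT.inter_of_left _))
          exact Set.inter_subset_inter_right _ hYt'
        exact htK' (comp_symm (big_unique H hS'f (by omega) huS' htS' h h4))
    have hK'n : nbr A K' ⊆ S' := nbr_comp huS'
    have hnf : (nbr A K').Finite := hS'f.subset hK'n
    have h1 : 1 < (nbr A K').ncard := by
      by_contra hle
      apply no_sub H hK'T (mem_self _ _ _) hus
      have := hnf.to_subtype
      exact Set.ncard_le_one_iff_subsingleton.1 (by omega)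
    have h2 : nbr A K' = S' := Set.eq_of_subset_of_ncard_le hK'n (by omega) hS'f
    have h3 : (nbr A K').ncard = 2 := by rw [h2] at h1 ⊢; omega
    obtain ⟨a, b, hab, hnab⟩ := Set.ncard_eq_two.1 h3
    have hK'c : (A.induce K').Connected := comp_conn huS'
    apply no_two H hK'T hK'c hab hnab
    have ha : a ∈ nbr A K' := by rw [hnab]; simp
    have hb : b ∈ nbr A K' := by rw [hnab]; simp
    refine no_path H.hA ha.1 hb.1 hab hnab.subset ?_
    -- a path through `Y`
    have haY : a ∈ nbr A Y := by rw [← hS', ← h2]; exact ha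
    have hbY : b ∈ nbr A Y := by rw [← hS', ← h2]; exact hb
    obtain ⟨_, v, hv, hav⟩ := haY
    obtain ⟨_, v', hv', hbv'⟩ := hbY
    have hYK' : ∀ w ∈ Y, w ∉ K' := fun w hw h => Set.disjoint_left.1 hK'Y h hw
    have hY1 : ∀ w ∈ Y, w ∈ comp A K' t := by
      refine comp_ind (mem_self _ _ _) ?_
      intro c d hc hc' hcd hcS hdS
      exact comp_step hc' hcd (hYK' c hc) (hYK' d (comp_step hc hcd hcS hdS))
    have g1 : v ∈ comp A K' a := comp_step (mem_self _ _ _) hav ha.1 (hYK' v hv)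
    have g2 : v' ∈ comp A K' a := comp_trans g1 (comp_trans (comp_symm (hY1 v hv)) (hY1 v' hv'))
    exact comp_step g2 hbv'.symm (hYK' v' hv') hb.1

theorem inc_edge {A : SimpleGraph ℕ} {K : Set ℕ} {e : Sym2 ℕ} (he : e ∈ (inc A K).edgeSet) :
    ∃ p q, e = s(p, q) ∧ A.Adj p q ∧ p ∈ K ∧ (q ∈ K ∨ q ∈ nbr A K) := by
  induction e using Sym2.ind with
  | _ p q =>
    rw [SimpleGraph.mem_edgeSet] at he
    obtain ⟨hpq, h | h⟩ := he
    · refine ⟨p, q, rfl, hpq, h, ?_⟩
      by_cases hq : q ∈ K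
      · exact Or.inl hq
      · exact Or.inr ⟨hq, p, h, hpq.symm⟩
    · refine ⟨q, p, Sym2.eq_swap, hpq.symm, h, ?_⟩
      by_cases hp : p ∈ K
      · exact Or.inl hp
      · exact Or.inr ⟨hp, q, h, hpq⟩

theorem nbr_single (A : SimpleGraph ℕ) (v : ℕ) : nbr A {v} = A.neighborSet v := by
  ext u
  simp only [nbr, Set.mem_ofPred_eq, Set.mem_singleton_iff, exists_eq_left,
    SimpleGraph.mem_neighborSet]
  constructor
  · rintro ⟨_, h⟩
    exact h.symm
  · intro h
    exact ⟨h.ne', h.symm⟩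

theorem deg_three {M : ℕ} {T : Set ℕ} {A : SimpleGraph ℕ} (H : Hyp M T A) {v : ℕ}
    (hvs : v ∈ A.support) (hvT : v ∉ T) : 3 ≤ (A.neighborSet v).ncard := by
  rw [← nbr_single]
  have hc : (A.induce {v}).Connected := by
    have := SimpleGraph.connected_iff_exists_forall_reachable (A.induce {v})
    rw [this]
    refine ⟨⟨v, rfl⟩, ?_⟩
    rintro ⟨w, rfl⟩
    exact SimpleGraph.Reachable.refl _
  refine three_nbrs H (by simpa using hvT) hc rfl hvs ?_
  intro a b _ hn
  refine ⟨[s(v, a), s(v, b)], by simp, ?_⟩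
  intro e he
  obtain ⟨p, q, rfl, hpq, hp, hq⟩ := inc_edge he
  simp only [Set.mem_singleton_iff] at hp
  subst hp
  rcases hq with hq | hq
  · simp only [Set.mem_singleton_iff] at hq
    exact absurd hq hpq.ne'
  · rw [hn] at hq
    rcases hq with rfl | rfl
    · simp
    · simp

theorem pair_three {M : ℕ} {T : Set ℕ} {A : SimpleGraph ℕ} (H : Hyp M T A) {x y : ℕ}
    (hxy : A.Adj x y) (hx : x ∉ T) (hy : y ∉ T) : 3 ≤ (nbr A {x, y}).ncard := by
  have hK : Disjoint ({x, y} : Set ℕ) T := by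
    rw [Set.disjoint_left]
    rintro u (rfl | rfl)
    · exact hx
    · exact hy
  refine three_nbrs H hK (SimpleGraph.induce_pair_connected_of_adj hxy) (v := x) (by simp)
    ⟨y, hxy⟩ ?_
  intro a b _ hn
  refine ⟨[s(x, y), s(x, a), s(x, b), s(y, a), s(y, b)], by simp, ?_⟩
  intro e he
  obtain ⟨p, q, rfl, hpq, hp, hq⟩ := inc_edge he
  rw [hn] at hq
  rcases hp with rfl | rfl <;> rcases hq with (rfl | rfl) | (rfl | rfl) <;>
    simp [Sym2.eq_swap] at hpq ⊢

theorem core_aux {M : ℕ} {T : Set ℕ} {A : SimpleGraph ℕ} (H : Hyp M T A) {x y z u : ℕ}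
    (hxy : A.Adj x y) (hx : x ∉ NN M T A) (hy : y ∉ NN M T A) (hux : u ≠ x) (huy : u ≠ y)
    (huz : u ≠ z) (hadj : A.Adj x u ∨ A.Adj y u)
    (h3 : (T ∩ comp A {x, y, z} u).ncard ≤ 3) :
    ∃ w z', w ∈ A.support ∧ w ∉ T ∧ A.neighborSet w = {x, y, z'} ∧ z' ≠ x ∧ z' ≠ y := by
  set S : Set ℕ := {x, y, z} with hS
  set K := comp A S u with hK
  have hSf : S.Finite := Set.toFinite _
  have hS3 : S.ncard ≤ 3 := triple_card x y z
  have huS : u ∉ S := by
    simp [hS, hux, huy, huz]
  have hxs : x ∈ A.support := ⟨y, hxy⟩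
  have hys : y ∈ A.support := ⟨x, hxy.symm⟩
  have hxS : x ∈ S := by simp [hS]
  have hyS : y ∈ S := by simp [hS]
  have hzS : z ∈ S := by simp [hS]
  have hus : u ∈ A.support := by
    rcases hadj with h | h
    · exact ⟨x, h.symm⟩
    · exact ⟨y, h.symm⟩
  have hSK : ∀ s ∈ S, s ∉ K := fun s hs h => comp_notMem huS s h hs
  have hKT : Disjoint K T := by
    rcases hadj with h | h
    · rcases tf_or_big H hSf hS3 huS hus hx (Or.inr ⟨hSK x hxS, u, mem_self _ _ _, h⟩) with h' | h'
      · exact h'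
      · rw [← hK] at h'
        omega
    · rcases tf_or_big H hSf hS3 huS hus hy (Or.inr ⟨hSK y hyS, u, mem_self _ _ _, h⟩) with h' | h'
      · exact h'
      · rw [← hK] at h'
        omega
  have hKc : (A.induce K).Connected := comp_conn huS
  have hKn : nbr A K ⊆ S := nbr_comp huS
  have hnf : (nbr A K).Finite := hSf.subset hKn
  have h1 : 1 < (nbr A K).ncard := by
    by_contra hle
    apply no_sub H hKT (mem_self _ _ _) hus
    have := hnf.to_subtype
    exact Set.ncard_le_one_iff_subsingleton.1 (by omega)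
  have h2 : (nbr A K).ncard ≤ 3 := (Set.ncard_le_ncard hKn hSf).trans hS3
  by_cases h2' : (nbr A K).ncard = 2
  · exfalso
    obtain ⟨a, b, hab, hn⟩ := Set.ncard_eq_two.1 h2'
    have haS : a ∈ S := hKn (by rw [hn]; simp)
    have hbS : b ∈ S := hKn (by rw [hn]; simp)
    have hn' : nbr A K = {b, a} := by rw [hn]; exact Set.pair_comm _ _
    apply no_two H hKT hKc hab hn
    refine no_path H.hA (hSK a haS) (hSK b hbS) hab hn.subset ?_
    have hxyK : y ∈ comp A K x := comp_step (mem_self _ _ _) hxy (hSK x hxS) (hSK y hyS)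
    rcases haS with rfl | rfl | rfl <;> rcases hbS with rfl | rfl | rfl
    · exact absurd rfl hab
    · exact hxyK
    · exact case_two H huS hus hxS hzS hx hxs hab hKT hn
    · exact comp_symm hxyK
    · exact absurd rfl hab
    · exact case_two H huS hus hyS hzS hy hys hab hKT hn
    · exact comp_symm (case_two H huS hus hxS hzS hx hxs hab.symm hKT hn')
    · exact comp_symm (case_two H huS hus hyS hzS hy hys hab.symm hKT hn')
    · exact absurd rfl hab
  · have h3' : (nbr A K).ncard = 3 := by omega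
    have hnS : nbr A K = S := Set.eq_of_subset_of_ncard_le hKn (by omega) hSf
    have hxz : x ≠ z := by
      rintro rfl
      have h5 : S = {x, y} := by rw [hS]; ext; simp; tauto
      have h6 : ({x, y} : Set ℕ).ncard ≤ 2 := pair_card x y
      rw [← h5, ← hnS] at h6
      omega
    have hyz : y ≠ z := by
      rintro rfl
      have h5 : S = {x, y} := by rw [hS]; ext; simp
      have h6 : ({x, y} : Set ℕ).ncard ≤ 2 := pair_card x y
      rw [← h5, ← hnS] at h6
      omega
    have hKu := case_three H hus huS hx hxy.ne hxz hyz hKT hnS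
    refine ⟨u, z, hus, fun h => Set.disjoint_left.1 hKT (mem_self _ _ _) h, ?_, hxz.symm,
      hyz.symm⟩
    have h6 := hnS
    rw [hK, hKu, nbr_single] at h6
    exact h6

theorem core {M : ℕ} {T : Set ℕ} {A : SimpleGraph ℕ} (H : Hyp M T A) {x y : ℕ}
    (hxy : A.Adj x y) (hx : x ∉ NN M T A) (hy : y ∉ NN M T A) :
    ∃ w z, w ∈ A.support ∧ w ∉ T ∧ A.neighborSet w = {x, y, z} ∧ z ≠ x ∧ z ≠ y := by
  have hxT : x ∉ T := fun h => hx (T_sub_NN M T A h)
  have hyT : y ∉ T := fun h => hy (T_sub_NN M T A h)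
  by_cases hblock : ∀ z u v : ℕ, u ≠ x → u ≠ y → (A.Adj x u ∨ A.Adj y u) → v ≠ x → v ≠ y →
      (A.Adj x v ∨ A.Adj y v) → u ≠ z → v ≠ z →
      ∃ (hu : u ∈ ({x, y, z} : Set ℕ)ᶜ) (hv : v ∈ ({x, y, z} : Set ℕ)ᶜ),
        (A.induce ({x, y, z} : Set ℕ)ᶜ).Reachable ⟨u, hu⟩ ⟨v, hv⟩
  · exfalso
    have hW : {u | u ≠ x ∧ u ≠ y ∧ (A.Adj x u ∨ A.Adj y u)} = nbr A {x, y} := by
      ext u
      simp only [nbr, Set.mem_ofPred_eq, Set.mem_insert_iff, Set.mem_singleton_iff, not_or,
        exists_eq_or_imp, exists_eq_left, A.adj_comm u]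
      tauto
    obtain ⟨B, hBf, hxB, hyB, hB, hNx, hNy⟩ := exists_block A H.hf x y
      (by rw [hW]; exact pair_three H hxy hxT hyT) hblock
    have hdeg : ∀ a b, A.Adj a b → a ∉ T → 2 ≤ {u | u ≠ b ∧ A.Adj a u}.ncard := by
      intro a b hab haT
      have h3 := deg_three H ⟨b, hab⟩ haT
      have hsub : A.neighborSet a ⊆ insert b {u | u ≠ b ∧ A.Adj a u} := by
        intro u hu
        by_cases hub : u = b
        · exact Or.inl hub
        · exact Or.inr ⟨hub, hu⟩
      have hfin : {u | u ≠ b ∧ A.Adj a u}.Finite := (nbs_fin H.hf a).subset (fun u hu => hu.2)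
      have h4 := Set.ncard_le_ncard hsub (hfin.insert b)
      have h5 := Set.ncard_insert_le b {u | u ≠ b ∧ A.Adj a u}
      omega
    have hR := red_contr T A H.hf H.hA x y hxT hyT hxy B hBf hxB hyB hB hNx hNy
      (hdeg x y hxy hxT) (hdeg y x hxy.symm hyT)
    refine irr_false H.hf H.hI hR (v := y) ⟨x, hxy.symm⟩ hyT ?_
    rintro ⟨w, hw⟩
    have hw' : (contr A x y).Adj y w := hw
    obtain ⟨_, a, b, _, ha, _⟩ := hw'
    by_cases h : a = y
    · simp only [h, if_true] at ha
      exact hxy.ne ha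
    · simp only [h, if_false] at ha
  · push Not at hblock
    obtain ⟨z, u, v, hux, huy, hu, hvx, hvy, hv, huz, hvz, hno⟩ := hblock
    have huS : u ∉ ({x, y, z} : Set ℕ) := by simp [hux, huy, huz]
    have hvS : v ∉ ({x, y, z} : Set ℕ) := by simp [hvx, hvy, hvz]
    have hvu : v ∉ comp A {x, y, z} u := by
      intro h
      obtain ⟨h1, h2, h3⟩ := comp_reach_induce huS v h
      exact hno h1 h2 h3
    by_cases hub : (T ∩ comp A {x, y, z} u).ncard ≤ 3
    · exact core_aux H hxy hx hy hux huy huz hu hub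
    · by_cases hvb : (T ∩ comp A {x, y, z} v).ncard ≤ 3
      · exact core_aux H hxy hx hy hvx hvy hvz hv hvb
      · exfalso
        exact hvu (big_unique H (Set.toFinite _) (triple_card x y z) hvS huS (by omega)
          (by omega))

/-- adjacent vertices outside `T` whose neighbours are among each other and `a, b` -/
theorem two_bad {M : ℕ} {T : Set ℕ} {A : SimpleGraph ℕ} (H : Hyp M T A) {p q a b : ℕ}
    (hpq : A.Adj p q) (hp : p ∉ T) (hq : q ∉ T) (hNp : ∀ u, A.Adj p u → u = q ∨ u = a ∨ u = b)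
    (hNq : ∀ u, A.Adj q u → u = p ∨ u = a ∨ u = b) : False := by
  have h1 := pair_three H hpq hp hq
  have hsub : nbr A {p, q} ⊆ {a, b} := by
    rintro u ⟨hu, v, hv, huv⟩
    simp only [Set.mem_insert_iff, Set.mem_singleton_iff, not_or] at hu hv ⊢
    rcases hv with rfl | rfl
    · rcases hNp u huv.symm with h | h
      · exact absurd h hu.2
      · exact h
    · rcases hNq u huv.symm with h | h
      · exact absurd h hu.1
      · exact h
  have h2 := Set.ncard_le_ncard hsub (Set.toFinite _)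
  have h3 := pair_card a b
  omega

theorem triangle {M : ℕ} {T : Set ℕ} {A : SimpleGraph ℕ} (H : Hyp M T A) {x y w x' y' w' : ℕ}
    (hx : x ∉ T) (hy : y ∉ T) (hw : w ∉ T) (hxy : A.Adj x y)
    (hNx : A.neighborSet x = {y, w, x'}) (hNy : A.neighborSet y = {x, w, y'})
    (hNw : A.neighborSet w = {x, y, w'}) (hx'y : x' ≠ y) (hx'w : x' ≠ w) (hy'x : y' ≠ x)
    (hy'w : y' ≠ w) (hw'x : w' ≠ x) (hw'y : w' ≠ y) : False := by
  have ax : ∀ u, A.Adj x u ↔ u = y ∨ u = w ∨ u = x' := by
    intro u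
    rw [← SimpleGraph.mem_neighborSet, hNx]
    simp
  have ay : ∀ u, A.Adj y u ↔ u = x ∨ u = w ∨ u = y' := by
    intro u
    rw [← SimpleGraph.mem_neighborSet, hNy]
    simp
  have aw : ∀ u, A.Adj w u ↔ u = x ∨ u = y ∨ u = w' := by
    intro u
    rw [← SimpleGraph.mem_neighborSet, hNw]
    simp
  have hxw : A.Adj x w := (ax w).2 (by simp)
  have hyw : A.Adj y w := (ay w).2 (by simp)
  have hxx' : A.Adj x x' := (ax x').2 (by simp)
  have hyy' : A.Adj y y' := (ay y').2 (by simp)
  have hww' : A.Adj w w' := (aw w').2 (by simp)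
  set K : Set ℕ := {x, y, w} with hK
  have hKT : Disjoint K T := by
    rw [Set.disjoint_left]
    rintro u (rfl | rfl | rfl)
    · exact hx
    · exact hy
    · exact hw
  have hKc : (A.induce K).Connected := by
    rw [SimpleGraph.connected_iff_exists_forall_reachable]
    refine ⟨⟨x, by simp [hK]⟩, ?_⟩
    rintro ⟨u, rfl | rfl | rfl⟩
    · exact SimpleGraph.Reachable.refl _
    · exact SimpleGraph.Adj.reachable hxy
    · exact SimpleGraph.Adj.reachable hxw
  have hn : nbr A K = {x', y', w'} := by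
    ext u
    simp only [nbr, hK, Set.mem_ofPred_eq, Set.mem_insert_iff, Set.mem_singleton_iff, not_or,
      exists_eq_or_imp, exists_eq_left, A.adj_comm u, ax, ay, aw]
    constructor
    · rintro ⟨⟨h1, h2, h3⟩, h4⟩
      tauto
    · rintro (rfl | rfl | rfl)
      · exact ⟨⟨hxx'.ne', hx'y, hx'w⟩, by tauto⟩
      · exact ⟨⟨hy'x, hyy'.ne', hy'w⟩, by tauto⟩
      · exact ⟨⟨hw'x, hw'y, hww'.ne'⟩, by tauto⟩
  have hinc : ∀ e ∈ (inc A K).edgeSet, e ∈ [s(x, y), s(y, w), s(w, x), s(x, x'), s(y, y'),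
      s(w, w')] := by
    intro e he
    obtain ⟨p, q, rfl, hpq, hp, _⟩ := inc_edge he
    rcases hp with rfl | rfl | rfl
    · rw [ax] at hpq
      rcases hpq with rfl | rfl | rfl <;> simp [Sym2.eq_swap]
    · rw [ay] at hpq
      rcases hpq with rfl | rfl | rfl <;> simp [Sym2.eq_swap]
    · have hpq' := (aw q).1 hpq
      rcases hpq' with rfl | rfl | rfl <;> simp [Sym2.eq_swap]
  have h3 : 3 ≤ (nbr A K).ncard :=
    three_nbrs H hKT hKc (v := x) (by simp [hK]) ⟨y, hxy⟩ (fun _ _ _ _ => ⟨_, by simp, hinc⟩)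
  rw [hn] at h3
  have hx'y' : x' ≠ y' := by
    rintro rfl
    have : ({x', x', w'} : Set ℕ) = {x', w'} := by simp
    rw [this] at h3
    have := pair_card x' w'
    omega
  have hx'w' : x' ≠ w' := by
    rintro rfl
    have : ({x', y', x'} : Set ℕ) = {x', y'} := by ext; simp; tauto
    rw [this] at h3
    have := pair_card x' y'
    omega
  have hy'w' : y' ≠ w' := by
    rintro rfl
    have : ({x', y', y'} : Set ℕ) = {x', y'} := by simp
    rw [this] at h3
    have := pair_card x' y'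
    omega
  obtain ⟨c, hc⟩ : ∃ c, c ∉ ({x, y, w, x', y', w'} : Set ℕ) :=
    (Set.toFinite ({x, y, w, x', y', w'} : Set ℕ)).exists_notMem
  simp only [Set.mem_insert_iff, Set.mem_singleton_iff, not_or] at hc
  obtain ⟨c1, c2, c3, c4, c5, c6⟩ := hc
  refine no_three H hKT hKc (c := c) (w := x) (v := y) ?_ ?_ hn (by simp [hK]) (by simp [hK])
    ⟨x, hxy.symm⟩ hxy.ne' ?_
  · simp [c4, c5, c6, hx'y', hx'w', hy'w']
  · simp [hK, c1, c2, c3]
  · have hnd : [x, y, w, x', y', w', c].Nodup := by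
      have e1 := hxy.ne
      have e2 := hxw.ne
      have e3 := hyw.ne
      have e4 := hxx'.ne
      have e5 := hyy'.ne
      have e6 := hww'.ne
      simp only [List.nodup_cons, List.mem_cons, List.not_mem_nil, or_false, not_or,
        not_false_iff, List.nodup_nil, and_true]
      refine ⟨⟨e1, e2, e4, hy'x.symm, hw'x.symm, Ne.symm c1⟩, ⟨e3, hx'y.symm, e5, hw'y.symm,
        Ne.symm c2⟩, ⟨hx'w.symm, hy'w.symm, e6, Ne.symm c3⟩, ⟨hx'y', hx'w', Ne.symm c4⟩,
        ⟨hy'w', Ne.symm c5⟩, Ne.symm c6⟩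
    refine planar_mono ?_ (planar_prism x y w x' y' w' c hnd)
    apply sup_le_sup_right
    rw [← SimpleGraph.edgeSet_subset_edgeSet]
    intro e he
    have h1 := hinc e he
    simp only [List.mem_cons, List.not_mem_nil, or_false] at h1
    simp only [SimpleGraph.edgeSet_sup, SimpleGraph.edgeSet_edge_of_ne hxy.ne,
      SimpleGraph.edgeSet_edge_of_ne hyw.ne, SimpleGraph.edgeSet_edge_of_ne hxw.ne',
      SimpleGraph.edgeSet_edge_of_ne hxx'.ne, SimpleGraph.edgeSet_edge_of_ne hyy'.ne,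
      SimpleGraph.edgeSet_edge_of_ne hww'.ne, Set.mem_union, Set.mem_singleton_iff]
    tauto

/-- (3.4): the ends of an edge between vertices that are not near have a common neighbour of
degree three that is near. -/
theorem near_w {M : ℕ} {T : Set ℕ} {A : SimpleGraph ℕ} (H : Hyp M T A) {x y : ℕ}
    (hxy : A.Adj x y) (hx : x ∉ NN M T A) (hy : y ∉ NN M T A) :
    ∃ w z, w ∈ NN M T A ∧ A.neighborSet w = {x, y, z} := by
  obtain ⟨w, z, hws, hwT, hNw, hzx, hzy⟩ := core H hxy hx hy
  by_cases hw : w ∈ NN M T A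
  · exact ⟨w, z, hw, hNw⟩
  exfalso
  have hxT : x ∉ T := fun h => hx (T_sub_NN M T A h)
  have hyT : y ∉ T := fun h => hy (T_sub_NN M T A h)
  have aw : ∀ u, A.Adj w u ↔ u = x ∨ u = y ∨ u = z := by
    intro u
    rw [← SimpleGraph.mem_neighborSet, hNw]
    simp
  have hwx : A.Adj w x := (aw x).2 (by simp)
  have hwy : A.Adj w y := (aw y).2 (by simp)
  have hwz : A.Adj w z := (aw z).2 (by simp)
  obtain ⟨v₁, z₁, hv₁s, hv₁T, hN₁, hz₁x, hz₁w⟩ := core H hwx.symm hx hw
  obtain ⟨v₂, z₂, hv₂s, hv₂T, hN₂, hz₂y, hz₂w⟩ := core H hwy.symm hy hw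
  have a1 : ∀ u, A.Adj v₁ u ↔ u = x ∨ u = w ∨ u = z₁ := by
    intro u
    rw [← SimpleGraph.mem_neighborSet, hN₁]
    simp
  have a2 : ∀ u, A.Adj v₂ u ↔ u = y ∨ u = w ∨ u = z₂ := by
    intro u
    rw [← SimpleGraph.mem_neighborSet, hN₂]
    simp
  have h1 : v₁ = y ∨ v₁ = z := by
    have h : A.Adj v₁ w := (a1 w).2 (by simp)
    have h' : A.Adj v₁ x := (a1 x).2 (by simp)
    rcases (aw v₁).1 h.symm with h'' | h''
    · exact absurd h'' h'.ne
    · exact h''
  have h2 : v₂ = x ∨ v₂ = z := by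
    have h : A.Adj v₂ w := (a2 w).2 (by simp)
    have h' : A.Adj v₂ y := (a2 y).2 (by simp)
    rcases (aw v₂).1 h.symm with h'' | h'' | h''
    · exact Or.inl h''
    · exact absurd h'' h'.ne
    · exact Or.inr h''
  rcases h1 with rfl | rfl
  · rcases h2 with rfl | rfl
    · exact triangle H hxT hyT hwT hxy hN₂ hN₁ hNw hz₂y hz₂w hz₁x hz₁w hzx hzy
    · -- `N(v₁) = {x, w, z₁}` contains `v₂`
      have h3 : A.Adj v₂ v₁ := (a2 v₁).2 (by simp)
      have h4 : v₂ = z₁ := by
        rcases (a1 v₂).1 h3.symm with h | h | h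
        · exact absurd h hzx
        · exact absurd h hwz.ne'
        · exact h
      refine two_bad H hwy.symm hyT hwT (a := x) (b := v₂) ?_ ?_
      · intro u hu
        rw [h4]
        have := (a1 u).1 hu
        tauto
      · intro u hu
        have := (aw u).1 hu
        tauto
  · rcases h2 with rfl | rfl
    · have h3 : A.Adj v₁ v₂ := (a1 v₂).2 (by simp)
      have h4 : v₁ = z₂ := by
        rcases (a2 v₁).1 h3.symm with h | h | h
        · exact absurd h hzy
        · exact absurd h hwz.ne'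
        · exact h
      refine two_bad H hwx.symm hxT hwT (a := y) (b := v₁) ?_ ?_
      · intro u hu
        rw [h4]
        have := (a2 u).1 hu
        tauto
      · intro u hu
        have := (aw u).1 hu
        tauto
    · have h3 : A.Adj v₂ y := (a2 y).2 (by simp)
      have h4 : z₁ = y := by
        rcases (a1 y).1 h3 with h | h | h
        · exact absurd h hxy.ne'
        · exact absurd h hwy.ne'
        · exact h.symm
      refine two_bad H hwz.symm hv₂T hwT (a := x) (b := y) ?_ ?_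
      · intro u hu
        have := (a1 u).1 hu
        rw [h4] at this
        tauto
      · intro u hu
        have := (aw u).1 hu
        tauto

/-! ### counting -/

theorem biUnion_card {A : SimpleGraph ℕ} (hf : A.support.Finite) (N : Set ℕ) (hN : N.Finite)
    (D : ℕ) (hD : ∀ v ∈ N, (A.neighborSet v).ncard ≤ D) :
    (⋃ v ∈ N, A.neighborSet v).Finite ∧ (⋃ v ∈ N, A.neighborSet v).ncard ≤ D * N.ncard := by
  refine ⟨hN.biUnion (fun v _ => nbs_fin hf v), ?_⟩
  have h1 : (⋃ v ∈ N, A.neighborSet v) = ⋃ v ∈ hN.toFinset, A.neighborSet v := by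
    ext u; simp
  rw [h1]
  refine (Finset.set_ncard_biUnion_le _ _).trans ?_
  have h2 : ∑ v ∈ hN.toFinset, (A.neighborSet v).ncard ≤ ∑ v ∈ hN.toFinset, D := by
    apply Finset.sum_le_sum
    intro v hv
    rw [Set.Finite.mem_toFinset] at hv
    exact hD v hv
  refine h2.trans ?_
  rw [Finset.sum_const, smul_eq_mul, ← Set.ncard_eq_toFinset_card _ hN, mul_comm]

/-- an independent set of vertices of degree at least three -/
theorem indep_edges {A : SimpleGraph ℕ} (hf : A.support.Finite) {X : Set ℕ} (hX : X.Finite)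
    (hind : ∀ u v, u ∈ X → v ∈ X → ¬ A.Adj u v) (hdeg : ∀ v ∈ X, 3 ≤ (A.neighborSet v).ncard) :
    3 * X.ncard ≤ (inc A X).edgeSet.ncard := by
  have hEfin : (inc A X).edgeSet.Finite := by
    refine ((hf.prod hf).image (fun p : ℕ × ℕ => s(p.1, p.2))).subset ?_
    intro e he
    induction e using Sym2.ind with
    | _ p q =>
      rw [SimpleGraph.mem_edgeSet] at he
      exact ⟨(p, q), ⟨⟨q, he.1⟩, ⟨p, he.1.symm⟩⟩, rfl⟩
  set N : ℕ → Finset ℕ := fun v => (nbs_fin hf v).toFinset with hN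
  have hNc : ∀ v, (N v).card = (A.neighborSet v).ncard := fun v =>
    (Set.ncard_eq_toFinset_card _ (nbs_fin hf v)).symm
  have h1 : 3 * X.ncard ≤ (hX.toFinset.sigma (fun v => N v)).card := by
    rw [Finset.card_sigma, Set.ncard_eq_toFinset_card _ hX, mul_comm, ← smul_eq_mul]
    apply Finset.card_nsmul_le_sum
    intro v hv
    rw [Set.Finite.mem_toFinset] at hv
    rw [hNc]
    exact hdeg v hv
  rw [Set.ncard_eq_toFinset_card _ hEfin]
  refine h1.trans ?_
  refine Finset.card_le_card_of_injOn (fun p => s(p.1, p.2)) ?_ ?_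
  · rintro ⟨v, u⟩ hp
    simp only [hN, Finset.coe_sigma, Set.mem_sigma_iff, Set.Finite.coe_toFinset] at hp
    simp only [Set.Finite.coe_toFinset]
    exact ⟨hp.2, Or.inl hp.1⟩
  · rintro ⟨v, u⟩ hp ⟨v', u'⟩ hp' h
    simp only [hN, Finset.coe_sigma, Set.mem_sigma_iff, Set.Finite.coe_toFinset] at hp hp'
    simp only [Sym2.eq_iff] at h
    rcases h with ⟨rfl, rfl⟩ | ⟨rfl, rfl⟩
    · rfl
    · exact absurd hp.2 (hind _ _ hp.1 hp'.1)

theorem count {M : ℕ} {T : Set ℕ} {A : SimpleGraph ℕ} (H : Hyp M T A) :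
    rho T A ≤ 6 * (NN M T A).ncard := by
  set N := NN M T A with hN
  have hNf : N.Finite := (near_card H.hf H.hT (M + 6) (M + 4)).1
  -- vertices outside `N` with a neighbour outside `N`
  set Z : Set ℕ := ⋃ v ∈ {v | v ∈ N ∧ (A.neighborSet v).ncard ≤ 3}, A.neighborSet v with hZ
  have hN3f : {v | v ∈ N ∧ (A.neighborSet v).ncard ≤ 3}.Finite := hNf.subset (fun v hv => hv.1)
  obtain ⟨hZf, hZc⟩ := biUnion_card H.hf _ hN3f 3 (fun v hv => hv.2)
  have hN3c : {v | v ∈ N ∧ (A.neighborSet v).ncard ≤ 3}.ncard ≤ N.ncard :=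
    Set.ncard_le_ncard (fun v hv => hv.1) hNf
  -- the others
  set X : Set ℕ := {v | v ∈ A.support ∧ v ∉ N ∧ ∀ u, A.Adj v u → u ∈ N} with hX
  have hXf : X.Finite := H.hf.subset (fun v hv => hv.1)
  have hXT : ∀ v ∈ X, v ∉ T := fun v hv h => hv.2.1 (T_sub_NN M T A h)
  have h1 : 3 * X.ncard ≤ (inc A X).edgeSet.ncard :=
    indep_edges H.hf hXf (fun u v hu hv huv => hv.2.1 (hu.2.2 v huv))
      (fun v hv => deg_three H hv.1 (hXT v hv))
  have hsupp : (inc A X).support ⊆ X ∪ N := by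
    rintro v ⟨w, hw⟩
    have hw : (inc A X).Adj v w := hw
    rcases hw.2 with h | h
    · exact Or.inl h
    · exact Or.inr (h.2.2 v hw.1.symm)
  have hsf : (inc A X).support.Finite := (hXf.union hNf).subset hsupp
  have h2 : (inc A X).edgeSet.ncard ≤ 2 * (inc A X).support.ncard := by
    refine planar_bip' _ hsf (planar_mono (fun _ _ h => h.1) H.hA) X ?_
    intro u v huv
    constructor
    · intro hu hv
      exact hv.2.1 (hu.2.2 v huv.1)
    · intro hv
      rcases huv.2 with h | h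
      · exact h
      · exact absurd h hv
  have h3 : (inc A X).support.ncard ≤ X.ncard + N.ncard :=
    (Set.ncard_le_ncard hsupp (hXf.union hNf)).trans (Set.ncard_union_le _ _)
  have hsub : A.support \ T ⊆ N ∪ (Z ∪ X) := by
    rintro v ⟨hvs, hvT⟩
    by_cases hvN : v ∈ N
    · exact Or.inl hvN
    right
    by_cases hnb : ∀ u, A.Adj v u → u ∈ N
    · exact Or.inr ⟨hvs, hvN, hnb⟩
    · left
      push Not at hnb
      obtain ⟨u, hvu, huN⟩ := hnb
      obtain ⟨w, z, hwN, hw⟩ := near_w H hvu hvN huN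
      rw [hZ]
      simp only [Set.mem_iUnion]
      refine ⟨w, ⟨hwN, ?_⟩, ?_⟩
      · rw [hw]
        exact triple_card v u z
      · rw [hw]
        simp
  have h4 : (A.support \ T).ncard ≤ N.ncard + (Z.ncard + X.ncard) := by
    refine (Set.ncard_le_ncard hsub (hNf.union (hZf.union hXf))).trans ?_
    refine (Set.ncard_union_le _ _).trans ?_
    have := Set.ncard_union_le Z X
    omega
  have h5 : Z.ncard ≤ 3 * N.ncard := hZc.trans (Nat.mul_le_mul_left _ hN3c)
  show (A.support \ T).ncard ≤ _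
  omega

end GStructAux

open GStructAux

theorem struct_bound (M : ℕ) : ∃ C : ℕ, ∀ (T : Set ℕ) (A : SimpleGraph ℕ), T.Finite →
    A.support.Finite → Planar A → Irr T A → 14 ≤ T.ncard → NoBal T A → SmallSides M T A →
    rho T A ≤ C * T.ncard := by
  refine ⟨6 * (M + 7) ^ (M + 4), ?_⟩
  intro T A hT hf hA hI h14 hNB hSS
  have H : Hyp M T A := ⟨hT, hf, hA, hI, h14, hNB, hSS⟩
  have h1 := count H
  have h2 := (near_card (T := T) hf hT (M + 6) (M + 4)).2
  calc rho T A ≤ 6 * (NN M T A).ncard := h1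
    _ ≤ 6 * (T.ncard * (M + 6 + 1) ^ (M + 4)) := Nat.mul_le_mul_left _ h2
    _ = 6 * (M + 7) ^ (M + 4) * T.ncard := by ring

end Pool.Agent.MP9d6bd1
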