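import Mathlib
import Pool.Agent.Lib.MP_9d6bd1_lc.GGadgetMain
import Pool.Agent.Lib.MP_9d6bd1_lc.GIndex
import Pool.Agent.Lib.MP_9d6bd1_lc.GRedB
import Pool.Agent.Lib.MP_9d6bd1_lc.GSides
import Pool.Agent.Lib.MP_9d6bd1_lc.GStruct

/-!
# MP_9d6bd1_lc, module G22: the gadget theorem
-/

set_option autoImplicit false

open Classical

namespace Pool.Agent.MP9d6bd1

theorem gadget : ∃ C : ℕ, ∀ (T : Set ℕ) (A : SimpleGraph ℕ), T.Finite → A.support.Finite →
    Irr T A → rho T A ≤ C * (T.ncard + 1) := by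
  obtain ⟨f, hf⟩ := finite_index 13
  obtain ⟨M, hM⟩ := small_sides
  obtain ⟨C₁, hC⟩ := struct_bound M
  refine ⟨f + 2 * C₁ + 8, fun T A hT hA hI => ?_⟩
  have h := GGadgetAux.main f M C₁ hf hM hC irr_nonplanar (T.ncard + 7) (by omega) T A hT hA
    (by omega) hI
  have e : T.ncard + 7 - 6 = T.ncard + 1 := by omega
  rw [e] at h
  omega

end Pool.Agent.MP9d6bd1
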