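import Mathlib
import Pool.Agent.Lib.MP_9d6bd1_lc.Machine

/-!
# MP_9d6bd1_lc: structured code for the word RAM
-/

set_option autoImplicit false

namespace Pool.Agent.MP9d6bd1

/-- structured code -/
inductive R
  /-- one instruction (not a jump) -/
  | ins (I : Instr)
  | seq (a b : R)
  /-- if `r_i < r_j` then `a` else `b` -/
  | ifl (i j : ℕ) (a b : R)
  /-- while `r_i < r_j` do `a` -/
  | whl (i j : ℕ) (a : R)

/-- registers and working memory -/
structure Mach where
  /-- registers -/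
  reg : ℕ → ℕ
  /-- working memory -/
  work : ℕ → ℕ

/-- no jumps, registers `1` and `2` (which contain `0` and `1`) are not changed. -/
def Instr.ok : Instr → Prop
  | .const i _ => i ≠ 1 ∧ i ≠ 2
  | .add i _ _ | .sub i _ _ | .mul i _ _ | .div i _ _ | .mod i _ _ => i ≠ 1 ∧ i ≠ 2
  | .input i _ | .load i _ => i ≠ 1 ∧ i ≠ 2
  | .store _ _ => True
  | .jlt _ _ _ => False

/-- all instructions are ok -/
def R.ok : R → Prop
  | .ins I => I.ok
  | .seq a b => a.ok ∧ b.ok
  | .ifl _ _ a b => a.ok ∧ b.ok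
  | .whl _ _ a => a.ok

/-- `Rx w inp S r T s s'`: code `r` leads from `s` to `s'`, it performs `T` instructions and tests,
and uses only cells `< S` of the working memory. -/
inductive Rx (w : ℕ) (inp : ℕ → ℕ) (S : ℕ) : R → ℕ → Mach → Mach → Prop
  | ins (I : Instr) (s : Mach) (hS : I.within S ⟨0, s.reg, s.work⟩) :
      Rx w inp S (.ins I) 1 s
        ⟨(I.exec w inp ⟨0, s.reg, s.work⟩).reg, (I.exec w inp ⟨0, s.reg, s.work⟩).work⟩
  | seq (a b : R) (t t' : ℕ) (s s' s'' : Mach) (ha : Rx w inp S a t s s')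
      (hb : Rx w inp S b t' s' s'') : Rx w inp S (.seq a b) (t + t') s s''
  | ifT (i j : ℕ) (a b : R) (t : ℕ) (s s' : Mach) (h : s.reg i < s.reg j)
      (ha : Rx w inp S a t s s') : Rx w inp S (.ifl i j a b) (t + 1) s s'
  | ifF (i j : ℕ) (a b : R) (t : ℕ) (s s' : Mach) (h : ¬ s.reg i < s.reg j)
      (hb : Rx w inp S b t s s') : Rx w inp S (.ifl i j a b) (t + 1) s s'
  | whT (i j : ℕ) (a : R) (t t' : ℕ) (s s' s'' : Mach) (h : s.reg i < s.reg j)
      (ha : Rx w inp S a t s s') (hb : Rx w inp S (.whl i j a) t' s' s'') :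
      Rx w inp S (.whl i j a) (t + t' + 1) s s''
  | whF (i j : ℕ) (a : R) (s : Mach) (h : ¬ s.reg i < s.reg j) :
      Rx w inp S (.whl i j a) 1 s s

/-- registers after the two instructions `r_1 := 0`, `r_2 := 1` -/
def mach0 : Mach := ⟨Function.update (fun _ => 0) 2 1, fun _ => 0⟩

end Pool.Agent.MP9d6bd1
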