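import Mathlib
import Pool.Agent.Lib.MP_9d6bd1_lc.LowDefs

/-!
# MP_9d6bd1_lc: compiling structured code to the word RAM
-/

set_option autoImplicit false

namespace Pool.Agent.MP9d6bd1

namespace PLowAux

/-- length of the code -/
def len : R → ℕ
  | .ins _ => 1
  | .seq a b => len a + len b
  | .ifl _ _ a b => len a + len b + 2
  | .whl _ _ a => len a + 3

/-- the code with absolute jump targets, starting at line `p` -/
def code : R → ℕ → List Instr
  | .ins I, _ => [I]
  | .seq a b, p => code a p ++ code b (p + len a)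
  | .ifl i j a b, p => [Instr.jlt i j (p + 2 + len b)] ++ (code b (p + 1) ++
      ([Instr.jlt 1 2 (p + 2 + len b + len a)] ++ code a (p + 2 + len b)))
  | .whl i j a, p => [Instr.jlt i j (p + 2)] ++ ([Instr.jlt 1 2 (p + 3 + len a)] ++
      (code a (p + 2) ++ [Instr.jlt 1 2 p]))

theorem code_length (r : R) (p : ℕ) : (code r p).length = len r := by
  induction r generalizing p with
  | ins I => rfl
  | seq a b iha ihb => simp only [code, len, List.length_append, iha, ihb]
  | ifl i j a b iha ihb =>
    simp only [code, len, List.length_append, iha, ihb, List.length_singleton]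
    omega
  | whl i j a iha =>
    simp only [code, len, List.length_append, iha, List.length_singleton]
    omega

/-- `L` is located in `P` at position `p` -/
def At (P : List Instr) (p : ℕ) (L : List Instr) : Prop :=
  ∀ k < L.length, P[p + k]? = L[k]?

theorem At.left {P : List Instr} {p : ℕ} {L L' : List Instr} (h : At P p (L ++ L')) :
    At P p L := by
  intro k hk
  rw [h k (by rw [List.length_append]; omega), List.getElem?_append_left hk]

theorem At.right {P : List Instr} {p : ℕ} {L L' : List Instr} (h : At P p (L ++ L')) :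
    At P (p + L.length) L' := by
  intro k hk
  have h1 := h (L.length + k) (by rw [List.length_append]; omega)
  rw [List.getElem?_append_right (by omega)] at h1
  rw [add_assoc, h1]
  congr 1
  omega

theorem At.single {P : List Instr} {p : ℕ} {I : Instr} (h : At P p [I]) : P[p]? = some I := by
  have := h 0 (by simp)
  simpa using this

theorem run_trans {P : List Instr} {w : ℕ} {inp : ℕ → ℕ} {S T T' : ℕ} {s s' s'' : Config}
    (h : Run P w inp S T s s') (h' : Run P w inp S T' s' s'') :
    Run P w inp S (T + T') s s'' := by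
  induction h with
  | refl s => rw [zero_add]; exact h'
  | step I hI hS h ih =>
    have := Run.step I hI hS (ih h')
    have h2 : ∀ a b : ℕ, a + b + 1 = a + 1 + b := fun a b => by omega
    rw [h2] at this
    exact this

theorem run_one {P : List Instr} {w : ℕ} {inp : ℕ → ℕ} {S : ℕ} {s : Config} (I : Instr)
    (hI : P[s.pc]? = some I) (hS : I.within S s) : Run P w inp S 1 s (I.exec w inp s) :=
  Run.step I hI hS (Run.refl _)

/-- an unconditional jump -/
theorem run_jump {P : List Instr} {w : ℕ} {inp : ℕ → ℕ} {S : ℕ} {p l : ℕ} {reg work : ℕ → ℕ}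
    (hI : P[p]? = some (Instr.jlt 1 2 l)) (h1 : reg 1 = 0) (h2 : reg 2 = 1) :
    Run P w inp S 1 ⟨p, reg, work⟩ ⟨l, reg, work⟩ := by
  have h := run_one (w := w) (inp := inp) (S := S) (s := ⟨p, reg, work⟩) (Instr.jlt 1 2 l) hI
    trivial
  have h3 : (Instr.jlt 1 2 l).exec w inp ⟨p, reg, work⟩ = ⟨l, reg, work⟩ := by
    simp [Instr.exec, h1, h2]
  rwa [h3] at h

theorem run_jlt_true {P : List Instr} {w : ℕ} {inp : ℕ → ℕ} {S : ℕ} {p l i j : ℕ}
    {reg work : ℕ → ℕ} (hI : P[p]? = some (Instr.jlt i j l)) (h1 : reg i < reg j) :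
    Run P w inp S 1 ⟨p, reg, work⟩ ⟨l, reg, work⟩ := by
  have h := run_one (w := w) (inp := inp) (S := S) (s := ⟨p, reg, work⟩) (Instr.jlt i j l) hI
    trivial
  have h3 : (Instr.jlt i j l).exec w inp ⟨p, reg, work⟩ = ⟨l, reg, work⟩ := by
    simp [Instr.exec, h1]
  rwa [h3] at h

theorem run_jlt_false {P : List Instr} {w : ℕ} {inp : ℕ → ℕ} {S : ℕ} {p l i j : ℕ}
    {reg work : ℕ → ℕ} (hI : P[p]? = some (Instr.jlt i j l)) (h1 : ¬ reg i < reg j) :
    Run P w inp S 1 ⟨p, reg, work⟩ ⟨p + 1, reg, work⟩ := by
  have h := run_one (w := w) (inp := inp) (S := S) (s := ⟨p, reg, work⟩) (Instr.jlt i j l) hI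
    trivial
  have h3 : (Instr.jlt i j l).exec w inp ⟨p, reg, work⟩ = ⟨p + 1, reg, work⟩ := by
    simp [Instr.exec, h1]
  rwa [h3] at h

theorem exec_pc {w : ℕ} {inp : ℕ → ℕ} {I : Instr} (hI : I.ok) (p : ℕ) (reg work : ℕ → ℕ) :
    I.exec w inp ⟨p, reg, work⟩ = ⟨p + 1, (I.exec w inp ⟨0, reg, work⟩).reg,
      (I.exec w inp ⟨0, reg, work⟩).work⟩ := by
  cases I <;> first | rfl | exact absurd hI (by simp [Instr.ok])

theorem within_pc {S : ℕ} {I : Instr} (p : ℕ) {reg work : ℕ → ℕ}
    (h : I.within S ⟨0, reg, work⟩) : I.within S ⟨p, reg, work⟩ := by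
  cases I <;> exact h

theorem exec_one {w : ℕ} {inp : ℕ → ℕ} {I : Instr} (hI : I.ok) (s : Config) :
    (I.exec w inp s).reg 1 = s.reg 1 ∧ (I.exec w inp s).reg 2 = s.reg 2 := by
  cases I with
  | store i j => exact ⟨rfl, rfl⟩
  | jlt i j l => exact absurd hI (by simp [Instr.ok])
  | const i c =>
    exact ⟨Function.update_of_ne hI.1.symm _ _, Function.update_of_ne hI.2.symm _ _⟩
  | add i j k =>
    exact ⟨Function.update_of_ne hI.1.symm _ _, Function.update_of_ne hI.2.symm _ _⟩
  | sub i j k =>
    exact ⟨Function.update_of_ne hI.1.symm _ _, Function.update_of_ne hI.2.symm _ _⟩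
  | mul i j k =>
    exact ⟨Function.update_of_ne hI.1.symm _ _, Function.update_of_ne hI.2.symm _ _⟩
  | div i j k =>
    exact ⟨Function.update_of_ne hI.1.symm _ _, Function.update_of_ne hI.2.symm _ _⟩
  | mod i j k =>
    exact ⟨Function.update_of_ne hI.1.symm _ _, Function.update_of_ne hI.2.symm _ _⟩
  | input i j =>
    exact ⟨Function.update_of_ne hI.1.symm _ _, Function.update_of_ne hI.2.symm _ _⟩
  | load i j =>
    exact ⟨Function.update_of_ne hI.1.symm _ _, Function.update_of_ne hI.2.symm _ _⟩

theorem main {P : List Instr} {w : ℕ} {inp : ℕ → ℕ} {S : ℕ} {r : R} {t : ℕ} {s s' : Mach}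
    (h : Rx w inp S r t s s') : r.ok → s.reg 1 = 0 → s.reg 2 = 1 → ∀ p, At P p (code r p) →
      ∃ T ≤ 4 * t, Run P w inp S T ⟨p, s.reg, s.work⟩ ⟨p + len r, s'.reg, s'.work⟩ ∧
        s'.reg 1 = 0 ∧ s'.reg 2 = 1 := by
  induction h with
  | ins I s hS =>
    intro hok h1 h2 p hp
    have hr := run_one (w := w) (inp := inp) (S := S) (s := ⟨p, s.reg, s.work⟩) I hp.single
      (within_pc p hS)
    rw [exec_pc hok] at hr
    have h3 := exec_one (w := w) (inp := inp) (I := I) hok ⟨0, s.reg, s.work⟩
    exact ⟨1, by omega, hr, h3.1.trans h1, h3.2.trans h2⟩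
  | seq a b t t' s s' s'' ha hb iha ihb =>
    intro hok h1 h2 p hp
    obtain ⟨T, hT, hr, h3, h4⟩ := iha hok.1 h1 h2 p hp.left
    have hp2 := hp.right
    rw [code_length] at hp2
    obtain ⟨T', hT', hr', h5, h6⟩ := ihb hok.2 h3 h4 (p + len a) hp2
    refine ⟨T + T', by omega, ?_, h5, h6⟩
    have := run_trans hr hr'
    rw [add_assoc] at this
    exact this
  | ifT i j a b t s s' h ha iha =>
    intro hok h1 h2 p hp
    have hpj : P[p]? = some (Instr.jlt i j (p + 2 + len b)) := hp.left.single
    have hpa : At P (p + 2 + len b) (code a (p + 2 + len b)) := by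
      have := hp.right.right.right
      simp only [code_length, List.length_singleton] at this
      have e : p + 1 + len b + 1 = p + 2 + len b := by omega
      rw [e] at this
      exact this
    obtain ⟨T, hT, hr, h3, h4⟩ := iha hok.1 h1 h2 _ hpa
    refine ⟨1 + T, by omega, ?_, h3, h4⟩
    have := run_trans (run_jlt_true hpj h) hr
    have e : p + 2 + len b + len a = p + len (R.ifl i j a b) := by
      simp only [len]; omega
    rw [e] at this
    exact this
  | ifF i j a b t s s' h hb ihb =>
    intro hok h1 h2 p hp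
    have hpj : P[p]? = some (Instr.jlt i j (p + 2 + len b)) := hp.left.single
    have hpb : At P (p + 1) (code b (p + 1)) := by
      have := hp.right.left
      simpa only [List.length_singleton] using this
    have hpj2 : P[p + 1 + len b]? = some (Instr.jlt 1 2 (p + 2 + len b + len a)) := by
      have := hp.right.right.left
      simp only [code_length, List.length_singleton] at this
      exact this.single
    obtain ⟨T, hT, hr, h3, h4⟩ := ihb hok.2 h1 h2 _ hpb
    refine ⟨1 + T + 1, by omega, ?_, h3, h4⟩
    have := run_trans (run_trans (run_jlt_false hpj h) hr) (run_jump hpj2 h3 h4)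
    have e : p + 2 + len b + len a = p + len (R.ifl i j a b) := by
      simp only [len]; omega
    rw [e] at this
    exact this
  | whT i j a t t' s s' s'' h ha hb iha ihb =>
    intro hok h1 h2 p hp
    have hpj : P[p]? = some (Instr.jlt i j (p + 2)) := hp.left.single
    have hpa : At P (p + 2) (code a (p + 2)) := by
      have := hp.right.right.left
      simpa only [List.length_singleton] using this
    have hpj2 : P[p + 2 + len a]? = some (Instr.jlt 1 2 p) := by
      have := hp.right.right.right
      simp only [code_length, List.length_singleton] at this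
      exact this.single
    obtain ⟨T, hT, hr, h3, h4⟩ := iha hok h1 h2 _ hpa
    obtain ⟨T', hT', hr', h5, h6⟩ := ihb hok h3 h4 p hp
    refine ⟨1 + T + 1 + T', by omega, ?_, h5, h6⟩
    exact run_trans (run_trans (run_trans (run_jlt_true hpj h) hr) (run_jump hpj2 h3 h4)) hr'
  | whF i j a s h =>
    intro hok h1 h2 p hp
    have hpj : P[p]? = some (Instr.jlt i j (p + 2)) := hp.left.single
    have hpj2 : P[p + 1]? = some (Instr.jlt 1 2 (p + 3 + len a)) := by
      have := hp.right.left
      simp only [List.length_singleton] at this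
      exact this.single
    refine ⟨1 + 1, by omega, ?_, h1, h2⟩
    have := run_trans (S := S) (w := w) (inp := inp) (run_jlt_false (work := s.work) hpj h)
      (run_jump hpj2 h1 h2)
    have e : p + 3 + len a = p + len (R.whl i j a) := by
      simp only [len]; omega
    rw [e] at this
    exact this

end PLowAux

open PLowAux in
theorem low_compile (r : R) (hr : r.ok) : ∃ (P : List Instr) (K : ℕ),
    ∀ (w : ℕ) (inp : ℕ → ℕ) (S t : ℕ) (s : Mach), 1 ≤ w → Rx w inp S r t mach0 s →
      ∃ (T : ℕ) (s' : Config), T ≤ K * (t + 1) ∧ Run P w inp S T init s' ∧ P.length ≤ s'.pc ∧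
        s'.reg = s.reg ∧ s'.work = s.work := by
  refine ⟨[Instr.const 1 0] ++ ([Instr.const 2 1] ++ code r 2), 4, ?_⟩
  intro w inp S t s hw h
  have hw2 : (1 : ℕ) % 2 ^ w = 1 := Nat.mod_eq_of_lt (Nat.one_lt_two_pow (by omega))
  set P := [Instr.const 1 0] ++ ([Instr.const 2 1] ++ code r 2) with hP
  have hAt : At P 0 P := by
    intro k _
    rw [zero_add]
  have h0 : P[0]? = some (Instr.const 1 0) := (At.left hAt).single
  have h1 : P[1]? = some (Instr.const 2 1) := by
    have := (At.left (At.right hAt)).single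
    simpa using this
  have h2 : At P 2 (code r 2) := by
    have := At.right (At.right hAt)
    simpa only [List.length_singleton, zero_add] using this
  have hr1 : Run P w inp S 1 init ⟨1, fun _ => 0, fun _ => 0⟩ := by
    have h3 := run_one (w := w) (inp := inp) (S := S) (s := init) (Instr.const 1 0) h0 trivial
    have h4 : (Instr.const 1 0).exec w inp init = ⟨1, fun _ => 0, fun _ => 0⟩ := by
      simp only [Instr.exec, init, Nat.zero_mod]
      congr 1
      funext x
      by_cases hx : x = 1
      · subst hx; simp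
      · simp [Function.update_of_ne hx]
    rwa [h4] at h3
  have hr2 : Run P w inp S 1 ⟨1, fun _ => 0, fun _ => 0⟩ ⟨2, mach0.reg, mach0.work⟩ := by
    have h3 := run_one (w := w) (inp := inp) (S := S) (s := ⟨1, fun _ => 0, fun _ => 0⟩)
      (Instr.const 2 1) h1 trivial
    have h4 : (Instr.const 2 1).exec w inp ⟨1, fun _ => 0, fun _ => 0⟩ =
        ⟨2, mach0.reg, mach0.work⟩ := by
      simp only [Instr.exec, mach0, hw2]
    rwa [h4] at h3
  obtain ⟨T, hT, hr3, -, -⟩ := PLowAux.main (P := P) h hr (by simp [mach0]) (by simp [mach0]) 2 h2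
  refine ⟨1 + 1 + T, _, ?_, run_trans (run_trans hr1 hr2) hr3, ?_, rfl, rfl⟩
  · omega
  · show P.length ≤ 2 + len r
    rw [hP]
    simp only [List.length_append, List.length_singleton, code_length]
    omega

end Pool.Agent.MP9d6bd1
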