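import Mathlib
import Pool.Agent.Lib.MP_9d6bd1_lc.Machine
import Pool.Agent.Lib.MP_9d6bd1_lc.LowDefs
import Pool.Agent.Lib.MP_9d6bd1_lc.Lang
import Pool.Agent.Lib.MP_9d6bd1_lc.PLow

/-!
# MP_9d6bd1_lc, module P02: compiling the language to the word RAM with resource bounds
-/

set_option autoImplicit false

namespace Pool.Agent.MP9d6bd1

namespace PAdeqAux

/-! ### A small program logic for structured code -/

/-- code `r` runs from `M` in at most `t` steps to a state with `Q`. -/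
def Tr (w : ℕ) (inp : ℕ → ℕ) (m : ℕ) (r : R) (t : ℕ) (M : Mach) (Q : Mach → Prop) : Prop :=
  ∃ t' ≤ t, ∃ M', Rx w inp m r t' M M' ∧ Q M'

variable {w : ℕ} {inp : ℕ → ℕ} {m : ℕ}

theorem Tr.mono {r : R} {t t₂ : ℕ} {M : Mach} {Q Q₂ : Mach → Prop} (h : Tr w inp m r t M Q)
    (ht : t ≤ t₂) (hQ : ∀ M', Q M' → Q₂ M') : Tr w inp m r t₂ M Q₂ := by
  obtain ⟨t', h1, M', h2, h3⟩ := h
  exact ⟨t', h1.trans ht, M', h2, hQ M' h3⟩

theorem Tr.seq {a b : R} {t t₂ : ℕ} {M : Mach} {Q Q₂ : Mach → Prop} (h : Tr w inp m a t M Q)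
    (h₂ : ∀ M', Q M' → Tr w inp m b t₂ M' Q₂) : Tr w inp m (.seq a b) (t + t₂) M Q₂ := by
  obtain ⟨t', h1, M', h2, h3⟩ := h
  obtain ⟨t'', g1, M'', g2, g3⟩ := h₂ M' h3
  exact ⟨t' + t'', Nat.add_le_add h1 g1, M'', Rx.seq a b t' t'' M M' M'' h2 g2, g3⟩

theorem Tr.ins {I : Instr} {M : Mach} {Q : Mach → Prop}
    (hS : I.within m ⟨0, M.reg, M.work⟩)
    (hQ : Q ⟨(I.exec w inp ⟨0, M.reg, M.work⟩).reg, (I.exec w inp ⟨0, M.reg, M.work⟩).work⟩) :
    Tr w inp m (.ins I) 1 M Q :=
  ⟨1, le_rfl, _, Rx.ins I M hS, hQ⟩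

theorem Tr.ifT {i j : ℕ} {a b : R} {t : ℕ} {M : Mach} {Q : Mach → Prop}
    (h : M.reg i < M.reg j) (ha : Tr w inp m a t M Q) : Tr w inp m (.ifl i j a b) (t + 1) M Q := by
  obtain ⟨t', h1, M', h2, h3⟩ := ha
  exact ⟨t' + 1, by omega, M', Rx.ifT i j a b t' M M' h h2, h3⟩

theorem Tr.ifF {i j : ℕ} {a b : R} {t : ℕ} {M : Mach} {Q : Mach → Prop}
    (h : ¬ M.reg i < M.reg j) (hb : Tr w inp m b t M Q) :
    Tr w inp m (.ifl i j a b) (t + 1) M Q := by
  obtain ⟨t', h1, M', h2, h3⟩ := hb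
  exact ⟨t' + 1, by omega, M', Rx.ifF i j a b t' M M' h h2, h3⟩

theorem Tr.whl {i j : ℕ} {a : R} (N : ℕ) (tb : ℕ → ℕ) (Inv : ℕ → Mach → Prop)
    (hstep : ∀ k < N, ∀ M, Inv k M → M.reg i < M.reg j ∧ Tr w inp m a (tb k) M (Inv (k + 1)))
    (hend : ∀ M, Inv N M → ¬ M.reg i < M.reg j) (M : Mach) (h0 : Inv 0 M) :
    Tr w inp m (.whl i j a) (∑ k ∈ Finset.range N, (tb k + 1) + 1) M (Inv N) := by
  have key : ∀ d k, k + d = N → ∀ M, Inv k M →
      Tr w inp m (.whl i j a) (∑ k' ∈ Finset.range d, (tb (k + k') + 1) + 1) M (Inv N) := by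
    intro d
    induction d with
    | zero =>
      intro k hk M hM
      have hkN : k = N := by omega
      subst hkN
      exact ⟨1, by simp, M, Rx.whF i j a M (hend M hM), hM⟩
    | succ d ih =>
      intro k hk M hM
      obtain ⟨hlt, t1, ht1, M1, hx1, hM1⟩ := hstep k (by omega) M hM
      obtain ⟨t2, ht2, M2, hx2, hM2⟩ := ih (k + 1) (by omega) M1 hM1
      refine ⟨t1 + t2 + 1, ?_, M2, Rx.whT i j a t1 t2 M M1 M2 hlt hx1 hx2, hM2⟩
      rw [Finset.sum_range_succ']
      have e : ∑ k' ∈ Finset.range d, (tb (k + 1 + k') + 1) =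
          ∑ k' ∈ Finset.range d, (tb (k + (k' + 1)) + 1) := by
        refine Finset.sum_congr rfl fun k' _ => ?_
        rw [show k + 1 + k' = k + (k' + 1) by ring]
      rw [e] at ht2
      simp only [Nat.add_zero]
      omega
  have h := key N 0 (by omega) M h0
  simpa using h

/-! ### Polynomial bounds -/

/-- `f` is bounded by a polynomial. -/
def PB (f : ℕ → ℕ) : Prop := ∃ K, ∀ c, f c ≤ K * (c + 1) ^ K

theorem PB.le {f g : ℕ → ℕ} (hg : PB g) (h : ∀ c, f c ≤ g c) : PB f := by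
  obtain ⟨K, hK⟩ := hg
  exact ⟨K, fun c => (h c).trans (hK c)⟩

theorem PB.const (k : ℕ) : PB (fun _ => k) :=
  ⟨k, fun c => Nat.le_mul_of_pos_right k (pow_pos (Nat.succ_pos c) k)⟩

theorem PB.id : PB (fun c => c) :=
  ⟨1, fun c => by simp⟩

theorem PB.up {K M : ℕ} (h : K ≤ M) (c : ℕ) : K * (c + 1) ^ K ≤ M * (c + 1) ^ M :=
  Nat.mul_le_mul h (Nat.pow_le_pow_right (Nat.succ_pos c) h)

theorem PB.add {f g : ℕ → ℕ} (hf : PB f) (hg : PB g) : PB (fun c => f c + g c) := by
  obtain ⟨K, hK⟩ := hf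
  obtain ⟨L, hL⟩ := hg
  refine ⟨K + L, fun c => ?_⟩
  have h1 : f c ≤ K * (c + 1) ^ (K + L) :=
    (hK c).trans (Nat.mul_le_mul le_rfl (Nat.pow_le_pow_right (Nat.succ_pos c) (by omega)))
  have h2 : g c ≤ L * (c + 1) ^ (K + L) :=
    (hL c).trans (Nat.mul_le_mul le_rfl (Nat.pow_le_pow_right (Nat.succ_pos c) (by omega)))
  calc f c + g c ≤ K * (c + 1) ^ (K + L) + L * (c + 1) ^ (K + L) := Nat.add_le_add h1 h2
    _ = (K + L) * (c + 1) ^ (K + L) := by ring

theorem PB.mul {f g : ℕ → ℕ} (hf : PB f) (hg : PB g) : PB (fun c => f c * g c) := by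
  obtain ⟨K, hK⟩ := hf
  obtain ⟨L, hL⟩ := hg
  refine ⟨K * L + (K + L), fun c => ?_⟩
  calc f c * g c ≤ (K * (c + 1) ^ K) * (L * (c + 1) ^ L) := Nat.mul_le_mul (hK c) (hL c)
    _ = (K * L) * (c + 1) ^ (K + L) := by ring
    _ ≤ (K * L + (K + L)) * (c + 1) ^ (K * L + (K + L)) :=
      Nat.mul_le_mul (by omega) (Nat.pow_le_pow_right (Nat.succ_pos c) (by omega))

theorem PB.comp {f g : ℕ → ℕ} (hf : PB f) (hg : PB g) : PB (fun c => f (g c)) := by
  obtain ⟨K, hK⟩ := hf
  obtain ⟨L, hL⟩ := hg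
  refine ⟨K * (L + 1) ^ K + L * K, fun c => ?_⟩
  have h1 : g c + 1 ≤ (L + 1) * (c + 1) ^ L := by
    have := hL c
    have h2 : 1 ≤ (c + 1) ^ L := Nat.one_le_pow _ _ (Nat.succ_pos _)
    rw [add_mul, one_mul]
    omega
  calc f (g c) ≤ K * (g c + 1) ^ K := hK (g c)
    _ ≤ K * ((L + 1) * (c + 1) ^ L) ^ K := Nat.mul_le_mul le_rfl (Nat.pow_le_pow_left h1 K)
    _ = (K * (L + 1) ^ K) * (c + 1) ^ (L * K) := by rw [mul_pow, ← pow_mul, mul_assoc]
    _ ≤ (K * (L + 1) ^ K + L * K) * (c + 1) ^ (K * (L + 1) ^ K + L * K) :=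
      Nat.mul_le_mul (by omega) (Nat.pow_le_pow_right (Nat.succ_pos c) (by omega))

/-! ### Compiling expressions -/

/-- no operation -/
def nop : R := .ins (.const 7 0)

/-- `r := min r r_6` -/
def cut (r : ℕ) : R := .ifl 6 r (.ins (.add r 6 1)) nop

/-- arithmetic operation on the registers `r`, `q`, result in `r` -/
def compOp : Op → ℕ → ℕ → R
  | .add, r, q => .ins (.add r r q)
  | .sub, r, q => .ins (.sub r r q)
  | .mul, r, q => .ins (.mul r r q)
  | .div, r, q => .ins (.div r r q)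
  | .mod, r, q => .ins (.mod r r q)
  | .lt, r, q => .ifl r q (.ins (.const r 1)) (.ins (.const r 0))
  | .eq, r, q => .ifl r q (.ins (.const r 0)) (.ifl q r (.ins (.const r 0)) (.ins (.const r 1)))

/-- code for an expression: the local variables are in the slots `vars`, the result goes into slot
`tgt`. -/
def compE : E → List ℕ → ℕ → R
  | .c k, _, tgt => .ins (.const (11 + 2 * tgt) k)
  | .v x, vars, tgt => match vars[x]? with
    | some y => .ins (.add (11 + 2 * tgt) (11 + 2 * y) 1)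
    | none => .ins (.const (11 + 2 * tgt) 0)
  | .g x, _, tgt => .ins (.add (11 + 2 * tgt) (10 + 2 * x) 1)
  | .inp a, vars, tgt => .seq (compE a vars tgt)
      (.seq (.ins (.input (11 + 2 * tgt) (11 + 2 * tgt))) (cut (11 + 2 * tgt)))
  | .ld b a, vars, tgt => .seq (compE a vars tgt)
      (.ifl (11 + 2 * tgt) 5
        (.seq (.ins (.mul (11 + 2 * tgt) (11 + 2 * tgt) 3))
          (.seq (.ins (.const 7 b))
            (.seq (.ins (.add (11 + 2 * tgt) (11 + 2 * tgt) 7))
              (.ins (.load (11 + 2 * tgt) (11 + 2 * tgt))))))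
        (.ins (.const (11 + 2 * tgt) 0)))
  | .op o a b, vars, tgt => .seq (compE a vars tgt)
      (.seq (compE b vars (tgt + 1)) (compOp o (11 + 2 * tgt) (11 + 2 * (tgt + 1))))
  | .ite a b d, vars, tgt => .seq (compE a vars tgt)
      (.ifl 1 (11 + 2 * tgt) (compE b vars tgt) (compE d vars tgt))
  | .lt a b, vars, tgt => .seq (compE a vars tgt)
      (.seq (compE b (vars ++ [tgt]) (tgt + 1))
        (.ins (.add (11 + 2 * tgt) (11 + 2 * (tgt + 1)) 1)))
  | .fr k f, vars, tgt => compE f (vars.drop (vars.length - k)) tgt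
  | .fold n a b, vars, tgt => .seq (compE a vars (tgt + 1))
      (.seq (compE n vars (tgt + 2))
        (.seq (.ifl 4 (11 + 2 * (tgt + 2)) (.ins (.add (11 + 2 * (tgt + 2)) 4 1)) nop)
          (.seq (.ins (.const (11 + 2 * tgt) 0))
            (.seq (.whl (11 + 2 * tgt) (11 + 2 * (tgt + 2))
                (.seq (compE b (vars ++ [tgt, tgt + 1, tgt + 2]) (tgt + 3))
                  (.seq (cut (11 + 2 * (tgt + 3)))
                    (.seq (.ins (.add (11 + 2 * (tgt + 1)) (11 + 2 * (tgt + 3)) 1))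
                      (.ins (.add (11 + 2 * tgt) (11 + 2 * tgt) 2))))))
              (.ins (.add (11 + 2 * tgt) (11 + 2 * (tgt + 1)) 1))))))

/-- bound for all values that occur in the evaluation of an expression, if the local variables
and all other values are at most `B` -/
def big : E → ℕ → ℕ
  | .c k, B => k + B
  | .v _, B => B
  | .g _, B => B
  | .inp a, B => big a B + B
  | .ld _ a, B => big a B + 16 * B + 16
  | .op _ a b, B => (big a B + 1) * (big b B + 1) + B
  | .ite a b d, B => big a B + big b B + big d B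
  | .lt a b, B => big a B + big b (big a B)
  | .fr _ f, B => big f B
  | .fold n a b, B => big n B + big a B + big b (big a B) + B + 1

/-- bound for the running time -/
def tE (cap : ℕ) : E → ℕ
  | .c _ => 1
  | .v _ => 1
  | .g _ => 1
  | .inp a => tE cap a + 3
  | .ld _ a => tE cap a + 5
  | .op _ a b => tE cap a + tE cap b + 3
  | .ite a b d => tE cap a + tE cap b + tE cap d + 1
  | .lt a b => tE cap a + tE cap b + 3
  | .fr _ f => tE cap f
  | .fold n a b => tE cap a + tE cap n + cap * (tE cap b + 5) + 7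

theorem big_pb (e : E) : PB (fun B => big e B) := by
  induction e with
  | c k => exact (PB.const k).add PB.id
  | v x => exact PB.id
  | g x => exact PB.id
  | inp a iha => exact iha.add PB.id
  | ld b a iha => exact (iha.add ((PB.const 16).mul PB.id)).add (PB.const 16)
  | op o a b iha ihb => exact ((iha.add (PB.const 1)).mul (ihb.add (PB.const 1))).add PB.id
  | ite a b d iha ihb ihd => exact (iha.add ihb).add ihd
  | lt a b iha ihb => exact iha.add (ihb.comp iha)
  | fr k f ihf => exact ihf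
  | fold n a b ihn iha ihb =>
    exact (((ihn.add iha).add (ihb.comp iha)).add PB.id).add (PB.const 1)

theorem tE_pb (e : E) : PB (fun cap => tE cap e) := by
  induction e with
  | c k => exact PB.const 1
  | v x => exact PB.const 1
  | g x => exact PB.const 1
  | inp a iha => exact iha.add (PB.const 3)
  | ld b a iha => exact iha.add (PB.const 5)
  | op o a b iha ihb => exact (iha.add ihb).add (PB.const 3)
  | ite a b d iha ihb ihd => exact ((iha.add ihb).add ihd).add (PB.const 1)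
  | lt a b iha ihb => exact (iha.add ihb).add (PB.const 3)
  | fr k f ihf => exact ihf
  | fold n a b ihn iha ihb =>
    exact ((iha.add ihn).add (PB.id.mul (ihb.add (PB.const 5)))).add (PB.const 7)

theorem le_big (e : E) : ∀ B : ℕ, B ≤ big e B := by
  induction e with
  | c k => intro B; simp [big]
  | v x => intro B; simp [big]
  | g x => intro B; simp [big]
  | inp a iha => intro B; simp [big]
  | ld b a iha => intro B; simp only [big]; omega
  | op o a b iha ihb => intro B; simp only [big]; omega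
  | ite a b d iha ihb ihd => intro B; have := iha B; simp only [big]; omega
  | lt a b iha ihb => intro B; have := iha B; simp only [big]; omega
  | fr k f ihf => intro B; exact ihf B
  | fold n a b ihn iha ihb => intro B; simp only [big]; omega

/-- all values in a state are at most `top` -/
structure Bd (κ : Par) (σ : St) : Prop where
  cap : κ.cap ≤ κ.top
  lim : κ.lim ≤ κ.top
  g : ∀ x, σ.g x ≤ κ.top
  m : ∀ b i, σ.m b i ≤ κ.top

theorem op_le (o : Op) (a b : ℕ) : o.ev a b ≤ (a + 1) * (b + 1) := by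
  have h : (a + 1) * (b + 1) = a * b + a + b + 1 := by ring
  rw [h]
  cases o with
  | add => simp only [Op.ev]; omega
  | sub => simp only [Op.ev]; omega
  | mul => simp only [Op.ev]; omega
  | div =>
    simp only [Op.ev]
    have := Nat.div_le_self a b
    omega
  | mod =>
    simp only [Op.ev]
    have := Nat.mod_le a b
    omega
  | lt =>
    simp only [Op.ev]
    split_ifs <;> omega
  | eq =>
    simp only [Op.ev]
    split_ifs <;> omega

theorem fold_le (κ : Par) (σ : St) (n a b : E) (l : List ℕ) (N B : ℕ) (hB : κ.top ≤ B)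
    (ha : a.ev κ σ l ≤ B) :
    (Nat.rec (a.ev κ σ l)
      (fun i acc => min (b.ev κ σ (l ++ [i, acc, min (n.ev κ σ l) κ.cap])) κ.top) N : ℕ) ≤
      B := by
  cases N with
  | zero => exact ha
  | succ N => exact (min_le_right _ _).trans hB

theorem ev_le_big {κ : Par} {σ : St} (hb : Bd κ σ) (e : E) : ∀ (B : ℕ) (l : List ℕ),
    κ.top ≤ B → (∀ x ∈ l, x ≤ B) → e.ev κ σ l ≤ big e B := by
  induction e with
  | c k => intro B l _ _; simp [E.ev, big]
  | v x =>
    intro B l _ hl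
    simp only [E.ev, big]
    by_cases hx : x < l.length
    · rw [List.getD_eq_getElem _ _ hx]
      exact hl _ (List.getElem_mem hx)
    · rw [List.getD_eq_default _ _ (by omega)]
      exact Nat.zero_le _
  | g x => intro B l hB _; exact (hb.g x).trans hB
  | inp a iha =>
    intro B l hB _
    simp only [E.ev, big]
    exact (min_le_right _ _).trans (by omega)
  | ld b a iha =>
    intro B l hB _
    simp only [E.ev, big]
    split_ifs
    · exact (hb.m _ _).trans (by omega)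
    · exact Nat.zero_le _
  | op o a b iha ihb =>
    intro B l hB hl
    simp only [E.ev, big]
    refine (op_le o _ _).trans ?_
    have h1 := iha B l hB hl
    have h2 := ihb B l hB hl
    calc (a.ev κ σ l + 1) * (b.ev κ σ l + 1) ≤ (big a B + 1) * (big b B + 1) :=
          Nat.mul_le_mul (by omega) (by omega)
      _ ≤ _ := by omega
  | ite a b d iha ihb ihd =>
    intro B l hB hl
    simp only [E.ev, big]
    have h1 := ihb B l hB hl
    have h2 := ihd B l hB hl
    split_ifs <;> omega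
  | lt a b iha ihb =>
    intro B l hB hl
    simp only [E.ev, big]
    have h0 := iha B l hB hl
    have h2 := le_big a B
    have h1 := ihb (big a B) (l ++ [a.ev κ σ l]) (hB.trans h2) (by
      intro x hx
      rw [List.mem_append, List.mem_singleton] at hx
      rcases hx with hx | hx
      · exact (hl x hx).trans h2
      · rw [hx]; exact h0)
    omega
  | fr k f ihf =>
    intro B l hB hl
    simp only [E.ev, big]
    exact ihf _ _ hB (fun x hx => hl x (List.mem_of_mem_drop hx))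
  | fold n a b ihn iha ihb =>
    intro B l hB hl
    simp only [E.ev, big]
    have h2 := le_big a B
    have := fold_le κ σ n a b l (min (n.ev κ σ l) κ.cap) (big a B) (hB.trans h2)
      (iha B l hB hl)
    omega

/-! ### Correctness of the code for expressions -/

/-- the machine state `M` represents the state `σ` -/
structure Rel (κ : Par) (σ : St) (M : Mach) : Prop where
  r1 : M.reg 1 = 0
  r2 : M.reg 2 = 1
  r3 : M.reg 3 = 16
  r4 : M.reg 4 = κ.cap
  r5 : M.reg 5 = κ.lim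
  r6 : M.reg 6 = κ.top
  g : ∀ x, M.reg (10 + 2 * x) = σ.g x
  m : ∀ (b : Fin 16) i, M.work (16 * i + b) = σ.m b i

/-- only register `r` and the scratch register `7` are changed -/
def Only (r : ℕ) (M M' : Mach) : Prop :=
  M'.work = M.work ∧ ∀ q, q ≠ r → q ≠ 7 → M'.reg q = M.reg q

/-- only slots from `tgt` on and the scratch register `7` are changed -/
def Keep (tgt : ℕ) (M M' : Mach) : Prop :=
  M'.work = M.work ∧ ∀ q, q ≠ 7 → (∀ y, tgt ≤ y → q ≠ 11 + 2 * y) → M'.reg q = M.reg q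

theorem Keep.refl (tgt : ℕ) (M : Mach) : Keep tgt M M := ⟨rfl, fun _ _ _ => rfl⟩

theorem Keep.trans {tgt : ℕ} {M M' M'' : Mach} (h : Keep tgt M M') (h' : Keep tgt M' M'') :
    Keep tgt M M'' :=
  ⟨h'.1.trans h.1, fun q h1 h2 => (h'.2 q h1 h2).trans (h.2 q h1 h2)⟩

theorem Keep.weaken {tgt tgt' : ℕ} {M M' : Mach} (h : Keep tgt' M M') (ht : tgt ≤ tgt') :
    Keep tgt M M' :=
  ⟨h.1, fun q h1 h2 => h.2 q h1 (fun y hy => h2 y (ht.trans hy))⟩

theorem Only.keep {tgt y : ℕ} {M M' : Mach} (h : Only (11 + 2 * y) M M') (ht : tgt ≤ y) :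
    Keep tgt M M' :=
  ⟨h.1, fun q h1 h2 => h.2 q (h2 y ht) h1⟩

theorem Keep.rel {κ : Par} {σ : St} {tgt : ℕ} {M M' : Mach} (h : Keep tgt M M')
    (hr : Rel κ σ M) : Rel κ σ M' where
  r1 := (h.2 1 (by omega) (fun y _ => by omega)).trans hr.r1
  r2 := (h.2 2 (by omega) (fun y _ => by omega)).trans hr.r2
  r3 := (h.2 3 (by omega) (fun y _ => by omega)).trans hr.r3
  r4 := (h.2 4 (by omega) (fun y _ => by omega)).trans hr.r4
  r5 := (h.2 5 (by omega) (fun y _ => by omega)).trans hr.r5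
  r6 := (h.2 6 (by omega) (fun y _ => by omega)).trans hr.r6
  g := fun x => (h.2 (10 + 2 * x) (by omega) (fun y _ => by omega)).trans (hr.g x)
  m := fun b i => by rw [h.1]; exact hr.m b i

theorem Keep.slot {tgt y : ℕ} {M M' : Mach} (h : Keep tgt M M') (hy : y < tgt) :
    M'.reg (11 + 2 * y) = M.reg (11 + 2 * y) :=
  h.2 _ (by omega) (fun z hz => by omega)

theorem Only.slot {y z : ℕ} {M M' : Mach} (h : Only (11 + 2 * y) M M') (hz : z ≠ y) :
    M'.reg (11 + 2 * z) = M.reg (11 + 2 * z) :=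
  h.2 _ (by omega) (by omega)

theorem Keep.vars {tgt : ℕ} {M M' : Mach} (h : Keep tgt M M') (vars : List ℕ)
    (hv : ∀ y ∈ vars, y < tgt) : vars.map (fun y => M'.reg (11 + 2 * y)) =
      vars.map (fun y => M.reg (11 + 2 * y)) :=
  List.map_congr_left fun y hy => h.slot (hv y hy)

theorem tr_add {i j k v : ℕ} {M : Mach} (hv : (M.reg j + M.reg k) % 2 ^ w = v) :
    Tr w inp m (.ins (.add i j k)) 1 M (fun M' => M'.reg i = v ∧ Only i M M') := by
  refine Tr.ins trivial ⟨?_, rfl, fun q hq _ => ?_⟩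
  · simp only [Instr.exec, Function.update_self]
    exact hv
  · simp only [Instr.exec, Function.update_of_ne hq]

theorem tr_sub {i j k v : ℕ} {M : Mach} (hv : M.reg j - M.reg k = v) :
    Tr w inp m (.ins (.sub i j k)) 1 M (fun M' => M'.reg i = v ∧ Only i M M') := by
  refine Tr.ins trivial ⟨?_, rfl, fun q hq _ => ?_⟩
  · simp only [Instr.exec, Function.update_self]
    exact hv
  · simp only [Instr.exec, Function.update_of_ne hq]

theorem tr_mul {i j k v : ℕ} {M : Mach} (hv : (M.reg j * M.reg k) % 2 ^ w = v) :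
    Tr w inp m (.ins (.mul i j k)) 1 M (fun M' => M'.reg i = v ∧ Only i M M') := by
  refine Tr.ins trivial ⟨?_, rfl, fun q hq _ => ?_⟩
  · simp only [Instr.exec, Function.update_self]
    exact hv
  · simp only [Instr.exec, Function.update_of_ne hq]

theorem tr_div {i j k v : ℕ} {M : Mach} (hv : M.reg j / M.reg k = v) :
    Tr w inp m (.ins (.div i j k)) 1 M (fun M' => M'.reg i = v ∧ Only i M M') := by
  refine Tr.ins trivial ⟨?_, rfl, fun q hq _ => ?_⟩
  · simp only [Instr.exec, Function.update_self]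
    exact hv
  · simp only [Instr.exec, Function.update_of_ne hq]

theorem tr_mod {i j k v : ℕ} {M : Mach} (hv : M.reg j % M.reg k = v) :
    Tr w inp m (.ins (.mod i j k)) 1 M (fun M' => M'.reg i = v ∧ Only i M M') := by
  refine Tr.ins trivial ⟨?_, rfl, fun q hq _ => ?_⟩
  · simp only [Instr.exec, Function.update_self]
    exact hv
  · simp only [Instr.exec, Function.update_of_ne hq]

theorem tr_const {i c v : ℕ} {M : Mach} (hv : c % 2 ^ w = v) :
    Tr w inp m (.ins (.const i c)) 1 M (fun M' => M'.reg i = v ∧ Only i M M') := by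
  refine Tr.ins trivial ⟨?_, rfl, fun q hq _ => ?_⟩
  · simp only [Instr.exec, Function.update_self]
    exact hv
  · simp only [Instr.exec, Function.update_of_ne hq]

theorem tr_input {i j v : ℕ} {M : Mach} (hv : inp (M.reg j) % 2 ^ w = v) :
    Tr w inp m (.ins (.input i j)) 1 M (fun M' => M'.reg i = v ∧ Only i M M') := by
  refine Tr.ins trivial ⟨?_, rfl, fun q hq _ => ?_⟩
  · simp only [Instr.exec, Function.update_self]
    exact hv
  · simp only [Instr.exec, Function.update_of_ne hq]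

theorem tr_load {i j v : ℕ} {M : Mach} (hlt : M.reg j < m) (hv : M.work (M.reg j) = v) :
    Tr w inp m (.ins (.load i j)) 1 M (fun M' => M'.reg i = v ∧ Only i M M') := by
  refine Tr.ins hlt ⟨?_, rfl, fun q hq _ => ?_⟩
  · simp only [Instr.exec, Function.update_self]
    exact hv
  · simp only [Instr.exec, Function.update_of_ne hq]

theorem tr_nop {r : ℕ} {M : Mach} :
    Tr w inp m nop 1 M (fun M' => M'.work = M.work ∧ ∀ q, q ≠ 7 → M'.reg q = M.reg q) := by
  have _ := r
  refine Tr.ins trivial ⟨rfl, fun q hq => ?_⟩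
  simp only [Instr.exec, Function.update_of_ne hq]

/-- copying a register -/
theorem tr_copy {i j : ℕ} {M : Mach} (h1 : M.reg 1 = 0) (hlt : M.reg j < 2 ^ w) :
    Tr w inp m (.ins (.add i j 1)) 1 M (fun M' => M'.reg i = M.reg j ∧ Only i M M') :=
  tr_add (by rw [h1, Nat.add_zero, Nat.mod_eq_of_lt hlt])

/-- minimum with a register -/
theorem tr_min {r c : ℕ} (hr : r ≠ 7) {M : Mach} (h1 : M.reg 1 = 0) (hlt : M.reg c < 2 ^ w) :
    Tr w inp m (.ifl c r (.ins (.add r c 1)) nop) 2 M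
      (fun M' => M'.reg r = min (M.reg r) (M.reg c) ∧ Only r M M') := by
  by_cases h : M.reg c < M.reg r
  · refine Tr.ifT h ((tr_copy h1 hlt).mono le_rfl fun M' hM' => ⟨?_, hM'.2⟩)
    rw [hM'.1, min_eq_right h.le]
  · refine Tr.ifF h ((tr_nop (r := 0)).mono le_rfl fun M' hM' => ⟨?_, hM'.1, fun q _ hq => ?_⟩)
    · rw [hM'.2 r hr, min_eq_left (not_lt.1 h)]
    · exact hM'.2 q hq

theorem tr_cut {κ : Par} {σ : St} {y : ℕ} {M : Mach} (hr : Rel κ σ M) (htop : κ.top < 2 ^ w) :
    Tr w inp m (cut (11 + 2 * y)) 2 M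
      (fun M' => M'.reg (11 + 2 * y) = min (M.reg (11 + 2 * y)) κ.top ∧
        Only (11 + 2 * y) M M') := by
  have h := tr_min (w := w) (inp := inp) (m := m) (r := 11 + 2 * y) (c := 6) (by omega) hr.r1
    (by rw [hr.r6]; exact htop)
  rw [hr.r6] at h
  exact h

theorem tr_op (o : Op) {r q : ℕ} {M : Mach} (hlt : o.ev (M.reg r) (M.reg q) < 2 ^ w)
    (h1 : 1 < 2 ^ w) :
    Tr w inp m (compOp o r q) 3 M
      (fun M' => M'.reg r = o.ev (M.reg r) (M.reg q) ∧ Only r M M') := by
  cases o with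
  | add => exact (tr_add (Nat.mod_eq_of_lt hlt)).mono (by omega) fun _ h => h
  | sub => exact (tr_sub rfl).mono (by omega) fun _ h => h
  | mul => exact (tr_mul (Nat.mod_eq_of_lt hlt)).mono (by omega) fun _ h => h
  | div => exact (tr_div rfl).mono (by omega) fun _ h => h
  | mod => exact (tr_mod rfl).mono (by omega) fun _ h => h
  | lt =>
    by_cases h : M.reg r < M.reg q
    · refine (Tr.ifT h (tr_const (Nat.mod_eq_of_lt h1))).mono (by omega) fun M' hM' => ?_
      simp only [Op.ev, if_pos h]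
      exact hM'
    · refine (Tr.ifF h (tr_const (Nat.zero_mod _))).mono (by omega) fun M' hM' => ?_
      simp only [Op.ev, if_neg h]
      exact hM'
  | eq =>
    by_cases h : M.reg r < M.reg q
    · refine (Tr.ifT h (tr_const (Nat.zero_mod _))).mono (by omega) fun M' hM' => ?_
      simp only [Op.ev, if_neg h.ne]
      exact hM'
    · by_cases h' : M.reg q < M.reg r
      · refine (Tr.ifF h (Tr.ifT h' (tr_const (Nat.zero_mod _)))).mono (by omega)
          fun M' hM' => ?_
        simp only [Op.ev, if_neg h'.ne']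
        exact hM'
      · refine (Tr.ifF h (Tr.ifF h' (tr_const (Nat.mod_eq_of_lt h1)))).mono (by omega)
          fun M' hM' => ?_
        have he : M.reg r = M.reg q := by omega
        simp only [Op.ev, if_pos he]
        exact hM'

theorem Tr.le {r : R} {t t₂ : ℕ} {M : Mach} {Q : Mach → Prop} (h : Tr w inp m r t M Q)
    (ht : t ≤ t₂) : Tr w inp m r t₂ M Q := h.mono ht fun _ h => h

theorem Tr.post {r : R} {t : ℕ} {M : Mach} {Q Q₂ : Mach → Prop} (h : Tr w inp m r t M Q)
    (hQ : ∀ M', Q M' → Q₂ M') : Tr w inp m r t M Q₂ := h.mono le_rfl hQ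

theorem compE_spec {κ : Par} {σ : St} (hinp : κ.inp = fun q => inp q % 2 ^ w)
    (hm : 16 * κ.lim ≤ m) (hb : Bd κ σ) (h16 : 16 < 2 ^ w) (e : E) :
    ∀ (vars : List ℕ) (tgt : ℕ) (M : Mach) (l : List ℕ) (B : ℕ), κ.top ≤ B → Rel κ σ M →
      big e B < 2 ^ w → (∀ y ∈ vars, y < tgt) → vars.map (fun y => M.reg (11 + 2 * y)) = l →
      (∀ x ∈ l, x ≤ B) →
      Tr w inp m (compE e vars tgt) (tE κ.cap e) M
        (fun M' => M'.reg (11 + 2 * tgt) = e.ev κ σ l ∧ Keep tgt M M') := by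
  induction e with
  | c k =>
    intro vars tgt M l B hTB hr hB hv hl hlt
    simp only [big] at hB
    exact (tr_const (Nat.mod_eq_of_lt (by omega))).mono le_rfl
      fun M' h => ⟨h.1, h.2.keep le_rfl⟩
  | v x =>
    intro vars tgt M l B hTB hr hB hv hl hlt
    simp only [big] at hB
    by_cases hx : x < vars.length
    · have hget : vars[x]? = some vars[x] := List.getElem?_eq_getElem hx
      have hval : M.reg (11 + 2 * vars[x]) = l.getD x 0 := by
        rw [← hl, List.getD_eq_getElem _ _ (by simpa using hx), List.getElem_map]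
      have hle : l.getD x 0 ≤ B := by
        rw [List.getD_eq_getElem _ _ (by rw [← hl]; simpa using hx)]
        exact hlt _ (List.getElem_mem _)
      simp only [compE, hget]
      refine (tr_copy hr.r1 (by rw [hval]; omega)).mono le_rfl fun M' h => ⟨?_, h.2.keep le_rfl⟩
      rw [h.1, hval]
      rfl
    · have hget : vars[x]? = none := List.getElem?_eq_none (by omega)
      simp only [compE, hget]
      refine (tr_const (Nat.zero_mod _)).mono le_rfl fun M' h => ⟨?_, h.2.keep le_rfl⟩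
      rw [h.1]
      simp only [E.ev]
      rw [List.getD_eq_default _ _ (by rw [← hl, List.length_map]; omega)]
  | g x =>
    intro vars tgt M l B hTB hr hB hv hl hlt
    simp only [big] at hB
    refine (tr_copy hr.r1 ?_).mono le_rfl fun M' h => ⟨?_, h.2.keep le_rfl⟩
    · rw [hr.g x]
      exact lt_of_le_of_lt ((hb.g x).trans hTB) hB
    · rw [h.1, hr.g x]
      rfl
  | inp a iha =>
    intro vars tgt M l B hTB hr hB hv hl hlt
    simp only [big] at hB
    have htop : κ.top < 2 ^ w := by omega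
    simp only [compE]
    refine Tr.le (t := tE κ.cap a + (1 + 2)) ?_ (by simp only [tE]; omega)
    refine Tr.seq (iha vars tgt M l B hTB hr (by omega) hv hl hlt) fun M1 h1 => ?_
    refine Tr.seq (tr_input rfl) fun M2 h2 => ?_
    have hk2 : Keep tgt M M2 := h1.2.trans (h2.2.keep le_rfl)
    refine (tr_cut (hk2.rel hr) htop).post fun M3 h3 => ?_
    refine ⟨?_, hk2.trans (h3.2.keep le_rfl)⟩
    rw [h3.1, h2.1, h1.1]
    simp only [E.ev, hinp]
  | ld b a iha =>
    intro vars tgt M l B hTB hr hB hv hl hlt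
    simp only [big] at hB
    have hbig : big a B < 2 ^ w := by omega
    simp only [compE]
    refine Tr.le (t := tE κ.cap a + ((1 + (1 + (1 + 1))) + 1)) ?_ (by simp only [tE]; omega)
    refine Tr.seq (iha vars tgt M l B hTB hr hbig hv hl hlt) fun M1 h1 => ?_
    have hr1 := h1.2.rel hr
    by_cases h : a.ev κ σ l < κ.lim
    · have hlim := hb.lim
      have hb16 := b.2
      refine Tr.ifT (by rw [h1.1, hr1.r5]; exact h) ?_
      refine Tr.le (t := 1 + (1 + (1 + 1))) ?_ (by omega)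
      refine Tr.seq (tr_mul (v := a.ev κ σ l * 16)
        (by rw [h1.1, hr1.r3]; exact Nat.mod_eq_of_lt (by omega))) fun M2 h2 => ?_
      have hk2 : Keep tgt M M2 := h1.2.trans (h2.2.keep le_rfl)
      refine Tr.seq (tr_const (w := w) (v := (b : ℕ)) (Nat.mod_eq_of_lt (by omega)))
        fun M3 h3 => ?_
      have hk3 : Keep tgt M M3 := hk2.trans ⟨h3.2.1, fun q hq _ => h3.2.2 q hq hq⟩
      have hs3 : M3.reg (11 + 2 * tgt) = a.ev κ σ l * 16 := by
        rw [h3.2.2 _ (by omega) (by omega), h2.1]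
      refine Tr.seq (tr_add (v := a.ev κ σ l * 16 + b)
        (by rw [hs3, h3.1]; exact Nat.mod_eq_of_lt (by omega))) fun M4 h4 => ?_
      have hk4 : Keep tgt M M4 := hk3.trans (h4.2.keep le_rfl)
      refine (tr_load (v := σ.m b (a.ev κ σ l)) ?_ ?_).post fun M5 h5 => ?_
      · rw [h4.1]
        omega
      · rw [h4.1, ← (hk4.rel hr).m b (a.ev κ σ l), mul_comm]
      · refine ⟨?_, hk4.trans (h5.2.keep le_rfl)⟩
        rw [h5.1]
        simp only [E.ev, if_pos h]
    · refine Tr.ifF (by rw [h1.1, hr1.r5]; exact h) ?_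
      refine (tr_const (Nat.zero_mod _)).mono (by omega) fun M2 h2 => ?_
      refine ⟨?_, h1.2.trans (h2.2.keep le_rfl)⟩
      rw [h2.1]
      simp only [E.ev, if_neg h]
  | op o a b iha ihb =>
    intro vars tgt M l B hTB hr hB hv hl hlt
    simp only [big] at hB
    have hpa : big a B ≤ (big a B + 1) * (big b B + 1) :=
      (Nat.le_succ _).trans (Nat.le_mul_of_pos_right _ (Nat.succ_pos _))
    have hpb : big b B ≤ (big a B + 1) * (big b B + 1) :=
      (Nat.le_succ _).trans (Nat.le_mul_of_pos_left _ (Nat.succ_pos _))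
    simp only [compE]
    refine Tr.le (t := tE κ.cap a + (tE κ.cap b + 3)) ?_ (by simp only [tE]; omega)
    refine Tr.seq (iha vars tgt M l B hTB hr (by omega) hv hl hlt) fun M1 h1 => ?_
    refine Tr.seq (ihb vars (tgt + 1) M1 l B hTB (h1.2.rel hr) (by omega)
      (fun y hy => (hv y hy).trans (Nat.lt_succ_self _))
      (by rw [h1.2.vars vars hv]; exact hl) hlt) fun M2 h2 => ?_
    have hs : M2.reg (11 + 2 * tgt) = a.ev κ σ l := by
      rw [h2.2.slot (Nat.lt_succ_self _), h1.1]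
    have hk2 : Keep tgt M M2 := h1.2.trans (h2.2.weaken (Nat.le_succ _))
    have hval : o.ev (a.ev κ σ l) (b.ev κ σ l) < 2 ^ w := by
      have e1 := ev_le_big hb a B l hTB hlt
      have e2 := ev_le_big hb b B l hTB hlt
      calc o.ev (a.ev κ σ l) (b.ev κ σ l) ≤ (a.ev κ σ l + 1) * (b.ev κ σ l + 1) := op_le o _ _
        _ ≤ (big a B + 1) * (big b B + 1) := Nat.mul_le_mul (by omega) (by omega)
        _ < 2 ^ w := by omega
    refine (tr_op o (by rw [hs, h2.1]; exact hval) (by omega)).post fun M3 h3 => ?_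
    refine ⟨?_, hk2.trans (h3.2.keep le_rfl)⟩
    rw [h3.1, hs, h2.1]
    rfl
  | ite a b d iha ihb ihd =>
    intro vars tgt M l B hTB hr hB hv hl hlt
    simp only [big] at hB
    simp only [compE]
    refine Tr.le (t := tE κ.cap a + ((tE κ.cap b + tE κ.cap d) + 1)) ?_
      (by simp only [tE]; omega)
    refine Tr.seq (iha vars tgt M l B hTB hr (by omega) hv hl hlt) fun M1 h1 => ?_
    have hr1 := h1.2.rel hr
    by_cases h : a.ev κ σ l = 0
    · refine Tr.ifF (by rw [hr1.r1, h1.1]; omega) ?_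
      refine (ihd vars tgt M1 l B hTB hr1 (by omega) hv (by rw [h1.2.vars vars hv]; exact hl)
        hlt).mono (by omega) fun M2 h2 => ?_
      refine ⟨?_, h1.2.trans h2.2⟩
      rw [h2.1]
      simp only [E.ev, if_pos h]
    · refine Tr.ifT (by rw [hr1.r1, h1.1]; omega) ?_
      refine (ihb vars tgt M1 l B hTB hr1 (by omega) hv (by rw [h1.2.vars vars hv]; exact hl)
        hlt).mono (by omega) fun M2 h2 => ?_
      refine ⟨?_, h1.2.trans h2.2⟩
      rw [h2.1]
      simp only [E.ev, if_neg h]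
  | lt a b iha ihb =>
    intro vars tgt M l B hTB hr hB hv hl hlt
    simp only [big] at hB
    have hle := le_big a B
    have hTB' : κ.top ≤ big a B := hTB.trans hle
    have ha := ev_le_big hb a B l hTB hlt
    simp only [compE]
    refine Tr.le (t := tE κ.cap a + (tE κ.cap b + 1)) ?_ (by simp only [tE]; omega)
    refine Tr.seq (iha vars tgt M l B hTB hr (by omega) hv hl hlt) fun M1 h1 => ?_
    have hr1 := h1.2.rel hr
    have hlt' : ∀ x ∈ l ++ [a.ev κ σ l], x ≤ big a B := by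
      intro x hx
      rw [List.mem_append, List.mem_singleton] at hx
      rcases hx with hx | hx
      · exact (hlt x hx).trans hle
      · rw [hx]; exact ha
    refine Tr.seq (ihb (vars ++ [tgt]) (tgt + 1) M1 (l ++ [a.ev κ σ l]) (big a B) hTB'
      hr1 (by omega) ?_ ?_ hlt') fun M3 h3 => ?_
    · intro y hy
      rw [List.mem_append, List.mem_singleton] at hy
      rcases hy with hy | hy
      · exact (hv y hy).trans (Nat.lt_succ_self _)
      · omega
    · rw [List.map_append, h1.2.vars vars hv, hl, List.map_singleton, h1.1]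
    · have hk3 : Keep tgt M M3 := h1.2.trans (h3.2.weaken (Nat.le_succ _))
      have hval := ev_le_big hb b _ _ hTB' hlt'
      refine (tr_copy (hk3.rel hr).r1 (by rw [h3.1]; omega)).post fun M4 h4 => ?_
      refine ⟨?_, hk3.trans (h4.2.keep le_rfl)⟩
      rw [h4.1, h3.1]
      rfl
  | fr k f ihf =>
    intro vars tgt M l B hTB hr hB hv hl hlt
    simp only [big] at hB
    simp only [compE]
    refine (ihf (vars.drop (vars.length - k)) tgt M (l.drop (l.length - k)) B hTB hr hB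
      (fun y hy => hv y (List.mem_of_mem_drop hy)) ?_
      (fun x hx => hlt x (List.mem_of_mem_drop hx))).mono (by simp only [tE]; exact le_rfl)
      fun M1 h1 => ?_
    · rw [← hl, List.map_drop, List.length_map]
    · exact ⟨h1.1, h1.2⟩
  | fold n a b ihn iha ihb =>
    intro vars tgt M l B hTB hr hB hv hl hlt
    simp only [big] at hB
    have htop : κ.top < 2 ^ w := by omega
    have hle := le_big a B
    have hTB' : κ.top ≤ big a B := hTB.trans hle
    have ha := ev_le_big hb a B l hTB hlt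
    have hcap := hb.cap
    obtain ⟨N, hN⟩ : ∃ N, N = min (n.ev κ σ l) κ.cap := ⟨_, rfl⟩
    obtain ⟨acc, hacc⟩ : ∃ acc : ℕ → ℕ, acc = fun N' => (Nat.rec (a.ev κ σ l)
      (fun i acc => min (b.ev κ σ (l ++ [i, acc, min (n.ev κ σ l) κ.cap])) κ.top) N' : ℕ) :=
      ⟨_, rfl⟩
    have hacc0 : acc 0 = a.ev κ σ l := by subst hacc; rfl
    have haccS : ∀ k, acc (k + 1) = min (b.ev κ σ (l ++ [k, acc k, N])) κ.top := by
      intro k; subst hacc hN; rfl
    have haccT : ∀ k, acc k ≤ big a B := by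
      intro k; subst hacc; exact fold_le κ σ n a b l k _ hTB' ha
    have hNcap : N ≤ κ.cap := by rw [hN]; exact min_le_right _ _
    have hgoal : (E.fold n a b).ev κ σ l = acc N := by
      subst hacc hN; rfl
    simp only [compE]
    refine Tr.le (t := tE κ.cap a + (tE κ.cap n + (2 + (1 +
      ((∑ k ∈ Finset.range N, ((tE κ.cap b + (2 + (1 + 1))) + 1) + 1) + 1))))) ?_ ?_
    swap
    · simp only [tE, Finset.sum_const, Finset.card_range, smul_eq_mul]
      have : N * (tE κ.cap b + (2 + (1 + 1)) + 1) ≤ κ.cap * (tE κ.cap b + 5) :=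
        Nat.mul_le_mul hNcap (by omega)
      omega
    refine Tr.seq (iha vars (tgt + 1) M l B hTB hr (by omega)
      (fun y hy => (hv y hy).trans (Nat.lt_succ_self _)) hl hlt) fun M2 h2 => ?_
    have hk2 : Keep (tgt + 1) M M2 := h2.2
    have hs2 : M2.reg (11 + 2 * (tgt + 1)) = acc 0 := by rw [h2.1, hacc0]
    refine Tr.seq (ihn vars (tgt + 2) M2 l B hTB (hk2.rel hr) (by omega)
      (fun y hy => by have := hv y hy; omega)
      (by rw [hk2.vars vars (fun y hy => (hv y hy).trans (Nat.lt_succ_self _))]; exact hl)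
      hlt) fun M3 h3 => ?_
    have hk3 : Keep (tgt + 1) M M3 := hk2.trans (h3.2.weaken (by omega))
    have hs3 : M3.reg (11 + 2 * (tgt + 1)) = acc 0 := by
      rw [h3.2.slot (Nat.lt_succ_self _), hs2]
    have hmin := tr_min (w := w) (inp := inp) (m := m) (r := 11 + 2 * (tgt + 2)) (c := 4)
      (M := M3) (by omega) (hk3.rel hr).r1 (by rw [(hk3.rel hr).r4]; omega)
    refine Tr.seq hmin fun M4 h4 => ?_
    have hk4 : Keep (tgt + 1) M M4 := hk3.trans (h4.2.keep (by omega))
    have hs4 : M4.reg (11 + 2 * (tgt + 1)) = acc 0 := by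
      rw [h4.2.slot (by omega), hs3]
    have hn4 : M4.reg (11 + 2 * (tgt + 2)) = N := by
      rw [h4.1, h3.1, (hk3.rel hr).r4, hN]
    refine Tr.seq (tr_const (i := 11 + 2 * tgt) (v := 0) (Nat.zero_mod _)) fun M5 h5 => ?_
    have hk5 : Keep tgt M M5 := (hk4.weaken (Nat.le_succ _)).trans (h5.2.keep le_rfl)
    have hs5 : M5.reg (11 + 2 * (tgt + 1)) = acc 0 := by
      rw [h5.2.slot (by omega), hs4]
    have hn5 : M5.reg (11 + 2 * (tgt + 2)) = N := by
      rw [h5.2.slot (by omega), hn4]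
    refine Tr.seq (Tr.whl N (fun _ => tE κ.cap b + (2 + (1 + 1)))
      (fun k Mk => Mk.reg (11 + 2 * tgt) = k ∧ Mk.reg (11 + 2 * (tgt + 1)) = acc k ∧
        Mk.reg (11 + 2 * (tgt + 2)) = N ∧ Keep tgt M Mk) ?_ ?_ M5
      ⟨h5.1, hs5, hn5, hk5⟩) fun M6 h6 => ?_
    · intro k hk Mk ⟨i1, i2, i3, i4⟩
      refine ⟨by rw [i1, i3]; exact hk, ?_⟩
      have hlt' : ∀ x ∈ l ++ [k, acc k, N], x ≤ big a B := by
        intro x hx
        rw [List.mem_append] at hx
        rcases hx with hx | hx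
        · exact (hlt x hx).trans hle
        · simp only [List.mem_cons, List.not_mem_nil, or_false] at hx
          have := haccT k
          rcases hx with hx | hx | hx <;> omega
      refine Tr.seq (ihb (vars ++ [tgt, tgt + 1, tgt + 2]) (tgt + 3) Mk (l ++ [k, acc k, N])
        (big a B) hTB' (i4.rel hr) (by omega) ?_ ?_ hlt') fun L1 g1 => ?_
      · intro y hy
        rw [List.mem_append] at hy
        rcases hy with hy | hy
        · have := hv y hy
          omega
        · simp only [List.mem_cons, List.not_mem_nil, or_false] at hy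
          omega
      · rw [List.map_append, i4.vars vars hv, hl]
        simp only [List.map_cons, List.map_nil, i1, i2, i3]
      · have kk1 : Keep tgt M L1 := i4.trans (g1.2.weaken (by omega))
        refine Tr.seq (tr_cut (kk1.rel hr) htop) fun L2 g2 => ?_
        have kk2 : Keep tgt M L2 := kk1.trans (g2.2.keep (by omega))
        have v2 : L2.reg (11 + 2 * (tgt + 3)) = acc (k + 1) := by
          rw [g2.1, g1.1, haccS]
        have u2 : L2.reg (11 + 2 * tgt) = k := by
          rw [g2.2.slot (by omega), g1.2.slot (by omega), i1]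
        have n2 : L2.reg (11 + 2 * (tgt + 2)) = N := by
          rw [g2.2.slot (by omega), g1.2.slot (by omega), i3]
        have hltacc := haccT (k + 1)
        refine Tr.seq (tr_copy (i := 11 + 2 * (tgt + 1)) (j := 11 + 2 * (tgt + 3))
          (kk2.rel hr).r1 (by rw [v2]; omega)) fun L3 g3 => ?_
        have kk3 : Keep tgt M L3 := kk2.trans (g3.2.keep (by omega))
        refine (tr_add (i := 11 + 2 * tgt) (v := k + 1) ?_).post fun L4 g4 => ?_
        · rw [g3.2.slot (by omega), u2, (kk3.rel hr).r2]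
          exact Nat.mod_eq_of_lt (by omega)
        · refine ⟨g4.1, ?_, ?_, kk3.trans (g4.2.keep le_rfl)⟩
          · rw [g4.2.slot (by omega), g3.1, v2]
          · rw [g4.2.slot (by omega), g3.2.slot (by omega), n2]
    · intro Mk ⟨i1, _, i3, _⟩
      rw [i1, i3]
      exact lt_irrefl _
    · obtain ⟨_, i2, _, i4⟩ := h6
      have := haccT N
      refine (tr_copy (i := 11 + 2 * tgt) (j := 11 + 2 * (tgt + 1)) (i4.rel hr).r1
        (by rw [i2]; omega)).post fun M7 h7 => ?_
      refine ⟨?_, i4.trans (h7.2.keep le_rfl)⟩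
      rw [h7.1, i2, hgoal]

/-! ### Compiling statements -/

/-- code for a statement; only slots from `tgt` on are used for intermediate results. -/
def compS : S → ℕ → R
  | .skip, _ => nop
  | .set x e, tgt => .seq (compE e [] tgt)
      (.seq (cut (11 + 2 * tgt)) (.ins (.add (10 + 2 * x) (11 + 2 * tgt) 1)))
  | .st b i e, tgt => .seq (compE i [] tgt)
      (.seq (compE e [] (tgt + 1))
        (.seq (cut (11 + 2 * (tgt + 1)))
          (.ifl (11 + 2 * tgt) 5
            (.seq (.ins (.mul (11 + 2 * tgt) (11 + 2 * tgt) 3))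
              (.seq (.ins (.const 7 b))
                (.seq (.ins (.add (11 + 2 * tgt) (11 + 2 * tgt) 7))
                  (.ins (.store (11 + 2 * tgt) (11 + 2 * (tgt + 1)))))))
            nop)))
  | .seq s t, tgt => .seq (compS s tgt) (compS t tgt)
  | .ite e s t, tgt => .seq (compE e [] tgt)
      (.ifl 1 (11 + 2 * tgt) (compS s tgt) (compS t tgt))
  | .loop x e s, tgt => .seq (compE e [] (tgt + 1))
      (.seq (cut (11 + 2 * (tgt + 1)))
        (.seq (.ins (.const (11 + 2 * tgt) 0))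
          (.whl (11 + 2 * tgt) (11 + 2 * (tgt + 1))
            (.seq (.ins (.add (10 + 2 * x) (11 + 2 * tgt) 1))
              (.seq (compS s (tgt + 2))
                (.ins (.add (11 + 2 * tgt) (11 + 2 * tgt) 2)))))))

/-- bound for all values that occur in the execution of a statement -/
def bigS (T : ℕ) : S → ℕ
  | .skip => T
  | .set _ e => big e T
  | .st _ i e => big i T + big e T + 16 * T + 16
  | .seq s t => bigS T s + bigS T t
  | .ite e s t => big e T + bigS T s + bigS T t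
  | .loop _ e s => big e T + bigS T s

/-- bound for the running time per unit of cost -/
def tS (cap : ℕ) : S → ℕ
  | .skip => 1
  | .set _ e => tE cap e + 3
  | .st _ i e => tE cap i + tE cap e + 7
  | .seq s t => tS cap s + tS cap t
  | .ite e s t => tE cap e + 1 + tS cap s + tS cap t
  | .loop _ e s => tE cap e + tS cap s + 6

theorem bigS_pb (s : S) : PB (fun T => bigS T s) := by
  induction s with
  | skip => exact PB.id
  | set x e => exact big_pb e
  | st b i e => exact (((big_pb i).add (big_pb e)).add ((PB.const 16).mul PB.id)).add (PB.const 16)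
  | seq s t ihs iht => exact ihs.add iht
  | ite e s t ihs iht => exact ((big_pb e).add ihs).add iht
  | loop x e s ihs => exact (big_pb e).add ihs

theorem tS_pb (s : S) : PB (fun cap => tS cap s) := by
  induction s with
  | skip => exact PB.const 1
  | set x e => exact (tE_pb e).add (PB.const 3)
  | st b i e => exact ((tE_pb i).add (tE_pb e)).add (PB.const 7)
  | seq s t ihs iht => exact ihs.add iht
  | ite e s t ihs iht => exact (((tE_pb e).add (PB.const 1)).add ihs).add iht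
  | loop x e s ihs => exact ((tE_pb e).add ihs).add (PB.const 6)

theorem top_le_bigS (T : ℕ) (s : S) : T ≤ bigS T s := by
  induction s with
  | skip => exact le_rfl
  | set x e => exact le_big e T
  | st b i e => simp only [bigS]; omega
  | seq s t ihs iht => simp only [bigS]; omega
  | ite e s t ihs iht => simp only [bigS]; omega
  | loop x e s ihs => simp only [bigS]; omega

theorem Bd.set {κ : Par} {σ : St} (hb : Bd κ σ) (x : ℕ) {v : ℕ} (hv : v ≤ κ.top) :
    Bd κ ⟨Function.update σ.g x v, σ.m⟩ where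
  cap := hb.cap
  lim := hb.lim
  g := fun y => by
    by_cases h : y = x
    · subst h
      simpa using hv
    · simpa [Function.update_of_ne h] using hb.g y
  m := hb.m

theorem run_bd {κ : Par} (s : S) : ∀ σ : St, Bd κ σ → Bd κ (s.run κ σ) := by
  induction s with
  | skip => intro σ hb; exact hb
  | set x e => intro σ hb; exact hb.set x (min_le_right _ _)
  | st b i e =>
    intro σ hb
    simp only [S.run]
    split_ifs with h
    · refine ⟨hb.cap, hb.lim, hb.g, fun b' j => ?_⟩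
      by_cases h1 : b' = b
      · subst h1
        by_cases h2 : j = i.ev κ σ []
        · subst h2
          simp
        · simpa [Function.update_of_ne h2] using hb.m b' j
      · simpa [Function.update_of_ne h1] using hb.m b' j
    · exact hb
  | seq s t ihs iht => intro σ hb; exact iht _ (ihs _ hb)
  | ite e s t ihs iht =>
    intro σ hb
    simp only [S.run]
    split_ifs with h
    · exact iht _ hb
    · exact ihs _ hb
  | loop x e s ihs =>
    intro σ hb
    simp only [S.run]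
    have key : ∀ k ≤ κ.top, Bd κ (Nat.rec σ
        (fun i τ => s.run κ ⟨Function.update τ.g x i, τ.m⟩) k : St) := by
      intro k
      induction k with
      | zero => intro _; exact hb
      | succ k ih =>
        intro hk
        exact ihs _ ((ih (by omega)).set x (by omega))
    exact key _ (min_le_right _ _)

theorem Rel.set {κ : Par} {σ : St} {M M' : Mach} {x v : ℕ} (hr : Rel κ σ M)
    (hv : M'.reg (10 + 2 * x) = v) (ho : Only (10 + 2 * x) M M') :
    Rel κ ⟨Function.update σ.g x v, σ.m⟩ M' where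
  r1 := (ho.2 1 (by omega) (by omega)).trans hr.r1
  r2 := (ho.2 2 (by omega) (by omega)).trans hr.r2
  r3 := (ho.2 3 (by omega) (by omega)).trans hr.r3
  r4 := (ho.2 4 (by omega) (by omega)).trans hr.r4
  r5 := (ho.2 5 (by omega) (by omega)).trans hr.r5
  r6 := (ho.2 6 (by omega) (by omega)).trans hr.r6
  g := fun y => by
    by_cases h : y = x
    · subst h
      simpa using hv
    · rw [ho.2 _ (by omega) (by omega), hr.g y]
      simp [Function.update_of_ne h]
  m := fun b i => by rw [ho.1]; exact hr.m b i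

theorem Rel.store {κ : Par} {σ : St} {M M' : Mach} {b : Fin 16} {i v : ℕ} (hr : Rel κ σ M)
    (hw : M'.work = Function.update M.work (16 * i + b) v) (hreg : M'.reg = M.reg) :
    Rel κ ⟨σ.g, Function.update σ.m b (Function.update (σ.m b) i v)⟩ M' where
  r1 := by rw [hreg]; exact hr.r1
  r2 := by rw [hreg]; exact hr.r2
  r3 := by rw [hreg]; exact hr.r3
  r4 := by rw [hreg]; exact hr.r4
  r5 := by rw [hreg]; exact hr.r5
  r6 := by rw [hreg]; exact hr.r6
  g := fun y => by rw [hreg]; exact hr.g y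
  m := fun b' j => by
    rw [hw]
    have e1 := b.2
    have e2 := b'.2
    by_cases h1 : b' = b
    · subst h1
      by_cases h2 : j = i
      · subst h2
        simp
      · rw [Function.update_of_ne (by omega), hr.m b' j]
        simp [Function.update_of_ne h2]
    · have h1' : (b' : ℕ) ≠ b := fun h => h1 (Fin.ext h)
      rw [Function.update_of_ne (by omega), hr.m b' j]
      simp [Function.update_of_ne h1]

theorem tr_store {i j a v : ℕ} {M : Mach} (ha : M.reg i = a) (hlt : a < m) (hv : M.reg j = v) :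
    Tr w inp m (.ins (.store i j)) 1 M
      (fun M' => M'.work = Function.update M.work a v ∧ M'.reg = M.reg) := by
  refine Tr.ins (by simp only [Instr.within]; rw [ha]; exact hlt) ⟨?_, rfl⟩
  simp only [Instr.exec, ha, hv]

theorem compS_spec {κ : Par} (hinp : κ.inp = fun q => inp q % 2 ^ w)
    (hm : 16 * κ.lim ≤ m) (h16 : 16 < 2 ^ w) (s : S) :
    ∀ (σ : St) (tgt : ℕ) (M : Mach), Bd κ σ → Rel κ σ M → bigS κ.top s < 2 ^ w →
      Tr w inp m (compS s tgt) (s.cost κ σ * tS κ.cap s) M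
        (fun M' => Rel κ (s.run κ σ) M' ∧
          ∀ y < tgt, M'.reg (11 + 2 * y) = M.reg (11 + 2 * y)) := by
  induction s with
  | skip =>
    intro σ tgt M hb hr hB
    refine (tr_nop (r := 0)).mono (by simp [S.cost, tS]) fun M' h => ?_
    have hk : Keep tgt M M' := ⟨h.1, fun q hq _ => h.2 q hq⟩
    exact ⟨hk.rel hr, fun y hy => hk.slot hy⟩
  | set x e =>
    intro σ tgt M hb hr hB
    simp only [bigS] at hB
    have htop : κ.top < 2 ^ w := lt_of_le_of_lt (le_big e _) hB
    simp only [compS]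
    refine Tr.le (t := tE κ.cap e + (2 + 1)) ?_ (by simp only [S.cost, tS]; omega)
    refine Tr.seq (compE_spec hinp hm hb h16 e [] tgt M [] κ.top le_rfl hr hB (by simp) rfl (by simp))
      fun M1 h1 => ?_
    refine Tr.seq (tr_cut (h1.2.rel hr) htop) fun M2 h2 => ?_
    have hk2 : Keep tgt M M2 := h1.2.trans (h2.2.keep le_rfl)
    have hv : M2.reg (11 + 2 * tgt) = min (e.ev κ σ []) κ.top := by rw [h2.1, h1.1]
    refine (tr_copy (hk2.rel hr).r1 (by rw [hv]; omega)).post fun M3 h3 => ?_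
    refine ⟨(hk2.rel hr).set (by rw [h3.1, hv]) h3.2, fun y hy => ?_⟩
    rw [h3.2.2 _ (by omega) (by omega), hk2.slot hy]
  | st b i e =>
    intro σ tgt M hb hr hB
    simp only [bigS] at hB
    have htop : κ.top < 2 ^ w := by omega
    have hlim := hb.lim
    have hb16 := b.2
    simp only [compS]
    refine Tr.le (t := tE κ.cap i + (tE κ.cap e + (2 + ((1 + (1 + (1 + 1))) + 1)))) ?_
      (by simp only [S.cost, tS]; omega)
    refine Tr.seq (compE_spec hinp hm hb h16 i [] tgt M [] κ.top le_rfl hr (by omega) (by simp) rfl (by simp))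
      fun M1 h1 => ?_
    have hr1 := h1.2.rel hr
    refine Tr.seq (compE_spec hinp hm hb h16 e [] (tgt + 1) M1 [] κ.top le_rfl hr1 (by omega) (by simp) rfl
      (by simp)) fun M2 h2 => ?_
    have hk2 : Keep tgt M M2 := h1.2.trans (h2.2.weaken (Nat.le_succ _))
    refine Tr.seq (tr_cut (hk2.rel hr) htop) fun M3 h3 => ?_
    have hk3 : Keep tgt M M3 := hk2.trans (h3.2.keep (Nat.le_succ _))
    have hr3 := hk3.rel hr
    have hi : M3.reg (11 + 2 * tgt) = i.ev κ σ [] := by
      rw [h3.2.slot (by omega), h2.2.slot (by omega), h1.1]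
    have he : M3.reg (11 + 2 * (tgt + 1)) = min (e.ev κ σ []) κ.top := by
      rw [h3.1, h2.1]
    by_cases h : i.ev κ σ [] < κ.lim
    · refine Tr.ifT (by rw [hi, hr3.r5]; exact h) ?_
      refine Tr.le (t := 1 + (1 + (1 + 1))) ?_ (by omega)
      refine Tr.seq (tr_mul (v := i.ev κ σ [] * 16)
        (by rw [hi, hr3.r3]; exact Nat.mod_eq_of_lt (by omega))) fun M4 h4 => ?_
      have hk4 : Keep tgt M M4 := hk3.trans (h4.2.keep le_rfl)
      refine Tr.seq (tr_const (w := w) (v := (b : ℕ)) (Nat.mod_eq_of_lt (by omega)))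
        fun M5 h5 => ?_
      have hk5 : Keep tgt M M5 := hk4.trans ⟨h5.2.1, fun q hq _ => h5.2.2 q hq hq⟩
      have hs5 : M5.reg (11 + 2 * tgt) = i.ev κ σ [] * 16 := by
        rw [h5.2.2 _ (by omega) (by omega), h4.1]
      have he5 : M5.reg (11 + 2 * (tgt + 1)) = min (e.ev κ σ []) κ.top := by
        rw [h5.2.2 _ (by omega) (by omega), h4.2.slot (by omega), he]
      refine Tr.seq (tr_add (v := i.ev κ σ [] * 16 + b)
        (by rw [hs5, h5.1]; exact Nat.mod_eq_of_lt (by omega))) fun M6 h6 => ?_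
      have hk6 : Keep tgt M M6 := hk5.trans (h6.2.keep le_rfl)
      have he6 : M6.reg (11 + 2 * (tgt + 1)) = min (e.ev κ σ []) κ.top := by
        rw [h6.2.slot (by omega), he5]
      refine (tr_store h6.1 (by omega) he6).post fun M7 h7 => ?_
      refine ⟨?_, fun y hy => by rw [h7.2, hk6.slot hy]⟩
      simp only [S.run, if_pos h]
      exact (hk6.rel hr).store (by rw [h7.1, mul_comm]) h7.2
    · refine Tr.ifF (by rw [hi, hr3.r5]; exact h) ?_
      refine (tr_nop (r := 0)).mono (by omega) fun M' h' => ?_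
      have hk : Keep tgt M M' := hk3.trans ⟨h'.1, fun q hq _ => h'.2 q hq⟩
      simp only [S.run, if_neg h]
      exact ⟨hk.rel hr, fun y hy => hk.slot hy⟩
  | seq s t ihs iht =>
    intro σ tgt M hb hr hB
    simp only [bigS] at hB
    simp only [compS]
    refine Tr.le (t := s.cost κ σ * tS κ.cap s + t.cost κ (s.run κ σ) * tS κ.cap t) ?_ ?_
    swap
    · simp only [S.cost, tS]
      nlinarith [Nat.zero_le (s.cost κ σ * tS κ.cap t),
        Nat.zero_le (t.cost κ (s.run κ σ) * tS κ.cap s)]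
    refine Tr.seq (ihs σ tgt M hb hr (by omega)) fun M1 h1 => ?_
    refine (iht _ tgt M1 (run_bd s σ hb) h1.1 (by omega)).post fun M2 h2 => ?_
    exact ⟨h2.1, fun y hy => (h2.2 y hy).trans (h1.2 y hy)⟩
  | ite e s t ihs iht =>
    intro σ tgt M hb hr hB
    simp only [bigS] at hB
    simp only [compS]
    by_cases h : e.ev κ σ [] = 0
    · refine Tr.le (t := tE κ.cap e + (t.cost κ σ * tS κ.cap t + 1)) ?_ ?_
      swap
      · simp only [S.cost, tS, if_pos h]
        nlinarith [Nat.zero_le (t.cost κ σ * tS κ.cap s), Nat.zero_le (t.cost κ σ * tE κ.cap e),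
          Nat.zero_le (tS κ.cap s), Nat.zero_le (tS κ.cap t), Nat.zero_le (t.cost κ σ)]
      refine Tr.seq (compE_spec hinp hm hb h16 e [] tgt M [] κ.top le_rfl hr (by omega) (by simp) rfl
        (by simp)) fun M1 h1 => ?_
      have hr1 := h1.2.rel hr
      refine Tr.ifF (by rw [hr1.r1, h1.1]; omega) ?_
      refine (iht σ tgt M1 hb hr1 (by omega)).post fun M2 h2 => ?_
      simp only [S.run, if_pos h]
      exact ⟨h2.1, fun y hy => (h2.2 y hy).trans (h1.2.slot hy)⟩
    · refine Tr.le (t := tE κ.cap e + (s.cost κ σ * tS κ.cap s + 1)) ?_ ?_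
      swap
      · simp only [S.cost, tS, if_neg h]
        nlinarith [Nat.zero_le (s.cost κ σ * tS κ.cap t), Nat.zero_le (s.cost κ σ * tE κ.cap e),
          Nat.zero_le (tS κ.cap s), Nat.zero_le (tS κ.cap t), Nat.zero_le (s.cost κ σ)]
      refine Tr.seq (compE_spec hinp hm hb h16 e [] tgt M [] κ.top le_rfl hr (by omega) (by simp) rfl
        (by simp)) fun M1 h1 => ?_
      have hr1 := h1.2.rel hr
      refine Tr.ifT (by rw [hr1.r1, h1.1]; omega) ?_
      refine (ihs σ tgt M1 hb hr1 (by omega)).post fun M2 h2 => ?_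
      simp only [S.run, if_neg h]
      exact ⟨h2.1, fun y hy => (h2.2 y hy).trans (h1.2.slot hy)⟩
  | loop x e s ihs =>
    intro σ tgt M hb hr hB
    simp only [bigS] at hB
    have htop : κ.top < 2 ^ w := by have := le_big e κ.top; omega
    obtain ⟨N, hN⟩ : ∃ N, N = min (e.ev κ σ []) κ.top := ⟨_, rfl⟩
    obtain ⟨it, hit⟩ : ∃ it : ℕ → St, it = fun k => (Nat.rec σ
      (fun i τ => s.run κ ⟨Function.update τ.g x i, τ.m⟩) k : St) := ⟨_, rfl⟩
    have hit0 : it 0 = σ := by subst hit; rfl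
    have hitS : ∀ k, it (k + 1) = s.run κ ⟨Function.update (it k).g x k, (it k).m⟩ := by
      intro k; subst hit; rfl
    have hNtop : N ≤ κ.top := by rw [hN]; exact min_le_right _ _
    have hrun : (S.loop x e s).run κ σ = it N := by subst hit hN; rfl
    have hcost : (S.loop x e s).cost κ σ = 1 + ∑ i ∈ Finset.range N,
        (1 + s.cost κ ⟨Function.update (it i).g x i, (it i).m⟩) := by subst hit hN; rfl
    have hbd : ∀ k ≤ κ.top, Bd κ (it k) := by
      intro k
      induction k with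
      | zero => intro _; rw [hit0]; exact hb
      | succ k ih =>
        intro hk
        rw [hitS]
        exact run_bd s _ ((ih (by omega)).set x (by omega))
    simp only [compS]
    refine Tr.le (t := tE κ.cap e + (2 + (1 + (∑ k ∈ Finset.range N,
      ((1 + (s.cost κ ⟨Function.update (it k).g x k, (it k).m⟩ * tS κ.cap s + 1)) + 1) +
        1)))) ?_ ?_
    swap
    · rw [hcost]
      simp only [tS]
      have h1 : ∑ k ∈ Finset.range N,
          ((1 + (s.cost κ ⟨Function.update (it k).g x k, (it k).m⟩ * tS κ.cap s + 1)) + 1) ≤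
          (∑ i ∈ Finset.range N, (1 + s.cost κ ⟨Function.update (it i).g x i, (it i).m⟩)) *
            (tE κ.cap e + tS κ.cap s + 6) := by
        rw [Finset.sum_mul]
        refine Finset.sum_le_sum fun k _ => ?_
        generalize s.cost κ ⟨Function.update (it k).g x k, (it k).m⟩ = c
        nlinarith [Nat.zero_le (c * tE κ.cap e), Nat.zero_le (c * tS κ.cap s),
          Nat.zero_le (tE κ.cap e), Nat.zero_le (tS κ.cap s), Nat.zero_le c]
      rw [add_mul]
      omega
    refine Tr.seq (compE_spec hinp hm hb h16 e [] (tgt + 1) M [] κ.top le_rfl hr (by omega) (by simp) rfl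
      (by simp)) fun M1 h1 => ?_
    refine Tr.seq (tr_cut (h1.2.rel hr) htop) fun M2 h2 => ?_
    have hk2 : Keep (tgt + 1) M M2 := h1.2.trans (h2.2.keep le_rfl)
    have hn2 : M2.reg (11 + 2 * (tgt + 1)) = N := by rw [h2.1, h1.1, hN]
    refine Tr.seq (tr_const (i := 11 + 2 * tgt) (v := 0) (Nat.zero_mod _)) fun M3 h3 => ?_
    have hk3 : Keep tgt M M3 := (hk2.weaken (Nat.le_succ _)).trans (h3.2.keep le_rfl)
    have hn3 : M3.reg (11 + 2 * (tgt + 1)) = N := by rw [h3.2.slot (by omega), hn2]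
    refine (Tr.whl N (fun k =>
      1 + (s.cost κ ⟨Function.update (it k).g x k, (it k).m⟩ * tS κ.cap s + 1))
      (fun k Mk => Mk.reg (11 + 2 * tgt) = k ∧ Mk.reg (11 + 2 * (tgt + 1)) = N ∧
        Rel κ (it k) Mk ∧ ∀ y < tgt, Mk.reg (11 + 2 * y) = M.reg (11 + 2 * y)) ?_ ?_ M3
      ⟨h3.1, hn3, by rw [hit0]; exact hk3.rel hr, fun y hy => hk3.slot hy⟩).post
      fun M4 h4 => ?_
    · intro k hk Mk ⟨i1, i2, i3, i4⟩
      refine ⟨by rw [i1, i2]; exact hk, ?_⟩
      refine Tr.seq (tr_copy (i := 10 + 2 * x) (j := 11 + 2 * tgt) i3.r1 (by rw [i1]; omega))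
        fun L1 g1 => ?_
      have hrel1 : Rel κ ⟨Function.update (it k).g x k, (it k).m⟩ L1 :=
        i3.set (by rw [g1.1, i1]) g1.2
      refine Tr.seq (ihs _ (tgt + 2) L1 ((hbd k (by omega)).set x (by omega)) hrel1
        (by omega)) fun L2 g2 => ?_
      have u2 : L2.reg (11 + 2 * tgt) = k := by
        rw [g2.2 _ (by omega), g1.2.2 _ (by omega) (by omega), i1]
      have n2 : L2.reg (11 + 2 * (tgt + 1)) = N := by
        rw [g2.2 _ (by omega), g1.2.2 _ (by omega) (by omega), i2]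
      refine (tr_add (i := 11 + 2 * tgt) (v := k + 1) ?_).post fun L3 g3 => ?_
      · rw [u2, g2.1.r2]
        exact Nat.mod_eq_of_lt (by omega)
      · refine ⟨g3.1, by rw [g3.2.slot (by omega), n2], ?_, fun y hy => ?_⟩
        · rw [hitS]
          exact (g3.2.keep le_rfl).rel g2.1
        · rw [g3.2.slot (by omega), g2.2 _ (by omega), g1.2.2 _ (by omega) (by omega), i4 y hy]
    · intro Mk ⟨i1, i2, _⟩
      rw [i1, i2]
      exact lt_irrefl _
    · rw [hrun]
      exact ⟨h4.2.2.1, h4.2.2.2⟩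

/-! ### The code is ok -/

theorem nop_ok : nop.ok := by simp [nop, R.ok, Instr.ok]

theorem cut_ok {r : ℕ} (h1 : r ≠ 1) (h2 : r ≠ 2) : (cut r).ok := by
  simp [cut, nop, R.ok, Instr.ok, h1, h2]

theorem compOp_ok (o : Op) {r : ℕ} (q : ℕ) (h1 : r ≠ 1) (h2 : r ≠ 2) : (compOp o r q).ok := by
  cases o <;> simp [compOp, R.ok, Instr.ok, h1, h2]

theorem ins_ok {I : Instr} (h : I.ok) : (R.ins I).ok := h

theorem compE_ok (e : E) : ∀ (vars : List ℕ) (tgt : ℕ), (compE e vars tgt).ok := by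
  induction e with
  | c k =>
    intro vars tgt
    exact ⟨by omega, by omega⟩
  | v x =>
    intro vars tgt
    simp only [compE]
    split
    · exact ⟨by omega, by omega⟩
    · exact ⟨by omega, by omega⟩
  | g x =>
    intro vars tgt
    exact ⟨by omega, by omega⟩
  | inp a iha =>
    intro vars tgt
    exact ⟨iha vars tgt, ⟨by omega, by omega⟩, cut_ok (by omega) (by omega)⟩
  | ld b a iha =>
    intro vars tgt
    exact ⟨iha vars tgt, ⟨⟨by omega, by omega⟩, ⟨by omega, by omega⟩, ⟨by omega, by omega⟩,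
      ⟨by omega, by omega⟩⟩, ⟨by omega, by omega⟩⟩
  | op o a b iha ihb =>
    intro vars tgt
    exact ⟨iha vars tgt, ihb vars (tgt + 1), compOp_ok o _ (by omega) (by omega)⟩
  | ite a b d iha ihb ihd =>
    intro vars tgt
    exact ⟨iha vars tgt, ihb vars tgt, ihd vars tgt⟩
  | lt a b iha ihb =>
    intro vars tgt
    exact ⟨iha vars tgt, ihb _ _, ⟨by omega, by omega⟩⟩
  | fr k f ihf =>
    intro vars tgt
    exact ihf _ _
  | fold n a b ihn iha ihb =>
    intro vars tgt
    exact ⟨iha _ _, ihn _ _,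
      ⟨⟨by omega, by omega⟩, nop_ok⟩, ⟨by omega, by omega⟩,
      ⟨ihb _ _, cut_ok (by omega) (by omega), ⟨by omega, by omega⟩, ⟨by omega, by omega⟩⟩,
      ⟨by omega, by omega⟩⟩

theorem compS_ok (s : S) : ∀ (tgt : ℕ), (compS s tgt).ok := by
  induction s with
  | skip => intro tgt; exact nop_ok
  | set x e =>
    intro tgt
    exact ⟨compE_ok e _ _, cut_ok (by omega) (by omega), ⟨by omega, by omega⟩⟩
  | st b i e =>
    intro tgt
    exact ⟨compE_ok i _ _, compE_ok e _ _, cut_ok (by omega) (by omega),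
      ⟨⟨by omega, by omega⟩, ⟨by omega, by omega⟩, ⟨by omega, by omega⟩, trivial⟩, nop_ok⟩
  | seq s t ihs iht => intro tgt; exact ⟨ihs _, iht _⟩
  | ite e s t ihs iht => intro tgt; exact ⟨compE_ok e _ _, ihs _, iht _⟩
  | loop x e s ihs =>
    intro tgt
    exact ⟨compE_ok e _ _, cut_ok (by omega) (by omega), ⟨by omega, by omega⟩,
      ⟨by omega, by omega⟩, ihs _, ⟨by omega, by omega⟩⟩

/-! ### The prelude -/

/-- initialisation of the registers `3`, `4`, `5`, `6` -/
def pre (Z : ℕ) : R :=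
  .seq (.ins (.const 7 0)) (.seq (.ins (.input 7 7)) (.seq (.ins (.add 8 7 2))
    (.seq (.ins (.const 6 Z)) (.seq (.ins (.mul 6 6 8)) (.ins (.const 3 16))))))

theorem pre_ok (Z : ℕ) : (pre Z).ok := by simp [pre, R.ok, Instr.ok]

theorem pre_spec (Z : ℕ) (hZ : Z < 2 ^ w) (h16 : 16 < 2 ^ w) (hn : inp 0 < 2 ^ w)
    (hn1 : inp 0 + 1 < 2 ^ w) (htop : Z * (inp 0 + 1) < 2 ^ w) :
    Tr w inp m (pre Z) 6 mach0
      (Rel ⟨fun q => inp q % 2 ^ w, 0, 0, Z * (inp 0 + 1)⟩ st0) := by
  refine Tr.le (t := 1 + (1 + (1 + (1 + (1 + 1))))) ?_ (by omega)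
  refine Tr.seq (tr_const (v := 0) (Nat.zero_mod _)) fun M1 h1 => ?_
  refine Tr.seq (tr_input (v := inp 0) (by rw [h1.1]; exact Nat.mod_eq_of_lt hn))
    fun M2 h2 => ?_
  have r2 : M2.reg 2 = 1 := by
    rw [h2.2.2 2 (by omega) (by omega), h1.2.2 2 (by omega) (by omega)]
    simp [mach0]
  refine Tr.seq (tr_add (v := inp 0 + 1) (by rw [h2.1, r2]; exact Nat.mod_eq_of_lt hn1))
    fun M3 h3 => ?_
  refine Tr.seq (tr_const (v := Z) (Nat.mod_eq_of_lt hZ)) fun M4 h4 => ?_
  refine Tr.seq (tr_mul (v := Z * (inp 0 + 1)) ?_) fun M5 h5 => ?_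
  · rw [h4.1, h4.2.2 8 (by omega) (by omega), h3.1]
    exact Nat.mod_eq_of_lt htop
  refine (tr_const (v := 16) (Nat.mod_eq_of_lt h16)).post fun M6 h6 => ?_
  have hq : ∀ q, q ≠ 3 → q ≠ 6 → q ≠ 7 → q ≠ 8 → M6.reg q = mach0.reg q := by
    intro q q3 q6 q7 q8
    rw [h6.2.2 q q3 q7, h5.2.2 q q6 q7, h4.2.2 q q6 q7, h3.2.2 q q8 q7, h2.2.2 q q7 q7,
      h1.2.2 q q7 q7]
  have hz : ∀ q, q ≠ 2 → q ≠ 3 → q ≠ 6 → q ≠ 7 → q ≠ 8 → M6.reg q = 0 := by
    intro q q2 q3 q6 q7 q8
    rw [hq q q3 q6 q7 q8]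
    simp [mach0, Function.update_of_ne q2]
  refine ⟨hz 1 (by omega) (by omega) (by omega) (by omega) (by omega), ?_, h6.1,
    hz 4 (by omega) (by omega) (by omega) (by omega) (by omega),
    hz 5 (by omega) (by omega) (by omega) (by omega) (by omega), ?_, fun x => ?_, fun b i => ?_⟩
  · rw [hq 2 (by omega) (by omega) (by omega) (by omega)]
    simp [mach0]
  · rw [h6.2.2 6 (by omega) (by omega), h5.1]
  · exact hz _ (by omega) (by omega) (by omega) (by omega) (by omega)
  · rw [h6.2.1, h5.2.1, h4.2.1, h3.2.1, h2.2.1, h1.2.1]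
    rfl

/-- the code for a pair of statements -/
def code (s₁ s₂ : S) (Z : ℕ) : R :=
  .seq (pre Z) (.seq (compS s₁ 0) (.seq (.ins (.add 4 12 1)) (.seq (.ins (.add 5 14 1))
    (.seq (compS s₂ 0) (.ins (.add 0 10 1))))))

theorem code_ok (s₁ s₂ : S) (Z : ℕ) : (code s₁ s₂ Z).ok :=
  ⟨pre_ok Z, compS_ok s₁ 0, ⟨by omega, by omega⟩, ⟨by omega, by omega⟩, compS_ok s₂ 0,
    ⟨by omega, by omega⟩⟩

theorem code_spec (s₁ s₂ : S) (Z : ℕ) (κ₁ κ₂ : Par)
    (e₁ : κ₁ = ⟨fun q => inp q % 2 ^ w, 0, 0, Z * (inp 0 + 1)⟩)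
    (e₂ : κ₂ = ⟨fun q => inp q % 2 ^ w, (s₁.run κ₁ st0).g 1, (s₁.run κ₁ st0).g 2,
      Z * (inp 0 + 1)⟩)
    (hm : 16 * κ₂.lim ≤ m) (hZ : Z < 2 ^ w) (h16 : 16 < 2 ^ w) (hn1 : inp 0 + 1 < 2 ^ w)
    (htop : Z * (inp 0 + 1) < 2 ^ w) (hB₁ : bigS (Z * (inp 0 + 1)) s₁ < 2 ^ w)
    (hB₂ : bigS (Z * (inp 0 + 1)) s₂ < 2 ^ w) :
    Tr w inp m (code s₁ s₂ Z) (6 + (s₁.cost κ₁ st0 * tS 0 s₁ + (1 + (1 +
      (s₂.cost κ₂ (s₁.run κ₁ st0) * tS κ₂.cap s₂ + 1))))) mach0
      (fun M => M.reg 0 = (s₂.run κ₂ (s₁.run κ₁ st0)).g 0) := by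
  have hpre := pre_spec (w := w) (inp := inp) (m := m) Z hZ h16 (by omega) hn1 htop
  rw [← e₁] at hpre
  have i₁ : κ₁.inp = fun q => inp q % 2 ^ w := by rw [e₁]
  have i₂ : κ₂.inp = fun q => inp q % 2 ^ w := by rw [e₂]
  have t₁ : κ₁.top = Z * (inp 0 + 1) := by rw [e₁]
  have t₂ : κ₂.top = Z * (inp 0 + 1) := by rw [e₂]
  have c₁ : κ₁.cap = 0 := by rw [e₁]
  have l₁ : κ₁.lim = 0 := by rw [e₁]
  have bd₀ : Bd κ₁ st0 := by
    refine ⟨by rw [c₁]; exact Nat.zero_le _, by rw [l₁]; exact Nat.zero_le _,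
      fun x => Nat.zero_le _, fun b i => Nat.zero_le _⟩
  have bd₁ : Bd κ₁ (s₁.run κ₁ st0) := run_bd s₁ st0 bd₀
  obtain ⟨σ, hσ⟩ : ∃ σ, σ = s₁.run κ₁ st0 := ⟨_, rfl⟩
  rw [← hσ] at bd₁ e₂ ⊢
  have c₂ : κ₂.cap = σ.g 1 := by rw [e₂]
  have l₂ : κ₂.lim = σ.g 2 := by rw [e₂]
  have bd₂ : Bd κ₂ σ := by
    refine ⟨?_, ?_, fun x => ?_, fun b i => ?_⟩
    · rw [c₂, t₂, ← t₁]; exact bd₁.g 1
    · rw [l₂, t₂, ← t₁]; exact bd₁.g 2
    · rw [t₂, ← t₁]; exact bd₁.g x
    · rw [t₂, ← t₁]; exact bd₁.m b i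
  refine Tr.seq hpre fun M1 h1 => ?_
  have hc := compS_spec (w := w) (inp := inp) (m := m) i₁ (by rw [l₁]; omega) h16 s₁ st0 0 M1
    bd₀ h1 (by rw [t₁]; exact hB₁)
  rw [c₁, ← hσ] at hc
  refine Tr.seq hc fun M2 ⟨h2, _⟩ => ?_
  have lt₁ : ∀ x, σ.g x < 2 ^ w := fun x => by
    have := bd₁.g x
    rw [t₁] at this
    omega
  have g1 : M2.reg 12 = σ.g 1 := h2.g 1
  have g2 : M2.reg 14 = σ.g 2 := h2.g 2
  refine Tr.seq (tr_copy h2.r1 (by rw [g1]; exact lt₁ 1)) fun M3 h3 => ?_
  have g2' : M3.reg 14 = σ.g 2 := by rw [h3.2.2 14 (by omega) (by omega), g2]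
  have r1' : M3.reg 1 = 0 := by rw [h3.2.2 1 (by omega) (by omega), h2.r1]
  refine Tr.seq (tr_copy r1' (by rw [g2']; exact lt₁ 2)) fun M4 h4 => ?_
  have hq : ∀ q, q ≠ 4 → q ≠ 5 → q ≠ 7 → M4.reg q = M2.reg q := by
    intro q q4 q5 q7
    rw [h4.2.2 q q5 q7, h3.2.2 q q4 q7]
  have hr4 : Rel κ₂ σ M4 := by
    refine ⟨?_, ?_, ?_, ?_, ?_, ?_, fun x => ?_, fun b i => ?_⟩
    · rw [hq 1 (by omega) (by omega) (by omega), h2.r1]
    · rw [hq 2 (by omega) (by omega) (by omega), h2.r2]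
    · rw [hq 3 (by omega) (by omega) (by omega), h2.r3]
    · rw [h4.2.2 4 (by omega) (by omega), h3.1, g1, c₂]
    · rw [h4.1, g2', l₂]
    · rw [hq 6 (by omega) (by omega) (by omega), h2.r6, t₁, t₂]
    · rw [hq _ (by omega) (by omega) (by omega), h2.g x]
    · rw [h4.2.1, h3.2.1]; exact h2.m b i
  refine Tr.seq (compS_spec (w := w) (inp := inp) (m := m) i₂ hm h16 s₂ σ 0 M4 bd₂ hr4
    (by rw [t₂]; exact hB₂)) fun M5 ⟨h5, _⟩ => ?_
  have g0 : M5.reg 10 = (s₂.run κ₂ σ).g 0 := h5.g 0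
  have lt₂ : (s₂.run κ₂ σ).g 0 < 2 ^ w := by
    have := (run_bd s₂ σ bd₂).g 0
    rw [t₂] at this
    omega
  refine (tr_copy h5.r1 (by rw [g0]; exact lt₂)).post fun M6 h6 => ?_
  rw [h6.1, g0]

end PAdeqAux

open PAdeqAux in
/-- Compilation of a pair of statements to the word RAM. -/
theorem adequacy (s₁ s₂ : S) (Z : ℕ) (hZ : 1 ≤ Z) : ∃ (P : List Instr) (K : ℕ),
    ∀ (w : ℕ) (inp : ℕ → ℕ), K * (Nat.log 2 (inp 0) + 1) ≤ w →
      ∀ κ₁ κ₂ : Par, κ₁ = ⟨fun q => inp q % 2 ^ w, 0, 0, Z * (inp 0 + 1)⟩ →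
      κ₂ = ⟨fun q => inp q % 2 ^ w, (s₁.run κ₁ st0).g 1, (s₁.run κ₁ st0).g 2, Z * (inp 0 + 1)⟩ →
      ∀ m, 16 * κ₂.lim ≤ m → ∃ (T : ℕ) (s' : Config),
        T ≤ K * (s₁.cost κ₁ st0 + s₂.cost κ₂ (s₁.run κ₁ st0) * (κ₂.cap + 1) ^ K + 1) ∧
        Run P w inp m T init s' ∧ P.length ≤ s'.pc ∧
        s'.reg 0 = (s₂.run κ₂ (s₁.run κ₁ st0)).g 0 := by
  obtain ⟨P, K₀, hP⟩ := low_compile (code s₁ s₂ Z) (code_ok s₁ s₂ Z)
  obtain ⟨D₁, hD₁⟩ := bigS_pb s₁
  obtain ⟨D₂, hD₂⟩ := bigS_pb s₂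
  obtain ⟨B, hBt⟩ := tS_pb s₂
  obtain ⟨A, hA⟩ : ∃ A, A = tS 0 s₁ := ⟨_, rfl⟩
  obtain ⟨D, hD⟩ : ∃ D, D = D₁ + D₂ + 16 + Z := ⟨_, rfl⟩
  refine ⟨P, K₀ * (12 + A + B) + B + (Z + 3) * D, fun w inp hw κ₁ κ₂ e₁ e₂ m hm => ?_⟩
  obtain ⟨n, hn⟩ : ∃ n, n = inp 0 := ⟨_, rfl⟩
  obtain ⟨T, hT⟩ : ∃ T, T = Z * (inp 0 + 1) := ⟨_, rfl⟩
  obtain ⟨L, hL⟩ : ∃ L, L = Nat.log 2 (inp 0) + 1 := ⟨_, rfl⟩
  rw [← hL] at hw
  -- the word length is large enough
  have hL1 : 1 ≤ L := by omega
  have hnL : inp 0 + 1 ≤ 2 ^ L := by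
    rw [hL]
    exact Nat.lt_pow_succ_log_self (by norm_num) _
  have hwL : (Z + 3) * D * L ≤ w := by
    refine le_trans (Nat.mul_le_mul (Nat.le_add_left _ _) le_rfl) hw
  have hbound : D * (T + 1) ^ D < 2 ^ w := by
    have h1 : T + 1 ≤ 2 ^ (Z + 1 + L) := by
      have : T + 1 ≤ (Z + 1) * 2 ^ L := by
        rw [hT]
        have : Z * (inp 0 + 1) ≤ Z * 2 ^ L := Nat.mul_le_mul le_rfl hnL
        have h2 : 1 ≤ 2 ^ L := Nat.one_le_two_pow
        rw [add_mul, one_mul]
        omega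
      refine this.trans ?_
      rw [pow_add]
      exact Nat.mul_le_mul Nat.lt_two_pow_self.le le_rfl
    have h2 : D < 2 ^ D := Nat.lt_two_pow_self
    calc D * (T + 1) ^ D ≤ D * (2 ^ (Z + 1 + L)) ^ D :=
          Nat.mul_le_mul le_rfl (Nat.pow_le_pow_left h1 D)
      _ < 2 ^ D * (2 ^ (Z + 1 + L)) ^ D :=
          Nat.mul_lt_mul_of_pos_right h2 (pow_pos (pow_pos (by norm_num) _) _)
      _ = 2 ^ (D + (Z + 1 + L) * D) := by rw [← pow_mul, ← pow_add]
      _ ≤ 2 ^ ((Z + 3) * D * L) := by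
          refine Nat.pow_le_pow_right (by norm_num) ?_
          have h3 : D * (Z + 2) * 1 ≤ D * (Z + 2) * L := Nat.mul_le_mul le_rfl hL1
          have h4 : D + (Z + 1 + L) * D = D * (Z + 2) * 1 + D * L := by ring
          have h5 : (Z + 3) * D * L = D * (Z + 2) * L + D * L := by ring
          omega
      _ ≤ 2 ^ w := Nat.pow_le_pow_right (by norm_num) hwL
  have hpow : 1 ≤ (T + 1) ^ D := Nat.one_le_pow _ _ (Nat.succ_pos _)
  have hDle : D ≤ D * (T + 1) ^ D := Nat.le_mul_of_pos_right _ hpow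
  have hD1 : 1 ≤ D := by omega
  have hTle : T + 1 ≤ D * (T + 1) ^ D := by
    calc T + 1 = 1 * (T + 1) ^ 1 := by ring
      _ ≤ D * (T + 1) ^ D := Nat.mul_le_mul hD1 (Nat.pow_le_pow_right (Nat.succ_pos _) hD1)
  have hnT : inp 0 + 1 ≤ T := by
    rw [hT]
    exact Nat.le_mul_of_pos_left _ hZ
  have hB₁ : bigS T s₁ < 2 ^ w :=
    lt_of_le_of_lt ((hD₁ T).trans (PB.up (by omega) T)) hbound
  have hB₂ : bigS T s₂ < 2 ^ w :=
    lt_of_le_of_lt ((hD₂ T).trans (PB.up (by omega) T)) hbound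
  have hw1 : 1 ≤ w := by
    have : 1 * 1 * 1 ≤ (Z + 3) * D * L :=
      Nat.mul_le_mul (Nat.mul_le_mul (by omega) hD1) hL1
    omega
  rw [hT] at hB₁ hB₂
  obtain ⟨t, ht, M, hx, hM⟩ := code_spec (w := w) (inp := inp) (m := m) s₁ s₂ Z κ₁ κ₂ e₁ e₂ hm
    (by omega) (by omega) (by omega) (by rw [← hT]; omega) hB₁ hB₂
  obtain ⟨T', s', h1, h2, h3, h4, -⟩ := hP w inp m t M hw1 hx
  refine ⟨T', s', h1.trans ?_, h2, h3, by rw [h4]; exact hM⟩
  -- running time
  generalize s₁.cost κ₁ st0 = c₁ at ht ⊢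
  generalize s₂.cost κ₂ (s₁.run κ₁ st0) = c₂ at ht ⊢
  generalize κ₂.cap = q at ht ⊢
  have hpq : ∀ {a b : ℕ}, a ≤ b → (q + 1) ^ a ≤ (q + 1) ^ b :=
    fun h => Nat.pow_le_pow_right (Nat.succ_pos _) h
  obtain ⟨K, hK⟩ : ∃ K, K = K₀ * (12 + A + B) + B + (Z + 3) * D := ⟨_, rfl⟩
  rw [← hK]
  rw [← hA] at ht
  have hBK : B ≤ K := by omega
  have hcB : c₂ * tS q s₂ ≤ B * (c₂ * (q + 1) ^ K) := by
    calc c₂ * tS q s₂ ≤ c₂ * (B * (q + 1) ^ B) := Nat.mul_le_mul le_rfl (hBt q)
      _ ≤ c₂ * (B * (q + 1) ^ K) :=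
          Nat.mul_le_mul le_rfl (Nat.mul_le_mul le_rfl (hpq hBK))
      _ = B * (c₂ * (q + 1) ^ K) := by ring
  have hfin : t + 1 ≤ (12 + A + B) * (c₁ + c₂ * (q + 1) ^ K + 1) := by
    generalize c₂ * (q + 1) ^ K = y at hcB ⊢
    have e : (12 + A + B) * (c₁ + y + 1) =
        c₁ * A + B * y + 12 + (12 * c₁ + B * c₁ + 12 * y + A * y + A + B) := by ring
    rw [e]
    omega
  calc K₀ * (t + 1) ≤ K₀ * ((12 + A + B) * (c₁ + c₂ * (q + 1) ^ K + 1)) :=
        Nat.mul_le_mul le_rfl hfin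
    _ = K₀ * (12 + A + B) * (c₁ + c₂ * (q + 1) ^ K + 1) := by ring
    _ ≤ K * (c₁ + c₂ * (q + 1) ^ K + 1) := Nat.mul_le_mul (by rw [hK]; omega) le_rfl

end Pool.Agent.MP9d6bd1
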