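import Mathlib
import Pool.Agent.Lib.MP_9d6bd1_lc.Fun

/-!
# MP_9d6bd1_lc: the program

Constants: `C` gadget constant, `KE` bound for the number of edges, `K₁` bound for the number of
marked vertices, `C₁` bound for the number of new vertices, `p₀, M₀, KL` parameters of the
preamble.
-/

set_option autoImplicit false

namespace Pool.Agent.MP9d6bd1

open E S

/-- sequence -/
def seqs : List S → S
  | [] => .skip
  | [s] => s
  | s :: t => .seq s (seqs t)

/-- bit `i` of bank `b` becomes `v` -/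
def setb (b : Fin 16) (i v : E) : S :=
  .st b (i / .g 8) (.ld b (i / .g 8) - call1 (bitE b) i * .ld 11 (i % .g 8) +
    v * .ld 11 (i % .g 8))

/-- clear the first `n` bits of bank `b` -/
def clr (b : Fin 16) (n : E) : S := .loop 23 (n / .g 8 + 1) (.st b (.g 23) 0)

/-! ### marking -/

/-- choice of the clusters in `X` -/
def decS : S := .loop 21 (.g 3) (.ite (and (call1 lowE (.g 21)) (eqn (call1 idE (.g 21)) (.g 21)))
  (seqs [.set 35 (call1 dcE (.g 21)), setb 5 (.g 21) (.g 35), setb 4 (.g 21) 1]) .skip)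

/-- new kept bits -/
def nkS : S := .loop 21 (.g 3) (.loop 24 (.g 4)
  (seqs [.set 35 (call2 nkE (.g 21) (.g 24)), setb 3 (.g 21 * .g 4 + .g 24) (.g 35)]))

/-- one round -/
def roundS : S := seqs [clr 4 (.g 3), clr 5 (.g 3), decS, nkS,
  .loop 23 (.g 3 * .g 4 / .g 8 + 1) (.st 2 (.g 23) (.ld 3 (.g 23)))]

/-- marks -/
def markS : S := .loop 21 (.g 3)
  (seqs [.set 35 (call1 mkE (.g 21)), setb 6 (.g 21) (.g 35)])

/-- partition and marks -/
def partS : S := seqs [clr 2 (.g 3 * .g 4), clr 3 (.g 3 * .g 4), clr 6 (.g 3),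
  .loop 22 (.g 7) roundS, markS]

/-- rank directory -/
def rankS : S := seqs [.set 11 0, .loop 21 (.g 3) (seqs [
  .ite (eqn (.g 21 % .g 9) 0) (.st 7 (.g 21 / .g 9) (.g 11)) .skip,
  .set 11 (.g 11 + call1 (bitE 6) (.g 21))])]

/-! ### the new graph -/

/-- new edge -/
def appS (x y : E) : S := .ite (less (.g 13) (.g 14))
  (seqs [.st 8 (.g 13) x, .st 9 (.g 13) y, .set 13 (.g 13 + 1)]) (.set 10 1)

/-- name of the local vertex `a` of the piece of the global variable `21` in the new graph -/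
def nameE (a : E) : E := .ite (less a (.g 28)) (call1 rkE (call2 elT (.g 21) a))
  (.g 12 + (a - .g 28))

/-- edges of the pieces with at least three attachments and of the bad ones with two -/
def emitA (C : ℕ) : S := .loop 21 (.g 3)
  (.ite (and (neg (call1 (bitE 6) (.g 21))) (eqn (call1 piE (.g 21)) (.g 21)))
    (seqs [.set 28 (call1 pkE (.g 21)), .set 29 (call1 plE (.g 21)),
      .set 30 (call3 cdE (.g 21) (.g 28) (.g 29)),
      .ite (call4 npE (.g 28) (.g 29) (.g 30) 0) (.set 10 1)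
        (.ite (less (.g 28) 2) .skip
          (.ite (and (eqn (.g 28) 2) (neg (call4 npE (.g 28) (.g 29) (.g 30) 2))) .skip
            (seqs [.ite (less (.g 29) (.c C * (.g 28 + 1))) (.set 31 (.g 29))
                (.set 31 (.c C * (.g 28 + 1))),
              .set 32 (call4 bfE (.g 28) (.g 29) (.g 31) (.g 30)),
              .loop 25 (.g 28 + .g 31) (.loop 26 (.g 25)
                (.ite (call4 acE (.g 28 + .g 31) (.g 32) (.g 25) (.g 26))
                  (appS (nameE (.g 25)) (nameE (.g 26))) .skip)),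
              .set 12 (.g 12 + .g 31)])))]) .skip)

/-- edge from the vertex `21` to the vertex `z`, at most once -/
def onceS (z : E) : S := .ite (eqn (.ld 10 (call1 rkE z)) (.g 21 + 1)) .skip
  (seqs [.st 10 (call1 rkE z) (.g 21 + 1), appS (call1 rkE (.g 21)) (call1 rkE z)])

/-- edges between marked vertices and of the good pieces with two attachments -/
def emitB : S := seqs [.loop 23 (.g 11) (.st 10 (.g 23) 0),
  .loop 21 (.g 3) (.ite (call1 (bitE 6) (.g 21)) (.loop 24 (call1 dgE (.g 21))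
    (seqs [.set 27 (call2 nbE (.g 21) (.g 24)),
      .ite (call1 (bitE 6) (.g 27)) (.ite (less (.g 21) (.g 27)) (onceS (.g 27)) .skip)
        (seqs [.set 28 (call1 pkE (.g 27)),
          .ite (and (eqn (.g 28) 2) (eqn (call2 elT (.g 27) 0) (.g 21)))
            (seqs [.set 29 (call1 plE (.g 27)), .set 30 (call3 cdE (.g 27) (.g 28) (.g 29)),
              .ite (call4 npE (.g 28) (.g 29) (.g 30) 2) .skip (seqs [
                .set 33 (call2 elT (.g 27) 1), onceS (.g 33)])]) .skip])])) .skip)]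

/-- adjacency arrays of the new graph (counting sort), which becomes the current graph -/
def buildS : S := seqs [.loop 23 (.g 12 + 1) (.st 12 (.g 23) 0),
  .loop 23 (.g 13) (seqs [.st 12 (.ld 8 (.g 23)) (.ld 12 (.ld 8 (.g 23)) + 1),
    .st 12 (.ld 9 (.g 23)) (.ld 12 (.ld 9 (.g 23)) + 1)]),
  .st 1 0 (.g 12), .st 1 1 (.g 12 + 2),
  .loop 23 (.g 12) (seqs [.st 1 (.g 23 + 2) (.ld 1 (.g 23 + 1) + .ld 12 (.g 23)),
    .st 12 (.g 23) (.ld 1 (.g 23 + 1))]),
  .loop 23 (.g 13) (seqs [.st 1 (.ld 12 (.ld 8 (.g 23))) (.ld 9 (.g 23)),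
    .st 12 (.ld 8 (.g 23)) (.ld 12 (.ld 8 (.g 23)) + 1),
    .st 1 (.ld 12 (.ld 9 (.g 23))) (.ld 8 (.g 23)),
    .st 12 (.ld 9 (.g 23)) (.ld 12 (.ld 9 (.g 23)) + 1)]),
  .loop 23 (.g 12 + 2 + 2 * .g 13) (.st 0 (.g 23) (.ld 1 (.g 23))),
  .set 3 (.g 12), .set 20 0]

/-- one reduction -/
def reduceS (C KE K₁ C₁ : ℕ) : S := seqs [partS, rankS,
  .ite (less (.c K₁ * .g 3) (.g 11 * .g 9)) (.set 10 1)
    (seqs [.set 12 (.g 11), .set 13 0, .set 14 (.c KE * .g 11), emitA C,
      .ite (.g 10) .skip (seqs [emitB,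
        .ite (or (.g 10) (less (.c C₁ * .g 11) (.g 12))) (.set 10 1) buildS])])]

/-- main part -/
def mainS (C KE K₁ C₁ : ℕ) : S := seqs [.st 11 0 1,
  .loop 23 (.g 8) (.st 11 (.g 23 + 1) (2 * .ld 11 (.g 23))),
  .loop 34 (.g 8 + 1) (.ite (.g 10) .skip (reduceS C KE K₁ C₁)),
  .set 0 (neg (.g 10))]

/-! ### the preamble -/

/-- global variable `y` := `log₂` of global variable `x` -/
def logS (x y : ℕ) : S := seqs [.set y 0, .set 35 1,
  .loop 23 (.g x) (.ite (less (.g x) (2 * .g 35)) .skip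
    (seqs [.set 35 (2 * .g 35), .set y (.g y + 1)]))]

/-- preamble: parameters -/
def preS (p₀ M₀ KL : ℕ) : S := seqs [.set 3 (.inp 0), logS 3 37, logS 37 38, logS 38 39,
  logS 39 40, logS 40 41, logS 41 42, .set 9 (.c p₀ + .g 42), .set 4 (.g 9), .set 7 (24 * .g 9),
  .set 5 1, .loop 23 (.g 7) (.set 5 (.g 5 + .g 4 * .g 5 * .g 5)),
  .set 6 1, .loop 23 (.g 5) (.set 6 (.g 6 * (.g 4 + 1))), .set 8 (.g 37 + 1),
  .set 1 (.c M₀ + .g 38), .set 2 (.c KL * (.g 3 / .g 9 + .g 37 + .g 1 + 1)), .set 20 1,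
  .set 10 (less (6 * .g 3) (.inp (.g 3 + 1) - .inp 1))]

end Pool.Agent.MP9d6bd1
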