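import Mathlib
import Pool.Agent.Lib.MP_9d6bd1_lc.Stm
import Pool.Agent.Lib.MP_9d6bd1_lc.EvLib

/-!
# MP_9d6bd1_lc: rules for statements
-/

set_option autoImplicit false

namespace Pool.Agent.MP9d6bd1

/-- the expression only uses the global variables in `G` and the banks in `B` -/
def E.uses (G : ℕ → Bool) (B : Fin 16 → Bool) : E → Bool
  | .c _ => true
  | .v _ => true
  | .g x => G x
  | .inp a => a.uses G B
  | .ld b a => B b && a.uses G B
  | .op _ a b => a.uses G B && b.uses G B
  | .ite a b d => a.uses G B && (b.uses G B && d.uses G B)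
  | .lt a b => a.uses G B && b.uses G B
  | .fr _ f => f.uses G B
  | .fold n a b => n.uses G B && (a.uses G B && b.uses G B)

theorem ev_congr (G : ℕ → Bool) (B : Fin 16 → Bool) (κ : Par) (σ τ : St)
    (hg : ∀ x, G x = true → σ.g x = τ.g x) (hm : ∀ b, B b = true → σ.m b = τ.m b) (e : E)
    (he : e.uses G B = true) : ∀ l, e.ev κ σ l = e.ev κ τ l := by
  induction e with
  | c k => intro l; rfl
  | v x => intro l; rfl
  | g x => intro l; exact hg x he
  | inp a ih => intro l; simp only [E.ev, ih he l]
  | ld b a ih =>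
    intro l
    simp only [E.uses, Bool.and_eq_true] at he
    simp only [E.ev, ih he.2 l, hm b he.1]
  | op o a b iha ihb =>
    intro l
    simp only [E.uses, Bool.and_eq_true] at he
    simp only [E.ev, iha he.1 l, ihb he.2 l]
  | ite a b d iha ihb ihd =>
    intro l
    simp only [E.uses, Bool.and_eq_true] at he
    simp only [E.ev, iha he.1 l, ihb he.2.1 l, ihd he.2.2 l]
  | lt a b iha ihb =>
    intro l
    simp only [E.uses, Bool.and_eq_true] at he
    simp only [E.ev, iha he.1 l, ihb he.2]
  | fr k f ih => intro l; simp only [E.ev, ih he]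
  | fold n a b ihn iha ihb =>
    intro l
    simp only [E.uses, Bool.and_eq_true] at he
    simp only [E.ev, ihn he.1 l, iha he.2.1 l, ihb he.2.2]

/-- two states agree outside of the global variables in `G` and the banks in `B` -/
def Same (G : List ℕ) (B : List (Fin 16)) (σ τ : St) : Prop :=
  (∀ x, x ∉ G → τ.g x = σ.g x) ∧ ∀ b, b ∉ B → τ.m b = σ.m b

theorem Same.refl (G : List ℕ) (B : List (Fin 16)) (σ : St) : Same G B σ σ :=
  ⟨fun _ _ => rfl, fun _ _ => rfl⟩

theorem Same.trans {G : List ℕ} {B : List (Fin 16)} {σ τ ρ : St} (h : Same G B σ τ)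
    (h' : Same G B τ ρ) : Same G B σ ρ :=
  ⟨fun x hx => (h'.1 x hx).trans (h.1 x hx), fun b hb => (h'.2 b hb).trans (h.2 b hb)⟩

theorem Same.mono {G G' : List ℕ} {B B' : List (Fin 16)} {σ τ : St} (h : Same G B σ τ)
    (hG : G ⊆ G') (hB : B ⊆ B') : Same G' B' σ τ :=
  ⟨fun x hx => h.1 x fun h' => hx (hG h'), fun b hb => h.2 b fun h' => hb (hB h')⟩

/-- the statement only writes to the global variables in `G` and the banks in `B` -/
def S.writes (G : List ℕ) (B : List (Fin 16)) : S → Bool
  | .skip => true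
  | .set x _ => decide (x ∈ G)
  | .st b _ _ => decide (b ∈ B)
  | .seq s t => s.writes G B && t.writes G B
  | .ite _ s t => s.writes G B && t.writes G B
  | .loop x _ s => decide (x ∈ G) && s.writes G B

theorem run_same (G : List ℕ) (B : List (Fin 16)) (κ : Par) (s : S)
    (hs : s.writes G B = true) : ∀ σ, Same G B σ (s.run κ σ) := by
  induction s with
  | skip => intro σ; exact Same.refl G B σ
  | set x e =>
    intro σ
    simp only [S.writes, decide_eq_true_eq] at hs
    refine ⟨fun y hy => ?_, fun _ _ => rfl⟩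
    have : y ≠ x := fun h => hy (h ▸ hs)
    simp [S.run, this]
  | st b i e =>
    intro σ
    simp only [S.writes, decide_eq_true_eq] at hs
    simp only [S.run]
    split_ifs
    · refine ⟨fun _ _ => rfl, fun y hy => ?_⟩
      have : y ≠ b := fun h => hy (h ▸ hs)
      simp [this]
    · exact Same.refl G B σ
  | seq s t ihs iht =>
    intro σ
    simp only [S.writes, Bool.and_eq_true] at hs
    exact (ihs hs.1 σ).trans (iht hs.2 _)
  | ite e s t ihs iht =>
    intro σ
    simp only [S.writes, Bool.and_eq_true] at hs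
    simp only [S.run]
    split_ifs
    · exact iht hs.2 σ
    · exact ihs hs.1 σ
  | loop x e s ih =>
    intro σ
    simp only [S.writes, Bool.and_eq_true, decide_eq_true_eq] at hs
    simp only [S.run]
    generalize min (e.ev κ σ []) κ.top = n
    induction n with
    | zero => exact Same.refl G B σ
    | succ n ihn =>
      refine Same.trans ihn (Same.trans ?_ (ih hs.2 _))
      refine ⟨fun y hy => ?_, fun _ _ => rfl⟩
      have : y ≠ x := fun h => hy (h ▸ hs.1)
      simp [this]

/-- invariants of loops: `I i` holds before iteration `i` -/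
theorem loop_inv (κ : Par) (x : ℕ) (e : E) (s : S) (σ : St) (n : ℕ)
    (hn : min (e.ev κ σ []) κ.top = n) (I : ℕ → St → Prop) (h0 : I 0 σ)
    (hs : ∀ i < n, ∀ τ, I i τ → I (i + 1) (s.run κ ⟨Function.update τ.g x i, τ.m⟩)) :
    I n ((S.loop x e s).run κ σ) := by
  simp only [S.run, hn]
  have : ∀ i ≤ n, I i (Nat.rec σ (fun i τ => s.run κ ⟨Function.update τ.g x i, τ.m⟩) i : St) := by
    intro i hi
    induction i with
    | zero => exact h0
    | succ i ih => exact hs i (by omega) _ (ih (by omega))
  exact this n le_rfl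

/-- cost of loops -/
theorem loop_cost (κ : Par) (x : ℕ) (e : E) (s : S) (σ : St) (n : ℕ)
    (hn : min (e.ev κ σ []) κ.top = n) (I : ℕ → St → Prop) (c : ℕ → ℕ) (h0 : I 0 σ)
    (hs : ∀ i < n, ∀ τ, I i τ → I (i + 1) (s.run κ ⟨Function.update τ.g x i, τ.m⟩) ∧
      s.cost κ ⟨Function.update τ.g x i, τ.m⟩ ≤ c i) :
    (S.loop x e s).cost κ σ ≤ 1 + ∑ i ∈ Finset.range n, (1 + c i) := by
  simp only [S.cost, hn]
  have : ∀ i ≤ n, I i (Nat.rec σ (fun i τ => s.run κ ⟨Function.update τ.g x i, τ.m⟩) i : St) := by
    intro i hi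
    induction i with
    | zero => exact h0
    | succ i ih => exact (hs i (by omega) _ (ih (by omega))).1
  refine Nat.add_le_add_left (Finset.sum_le_sum fun i hi => ?_) 1
  have hi' := Finset.mem_range.mp hi
  exact Nat.add_le_add_left (hs i hi' _ (this i hi'.le)).2 1

/-- cost of loops with a uniform bound that does not depend on the state -/
theorem loop_cost_const (κ : Par) (x : ℕ) (e : E) (s : S) (σ : St) (n c : ℕ)
    (hn : min (e.ev κ σ []) κ.top ≤ n) (hs : ∀ τ, s.cost κ τ ≤ c) :
    (S.loop x e s).cost κ σ ≤ 1 + n * (1 + c) := by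
  have h := loop_cost κ x e s σ _ rfl (fun _ _ => True) (fun _ => c) trivial
    (fun i _ τ _ => ⟨trivial, hs _⟩)
  refine h.trans (Nat.add_le_add_left ?_ 1)
  rw [Finset.sum_const, Finset.card_range, smul_eq_mul]
  exact Nat.mul_le_mul_right _ hn

end Pool.Agent.MP9d6bd1
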