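import Mathlib
import Pool.Agent.Lib.MP_9d6bd1_lc.GDefs
import Pool.Agent.Lib.MP_9d6bd1_lc.Codes
import Pool.Agent.Lib.MP_9d6bd1_lc.Stm

/-!
# MP_9d6bd1_lc: definitions for the specifications
-/

set_option autoImplicit false

open Classical

namespace Pool.Agent.MP9d6bd1

/-- a (multi-)graph given by lists: number of vertices, length of the list of `u`, entry `j` of
the list of `u` -/
structure FG where
  /-- number of vertices -/
  N : ℕ
  /-- lengths of the lists -/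
  deg : ℕ → ℕ
  /-- entries -/
  nb : ℕ → ℕ → ℕ

namespace FG

/-- number of entries `v` in the list of `u` -/
def cnt (F : FG) (u v : ℕ) : ℕ := ((Finset.range (F.deg u)).filter fun j => F.nb u j = v).card

/-- symmetric, without loops -/
structure Ok (F : FG) : Prop where
  lt : ∀ u < F.N, ∀ j < F.deg u, F.nb u j < F.N
  ne : ∀ u < F.N, ∀ j < F.deg u, F.nb u j ≠ u
  symm : ∀ u < F.N, ∀ v < F.N, F.cnt u v = F.cnt v u

/-- total number of entries -/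
def W (F : FG) : ℕ := ∑ u ∈ Finset.range F.N, F.deg u

/-- the graph -/
def gr (F : FG) : SimpleGraph ℕ :=
  SimpleGraph.fromRel fun u v => u < F.N ∧ v < F.N ∧ ∃ j < F.deg u, F.nb u j = v

/-- entries between vertices of degree at most `D` -/
noncomputable def ents (F : FG) (D : ℕ) : Finset (ℕ × ℕ) :=
  (Finset.range F.N ×ˢ Finset.range D).filter fun p =>
    F.deg p.1 ≤ D ∧ p.2 < F.deg p.1 ∧ F.deg (F.nb p.1 p.2) ≤ D

/-- number of entries from the class `c` to the class `d` of the labelling `lab` -/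
noncomputable def wt (F : FG) (D : ℕ) (lab : ℕ → ℕ) (c d : ℕ) : ℕ :=
  ((F.ents D).filter fun p => lab p.1 = c ∧ lab (F.nb p.1 p.2) = d).card

/-- number of entries between different classes -/
noncomputable def WI (F : FG) (D : ℕ) (lab : ℕ → ℕ) : ℕ :=
  ((F.ents D).filter fun p => lab p.1 ≠ lab (F.nb p.1 p.2)).card

/-- the class of the label `c` -/
def cls (F : FG) (D : ℕ) (lab : ℕ → ℕ) (c : ℕ) : Set ℕ := {u | u < F.N ∧ F.deg u ≤ D ∧ lab u = c}

end FG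

/-- reachability -/
def reach (r : ℕ → ℕ → Prop) (u : ℕ) : Set ℕ := {y | Relation.ReflTransGen r u y}

/-- bound for the size of the clusters after `j` rounds -/
def BB (D : ℕ) : ℕ → ℕ
  | 0 => 1
  | j + 1 => BB D j + D * BB D j * BB D j

/-- the current graph -/
def cur (κ : Par) (σ : St) : FG :=
  ⟨σ.g 3, fun u => dgE.ev κ σ [u], fun u j => nbE.ev κ σ [u, j]⟩

/-- bit `i` of the bit array in bank `b` -/
def bt (κ : Par) (σ : St) (b : Fin 16) (i : ℕ) : ℕ := (bitE b).ev κ σ [i]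

/-- the parameters are consistent -/
structure POk (κ : Par) (σ : St) : Prop where
  D1 : 1 ≤ σ.g 4
  L1 : 1 ≤ σ.g 5
  X : σ.g 6 = (σ.g 4 + 1) ^ σ.g 5
  J : σ.g 7 ≤ κ.cap
  B1 : 1 ≤ σ.g 9
  B2 : σ.g 9 ≤ κ.cap
  cap : 2 ^ (3 * ((σ.g 4 + 1) * σ.g 5 + 6) ^ 2) ≤ κ.cap
  top : 4 * κ.cap ≤ κ.top
  N : 2 * σ.g 3 + 2 ≤ κ.top
  q1 : 1 ≤ σ.g 8
  q2 : 2 ^ σ.g 8 ≤ κ.top
  q3 : σ.g 8 < κ.lim
  pow : ∀ r ≤ σ.g 8, σ.m 11 r = 2 ^ r

/-! ### clusters -/

/-- step along a kept entry -/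
def kst (κ : Par) (σ : St) (u y : ℕ) : Prop :=
  ∃ j < σ.g 4, bt κ σ 2 (u * σ.g 4 + j) ≠ 0 ∧ (cur κ σ).nb u j = y

/-- the cluster of `u` -/
def KC (κ : Par) (σ : St) (u : ℕ) : Set ℕ := reach (kst κ σ) u

/-- least vertex of the cluster of `u` -/
noncomputable def cid (κ : Par) (σ : St) (u : ℕ) : ℕ := sInf (KC κ σ u)

/-- the kept bits describe clusters of size at most `b` -/
structure KOk (κ : Par) (σ : St) (b : ℕ) : Prop where
  val : ∀ u < σ.g 3, ∀ j < σ.g 4, bt κ σ 2 (u * σ.g 4 + j) ≠ 0 →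
    (cur κ σ).deg u ≤ σ.g 4 ∧ j < (cur κ σ).deg u ∧ (cur κ σ).deg ((cur κ σ).nb u j) ≤ σ.g 4
  symm : ∀ u < σ.g 3, ∀ y, kst κ σ u y → kst κ σ y u
  size : ∀ u < σ.g 3, (KC κ σ u).ncard ≤ b

/-- the cluster `a` is merged into the cluster `b` -/
def mrg (κ : Par) (σ : St) (a b : ℕ) : Prop :=
  bt κ σ 5 a ≠ 0 ∧ hvE.ev κ σ [a] = b ∧ bt κ σ 5 b = 0

/-! ### pieces -/

/-- the marked vertices -/
def Rm (κ : Par) (σ : St) : Set ℕ := {u | u < σ.g 3 ∧ bt κ σ 6 u ≠ 0}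

/-- step to an unmarked vertex -/
def ust (κ : Par) (σ : St) (u y : ℕ) : Prop :=
  ∃ j < (cur κ σ).deg u, (cur κ σ).nb u j = y ∧ y ∉ Rm κ σ

/-- the piece of `u` -/
def PC (κ : Par) (σ : St) (u : ℕ) : Set ℕ := reach (ust κ σ) u

/-- the marks cut the graph into small pieces -/
structure ROk (κ : Par) (σ : St) : Prop where
  deg : ∀ u < σ.g 3, u ∉ Rm κ σ → (cur κ σ).deg u ≤ σ.g 4
  size : ∀ u < σ.g 3, u ∉ Rm κ σ → (PC κ σ u).ncard ≤ σ.g 5

end Pool.Agent.MP9d6bd1
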