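import Mathlib
import Pool.Agent.Lib.MP_9d6bd1_lc.Spec
import Pool.Agent.Lib.MP_9d6bd1_lc.RunLib

/-!
# MP_9d6bd1_lc: definitions for the specifications, part 2 (pieces and the new graph)
-/

set_option autoImplicit false

open Classical

namespace Pool.Agent.MP9d6bd1

/-- number of marked vertices less than `u` -/
noncomputable def rank (κ : Par) (σ : St) (u : ℕ) : ℕ := (Rm κ σ ∩ {x | x < u}).ncard

/-- the rank directory is correct -/
structure RkOk (κ : Par) (σ : St) : Prop where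
  rk : ∀ u < σ.g 3, rkE.ev κ σ [u] = rank κ σ u
  NR : σ.g 11 = (Rm κ σ).ncard

/-- the attachments of the piece of `u` -/
def TT (κ : Par) (σ : St) (u : ℕ) : Set ℕ :=
  {y | y ∈ Rm κ σ ∧ ∃ w ∈ PC κ σ u, ∃ j < (cur κ σ).deg w, (cur κ σ).nb w j = y}

/-- the least vertices of the pieces -/
noncomputable def Pcs (κ : Par) (σ : St) : Finset ℕ :=
  (Finset.range (σ.g 3)).filter fun u => u ∉ Rm κ σ ∧ sInf (PC κ σ u) = u

/-- number of attachments -/
noncomputable def kk (κ : Par) (σ : St) (u : ℕ) : ℕ := (TT κ σ u).ncard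

/-- number of vertices -/
noncomputable def ll (κ : Par) (σ : St) (u : ℕ) : ℕ := (PC κ σ u).ncard

/-- code -/
noncomputable def cc (κ : Par) (σ : St) (u : ℕ) : ℕ := cdE.ev κ σ [u, kk κ σ u, ll κ σ u]

/-- name of the local vertex `a` -/
noncomputable def nmf (κ : Par) (σ : St) (u a : ℕ) : ℕ := nmE.ev κ σ [u, kk κ σ u, a]

/-- number of new vertices of the gadget -/
noncomputable def lg (C : ℕ) (κ : Par) (σ : St) (u : ℕ) : ℕ :=
  min (ll κ σ u) (C * (kk κ σ u + 1))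

/-- the gadget (as a graph on `0, ..., k+l'-1`) -/
noncomputable def gadg (C : ℕ) (κ : Par) (σ : St) (u : ℕ) : SimpleGraph ℕ :=
  cg (kk κ σ u + lg C κ σ u)
    (bfE.ev κ σ [kk κ σ u, ll κ σ u, lg C κ σ u, cc κ σ u])

/-- the piece is not planar -/
def isBad (κ : Par) (σ : St) (u : ℕ) : Prop := npE.ev κ σ [kk κ σ u, ll κ σ u, cc κ σ u, 0] ≠ 0

/-- the piece is replaced by an edge -/
def isThin (κ : Par) (σ : St) (u : ℕ) : Prop :=
  kk κ σ u = 2 ∧ npE.ev κ σ [kk κ σ u, ll κ σ u, cc κ σ u, 2] = 0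

/-- the piece is replaced by a gadget -/
def isGad (κ : Par) (σ : St) (u : ℕ) : Prop := 2 ≤ kk κ σ u ∧ ¬ isThin κ σ u

/-- the pieces that are replaced by gadgets -/
noncomputable def Gds (κ : Par) (σ : St) : Finset ℕ := (Pcs κ σ).filter fun u => isGad κ σ u

/-- number of the first new vertex of the gadget of `u` -/
noncomputable def base (C : ℕ) (κ : Par) (σ : St) (u : ℕ) : ℕ :=
  (Rm κ σ).ncard + ∑ v ∈ (Gds κ σ).filter (fun v => v < u), lg C κ σ v

/-- name of the local vertex `a` of the gadget of `u` in the new graph -/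
noncomputable def newn (C : ℕ) (κ : Par) (σ : St) (u a : ℕ) : ℕ :=
  if a < kk κ σ u then rank κ σ (nmf κ σ u a) else base C κ σ u + (a - kk κ σ u)

/-- number of edges of the gadget -/
noncomputable def ecount (C : ℕ) (κ : Par) (σ : St) (u : ℕ) : ℕ := (gadg C κ σ u).edgeSet.ncard

/-- pairs of marked vertices joined by an edge in the new graph (apart from gadgets) -/
def prs (κ : Par) (σ : St) : Set (Sym2 ℕ) :=
  {e | ∃ a b, a ≠ b ∧ a ∈ Rm κ σ ∧ b ∈ Rm κ σ ∧ e = s(a, b) ∧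
    ((cur κ σ).gr.Adj a b ∨ ∃ u ∈ Pcs κ σ, isThin κ σ u ∧ TT κ σ u = {a, b})}

/-- the list of edges contains the edge `x y` -/
def LE (σ : St) (x y : ℕ) : Prop :=
  ∃ e < σ.g 13, (σ.m 8 e = x ∧ σ.m 9 e = y) ∨ (σ.m 8 e = y ∧ σ.m 9 e = x)

/-- the new graph -/
noncomputable def newG (C : ℕ) (κ : Par) (σ : St) : SimpleGraph ℕ :=
  SimpleGraph.fromRel fun x y =>
    (∃ u ∈ Gds κ σ, ∃ a b, (gadg C κ σ u).Adj a b ∧ x = newn C κ σ u a ∧ y = newn C κ σ u b) ∨
    (∃ a b, s(a, b) ∈ prs κ σ ∧ x = rank κ σ a ∧ y = rank κ σ b)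

end Pool.Agent.MP9d6bd1
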