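import Mathlib
import Pool.Agent.Lib.MP_9d6bd1_lc.Spec2

/-!
# MP_9d6bd1_lc: definitions for the specifications, part 3 (the main loop)
-/

set_option autoImplicit false

open Classical

namespace Pool.Agent.MP9d6bd1

/-- numerical conditions on the parameters (`n` = number of vertices of the current graph) -/
structure NumOk (KE K₁ C₁ : ℕ) (κ : Par) (n p L J X q : ℕ) : Prop where
  p1 : 1 ≤ p
  hL : BB p (24 * p) ≤ L
  L1 : 1 ≤ L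
  hX : X = (p + 1) ^ L
  hJ : J = 24 * p
  J2 : 24 * p ≤ κ.cap
  hcap : 2 ^ (3 * ((p + 1) * L + 6) ^ 2) ≤ κ.cap
  htop : 4 * κ.cap ≤ κ.top
  hN : 2 * n + 2 ≤ κ.top
  q1 : 1 ≤ q
  q2 : 2 ^ q ≤ κ.top
  q3 : q < κ.lim
  p2 : 2 * C₁ * K₁ ≤ p
  lim1 : n * p / q < κ.lim
  lim2 : n / p < κ.lim
  lim3 : (C₁ + 2 * KE + 1) * (K₁ * n / p) + 2 < κ.lim
  lim4 : κ.lim ≤ κ.top

/-- invariant of the main loop -/
structure MOk (KE K₁ C₁ : ℕ) (κ : Par) (σ : St) : Prop where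
  num : NumOk KE K₁ C₁ κ (σ.g 3) (σ.g 4) (σ.g 5) (σ.g 7) (σ.g 6) (σ.g 8)
  h9 : σ.g 9 = σ.g 4
  hpow : ∀ r ≤ σ.g 8, σ.m 11 r = 2 ^ r
  hbits : ∀ c ∈ [2, 3, 4, 5, 6], ∀ r, σ.m c r < 2 ^ σ.g 8
  hok : (cur κ σ).Ok
  hW : (cur κ σ).W ≤ 2 * KE * σ.g 3

/-- the parameter `p` for inputs with `n` vertices -/
def pp (p₀ n : ℕ) : ℕ := p₀ + (Nat.log 2)^[6] n

/-- the iteration bound for inputs with `n` vertices -/
def pcap (M₀ n : ℕ) : ℕ := M₀ + Nat.log 2 (Nat.log 2 n)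

/-- the memory limit for inputs with `n` vertices -/
def plim (p₀ M₀ KL n : ℕ) : ℕ := KL * (n / pp p₀ n + Nat.log 2 n + pcap M₀ n + 1)

end Pool.Agent.MP9d6bd1
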