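import Mathlib
import Pool.Agent.Lib.MP_9d6bd1_lc.Spec3
import Pool.Agent.Lib.MP_9d6bd1_lc.GMinor
import Pool.Agent.Lib.MP_9d6bd1_lc.GEuler

/-!
# MP_9d6bd1_lc: the input graph
-/

set_option autoImplicit false

open Classical

namespace Pool.Agent.MP9d6bd1

namespace PInputAux

variable {n : ℕ} {G : SimpleGraph (Fin n)} {inp : ℕ → ℕ}

theorem inp_mono (hG : AdjArrays G inp) (u v : ℕ) (h : u ≤ v) (hv : v ≤ n) :
    inp (u + 1) ≤ inp (v + 1) := by
  induction h with
  | refl => exact le_rfl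
  | step _ ih => exact (ih (by omega)).trans (hG.mono _ (by omega))

/-- the number of entries in the list of `u` -/
theorem entries (hG : AdjArrays G inp) (u : Fin n) :
    inp (u + 2) - inp (u + 1) = G.degree u := by
  rw [← Nat.card_Ico, ← SimpleGraph.card_neighborFinset_eq_degree]
  refine Finset.card_bij (fun p hp => ⟨inp p, hG.mem u p (Finset.mem_Ico.mp hp).1
    (Finset.mem_Ico.mp hp).2⟩) ?_ ?_ ?_
  · intro p hp
    rw [SimpleGraph.mem_neighborFinset, hG.adj]
    exact ⟨p, (Finset.mem_Ico.mp hp).1, (Finset.mem_Ico.mp hp).2, rfl⟩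
  · intro p hp q hq h
    exact hG.inj u p q (Finset.mem_Ico.mp hp).1 (Finset.mem_Ico.mp hp).2
      (Finset.mem_Ico.mp hq).1 (Finset.mem_Ico.mp hq).2 (Fin.mk.inj h)
  · intro v hv
    rw [SimpleGraph.mem_neighborFinset, hG.adj] at hv
    obtain ⟨p, h1, h2, h3⟩ := hv
    exact ⟨p, Finset.mem_Ico.mpr ⟨h1, h2⟩, Fin.ext h3⟩

theorem sum_entries (hG : AdjArrays G inp) (m : ℕ) (hm : m ≤ n) :
    ∑ u ∈ Finset.range m, (inp (u + 2) - inp (u + 1)) = inp (m + 1) - inp 1 := by
  induction m with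
  | zero => simp
  | succ m ih =>
    rw [Finset.sum_range_succ, ih (by omega)]
    have h1 := hG.mono m (by omega)
    have h2 := inp_mono hG 0 m (by omega) (by omega)
    simp only [zero_add] at h2
    rw [show m + 1 + 1 = m + 2 from rfl]
    omega

theorem not_planar (hG : AdjArrays G inp) (h : 6 * n < inp (n + 1) - inp 1) : ¬ Planar G := by
  intro hp
  have h1 := planar_edges G hp
  have h2 : G.support.ncard ≤ n := by
    have := Set.ncard_le_card G.support
    simpa using this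
  have h3 : G.edgeSet.ncard = G.edgeFinset.card := by
    rw [← SimpleGraph.coe_edgeFinset, Set.ncard_coe_finset]
  have h4 := G.sum_degrees_eq_twice_card_edges
  rw [← sum_entries hG n le_rfl, Finset.sum_range] at h
  have h5 : ∑ i : Fin n, (inp (↑i + 2) - inp (↑i + 1)) = ∑ i : Fin n, G.degree i :=
    Finset.sum_congr rfl fun i _ => entries hG i
  rw [h5, h4] at h
  omega

end PInputAux

open PInputAux in
theorem input_spec (n : ℕ) (G : SimpleGraph (Fin n)) (inp : ℕ → ℕ) (hG : AdjArrays G inp)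
    (κ : Par) (σ : St) (h3 : σ.g 3 = n) (h20 : σ.g 20 = 1)
    (hk : ∀ a ≤ 8 * n + 8, inp a ≤ κ.top → κ.inp a = inp a)
    (ht : 8 * n + 8 ≤ κ.top) :
    (inp (n + 1) - inp 1 ≤ 6 * n → (cur κ σ).Ok ∧ (cur κ σ).W ≤ 6 * n ∧
      (Planar (cur κ σ).gr ↔ Planar G)) ∧
    (6 * n < inp (n + 1) - inp 1 → ¬ Planar G) := by
  refine ⟨fun hE => ?_, not_planar hG⟩
  have hst := hG.start
  have hlast : inp (n + 1) ≤ 7 * n + 2 := by omega
  have hh : ∀ v ≤ n, n + 2 ≤ inp (v + 1) ∧ inp (v + 1) ≤ 7 * n + 2 := by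
    intro v hv
    have h1 := inp_mono hG 0 v (by omega) hv
    have h2 := inp_mono hG v n hv le_rfl
    simp only [zero_add] at h1
    omega
  have hr : ∀ v ≤ n, min (κ.inp (v + 1)) κ.top = inp (v + 1) := by
    intro v hv
    have h1 := hh v hv
    rw [hk (v + 1) (by omega) (by omega), min_eq_left (by omega)]
  have hN : (cur κ σ).N = n := h3
  have hdeg : ∀ u < n, (cur κ σ).deg u = inp (u + 2) - inp (u + 1) := by
    intro u hu
    have h1 := hr u hu.le
    have h2 := hr (u + 1) hu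
    simp only [cur, dgE, rdE, ev_sub, ev_call1, ev_ite, ev_g, h20, ev_v, ev_add, ev_inp,
      ev_ofNat]
    simp only [List.getD_cons_zero, one_ne_zero, if_false, h1]
    rw [show u + 2 = u + 1 + 1 by ring, h2]
  have hnb : ∀ u < n, ∀ j < inp (u + 2) - inp (u + 1),
      (cur κ σ).nb u j = inp (inp (u + 1) + j) := by
    intro u hu j hj
    have h1 := hr u hu.le
    have h2 := hh (u + 1) hu
    have h4 := hG.mem ⟨u, hu⟩ (inp (u + 1) + j) (by simp) (by simp only; omega)
    simp only [cur, nbE, rdE, ev_call1, ev_ite, ev_g, h20, ev_v, ev_add, ev_inp, ev_one]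
    simp only [List.getD_cons_zero, List.getD_cons_succ, one_ne_zero, if_false, h1]
    have h5 : u + 1 + 1 = u + 2 := rfl
    rw [h5] at h2
    rw [hk (inp (u + 1) + j) (by omega) (by omega), min_eq_left (by omega)]
  have hmem : ∀ (u v : ℕ) (hu : u < n) (hv : v < n), (∃ j < (cur κ σ).deg u,
      (cur κ σ).nb u j = v) ↔ G.Adj ⟨u, hu⟩ ⟨v, hv⟩ := by
    intro u v hu hv
    rw [hG.adj, hdeg u hu]
    constructor
    · rintro ⟨j, hj, h⟩
      rw [hnb u hu j hj] at h
      exact ⟨inp (u + 1) + j, by simp, by simp only; omega, h⟩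
    · rintro ⟨p, h1, h2, h⟩
      simp only at h1 h2
      refine ⟨p - inp (u + 1), by omega, ?_⟩
      rw [hnb u hu _ (by omega)]
      rw [Nat.add_sub_cancel' h1]
      exact h
  have hlt : ∀ u < n, ∀ j < (cur κ σ).deg u, (cur κ σ).nb u j < n := by
    intro u hu j hj
    rw [hdeg u hu] at hj
    rw [hnb u hu j hj]
    exact hG.mem ⟨u, hu⟩ _ (by simp) (by simp only; omega)
  have hcnt : ∀ (u v : ℕ) (hu : u < n) (hv : v < n), (cur κ σ).cnt u v =
      if G.Adj ⟨u, hu⟩ ⟨v, hv⟩ then 1 else 0 := by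
    intro u v hu hv
    by_cases h : G.Adj ⟨u, hu⟩ ⟨v, hv⟩
    · rw [if_pos h]
      obtain ⟨j, hj, h1⟩ := (hmem u v hu hv).mpr h
      rw [FG.cnt, Finset.card_eq_one]
      refine ⟨j, ?_⟩
      ext i
      simp only [Finset.mem_filter, Finset.mem_range, Finset.mem_singleton]
      constructor
      · rintro ⟨hi, h2⟩
        rw [hdeg u hu] at hi hj
        rw [hnb u hu i hi] at h2
        rw [hnb u hu j hj] at h1
        have := hG.inj ⟨u, hu⟩ (inp (u + 1) + i) (inp (u + 1) + j) (by simp) (by simp only; omega)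
          (by simp) (by simp only; omega) (h2.trans h1.symm)
        omega
      · rintro rfl
        exact ⟨hj, h1⟩
    · rw [if_neg h, FG.cnt, Finset.card_eq_zero, Finset.filter_eq_empty_iff]
      intro j hj h1
      exact h ((hmem u v hu hv).mp ⟨j, Finset.mem_range.mp hj, h1⟩)
  refine ⟨⟨?_, ?_, ?_⟩, ?_, ?_⟩
  · intro u hu j hj
    rw [hN] at hu ⊢
    exact hlt u hu j hj
  · intro u hu j hj h
    rw [hN] at hu
    exact G.loopless.irrefl _ ((hmem u u hu hu).mp ⟨j, hj, h⟩)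
  · intro u hu v hv
    rw [hN] at hu hv
    rw [hcnt u v hu hv, hcnt v u hv hu]
    simp only [G.adj_comm]
  · rw [FG.W, hN]
    refine le_trans (le_of_eq ?_) hE
    rw [← sum_entries hG n le_rfl]
    exact Finset.sum_congr rfl fun u hu => hdeg u (Finset.mem_range.mp hu)
  · have hgr : (cur κ σ).gr = G.map Fin.valEmbedding := by
      ext x y
      rw [FG.gr, SimpleGraph.fromRel_adj, hN, SimpleGraph.map_adj]
      constructor
      · rintro ⟨-, ⟨hx, hy, h⟩ | ⟨hy, hx, h⟩⟩
        · exact ⟨⟨x, hx⟩, ⟨y, hy⟩, (hmem x y hx hy).mp h, rfl, rfl⟩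
        · exact ⟨⟨x, hx⟩, ⟨y, hy⟩, ((hmem y x hy hx).mp h).symm, rfl, rfl⟩
      · rintro ⟨u, v, h, rfl, rfl⟩
        refine ⟨fun h1 => h.ne (Fin.ext h1), Or.inl ⟨u.2, v.2, (hmem u v u.2 v.2).mpr h⟩⟩
    rw [hgr]
    exact planar_embed G Fin.valEmbedding

end Pool.Agent.MP9d6bd1
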