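import Mathlib
import Pool.Agent.Lib.MP_9d6bd1_lc.Spec2

/-!
# MP_9d6bd1_lc: the counting sort that builds the new graph
-/

set_option autoImplicit false

open Classical

namespace Pool.Agent.MP9d6bd1

namespace PBuildAux

/-! ### pure part -/

/-- partners of `x` in the first `e` edges, in order -/
noncomputable def L (X Y : ℕ → ℕ) : ℕ → ℕ → List ℕ
  | 0, _ => []
  | e + 1, x => (L X Y e x ++ if X e = x then [Y e] else []) ++ if Y e = x then [X e] else []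

/-- degree -/
noncomputable def dd (X Y : ℕ → ℕ) (e x : ℕ) : ℕ := (L X Y e x).length

/-- start of the list of `x` -/
noncomputable def start (X Y : ℕ → ℕ) (NV EC x : ℕ) : ℕ :=
  NV + 2 + ∑ y ∈ Finset.range x, dd X Y EC y

variable (X Y : ℕ → ℕ)

theorem dd_zero (x : ℕ) : dd X Y 0 x = 0 := rfl

theorem dd_succ (e x : ℕ) : dd X Y (e + 1) x =
    dd X Y e x + (if X e = x then 1 else 0) + (if Y e = x then 1 else 0) := by
  simp only [dd, L, List.length_append]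
  split_ifs <;> simp

theorem dd_mono (x : ℕ) {e e' : ℕ} (h : e ≤ e') : dd X Y e x ≤ dd X Y e' x := by
  induction h with
  | refl => exact le_rfl
  | step _ ih => rw [dd_succ]; omega

theorem sum_dd (NV e : ℕ) (h : ∀ i < e, X i < NV ∧ Y i < NV) :
    ∑ x ∈ Finset.range NV, dd X Y e x = 2 * e := by
  induction e with
  | zero => simp [dd_zero]
  | succ e ih =>
    simp only [dd_succ, Finset.sum_add_distrib]
    rw [ih fun i hi => h i (by omega)]
    have h1 := h e (by omega)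
    simp [h1.1, h1.2]
    ring

theorem dd_le (e x : ℕ) : dd X Y e x ≤ 2 * e := by
  induction e with
  | zero => simp [dd_zero]
  | succ e ih => rw [dd_succ]; split_ifs <;> omega

theorem start_succ (NV EC x : ℕ) :
    start X Y NV EC (x + 1) = start X Y NV EC x + dd X Y EC x := by
  simp [start, Finset.sum_range_succ, add_assoc]

theorem start_zero (NV EC : ℕ) : start X Y NV EC 0 = NV + 2 := by simp [start]

theorem start_mono (NV EC : ℕ) {x y : ℕ} (h : x ≤ y) :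
    start X Y NV EC x ≤ start X Y NV EC y := by
  induction h with
  | refl => exact le_rfl
  | step _ ih => rw [start_succ]; omega

theorem start_le (NV EC x : ℕ) (hx : x ≤ NV) (h : ∀ i < EC, X i < NV ∧ Y i < NV) :
    start X Y NV EC x ≤ NV + 2 + 2 * EC := by
  refine (start_mono X Y NV EC hx).trans ?_
  rw [start, sum_dd X Y NV EC h]

theorem le_start (NV EC x : ℕ) : NV + 2 ≤ start X Y NV EC x := by
  rw [start]; omega

theorem disj (NV EC x y j k : ℕ) (hxy : x ≠ y) (hj : j < dd X Y EC x) (hk : k < dd X Y EC y) :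
    start X Y NV EC x + j ≠ start X Y NV EC y + k := by
  rcases lt_or_gt_of_ne hxy with h | h
  · have h1 := start_mono X Y NV EC (show x + 1 ≤ y by omega)
    rw [start_succ] at h1
    omega
  · have h1 := start_mono X Y NV EC (show y + 1 ≤ x by omega)
    rw [start_succ] at h1
    omega

theorem mem_L (e x y : ℕ) : y ∈ L X Y e x ↔
    ∃ i < e, (X i = x ∧ Y i = y) ∨ (X i = y ∧ Y i = x) := by
  induction e with
  | zero => simp [L]
  | succ e ih =>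
    simp only [L, List.mem_append, ih]
    constructor
    · rintro ((⟨i, hi, h⟩ | h) | h)
      · exact ⟨i, by omega, h⟩
      · refine ⟨e, by omega, Or.inl ?_⟩
        split_ifs at h with h1
        · exact ⟨h1, (List.mem_singleton.mp h).symm⟩
        · simp at h
      · refine ⟨e, by omega, Or.inr ?_⟩
        split_ifs at h with h1
        · exact ⟨(List.mem_singleton.mp h).symm, h1⟩
        · simp at h
    · rintro ⟨i, hi, h⟩
      rcases Nat.lt_succ_iff_lt_or_eq.mp hi with h1 | h1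
      · exact Or.inl (Or.inl ⟨i, h1, h⟩)
      · subst h1
        rcases h with h | h
        · exact Or.inl (Or.inr (by simp [h.1, h.2]))
        · exact Or.inr (by simp [h.1, h.2])

theorem count_L (e x y : ℕ) : (L X Y e x).count y = (L X Y e y).count x := by
  induction e with
  | zero => simp [L]
  | succ e ih =>
    simp only [L, List.count_append, ih]
    by_cases h1 : X e = x <;> by_cases h2 : Y e = y <;> by_cases h3 : X e = y <;>
      by_cases h4 : Y e = x <;> simp_all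

theorem card_count (l : List ℕ) (v : ℕ) :
    ((Finset.range l.length).filter fun j => l.getD j 0 = v).card = l.count v := by
  induction l using List.reverseRecOn with
  | nil => simp
  | append_singleton l a ih =>
    rw [List.length_append, List.length_singleton, Finset.range_add_one, Finset.filter_insert,
      List.count_append, ← ih]
    have h1 : (l ++ [a]).getD l.length 0 = a := by simp
    have h2 : (Finset.range l.length).filter (fun j => (l ++ [a]).getD j 0 = v) =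
        (Finset.range l.length).filter fun j => l.getD j 0 = v := by
      refine Finset.filter_congr fun j hj => ?_
      have hj' := Finset.mem_range.mp hj
      rw [List.getD_append _ _ _ _ hj']
    rw [h1, h2]
    by_cases h : a = v
    · rw [if_pos h, Finset.card_insert_of_notMem (by simp)]
      simp [h]
    · rw [if_neg h]
      simp [h]

/-! ### program part -/

theorem run_st (κ : Par) (σ : St) (b : Fin 16) (i e : E) (p v : ℕ) (hi : i.ev κ σ [] = p)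
    (he : e.ev κ σ [] = v) (h1 : p < κ.lim) (h2 : v ≤ κ.top) :
    (S.st b i e).run κ σ =
      ⟨σ.g, Function.update σ.m b (Function.update (σ.m b) p v)⟩ := by
  simp only [S.run, hi, he, if_pos h1, min_eq_left h2]

theorem seqs_cons (s t : S) (l : List S) : seqs (s :: t :: l) = .seq s (seqs (t :: l)) := rfl

theorem seqs_one (s : S) : seqs [s] = s := rfl

theorem run_seq (κ : Par) (σ : St) (s t : S) : (S.seq s t).run κ σ = t.run κ (s.run κ σ) := rfl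

theorem same_upd (B : List (Fin 16)) (τ : St) (i : ℕ) :
    Same [23] B τ ⟨Function.update τ.g 23 i, τ.m⟩ := by
  refine ⟨fun x hx => ?_, fun _ _ => rfl⟩
  have : x ≠ 23 := by simpa using hx
  simp [this]

/-- statements of the loops -/
def b1 : S := .st 12 (.g 23) 0

/-- second loop -/
def b2 : S := seqs [.st 12 (.ld 8 (.g 23)) (.ld 12 (.ld 8 (.g 23)) + 1),
    .st 12 (.ld 9 (.g 23)) (.ld 12 (.ld 9 (.g 23)) + 1)]

/-- third loop -/
def b3 : S := seqs [.st 1 (.g 23 + 2) (.ld 1 (.g 23 + 1) + .ld 12 (.g 23)),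
    .st 12 (.g 23) (.ld 1 (.g 23 + 1))]

/-- fourth loop -/
def b4 : S := seqs [.st 1 (.ld 12 (.ld 8 (.g 23))) (.ld 9 (.g 23)),
    .st 12 (.ld 8 (.g 23)) (.ld 12 (.ld 8 (.g 23)) + 1),
    .st 1 (.ld 12 (.ld 9 (.g 23))) (.ld 8 (.g 23)),
    .st 12 (.ld 9 (.g 23)) (.ld 12 (.ld 9 (.g 23)) + 1)]

/-- fifth loop -/
def b5 : S := .st 0 (.g 23) (.ld 1 (.g 23))

theorem build_eq : buildS = seqs [.loop 23 (.g 12 + 1) b1, .loop 23 (.g 13) b2,
  .st 1 0 (.g 12), .st 1 1 (.g 12 + 2), .loop 23 (.g 12) b3, .loop 23 (.g 13) b4,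
  .loop 23 (.g 12 + 2 + 2 * .g 13) b5, .set 3 (.g 12), .set 20 0] := rfl

theorem loop1 (κ : Par) (σ : St) (hl : σ.g 12 + 1 ≤ κ.lim) (ht : κ.lim ≤ κ.top) :
    Same [23] [12] σ ((S.loop 23 (.g 12 + 1) b1).run κ σ) ∧
      ∀ x < σ.g 12 + 1, ((S.loop 23 (.g 12 + 1) b1).run κ σ).m 12 x = 0 := by
  refine loop_inv κ 23 _ _ σ (σ.g 12 + 1) (by simp; omega)
    (fun i τ => Same [23] [12] σ τ ∧ ∀ x < i, τ.m 12 x = 0) ⟨Same.refl _ _ _, by simp⟩ ?_
  rintro i hi τ ⟨h1, h2⟩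
  refine ⟨(h1.trans (same_upd _ τ i)).trans (run_same _ _ κ b1 (by decide) _), ?_⟩
  rw [b1, run_st κ _ _ _ _ i 0 (by simp) (by simp) (by omega) (by omega)]
  intro x hx
  by_cases h : x = i
  · simp [h]
  · simp [h, h2 x (by omega)]

theorem loop2 (κ : Par) (σ τ₀ : St) (hl : σ.g 12 + 2 + 2 * σ.g 13 < κ.lim) (ht : κ.lim ≤ κ.top)
    (he : ∀ e < σ.g 13, σ.m 8 e < σ.g 12 ∧ σ.m 9 e < σ.g 12 ∧ σ.m 8 e ≠ σ.m 9 e)
    (hs : Same [23] [12] σ τ₀) (h0 : ∀ x < σ.g 12 + 1, τ₀.m 12 x = 0) :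
    Same [23] [12] σ ((S.loop 23 (.g 13) b2).run κ τ₀) ∧
      ∀ x < σ.g 12, ((S.loop 23 (.g 13) b2).run κ τ₀).m 12 x =
        dd (σ.m 8) (σ.m 9) (σ.g 13) x := by
  have h13 : τ₀.g 13 = σ.g 13 := hs.1 13 (by decide)
  refine loop_inv κ 23 _ _ τ₀ (σ.g 13) (by rw [ev_g, h13]; omega)
    (fun i τ => Same [23] [12] σ τ ∧ ∀ x < σ.g 12, τ.m 12 x = dd (σ.m 8) (σ.m 9) i x)
    ⟨hs, fun x hx => by rw [h0 x (by omega), dd_zero]⟩ ?_
  rintro i hi τ ⟨h1, h2⟩
  refine ⟨(h1.trans (same_upd _ τ i)).trans (run_same _ _ κ b2 (by decide) _), ?_⟩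
  obtain ⟨e1, e2, e3⟩ := he i hi
  have m8 : τ.m 8 = σ.m 8 := h1.2 8 (by decide)
  have m9 : τ.m 9 = σ.m 9 := h1.2 9 (by decide)
  have hb := dd_le (σ.m 8) (σ.m 9) i (σ.m 8 i)
  have hb' := dd_le (σ.m 8) (σ.m 9) i (σ.m 9 i)
  have hi' : i < κ.lim := by omega
  have r1 : (E.ld 8 (.g 23)).ev κ ⟨Function.update τ.g 23 i, τ.m⟩ [] = σ.m 8 i := by
    simp [hi', m8]
  rw [b2, seqs_cons, seqs_one, run_seq, run_st κ _ 12 (.ld 8 (.g 23)) _ (σ.m 8 i) (dd (σ.m 8) (σ.m 9) i (σ.m 8 i) + 1)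
    r1 (by rw [ev_add, ev_ld, r1, if_pos (by omega)]; simp [h2 _ e1]) (by omega) (by omega)]
  have r2 : (E.ld 9 (.g 23)).ev κ ⟨Function.update τ.g 23 i, Function.update τ.m 12
      (Function.update (τ.m 12) (σ.m 8 i) (dd (σ.m 8) (σ.m 9) i (σ.m 8 i) + 1))⟩ [] = σ.m 9 i := by
    simp [hi', m9]
  rw [run_st κ _ 12 (.ld 9 (.g 23)) _ (σ.m 9 i) (dd (σ.m 8) (σ.m 9) i (σ.m 9 i) + 1)
    r2 (by rw [ev_add, ev_ld, r2, if_pos (by omega)]; simp [h2 _ e2, Ne.symm e3])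
    (by omega) (by omega)]
  intro x hx
  rw [dd_succ]
  by_cases c1 : x = σ.m 8 i
  · have c2 : x ≠ σ.m 9 i := fun h => e3 (c1.symm.trans h)
    simp [c1, e3, Ne.symm e3]
  · by_cases c2 : x = σ.m 9 i
    · simp [c2, e3]
    · simp [c1, c2, Ne.symm c1, Ne.symm c2, h2 x hx]

theorem loop3 (κ : Par) (σ τ₀ : St) (hl : σ.g 12 + 2 + 2 * σ.g 13 < κ.lim) (ht : κ.lim ≤ κ.top)
    (he : ∀ e < σ.g 13, σ.m 8 e < σ.g 12 ∧ σ.m 9 e < σ.g 12 ∧ σ.m 8 e ≠ σ.m 9 e)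
    (hs : Same [23] [1, 12] σ τ₀)
    (h0 : ∀ x < σ.g 12, τ₀.m 12 x = dd (σ.m 8) (σ.m 9) (σ.g 13) x)
    (h1 : τ₀.m 1 0 = σ.g 12) (h2 : τ₀.m 1 1 = σ.g 12 + 2) :
    Same [23] [1, 12] σ ((S.loop 23 (.g 12) b3).run κ τ₀) ∧
      ((S.loop 23 (.g 12) b3).run κ τ₀).m 1 0 = σ.g 12 ∧
      (∀ x ≤ σ.g 12, ((S.loop 23 (.g 12) b3).run κ τ₀).m 1 (x + 1) =
        start (σ.m 8) (σ.m 9) (σ.g 12) (σ.g 13) x) ∧
      ∀ x < σ.g 12, ((S.loop 23 (.g 12) b3).run κ τ₀).m 12 x =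
        start (σ.m 8) (σ.m 9) (σ.g 12) (σ.g 13) x := by
  have h12 : τ₀.g 12 = σ.g 12 := hs.1 12 (by decide)
  have key := loop_inv κ 23 (.g 12) b3 τ₀ (σ.g 12) (by rw [ev_g, h12]; omega)
    (fun i τ => Same [23] [1, 12] σ τ ∧ τ.m 1 0 = σ.g 12 ∧
      (∀ x ≤ i, τ.m 1 (x + 1) = start (σ.m 8) (σ.m 9) (σ.g 12) (σ.g 13) x) ∧
      (∀ x < i, τ.m 12 x = start (σ.m 8) (σ.m 9) (σ.g 12) (σ.g 13) x) ∧
      ∀ x < σ.g 12, i ≤ x → τ.m 12 x = dd (σ.m 8) (σ.m 9) (σ.g 13) x)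
    ⟨hs, h1, fun x hx => by
      have : x = 0 := by omega
      subst this
      rw [start_zero]
      exact h2, fun x hx => absurd hx (by omega), fun x hx _ => h0 x hx⟩ ?_
  · exact ⟨key.1, key.2.1, key.2.2.1, key.2.2.2.1⟩
  rintro i hi τ ⟨k1, k2, k3, k4, k5⟩
  refine ⟨(k1.trans (same_upd _ τ i)).trans (run_same _ _ κ b3 (by decide) _), ?_⟩
  have hE : ∀ e < σ.g 13, σ.m 8 e < σ.g 12 ∧ σ.m 9 e < σ.g 12 := fun e h =>
    ⟨(he e h).1, (he e h).2.1⟩
  have hb := start_le (σ.m 8) (σ.m 9) (σ.g 12) (σ.g 13) i hi.le hE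
  have hb' := start_le (σ.m 8) (σ.m 9) (σ.g 12) (σ.g 13) (i + 1) hi hE
  have hi' : i < κ.lim := by omega
  have hi1 : i + 1 < κ.lim := by omega
  rw [b3, seqs_cons, seqs_one, run_seq, run_st κ _ 1 (.g 23 + 2) _ (i + 2)
    (start (σ.m 8) (σ.m 9) (σ.g 12) (σ.g 13) (i + 1)) (by simp)
    (by simp [hi', hi1, k3 i le_rfl, k5 i hi le_rfl, start_succ]) (by omega) (by omega)]
  rw [run_st κ _ 12 (.g 23) _ i (start (σ.m 8) (σ.m 9) (σ.g 12) (σ.g 13) i) (by simp)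
    (by simp [hi1, k3 i le_rfl]) (by omega) (by omega)]
  refine ⟨by simp [k2], ?_, ?_, ?_⟩
  · intro x hx
    by_cases h : x = i + 1
    · simp [h]
    · simp [h, k3 x (by omega)]
  · intro x hx
    by_cases h : x = i
    · simp [h]
    · simp [h, k4 x (by omega)]
  · intro x hx hx'
    have h : x ≠ i := by omega
    simp [h, k5 x hx (by omega)]

theorem loop4 (κ : Par) (σ τ₀ : St) (hl : σ.g 12 + 2 + 2 * σ.g 13 < κ.lim) (ht : κ.lim ≤ κ.top)
    (he : ∀ e < σ.g 13, σ.m 8 e < σ.g 12 ∧ σ.m 9 e < σ.g 12 ∧ σ.m 8 e ≠ σ.m 9 e)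
    (hs : Same [23] [1, 12] σ τ₀) (h1 : τ₀.m 1 0 = σ.g 12)
    (h2 : ∀ x ≤ σ.g 12, τ₀.m 1 (x + 1) = start (σ.m 8) (σ.m 9) (σ.g 12) (σ.g 13) x)
    (h3 : ∀ x < σ.g 12, τ₀.m 12 x = start (σ.m 8) (σ.m 9) (σ.g 12) (σ.g 13) x) :
    Same [23] [1, 12] σ ((S.loop 23 (.g 13) b4).run κ τ₀) ∧
      ((S.loop 23 (.g 13) b4).run κ τ₀).m 1 0 = σ.g 12 ∧
      (∀ x ≤ σ.g 12, ((S.loop 23 (.g 13) b4).run κ τ₀).m 1 (x + 1) =
        start (σ.m 8) (σ.m 9) (σ.g 12) (σ.g 13) x) ∧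
      ∀ x < σ.g 12, ∀ j < dd (σ.m 8) (σ.m 9) (σ.g 13) x,
        ((S.loop 23 (.g 13) b4).run κ τ₀).m 1
          (start (σ.m 8) (σ.m 9) (σ.g 12) (σ.g 13) x + j) =
        (L (σ.m 8) (σ.m 9) (σ.g 13) x).getD j 0 := by
  have h13 : τ₀.g 13 = σ.g 13 := hs.1 13 (by decide)
  have key := loop_inv κ 23 (.g 13) b4 τ₀ (σ.g 13) (by rw [ev_g, h13]; omega)
    (fun i τ => Same [23] [1, 12] σ τ ∧ τ.m 1 0 = σ.g 12 ∧
      (∀ x ≤ σ.g 12, τ.m 1 (x + 1) = start (σ.m 8) (σ.m 9) (σ.g 12) (σ.g 13) x) ∧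
      (∀ x < σ.g 12, τ.m 12 x = start (σ.m 8) (σ.m 9) (σ.g 12) (σ.g 13) x +
        dd (σ.m 8) (σ.m 9) i x) ∧
      ∀ x < σ.g 12, ∀ j < dd (σ.m 8) (σ.m 9) i x,
        τ.m 1 (start (σ.m 8) (σ.m 9) (σ.g 12) (σ.g 13) x + j) =
        (L (σ.m 8) (σ.m 9) i x).getD j 0)
    ⟨hs, h1, h2, fun x hx => by rw [h3 x hx, dd_zero, add_zero], fun x hx j hj => by
      simp [dd_zero] at hj⟩ ?_
  · exact ⟨key.1, key.2.1, key.2.2.1, key.2.2.2.2⟩
  rintro i hi τ ⟨k1, k2, k3, k4, k5⟩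
  refine ⟨(k1.trans (same_upd _ τ i)).trans (run_same _ _ κ b4 (by decide) _), ?_⟩
  obtain ⟨e1, e2, e3⟩ := he i hi
  have m8 : τ.m 8 = σ.m 8 := k1.2 8 (by decide)
  have m9 : τ.m 9 = σ.m 9 := k1.2 9 (by decide)
  have hE : ∀ e < σ.g 13, σ.m 8 e < σ.g 12 ∧ σ.m 9 e < σ.g 12 := fun e h =>
    ⟨(he e h).1, (he e h).2.1⟩
  set st := start (σ.m 8) (σ.m 9) (σ.g 12) (σ.g 13) with hst
  set X := σ.m 8 i with hX
  set Y := σ.m 9 i with hY
  have hi' : i < κ.lim := by omega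
  have bX : st (X + 1) ≤ σ.g 12 + 2 + 2 * σ.g 13 := start_le _ _ _ _ _ e1 hE
  have bY : st (Y + 1) ≤ σ.g 12 + 2 + 2 * σ.g 13 := start_le _ _ _ _ _ e2 hE
  have bX' : σ.g 12 + 2 ≤ st X := le_start _ _ _ _ _
  have bY' : σ.g 12 + 2 ≤ st Y := le_start _ _ _ _ _
  rw [hst, start_succ, ← hst] at bX bY
  have dX : dd (σ.m 8) (σ.m 9) i X + 1 ≤ dd (σ.m 8) (σ.m 9) (σ.g 13) X := by
    refine le_trans ?_ (dd_mono (σ.m 8) (σ.m 9) X (show i + 1 ≤ σ.g 13 by omega))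
    rw [dd_succ]
    simp [← hX]
  have dY : dd (σ.m 8) (σ.m 9) i Y + 1 ≤ dd (σ.m 8) (σ.m 9) (σ.g 13) Y := by
    refine le_trans ?_ (dd_mono (σ.m 8) (σ.m 9) Y (show i + 1 ≤ σ.g 13 by omega))
    rw [dd_succ]
    simp [← hY]
  set pX := st X + dd (σ.m 8) (σ.m 9) i X with hpX
  set pY := st Y + dd (σ.m 8) (σ.m 9) i Y with hpY
  have lX : X < κ.lim := by omega
  have lY : Y < κ.lim := by omega
  have lpX : pX < κ.lim := by omega
  have lpY : pY < κ.lim := by omega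
  have q1 : (b4.run κ ⟨Function.update τ.g 23 i, τ.m⟩).m 1 =
      Function.update (Function.update (τ.m 1) pX Y) pY X ∧
      (b4.run κ ⟨Function.update τ.g 23 i, τ.m⟩).m 12 =
      Function.update (Function.update (τ.m 12) X (pX + 1)) Y (pY + 1) := by
    rw [b4, seqs_cons, seqs_cons, seqs_cons, seqs_one, run_seq, run_seq, run_seq]
    rw [run_st κ _ 1 (.ld 12 (.ld 8 (.g 23))) _ pX Y (by simp [hi', m8, ← hX, lX, k4 X e1, hpX])
      (by simp [hi', m9, ← hY]) (by omega) (by omega)]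
    rw [run_st κ _ 12 (.ld 8 (.g 23)) _ X (pX + 1) (by simp [hi', m8, ← hX])
      (by simp [hi', m8, ← hX, lX, k4 X e1, hpX]) (by omega) (by omega)]
    rw [run_st κ _ 1 (.ld 12 (.ld 9 (.g 23))) _ pY X (by simp [hi', m9, ← hY, lY, Ne.symm e3, k4 Y e2, hpY])
      (by simp [hi', m8, ← hX]) (by omega) (by omega)]
    rw [run_st κ _ 12 (.ld 9 (.g 23)) _ Y (pY + 1) (by simp [hi', m9, ← hY])
      (by simp [hi', m9, ← hY, lY, Ne.symm e3, k4 Y e2, hpY]) (by omega) (by omega)]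
    constructor <;> simp
  rw [q1.1, q1.2]
  have hd : ∀ x y j k : ℕ, x ≠ y → j < dd (σ.m 8) (σ.m 9) (σ.g 13) x →
      k < dd (σ.m 8) (σ.m 9) (σ.g 13) y → st x + j ≠ st y + k := fun x y j k =>
    disj (σ.m 8) (σ.m 9) (σ.g 12) (σ.g 13) x y j k
  refine ⟨?_, ?_, ?_, ?_⟩
  · rw [Function.update_of_ne (by omega), Function.update_of_ne (by omega)]
    exact k2
  · intro x hx
    rw [Function.update_of_ne (by omega), Function.update_of_ne (by omega)]
    exact k3 x hx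
  · intro x hx
    rw [dd_succ, ← hX, ← hY]
    by_cases c1 : x = X
    · subst c1
      rw [Function.update_of_ne e3, Function.update_self, if_pos rfl, if_neg (Ne.symm e3)]
      omega
    · by_cases c2 : x = Y
      · subst c2
        rw [Function.update_self, if_pos rfl, if_neg e3]
        omega
      · rw [Function.update_of_ne c2, Function.update_of_ne c1, if_neg (Ne.symm c1),
          if_neg (Ne.symm c2), k4 x hx]
        omega
  · intro x hx j hj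
    have hj' := lt_of_lt_of_le hj (dd_mono (σ.m 8) (σ.m 9) x (show i + 1 ≤ σ.g 13 by omega))
    rw [dd_succ, ← hX, ← hY] at hj
    rw [L, ← hX, ← hY]
    by_cases c1 : x = X
    · have c2 : Y ≠ x := fun h => e3 (c1.symm.trans h.symm)
      rw [if_pos c1.symm, if_neg c2, List.append_nil]
      rw [if_pos c1.symm, if_neg c2] at hj
      rw [Function.update_of_ne (hd x Y _ _ (Ne.symm c2) hj' (by omega))]
      by_cases c3 : j = dd (σ.m 8) (σ.m 9) i x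
      · rw [show st x + j = pX by rw [hpX, c3, c1], Function.update_self]
        simp [c3, dd]
      · rw [Function.update_of_ne (by rw [hpX, ← c1]; omega), k5 x hx j (by omega),
          List.getD_append _ _ _ _ (show j < dd (σ.m 8) (σ.m 9) i x by omega)]
    · rw [if_neg (Ne.symm c1), List.append_nil]
      rw [if_neg (Ne.symm c1)] at hj
      by_cases c2 : x = Y
      · rw [if_pos c2.symm]
        rw [if_pos c2.symm] at hj
        by_cases c3 : j = dd (σ.m 8) (σ.m 9) i x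
        · rw [show st x + j = pY by rw [hpY, c3, c2], Function.update_self]
          simp [c3, dd]
        · rw [Function.update_of_ne (by rw [hpY, ← c2]; omega),
            Function.update_of_ne (hd x X _ _ c1 hj' (by omega)), k5 x hx j (by omega),
            List.getD_append _ _ _ _ (show j < dd (σ.m 8) (σ.m 9) i x by omega)]
      · rw [if_neg (Ne.symm c2), List.append_nil]
        rw [if_neg (Ne.symm c2)] at hj
        rw [Function.update_of_ne (hd x Y _ _ c2 hj' (by omega)),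
            Function.update_of_ne (hd x X _ _ c1 hj' (by omega)), k5 x hx j (by omega)]

theorem loop5 (κ : Par) (σ τ₀ : St) (hl : σ.g 12 + 2 + 2 * σ.g 13 < κ.lim) (ht : κ.lim ≤ κ.top)
    (hs : Same [23] [1, 12] σ τ₀) (hm : ∀ j < σ.g 12 + 2 + 2 * σ.g 13, τ₀.m 1 j ≤ κ.top) :
    Same [23] [0, 1, 12] σ ((S.loop 23 (.g 12 + 2 + 2 * .g 13) b5).run κ τ₀) ∧
      ∀ j < σ.g 12 + 2 + 2 * σ.g 13,
        ((S.loop 23 (.g 12 + 2 + 2 * .g 13) b5).run κ τ₀).m 0 j = τ₀.m 1 j := by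
  have h12 : τ₀.g 12 = σ.g 12 := hs.1 12 (by decide)
  have h13 : τ₀.g 13 = σ.g 13 := hs.1 13 (by decide)
  have key := loop_inv κ 23 (.g 12 + 2 + 2 * .g 13) b5 τ₀ (σ.g 12 + 2 + 2 * σ.g 13)
    (by simp [h12, h13]; omega)
    (fun i τ => Same [23] [0] τ₀ τ ∧ ∀ x < i, τ.m 0 x = τ₀.m 1 x)
    ⟨Same.refl _ _ _, fun x hx => absurd hx (by omega)⟩ ?_
  · exact ⟨(hs.mono (List.Subset.refl _) (by simp)).trans
      (key.1.mono (List.Subset.refl _) (by simp)), key.2⟩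
  rintro i hi τ ⟨h1, h2⟩
  refine ⟨(h1.trans (same_upd _ τ i)).trans (run_same _ _ κ b5 (by decide) _), ?_⟩
  have m1 : τ.m 1 = τ₀.m 1 := h1.2 1 (by decide)
  have hi' : i < κ.lim := by omega
  rw [b5, run_st κ _ _ _ _ i (τ₀.m 1 i) (by simp) (by simp [hi', m1]) (by omega) (hm i hi)]
  intro x hx
  by_cases h : x = i
  · simp [h]
  · simp [h, h2 x (by omega)]

theorem fin_state (κ : Par) (σ : St) (hl : σ.g 12 + 2 + 2 * σ.g 13 < κ.lim)
    (ht : κ.lim ≤ κ.top) (he : ∀ e < σ.g 13, σ.m 8 e < σ.g 12 ∧ σ.m 9 e < σ.g 12 ∧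
      σ.m 8 e ≠ σ.m 9 e) :
    (buildS.run κ σ).g 3 = σ.g 12 ∧ (buildS.run κ σ).g 20 = 0 ∧
    (∀ x ≤ σ.g 12, (buildS.run κ σ).m 0 (x + 1) =
      start (σ.m 8) (σ.m 9) (σ.g 12) (σ.g 13) x) ∧
    ∀ x < σ.g 12, ∀ j < dd (σ.m 8) (σ.m 9) (σ.g 13) x,
      (buildS.run κ σ).m 0 (start (σ.m 8) (σ.m 9) (σ.g 12) (σ.g 13) x + j) =
        (L (σ.m 8) (σ.m 9) (σ.g 13) x).getD j 0 := by
  have hE : ∀ e < σ.g 13, σ.m 8 e < σ.g 12 ∧ σ.m 9 e < σ.g 12 := fun e h =>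
    ⟨(he e h).1, (he e h).2.1⟩
  rw [build_eq]
  simp only [seqs_cons, seqs_one, run_seq]
  obtain ⟨p1, p2⟩ := loop1 κ σ (by omega) ht
  set σ₁ := (S.loop 23 (.g 12 + 1) b1).run κ σ with hσ₁
  obtain ⟨p3, p4⟩ := loop2 κ σ σ₁ hl ht he p1 p2
  set σ₂ := (S.loop 23 (.g 13) b2).run κ σ₁ with hσ₂
  have g12 : σ₂.g 12 = σ.g 12 := p3.1 12 (by decide)
  have r3 := run_st κ σ₂ 1 0 (.g 12) 0 (σ.g 12) rfl g12 (by omega) (by omega)
  have r4 := run_st κ ((S.st 1 0 (.g 12)).run κ σ₂) 1 1 (.g 12 + 2) 1 (σ.g 12 + 2) rfl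
    (by rw [r3]; simp [g12]) (by omega) (by omega)
  set σ₄ := (S.st 1 1 (.g 12 + 2)).run κ ((S.st 1 0 (.g 12)).run κ σ₂) with hσ₄
  have s4 : Same [23] [1, 12] σ₂ σ₄ := (run_same [23] [1, 12] κ (S.st 1 0 (.g 12)) (by decide) σ₂).trans
    (run_same [23] [1, 12] κ (S.st 1 1 (.g 12 + 2)) (by decide) _)
  have s4' : Same [23] [1, 12] σ σ₄ := (p3.mono (List.Subset.refl _) (by simp)).trans s4
  have m12 : σ₄.m 12 = σ₂.m 12 := by
    rw [r4, r3]; simp
  have m10 : σ₄.m 1 0 = σ.g 12 := by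
    rw [r4, r3]; simp
  have m11 : σ₄.m 1 1 = σ.g 12 + 2 := by
    rw [r4, r3]; simp
  obtain ⟨p5, p6, p7, p8⟩ := loop3 κ σ σ₄ hl ht he s4' (fun x hx => by rw [m12, p4 x hx]) m10 m11
  set σ₅ := (S.loop 23 (.g 12) b3).run κ σ₄ with hσ₅
  obtain ⟨p9, p10, p11, p12⟩ := loop4 κ σ σ₅ hl ht he p5 p6 p7 p8
  set σ₆ := (S.loop 23 (.g 13) b4).run κ σ₅ with hσ₆
  have hcell : ∀ j < σ.g 12 + 2 + 2 * σ.g 13, j = 0 ∨ (∃ x ≤ σ.g 12, j = x + 1) ∨
      ∃ x < σ.g 12, ∃ k < dd (σ.m 8) (σ.m 9) (σ.g 13) x,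
        j = start (σ.m 8) (σ.m 9) (σ.g 12) (σ.g 13) x + k := by
    intro j hj
    by_cases h : j < σ.g 12 + 2
    · by_cases h' : j = 0
      · exact Or.inl h'
      · exact Or.inr (Or.inl ⟨j - 1, by omega, by omega⟩)
    · right
      right
      have hend : start (σ.m 8) (σ.m 9) (σ.g 12) (σ.g 13) (σ.g 12) =
          σ.g 12 + 2 + 2 * σ.g 13 := by rw [start, sum_dd _ _ _ _ hE]
      have key : ∀ n ≤ σ.g 12, j < start (σ.m 8) (σ.m 9) (σ.g 12) (σ.g 13) n →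
          ∃ x < σ.g 12, ∃ k < dd (σ.m 8) (σ.m 9) (σ.g 13) x,
            j = start (σ.m 8) (σ.m 9) (σ.g 12) (σ.g 13) x + k := by
        intro n hn
        induction n with
        | zero =>
          intro h2
          rw [start_zero] at h2
          omega
        | succ n ih =>
          intro h2
          by_cases h3 : j < start (σ.m 8) (σ.m 9) (σ.g 12) (σ.g 13) n
          · exact ih (by omega) h3
          · rw [start_succ] at h2
            exact ⟨n, by omega, j - start (σ.m 8) (σ.m 9) (σ.g 12) (σ.g 13) n, by omega, by omega⟩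
      exact key (σ.g 12) le_rfl (by omega)
  have hval : ∀ j < σ.g 12 + 2 + 2 * σ.g 13, σ₆.m 1 j ≤ κ.top := by
    intro j hj
    rcases hcell j hj with h | ⟨x, hx, h⟩ | ⟨x, hx, k, hk, h⟩
    · rw [h, p10]; omega
    · rw [h, p11 x hx]
      have := start_le (σ.m 8) (σ.m 9) (σ.g 12) (σ.g 13) x hx hE
      omega
    · rw [h, p12 x hx k hk]
      have h1 : (L (σ.m 8) (σ.m 9) (σ.g 13) x).getD k 0 ∈ L (σ.m 8) (σ.m 9) (σ.g 13) x := by
        rw [List.getD_eq_getElem _ _ hk]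
        exact List.getElem_mem _
      obtain ⟨i, hi, h2⟩ := (mem_L _ _ _ _ _).mp h1
      have h3 := hE i hi
      rcases h2 with h2 | h2 <;> omega
  obtain ⟨p13, p14⟩ := loop5 κ σ σ₆ hl ht p9 hval
  set σ₇ := (S.loop 23 (.g 12 + 2 + 2 * .g 13) b5).run κ σ₆ with hσ₇
  have g12' : σ₇.g 12 = σ.g 12 := p13.1 12 (by decide)
  have ht' : σ.g 12 ≤ κ.top := by omega
  refine ⟨by simp [S.run, g12', ht'], by simp [S.run], ?_, ?_⟩
  · intro x hx
    simp only [S.run]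
    rw [p14 (x + 1) (by omega), p11 x hx]
  · intro x hx j hj
    simp only [S.run]
    have h1 := start_le (σ.m 8) (σ.m 9) (σ.g 12) (σ.g 13) (x + 1) hx hE
    rw [start_succ] at h1
    rw [p14 _ (by omega), p12 x hx j hj]

end PBuildAux

open PBuildAux in
theorem build_spec (κ : Par) (σ : St) (hl : σ.g 12 + 2 + 2 * σ.g 13 < κ.lim)
    (ht : κ.lim ≤ κ.top) (he : ∀ e < σ.g 13, σ.m 8 e < σ.g 12 ∧ σ.m 9 e < σ.g 12 ∧
      σ.m 8 e ≠ σ.m 9 e) :
    (buildS.run κ σ).g 3 = σ.g 12 ∧ (buildS.run κ σ).g 20 = 0 ∧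
    (cur κ (buildS.run κ σ)).Ok ∧ (cur κ (buildS.run κ σ)).W = 2 * σ.g 13 ∧
    ∀ x y, (cur κ (buildS.run κ σ)).gr.Adj x y ↔ LE σ x y := by
  have hE : ∀ e < σ.g 13, σ.m 8 e < σ.g 12 ∧ σ.m 9 e < σ.g 12 := fun e h =>
    ⟨(he e h).1, (he e h).2.1⟩
  obtain ⟨f1, f2, f3, f4⟩ := fin_state κ σ hl ht he
  have hN : (cur κ (buildS.run κ σ)).N = σ.g 12 := f1
  have hdeg : ∀ u < σ.g 12, (cur κ (buildS.run κ σ)).deg u =
      (L (σ.m 8) (σ.m 9) (σ.g 13) u).length := by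
    intro u hu
    have h1 : u + 1 < κ.lim := by omega
    have h2 : u + 2 < κ.lim := by omega
    have h3 := f3 u hu.le
    have h4 := f3 (u + 1) hu
    rw [start_succ] at h4
    simp only [cur, dgE, rdE, ev_sub, ev_call1, ev_ite, ev_g, f2, if_true, ev_ld, ev_v, ev_add,
      ev_ofNat]
    simp only [List.getD_cons_zero, if_pos h1, if_pos h2]
    rw [show u + 2 = u + 1 + 1 by ring, h3, h4]
    rw [Nat.add_sub_cancel_left]
    rfl
  have hnb : ∀ u < σ.g 12, ∀ j < (L (σ.m 8) (σ.m 9) (σ.g 13) u).length,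
      (cur κ (buildS.run κ σ)).nb u j = (L (σ.m 8) (σ.m 9) (σ.g 13) u).getD j 0 := by
    intro u hu j hj
    have h1 : u + 1 < κ.lim := by omega
    have h3 := f3 u hu.le
    have h5 := start_le (σ.m 8) (σ.m 9) (σ.g 12) (σ.g 13) (u + 1) hu hE
    rw [start_succ] at h5
    have h6 : j < dd (σ.m 8) (σ.m 9) (σ.g 13) u := hj
    have h2 : start (σ.m 8) (σ.m 9) (σ.g 12) (σ.g 13) u + j < κ.lim := by omega
    simp only [cur, nbE, rdE, ev_call1, ev_ite, ev_g, f2, if_true, ev_ld, ev_v, ev_add,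
      ev_one]
    simp only [List.getD_cons_zero, List.getD_cons_succ, if_pos h1, h3, if_pos h2]
    exact f4 u hu j hj
  have hcnt : ∀ u < σ.g 12, ∀ v, (cur κ (buildS.run κ σ)).cnt u v =
      (L (σ.m 8) (σ.m 9) (σ.g 13) u).count v := by
    intro u hu v
    rw [← card_count, FG.cnt, hdeg u hu]
    congr 1
    refine Finset.filter_congr fun j hj => ?_
    rw [hnb u hu j (Finset.mem_range.mp hj)]
  have hmem : ∀ u < σ.g 12, ∀ v, (∃ j < (cur κ (buildS.run κ σ)).deg u,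
      (cur κ (buildS.run κ σ)).nb u j = v) ↔ v ∈ L (σ.m 8) (σ.m 9) (σ.g 13) u := by
    intro u hu v
    constructor
    · rintro ⟨j, hj, h⟩
      rw [hdeg u hu] at hj
      rw [hnb u hu j hj, List.getD_eq_getElem _ _ hj] at h
      rw [← h]
      exact List.getElem_mem _
    · intro h
      obtain ⟨j, hj, h1⟩ := List.mem_iff_getElem.mp h
      refine ⟨j, by rw [hdeg u hu]; exact hj, ?_⟩
      rw [hnb u hu j hj, List.getD_eq_getElem _ _ hj]
      exact h1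
  refine ⟨f1, f2, ⟨?_, ?_, ?_⟩, ?_, ?_⟩
  · intro u hu j hj
    rw [hN] at hu ⊢
    obtain ⟨i, hi, h⟩ := (mem_L _ _ _ _ _).mp ((hmem u hu _).mp ⟨j, hj, rfl⟩)
    have := hE i hi
    rcases h with h | h <;> omega
  · intro u hu j hj h0
    rw [hN] at hu
    obtain ⟨i, hi, h⟩ := (mem_L _ _ _ _ _).mp ((hmem u hu _).mp ⟨j, hj, rfl⟩)
    have := he i hi
    rcases h with h | h <;> omega
  · intro u hu v hv
    rw [hN] at hu hv
    rw [hcnt u hu, hcnt v hv, count_L]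
  · rw [FG.W, hN, ← sum_dd (σ.m 8) (σ.m 9) (σ.g 12) (σ.g 13) hE]
    exact Finset.sum_congr rfl fun u hu => hdeg u (Finset.mem_range.mp hu)
  · intro x y
    rw [FG.gr, SimpleGraph.fromRel_adj, hN]
    constructor
    · rintro ⟨-, ⟨hx, -, h⟩ | ⟨hy, -, h⟩⟩
      · exact (mem_L _ _ _ _ _).mp ((hmem x hx y).mp h)
      · obtain ⟨i, hi, h⟩ := (mem_L _ _ _ _ _).mp ((hmem y hy x).mp h)
        exact ⟨i, hi, h.symm⟩
    · rintro ⟨i, hi, h⟩
      have h1 := he i hi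
      have hx : x < σ.g 12 := by rcases h with h | h <;> omega
      have hy : y < σ.g 12 := by rcases h with h | h <;> omega
      have hne : x ≠ y := by rcases h with h | h <;> omega
      exact ⟨hne, Or.inl ⟨hx, hy, (hmem x hx y).mpr ((mem_L _ _ _ _ _).mpr ⟨i, hi, h⟩)⟩⟩

open PBuildAux in
theorem build_cost (κ : Par) (σ : St) : buildS.cost κ σ ≤ 100 * (σ.g 12 + σ.g 13 + 1) := by
  have hc : ∀ (τ : St) (s t : S), (S.seq s t).cost κ τ = s.cost κ τ + t.cost κ (s.run κ τ) :=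
    fun _ _ _ => rfl
  rw [build_eq]
  simp only [seqs_cons, seqs_one, hc]
  set σ₁ := (S.loop 23 (.g 12 + 1) b1).run κ σ with hσ₁
  have s1 : Same [23] [0, 1, 12] σ σ₁ := run_same _ _ κ _ (by decide) σ
  set σ₂ := (S.loop 23 (.g 13) b2).run κ σ₁ with hσ₂
  have s2 : Same [23] [0, 1, 12] σ σ₂ := s1.trans (run_same _ _ κ _ (by decide) _)
  set σ₃ := (S.st 1 0 (.g 12)).run κ σ₂ with hσ₃
  have s3 : Same [23] [0, 1, 12] σ σ₃ := s2.trans (run_same _ _ κ _ (by decide) _)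
  set σ₄ := (S.st 1 1 (.g 12 + 2)).run κ σ₃ with hσ₄
  have s4 : Same [23] [0, 1, 12] σ σ₄ := s3.trans (run_same _ _ κ _ (by decide) _)
  set σ₅ := (S.loop 23 (.g 12) b3).run κ σ₄ with hσ₅
  have s5 : Same [23] [0, 1, 12] σ σ₅ := s4.trans (run_same _ _ κ _ (by decide) _)
  set σ₆ := (S.loop 23 (.g 13) b4).run κ σ₅ with hσ₆
  have s6 : Same [23] [0, 1, 12] σ σ₆ := s5.trans (run_same _ _ κ _ (by decide) _)
  have c1 := loop_cost_const κ 23 (.g 12 + 1) b1 σ (σ.g 12 + 1) 1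
    (by simp) (fun τ => le_of_eq rfl)
  have c2 := loop_cost_const κ 23 (.g 13) b2 σ₁ (σ.g 13) 2
    (by rw [ev_g, s1.1 13 (by decide)]; exact min_le_left _ _) (fun τ => le_of_eq rfl)
  have c3 := loop_cost_const κ 23 (.g 12) b3 σ₄ (σ.g 12) 2
    (by rw [ev_g, s4.1 12 (by decide)]; exact min_le_left _ _) (fun τ => le_of_eq rfl)
  have c4 := loop_cost_const κ 23 (.g 13) b4 σ₅ (σ.g 13) 4
    (by rw [ev_g, s5.1 13 (by decide)]; exact min_le_left _ _) (fun τ => le_of_eq rfl)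
  have c5 := loop_cost_const κ 23 (.g 12 + 2 + 2 * .g 13) b5 σ₆ (σ.g 12 + 2 + 2 * σ.g 13) 1
    (by simp [s6.1 12 (by decide), s6.1 13 (by decide)]) (fun τ => le_of_eq rfl)
  have c6 : ∀ (b : Fin 16) (i e : E) (τ : St), (S.st b i e).cost κ τ = 1 := fun _ _ _ _ => rfl
  have c7 : ∀ (x : ℕ) (e : E) (τ : St), (S.set x e).cost κ τ = 1 := fun _ _ _ => rfl
  simp only [c6, c7]
  omega

end Pool.Agent.MP9d6bd1
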