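import Mathlib
import Pool.Agent.Lib.MP_9d6bd1_lc.EvLib
import Pool.Agent.Lib.MP_9d6bd1_lc.Codes
import Pool.Agent.Lib.MP_9d6bd1_lc.GMinor

/-!
# MP_9d6bd1_lc, module P06: brute force planarity of coded graphs
-/

set_option autoImplicit false

namespace Pool.Agent.MP9d6bd1

open E

namespace PNpAux

open GMinorAux

/-! ### combinatorics -/

theorem exists_digits (b : ℕ) (hb : 1 ≤ b) (s : ℕ) (f : ℕ → ℕ) (hf : ∀ a, f a < b) :
    ∃ x < b ^ s, ∀ a < s, x / b ^ a % b = f a := by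
  induction s generalizing f with
  | zero => exact ⟨0, by simp, fun a ha => absurd ha (by omega)⟩
  | succ s ih =>
    obtain ⟨x, hx, h⟩ := ih (fun a => f (a + 1)) (fun a => hf _)
    refine ⟨f 0 + b * x, ?_, ?_⟩
    · have h1 : b * x + b ≤ b * b ^ s := by
        rw [← Nat.mul_succ]
        exact Nat.mul_le_mul_left b hx
      have h2 := hf 0
      rw [pow_succ, mul_comm (b ^ s)]
      omega
    · intro a ha
      rcases a with _ | a
      · rw [pow_zero, Nat.div_one, Nat.add_mul_mod_self_left, Nat.mod_eq_of_lt (hf 0)]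
      · rw [pow_succ, mul_comm (b ^ a), ← Nat.div_div_eq_div_mul,
          Nat.add_mul_div_left _ _ (by omega), Nat.div_eq_of_lt (hf 0), zero_add]
        exact h a (by omega)

/-- the class `x` of `φ` is empty or connected -/
def CC (G : SimpleGraph ℕ) (s : ℕ) (φ : ℕ → ℕ) (x : ℕ) : Prop :=
  ∀ ψ < 2 ^ s, ¬ (∀ a < s, ∀ b < s, ¬ (φ a = x ∧ φ b = x ∧ G.Adj a b) ∨
      ψ / 2 ^ a % 2 = ψ / 2 ^ b % 2) ∨
    ∀ a < s, ∀ b < s, ¬ (φ a = x ∧ φ b = x) ∨ ψ / 2 ^ a % 2 = ψ / 2 ^ b % 2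

theorem cc_iff (G : SimpleGraph ℕ) (s : ℕ) (φ : ℕ → ℕ) (x : ℕ) :
    CC G s φ x ↔ ∀ a ∈ {a | a < s ∧ φ a = x}, ∀ b ∈ {a | a < s ∧ φ a = x},
      RS G {a | a < s ∧ φ a = x} a b := by
  classical
  constructor
  · intro h a ha b hb
    obtain ⟨ψ, hψ, h1⟩ := exists_digits 2 (by norm_num) s
      (fun b => if RS G {a | a < s ∧ φ a = x} a b then 1 else 0) (by
        intro b
        split_ifs <;> norm_num)
    rcases h ψ hψ with h2 | h2
    · exfalso
      apply h2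
      intro u hu v hv
      by_cases h3 : φ u = x ∧ φ v = x ∧ G.Adj u v
      · right
        rw [h1 u hu, h1 v hv]
        have h4 : RS G {a | a < s ∧ φ a = x} a u ↔ RS G {a | a < s ∧ φ a = x} a v := by
          constructor
          · intro h5
            exact h5.tail ⟨h3.2.2, ⟨hu, h3.1⟩, ⟨hv, h3.2.1⟩⟩
          · intro h5
            exact h5.tail ⟨h3.2.2.symm, ⟨hv, h3.2.1⟩, ⟨hu, h3.1⟩⟩
        simp only [h4]
      · exact Or.inl h3
    · rcases h2 a ha.1 b hb.1 with h3 | h3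
      · exact absurd ⟨ha.2, hb.2⟩ h3
      · rw [h1 a ha.1, h1 b hb.1] at h3
        by_contra h4
        rw [if_pos (show RS G {a | a < s ∧ φ a = x} a a from Relation.ReflTransGen.refl),
          if_neg h4] at h3
        exact absurd h3 (by norm_num)
  · intro h ψ hψ
    by_cases h1 : ∀ a < s, ∀ b < s, ¬ (φ a = x ∧ φ b = x ∧ G.Adj a b) ∨
      ψ / 2 ^ a % 2 = ψ / 2 ^ b % 2
    · right
      intro a ha b hb
      by_cases h2 : φ a = x ∧ φ b = x
      · right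
        have h3 := h a ⟨ha, h2.1⟩ b ⟨hb, h2.2⟩
        clear h2 hb
        induction h3 with
        | refl => rfl
        | tail _ h4 ih =>
          rw [ih]
          rcases h1 _ h4.2.1.1 _ h4.2.2.1 with h5 | h5
          · exact absurd ⟨h4.2.1.2, h4.2.2.2, h4.1⟩ h5
          · exact h5
      · exact Or.inl h2
    · exact Or.inl h1

/-- `φ` describes a minor model of the graph `K'` on `0, ..., N-1` -/
def Mod (G : SimpleGraph ℕ) (s N : ℕ) (K' : ℕ → ℕ → Prop) (φ : ℕ → ℕ) : Prop :=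
  (∀ x < N, (∃ a < s, φ a = x) ∧ CC G s φ x) ∧
    ∀ x < N, ∀ y < N, ¬ K' x y ∨ ∃ a < s, ∃ b < s, φ a = x ∧ φ b = y ∧ G.Adj a b

theorem cc_congr {G : SimpleGraph ℕ} {s : ℕ} {φ φ' : ℕ → ℕ} {x : ℕ} (h : ∀ a < s, φ a = φ' a)
    (h1 : CC G s φ x) : CC G s φ' x := by
  have h2 : {a | a < s ∧ φ a = x} = {a | a < s ∧ φ' a = x} := by
    ext a
    constructor
    · rintro ⟨h3, h4⟩
      exact ⟨h3, by rw [← h a h3, h4]⟩
    · rintro ⟨h3, h4⟩
      exact ⟨h3, by rw [h a h3, h4]⟩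
  rw [cc_iff] at h1 ⊢
  rw [← h2]
  exact h1

theorem mod_congr {G : SimpleGraph ℕ} {s N : ℕ} {K' : ℕ → ℕ → Prop} {φ φ' : ℕ → ℕ}
    (h : ∀ a < s, φ a = φ' a) (h1 : Mod G s N K' φ) : Mod G s N K' φ' := by
  refine ⟨fun x hx => ⟨?_, cc_congr h (h1.1 x hx).2⟩, fun x hx y hy => ?_⟩
  · obtain ⟨a, ha, h2⟩ := (h1.1 x hx).1
    exact ⟨a, ha, by rw [← h a ha, h2]⟩
  · rcases h1.2 x hx y hy with h2 | ⟨a, ha, b, hb, h3, h4, h5⟩
    · exact Or.inl h2
    · exact Or.inr ⟨a, ha, b, hb, by rw [← h a ha, h3], by rw [← h b hb, h4], h5⟩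

theorem model_iff {W : Type} (G : SimpleGraph ℕ) (s N : ℕ) (hN : N ≤ 6)
    (hG : ∀ a b, G.Adj a b → a < s) (K : SimpleGraph W) (hK : ∀ i, ∃ j, K.Adj i j)
    (K' : ℕ → ℕ → Prop) (e : W → ℕ) (he : ∀ i, e i < N) (hinj : Function.Injective e)
    (hsurj : ∀ x < N, ∃ i, e i = x) (hKK : ∀ i j, K.Adj i j ↔ K' (e i) (e j)) :
    HasMinor G K ↔ ∃ φ < 7 ^ s, Mod G s N K' (fun a => φ / 7 ^ a % 7) := by
  classical
  constructor
  · rintro ⟨B, h1, h2, h3⟩
    have hsupp : ∀ i, ∀ w ∈ B i, w < s := by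
      intro i w hw
      obtain ⟨j, hj⟩ := hK i
      obtain ⟨u, hu, v, _, huv⟩ := h3 i j hj
      have h4 := (connected_iff.1 (h1 i)).2 w hw u hu
      rcases Relation.ReflTransGen.cases_head h4 with rfl | ⟨c, hc, _⟩
      · exact hG _ _ huv
      · exact hG _ _ hc.1
    have huniq : ∀ a i j, a ∈ B i → a ∈ B j → i = j := by
      intro a i j hi hj
      by_contra hij
      exact Set.disjoint_left.1 (h2 i j hij) hi hj
    obtain ⟨φ, hφ, h4⟩ := exists_digits 7 (by norm_num) s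
      (fun a => if h : ∃ i, a ∈ B i then e h.choose else 6) (by
        intro a
        split_ifs with h
        · have := he h.choose
          omega
        · norm_num)
    refine ⟨φ, hφ, ?_⟩
    have h5 : ∀ a < s, ∀ i, φ / 7 ^ a % 7 = e i ↔ a ∈ B i := by
      intro a ha i
      rw [h4 a ha]
      constructor
      · intro h
        split_ifs at h with h6
        · rw [← hinj h]
          exact h6.choose_spec
        · have := he i
          omega
      · intro h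
        have h6 : ∃ i, a ∈ B i := ⟨i, h⟩
        rw [dif_pos h6, huniq a _ _ h6.choose_spec h]
    refine ⟨?_, ?_⟩
    · intro x hx
      obtain ⟨i, rfl⟩ := hsurj x hx
      have h6 := connected_iff.1 (h1 i)
      have h7 : {a | a < s ∧ φ / 7 ^ a % 7 = e i} = B i := by
        ext a
        constructor
        · rintro ⟨h8, h9⟩
          exact (h5 a h8 i).1 h9
        · intro h8
          exact ⟨hsupp i a h8, (h5 a (hsupp i a h8) i).2 h8⟩
      refine ⟨?_, ?_⟩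
      · obtain ⟨a, ha⟩ := h6.1
        exact ⟨a, hsupp i a ha, (h5 a (hsupp i a ha) i).2 ha⟩
      · rw [cc_iff]
        rw [h7]
        exact h6.2
    · intro x hx y hy
      obtain ⟨i, rfl⟩ := hsurj x hx
      obtain ⟨j, rfl⟩ := hsurj y hy
      by_cases h6 : K' (e i) (e j)
      · obtain ⟨u, hu, v, hv, huv⟩ := h3 i j ((hKK i j).2 h6)
        exact Or.inr ⟨u, hsupp i u hu, v, hsupp j v hv, (h5 u (hsupp i u hu) i).2 hu,
          (h5 v (hsupp j v hv) j).2 hv, huv⟩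
      · exact Or.inl h6
  · rintro ⟨φ, -, h1, h2⟩
    refine ⟨fun i => {a | a < s ∧ φ / 7 ^ a % 7 = e i}, ?_, ?_, ?_⟩
    · intro i
      rw [connected_iff]
      obtain ⟨⟨a, ha, h3⟩, h4⟩ := h1 (e i) (he i)
      exact ⟨⟨a, ha, h3⟩, (cc_iff _ _ _ _).1 h4⟩
    · intro i j hij
      rw [Set.disjoint_left]
      rintro a ⟨_, h3⟩ ⟨_, h4⟩
      exact hij (hinj (h3.symm.trans h4))
    · intro i j hij
      rcases h2 (e i) (he i) (e j) (he j) with h3 | ⟨a, ha, b, hb, h3, h4, h5⟩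
      · exact absurd ((hKK i j).1 hij) h3
      · exact ⟨a, ⟨ha, h3⟩, b, ⟨hb, h4⟩, h5⟩

theorem minor_k5 (G : SimpleGraph ℕ) (s : ℕ) (hG : ∀ a b, G.Adj a b → a < s) :
    HasMinor G (⊤ : SimpleGraph (Fin 5)) ↔
      ∃ φ < 7 ^ s, Mod G s 5 (fun x y => x ≠ y) (fun a => φ / 7 ^ a % 7) := by
  refine model_iff G s 5 (by norm_num) hG _ k5_noiso _ (fun i => (i : ℕ)) (fun i => i.2)
    (fun i j h => Fin.ext h) (fun x hx => ⟨⟨x, hx⟩, rfl⟩) ?_
  intro i j
  rw [SimpleGraph.top_adj]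
  exact ⟨fun h h' => h (Fin.ext h'), fun h h' => h (congrArg _ h')⟩

theorem minor_k33 (G : SimpleGraph ℕ) (s : ℕ) (hG : ∀ a b, G.Adj a b → a < s) :
    HasMinor G (completeBipartiteGraph (Fin 3) (Fin 3)) ↔
      ∃ φ < 7 ^ s, Mod G s 6 (fun x y => ¬ (x < 3 ↔ y < 3)) (fun a => φ / 7 ^ a % 7) := by
  refine model_iff G s 6 (by norm_num) hG _ k33_noiso _
    (fun i => Sum.elim (fun i : Fin 3 => (i : ℕ)) (fun i : Fin 3 => (i : ℕ) + 3) i) ?_ ?_ ?_ ?_
  · rintro (i | i)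
    · simp only [Sum.elim_inl]
      omega
    · simp only [Sum.elim_inr]
      omega
  · rintro (i | i) (j | j) h
    · simp only [Sum.elim_inl] at h
      rw [Fin.ext h]
    · simp only [Sum.elim_inl, Sum.elim_inr] at h
      omega
    · simp only [Sum.elim_inl, Sum.elim_inr] at h
      omega
    · simp only [Sum.elim_inr] at h
      rw [Fin.ext (show (i : ℕ) = j by omega)]
  · intro x hx
    by_cases h : x < 3
    · exact ⟨Sum.inl ⟨x, h⟩, rfl⟩
    · refine ⟨Sum.inr ⟨x - 3, by omega⟩, ?_⟩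
      simp only [Sum.elim_inr]
      omega
  · rintro (i | i) (j | j)
    · simp only [Sum.elim_inl, completeBipartiteGraph]
      simp
    · simp only [Sum.elim_inl, Sum.elim_inr, completeBipartiteGraph]
      simp
    · simp only [Sum.elim_inl, Sum.elim_inr, completeBipartiteGraph]
      simp
    · simp only [Sum.elim_inr, completeBipartiteGraph]
      simp

/-! ### truth values -/

variable {κ : Par} {σ : St}

/-- the value of `e` is nonzero iff `P` holds -/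
def Tr (κ : Par) (σ : St) (e : E) (l : List ℕ) (P : Prop) : Prop := e.ev κ σ l = 0 ↔ ¬ P

theorem tr_congr {e : E} {l : List ℕ} {P Q : Prop} (h : Tr κ σ e l P) (hPQ : P ↔ Q) :
    Tr κ σ e l Q := by
  unfold Tr at h ⊢
  rw [h, hPQ]

theorem tr_and {a b : E} {l : List ℕ} {P Q : Prop} (h1 : Tr κ σ a l P) (h2 : P → Tr κ σ b l Q) :
    Tr κ σ (E.and a b) l (P ∧ Q) := by
  unfold Tr at h1 h2 ⊢
  rw [ev_and]
  by_cases hP : P
  · have h3 := h2 hP
    split_ifs with h4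
    · exact absurd hP (h1.1 h4)
    · rw [h3]
      tauto
  · rw [if_pos (h1.2 hP)]
    tauto

theorem tr_or {a b : E} {l : List ℕ} {P Q : Prop} (h1 : Tr κ σ a l P) (h2 : ¬ P → Tr κ σ b l Q) :
    Tr κ σ (E.or a b) l (P ∨ Q) := by
  unfold Tr at h1 h2 ⊢
  rw [ev_or]
  by_cases hP : P
  · split_ifs with h4
    · exact absurd hP (h1.1 h4)
    · simp [hP]
  · rw [if_pos (h1.2 hP), h2 hP]
    tauto

theorem tr_neg {a : E} {l : List ℕ} {P : Prop} (h1 : Tr κ σ a l P) :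
    Tr κ σ (E.neg a) l (¬ P) := by
  unfold Tr at h1 ⊢
  rw [ev_neg]
  by_cases hP : P
  · have h3 : ¬ a.ev κ σ l = 0 := fun h => h1.1 h hP
    simp [hP, h3]
  · simp [hP, h1.2 hP]

theorem tr_eqn {a b : E} {l : List ℕ} {x y : ℕ} (h1 : a.ev κ σ l = x) (h2 : b.ev κ σ l = y) :
    Tr κ σ (E.eqn a b) l (x = y) := by
  unfold Tr
  rw [ev_eqn, h1, h2]
  split_ifs with h
  · simp [h]
  · simp [h]

theorem tr_less {a b : E} {l : List ℕ} {x y : ℕ} (h1 : a.ev κ σ l = x) (h2 : b.ev κ σ l = y) :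
    Tr κ σ (E.less a b) l (x < y) := by
  unfold Tr
  rw [ev_less, h1, h2]
  split_ifs with h
  · simp [h]
  · simp [h]

theorem tr_all {d : ℕ} {n b : E} {l : List ℕ} {m : ℕ} {P : ℕ → Prop} (hl : l.length = d)
    (hn : n.ev κ σ l = m) (hm : m ≤ κ.cap) (h1 : 1 ≤ κ.top)
    (hP : ∀ i < m, ∀ acc, Tr κ σ b (l ++ [i, acc, m]) (P i)) :
    Tr κ σ (E.all d n b) l (∀ i < m, P i) := by
  classical
  unfold Tr
  rw [ev_all κ σ l d n b m P hl hn hm h1 hP]
  split_ifs with h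
  · simpa using h
  · simpa using h

theorem tr_ex {d : ℕ} {n b : E} {l : List ℕ} {m : ℕ} {P : ℕ → Prop} (hl : l.length = d)
    (hn : n.ev κ σ l = m) (hm : m ≤ κ.cap) (h1 : 1 ≤ κ.top)
    (hP : ∀ i < m, ∀ acc, Tr κ σ b (l ++ [i, acc, m]) (P i)) :
    Tr κ σ (E.ex d n b) l (∃ i < m, P i) := by
  classical
  unfold Tr
  rw [ev_ex κ σ l d n b m P hl hn hm h1 hP]
  split_ifs with h
  · simpa using h
  · simpa using h

theorem ac_tr (s c a b : ℕ) (h : 2 ^ (s ^ 2) ≤ κ.cap) (ht : κ.cap ≤ κ.top) :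
    acE.ev κ σ [s, c, a, b] = (if (a < s ∧ b < s) ∧
      (c / 2 ^ (a * s + b) % 2 = 1 ∨ c / 2 ^ (b * s + a) % 2 = 1) then 1 else 0) := by
  have hlt : ∀ i j, i < s → j < s → i * s + j < s ^ 2 := by
    intro i j hi hj
    calc i * s + j < i * s + s := by omega
      _ = (i + 1) * s := by ring
      _ ≤ s * s := Nat.mul_le_mul_right s hi
      _ = s ^ 2 := by ring
  have hbc : ∀ i j, i < s → j < s →
      bcE.ev κ σ [c, i * s + j] = c / 2 ^ (i * s + j) % 2 := by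
    intro i j hi hj
    have h1 := hlt i j hi hj
    have h2 : s ^ 2 < 2 ^ (s ^ 2) := Nat.lt_two_pow_self
    refine ev_bc κ σ c _ (by omega) ?_
    exact le_trans (le_trans (Nat.pow_le_pow_right (by norm_num) h1.le) h) ht
  have e0 : (E.and (less (.v 2) (.v 0)) (less (.v 3) (.v 0))).ev κ σ [s, c, a, b] =
      if a < s ∧ b < s then 1 else 0 := by
    rw [ev_and, ev_less, ev_less]
    change (if (if a < s then 1 else 0) = 0 then 0 else if b < s then 1 else 0) = _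
    split_ifs <;> simp_all
  have e1 : (call2 bcE (.v 1) (.v 2 * .v 0 + .v 3)).ev κ σ [s, c, a, b] =
      bcE.ev κ σ [c, a * s + b] := by
    rw [ev_call2]
    rfl
  have e2 : (call2 bcE (.v 1) (.v 3 * .v 0 + .v 2)).ev κ σ [s, c, a, b] =
      bcE.ev κ σ [c, b * s + a] := by
    rw [ev_call2]
    rfl
  rw [acE, ev_and, e0, ev_or, e1, e2]
  by_cases h1 : a < s ∧ b < s
  · rw [hbc a b h1.1 h1.2, hbc b a h1.2 h1.1]
    have h3 : c / 2 ^ (a * s + b) % 2 = 0 ∨ c / 2 ^ (a * s + b) % 2 = 1 := by omega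
    have h4 : c / 2 ^ (b * s + a) % 2 = 0 ∨ c / 2 ^ (b * s + a) % 2 = 1 := by omega
    rcases h3 with h3 | h3 <;> rcases h4 with h4 | h4 <;> simp [h1, h3, h4]
  · simp [h1]

theorem cg_iff (s c a b : ℕ) (hab : a ≠ b) : (cg s c).Adj a b ↔ (a < s ∧ b < s) ∧
    (c / 2 ^ (a * s + b) % 2 = 1 ∨ c / 2 ^ (b * s + a) % 2 = 1) := by
  rw [cg, SimpleGraph.fromRel_adj]
  tauto

theorem ac_tr' (s c a b : ℕ) (h : 2 ^ (s ^ 2) ≤ κ.cap) (ht : κ.cap ≤ κ.top) (hab : a ≠ b) :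
    Tr κ σ acE [s, c, a, b] ((cg s c).Adj a b) := by
  unfold Tr
  rw [ac_tr s c a b h ht, cg_iff s c a b hab]
  split_ifs with h1
  · exact ⟨fun h2 => absurd h2 (by norm_num), fun h2 => absurd h1 h2⟩
  · exact ⟨fun _ => h1, fun _ => rfl⟩

/-- the vertex `a` of the union in the test graph -/
def na (k l a : ℕ) : ℕ := if a < k then a else a - l

theorem tpos_na {k l a : ℕ} (h : a < k ∨ ¬ a < k + l) : tpos k l (na k l a) = a := by
  unfold tpos na
  by_cases h1 : a < k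
  · simp [h1]
  · have h2 : ¬ a < k + l := h.resolve_left h1
    rw [if_neg h1, if_neg (by omega)]
    omega

theorem na_tpos (k l u : ℕ) : na k l (tpos k l u) = u := by
  unfold tpos na
  by_cases h1 : u < k
  · simp [h1]
  · rw [if_neg h1, if_neg (by omega)]
    omega

theorem va_tpos (k l u : ℕ) : tpos k l u < k ∨ ¬ tpos k l u < k + l := by
  unfold tpos
  by_cases h1 : u < k
  · simp [h1]
  · rw [if_neg h1]
    omega

theorem ug_iff (k l c q a b : ℕ) (hab : a ≠ b) : (ug k l c q).Adj a b ↔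
    (cg (k + l) c).Adj a b ∨ ((a < k ∨ ¬ a < k + l) ∧ ((b < k ∨ ¬ b < k + l) ∧
      (cg (k + 6) q).Adj (na k l a) (na k l b))) := by
  rw [ug, SimpleGraph.sup_adj, SimpleGraph.map_adj']
  refine or_congr Iff.rfl ?_
  constructor
  · rintro ⟨-, u, v, huv, rfl, rfl⟩
    exact ⟨va_tpos k l u, va_tpos k l v, by rw [na_tpos, na_tpos]; exact huv⟩
  · rintro ⟨h1, h2, h3⟩
    exact ⟨hab, _, _, h3, tpos_na h1, tpos_na h2⟩

theorem ua_tr (k l c q a b : ℕ) (h : 2 ^ ((k + l + 6) ^ 2) ≤ κ.cap)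
    (ht : κ.cap ≤ κ.top) (hab : a ≠ b) :
    Tr κ σ uaE [k, l, c, q, a, b] ((ug k l c q).Adj a b) := by
  have hc1 : 2 ^ ((k + l) ^ 2) ≤ κ.cap :=
    le_trans (Nat.pow_le_pow_right (by norm_num) (Nat.pow_le_pow_left (by omega) 2)) h
  have hc2 : 2 ^ ((k + 6) ^ 2) ≤ κ.cap :=
    le_trans (Nat.pow_le_pow_right (by norm_num) (Nat.pow_le_pow_left (by omega) 2)) h
  refine tr_congr ?_ (ug_iff k l c q a b hab).symm
  unfold uaE
  have hva : ∀ a, Tr κ σ vaE [k, l, a] (a < k ∨ ¬ a < k + l) := fun a =>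
    tr_or (tr_less rfl rfl) (fun _ => tr_neg (tr_less rfl rfl))
  have hna : ∀ a, naE.ev κ σ [k, l, a] = na k l a := by
    intro a
    rw [naE, ev_ite, ev_less]
    change (if (if a < k then 1 else 0) = 0 then a - l else a) = na k l a
    unfold na
    split_ifs <;> simp_all
  refine tr_or ?_ fun _ => tr_and ?_ fun h1 => tr_and ?_ fun h2 => ?_
  · unfold Tr
    rw [ev_call4]
    exact ac_tr' (k + l) c a b hc1 ht hab
  · unfold Tr
    rw [ev_call3]
    exact hva a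
  · unfold Tr
    rw [ev_call3]
    exact hva b
  · have hne : na k l a ≠ na k l b := by
      intro h3
      apply hab
      rw [← tpos_na h1, h3, tpos_na h2]
    have e1 : ∀ t, (call3 naE (.v 0) (.v 1) (.v 4)).ev κ σ ([k, l, c, q, a, b] ++ t) =
        na k l a := by
      intro t
      rw [ev_call3, ← hna a]
      rfl
    have e2 : ∀ t, (call3 naE (.v 0) (.v 1) (.v 5)).ev κ σ ([k, l, c, q, a, b] ++ t) =
        na k l b := by
      intro t
      rw [ev_call3, ← hna b]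
      rfl
    unfold Tr
    rw [ev_call4, e1, e2]
    exact ac_tr' (k + 6) q _ _ hc2 ht hne

theorem ac_le (s c a b : ℕ) : acE.ev κ σ [s, c, a, b] ≤ 1 := by
  have h : ∀ l, bcE.ev κ σ l ≤ 1 := by
    intro l
    rw [bcE, ev_mod]
    change _ % 2 ≤ 1
    omega
  rw [acE, ev_and, ev_or, ev_call2, ev_call2]
  split_ifs
  · exact Nat.zero_le _
  · exact h _
  · exact le_rfl

theorem ua_le (k l c q a b : ℕ) : uaE.ev κ σ [k, l, c, q, a, b] ≤ 1 := by
  rw [uaE, ev_or, ev_and, ev_and, ev_call4 κ σ _ acE (.v 0 + 6)]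
  split_ifs
  · exact Nat.zero_le _
  · exact Nat.zero_le _
  · exact ac_le _ _ _ _
  · exact le_rfl

theorem eq_of_tr {e : E} {l : List ℕ} {P : Prop} [Decidable P] (h : Tr κ σ e l P)
    (h1 : e.ev κ σ l ≤ 1) : e.ev κ σ l = if P then 1 else 0 := by
  unfold Tr at h
  split_ifs with hP
  · have h2 : ¬ e.ev κ σ l = 0 := fun h3 => h.1 h3 hP
    omega
  · exact h.2 hP

/-! ### connected classes and the search for a minor -/

theorem tr_or_right {a b : E} {l : List ℕ} {P Q : Prop} (h2 : Tr κ σ b l Q) (hQ : Q) :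
    Tr κ σ (E.or a b) l (P ∨ Q) := by
  unfold Tr at h2 ⊢
  rw [ev_or]
  have h3 : ¬ b.ev κ σ l = 0 := fun h => h2.1 h hQ
  split_ifs with h4
  · exact ⟨fun h => absurd h h3, fun h => absurd (Or.inr hQ) h⟩
  · exact ⟨fun h => absurd h (by norm_num), fun h => absurd (Or.inr hQ) h⟩

/-- the bounds needed for the search -/
structure Bd (κ : Par) (s : ℕ) : Prop where
  ht : κ.cap ≤ κ.top
  h6 : 6 ≤ κ.cap
  hs : s ≤ κ.cap
  h2 : 2 ^ s ≤ κ.cap
  h7 : 7 ^ s ≤ κ.cap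
  hss : 2 ^ (s ^ 2) ≤ κ.cap

theorem bd_of {s : ℕ} (hs6 : 6 ≤ s) (h : 2 ^ (3 * s ^ 2) ≤ κ.cap) (ht : κ.cap ≤ κ.top) :
    Bd κ s := by
  have h1 : s ≤ s ^ 2 := by nlinarith
  have h2 : s < 2 ^ s := Nat.lt_two_pow_self
  have h3 : 2 ^ s ≤ κ.cap := le_trans (Nat.pow_le_pow_right (by norm_num) (by omega)) h
  refine ⟨ht, by omega, by omega, h3, ?_,
    le_trans (Nat.pow_le_pow_right (by norm_num) (by omega)) h⟩
  calc 7 ^ s ≤ 8 ^ s := Nat.pow_le_pow_left (by norm_num) s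
    _ = 2 ^ (3 * s) := by rw [pow_mul]; norm_num
    _ ≤ 2 ^ (3 * s ^ 2) := Nat.pow_le_pow_right (by norm_num) (by omega)
    _ ≤ κ.cap := h

theorem di_ev {s : ℕ} (hB : Bd κ s) (b x a : ℕ) (hb : b = 2 ∨ b = 7) (ha : a < s) :
    diE.ev κ σ [b, x, a] = x / b ^ a % b := by
  have h1 := hB.ht
  have h2 := hB.hs
  have h3 := hB.h2
  have h4 := hB.h7
  rcases hb with rfl | rfl
  · refine ev_di κ σ 2 x a (by omega) (by norm_num) ?_
    have : 2 ^ a ≤ 2 ^ s := Nat.pow_le_pow_right (by norm_num) ha.le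
    omega
  · refine ev_di κ σ 7 x a (by omega) (by norm_num) ?_
    have : 7 ^ a ≤ 7 ^ s := Nat.pow_le_pow_right (by norm_num) ha.le
    omega

theorem cc_tr (k l c q φ x : ℕ) (hB : Bd κ (k + l + 6)) :
    Tr κ σ ccE [k, l, c, q, φ, x]
      (CC (ug k l c q) (k + l + 6) (fun a => φ / 7 ^ a % 7) x) := by
  have h1t : 1 ≤ κ.top := by
    have h1 := hB.ht
    have h2 := hB.h6
    omega
  have hpow : (call2 powE 2 (.v 0 + .v 1 + 6)).ev κ σ [k, l, c, q, φ, x] = 2 ^ (k + l + 6) := by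
    rw [ev_call2]
    exact ev_pow κ σ 2 (k + l + 6) hB.hs (by norm_num) (le_trans hB.h2 hB.ht)
  unfold ccE
  refine tr_all rfl hpow hB.h2 h1t fun ψ hψ acc => ?_
  refine tr_or (tr_neg ?_) fun _ => ?_
  · refine tr_all rfl rfl hB.hs h1t fun a ha acc1 => ?_
    refine tr_all rfl rfl hB.hs h1t fun b hb acc2 => ?_
    have hd : Tr κ σ (eqn (call3 diE 2 (.v 6) (.v 9)) (call3 diE 2 (.v 6) (.v 12)))
        ((([k, l, c, q, φ, x] ++ [ψ, acc, 2 ^ (k + l + 6)]) ++ [a, acc1, k + l + 6]) ++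
          [b, acc2, k + l + 6]) (ψ / 2 ^ a % 2 = ψ / 2 ^ b % 2) := by
      refine tr_eqn ?_ ?_
      · rw [ev_call3]
        exact di_ev hB 2 ψ a (Or.inl rfl) ha
      · rw [ev_call3]
        exact di_ev hB 2 ψ b (Or.inl rfl) hb
    by_cases hab : a = b
    · subst hab
      exact tr_or_right hd rfl
    · refine tr_or (tr_neg ?_) fun _ => hd
      refine tr_and (tr_eqn ?_ rfl) fun _ => tr_and (tr_eqn ?_ rfl) fun _ => ?_
      · rw [ev_call3]
        exact di_ev hB 7 φ a (Or.inr rfl) ha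
      · rw [ev_call3]
        exact di_ev hB 7 φ b (Or.inr rfl) hb
      · have h1 := ua_tr (σ := σ) k l c q a b hB.hss hB.ht hab
        unfold Tr at h1 ⊢
        rw [ev_call6' κ σ _ _ _ _ _ _ _ _ k l c q a b (fun _ => rfl) (fun _ => rfl)
          (fun _ => rfl) (fun _ => rfl) (fun _ => rfl) (fun _ => rfl)]
        exact h1
  · refine tr_all rfl rfl hB.hs h1t fun a ha acc1 => ?_
    refine tr_all rfl rfl hB.hs h1t fun b hb acc2 => ?_
    refine tr_or (tr_neg ?_) fun _ => ?_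
    · refine tr_and (tr_eqn ?_ rfl) fun _ => tr_eqn ?_ rfl
      · rw [ev_call3]
        exact di_ev hB 7 φ a (Or.inr rfl) ha
      · rw [ev_call3]
        exact di_ev hB 7 φ b (Or.inr rfl) hb
    · refine tr_eqn ?_ ?_
      · rw [ev_call3]
        exact di_ev hB 2 ψ a (Or.inl rfl) ha
      · rw [ev_call3]
        exact di_ev hB 2 ψ b (Or.inl rfl) hb

/-- adjacency in `K₅` or `K₃,₃` -/
def PA (t x y : ℕ) : Prop := if t = 0 then x ≠ y else ¬ (x < 3 ↔ y < 3)

theorem pa_tr (t x y : ℕ) : Tr κ σ paE [t, x, y] (PA t x y) := by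
  unfold Tr paE PA
  rw [ev_ite]
  change (if t = 0 then (neg (eqn (.v 1) (.v 2))).ev κ σ [t, x, y] else
    (neg (eqn (less (.v 1) 3) (less (.v 2) 3))).ev κ σ [t, x, y]) = 0 ↔ _
  by_cases h : t = 0
  · rw [if_pos h, if_pos h]
    exact tr_neg (tr_eqn rfl rfl)
  · rw [if_neg h, if_neg h]
    have h1 : Tr κ σ (neg (eqn (less (.v 1) 3) (less (.v 2) 3))) [t, x, y]
        (¬ ((if x < 3 then 1 else 0) = (if y < 3 then 1 else 0))) := tr_neg (tr_eqn rfl rfl)
    refine tr_congr h1 (not_congr ?_)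
    by_cases h2 : x < 3 <;> by_cases h3 : y < 3 <;> simp [h2, h3]

theorem pa_ne {t x y : ℕ} (h : PA t x y) : x ≠ y := by
  rintro rfl
  unfold PA at h
  split_ifs at h
  · exact h rfl
  · exact h Iff.rfl

theorem np_tr (k l c q t acc0 : ℕ) (ht : t < 2) (hB : Bd κ (k + l + 6)) :
    Tr κ σ (ex 7 (call2 powE 7 (.v 0 + .v 1 + 6))
      (E.and (all 10 (5 + .v 4) (E.and (ex 13 (.v 0 + .v 1 + 6)
        (eqn (call3 diE 7 (.v 7) (.v 13)) (.v 10)))
        (call6 ccE (.v 0) (.v 1) (.v 2) (.v 3) (.v 7) (.v 10))))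
      (all 10 (5 + .v 4) (all 13 (5 + .v 4) (E.or (neg (call3 paE (.v 4) (.v 10) (.v 13)))
        (ex 16 (.v 0 + .v 1 + 6) (ex 19 (.v 0 + .v 1 + 6)
          (E.and (eqn (call3 diE 7 (.v 7) (.v 16)) (.v 10))
            (E.and (eqn (call3 diE 7 (.v 7) (.v 19)) (.v 13))
              (call6 uaE (.v 0) (.v 1) (.v 2) (.v 3) (.v 16) (.v 19)))))))))))
      ([k, l, c, q] ++ [t, acc0, 2])
      (∃ φ < 7 ^ (k + l + 6),
        Mod (ug k l c q) (k + l + 6) (5 + t) (PA t) (fun a => φ / 7 ^ a % 7)) := by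
  have h1t : 1 ≤ κ.top := by
    have h1 := hB.ht
    have h2 := hB.h6
    omega
  have h5t : 5 + t ≤ κ.cap := by
    have h2 := hB.h6
    omega
  have hpow : (call2 powE 7 (.v 0 + .v 1 + 6)).ev κ σ ([k, l, c, q] ++ [t, acc0, 2]) =
      7 ^ (k + l + 6) := by
    rw [ev_call2]
    exact ev_pow κ σ 7 (k + l + 6) hB.hs (by norm_num) (le_trans hB.h7 hB.ht)
  refine tr_ex rfl hpow hB.h7 h1t fun φ hφ acc1 => ?_
  refine tr_and ?_ fun _ => ?_
  · refine tr_all rfl rfl h5t h1t fun x hx acc2 => ?_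
    refine tr_and ?_ fun _ => ?_
    · refine tr_ex rfl rfl hB.hs h1t fun a ha acc3 => ?_
      refine tr_eqn ?_ rfl
      rw [ev_call3]
      exact di_ev hB 7 φ a (Or.inr rfl) ha
    · have h1 := cc_tr (σ := σ) k l c q φ x hB
      unfold Tr at h1 ⊢
      rw [ev_call6' κ σ _ _ _ _ _ _ _ _ k l c q φ x (fun _ => rfl) (fun _ => rfl)
        (fun _ => rfl) (fun _ => rfl) (fun _ => rfl) (fun _ => rfl)]
      exact h1
  · refine tr_all rfl rfl h5t h1t fun x hx acc2 => ?_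
    refine tr_all rfl rfl h5t h1t fun y hy acc3 => ?_
    refine tr_or (tr_neg ?_) fun hPA => ?_
    · have h1 := pa_tr (κ := κ) (σ := σ) t x y
      unfold Tr at h1 ⊢
      rw [ev_call3]
      exact h1
    · have hxy := pa_ne (not_not.1 hPA)
      refine tr_ex rfl rfl hB.hs h1t fun a ha acc4 => ?_
      refine tr_ex rfl rfl hB.hs h1t fun b hb acc5 => ?_
      refine tr_and (P := φ / 7 ^ a % 7 = x) (tr_eqn ?_ rfl) fun h1 =>
        tr_and (P := φ / 7 ^ b % 7 = y) (tr_eqn ?_ rfl) fun h2 => ?_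
      · rw [ev_call3]
        exact di_ev hB 7 φ a (Or.inr rfl) ha
      · rw [ev_call3]
        exact di_ev hB 7 φ b (Or.inr rfl) hb
      · have hab : a ≠ b := by
          rintro rfl
          exact hxy (h1.symm.trans h2)
        have h3 := ua_tr (σ := σ) k l c q a b hB.hss hB.ht hab
        unfold Tr at h3 ⊢
        rw [ev_call6' κ σ _ _ _ _ _ _ _ _ k l c q a b (fun _ => rfl) (fun _ => rfl)
          (fun _ => rfl) (fun _ => rfl) (fun _ => rfl) (fun _ => rfl)]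
        exact h3

theorem ug_lt (k l c q a b : ℕ) (h : (ug k l c q).Adj a b) : a < k + l + 6 := by
  rw [ug_iff k l c q a b h.ne] at h
  rcases h with h | ⟨h1, -, h2⟩
  · rw [cg_iff _ _ _ _ h.ne] at h
    omega
  · rw [cg_iff _ _ _ _ h2.ne] at h2
    have h3 := h2.1.1
    unfold na at h3
    split_ifs at h3 with h4
    · omega
    · omega

theorem np_iff (k l c q : ℕ) : (∃ t < 2, ∃ φ < 7 ^ (k + l + 6),
      Mod (ug k l c q) (k + l + 6) (5 + t) (PA t) (fun a => φ / 7 ^ a % 7)) ↔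
    ¬ Planar (ug k l c q) := by
  have h5 := minor_k5 (ug k l c q) (k + l + 6) (ug_lt k l c q)
  have h33 := minor_k33 (ug k l c q) (k + l + 6) (ug_lt k l c q)
  have e0 : PA 0 = fun x y => x ≠ y := by
    funext x y
    simp [PA]
  have e1 : PA 1 = fun x y => ¬ (x < 3 ↔ y < 3) := by
    funext x y
    simp [PA]
  unfold Planar
  rw [h5, h33]
  constructor
  · rintro ⟨t, ht, h⟩ ⟨h1, h2⟩
    have h3 : t = 0 ∨ t = 1 := by omega
    rcases h3 with rfl | rfl
    · rw [e0] at h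
      exact h1 h
    · rw [e1] at h
      exact h2 h
  · intro h
    by_cases h1 : ∃ φ < 7 ^ (k + l + 6), Mod (ug k l c q) (k + l + 6) 5 (fun x y => x ≠ y)
        (fun a => φ / 7 ^ a % 7)
    · refine ⟨0, by norm_num, ?_⟩
      rw [e0]
      exact h1
    · refine ⟨1, by norm_num, ?_⟩
      rw [e1]
      by_contra h2
      exact h ⟨h1, h2⟩

end PNpAux

open PNpAux GMinorAux

theorem ac_spec (κ : Par) (σ : St) (s c a b : ℕ) (h : 2 ^ (s ^ 2) ≤ κ.cap) (ht : κ.cap ≤ κ.top)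
    (hab : a ≠ b) [Decidable ((cg s c).Adj a b)] :
    acE.ev κ σ [s, c, a, b] = if (cg s c).Adj a b then 1 else 0 := by
  rw [ac_tr s c a b h ht]
  refine if_congr ?_ rfl rfl
  rw [cg, SimpleGraph.fromRel_adj]
  tauto

theorem ua_spec (κ : Par) (σ : St) (k l c q a b : ℕ) (h : 2 ^ ((k + l + 6) ^ 2) ≤ κ.cap)
    (ht : κ.cap ≤ κ.top) (hab : a ≠ b) [Decidable ((ug k l c q).Adj a b)] :
    uaE.ev κ σ [k, l, c, q, a, b] = if (ug k l c q).Adj a b then 1 else 0 :=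
  eq_of_tr (ua_tr k l c q a b h ht hab) (ua_le k l c q a b)

theorem np_spec (κ : Par) (σ : St) (k l c q : ℕ) (h : 2 ^ (3 * (k + l + 6) ^ 2) ≤ κ.cap)
    (ht : κ.cap ≤ κ.top) [Decidable (Planar (ug k l c q))] :
    npE.ev κ σ [k, l, c, q] = if Planar (ug k l c q) then 0 else 1 := by
  classical
  have hB : Bd κ (k + l + 6) := bd_of (by omega) h ht
  have h2 : 2 ≤ κ.cap := le_trans (by norm_num) hB.h6
  have h1 : 1 ≤ κ.top := by
    have := hB.ht
    omega
  rw [npE, ev_ex κ σ [k, l, c, q] 4 2 _ 2 (fun t => ∃ φ < 7 ^ (k + l + 6),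
    Mod (ug k l c q) (k + l + 6) (5 + t) (PA t) (fun a => φ / 7 ^ a % 7)) rfl rfl h2 h1
    (fun t ht acc => np_tr k l c q t acc ht hB)]
  rw [if_congr (np_iff k l c q) rfl rfl]
  split_ifs <;> rfl

end Pool.Agent.MP9d6bd1
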