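import Mathlib
import Pool.Agent.Lib.MP_9d6bd1_lc.EvLib

/-!
# MP_9d6bd1_lc, program part: module P04 (PEnum), enumeration functions
-/

set_option autoImplicit false

open Classical

namespace Pool.Agent.MP9d6bd1

open E

namespace PEnumAux

/-- running minimum of the values `v x`, `x < i`, that satisfy `P`, started with `N` -/
noncomputable def run (N : ℕ) (P : ℕ → Prop) (v : ℕ → ℕ) : ℕ → ℕ
  | 0 => N
  | i + 1 => if P (v i) ∧ v i < run N P v i then v i else run N P v i

theorem run_le (N : ℕ) (P : ℕ → Prop) (v : ℕ → ℕ) (i : ℕ) : run N P v i ≤ N := by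
  induction i with
  | zero => exact le_rfl
  | succ i ih =>
    rw [run]
    split_ifs with h
    · exact (h.2.trans_le ih).le
    · exact ih

theorem run_mem (N : ℕ) (P : ℕ → Prop) (v : ℕ → ℕ) (i : ℕ) :
    run N P v i = N ∨ ((∃ x < i, v x = run N P v i) ∧ P (run N P v i)) := by
  induction i with
  | zero => exact Or.inl rfl
  | succ i ih =>
    rw [run]
    split_ifs with h
    · exact Or.inr ⟨⟨i, by omega, rfl⟩, h.1⟩
    · rcases ih with h1 | ⟨⟨x, hx, h1⟩, h2⟩
      · exact Or.inl h1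
      · exact Or.inr ⟨⟨x, by omega, h1⟩, h2⟩

theorem run_min (N : ℕ) (P : ℕ → Prop) (v : ℕ → ℕ) (i : ℕ) :
    ∀ x < i, P (v x) → run N P v i ≤ v x := by
  induction i with
  | zero => intro x hx; omega
  | succ i ih =>
    intro x hx hP
    have h0 : run N P v (i + 1) ≤ run N P v i := by
      rw [run]
      split_ifs with h
      · exact h.2.le
      · exact le_rfl
    rcases Nat.lt_succ_iff_lt_or_eq.1 hx with h | h
    · exact h0.trans (ih x h hP)
    · subst h
      rw [run]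
      split_ifs with h
      · exact le_rfl
      · exact not_lt.1 fun h2 => h ⟨hP, h2⟩

theorem list_zero (L : List ℕ) (hL : L.SortedLT) (N r : ℕ) (hN : ∀ y ∈ L, y < N)
    (h1 : r = N ∨ r ∈ L) (h2 : ∀ y ∈ L, r ≤ y) : r = L.getD 0 N := by
  by_cases h : 0 < L.length
  · rw [List.getD_eq_getElem _ _ h]
    have h3 := h2 _ (List.getElem_mem h)
    have h4 := hN _ (List.getElem_mem h)
    rcases h1 with h1 | h1
    · omega
    · obtain ⟨j, hj, rfl⟩ := List.getElem_of_mem h1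
      exact le_antisymm h3 ((hL.getElem_le_getElem_iff (hi := h) (hj := hj)).2 (Nat.zero_le _))
  · rw [List.getD_eq_default _ _ (not_lt.1 h)]
    rcases h1 with h1 | h1
    · exact h1
    · exact absurd (List.length_pos_of_mem h1) h

theorem list_succ (L : List ℕ) (hL : L.SortedLT) (N r i : ℕ) (hN : ∀ y ∈ L, y < N)
    (h1 : r = N ∨ (r ∈ L ∧ L.getD i N < r)) (h2 : ∀ y ∈ L, L.getD i N < y → r ≤ y) :
    r = L.getD (i + 1) N := by
  by_cases h : i + 1 < L.length
  · have hi : i < L.length := by omega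
    rw [List.getD_eq_getElem _ _ hi] at h1 h2
    rw [List.getD_eq_getElem _ _ h]
    have h3 := h2 _ (List.getElem_mem h) (hL.getElem_lt_getElem_iff.2 (Nat.lt_succ_self i))
    have h4 := hN _ (List.getElem_mem h)
    rcases h1 with h1 | ⟨h1, h5⟩
    · omega
    · obtain ⟨j, hj, rfl⟩ := List.getElem_of_mem h1
      have h6 : i < j := hL.getElem_lt_getElem_iff.1 h5
      exact le_antisymm h3 ((hL.getElem_le_getElem_iff).2 h6)
  · rw [List.getD_eq_default _ _ (not_lt.1 h)]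
    rcases h1 with h1 | ⟨h1, h5⟩
    · exact h1
    · exfalso
      by_cases hi : i < L.length
      · rw [List.getD_eq_getElem _ _ hi] at h5
        obtain ⟨j, hj, rfl⟩ := List.getElem_of_mem h1
        have h6 : i < j := hL.getElem_lt_getElem_iff.1 h5
        omega
      · rw [List.getD_eq_default _ _ (not_lt.1 hi)] at h5
        exact absurd (hN _ h1) (not_lt.2 h5.le)

theorem getD_le (L : List ℕ) (N i : ℕ) (hN : ∀ y ∈ L, y < N) : L.getD i N ≤ N := by
  by_cases h : i < L.length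
  · rw [List.getD_eq_getElem _ _ h]
    exact (hN _ (List.getElem_mem h)).le
  · rw [List.getD_eq_default _ _ (not_lt.1 h)]

theorem mn_run (κ : Par) (σ : St) (dom f : E) (m u : ℕ)
    (hdom : ∀ l, dom.ev κ σ l = m) (hm : m ≤ κ.cap) (ht : σ.g 3 ≤ κ.top) :
    (mnE dom f).ev κ σ [u] = run (σ.g 3) (fun _ => True) (fun x => f.ev κ σ [u, x]) m := by
  refine ev_fold κ σ [u] _ _ _ m _ (hdom _) hm rfl ?_ ?_
  · intro i _
    rw [run]
    simp only [ev_lt, ev_call2, ev_ite, ev_less, ev_v]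
    simp only [List.getD_cons_zero, List.getD_cons_succ, List.cons_append,
      List.nil_append, true_and]
    split_ifs <;> simp_all
  · intro i _
    exact (run_le _ _ _ _).trans ht

theorem nx_run (κ : Par) (σ : St) (dom f : E) (m u t : ℕ)
    (hdom : ∀ l, dom.ev κ σ l = m) (hm : m ≤ κ.cap) (ht : σ.g 3 ≤ κ.top) :
    (nxE dom f).ev κ σ [u, t] =
      run (σ.g 3) (fun y => t < y) (fun x => f.ev κ σ [u, x]) m := by
  refine ev_fold κ σ [u, t] _ _ _ m _ (hdom _) hm rfl ?_ ?_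
  · intro i _
    rw [run]
    simp only [ev_lt, ev_call2, ev_ite, ev_less, ev_v, ev_and]
    simp only [List.getD_cons_zero, List.getD_cons_succ, List.cons_append, List.nil_append]
    split_ifs <;> simp_all
  · intro i _
    exact (run_le _ _ _ _).trans ht

end PEnumAux

theorem mn_spec (κ : Par) (σ : St) (dom f : E) (m u : ℕ) (s : Finset ℕ)
    (hdom : ∀ l, dom.ev κ σ l = m) (hm : m ≤ κ.cap) (ht : σ.g 3 ≤ κ.top)
    (hs : ∀ y, y ∈ s ↔ y < σ.g 3 ∧ ∃ x < m, f.ev κ σ [u, x] = y) :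
    (mnE dom f).ev κ σ [u] = (s.sort).getD 0 (σ.g 3) := by
  rw [PEnumAux.mn_run κ σ dom f m u hdom hm ht]
  refine PEnumAux.list_zero _ (Finset.sortedLT_sort s) _ _ ?_ ?_ ?_
  · intro y hy
    exact ((hs y).1 ((Finset.mem_sort _).1 hy)).1
  · rcases PEnumAux.run_mem (σ.g 3) (fun _ => True) (fun x => f.ev κ σ [u, x]) m with h | ⟨h, -⟩
    · exact Or.inl h
    · rcases (PEnumAux.run_le (σ.g 3) (fun _ => True) (fun x => f.ev κ σ [u, x]) m).eq_or_lt
        with h1 | h1
      · exact Or.inl h1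
      · exact Or.inr ((Finset.mem_sort _).2 ((hs _).2 ⟨h1, h⟩))
  · intro y hy
    obtain ⟨-, x, hx, rfl⟩ := (hs y).1 ((Finset.mem_sort _).1 hy)
    exact PEnumAux.run_min _ _ _ _ x hx trivial

theorem el_spec (κ : Par) (σ : St) (dom f : E) (m u i : ℕ) (s : Finset ℕ)
    (hdom : ∀ l, dom.ev κ σ l = m) (hm : m ≤ κ.cap) (ht : σ.g 3 ≤ κ.top) (hi : i ≤ κ.cap)
    (hs : ∀ y, y ∈ s ↔ y < σ.g 3 ∧ ∃ x < m, f.ev κ σ [u, x] = y) :
    (elE dom f).ev κ σ [u, i] = (s.sort).getD i (σ.g 3) := by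
  have hN : ∀ y ∈ s.sort, y < σ.g 3 := fun y hy => ((hs y).1 ((Finset.mem_sort _).1 hy)).1
  refine ev_fold κ σ [u, i] (.v 1) (call1 (mnE dom f) (.v 0)) (call2 (nxE dom f) (.v 0) (.v 3)) i
    (fun j => (s.sort).getD j (σ.g 3)) rfl hi ?_ ?_ ?_
  · rw [ev_call1]
    exact mn_spec κ σ dom f m u s hdom hm ht hs
  · intro j _
    rw [ev_call2]
    simp only [ev_v]
    have h0 : (([u, i] ++ [j, (s.sort).getD j (σ.g 3), i] ++ [u] : List ℕ)).getD 3 0 =
        (s.sort).getD j (σ.g 3) := rfl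
    have h1 : (([u, i] ++ [j, (s.sort).getD j (σ.g 3), i] : List ℕ)).getD 0 0 = u := rfl
    rw [h1, h0, PEnumAux.nx_run κ σ dom f m u _ hdom hm ht]
    refine PEnumAux.list_succ _ (Finset.sortedLT_sort s) _ _ _ hN ?_ ?_
    · generalize hT : (s.sort).getD j (σ.g 3) = T
      rcases PEnumAux.run_mem (σ.g 3) (fun y => T < y)
        (fun x => f.ev κ σ [u, x]) m with h | ⟨h, h2⟩
      · exact Or.inl h
      · rcases (PEnumAux.run_le (σ.g 3) (fun y => T < y)
          (fun x => f.ev κ σ [u, x]) m).eq_or_lt with h1 | h1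
        · exact Or.inl h1
        · exact Or.inr ⟨(Finset.mem_sort _).2 ((hs _).2 ⟨h1, h⟩), h2⟩
    · intro y hy hlt
      obtain ⟨-, x, hx, rfl⟩ := (hs y).1 ((Finset.mem_sort _).1 hy)
      exact PEnumAux.run_min _ _ (fun x => f.ev κ σ [u, x]) _ x hx hlt
  · intro j _
    exact (PEnumAux.getD_le _ _ _ hN).trans ht

end Pool.Agent.MP9d6bd1
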