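import Mathlib
import Pool.Agent.Lib.MP_9d6bd1_lc.EvLib
import Pool.Agent.Lib.MP_9d6bd1_lc.Spec

/-!
# MP_9d6bd1_lc: walks
-/

set_option autoImplicit false

open Classical

namespace Pool.Agent.MP9d6bd1

open E

namespace PWalkAux

/-- the walk with digits in base `b` -/
def pw (s : ℕ → ℕ → ℕ) (b u x : ℕ) : ℕ → ℕ
  | 0 => u
  | i + 1 => s (pw s b u x i) (x / b ^ i % b)

/-- the vertices reached in exactly `i` steps -/
def ps (r : ℕ → ℕ → Prop) (u : ℕ) : ℕ → Set ℕ
  | 0 => {u}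
  | i + 1 => {y | ∃ a ∈ ps r u i, r a y}

theorem pw_reach (s : ℕ → ℕ → ℕ) (D u x : ℕ) (i : ℕ) :
    pw s (D + 1) u x i ∈ reach (fun a b => ∃ j ≤ D, s a j = b) u := by
  induction i with
  | zero => exact Relation.ReflTransGen.refl
  | succ i ih =>
    refine Relation.ReflTransGen.tail ih ⟨x / (D + 1) ^ i % (D + 1), ?_, rfl⟩
    exact Nat.lt_succ_iff.mp (Nat.mod_lt _ (Nat.succ_pos D))

theorem digit_lt (b x d i j : ℕ) (hj : j < i) :
    (x + d * b ^ i) / b ^ j % b = x / b ^ j % b := by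
  rcases Nat.eq_zero_or_pos b with hb | hb
  · subst hb
    rcases Nat.eq_zero_or_pos j with hj0 | hj0
    · subst hj0
      have : (0 : ℕ) ^ i = 0 := by
        rw [Nat.zero_pow hj]
      simp [this]
    · have h1 : (0 : ℕ) ^ j = 0 := Nat.zero_pow hj0
      simp [h1]
  · obtain ⟨k, rfl⟩ : ∃ k, i = j + (k + 1) := ⟨i - j - 1, by omega⟩
    have h1 : x + d * b ^ (j + (k + 1)) = x + b ^ j * (b * (d * b ^ k)) := by
      rw [pow_add, pow_succ]
      ring
    rw [h1, Nat.add_mul_div_left _ _ (pow_pos hb j), Nat.add_mul_mod_self_left]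

theorem pw_add (s : ℕ → ℕ → ℕ) (b u x d i : ℕ) :
    ∀ j ≤ i, pw s b u (x + d * b ^ i) j = pw s b u x j := by
  intro j
  induction j with
  | zero => intro _; rfl
  | succ j ih =>
    intro hj
    simp only [pw]
    rw [ih (by omega), digit_lt b x d i j (by omega)]

theorem ps_code (s : ℕ → ℕ → ℕ) (D u : ℕ) (i : ℕ) :
    ∀ y ∈ ps (fun a b => ∃ j ≤ D, s a j = b) u i, ∃ x < (D + 1) ^ i, pw s (D + 1) u x i = y := by
  induction i with
  | zero =>
    intro y hy
    refine ⟨0, by simp, ?_⟩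
    have : y = u := by simpa [ps] using hy
    simp [pw, this]
  | succ i ih =>
    rintro y ⟨a, ha, d, hd, hs⟩
    obtain ⟨x, hx, hxa⟩ := ih a ha
    refine ⟨x + d * (D + 1) ^ i, ?_, ?_⟩
    · rw [pow_succ]
      have h1 : d * (D + 1) ^ i ≤ D * (D + 1) ^ i := Nat.mul_le_mul_right _ hd
      have h2 : (D + 1) ^ i * (D + 1) = D * (D + 1) ^ i + (D + 1) ^ i := by ring
      rw [h2]
      omega
    · simp only [pw]
      rw [pw_add s (D + 1) u x d i i le_rfl, hxa]
      have h3 : (x + d * (D + 1) ^ i) / (D + 1) ^ i = d := by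
        rw [Nat.add_mul_div_right _ _ (by positivity), Nat.div_eq_of_lt hx, Nat.zero_add]
      rw [h3, Nat.mod_eq_of_lt (by omega), hs]

theorem ps_sub (r : ℕ → ℕ → Prop) (u i : ℕ) : ps r u i ⊆ reach r u := by
  induction i with
  | zero =>
    intro y hy
    have : y = u := by simpa [ps] using hy
    subst this
    exact Relation.ReflTransGen.refl
  | succ i ih =>
    rintro y ⟨a, ha, hr⟩
    exact Relation.ReflTransGen.tail (ih ha) hr

theorem ps_all (r : ℕ → ℕ → Prop) (u L : ℕ) (hr : ∀ a ∈ reach r u, r a a)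
    (hfin : (reach r u).Finite) (hL : (reach r u).ncard ≤ L) : ps r u L = reach r u := by
  have mono : ∀ i, ps r u i ⊆ ps r u (i + 1) := fun i a ha => ⟨a, ha, hr a (ps_sub r u i ha)⟩
  have key : ∀ i, i + 1 ≤ (ps r u i).ncard ∨ ps r u i = reach r u := by
    intro i
    induction i with
    | zero => left; simp [ps]
    | succ i ih =>
      rcases ih with h | h
      · by_cases he : ps r u (i + 1) = ps r u i
        · right
          refine Set.Subset.antisymm (ps_sub r u _) ?_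
          intro y hy
          have hcl : ∀ z, Relation.ReflTransGen r u z → z ∈ ps r u i := by
            intro z hz
            induction hz with
            | refl =>
              have h0 : ∀ k, u ∈ ps r u k := by
                intro k
                induction k with
                | zero => simp [ps]
                | succ k ihk => exact mono k ihk
              exact h0 i
            | tail hab hbc ihz =>
              rw [← he]
              exact ⟨_, ihz, hbc⟩
          rw [he]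
          exact hcl y hy
        · left
          have hss : ps r u i ⊂ ps r u (i + 1) := by
            refine ⟨mono i, fun h2 => he (Set.Subset.antisymm h2 (mono i))⟩
          have := Set.ncard_lt_ncard hss (hfin.subset (ps_sub r u _))
          omega
      · right
        refine Set.Subset.antisymm (ps_sub r u _) ?_
        rw [← h]
        exact mono i
  rcases key L with h | h
  · have := Set.ncard_le_ncard (ps_sub r u L) hfin
    omega
  · exact h

theorem pow_le_cap (κ : Par) (σ : St) (hP : POk κ σ) (i : ℕ) (hi : i ≤ σ.g 5) :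
    (σ.g 4 + 1) ^ i ≤ κ.cap := by
  refine le_trans ?_ hP.cap
  have h1 : σ.g 4 + 1 ≤ 2 ^ σ.g 4 := Nat.lt_two_pow_self
  calc (σ.g 4 + 1) ^ i ≤ (2 ^ σ.g 4) ^ i := Nat.pow_le_pow_left h1 i
    _ = 2 ^ (σ.g 4 * i) := by rw [← pow_mul]
    _ ≤ 2 ^ (3 * ((σ.g 4 + 1) * σ.g 5 + 6) ^ 2) := by
        apply Nat.pow_le_pow_right (by norm_num)
        have h2 : σ.g 4 * i ≤ (σ.g 4 + 1) * σ.g 5 := Nat.mul_le_mul (by omega) hi
        nlinarith

theorem walk_ev (κ : Par) (σ : St) (hP : POk κ σ) (stp : E) (u x : ℕ)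
    (ht : ∀ a ∈ reach (fun a b => ∃ j ≤ σ.g 4, stp.ev κ σ [a, j] = b) u, a ≤ κ.top) :
    (walkE stp).ev κ σ [u, x] =
      pw (fun a j => stp.ev κ σ [a, j]) (σ.g 4 + 1) u x (σ.g 5) := by
  have hL : σ.g 5 ≤ κ.cap := by
    have h1 := pow_le_cap κ σ hP (σ.g 5) le_rfl
    have h2 : σ.g 5 < (σ.g 4 + 1) ^ σ.g 5 := by
      have := hP.D1
      exact Nat.lt_pow_self (by omega)
    omega
  have htop : κ.cap ≤ κ.top := by
    have := hP.top
    omega
  refine ev_fold κ σ [u, x] (.g 5) (.v 0) _ (σ.g 5)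
    (fun i => pw (fun a j => stp.ev κ σ [a, j]) (σ.g 4 + 1) u x i) rfl hL rfl ?_ ?_
  · intro i hi
    have hpow := ev_pow κ σ (σ.g 4 + 1) i (by omega) (by omega)
      (le_trans (pow_le_cap κ σ hP i hi.le) htop)
    simp only [pw]
    simp [hpow]
  · intro i _
    exact ht _ (pw_reach _ _ _ _ _)

end PWalkAux

theorem walk_spec (κ : Par) (σ : St) (hP : POk κ σ) (stp : E) (u : ℕ)
    (hst : ∀ a ∈ reach (fun a b => ∃ j ≤ σ.g 4, stp.ev κ σ [a, j] = b) u,
      stp.ev κ σ [a, σ.g 4] = a)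
    (hfin : (reach (fun a b => ∃ j ≤ σ.g 4, stp.ev κ σ [a, j] = b) u).Finite)
    (hL : (reach (fun a b => ∃ j ≤ σ.g 4, stp.ev κ σ [a, j] = b) u).ncard ≤ σ.g 5)
    (ht : ∀ a ∈ reach (fun a b => ∃ j ≤ σ.g 4, stp.ev κ σ [a, j] = b) u, a ≤ κ.top) (y : ℕ) :
    (∃ x < σ.g 6, (walkE stp).ev κ σ [u, x] = y) ↔
      y ∈ reach (fun a b => ∃ j ≤ σ.g 4, stp.ev κ σ [a, j] = b) u := by
  constructor
  · rintro ⟨x, _, rfl⟩
    rw [PWalkAux.walk_ev κ σ hP stp u x ht]
    exact PWalkAux.pw_reach (fun a j => stp.ev κ σ [a, j]) (σ.g 4) u x (σ.g 5)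
  · intro hy
    have h1 := PWalkAux.ps_all (fun a b => ∃ j ≤ σ.g 4, stp.ev κ σ [a, j] = b) u (σ.g 5)
      (fun a ha => ⟨σ.g 4, le_rfl, hst a ha⟩) hfin hL
    rw [← h1] at hy
    obtain ⟨x, hx, hxy⟩ := PWalkAux.ps_code (fun a j => stp.ev κ σ [a, j]) (σ.g 4) u (σ.g 5) y hy
    refine ⟨x, by rw [hP.X]; exact hx, ?_⟩
    rw [PWalkAux.walk_ev κ σ hP stp u x ht]
    exact hxy

end Pool.Agent.MP9d6bd1
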