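import Mathlib
import Pool.Agent.Lib.MP_9d6bd1_lc.PEnum
import Pool.Agent.Lib.MP_9d6bd1_lc.PWalk
import Pool.Agent.Lib.MP_9d6bd1_lc.Spec2

/-!
# MP_9d6bd1_lc, module P17a: the functions on pieces, part A
-/

set_option autoImplicit false

open Classical

namespace Pool.Agent.MP9d6bd1

open E

namespace PPieceAAux

theorem stR_ev (κ : Par) (σ : St) (a j : ℕ) : stR.ev κ σ [a, j] =
    if j < (cur κ σ).deg a ∧ bt κ σ 6 ((cur κ σ).nb a j) = 0 then (cur κ σ).nb a j else a := by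
  have h1 : stR.ev κ σ [a, j] =
      if (if (if j < (cur κ σ).deg a then 1 else 0) = 0 then 0 else
        (if bt κ σ 6 ((cur κ σ).nb a j) = 0 then 1 else 0)) = 0 then a
      else (cur κ σ).nb a j := by
    simp only [stR, ev_ite, ev_and, ev_less, ev_neg, ev_call1, ev_call2, ev_v, cur, bt]
    rfl
  rw [h1]
  by_cases hj : j < (cur κ σ).deg a <;> by_cases hb : bt κ σ 6 ((cur κ σ).nb a j) = 0 <;>
    simp [hj, hb]

theorem atE_ev (κ : Par) (σ : St) (u t : ℕ) : atE.ev κ σ [u, t] =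
    if t % σ.g 4 < (cur κ σ).deg ((walkE stR).ev κ σ [u, t / σ.g 4]) ∧
      bt κ σ 6 ((cur κ σ).nb ((walkE stR).ev κ σ [u, t / σ.g 4]) (t % σ.g 4)) ≠ 0 then
      (cur κ σ).nb ((walkE stR).ev κ σ [u, t / σ.g 4]) (t % σ.g 4) else σ.g 3 := by
  have h1 : atE.ev κ σ [u, t] =
      if (if (if t % σ.g 4 < (cur κ σ).deg ((walkE stR).ev κ σ [u, t / σ.g 4]) then 1 else 0) = 0
        then 0 else
        (bt κ σ 6 ((cur κ σ).nb ((walkE stR).ev κ σ [u, t / σ.g 4]) (t % σ.g 4)))) = 0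
      then σ.g 3
      else (cur κ σ).nb ((walkE stR).ev κ σ [u, t / σ.g 4]) (t % σ.g 4) := by
    simp only [atE, ev_ite, ev_and, ev_less, ev_lt, ev_mod, ev_div, ev_g, ev_call1, ev_call2,
      ev_v, cur, bt]
    rfl
  rw [h1]
  by_cases hj : t % σ.g 4 < (cur κ σ).deg ((walkE stR).ev κ σ [u, t / σ.g 4]) <;>
    by_cases hb : bt κ σ 6 ((cur κ σ).nb ((walkE stR).ev κ σ [u, t / σ.g 4]) (t % σ.g 4)) = 0 <;>
    simp [hj, hb]

theorem mem_PC (κ : Par) (σ : St) (hG : (cur κ σ).Ok) (u : ℕ)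
    (hu : u < σ.g 3) (hm : u ∉ Rm κ σ) : ∀ y ∈ PC κ σ u, y < σ.g 3 ∧ y ∉ Rm κ σ := by
  intro y hy
  have hy' : Relation.ReflTransGen (ust κ σ) u y := hy
  induction hy' with
  | refl => exact ⟨hu, hm⟩
  | tail hab hbc ih =>
    obtain ⟨j, hj, hn, hr⟩ := hbc
    have h1 := ih hab
    refine ⟨?_, hr⟩
    rw [← hn]
    exact hG.lt _ h1.1 j hj

theorem bt_of (κ : Par) (σ : St) (y : ℕ) (hy : y < σ.g 3) : bt κ σ 6 y = 0 ↔ y ∉ Rm κ σ := by
  constructor
  · intro h h2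
    exact h2.2 h
  · intro h
    by_contra h2
    exact h ⟨hy, h2⟩

theorem reach_eq (κ : Par) (σ : St) (hG : (cur κ σ).Ok) (hR : ROk κ σ) (u : ℕ)
    (hu : u < σ.g 3) (hm : u ∉ Rm κ σ) :
    reach (fun a b => ∃ j ≤ σ.g 4, stR.ev κ σ [a, j] = b) u = PC κ σ u := by
  apply Set.Subset.antisymm
  · intro y hy
    have hy' : Relation.ReflTransGen (fun a b => ∃ j ≤ σ.g 4, stR.ev κ σ [a, j] = b) u y := hy
    clear hy
    induction hy' with
    | refl => exact Relation.ReflTransGen.refl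
    | tail hab hbc ih =>
      obtain ⟨j, hj, hn⟩ := hbc
      rw [stR_ev] at hn
      split_ifs at hn with h
      · subst hn
        refine Relation.ReflTransGen.tail ih ⟨j, h.1, rfl, ?_⟩
        intro h2
        exact h2.2 h.2
      · subst hn
        exact ih
  · intro y hy
    have hy' : Relation.ReflTransGen (ust κ σ) u y := hy
    clear hy
    induction hy' with
    | refl => exact Relation.ReflTransGen.refl
    | @tail b c hab hbc ih =>
      obtain ⟨j, hj, hn, hr⟩ := hbc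
      have h1 := mem_PC κ σ hG u hu hm b hab
      have h2 := hR.deg b h1.1 h1.2
      refine Relation.ReflTransGen.tail ih ⟨j, by omega, ?_⟩
      have h3 : c < σ.g 3 := by
        rw [← hn]
        exact hG.lt _ h1.1 j hj
      rw [stR_ev, if_pos ⟨hj, by rw [hn]; exact (bt_of κ σ c h3).2 hr⟩, hn]

theorem fin_PC (κ : Par) (σ : St) (hG : (cur κ σ).Ok) (u : ℕ)
    (hu : u < σ.g 3) (hm : u ∉ Rm κ σ) : (PC κ σ u).Finite :=
  (Set.finite_lt_nat (σ.g 3)).subset fun y hy => (mem_PC κ σ hG u hu hm y hy).1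

theorem walk_mem (κ : Par) (σ : St) (hP : POk κ σ) (hG : (cur κ σ).Ok) (hR : ROk κ σ) (u : ℕ)
    (hu : u < σ.g 3) (hm : u ∉ Rm κ σ) (y : ℕ) :
    (∃ x < σ.g 6, (walkE stR).ev κ σ [u, x] = y) ↔ y ∈ PC κ σ u := by
  have he := reach_eq κ σ hG hR u hu hm
  rw [← he]
  refine walk_spec κ σ hP stR u ?_ ?_ ?_ ?_ y
  · intro a ha
    rw [he] at ha
    have h1 := mem_PC κ σ hG u hu hm a ha
    have h2 := hR.deg a h1.1 h1.2
    rw [stR_ev, if_neg]
    rintro ⟨h3, -⟩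
    omega
  · rw [he]
    exact fin_PC κ σ hG u hu hm
  · rw [he]
    exact hR.size u hu hm
  · intro a ha
    rw [he] at ha
    have h1 := mem_PC κ σ hG u hu hm a ha
    have := hP.N
    omega

theorem X_le_cap (κ : Par) (σ : St) (hP : POk κ σ) : σ.g 6 ≤ κ.cap := by
  rw [hP.X]
  exact PWalkAux.pow_le_cap κ σ hP (σ.g 5) le_rfl

theorem N_le_top (κ : Par) (σ : St) (hP : POk κ σ) : σ.g 3 ≤ κ.top := by
  have := hP.N
  omega

theorem XD_le_cap (κ : Par) (σ : St) (hP : POk κ σ) : σ.g 6 * σ.g 4 ≤ κ.cap := by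
  refine le_trans ?_ hP.cap
  rw [hP.X]
  have h1 : σ.g 4 + 1 ≤ 2 ^ σ.g 4 := Nat.lt_two_pow_self
  calc (σ.g 4 + 1) ^ σ.g 5 * σ.g 4 ≤ (2 ^ σ.g 4) ^ σ.g 5 * 2 ^ σ.g 4 :=
        Nat.mul_le_mul (Nat.pow_le_pow_left h1 _) (by omega)
    _ = 2 ^ (σ.g 4 * σ.g 5 + σ.g 4) := by rw [← pow_mul, ← pow_add]
    _ ≤ 2 ^ (3 * ((σ.g 4 + 1) * σ.g 5 + 6) ^ 2) := by
        apply Nat.pow_le_pow_right (by norm_num)
        have hL := hP.L1
        have h2 : σ.g 4 * 1 ≤ σ.g 4 * σ.g 5 := Nat.mul_le_mul_left _ hL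
        nlinarith

theorem LD_le_cap (κ : Par) (σ : St) (hP : POk κ σ) : σ.g 5 * σ.g 4 ≤ κ.cap := by
  refine le_trans ?_ (XD_le_cap κ σ hP)
  apply Nat.mul_le_mul_right
  rw [hP.X]
  exact (Nat.lt_pow_self (by have := hP.D1; omega)).le

theorem L_le_cap (κ : Par) (σ : St) (hP : POk κ σ) : σ.g 5 ≤ κ.cap := by
  refine le_trans ?_ (X_le_cap κ σ hP)
  rw [hP.X]
  exact (Nat.lt_pow_self (by have := hP.D1; omega)).le

theorem mem_TT (κ : Par) (σ : St) (hP : POk κ σ) (hG : (cur κ σ).Ok) (hR : ROk κ σ) (u : ℕ)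
    (hu : u < σ.g 3) (hm : u ∉ Rm κ σ) (y : ℕ) :
    y ∈ TT κ σ u ↔ y < σ.g 3 ∧ ∃ t < σ.g 6 * σ.g 4, atE.ev κ σ [u, t] = y := by
  have hD := hP.D1
  constructor
  · rintro ⟨⟨h1, h2⟩, w, hw, j, hj, hn⟩
    refine ⟨h1, ?_⟩
    obtain ⟨x, hx, hxw⟩ := (walk_mem κ σ hP hG hR u hu hm w).2 hw
    have h3 := mem_PC κ σ hG u hu hm w hw
    have h4 := hR.deg w h3.1 h3.2
    have hjD : j < σ.g 4 := by omega
    have e1 : (x * σ.g 4 + j) / σ.g 4 = x := by
      rw [mul_comm, Nat.mul_add_div hD, Nat.div_eq_of_lt hjD, Nat.add_zero]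
    have e2 : (x * σ.g 4 + j) % σ.g 4 = j := by
      rw [mul_comm, Nat.mul_add_mod, Nat.mod_eq_of_lt hjD]
    refine ⟨x * σ.g 4 + j, ?_, ?_⟩
    · have : (x + 1) * σ.g 4 ≤ σ.g 6 * σ.g 4 := Nat.mul_le_mul_right _ hx
      have h5 : (x + 1) * σ.g 4 = x * σ.g 4 + σ.g 4 := by ring
      omega
    · rw [atE_ev, e1, e2, hxw, if_pos ⟨hj, by rw [hn]; exact h2⟩, hn]
  · rintro ⟨h1, t, ht, h2⟩
    rw [atE_ev] at h2
    split_ifs at h2 with h
    · have h3 : t / σ.g 4 < σ.g 6 := (Nat.div_lt_iff_lt_mul hD).2 ht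
      have h4 : (walkE stR).ev κ σ [u, t / σ.g 4] ∈ PC κ σ u :=
        (walk_mem κ σ hP hG hR u hu hm _).1 ⟨_, h3, rfl⟩
      refine ⟨⟨h1, ?_⟩, _, h4, t % σ.g 4, h.1, h2⟩
      rw [← h2]
      exact h.2
    · omega

theorem sum_lt (s : Finset ℕ) (N m : ℕ) (hN : ∀ y ∈ s, y < N) (hm : s.card ≤ m) :
    (∑ i ∈ Finset.range m, if (s.sort).getD i N < N then 1 else 0) = s.card := by
  have h1 : ∀ i, (s.sort).getD i N < N ↔ i < s.card := by
    intro i
    have hlen : s.sort.length = s.card := Finset.length_sort _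
    constructor
    · intro h
      by_contra h2
      rw [List.getD_eq_default _ _ (by omega)] at h
      omega
    · intro h
      rw [List.getD_eq_getElem _ _ (by omega)]
      exact hN _ ((Finset.mem_sort _).1 (List.getElem_mem _))
  simp only [h1]
  rw [← Finset.card_filter]
  have h2 : (Finset.range m).filter (fun i => i < s.card) = Finset.range s.card := by
    ext i
    simp only [Finset.mem_filter, Finset.mem_range]
    omega
  rw [h2, Finset.card_range]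

theorem TT_fin (κ : Par) (σ : St) (u : ℕ) : (TT κ σ u).Finite :=
  (Set.finite_lt_nat (σ.g 3)).subset fun _ hy => hy.1.1

theorem TT_card (κ : Par) (σ : St) (hG : (cur κ σ).Ok) (hR : ROk κ σ) (u : ℕ)
    (hu : u < σ.g 3) (hm : u ∉ Rm κ σ) : (TT κ σ u).ncard ≤ σ.g 5 * σ.g 4 := by
  have hf := fin_PC κ σ hG u hu hm
  have h1 : TT κ σ u ⊆
      ((hf.toFinset ×ˢ Finset.range (σ.g 4)).image fun p => (cur κ σ).nb p.1 p.2 : Finset ℕ) := by
    rintro y ⟨-, w, hw, j, hj, hn⟩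
    have h3 := mem_PC κ σ hG u hu hm w hw
    have h4 := hR.deg w h3.1 h3.2
    simp only [Finset.coe_image, Set.mem_image, Finset.mem_coe, Finset.mem_product,
      Finset.mem_range, Set.Finite.mem_toFinset, Prod.exists]
    exact ⟨w, j, ⟨hw, by omega⟩, hn⟩
  refine (Set.ncard_le_ncard h1 (Finset.finite_toSet _)).trans ?_
  rw [Set.ncard_coe_finset]
  refine Finset.card_image_le.trans ?_
  rw [Finset.card_product, Finset.card_range, ← Set.ncard_eq_toFinset_card _ hf]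
  exact Nat.mul_le_mul_right _ (hR.size u hu hm)

end PPieceAAux

open PPieceAAux

theorem pi_spec (κ : Par) (σ : St) (hP : POk κ σ) (hG : (cur κ σ).Ok) (hR : ROk κ σ) (u : ℕ)
    (hu : u < σ.g 3) (hm : u ∉ Rm κ σ) : piE.ev κ σ [u] = sInf (PC κ σ u) := by
  have hf := fin_PC κ σ hG u hu hm
  have hu' : u ∈ PC κ σ u := Relation.ReflTransGen.refl
  have h1 := mn_spec κ σ (.g 6) (walkE stR) (σ.g 6) u hf.toFinset (fun _ => rfl)
    (X_le_cap κ σ hP) (N_le_top κ σ hP) (by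
      intro y
      rw [Set.Finite.mem_toFinset, walk_mem κ σ hP hG hR u hu hm y]
      exact ⟨fun h => ⟨(mem_PC κ σ hG u hu hm y h).1, h⟩, fun h => h.2⟩)
  rw [piE, h1]
  symm
  refine PEnumAux.list_zero _ (Finset.sortedLT_sort _) _ _ ?_ ?_ ?_
  · intro y hy
    exact (mem_PC κ σ hG u hu hm y ((Set.Finite.mem_toFinset _).1 ((Finset.mem_sort _).1 hy))).1
  · right
    rw [Finset.mem_sort, Set.Finite.mem_toFinset]
    exact Nat.sInf_mem ⟨u, hu'⟩
  · intro y hy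
    exact Nat.sInf_le ((Set.Finite.mem_toFinset _).1 ((Finset.mem_sort _).1 hy))

theorem elP_spec (κ : Par) (σ : St) (hP : POk κ σ) (hG : (cur κ σ).Ok) (hR : ROk κ σ) (u : ℕ)
    (hu : u < σ.g 3) (hm : u ∉ Rm κ σ) : ∃ s : Finset ℕ, (s : Set ℕ) = PC κ σ u ∧
      ∀ i ≤ κ.cap, elP.ev κ σ [u, i] = (s.sort).getD i (σ.g 3) := by
  have hf := fin_PC κ σ hG u hu hm
  refine ⟨hf.toFinset, hf.coe_toFinset, fun i hi => ?_⟩
  refine el_spec κ σ (.g 6) (walkE stR) (σ.g 6) u i hf.toFinset (fun _ => rfl)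
    (X_le_cap κ σ hP) (N_le_top κ σ hP) hi ?_
  intro y
  rw [Set.Finite.mem_toFinset, walk_mem κ σ hP hG hR u hu hm y]
  exact ⟨fun h => ⟨(mem_PC κ σ hG u hu hm y h).1, h⟩, fun h => h.2⟩

theorem elT_spec (κ : Par) (σ : St) (hP : POk κ σ) (hG : (cur κ σ).Ok) (hR : ROk κ σ) (u : ℕ)
    (hu : u < σ.g 3) (hm : u ∉ Rm κ σ) : ∃ s : Finset ℕ, (s : Set ℕ) = TT κ σ u ∧
      ∀ i ≤ κ.cap, elT.ev κ σ [u, i] = (s.sort).getD i (σ.g 3) := by
  have hf := TT_fin κ σ u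
  refine ⟨hf.toFinset, hf.coe_toFinset, fun i hi => ?_⟩
  refine el_spec κ σ (.g 6 * .g 4) atE (σ.g 6 * σ.g 4) u i hf.toFinset (fun _ => rfl)
    (XD_le_cap κ σ hP) (N_le_top κ σ hP) hi ?_
  intro y
  rw [Set.Finite.mem_toFinset, mem_TT κ σ hP hG hR u hu hm y]

theorem pk_spec (κ : Par) (σ : St) (hP : POk κ σ) (hG : (cur κ σ).Ok) (hR : ROk κ σ) (u : ℕ)
    (hu : u < σ.g 3) (hm : u ∉ Rm κ σ) :
    pkE.ev κ σ [u] = kk κ σ u ∧ kk κ σ u ≤ σ.g 5 * σ.g 4 := by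
  have hc := TT_card κ σ hG hR u hu hm
  refine ⟨?_, hc⟩
  obtain ⟨s, hs, he⟩ := elT_spec κ σ hP hG hR u hu hm
  have hcard : s.card = kk κ σ u := by
    rw [kk, ← hs, Set.ncard_coe_finset]
  have hsN : ∀ y ∈ s, y < σ.g 3 := by
    intro y hy
    have : y ∈ TT κ σ u := by
      rw [← hs]
      exact hy
    exact this.1.1
  have hLD := LD_le_cap κ σ hP
  have htop := hP.top
  have hsum := sum_lt s (σ.g 3) (σ.g 5 * σ.g 4) hsN (by rw [hcard]; exact hc)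
  have key := ev_sum κ σ [u] (.g 5 * .g 4) 0 (.v 2 + less (call2 elT (.v 0) (.v 1)) (.g 3))
    (σ.g 5 * σ.g 4) 0 (fun i => if (s.sort).getD i (σ.g 3) < σ.g 3 then 1 else 0) rfl hLD rfl
    (by
      intro i hi acc
      rw [← he i (by omega)]
      simp only [ev_add, ev_v, ev_less, ev_call2, ev_g]
      rfl)
    (by
      rw [hsum, hcard]
      have : kk κ σ u ≤ σ.g 5 * σ.g 4 := hc
      omega)
  rw [pkE, key, hsum, hcard, Nat.zero_add]

theorem pl_spec (κ : Par) (σ : St) (hP : POk κ σ) (hG : (cur κ σ).Ok) (hR : ROk κ σ) (u : ℕ)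
    (hu : u < σ.g 3) (hm : u ∉ Rm κ σ) :
    plE.ev κ σ [u] = ll κ σ u ∧ ll κ σ u ≤ σ.g 5 ∧ 1 ≤ ll κ σ u := by
  have hf := fin_PC κ σ hG u hu hm
  have hc : ll κ σ u ≤ σ.g 5 := hR.size u hu hm
  have hu' : u ∈ PC κ σ u := Relation.ReflTransGen.refl
  refine ⟨?_, hc, ?_⟩
  · obtain ⟨s, hs, he⟩ := elP_spec κ σ hP hG hR u hu hm
    have hcard : s.card = ll κ σ u := by
      rw [ll, ← hs, Set.ncard_coe_finset]
    have hsN : ∀ y ∈ s, y < σ.g 3 := by
      intro y hy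
      have : y ∈ PC κ σ u := by
        rw [← hs]
        exact hy
      exact (mem_PC κ σ hG u hu hm y this).1
    have hL := L_le_cap κ σ hP
    have htop := hP.top
    have hsum := sum_lt s (σ.g 3) (σ.g 5) hsN (by rw [hcard]; exact hc)
    have key := ev_sum κ σ [u] (.g 5) 0 (.v 2 + less (call2 elP (.v 0) (.v 1)) (.g 3))
      (σ.g 5) 0 (fun i => if (s.sort).getD i (σ.g 3) < σ.g 3 then 1 else 0) rfl hL rfl
      (by
        intro i hi acc
        rw [← he i (by omega)]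
        simp only [ev_add, ev_v, ev_less, ev_call2, ev_g]
        rfl)
      (by
        rw [hsum, hcard]
        omega)
    rw [plE, key, hsum, hcard, Nat.zero_add]
  · exact (Set.ncard_pos hf).2 ⟨u, hu'⟩

end Pool.Agent.MP9d6bd1
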