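import Mathlib
import Pool.Agent.Lib.MP_9d6bd1_lc.EvLib
import Pool.Agent.Lib.MP_9d6bd1_lc.Spec2
import Pool.Agent.Lib.MP_9d6bd1_lc.PPieceA

/-!
# MP_9d6bd1_lc, module P17b: the functions on pieces, part B
-/

set_option autoImplicit false

open Classical

namespace Pool.Agent.MP9d6bd1

open E

namespace PPieceBAux

/-- the sorted list of a finite set enumerates it -/
theorem sort_bij (s : Finset ℕ) (N : ℕ) :
    Set.BijOn (fun i => (s.sort).getD i N) {i | i < s.card} (s : Set ℕ) := by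
  have hlen : s.sort.length = s.card := Finset.length_sort _
  have hnd : s.sort.Nodup := Finset.sort_nodup _ _
  refine ⟨?_, ?_, ?_⟩
  · intro i hi
    have hi' : i < s.card := hi
    show (s.sort).getD i N ∈ (s : Set ℕ)
    rw [List.getD_eq_getElem _ _ (by omega)]
    exact Finset.mem_coe.2 ((Finset.mem_sort _).1 (List.getElem_mem _))
  · intro i hi j hj hij
    have hi' : i < s.card := hi
    have hj' : j < s.card := hj
    have hij' : (s.sort).getD i N = (s.sort).getD j N := hij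
    rw [List.getD_eq_getElem _ _ (by omega), List.getD_eq_getElem _ _ (by omega)] at hij'
    exact (hnd.getElem_inj_iff).1 hij'
  · intro y hy
    have hy' : y ∈ s.sort := (Finset.mem_sort _).2 (Finset.mem_coe.1 hy)
    obtain ⟨i, hi, rfl⟩ := List.getElem_of_mem hy'
    refine ⟨i, by show i < s.card; omega, ?_⟩
    show (s.sort).getD i N = _
    rw [List.getD_eq_getElem _ _ hi]

theorem nmf_eq (κ : Par) (σ : St) (u a : ℕ) : nmf κ σ u a =
    if a < kk κ σ u then elT.ev κ σ [u, a] else elP.ev κ σ [u, a - kk κ σ u] := by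
  have h1 : nmf κ σ u a = if (if a < kk κ σ u then 1 else 0) = 0
      then elP.ev κ σ [u, a - kk κ σ u] else elT.ev κ σ [u, a] := by
    simp only [nmf, nmE, ev_ite, ev_less, ev_call2, ev_v, ev_sub]
    rfl
  rw [h1]
  by_cases h : a < kk κ σ u <;> simp [h]

/-- bits of a sum of different powers of two -/
theorem sum_bits (f : ℕ → ℕ) (hf : ∀ n, f n ≤ 1) (m : ℕ) :
    ∑ n ∈ Finset.range m, f n * 2 ^ n < 2 ^ m ∧
      ∀ n < m, (∑ n ∈ Finset.range m, f n * 2 ^ n) / 2 ^ n % 2 = f n := by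
  induction m with
  | zero => simp
  | succ m ih =>
    obtain ⟨h1, h2⟩ := ih
    have hm := hf m
    refine ⟨?_, ?_⟩
    · rw [Finset.sum_range_succ, pow_succ]
      have : f m * 2 ^ m ≤ 1 * 2 ^ m := Nat.mul_le_mul_right _ hm
      omega
    · intro n hn
      rw [Finset.sum_range_succ]
      rcases Nat.lt_succ_iff_lt_or_eq.1 hn with h3 | h3
      · obtain ⟨d, hd⟩ : ∃ d, m = n + 1 + d := ⟨m - (n + 1), by omega⟩
        have h4 : f m * 2 ^ m = 2 ^ n * (2 * (2 ^ d * f m)) := by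
          rw [hd, pow_add, pow_succ]
          ring
        rw [h4, Nat.add_mul_div_left _ _ (by positivity), Nat.add_mul_mod_self_left]
        exact h2 n h3
      · subst h3
        rw [Nat.add_mul_div_right _ _ (by positivity), Nat.div_eq_of_lt h1]
        omega

/-- a double sum as a single sum -/
theorem double_sum (s : ℕ) (g : ℕ → ℕ → ℕ) (r : ℕ) :
    ∑ i ∈ Finset.range r, ∑ j ∈ Finset.range s, g i j * 2 ^ (i * s + j) =
      ∑ n ∈ Finset.range (r * s), g (n / s) (n % s) * 2 ^ n := by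
  induction r with
  | zero => simp
  | succ r ih =>
    rw [Finset.sum_range_succ, ih, Nat.succ_mul, Finset.sum_range_add]
    congr 1
    refine Finset.sum_congr rfl fun j hj => ?_
    have hj' : j < s := Finset.mem_range.1 hj
    have e1 : (r * s + j) / s = r := by
      rw [mul_comm, Nat.mul_add_div (by omega), Nat.div_eq_of_lt hj', Nat.add_zero]
    have e2 : (r * s + j) % s = j := by
      rw [mul_comm, Nat.mul_add_mod, Nat.mod_eq_of_lt hj']
    rw [e1, e2]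

theorem ad_ev (κ : Par) (σ : St) (hP : POk κ σ) (u k a b : ℕ) : adE.ev κ σ [u, k, a, b] =
    if k ≤ a ∧ ∃ j < σ.g 4, j < (cur κ σ).deg (nmE.ev κ σ [u, k, a]) ∧
      (cur κ σ).nb (nmE.ev κ σ [u, k, a]) j = nmE.ev κ σ [u, k, b] then 1 else 0 := by
  have hD : σ.g 4 ≤ κ.cap := by
    refine le_trans ?_ (PPieceAAux.LD_le_cap κ σ hP)
    exact Nat.le_mul_of_pos_left _ hP.L1
  have ht : 1 ≤ κ.top := by
    have := hP.top
    have := hP.D1
    omega
  have h2 := ev_ex κ σ [u, k, a, b, nmE.ev κ σ [u, k, a], nmE.ev κ σ [u, k, b]] 6 (.g 4)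
    (and (less (.v 6) (call1 dgE (.v 4))) (eqn (call2 nbE (.v 4) (.v 6)) (.v 5))) (σ.g 4)
    (fun j => j < (cur κ σ).deg (nmE.ev κ σ [u, k, a]) ∧
      (cur κ σ).nb (nmE.ev κ σ [u, k, a]) j = nmE.ev κ σ [u, k, b]) rfl rfl hD ht
    (by
      intro i hi acc
      have h3 : (and (less (.v 6) (call1 dgE (.v 4)))
          (eqn (call2 nbE (.v 4) (.v 6)) (.v 5))).ev κ σ
          ([u, k, a, b, nmE.ev κ σ [u, k, a], nmE.ev κ σ [u, k, b]] ++ [i, acc, σ.g 4]) =
          if (if i < (cur κ σ).deg (nmE.ev κ σ [u, k, a]) then 1 else 0) = 0 then 0 else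
          (if (cur κ σ).nb (nmE.ev κ σ [u, k, a]) i = nmE.ev κ σ [u, k, b] then 1 else 0) := by
        simp only [ev_and, ev_less, ev_call1, ev_call2, ev_v, ev_eqn, cur]
        rfl
      rw [h3]
      by_cases h4 : i < (cur κ σ).deg (nmE.ev κ σ [u, k, a]) <;>
        by_cases h5 : (cur κ σ).nb (nmE.ev κ σ [u, k, a]) i = nmE.ev κ σ [u, k, b] <;>
        simp [h4, h5])
  have h1 : adE.ev κ σ [u, k, a, b] = if (if (if a < k then 1 else 0) = 0 then 1 else 0) = 0
      then 0 else (ex 6 (.g 4) (and (less (.v 6) (call1 dgE (.v 4)))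
        (eqn (call2 nbE (.v 4) (.v 6)) (.v 5)))).ev κ σ
          [u, k, a, b, nmE.ev κ σ [u, k, a], nmE.ev κ σ [u, k, b]] := by
    simp only [adE, ev_and, ev_neg, ev_less, ev_v, ev_lt, ev_call3]
    rfl
  rw [h1, h2]
  by_cases h : a < k
  · have : ¬ k ≤ a := by omega
    simp [h, this]
  · have : k ≤ a := by omega
    simp [h, this]

theorem ad_le (κ : Par) (σ : St) (hP : POk κ σ) (u k a b : ℕ) :
    adE.ev κ σ [u, k, a, b] ≤ 1 := by
  rw [ad_ev κ σ hP]
  split_ifs <;> omega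

theorem cd_ev (κ : Par) (σ : St) (hP : POk κ σ) (u k l : ℕ) (hs : 2 ^ ((k + l) ^ 2) ≤ κ.cap) :
    cdE.ev κ σ [u, k, l] = ∑ n ∈ Finset.range ((k + l) * (k + l)),
      adE.ev κ σ [u, k, n / (k + l), n % (k + l)] * 2 ^ n := by
  have htop : κ.cap ≤ κ.top := by
    have := hP.top
    omega
  have hb := (sum_bits (fun n => adE.ev κ σ [u, k, n / (k + l), n % (k + l)])
    (fun n => ad_le κ σ hP _ _ _ _) ((k + l) * (k + l))).1
  have hd := double_sum (k + l) (fun i j => adE.ev κ σ [u, k, i, j])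
  have hsq : 2 ^ ((k + l) * (k + l)) ≤ κ.cap := by
    rw [← sq]
    exact hs
  have hlt : ∀ i < k + l, ∑ i' ∈ Finset.range (i + 1), ∑ j ∈ Finset.range (k + l),
      adE.ev κ σ [u, k, i', j] * 2 ^ (i' * (k + l) + j) ≤ κ.top := by
    intro i hi
    have h1 : ∑ i' ∈ Finset.range (i + 1), ∑ j ∈ Finset.range (k + l),
        adE.ev κ σ [u, k, i', j] * 2 ^ (i' * (k + l) + j) ≤
        ∑ i' ∈ Finset.range (k + l), ∑ j ∈ Finset.range (k + l),
        adE.ev κ σ [u, k, i', j] * 2 ^ (i' * (k + l) + j) :=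
      Finset.sum_le_sum_of_subset (Finset.range_mono (by omega))
    rw [hd (k + l)] at h1
    omega
  have hscap : k + l ≤ κ.cap := by
    have h1 : k + l < 2 ^ (k + l) := Nat.lt_two_pow_self
    have h2 : 2 ^ (k + l) ≤ 2 ^ ((k + l) ^ 2) :=
      Nat.pow_le_pow_right (by norm_num) (Nat.le_self_pow (by norm_num) _)
    omega
  have key := ev_fold κ σ [u, k, l] (.v 1 + .v 2) 0
    (.fold (.v 1 + .v 2) (.v 4)
      (.v 7 + call4 adE (.v 0) (.v 1) (.v 3) (.v 6) *
        call2 powE 2 (.v 3 * (.v 1 + .v 2) + .v 6))) (k + l)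
    (fun i => ∑ i' ∈ Finset.range i, ∑ j ∈ Finset.range (k + l),
      adE.ev κ σ [u, k, i', j] * 2 ^ (i' * (k + l) + j)) rfl hscap (by simp)
    (by
      intro i hi
      have h1 := ev_sum κ σ [u, k, l, i, (∑ i' ∈ Finset.range i, ∑ j ∈ Finset.range (k + l),
          adE.ev κ σ [u, k, i', j] * 2 ^ (i' * (k + l) + j)), k + l]
        (.v 1 + .v 2) (.v 4) (.v 7 + call4 adE (.v 0) (.v 1) (.v 3) (.v 6) *
          call2 powE 2 (.v 3 * (.v 1 + .v 2) + .v 6)) (k + l)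
        (∑ i' ∈ Finset.range i, ∑ j ∈ Finset.range (k + l),
          adE.ev κ σ [u, k, i', j] * 2 ^ (i' * (k + l) + j))
        (fun j => adE.ev κ σ [u, k, i, j] * 2 ^ (i * (k + l) + j)) rfl hscap rfl
        (by
          intro j hj acc
          have h2 : i * (k + l) + j < (k + l) * (k + l) := by
            have : (i + 1) * (k + l) ≤ (k + l) * (k + l) := Nat.mul_le_mul_right _ hi
            have h5 : (i + 1) * (k + l) = i * (k + l) + (k + l) := by ring
            omega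
          have h3 : i * (k + l) + j ≤ κ.cap := by
            have : (k + l) * (k + l) < 2 ^ ((k + l) * (k + l)) := Nat.lt_two_pow_self
            omega
          have h4 : 2 ^ (i * (k + l) + j) ≤ κ.top := by
            have : 2 ^ (i * (k + l) + j) ≤ 2 ^ ((k + l) * (k + l)) :=
              Nat.pow_le_pow_right (by norm_num) h2.le
            omega
          have h6 := ev_pow κ σ 2 (i * (k + l) + j) h3 (by norm_num) h4
          simp only [ev_add, ev_mul, ev_v, ev_call4, ev_call2, ev_ofNat]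
          show acc + adE.ev κ σ [u, k, i, j] * powE.ev κ σ [2, i * (k + l) + j] = _
          rw [h6])
        (by
          rw [← Finset.sum_range_succ (fun i' => ∑ j ∈ Finset.range (k + l),
            adE.ev κ σ [u, k, i', j] * 2 ^ (i' * (k + l) + j)) i]
          exact hlt i hi)
      rw [Finset.sum_range_succ]
      exact h1)
    (fun i hi => hlt i hi)
  rw [cdE, key]
  exact hd (k + l)

theorem adj_iff (F : FG) (hF : F.Ok) (x y : ℕ) : F.gr.Adj x y ↔
    x < F.N ∧ y < F.N ∧ ∃ j < F.deg x, F.nb x j = y := by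
  have hc : ∀ x y, (∃ j < F.deg x, F.nb x j = y) ↔ 0 < F.cnt x y := by
    intro x y
    rw [FG.cnt, Finset.card_pos]
    constructor
    · rintro ⟨j, hj, h⟩
      exact ⟨j, Finset.mem_filter.2 ⟨Finset.mem_range.2 hj, h⟩⟩
    · rintro ⟨j, hj⟩
      obtain ⟨h1, h2⟩ := Finset.mem_filter.1 hj
      exact ⟨j, Finset.mem_range.1 h1, h2⟩
  rw [FG.gr, SimpleGraph.fromRel_adj]
  constructor
  · rintro ⟨h1, h2 | h2⟩
    · exact h2
    · refine ⟨h2.2.1, h2.1, ?_⟩
      rw [hc, hF.symm x h2.2.1 y h2.1, ← hc]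
      exact h2.2.2
  · rintro ⟨h1, h2, j, hj, h3⟩
    exact ⟨fun h => hF.ne x h1 j hj (h3.trans h.symm), Or.inl ⟨h1, h2, j, hj, h3⟩⟩

theorem size_le (κ : Par) (σ : St) (hP : POk κ σ) (k l : ℕ) (hk : k ≤ σ.g 5 * σ.g 4)
    (hl : l ≤ σ.g 5) : 2 ^ ((k + l) ^ 2) ≤ κ.cap := by
  refine le_trans ?_ hP.cap
  apply Nat.pow_le_pow_right (by norm_num)
  have h1 : k + l ≤ (σ.g 4 + 1) * σ.g 5 + 6 := by nlinarith
  have h2 : (k + l) ^ 2 ≤ ((σ.g 4 + 1) * σ.g 5 + 6) ^ 2 := Nat.pow_le_pow_left h1 2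
  omega

end PPieceBAux

open PPieceBAux

theorem nm_spec (κ : Par) (σ : St) (hP : POk κ σ) (hG : (cur κ σ).Ok) (hR : ROk κ σ) (u : ℕ)
    (hu : u < σ.g 3) (hm : u ∉ Rm κ σ) :
    Set.BijOn (nmf κ σ u) {a | a < kk κ σ u} (TT κ σ u) ∧
    Set.BijOn (nmf κ σ u) {a | kk κ σ u ≤ a ∧ a < kk κ σ u + ll κ σ u} (PC κ σ u) := by
  have hk := (pk_spec κ σ hP hG hR u hu hm).2
  have hl := (pl_spec κ σ hP hG hR u hu hm).2.1
  have hLD := PPieceAAux.LD_le_cap κ σ hP
  have hL := PPieceAAux.L_le_cap κ σ hP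
  constructor
  · obtain ⟨t, ht, hte⟩ := elT_spec κ σ hP hG hR u hu hm
    have hcard : t.card = kk κ σ u := by
      rw [kk, ← ht, Set.ncard_coe_finset]
    have h1 := sort_bij t (σ.g 3)
    rw [ht, hcard] at h1
    refine h1.congr ?_
    intro a ha
    have ha' : a < kk κ σ u := ha
    show (t.sort).getD a (σ.g 3) = nmf κ σ u a
    rw [nmf_eq, if_pos ha', hte a (by omega)]
  · obtain ⟨t, ht, hte⟩ := elP_spec κ σ hP hG hR u hu hm
    have hcard : t.card = ll κ σ u := by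
      rw [ll, ← ht, Set.ncard_coe_finset]
    have h1 := sort_bij t (σ.g 3)
    rw [ht, hcard] at h1
    have h2 : Set.BijOn (fun a => a - kk κ σ u)
        {a | kk κ σ u ≤ a ∧ a < kk κ σ u + ll κ σ u} {i | i < ll κ σ u} := by
      refine ⟨?_, ?_, ?_⟩
      · intro a ha
        have ha' : kk κ σ u ≤ a ∧ a < kk κ σ u + ll κ σ u := ha
        show a - kk κ σ u < ll κ σ u
        omega
      · intro a ha b hb hab
        have ha' : kk κ σ u ≤ a ∧ a < kk κ σ u + ll κ σ u := ha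
        have hb' : kk κ σ u ≤ b ∧ b < kk κ σ u + ll κ σ u := hb
        have hab' : a - kk κ σ u = b - kk κ σ u := hab
        omega
      · intro i hi
        have hi' : i < ll κ σ u := hi
        refine ⟨kk κ σ u + i, ⟨by omega, by omega⟩, ?_⟩
        show kk κ σ u + i - kk κ σ u = i
        omega
    refine (h1.comp h2).congr ?_
    intro a ha
    have ha' : kk κ σ u ≤ a ∧ a < kk κ σ u + ll κ σ u := ha
    show (t.sort).getD (a - kk κ σ u) (σ.g 3) = nmf κ σ u a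
    rw [nmf_eq, if_neg (by omega), hte _ (by omega)]

theorem cd_spec (κ : Par) (σ : St) (hP : POk κ σ) (hG : (cur κ σ).Ok) (hR : ROk κ σ) (u : ℕ)
    (hu : u < σ.g 3) (hm : u ∉ Rm κ σ) :
    (cg (kk κ σ u + ll κ σ u) (cc κ σ u)).map (nmf κ σ u) = inc (cur κ σ).gr (PC κ σ u) ∧
    cc κ σ u < 2 ^ ((kk κ σ u + ll κ σ u) ^ 2) := by
  have hk := (pk_spec κ σ hP hG hR u hu hm).2
  have hl := (pl_spec κ σ hP hG hR u hu hm).2.1
  have hs := size_le κ σ hP _ _ hk hl
  obtain ⟨hT, hPc⟩ := nm_spec κ σ hP hG hR u hu hm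
  have hcc : cc κ σ u = _ := cd_ev κ σ hP u (kk κ σ u) (ll κ σ u) hs
  obtain ⟨hb1, hb2⟩ := sum_bits (fun n => adE.ev κ σ [u, kk κ σ u, n / (kk κ σ u + ll κ σ u),
    n % (kk κ σ u + ll κ σ u)]) (fun n => ad_le κ σ hP _ _ _ _)
    ((kk κ σ u + ll κ σ u) * (kk κ σ u + ll κ σ u))
  have hbit : ∀ a < kk κ σ u + ll κ σ u, ∀ b < kk κ σ u + ll κ σ u,
      (cc κ σ u / 2 ^ (a * (kk κ σ u + ll κ σ u) + b) % 2 = 1 ↔
        kk κ σ u ≤ a ∧ ∃ j < σ.g 4, j < (cur κ σ).deg (nmf κ σ u a) ∧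
          (cur κ σ).nb (nmf κ σ u a) j = nmf κ σ u b) := by
    intro a ha b hb
    have h2 : a * (kk κ σ u + ll κ σ u) + b <
        (kk κ σ u + ll κ σ u) * (kk κ σ u + ll κ σ u) := by
      have : (a + 1) * (kk κ σ u + ll κ σ u) ≤
        (kk κ σ u + ll κ σ u) * (kk κ σ u + ll κ σ u) := Nat.mul_le_mul_right _ ha
      have h5 : (a + 1) * (kk κ σ u + ll κ σ u) =
        a * (kk κ σ u + ll κ σ u) + (kk κ σ u + ll κ σ u) := by ring
      omega
    have e1 : (a * (kk κ σ u + ll κ σ u) + b) / (kk κ σ u + ll κ σ u) = a := by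
      rw [mul_comm, Nat.mul_add_div (by omega), Nat.div_eq_of_lt hb, Nat.add_zero]
    have e2 : (a * (kk κ σ u + ll κ σ u) + b) % (kk κ σ u + ll κ σ u) = b := by
      rw [mul_comm, Nat.mul_add_mod, Nat.mod_eq_of_lt hb]
    have h3 := hb2 _ h2
    rw [hcc, h3]
    show adE.ev κ σ [u, kk κ σ u, (a * (kk κ σ u + ll κ σ u) + b) / (kk κ σ u + ll κ σ u),
      (a * (kk κ σ u + ll κ σ u) + b) % (kk κ σ u + ll κ σ u)] = 1 ↔ _
    rw [e1, e2, ad_ev κ σ hP]
    constructor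
    · intro h
      by_contra h4
      have h4' : ¬ (kk κ σ u ≤ a ∧ ∃ j < σ.g 4,
        j < (cur κ σ).deg (nmE.ev κ σ [u, kk κ σ u, a]) ∧
        (cur κ σ).nb (nmE.ev κ σ [u, kk κ σ u, a]) j = nmE.ev κ σ [u, kk κ σ u, b]) := h4
      rw [if_neg h4'] at h
      omega
    · intro h
      have h' : (kk κ σ u ≤ a ∧ ∃ j < σ.g 4,
        j < (cur κ σ).deg (nmE.ev κ σ [u, kk κ σ u, a]) ∧
        (cur κ σ).nb (nmE.ev κ σ [u, kk κ σ u, a]) j = nmE.ev κ σ [u, kk κ σ u, b]) := h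
      rw [if_pos h']
  refine ⟨?_, ?_⟩
  · -- a bit gives an edge
    have hfwd : ∀ a < kk κ σ u + ll κ σ u, ∀ b < kk κ σ u + ll κ σ u,
        cc κ σ u / 2 ^ (a * (kk κ σ u + ll κ σ u) + b) % 2 = 1 →
        (cur κ σ).gr.Adj (nmf κ σ u a) (nmf κ σ u b) ∧ nmf κ σ u a ∈ PC κ σ u := by
      intro a ha b hb h
      obtain ⟨h1, j, -, hj, hn⟩ := (hbit a ha b hb).1 h
      have h2 : nmf κ σ u a ∈ PC κ σ u := hPc.mapsTo ⟨h1, ha⟩
      have h3 := PPieceAAux.mem_PC κ σ hG u hu hm _ h2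
      refine ⟨(adj_iff _ hG _ _).2 ⟨h3.1, ?_, j, hj, hn⟩, h2⟩
      rw [← hn]
      exact hG.lt _ h3.1 j hj
    have hbwd : ∀ x y, (cur κ σ).gr.Adj x y → x ∈ PC κ σ u →
        ∃ a b, (cg (kk κ σ u + ll κ σ u) (cc κ σ u)).Adj a b ∧
          nmf κ σ u a = x ∧ nmf κ σ u b = y := by
      intro x y hxy hx
      have hne := hxy.ne
      obtain ⟨hxN, hyN, j, hj, hn⟩ := (adj_iff _ hG _ _).1 hxy
      obtain ⟨a, ha, hax⟩ := hPc.surjOn hx
      have ha' : kk κ σ u ≤ a ∧ a < kk κ σ u + ll κ σ u := ha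
      have h3 := PPieceAAux.mem_PC κ σ hG u hu hm _ hx
      have h4 := hR.deg x h3.1 h3.2
      obtain ⟨b, hb, hby⟩ : ∃ b < kk κ σ u + ll κ σ u, nmf κ σ u b = y := by
        by_cases hy : y ∈ Rm κ σ
        · have hyT : y ∈ TT κ σ u := ⟨hy, x, hx, j, hj, hn⟩
          obtain ⟨b, hb, hby⟩ := hT.surjOn hyT
          have hb' : b < kk κ σ u := hb
          exact ⟨b, by omega, hby⟩
        · have hyP : y ∈ PC κ σ u := Relation.ReflTransGen.tail hx ⟨j, hj, hn, hy⟩
          obtain ⟨b, hb, hby⟩ := hPc.surjOn hyP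
          exact ⟨b, hb.2, hby⟩
      refine ⟨a, b, ?_, hax, hby⟩
      rw [cg, SimpleGraph.fromRel_adj]
      refine ⟨?_, Or.inl ⟨ha'.2, hb, ?_⟩⟩
      · rintro rfl
        exact hne (hax.symm.trans hby)
      · rw [hbit a ha'.2 b hb]
        refine ⟨ha'.1, j, by omega, ?_, ?_⟩
        · rw [hax]
          exact hj
        · rw [hax, hby]
          exact hn
    ext x y
    constructor
    · rintro ⟨hne, a, b, hab, hax, hby⟩
      rw [cg, SimpleGraph.fromRel_adj] at hab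
      obtain ⟨hab1, h | h⟩ := hab
      · obtain ⟨h1, h2⟩ := hfwd a h.1 b h.2.1 h.2.2
        rw [hax, hby] at h1
        rw [hax] at h2
        exact ⟨h1, Or.inl h2⟩
      · obtain ⟨h1, h2⟩ := hfwd b h.1 a h.2.1 h.2.2
        rw [hax, hby] at h1
        rw [hby] at h2
        exact ⟨h1.symm, Or.inr h2⟩
    · rintro ⟨h1, h2 | h2⟩
      · obtain ⟨a, b, hab, hax, hby⟩ := hbwd x y h1 h2
        exact ⟨h1.ne, a, b, hab, hax, hby⟩
      · obtain ⟨a, b, hab, hax, hby⟩ := hbwd y x h1.symm h2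
        exact ⟨h1.ne, b, a, hab.symm, hby, hax⟩
  · rw [hcc, sq]
    exact hb1

end Pool.Agent.MP9d6bd1
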