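import Mathlib
import Pool.Agent.Lib.MP_9d6bd1_lc.Spec2
import Pool.Agent.Lib.MP_9d6bd1_lc.PPieceA
import Pool.Agent.Lib.MP_9d6bd1_lc.PNp
import Pool.Agent.Lib.MP_9d6bd1_lc.PPieceB

/-!
# MP_9d6bd1_lc, program part: module P18 (PEmitA), edges of the gadgets
-/

set_option autoImplicit false

open Classical

namespace Pool.Agent.MP9d6bd1

open E

namespace PEmitAAux

/-! ### the flag 10 is never cleared -/

/-- if global variable 10 is nonzero it stays nonzero -/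
def Keep (κ : Par) : S → Prop
  | .skip => True
  | .set x e => x = 10 → ∀ τ : St, min (e.ev κ τ []) κ.top ≠ 0
  | .st _ _ _ => True
  | .seq s t => Keep κ s ∧ Keep κ t
  | .ite _ s t => Keep κ s ∧ Keep κ t
  | .loop x _ s => x ≠ 10 ∧ Keep κ s

theorem keep (κ : Par) (s : S) (h : Keep κ s) : ∀ σ : St, σ.g 10 ≠ 0 → (s.run κ σ).g 10 ≠ 0 := by
  induction s with
  | skip => intro σ hσ; exact hσ
  | set x e =>
    intro σ hσ
    by_cases hx : x = 10
    · subst hx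
      simp only [S.run, Function.update_self]
      exact h rfl σ
    · simp only [S.run]
      rw [Function.update_of_ne (Ne.symm hx)]
      exact hσ
  | st b i e =>
    intro σ hσ
    simp only [S.run]
    split_ifs <;> exact hσ
  | seq s t ihs iht =>
    intro σ hσ
    exact iht h.2 _ (ihs h.1 σ hσ)
  | ite e s t ihs iht =>
    intro σ hσ
    simp only [S.run]
    split_ifs
    · exact iht h.2 σ hσ
    · exact ihs h.1 σ hσ
  | loop x e s ih =>
    intro σ hσ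
    refine loop_inv κ x e s σ _ rfl (fun _ τ => τ.g 10 ≠ 0) hσ (fun i _ τ hτ => ?_)
    refine ih h.2 _ ?_
    simp only
    rw [Function.update_of_ne (Ne.symm h.1)]
    exact hτ

/-! ### values that do not change -/

/-- global variables written by the program -/
def G0 : List ℕ := [10, 12, 13, 21, 25, 26, 28, 29, 30, 31, 32]

/-- banks written by the program -/
def B0 : List (Fin 16) := [8, 9]

theorem ev_same (κ : Par) (σ τ : St) (h : Same G0 B0 σ τ) (e : E)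
    (he : e.uses (fun x => decide (x ∉ G0)) (fun b => decide (b ∉ B0)) = true) (l : List ℕ) :
    e.ev κ τ l = e.ev κ σ l := by
  refine ev_congr (fun x => decide (x ∉ G0)) (fun b => decide (b ∉ B0)) κ τ σ ?_ ?_ e he l
  · intro x hx
    exact h.1 x (of_decide_eq_true hx)
  · intro b hb
    exact h.2 b (of_decide_eq_true hb)

theorem u_pi : piE.uses (fun x => decide (x ∉ G0)) (fun b => decide (b ∉ B0)) = true := by
  decide +kernel

theorem u_pk : pkE.uses (fun x => decide (x ∉ G0)) (fun b => decide (b ∉ B0)) = true := by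
  decide +kernel

theorem u_pl : plE.uses (fun x => decide (x ∉ G0)) (fun b => decide (b ∉ B0)) = true := by
  decide +kernel

theorem u_cd : cdE.uses (fun x => decide (x ∉ G0)) (fun b => decide (b ∉ B0)) = true := by
  decide +kernel

theorem u_np : npE.uses (fun x => decide (x ∉ G0)) (fun b => decide (b ∉ B0)) = true := by
  decide +kernel

theorem u_bf : bfE.uses (fun x => decide (x ∉ G0)) (fun b => decide (b ∉ B0)) = true := by
  decide +kernel

theorem u_ac : acE.uses (fun x => decide (x ∉ G0)) (fun b => decide (b ∉ B0)) = true := by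
  decide +kernel

theorem u_el : elT.uses (fun x => decide (x ∉ G0)) (fun b => decide (b ∉ B0)) = true := by
  decide +kernel

theorem u_rk : rkE.uses (fun x => decide (x ∉ G0)) (fun b => decide (b ∉ B0)) = true := by
  decide +kernel

theorem u_bit : (bitE 6).uses (fun x => decide (x ∉ G0)) (fun b => decide (b ∉ B0)) = true := by
  decide +kernel


/-! ### the list of edges -/

/-- the list of edges is `L` -/
def Good (τ : St) (L : List (ℕ × ℕ)) : Prop :=
  τ.g 10 = 0 ∧ τ.g 13 = L.length ∧ ∀ i < L.length, (τ.m 8 i, τ.m 9 i) = L.getD i (0, 0)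

/-- the list of edges is `L`, or it would be too long -/
def Inv (M : ℕ) (L : List (ℕ × ℕ)) (τ : St) : Prop :=
  (L.length ≤ M → Good τ L) ∧ (M < L.length → τ.g 10 ≠ 0)

theorem good_congr {σ τ : St} {G : List ℕ} {B : List (Fin 16)} (h : Same G B σ τ)
    (h10 : 10 ∉ G) (h13 : 13 ∉ G) (h8 : (8 : Fin 16) ∉ B) (h9 : (9 : Fin 16) ∉ B)
    {L : List (ℕ × ℕ)} (hL : Good σ L) : Good τ L := by
  refine ⟨?_, ?_, ?_⟩
  · rw [h.1 10 h10]; exact hL.1
  · rw [h.1 13 h13]; exact hL.2.1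
  · intro i hi
    rw [h.2 8 h8, h.2 9 h9]
    exact hL.2.2 i hi

theorem inv_congr {σ τ : St} {G : List ℕ} {B : List (Fin 16)} (h : Same G B σ τ)
    (h10 : 10 ∉ G) (h13 : 13 ∉ G) (h8 : (8 : Fin 16) ∉ B) (h9 : (9 : Fin 16) ∉ B) {M : ℕ}
    {L : List (ℕ × ℕ)} (hL : Inv M L σ) : Inv M L τ := by
  refine ⟨fun h1 => good_congr h h10 h13 h8 h9 (hL.1 h1), fun h1 => ?_⟩
  rw [h.1 10 h10]
  exact hL.2 h1

theorem same_upd (G : List ℕ) (B : List (Fin 16)) (τ : St) (x v : ℕ) (hx : x ∈ G) :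
    Same G B τ ⟨Function.update τ.g x v, τ.m⟩ := by
  refine ⟨fun y hy => ?_, fun _ _ => rfl⟩
  have : y ≠ x := fun h => hy (h ▸ hx)
  simp [this]

theorem keep_app (κ : Par) (ht : 1 ≤ κ.top) (x y : E) : Keep κ (appS x y) := by
  refine ⟨⟨trivial, trivial, ?_⟩, ?_⟩
  · intro h
    omega
  · intro _ τ
    change min 1 κ.top ≠ 0
    omega

theorem app_same (κ : Par) (x y : E) (τ : St) : Same [10, 13] [8, 9] τ ((appS x y).run κ τ) :=
  run_same _ _ κ _ rfl τ

/-- appending an edge -/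
theorem app_inv (κ : Par) (M : ℕ) (L : List (ℕ × ℕ)) (τ : St) (x y : E) (a b : ℕ)
    (hM : τ.g 14 = M) (hMl : M ≤ κ.lim) (ht : κ.lim ≤ κ.top) (ht1 : 1 ≤ κ.top)
    (hI : Inv M L τ) (hx : x.ev κ τ [] = a)
    (hy : ∀ τ', Same [] [8] τ τ' → y.ev κ τ' [] = b) (ha : a ≤ κ.top) (hb : b ≤ κ.top) :
    Inv M (L ++ [(a, b)]) ((appS x y).run κ τ) := by
  have hlen : (L ++ [(a, b)]).length = L.length + 1 := by simp
  by_cases h1 : L.length ≤ M
  · obtain ⟨g1, g2, g3⟩ := hI.1 h1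
    by_cases h2 : L.length < M
    · -- append
      refine ⟨fun _ => ?_, fun h3 => by omega⟩
      have hc : (less (.g 13) (.g 14)).ev κ τ [] ≠ 0 := by
        rw [ev_less, ev_g, ev_g, g2, hM, if_pos h2]
        exact one_ne_zero
      have e1 : (appS x y).run κ τ =
          (seqs [.st 8 (.g 13) x, .st 9 (.g 13) y, .set 13 (.g 13 + 1)]).run κ τ := by
        simp only [appS, S.run]
        rw [if_neg hc]
      have hi : τ.g 13 < κ.lim := by omega
      obtain ⟨τ1, hτ1⟩ : ∃ τ1 : St, τ1 = ⟨τ.g, Function.update τ.m 8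
          (Function.update (τ.m 8) (τ.g 13) a)⟩ := ⟨_, rfl⟩
      have e2 : (S.st 8 (.g 13) x).run κ τ = τ1 := by
        rw [S.run, if_pos (show (E.g 13).ev κ τ [] < κ.lim from hi), hx, min_eq_left ha, hτ1]
        rfl
      have hs1 : Same [] [8] τ τ1 := by
        rw [← e2]
        exact run_same _ _ κ _ rfl τ
      obtain ⟨τ2, hτ2⟩ : ∃ τ2 : St, τ2 = ⟨τ1.g, Function.update τ1.m 9
          (Function.update (τ1.m 9) (τ.g 13) b)⟩ := ⟨_, rfl⟩
      have hg1 : τ1.g 13 = τ.g 13 := hs1.1 13 (by simp)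
      have e3 : (S.st 9 (.g 13) y).run κ τ1 = τ2 := by
        have hi1 : τ1.g 13 < κ.lim := by rw [hg1]; exact hi
        rw [S.run, if_pos (show (E.g 13).ev κ τ1 [] < κ.lim from hi1), hy τ1 hs1,
          min_eq_left hb, hτ2, ev_g, hg1]
      have e4 : (appS x y).run κ τ = ⟨Function.update τ2.g 13 (L.length + 1), τ2.m⟩ := by
        rw [e1]
        simp only [seqs]
        change (S.set 13 (.g 13 + 1)).run κ ((S.st 9 (.g 13) y).run κ ((S.st 8 (.g 13) x).run κ τ))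
          = _
        rw [e2, e3]
        simp only [S.run, ev_add, ev_g, ev_one]
        have hg2 : τ2.g 13 = L.length := by
          rw [hτ2]
          simp only
          rw [hg1, g2]
        rw [hg2, min_eq_left (by omega)]
      have m8 : τ2.m 8 = Function.update (τ.m 8) L.length a := by
        rw [hτ2, hτ1]
        simp [g2]
      have m9 : τ2.m 9 = Function.update (τ.m 9) L.length b := by
        rw [hτ2, hτ1]
        simp [g2]
      rw [e4]
      refine ⟨?_, ?_, ?_⟩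
      · simp only
        rw [Function.update_of_ne (by norm_num), hτ2, hτ1]
        exact g1
      · simp only
        rw [Function.update_self, hlen]
      · intro i hi2
        simp only
        rw [m8, m9]
        rw [hlen] at hi2
        rcases Nat.lt_succ_iff_lt_or_eq.1 hi2 with h3 | h3
        · rw [Function.update_of_ne (by omega), Function.update_of_ne (by omega), g3 i h3,
            List.getD_append _ _ _ _ h3]
        · subst h3
          rw [Function.update_self, Function.update_self, List.getD_append_right _ _ _ _ le_rfl]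
          simp
    · -- too long
      refine ⟨fun h3 => by omega, fun _ => ?_⟩
      have hc : (less (.g 13) (.g 14)).ev κ τ [] = 0 := by
        rw [ev_less, ev_g, ev_g, g2, hM, if_neg h2]
      have e1 : (appS x y).run κ τ = (S.set 10 1).run κ τ := by
        simp only [appS, S.run]
        rw [if_pos hc]
      rw [e1]
      simp only [S.run, Function.update_self, ev_one]
      omega
  · refine ⟨fun h3 => by omega, fun _ => ?_⟩
    exact keep κ _ (keep_app κ ht1 x y) τ (hI.2 (by omega))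


/-! ### marked vertices and pieces -/

theorem Rm_fin (κ : Par) (σ : St) : (Rm κ σ).Finite :=
  (Set.finite_lt_nat (σ.g 3)).subset fun _ hy => hy.1

theorem rank_lt (κ : Par) (σ : St) (u : ℕ) (hu : u ∈ Rm κ σ) :
    rank κ σ u < (Rm κ σ).ncard := by
  refine Set.ncard_lt_ncard ⟨Set.inter_subset_left, fun h => ?_⟩ (Rm_fin κ σ)
  exact absurd (h hu).2 (lt_irrefl u)

theorem rank_mono (κ : Par) (σ : St) (u y : ℕ) (hu : u ∈ Rm κ σ) (h : u < y) :
    rank κ σ u < rank κ σ y := by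
  refine Set.ncard_lt_ncard ⟨fun x hx => ⟨hx.1, lt_trans hx.2 h⟩, fun h' => ?_⟩
    ((Rm_fin κ σ).subset Set.inter_subset_left)
  exact absurd (h' ⟨hu, h⟩).2 (lt_irrefl u)

theorem rank_inj (κ : Par) (σ : St) (u y : ℕ) (hu : u ∈ Rm κ σ) (hy : y ∈ Rm κ σ)
    (h : rank κ σ u = rank κ σ y) : u = y := by
  rcases lt_trichotomy u y with h1 | h1 | h1
  · exact absurd h (rank_mono κ σ u y hu h1).ne
  · exact h1
  · exact absurd h (rank_mono κ σ y u hy h1).ne'

theorem ust_symm (κ : Par) (σ : St) (hG : (cur κ σ).Ok) (a b : ℕ) (ha : a < σ.g 3)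
    (hm : a ∉ Rm κ σ) (h : ust κ σ a b) : ust κ σ b a := by
  obtain ⟨j, hj, hn, hb⟩ := h
  have hbN : b < σ.g 3 := hn ▸ hG.lt a ha j hj
  have h1 : 0 < (cur κ σ).cnt a b := Finset.card_pos.2 ⟨j, by simp [hj, hn]⟩
  rw [hG.symm a ha b hbN] at h1
  obtain ⟨j', hj'⟩ := Finset.card_pos.1 h1
  rw [Finset.mem_filter, Finset.mem_range] at hj'
  exact ⟨j', hj'.1, hj'.2, hm⟩

theorem PC_symm (κ : Par) (σ : St) (hG : (cur κ σ).Ok) (u y : ℕ) (hu : u < σ.g 3)
    (hm : u ∉ Rm κ σ) (h : y ∈ PC κ σ u) : u ∈ PC κ σ y := by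
  have h' : Relation.ReflTransGen (ust κ σ) u y := h
  have key : ∀ z, Relation.ReflTransGen (ust κ σ) u z → Relation.ReflTransGen (ust κ σ) z u := by
    intro z hz
    induction hz with
    | refl => exact Relation.ReflTransGen.refl
    | tail hab hbc ih =>
      have h2 := PPieceAAux.mem_PC κ σ hG u hu hm _ hab
      exact Relation.ReflTransGen.head (ust_symm κ σ hG _ _ h2.1 h2.2 hbc) ih
  exact key y h'

theorem PC_eq (κ : Par) (σ : St) (hG : (cur κ σ).Ok) (u y : ℕ) (hu : u < σ.g 3)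
    (hm : u ∉ Rm κ σ) (h : y ∈ PC κ σ u) : PC κ σ y = PC κ σ u := by
  have h1 := PC_symm κ σ hG u y hu hm h
  apply Set.Subset.antisymm
  · intro z hz
    exact Relation.ReflTransGen.trans h hz
  · intro z hz
    exact Relation.ReflTransGen.trans h1 hz

theorem mem_Pcs (κ : Par) (σ : St) (u : ℕ) :
    u ∈ Pcs κ σ ↔ u < σ.g 3 ∧ u ∉ Rm κ σ ∧ sInf (PC κ σ u) = u := by
  simp [Pcs]

theorem mem_Gds (κ : Par) (σ : St) (u : ℕ) : u ∈ Gds κ σ ↔ u ∈ Pcs κ σ ∧ isGad κ σ u := by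
  simp [Gds]

theorem sum_ll (κ : Par) (σ : St) (hG : (cur κ σ).Ok) :
    (Rm κ σ).ncard + ∑ u ∈ Pcs κ σ, ll κ σ u ≤ σ.g 3 := by
  have hP : ∀ u ∈ Pcs κ σ, u < σ.g 3 ∧ u ∉ Rm κ σ := fun u hu =>
    ⟨((mem_Pcs κ σ u).1 hu).1, ((mem_Pcs κ σ u).1 hu).2.1⟩
  have hfin : ∀ u ∈ Pcs κ σ, (PC κ σ u).Finite := fun u hu =>
    PPieceAAux.fin_PC κ σ hG u (hP u hu).1 (hP u hu).2
  have h1 : ∑ u ∈ Pcs κ σ, ll κ σ u =
      ((Pcs κ σ).biUnion fun u => (Finset.range (σ.g 3)).filter fun y => y ∈ PC κ σ u).card := by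
    rw [Finset.card_biUnion]
    · refine Finset.sum_congr rfl fun u hu => ?_
      rw [ll, ← Set.ncard_coe_finset]
      congr 1
      ext y
      simp only [Finset.coe_filter, Finset.mem_range]
      exact ⟨fun h => ⟨(PPieceAAux.mem_PC κ σ hG u (hP u hu).1 (hP u hu).2 y h).1, h⟩,
        fun h => h.2⟩
    · intro u hu y hy huy
      rw [Function.onFun, Finset.disjoint_left]
      intro z hz hz'
      rw [Finset.mem_filter] at hz hz'
      apply huy
      have e1 := PC_eq κ σ hG u z (hP u hu).1 (hP u hu).2 hz.2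
      have e2 := PC_eq κ σ hG y z (hP y hy).1 (hP y hy).2 hz'.2
      rw [← ((mem_Pcs κ σ u).1 hu).2.2, ← ((mem_Pcs κ σ y).1 hy).2.2, ← e1, ← e2]
  have h2 : (Rm κ σ).ncard = ((Finset.range (σ.g 3)).filter fun y => y ∈ Rm κ σ).card := by
    rw [← Set.ncard_coe_finset]
    congr 1
    ext y
    simp only [Finset.coe_filter, Finset.mem_range]
    exact ⟨fun h => ⟨h.1, h⟩, fun h => h.2⟩
  rw [h1, h2, ← Finset.card_union_of_disjoint]
  · refine (Finset.card_le_card ?_).trans (Finset.card_range (σ.g 3)).le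
    intro y hy
    rw [Finset.mem_union, Finset.mem_filter, Finset.mem_biUnion] at hy
    rcases hy with hy | ⟨u, _, hy⟩
    · exact hy.1
    · exact (Finset.mem_filter.1 hy).1
  · rw [Finset.disjoint_left]
    intro y hy hy'
    rw [Finset.mem_filter] at hy
    rw [Finset.mem_biUnion] at hy'
    obtain ⟨u, hu, hy'⟩ := hy'
    exact (PPieceAAux.mem_PC κ σ hG u (hP u hu).1 (hP u hu).2 y (Finset.mem_filter.1 hy').2).2
      hy.2

theorem base_le (C : ℕ) (κ : Par) (σ : St) (hG : (cur κ σ).Ok) (v : ℕ) (hv : v ∈ Gds κ σ) :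
    base C κ σ v + lg C κ σ v ≤ (Rm κ σ).ncard + ∑ u ∈ Gds κ σ, lg C κ σ u ∧
    (Rm κ σ).ncard + ∑ u ∈ Gds κ σ, lg C κ σ u ≤ σ.g 3 := by
  constructor
  · rw [base, add_assoc]
    refine Nat.add_le_add_left ?_ _
    have h1 : ∑ u ∈ (Gds κ σ).filter (fun u => u < v), lg C κ σ u + lg C κ σ v =
        ∑ u ∈ insert v ((Gds κ σ).filter (fun u => u < v)), lg C κ σ u := by
      rw [Finset.sum_insert (by simp), add_comm]
    rw [h1]
    refine Finset.sum_le_sum_of_subset fun u hu => ?_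
    rw [Finset.mem_insert, Finset.mem_filter] at hu
    rcases hu with rfl | hu
    · exact hv
    · exact hu.1
  · refine le_trans ?_ (sum_ll κ σ hG)
    refine Nat.add_le_add_left ?_ _
    calc ∑ u ∈ Gds κ σ, lg C κ σ u ≤ ∑ u ∈ Gds κ σ, ll κ σ u :=
          Finset.sum_le_sum fun u _ => min_le_left _ _
      _ ≤ ∑ u ∈ Pcs κ σ, ll κ σ u :=
          Finset.sum_le_sum_of_subset (Finset.filter_subset _ _)

theorem nmf_mem (κ : Par) (σ : St) (hP : POk κ σ) (hG : (cur κ σ).Ok) (hR : ROk κ σ) (v : ℕ)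
    (hv : v ∈ Pcs κ σ) (a : ℕ) (ha : a < kk κ σ v) : nmf κ σ v a ∈ Rm κ σ := by
  have h := (mem_Pcs κ σ v).1 hv
  exact ((nm_spec κ σ hP hG hR v h.1 h.2.1).1.mapsTo ha).1

theorem newn_lt (C : ℕ) (κ : Par) (σ : St) (hP : POk κ σ) (hG : (cur κ σ).Ok) (hR : ROk κ σ)
    (v : ℕ) (hv : v ∈ Pcs κ σ) (a : ℕ) (ha : a < kk κ σ v + lg C κ σ v) :
    newn C κ σ v a < base C κ σ v + lg C κ σ v := by
  unfold newn
  split_ifs with h1
  · have := rank_lt κ σ _ (nmf_mem κ σ hP hG hR v hv a h1)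
    unfold base
    omega
  · omega

theorem newn_inj (C : ℕ) (κ : Par) (σ : St) (hP : POk κ σ) (hG : (cur κ σ).Ok) (hR : ROk κ σ)
    (v : ℕ) (hv : v ∈ Pcs κ σ) (a b : ℕ) (h : newn C κ σ v a = newn C κ σ v b) : a = b := by
  have hv' := (mem_Pcs κ σ v).1 hv
  unfold newn at h
  split_ifs at h with h1 h2 h2
  · have h3 := rank_inj κ σ _ _ (nmf_mem κ σ hP hG hR v hv a h1)
      (nmf_mem κ σ hP hG hR v hv b h2) h
    exact (nm_spec κ σ hP hG hR v hv'.1 hv'.2.1).1.injOn h1 h2 h3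
  · have := rank_lt κ σ _ (nmf_mem κ σ hP hG hR v hv a h1)
    unfold base at h
    omega
  · have := rank_lt κ σ _ (nmf_mem κ σ hP hG hR v hv b h2)
    unfold base at h
    omega
  · omega


/-! ### rows of the adjacency matrix -/

/-- the edges `a b'`, `b' < b` -/
noncomputable def row (A : SimpleGraph ℕ) (nw : ℕ → ℕ) (a b : ℕ) : List (ℕ × ℕ) :=
  ((List.range b).filter (fun b' => decide (A.Adj a b'))).map (fun b' => (nw a, nw b'))

/-- the edges `a' b'`, `b' < a' < a` -/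
noncomputable def tri (A : SimpleGraph ℕ) (nw : ℕ → ℕ) : ℕ → List (ℕ × ℕ)
  | 0 => []
  | a + 1 => tri A nw a ++ row A nw a a

theorem row_succ (A : SimpleGraph ℕ) (nw : ℕ → ℕ) (a b : ℕ) :
    row A nw a (b + 1) = row A nw a b ++ (if A.Adj a b then [(nw a, nw b)] else []) := by
  unfold row
  rw [List.range_succ, List.filter_append, List.map_append]
  congr 1
  by_cases h : A.Adj a b <;> simp [h]

theorem mem_row (A : SimpleGraph ℕ) (nw : ℕ → ℕ) (a b : ℕ) (p : ℕ × ℕ) :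
    p ∈ row A nw a b ↔ ∃ b' < b, A.Adj a b' ∧ p = (nw a, nw b') := by
  unfold row
  rw [List.mem_map]
  constructor
  · rintro ⟨b', hb, rfl⟩
    rw [List.mem_filter, List.mem_range] at hb
    exact ⟨b', hb.1, by simpa using hb.2, rfl⟩
  · rintro ⟨b', hb, hA, rfl⟩
    exact ⟨b', List.mem_filter.2 ⟨List.mem_range.2 hb, by simpa using hA⟩, rfl⟩

theorem mem_tri (A : SimpleGraph ℕ) (nw : ℕ → ℕ) (s : ℕ) (p : ℕ × ℕ) :
    p ∈ tri A nw s ↔ ∃ a < s, ∃ b < a, A.Adj a b ∧ p = (nw a, nw b) := by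
  induction s with
  | zero => simp [tri]
  | succ s ih =>
    rw [tri, List.mem_append, ih, mem_row]
    constructor
    · rintro (⟨a, ha, h⟩ | h)
      · exact ⟨a, by omega, h⟩
      · exact ⟨s, by omega, h⟩
    · rintro ⟨a, ha, h⟩
      rcases Nat.lt_succ_iff_lt_or_eq.1 ha with h1 | h1
      · exact Or.inl ⟨a, h1, h⟩
      · exact Or.inr (h1 ▸ h)

theorem tri_length (A : SimpleGraph ℕ) (nw : ℕ → ℕ) (s : ℕ) :
    (tri A nw s).length =
      ((Finset.range s ×ˢ Finset.range s).filter (fun p => p.2 < p.1 ∧ A.Adj p.1 p.2)).card := by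
  have h1 : ∀ s, (tri A nw s).length =
      ∑ a ∈ Finset.range s, ((Finset.range a).filter (fun b => A.Adj a b)).card := by
    intro s
    induction s with
    | zero => rfl
    | succ s ih =>
      rw [tri, List.length_append, ih, Finset.sum_range_succ]
      congr 1
      unfold row
      rw [List.length_map]
      have h2 : ∀ b, ((List.range b).filter (fun b' => decide (A.Adj s b'))).length =
          ((Finset.range b).filter (fun b' => A.Adj s b')).card := by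
        intro b
        rw [← List.toFinset_card_of_nodup ((List.nodup_range).filter _)]
        congr 1
        ext x
        simp
      exact h2 s
  rw [h1, Finset.card_filter, Finset.sum_product]
  refine Finset.sum_congr rfl fun a ha => ?_
  rw [← Finset.card_filter]
  congr 1
  ext b
  simp only [Finset.mem_filter, Finset.mem_range] at ha ⊢
  constructor
  · rintro ⟨h2, h3⟩
    exact ⟨by omega, h2, h3⟩
  · rintro ⟨_, h2, h3⟩
    exact ⟨h2, h3⟩

theorem cg_lt (s c a b : ℕ) (h : (cg s c).Adj a b) : a < s ∧ b < s := by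
  rw [cg, SimpleGraph.fromRel_adj] at h
  rcases h.2 with h1 | h1
  · exact ⟨h1.1, h1.2.1⟩
  · exact ⟨h1.2.1, h1.1⟩

theorem tri_ecount (s c : ℕ) (nw : ℕ → ℕ) :
    (tri (cg s c) nw s).length = (cg s c).edgeSet.ncard := by
  rw [tri_length]
  have h1 : (cg s c).edgeSet = (((Finset.range s ×ˢ Finset.range s).filter
      (fun p => p.2 < p.1 ∧ (cg s c).Adj p.1 p.2)).image (fun p => s(p.1, p.2)) :
      Finset (Sym2 ℕ)) := by
    ext e
    induction e using Sym2.ind with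
    | _ a b =>
      rw [SimpleGraph.mem_edgeSet, Finset.mem_coe, Finset.mem_image]
      constructor
      · intro h
        have hlt := cg_lt s c a b h
        rcases lt_or_gt_of_ne h.ne with h2 | h2
        · refine ⟨(b, a), ?_, Sym2.eq_swap⟩
          simp only [Finset.mem_filter, Finset.mem_product, Finset.mem_range]
          exact ⟨⟨hlt.2, hlt.1⟩, h2, h.symm⟩
        · refine ⟨(a, b), ?_, rfl⟩
          simp only [Finset.mem_filter, Finset.mem_product, Finset.mem_range]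
          exact ⟨hlt, h2, h⟩
      · rintro ⟨⟨x, y⟩, hp, he⟩
        rw [Finset.mem_filter] at hp
        rcases Sym2.eq_iff.1 he with ⟨h3, h4⟩ | ⟨h3, h4⟩
        · rw [← h3, ← h4]
          exact hp.2.2
        · rw [← h3, ← h4]
          exact hp.2.2.symm
  rw [h1, Set.ncard_coe_finset, Finset.card_image_of_injOn]
  rintro ⟨a, b⟩ hp ⟨x, y⟩ hq he
  simp only [Finset.coe_filter, Finset.mem_product, Finset.mem_range] at hp hq
  rcases Sym2.eq_iff.1 he with ⟨h3, h4⟩ | ⟨h3, h4⟩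
  · simp only at h3 h4
    rw [h3, h4]
  · simp only at h3 h4
    exfalso
    have h5 := hp.2.1
    have h6 := hq.2.1
    simp only at h5 h6
    omega


/-! ### the loops over the gadget -/

/-- state during the processing of the piece `v` -/
structure Ctx (C : ℕ) (κ : Par) (σ : St) (v : ℕ) (θ : St) : Prop where
  same : Same G0 B0 σ θ
  g21 : θ.g 21 = v
  g28 : θ.g 28 = kk κ σ v
  g31 : θ.g 31 = lg C κ σ v
  g32 : θ.g 32 = bfE.ev κ σ [kk κ σ v, ll κ σ v, lg C κ σ v, cc κ σ v]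
  g12 : θ.g 12 = base C κ σ v

theorem ctx_congr {C : ℕ} {κ : Par} {σ : St} {v : ℕ} {θ ρ : St} (h : Ctx C κ σ v θ)
    {G : List ℕ} {B : List (Fin 16)} (hs : Same G B θ ρ) (hG : G ⊆ [10, 13, 25, 26])
    (hB : B ⊆ [8, 9]) : Ctx C κ σ v ρ := by
  have hs' : Same [10, 13, 25, 26] [8, 9] θ ρ := hs.mono hG hB
  refine ⟨h.same.trans (hs'.mono ?_ ?_), ?_, ?_, ?_, ?_, ?_⟩
  · intro x hx
    simp only [G0, List.mem_cons, List.not_mem_nil, or_false] at hx ⊢
    omega
  · exact fun x hx => hx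
  · rw [hs'.1 21 (by simp), h.g21]
  · rw [hs'.1 28 (by simp), h.g28]
  · rw [hs'.1 31 (by simp), h.g31]
  · rw [hs'.1 32 (by simp), h.g32]
  · rw [hs'.1 12 (by simp), h.g12]

/-- the standing assumptions -/
structure Hyp (κ : Par) (σ : St) : Prop where
  hP : POk κ σ
  hG : (cur κ σ).Ok
  hR : ROk κ σ
  hK : RkOk κ σ
  h14 : σ.g 14 ≤ κ.lim
  ht : κ.lim ≤ κ.top

theorem cap_le_top {κ : Par} {σ : St} (H : Hyp κ σ) : κ.cap ≤ κ.top := by
  have := H.hP.top
  omega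

theorem one_le_cap {κ : Par} {σ : St} (H : Hyp κ σ) : 1 ≤ κ.cap :=
  H.hP.B1.trans H.hP.B2

theorem size_le {κ : Par} {σ : St} (H : Hyp κ σ) (v : ℕ) (hv : v ∈ Pcs κ σ) :
    kk κ σ v + ll κ σ v ≤ (σ.g 4 + 1) * σ.g 5 := by
  have h := (mem_Pcs κ σ v).1 hv
  have h1 := (pk_spec κ σ H.hP H.hG H.hR v h.1 h.2.1).2
  have h2 := (pl_spec κ σ H.hP H.hG H.hR v h.1 h.2.1).2.1
  calc kk κ σ v + ll κ σ v ≤ σ.g 5 * σ.g 4 + σ.g 5 := Nat.add_le_add h1 h2
    _ = (σ.g 4 + 1) * σ.g 5 := by ring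

theorem pow_cap {κ : Par} {σ : St} (H : Hyp κ σ) (s : ℕ) (hs : s ≤ (σ.g 4 + 1) * σ.g 5) :
    2 ^ (s ^ 2) ≤ κ.cap := by
  refine le_trans (Nat.pow_le_pow_right (by norm_num) ?_) H.hP.cap
  calc s ^ 2 ≤ ((σ.g 4 + 1) * σ.g 5 + 6) ^ 2 := Nat.pow_le_pow_left (by omega) 2
    _ ≤ 3 * ((σ.g 4 + 1) * σ.g 5 + 6) ^ 2 := by omega

theorem s_le_cap {κ : Par} {σ : St} (H : Hyp κ σ) (s : ℕ) (hs : s ≤ (σ.g 4 + 1) * σ.g 5) :
    s ≤ κ.cap := by
  refine le_trans ?_ (pow_cap H s hs)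
  calc s ≤ s ^ 2 := Nat.le_self_pow (by norm_num) s
    _ ≤ 2 ^ (s ^ 2) := Nat.lt_two_pow_self.le

theorem lg_le (C : ℕ) (κ : Par) (σ : St) (v : ℕ) : lg C κ σ v ≤ ll κ σ v := min_le_left _ _

theorem name_ev {C : ℕ} {κ : Par} {σ : St} (H : Hyp κ σ) {v : ℕ} (hv : v ∈ Pcs κ σ) {θ : St}
    (hC : Ctx C κ σ v θ) (x a : ℕ) (hx : θ.g x = a) :
    (nameE (.g x)).ev κ θ [] = newn C κ σ v a := by
  have h := (mem_Pcs κ σ v).1 hv
  have h1 : (nameE (.g x)).ev κ θ [] =
      if (if a < kk κ σ v then 1 else 0) = 0 then base C κ σ v + (a - kk κ σ v)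
      else rkE.ev κ θ [elT.ev κ θ [v, a]] := by
    simp only [nameE, ev_ite, ev_less, ev_call1, ev_call2, ev_g, ev_add, ev_sub, hx, hC.g28,
      hC.g12, hC.g21]
  rw [h1, newn]
  by_cases h2 : a < kk κ σ v
  · rw [if_pos h2, if_neg one_ne_zero, if_pos h2, ev_same κ σ θ hC.same elT u_el,
      ev_same κ σ θ hC.same rkE u_rk]
    have h3 : nmf κ σ v a = elT.ev κ σ [v, a] := by
      have h4 : nmE.ev κ σ [v, kk κ σ v, a] =
          if (if a < kk κ σ v then 1 else 0) = 0 then elP.ev κ σ [v, a - kk κ σ v]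
          else elT.ev κ σ [v, a] := by
        simp only [nmE, ev_ite, ev_less, ev_call2, ev_v, ev_sub]
        rfl
      rw [nmf, h4, if_pos h2, if_neg one_ne_zero]
    rw [h3, ← H.hK.rk _ (by rw [← h3]; exact (nmf_mem κ σ H.hP H.hG H.hR v hv a h2).1)]
  · rw [if_neg h2, if_pos rfl, if_neg h2]

theorem newn_top {C : ℕ} {κ : Par} {σ : St} (H : Hyp κ σ) {v : ℕ} (hv : v ∈ Gds κ σ) (a : ℕ)
    (ha : a < kk κ σ v + lg C κ σ v) : newn C κ σ v a ≤ κ.top := by
  have h1 := newn_lt C κ σ H.hP H.hG H.hR v ((mem_Gds κ σ v).1 hv).1 a ha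
  have h2 := base_le C κ σ H.hG v hv
  have h3 := PPieceAAux.N_le_top κ σ H.hP
  omega

/-- the body of the inner loop -/
def bodyAB : S := .ite (call4 acE (.g 28 + .g 31) (.g 32) (.g 25) (.g 26))
  (appS (nameE (.g 25)) (nameE (.g 26))) .skip

theorem bodyAB_same (κ : Par) (τ : St) : Same [10, 13] [8, 9] τ (bodyAB.run κ τ) :=
  run_same _ _ κ _ rfl τ

theorem cond_ev {C : ℕ} {κ : Par} {σ : St} (H : Hyp κ σ) {v : ℕ} (hv : v ∈ Pcs κ σ) {θ : St}
    (hC : Ctx C κ σ v θ) (a b : ℕ) (ha : θ.g 25 = a) (hb : θ.g 26 = b) (hab : a ≠ b) :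
    (call4 acE (.g 28 + .g 31) (.g 32) (.g 25) (.g 26)).ev κ θ [] =
      if (gadg C κ σ v).Adj a b then 1 else 0 := by
  have h1 : (call4 acE (.g 28 + .g 31) (.g 32) (.g 25) (.g 26)).ev κ θ [] =
      acE.ev κ θ [kk κ σ v + lg C κ σ v,
        bfE.ev κ σ [kk κ σ v, ll κ σ v, lg C κ σ v, cc κ σ v], a, b] := by
    simp only [ev_call4, ev_add, ev_g, hC.g28, hC.g31, hC.g32, ha, hb]
  rw [h1, ev_same κ σ θ hC.same acE u_ac, ac_spec κ σ _ _ _ _ ?_ (cap_le_top H) hab]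
  · rfl
  · refine pow_cap H _ ?_
    have h2 := size_le H v hv
    have h3 := lg_le C κ σ v
    omega

/-- the inner loop -/
theorem loopB {C : ℕ} {κ : Par} {σ : St} (H : Hyp κ σ) {v : ℕ} (hv : v ∈ Gds κ σ) {ρ : St}
    (hC : Ctx C κ σ v ρ) (a : ℕ) (ha : ρ.g 25 = a) (has : a < kk κ σ v + lg C κ σ v)
    (L : List (ℕ × ℕ)) (hL : Inv (σ.g 14) L ρ) :
    Inv (σ.g 14) (L ++ row (gadg C κ σ v) (newn C κ σ v) a a)
      ((S.loop 26 (.g 25) bodyAB).run κ ρ) := by
  have hv' := ((mem_Gds κ σ v).1 hv).1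
  have hsz : kk κ σ v + lg C κ σ v ≤ κ.top := by
    have h2 := size_le H v hv'
    have h3 := lg_le C κ σ v
    have h4 := s_le_cap H (kk κ σ v + lg C κ σ v) (by omega)
    have h5 := cap_le_top H
    omega
  have hn : min ((E.g 25).ev κ ρ []) κ.top = a := by
    rw [ev_g, ha]
    exact min_eq_left (by omega)
  have ht1 : 1 ≤ κ.top := (one_le_cap H).trans (cap_le_top H)
  refine (loop_inv κ 26 (.g 25) bodyAB ρ a hn
    (fun b τ => Same [10, 13, 26] [8, 9] ρ τ ∧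
      Inv (σ.g 14) (L ++ row (gadg C κ σ v) (newn C κ σ v) a b) τ) ?_ ?_).2
  · refine ⟨Same.refl _ _ _, ?_⟩
    simpa [row] using hL
  · rintro b hb τ ⟨hS, hI⟩
    obtain ⟨τ', hτ'⟩ : ∃ τ' : St, τ' = ⟨Function.update τ.g 26 b, τ.m⟩ := ⟨_, rfl⟩
    rw [← hτ']
    have s1 : Same [26] [] τ τ' := by
      rw [hτ']
      exact same_upd _ _ _ _ _ (by simp)
    have s2 : Same [10, 13, 26] [8, 9] ρ τ' :=
      hS.trans (s1.mono (by simp) (by simp))
    have hI' : Inv (σ.g 14) (L ++ row (gadg C κ σ v) (newn C κ σ v) a b) τ' :=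
      inv_congr s1 (by simp) (by simp) (by simp) (by simp) hI
    have hC' : Ctx C κ σ v τ' := ctx_congr hC s2 (by simp) (by simp)
    have h25 : τ'.g 25 = a := by rw [s2.1 25 (by simp), ha]
    have h26 : τ'.g 26 = b := by rw [hτ']; simp
    refine ⟨s2.trans ((bodyAB_same κ τ').mono (by simp) (by simp)), ?_⟩
    rw [row_succ, ← List.append_assoc]
    have hcond := cond_ev H hv' hC' a b h25 h26 (by omega)
    by_cases hA : (gadg C κ σ v).Adj a b
    · rw [if_pos hA] at hcond ⊢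
      have e1 : bodyAB.run κ τ' = (appS (nameE (.g 25)) (nameE (.g 26))).run κ τ' := by
        rw [bodyAB, S.run, if_neg (by rw [hcond]; exact one_ne_zero)]
      rw [e1]
      refine app_inv κ (σ.g 14) _ τ' _ _ _ _ ?_ H.h14 H.ht ht1 hI' ?_ ?_ ?_ ?_
      · exact hC'.same.1 14 (by simp [G0])
      · exact name_ev H hv' hC' 25 a h25
      · intro τ'' hs
        exact name_ev H hv' (ctx_congr hC' hs (by simp) (by simp)) 26 b
          (by rw [hs.1 26 (by simp), h26])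
      · exact newn_top H hv a has
      · exact newn_top H hv b (by omega)
    · rw [if_neg hA] at hcond ⊢
      have e1 : bodyAB.run κ τ' = τ' := by
        rw [bodyAB, S.run, if_pos hcond]
        rfl
      rw [e1, List.append_nil]
      exact hI'

/-- the outer loop over the gadget -/
theorem loopA {C : ℕ} {κ : Par} {σ : St} (H : Hyp κ σ) {v : ℕ} (hv : v ∈ Gds κ σ) {ρ : St}
    (hC : Ctx C κ σ v ρ) (L : List (ℕ × ℕ)) (hL : Inv (σ.g 14) L ρ) :
    Inv (σ.g 14) (L ++ tri (gadg C κ σ v) (newn C κ σ v) (kk κ σ v + lg C κ σ v))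
      ((S.loop 25 (.g 28 + .g 31) (.loop 26 (.g 25) bodyAB)).run κ ρ) := by
  have hv' := ((mem_Gds κ σ v).1 hv).1
  have hsz : kk κ σ v + lg C κ σ v ≤ κ.top := by
    have h2 := size_le H v hv'
    have h3 := lg_le C κ σ v
    have h4 := s_le_cap H (kk κ σ v + lg C κ σ v) (by omega)
    have h5 := cap_le_top H
    omega
  have hn : min ((E.g 28 + E.g 31).ev κ ρ []) κ.top = kk κ σ v + lg C κ σ v := by
    rw [ev_add, ev_g, ev_g, hC.g28, hC.g31]
    exact min_eq_left hsz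
  refine (loop_inv κ 25 (.g 28 + .g 31) (.loop 26 (.g 25) bodyAB) ρ _ hn
    (fun a τ => Same [10, 13, 25, 26] [8, 9] ρ τ ∧
      Inv (σ.g 14) (L ++ tri (gadg C κ σ v) (newn C κ σ v) a) τ) ?_ ?_).2
  · refine ⟨Same.refl _ _ _, ?_⟩
    simpa [tri] using hL
  · rintro a ha τ ⟨hS, hI⟩
    obtain ⟨τ', hτ'⟩ : ∃ τ' : St, τ' = ⟨Function.update τ.g 25 a, τ.m⟩ := ⟨_, rfl⟩
    rw [← hτ']
    have s1 : Same [25] [] τ τ' := by
      rw [hτ']
      exact same_upd _ _ _ _ _ (by simp)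
    have s2 : Same [10, 13, 25, 26] [8, 9] ρ τ' :=
      hS.trans (s1.mono (by simp) (by simp))
    have hI' : Inv (σ.g 14) (L ++ tri (gadg C κ σ v) (newn C κ σ v) a) τ' :=
      inv_congr s1 (by simp) (by simp) (by simp) (by simp) hI
    have hC' : Ctx C κ σ v τ' := ctx_congr hC s2 (fun _ h => h) (by simp)
    have h25 : τ'.g 25 = a := by rw [hτ']; simp
    refine ⟨s2.trans (run_same _ _ κ _ rfl τ'), ?_⟩
    rw [tri, ← List.append_assoc]
    exact loopB H hv hC' a h25 ha _ hI'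


/-! ### one vertex -/

theorem fold_le (κ : Par) (σ : St) (n a b : E) (l : List ℕ) (T : ℕ) (h0 : a.ev κ σ l ≤ T)
    (hT : κ.top ≤ T) : (E.fold n a b).ev κ σ l ≤ T := by
  have h : (E.fold n a b).ev κ σ l = (Nat.rec (a.ev κ σ l)
      (fun i acc => min (b.ev κ σ (l ++ [i, acc, min (n.ev κ σ l) κ.cap])) κ.top)
      (min (n.ev κ σ l) κ.cap) : ℕ) := rfl
  rw [h]
  generalize min (n.ev κ σ l) κ.cap = m
  cases m with
  | zero => exact h0
  | succ m => exact (min_le_right _ _).trans hT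

theorem bf_le {κ : Par} {σ : St} (H : Hyp κ σ) (τ : St) (k l l' c : ℕ)
    (hs : k + l' ≤ (σ.g 4 + 1) * σ.g 5) : bfE.ev κ τ [k, l, l', c] ≤ κ.top := by
  have h1 : (k + l') * (k + l') ≤ κ.cap := by
    refine le_trans ?_ (pow_cap H _ hs)
    rw [← sq]
    exact Nat.lt_two_pow_self.le
  have h2 : 2 ^ ((k + l') * (k + l')) ≤ κ.top := by
    refine le_trans ?_ (cap_le_top H)
    rw [← sq]
    exact pow_cap H _ hs
  refine fold_le κ τ _ _ _ _ κ.top ?_ le_rfl
  have h3 : (call2 powE 2 ((E.v 0 + E.v 2) * (E.v 0 + E.v 2))).ev κ τ [k, l, l', c] =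
      2 ^ ((k + l') * (k + l')) := by
    rw [ev_call2]
    exact ev_pow κ τ 2 _ h1 (by norm_num) h2
  rw [h3]
  exact h2

/-- the gadget part -/
def gadPart (C : ℕ) : S := seqs [.ite (less (.g 29) (.c C * (.g 28 + 1))) (.set 31 (.g 29))
    (.set 31 (.c C * (.g 28 + 1))),
  .set 32 (call4 bfE (.g 28) (.g 29) (.g 31) (.g 30)),
  .loop 25 (.g 28 + .g 31) (.loop 26 (.g 25) bodyAB),
  .set 12 (.g 12 + .g 31)]

/-- the decisions for a piece -/
def decPart (C : ℕ) : S := .ite (call4 npE (.g 28) (.g 29) (.g 30) 0) (.set 10 1)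
  (.ite (less (.g 28) 2) .skip
    (.ite (and (eqn (.g 28) 2) (neg (call4 npE (.g 28) (.g 29) (.g 30) 2))) .skip (gadPart C)))

/-- the body of the main loop -/
def bodyV (C : ℕ) : S :=
  .ite (and (neg (call1 (bitE 6) (.g 21))) (eqn (call1 piE (.g 21)) (.g 21)))
    (seqs [.set 28 (call1 pkE (.g 21)), .set 29 (call1 plE (.g 21)),
      .set 30 (call3 cdE (.g 21) (.g 28) (.g 29)), decPart C]) .skip

theorem emitA_eq (C : ℕ) : emitA C = .loop 21 (.g 3) (bodyV C) := rfl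

theorem keep_bodyV (C : ℕ) (κ : Par) (ht : 1 ≤ κ.top) : Keep κ (bodyV C) := by
  have h1 : ∀ τ : St, min (E.ev κ τ 1 []) κ.top ≠ 0 := by
    intro τ
    change min 1 κ.top ≠ 0
    omega
  refine ⟨⟨?_, ?_, ?_, ?_⟩, trivial⟩
  · intro h; omega
  · intro h; omega
  · intro h; omega
  · refine ⟨fun _ => h1, trivial, trivial, ⟨?_, ?_⟩, ?_, ⟨?_, ?_, ?_, trivial⟩, ?_⟩
    · intro h; omega
    · intro h; omega
    · intro h; omega
    · norm_num
    · norm_num
    · exact keep_app κ ht _ _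
    · intro h; omega

/-- the list after the vertices `< v` -/
noncomputable def LL (C : ℕ) (κ : Par) (σ : St) : ℕ → List (ℕ × ℕ)
  | 0 => []
  | w + 1 => LL C κ σ w ++ (if w ∈ Gds κ σ then
      tri (gadg C κ σ w) (newn C κ σ w) (kk κ σ w + lg C κ σ w) else [])

/-- no failure before the vertex `v` -/
def Cnd (C : ℕ) (κ : Par) (σ : St) (v : ℕ) : Prop :=
  (∀ u ∈ Pcs κ σ, u < v → ¬ isBad κ σ u) ∧ (LL C κ σ v).length ≤ σ.g 14

/-- the invariant of the main loop -/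
def OInv (C : ℕ) (κ : Par) (σ : St) (v : ℕ) (τ : St) : Prop :=
  Same G0 B0 σ τ ∧ (Cnd C κ σ v → Good τ (LL C κ σ v) ∧ τ.g 12 = base C κ σ v) ∧
    (¬ Cnd C κ σ v → τ.g 10 ≠ 0)

theorem Cnd_mono {C : ℕ} {κ : Par} {σ : St} {v : ℕ} (h : Cnd C κ σ (v + 1)) : Cnd C κ σ v := by
  refine ⟨fun u hu hv => h.1 u hu (by omega), le_trans ?_ h.2⟩
  rw [LL, List.length_append]
  exact Nat.le_add_right _ _

theorem base_succ (C : ℕ) (κ : Par) (σ : St) (v : ℕ) :
    base C κ σ (v + 1) = base C κ σ v + (if v ∈ Gds κ σ then lg C κ σ v else 0) := by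
  unfold base
  rw [add_assoc]
  congr 1
  by_cases h : v ∈ Gds κ σ
  · rw [if_pos h]
    have h1 : (Gds κ σ).filter (fun u => u < v + 1) =
        insert v ((Gds κ σ).filter (fun u => u < v)) := by
      ext u
      simp only [Finset.mem_filter, Finset.mem_insert]
      constructor
      · rintro ⟨h2, h3⟩
        rcases Nat.lt_succ_iff_lt_or_eq.1 h3 with h4 | h4
        · exact Or.inr ⟨h2, h4⟩
        · exact Or.inl h4
      · rintro (rfl | h2)
        · exact ⟨h, by omega⟩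
        · exact ⟨h2.1, by omega⟩
    rw [h1, Finset.sum_insert (by simp), add_comm]
  · rw [if_neg h, add_zero]
    refine Finset.sum_congr ?_ fun _ _ => rfl
    ext u
    simp only [Finset.mem_filter]
    constructor
    · rintro ⟨h2, h3⟩
      refine ⟨h2, ?_⟩
      rcases Nat.lt_succ_iff_lt_or_eq.1 h3 with h4 | h4
      · exact h4
      · exact absurd (h4 ▸ h2) h
    · rintro ⟨h2, h3⟩
      exact ⟨h2, by omega⟩

/-- nothing is emitted for `v` -/
theorem step_none {C : ℕ} {κ : Par} {σ : St} {v : ℕ} (hv : v ∉ Gds κ σ)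
    (hb : v ∈ Pcs κ σ → ¬ isBad κ σ v) {τ τ' : St} (hS : Same G0 B0 σ τ')
    (hg : ∀ L, Good τ L → Good τ' L) (h12 : τ'.g 12 = τ.g 12) (hc : Cnd C κ σ v)
    (hI : Good τ (LL C κ σ v) ∧ τ.g 12 = base C κ σ v) : OInv C κ σ (v + 1) τ' := by
  have hLL : LL C κ σ (v + 1) = LL C κ σ v := by rw [LL, if_neg hv, List.append_nil]
  have hc' : Cnd C κ σ (v + 1) := by
    refine ⟨fun u hu hlt => ?_, by rw [hLL]; exact hc.2⟩
    rcases Nat.lt_succ_iff_lt_or_eq.1 hlt with h | h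
    · exact hc.1 u hu h
    · subst h
      exact hb hu
  refine ⟨hS, fun _ => ⟨by rw [hLL]; exact hg _ hI.1, ?_⟩, fun h => absurd hc' h⟩
  rw [h12, hI.2, base_succ, if_neg hv, add_zero]

theorem gad_run {C : ℕ} {κ : Par} {σ : St} (H : Hyp κ σ) {v : ℕ} (hv : v ∈ Gds κ σ)
    (hb : ¬ isBad κ σ v) (hc : Cnd C κ σ v) {τ : St} (hS : Same G0 B0 σ τ) (h21 : τ.g 21 = v)
    (h28 : τ.g 28 = kk κ σ v) (h29 : τ.g 29 = ll κ σ v) (h30 : τ.g 30 = cc κ σ v)
    (h12 : τ.g 12 = base C κ σ v) (hI : Good τ (LL C κ σ v)) :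
    OInv C κ σ (v + 1) ((gadPart C).run κ τ) := by
  have hv' := ((mem_Gds κ σ v).1 hv).1
  have hsz := size_le H v hv'
  have hlg := lg_le C κ σ v
  have hcap := s_le_cap H _ hsz
  have hct := cap_le_top H
  -- size of the gadget
  obtain ⟨τ5, hτ5⟩ : ∃ τ5 : St, τ5 = ⟨Function.update τ.g 31 (lg C κ σ v), τ.m⟩ := ⟨_, rfl⟩
  have e5 : (S.ite (less (.g 29) (.c C * (.g 28 + 1))) (.set 31 (.g 29))
      (.set 31 (.c C * (.g 28 + 1)))).run κ τ = τ5 := by
    have hcd : (less (.g 29) (.c C * (.g 28 + 1))).ev κ τ [] =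
        if ll κ σ v < C * (kk κ σ v + 1) then 1 else 0 := by
      simp only [ev_less, ev_g, ev_mul, ev_c, ev_add, ev_one, h28, h29]
    by_cases h : ll κ σ v < C * (kk κ σ v + 1)
    · rw [S.run, if_neg (by rw [hcd, if_pos h]; exact one_ne_zero), S.run, ev_g, h29,
        min_eq_left (by omega), hτ5, lg, min_eq_left h.le]
    · have hmin : lg C κ σ v = C * (kk κ σ v + 1) := by rw [lg, min_eq_right (not_lt.1 h)]
      rw [S.run, if_pos (by rw [hcd, if_neg h]), S.run, ev_mul, ev_c, ev_add, ev_g, ev_one, h28,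
        ← hmin, min_eq_left (by omega), hτ5]
  have s5 : Same [31] [] τ τ5 := by
    rw [hτ5]
    exact same_upd _ _ _ _ _ (by simp)
  have S5 : Same G0 B0 σ τ5 := hS.trans (s5.mono (by simp [G0]) (by simp))
  have g31 : τ5.g 31 = lg C κ σ v := by rw [hτ5]; simp
  -- code of the gadget
  obtain ⟨τ6, hτ6⟩ : ∃ τ6 : St, τ6 = ⟨Function.update τ5.g 32
      (bfE.ev κ σ [kk κ σ v, ll κ σ v, lg C κ σ v, cc κ σ v]), τ5.m⟩ := ⟨_, rfl⟩
  have e6 : (S.set 32 (call4 bfE (.g 28) (.g 29) (.g 31) (.g 30))).run κ τ5 = τ6 := by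
    have h1 : (call4 bfE (.g 28) (.g 29) (.g 31) (.g 30)).ev κ τ5 [] =
        bfE.ev κ σ [kk κ σ v, ll κ σ v, lg C κ σ v, cc κ σ v] := by
      simp only [ev_call4, ev_g, g31, s5.1 28 (by simp), s5.1 29 (by simp), s5.1 30 (by simp),
        h28, h29, h30]
      exact ev_same κ σ τ5 S5 bfE u_bf _
    rw [S.run, h1, min_eq_left (bf_le H σ _ _ _ _ (by omega)), hτ6]
  have s6 : Same [32] [] τ5 τ6 := by
    rw [hτ6]
    exact same_upd _ _ _ _ _ (by simp)
  have S6 : Same G0 B0 σ τ6 := S5.trans (s6.mono (by simp [G0]) (by simp))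
  have s56 : Same [31, 32] [] τ τ6 :=
    (s5.mono (by simp) (by simp)).trans (s6.mono (by simp) (by simp))
  have hC6 : Ctx C κ σ v τ6 := by
    refine ⟨S6, ?_, ?_, ?_, ?_, ?_⟩
    · rw [s56.1 21 (by simp), h21]
    · rw [s56.1 28 (by simp), h28]
    · rw [s6.1 31 (by simp), g31]
    · rw [hτ6]; simp
    · rw [s56.1 12 (by simp), h12]
  have hI6 : Inv (σ.g 14) (LL C κ σ v) τ6 :=
    ⟨fun _ => good_congr s56 (by simp) (by simp) (by simp) (by simp) hI,
      fun h => absurd hc.2 (not_le.2 h)⟩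
  obtain ⟨τ7, hτ7⟩ : ∃ τ7 : St, τ7 =
      (S.loop 25 (.g 28 + .g 31) (.loop 26 (.g 25) bodyAB)).run κ τ6 := ⟨_, rfl⟩
  have hI7 := loopA H hv hC6 (LL C κ σ v) hI6
  rw [← hτ7] at hI7
  have s7 : Same [10, 13, 25, 26] [8, 9] τ6 τ7 := by
    rw [hτ7]
    exact run_same _ _ κ _ rfl τ6
  have hC7 : Ctx C κ σ v τ7 := ctx_congr hC6 s7 (fun _ h => h) (fun _ h => h)
  have hLL : LL C κ σ (v + 1) = LL C κ σ v ++
      tri (gadg C κ σ v) (newn C κ σ v) (kk κ σ v + lg C κ σ v) := by rw [LL, if_pos hv]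
  rw [← hLL] at hI7
  have e8 : (gadPart C).run κ τ =
      ⟨Function.update τ7.g 12 (base C κ σ v + lg C κ σ v), τ7.m⟩ := by
    change (S.set 12 (.g 12 + .g 31)).run κ
      ((S.loop 25 (.g 28 + .g 31) (.loop 26 (.g 25) bodyAB)).run κ
      ((S.set 32 (call4 bfE (.g 28) (.g 29) (.g 31) (.g 30))).run κ
      ((S.ite (less (.g 29) (.c C * (.g 28 + 1))) (.set 31 (.g 29))
      (.set 31 (.c C * (.g 28 + 1)))).run κ τ))) = _
    rw [e5, e6, ← hτ7, S.run, ev_add, ev_g, ev_g, hC7.g12, hC7.g31, min_eq_left]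
    have h2 := base_le C κ σ H.hG v hv
    have h3 := PPieceAAux.N_le_top κ σ H.hP
    omega
  rw [e8]
  have s8 : Same [12] [] τ7 ⟨Function.update τ7.g 12 (base C κ σ v + lg C κ σ v), τ7.m⟩ :=
    same_upd _ _ _ _ _ (by simp)
  have hcs : Cnd C κ σ (v + 1) ↔ (LL C κ σ (v + 1)).length ≤ σ.g 14 := by
    constructor
    · exact fun h => h.2
    · intro h
      refine ⟨fun u hu hlt => ?_, h⟩
      rcases Nat.lt_succ_iff_lt_or_eq.1 hlt with h1 | h1
      · exact hc.1 u hu h1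
      · exact h1 ▸ hb
  refine ⟨hC7.same.trans (s8.mono (by simp [G0]) (by simp)), fun h => ⟨?_, ?_⟩, fun h => ?_⟩
  · exact good_congr s8 (by simp) (by simp) (by simp) (by simp) (hI7.1 (hcs.1 h))
  · simp only [Function.update_self]
    rw [base_succ, if_pos hv]
  · rw [hcs, not_le] at h
    rw [s8.1 10 (by simp)]
    exact hI7.2 h


theorem run_ite0 {κ : Par} {e : E} {s t : S} {τ : St} (h : e.ev κ τ [] = 0) :
    (S.ite e s t).run κ τ = t.run κ τ := by
  rw [S.run, if_pos h]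

theorem run_ite1 {κ : Par} {e : E} {s t : S} {τ : St} (h : e.ev κ τ [] ≠ 0) :
    (S.ite e s t).run κ τ = s.run κ τ := by
  rw [S.run, if_neg h]

theorem dec_run {C : ℕ} {κ : Par} {σ : St} (H : Hyp κ σ) {v : ℕ} (hv : v ∈ Pcs κ σ)
    (hc : Cnd C κ σ v) {τ : St} (hS : Same G0 B0 σ τ) (h21 : τ.g 21 = v)
    (h28 : τ.g 28 = kk κ σ v) (h29 : τ.g 29 = ll κ σ v) (h30 : τ.g 30 = cc κ σ v)
    (h12 : τ.g 12 = base C κ σ v) (hI : Good τ (LL C κ σ v)) :
    OInv C κ σ (v + 1) ((decPart C).run κ τ) := by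
  have ht1 : 1 ≤ κ.top := (one_le_cap H).trans (cap_le_top H)
  have hnp : ∀ (q : E) (n : ℕ), (∀ l, q.ev κ τ l = n) →
      (call4 npE (.g 28) (.g 29) (.g 30) q).ev κ τ [] =
      npE.ev κ σ [kk κ σ v, ll κ σ v, cc κ σ v, n] := by
    intro q n hq
    simp only [ev_call4, ev_g, h28, h29, h30, hq]
    exact ev_same κ σ τ hS npE u_np _
  have h0 := hnp 0 0 (fun _ => rfl)
  have h2 := hnp 2 2 (fun _ => rfl)
  by_cases hb : isBad κ σ v
  · have e1 : (decPart C).run κ τ = (S.set 10 1).run κ τ :=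
      run_ite1 (by rw [h0]; exact hb)
    rw [e1]
    refine ⟨hS.trans (run_same _ _ κ _ rfl τ), fun h => ?_, fun _ => ?_⟩
    · exact absurd hb (h.1 v hv (Nat.lt_succ_self v))
    · simp only [S.run, Function.update_self, ev_one]
      omega
  · have e1 : (decPart C).run κ τ = (S.ite (less (.g 28) 2) .skip
        (.ite (and (eqn (.g 28) 2) (neg (call4 npE (.g 28) (.g 29) (.g 30) 2))) .skip
          (gadPart C))).run κ τ :=
      run_ite0 (by rw [h0]; exact not_not.1 hb)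
    have hl : (less (.g 28) 2).ev κ τ [] = if kk κ σ v < 2 then 1 else 0 := by
      rw [ev_less, ev_g, h28]
      rfl
    by_cases hk : kk κ σ v < 2
    · have e2 : (decPart C).run κ τ = τ := by
        rw [e1, run_ite1 (by rw [hl, if_pos hk]; exact one_ne_zero)]
        rfl
      rw [e2]
      refine step_none ?_ (fun _ => hb) hS (fun _ h => h) rfl hc ⟨hI, h12⟩
      rw [mem_Gds]
      rintro ⟨_, hg⟩
      exact absurd hg.1 (not_le.2 hk)
    · have e2 : (decPart C).run κ τ =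
          (S.ite (and (eqn (.g 28) 2) (neg (call4 npE (.g 28) (.g 29) (.g 30) 2))) .skip
          (gadPart C)).run κ τ := by
        rw [e1, run_ite0 (by rw [hl, if_neg hk])]
      have hl2 : (and (eqn (.g 28) 2) (neg (call4 npE (.g 28) (.g 29) (.g 30) 2))).ev κ τ [] =
          if isThin κ σ v then 1 else 0 := by
        rw [ev_and, ev_eqn, ev_g, h28, ev_neg, h2]
        have h3 : (2 : E).ev κ τ [] = 2 := rfl
        rw [h3]
        unfold isThin
        by_cases h4 : kk κ σ v = 2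
        · rw [if_pos h4, if_neg one_ne_zero]
          by_cases h5 : npE.ev κ σ [kk κ σ v, ll κ σ v, cc κ σ v, 2] = 0
          · rw [if_pos h5, if_pos ⟨h4, h5⟩]
          · rw [if_neg h5, if_neg (fun h => h5 h.2)]
        · rw [if_neg h4, if_pos rfl, if_neg (fun h => h4 h.1)]
      by_cases ht : isThin κ σ v
      · have e3 : (decPart C).run κ τ = τ := by
          rw [e2, run_ite1 (by rw [hl2, if_pos ht]; exact one_ne_zero)]
          rfl
        rw [e3]
        refine step_none ?_ (fun _ => hb) hS (fun _ h => h) rfl hc ⟨hI, h12⟩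
        rw [mem_Gds]
        rintro ⟨_, hg⟩
        exact hg.2 ht
      · have e3 : (decPart C).run κ τ = (gadPart C).run κ τ := by
          rw [e2, run_ite0 (by rw [hl2, if_neg ht])]
        rw [e3]
        refine gad_run H ?_ hb hc hS h21 h28 h29 h30 h12 hI
        rw [mem_Gds]
        exact ⟨hv, not_lt.1 hk, ht⟩

theorem body_step {C : ℕ} {κ : Par} {σ : St} (H : Hyp κ σ) {v : ℕ} (hvN : v < σ.g 3) {τ : St}
    (hI : OInv C κ σ v τ) :
    OInv C κ σ (v + 1) ((bodyV C).run κ ⟨Function.update τ.g 21 v, τ.m⟩) := by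
  obtain ⟨τ1, hτ1⟩ : ∃ τ1 : St, τ1 = ⟨Function.update τ.g 21 v, τ.m⟩ := ⟨_, rfl⟩
  rw [← hτ1]
  have ht1 : 1 ≤ κ.top := (one_le_cap H).trans (cap_le_top H)
  have s1 : Same [21] [] τ τ1 := by
    rw [hτ1]
    exact same_upd _ _ _ _ _ (by simp)
  have S1 : Same G0 B0 σ τ1 := hI.1.trans (s1.mono (by simp [G0]) (by simp))
  by_cases hc : Cnd C κ σ v
  · obtain ⟨hgd, hg12⟩ := hI.2.1 hc
    have hgd1 : Good τ1 (LL C κ σ v) :=
      good_congr s1 (by simp) (by simp) (by simp) (by simp) hgd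
    have h21 : τ1.g 21 = v := by rw [hτ1]; simp
    have hcond : (and (neg (call1 (bitE 6) (.g 21))) (eqn (call1 piE (.g 21)) (.g 21))).ev κ τ1 []
        = if v ∈ Pcs κ σ then 1 else 0 := by
      rw [ev_and, ev_neg, ev_call1, ev_eqn, ev_call1, ev_g, h21,
        ev_same κ σ τ1 S1 (bitE 6) u_bit, ev_same κ σ τ1 S1 piE u_pi]
      have hbt : (bitE 6).ev κ σ [v] = bt κ σ 6 v := rfl
      rw [hbt]
      by_cases hm : v ∈ Rm κ σ
      · have h1 : bt κ σ 6 v ≠ 0 := hm.2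
        rw [if_neg h1, if_pos rfl, if_neg]
        intro h2
        exact ((mem_Pcs κ σ v).1 h2).2.1 hm
      · have h1 : bt κ σ 6 v = 0 := (PPieceAAux.bt_of κ σ v hvN).2 hm
        rw [if_pos h1, if_neg one_ne_zero, pi_spec κ σ H.hP H.hG H.hR v hvN hm]
        refine if_congr ?_ rfl rfl
        rw [mem_Pcs]
        tauto
    by_cases hv : v ∈ Pcs κ σ
    · have h := (mem_Pcs κ σ v).1 hv
      have hsz := size_le H v hv
      have hcap := s_le_cap H _ hsz
      have hct := cap_le_top H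
      have hcc : cc κ σ v ≤ κ.top := by
        have h2 := (cd_spec κ σ H.hP H.hG H.hR v h.1 h.2.1).2
        have h3 := pow_cap H _ hsz
        omega
      obtain ⟨τ2, hτ2⟩ : ∃ τ2 : St, τ2 = ⟨Function.update τ1.g 28 (kk κ σ v), τ1.m⟩ := ⟨_, rfl⟩
      have e2 : (S.set 28 (call1 pkE (.g 21))).run κ τ1 = τ2 := by
        rw [S.run, ev_call1, ev_g, h21, ev_same κ σ τ1 S1 pkE u_pk,
          (pk_spec κ σ H.hP H.hG H.hR v h.1 h.2.1).1, min_eq_left (by omega), hτ2]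
      have s2 : Same [28] [] τ1 τ2 := by
        rw [hτ2]
        exact same_upd _ _ _ _ _ (by simp)
      have S2 : Same G0 B0 σ τ2 := S1.trans (s2.mono (by simp [G0]) (by simp))
      have h28 : τ2.g 28 = kk κ σ v := by rw [hτ2]; simp
      obtain ⟨τ3, hτ3⟩ : ∃ τ3 : St, τ3 = ⟨Function.update τ2.g 29 (ll κ σ v), τ2.m⟩ := ⟨_, rfl⟩
      have e3 : (S.set 29 (call1 plE (.g 21))).run κ τ2 = τ3 := by
        rw [S.run, ev_call1, ev_g, s2.1 21 (by simp), h21, ev_same κ σ τ2 S2 plE u_pl,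
          (pl_spec κ σ H.hP H.hG H.hR v h.1 h.2.1).1, min_eq_left (by omega), hτ3]
      have s3 : Same [29] [] τ2 τ3 := by
        rw [hτ3]
        exact same_upd _ _ _ _ _ (by simp)
      have S3 : Same G0 B0 σ τ3 := S2.trans (s3.mono (by simp [G0]) (by simp))
      have h29 : τ3.g 29 = ll κ σ v := by rw [hτ3]; simp
      obtain ⟨τ4, hτ4⟩ : ∃ τ4 : St, τ4 = ⟨Function.update τ3.g 30 (cc κ σ v), τ3.m⟩ := ⟨_, rfl⟩
      have e4 : (S.set 30 (call3 cdE (.g 21) (.g 28) (.g 29))).run κ τ3 = τ4 := by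
        have h5 : (call3 cdE (.g 21) (.g 28) (.g 29)).ev κ τ3 [] = cc κ σ v := by
          simp only [ev_call3, ev_g, h29, s3.1 28 (by simp), h28, s3.1 21 (by simp),
            s2.1 21 (by simp), h21]
          rw [ev_same κ σ τ3 S3 cdE u_cd]
          rfl
        rw [S.run, h5, min_eq_left hcc, hτ4]
      have s4 : Same [30] [] τ3 τ4 := by
        rw [hτ4]
        exact same_upd _ _ _ _ _ (by simp)
      have S4 : Same G0 B0 σ τ4 := S3.trans (s4.mono (by simp [G0]) (by simp))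
      have s14 : Same [28, 29, 30] [] τ1 τ4 :=
        ((s2.mono (by simp) (by simp)).trans (s3.mono (by simp) (by simp))).trans
          (s4.mono (by simp) (by simp))
      have e5 : (bodyV C).run κ τ1 = (decPart C).run κ τ4 := by
        rw [bodyV, S.run, if_neg (by rw [hcond, if_pos hv]; exact one_ne_zero)]
        change (decPart C).run κ ((S.set 30 (call3 cdE (.g 21) (.g 28) (.g 29))).run κ
          ((S.set 29 (call1 plE (.g 21))).run κ ((S.set 28 (call1 pkE (.g 21))).run κ τ1))) = _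
        rw [e2, e3, e4]
      rw [e5]
      refine dec_run H hv hc S4 ?_ ?_ ?_ ?_ ?_ ?_
      · rw [s14.1 21 (by simp), h21]
      · rw [s4.1 28 (by simp), s3.1 28 (by simp), h28]
      · rw [s4.1 29 (by simp), h29]
      · rw [hτ4]; simp
      · rw [s14.1 12 (by simp), s1.1 12 (by simp), hg12]
      · exact good_congr s14 (by simp) (by simp) (by simp) (by simp) hgd1
    · have e5 : (bodyV C).run κ τ1 = τ1 := by
        rw [bodyV, S.run, if_pos (by rw [hcond, if_neg hv])]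
        rfl
      rw [e5]
      refine step_none (fun h => hv ((mem_Gds κ σ v).1 h).1) (fun h => absurd h hv) S1
        (fun L h => good_congr s1 (by simp) (by simp) (by simp) (by simp) h)
        (s1.1 12 (by simp)) hc ⟨hgd, hg12⟩
  · have h10 : τ1.g 10 ≠ 0 := by
      rw [s1.1 10 (by simp)]
      exact hI.2.2 hc
    refine ⟨S1.trans (run_same _ _ κ _ rfl τ1), fun h => absurd (Cnd_mono h) hc, fun _ => ?_⟩
    exact keep κ _ (keep_bodyV C κ ht1) τ1 h10

theorem main_inv {C : ℕ} {κ : Par} {σ : St} (H : Hyp κ σ) (h10 : σ.g 10 = 0)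
    (h12 : σ.g 12 = σ.g 11) (h13 : σ.g 13 = 0) :
    OInv C κ σ (σ.g 3) ((emitA C).run κ σ) := by
  rw [emitA_eq]
  refine loop_inv κ 21 (.g 3) (bodyV C) σ (σ.g 3) (min_eq_left (PPieceAAux.N_le_top κ σ H.hP))
    (OInv C κ σ) ?_ (fun v hv τ hτ => body_step H hv hτ)
  have hc : Cnd C κ σ 0 := ⟨fun u _ h => absurd h (Nat.not_lt_zero u), Nat.zero_le _⟩
  refine ⟨Same.refl _ _ _, fun _ => ⟨⟨h10, h13, fun i hi => absurd hi (Nat.not_lt_zero i)⟩, ?_⟩,
    fun h => absurd hc h⟩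
  rw [h12, H.hK.NR, base]
  simp

/-! ### the complete list -/

theorem mem_LL (C : ℕ) (κ : Par) (σ : St) (v : ℕ) (p : ℕ × ℕ) : p ∈ LL C κ σ v ↔
    ∃ u ∈ Gds κ σ, u < v ∧
      p ∈ tri (gadg C κ σ u) (newn C κ σ u) (kk κ σ u + lg C κ σ u) := by
  induction v with
  | zero => simp [LL]
  | succ w ih =>
    rw [LL, List.mem_append, ih]
    constructor
    · rintro (⟨u, hu, h1, h2⟩ | h)
      · exact ⟨u, hu, by omega, h2⟩
      · by_cases hw : w ∈ Gds κ σ
        · rw [if_pos hw] at h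
          exact ⟨w, hw, by omega, h⟩
        · rw [if_neg hw] at h
          simp at h
    · rintro ⟨u, hu, h1, h2⟩
      rcases Nat.lt_succ_iff_lt_or_eq.1 h1 with h3 | h3
      · exact Or.inl ⟨u, hu, h3, h2⟩
      · subst h3
        exact Or.inr (by rw [if_pos hu]; exact h2)

theorem LL_length (C : ℕ) (κ : Par) (σ : St) (v : ℕ) : (LL C κ σ v).length =
    ∑ u ∈ (Gds κ σ).filter (fun u => u < v), ecount C κ σ u := by
  induction v with
  | zero => simp [LL]
  | succ w ih =>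
    rw [LL, List.length_append, ih]
    by_cases h : w ∈ Gds κ σ
    · have h1 : (Gds κ σ).filter (fun u => u < w + 1) =
          insert w ((Gds κ σ).filter (fun u => u < w)) := by
        ext u
        simp only [Finset.mem_filter, Finset.mem_insert]
        constructor
        · rintro ⟨h2, h3⟩
          rcases Nat.lt_succ_iff_lt_or_eq.1 h3 with h4 | h4
          · exact Or.inr ⟨h2, h4⟩
          · exact Or.inl h4
        · rintro (rfl | h2)
          · exact ⟨h, by omega⟩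
          · exact ⟨h2.1, by omega⟩
      rw [if_pos h, h1, Finset.sum_insert (by simp), add_comm, ecount, gadg, tri_ecount]
    · rw [if_neg h, List.length_nil, add_zero]
      refine Finset.sum_congr ?_ fun _ _ => rfl
      ext u
      simp only [Finset.mem_filter]
      constructor
      · rintro ⟨h2, h3⟩
        exact ⟨h2, by omega⟩
      · rintro ⟨h2, h3⟩
        refine ⟨h2, ?_⟩
        rcases Nat.lt_succ_iff_lt_or_eq.1 h3 with h4 | h4
        · exact h4
        · exact absurd (h4 ▸ h2) h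

theorem Gds_all (κ : Par) (σ : St) : (Gds κ σ).filter (fun u => u < σ.g 3) = Gds κ σ := by
  refine Finset.filter_true_of_mem fun u hu => ?_
  exact ((mem_Pcs κ σ u).1 ((mem_Gds κ σ u).1 hu).1).1

theorem LE_good {τ : St} {L : List (ℕ × ℕ)} (h : Good τ L) (x y : ℕ) :
    LE τ x y ↔ (x, y) ∈ L ∨ (y, x) ∈ L := by
  unfold LE
  rw [h.2.1]
  have key : ∀ x y : ℕ, (∃ e < L.length, τ.m 8 e = x ∧ τ.m 9 e = y) ↔ (x, y) ∈ L := by
    intro x y
    constructor
    · rintro ⟨e, he, rfl, rfl⟩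
      rw [h.2.2 e he, List.getD_eq_getElem _ _ he]
      exact List.getElem_mem he
    · intro hm
      obtain ⟨e, he, hx⟩ := List.getElem_of_mem hm
      have h1 := h.2.2 e he
      rw [List.getD_eq_getElem _ _ he, hx] at h1
      exact ⟨e, he, (Prod.ext_iff.1 h1).1, (Prod.ext_iff.1 h1).2⟩
  constructor
  · rintro ⟨e, he, h1 | h1⟩
    · exact Or.inl ((key x y).1 ⟨e, he, h1⟩)
    · exact Or.inr ((key y x).1 ⟨e, he, h1⟩)
  · rintro (h1 | h1)
    · obtain ⟨e, he, h2⟩ := (key x y).2 h1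
      exact ⟨e, he, Or.inl h2⟩
    · obtain ⟨e, he, h2⟩ := (key y x).2 h1
      exact ⟨e, he, Or.inr h2⟩

end PEmitAAux

theorem emitA_spec (C : ℕ) (κ : Par) (σ : St) (hP : POk κ σ) (hG : (cur κ σ).Ok)
    (hR : ROk κ σ) (hK : RkOk κ σ) (h10 : σ.g 10 = 0) (h12 : σ.g 12 = σ.g 11) (h13 : σ.g 13 = 0)
    (h14 : σ.g 14 ≤ κ.lim) (ht : κ.lim ≤ κ.top) :
    (((emitA C).run κ σ).g 10 = 0 ↔
      (∀ u ∈ Pcs κ σ, ¬ isBad κ σ u) ∧ ∑ u ∈ Gds κ σ, ecount C κ σ u ≤ σ.g 14) ∧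
    (((emitA C).run κ σ).g 10 = 0 →
      ((emitA C).run κ σ).g 12 = (Rm κ σ).ncard + ∑ u ∈ Gds κ σ, lg C κ σ u ∧
      ((emitA C).run κ σ).g 13 = ∑ u ∈ Gds κ σ, ecount C κ σ u ∧
      (∀ x y, LE ((emitA C).run κ σ) x y ↔
        ∃ u ∈ Gds κ σ, ∃ a b, (gadg C κ σ u).Adj a b ∧ x = newn C κ σ u a ∧
          y = newn C κ σ u b) ∧
      ∀ e < ((emitA C).run κ σ).g 13,
        ((emitA C).run κ σ).m 8 e < ((emitA C).run κ σ).g 12 ∧
        ((emitA C).run κ σ).m 9 e < ((emitA C).run κ σ).g 12 ∧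
        ((emitA C).run κ σ).m 8 e ≠ ((emitA C).run κ σ).m 9 e) := by
  have H : PEmitAAux.Hyp κ σ := ⟨hP, hG, hR, hK, h14, ht⟩
  obtain ⟨-, hI1, hI2⟩ := PEmitAAux.main_inv (C := C) H h10 h12 h13
  have hlen : (PEmitAAux.LL C κ σ (σ.g 3)).length = ∑ u ∈ Gds κ σ, ecount C κ σ u := by
    rw [PEmitAAux.LL_length, PEmitAAux.Gds_all]
  have hcnd : PEmitAAux.Cnd C κ σ (σ.g 3) ↔
      (∀ u ∈ Pcs κ σ, ¬ isBad κ σ u) ∧ ∑ u ∈ Gds κ σ, ecount C κ σ u ≤ σ.g 14 := by
    unfold PEmitAAux.Cnd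
    rw [hlen]
    refine and_congr_left fun _ => ⟨fun h u hu => h u hu ?_, fun h u hu _ => h u hu⟩
    exact ((PEmitAAux.mem_Pcs κ σ u).1 hu).1
  have hiff : ((emitA C).run κ σ).g 10 = 0 ↔ PEmitAAux.Cnd C κ σ (σ.g 3) := by
    constructor
    · intro h
      by_contra h2
      exact hI2 h2 h
    · intro h
      exact (hI1 h).1.1
  refine ⟨hiff.trans hcnd, fun h0 => ?_⟩
  obtain ⟨hgd, hb⟩ := hI1 (hiff.1 h0)
  have hbase : base C κ σ (σ.g 3) = (Rm κ σ).ncard + ∑ u ∈ Gds κ σ, lg C κ σ u := by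
    rw [base, PEmitAAux.Gds_all]
  have hmem : ∀ p, p ∈ PEmitAAux.LL C κ σ (σ.g 3) ↔ ∃ u ∈ Gds κ σ, ∃ a b,
      a < kk κ σ u + lg C κ σ u ∧ b < a ∧ (gadg C κ σ u).Adj a b ∧
      p = (newn C κ σ u a, newn C κ σ u b) := by
    intro p
    rw [PEmitAAux.mem_LL]
    constructor
    · rintro ⟨u, hu, -, h1⟩
      obtain ⟨a, ha, b, hb, hA, hp⟩ := (PEmitAAux.mem_tri _ _ _ _).1 h1
      exact ⟨u, hu, a, b, ha, hb, hA, hp⟩
    · rintro ⟨u, hu, a, b, ha, hb, hA, hp⟩
      exact ⟨u, hu, ((PEmitAAux.mem_Pcs κ σ u).1 ((PEmitAAux.mem_Gds κ σ u).1 hu).1).1,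
        (PEmitAAux.mem_tri _ _ _ _).2 ⟨a, ha, b, hb, hA, hp⟩⟩
  refine ⟨hb.trans hbase, hgd.2.1.trans hlen, fun x y => ?_, fun e he => ?_⟩
  · rw [PEmitAAux.LE_good hgd, hmem, hmem]
    constructor
    · rintro (⟨u, hu, a, b, -, -, hA, hp⟩ | ⟨u, hu, a, b, -, -, hA, hp⟩)
      · exact ⟨u, hu, a, b, hA, (Prod.ext_iff.1 hp).1, (Prod.ext_iff.1 hp).2⟩
      · exact ⟨u, hu, b, a, hA.symm, (Prod.ext_iff.1 hp).2, (Prod.ext_iff.1 hp).1⟩
    · rintro ⟨u, hu, a, b, hA, rfl, rfl⟩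
      have hlt := PEmitAAux.cg_lt _ _ _ _ hA
      rcases lt_or_gt_of_ne hA.ne with h1 | h1
      · exact Or.inr ⟨u, hu, b, a, hlt.2, h1, hA.symm, rfl⟩
      · exact Or.inl ⟨u, hu, a, b, hlt.1, h1, hA, rfl⟩
  · rw [hgd.2.1] at he
    have h1 := hgd.2.2 e he
    rw [List.getD_eq_getElem _ _ he] at h1
    obtain ⟨u, hu, a, b, ha, hba, hA, hp⟩ := (hmem _).1 (List.getElem_mem he)
    rw [hp] at h1
    have h8 : ((emitA C).run κ σ).m 8 e = newn C κ σ u a := (Prod.ext_iff.1 h1).1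
    have h9 : ((emitA C).run κ σ).m 9 e = newn C κ σ u b := (Prod.ext_iff.1 h1).2
    have hu' := ((PEmitAAux.mem_Gds κ σ u).1 hu).1
    have hle := (PEmitAAux.base_le C κ σ hG u hu).1
    rw [h8, h9, hb, hbase]
    refine ⟨?_, ?_, fun h => ?_⟩
    · have := PEmitAAux.newn_lt C κ σ hP hG hR u hu' a ha
      omega
    · have := PEmitAAux.newn_lt C κ σ hP hG hR u hu' b (by omega)
      omega
    · have := PEmitAAux.newn_inj C κ σ hP hG hR u hu' a b h
      omega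


namespace PEmitAAux

/-! ### cost -/

theorem count_le (κ : Par) (σ : St) (n b : E) (l : List ℕ)
    (h : ∀ i acc m, b.ev κ σ (l ++ [i, acc, m]) ≤ acc + 1) : (E.fold n 0 b).ev κ σ l ≤ κ.cap := by
  have h1 : (E.fold n 0 b).ev κ σ l = (Nat.rec (0 : ℕ)
      (fun i acc => min (b.ev κ σ (l ++ [i, acc, min (n.ev κ σ l) κ.cap])) κ.top)
      (min (n.ev κ σ l) κ.cap) : ℕ) := rfl
  rw [h1]
  refine le_trans ?_ (min_le_right (n.ev κ σ l) κ.cap)
  have h2 : ∀ k, (Nat.rec (0 : ℕ)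
      (fun i acc => min (b.ev κ σ (l ++ [i, acc, min (n.ev κ σ l) κ.cap])) κ.top) k : ℕ) ≤ k := by
    intro k
    induction k with
    | zero => exact le_rfl
    | succ k ih => exact (min_le_left _ _).trans ((h _ _ _).trans (Nat.succ_le_succ ih))
  exact h2 _

theorem pk_le (κ : Par) (σ : St) (u : ℕ) : pkE.ev κ σ [u] ≤ κ.cap := by
  refine count_le κ σ _ _ _ fun i acc m => ?_
  rw [ev_add, ev_less, ev_v]
  have h : ([u] ++ [i, acc, m] : List ℕ).getD 2 0 = acc := rfl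
  rw [h]
  split_ifs <;> omega

theorem pl_le (κ : Par) (σ : St) (u : ℕ) : plE.ev κ σ [u] ≤ κ.cap := by
  refine count_le κ σ _ _ _ fun i acc m => ?_
  rw [ev_add, ev_less, ev_v]
  have h : ([u] ++ [i, acc, m] : List ℕ).getD 2 0 = acc := rfl
  rw [h]
  split_ifs <;> omega

theorem cost_ite (κ : Par) (e : E) (s t : S) (σ : St) (c : ℕ) (hs : s.cost κ σ ≤ c)
    (ht : t.cost κ σ ≤ c) : (S.ite e s t).cost κ σ ≤ 1 + c := by
  rw [S.cost]
  split_ifs <;> omega

theorem cost_app (κ : Par) (x y : E) (σ : St) : (appS x y).cost κ σ ≤ 4 :=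
  cost_ite κ _ _ _ σ 3 le_rfl (by norm_num [S.cost])

theorem cost_AB (κ : Par) (σ : St) : bodyAB.cost κ σ ≤ 5 :=
  cost_ite κ _ _ _ σ 4 (cost_app κ _ _ σ) (by norm_num [S.cost])

theorem cost_loops (κ : Par) (τ : St) (h28 : τ.g 28 ≤ κ.cap) (h31 : τ.g 31 ≤ κ.cap) :
    (S.loop 25 (.g 28 + .g 31) (.loop 26 (.g 25) bodyAB)).cost κ τ ≤
      1 + 2 * κ.cap * (2 + 12 * κ.cap) := by
  obtain ⟨n, hn⟩ : ∃ n, n = min ((E.g 28 + E.g 31).ev κ τ []) κ.top := ⟨_, rfl⟩
  have hn2 : n ≤ 2 * κ.cap := by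
    rw [hn, ev_add, ev_g, ev_g]
    exact (min_le_left _ _).trans (by omega)
  have h := loop_cost κ 25 (.g 28 + .g 31) (.loop 26 (.g 25) bodyAB) τ n hn.symm
    (fun _ _ => True) (fun _ => 1 + 12 * κ.cap) trivial (fun i hi ρ _ => ⟨trivial, ?_⟩)
  · refine h.trans (Nat.add_le_add_left ?_ 1)
    rw [Finset.sum_const, Finset.card_range, smul_eq_mul]
    refine (Nat.mul_le_mul_right _ hn2).trans (le_of_eq ?_)
    ring
  · refine (loop_cost_const κ 26 (.g 25) bodyAB _ (2 * κ.cap) 5 ?_ (cost_AB κ)).trans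
      (le_of_eq ?_)
    · refine (min_le_left _ _).trans ?_
      rw [ev_g]
      simp only [Function.update_self]
      omega
    · ring

theorem cost_gad (C : ℕ) (κ : Par) (τ : St) (h28 : τ.g 28 ≤ κ.cap) (h29 : τ.g 29 ≤ κ.cap) :
    (gadPart C).cost κ τ ≤ 5 + 2 * κ.cap * (2 + 12 * κ.cap) := by
  obtain ⟨τ5, hτ5⟩ : ∃ τ5 : St, τ5 = (S.ite (less (.g 29) (.c C * (.g 28 + 1)))
    (.set 31 (.g 29)) (.set 31 (.c C * (.g 28 + 1)))).run κ τ := ⟨_, rfl⟩
  obtain ⟨τ6, hτ6⟩ : ∃ τ6 : St, τ6 =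
    (S.set 32 (call4 bfE (.g 28) (.g 29) (.g 31) (.g 30))).run κ τ5 := ⟨_, rfl⟩
  have h1 : (gadPart C).cost κ τ = (S.ite (less (.g 29) (.c C * (.g 28 + 1)))
      (.set 31 (.g 29)) (.set 31 (.c C * (.g 28 + 1)))).cost κ τ +
      (1 + ((S.loop 25 (.g 28 + .g 31) (.loop 26 (.g 25) bodyAB)).cost κ τ6 + 1)) := by
    rw [hτ6, hτ5]
    rfl
  have h2 : (S.ite (less (.g 29) (.c C * (.g 28 + 1)))
      (.set 31 (.g 29)) (.set 31 (.c C * (.g 28 + 1)))).cost κ τ ≤ 2 :=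
    cost_ite κ _ _ _ τ 1 le_rfl le_rfl
  have s6 : Same [31, 32] [] τ τ6 := by
    rw [hτ6, hτ5]
    exact (run_same [31, 32] [] κ _ rfl τ).trans (run_same [31, 32] [] κ _ rfl _)
  have s56 : Same [32] [] τ5 τ6 := by
    rw [hτ6]
    exact run_same _ _ κ _ rfl _
  have h31 : τ5.g 31 ≤ κ.cap := by
    rw [hτ5]
    have hcd : (less (.g 29) (.c C * (.g 28 + 1))).ev κ τ [] =
        if τ.g 29 < C * (τ.g 28 + 1) then 1 else 0 := by
      rw [ev_less, ev_g, ev_mul, ev_c, ev_add, ev_g, ev_one]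
    by_cases h : τ.g 29 < C * (τ.g 28 + 1)
    · rw [run_ite1 (by rw [hcd, if_pos h]; exact one_ne_zero)]
      simp only [S.run, Function.update_self, ev_g]
      exact (min_le_left _ _).trans h29
    · rw [run_ite0 (by rw [hcd, if_neg h])]
      simp only [S.run, Function.update_self, ev_mul, ev_c, ev_add, ev_g, ev_one]
      exact (min_le_left _ _).trans ((not_lt.1 h).trans h29)
  have h3 := cost_loops κ τ6 (by rw [s6.1 28 (by simp)]; exact h28)
    (by rw [s56.1 31 (by simp)]; exact h31)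
  rw [h1]
  omega

theorem cost_dec (C : ℕ) (κ : Par) (τ : St) (h28 : τ.g 28 ≤ κ.cap) (h29 : τ.g 29 ≤ κ.cap) :
    (decPart C).cost κ τ ≤ 8 + 2 * κ.cap * (2 + 12 * κ.cap) := by
  have h := cost_gad C κ τ h28 h29
  have h1 : (S.ite (and (eqn (.g 28) 2) (neg (call4 npE (.g 28) (.g 29) (.g 30) 2))) .skip
      (gadPart C)).cost κ τ ≤ 1 + (5 + 2 * κ.cap * (2 + 12 * κ.cap)) :=
    cost_ite κ _ _ _ τ _ (by rw [S.cost]; omega) h
  have h2 : (S.ite (less (.g 28) 2) .skip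
      (.ite (and (eqn (.g 28) 2) (neg (call4 npE (.g 28) (.g 29) (.g 30) 2))) .skip
      (gadPart C))).cost κ τ ≤ 1 + (1 + (5 + 2 * κ.cap * (2 + 12 * κ.cap))) :=
    cost_ite κ _ _ _ τ _ (by rw [S.cost]; omega) h1
  have h3 : (decPart C).cost κ τ ≤ 1 + (1 + (1 + (5 + 2 * κ.cap * (2 + 12 * κ.cap)))) :=
    cost_ite κ _ _ _ τ _ (by rw [S.cost]; omega) h2
  omega

theorem cost_body (C : ℕ) (κ : Par) (τ : St) :
    (bodyV C).cost κ τ ≤ 12 + 2 * κ.cap * (2 + 12 * κ.cap) := by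
  obtain ⟨τ2, hτ2⟩ : ∃ τ2 : St, τ2 = (S.set 28 (call1 pkE (.g 21))).run κ τ := ⟨_, rfl⟩
  obtain ⟨τ3, hτ3⟩ : ∃ τ3 : St, τ3 = (S.set 29 (call1 plE (.g 21))).run κ τ2 := ⟨_, rfl⟩
  obtain ⟨τ4, hτ4⟩ : ∃ τ4 : St, τ4 =
    (S.set 30 (call3 cdE (.g 21) (.g 28) (.g 29))).run κ τ3 := ⟨_, rfl⟩
  have h28 : τ2.g 28 ≤ κ.cap := by
    rw [hτ2]
    simp only [S.run, Function.update_self, ev_call1]
    exact (min_le_left _ _).trans (pk_le _ _ _)
  have h29 : τ3.g 29 ≤ κ.cap := by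
    rw [hτ3]
    simp only [S.run, Function.update_self, ev_call1]
    exact (min_le_left _ _).trans (pl_le _ _ _)
  have s3 : Same [29] [] τ2 τ3 := by
    rw [hτ3]
    exact run_same _ _ κ _ rfl _
  have s4 : Same [30] [] τ3 τ4 := by
    rw [hτ4]
    exact run_same _ _ κ _ rfl _
  have h := cost_dec C κ τ4 (by rw [s4.1 28 (by simp), s3.1 28 (by simp)]; exact h28)
    (by rw [s4.1 29 (by simp)]; exact h29)
  have h1 : (seqs [.set 28 (call1 pkE (.g 21)), .set 29 (call1 plE (.g 21)),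
      .set 30 (call3 cdE (.g 21) (.g 28) (.g 29)), decPart C]).cost κ τ =
      1 + (1 + (1 + (decPart C).cost κ τ4)) := by
    rw [hτ4, hτ3, hτ2]
    rfl
  have h2 := cost_ite κ (and (neg (call1 (bitE 6) (.g 21))) (eqn (call1 piE (.g 21)) (.g 21)))
    (seqs [.set 28 (call1 pkE (.g 21)), .set 29 (call1 plE (.g 21)),
      .set 30 (call3 cdE (.g 21) (.g 28) (.g 29)), decPart C]) .skip τ
    (11 + 2 * κ.cap * (2 + 12 * κ.cap)) (by rw [h1]; omega) (by rw [S.cost]; omega)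
  rw [bodyV]
  omega

end PEmitAAux

theorem emitA_cost (C : ℕ) (κ : Par) (σ : St) :
    (emitA C).cost κ σ ≤ 1000 * (σ.g 3 + 1) * (κ.cap + 1) ^ 2 := by
  rw [PEmitAAux.emitA_eq]
  refine (loop_cost_const κ 21 (.g 3) (PEmitAAux.bodyV C) σ (σ.g 3) _ (min_le_left _ _)
    (PEmitAAux.cost_body C κ)).trans ?_
  have h1 : 1 + (12 + 2 * κ.cap * (2 + 12 * κ.cap)) ≤ 100 * (κ.cap + 1) ^ 2 := by
    ring_nf
    nlinarith [sq_nonneg κ.cap]
  have h2 : σ.g 3 * (1 + (12 + 2 * κ.cap * (2 + 12 * κ.cap))) ≤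
      σ.g 3 * (100 * (κ.cap + 1) ^ 2) := Nat.mul_le_mul_left _ h1
  have h3 : 1 ≤ (κ.cap + 1) ^ 2 := Nat.one_le_pow _ _ (by omega)
  nlinarith

end Pool.Agent.MP9d6bd1
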