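import Mathlib
import Pool.Agent.Lib.MP_9d6bd1_lc.Spec2
import Pool.Agent.Lib.MP_9d6bd1_lc.EvLib
import Pool.Agent.Lib.MP_9d6bd1_lc.RunLib
import Pool.Agent.Lib.MP_9d6bd1_lc.PPieceA

/-!
# MP_9d6bd1_lc, module P19: edges between marked vertices
-/

set_option autoImplicit false

open Classical

namespace Pool.Agent.MP9d6bd1

open E S

namespace PEmitBAux

/-! ### The degrees are at most `top` -/

theorem rd_eq (κ : Par) (σ : St) (a : ℕ) : rdE.ev κ σ [a] =
    if σ.g 20 = 0 then (if a < κ.lim then σ.m 0 a else 0) else min (κ.inp a) κ.top := by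
  simp [rdE]

theorem dg_eq (κ : Par) (σ : St) (u : ℕ) :
    (cur κ σ).deg u = rdE.ev κ σ [u + 2] - rdE.ev κ σ [u + 1] := by
  simp [cur, dgE]

theorem nb_eq (κ : Par) (σ : St) (u j : ℕ) :
    (cur κ σ).nb u j = rdE.ev κ σ [rdE.ev κ σ [u + 1] + j] := by
  simp [cur, nbE]

theorem deg_le_top (κ : Par) (σ : St) (hG : (cur κ σ).Ok) (ht : κ.lim ≤ κ.top) (u : ℕ)
    (hu : u < σ.g 3) : (cur κ σ).deg u ≤ κ.top := by
  by_cases h20 : σ.g 20 = 0
  · by_contra hcon
    have hbig : κ.lim < (cur κ σ).deg u := by omega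
    obtain ⟨s, hs⟩ : ∃ s, s = rdE.ev κ σ [u + 1] := ⟨_, rfl⟩
    obtain ⟨s', hs'⟩ : ∃ s', s' = rdE.ev κ σ [0 + 1] := ⟨_, rfl⟩
    have hnb : ∀ j, (cur κ σ).nb u j = if s + j < κ.lim then σ.m 0 (s + j) else 0 := by
      intro j
      rw [nb_eq, ← hs, rd_eq, if_pos h20]
    have hnb' : ∀ j, (cur κ σ).nb 0 j = if s' + j < κ.lim then σ.m 0 (s' + j) else 0 := by
      intro j
      rw [nb_eq, ← hs', rd_eq, if_pos h20]
    have h0 : (cur κ σ).nb u κ.lim = 0 := by rw [hnb, if_neg (by omega)]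
    have hN : (0 : ℕ) < (cur κ σ).N := by
      have := hG.lt u hu κ.lim hbig
      rw [h0] at this
      exact this
    have hu0 : (0 : ℕ) ≠ u := by
      have := hG.ne u hu κ.lim hbig
      rw [h0] at this
      exact this
    have hsym := hG.symm u hu 0 hN
    -- entries of `0` equal to `u`
    have c1 : (cur κ σ).cnt 0 u ≤ ((Finset.range κ.lim).filter fun c => σ.m 0 c = u).card := by
      unfold FG.cnt
      refine Finset.card_le_card_of_injOn (fun j => s' + j) ?_ ?_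
      · intro j hj
        simp only [Finset.coe_filter, Finset.mem_range, Set.mem_ofPred_eq] at hj ⊢
        have h1 := hj.2
        rw [hnb'] at h1
        split_ifs at h1 with h2
        · exact ⟨h2, h1⟩
        · exact absurd h1 hu0
      · intro a _ b _ hab
        simpa using hab
    have c2 : ((Finset.range ((cur κ σ).deg u)).filter fun j => ¬ s + j < κ.lim).card ≤
        (cur κ σ).cnt u 0 := by
      unfold FG.cnt
      refine Finset.card_le_card ?_
      intro j hj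
      simp only [Finset.mem_filter] at hj ⊢
      refine ⟨hj.1, ?_⟩
      rw [hnb, if_neg hj.2]
    have c3 : ((Finset.range ((cur κ σ).deg u)).filter fun j => s + j < κ.lim).card ≤
        ((Finset.range κ.lim).filter fun c => ¬ σ.m 0 c = u).card := by
      refine Finset.card_le_card_of_injOn (fun j => s + j) ?_ ?_
      · intro j hj
        simp only [Finset.coe_filter, Finset.mem_range, Set.mem_ofPred_eq] at hj ⊢
        refine ⟨hj.2, fun h1 => ?_⟩
        apply hG.ne u hu j hj.1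
        rw [hnb, if_pos hj.2]
        exact h1
      · intro a _ b _ hab
        simpa using hab
    have c4 := Finset.card_filter_add_card_filter_not (s := Finset.range ((cur κ σ).deg u))
      (fun j => s + j < κ.lim)
    have c5 := Finset.card_filter_add_card_filter_not (s := Finset.range κ.lim)
      (fun c => σ.m 0 c = u)
    rw [Finset.card_range] at c4 c5
    omega
  · rw [dg_eq, rd_eq, if_neg h20]
    exact (Nat.sub_le _ _).trans (min_le_right _ _)

/-! ### Ranks -/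

theorem Rm_finite (κ : Par) (σ : St) : (Rm κ σ).Finite :=
  (Set.finite_lt_nat (σ.g 3)).subset fun _ h => h.1

theorem rank_lt (κ : Par) (σ : St) (z : ℕ) (hz : z ∈ Rm κ σ) :
    rank κ σ z < (Rm κ σ).ncard := by
  refine Set.ncard_lt_ncard ?_ (Rm_finite κ σ)
  refine ⟨Set.inter_subset_left, fun h => ?_⟩
  have := (h hz).2
  exact lt_irrefl z this

theorem rank_strict (κ : Par) (σ : St) (a b : ℕ) (ha : a ∈ Rm κ σ) (hab : a < b) :
    rank κ σ a < rank κ σ b := by
  refine Set.ncard_lt_ncard ?_ ((Rm_finite κ σ).subset Set.inter_subset_left)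
  refine ⟨fun x hx => ⟨hx.1, lt_trans hx.2 hab⟩, fun h => ?_⟩
  have := (h ⟨ha, hab⟩ : a ∈ Rm κ σ ∩ {x | x < a}).2
  exact lt_irrefl a this

theorem rank_inj (κ : Par) (σ : St) (a b : ℕ) (ha : a ∈ Rm κ σ) (hb : b ∈ Rm κ σ)
    (h : rank κ σ a = rank κ σ b) : a = b := by
  rcases lt_trichotomy a b with h1 | h1 | h1
  · have := rank_strict κ σ a b ha h1
    omega
  · exact h1
  · have := rank_strict κ σ b a hb h1
    omega

/-! ### Pieces -/

theorem entry_symm (κ : Par) (σ : St) (hG : (cur κ σ).Ok) (a b : ℕ) (ha : a < σ.g 3)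
    (hb : b < σ.g 3) (h : ∃ j < (cur κ σ).deg a, (cur κ σ).nb a j = b) :
    ∃ j < (cur κ σ).deg b, (cur κ σ).nb b j = a := by
  obtain ⟨j, hj, hjb⟩ := h
  have h1 : 0 < (cur κ σ).cnt a b := by
    unfold FG.cnt
    exact Finset.card_pos.2 ⟨j, by simp [hj, hjb]⟩
  rw [hG.symm a ha b hb] at h1
  unfold FG.cnt at h1
  obtain ⟨i, hi⟩ := Finset.card_pos.1 h1
  simp only [Finset.mem_filter, Finset.mem_range] at hi
  exact ⟨i, hi.1, hi.2⟩

theorem PC_mem (κ : Par) (σ : St) (hG : (cur κ σ).Ok) (y : ℕ) (hy : y < σ.g 3)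
    (hm : y ∉ Rm κ σ) (w : ℕ) (hw : w ∈ PC κ σ y) : w < σ.g 3 ∧ w ∉ Rm κ σ := by
  have hw' : Relation.ReflTransGen (ust κ σ) y w := hw
  induction hw' with
  | refl => exact ⟨hy, hm⟩
  | tail h1 h2 ih =>
    obtain ⟨j, hj, rfl, h3⟩ := h2
    exact ⟨hG.lt _ (ih h1).1 j hj, h3⟩

theorem PC_eq (κ : Par) (σ : St) (hG : (cur κ σ).Ok) (y : ℕ) (hy : y < σ.g 3)
    (hm : y ∉ Rm κ σ) (w : ℕ) (hw : w ∈ PC κ σ y) : PC κ σ w = PC κ σ y := by
  have hback : Relation.ReflTransGen (ust κ σ) w y := by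
    have hw' : Relation.ReflTransGen (ust κ σ) y w := hw
    clear hw
    induction hw' with
    | refl => exact Relation.ReflTransGen.refl
    | tail h1 h2 ih =>
      rename_i b c
      have hb := PC_mem κ σ hG y hy hm b h1
      have hc := PC_mem κ σ hG y hy hm c (Relation.ReflTransGen.tail h1 h2)
      refine Relation.ReflTransGen.head ?_ ih
      obtain ⟨j, hj, h3, _⟩ := h2
      obtain ⟨i, hi, h4⟩ := entry_symm κ σ hG b c hb.1 hc.1 ⟨j, hj, h3⟩
      exact ⟨i, hi, h4, hb.2⟩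
  ext x
  exact ⟨fun hx => Relation.ReflTransGen.trans hw hx, fun hx => Relation.ReflTransGen.trans hback hx⟩

theorem TT_eq (κ : Par) (σ : St) (y w : ℕ) (h : PC κ σ w = PC κ σ y) :
    TT κ σ w = TT κ σ y := by
  unfold TT
  rw [h]

theorem fold_congr (κ : Par) (σ : St) (n a b : E) (l l' : List ℕ)
    (hn : n.ev κ σ l = n.ev κ σ l') (ha : a.ev κ σ l = a.ev κ σ l')
    (hb : ∀ i < κ.cap, ∀ acc m, b.ev κ σ (l ++ [i, acc, m]) = b.ev κ σ (l' ++ [i, acc, m])) :
    (E.fold n a b).ev κ σ l = (E.fold n a b).ev κ σ l' := by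
  have key : ∀ M ≤ κ.cap, ∀ k ≤ M, (Nat.rec (a.ev κ σ l)
      (fun i acc => min (b.ev κ σ (l ++ [i, acc, M])) κ.top) k : ℕ) =
      (Nat.rec (a.ev κ σ l') (fun i acc => min (b.ev κ σ (l' ++ [i, acc, M])) κ.top) k : ℕ) := by
    intro M hM k hk
    induction k with
    | zero => exact ha
    | succ k ih =>
      have h1 := ih (by omega)
      simp only [h1]
      rw [hb k (by omega)]
  simp only [E.ev, hn]
  exact key _ (min_le_right _ _) _ le_rfl

theorem fold_le_top (κ : Par) (σ : St) (n a b : E) (l : List ℕ) (ha : a.ev κ σ l ≤ κ.top) :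
    (E.fold n a b).ev κ σ l ≤ κ.top := by
  simp only [E.ev]
  cases min (n.ev κ σ l) κ.cap with
  | zero => exact ha
  | succ k => exact min_le_right _ _

theorem ad_congr (κ : Par) (σ : St) (u y : ℕ)
    (hT : ∀ i ≤ κ.cap, elT.ev κ σ [u, i] = elT.ev κ σ [y, i])
    (hE : ∀ i ≤ κ.cap, elP.ev κ σ [u, i] = elP.ev κ σ [y, i]) (k a b : ℕ) (ha : a < κ.cap)
    (hb : b < κ.cap) : adE.ev κ σ [u, k, a, b] = adE.ev κ σ [y, k, a, b] := by
  have hnm : ∀ i < κ.cap, nmE.ev κ σ [u, k, i] = nmE.ev κ σ [y, k, i] := by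
    intro i hi
    simp [nmE, hT i hi.le, hE (i - k) (by omega)]
  simp only [adE, ev_and, ev_neg, ev_less, ev_v, ev_lt, ev_call3]
  simp only [List.getD_cons_zero, List.getD_cons_succ, List.cons_append, List.nil_append]
  rw [hnm a ha, hnm b hb]
  congr 1

theorem cd_congr (κ : Par) (σ : St) (u y : ℕ)
    (hT : ∀ i ≤ κ.cap, elT.ev κ σ [u, i] = elT.ev κ σ [y, i])
    (hE : ∀ i ≤ κ.cap, elP.ev κ σ [u, i] = elP.ev κ σ [y, i]) (k l : ℕ) :
    cdE.ev κ σ [u, k, l] = cdE.ev κ σ [y, k, l] := by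
  unfold cdE
  refine fold_congr κ σ _ _ _ _ _ (by simp) (by simp) fun i hi acc m => ?_
  refine fold_congr κ σ _ _ _ _ _ (by simp) (by simp) fun i' hi' acc' m' => ?_
  have := ad_congr κ σ u y hT hE k i i' hi hi'
  simp only [ev_add, ev_mul, ev_v, ev_call4, ev_call2]
  simp [this]

section Pieces

variable {κ : Par} {σ : St}

theorem one_le_cap (hP : POk κ σ) : 1 ≤ κ.cap := by
  have := hP.cap
  have h1 : 1 ≤ 2 ^ (3 * ((σ.g 4 + 1) * σ.g 5 + 6) ^ 2) := Nat.one_le_two_pow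
  omega

theorem el_eq (hP : POk κ σ) (hG : (cur κ σ).Ok) (hR : ROk κ σ) {y : ℕ} (hy : y < σ.g 3)
    (hm : y ∉ Rm κ σ) {w : ℕ} (hw : w ∈ PC κ σ y) :
    (∀ i ≤ κ.cap, elT.ev κ σ [w, i] = elT.ev κ σ [y, i]) ∧
    (∀ i ≤ κ.cap, elP.ev κ σ [w, i] = elP.ev κ σ [y, i]) := by
  have hw' := PC_mem κ σ hG y hy hm w hw
  have hPC := PC_eq κ σ hG y hy hm w hw
  constructor
  · obtain ⟨s, hs, h1⟩ := elT_spec κ σ hP hG hR w hw'.1 hw'.2
    obtain ⟨s', hs', h1'⟩ := elT_spec κ σ hP hG hR y hy hm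
    have hss : s = s' := Finset.coe_injective (by rw [hs, hs', TT_eq κ σ y w hPC])
    subst hss
    intro i hi
    rw [h1 i hi, h1' i hi]
  · obtain ⟨s, hs, h1⟩ := elP_spec κ σ hP hG hR w hw'.1 hw'.2
    obtain ⟨s', hs', h1'⟩ := elP_spec κ σ hP hG hR y hy hm
    have hss : s = s' := Finset.coe_injective (by rw [hs, hs', hPC])
    subst hss
    intro i hi
    rw [h1 i hi, h1' i hi]

theorem kk_eq (hG : (cur κ σ).Ok) {y : ℕ} (hy : y < σ.g 3)
    (hm : y ∉ Rm κ σ) {w : ℕ} (hw : w ∈ PC κ σ y) : kk κ σ w = kk κ σ y := by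
  unfold kk
  rw [TT_eq κ σ y w (PC_eq κ σ hG y hy hm w hw)]

theorem ll_eq (hG : (cur κ σ).Ok) {y : ℕ} (hy : y < σ.g 3)
    (hm : y ∉ Rm κ σ) {w : ℕ} (hw : w ∈ PC κ σ y) : ll κ σ w = ll κ σ y := by
  unfold ll
  rw [PC_eq κ σ hG y hy hm w hw]

theorem cc_eq (hP : POk κ σ) (hG : (cur κ σ).Ok) (hR : ROk κ σ) {y : ℕ} (hy : y < σ.g 3)
    (hm : y ∉ Rm κ σ) {w : ℕ} (hw : w ∈ PC κ σ y) : cc κ σ w = cc κ σ y := by
  have h := el_eq hP hG hR hy hm hw
  unfold cc
  rw [kk_eq hG hy hm hw, ll_eq hG hy hm hw]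
  exact cd_congr κ σ w y h.1 h.2 _ _

theorem thin_eq (hP : POk κ σ) (hG : (cur κ σ).Ok) (hR : ROk κ σ) {y : ℕ} (hy : y < σ.g 3)
    (hm : y ∉ Rm κ σ) {w : ℕ} (hw : w ∈ PC κ σ y) : isThin κ σ w ↔ isThin κ σ y := by
  unfold isThin
  rw [kk_eq hG hy hm hw, ll_eq hG hy hm hw, cc_eq hP hG hR hy hm hw]

theorem exists_rep (hG : (cur κ σ).Ok) {y : ℕ} (hy : y < σ.g 3)
    (hm : y ∉ Rm κ σ) : ∃ u ∈ Pcs κ σ, u ∈ PC κ σ y := by
  have hmem : sInf (PC κ σ y) ∈ PC κ σ y := Nat.sInf_mem ⟨y, Relation.ReflTransGen.refl⟩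
  refine ⟨sInf (PC κ σ y), ?_, hmem⟩
  have h1 := PC_mem κ σ hG y hy hm _ hmem
  have h2 := PC_eq κ σ hG y hy hm _ hmem
  simp only [Pcs, Finset.mem_filter, Finset.mem_range]
  exact ⟨h1.1, h1.2, by rw [h2]⟩

theorem TT_pair (hP : POk κ σ) (hG : (cur κ σ).Ok) (hR : ROk κ σ) {y : ℕ} (hy : y < σ.g 3)
    (hm : y ∉ Rm κ σ) (h2 : kk κ σ y = 2) :
    elT.ev κ σ [y, 0] < elT.ev κ σ [y, 1] ∧
      TT κ σ y = {elT.ev κ σ [y, 0], elT.ev κ σ [y, 1]} := by
  obtain ⟨s, hs, h1⟩ := elT_spec κ σ hP hG hR y hy hm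
  have hcap := one_le_cap hP
  have hcard : s.card = 2 := by
    unfold kk at h2
    rw [← hs, Set.ncard_coe_finset] at h2
    exact h2
  have hlen : s.sort.length = 2 := by rw [Finset.length_sort, hcard]
  obtain ⟨p, q, hpq⟩ := List.length_eq_two.1 hlen
  have hp : elT.ev κ σ [y, 0] = p := by
    rw [h1 0 (by omega), hpq]
    rfl
  have hq : elT.ev κ σ [y, 1] = q := by
    rw [h1 1 hcap, hpq]
    rfl
  have hlt : p < q := by
    have := (Finset.sortedLT_sort s).pairwise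
    rw [hpq] at this
    simpa using this
  rw [hp, hq]
  refine ⟨hlt, ?_⟩
  rw [← hs]
  ext x
  rw [Finset.mem_coe, ← Finset.mem_sort (r := (· ≤ ·)), hpq]
  simp

/-- the ordered pairs that are joined -/
def Pr (κ : Par) (σ : St) : Set (ℕ × ℕ) := {p | p.1 < p.2 ∧ s(p.1, p.2) ∈ prs κ σ}

theorem prs_mem {a b : ℕ} (h : s(a, b) ∈ prs κ σ) : a ∈ Rm κ σ ∧ b ∈ Rm κ σ ∧ a ≠ b ∧
    ((cur κ σ).gr.Adj a b ∨ ∃ u ∈ Pcs κ σ, isThin κ σ u ∧ TT κ σ u = {a, b}) := by
  obtain ⟨a', b', hne, ha, hb, he, h⟩ := h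
  rw [Sym2.eq_iff] at he
  rcases he with ⟨rfl, rfl⟩ | ⟨rfl, rfl⟩
  · exact ⟨ha, hb, hne, h⟩
  · refine ⟨hb, ha, hne.symm, ?_⟩
    rcases h with h | ⟨u, h1, h2, h3⟩
    · exact Or.inl h.symm
    · exact Or.inr ⟨u, h1, h2, by rw [h3]; exact Set.pair_comm _ _⟩

theorem Pr_finite (κ : Par) (σ : St) : (Pr κ σ).Finite := by
  refine ((Rm_finite κ σ).prod (Rm_finite κ σ)).subset ?_
  intro p hp
  have := prs_mem hp.2
  exact ⟨this.1, this.2.1⟩

theorem Pr_ncard (κ : Par) (σ : St) : (Pr κ σ).ncard = (prs κ σ).ncard := by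
  have himg : prs κ σ = (fun p : ℕ × ℕ => s(p.1, p.2)) '' Pr κ σ := by
    ext e
    induction e using Sym2.ind with
    | _ a b =>
      constructor
      · intro h
        have h1 := prs_mem h
        rcases lt_or_gt_of_ne h1.2.2.1 with h2 | h2
        · exact ⟨(a, b), ⟨h2, h⟩, rfl⟩
        · exact ⟨(b, a), ⟨h2, by rw [Sym2.eq_swap]; exact h⟩, Sym2.eq_swap⟩
      · rintro ⟨p, hp, hpe⟩
        rw [← hpe]
        exact hp.2
  rw [himg]
  refine (Set.InjOn.ncard_image ?_).symm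
  rintro ⟨a, b⟩ ⟨h1, _⟩ ⟨c, d⟩ ⟨h2, _⟩ h
  simp only [Sym2.eq_iff] at h
  rcases h with ⟨rfl, rfl⟩ | ⟨rfl, rfl⟩
  · rfl
  · simp only at h1 h2
    omega

/-- entry `j` of `v` finds `z` -/
def FT (κ : Par) (σ : St) (v j z : ℕ) : Prop :=
  ((cur κ σ).nb v j ∈ Rm κ σ ∧ v < (cur κ σ).nb v j ∧ z = (cur κ σ).nb v j) ∨
  ((cur κ σ).nb v j ∉ Rm κ σ ∧ isThin κ σ ((cur κ σ).nb v j) ∧
    elT.ev κ σ [(cur κ σ).nb v j, 0] = v ∧ z = elT.ev κ σ [(cur κ σ).nb v j, 1])

theorem FT_iff (hP : POk κ σ) (hG : (cur κ σ).Ok) (hR : ROk κ σ) {v : ℕ} (hv : v ∈ Rm κ σ)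
    (z : ℕ) : (∃ j < (cur κ σ).deg v, FT κ σ v j z) ↔ (v, z) ∈ Pr κ σ := by
  have hvN : v < σ.g 3 := hv.1
  constructor
  · rintro ⟨j, hj, h⟩
    have hyN : (cur κ σ).nb v j < σ.g 3 := hG.lt v hvN j hj
    rcases h with ⟨h1, h2, rfl⟩ | ⟨h1, h2, h3, rfl⟩
    · refine ⟨h2, v, _, h2.ne, hv, h1, rfl, Or.inl ?_⟩
      rw [FG.gr, SimpleGraph.fromRel_adj]
      exact ⟨h2.ne, Or.inl ⟨hvN, hyN, j, hj, rfl⟩⟩
    · have hp := TT_pair hP hG hR hyN h1 h2.1
      rw [h3] at hp
      obtain ⟨u, hu, huP⟩ := exists_rep hG hyN h1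
      have hTT : TT κ σ u = TT κ σ ((cur κ σ).nb v j) :=
        TT_eq κ σ _ _ (PC_eq κ σ hG _ hyN h1 _ huP)
      have hz : elT.ev κ σ [(cur κ σ).nb v j, 1] ∈ TT κ σ ((cur κ σ).nb v j) := by
        rw [hp.2]
        exact Set.mem_insert_of_mem _ rfl
      refine ⟨hp.1, v, _, hp.1.ne, hv, hz.1, rfl, Or.inr ⟨u, hu, ?_, ?_⟩⟩
      · exact (thin_eq hP hG hR hyN h1 huP).2 h2
      · rw [hTT]
        exact hp.2
  · rintro ⟨hlt, hpr⟩
    simp only at hlt hpr
    obtain ⟨_, hz, hne, h⟩ := prs_mem hpr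
    rcases h with h | ⟨u, hu, hthin, hTT⟩
    · rw [FG.gr, SimpleGraph.fromRel_adj] at h
      have hentry : ∃ j < (cur κ σ).deg v, (cur κ σ).nb v j = z := by
        rcases h.2 with ⟨_, _, h3⟩ | ⟨h1, h2, h3⟩
        · exact h3
        · exact entry_symm κ σ hG z v h1 h2 h3
      obtain ⟨j, hj, hjz⟩ := hentry
      refine ⟨j, hj, Or.inl ?_⟩
      rw [hjz]
      exact ⟨hz, hlt, rfl⟩
    · have hvT : v ∈ TT κ σ u := by
        rw [hTT]
        exact Set.mem_insert _ _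
      simp only [Pcs, Finset.mem_filter, Finset.mem_range] at hu
      obtain ⟨_, w, hw, i, hi, hiv⟩ := hvT
      have hw' := PC_mem κ σ hG u hu.1 hu.2.1 w hw
      obtain ⟨j, hj, hjw⟩ := entry_symm κ σ hG w v hw'.1 hvN ⟨i, hi, hiv⟩
      have hthin' : isThin κ σ w := (thin_eq hP hG hR hu.1 hu.2.1 hw).2 hthin
      have hTTw : TT κ σ w = {v, z} := by
        rw [TT_eq κ σ u w (PC_eq κ σ hG u hu.1 hu.2.1 w hw)]
        exact hTT
      have hp := TT_pair hP hG hR hw'.1 hw'.2 hthin'.1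
      refine ⟨j, hj, Or.inr ?_⟩
      rw [hjw]
      refine ⟨hw'.2, hthin', ?_⟩
      obtain ⟨p, hpe⟩ : ∃ p, p = elT.ev κ σ [w, 0] := ⟨_, rfl⟩
      obtain ⟨q, hqe⟩ : ∃ q, q = elT.ev κ σ [w, 1] := ⟨_, rfl⟩
      rw [hTTw, ← hpe, ← hqe] at hp
      rw [← hpe, ← hqe]
      have e1 : v ∈ ({p, q} : Set ℕ) := by rw [← hp.2]; simp
      have e2 : z ∈ ({p, q} : Set ℕ) := by rw [← hp.2]; simp
      simp only [Set.mem_insert_iff, Set.mem_singleton_iff] at e1 e2
      have := hp.1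
      omega

end Pieces

/-! ### Frames -/

/-- the global variables written by `emitB` -/
def gLs : List ℕ := [10, 13, 21, 23, 24, 27, 28, 29, 30, 33]

/-- the banks written by `emitB` -/
def bLs : List (Fin 16) := [8, 9, 10]

/-- the other global variables -/
def useG (x : ℕ) : Bool := !(gLs.elem x)

/-- the other banks -/
def useB (b : Fin 16) : Bool := !(bLs.elem b)

theorem ev_same {κ : Par} {σ τ : St} (h : Same gLs bLs σ τ) (e : E)
    (he : e.uses useG useB = true) (l : List ℕ) : e.ev κ τ l = e.ev κ σ l := by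
  refine (ev_congr useG useB κ σ τ (fun x hx => (h.1 x ?_).symm) (fun b hb => (h.2 b ?_).symm)
    e he l).symm
  · simpa [useG] using hx
  · simpa [useB] using hb

/-- the constant `1` -/
def isOne : E → Bool
  | .c 1 => true
  | _ => false

/-- the statement does not reset the global variable `10` -/
def keeps : S → Bool
  | .skip => true
  | .set x e => !(x == 10) || isOne e
  | .st _ _ _ => true
  | .seq s t => keeps s && keeps t
  | .ite _ s t => keeps s && keeps t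
  | .loop x _ s => !(x == 10) && keeps s

theorem keeps_run (κ : Par) (ht : 1 ≤ κ.top) (s : S) (hs : keeps s = true) :
    ∀ σ : St, σ.g 10 ≠ 0 → (s.run κ σ).g 10 ≠ 0 := by
  induction s with
  | skip => intro σ h; exact h
  | set x e =>
    intro σ h
    simp only [S.run]
    by_cases hx : x = 10
    · subst hx
      simp only [Function.update_self]
      have he : e = .c 1 := by
        simp only [keeps, beq_self_eq_true, Bool.not_true, Bool.false_or] at hs
        unfold isOne at hs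
        split at hs
        · rfl
        · exact absurd hs (by simp)
      rw [he, ev_c]
      omega
    · rw [Function.update_of_ne (Ne.symm hx)]
      exact h
  | st b i e =>
    intro σ h
    simp only [S.run]
    split_ifs <;> exact h
  | seq s t ihs iht =>
    intro σ h
    simp only [keeps, Bool.and_eq_true] at hs
    exact iht hs.2 _ (ihs hs.1 _ h)
  | ite e s t ihs iht =>
    intro σ h
    simp only [keeps, Bool.and_eq_true] at hs
    simp only [S.run]
    split_ifs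
    · exact iht hs.2 _ h
    · exact ihs hs.1 _ h
  | loop x e s ih =>
    intro σ h
    simp only [keeps, Bool.and_eq_true, Bool.not_eq_true', beq_eq_false_iff_ne, ne_eq] at hs
    simp only [S.run]
    generalize min (e.ev κ σ []) κ.top = n
    induction n with
    | zero => exact h
    | succ n ihn =>
      refine ih hs.2 _ ?_
      simp only
      rw [Function.update_of_ne (Ne.symm hs.1)]
      exact ihn

theorem same_upd {σ τ : St} (h : Same gLs bLs σ τ) (x w : ℕ) (hx : x ∈ gLs) :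
    Same gLs bLs σ ⟨Function.update τ.g x w, τ.m⟩ := by
  refine ⟨fun y hy => ?_, h.2⟩
  have hne : y ≠ x := fun h' => hy (h' ▸ hx)
  simp only [Function.update_of_ne hne]
  exact h.1 y hy

/-! ### The invariant -/

/-- the edges appended so far are those of the pairs in `A` -/
structure Rp (κ : Par) (σ τ : St) (A : Set (ℕ × ℕ)) : Prop where
  le : τ.g 13 ≤ σ.g 14
  cnt : τ.g 13 = σ.g 13 + A.ncard
  old : ∀ e < σ.g 13, τ.m 8 e = σ.m 8 e ∧ τ.m 9 e = σ.m 9 e
  sound : ∀ e, σ.g 13 ≤ e → e < τ.g 13 →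
    ∃ p ∈ A, τ.m 8 e = rank κ σ p.1 ∧ τ.m 9 e = rank κ σ p.2
  compl : ∀ p ∈ A, ∃ e, σ.g 13 ≤ e ∧ e < τ.g 13 ∧ τ.m 8 e = rank κ σ p.1 ∧
    τ.m 9 e = rank κ σ p.2

/-- the pairs found so far -/
def AA (κ : Par) (σ : St) (v : ℕ) (B : Set ℕ) : Set (ℕ × ℕ) :=
  {p | p ∈ Pr κ σ ∧ p.1 < v} ∪ {p | p.1 = v ∧ p.2 ∈ B}

/-- invariant -/
structure Iv (κ : Par) (σ : St) (v : ℕ) (B : Set ℕ) (τ : St) : Prop where
  rp : Rp κ σ τ (AA κ σ v B)
  sub : ∀ z ∈ B, (v, z) ∈ Pr κ σ
  st : ∀ z ∈ Rm κ σ, (τ.m 10 (rank κ σ z) = v + 1 ↔ z ∈ B)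
  st' : ∀ z ∈ Rm κ σ, τ.m 10 (rank κ σ z) ≤ v + 1

/-- invariant or failure -/
def OKs (κ : Par) (σ : St) (v : ℕ) (B : Set ℕ) (τ : St) : Prop :=
  (τ.g 10 = 0 ∧ Iv κ σ v B τ) ∨ (τ.g 10 ≠ 0 ∧ σ.g 14 < σ.g 13 + (prs κ σ).ncard)

theorem OKs.upd {κ : Par} {σ τ : St} {v : ℕ} {B : Set ℕ} (h : OKs κ σ v B τ) (x w : ℕ)
    (h1 : x ≠ 10) (h2 : x ≠ 13) : OKs κ σ v B ⟨Function.update τ.g x w, τ.m⟩ := by
  have e1 : (Function.update τ.g x w) 10 = τ.g 10 := Function.update_of_ne (Ne.symm h1) _ _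
  have e2 : (Function.update τ.g x w) 13 = τ.g 13 := Function.update_of_ne (Ne.symm h2) _ _
  rcases h with ⟨h3, ⟨⟨a1, a2, a3, a4, a5⟩, a6, a7, a8⟩⟩ | ⟨h3, h4⟩
  · refine Or.inl ⟨by simp only [e1]; exact h3, ⟨⟨?_, ?_, a3, ?_, ?_⟩, a6, a7, a8⟩⟩
    · simp only [e2]; exact a1
    · simp only [e2]; exact a2
    · intro e he he'
      simp only [e2] at he'
      exact a4 e he he'
    · intro p hp
      simp only [e2]
      exact a5 p hp
  · exact Or.inr ⟨by simp only [e1]; exact h3, h4⟩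

theorem AA_sub {κ : Par} {σ : St} {v : ℕ} {B : Set ℕ} (h : ∀ z ∈ B, (v, z) ∈ Pr κ σ) :
    AA κ σ v B ⊆ Pr κ σ := by
  rintro ⟨a, b⟩ (h1 | ⟨h1, h2⟩)
  · exact h1.1
  · simp only at h1 h2
    rw [h1]
    exact h b h2

theorem AA_insert (κ : Par) (σ : St) (v z : ℕ) (B : Set ℕ) :
    AA κ σ v (insert z B) = insert (v, z) (AA κ σ v B) := by
  ext ⟨a, b⟩
  simp only [AA, Set.mem_union, Set.mem_ofPred_eq, Set.mem_insert_iff, Prod.mk.injEq]
  tauto

/-! ### Appending an edge -/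

theorem app_run {κ : Par} {σ τ : St} {a x y : ℕ} (ha : a ≠ 10 ∧ a ≠ 13)
    (hS : Same gLs bLs σ τ) (hx : rkE.ev κ σ [τ.g 21] = x) (hy : rkE.ev κ σ [τ.g a] = y)
    (hxt : x ≤ κ.top) (hyt : y ≤ κ.top) (h14 : σ.g 14 ≤ κ.lim) (ht : κ.lim ≤ κ.top) :
    (τ.g 13 < σ.g 14 →
      ((appS (call1 rkE (.g 21)) (call1 rkE (.g a))).run κ τ).g 10 = τ.g 10 ∧
      ((appS (call1 rkE (.g 21)) (call1 rkE (.g a))).run κ τ).g 13 = τ.g 13 + 1 ∧
      ((appS (call1 rkE (.g 21)) (call1 rkE (.g a))).run κ τ).m 8 =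
        Function.update (τ.m 8) (τ.g 13) x ∧
      ((appS (call1 rkE (.g 21)) (call1 rkE (.g a))).run κ τ).m 9 =
        Function.update (τ.m 9) (τ.g 13) y ∧
      ((appS (call1 rkE (.g 21)) (call1 rkE (.g a))).run κ τ).m 10 = τ.m 10) ∧
    (¬ τ.g 13 < σ.g 14 → 1 ≤ κ.top →
      ((appS (call1 rkE (.g 21)) (call1 rkE (.g a))).run κ τ).g 10 ≠ 0) := by
  have _ := ha
  have e14 : τ.g 14 = σ.g 14 := hS.1 14 (by decide)
  have hcond : (less (.g 13 : E) (.g 14)).ev κ τ [] = if τ.g 13 < σ.g 14 then 1 else 0 := by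
    simp [e14]
  constructor
  · intro hlt
    obtain ⟨τ₁, hτ₁⟩ : ∃ τ₁ : St, τ₁ = ⟨τ.g, Function.update τ.m 8
      (Function.update (τ.m 8) (τ.g 13) x)⟩ := ⟨_, rfl⟩
    have hS1 : Same gLs bLs σ τ₁ := by
      refine ⟨fun z hz => by rw [hτ₁]; exact hS.1 z hz, fun b hb => ?_⟩
      have hb8 : b ≠ 8 := fun h' => hb (by rw [h']; decide)
      rw [hτ₁]
      simp only [Function.update_of_ne hb8]
      exact hS.2 b hb
    obtain ⟨τ₂, hτ₂⟩ : ∃ τ₂ : St, τ₂ = ⟨τ.g, Function.update τ₁.m 9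
      (Function.update (τ₁.m 9) (τ.g 13) y)⟩ := ⟨_, rfl⟩
    have r1 : (S.st 8 (.g 13) (call1 rkE (.g 21))).run κ τ = τ₁ := by
      simp only [S.run, ev_g, ev_call1]
      rw [if_pos (by omega), ev_same hS rkE rfl, hx, min_eq_left hxt, hτ₁]
    have r2 : (S.st 9 (.g 13) (call1 rkE (.g a))).run κ τ₁ = τ₂ := by
      have eg : τ₁.g = τ.g := by rw [hτ₁]
      simp only [S.run, ev_g, ev_call1, eg]
      rw [if_pos (by omega), ev_same hS1 rkE rfl, hy, min_eq_left hyt, hτ₂]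
    have r3 : (S.set 13 (.g 13 + 1)).run κ τ₂ =
        ⟨Function.update τ.g 13 (τ.g 13 + 1), τ₂.m⟩ := by
      have eg : τ₂.g = τ.g := by rw [hτ₂]
      simp only [S.run, ev_g, ev_add, ev_one, eg]
      rw [min_eq_left (by omega)]
    have hrun : (appS (call1 rkE (.g 21)) (call1 rkE (.g a))).run κ τ =
        ⟨Function.update τ.g 13 (τ.g 13 + 1), τ₂.m⟩ := by
      simp only [appS, seqs, S.run.eq_5, S.run.eq_4]
      rw [hcond, if_pos hlt, if_neg (by omega), r1, r2, r3]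
    rw [hrun]
    refine ⟨?_, ?_, ?_, ?_, ?_⟩
    · simp
    · simp
    · rw [hτ₂, hτ₁]
      simp
    · rw [hτ₂, hτ₁]
      simp
    · rw [hτ₂, hτ₁]
      simp
  · intro hlt ht1
    simp only [appS, S.run]
    rw [hcond, if_neg hlt, if_pos rfl]
    simp only [Function.update_self, ev_one]
    omega

theorem once_spec {κ : Par} {σ τ : St} {a v z : ℕ} {B : Set ℕ} (ha : a ≠ 10 ∧ a ≠ 13)
    (hP : POk κ σ) (hK : RkOk κ σ)
    (h14 : σ.g 14 ≤ κ.lim) (ht : κ.lim ≤ κ.top) (h11 : σ.g 11 ≤ κ.lim)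
    (hS : Same gLs bLs σ τ) (hv : τ.g 21 = v) (hz : τ.g a = z) (hvz : (v, z) ∈ Pr κ σ)
    (hO : OKs κ σ v B τ) : OKs κ σ v (insert z B) ((onceS (.g a)).run κ τ) := by
  have hN := hP.N
  have hmem := prs_mem hvz.2
  simp only at hmem
  obtain ⟨hvR, hzR, _, _⟩ := hmem
  have ht1 : 1 ≤ κ.top := by omega
  rcases hO with ⟨hb, hI⟩ | ⟨hb, hcnt⟩
  swap
  · exact Or.inr ⟨keeps_run κ ht1 _ rfl τ hb, hcnt⟩
  obtain ⟨r, hr⟩ : ∃ r, r = rank κ σ z := ⟨_, rfl⟩
  have hrlt : r < κ.lim := by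
    have := rank_lt κ σ z hzR
    rw [← hK.NR, ← hr] at this
    omega
  have hrv : rank κ σ v < κ.lim := by
    have := rank_lt κ σ v hvR
    rw [← hK.NR] at this
    omega
  have hrk : rkE.ev κ σ [τ.g a] = r := by rw [hz, hK.rk z hzR.1, hr]
  have hld : (E.ld 10 (call1 rkE (.g a))).ev κ τ [] = τ.m 10 r := by
    rw [ev_ld, ev_call1, ev_g, ev_same hS rkE rfl, hrk, if_pos hrlt]
  by_cases hst : τ.m 10 r = v + 1
  · -- already there
    have hzB : z ∈ B := (hI.st z hzR).1 (by rw [← hr]; exact hst)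
    have hrun : (onceS (.g a)).run κ τ = τ := by
      simp only [onceS, S.run]
      rw [ev_eqn, hld, ev_add, ev_g, ev_one, hv, if_pos hst, if_neg (by omega)]
    rw [hrun, Set.insert_eq_of_mem hzB]
    exact Or.inl ⟨hb, hI⟩
  · have hzB : z ∉ B := fun h => hst (by rw [hr]; exact (hI.st z hzR).2 h)
    obtain ⟨τ₁, hτ₁⟩ : ∃ τ₁ : St, τ₁ = ⟨τ.g, Function.update τ.m 10
      (Function.update (τ.m 10) r (v + 1))⟩ := ⟨_, rfl⟩
    have hS1 : Same gLs bLs σ τ₁ := by
      refine ⟨fun x hx => by rw [hτ₁]; exact hS.1 x hx, fun b hb' => ?_⟩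
      have hb10 : b ≠ 10 := fun h' => hb' (by rw [h']; decide)
      rw [hτ₁]
      simp only [Function.update_of_ne hb10]
      exact hS.2 b hb'
    have r1 : (S.st 10 (call1 rkE (.g a)) (.g 21 + 1)).run κ τ = τ₁ := by
      simp only [S.run, ev_g, ev_call1, ev_add, ev_one]
      rw [ev_same hS rkE rfl, hrk, if_pos hrlt, hv, hτ₁, min_eq_left]
      have := hvR.1
      omega
    have hrun : (onceS (.g a)).run κ τ =
        (appS (call1 rkE (.g 21)) (call1 rkE (.g a))).run κ τ₁ := by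
      simp only [onceS, seqs, S.run.eq_5, S.run.eq_4]
      rw [ev_eqn, hld, ev_add, ev_g, ev_one, hv, if_neg hst, if_pos rfl, r1]
    have eg : τ₁.g = τ.g := by rw [hτ₁]
    have em8 : τ₁.m 8 = τ.m 8 := by rw [hτ₁]; simp
    have em9 : τ₁.m 9 = τ.m 9 := by rw [hτ₁]; simp
    have em10 : τ₁.m 10 = Function.update (τ.m 10) r (v + 1) := by rw [hτ₁]; simp
    have happ := app_run (κ := κ) (a := a) (x := rank κ σ v) (y := r) ha hS1
      (by rw [eg, hv]; exact hK.rk v hvR.1) (by rw [eg]; exact hrk) (by omega) (by omega) h14 ht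
    rw [hrun]
    have hAsub := AA_sub hI.sub
    have hAfin : (AA κ σ v B).Finite := (Pr_finite κ σ).subset hAsub
    have hnot : (v, z) ∉ AA κ σ v B := by
      rintro (⟨_, h1⟩ | ⟨_, h1⟩)
      · exact lt_irrefl v h1
      · exact hzB h1
    have hcardI : (insert (v, z) (AA κ σ v B)).ncard = (AA κ σ v B).ncard + 1 :=
      Set.ncard_insert_of_notMem hnot hAfin
    by_cases hlt : τ.g 13 < σ.g 14
    · obtain ⟨q1, q2, q3, q4, q5⟩ := happ.1 (by rw [eg]; exact hlt)
      rw [eg] at q1 q2 q3 q4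
      rw [em8] at q3
      rw [em9] at q4
      rw [em10] at q5
      refine Or.inl ⟨by rw [q1]; exact hb, ?_⟩
      have hrp := hI.rp
      have h13 : σ.g 13 ≤ τ.g 13 := by have := hrp.cnt; omega
      refine ⟨⟨?_, ?_, ?_, ?_, ?_⟩, ?_, ?_, ?_⟩
      · rw [q2]; exact hlt
      · rw [q2, AA_insert, hcardI, hrp.cnt]
        ring
      · intro e he
        rw [q3, q4, Function.update_of_ne (by omega), Function.update_of_ne (by omega)]
        exact hrp.old e he
      · intro e he he'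
        rw [q2] at he'
        rw [q3, q4, AA_insert]
        by_cases h : e = τ.g 13
        · refine ⟨(v, z), Set.mem_insert _ _, ?_⟩
          rw [h, Function.update_self, Function.update_self]
          exact ⟨rfl, hr⟩
        · obtain ⟨p, hp, h1⟩ := hrp.sound e he (by omega)
          refine ⟨p, Set.mem_insert_of_mem _ hp, ?_⟩
          rw [Function.update_of_ne h, Function.update_of_ne h]
          exact h1
      · intro p hp
        rw [AA_insert] at hp
        rw [q2, q3, q4]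
        rcases hp with rfl | hp
        · refine ⟨τ.g 13, h13, Nat.lt_succ_self _, ?_⟩
          rw [Function.update_self, Function.update_self]
          exact ⟨rfl, hr⟩
        · obtain ⟨e, h1, h2, h3⟩ := hrp.compl p hp
          refine ⟨e, h1, by omega, ?_⟩
          rw [Function.update_of_ne (by omega), Function.update_of_ne (by omega)]
          exact h3
      · rintro y (rfl | hy)
        · exact hvz
        · exact hI.sub y hy
      · intro y hy
        rw [q5]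
        by_cases h : y = z
        · subst h
          rw [← hr, Function.update_self]
          simp
        · have hne : rank κ σ y ≠ r := fun h' => h (rank_inj κ σ y z hy hzR (by rw [h', hr]))
          rw [Function.update_of_ne hne, hI.st y hy]
          simp [h]
      · intro y hy
        rw [q5]
        by_cases h : rank κ σ y = r
        · rw [h, Function.update_self]
        · rw [Function.update_of_ne h]
          exact hI.st' y hy
    · refine Or.inr ⟨happ.2 (by rw [eg]; exact hlt) ht1, ?_⟩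
      have h1 := hI.rp.cnt
      have h2 : (insert (v, z) (AA κ σ v B)).ncard ≤ (Pr κ σ).ncard := by
        refine Set.ncard_le_ncard ?_ (Pr_finite κ σ)
        rintro p (rfl | hp)
        · exact hvz
        · exact hAsub hp
      rw [Pr_ncard, hcardI] at h2
      omega

theorem np_uses : npE.uses useG useB = true := by decide

theorem cd_uses : cdE.uses useG useB = true := by decide

theorem pk_uses : pkE.uses useG useB = true := by decide

theorem pl_uses : plE.uses useG useB = true := by decide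

theorem el_uses : elT.uses useG useB = true := by decide

theorem nb_uses : nbE.uses useG useB = true := by decide

theorem dg_uses : dgE.uses useG useB = true := by decide

theorem cc_le (κ : Par) (σ : St) (y : ℕ) : cc κ σ y ≤ κ.top := by
  unfold cc cdE
  exact fold_le_top κ σ _ _ _ _ (by simp)

/-! ### The body of the inner loop -/

/-- treatment of a thin piece -/
def thinS : S := seqs [.set 29 (call1 plE (.g 27)),
  .set 30 (call3 cdE (.g 27) (.g 28) (.g 29)),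
  .ite (call4 npE (.g 28) (.g 29) (.g 30) 2) .skip (seqs [
    .set 33 (call2 elT (.g 27) 1), onceS (.g 33)])]

/-- treatment of an entry that is not marked -/
def elseS : S := seqs [.set 28 (call1 pkE (.g 27)),
  .ite (and (eqn (.g 28) 2) (eqn (call2 elT (.g 27) 0) (.g 21))) thinS .skip]

/-- body of the inner loop -/
def bodyS : S := seqs [.set 27 (call2 nbE (.g 21) (.g 24)),
  .ite (call1 (bitE 6) (.g 27)) (.ite (less (.g 21) (.g 27)) (onceS (.g 27)) .skip) elseS]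

/-- body of the outer loop -/
def rowS : S := .ite (call1 (bitE 6) (.g 21)) (.loop 24 (call1 dgE (.g 21)) bodyS) .skip

theorem emitB_eq : emitB = .seq (.loop 23 (.g 11) (.st 10 (.g 23) 0)) (.loop 21 (.g 3) rowS) :=
  rfl

theorem mem_Rm_iff {κ : Par} {σ : St} {y : ℕ} (hy : y < σ.g 3) :
    y ∈ Rm κ σ ↔ (bitE 6).ev κ σ [y] ≠ 0 :=
  ⟨fun h => h.2, fun h => ⟨hy, h⟩⟩

theorem set_run (κ : Par) (τ : St) (x w : ℕ) (e : E) (he : e.ev κ τ [] = w)
    (hw : w ≤ κ.top) : (S.set x e).run κ τ = ⟨Function.update τ.g x w, τ.m⟩ := by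
  simp only [S.run, he, min_eq_left hw]

theorem body_spec {κ : Par} {σ τ : St} {v j : ℕ} {B : Set ℕ}
    (hP : POk κ σ) (hG : (cur κ σ).Ok) (hR : ROk κ σ) (hK : RkOk κ σ)
    (h14 : σ.g 14 ≤ κ.lim) (ht : κ.lim ≤ κ.top) (h11 : σ.g 11 ≤ κ.lim)
    (hS : Same gLs bLs σ τ) (hv : τ.g 21 = v) (hj : τ.g 24 = j) (hvR : v ∈ Rm κ σ)
    (hjd : j < (cur κ σ).deg v) (hO : OKs κ σ v B τ) :
    OKs κ σ v (B ∪ {z | FT κ σ v j z}) (bodyS.run κ τ) := by
  have hN := hP.N
  obtain ⟨y, hy⟩ : ∃ y, y = (cur κ σ).nb v j := ⟨_, rfl⟩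
  have hyN : y < σ.g 3 := by rw [hy]; exact hG.lt v hvR.1 j hjd
  have hnb : nbE.ev κ σ [v, j] = y := hy.symm
  have hpr : ∀ z, FT κ σ v j z → (v, z) ∈ Pr κ σ := fun z hz =>
    (FT_iff hP hG hR hvR z).1 ⟨j, hjd, hz⟩
  obtain ⟨τ₁, hτ₁⟩ : ∃ τ₁ : St, τ₁ = ⟨Function.update τ.g 27 y, τ.m⟩ := ⟨_, rfl⟩
  have r1 : (S.set 27 (call2 nbE (.g 21) (.g 24))).run κ τ = τ₁ := by
    rw [hτ₁]
    refine set_run κ τ 27 y _ ?_ (by omega)
    rw [ev_call2]
    simp only [ev_g, hv, hj]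
    rw [ev_same hS nbE nb_uses, hnb]
  have hS1 : Same gLs bLs σ τ₁ := by rw [hτ₁]; exact same_upd hS 27 y (by decide)
  have hO1 : OKs κ σ v B τ₁ := by rw [hτ₁]; exact hO.upd 27 y (by decide) (by decide)
  have g21 : τ₁.g 21 = v := by rw [hτ₁]; simp [hv]
  have g27 : τ₁.g 27 = y := by rw [hτ₁]; simp
  have hbit : (call1 (bitE 6) (.g 27)).ev κ τ₁ [] = (bitE 6).ev κ σ [y] := by
    rw [ev_call1, ev_g, g27, ev_same hS1 (bitE 6) rfl]
  have hrun0 : bodyS.run κ τ = (S.ite (call1 (bitE 6) (.g 27))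
      (.ite (less (.g 21) (.g 27)) (onceS (.g 27)) .skip) elseS).run κ τ₁ := by
    simp only [bodyS, seqs, S.run.eq_4]
    rw [r1]
  rw [hrun0]
  by_cases hyR : y ∈ Rm κ σ
  · -- marked neighbour
    have hb : (bitE 6).ev κ σ [y] ≠ 0 := (mem_Rm_iff hyN).1 hyR
    have hrun1 : (S.ite (call1 (bitE 6) (.g 27))
        (.ite (less (.g 21) (.g 27)) (onceS (.g 27)) .skip) elseS).run κ τ₁ =
        if v < y then (onceS (.g 27)).run κ τ₁ else τ₁ := by
      simp only [S.run.eq_5, S.run.eq_1]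
      rw [hbit, if_neg hb, ev_less, ev_g, ev_g, g21, g27]
      by_cases hvy : v < y
      · rw [if_pos hvy, if_pos hvy, if_neg (by omega)]
      · rw [if_neg hvy, if_neg hvy, if_pos rfl]
    rw [hrun1]
    by_cases hvy : v < y
    · rw [if_pos hvy]
      have hset : B ∪ {z | FT κ σ v j z} = insert y B := by
        ext z
        rw [Set.mem_union, Set.mem_ofPred_eq, Set.mem_insert_iff, FT, ← hy]
        constructor
        · rintro (h | ⟨_, _, h⟩ | ⟨h, _⟩)
          · exact Or.inr h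
          · exact Or.inl h
          · exact absurd hyR h
        · rintro (h | h)
          · exact Or.inr (Or.inl ⟨hyR, hvy, h⟩)
          · exact Or.inl h
      rw [hset]
      refine once_spec (by decide) hP hK h14 ht h11 hS1 g21 g27 (hpr y ?_) hO1
      exact Or.inl ⟨by rw [← hy]; exact hyR, by rw [← hy]; exact hvy, hy⟩
    · rw [if_neg hvy]
      have hset : B ∪ {z | FT κ σ v j z} = B := by
        ext z
        rw [Set.mem_union, Set.mem_ofPred_eq, FT, ← hy]
        constructor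
        · rintro (h | ⟨_, h, _⟩ | ⟨h, _⟩)
          · exact h
          · exact absurd h hvy
          · exact absurd hyR h
        · exact Or.inl
      rw [hset]
      exact hO1
  · -- a piece
    have hb : (bitE 6).ev κ σ [y] = 0 := by
      by_contra h
      exact hyR ((mem_Rm_iff hyN).2 h)
    have hpk := pk_spec κ σ hP hG hR y hyN hyR
    have hpl := pl_spec κ σ hP hG hR y hyN hyR
    have hcap := hP.cap
    have htop := hP.top
    have hbnd : (σ.g 4 + 1) * σ.g 5 ≤ κ.top := by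
      have h1 : 3 * ((σ.g 4 + 1) * σ.g 5 + 6) ^ 2 < 2 ^ (3 * ((σ.g 4 + 1) * σ.g 5 + 6) ^ 2) :=
        Nat.lt_two_pow_self
      have h2 := Nat.le_self_pow (n := 2) (by norm_num) ((σ.g 4 + 1) * σ.g 5 + 6)
      omega
    have hbnd' : σ.g 5 * σ.g 4 + σ.g 5 ≤ κ.top := by
      have : (σ.g 4 + 1) * σ.g 5 = σ.g 5 * σ.g 4 + σ.g 5 := by ring
      omega
    obtain ⟨τ₂, hτ₂⟩ : ∃ τ₂ : St, τ₂ = ⟨Function.update τ₁.g 28 (kk κ σ y), τ₁.m⟩ := ⟨_, rfl⟩
    have r2 : (S.set 28 (call1 pkE (.g 27))).run κ τ₁ = τ₂ := by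
      rw [hτ₂]
      refine set_run κ τ₁ 28 _ _ ?_ (by omega)
      rw [ev_call1, ev_g, g27, ev_same hS1 pkE pk_uses, hpk.1]
    have hS2 : Same gLs bLs σ τ₂ := by rw [hτ₂]; exact same_upd hS1 28 _ (by decide)
    have hO2 : OKs κ σ v B τ₂ := by rw [hτ₂]; exact hO1.upd 28 _ (by decide) (by decide)
    have g21' : τ₂.g 21 = v := by rw [hτ₂]; simp [g21]
    have g27' : τ₂.g 27 = y := by rw [hτ₂]; simp [g27]
    have g28' : τ₂.g 28 = kk κ σ y := by rw [hτ₂]; simp
    have hel0 : (call2 elT (.g 27) 0).ev κ τ₂ [] = elT.ev κ σ [y, 0] := by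
      rw [ev_call2]
      simp only [ev_g, g27', ev_zero]
      rw [ev_same hS2 elT el_uses]
    have hcd : (and (eqn (.g 28 : E) 2) (eqn (call2 elT (.g 27) 0) (.g 21))).ev κ τ₂ [] =
        if kk κ σ y = 2 ∧ elT.ev κ σ [y, 0] = v then 1 else 0 := by
      rw [ev_and, ev_eqn, ev_eqn, hel0, ev_g, ev_g, g21', g28', ev_ofNat]
      by_cases c1 : kk κ σ y = 2
      · by_cases c2 : elT.ev κ σ [y, 0] = v
        · simp only [c1, c2, if_true, and_self, one_ne_zero, if_false]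
        · simp only [c1, c2, if_true, and_false, one_ne_zero, if_false]
      · simp only [c1, false_and, if_false, if_true]
    have hrun1 : (S.ite (call1 (bitE 6) (.g 27))
        (.ite (less (.g 21) (.g 27)) (onceS (.g 27)) .skip) elseS).run κ τ₁ =
        if kk κ σ y = 2 ∧ elT.ev κ σ [y, 0] = v then thinS.run κ τ₂ else τ₂ := by
      rw [S.run.eq_5, hbit, if_pos hb]
      simp only [elseS, seqs, S.run.eq_4]
      rw [r2, S.run.eq_5, hcd, S.run.eq_1]
      by_cases c : kk κ σ y = 2 ∧ elT.ev κ σ [y, 0] = v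
      · simp only [c, and_self, if_true, one_ne_zero, if_false]
      · simp only [c, if_false, if_true]
    rw [hrun1]
    by_cases hc : kk κ σ y = 2 ∧ elT.ev κ σ [y, 0] = v
    swap
    · rw [if_neg hc]
      have hset : B ∪ {z | FT κ σ v j z} = B := by
        ext z
        rw [Set.mem_union, Set.mem_ofPred_eq, FT, ← hy]
        constructor
        · rintro (h | ⟨h, _⟩ | ⟨_, h1, h2, _⟩)
          · exact h
          · exact absurd h hyR
          · exact absurd ⟨h1.1, h2⟩ hc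
        · exact Or.inl
      rw [hset]
      exact hO2
    · rw [if_pos hc]
      obtain ⟨τ₃, hτ₃⟩ : ∃ τ₃ : St, τ₃ = ⟨Function.update τ₂.g 29 (ll κ σ y), τ₂.m⟩ := ⟨_, rfl⟩
      have r3 : (S.set 29 (call1 plE (.g 27))).run κ τ₂ = τ₃ := by
        rw [hτ₃]
        refine set_run κ τ₂ 29 _ _ ?_ (by omega)
        rw [ev_call1, ev_g, g27', ev_same hS2 plE pl_uses, hpl.1]
      have hS3 : Same gLs bLs σ τ₃ := by rw [hτ₃]; exact same_upd hS2 29 _ (by decide)
      have hO3 : OKs κ σ v B τ₃ := by rw [hτ₃]; exact hO2.upd 29 _ (by decide) (by decide)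
      have k21 : τ₃.g 21 = v := by rw [hτ₃]; simp [g21']
      have k27 : τ₃.g 27 = y := by rw [hτ₃]; simp [g27']
      have k28 : τ₃.g 28 = kk κ σ y := by rw [hτ₃]; simp [g28']
      have k29 : τ₃.g 29 = ll κ σ y := by rw [hτ₃]; simp
      obtain ⟨τ₄, hτ₄⟩ : ∃ τ₄ : St, τ₄ = ⟨Function.update τ₃.g 30 (cc κ σ y), τ₃.m⟩ := ⟨_, rfl⟩
      have r4 : (S.set 30 (call3 cdE (.g 27) (.g 28) (.g 29))).run κ τ₃ = τ₄ := by
        rw [hτ₄]
        refine set_run κ τ₃ 30 _ _ ?_ ?_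
        · rw [ev_call3]
          simp only [ev_g, k27, k28, k29]
          rw [ev_same hS3 cdE cd_uses, cc]
        · exact cc_le κ σ y
      have hS4 : Same gLs bLs σ τ₄ := by rw [hτ₄]; exact same_upd hS3 30 _ (by decide)
      have hO4 : OKs κ σ v B τ₄ := by rw [hτ₄]; exact hO3.upd 30 _ (by decide) (by decide)
      have l21 : τ₄.g 21 = v := by rw [hτ₄]; simp [k21]
      have l27 : τ₄.g 27 = y := by rw [hτ₄]; simp [k27]
      have l28 : τ₄.g 28 = kk κ σ y := by rw [hτ₄]; simp [k28]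
      have l29 : τ₄.g 29 = ll κ σ y := by rw [hτ₄]; simp [k29]
      have l30 : τ₄.g 30 = cc κ σ y := by rw [hτ₄]; simp
      have hnp : (call4 npE (.g 28) (.g 29) (.g 30) 2).ev κ τ₄ [] =
          npE.ev κ σ [kk κ σ y, ll κ σ y, cc κ σ y, 2] := by
        rw [ev_call4]
        simp only [ev_g, l28, l29, l30, ev_ofNat]
        rw [ev_same hS4 npE np_uses]
      obtain ⟨z, hz⟩ : ∃ z, z = elT.ev κ σ [y, 1] := ⟨_, rfl⟩
      have hpair := TT_pair hP hG hR hyN hyR hc.1
      have hzT : z ∈ TT κ σ y := by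
        rw [hpair.2, hz]
        exact Set.mem_insert_of_mem _ rfl
      have hzN : z < σ.g 3 := hzT.1.1
      obtain ⟨τ₅, hτ₅⟩ : ∃ τ₅ : St, τ₅ = ⟨Function.update τ₄.g 33 z, τ₄.m⟩ := ⟨_, rfl⟩
      have r5 : (S.set 33 (call2 elT (.g 27) 1)).run κ τ₄ = τ₅ := by
        rw [hτ₅]
        refine set_run κ τ₄ 33 _ _ ?_ (by omega)
        rw [ev_call2]
        simp only [ev_g, l27, ev_one]
        rw [ev_same hS4 elT el_uses, hz]
      have hS5 : Same gLs bLs σ τ₅ := by rw [hτ₅]; exact same_upd hS4 33 _ (by decide)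
      have hO5 : OKs κ σ v B τ₅ := by rw [hτ₅]; exact hO4.upd 33 _ (by decide) (by decide)
      have n21 : τ₅.g 21 = v := by rw [hτ₅]; simp [l21]
      have n33 : τ₅.g 33 = z := by rw [hτ₅]; simp
      have hrun2 : thinS.run κ τ₂ = if npE.ev κ σ [kk κ σ y, ll κ σ y, cc κ σ y, 2] = 0 then
          (onceS (.g 33)).run κ τ₅ else τ₄ := by
        simp only [thinS, seqs, S.run.eq_4]
        rw [r3, r4, S.run.eq_5, hnp, S.run.eq_4, r5, S.run.eq_1]
      rw [hrun2]
      by_cases hn : npE.ev κ σ [kk κ σ y, ll κ σ y, cc κ σ y, 2] = 0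
      · rw [if_pos hn]
        have hset : B ∪ {z | FT κ σ v j z} = insert z B := by
          ext x
          rw [Set.mem_union, Set.mem_ofPred_eq, Set.mem_insert_iff, FT, ← hy]
          constructor
          · rintro (h | ⟨h, _⟩ | ⟨_, _, _, h⟩)
            · exact Or.inr h
            · exact absurd h hyR
            · exact Or.inl (h.trans hz.symm)
          · rintro (h | h)
            · exact Or.inr (Or.inr ⟨hyR, ⟨hc.1, hn⟩, hc.2, h.trans hz⟩)
            · exact Or.inl h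
        rw [hset]
        refine once_spec (by decide) hP hK h14 ht h11 hS5 n21 n33 (hpr z ?_) hO5
        refine Or.inr ?_
        rw [← hy]
        exact ⟨hyR, ⟨hc.1, hn⟩, hc.2, hz⟩
      · rw [if_neg hn]
        have hset : B ∪ {z | FT κ σ v j z} = B := by
          ext x
          rw [Set.mem_union, Set.mem_ofPred_eq, FT, ← hy]
          constructor
          · rintro (h | ⟨h, _⟩ | ⟨_, h, _⟩)
            · exact h
            · exact absurd h hyR
            · exact absurd h.2 hn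
          · exact Or.inl
        rw [hset]
        exact hO4

/-! ### The loops -/

theorem body_same (κ : Par) (τ : St) : Same gLs bLs τ (bodyS.run κ τ) :=
  run_same gLs bLs κ bodyS (by decide) τ

theorem body_same' (κ : Par) (τ : St) :
    Same [10, 13, 27, 28, 29, 30, 33] bLs τ (bodyS.run κ τ) :=
  run_same [10, 13, 27, 28, 29, 30, 33] bLs κ bodyS (by decide) τ

theorem row_same (κ : Par) (τ : St) : Same gLs bLs τ (rowS.run κ τ) :=
  run_same gLs bLs κ rowS (by decide) τ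

theorem row_spec {κ : Par} {σ τ : St} {v : ℕ}
    (hP : POk κ σ) (hG : (cur κ σ).Ok) (hR : ROk κ σ) (hK : RkOk κ σ)
    (h14 : σ.g 14 ≤ κ.lim) (ht : κ.lim ≤ κ.top) (h11 : σ.g 11 ≤ κ.lim)
    (hS : Same gLs bLs σ τ) (hv : τ.g 21 = v) (hvN : v < σ.g 3) (hO : OKs κ σ v ∅ τ) :
    OKs κ σ (v + 1) ∅ (rowS.run κ τ) := by
  have hbit : (call1 (bitE 6) (.g 21)).ev κ τ [] = (bitE 6).ev κ σ [v] := by
    rw [ev_call1, ev_g, hv, ev_same hS (bitE 6) rfl]
  by_cases hvR : v ∈ Rm κ σ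
  · have hb : (bitE 6).ev κ σ [v] ≠ 0 := (mem_Rm_iff hvN).1 hvR
    have hrun : rowS.run κ τ = (S.loop 24 (call1 dgE (.g 21)) bodyS).run κ τ := by
      simp only [rowS, S.run.eq_5]
      rw [hbit, if_neg hb]
    rw [hrun]
    have hcnt : min ((call1 dgE (.g 21)).ev κ τ []) κ.top = (cur κ σ).deg v := by
      rw [ev_call1, ev_g, hv, ev_same hS dgE dg_uses]
      exact min_eq_left (deg_le_top κ σ hG ht v hvN)
    have key := loop_inv κ 24 (call1 dgE (.g 21)) bodyS τ ((cur κ σ).deg v) hcnt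
      (fun j ρ => Same gLs bLs σ ρ ∧ ρ.g 21 = v ∧ OKs κ σ v {z | ∃ i < j, FT κ σ v i z} ρ)
      ⟨hS, hv, by simpa using hO⟩ ?_
    · obtain ⟨_, _, h3⟩ := key
      rcases h3 with ⟨hb0, hI⟩ | ⟨hb0, hc⟩
      · refine Or.inl ⟨hb0, ?_⟩
        have hA : AA κ σ v {z | ∃ i < (cur κ σ).deg v, FT κ σ v i z} = AA κ σ (v + 1) ∅ := by
          ext ⟨a, b⟩
          constructor
          · rintro (⟨h1, h2⟩ | ⟨h1, h2⟩)
            · exact Or.inl ⟨h1, Nat.lt_succ_of_lt h2⟩
            · simp only at h1 h2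
              subst h1
              exact Or.inl ⟨(FT_iff hP hG hR hvR b).1 h2, Nat.lt_succ_self _⟩
          · rintro (⟨h1, h2⟩ | ⟨_, h2⟩)
            · simp only at h2
              by_cases h3 : a < v
              · exact Or.inl ⟨h1, h3⟩
              · have h4 : a = v := by omega
                subst h4
                exact Or.inr ⟨rfl, (FT_iff hP hG hR hvR b).2 h1⟩
            · exact absurd h2 (Set.notMem_empty _)
        have hrp := hI.rp
        rw [hA] at hrp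
        refine ⟨hrp, fun z hz => absurd hz (Set.notMem_empty _), fun z hz => ?_, fun z hz => ?_⟩
        · have := hI.st' z hz
          constructor
          · intro h
            omega
          · intro h
            exact absurd h (Set.notMem_empty _)
        · have := hI.st' z hz
          omega
      · exact Or.inr ⟨hb0, hc⟩
    · intro j hj ρ ⟨i1, i2, i3⟩
      have hS' : Same gLs bLs σ ⟨Function.update ρ.g 24 j, ρ.m⟩ := same_upd i1 24 j (by decide)
      refine ⟨hS'.trans (body_same κ _), ?_, ?_⟩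
      · rw [(body_same' κ ⟨Function.update ρ.g 24 j, ρ.m⟩).1 21 (by decide)]
        simp [i2]
      · have hset : {z | ∃ i < j + 1, FT κ σ v i z} =
            {z | ∃ i < j, FT κ σ v i z} ∪ {z | FT κ σ v j z} := by
          ext z
          rw [Set.mem_union, Set.mem_ofPred_eq, Set.mem_ofPred_eq, Set.mem_ofPred_eq]
          constructor
          · rintro ⟨i, hi, h⟩
            by_cases hij : i = j
            · exact Or.inr (hij ▸ h)
            · exact Or.inl ⟨i, by omega, h⟩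
          · rintro (⟨i, hi, h⟩ | h)
            · exact ⟨i, by omega, h⟩
            · exact ⟨j, Nat.lt_succ_self j, h⟩
        rw [hset]
        exact body_spec hP hG hR hK h14 ht h11 hS' (by simp [i2]) (by simp) hvR hj
          (i3.upd 24 j (by decide) (by decide))
  · have hb : (bitE 6).ev κ σ [v] = 0 := by
      by_contra h
      exact hvR ((mem_Rm_iff hvN).2 h)
    have hrun : rowS.run κ τ = τ := by
      simp only [rowS, S.run.eq_5, S.run.eq_1]
      rw [hbit, if_pos hb]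
    rw [hrun]
    rcases hO with ⟨hb0, hI⟩ | ⟨hb0, hc⟩
    · refine Or.inl ⟨hb0, ?_⟩
      have hA : AA κ σ v ∅ = AA κ σ (v + 1) ∅ := by
        ext ⟨a, b⟩
        constructor
        · rintro (⟨h1, h2⟩ | ⟨_, h2⟩)
          · exact Or.inl ⟨h1, Nat.lt_succ_of_lt h2⟩
          · exact absurd h2 (Set.notMem_empty _)
        · rintro (⟨h1, h2⟩ | ⟨_, h2⟩)
          · simp only at h2
            by_cases h3 : a < v
            · exact Or.inl ⟨h1, h3⟩
            · have h4 : a = v := by omega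
              subst h4
              exact absurd (prs_mem h1.2).1 hvR
          · exact absurd h2 (Set.notMem_empty _)
      have hrp := hI.rp
      rw [hA] at hrp
      have hle : ∀ z ∈ Rm κ σ, τ.m 10 (rank κ σ z) ≤ v := by
        intro z hz
        have h1 := hI.st' z hz
        have h2 : τ.m 10 (rank κ σ z) ≠ v + 1 := fun h =>
          absurd ((hI.st z hz).1 h) (Set.notMem_empty _)
        omega
      refine ⟨hrp, fun z hz => absurd hz (Set.notMem_empty _), fun z hz => ?_, fun z hz => ?_⟩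
      · have := hle z hz
        constructor
        · intro h
          omega
        · intro h
          exact absurd h (Set.notMem_empty _)
      · have := hle z hz
        omega
    · exact Or.inr ⟨hb0, hc⟩

/-! ### Costs -/

/-- no loops -/
def noloop : S → Bool
  | .loop _ _ _ => false
  | .seq s t => noloop s && noloop t
  | .ite _ s t => noloop s && noloop t
  | _ => true

/-- maximal cost of a statement without loops -/
def maxc : S → ℕ
  | .loop _ _ _ => 0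
  | .seq s t => maxc s + maxc t
  | .ite _ s t => 1 + max (maxc s) (maxc t)
  | _ => 1

theorem cost_le (κ : Par) (s : S) (hs : noloop s = true) : ∀ σ : St, s.cost κ σ ≤ maxc s := by
  induction s with
  | skip => intro σ; exact le_rfl
  | set x e => intro σ; exact le_rfl
  | st b i e => intro σ; exact le_rfl
  | seq s t ihs iht =>
    intro σ
    simp only [noloop, Bool.and_eq_true] at hs
    exact Nat.add_le_add (ihs hs.1 _) (iht hs.2 _)
  | ite e s t ihs iht =>
    intro σ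
    simp only [noloop, Bool.and_eq_true] at hs
    simp only [S.cost, maxc]
    have h1 := ihs hs.1 σ
    have h2 := iht hs.2 σ
    split_ifs
    · omega
    · omega
  | loop x e s ih =>
    intro σ
    exact absurd hs (by simp [noloop])

theorem body_maxc : noloop bodyS = true ∧ maxc bodyS ≤ 14 := by decide

theorem row_cost (κ : Par) (σ τ : St) (v : ℕ) (hS : Same gLs bLs σ τ) (hv : τ.g 21 = v) :
    rowS.cost κ τ ≤ 2 + 15 * (cur κ σ).deg v := by
  simp only [rowS, S.cost.eq_5, S.cost.eq_1]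
  have hloop : (S.loop 24 (call1 dgE (.g 21)) bodyS).cost κ τ ≤
      1 + (cur κ σ).deg v * (1 + 14) := by
    refine loop_cost_const κ 24 (call1 dgE (.g 21)) bodyS τ _ 14 ?_ fun ρ => ?_
    · rw [ev_call1, ev_g, hv, ev_same hS dgE dg_uses]
      exact min_le_left _ _
    · exact (cost_le κ bodyS body_maxc.1 ρ).trans body_maxc.2
  split_ifs
  · omega
  · omega

end PEmitBAux

open PEmitBAux

theorem emitB_spec (κ : Par) (σ : St) (hP : POk κ σ) (hG : (cur κ σ).Ok)
    (hR : ROk κ σ) (hK : RkOk κ σ) (h10 : σ.g 10 = 0) (h13 : σ.g 13 ≤ σ.g 14)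
    (h14 : σ.g 14 ≤ κ.lim) (ht : κ.lim ≤ κ.top) (h11 : σ.g 11 ≤ κ.lim) :
    ((emitB.run κ σ).g 10 = 0 ↔ σ.g 13 + (prs κ σ).ncard ≤ σ.g 14) ∧
    ((emitB.run κ σ).g 10 = 0 →
      (emitB.run κ σ).g 13 = σ.g 13 + (prs κ σ).ncard ∧
      (∀ x y, LE (emitB.run κ σ) x y ↔ LE σ x y ∨
        ∃ a b, s(a, b) ∈ prs κ σ ∧ x = rank κ σ a ∧ y = rank κ σ b) ∧
      ∀ e < (emitB.run κ σ).g 13,
        (e < σ.g 13 ∧ (emitB.run κ σ).m 8 e = σ.m 8 e ∧ (emitB.run κ σ).m 9 e = σ.m 9 e) ∨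
        ((emitB.run κ σ).m 8 e < σ.g 11 ∧ (emitB.run κ σ).m 9 e < σ.g 11 ∧
          (emitB.run κ σ).m 8 e ≠ (emitB.run κ σ).m 9 e)) := by
  have hN := hP.N
  -- the first loop
  obtain ⟨τ₀, hτ₀⟩ : ∃ τ₀, τ₀ = (S.loop 23 (.g 11) (.st 10 (.g 23) 0)).run κ σ := ⟨_, rfl⟩
  have hfirst : Same gLs bLs σ τ₀ ∧ OKs κ σ 0 ∅ τ₀ := by
    have hcnt : min ((E.g 11).ev κ σ []) κ.top = σ.g 11 := by
      rw [ev_g]
      exact min_eq_left (by omega)
    have key := loop_inv κ 23 (.g 11) (.st 10 (.g 23) 0) σ (σ.g 11) hcnt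
      (fun j ρ => Same gLs bLs σ ρ ∧ ρ.g 10 = 0 ∧ ρ.g 13 = σ.g 13 ∧ ρ.m 8 = σ.m 8 ∧
        ρ.m 9 = σ.m 9 ∧ ∀ i < j, ρ.m 10 i = 0)
      ⟨Same.refl _ _ _, h10, rfl, rfl, rfl, fun i hi => absurd hi (Nat.not_lt_zero i)⟩ ?_
    · rw [← hτ₀] at key
      obtain ⟨k1, k2, k3, k4, k5, k6⟩ := key
      refine ⟨k1, Or.inl ⟨k2, ?_⟩⟩
      have hA : AA κ σ 0 ∅ = ∅ := by
        ext ⟨a, b⟩
        constructor
        · rintro (⟨_, h⟩ | ⟨_, h⟩)
          · exact absurd h (Nat.not_lt_zero _)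
          · exact absurd h (Set.notMem_empty _)
        · exact fun h => absurd h (Set.notMem_empty _)
      have hz : ∀ z ∈ Rm κ σ, τ₀.m 10 (rank κ σ z) = 0 := by
        intro z hz
        refine k6 _ ?_
        rw [hK.NR]
        exact rank_lt κ σ z hz
      refine ⟨?_, fun z hz => absurd hz (Set.notMem_empty _), fun z hz' => ?_, fun z hz' => ?_⟩
      · rw [hA]
        refine ⟨by rw [k3]; exact h13, by rw [k3, Set.ncard_empty, Nat.add_zero],
          fun e _ => by rw [k4, k5]; exact ⟨rfl, rfl⟩, fun e h1 h2 => ?_,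
          fun p hp => absurd hp (Set.notMem_empty _)⟩
        rw [k3] at h2
        omega
      · rw [hz z hz']
        constructor
        · intro h
          omega
        · intro h
          exact absurd h (Set.notMem_empty _)
      · rw [hz z hz']
        omega
    · intro j hj ρ ⟨i1, i2, i3, i4, i5, i6⟩
      have hjl : j < κ.lim := by omega
      have hrun : (S.st 10 (.g 23) 0).run κ ⟨Function.update ρ.g 23 j, ρ.m⟩ =
          ⟨Function.update ρ.g 23 j, Function.update ρ.m 10 (Function.update (ρ.m 10) j 0)⟩ := by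
        simp only [S.run, ev_g, ev_zero, Function.update_self]
        rw [if_pos hjl, Nat.zero_min]
      refine ⟨?_, ?_, ?_, ?_, ?_, ?_⟩
      · exact (same_upd i1 23 j (by decide)).trans (run_same gLs bLs κ (.st 10 (.g 23) 0)
          (by decide) _)
      · rw [hrun]; simp [i2]
      · rw [hrun]; simp [i3]
      · rw [hrun]; simp [i4]
      · rw [hrun]; simp [i5]
      · intro i hi
        rw [hrun]
        by_cases h : i = j
        · subst h
          simp
        · simp only [Function.update_self, Function.update_of_ne h]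
          exact i6 i (by omega)
  -- the second loop
  obtain ⟨ρ, hρ⟩ : ∃ ρ, ρ = emitB.run κ σ := ⟨_, rfl⟩
  have hρ' : ρ = (S.loop 21 (.g 3) rowS).run κ τ₀ := by
    rw [hρ, emitB_eq, S.run.eq_4, ← hτ₀]
  have hfin : OKs κ σ (σ.g 3) ∅ ρ := by
    have e3 : τ₀.g 3 = σ.g 3 := hfirst.1.1 3 (by decide)
    have hcnt : min ((E.g 3).ev κ τ₀ []) κ.top = σ.g 3 := by
      rw [ev_g, e3]
      exact min_eq_left (by omega)
    have key := loop_inv κ 21 (.g 3) rowS τ₀ (σ.g 3) hcnt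
      (fun v ρ => Same gLs bLs σ ρ ∧ OKs κ σ v ∅ ρ) hfirst ?_
    · rw [← hρ'] at key
      exact key.2
    · intro v hv ρ ⟨i1, i2⟩
      have hS' : Same gLs bLs σ ⟨Function.update ρ.g 21 v, ρ.m⟩ := same_upd i1 21 v (by decide)
      exact ⟨hS'.trans (row_same κ _), row_spec hP hG hR hK h14 ht h11 hS' (by simp) hv
        (i2.upd 21 v (by decide) (by decide))⟩
  rw [← hρ]
  have hA : AA κ σ (σ.g 3) ∅ = Pr κ σ := by
    ext ⟨a, b⟩
    constructor
    · rintro (⟨h1, _⟩ | ⟨_, h⟩)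
      · exact h1
      · exact absurd h (Set.notMem_empty _)
    · intro h
      exact Or.inl ⟨h, (prs_mem h.2).1.1⟩
  rcases hfin with ⟨hb, hI⟩ | ⟨hb, hc⟩
  · have hrp := hI.rp
    rw [hA] at hrp
    have hcnt := hrp.cnt
    rw [Pr_ncard] at hcnt
    refine ⟨⟨fun _ => by rw [← hcnt]; exact hrp.le, fun _ => hb⟩, fun _ => ⟨hcnt, ?_, ?_⟩⟩
    · intro x y
      constructor
      · rintro ⟨e, he, h⟩
        by_cases h1 : e < σ.g 13
        · rw [(hrp.old e h1).1, (hrp.old e h1).2] at h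
          exact Or.inl ⟨e, h1, h⟩
        · obtain ⟨p, hp, h2, h3⟩ := hrp.sound e (by omega) he
          rw [h2, h3] at h
          rcases h with ⟨h4, h5⟩ | ⟨h4, h5⟩
          · exact Or.inr ⟨p.1, p.2, hp.2, h4.symm, h5.symm⟩
          · exact Or.inr ⟨p.2, p.1, by rw [Sym2.eq_swap]; exact hp.2, h5.symm, h4.symm⟩
      · rintro (⟨e, he, h⟩ | ⟨a, b, hab, rfl, rfl⟩)
        · refine ⟨e, by omega, ?_⟩
          rw [(hrp.old e he).1, (hrp.old e he).2]
          exact h
        · rcases lt_or_gt_of_ne (prs_mem hab).2.2.1 with h1 | h1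
          · obtain ⟨e, _, h3, h4, h5⟩ := hrp.compl (a, b) ⟨h1, hab⟩
            exact ⟨e, h3, Or.inl ⟨h4, h5⟩⟩
          · obtain ⟨e, _, h3, h4, h5⟩ := hrp.compl (b, a)
              ⟨h1, by rw [Sym2.eq_swap]; exact hab⟩
            exact ⟨e, h3, Or.inr ⟨h4, h5⟩⟩
    · intro e he
      by_cases h1 : e < σ.g 13
      · exact Or.inl ⟨h1, hrp.old e h1⟩
      · obtain ⟨p, hp, h2, h3⟩ := hrp.sound e (by omega) he
        have hm := prs_mem hp.2
        refine Or.inr ?_
        rw [h2, h3, hK.NR]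
        exact ⟨rank_lt κ σ _ hm.1, rank_lt κ σ _ hm.2.1,
          (rank_strict κ σ _ _ hm.1 hp.1).ne⟩
  · refine ⟨⟨fun h => absurd h hb, fun h => ?_⟩, fun h => absurd h hb⟩
    omega

theorem emitB_cost (κ : Par) (σ : St) :
    emitB.cost κ σ ≤ 100 * (σ.g 3 + (cur κ σ).W + σ.g 11 + 1) := by
  rw [emitB_eq, S.cost.eq_4]
  have c1 : (S.loop 23 (.g 11) (.st 10 (.g 23) 0)).cost κ σ ≤ 1 + σ.g 11 * (1 + 1) := by
    refine loop_cost_const κ 23 (.g 11) _ σ _ 1 ?_ fun ρ => le_rfl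
    rw [ev_g]
    exact min_le_left _ _
  obtain ⟨τ₀, hτ₀⟩ : ∃ τ₀, τ₀ = (S.loop 23 (.g 11) (.st 10 (.g 23) 0)).run κ σ := ⟨_, rfl⟩
  rw [← hτ₀]
  have hS0 : Same gLs bLs σ τ₀ := by
    rw [hτ₀]
    exact run_same gLs bLs κ _ (by decide) σ
  have e3 : τ₀.g 3 = σ.g 3 := hS0.1 3 (by decide)
  obtain ⟨n, hn⟩ : ∃ n, n = min ((E.g 3).ev κ τ₀ []) κ.top := ⟨_, rfl⟩
  have hnN : n ≤ σ.g 3 := by
    rw [hn, ev_g, e3]
    exact min_le_left _ _
  have c2 := loop_cost κ 21 (.g 3) rowS τ₀ n hn.symm (fun _ ρ => Same gLs bLs σ ρ)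
    (fun v => 2 + 15 * (cur κ σ).deg v) hS0 ?_
  · have c3 : ∑ v ∈ Finset.range n, (1 + (2 + 15 * (cur κ σ).deg v)) ≤
        ∑ v ∈ Finset.range (σ.g 3), (1 + (2 + 15 * (cur κ σ).deg v)) :=
      Finset.sum_le_sum_of_subset (Finset.range_mono hnN)
    have c4 : ∑ v ∈ Finset.range (σ.g 3), (1 + (2 + 15 * (cur κ σ).deg v)) =
        3 * σ.g 3 + 15 * (cur κ σ).W := by
      have hW : (cur κ σ).W = ∑ v ∈ Finset.range (σ.g 3), (cur κ σ).deg v := rfl
      have h1 : ∀ v ∈ Finset.range (σ.g 3), (1 + (2 + 15 * (cur κ σ).deg v)) =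
          3 + 15 * (cur κ σ).deg v := fun v _ => by ring
      rw [hW, Finset.mul_sum, Finset.sum_congr rfl h1, Finset.sum_add_distrib, Finset.sum_const,
        Finset.card_range, smul_eq_mul, mul_comm 3]
    omega
  · intro v _ ρ hρ
    have hS' : Same gLs bLs σ ⟨Function.update ρ.g 21 v, ρ.m⟩ := same_upd hρ 21 v (by decide)
    exact ⟨hS'.trans (row_same κ _), row_cost κ σ _ v hS' (by simp)⟩

end Pool.Agent.MP9d6bd1
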