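import Mathlib
import Pool.Agent.Lib.MP_9d6bd1_lc.Codes
import Pool.Agent.Lib.MP_9d6bd1_lc.EvLib
import Pool.Agent.Lib.MP_9d6bd1_lc.GIndex
import Pool.Agent.Lib.MP_9d6bd1_lc.GRedA
import Pool.Agent.Lib.MP_9d6bd1_lc.PNp

/-!
# MP_9d6bd1_lc, module P07: brute force search for an equivalent small graph
-/

set_option autoImplicit false

open Classical

namespace Pool.Agent.MP9d6bd1

namespace PBfAux

open GIndexAux E

/-! ### coded graphs -/

theorem cg_adj (s c a b : ℕ) : (cg s c).Adj a b ↔ a ≠ b ∧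
    ((a < s ∧ b < s ∧ c / 2 ^ (a * s + b) % 2 = 1) ∨
      (b < s ∧ a < s ∧ c / 2 ^ (b * s + a) % 2 = 1)) := Iff.rfl

theorem cg_support (s c : ℕ) : (cg s c).support ⊆ {a | a < s} := by
  rintro a ⟨b, hab⟩
  rcases ((cg_adj s c a b).1 hab).2 with h | h
  · exact h.1
  · exact h.2.1

theorem cg_support_finite (s c : ℕ) : (cg s c).support.Finite :=
  (Set.finite_lt_nat s).subset (cg_support s c)

/-- every graph on `0, ..., s-1` has a code -/
theorem exists_code (s : ℕ) (R : SimpleGraph ℕ) (hR : R.support ⊆ {a | a < s}) :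
    ∃ q < 2 ^ (s ^ 2), cg s q = R := by
  refine ⟨Nat.ofBits (fun i : Fin (s ^ 2) => decide (R.Adj ((i : ℕ) / s) ((i : ℕ) % s))),
    Nat.ofBits_lt_two_pow _, ?_⟩
  have hbit : ∀ a b, a < s → b < s →
      (Nat.ofBits (fun i : Fin (s ^ 2) => decide (R.Adj ((i : ℕ) / s) ((i : ℕ) % s))) /
        2 ^ (a * s + b) % 2 = 1 ↔ R.Adj a b) := by
    intro a b ha hb
    have hlt : a * s + b < s ^ 2 := by
      calc a * s + b < a * s + s := by omega
        _ = (a + 1) * s := by ring
        _ ≤ s * s := Nat.mul_le_mul_right s ha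
        _ = s ^ 2 := (sq s).symm
    have h1 := Nat.testBit_ofBits_lt
      (fun i : Fin (s ^ 2) => decide (R.Adj ((i : ℕ) / s) ((i : ℕ) % s))) (a * s + b) hlt
    rw [Nat.testBit_eq_decide_div_mod_eq] at h1
    have hs : 0 < s := by omega
    have h2 : (a * s + b) / s = a := by
      rw [mul_comm, Nat.mul_add_div hs, Nat.div_eq_of_lt hb, add_zero]
    have h3 : (a * s + b) % s = b := by
      rw [mul_comm, Nat.mul_add_mod, Nat.mod_eq_of_lt hb]
    simp only [h2, h3] at h1
    exact decide_eq_decide.1 h1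
  ext a b
  rw [cg_adj]
  constructor
  · rintro ⟨_, ⟨ha, hb, h⟩ | ⟨hb, ha, h⟩⟩
    · exact (hbit a b ha hb).1 h
    · exact ((hbit b a hb ha).1 h).symm
  · intro hab
    have ha : a < s := hR ⟨b, hab⟩
    have hb : b < s := hR ⟨a, hab.symm⟩
    exact ⟨hab.ne, Or.inl ⟨ha, hb, (hbit a b ha hb).2 hab⟩⟩

/-! ### tests -/

/-- the terminals -/
def tm (k : ℕ) : Fin k → ℕ := fun i => i

/-- the extra vertices -/
def ex6 (l : ℕ) : Fin 6 → ℕ := fun i => l + i

/-- the vertices of the test graphs -/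
def io (k : ℕ) : Fin k ⊕ Fin 6 → ℕ := Sum.elim (tm k) (ex6 k)

theorem range_tm (k : ℕ) : Set.range (tm k) = {a | a < k} := by
  ext a
  constructor
  · rintro ⟨i, rfl⟩
    exact i.2
  · intro ha
    exact ⟨⟨a, ha⟩, rfl⟩

theorem tm_inj (k : ℕ) : Function.Injective (tm k) := Fin.val_injective

theorem ex6_inj (l : ℕ) : Function.Injective (ex6 l) := by
  intro i j hij
  have h : l + (i : ℕ) = l + (j : ℕ) := hij
  exact Fin.ext (by omega)

theorem io_inj (k : ℕ) : Function.Injective (io k) := by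
  refine Function.Injective.sumElim (tm_inj k) (ex6_inj k) ?_
  intro a b hab
  have h1 := a.2
  have h : (a : ℕ) = k + (b : ℕ) := hab
  omega

theorem range_io (k : ℕ) : {a | a < k + 6} ⊆ Set.range (io k) := by
  intro a ha
  have ha' : a < k + 6 := ha
  by_cases h : a < k
  · exact ⟨Sum.inl ⟨a, h⟩, rfl⟩
  · refine ⟨Sum.inr ⟨a - k, by omega⟩, ?_⟩
    show k + (a - k) = a
    omega

theorem io_lt (k : ℕ) (x : Fin k ⊕ Fin 6) : io k x < k + 6 := by
  rcases x with x | x
  · have h := x.2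
    show (x : ℕ) < k + 6
    omega
  · have h := x.2
    show k + (x : ℕ) < k + 6
    omega

theorem tpos_io (k l : ℕ) : tpos k l ∘ io k = Sum.elim (tm k) (ex6 (k + l)) := by
  funext x
  rcases x with x | x
  · show tpos k l (x : ℕ) = (x : ℕ)
    unfold tpos
    rw [if_pos x.2]
  · show tpos k l (k + (x : ℕ)) = k + l + (x : ℕ)
    unfold tpos
    rw [if_neg (by omega)]
    omega

theorem support_map_subset {V W : Type} (f : V → W) (G : SimpleGraph V) :
    (G.map f).support ⊆ Set.range f := by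
  rintro w ⟨w', _, a, b, _, ha, _⟩
  exact ⟨a, ha⟩

theorem comap_map_of {V W : Type} (f : V → W) (hf : Function.Injective f) (G : SimpleGraph V) :
    (G.map f).comap f = G := by
  ext a b
  rw [SimpleGraph.comap_adj, SimpleGraph.map_adj']
  constructor
  · rintro ⟨_, a', b', h, ha, hb⟩
    rw [← hf ha, ← hf hb]
    exact h
  · intro h
    exact ⟨fun h' => h.ne (hf h'), a, b, h, rfl, rfl⟩

/-- the abstract test graph with code `q` -/
noncomputable def tg (k q : ℕ) : SimpleGraph (Fin k ⊕ Fin 6) := (cg (k + 6) q).comap (io k)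

theorem tg_map (k l q : ℕ) :
    (tg k q).map (Sum.elim (tm k) (ex6 (k + l))) = (cg (k + 6) q).map (tpos k l) := by
  rw [← tpos_io, ← SimpleGraph.map_map, tg,
    map_comap_of _ _ ((cg_support (k + 6) q).trans (range_io k))]

theorem exists_tg (k : ℕ) (P : SimpleGraph (Fin k ⊕ Fin 6)) :
    ∃ q < 2 ^ ((k + 6) ^ 2), tg k q = P := by
  obtain ⟨q, hq, hP⟩ := exists_code (k + 6) (P.map (io k)) (by
    intro w hw
    obtain ⟨x, rfl⟩ := support_map_subset _ _ hw
    exact io_lt k x)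
  exact ⟨q, hq, by rw [tg, hP, comap_map_of _ (io_inj k)]⟩

theorem ug_iff (k l c q : ℕ) :
    Planar (ug k l c q) ↔ tg k q ∈ Ty k (tm k) (cg (k + l) c) := by
  have hv : ∀ i, ex6 (k + l) i ∉ (cg (k + l) c).support ∪ Set.range (tm k) := by
    rintro i (h | h)
    · have h1 : ex6 (k + l) i < k + l := cg_support _ _ h
      have h2 : ex6 (k + l) i = k + l + (i : ℕ) := rfl
      omega
    · rw [range_tm] at h
      have h1 : ex6 (k + l) i < k := h
      have h2 : ex6 (k + l) i = k + l + (i : ℕ) := rfl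
      omega
  unfold ug
  rw [← tg_map]
  constructor
  · intro h e' he' hv'
    exact ty_indep (cg_support_finite _ _) _ (ex6_inj _) he' hv hv' h
  · intro h
    exact h _ (ex6_inj _) hv

/-- agreement on all tests -/
theorem ty_eq_iff (k l l' c g : ℕ) :
    Ty k (tm k) (cg (k + l) c) = Ty k (tm k) (cg (k + l') g) ↔
      ∀ q < 2 ^ ((k + 6) ^ 2), (Planar (ug k l c q) ↔ Planar (ug k l' g q)) := by
  constructor
  · intro h q _
    rw [ug_iff, ug_iff, h]
  · intro h
    ext P
    obtain ⟨q, hq, rfl⟩ := exists_tg k P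
    rw [← ug_iff, ← ug_iff]
    exact h q hq

theorem planar_of_ty {j : ℕ} {t : Fin j → ℕ} {A A' : SimpleGraph ℕ} (hA : A.support.Finite)
    (hA' : A'.support.Finite) (hr : Red (Set.range t) A A') :
    Ty j t A = Ty j t A' := by
  obtain ⟨e, he, hv, _⟩ := fresh (N := ∅) Set.finite_empty (by simp)
    ((hA.union hA').union (Set.finite_range t)) (by simp)
  have hvA : ∀ i, e i ∉ A.support ∪ Set.range t := fun i h => by
    rcases h with h | h
    · exact hv i (Or.inl (Or.inl h))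
    · exact hv i (Or.inr h)
  have hvA' : ∀ i, e i ∉ A'.support ∪ Set.range t := fun i h => by
    rcases h with h | h
    · exact hv i (Or.inl (Or.inr h))
    · exact hv i (Or.inr h)
  have key : ∀ P : SimpleGraph (Fin j ⊕ Fin 6),
      (Planar (A ⊔ P.map (Sum.elim t e)) ↔ Planar (A' ⊔ P.map (Sum.elim t e))) := by
    intro P
    refine hr.2 _ ((Set.finite_range _).subset (support_map_subset _ _)) ?_
    rw [Set.disjoint_left]
    intro v hv1 hv2
    obtain ⟨x, rfl⟩ := support_map_subset _ _ hv1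
    rcases x with x | x
    · exact hv2.2 ⟨x, rfl⟩
    · exact hvA x (Or.inl hv2.1)
  ext P
  constructor
  · intro h e' he' hv'
    exact ty_indep hA' P he he' hvA' hv' ((key P).1 (h e he hvA))
  · intro h e' he' hv'
    exact ty_indep hA P he he' hvA hv' ((key P).2 (h e he hvA'))

/-- agreement on all tests implies equivalence -/
theorem red_of_ty (k l l' c g : ℕ) (hl : l' ≤ l)
    (hs : ∀ a, k ≤ a → a < k + l → a ∈ (cg (k + l) c).support)
    (h : Ty k (tm k) (cg (k + l) c) = Ty k (tm k) (cg (k + l') g)) :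
    Red {a | a < k} (cg (k + l) c) (cg (k + l') g) := by
  have hsub : (cg (k + l') g).support \ {a | a < k} ⊆
      (cg (k + l) c).support \ {a | a < k} := by
    rintro a ⟨ha, hak⟩
    have h1 : a < k + l' := cg_support _ _ ha
    have h2 : ¬ a < k := hak
    exact ⟨hs a (by omega) (by omega), hak⟩
  refine ⟨hsub, fun Q hQ hd => ?_⟩
  have hd' := hd.mono_right hsub
  rw [← range_tm] at hd hd'
  exact ⟨equiv_of_ty (tm k) _ _ (cg_support_finite _ _) (cg_support_finite _ _) h.symm Q hQ hd' hd,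
    equiv_of_ty (tm k) _ _ (cg_support_finite _ _) (cg_support_finite _ _) h Q hQ hd hd'⟩

/-- there is an equivalent graph with few vertices -/
theorem exists_small (C : ℕ) (hC : ∀ (T : Set ℕ) (A : SimpleGraph ℕ), T.Finite →
      A.support.Finite → Irr T A → rho T A ≤ C * (T.ncard + 1)) (k l l' c : ℕ)
    (hl : l' = min l (C * (k + 1))) :
    ∃ g < 2 ^ ((k + l') ^ 2), Ty k (tm k) (cg (k + l) c) = Ty k (tm k) (cg (k + l') g) := by
  have hTf : (Set.range (tm k)).Finite := Set.finite_range _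
  obtain ⟨A', h1, h2, h3⟩ := exists_irr (Set.range (tm k)) (cg (k + l) c)
    (cg_support_finite _ _) hTf
  have hTc : (Set.range (tm k)).ncard = k := by
    rw [← Set.image_univ, Set.ncard_image_of_injective _ (tm_inj k), Set.ncard_univ]
    simp
  have hr1 : rho (Set.range (tm k)) A' ≤ C * (k + 1) := by
    have := hC _ A' hTf h3 h2
    rwa [hTc] at this
  set S : Set ℕ := A'.support \ Set.range (tm k) with hS
  have hSsub : S ⊆ (fun i => k + i) '' {i | i < l} := by
    intro a ha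
    have h4 := h1.1 ha
    have h5 : a < k + l := cg_support _ _ h4.1
    have h6 : ¬ a < k := fun h => h4.2 (by rw [range_tm]; exact h)
    refine ⟨a - k, ?_, ?_⟩
    · show a - k < l
      omega
    · show k + (a - k) = a
      omega
  have hSf : S.Finite := h3.subset Set.sdiff_subset
  have hr2 : S.ncard ≤ l := by
    calc S.ncard ≤ ((fun i => k + i) '' {i | i < l}).ncard :=
          Set.ncard_le_ncard hSsub ((Set.finite_lt_nat l).image _)
      _ ≤ {i | i < l}.ncard := Set.ncard_image_le (Set.finite_lt_nat l)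
      _ = l := by
          have : ({i | i < l} : Set ℕ) = ↑(Finset.range l) := by
            ext i
            simp
          rw [this, Set.ncard_coe_finset, Finset.card_range]
  have hr : S.ncard ≤ l' := by
    rw [hl]
    exact le_min hr2 hr1
  have hSfin : Finite ↥S := hSf.to_subtype
  obtain ⟨f, hf⟩ : ∃ f : ↥S → Fin l', Function.Injective f := by
    have := Fintype.ofFinite ↥S
    have hc : Fintype.card ↥S ≤ Fintype.card (Fin l') := by
      rw [Fintype.card_fin, ← Nat.card_eq_fintype_card, Nat.card_coe_set_eq]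
      exact hr
    obtain ⟨f⟩ := Function.Embedding.nonempty_of_card_le hc
    exact ⟨f, f.injective⟩
  have inj1 : Function.Injective (Sum.elim (Subtype.val : ↥S → ℕ) (tm k)) := by
    refine Function.Injective.sumElim Subtype.val_injective (tm_inj k) ?_
    intro a b hab
    exact a.2.2 ⟨b, hab.symm⟩
  have inj2 : Function.Injective (Sum.elim (fun x : ↥S => k + (f x : ℕ)) (tm k)) := by
    refine Function.Injective.sumElim (fun x y hxy => hf (Fin.ext ?_)) (tm_inj k) ?_
    · have h : k + (f x : ℕ) = k + (f y : ℕ) := hxy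
      omega
    · intro a b hab
      have h : k + (f a : ℕ) = (b : ℕ) := hab
      have := b.2
      omega
  obtain ⟨σ, hσ⟩ := Equiv.Perm.exists_extending_pair _ _ inj1 inj2
  have hσt : ∀ i, σ (tm k i) = tm k i := fun i => hσ (Sum.inr i)
  have hσS : ∀ a (ha : a ∈ S), σ a = k + (f ⟨a, ha⟩ : ℕ) := fun a ha => hσ (Sum.inl ⟨a, ha⟩)
  have hcomp : (σ : ℕ → ℕ) ∘ tm k = tm k := funext hσt
  have hty : Ty k (tm k) (A'.map σ) = Ty k (tm k) A' := by
    have := ty_nat σ (tm k) A'
    rwa [hcomp] at this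
  obtain ⟨g, hg, hgA⟩ := exists_code (k + l') (A'.map σ) (by
    rw [support_perm]
    rintro _ ⟨a, ha, rfl⟩
    by_cases haT : a ∈ Set.range (tm k)
    · obtain ⟨i, rfl⟩ := haT
      rw [hσt]
      show (i : ℕ) < k + l'
      have := i.2
      omega
    · rw [hσS a ⟨ha, haT⟩]
      show k + (f ⟨a, ⟨ha, haT⟩⟩ : ℕ) < k + l'
      have := (f ⟨a, ⟨ha, haT⟩⟩).2
      omega)
  refine ⟨g, hg, ?_⟩
  rw [hgA, hty]
  exact planar_of_ty (cg_support_finite _ _) h3 h1

/-! ### evaluation -/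

/-- the accumulator -/
noncomputable def acc (P : ℕ → Prop) (M i : ℕ) : ℕ :=
  if h : ∃ g, g < i ∧ P g then Nat.find h else M

theorem acc_zero (P : ℕ → Prop) (M : ℕ) : acc P M 0 = M := by
  unfold acc
  rw [dif_neg]
  rintro ⟨g, hg, _⟩
  omega

theorem acc_of (P : ℕ → Prop) (M i : ℕ) (h : ∃ g, g < i ∧ P g) :
    acc P M i < i ∧ P (acc P M i) := by
  unfold acc
  rw [dif_pos h]
  exact Nat.find_spec h

theorem acc_succ_of_ex (P : ℕ → Prop) (M i : ℕ) (h : ∃ g, g < i ∧ P g) :
    acc P M (i + 1) = acc P M i := by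
  have h' : ∃ g, g < i + 1 ∧ P g := by
    obtain ⟨g, hg, hP⟩ := h
    exact ⟨g, by omega, hP⟩
  unfold acc
  rw [dif_pos h, dif_pos h']
  refine le_antisymm ?_ ?_
  · exact Nat.find_min' h' ⟨by have := (Nat.find_spec h).1; omega, (Nat.find_spec h).2⟩
  · refine Nat.find_min' h ⟨?_, (Nat.find_spec h').2⟩
    have h1 := (Nat.find_spec h).1
    have h2 := Nat.find_min' h' ⟨by omega, (Nat.find_spec h).2⟩
    omega

theorem acc_succ_of_not (P : ℕ → Prop) (M i : ℕ) (h : ¬ ∃ g, g < i ∧ P g) :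
    acc P M (i + 1) = if P i then i else M := by
  by_cases hP : P i
  · rw [if_pos hP]
    have h' : ∃ g, g < i + 1 ∧ P g := ⟨i, by omega, hP⟩
    unfold acc
    rw [dif_pos h']
    have h1 := Nat.find_spec h'
    by_contra hne
    exact h ⟨_, by omega, h1.2⟩
  · rw [if_neg hP]
    unfold acc
    rw [dif_neg]
    rintro ⟨g, hg, hPg⟩
    rcases Nat.lt_succ_iff_lt_or_eq.1 hg with h1 | h1
    · exact h ⟨g, h1, hPg⟩
    · exact hP (h1 ▸ hPg)

theorem bf_ev (κ : Par) (σ : St) (k l l' c : ℕ) (h : 2 ^ (3 * (k + l + 6) ^ 2) ≤ κ.cap)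
    (ht : κ.cap ≤ κ.top) (hl : l' ≤ l) :
    bfE.ev κ σ [k, l, l', c] =
      acc (fun g => ∀ q < 2 ^ ((k + 6) ^ 2), (Planar (ug k l c q) ↔ Planar (ug k l' g q)))
        (2 ^ ((k + l') ^ 2)) (2 ^ ((k + l') ^ 2)) := by
  classical
  set M : ℕ := 2 ^ ((k + l') ^ 2) with hM
  set P : ℕ → Prop := fun g =>
    ∀ q < 2 ^ ((k + 6) ^ 2), (Planar (ug k l c q) ↔ Planar (ug k l' g q)) with hP
  have hsq : ∀ a b : ℕ, a ≤ b → a ^ 2 ≤ b ^ 2 := fun a b hab => Nat.pow_le_pow_left hab 2
  have e1 : (k + l') ^ 2 ≤ 3 * (k + l + 6) ^ 2 := by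
    have := hsq (k + l') (k + l + 6) (by omega)
    omega
  have e2 : (k + 6) ^ 2 ≤ 3 * (k + l + 6) ^ 2 := by
    have := hsq (k + 6) (k + l + 6) (by omega)
    omega
  have e3 : 3 * (k + l' + 6) ^ 2 ≤ 3 * (k + l + 6) ^ 2 := by
    have := hsq (k + l' + 6) (k + l + 6) (by omega)
    omega
  have hp : ∀ x, x ≤ 3 * (k + l + 6) ^ 2 → 2 ^ x ≤ κ.cap := fun x hx =>
    (Nat.pow_le_pow_right (by norm_num) hx).trans h
  have hx : ∀ x, x ≤ 3 * (k + l + 6) ^ 2 → x ≤ κ.cap := fun x hx =>
    (Nat.lt_two_pow_self).le.trans (hp x hx)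
  have hMcap : M ≤ κ.cap := hp _ e1
  have hcap1 : 1 ≤ κ.cap := (Nat.one_le_two_pow).trans h
  have hpow1 : powE.ev κ σ [2, (k + l') * (k + l')] = M := by
    rw [hM, sq]
    have e1' : (k + l') * (k + l') ≤ 3 * (k + l + 6) ^ 2 := by rw [← sq]; exact e1
    exact ev_pow κ σ 2 _ (hx _ e1') (by norm_num) ((hp _ e1').trans ht)
  have hpow2 : powE.ev κ σ [2, (k + 6) * (k + 6)] = 2 ^ ((k + 6) ^ 2) := by
    rw [sq]
    have e2' : (k + 6) * (k + 6) ≤ 3 * (k + l + 6) ^ 2 := by rw [← sq]; exact e2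
    exact ev_pow κ σ 2 _ (hx _ e2') (by norm_num) ((hp _ e2').trans ht)
  have hbody : ∀ i < M, ∀ a : ℕ,
      ((E.ite (less (.v 6) (.v 4)) (.v 6)
        (.ite (all 8 (call2 powE 2 ((.v 0 + 6) * (.v 0 + 6)))
          (eqn (call4 npE (.v 0) (.v 1) (.v 3) (.v 8)) (call4 npE (.v 0) (.v 2) (.v 5) (.v 8))))
          (.v 5) (.v 6))).ev κ σ ([k, l, l', c, M] ++ [i, a, M]) =
        if a < M then a else if P i then i else a) := by
    intro i _ a
    have hall := ev_all κ σ ([k, l, l', c, M] ++ [i, a, M]) 8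
      (call2 powE 2 ((.v 0 + 6) * (.v 0 + 6)))
      (eqn (call4 npE (.v 0) (.v 1) (.v 3) (.v 8)) (call4 npE (.v 0) (.v 2) (.v 5) (.v 8)))
      (2 ^ ((k + 6) ^ 2)) (fun q => (Planar (ug k l c q) ↔ Planar (ug k l' i q)))
      (by simp) (by simp [hpow2]) (hp _ e2) (hcap1.trans ht) (by
        intro q _ b
        rw [ev_eqn, ev_call4, ev_call4]
        have n1 := np_spec κ σ k l c q h ht
        have n2 := np_spec κ σ k l' i q ((hp _ e3)) ht
        simp only [List.cons_append, List.nil_append] at *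
        simp only [ev_v, List.getD_cons_zero, List.getD_cons_succ]
        rw [n1, n2]
        by_cases h1 : Planar (ug k l c q) <;> by_cases h2 : Planar (ug k l' i q) <;>
          simp [h1, h2])
    rw [ev_ite, ev_ite, hall, ev_less]
    simp only [ev_v, List.cons_append, List.nil_append, List.getD_cons_zero,
      List.getD_cons_succ]
    by_cases h1 : a < M
    · simp [h1]
    · by_cases h2 : P i
      · have h2' : ∀ q < 2 ^ ((k + 6) ^ 2), (Planar (ug k l c q) ↔ Planar (ug k l' i q)) := h2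
        simp only [h1, if_false, if_true, h2]
        rw [if_pos h2']
        simp
      · have h2' : ¬ ∀ q < 2 ^ ((k + 6) ^ 2), (Planar (ug k l c q) ↔ Planar (ug k l' i q)) := h2
        simp only [h1, if_false, if_true, h2]
        rw [if_neg h2']
        simp
  have hfold := ev_fold κ σ [k, l, l', c, M] (.v 4) (.v 4)
    (.ite (less (.v 6) (.v 4)) (.v 6)
      (.ite (all 8 (call2 powE 2 ((.v 0 + 6) * (.v 0 + 6)))
        (eqn (call4 npE (.v 0) (.v 1) (.v 3) (.v 8)) (call4 npE (.v 0) (.v 2) (.v 5) (.v 8))))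
        (.v 5) (.v 6))) M (acc P M) (by simp) hMcap (by simp [acc_zero]) (by
      intro i hi
      rw [hbody i hi]
      by_cases hex : ∃ g, g < i ∧ P g
      · have h1 := (acc_of P M i hex).1
        rw [if_pos (by omega), acc_succ_of_ex P M i hex]
      · have h1 : acc P M i = M := by
          unfold acc
          rw [dif_neg hex]
        rw [h1, if_neg (lt_irrefl M), acc_succ_of_not P M i hex]
        split_ifs <;> rfl) (by
      intro i hi
      by_cases hex : ∃ g, g < i + 1 ∧ P g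
      · have h1 := (acc_of P M (i + 1) hex).1
        omega
      · unfold acc
        rw [dif_neg hex]
        omega)
  have hlist : bfE.ev κ σ [k, l, l', c] =
      (E.fold (.v 4) (.v 4) (.ite (less (.v 6) (.v 4)) (.v 6)
      (.ite (all 8 (call2 powE 2 ((.v 0 + 6) * (.v 0 + 6)))
        (eqn (call4 npE (.v 0) (.v 1) (.v 3) (.v 8)) (call4 npE (.v 0) (.v 2) (.v 5) (.v 8))))
        (.v 5) (.v 6)))).ev κ σ [k, l, l', c, M] := by
    unfold bfE
    rw [ev_lt, ev_call2]
    have e : ((E.v 0 + E.v 2) * (E.v 0 + E.v 2)).ev κ σ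
        ([k, l, l', c] ++ [(2 : E).ev κ σ [k, l, l', c]]) = (k + l') * (k + l') := by
      simp
    rw [e, ev_ofNat, hpow1]
    rfl
  rw [hlist, hfold]

end PBfAux

open PBfAux GIndexAux

theorem bf_spec (C : ℕ) (hC : ∀ (T : Set ℕ) (A : SimpleGraph ℕ), T.Finite → A.support.Finite →
      Irr T A → rho T A ≤ C * (T.ncard + 1)) (κ : Par) (σ : St) (k l l' c : ℕ)
    (h : 2 ^ (3 * (k + l + 6) ^ 2) ≤ κ.cap) (ht : κ.cap ≤ κ.top)
    (hl : l' = min l (C * (k + 1))) (hs : ∀ a, k ≤ a → a < k + l → a ∈ (cg (k + l) c).support) :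
    Red {a | a < k} (cg (k + l) c) (cg (k + l') (bfE.ev κ σ [k, l, l', c])) := by
  have hll : l' ≤ l := by
    rw [hl]
    exact min_le_left _ _
  obtain ⟨g, hg, hgT⟩ := exists_small C hC k l l' c hl
  rw [ty_eq_iff] at hgT
  have h1 := acc_of (fun g => ∀ q < 2 ^ ((k + 6) ^ 2),
    (Planar (ug k l c q) ↔ Planar (ug k l' g q))) (2 ^ ((k + l') ^ 2)) (2 ^ ((k + l') ^ 2))
    ⟨g, hg, hgT⟩
  rw [← bf_ev κ σ k l l' c h ht hll] at h1
  exact red_of_ty k l l' c _ hll hs ((ty_eq_iff k l l' c _).2 h1.2)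

end Pool.Agent.MP9d6bd1
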