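import Mathlib
import Pool.Agent.Lib.MP_9d6bd1_lc.Spec2
import Pool.Agent.Lib.MP_9d6bd1_lc.EvLib
import Pool.Agent.Lib.MP_9d6bd1_lc.PNp
import Pool.Agent.Lib.MP_9d6bd1_lc.PBf
import Pool.Agent.Lib.MP_9d6bd1_lc.PPieceA
import Pool.Agent.Lib.MP_9d6bd1_lc.PPieceB
import Pool.Agent.Lib.MP_9d6bd1_lc.GRedA
import Pool.Agent.Lib.MP_9d6bd1_lc.GRedB
import Pool.Agent.Lib.MP_9d6bd1_lc.GMinor

/-!
# MP_9d6bd1_lc: replacing one piece
-/

set_option autoImplicit false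

open Classical

namespace Pool.Agent.MP9d6bd1

open E

namespace PNewAAux

/-- adjacency in the graph of a symmetric list structure -/
theorem adj_iff {F : FG} (hF : F.Ok) (x y : ℕ) :
    F.gr.Adj x y ↔ x < F.N ∧ ∃ j < F.deg x, F.nb x j = y := by
  have hsymm : ∀ a b, a < F.N → b < F.N → (∃ j < F.deg a, F.nb a j = b) →
      ∃ j < F.deg b, F.nb b j = a := by
    intro a b ha hb h
    have h1 : 0 < F.cnt a b := by
      obtain ⟨j, hj, hjb⟩ := h
      exact Finset.card_pos.2 ⟨j, by simp [hj, hjb]⟩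
    rw [hF.symm a ha b hb] at h1
    obtain ⟨j, hj⟩ := Finset.card_pos.1 h1
    simp only [Finset.mem_filter, Finset.mem_range] at hj
    exact ⟨j, hj.1, hj.2⟩
  unfold FG.gr
  rw [SimpleGraph.fromRel_adj]
  constructor
  · rintro ⟨-, ⟨h1, h2, h3⟩ | ⟨h1, h2, h3⟩⟩
    · exact ⟨h1, h3⟩
    · exact ⟨h2, hsymm _ _ h1 h2 h3⟩
  · rintro ⟨h1, j, hj, rfl⟩
    exact ⟨fun h => hF.ne x h1 j hj h.symm, Or.inl ⟨h1, hF.lt x h1 j hj, j, hj, rfl⟩⟩

variable {κ : Par} {σ : St} {u : ℕ}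

theorem adj_iff' (hG : (cur κ σ).Ok) (x y : ℕ) :
    (cur κ σ).gr.Adj x y ↔ x < σ.g 3 ∧ ∃ j < (cur κ σ).deg x, (cur κ σ).nb x j = y :=
  adj_iff hG x y

theorem adj_lt (hG : (cur κ σ).Ok) {x y : ℕ} (h : (cur κ σ).gr.Adj x y) : x < σ.g 3 :=
  ((adj_iff' hG x y).1 h).1

theorem support_finite (hG : (cur κ σ).Ok) : (cur κ σ).gr.support.Finite := by
  refine (Set.finite_lt_nat (σ.g 3)).subset ?_
  rintro x ⟨y, hy⟩
  exact adj_lt hG hy

theorem pc_sub (hu : u < σ.g 3) (hm : u ∉ Rm κ σ) (hG : (cur κ σ).Ok) {x : ℕ}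
    (hx : x ∈ PC κ σ u) : x < σ.g 3 ∧ x ∉ Rm κ σ := by
  have h : Relation.ReflTransGen (ust κ σ) u x := hx
  induction h with
  | refl => exact ⟨hu, hm⟩
  | tail h1 h2 ih =>
    obtain ⟨j, hj, hjb, hR⟩ := h2
    exact ⟨hjb ▸ hG.lt _ (ih h1).1 j hj, hR⟩

theorem ust_adj (hG : (cur κ σ).Ok) {x y : ℕ} (hx : x < σ.g 3) (h : ust κ σ x y) :
    (cur κ σ).gr.Adj x y := by
  obtain ⟨j, hj, hjb, -⟩ := h
  exact (adj_iff' hG x y).2 ⟨hx, j, hj, hjb⟩

theorem self_mem : u ∈ PC κ σ u := Relation.ReflTransGen.refl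

theorem pc_finite (hu : u < σ.g 3) (hm : u ∉ Rm κ σ) (hG : (cur κ σ).Ok) :
    (PC κ σ u).Finite :=
  (Set.finite_lt_nat (σ.g 3)).subset fun _ hx => (pc_sub hu hm hG hx).1

theorem tt_finite : (TT κ σ u).Finite :=
  (Set.finite_lt_nat (σ.g 3)).subset fun _ hx => hx.1.1

theorem disj (hu : u < σ.g 3) (hm : u ∉ Rm κ σ) (hG : (cur κ σ).Ok) :
    Disjoint (PC κ σ u) (TT κ σ u) := by
  rw [Set.disjoint_left]
  intro x hx hx'
  exact (pc_sub hu hm hG hx).2 hx'.1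

theorem nbr_eq (hu : u < σ.g 3) (hm : u ∉ Rm κ σ) (hG : (cur κ σ).Ok) :
    nbr (cur κ σ).gr (PC κ σ u) = TT κ σ u := by
  ext y
  constructor
  · rintro ⟨hy, w, hw, hadj⟩
    obtain ⟨h1, j, hj, hjb⟩ := (adj_iff' hG _ _).1 hadj.symm
    refine ⟨?_, w, hw, j, hj, hjb⟩
    by_contra hyR
    exact hy (Relation.ReflTransGen.tail hw ⟨j, hj, hjb, hyR⟩)
  · rintro ⟨hy, w, hw, j, hj, hjb⟩
    refine ⟨fun h => (pc_sub hu hm hG h).2 hy, w, hw, ?_⟩
    exact ((adj_iff' hG _ _).2 ⟨(pc_sub hu hm hG hw).1, j, hj, hjb⟩).symm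

theorem connected (hu : u < σ.g 3) (hm : u ∉ Rm κ σ) (hG : (cur κ σ).Ok) (A : SimpleGraph ℕ)
    (hA : ∀ x ∈ PC κ σ u, ∀ y ∈ PC κ σ u, (cur κ σ).gr.Adj x y → A.Adj x y) :
    (A.induce (PC κ σ u)).Connected := by
  have key : ∀ x (hx : x ∈ PC κ σ u),
      (A.induce (PC κ σ u)).Reachable ⟨u, self_mem⟩ ⟨x, hx⟩ := by
    intro x hx
    have h : Relation.ReflTransGen (ust κ σ) u x := hx
    induction h with
    | refl => exact SimpleGraph.Reachable.refl _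
    | tail h1 h2 ih =>
      refine (ih h1).trans (SimpleGraph.Adj.reachable ?_)
      exact hA _ h1 _ hx (ust_adj hG (pc_sub hu hm hG h1).1 h2)
  have _ : Nonempty (PC κ σ u) := ⟨⟨u, self_mem⟩⟩
  refine SimpleGraph.Connected.mk ?_
  rintro ⟨x, hx⟩ ⟨y, hy⟩
  exact (key x hx).symm.trans (key y hy)

/-- every vertex of a piece with an attachment has a neighbour -/
theorem mem_support (hu : u < σ.g 3) (hm : u ∉ Rm κ σ) (hG : (cur κ σ).Ok)
    (hT : (TT κ σ u).Nonempty) {x : ℕ} (hx : x ∈ PC κ σ u) : ∃ y, (cur κ σ).gr.Adj x y := by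
  obtain ⟨t, ht, w, hw, j, hj, hjb⟩ := hT
  have hwt : (cur κ σ).gr.Adj w t := (adj_iff' hG _ _).2 ⟨(pc_sub hu hm hG hw).1, j, hj, hjb⟩
  rcases Relation.ReflTransGen.cases_tail hx with h | ⟨y, hy, hyx⟩
  · subst h
    rcases Relation.ReflTransGen.cases_head hw with h | ⟨y, hy, -⟩
    · rw [h]; exact ⟨t, hwt⟩
    · exact ⟨y, ust_adj hG hu hy⟩
  · exact ⟨y, (ust_adj hG (pc_sub hu hm hG hy).1 hyx).symm⟩

/-- extension of a finite injection to a permutation -/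
theorem exists_perm (n : ℕ) (f : ℕ → ℕ) (hf : Set.InjOn f {a | a < n}) :
    ∃ e : ℕ ≃ ℕ, ∀ a < n, e a = f a := by
  have hfin : ({a | a < n} : Set ℕ).Finite := Set.finite_lt_nat n
  have h1 : ({a | a < n} : Set ℕ)ᶜ.Infinite := hfin.infinite_compl
  have h2 : (f '' {a | a < n})ᶜ.Infinite := (hfin.image f).infinite_compl
  have _ : Infinite ↥({a | a < n} : Set ℕ)ᶜ := h1.to_subtype
  have _ : Infinite ↥(f '' {a | a < n})ᶜ := h2.to_subtype
  obtain ⟨d1⟩ := nonempty_denumerable ↥({a | a < n} : Set ℕ)ᶜ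
  obtain ⟨d2⟩ := nonempty_denumerable ↥(f '' {a | a < n})ᶜ
  let e1 : ↥({a | a < n} : Set ℕ) ≃ ↥(f '' {a | a < n}) := Equiv.Set.imageOfInjOn f _ hf
  let e2 : ↥({a | a < n} : Set ℕ)ᶜ ≃ ↥(f '' {a | a < n})ᶜ := Denumerable.equiv₂ _ _
  refine ⟨(Equiv.Set.sumCompl _).symm.trans
    ((Equiv.sumCongr e1 e2).trans (Equiv.Set.sumCompl _)), ?_⟩
  intro a ha
  rw [Equiv.trans_apply, Equiv.Set.sumCompl_symm_apply_of_mem (show a ∈ {a | a < n} from ha)]
  simp only [Equiv.trans_apply, Equiv.sumCongr_apply, Sum.map_inl, Equiv.Set.sumCompl_apply_inl]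
  rfl

theorem cg_adj_lt {s c a b : ℕ} (h : (cg s c).Adj a b) : a < s ∧ b < s := by
  unfold cg at h
  rw [SimpleGraph.fromRel_adj] at h
  rcases h.2 with h | h
  · exact ⟨h.1, h.2.1⟩
  · exact ⟨h.2.1, h.1⟩

theorem map_congr (s c : ℕ) (n : ℕ) (hs : s ≤ n) (f g : ℕ → ℕ) (h : ∀ a < n, f a = g a) :
    (cg s c).map f = (cg s c).map g := by
  ext x y
  rw [SimpleGraph.map_adj', SimpleGraph.map_adj']
  constructor
  · rintro ⟨h0, a, b, hab, rfl, rfl⟩
    have h1 := cg_adj_lt hab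
    exact ⟨h0, a, b, hab, (h a (by omega)).symm, (h b (by omega)).symm⟩
  · rintro ⟨h0, a, b, hab, rfl, rfl⟩
    have h1 := cg_adj_lt hab
    exact ⟨h0, a, b, hab, (h a (by omega)), (h b (by omega))⟩

theorem cg_zero (s : ℕ) : cg s 0 = ⊥ := by
  ext a b
  unfold cg
  rw [SimpleGraph.fromRel_adj]
  simp

theorem ug_zero (k l c : ℕ) : ug k l c 0 = cg (k + l) c := by
  unfold ug
  rw [cg_zero]
  have : (⊥ : SimpleGraph ℕ).map (tpos k l) = ⊥ := by
    ext a b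
    rw [SimpleGraph.map_adj']
    simp
  rw [this, sup_bot_eq]

theorem cg_two : cg (2 + 6) 2 = SimpleGraph.edge 0 1 := by
  have key : ∀ a b : ℕ, 2 / 2 ^ (a * (2 + 6) + b) % 2 = 1 ↔ a = 0 ∧ b = 1 := by
    intro a b
    constructor
    · intro h
      have h1 : a * (2 + 6) + b = 1 := by
        rcases Nat.lt_or_ge (a * (2 + 6) + b) 2 with h2 | h2
        · interval_cases h3 : a * (2 + 6) + b
          · simp at h
          · rfl
        · exfalso
          have h3 : 2 ^ 2 ≤ 2 ^ (a * (2 + 6) + b) := Nat.pow_le_pow_right (by norm_num) h2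
          rw [Nat.div_eq_of_lt (by omega)] at h
          simp at h
      omega
    · rintro ⟨rfl, rfl⟩
      norm_num
  ext a b
  unfold cg
  rw [SimpleGraph.fromRel_adj, SimpleGraph.edge_adj]
  simp only [key]
  constructor
  · rintro ⟨h0, ⟨-, -, h1, h2⟩ | ⟨-, -, h1, h2⟩⟩
    · exact ⟨Or.inl ⟨h1, h2⟩, h0⟩
    · exact ⟨Or.inr ⟨h2, h1⟩, h0⟩
  · rintro ⟨⟨h1, h2⟩ | ⟨h1, h2⟩, h0⟩
    · exact ⟨h0, Or.inl ⟨by omega, by omega, h1, h2⟩⟩
    · exact ⟨h0, Or.inr ⟨by omega, by omega, h2, h1⟩⟩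

theorem edge_map (f : ℕ → ℕ) (a b : ℕ) :
    (SimpleGraph.edge a b).map f = SimpleGraph.edge (f a) (f b) := by
  ext x y
  rw [SimpleGraph.map_adj', SimpleGraph.edge_adj]
  constructor
  · rintro ⟨h0, p, q, hpq, rfl, rfl⟩
    rw [SimpleGraph.edge_adj] at hpq
    refine ⟨?_, h0⟩
    rcases hpq.1 with ⟨rfl, rfl⟩ | ⟨rfl, rfl⟩
    · exact Or.inl ⟨rfl, rfl⟩
    · exact Or.inr ⟨rfl, rfl⟩
  · rintro ⟨⟨rfl, rfl⟩ | ⟨rfl, rfl⟩, h0⟩
    · refine ⟨h0, a, b, ?_, rfl, rfl⟩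
      rw [SimpleGraph.edge_adj]
      exact ⟨Or.inl ⟨rfl, rfl⟩, fun h => h0 (by rw [h])⟩
    · refine ⟨h0, b, a, ?_, rfl, rfl⟩
      rw [SimpleGraph.edge_adj]
      exact ⟨Or.inr ⟨rfl, rfl⟩, fun h => h0 (by rw [h])⟩

theorem ug_two (l c : ℕ) : ug 2 l c 2 = cg (2 + l) c ⊔ SimpleGraph.edge 0 1 := by
  unfold ug
  rw [cg_two, edge_map]
  simp [tpos]

theorem inc_inc {V : Type} (G : SimpleGraph V) (Z : Set V) : inc (inc G Z) Z = inc G Z := by
  ext a b
  simp only [inc]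
  tauto

theorem off_inc {V : Type} (G : SimpleGraph V) (Z : Set V) : off (inc G Z) Z = ⊥ := by
  ext a b
  simp only [inc, off, SimpleGraph.bot_adj]
  tauto

theorem nbr_inc {V : Type} (G : SimpleGraph V) (Z : Set V) : nbr (inc G Z) Z = nbr G Z := by
  ext a
  simp only [nbr, inc, Set.mem_ofPred_eq]
  constructor
  · rintro ⟨h, v, hv, h1, -⟩
    exact ⟨h, v, hv, h1⟩
  · rintro ⟨h, v, hv, h1⟩
    exact ⟨h, v, hv, h1, Or.inr hv⟩

/-- the bound of the parameters -/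
theorem cap_bound (hP : POk κ σ) {k l : ℕ} (hk : k ≤ σ.g 5 * σ.g 4) (hl : l ≤ σ.g 5) :
    2 ^ (3 * (k + l + 6) ^ 2) ≤ κ.cap := by
  refine le_trans (Nat.pow_le_pow_right (by norm_num) ?_) hP.cap
  refine Nat.mul_le_mul_left 3 (Nat.pow_le_pow_left ?_ 2)
  nlinarith

theorem mem_pcs (hu : u ∈ Pcs κ σ) : u < σ.g 3 ∧ u ∉ Rm κ σ := by
  unfold Pcs at hu
  simp only [Finset.mem_filter, Finset.mem_range] at hu
  exact ⟨hu.1, hu.2.1⟩

/-- everything about the naming of the local vertices -/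
theorem names (κ : Par) (σ : St) (hP : POk κ σ) (hG : (cur κ σ).Ok) (hR : ROk κ σ)
    (u : ℕ) (hu : u < σ.g 3) (hm : u ∉ Rm κ σ) :
    ∃ e : ℕ ≃ ℕ, (∀ a < kk κ σ u + ll κ σ u, e a = nmf κ σ u a) ∧
      (cg (kk κ σ u + ll κ σ u) (cc κ σ u)).map e = inc (cur κ σ).gr (PC κ σ u) ∧
      e '' {a | a < kk κ σ u} = TT κ σ u := by
  obtain ⟨h1, h2⟩ := nm_spec κ σ hP hG hR u hu hm
  have hinj : Set.InjOn (nmf κ σ u) {a | a < kk κ σ u + ll κ σ u} := by
    have hd := disj hu hm hG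
    rw [Set.disjoint_left] at hd
    intro a ha b hb hab
    simp only [Set.mem_ofPred_eq] at ha hb
    by_cases ha' : a < kk κ σ u
    · by_cases hb' : b < kk κ σ u
      · exact h1.injOn ha' hb' hab
      · exfalso
        have h3 := h1.mapsTo (show a ∈ {a | a < kk κ σ u} from ha')
        have h4 := h2.mapsTo (show b ∈ {a | kk κ σ u ≤ a ∧ a < kk κ σ u + ll κ σ u} from
          ⟨by omega, hb⟩)
        rw [hab] at h3
        exact hd h4 h3
    · by_cases hb' : b < kk κ σ u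
      · exfalso
        have h3 := h1.mapsTo (show b ∈ {a | a < kk κ σ u} from hb')
        have h4 := h2.mapsTo (show a ∈ {a | kk κ σ u ≤ a ∧ a < kk κ σ u + ll κ σ u} from
          ⟨by omega, ha⟩)
        rw [← hab] at h3
        exact hd h4 h3
      · exact h2.injOn ⟨by omega, ha⟩ ⟨by omega, hb⟩ hab
  obtain ⟨e, he⟩ := exists_perm _ _ hinj
  refine ⟨e, he, ?_, ?_⟩
  · rw [← (cd_spec κ σ hP hG hR u hu hm).1]
    exact map_congr _ _ _ le_rfl _ _ he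
  · rw [← h1.image_eq]
    refine Set.image_congr ?_
    intro a ha
    simp only [Set.mem_ofPred_eq] at ha
    exact he a (by omega)

theorem not_bad (κ : Par) (σ : St) (hP : POk κ σ) (hG : (cur κ σ).Ok) (hR : ROk κ σ)
    (u : ℕ) (hu : u < σ.g 3) (hm : u ∉ Rm κ σ) :
    isBad κ σ u ↔ ¬ Planar (inc (cur κ σ).gr (PC κ σ u)) := by
  obtain ⟨e, he, h1, h2⟩ := names κ σ hP hG hR u hu hm
  have hk := (pk_spec κ σ hP hG hR u hu hm).2
  have hl := (pl_spec κ σ hP hG hR u hu hm).2.1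
  have ht : κ.cap ≤ κ.top := by have := hP.top; omega
  unfold isBad
  rw [np_spec κ σ _ _ _ _ (cap_bound hP hk hl) ht, ug_zero, ← h1, GRedAAux.planar_equiv]
  split_ifs with h <;> simp [h]

end PNewAAux

open PNewAAux

theorem bad_nonplanar (κ : Par) (σ : St) (hP : POk κ σ) (hG : (cur κ σ).Ok) (hR : ROk κ σ)
    (u : ℕ) (hu : u ∈ Pcs κ σ) (hb : isBad κ σ u) : ¬ Planar (cur κ σ).gr := by
  obtain ⟨hu1, hu2⟩ := mem_pcs hu
  rw [not_bad κ σ hP hG hR u hu1 hu2] at hb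
  exact fun h => hb (planar_mono (GRedAAux.inc_le _ _) h)

theorem piece_red (C : ℕ) (hC : ∀ (T : Set ℕ) (A : SimpleGraph ℕ), T.Finite →
      A.support.Finite → Irr T A → rho T A ≤ C * (T.ncard + 1))
    (κ : Par) (σ : St) (hP : POk κ σ) (hG : (cur κ σ).Ok) (hR : ROk κ σ) (u : ℕ)
    (hu : u ∈ Pcs κ σ) (hb : ¬ isBad κ σ u) :
    nbr (cur κ σ).gr (PC κ σ u) = TT κ σ u ∧
    Red (TT κ σ u) (inc (cur κ σ).gr (PC κ σ u))
      (if isGad κ σ u then (gadg C κ σ u).map (nmf κ σ u) else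
        if isThin κ σ u then SimpleGraph.edge (nmf κ σ u 0) (nmf κ σ u 1) else ⊥) := by
  obtain ⟨hu1, hu2⟩ := mem_pcs hu
  have hn := nbr_eq hu1 hu2 hG
  refine ⟨hn, ?_⟩
  obtain ⟨e, he, h1, h2⟩ := names κ σ hP hG hR u hu1 hu2
  have hk := (pk_spec κ σ hP hG hR u hu1 hu2).2
  have hl := (pl_spec κ σ hP hG hR u hu1 hu2).2.1
  have ht : κ.cap ≤ κ.top := by have := hP.top; omega
  have hcap := cap_bound hP hk hl
  have hfin : (inc (cur κ σ).gr (PC κ σ u)).support.Finite := by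
    refine (support_finite hG).subset ?_
    rintro x ⟨y, hy⟩
    exact ⟨y, GRedAAux.inc_le _ _ hy⟩
  have hdisj := disj hu1 hu2 hG
  have hconn : ((inc (cur κ σ).gr (PC κ σ u)).induce (PC κ σ u)).Connected :=
    connected hu1 hu2 hG _ fun x hx y _ h => ⟨h, Or.inl hx⟩
  split_ifs with hg hth
  · have hT : (TT κ σ u).Nonempty := by
      rw [← Set.ncard_pos tt_finite]
      have := hg.1
      unfold kk at this
      omega
    have hs : ∀ a, kk κ σ u ≤ a → a < kk κ σ u + ll κ σ u →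
        a ∈ (cg (kk κ σ u + ll κ σ u) (cc κ σ u)).support := by
      intro a ha1 ha2
      have hx : e a ∈ PC κ σ u := by
        rw [he a ha2]
        exact (nm_spec κ σ hP hG hR u hu1 hu2).2.mapsTo ⟨ha1, ha2⟩
      obtain ⟨y, hy⟩ := mem_support hu1 hu2 hG hT hx
      have h3 : (inc (cur κ σ).gr (PC κ σ u)).Adj (e a) y := ⟨hy, Or.inl hx⟩
      rw [← h1] at h3
      obtain ⟨-, p, q, hpq, hp, -⟩ := h3
      have : p = a := e.injective hp
      subst this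
      exact ⟨q, hpq⟩
    have h3 := bf_spec C hC κ σ (kk κ σ u) (ll κ σ u) (lg C κ σ u) (cc κ σ u) hcap ht rfl hs
    have h4 := red_equiv _ _ _ e h3
    rw [h1, h2] at h4
    have h5 : (gadg C κ σ u).map (nmf κ σ u) = (gadg C κ σ u).map e := by
      unfold gadg
      refine map_congr _ _ (kk κ σ u + ll κ σ u) ?_ _ _ fun a ha => (he a ha).symm
      unfold lg
      omega
    rw [h5]
    exact h4
  · obtain ⟨hk2, hnp⟩ := hth
    have hTe : TT κ σ u = {nmf κ σ u 0, nmf κ σ u 1} := by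
      rw [← h2]
      have : {a | a < kk κ σ u} = ({0, 1} : Set ℕ) := by
        rw [hk2]
        ext a
        simp only [Set.mem_ofPred_eq, Set.mem_insert_iff, Set.mem_singleton_iff]
        omega
      rw [this, Set.image_pair, he 0 (by omega), he 1 (by omega)]
    have hab : nmf κ σ u 0 ≠ nmf κ σ u 1 := by
      rw [← he 0 (by omega), ← he 1 (by omega)]
      intro h
      have := e.injective h
      omega
    have hpl : Planar (inc (cur κ σ).gr (PC κ σ u) ⊔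
        SimpleGraph.edge (nmf κ σ u 0) (nmf κ σ u 1)) := by
      rw [np_spec κ σ _ _ _ _ hcap ht] at hnp
      have h3 : Planar (ug (kk κ σ u) (ll κ σ u) (cc κ σ u) 2) := by
        by_contra h3
        rw [if_neg h3] at hnp
        omega
      rw [hk2, ug_two] at h3
      rw [← h1, ← he 0 (by omega), ← he 1 (by omega), ← edge_map, ← GRedAAux.map_sup,
        GRedAAux.planar_equiv, hk2]
      exact h3
    have h3 := red_edge (TT κ σ u) (PC κ σ u) (inc (cur κ σ).gr (PC κ σ u)) hfin hdisj hconn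
      (nmf κ σ u 0) (nmf κ σ u 1) hab (by rw [nbr_inc, hn, hTe]) (by rw [inc_inc]; exact hpl)
    rw [off_inc, bot_sup_eq] at h3
    exact h3
  · have hsub : (nbr (inc (cur κ σ).gr (PC κ σ u)) (PC κ σ u)).Subsingleton := by
      rw [nbr_inc, hn]
      have hk1 : kk κ σ u ≤ 1 := by
        by_contra hk1
        exact hg ⟨by omega, hth⟩
      unfold kk at hk1
      have _ : Finite ↥(TT κ σ u) := tt_finite.to_subtype
      exact Set.ncard_le_one_iff_subsingleton.1 hk1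
    have hp : Planar (inc (cur κ σ).gr (PC κ σ u)) := by
      rw [not_bad κ σ hP hG hR u hu1 hu2] at hb
      exact not_not.1 hb
    have h3 := red_del (TT κ σ u) (PC κ σ u) (inc (cur κ σ).gr (PC κ σ u)) hfin hdisj
      (by rw [inc_inc]; exact hp) hsub
    rw [off_inc] at h3
    exact h3

end Pool.Agent.MP9d6bd1
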