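import Mathlib
import Pool.Agent.Lib.MP_9d6bd1_lc.GDefs
import Pool.Agent.Lib.MP_9d6bd1_lc.GMinor

/-!
# MP_9d6bd1_lc: replacing all pieces; bad pairs (module G24)
-/

set_option autoImplicit false

open Classical

namespace Pool.Agent.MP9d6bd1

namespace GReplaceAux

theorem supp_inc {V : Type} (G : SimpleGraph V) (Z : Set V) :
    (inc G Z).support ⊆ Z ∪ nbr G Z := by
  rintro u ⟨v, hv, h⟩
  by_cases hu : u ∈ Z
  · exact Or.inl hu
  · rcases h with h | h
    · exact absurd h hu
    · exact Or.inr ⟨hu, v, h, hv⟩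

theorem supp_inc_sub {V : Type} (G : SimpleGraph V) (Z : Set V) :
    (inc G Z).support ⊆ G.support := by
  rintro u ⟨v, hv, h⟩
  exact ⟨v, hv⟩

theorem supp_off_sub {V : Type} (G : SimpleGraph V) (Z : Set V) :
    (off G Z).support ⊆ G.support \ Z := by
  rintro u ⟨v, hv, h1, h2⟩
  exact ⟨⟨v, hv⟩, h1⟩

/-- the intermediate graph: the pieces in `s` are replaced -/
def mid {ι : Type} (G : SimpleGraph ℕ) (P : ι → Set ℕ) (A : ι → SimpleGraph ℕ) (s : Set ι) :
    SimpleGraph ℕ :=
  off G (⋃ i, P i) ⊔ ((⨆ i, ⨆ (_ : i ∈ s), A i) ⊔ (⨆ i, ⨆ (_ : i ∉ s), inc G (P i)))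

theorem mem_supp_iSup {ι : Type} (s : Set ι) (F : ι → SimpleGraph ℕ) (t : ℕ)
    (h : t ∈ (⨆ i, ⨆ (_ : i ∈ s), F i).support) : ∃ i ∈ s, t ∈ (F i).support := by
  obtain ⟨v, hv⟩ := h
  simp only [SimpleGraph.iSup_adj] at hv
  obtain ⟨i, hi, h⟩ := hv
  exact ⟨i, hi, v, h⟩

end GReplaceAux

open GReplaceAux in
theorem replace_pieces {ι : Type} [Fintype ι] (G : SimpleGraph ℕ) (hf : G.support.Finite)
    (P : ι → Set ℕ) (hd : ∀ i j, i ≠ j → Disjoint (P i) (P j))
    (hn : ∀ i j, i ≠ j → Disjoint (nbr G (P i)) (P j)) (A : ι → SimpleGraph ℕ)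
    (hAf : ∀ i, (A i).support.Finite) (hA : ∀ i, Red (nbr G (P i)) (inc G (P i)) (A i)) :
    Planar G ↔ Planar (off G (⋃ i, P i) ⊔ ⨆ i, A i) := by
  have hG : G = mid G P A ∅ := by
    ext u v
    simp only [mid, SimpleGraph.sup_adj, SimpleGraph.iSup_adj, Set.mem_empty_iff_false,
      not_false_eq_true, IsEmpty.exists_iff, exists_const]
    constructor
    · intro h
      by_cases h1 : u ∈ ⋃ i, P i
      · obtain ⟨i, hi⟩ := Set.mem_iUnion.1 h1
        exact Or.inr (Or.inr ⟨i, h, Or.inl hi⟩)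
      · by_cases h2 : v ∈ ⋃ i, P i
        · obtain ⟨i, hi⟩ := Set.mem_iUnion.1 h2
          exact Or.inr (Or.inr ⟨i, h, Or.inr hi⟩)
        · exact Or.inl ⟨h, h1, h2⟩
    · rintro (h | ⟨i, h⟩ | ⟨i, h⟩)
      · exact h.1
      · exact h.elim
      · exact h.1
  have hend : off G (⋃ i, P i) ⊔ ⨆ i, A i = mid G P A Set.univ := by
    ext u v
    simp [mid, SimpleGraph.sup_adj, SimpleGraph.iSup_adj]
  -- where the supports are
  have hsA : ∀ i, (A i).support ⊆ nbr G (P i) ∪ P i := by
    intro i t ht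
    by_cases h1 : t ∈ nbr G (P i)
    · exact Or.inl h1
    · have h2 := (hA i).1 ⟨ht, h1⟩
      rcases supp_inc G (P i) h2.1 with h3 | h3
      · exact Or.inr h3
      · exact absurd h3 h1
  have hstep : ∀ (s : Set ι) (i : ι), i ∉ s →
      (Planar (mid G P A s) ↔ Planar (mid G P A (insert i s))) := by
    intro s i hi
    set Q : SimpleGraph ℕ := off G (⋃ i, P i) ⊔ ((⨆ j, ⨆ (_ : j ∈ s), A j) ⊔
      (⨆ j, ⨆ (_ : j ∈ (insert i s)ᶜ), inc G (P j))) with hQ
    have h1 : mid G P A s = inc G (P i) ⊔ Q := by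
      ext u v
      simp only [mid, hQ, SimpleGraph.sup_adj, SimpleGraph.iSup_adj, Set.mem_compl_iff,
        Set.mem_insert_iff, exists_prop, not_or]
      constructor
      · rintro (h | h | ⟨j, hj, h⟩)
        · exact Or.inr (Or.inl h)
        · exact Or.inr (Or.inr (Or.inl h))
        · by_cases hji : j = i
          · subst hji; exact Or.inl h
          · exact Or.inr (Or.inr (Or.inr ⟨j, ⟨hji, hj⟩, h⟩))
      · rintro (h | h | h | ⟨j, hj, h⟩)
        · exact Or.inr (Or.inr ⟨i, hi, h⟩)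
        · exact Or.inl h
        · exact Or.inr (Or.inl h)
        · exact Or.inr (Or.inr ⟨j, hj.2, h⟩)
    have h2 : mid G P A (insert i s) = A i ⊔ Q := by
      ext u v
      simp only [mid, hQ, SimpleGraph.sup_adj, SimpleGraph.iSup_adj, Set.mem_compl_iff,
        Set.mem_insert_iff, exists_prop, not_or]
      constructor
      · rintro (h | ⟨j, hj, h⟩ | ⟨j, hj, h⟩)
        · exact Or.inr (Or.inl h)
        · rcases hj with hj | hj
          · subst hj; exact Or.inl h
          · exact Or.inr (Or.inr (Or.inl ⟨j, hj, h⟩))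
        · exact Or.inr (Or.inr (Or.inr ⟨j, hj, h⟩))
      · rintro (h | h | ⟨j, hj, h⟩ | ⟨j, hj, h⟩)
        · exact Or.inr (Or.inl ⟨i, Or.inl rfl, h⟩)
        · exact Or.inl h
        · exact Or.inr (Or.inl ⟨j, Or.inr hj, h⟩)
        · exact Or.inr (Or.inr ⟨j, hj, h⟩)
    have hQs : ∀ t ∈ Q.support, t ∈ (off G (⋃ i, P i)).support ∨
        (∃ j ∈ s, t ∈ (A j).support) ∨ ∃ j ∈ (insert i s)ᶜ, t ∈ (inc G (P j)).support := by
      rintro t ⟨v, hv⟩
      rcases hv with hv | hv | hv
      · exact Or.inl ⟨v, hv⟩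
      · exact Or.inr (Or.inl (mem_supp_iSup s A t ⟨v, hv⟩))
      · exact Or.inr (Or.inr (mem_supp_iSup _ (fun j => inc G (P j)) t ⟨v, hv⟩))
    have hQf : Q.support.Finite := by
      have h3 : (G.support ∪ ⋃ j, (A j).support).Finite :=
        hf.union (Set.finite_iUnion hAf)
      refine h3.subset fun t ht => ?_
      rcases hQs t ht with h | ⟨j, _, h⟩ | ⟨j, _, h⟩
      · exact Or.inl (supp_off_sub G _ h).1
      · exact Or.inr (Set.mem_iUnion.2 ⟨j, h⟩)
      · exact Or.inl (supp_inc_sub G _ h)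
    have hQd : Disjoint Q.support ((inc G (P i)).support \ nbr G (P i)) := by
      rw [Set.disjoint_left]
      rintro t ht ⟨h3, h4⟩
      have h5 : t ∈ P i := by
        rcases supp_inc G (P i) h3 with h | h
        · exact h
        · exact absurd h h4
      have h6 : ∀ j, j ≠ i → t ∉ nbr G (P j) ∪ P j := by
        rintro j hj (h | h)
        · exact Set.disjoint_left.1 (hn j i hj) h h5
        · exact Set.disjoint_left.1 (hd j i hj) h h5
      rcases hQs t ht with h | ⟨j, hj, h⟩ | ⟨j, hj, h⟩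
      · exact (supp_off_sub G _ h).2 (Set.mem_iUnion.2 ⟨i, h5⟩)
      · exact h6 j (fun hji => hi (hji ▸ hj)) (hsA j h)
      · refine h6 j (fun hji => hj (Or.inl hji)) ?_
        rcases supp_inc G (P j) h with h | h
        · exact Or.inr h
        · exact Or.inl h
    rw [h1, h2]
    exact (hA i).2 Q hQf hQd
  have hall : ∀ s : Finset ι, (Planar (mid G P A ∅) ↔ Planar (mid G P A (s : Set ι))) := by
    intro s
    induction s using Finset.induction_on with
    | empty => rw [Finset.coe_empty]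
    | insert i s hi ih =>
      rw [ih, Finset.coe_insert]
      exact hstep (s : Set ι) i (by simpa using hi)
  have hfin := hall Finset.univ
  rw [Finset.coe_univ] at hfin
  rw [hend, ← hfin, ← hG]

/-- a piece with two attachments that cannot be replaced by an edge excludes every other
connection between them -/
theorem bad_pair {V : Type} (G : SimpleGraph V) (P P' : Set V) (a b : V) (hab : a ≠ b)
    (hP : nbr G P = {a, b}) (hc : (G.induce P').Connected) (hd : Disjoint P P')
    (ha : a ∈ nbr G P') (hb : b ∈ nbr G P')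
    (h : ¬ Planar (inc G P ⊔ SimpleGraph.edge a b)) : ¬ Planar G := by
  intro hG
  apply h
  have haP : a ∈ nbr G P := by rw [hP]; exact Or.inl rfl
  have hbP : b ∈ nbr G P := by rw [hP]; exact Or.inr rfl
  set Z : Set V := insert a P' with hZ
  have hZc : (G.induce Z).Connected := by
    obtain ⟨haP', c, hcP', hac⟩ := ha
    rw [GMinorAux.connected_iff] at hc ⊢
    have h1 : ∀ v ∈ Z, GMinorAux.RS G Z c v := by
      intro v hv
      rcases hv with hv | hv
      · rw [hv]
        exact GMinorAux.rs_single hac.symm (Or.inr hcP') (Or.inl rfl)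
      · exact GMinorAux.rs_mono le_rfl (Set.subset_insert _ _) (hc.2 c hcP' v hv)
    have h2 : ∀ v ∈ Z, GMinorAux.RS G Z v c := by
      intro v hv
      rcases hv with hv | hv
      · rw [hv]
        exact GMinorAux.rs_single hac (Or.inl rfl) (Or.inr hcP')
      · exact GMinorAux.rs_mono le_rfl (Set.subset_insert _ _) (hc.2 v hv c hcP')
    exact ⟨⟨a, Or.inl rfl⟩, fun u hu v hv => GMinorAux.rs_trans (h2 u hu) (h1 v hv)⟩
  obtain ⟨f, hfdef⟩ : ∃ f : V → V, f = fun t => if t ∈ Z then a else t := ⟨_, rfl⟩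
  have hpl : Planar (G.map f) := by
    have h1 := planar_collapse G Z a (Or.inl rfl) hZc hG
    rw [hfdef]
    convert h1 using 2
    funext t
    congr
  refine planar_mono ?_ hpl
  have hfP : ∀ t ∈ P, f t = t := by
    intro t ht
    have h1 : t ∉ Z := by
      rintro (h1 | h1)
      · exact haP.1 (h1 ▸ ht)
      · exact Set.disjoint_left.1 hd ht h1
    simp only [hfdef, if_neg h1]
  have hfa : f a = a := by
    have h1 : a ∈ Z := Or.inl rfl
    simp only [hfdef, if_pos h1]
  have hfb : f b = b := by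
    have h1 : b ∉ Z := by
      rintro (h1 | h1)
      · exact hab h1.symm
      · exact hb.1 h1
    simp only [hfdef, if_neg h1]
  have hfN : ∀ t, t ∈ P ∪ nbr G P → f t = t := by
    rintro t (ht | ht)
    · exact hfP t ht
    · rw [hP] at ht
      rcases ht with ht | ht
      · rw [ht]; exact hfa
      · rw [ht]; exact hfb
  have hadj : ∀ u v, G.Adj u v → f u ≠ f v → (G.map f).Adj (f u) (f v) := by
    intro u v huv hne
    exact SimpleGraph.map_adj_apply' huv hne
  intro u v huv
  rcases huv with huv | huv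
  · have hu : f u = u := hfN u (GReplaceAux.supp_inc G P ⟨v, huv⟩)
    have hv : f v = v := hfN v (GReplaceAux.supp_inc G P ⟨u, huv.symm⟩)
    have h1 := hadj u v huv.1 (by rw [hu, hv]; exact huv.1.ne)
    rwa [hu, hv] at h1
  · rw [SimpleGraph.edge_adj] at huv
    obtain ⟨_, c, hcP', hbc⟩ := hb
    have hfc : f c = a := by
      have h1 : c ∈ Z := Or.inr hcP'
      simp only [hfdef, if_pos h1]
    have h1 := hadj b c hbc (by rw [hfb, hfc]; exact hab.symm)
    rw [hfb, hfc] at h1
    rcases huv.1 with ⟨h2, h3⟩ | ⟨h2, h3⟩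
    · subst h2; subst h3; exact h1.symm
    · subst h2; subst h3; exact h1

end Pool.Agent.MP9d6bd1
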