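import Mathlib
import Pool.Agent.Lib.MP_9d6bd1_lc.PNewA
import Pool.Agent.Lib.MP_9d6bd1_lc.PPieceA
import Pool.Agent.Lib.MP_9d6bd1_lc.PPieceB
import Pool.Agent.Lib.MP_9d6bd1_lc.GReplace

/-!
# MP_9d6bd1_lc, module P21b: the new graph is equivalent
-/

set_option autoImplicit false

open Classical

namespace Pool.Agent.MP9d6bd1

open E

namespace PNewBAux

/-! ### renumbering -/

theorem renumber (G H : SimpleGraph ℕ) (S : Set ℕ) (hS : S.Finite) (hG : G.support ⊆ S)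
    (f : ℕ → ℕ) (hf : Set.InjOn f S)
    (hH : ∀ a b, H.Adj a b ↔ ∃ x y, G.Adj x y ∧ f x = a ∧ f y = b) : Planar H ↔ Planar G := by
  obtain ⟨M, hM⟩ : ∃ M, ∀ x ∈ S, f x < M := by
    obtain ⟨M, hM⟩ := (hS.image f).bddAbove
    exact ⟨M + 1, fun x hx => Nat.lt_succ_of_le (hM ⟨x, hx, rfl⟩)⟩
  let e : ℕ ↪ ℕ := ⟨fun x => if x ∈ S then f x else M + x, by
    intro x y hxy
    simp only at hxy
    by_cases hx : x ∈ S <;> by_cases hy : y ∈ S
    · rw [if_pos hx, if_pos hy] at hxy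
      exact hf hx hy hxy
    · rw [if_pos hx, if_neg hy] at hxy
      have := hM x hx
      omega
    · rw [if_neg hx, if_pos hy] at hxy
      have := hM y hy
      omega
    · rw [if_neg hx, if_neg hy] at hxy
      omega⟩
  have he : ∀ x ∈ S, e x = f x := fun x hx => if_pos hx
  have hHe : H = G.map e := by
    ext a b
    rw [hH, SimpleGraph.map_adj]
    constructor
    · rintro ⟨x, y, hxy, rfl, rfl⟩
      exact ⟨x, y, hxy, he x (hG ⟨y, hxy⟩), he y (hG ⟨x, hxy.symm⟩)⟩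
    · rintro ⟨x, y, hxy, rfl, rfl⟩
      exact ⟨x, y, hxy, (he x (hG ⟨y, hxy⟩)).symm, (he y (hG ⟨x, hxy.symm⟩)).symm⟩
  rw [hHe]
  exact planar_embed G e

/-! ### pieces -/

theorem gr_adj (F : FG) (u v : ℕ) (h : F.gr.Adj u v) : u < F.N ∧ v < F.N := by
  rcases h with ⟨-, h | h⟩
  · exact ⟨h.1, h.2.1⟩
  · exact ⟨h.2.1, h.1⟩

theorem ust_symm (κ : Par) (σ : St) (hG : (cur κ σ).Ok) (u y : ℕ) (hu : u < σ.g 3)
    (hm : u ∉ Rm κ σ) (h : ust κ σ u y) : ust κ σ y u := by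
  obtain ⟨j, hj, hn, hy⟩ := h
  have hyN : y < σ.g 3 := by
    rw [← hn]
    exact hG.lt u hu j hj
  have hs := hG.symm u hu y hyN
  have h1 : 0 < (cur κ σ).cnt u y := by
    refine Finset.card_pos.2 ⟨j, ?_⟩
    rw [Finset.mem_filter, Finset.mem_range]
    exact ⟨hj, hn⟩
  rw [hs] at h1
  obtain ⟨i, hi⟩ := Finset.card_pos.1 h1
  rw [Finset.mem_filter, Finset.mem_range] at hi
  exact ⟨i, hi.1, hi.2, hm⟩

theorem PC_sub (κ : Par) (σ : St) (u y : ℕ) (hy : y ∈ PC κ σ u) : PC κ σ y ⊆ PC κ σ u :=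
  fun _ hz => Relation.ReflTransGen.trans hy hz

theorem PC_symm (κ : Par) (σ : St) (hG : (cur κ σ).Ok) (u y : ℕ) (hu : u < σ.g 3)
    (hm : u ∉ Rm κ σ) (hy : y ∈ PC κ σ u) : u ∈ PC κ σ y := by
  have hy' : Relation.ReflTransGen (ust κ σ) u y := hy
  clear hy
  induction hy' with
  | refl => exact Relation.ReflTransGen.refl
  | @tail b c hab hbc ih =>
    have h1 := PPieceAAux.mem_PC κ σ hG u hu hm b hab
    exact Relation.ReflTransGen.head (ust_symm κ σ hG b c h1.1 h1.2 hbc) ih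

theorem PC_eq (κ : Par) (σ : St) (hG : (cur κ σ).Ok) (u y : ℕ) (hu : u < σ.g 3)
    (hm : u ∉ Rm κ σ) (hy : y ∈ PC κ σ u) : PC κ σ y = PC κ σ u :=
  Set.Subset.antisymm (PC_sub κ σ u y hy) (PC_sub κ σ y u (PC_symm κ σ hG u y hu hm hy))

theorem mem_Pcs (κ : Par) (σ : St) (u : ℕ) :
    u ∈ Pcs κ σ ↔ u < σ.g 3 ∧ u ∉ Rm κ σ ∧ sInf (PC κ σ u) = u := by
  rw [Pcs, Finset.mem_filter, Finset.mem_range]

theorem Pcs_inj (κ : Par) (σ : St) (hG : (cur κ σ).Ok) (u v y : ℕ) (hu : u ∈ Pcs κ σ)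
    (hv : v ∈ Pcs κ σ) (h1 : y ∈ PC κ σ u) (h2 : y ∈ PC κ σ v) : u = v := by
  rw [mem_Pcs] at hu hv
  have e1 := PC_eq κ σ hG u y hu.1 hu.2.1 h1
  have e2 := PC_eq κ σ hG v y hv.1 hv.2.1 h2
  rw [← hu.2.2, ← hv.2.2, ← e1, ← e2]

theorem exists_Pcs (κ : Par) (σ : St) (hG : (cur κ σ).Ok) (x : ℕ) (hx : x < σ.g 3)
    (hm : x ∉ Rm κ σ) : ∃ u ∈ Pcs κ σ, x ∈ PC κ σ u := by
  have hxx : x ∈ PC κ σ x := Relation.ReflTransGen.refl
  have h1 : sInf (PC κ σ x) ∈ PC κ σ x := Nat.sInf_mem ⟨x, hxx⟩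
  have h2 := PPieceAAux.mem_PC κ σ hG x hx hm _ h1
  have h3 := PC_eq κ σ hG x _ hx hm h1
  refine ⟨sInf (PC κ σ x), ?_, ?_⟩
  · rw [mem_Pcs]
    refine ⟨h2.1, h2.2, ?_⟩
    rw [h3]
  · rw [h3]
    exact hxx

/-! ### ranks -/

theorem Rm_fin (κ : Par) (σ : St) : (Rm κ σ).Finite :=
  (Set.finite_lt_nat (σ.g 3)).subset fun _ hy => hy.1

theorem rank_lt (κ : Par) (σ : St) (x : ℕ) (hx : x ∈ Rm κ σ) :
    rank κ σ x < (Rm κ σ).ncard := by
  refine Set.ncard_lt_ncard ⟨Set.inter_subset_left, fun h => ?_⟩ (Rm_fin κ σ)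
  have := (h hx).2
  exact lt_irrefl x this

theorem rank_mono (κ : Par) (σ : St) (x y : ℕ) (hx : x ∈ Rm κ σ) (h : x < y) :
    rank κ σ x < rank κ σ y := by
  refine Set.ncard_lt_ncard ⟨fun z hz => ⟨hz.1, lt_trans hz.2 h⟩, fun h2 => ?_⟩
    ((Rm_fin κ σ).subset Set.inter_subset_left)
  have h3 : x ∈ Rm κ σ ∩ {z | z < x} := h2 ⟨hx, h⟩
  exact lt_irrefl x h3.2

theorem rank_inj (κ : Par) (σ : St) (x y : ℕ) (hx : x ∈ Rm κ σ) (hy : y ∈ Rm κ σ)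
    (h : rank κ σ x = rank κ σ y) : x = y := by
  rcases lt_trichotomy x y with h1 | h1 | h1
  · have := rank_mono κ σ x y hx h1
    omega
  · exact h1
  · have := rank_mono κ σ y x hy h1
    omega

theorem mem_Gds (κ : Par) (σ : St) (u : ℕ) : u ∈ Gds κ σ ↔ u ∈ Pcs κ σ ∧ isGad κ σ u := by
  rw [Gds, Finset.mem_filter]

theorem base_mono (C : ℕ) (κ : Par) (σ : St) (u v : ℕ) (hu : u ∈ Gds κ σ) (h : u < v) :
    base C κ σ u + lg C κ σ u ≤ base C κ σ v := by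
  have h1 : insert u ((Gds κ σ).filter (fun w => w < u)) ⊆ (Gds κ σ).filter (fun w => w < v) := by
    intro w hw
    rw [Finset.mem_insert] at hw
    rw [Finset.mem_filter]
    rcases hw with hw | hw
    · rw [hw]
      exact ⟨hu, h⟩
    · rw [Finset.mem_filter] at hw
      exact ⟨hw.1, by omega⟩
  have h2 : ∑ w ∈ insert u ((Gds κ σ).filter (fun w => w < u)), lg C κ σ w ≤
      ∑ w ∈ (Gds κ σ).filter (fun w => w < v), lg C κ σ w :=
    Finset.sum_le_sum_of_subset h1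
  rw [Finset.sum_insert (by simp)] at h2
  simp only [base]
  omega

theorem le_base (C : ℕ) (κ : Par) (σ : St) (u : ℕ) : (Rm κ σ).ncard ≤ base C κ σ u :=
  Nat.le_add_right _ _

/-- `x` is the vertex number `a` of the gadget of the piece of `u` -/
def isLoc (C : ℕ) (κ : Par) (σ : St) (x : ℕ) (p : ℕ × ℕ) : Prop :=
  p.1 ∈ Gds κ σ ∧ kk κ σ p.1 ≤ p.2 ∧ p.2 < kk κ σ p.1 + lg C κ σ p.1 ∧ nmf κ σ p.1 p.2 = x

/-- the renumbering -/
noncomputable def ren (C : ℕ) (κ : Par) (σ : St) (x : ℕ) : ℕ :=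
  if x ∈ Rm κ σ then rank κ σ x else
    if h : ∃ p, isLoc C κ σ x p then newn C κ σ h.choose.1 h.choose.2 else 0

/-- the vertices that get a number -/
def supp (C : ℕ) (κ : Par) (σ : St) : Set ℕ := Rm κ σ ∪ {x | ∃ p, isLoc C κ σ x p}

section main

variable (C : ℕ) (κ : Par) (σ : St) (hP : POk κ σ) (hG : (cur κ σ).Ok) (hR : ROk κ σ)

include hP hG hR

theorem nmf_T (u a : ℕ) (hu : u ∈ Pcs κ σ) (ha : a < kk κ σ u) : nmf κ σ u a ∈ TT κ σ u := by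
  rw [mem_Pcs] at hu
  exact (nm_spec κ σ hP hG hR u hu.1 hu.2.1).1.mapsTo ha

theorem nmf_P (u a : ℕ) (hu : u ∈ Pcs κ σ) (ha : kk κ σ u ≤ a) (ha' : a < kk κ σ u + ll κ σ u) :
    nmf κ σ u a ∈ PC κ σ u := by
  rw [mem_Pcs] at hu
  exact (nm_spec κ σ hP hG hR u hu.1 hu.2.1).2.mapsTo ⟨ha, ha'⟩

theorem lg_le (u : ℕ) : lg C κ σ u ≤ ll κ σ u := by
  have := hP
  have := hG
  have := hR
  exact Nat.min_le_left _ _

theorem loc_uniq (x : ℕ) (p q : ℕ × ℕ) (hp : isLoc C κ σ x p) (hq : isLoc C κ σ x q) :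
    p = q := by
  obtain ⟨p1, p2, p3, p4⟩ := hp
  obtain ⟨q1, q2, q3, q4⟩ := hq
  have hp1 := ((mem_Gds κ σ _).1 p1).1
  have hq1 := ((mem_Gds κ σ _).1 q1).1
  have e1 := lg_le C κ σ hP hG hR p.1
  have e2 := lg_le C κ σ hP hG hR q.1
  have hpx := nmf_P κ σ hP hG hR p.1 p.2 hp1 p2 (by omega)
  have hqx := nmf_P κ σ hP hG hR q.1 q.2 hq1 q2 (by omega)
  rw [p4] at hpx
  rw [q4] at hqx
  have h1 := Pcs_inj κ σ hG _ _ x hp1 hq1 hpx hqx
  have hp1' := (mem_Pcs κ σ _).1 hp1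
  have hinj := (nm_spec κ σ hP hG hR p.1 hp1'.1 hp1'.2.1).2.injOn
  refine Prod.ext h1 (hinj ⟨p2, by omega⟩ ⟨?_, ?_⟩ ?_)
  · rw [h1]
    exact q2
  · rw [h1]
    omega
  · rw [p4, h1, q4]

theorem loc_not_Rm (x : ℕ) (p : ℕ × ℕ) (hp : isLoc C κ σ x p) : x ∉ Rm κ σ := by
  obtain ⟨p1, p2, p3, p4⟩ := hp
  have hp1 := ((mem_Gds κ σ _).1 p1).1
  have e1 := lg_le C κ σ hP hG hR p.1
  have hpx := nmf_P κ σ hP hG hR p.1 p.2 hp1 p2 (by omega)
  rw [p4] at hpx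
  have hp1' := (mem_Pcs κ σ _).1 hp1
  exact (PPieceAAux.mem_PC κ σ hG p.1 hp1'.1 hp1'.2.1 x hpx).2

theorem ren_loc (x : ℕ) (p : ℕ × ℕ) (hp : isLoc C κ σ x p) :
    ren C κ σ x = base C κ σ p.1 + (p.2 - kk κ σ p.1) := by
  have h1 := loc_not_Rm C κ σ hP hG hR x p hp
  have h2 : ∃ p, isLoc C κ σ x p := ⟨p, hp⟩
  have h3 := loc_uniq C κ σ hP hG hR x _ p h2.choose_spec hp
  rw [ren, if_neg h1, dif_pos h2, h3, newn, if_neg (by have := hp.2.1; omega)]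

theorem ren_nmf (u a : ℕ) (hu : u ∈ Gds κ σ) (ha : a < kk κ σ u + lg C κ σ u) :
    ren C κ σ (nmf κ σ u a) = newn C κ σ u a ∧ nmf κ σ u a ∈ supp C κ σ := by
  by_cases h : a < kk κ σ u
  · have h1 := nmf_T κ σ hP hG hR u a ((mem_Gds κ σ _).1 hu).1 h
    refine ⟨?_, Or.inl h1.1⟩
    rw [ren, if_pos h1.1, newn, if_pos h]
  · have h1 : isLoc C κ σ (nmf κ σ u a) (u, a) := ⟨hu, by simpa using h, ha, rfl⟩
    refine ⟨?_, Or.inr ⟨_, h1⟩⟩
    rw [ren_loc C κ σ hP hG hR _ _ h1, newn, if_neg h]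

theorem ren_inj : Set.InjOn (ren C κ σ) (supp C κ σ) := by
  have key : ∀ x y, x ∈ Rm κ σ → (∃ p, isLoc C κ σ y p) → ren C κ σ x < ren C κ σ y := by
    rintro x y hx ⟨p, hp⟩
    rw [ren, if_pos hx, ren_loc C κ σ hP hG hR y p hp]
    have h1 := rank_lt κ σ x hx
    have h2 := le_base C κ σ p.1
    omega
  rintro x (hx | ⟨p, hp⟩) y (hy | ⟨q, hq⟩) hxy
  · rw [ren, if_pos hx, ren, if_pos hy] at hxy
    exact rank_inj κ σ x y hx hy hxy
  · have := key x y hx ⟨q, hq⟩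
    omega
  · have := key y x hy ⟨p, hp⟩
    omega
  · rw [ren_loc C κ σ hP hG hR x p hp, ren_loc C κ σ hP hG hR y q hq] at hxy
    obtain ⟨p1, p2, p3, p4⟩ := hp
    obtain ⟨q1, q2, q3, q4⟩ := hq
    rcases lt_trichotomy p.1 q.1 with h1 | h1 | h1
    · have := base_mono C κ σ p.1 q.1 p1 h1
      omega
    · rw [h1] at hxy p2 p3
      have h2 : p.2 = q.2 := by omega
      rw [← p4, ← q4, h1, h2]
    · have := base_mono C κ σ q.1 p.1 q1 h1
      omega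

end main

end PNewBAux

open PNewBAux in
theorem new_planar (C : ℕ) (hC : ∀ (T : Set ℕ) (A : SimpleGraph ℕ), T.Finite →
      A.support.Finite → Irr T A → rho T A ≤ C * (T.ncard + 1))
    (κ : Par) (σ : St) (hP : POk κ σ) (hG : (cur κ σ).Ok) (hR : ROk κ σ)
    (hb : ∀ u ∈ Pcs κ σ, ¬ isBad κ σ u) :
    Planar (newG C κ σ) ↔ Planar (cur κ σ).gr := by
  obtain ⟨A, hA⟩ : ∃ A : ℕ → SimpleGraph ℕ, A = fun u =>
      (if isGad κ σ u then (gadg C κ σ u).map (nmf κ σ u) else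
        if isThin κ σ u then SimpleGraph.edge (nmf κ σ u 0) (nmf κ σ u 1) else ⊥) := ⟨_, rfl⟩
  have hred : ∀ u ∈ Pcs κ σ, nbr (cur κ σ).gr (PC κ σ u) = TT κ σ u ∧
      Red (TT κ σ u) (inc (cur κ σ).gr (PC κ σ u)) (A u) := by
    intro u hu
    have := piece_red C hC κ σ hP hG hR u hu (hb u hu)
    rw [hA]
    exact this
  have hgf : (cur κ σ).gr.support.Finite :=
    (Set.finite_lt_nat (σ.g 3)).subset fun x ⟨y, hxy⟩ => (gr_adj _ x y hxy).1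
  have hPR : ∀ u ∈ Pcs κ σ, ∀ y ∈ PC κ σ u, y < σ.g 3 ∧ y ∉ Rm κ σ := by
    intro u hu
    rw [mem_Pcs] at hu
    exact PPieceAAux.mem_PC κ σ hG u hu.1 hu.2.1
  have h1 : Planar (cur κ σ).gr ↔
      Planar (off (cur κ σ).gr (⋃ i : {u // u ∈ Pcs κ σ}, PC κ σ i.1) ⊔
        ⨆ i : {u // u ∈ Pcs κ σ}, A i.1) := by
    refine replace_pieces (cur κ σ).gr hgf (fun i : {u // u ∈ Pcs κ σ} => PC κ σ i.1) ?_ ?_
      (fun i => A i.1) ?_ ?_
    · intro i j hij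
      rw [Set.disjoint_left]
      intro y h1 h2
      exact hij (Subtype.ext (Pcs_inj κ σ hG _ _ y i.2 j.2 h1 h2))
    · intro i j hij
      rw [(hred i.1 i.2).1, Set.disjoint_left]
      intro y h1 h2
      exact (hPR j.1 j.2 y h2).2 h1.1
    · intro i
      have h1 := (hred i.1 i.2).2.1
      have h2 : (A i.1).support ⊆ TT κ σ i.1 ∪ (cur κ σ).gr.support := by
        intro x hx
        by_cases h3 : x ∈ TT κ σ i.1
        · exact Or.inl h3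
        · exact Or.inr (GReplaceAux.supp_inc_sub _ _ (h1 ⟨hx, h3⟩).1)
      exact ((PPieceAAux.TT_fin κ σ i.1).union hgf).subset h2
    · intro i
      have := hred i.1 i.2
      rw [this.1]
      exact this.2
  rw [h1]
  -- adjacency in the gadgets
  have hgadlt : ∀ u a b, (gadg C κ σ u).Adj a b →
      a < kk κ σ u + lg C κ σ u ∧ b < kk κ σ u + lg C κ σ u := by
    intro u a b hab
    rcases hab with ⟨-, h | h⟩
    · exact ⟨h.1, h.2.1⟩
    · exact ⟨h.2.1, h.1⟩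
  have hthin : ∀ u ∈ Pcs κ σ, isThin κ σ u →
      TT κ σ u = {nmf κ σ u 0, nmf κ σ u 1} ∧ nmf κ σ u 0 ≠ nmf κ σ u 1 := by
    intro u hu ht
    have hu' := (mem_Pcs κ σ u).1 hu
    have hb := (nm_spec κ σ hP hG hR u hu'.1 hu'.2.1).1
    have hk : kk κ σ u = 2 := ht.1
    constructor
    · rw [← hb.image_eq, hk]
      ext y
      simp only [Set.mem_image, Set.mem_ofPred_eq, Set.mem_insert_iff, Set.mem_singleton_iff]
      constructor
      · rintro ⟨a, ha, rfl⟩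
        interval_cases a
        · exact Or.inl rfl
        · exact Or.inr rfl
      · rintro (rfl | rfl)
        · exact ⟨0, by omega, rfl⟩
        · exact ⟨1, by omega, rfl⟩
    · intro h
      have h2 := hb.injOn (show (0 : ℕ) ∈ {a | a < kk κ σ u} by rw [Set.mem_ofPred_eq, hk]; omega)
        (show (1 : ℕ) ∈ {a | a < kk κ σ u} by rw [Set.mem_ofPred_eq, hk]; omega) h
      omega
  have hAadj : ∀ u ∈ Pcs κ σ, ∀ x y, (A u).Adj x y ↔
      (u ∈ Gds κ σ ∧ ∃ a b, (gadg C κ σ u).Adj a b ∧ x = nmf κ σ u a ∧ y = nmf κ σ u b ∧ x ≠ y) ∨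
      (isThin κ σ u ∧ x ≠ y ∧ TT κ σ u = {x, y}) := by
    intro u hu x y
    rw [hA]
    simp only
    by_cases hg : isGad κ σ u
    · rw [if_pos hg, SimpleGraph.map_adj']
      have hnt : ¬ isThin κ σ u := hg.2
      constructor
      · rintro ⟨h1, a, b, h2, h3, h4⟩
        exact Or.inl ⟨(mem_Gds κ σ u).2 ⟨hu, hg⟩, a, b, h2, h3.symm, h4.symm, h1⟩
      · rintro (⟨-, a, b, h2, h3, h4, h5⟩ | h)
        · exact ⟨h5, a, b, h2, h3.symm, h4.symm⟩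
        · exact absurd h.1 hnt
    · rw [if_neg hg]
      have hng : u ∉ Gds κ σ := fun h => hg ((mem_Gds κ σ u).1 h).2
      by_cases ht : isThin κ σ u
      · rw [if_pos ht, SimpleGraph.edge_adj]
        obtain ⟨e1, e2⟩ := hthin u hu ht
        constructor
        · rintro ⟨⟨rfl, rfl⟩ | ⟨rfl, rfl⟩, h2⟩
          · exact Or.inr ⟨ht, h2, e1⟩
          · exact Or.inr ⟨ht, h2, e1.trans (Set.pair_comm _ _)⟩
        · rintro (h | ⟨-, h2, h3⟩)
          · exact absurd h.1 hng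
          · rw [e1] at h3
            refine ⟨?_, h2⟩
            have h4 : nmf κ σ u 0 ∈ ({x, y} : Set ℕ) := by rw [← h3]; exact Or.inl rfl
            have h5 : nmf κ σ u 1 ∈ ({x, y} : Set ℕ) := by rw [← h3]; exact Or.inr rfl
            rcases h4 with h4 | h4 <;> rcases h5 with h5 | h5
            · exact absurd (h4.trans h5.symm) e2
            · exact Or.inl ⟨Eq.symm h4, Eq.symm h5⟩
            · exact Or.inr ⟨Eq.symm h5, Eq.symm h4⟩
            · exact absurd (Eq.trans h4 (Eq.symm h5)) e2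
      · rw [if_neg ht]
        constructor
        · intro h
          exact h.elim
        · rintro (h | h)
          · exact absurd h.1 hng
          · exact absurd h.1 ht
  have hoff : ∀ x y, (off (cur κ σ).gr (⋃ i : {u // u ∈ Pcs κ σ}, PC κ σ i.1)).Adj x y ↔
      (cur κ σ).gr.Adj x y ∧ x ∈ Rm κ σ ∧ y ∈ Rm κ σ := by
    intro x y
    have h2 : ∀ z, z < σ.g 3 → (z ∉ (⋃ i : {u // u ∈ Pcs κ σ}, PC κ σ i.1) ↔ z ∈ Rm κ σ) := by
      intro z hz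
      constructor
      · intro h
        by_contra h3
        obtain ⟨u, hu, hzu⟩ := exists_Pcs κ σ hG z hz h3
        exact h (Set.mem_iUnion.2 ⟨⟨u, hu⟩, hzu⟩)
      · intro h h3
        obtain ⟨i, hi⟩ := Set.mem_iUnion.1 h3
        exact (hPR i.1 i.2 z hi).2 h
    constructor
    · rintro ⟨h3, h4, h5⟩
      have h6 := gr_adj _ x y h3
      exact ⟨h3, (h2 x h6.1).1 h4, (h2 y h6.2).1 h5⟩
    · rintro ⟨h3, h4, h5⟩
      have h6 := gr_adj _ x y h3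
      exact ⟨h3, (h2 x h6.1).2 h4, (h2 y h6.2).2 h5⟩
  have hsub : ∀ x y, (off (cur κ σ).gr (⋃ i : {u // u ∈ Pcs κ σ}, PC κ σ i.1) ⊔
        ⨆ i : {u // u ∈ Pcs κ σ}, A i.1).Adj x y ↔
      (∃ u ∈ Gds κ σ, ∃ a b, (gadg C κ σ u).Adj a b ∧ x = nmf κ σ u a ∧ y = nmf κ σ u b ∧
        x ≠ y) ∨ s(x, y) ∈ prs κ σ := by
    intro x y
    rw [SimpleGraph.sup_adj, SimpleGraph.iSup_adj, hoff]
    constructor
    · rintro (⟨h2, h3, h4⟩ | ⟨i, hi⟩)
      · exact Or.inr ⟨x, y, h2.ne, h3, h4, rfl, Or.inl h2⟩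
      · rcases (hAadj i.1 i.2 x y).1 hi with ⟨h2, h3⟩ | ⟨h2, h3, h4⟩
        · exact Or.inl ⟨i.1, h2, h3⟩
        · have hx : x ∈ TT κ σ i.1 := by rw [h4]; exact Or.inl rfl
          have hy : y ∈ TT κ σ i.1 := by rw [h4]; exact Or.inr rfl
          exact Or.inr ⟨x, y, h3, hx.1, hy.1, rfl, Or.inr ⟨i.1, i.2, h2, h4⟩⟩
    · rintro (⟨u, hu, h2⟩ | ⟨a, b, hab, ha, hb, he, h2⟩)
      · have hu' := ((mem_Gds κ σ u).1 hu).1
        exact Or.inr ⟨⟨u, hu'⟩, (hAadj u hu' x y).2 (Or.inl ⟨hu, h2⟩)⟩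
      · rw [Sym2.eq_iff] at he
        rcases h2 with h2 | ⟨u, hu, h3, h4⟩
        · left
          rcases he with ⟨rfl, rfl⟩ | ⟨rfl, rfl⟩
          · exact ⟨h2, ha, hb⟩
          · exact ⟨h2.symm, hb, ha⟩
        · right
          refine ⟨⟨u, hu⟩, (hAadj u hu x y).2 (Or.inr ⟨h3, ?_⟩)⟩
          rcases he with ⟨rfl, rfl⟩ | ⟨rfl, rfl⟩
          · exact ⟨hab, h4⟩
          · exact ⟨hab.symm, h4.trans (Set.pair_comm _ _)⟩
  have hprs : ∀ x y, s(x, y) ∈ prs κ σ → x ∈ Rm κ σ ∧ y ∈ Rm κ σ ∧ x ≠ y := by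
    rintro x y ⟨a, b, hab, ha, hb, he, -⟩
    rw [Sym2.eq_iff] at he
    rcases he with ⟨rfl, rfl⟩ | ⟨rfl, rfl⟩
    · exact ⟨ha, hb, hab⟩
    · exact ⟨hb, ha, hab.symm⟩
  have hinj := ren_inj C κ σ hP hG hR
  have hsupp : ∀ x y, (off (cur κ σ).gr (⋃ i : {u // u ∈ Pcs κ σ}, PC κ σ i.1) ⊔
        ⨆ i : {u // u ∈ Pcs κ σ}, A i.1).Adj x y → x ∈ supp C κ σ := by
    intro x y hxy
    rcases (hsub x y).1 hxy with ⟨u, hu, a, b, hab, rfl, -, -⟩ | h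
    · exact (ren_nmf C κ σ hP hG hR u a hu (hgadlt u a b hab).1).2
    · exact Or.inl (hprs x y h).1
  refine renumber _ _ (supp C κ σ) ?_ ?_ (ren C κ σ) hinj ?_
  · refine (Set.finite_lt_nat (σ.g 3)).subset ?_
    rintro x (hx | ⟨p, hp⟩)
    · exact hx.1
    · have hp1 := ((mem_Gds κ σ _).1 hp.1).1
      have e1 := lg_le C κ σ hP hG hR p.1
      have hpx := nmf_P κ σ hP hG hR p.1 p.2 hp1 hp.2.1 (by have := hp.2.2.1; omega)
      rw [hp.2.2.2] at hpx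
      exact (hPR p.1 hp1 x hpx).1
  · rintro x ⟨y, hxy⟩
    exact hsupp x y hxy
  · intro n m
    constructor
    · rintro ⟨hnm, h⟩
      have key : ∀ n m, ((∃ u ∈ Gds κ σ, ∃ a b, (gadg C κ σ u).Adj a b ∧
            n = newn C κ σ u a ∧ m = newn C κ σ u b) ∨
          (∃ a b, s(a, b) ∈ prs κ σ ∧ n = rank κ σ a ∧ m = rank κ σ b)) → n ≠ m →
          ∃ x y, (off (cur κ σ).gr (⋃ i : {u // u ∈ Pcs κ σ}, PC κ σ i.1) ⊔
            ⨆ i : {u // u ∈ Pcs κ σ}, A i.1).Adj x y ∧ ren C κ σ x = n ∧ ren C κ σ y = m := by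
        rintro n m (⟨u, hu, a, b, hab, rfl, rfl⟩ | ⟨a, b, hab, rfl, rfl⟩) hnm
        · have hlt := hgadlt u a b hab
          have ha := (ren_nmf C κ σ hP hG hR u a hu hlt.1).1
          have hb := (ren_nmf C κ σ hP hG hR u b hu hlt.2).1
          refine ⟨nmf κ σ u a, nmf κ σ u b, (hsub _ _).2 (Or.inl ⟨u, hu, a, b, hab, rfl, rfl, ?_⟩),
            ha, hb⟩
          intro h
          apply hnm
          rw [← ha, ← hb, h]
        · have h2 := hprs a b hab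
          refine ⟨a, b, (hsub _ _).2 (Or.inr hab), ?_, ?_⟩
          · rw [ren, if_pos h2.1]
          · rw [ren, if_pos h2.2.1]
      rcases h with h | h
      · exact key n m h hnm
      · obtain ⟨x, y, hxy, h2, h3⟩ := key m n h hnm.symm
        exact ⟨y, x, hxy.symm, h3, h2⟩
    · rintro ⟨x, y, hxy, rfl, rfl⟩
      refine ⟨?_, ?_⟩
      · intro h
        exact hxy.ne (hinj (hsupp x y hxy) (hsupp y x hxy.symm) h)
      · left
        rcases (hsub x y).1 hxy with ⟨u, hu, a, b, hab, rfl, rfl, -⟩ | h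
        · have hlt := hgadlt u a b hab
          exact Or.inl ⟨u, hu, a, b, hab, (ren_nmf C κ σ hP hG hR u a hu hlt.1).1,
            (ren_nmf C κ σ hP hG hR u b hu hlt.2).1⟩
        · have h2 := hprs x y h
          refine Or.inr ⟨x, y, h, ?_, ?_⟩
          · rw [ren, if_pos h2.1]
          · rw [ren, if_pos h2.2.1]

end Pool.Agent.MP9d6bd1
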