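import Mathlib
import Pool.Agent.Lib.MP_9d6bd1_lc.Spec
import Pool.Agent.Lib.MP_9d6bd1_lc.EvLib
import Pool.Agent.Lib.MP_9d6bd1_lc.RunLib

/-!
# MP_9d6bd1_lc, module P10: bit arrays
-/

set_option autoImplicit false

open Classical

namespace Pool.Agent.MP9d6bd1

open E

namespace PBitsAux

theorem digit_mod (y r s : ℕ) (h : s < r) : y % 2 ^ r / 2 ^ s % 2 = y / 2 ^ s % 2 := by
  obtain ⟨d, rfl⟩ : ∃ d, r = s + 1 + d := ⟨r - (s + 1), by omega⟩
  have e1 : y % 2 ^ (s + 1 + d) % 2 ^ (s + 1) = y % 2 ^ (s + 1) :=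
    Nat.mod_mod_of_dvd _ (pow_dvd_pow 2 (by omega))
  have key : ∀ a : ℕ, a / 2 ^ s % 2 = a % 2 ^ (s + 1) / 2 ^ s := by
    intro a
    rw [pow_succ, Nat.mod_mul_right_div_self]
  rw [key, key, e1]

theorem digit_set (z r s x : ℕ) (hx : x < 2) :
    (z - z / 2 ^ r % 2 * 2 ^ r + x * 2 ^ r) / 2 ^ s % 2 =
      if s = r then x else z / 2 ^ s % 2 := by
  obtain ⟨A, hA⟩ : ∃ A, A = z / 2 ^ r := ⟨_, rfl⟩
  obtain ⟨t, ht⟩ : ∃ t, t = z % 2 ^ r := ⟨_, rfl⟩
  obtain ⟨P, hP⟩ : ∃ P, P = 2 ^ r := ⟨_, rfl⟩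
  have hP0 : 0 < P := by rw [hP]; positivity
  have htP : t < P := by rw [ht, hP]; exact Nat.mod_lt _ (by positivity)
  have hz : z = P * A + t := by rw [hP, hA, ht]; exact (Nat.div_add_mod _ _).symm
  have hA2 : A = 2 * (A / 2) + A % 2 := (Nat.div_add_mod A 2).symm
  have hz' : z - z / 2 ^ r % 2 * 2 ^ r + x * 2 ^ r = P * (2 * (A / 2) + x) + t := by
    rw [← hA, ← hP]
    have e1 : z = P * (2 * (A / 2)) + A % 2 * P + t := by
      conv_lhs => rw [hz, hA2]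
      ring
    have e2 : P * (2 * (A / 2) + x) = P * (2 * (A / 2)) + x * P := by ring
    rw [e2]
    omega
  have hdiv : (P * (2 * (A / 2) + x) + t) / P = 2 * (A / 2) + x := by
    rw [Nat.mul_add_div hP0, Nat.div_eq_of_lt htP, Nat.add_zero]
  rw [hz']
  by_cases h : s = r
  · subst h
    rw [if_pos rfl, ← hP, hdiv]
    omega
  · rw [if_neg h]
    rcases Nat.lt_or_gt_of_ne h with h1 | h1
    · have e1 := digit_mod (P * (2 * (A / 2) + x) + t) r s h1
      have e2 := digit_mod z r s h1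
      have e3 : (P * (2 * (A / 2) + x) + t) % 2 ^ r = t := by
        rw [← hP, Nat.mul_add_mod, Nat.mod_eq_of_lt htP]
      rw [e3] at e1
      rw [← ht] at e2
      rw [← e1, ← e2]
    · obtain ⟨d, rfl⟩ : ∃ d, s = r + (1 + d) := ⟨s - (r + 1), by omega⟩
      rw [pow_add, pow_add, pow_one, ← Nat.div_div_eq_div_mul, ← Nat.div_div_eq_div_mul,
        ← Nat.div_div_eq_div_mul, ← Nat.div_div_eq_div_mul, ← hP, hdiv]
      have e1 : (2 * (A / 2) + x) / 2 = A / 2 := by omega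
      rw [e1, hP, ← hA]

theorem set_lt (z r x q : ℕ) (hx : x < 2) (hr : r < q) (hz : z < 2 ^ q) :
    z - z / 2 ^ r % 2 * 2 ^ r + x * 2 ^ r < 2 ^ q := by
  refine Nat.lt_pow_two_of_testBit _ fun i hi => ?_
  rw [Nat.testBit_eq_decide_div_mod_eq, digit_set z r i x hx, if_neg (by omega),
    Nat.div_eq_of_lt (lt_of_lt_of_le hz (Nat.pow_le_pow_right (by norm_num) hi))]
  rfl

theorem bt_eq (κ : Par) (σ : St) (b : Fin 16) (i : ℕ) (hq1 : 1 ≤ σ.g 8) (hq3 : σ.g 8 < κ.lim)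
    (hpow : ∀ r ≤ σ.g 8, σ.m 11 r = 2 ^ r) :
    bt κ σ b i = (if i / σ.g 8 < κ.lim then σ.m b (i / σ.g 8) else 0) / 2 ^ (i % σ.g 8) % 2 := by
  have h1 : i % σ.g 8 < σ.g 8 := Nat.mod_lt _ hq1
  simp only [bt, bitE, ev_mod, ev_div, ev_ld, ev_v, ev_g, ev_ofNat, List.getD_cons_zero]
  rw [if_pos (show i % σ.g 8 < κ.lim by omega), hpow _ h1.le]

end PBitsAux

open PBitsAux

theorem bt_lt (κ : Par) (σ : St) (b : Fin 16) (i : ℕ) : bt κ σ b i < 2 := by
  simp only [bt, bitE, ev_mod, ev_ofNat]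
  exact Nat.mod_lt _ (by norm_num)

theorem setb_spec (κ : Par) (σ : St) (hP : POk κ σ) (b : Fin 16) (hb : b ≠ 11) (i v : E) (a x n : ℕ)
    (hi : ∀ l, i.ev κ σ l = a) (hv : v.ev κ σ [] = x) (hx : x < 2) (ha : a < n)
    (hl : n / σ.g 8 < κ.lim) (hw : ∀ r, σ.m b r < 2 ^ σ.g 8) :
    (∀ k, bt κ ((setb b i v).run κ σ) b k = if k = a then x else bt κ σ b k) ∧
    (∀ r, ((setb b i v).run κ σ).m b r < 2 ^ σ.g 8) := by
  have hq1 := hP.q1
  have hq2 := hP.q2
  have hq3 := hP.q3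
  have hpow := hP.pow
  have hal : a / σ.g 8 < κ.lim := lt_of_le_of_lt (Nat.div_le_div_right ha.le) hl
  have har : a % σ.g 8 < σ.g 8 := Nat.mod_lt _ hq1
  obtain ⟨z, hz⟩ : ∃ z, z = σ.m b (a / σ.g 8) := ⟨_, rfl⟩
  obtain ⟨r, hr⟩ : ∃ r, r = a % σ.g 8 := ⟨_, rfl⟩
  have hzlt : z < 2 ^ σ.g 8 := by rw [hz]; exact hw _
  have hrlt : r < σ.g 8 := by rw [hr]; exact har
  have hbit : (call1 (bitE b) i).ev κ σ [] = z / 2 ^ r % 2 := by
    rw [ev_call1, hi]
    have := bt_eq κ σ b a hq1 hq3 hpow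
    rw [if_pos hal, ← hz, ← hr] at this
    exact this
  have hlt := set_lt z r x (σ.g 8) hx hrlt hzlt
  have hrun : (setb b i v).run κ σ = ⟨σ.g, Function.update σ.m b
      (Function.update (σ.m b) (a / σ.g 8) (z - z / 2 ^ r % 2 * 2 ^ r + x * 2 ^ r))⟩ := by
    have e1 : (i / (.g 8 : E)).ev κ σ [] = a / σ.g 8 := by rw [ev_div, hi, ev_g]
    have e2 : (E.ld 11 (i % (.g 8 : E))).ev κ σ [] = 2 ^ r := by
      rw [ev_ld, ev_mod, hi, ev_g, if_pos (by omega), hpow _ har.le, hr]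
    have e3 : (E.ld b (i / (.g 8 : E))).ev κ σ [] = z := by
      rw [ev_ld, e1, if_pos hal, hz]
    simp only [setb, S.run, e1, if_pos hal]
    rw [ev_add, ev_sub, ev_mul, ev_mul, e3, hbit, e2, hv,
      min_eq_left (hlt.le.trans hq2)]
  rw [hrun]
  have hm11 : (Function.update σ.m b (Function.update (σ.m b) (a / σ.g 8)
      (z - z / 2 ^ r % 2 * 2 ^ r + x * 2 ^ r))) 11 = σ.m 11 :=
    Function.update_of_ne (Ne.symm hb) _ _
  constructor
  · intro k
    have hnew := bt_eq κ ⟨σ.g, Function.update σ.m b (Function.update (σ.m b) (a / σ.g 8)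
      (z - z / 2 ^ r % 2 * 2 ^ r + x * 2 ^ r))⟩ b k hq1 hq3
      (by intro s hs; change (Function.update σ.m b _) 11 s = _; rw [hm11]; exact hpow s hs)
    rw [hnew, bt_eq κ σ b k hq1 hq3 hpow]
    simp only [Function.update_self]
    by_cases h : k / σ.g 8 = a / σ.g 8
    · rw [h, Function.update_self, if_pos hal, if_pos hal, digit_set z r _ x hx, ← hz]
      by_cases h2 : k % σ.g 8 = r
      · have hka : k = a := by
          rw [← Nat.div_add_mod k (σ.g 8), ← Nat.div_add_mod a (σ.g 8), h, h2, hr]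
        rw [if_pos h2, if_pos hka]
      · have hka : k ≠ a := fun hh => h2 (by rw [hh, hr])
        rw [if_neg h2, if_neg hka]
    · have hka : k ≠ a := fun hh => h (by rw [hh])
      rw [Function.update_of_ne h, if_neg hka]
  · intro s
    simp only [Function.update_self]
    by_cases h : s = a / σ.g 8
    · rw [h, Function.update_self]
      exact hlt
    · rw [Function.update_of_ne h]
      exact hw s

theorem clr_spec (κ : Par) (σ : St) (hP : POk κ σ) (b : Fin 16) (hb : b ≠ 11) (n : E) (m : ℕ)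
    (hn : n.ev κ σ [] = m)
    (hl : m / σ.g 8 < κ.lim) (hm : m / σ.g 8 < κ.top) (hw : ∀ r, σ.m b r < 2 ^ σ.g 8) :
    (∀ k < m, bt κ ((clr b n).run κ σ) b k = 0) ∧
    (∀ r, ((clr b n).run κ σ).m b r < 2 ^ σ.g 8) := by
  have hcnt : min ((n / (.g 8 : E) + 1).ev κ σ []) κ.top = m / σ.g 8 + 1 := by
    rw [ev_add, ev_div, hn, ev_g, ev_one]
    exact min_eq_left hm
  have key := loop_inv κ 23 (n / (.g 8 : E) + 1) (.st b (.g 23) 0) σ (m / σ.g 8 + 1) hcnt
    (fun j τ => τ.g 8 = σ.g 8 ∧ τ.m 11 = σ.m 11 ∧ ∀ r, τ.m b r = if r < j then 0 else σ.m b r)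
    ⟨rfl, rfl, fun r => by simp⟩ ?_
  · obtain ⟨k1, k2, k3⟩ := key
    change (∀ k < m, bt κ ((S.loop 23 (n / (.g 8 : E) + 1) (.st b (.g 23) 0)).run κ σ) b k = 0) ∧
      (∀ r, ((S.loop 23 (n / (.g 8 : E) + 1) (.st b (.g 23) 0)).run κ σ).m b r < 2 ^ σ.g 8)
    constructor
    · intro k hk
      rw [bt_eq κ _ b k (by rw [k1]; exact hP.q1) (by rw [k1]; exact hP.q3)
        (by rw [k1, k2]; exact hP.pow), k1, k3, if_pos (Nat.lt_succ_of_le
          (Nat.div_le_div_right hk.le))]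
      simp
    · intro r
      rw [k3]
      split_ifs
      · positivity
      · exact hw r
  · intro j hj τ ⟨i1, i2, i3⟩
    have hjl : j < κ.lim := by omega
    have e1 : (E.g 23).ev κ ⟨Function.update τ.g 23 j, τ.m⟩ [] = j := by
      simp
    simp only [S.run, e1, if_pos hjl]
    refine ⟨?_, ?_, fun r => ?_⟩
    · simp [i1]
    · simp [Function.update_of_ne (Ne.symm hb), i2]
    · by_cases h : r = j
      · subst h
        simp
      · simp only [Function.update_self, Function.update_of_ne h, i3]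
        by_cases h2 : r < j
        · rw [if_pos h2, if_pos (by omega)]
        · rw [if_neg h2, if_neg (by omega)]

end Pool.Agent.MP9d6bd1
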