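import Mathlib
import Pool.Agent.Lib.MP_9d6bd1_lc.EvLib
import Pool.Agent.Lib.MP_9d6bd1_lc.RunLib
import Pool.Agent.Lib.MP_9d6bd1_lc.Spec
import Pool.Agent.Lib.MP_9d6bd1_lc.PEnum
import Pool.Agent.Lib.MP_9d6bd1_lc.PWalk

/-!
# MP_9d6bd1_lc: cluster functions, part A
-/

set_option autoImplicit false

open Classical

namespace Pool.Agent.MP9d6bd1

open E

namespace PClusAAux

/-- value of a kept bit -/
theorem ev_bit (κ : Par) (σ : St) (a j : ℕ) :
    (call1 (bitE 2) (.v 0 * .g 4 + .v 1)).ev κ σ [a, j] = bt κ σ 2 (a * σ.g 4 + j) := by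
  rw [ev_call1]
  rfl

theorem ev_nb (κ : Par) (σ : St) (a j : ℕ) :
    (call2 nbE (.v 0) (.v 1)).ev κ σ [a, j] = (cur κ σ).nb a j := by
  rw [ev_call2]
  rfl

/-- value of a step -/
theorem ev_stK (κ : Par) (σ : St) (a j : ℕ) : stK.ev κ σ [a, j] =
    if j < σ.g 4 ∧ bt κ σ 2 (a * σ.g 4 + j) ≠ 0 then (cur κ σ).nb a j else a := by
  unfold stK
  rw [ev_ite, ev_and, ev_bit, ev_nb]
  simp only [ev_less, ev_v, ev_g, List.getD_cons_zero, List.getD_cons_succ]
  by_cases h : j < σ.g 4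
  · by_cases h2 : bt κ σ 2 (a * σ.g 4 + j) = 0
    · simp [h, h2]
    · simp [h, h2]
  · simp [h]

theorem step_iff (κ : Par) (σ : St) (a b : ℕ) :
    (∃ j ≤ σ.g 4, stK.ev κ σ [a, j] = b) ↔ kst κ σ a b ∨ a = b := by
  constructor
  · rintro ⟨j, _, h⟩
    rw [ev_stK] at h
    split_ifs at h with h2
    · exact Or.inl ⟨j, h2.1, h2.2, h⟩
    · exact Or.inr h
  · rintro (⟨j, h1, h2, h3⟩ | h)
    · refine ⟨j, h1.le, ?_⟩
      rw [ev_stK, if_pos ⟨h1, h2⟩, h3]
    · refine ⟨σ.g 4, le_rfl, ?_⟩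
      rw [ev_stK, if_neg (fun h => lt_irrefl _ h.1), h]

/-- the walks along kept entries give the clusters -/
theorem reach_eq (κ : Par) (σ : St) (u : ℕ) :
    reach (fun a b => ∃ j ≤ σ.g 4, stK.ev κ σ [a, j] = b) u = KC κ σ u := by
  have h1 : (fun a b => ∃ j ≤ σ.g 4, stK.ev κ σ [a, j] = b) = fun a b => kst κ σ a b ∨ a = b := by
    funext a b
    exact propext (step_iff κ σ a b)
  rw [h1]
  ext y
  constructor
  · intro h
    show Relation.ReflTransGen (kst κ σ) u y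
    have h' : Relation.ReflTransGen (fun a b => kst κ σ a b ∨ a = b) u y := h
    clear h
    induction h' with
    | refl => exact Relation.ReflTransGen.refl
    | tail _ h2 ih =>
      rcases h2 with h2 | h2
      · exact ih.tail h2
      · exact h2 ▸ ih
  · intro h
    show Relation.ReflTransGen (fun a b => kst κ σ a b ∨ a = b) u y
    have h' : Relation.ReflTransGen (kst κ σ) u y := h
    clear h
    induction h' with
    | refl => exact Relation.ReflTransGen.refl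
    | tail _ h2 ih => exact ih.tail (Or.inl h2)

/-- the clusters of vertices consist of vertices -/
theorem lt_of_mem (κ : Par) (σ : St) (b : ℕ) (hG : (cur κ σ).Ok) (hK : KOk κ σ b) {u : ℕ}
    (hu : u < σ.g 3) {y : ℕ} (hy : y ∈ KC κ σ u) : y < σ.g 3 := by
  have h : Relation.ReflTransGen (kst κ σ) u y := hy
  induction h with
  | refl => exact hu
  | tail h1 h2 ih =>
    obtain ⟨j, hj, hj2, hj3⟩ := h2
    have h3 := ih h1
    have h4 := hK.val _ h3 j hj hj2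
    rw [← hj3]
    exact hG.lt _ h3 j h4.2.1

theorem symm_reach (κ : Par) (σ : St) (b : ℕ) (hG : (cur κ σ).Ok) (hK : KOk κ σ b) {u : ℕ}
    (hu : u < σ.g 3) {y : ℕ} (hy : y ∈ KC κ σ u) : u ∈ KC κ σ y := by
  have h : Relation.ReflTransGen (kst κ σ) u y := hy
  induction h with
  | refl => exact Relation.ReflTransGen.refl
  | tail h1 h2 ih =>
    have h3 := lt_of_mem κ σ b hG hK hu h1
    exact Relation.ReflTransGen.head (hK.symm _ h3 _ h2) (ih h1)

theorem finite_KC (κ : Par) (σ : St) (b : ℕ) (hG : (cur κ σ).Ok) (hK : KOk κ σ b) {u : ℕ}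
    (hu : u < σ.g 3) : (KC κ σ u).Finite :=
  (Set.finite_lt_nat (σ.g 3)).subset fun _ hy => lt_of_mem κ σ b hG hK hu hy

theorem X_le (κ : Par) (σ : St) (hP : POk κ σ) : σ.g 6 ≤ κ.cap := by
  rw [hP.X]
  refine le_trans ?_ hP.cap
  have h1 : σ.g 4 + 1 ≤ 2 ^ (σ.g 4 + 1) := Nat.lt_two_pow_self.le
  calc (σ.g 4 + 1) ^ σ.g 5 ≤ (2 ^ (σ.g 4 + 1)) ^ σ.g 5 := Nat.pow_le_pow_left h1 _
    _ = 2 ^ ((σ.g 4 + 1) * σ.g 5) := by rw [pow_mul]
    _ ≤ 2 ^ (3 * ((σ.g 4 + 1) * σ.g 5 + 6) ^ 2) := by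
        apply Nat.pow_le_pow_right (by norm_num)
        nlinarith [Nat.zero_le ((σ.g 4 + 1) * σ.g 5)]

/-- the values of the walks are the elements of the cluster -/
theorem walk_mem (κ : Par) (σ : St) (hP : POk κ σ) (hG : (cur κ σ).Ok) (hK : KOk κ σ (σ.g 5))
    {u : ℕ} (hu : u < σ.g 3) (y : ℕ) :
    (∃ x < σ.g 6, (walkE stK).ev κ σ [u, x] = y) ↔ y ∈ KC κ σ u := by
  rw [← reach_eq κ σ u]
  refine walk_spec κ σ hP stK u ?_ ?_ ?_ ?_ y
  · intro a _
    rw [ev_stK, if_neg (fun h => lt_irrefl _ h.1)]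
  · rw [reach_eq]
    exact finite_KC κ σ _ hG hK hu
  · rw [reach_eq]
    exact hK.size u hu
  · intro a ha
    rw [reach_eq] at ha
    have := lt_of_mem κ σ _ hG hK hu ha
    have := hP.N
    omega

/-- the cluster as a finite set -/
noncomputable def fin (κ : Par) (σ : St) (u : ℕ) : Finset ℕ :=
  (Finset.range (σ.g 3)).filter fun y => y ∈ KC κ σ u

theorem coe_fin (κ : Par) (σ : St) (b : ℕ) (hG : (cur κ σ).Ok) (hK : KOk κ σ b) {u : ℕ}
    (hu : u < σ.g 3) : (fin κ σ u : Set ℕ) = KC κ σ u := by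
  ext y
  rw [fin, Finset.coe_filter]
  simp only [Finset.mem_range]
  exact ⟨fun h => h.2, fun h => ⟨lt_of_mem κ σ b hG hK hu h, h⟩⟩

theorem mem_fin (κ : Par) (σ : St) (hP : POk κ σ) (hG : (cur κ σ).Ok) (hK : KOk κ σ (σ.g 5))
    {u : ℕ} (hu : u < σ.g 3) (y : ℕ) :
    y ∈ fin κ σ u ↔ y < σ.g 3 ∧ ∃ x < σ.g 6, (walkE stK).ev κ σ [u, x] = y := by
  rw [walk_mem κ σ hP hG hK hu, fin, Finset.mem_filter, Finset.mem_range]

theorem getD_sort_zero {s : Finset ℕ} (h : s.Nonempty) (d : ℕ) :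
    (s.sort).getD 0 d = sInf (s : Set ℕ) := by
  have h1 : 0 < (s.sort).length := by
    rw [Finset.length_sort]
    exact h.card_pos
  rw [List.getD_eq_getElem _ _ h1, Finset.sorted_zero_eq_min']
  refine le_antisymm ?_ ?_
  · refine Finset.min'_le _ _ ?_
    exact Nat.sInf_mem (s := (s : Set ℕ)) h
  · exact Nat.sInf_le (Finset.min'_mem _ _)

end PClusAAux

open PClusAAux

theorem cid_mem (κ : Par) (σ : St) (u : ℕ) : cid κ σ u ∈ KC κ σ u :=
  Nat.sInf_mem ⟨u, Relation.ReflTransGen.refl⟩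

theorem cid_eq_iff (κ : Par) (σ : St) (b : ℕ) (hG : (cur κ σ).Ok) (hK : KOk κ σ b) (u y : ℕ)
    (hu : u < σ.g 3) (hy : y < σ.g 3) : cid κ σ u = cid κ σ y ↔ y ∈ KC κ σ u := by
  constructor
  · intro h
    have h1 := cid_mem κ σ u
    have h2 := symm_reach κ σ b hG hK hy (cid_mem κ σ y)
    rw [← h] at h2
    exact Relation.ReflTransGen.trans h1 h2
  · intro h
    have h2 := symm_reach κ σ b hG hK hu h
    have h3 : KC κ σ u = KC κ σ y := by
      ext z
      exact ⟨fun hz => Relation.ReflTransGen.trans h2 hz, fun hz => Relation.ReflTransGen.trans h hz⟩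
    rw [cid, cid, h3]

theorem id_spec (κ : Par) (σ : St) (hP : POk κ σ) (hG : (cur κ σ).Ok) (hK : KOk κ σ (σ.g 5))
    (u : ℕ) (hu : u < σ.g 3) : idE.ev κ σ [u] = cid κ σ u := by
  have h1 : idE.ev κ σ [u] = ((fin κ σ u).sort).getD 0 (σ.g 3) := by
    refine mn_spec κ σ (.g 6) (walkE stK) (σ.g 6) u (fin κ σ u) (fun _ => rfl) (X_le κ σ hP) ?_ ?_
    · have := hP.N
      omega
    · exact mem_fin κ σ hP hG hK hu
  have h2 : (fin κ σ u).Nonempty := by
    refine ⟨u, ?_⟩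
    rw [← Finset.mem_coe, coe_fin κ σ _ hG hK hu]
    exact Relation.ReflTransGen.refl
  rw [h1, getD_sort_zero h2, coe_fin κ σ _ hG hK hu]
  rfl

theorem elK_spec (κ : Par) (σ : St) (hP : POk κ σ) (hG : (cur κ σ).Ok) (hK : KOk κ σ (σ.g 5))
    (u : ℕ) (hu : u < σ.g 3) : ∃ s : Finset ℕ, (s : Set ℕ) = KC κ σ u ∧
      ∀ i ≤ κ.cap, elK.ev κ σ [u, i] = (s.sort).getD i (σ.g 3) := by
  refine ⟨fin κ σ u, coe_fin κ σ _ hG hK hu, fun i hi => ?_⟩
  refine el_spec κ σ (.g 6) (walkE stK) (σ.g 6) u i (fin κ σ u) (fun _ => rfl) (X_le κ σ hP) ?_ hi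
    (mem_fin κ σ hP hG hK hu)
  have := hP.N
  omega

theorem cn_spec (κ : Par) (σ : St) (hP : POk κ σ) (hG : (cur κ σ).Ok) (hK : KOk κ σ (σ.g 5))
    (u j : ℕ) : cnE.ev κ σ [u, j] = if u < σ.g 3 ∧ j < (cur κ σ).deg u ∧
      (cur κ σ).deg ((cur κ σ).nb u j) ≤ σ.g 4 then cid κ σ ((cur κ σ).nb u j) else σ.g 3 := by
  have hdg : ∀ l : List ℕ, (call1 dgE (.v 0)).ev κ σ l = (cur κ σ).deg (l.getD 0 0) := by
    intro l
    rw [ev_call1]
    rfl
  unfold cnE
  rw [ev_ite, ev_and, ev_less, ev_less, hdg, ev_lt, ev_nb]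
  simp only [ev_v, ev_g, List.getD_cons_zero, List.getD_cons_succ]
  by_cases h1 : u < σ.g 3
  · by_cases h2 : j < (cur κ σ).deg u
    · have h3 := hG.lt u h1 j h2
      have h4 : (call1 lowE (.v 2)).ev κ σ ([u, j] ++ [(cur κ σ).nb u j]) =
          if (cur κ σ).deg ((cur κ σ).nb u j) ≤ σ.g 4 then 1 else 0 := by
        rw [ev_call1]
        unfold lowE
        rw [ev_neg, ev_less, hdg]
        simp only [ev_v, ev_g, List.cons_append, List.nil_append, List.getD_cons_zero,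
          List.getD_cons_succ]
        by_cases h5 : (cur κ σ).deg ((cur κ σ).nb u j) ≤ σ.g 4
        · simp [h5, not_lt.mpr h5]
        · simp [h5, not_le.mp h5]
      have h6 : (call1 idE (.v 2)).ev κ σ ([u, j] ++ [(cur κ σ).nb u j]) =
          cid κ σ ((cur κ σ).nb u j) := by
        rw [ev_call1]
        exact id_spec κ σ hP hG hK _ h3
      rw [ev_ite, h4, h6]
      by_cases h5 : (cur κ σ).deg ((cur κ σ).nb u j) ≤ σ.g 4
      · simp [h1, h2, h5]
      · simp [h1, h2, h5]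
    · simp [h1, h2]
  · simp [h1]

end Pool.Agent.MP9d6bd1
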