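import Mathlib
import Pool.Agent.Lib.MP_9d6bd1_lc.Spec
import Pool.Agent.Lib.MP_9d6bd1_lc.EvLib
import Pool.Agent.Lib.MP_9d6bd1_lc.RunLib
import Pool.Agent.Lib.MP_9d6bd1_lc.PClusA

/-!
# MP_9d6bd1_lc: the cluster functions, part B
-/

set_option autoImplicit false

open Classical

namespace Pool.Agent.MP9d6bd1

open E


namespace PClusBAux

variable {κ : Par} {σ : St}

lemma kst_lt (hG : (cur κ σ).Ok) (hK : KOk κ σ (σ.g 5)) {u y : ℕ} (hu : u < σ.g 3)
    (h : kst κ σ u y) : y < σ.g 3 ∧ (cur κ σ).deg y ≤ σ.g 4 := by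
  obtain ⟨j, hj, hb, rfl⟩ := h
  have h1 := hK.val u hu j hj hb
  exact ⟨hG.lt u hu j h1.2.1, h1.2.2⟩

lemma KC_lt (hG : (cur κ σ).Ok) (hK : KOk κ σ (σ.g 5)) {u w : ℕ} (hu : u < σ.g 3)
    (hw : w ∈ KC κ σ u) : w < σ.g 3 := by
  have hw' : Relation.ReflTransGen (kst κ σ) u w := hw
  induction hw' with
  | refl => exact hu
  | tail h1 h2 ih => exact (kst_lt hG hK (ih h1) h2).1

lemma KC_low (hG : (cur κ σ).Ok) (hK : KOk κ σ (σ.g 5)) {u w : ℕ} (hu : u < σ.g 3)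
    (hl : (cur κ σ).deg u ≤ σ.g 4) (hw : w ∈ KC κ σ u) : (cur κ σ).deg w ≤ σ.g 4 := by
  have hw' : Relation.ReflTransGen (kst κ σ) u w := hw
  induction hw' with
  | refl => exact hl
  | tail h1 h2 ih => exact (kst_lt hG hK (KC_lt hG hK hu h1) h2).2

lemma cid_lt (hG : (cur κ σ).Ok) (hK : KOk κ σ (σ.g 5)) {u : ℕ} (hu : u < σ.g 3) :
    cid κ σ u < σ.g 3 := KC_lt hG hK hu (cid_mem κ σ u)

lemma cid_low (hG : (cur κ σ).Ok) (hK : KOk κ σ (σ.g 5)) {u : ℕ} (hu : u < σ.g 3)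
    (hl : (cur κ σ).deg u ≤ σ.g 4) : (cur κ σ).deg (cid κ σ u) ≤ σ.g 4 :=
  KC_low hG hK hu hl (cid_mem κ σ u)

lemma cid_cid (hG : (cur κ σ).Ok) (hK : KOk κ σ (σ.g 5)) {u : ℕ} (hu : u < σ.g 3) :
    cid κ σ (cid κ σ u) = cid κ σ u :=
  ((cid_eq_iff κ σ _ hG hK u _ hu (cid_lt hG hK hu)).mpr (cid_mem κ σ u)).symm

lemma KC_cid (hG : (cur κ σ).Ok) (hK : KOk κ σ (σ.g 5)) {u : ℕ} (hu : u < σ.g 3) :
    KC κ σ (cid κ σ u) = KC κ σ u := by
  ext w
  constructor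
  · intro hw
    have hw' : w < σ.g 3 := KC_lt hG hK (cid_lt hG hK hu) hw
    have h1 := (cid_eq_iff κ σ _ hG hK (cid κ σ u) w (cid_lt hG hK hu) hw').mpr hw
    rw [cid_cid hG hK hu] at h1
    exact (cid_eq_iff κ σ _ hG hK u w hu hw').mp h1
  · intro hw
    have hw' : w < σ.g 3 := KC_lt hG hK hu hw
    have h1 := (cid_eq_iff κ σ _ hG hK u w hu hw').mpr hw
    rw [← cid_cid hG hK hu] at h1
    exact (cid_eq_iff κ σ _ hG hK (cid κ σ u) w (cid_lt hG hK hu) hw').mp h1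

lemma sum_getD {M : Type} [AddCommMonoid M] (N : ℕ) (F : ℕ → M) (l : List ℕ) :
    ∑ i ∈ Finset.range l.length, F (l.getD i N) = (l.map F).sum := by
  induction l with
  | nil => simp
  | cons a l ih =>
    rw [List.length_cons, Finset.sum_range_succ']
    simp [← ih, add_comm]

/-- sums over the sorted list, padded with values which do not count -/
lemma sum_sort {M : Type} [AddCommMonoid M] (s : Finset ℕ) (L N : ℕ) (hL : s.card ≤ L)
    (F : ℕ → M) (hN : F N = 0) :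
    ∑ i ∈ Finset.range L, F ((s.sort).getD i N) = ∑ w ∈ s, F w := by
  have hlen : (s.sort).length = s.card := Finset.length_sort _
  have h1 : ∑ i ∈ Finset.range L, F ((s.sort).getD i N) =
      ∑ i ∈ Finset.range s.card, F ((s.sort).getD i N) := by
    symm
    apply Finset.sum_subset (Finset.range_mono hL)
    intro i _ hi
    rw [Finset.mem_range, not_lt, ← hlen] at hi
    rw [List.getD_eq_default _ _ hi, hN]
  rw [h1]
  have h2 : ∑ w ∈ s, F w = ((s.sort).map F).sum := by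
    conv_lhs => rw [← Finset.sort_toFinset s (· ≤ ·)]
    rw [List.sum_toFinset F (Finset.sort_nodup s _)]
  rw [h2, ← hlen]
  exact sum_getD N F _

lemma mem_sort_getD (s : Finset ℕ) (L N : ℕ) (hL : s.card ≤ L) {w : ℕ} (hw : w ∈ s) :
    ∃ i < L, (s.sort).getD i N = w := by
  have h1 : w ∈ s.sort := (Finset.mem_sort _).mpr hw
  rw [List.mem_iff_getElem] at h1
  obtain ⟨i, hi, h2⟩ := h1
  refine ⟨i, lt_of_lt_of_le hi (by rw [Finset.length_sort]; exact hL), ?_⟩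
  rw [List.getD_eq_getElem _ _ hi, h2]

lemma getD_sort_mem (s : Finset ℕ) (N i : ℕ) :
    (s.sort).getD i N ∈ s ∨ (s.sort).getD i N = N := by
  by_cases hi : i < (s.sort).length
  · left
    rw [List.getD_eq_getElem _ _ hi]
    exact (Finset.mem_sort (· ≤ ·)).mp (List.getElem_mem hi)
  · right
    exact List.getD_eq_default _ _ (by omega)

lemma cap_ge (hP : POk κ σ) : (σ.g 4 + 1) * σ.g 5 + 6 ≤ κ.cap := by
  have h1 := hP.cap
  set n := (σ.g 4 + 1) * σ.g 5 + 6 with hn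
  have h2 : n < 2 ^ n := Nat.lt_two_pow_self
  have h3 : 2 ^ n ≤ 2 ^ (3 * n ^ 2) := by
    apply Nat.pow_le_pow_right (by norm_num)
    nlinarith
  omega

lemma L_le_cap (hP : POk κ σ) : σ.g 5 ≤ κ.cap := by
  have := cap_ge hP
  nlinarith

lemma D_le_cap (hP : POk κ σ) : σ.g 4 ≤ κ.cap := by
  have := cap_ge hP
  have := hP.L1
  nlinarith

lemma two_LD_le (hP : POk κ σ) : σ.g 5 * (σ.g 4 * 2) ≤ κ.top := by
  have h1 := cap_ge hP
  have h2 := hP.top
  nlinarith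

/-- double sums -/
lemma ev_dsum (l : List ℕ) (bd : E) (x L D : ℕ) (G : ℕ → ℕ → ℕ) (hx : x = l.length + 1)
    (hL : σ.g 5 = L) (hD : σ.g 4 = D) (hLc : L ≤ κ.cap) (hDc : D ≤ κ.cap)
    (hb : ∀ i < L, ∀ j < D, ∀ a a',
      bd.ev κ σ ((l ++ [i, a, L]) ++ [j, a', D]) = a' + G i j)
    (ht : ∑ i ∈ Finset.range L, ∑ j ∈ Finset.range D, G i j ≤ κ.top) :
    (E.fold (.g 5) 0 (.fold (.g 4) (.v x) bd)).ev κ σ l =
      ∑ i ∈ Finset.range L, ∑ j ∈ Finset.range D, G i j := by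
  have hmono : ∀ i ≤ L, ∑ i' ∈ Finset.range i, ∑ j ∈ Finset.range D, G i' j ≤ κ.top := by
    intro i hi
    refine le_trans ?_ ht
    exact Finset.sum_le_sum_of_subset (Finset.range_mono hi)
  refine ev_fold κ σ l (.g 5) 0 _ L
    (fun i => ∑ i' ∈ Finset.range i, ∑ j ∈ Finset.range D, G i' j) (by simp [hL]) hLc (by simp) ?_ ?_
  · intro i hi
    rw [Finset.sum_range_succ]
    refine ev_sum κ σ _ (.g 4) (.v x) bd D _ (G i) (by simp [hD]) hDc ?_ ?_ ?_
    · subst hx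
      simp
    · intro j hj acc
      exact hb i hi j hj _ acc
    · have := hmono (i + 1) (by omega)
      rw [Finset.sum_range_succ] at this
      exact this
  · intro i hi
    exact hmono (i + 1) (by omega)

lemma cn_N (hP : POk κ σ) (hG : (cur κ σ).Ok) (hK : KOk κ σ (σ.g 5)) (j : ℕ) :
    cnE.ev κ σ [σ.g 3, j] = σ.g 3 := by
  rw [cn_spec κ σ hP hG hK, if_neg]
  rintro ⟨h, _⟩
  exact lt_irrefl _ h

lemma wt_eq_sum (F : FG) (D : ℕ) (lab : ℕ → ℕ) (c d : ℕ) : F.wt D lab c d =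
    ∑ w ∈ Finset.range F.N, ∑ j ∈ Finset.range D,
      if (F.deg w ≤ D ∧ j < F.deg w ∧ F.deg (F.nb w j) ≤ D) ∧ lab w = c ∧ lab (F.nb w j) = d
        then 1 else 0 := by
  unfold FG.wt FG.ents
  rw [Finset.filter_filter, Finset.card_filter, Finset.sum_product]

/-- the sum over the cluster of `u` is the number of entries -/
lemma sum_cluster (hP : POk κ σ) (hG : (cur κ σ).Ok) (hK : KOk κ σ (σ.g 5)) {u : ℕ}
    (hu : u < σ.g 3) (hl : (cur κ σ).deg u ≤ σ.g 4) (s : Finset ℕ) (hs : (s : Set ℕ) = KC κ σ u)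
    {c : ℕ} (hc : c < σ.g 3) :
    ∑ w ∈ s, ∑ j ∈ Finset.range (σ.g 4), (if cnE.ev κ σ [w, j] = c then 1 else 0) =
      (cur κ σ).wt (σ.g 4) (cid κ σ) (cid κ σ u) c := by
  rw [wt_eq_sum]
  have hmem : ∀ w, w ∈ s ↔ w ∈ KC κ σ u := by
    intro w
    rw [← hs]
    exact Iff.rfl
  have hsub : s ⊆ Finset.range (cur κ σ).N := by
    intro w hw
    rw [Finset.mem_range]
    exact KC_lt hG hK hu ((hmem w).mp hw)
  rw [← Finset.sum_subset hsub]
  · apply Finset.sum_congr rfl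
    intro w hw
    have hwK := (hmem w).mp hw
    have hwN := KC_lt hG hK hu hwK
    have hwl := KC_low hG hK hu hl hwK
    have hwc : cid κ σ w = cid κ σ u := ((cid_eq_iff κ σ _ hG hK u w hu hwN).mpr hwK).symm
    apply Finset.sum_congr rfl
    intro j _
    by_cases h1 : j < (cur κ σ).deg w ∧ (cur κ σ).deg ((cur κ σ).nb w j) ≤ σ.g 4
    · have h3 : cnE.ev κ σ [w, j] = cid κ σ ((cur κ σ).nb w j) := by
        rw [cn_spec κ σ hP hG hK, if_pos ⟨hwN, h1.1, h1.2⟩]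
      rw [h3]
      by_cases h2 : cid κ σ ((cur κ σ).nb w j) = c
      · rw [if_pos h2, if_pos ⟨⟨hwl, h1⟩, hwc, h2⟩]
      · rw [if_neg h2, if_neg (fun h => h2 h.2.2)]
    · have h3 : cnE.ev κ σ [w, j] = σ.g 3 := by
        rw [cn_spec κ σ hP hG hK, if_neg (fun h => h1 h.2)]
      rw [h3, if_neg (by omega), if_neg (fun h => h1 h.1.2)]
  · intro w hwN hw
    have hwN' : w < σ.g 3 := Finset.mem_range.mp hwN
    apply Finset.sum_eq_zero
    intro j _
    rw [if_neg]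
    rintro ⟨_, h2, _⟩
    exact hw ((hmem w).mpr ((cid_eq_iff κ σ _ hG hK u w hu hwN').mp h2.symm))

lemma card_le (hK : KOk κ σ (σ.g 5)) {u : ℕ} (hu : u < σ.g 3) (s : Finset ℕ)
    (hs : (s : Set ℕ) = KC κ σ u) : s.card ≤ σ.g 5 := by
  have := hK.size u hu
  rw [← hs, Set.ncard_coe_finset] at this
  exact this

/-- weighted double sums over the cluster -/
lemma sum_el (hP : POk κ σ) (hG : (cur κ σ).Ok) (hK : KOk κ σ (σ.g 5)) {u : ℕ}
    (hu : u < σ.g 3) (s : Finset ℕ) (hs : (s : Set ℕ) = KC κ σ u)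
    (hel : ∀ i ≤ κ.cap, elK.ev κ σ [u, i] = (s.sort).getD i (σ.g 3)) (g : ℕ → ℕ)
    (hg : g (σ.g 3) = 0) :
    ∑ i ∈ Finset.range (σ.g 5), ∑ j ∈ Finset.range (σ.g 4),
      g (cnE.ev κ σ [elK.ev κ σ [u, i], j]) =
      ∑ w ∈ s, ∑ j ∈ Finset.range (σ.g 4), g (cnE.ev κ σ [w, j]) := by
  rw [← sum_sort s (σ.g 5) (σ.g 3) (card_le hK hu s hs)
    (fun w => ∑ j ∈ Finset.range (σ.g 4), g (cnE.ev κ σ [w, j])) (by
      apply Finset.sum_eq_zero
      intro j _
      rw [cn_N hP hG hK, hg])]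
  apply Finset.sum_congr rfl
  intro i hi
  rw [hel i (by have := Finset.mem_range.mp hi; have := L_le_cap hP; omega)]

end PClusBAux

open PClusBAux

theorem wt_spec (κ : Par) (σ : St) (hP : POk κ σ) (hG : (cur κ σ).Ok) (hK : KOk κ σ (σ.g 5))
    (u c : ℕ) (hu : u < σ.g 3) (hl : (cur κ σ).deg u ≤ σ.g 4) : wtE.ev κ σ [u, c] =
      if c < σ.g 3 then (cur κ σ).wt (σ.g 4) (cid κ σ) (cid κ σ u) c else 0 := by
  obtain ⟨s, hs, hel⟩ := elK_spec κ σ hP hG hK u hu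
  have h1 : wtE.ev κ σ [u, c] = ∑ i ∈ Finset.range (σ.g 5), ∑ j ∈ Finset.range (σ.g 4),
      (if c < σ.g 3 ∧ cnE.ev κ σ [elK.ev κ σ [u, i], j] = c then 1 else 0) := by
    refine ev_dsum [u, c] _ 3 (σ.g 5) (σ.g 4) _ (by simp) rfl rfl (L_le_cap hP) (D_le_cap hP) ?_ ?_
    · intro i _ j _ a a'
      simp only [ev_ite, ev_and, ev_less, ev_eqn, ev_call2, ev_v, ev_g, ev_add, ev_one]
      simp only [List.cons_append, List.nil_append, List.getD_cons_zero, List.getD_cons_succ]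
      by_cases h1 : c < σ.g 3
      · by_cases h2 : cnE.ev κ σ [elK.ev κ σ [u, i], j] = c
        · simp [h1, h2]
        · simp [h1, h2]
      · simp [h1]
    · refine le_trans ?_ (two_LD_le hP)
      calc ∑ i ∈ Finset.range (σ.g 5), ∑ j ∈ Finset.range (σ.g 4),
          (if c < σ.g 3 ∧ cnE.ev κ σ [elK.ev κ σ [u, i], j] = c then 1 else 0)
          ≤ ∑ i ∈ Finset.range (σ.g 5), ∑ j ∈ Finset.range (σ.g 4), 2 := by
            apply Finset.sum_le_sum
            intro i _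
            apply Finset.sum_le_sum
            intro j _
            split_ifs <;> omega
        _ = _ := by simp
  rw [h1]
  by_cases hc : c < σ.g 3
  · rw [if_pos hc]
    rw [← sum_cluster hP hG hK hu hl s hs hc]
    rw [← sum_el hP hG hK hu s hs hel (fun x => if x = c then 1 else 0) (if_neg (by omega))]
    apply Finset.sum_congr rfl
    intro i _
    apply Finset.sum_congr rfl
    intro j _
    simp only [hc, true_and]
  · rw [if_neg hc]
    apply Finset.sum_eq_zero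
    intro i _
    apply Finset.sum_eq_zero
    intro j _
    rw [if_neg (fun h => hc h.1)]


namespace PClusBAux

variable {κ : Par} {σ : St}

/-- one step of the maximum search -/
def stp (N b : ℕ) (wt : ℕ → ℕ) (x a : ℕ) : ℕ := if x < N ∧ x ≠ b ∧ wt a < wt x then x else a

/-- maximum search over a list of pairs -/
def inn (N b : ℕ) (wt : ℕ → ℕ) (x : ℕ → ℕ) (a : ℕ) : ℕ → ℕ
  | 0 => a
  | j + 1 => stp N b wt (x j) (inn N b wt x a j)

/-- maximum search over a double list -/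
def out (N b : ℕ) (wt : ℕ → ℕ) (x : ℕ → ℕ → ℕ) (D : ℕ) : ℕ → ℕ
  | 0 => N
  | i + 1 => inn N b wt (x i) (out N b wt x D i) D

/-- the invariant; `S` is the set of the values seen so far -/
def Inv (N b : ℕ) (wt : ℕ → ℕ) (S : ℕ → Prop) (a : ℕ) : Prop :=
  (a = N ∧ ∀ x, S x → x < N → x ≠ b → wt x = 0) ∨
    (a < N ∧ a ≠ b ∧ S a ∧ 0 < wt a ∧ ∀ x, S x → x < N → x ≠ b → wt x ≤ wt a)

lemma Inv.le {N b : ℕ} {wt : ℕ → ℕ} {S : ℕ → Prop} {a : ℕ} (h : Inv N b wt S a) : a ≤ N := by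
  rcases h with h | h
  · exact h.1.le
  · exact h.1.le

lemma inv_stp {N b : ℕ} {wt : ℕ → ℕ} (hN : wt N = 0) {S S' : ℕ → Prop} {a y : ℕ}
    (h : Inv N b wt S a) (hS : ∀ x, S' x ↔ S x ∨ x = y) : Inv N b wt S' (stp N b wt y a) := by
  unfold stp
  split_ifs with h1
  · right
    refine ⟨h1.1, h1.2.1, (hS y).mpr (Or.inr rfl), by omega, ?_⟩
    intro x hx hxN hxb
    rcases (hS x).mp hx with h2 | h2
    · rcases h with h | h
      · rw [h.2 x h2 hxN hxb]; exact Nat.zero_le _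
      · have := h.2.2.2.2 x h2 hxN hxb
        omega
    · rw [h2]
  · rcases h with h | h
    · left
      refine ⟨h.1, ?_⟩
      intro x hx hxN hxb
      rcases (hS x).mp hx with h2 | h2
      · exact h.2 x h2 hxN hxb
      · subst h2
        by_contra h3
        apply h1
        refine ⟨hxN, hxb, ?_⟩
        rw [h.1, hN]
        omega
    · right
      refine ⟨h.1, h.2.1, (hS a).mpr (Or.inl h.2.2.1), h.2.2.2.1, ?_⟩
      intro x hx hxN hxb
      rcases (hS x).mp hx with h2 | h2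
      · exact h.2.2.2.2 x h2 hxN hxb
      · subst h2
        by_contra h3
        apply h1
        refine ⟨hxN, hxb, by omega⟩

lemma inv_inn {N b : ℕ} {wt : ℕ → ℕ} (hN : wt N = 0) {S : ℕ → Prop} {a : ℕ} (x : ℕ → ℕ)
    (h : Inv N b wt S a) (j : ℕ) :
    Inv N b wt (fun y => S y ∨ ∃ j' < j, x j' = y) (inn N b wt x a j) := by
  induction j with
  | zero =>
    have : (fun y => S y ∨ ∃ j' < 0, x j' = y) = S := by
      funext y
      simp
    rw [this]
    exact h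
  | succ j ih =>
    apply inv_stp hN ih
    intro y
    constructor
    · rintro (h1 | ⟨j', h1, h2⟩)
      · exact Or.inl (Or.inl h1)
      · rcases Nat.lt_succ_iff_lt_or_eq.mp h1 with h3 | h3
        · exact Or.inl (Or.inr ⟨j', h3, h2⟩)
        · exact Or.inr (by rw [← h2, h3])
    · rintro ((h1 | ⟨j', h1, h2⟩) | h1)
      · exact Or.inl h1
      · exact Or.inr ⟨j', by omega, h2⟩
      · exact Or.inr ⟨j, by omega, h1.symm⟩

lemma inv_out {N b : ℕ} {wt : ℕ → ℕ} (hN : wt N = 0) (x : ℕ → ℕ → ℕ) (D i : ℕ) :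
    Inv N b wt (fun y => ∃ i' < i, ∃ j < D, x i' j = y) (out N b wt x D i) := by
  induction i with
  | zero =>
    left
    refine ⟨rfl, ?_⟩
    rintro y ⟨i', h, _⟩
    omega
  | succ i ih =>
    have h1 := inv_inn hN (x i) ih D
    have h2 : (fun y => ∃ i' < i + 1, ∃ j < D, x i' j = y) =
        (fun y => (∃ i' < i, ∃ j < D, x i' j = y) ∨ ∃ j' < D, x i j' = y) := by
      funext y
      apply propext
      constructor
      · rintro ⟨i', h1, h2⟩
        rcases Nat.lt_succ_iff_lt_or_eq.mp h1 with h3 | h3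
        · exact Or.inl ⟨i', h3, h2⟩
        · subst h3; exact Or.inr h2
      · rintro (⟨i', h1, h2⟩ | h2)
        · exact ⟨i', by omega, h2⟩
        · exact ⟨i, by omega, h2⟩
    rw [h2]
    exact h1

lemma wt_N (hP : POk κ σ) (hG : (cur κ σ).Ok) (hK : KOk κ σ (σ.g 5)) {u : ℕ}
    (hu : u < σ.g 3) (hl : (cur κ σ).deg u ≤ σ.g 4) : wtE.ev κ σ [u, σ.g 3] = 0 := by
  rw [wt_spec κ σ hP hG hK u _ hu hl, if_neg (lt_irrefl _)]

lemma hv_eq (hP : POk κ σ) (hG : (cur κ σ).Ok) (hK : KOk κ σ (σ.g 5)) {u : ℕ}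
    (hu : u < σ.g 3) (hl : (cur κ σ).deg u ≤ σ.g 4) : hvE.ev κ σ [u] =
      out (σ.g 3) (cid κ σ u) (fun y => wtE.ev κ σ [u, y])
        (fun i j => cnE.ev κ σ [elK.ev κ σ [u, i], j]) (σ.g 4) (σ.g 5) := by
  have hN := wt_N hP hG hK hu hl
  have htop : σ.g 3 ≤ κ.top := by
    have := hP.N
    omega
  have hinv := fun i => inv_out (N := σ.g 3) (b := cid κ σ u)
    (wt := fun y => wtE.ev κ σ [u, y]) hN (fun i j => cnE.ev κ σ [elK.ev κ σ [u, i], j]) (σ.g 4) i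
  refine ev_fold κ σ [u] (.g 5) (.g 3) _ (σ.g 5) (fun i => out (σ.g 3) (cid κ σ u)
    (fun y => wtE.ev κ σ [u, y]) (fun i j => cnE.ev κ σ [elK.ev κ σ [u, i], j]) (σ.g 4) i)
    rfl (L_le_cap hP) rfl ?_ ?_
  · intro i hi
    refine ev_fold κ σ _ (.g 4) (.v 2) _ (σ.g 4) (fun j => inn (σ.g 3) (cid κ σ u)
      (fun y => wtE.ev κ σ [u, y]) (fun j => cnE.ev κ σ [elK.ev κ σ [u, i], j])
      (out (σ.g 3) (cid κ σ u) (fun y => wtE.ev κ σ [u, y])
        (fun i j => cnE.ev κ σ [elK.ev κ σ [u, i], j]) (σ.g 4) i) j)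
      rfl (D_le_cap hP) rfl ?_ ?_
    · intro j hj
      simp only [ev_ite, ev_and, ev_less, ev_eqn, ev_neg, ev_call2, ev_call1, ev_v, ev_g, ev_lt]
      simp only [List.cons_append, List.nil_append, List.getD_cons_zero,
        List.getD_cons_succ]
      rw [id_spec κ σ hP hG hK u hu, inn]
      generalize inn (σ.g 3) (cid κ σ u) (fun y => wtE.ev κ σ [u, y])
        (fun j => cnE.ev κ σ [elK.ev κ σ [u, i], j]) (out (σ.g 3) (cid κ σ u)
        (fun y => wtE.ev κ σ [u, y]) (fun i j => cnE.ev κ σ [elK.ev κ σ [u, i], j]) (σ.g 4) i) j = a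
      generalize cnE.ev κ σ [elK.ev κ σ [u, i], j] = x
      unfold stp
      by_cases h1 : x < σ.g 3
      · by_cases h2 : x = cid κ σ u
        · simp [h2]
        · by_cases h3 : wtE.ev κ σ [u, a] < wtE.ev κ σ [u, x]
          · simp [h1, h2, h3]
          · simp [h1, h2, h3]
      · simp [h1]
    · intro j hj
      exact (inv_inn (N := σ.g 3) (b := cid κ σ u)
        (wt := fun y => wtE.ev κ σ [u, y]) hN (fun j => cnE.ev κ σ [elK.ev κ σ [u, i], j])
        (hinv i) (j + 1)).le.trans htop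
  · intro i hi
    exact (hinv (i + 1)).le.trans htop

/-- the members of the cluster, as a list -/
lemma elK_cid (hP : POk κ σ) (hG : (cur κ σ).Ok) (hK : KOk κ σ (σ.g 5)) {u i : ℕ}
    (hu : u < σ.g 3) (hi : i ≤ κ.cap) :
    elK.ev κ σ [cid κ σ u, i] = elK.ev κ σ [u, i] := by
  obtain ⟨s, hs, hel⟩ := elK_spec κ σ hP hG hK u hu
  obtain ⟨s', hs', hel'⟩ := elK_spec κ σ hP hG hK _ (cid_lt hG hK hu)
  rw [KC_cid hG hK hu, ← hs] at hs'
  have : s' = s := Finset.coe_injective hs'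
  rw [hel i hi, hel' i hi, this]

lemma inn_congr {N b : ℕ} {wt wt' : ℕ → ℕ} {x x' : ℕ → ℕ} (hwt : ∀ y, wt y = wt' y) {D : ℕ}
    (hx : ∀ j < D, x j = x' j) (a : ℕ) : ∀ j ≤ D, inn N b wt x a j = inn N b wt' x' a j := by
  have : wt = wt' := funext hwt
  subst this
  intro j
  induction j with
  | zero => intro _; rfl
  | succ j ih =>
    intro hj
    rw [inn, inn, ih (by omega), hx j (by omega)]

lemma out_congr {N b : ℕ} {wt wt' : ℕ → ℕ} {x x' : ℕ → ℕ → ℕ} (hwt : ∀ y, wt y = wt' y)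
    {D L : ℕ} (hx : ∀ i < L, ∀ j < D, x i j = x' i j) :
    ∀ i ≤ L, out N b wt x D i = out N b wt' x' D i := by
  intro i
  induction i with
  | zero => intro _; rfl
  | succ i ih =>
    intro hi
    rw [out, out, ih (by omega)]
    exact inn_congr hwt (fun j hj => hx i (by omega) j hj) _ D le_rfl

/-- positive weight means that there is an entry -/
lemma exists_of_wt_pos {u c : ℕ} (h : 0 < (cur κ σ).wt (σ.g 4) (cid κ σ) (cid κ σ u) c) :
    ∃ w < σ.g 3, ∃ j < σ.g 4, ((cur κ σ).deg w ≤ σ.g 4 ∧ j < (cur κ σ).deg w ∧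
      (cur κ σ).deg ((cur κ σ).nb w j) ≤ σ.g 4) ∧ cid κ σ w = cid κ σ u ∧
      cid κ σ ((cur κ σ).nb w j) = c := by
  unfold FG.wt at h
  rw [Finset.card_pos] at h
  obtain ⟨p, hp⟩ := h
  rw [Finset.mem_filter] at hp
  unfold FG.ents at hp
  rw [Finset.mem_filter, Finset.mem_product, Finset.mem_range, Finset.mem_range] at hp
  exact ⟨p.1, hp.1.1.1, p.2, hp.1.1.2, hp.1.2, hp.2.1, hp.2.2⟩

lemma wt_ge_N (hG : (cur κ σ).Ok) (hK : KOk κ σ (σ.g 5)) {u c : ℕ} (hc : ¬ c < σ.g 3) :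
    (cur κ σ).wt (σ.g 4) (cid κ σ) (cid κ σ u) c = 0 := by
  by_contra h
  obtain ⟨w, hw, j, _, h1, _, h3⟩ := exists_of_wt_pos (Nat.pos_of_ne_zero h)
  have := cid_lt hG hK (hG.lt w hw j h1.2.1)
  omega

/-- an entry between the clusters is seen -/
lemma seen_of_wt_pos (hP : POk κ σ) (hG : (cur κ σ).Ok) (hK : KOk κ σ (σ.g 5)) {u c : ℕ}
    (hu : u < σ.g 3) (h : 0 < (cur κ σ).wt (σ.g 4) (cid κ σ) (cid κ σ u) c) :
    ∃ i < σ.g 5, ∃ j < σ.g 4, cnE.ev κ σ [elK.ev κ σ [u, i], j] = c := by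
  obtain ⟨w, hw, j, hj, h1, h2, h3⟩ := exists_of_wt_pos h
  obtain ⟨s, hs, hel⟩ := elK_spec κ σ hP hG hK u hu
  have hws : w ∈ s := by
    have : w ∈ (s : Set ℕ) := by
      rw [hs]
      exact (cid_eq_iff κ σ _ hG hK u w hu hw).mp h2.symm
    exact this
  obtain ⟨i, hi, h4⟩ := mem_sort_getD s (σ.g 5) (σ.g 3) (card_le hK hu s hs) hws
  refine ⟨i, hi, j, hj, ?_⟩
  rw [hel i (by have := L_le_cap hP; omega), h4, cn_spec κ σ hP hG hK,
    if_pos ⟨hw, h1.2.1, h1.2.2⟩, h3]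

end PClusBAux

theorem hv_spec (κ : Par) (σ : St) (hP : POk κ σ) (hG : (cur κ σ).Ok) (hK : KOk κ σ (σ.g 5))
    (u : ℕ) (hu : u < σ.g 3) (hl : (cur κ σ).deg u ≤ σ.g 4) :
    hvE.ev κ σ [u] = hvE.ev κ σ [cid κ σ u] ∧
    ((hvE.ev κ σ [u] = σ.g 3 ∧
        ∀ d, d ≠ cid κ σ u → (cur κ σ).wt (σ.g 4) (cid κ σ) (cid κ σ u) d = 0) ∨
      (hvE.ev κ σ [u] < σ.g 3 ∧ hvE.ev κ σ [u] ≠ cid κ σ u ∧
        cid κ σ (hvE.ev κ σ [u]) = hvE.ev κ σ [u] ∧ (cur κ σ).deg (hvE.ev κ σ [u]) ≤ σ.g 4 ∧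
        0 < (cur κ σ).wt (σ.g 4) (cid κ σ) (cid κ σ u) (hvE.ev κ σ [u]) ∧
        ∀ d, d ≠ cid κ σ u → (cur κ σ).wt (σ.g 4) (cid κ σ) (cid κ σ u) d ≤
          (cur κ σ).wt (σ.g 4) (cid κ σ) (cid κ σ u) (hvE.ev κ σ [u]))) := by
  have hcu := cid_lt hG hK hu
  have hcl := cid_low hG hK hu hl
  constructor
  · rw [hv_eq hP hG hK hu hl, hv_eq hP hG hK hcu hcl, cid_cid hG hK hu]
    apply out_congr _ _ (σ.g 5) le_rfl
    · intro y
      rw [wt_spec κ σ hP hG hK u y hu hl, wt_spec κ σ hP hG hK _ y hcu hcl, cid_cid hG hK hu]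
    · intro i hi j _
      rw [elK_cid hP hG hK hu (by have := L_le_cap hP; omega)]
  · have hN := wt_N hP hG hK hu hl
    have h1 := inv_out (N := σ.g 3) (b := cid κ σ u) (wt := fun y => wtE.ev κ σ [u, y]) hN
      (fun i j => cnE.ev κ σ [elK.ev κ σ [u, i], j]) (σ.g 4) (σ.g 5)
    rw [← hv_eq hP hG hK hu hl] at h1
    set h := hvE.ev κ σ [u] with hh
    have hwt : ∀ y < σ.g 3, wtE.ev κ σ [u, y] =
        (cur κ σ).wt (σ.g 4) (cid κ σ) (cid κ σ u) y := by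
      intro y hy
      rw [wt_spec κ σ hP hG hK u y hu hl, if_pos hy]
    rcases h1 with h1 | h1
    · left
      refine ⟨h1.1, ?_⟩
      intro d hd
      by_contra h2
      have h3 := seen_of_wt_pos hP hG hK hu (Nat.pos_of_ne_zero h2)
      by_cases hdN : d < σ.g 3
      · have h4 := h1.2 d h3 hdN hd
        dsimp only at h4
        rw [hwt d hdN] at h4
        exact h2 h4
      · exact h2 (wt_ge_N hG hK hdN)
    · right
      obtain ⟨h1a, h1b, _, h1d, h1e⟩ := h1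
      dsimp only at h1d h1e
      rw [hwt h h1a] at h1d
      obtain ⟨w, hw, j, hj, h2, h3, h4⟩ := exists_of_wt_pos h1d
      have hnb := hG.lt w hw j h2.2.1
      refine ⟨h1a, h1b, ?_, ?_, h1d, ?_⟩
      · rw [← h4]
        exact cid_cid hG hK hnb
      · rw [← h4]
        exact cid_low hG hK hnb h2.2.2
      · intro d hd
        by_cases hdz : (cur κ σ).wt (σ.g 4) (cid κ σ) (cid κ σ u) d = 0
        · omega
        · by_cases hdN : d < σ.g 3
          · have h5 := h1e d (seen_of_wt_pos hP hG hK hu (Nat.pos_of_ne_zero hdz)) hdN hd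
            rw [hwt d hdN, hwt h h1a] at h5
            exact h5
          · exact absurd (wt_ge_N hG hK hdN) hdz

namespace PClusBAux

variable {κ : Par} {σ : St}

lemma bt_le (b : Fin 16) (i : ℕ) : (bitE b).ev κ σ [i] ≤ 1 := by
  unfold bitE
  rw [ev_mod]
  have h : (2 : E).ev κ σ [i] = 2 := rfl
  rw [h]
  omega

lemma pp_le (x : ℕ) : ppE.ev κ σ [x] ≤ 2 := by
  unfold ppE
  rw [ev_ite]
  split_ifs
  · simp
  · rw [ev_mul, ev_call1]
    have h : (2 : E).ev κ σ [x] = 2 := rfl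
    rw [h]
    have := bt_le (κ := κ) (σ := σ) 5 ((E.v 0).ev κ σ [x])
    omega

/-- counting entries by their ends -/
lemma wt_eq_cnt (F : FG) (hF : F.Ok) (D : ℕ) (lab : ℕ → ℕ) (c d : ℕ) : F.wt D lab c d =
    ∑ a ∈ Finset.range F.N, ∑ b ∈ Finset.range F.N,
      if (F.deg a ≤ D ∧ lab a = c) ∧ (F.deg b ≤ D ∧ lab b = d) then F.cnt a b else 0 := by
  rw [wt_eq_sum]
  apply Finset.sum_congr rfl
  intro a ha
  have ha' := Finset.mem_range.mp ha
  by_cases h1 : F.deg a ≤ D ∧ lab a = c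
  · have e1 : ∀ b, (if (F.deg a ≤ D ∧ lab a = c) ∧ (F.deg b ≤ D ∧ lab b = d) then F.cnt a b else 0) =
        ∑ j ∈ Finset.range (F.deg a),
          if F.nb a j = b then (if F.deg b ≤ D ∧ lab b = d then 1 else 0) else 0 := by
      intro b
      by_cases h2 : F.deg b ≤ D ∧ lab b = d
      · rw [if_pos ⟨h1, h2⟩]
        simp only [if_pos h2]
        unfold FG.cnt
        rw [Finset.card_filter]
      · rw [if_neg (fun h => h2 h.2)]
        simp only [if_neg h2, ite_self, Finset.sum_const_zero]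
    simp_rw [e1]
    rw [Finset.sum_comm]
    have e2 : ∀ j ∈ Finset.range (F.deg a), ∑ b ∈ Finset.range F.N,
        (if F.nb a j = b then (if F.deg b ≤ D ∧ lab b = d then 1 else 0) else 0) =
        if F.deg (F.nb a j) ≤ D ∧ lab (F.nb a j) = d then 1 else 0 := by
      intro j hj
      rw [Finset.sum_ite_eq, if_pos]
      rw [Finset.mem_range]
      exact hF.lt a ha' j (Finset.mem_range.mp hj)
    rw [Finset.sum_congr rfl e2]
    symm
    apply Finset.sum_subset_zero_on_sdiff (Finset.range_mono h1.1)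
    · intro j hj
      rw [Finset.mem_sdiff, Finset.mem_range, Finset.mem_range] at hj
      rw [if_neg]
      rintro ⟨⟨_, h, _⟩, _⟩
      exact hj.2 h
    · intro j hj
      have hj' := Finset.mem_range.mp hj
      by_cases h2 : F.deg (F.nb a j) ≤ D ∧ lab (F.nb a j) = d
      · rw [if_pos h2, if_pos ⟨⟨h1.1, hj', h2.1⟩, h1.2, h2.2⟩]
      · rw [if_neg h2, if_neg (fun h => h2 ⟨h.1.2.2, h.2.2⟩)]
  · have e1 : ∀ b, (if (F.deg a ≤ D ∧ lab a = c) ∧ (F.deg b ≤ D ∧ lab b = d) then F.cnt a b else 0) =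
        0 := fun b => if_neg (fun h => h1 h.1)
    simp_rw [e1]
    rw [Finset.sum_const_zero]
    apply Finset.sum_eq_zero
    intro j _
    exact if_neg (fun h => h1 ⟨h.1.1, h.2.1⟩)

lemma wt_symm (F : FG) (hF : F.Ok) (D : ℕ) (lab : ℕ → ℕ) (c d : ℕ) :
    F.wt D lab c d = F.wt D lab d c := by
  rw [wt_eq_cnt F hF, wt_eq_cnt F hF, Finset.sum_comm]
  apply Finset.sum_congr rfl
  intro b hb
  apply Finset.sum_congr rfl
  intro a ha
  rw [hF.symm a (Finset.mem_range.mp ha) b (Finset.mem_range.mp hb)]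
  by_cases h : (F.deg a ≤ D ∧ lab a = c) ∧ (F.deg b ≤ D ∧ lab b = d)
  · rw [if_pos h, if_pos h.symm]
  · rw [if_neg h, if_neg (fun h' => h h'.symm)]

end PClusBAux

theorem in_spec (κ : Par) (σ : St) (hP : POk κ σ) (hG : (cur κ σ).Ok) (hK : KOk κ σ (σ.g 5))
    (u : ℕ) (hu : u < σ.g 3) (hl : (cur κ σ).deg u ≤ σ.g 4) : inE.ev κ σ [u] =
      ∑ c ∈ (Finset.range (σ.g 3)).filter (fun c => (cur κ σ).deg c ≤ σ.g 4 ∧ cid κ σ c = c ∧
        hvE.ev κ σ [c] = cid κ σ u),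
        (cur κ σ).wt (σ.g 4) (cid κ σ) c (cid κ σ u) * ppE.ev κ σ [c] := by
  obtain ⟨s, hs, hel⟩ := elK_spec κ σ hP hG hK u hu
  have hcu := cid_lt hG hK hu
  set g : ℕ → ℕ := fun x => if x < σ.g 3 ∧ x ≠ cid κ σ u ∧ hvE.ev κ σ [x] = cid κ σ u then
    ppE.ev κ σ [x] else 0 with hg
  have hgN : g (σ.g 3) = 0 := if_neg (fun h => lt_irrefl _ h.1)
  have h1 : inE.ev κ σ [u] = ∑ i ∈ Finset.range (σ.g 5), ∑ j ∈ Finset.range (σ.g 4),
      g (cnE.ev κ σ [elK.ev κ σ [u, i], j]) := by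
    refine ev_dsum [u] _ 2 (σ.g 5) (σ.g 4) _ (by simp) rfl rfl (L_le_cap hP) (D_le_cap hP) ?_ ?_
    · intro i _ j _ a a'
      simp only [ev_ite, ev_and, ev_less, ev_eqn, ev_neg, ev_call2, ev_call1, ev_v, ev_g, ev_lt,
        ev_add]
      simp only [List.cons_append, List.nil_append, List.getD_cons_zero, List.getD_cons_succ]
      rw [id_spec κ σ hP hG hK u hu, hg]
      generalize cnE.ev κ σ [elK.ev κ σ [u, i], j] = x
      dsimp only
      by_cases h1 : x < σ.g 3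
      · by_cases h2 : x = cid κ σ u
        · simp [h2]
        · by_cases h3 : hvE.ev κ σ [x] = cid κ σ u
          · simp [h1, h2, h3]
          · simp [h1, h2, h3]
      · simp [h1]
    · refine le_trans ?_ (two_LD_le hP)
      calc ∑ i ∈ Finset.range (σ.g 5), ∑ j ∈ Finset.range (σ.g 4),
          g (cnE.ev κ σ [elK.ev κ σ [u, i], j])
          ≤ ∑ i ∈ Finset.range (σ.g 5), ∑ j ∈ Finset.range (σ.g 4), 2 := by
            apply Finset.sum_le_sum
            intro i _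
            apply Finset.sum_le_sum
            intro j _
            rw [hg]
            dsimp only
            split_ifs
            · exact pp_le _
            · omega
        _ = _ := by simp
  rw [h1, sum_el hP hG hK hu s hs hel g hgN]
  -- group by the value
  have h2 : ∀ w ∈ s, ∀ j ∈ Finset.range (σ.g 4), g (cnE.ev κ σ [w, j]) =
      ∑ c ∈ Finset.range (σ.g 3), (if cnE.ev κ σ [w, j] = c then 1 else 0) * g c := by
    intro w _ j _
    simp only [ite_mul, one_mul, zero_mul]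
    rw [Finset.sum_ite_eq]
    by_cases h3 : cnE.ev κ σ [w, j] < σ.g 3
    · rw [if_pos (Finset.mem_range.mpr h3)]
    · rw [if_neg (fun h => h3 (Finset.mem_range.mp h)), hg]
      exact if_neg (fun h => h3 h.1)
  rw [Finset.sum_congr rfl (fun w hw => Finset.sum_congr rfl (h2 w hw))]
  have h3 : ∑ w ∈ s, ∑ j ∈ Finset.range (σ.g 4), ∑ c ∈ Finset.range (σ.g 3),
      (if cnE.ev κ σ [w, j] = c then 1 else 0) * g c =
      ∑ c ∈ Finset.range (σ.g 3),
        (cur κ σ).wt (σ.g 4) (cid κ σ) (cid κ σ u) c * g c := by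
    rw [Finset.sum_congr rfl (fun w _ => Finset.sum_comm), Finset.sum_comm]
    apply Finset.sum_congr rfl
    intro c hc
    rw [← sum_cluster hP hG hK hu hl s hs (Finset.mem_range.mp hc), Finset.sum_mul]
    apply Finset.sum_congr rfl
    intro w _
    rw [Finset.sum_mul]
  rw [h3, Finset.sum_filter]
  apply Finset.sum_congr rfl
  intro c hc
  have hcN := Finset.mem_range.mp hc
  by_cases h4 : (cur κ σ).deg c ≤ σ.g 4 ∧ cid κ σ c = c ∧ hvE.ev κ σ [c] = cid κ σ u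
  · rw [if_pos h4, wt_symm _ hG]
    congr 1
    rw [hg]
    apply if_pos
    refine ⟨hcN, ?_, h4.2.2⟩
    have h5 := (hv_spec κ σ hP hG hK c hcN h4.1).2
    rcases h5 with h5 | h5
    · rw [h5.1] at h4
      omega
    · rw [h4.2.1] at h5
      intro h6
      apply h5.2.1
      rw [h4.2.2, h6]
  · rw [if_neg h4]
    by_cases h5 : hvE.ev κ σ [c] = cid κ σ u
    · have h6 : (cur κ σ).wt (σ.g 4) (cid κ σ) (cid κ σ u) c = 0 := by
        by_contra h7
        obtain ⟨w, hw, j, hj, h8, h9, h10⟩ := exists_of_wt_pos (Nat.pos_of_ne_zero h7)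
        have hnb := hG.lt w hw j h8.2.1
        apply h4
        refine ⟨?_, ?_, h5⟩
        · rw [← h10]; exact cid_low hG hK hnb h8.2.2
        · rw [← h10]; exact cid_cid hG hK hnb
      rw [h6, zero_mul]
    · have h6 : g c = 0 := by
        rw [hg]
        exact if_neg (fun h => h5 h.2.2)
      rw [h6, mul_zero]

theorem dc_spec (κ : Par) (σ : St) (hP : POk κ σ) (hG : (cur κ σ).Ok) (hK : KOk κ σ (σ.g 5))
    (u : ℕ) (hu : u < σ.g 3) (hl : (cur κ σ).deg u ≤ σ.g 4) (hc : cid κ σ u = u) :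
    dcE.ev κ σ [u] = if
      ∑ c ∈ (Finset.range (σ.g 3)).filter (fun c => (cur κ σ).deg c ≤ σ.g 4 ∧ cid κ σ c = c ∧
        hvE.ev κ σ [c] = u), (cur κ σ).wt (σ.g 4) (cid κ σ) c u * ppE.ev κ σ [c] ≤
      (if hvE.ev κ σ [u] < σ.g 3 then (cur κ σ).wt (σ.g 4) (cid κ σ) u (hvE.ev κ σ [u]) *
        (2 - ppE.ev κ σ [hvE.ev κ σ [u]]) else 0) then 1 else 0 := by
  have h1 := in_spec κ σ hP hG hK u hu hl
  rw [hc] at h1
  unfold dcE
  simp only [ev_neg, ev_less, ev_call2, ev_call1, ev_v, ev_lt, ev_mul, ev_sub]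
  simp only [List.cons_append, List.nil_append, List.getD_cons_zero, List.getD_cons_succ]
  rw [wt_spec κ σ hP hG hK u _ hu hl, hc, h1]
  have h2 : (2 : E).ev κ σ [u, hvE.ev κ σ [u]] = 2 := rfl
  rw [h2]
  have h3 : (if hvE.ev κ σ [u] < σ.g 3 then
      (cur κ σ).wt (σ.g 4) (cid κ σ) u (hvE.ev κ σ [u]) else 0) * (2 - ppE.ev κ σ [hvE.ev κ σ [u]]) =
      (if hvE.ev κ σ [u] < σ.g 3 then (cur κ σ).wt (σ.g 4) (cid κ σ) u (hvE.ev κ σ [u]) *
        (2 - ppE.ev κ σ [hvE.ev κ σ [u]]) else 0) := by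
    rw [ite_mul, zero_mul]
  rw [h3]
  generalize (if hvE.ev κ σ [u] < σ.g 3 then (cur κ σ).wt (σ.g 4) (cid κ σ) u (hvE.ev κ σ [u]) *
        (2 - ppE.ev κ σ [hvE.ev κ σ [u]]) else 0) = A
  generalize ∑ c ∈ (Finset.range (σ.g 3)).filter (fun c => (cur κ σ).deg c ≤ σ.g 4 ∧
    cid κ σ c = c ∧ hvE.ev κ σ [c] = u), (cur κ σ).wt (σ.g 4) (cid κ σ) c u * ppE.ev κ σ [c] = B
  by_cases h4 : A < B
  · simp [h4]
  · simp [h4, not_lt.mp h4]

namespace PClusBAux

variable {κ : Par} {σ : St}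

lemma low_ev (u : ℕ) : lowE.ev κ σ [u] = if (cur κ σ).deg u ≤ σ.g 4 then 1 else 0 := by
  have h1 : lowE.ev κ σ [u] = if (if σ.g 4 < (cur κ σ).deg u then 1 else 0) = 0 then 1 else 0 := by
    unfold lowE
    simp only [ev_neg, ev_less, ev_call1, ev_g, ev_v]
    rfl
  rw [h1]
  by_cases h : (cur κ σ).deg u ≤ σ.g 4
  · simp [h]
  · simp [h, not_le.mp h]

lemma mg_ev (a b : ℕ) : mgE.ev κ σ [a, b] = 0 ↔ ¬ mrg κ σ a b := by
  unfold mgE mrg bt
  simp only [ev_and, ev_eqn, ev_neg, ev_call1, ev_v]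
  simp only [List.getD_cons_zero, List.getD_cons_succ]
  by_cases h1 : (bitE 5).ev κ σ [a] = 0
  · simp [h1]
  · by_cases h2 : hvE.ev κ σ [a] = b
    · by_cases h3 : (bitE 5).ev κ σ [b] = 0
      · simp [h1, h2, h3]
      · simp [h1, h2, h3]
    · simp [h1, h2]

end PClusBAux

theorem nk_spec (κ : Par) (σ : St) (hP : POk κ σ) (hG : (cur κ σ).Ok) (hK : KOk κ σ (σ.g 5))
    (u j : ℕ) (hu : u < σ.g 3) : nkE.ev κ σ [u, j] =
      if (cur κ σ).deg u ≤ σ.g 4 ∧ j < (cur κ σ).deg u ∧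
        (cur κ σ).deg ((cur κ σ).nb u j) ≤ σ.g 4 ∧
        (cid κ σ ((cur κ σ).nb u j) = cid κ σ u ∨
          mrg κ σ (cid κ σ ((cur κ σ).nb u j)) (cid κ σ u) ∨
          mrg κ σ (cid κ σ u) (cid κ σ ((cur κ σ).nb u j))) then 1 else 0 := by
  unfold nkE
  simp only [ev_ite, ev_and, ev_or, ev_less, ev_eqn, ev_call2, ev_call1, ev_v, ev_g, ev_lt,
    ev_one, ev_zero]
  simp only [List.cons_append, List.nil_append, List.getD_cons_zero, List.getD_cons_succ]
  rw [low_ev, id_spec κ σ hP hG hK u hu]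
  by_cases h1 : (cur κ σ).deg u ≤ σ.g 4
  · by_cases h2 : j < (cur κ σ).deg u ∧ (cur κ σ).deg ((cur κ σ).nb u j) ≤ σ.g 4
    · have h3 : cnE.ev κ σ [u, j] = cid κ σ ((cur κ σ).nb u j) := by
        rw [cn_spec κ σ hP hG hK, if_pos ⟨hu, h2.1, h2.2⟩]
      have h4 : cid κ σ ((cur κ σ).nb u j) < σ.g 3 := cid_lt hG hK (hG.lt u hu j h2.1)
      rw [h3]
      by_cases h5 : cid κ σ ((cur κ σ).nb u j) = cid κ σ u
      · have h6 : cid κ σ u < σ.g 3 := cid_lt hG hK hu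
        simp [h1, h2, h5, h6]
      · by_cases h6 : mrg κ σ (cid κ σ ((cur κ σ).nb u j)) (cid κ σ u)
        · have h6' := (mg_ev (κ := κ) (σ := σ) (cid κ σ ((cur κ σ).nb u j)) (cid κ σ u)).not.mpr
            (not_not.mpr h6)
          simp [h1, h2, h4, h5, h6, h6']
        · have h6' := (mg_ev (κ := κ) (σ := σ) (cid κ σ ((cur κ σ).nb u j)) (cid κ σ u)).mpr h6
          by_cases h7 : mrg κ σ (cid κ σ u) (cid κ σ ((cur κ σ).nb u j))
          · have h7' := (mg_ev (κ := κ) (σ := σ) (cid κ σ u) (cid κ σ ((cur κ σ).nb u j))).not.mpr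
              (not_not.mpr h7)
            simp [h1, h2, h4, h5, h6, h6', h7, h7']
          · have h7' := (mg_ev (κ := κ) (σ := σ) (cid κ σ u) (cid κ σ ((cur κ σ).nb u j))).mpr h7
            simp [h1, h2, h4, h5, h6, h6', h7, h7']
    · have h3 : cnE.ev κ σ [u, j] = σ.g 3 := by
        rw [cn_spec κ σ hP hG hK, if_neg (fun h => h2 h.2)]
      rw [h3]
      have h4 : ¬ ((cur κ σ).deg u ≤ σ.g 4 ∧ j < (cur κ σ).deg u ∧
        (cur κ σ).deg ((cur κ σ).nb u j) ≤ σ.g 4 ∧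
        (cid κ σ ((cur κ σ).nb u j) = cid κ σ u ∨
          mrg κ σ (cid κ σ ((cur κ σ).nb u j)) (cid κ σ u) ∨
          mrg κ σ (cid κ σ u) (cid κ σ ((cur κ σ).nb u j)))) :=
        fun h => h2 ⟨h.2.1, h.2.2.1⟩
      rw [if_neg h4]
      simp [h1]
  · simp [h1]

theorem mk_spec (κ : Par) (σ : St) (hP : POk κ σ) (hG : (cur κ σ).Ok) (hK : KOk κ σ (σ.g 5))
    (u : ℕ) (hu : u < σ.g 3) : mkE.ev κ σ [u] =
      if (cur κ σ).deg u ≤ σ.g 4 ∧ ∀ j < (cur κ σ).deg u,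
        (cur κ σ).deg ((cur κ σ).nb u j) ≤ σ.g 4 →
          cid κ σ ((cur κ σ).nb u j) = cid κ σ u then 0 else 1 := by
  have htop : 1 ≤ κ.top := by
    have := hP.N
    omega
  unfold mkE
  rw [ev_ite, ev_call1]
  have e0 : (E.v 0).ev κ σ [u] = u := rfl
  rw [e0, low_ev]
  by_cases h1 : (cur κ σ).deg u ≤ σ.g 4
  · have h2 := ev_ex κ σ [u] 1 (.g 4) (.lt (call2 cnE (.v 0) (.v 1))
      (and (less (.v 4) (.g 3)) (neg (eqn (.v 4) (call1 idE (.v 0)))))) (σ.g 4)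
      (fun j => cnE.ev κ σ [u, j] < σ.g 3 ∧ cnE.ev κ σ [u, j] ≠ cid κ σ u) rfl rfl
      (D_le_cap hP) htop (by
        intro j _ acc
        simp only [ev_and, ev_less, ev_eqn, ev_neg, ev_call2, ev_call1, ev_v, ev_g, ev_lt]
        simp only [List.cons_append, List.nil_append, List.getD_cons_zero, List.getD_cons_succ]
        rw [id_spec κ σ hP hG hK u hu]
        generalize cnE.ev κ σ [u, j] = x
        by_cases h3 : x < σ.g 3
        · by_cases h4 : x = cid κ σ u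
          · simp [h4]
          · simp [h3, h4]
        · simp [h3])
    rw [h2, if_pos h1, if_neg one_ne_zero]
    by_cases h3 : ∀ j < (cur κ σ).deg u, (cur κ σ).deg ((cur κ σ).nb u j) ≤ σ.g 4 →
          cid κ σ ((cur κ σ).nb u j) = cid κ σ u
    · rw [if_pos (⟨h1, h3⟩ : (cur κ σ).deg u ≤ σ.g 4 ∧ ∀ j < (cur κ σ).deg u,
        (cur κ σ).deg ((cur κ σ).nb u j) ≤ σ.g 4 →
          cid κ σ ((cur κ σ).nb u j) = cid κ σ u)]
      apply if_neg
      rintro ⟨j, _, h4, h5⟩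
      rw [cn_spec κ σ hP hG hK] at h4 h5
      by_cases h6 : u < σ.g 3 ∧ j < (cur κ σ).deg u ∧ (cur κ σ).deg ((cur κ σ).nb u j) ≤ σ.g 4
      · rw [if_pos h6] at h5
        exact h5 (h3 j h6.2.1 h6.2.2)
      · rw [if_neg h6] at h4
        exact lt_irrefl _ h4
    · have h7 : ¬ ((cur κ σ).deg u ≤ σ.g 4 ∧ ∀ j < (cur κ σ).deg u,
          (cur κ σ).deg ((cur κ σ).nb u j) ≤ σ.g 4 →
            cid κ σ ((cur κ σ).nb u j) = cid κ σ u) := fun h => h3 h.2
      rw [if_neg h7]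
      apply if_pos
      push Not at h3
      obtain ⟨j, hj, h4, h5⟩ := h3
      have h6 : cnE.ev κ σ [u, j] = cid κ σ ((cur κ σ).nb u j) := by
        rw [cn_spec κ σ hP hG hK, if_pos ⟨hu, hj, h4⟩]
      refine ⟨j, by omega, ?_, ?_⟩
      · rw [h6]
        exact cid_lt hG hK (hG.lt u hu j hj)
      · rw [h6]
        exact h5
  · rw [if_neg h1, if_pos rfl, if_neg (fun h => h1 h.1), ev_one]

end Pool.Agent.MP9d6bd1
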