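import Mathlib
import Pool.Agent.Lib.MP_9d6bd1_lc.GDefs
import Pool.Agent.Lib.MP_9d6bd1_lc.GMinor
import Pool.Agent.Lib.MP_9d6bd1_lc.GEuler

/-!
# MP_9d6bd1_lc, module G25: heavy neighbours in planar graphs
-/

set_option autoImplicit false

open Classical

namespace Pool.Agent.MP9d6bd1

namespace GHeavyAux

/-- the subgraph spanned by a finite set of vertices, on the same vertex type. -/
def res {ι : Type} (Q : SimpleGraph ι) (S : Finset ι) : SimpleGraph ι where
  Adj u v := Q.Adj u v ∧ u ∈ S ∧ v ∈ S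
  symm := ⟨fun _ _ h => ⟨h.1.symm, h.2.2, h.2.1⟩⟩
  loopless := ⟨fun v h => Q.loopless.irrefl v h.1⟩

theorem res_le {ι : Type} (Q : SimpleGraph ι) (S : Finset ι) : res Q S ≤ Q :=
  fun _ _ h => h.1

/-- a nonempty set of vertices of a planar graph contains a vertex with at most six neighbours in
the set. -/
theorem low {ι : Type} [Fintype ι] (Q : SimpleGraph ι) (hQ : Planar Q) (S : Finset ι)
    (hS : S.Nonempty) : ∃ i ∈ S, (S.filter fun j => Q.Adj i j).card ≤ 6 := by
  by_contra hcon
  push Not at hcon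
  have hP : Planar (res Q S) := planar_mono (res_le Q S) hQ
  have hE := planar_edges (res Q S) hP
  have hsup : (res Q S).support.ncard ≤ S.card := by
    rw [← Set.ncard_coe_finset]
    refine Set.ncard_le_ncard ?_ (Finset.finite_toSet S)
    intro u hu
    obtain ⟨v, hv⟩ := hu
    exact hv.2.1
  have hE' : (res Q S).edgeSet.ncard = (res Q S).edgeFinset.card := by
    rw [← SimpleGraph.coe_edgeFinset, Set.ncard_coe_finset]
  have hsum := (res Q S).sum_degrees_eq_twice_card_edges
  have hdeg : ∀ i ∈ S, 7 ≤ (res Q S).degree i := by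
    intro i hi
    have h1 : (S.filter fun j => Q.Adj i j) ⊆ (res Q S).neighborFinset i := by
      intro j hj
      rw [Finset.mem_filter] at hj
      rw [SimpleGraph.mem_neighborFinset]
      exact ⟨hj.2, hi, hj.1⟩
    have h2 := Finset.card_le_card h1
    have h3 := hcon i hi
    rw [SimpleGraph.card_neighborFinset_eq_degree] at h2
    omega
  have h7 : 7 * S.card ≤ ∑ i, (res Q S).degree i := by
    calc 7 * S.card = ∑ _i ∈ S, 7 := by simp [mul_comm]
      _ ≤ ∑ i ∈ S, (res Q S).degree i := Finset.sum_le_sum hdeg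
      _ ≤ ∑ i, (res Q S).degree i := Finset.sum_le_sum_of_subset (Finset.subset_univ S)
  have hpos : 0 < S.card := Finset.card_pos.2 hS
  omega

theorem main {ι : Type} [Fintype ι] (Q : SimpleGraph ι) (hQ : Planar Q) (w : ι → ι → ℕ)
    (hs : ∀ i j, w i j = w j i) (h0 : ∀ i j, w i j ≠ 0 → Q.Adj i j) (h : ι → ℕ)
    (hh : ∀ i j, w i j ≤ h i) (n : ℕ) : ∀ S : Finset ι, S.card = n →
      ∑ i ∈ S, ∑ j ∈ S, w i j ≤ 12 * ∑ i ∈ S, h i := by
  induction n with
  | zero =>
    intro S hS
    rw [Finset.card_eq_zero] at hS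
    subst hS
    simp
  | succ n ih =>
    intro S hS
    obtain ⟨a, ha, hlow⟩ := low Q hQ S (Finset.card_pos.1 (by omega))
    have hcard : (S.erase a).card = n := by
      rw [Finset.card_erase_of_mem ha, hS]
      rfl
    have hI := ih (S.erase a) hcard
    have hin : S = insert a (S.erase a) := (Finset.insert_erase ha).symm
    have hna : a ∉ S.erase a := Finset.notMem_erase a S
    have haa : w a a = 0 := by
      by_contra hne
      exact Q.loopless.irrefl a (h0 a a hne)
    have hrow : ∑ j ∈ S, w a j ≤ 6 * h a := by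
      have h1 : ∑ j ∈ S, w a j = ∑ j ∈ S.filter (fun j => Q.Adj a j), w a j := by
        rw [Finset.sum_filter]
        refine Finset.sum_congr rfl ?_
        intro j _
        by_cases hj : Q.Adj a j
        · rw [if_pos hj]
        · rw [if_neg hj]
          by_contra hne
          exact hj (h0 a j hne)
      rw [h1]
      calc ∑ j ∈ S.filter (fun j => Q.Adj a j), w a j
          ≤ ∑ _j ∈ S.filter (fun j => Q.Adj a j), h a := Finset.sum_le_sum (fun j _ => hh a j)
        _ = (S.filter fun j => Q.Adj a j).card * h a := by simp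
        _ ≤ 6 * h a := Nat.mul_le_mul_right _ hlow
    have hsplit : ∑ j ∈ S, w a j = w a a + ∑ j ∈ S.erase a, w a j :=
      (Finset.add_sum_erase S (fun j => w a j) ha).symm
    have h2 : ∑ i ∈ S, ∑ j ∈ S, w i j
        = ∑ j ∈ S, w a j + ∑ i ∈ S.erase a, ∑ j ∈ S, w i j :=
      (Finset.add_sum_erase S (fun i => ∑ j ∈ S, w i j) ha).symm
    have h3 : ∑ i ∈ S.erase a, ∑ j ∈ S, w i j
        = ∑ i ∈ S.erase a, w i a + ∑ i ∈ S.erase a, ∑ j ∈ S.erase a, w i j := by
      rw [← Finset.sum_add_distrib]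
      refine Finset.sum_congr rfl ?_
      intro i _
      exact (Finset.add_sum_erase S (fun j => w i j) ha).symm
    have h4 : ∑ i ∈ S.erase a, w i a = ∑ i ∈ S.erase a, w a i :=
      Finset.sum_congr rfl (fun i _ => hs i a)
    have h5 : ∑ i ∈ S, h i = h a + ∑ i ∈ S.erase a, h i := (Finset.add_sum_erase S h ha).symm
    rw [h2, h3, h4, h5]
    omega

end GHeavyAux

theorem heavy {ι : Type} [Fintype ι] (Q : SimpleGraph ι) (hQ : Planar Q) (w : ι → ι → ℕ)
    (hs : ∀ i j, w i j = w j i) (h0 : ∀ i j, w i j ≠ 0 → Q.Adj i j) (h : ι → ℕ)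
    (hh : ∀ i j, w i j ≤ h i) : ∑ i, ∑ j, w i j ≤ 12 * ∑ i, h i :=
  GHeavyAux.main Q hQ w hs h0 h hh _ Finset.univ rfl

end Pool.Agent.MP9d6bd1
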