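import Mathlib
import Pool.Agent.Lib.MP_9d6bd1_lc.GDefs
import Pool.Agent.Lib.MP_9d6bd1_lc.GMinor
import Pool.Agent.Lib.MP_9d6bd1_lc.GHeavy
import Pool.Agent.Lib.MP_9d6bd1_lc.Spec

/-!
# MP_9d6bd1_lc, module P13: decay of the number of entries between clusters
-/

set_option autoImplicit false

open Classical

namespace Pool.Agent.MP9d6bd1

/-- the centre of the star of the cluster `c` -/
noncomputable def ctr (n : ℕ) (h x : ℕ → ℕ) (c : ℕ) : ℕ :=
  if x c = 1 ∧ h c < n ∧ x (h c) = 0 then h c else c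

namespace PDecayAux

theorem mem_ents {F : FG} {D : ℕ} {p : ℕ × ℕ} : p ∈ F.ents D ↔
    p.1 < F.N ∧ F.deg p.1 ≤ D ∧ p.2 < F.deg p.1 ∧ F.deg (F.nb p.1 p.2) ≤ D := by
  simp only [FG.ents, Finset.mem_filter, Finset.mem_product, Finset.mem_range]
  constructor
  · rintro ⟨⟨h1, h2⟩, h3, h4, h5⟩
    exact ⟨h1, h3, h4, h5⟩
  · rintro ⟨h1, h3, h4, h5⟩
    exact ⟨⟨h1, by omega⟩, h3, h4, h5⟩

/-- low vertices with label `c` -/
noncomputable def cl (F : FG) (D : ℕ) (lab : ℕ → ℕ) (c : ℕ) : Finset ℕ :=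
  (Finset.range F.N).filter fun u => F.deg u ≤ D ∧ lab u = c

theorem wt_eq {F : FG} (hF : F.Ok) (D : ℕ) (lab : ℕ → ℕ) (c d : ℕ) :
    F.wt D lab c d = ∑ u ∈ cl F D lab c, ∑ v ∈ cl F D lab d, F.cnt u v := by
  unfold FG.wt
  rw [Finset.card_eq_sum_card_fiberwise (f := fun p : ℕ × ℕ => (p.1, F.nb p.1 p.2))
    (t := cl F D lab c ×ˢ cl F D lab d), Finset.sum_product]
  · refine Finset.sum_congr rfl fun u hu => Finset.sum_congr rfl fun v hv => ?_
    simp only [cl, Finset.mem_filter, Finset.mem_range] at hu hv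
    have : ((F.ents D).filter fun p => lab p.1 = c ∧ lab (F.nb p.1 p.2) = d).filter
        (fun p => (p.1, F.nb p.1 p.2) = (u, v)) =
        ((Finset.range (F.deg u)).filter fun j => F.nb u j = v).image (fun j => (u, j)) := by
      ext ⟨a, b⟩
      simp only [Finset.mem_filter, mem_ents, Finset.mem_image, Finset.mem_range, Prod.mk.injEq]
      constructor
      · rintro ⟨⟨⟨h1, h2, h3, h4⟩, h5, h6⟩, h7, h8⟩
        exact ⟨b, ⟨by rw [← h7]; exact h3, by rw [← h7]; exact h8⟩, h7.symm, rfl⟩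
      · rintro ⟨j, ⟨h1, h2⟩, rfl, rfl⟩
        exact ⟨⟨⟨hu.1, hu.2.1, h1, by rw [h2]; exact hv.2.1⟩, hu.2.2,
          by rw [h2]; exact hv.2.2⟩, rfl, h2⟩
    rw [this, Finset.card_image_of_injective _ (fun a b h => (Prod.mk.inj h).2)]
    rfl
  · intro p hp
    simp only [Finset.coe_filter, Set.mem_setOf_eq, mem_ents] at hp
    obtain ⟨⟨h1, h2, h3, h4⟩, h5, h6⟩ := hp
    simp only [Finset.coe_product, Set.mem_prod, Finset.mem_coe, cl, Finset.mem_filter,
      Finset.mem_range]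
    exact ⟨⟨h1, h2, h5⟩, hF.lt _ h1 _ h3, h4, h6⟩

theorem wt_symm {F : FG} (hF : F.Ok) (D : ℕ) (lab : ℕ → ℕ) (c d : ℕ) :
    F.wt D lab c d = F.wt D lab d c := by
  rw [wt_eq hF, wt_eq hF, Finset.sum_comm]
  refine Finset.sum_congr rfl fun v hv => Finset.sum_congr rfl fun u hu => ?_
  simp only [cl, Finset.mem_filter, Finset.mem_range] at hu hv
  exact hF.symm u hu.1 v hv.1

theorem WI_eq {F : FG} (hF : F.Ok) (D : ℕ) (lab : ℕ → ℕ)
    (hlab : ∀ u < F.N, F.deg u ≤ D → lab u < F.N) :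
    F.WI D lab = ∑ c ∈ Finset.range F.N, ∑ d ∈ Finset.range F.N,
      if c ≠ d then F.wt D lab c d else 0 := by
  unfold FG.WI
  rw [Finset.card_eq_sum_card_fiberwise (f := fun p : ℕ × ℕ => (lab p.1, lab (F.nb p.1 p.2)))
    (t := Finset.range F.N ×ˢ Finset.range F.N), Finset.sum_product]
  · refine Finset.sum_congr rfl fun c _ => Finset.sum_congr rfl fun d _ => ?_
    split_ifs with h
    · unfold FG.wt
      congr 1
      ext p
      simp only [Finset.mem_filter, Prod.mk.injEq]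
      constructor
      · rintro ⟨⟨h1, _⟩, h3, h4⟩
        exact ⟨h1, h3, h4⟩
      · rintro ⟨h1, h3, h4⟩
        exact ⟨⟨h1, by rw [h3, h4]; exact h⟩, h3, h4⟩
    · rw [Finset.card_eq_zero]
      ext p
      simp only [Finset.mem_filter, Prod.mk.injEq, Finset.notMem_empty, iff_false]
      rintro ⟨⟨_, h2⟩, h3, h4⟩
      exact h (by rw [← h3, ← h4]; exact h2)
  · intro p hp
    simp only [Finset.coe_filter, Set.mem_setOf_eq, mem_ents] at hp
    obtain ⟨⟨h1, h2, h3, h4⟩, _⟩ := hp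
    simp only [Finset.coe_product, Set.mem_prod, Finset.mem_coe, Finset.mem_range]
    exact ⟨hlab _ h1 h2, hlab _ (hF.lt _ h1 _ h3) h4⟩

theorem exists_of_wt {F : FG} (D : ℕ) (lab : ℕ → ℕ) (c d : ℕ) (h : F.wt D lab c d ≠ 0) :
    ∃ u < F.N, ∃ j < F.deg u, F.deg u ≤ D ∧ F.deg (F.nb u j) ≤ D ∧ lab u = c ∧
      lab (F.nb u j) = d := by
  unfold FG.wt at h
  obtain ⟨p, hp⟩ := Finset.card_pos.1 (Nat.pos_of_ne_zero h)
  simp only [Finset.mem_filter, mem_ents] at hp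
  obtain ⟨⟨h1, h2, h3, h4⟩, h5, h6⟩ := hp
  exact ⟨p.1, h1, p.2, h3, h2, h4, h5, h6⟩

theorem card_B1 (F : FG) (D : ℕ) (lab h : ℕ → ℕ) (Mg : Finset ℕ) :
    ((F.ents D).filter fun p => lab p.1 ∈ Mg ∧ lab (F.nb p.1 p.2) = h (lab p.1)).card =
      ∑ c ∈ Mg, F.wt D lab c (h c) := by
  rw [Finset.card_eq_sum_card_fiberwise (f := fun p : ℕ × ℕ => lab p.1) (t := Mg)]
  · refine Finset.sum_congr rfl fun c hc => ?_
    unfold FG.wt
    congr 1
    ext p
    simp only [Finset.mem_filter]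
    constructor
    · rintro ⟨⟨h1, h2, h3⟩, h4⟩
      exact ⟨h1, h4, by rw [h3, h4]⟩
    · rintro ⟨h1, h2, h3⟩
      exact ⟨⟨h1, by rw [h2]; exact hc, by rw [h3, h2]⟩, h2⟩
  · intro p hp
    simp only [Finset.coe_filter, Set.mem_setOf_eq] at hp
    exact hp.2.1

theorem card_B2 (F : FG) (D : ℕ) (lab h : ℕ → ℕ) (Mg : Finset ℕ) :
    ((F.ents D).filter fun p => lab (F.nb p.1 p.2) ∈ Mg ∧ lab p.1 = h (lab (F.nb p.1 p.2))).card =
      ∑ c ∈ Mg, F.wt D lab (h c) c := by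
  rw [Finset.card_eq_sum_card_fiberwise (f := fun p : ℕ × ℕ => lab (F.nb p.1 p.2)) (t := Mg)]
  · refine Finset.sum_congr rfl fun c hc => ?_
    unfold FG.wt
    congr 1
    ext p
    simp only [Finset.mem_filter]
    constructor
    · rintro ⟨⟨h1, h2, h3⟩, h4⟩
      exact ⟨h1, by rw [h3, h4], h4⟩
    · rintro ⟨h1, h2, h3⟩
      exact ⟨⟨h1, by rw [h3]; exact hc, by rw [h3, h2]⟩, h3⟩
  · intro p hp
    simp only [Finset.coe_filter, Set.mem_setOf_eq] at hp
    exact hp.2.1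

/-- the subgraph spanned by the low vertices -/
def lowG (F : FG) (D : ℕ) : SimpleGraph ℕ where
  Adj u v := F.gr.Adj u v ∧ (u < F.N ∧ F.deg u ≤ D) ∧ (v < F.N ∧ F.deg v ≤ D)
  symm := ⟨fun _ _ h => ⟨h.1.symm, h.2.2, h.2.1⟩⟩
  loopless := ⟨fun v h => F.gr.loopless.irrefl v h.1⟩

/-- the quotient graph -/
def quo (F : FG) (hF : F.Ok) (D : ℕ) (lab : ℕ → ℕ) : SimpleGraph (Fin F.N) where
  Adj i j := i ≠ j ∧ F.wt D lab i j ≠ 0
  symm := ⟨fun _ _ h => ⟨h.1.symm, by rw [wt_symm hF]; exact h.2⟩⟩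
  loopless := ⟨fun _ h => h.1 rfl⟩

theorem quo_planar (F : FG) (hF : F.Ok) (hp : Planar F.gr) (D : ℕ) (lab : ℕ → ℕ)
    (hconn : ∀ u < F.N, F.deg u ≤ D → (F.gr.induce (F.cls D lab (lab u))).Connected) :
    Planar (quo F hF D lab) := by
  obtain ⟨f, hf⟩ : ∃ f : ℕ → Option ℕ, f = fun u =>
    if u < F.N ∧ F.deg u ≤ D then some (lab u) else none := ⟨_, rfl⟩
  have hlow : Planar (lowG F D) := planar_mono (fun _ _ h => h.1) hp
  have hfl : ∀ u, u < F.N → F.deg u ≤ D → f u = some (lab u) := by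
    intro u h1 h2
    rw [hf]
    exact if_pos ⟨h1, h2⟩
  have hmap : Planar ((lowG F D).map f) := by
    refine planar_map _ _ (fun w hw => ?_) hlow
    obtain ⟨v, _, a, b, hab, ha, _⟩ := hw
    have hal := hab.2.1
    rw [hfl a hal.1 hal.2] at ha
    subst ha
    have hset : f ⁻¹' {some (lab a)} = F.cls D lab (lab a) := by
      ext y
      simp only [Set.mem_preimage, Set.mem_singleton_iff, FG.cls, Set.mem_setOf_eq, hf]
      split_ifs with hy
      · simp only [Option.some.injEq]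
        exact ⟨fun h => ⟨hy.1, hy.2, h⟩, fun h => h.2.2⟩
      · simp only [reduceCtorEq, false_iff]
        exact fun h => hy ⟨h.1, h.2.1⟩
    rw [hset]
    have hgr : (lowG F D).induce (F.cls D lab (lab a)) = F.gr.induce (F.cls D lab (lab a)) := by
      ext x y
      simp only [SimpleGraph.comap_adj, Function.Embedding.subtype_apply]
      exact ⟨fun h => h.1, fun h => ⟨h, ⟨x.2.1, x.2.2.1⟩, ⟨y.2.1, y.2.2.1⟩⟩⟩
    rw [hgr]
    exact hconn a hal.1 hal.2
  obtain ⟨g, hg⟩ : ∃ g : Fin F.N ↪ Option ℕ, ∀ i, g i = some (i : ℕ) :=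
    ⟨⟨fun i => some (i : ℕ), fun i j hij => Fin.ext (Option.some.inj hij)⟩, fun _ => rfl⟩
  rw [← planar_embed _ g]
  refine planar_mono ?_ hmap
  intro a b hab
  obtain ⟨hne, i, j, hij, rfl, rfl⟩ := hab
  obtain ⟨u, hu, k, hk, h1, h2, h3, h4⟩ := exists_of_wt D lab i j hij.2
  have hv := hF.lt u hu k hk
  refine ⟨hne, u, F.nb u k, ⟨?_, ⟨hu, h1⟩, ⟨hv, h2⟩⟩, ?_, ?_⟩
  · rw [FG.gr, SimpleGraph.fromRel_adj]
    exact ⟨(hF.ne u hu k hk).symm, Or.inl ⟨hu, hv, k, hk, rfl⟩⟩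
  · rw [hfl u hu h1, h3, hg]
  · rw [hfl _ hv h2, h4, hg]

end PDecayAux

open PDecayAux

theorem decay (F : FG) (hF : F.Ok) (hp : Planar F.gr) (D : ℕ) (lab h x : ℕ → ℕ)
    (hx : ∀ c, x c < 2)
    (hlab : ∀ u < F.N, F.deg u ≤ D → lab u < F.N ∧ F.deg (lab u) ≤ D ∧ lab (lab u) = lab u)
    (hconn : ∀ u < F.N, F.deg u ≤ D → (F.gr.induce (F.cls D lab (lab u))).Connected)
    (hh : ∀ c < F.N, F.deg c ≤ D → lab c = c →
      (h c = F.N ∧ ∀ d, d ≠ c → F.wt D lab c d = 0) ∨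
      (h c < F.N ∧ h c ≠ c ∧ lab (h c) = h c ∧ F.deg (h c) ≤ D ∧ 0 < F.wt D lab c (h c) ∧
        ∀ d, d ≠ c → F.wt D lab c d ≤ F.wt D lab c (h c)))
    (hg : ∑ c ∈ (Finset.range F.N).filter (fun c => (F.deg c ≤ D ∧ lab c = c) ∧ h c < F.N),
        F.wt D lab c (h c) ≤
      4 * ∑ c ∈ (Finset.range F.N).filter (fun c => (F.deg c ≤ D ∧ lab c = c) ∧ h c < F.N ∧
        x c = 1 ∧ x (h c) = 0), F.wt D lab c (h c))
    (lab' : ℕ → ℕ) (hlab' : ∀ u < F.N, F.deg u ≤ D → ∀ y < F.N, F.deg y ≤ D →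
      (lab' u = lab' y ↔ ctr F.N h x (lab u) = ctr F.N h x (lab y))) :
    24 * F.WI D lab' ≤ 23 * F.WI D lab := by
  have _ := hx
  obtain ⟨Mg, hMg⟩ : ∃ Mg : Finset ℕ, Mg = (Finset.range F.N).filter (fun c =>
    (F.deg c ≤ D ∧ lab c = c) ∧ h c < F.N ∧ x c = 1 ∧ x (h c) = 0) := ⟨_, rfl⟩
  have hmem : ∀ c, c ∈ Mg → c < F.N ∧ F.deg c ≤ D ∧ lab c = c ∧ h c < F.N ∧ x c = 1 ∧
      x (h c) = 0 ∧ h c ≠ c := by
    intro c hc
    rw [hMg] at hc
    simp only [Finset.mem_filter, Finset.mem_range] at hc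
    obtain ⟨h1, ⟨h2, h3⟩, h4, h5, h6⟩ := hc
    refine ⟨h1, h2, h3, h4, h5, h6, ?_⟩
    rcases hh c h1 h2 h3 with ⟨h7, _⟩ | ⟨_, h7, _⟩
    · omega
    · exact h7
  rw [← hMg] at hg
  -- the weights between clusters
  have key1 : F.WI D lab ≤ 12 * ∑ c ∈ (Finset.range F.N).filter
      (fun c => (F.deg c ≤ D ∧ lab c = c) ∧ h c < F.N), F.wt D lab c (h c) := by
    rw [WI_eq hF D lab (fun u h1 h2 => (hlab u h1 h2).1)]
    have hheavy := heavy (quo F hF D lab) (quo_planar F hF hp D lab hconn)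
      (fun i j => if (i : ℕ) ≠ j then F.wt D lab i j else 0)
      (fun i j => by
        by_cases hij : (i : ℕ) = j
        · simp [hij]
        · have hji : (j : ℕ) ≠ i := fun hh => hij hh.symm
          simp only [ne_eq, hij, not_false_eq_true, if_true, hji]
          exact wt_symm hF D lab i j)
      (fun i j hij => by
        by_cases hne : (i : ℕ) = j
        · simp [hne] at hij
        · simp only [ne_eq, hne, not_false_eq_true, if_true] at hij
          exact ⟨fun hh => hne (congrArg Fin.val hh), hij⟩)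
      (fun i => if (F.deg i ≤ D ∧ lab i = i) ∧ h i < F.N then F.wt D lab i (h i) else 0)
      (fun i j => by
        by_cases hne : (i : ℕ) = j
        · simp [hne]
        · simp only [ne_eq, hne, not_false_eq_true, if_true]
          by_cases h0 : F.wt D lab i j = 0
          · rw [h0]
            exact Nat.zero_le _
          · obtain ⟨u, hu, k, hk, h1, h2, h3, h4⟩ := exists_of_wt D lab i j h0
            obtain ⟨l1, l2, l3⟩ := hlab u hu h1
            rw [h3] at l1 l2 l3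
            rcases hh i l1 l2 l3 with ⟨_, h7⟩ | ⟨h5, h6, _, _, _, h7⟩
            · exact absurd (h7 j (fun hh => hne hh.symm)) h0
            · rw [if_pos ⟨⟨l2, l3⟩, h5⟩]
              exact h7 j (fun hh => hne hh.symm))
    rw [Finset.sum_filter, Finset.sum_range, Finset.sum_range]
    refine le_trans (le_of_eq ?_) hheavy
    refine Finset.sum_congr rfl fun i _ => ?_
    rw [Finset.sum_range]
  have key2 : F.WI D lab' + 2 * ∑ c ∈ Mg, F.wt D lab c (h c) ≤ F.WI D lab := by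
    have c1 := card_B1 F D lab h Mg
    have c2 := card_B2 F D lab h Mg
    have c3 : ∑ c ∈ Mg, F.wt D lab (h c) c = ∑ c ∈ Mg, F.wt D lab c (h c) :=
      Finset.sum_congr rfl fun c _ => wt_symm hF D lab _ _
    rw [c3] at c2
    rw [two_mul, ← add_assoc]
    nth_rewrite 1 [← c1]
    rw [← c2]
    have ctr1 : ∀ c ∈ Mg, ctr F.N h x c = h c := by
      intro c hc
      obtain ⟨_, _, _, h4, h5, h6, _⟩ := hmem c hc
      unfold ctr
      rw [if_pos ⟨h5, h4, h6⟩]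
    have ctr2 : ∀ c ∈ Mg, ctr F.N h x (h c) = h c := by
      intro c hc
      obtain ⟨_, _, _, h4, h5, h6, _⟩ := hmem c hc
      unfold ctr
      rw [if_neg]
      rintro ⟨h7, _⟩
      omega
    unfold FG.WI
    rw [← Finset.card_union_of_disjoint, ← Finset.card_union_of_disjoint]
    · refine Finset.card_le_card ?_
      intro p hp
      simp only [Finset.mem_union, Finset.mem_filter] at hp
      rw [Finset.mem_filter]
      rcases hp with (⟨h1, h2⟩ | ⟨h1, h2, h3⟩) | ⟨h1, h2, h3⟩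
      · refine ⟨h1, fun heq => h2 ?_⟩
        rw [mem_ents] at h1
        rw [hlab' _ h1.1 h1.2.1 _ (hF.lt _ h1.1 _ h1.2.2.1) h1.2.2.2, heq]
      · refine ⟨h1, ?_⟩
        rw [h3]
        exact (hmem _ h2).2.2.2.2.2.2.symm
      · refine ⟨h1, ?_⟩
        rw [h3]
        exact (hmem _ h2).2.2.2.2.2.2
    · rw [Finset.disjoint_left]
      intro p hp hp'
      simp only [Finset.mem_union, Finset.mem_filter] at hp hp'
      obtain ⟨h1, h2, h3⟩ := hp'
      rcases hp with ⟨_, h4⟩ | ⟨_, h4, h5⟩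
      · apply h4
        rw [mem_ents] at h1
        rw [hlab' _ h1.1 h1.2.1 _ (hF.lt _ h1.1 _ h1.2.2.1) h1.2.2.2, h3, ctr2 _ h2, ctr1 _ h2]
      · have e1 := (hmem _ h4).2.2.2.2.1
        have e2 := (hmem _ h2).2.2.2.2.2.1
        rw [← h3] at e2
        omega
    · rw [Finset.disjoint_left]
      intro p hp hp'
      simp only [Finset.mem_filter] at hp hp'
      obtain ⟨h1, h2, h3⟩ := hp'
      apply hp.2
      rw [mem_ents] at h1
      rw [hlab' _ h1.1 h1.2.1 _ (hF.lt _ h1.1 _ h1.2.2.1) h1.2.2.2, h3, ctr2 _ h2, ctr1 _ h2]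
  omega

end Pool.Agent.MP9d6bd1
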