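import Mathlib

/-!
# MP_9d6bd1_lc, program part: module P12 (PGreedy), conditional expectations
-/

set_option autoImplicit false

open Classical

namespace Pool.Agent.MP9d6bd1

namespace PGreedyAux

/-- twice the current probability of `d` at time `c` -/
def pp (x : ℕ → ℕ) (c d : ℕ) : ℕ := if d < c then 2 * x d else 1

/-- one term of the potential -/
def T (w h x : ℕ → ℕ) (c d : ℕ) : ℕ := w d * pp x c d * (2 - pp x c (h d))

theorem pp_succ (x : ℕ → ℕ) {c d : ℕ} (h : d ≠ c) : pp x (c + 1) d = pp x c d := by
  unfold pp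
  by_cases h1 : d < c
  · rw [if_pos h1, if_pos (by omega)]
  · rw [if_neg h1, if_neg (by omega)]

theorem pp_self (x : ℕ → ℕ) (c : ℕ) : pp x c c = 1 := by
  unfold pp
  rw [if_neg (lt_irrefl c)]

theorem pp_self_succ (x : ℕ → ℕ) (c : ℕ) : pp x (c + 1) c = 2 * x c := by
  unfold pp
  rw [if_pos (Nat.lt_succ_self c)]

theorem split (n : ℕ) (rep : ℕ → Prop) (h : ℕ → ℕ) {c : ℕ} (hc : c < n) (hr : rep c)
    (hne : h c ≠ c) (t : ℕ → ℕ) :
    ∑ d ∈ (Finset.range n).filter (fun d => rep d ∧ h d < n), t d =
      (if h c < n then t c else 0) +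
      ∑ d ∈ (Finset.range n).filter (fun d => rep d ∧ h d = c), t d +
      ∑ d ∈ (Finset.range n).filter (fun d => rep d ∧ h d < n ∧ h d ≠ c ∧ d ≠ c), t d := by
  have h1 := (Finset.sum_filter_add_sum_filter_not
    ((Finset.range n).filter (fun d => rep d ∧ h d < n)) (fun d => h d = c) t).symm
  have h2 := (Finset.sum_filter_add_sum_filter_not
    (((Finset.range n).filter (fun d => rep d ∧ h d < n)).filter (fun d => ¬ h d = c))
    (fun d => d = c) t).symm
  have e1 : ((Finset.range n).filter (fun d => rep d ∧ h d < n)).filter (fun d => h d = c) =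
      (Finset.range n).filter (fun d => rep d ∧ h d = c) := by
    ext d
    simp only [Finset.mem_filter, Finset.mem_range]
    constructor
    · rintro ⟨⟨a, b, _⟩, e⟩
      exact ⟨a, b, e⟩
    · rintro ⟨a, b, e⟩
      exact ⟨⟨a, b, by omega⟩, e⟩
  have e2 : (((Finset.range n).filter (fun d => rep d ∧ h d < n)).filter
      (fun d => ¬ h d = c)).filter (fun d => ¬ d = c) =
      (Finset.range n).filter (fun d => rep d ∧ h d < n ∧ h d ≠ c ∧ d ≠ c) := by
    ext d
    simp only [Finset.mem_filter, Finset.mem_range]
    tauto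
  have e3 : ∑ d ∈ (((Finset.range n).filter (fun d => rep d ∧ h d < n)).filter
      (fun d => ¬ h d = c)).filter (fun d => d = c), t d = if h c < n then t c else 0 := by
    by_cases h3 : h c < n
    · rw [if_pos h3]
      have e4 : (((Finset.range n).filter (fun d => rep d ∧ h d < n)).filter
          (fun d => ¬ h d = c)).filter (fun d => d = c) = {c} := by
        ext d
        simp only [Finset.mem_filter, Finset.mem_range, Finset.mem_singleton]
        constructor
        · exact fun h => h.2
        · rintro rfl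
          exact ⟨⟨⟨hc, hr, h3⟩, hne⟩, rfl⟩
      rw [e4, Finset.sum_singleton]
    · rw [if_neg h3]
      refine Finset.sum_eq_zero fun d hd => ?_
      simp only [Finset.mem_filter, Finset.mem_range] at hd
      obtain ⟨⟨⟨_, _, h4⟩, _⟩, rfl⟩ := hd
      exact absurd h4 h3
  rw [h1, h2, e1, e2, e3]
  ring

theorem step (n : ℕ) (rep : ℕ → Prop) (w h x : ℕ → ℕ) (hx : ∀ c, x c < 2)
    (hh : ∀ c < n, rep c → h c = n ∨ (h c < n ∧ rep (h c) ∧ h c ≠ c))
    (hg : ∀ c < n, rep c → (x c = 1 ↔
      ∑ d ∈ (Finset.range n).filter (fun d => rep d ∧ h d = c), w d * pp x c d ≤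
      (if h c < n then w c * (2 - pp x c (h c)) else 0))) (c : ℕ) (hc : c < n) :
    ∑ d ∈ (Finset.range n).filter (fun d => rep d ∧ h d < n), T w h x c d ≤
      ∑ d ∈ (Finset.range n).filter (fun d => rep d ∧ h d < n), T w h x (c + 1) d := by
  by_cases hr : rep c
  · have hne : h c ≠ c := by
      rcases hh c hc hr with h1 | h1
      · omega
      · exact h1.2.2
    rw [split n rep h hc hr hne, split n rep h hc hr hne]
    have r1 : ∑ d ∈ (Finset.range n).filter (fun d => rep d ∧ h d < n ∧ h d ≠ c ∧ d ≠ c),
        T w h x (c + 1) d =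
        ∑ d ∈ (Finset.range n).filter (fun d => rep d ∧ h d < n ∧ h d ≠ c ∧ d ≠ c),
        T w h x c d := by
      refine Finset.sum_congr rfl fun d hd => ?_
      simp only [Finset.mem_filter, Finset.mem_range] at hd
      unfold T
      rw [pp_succ x hd.2.2.2.2, pp_succ x hd.2.2.2.1]
    have r2 : ∑ d ∈ (Finset.range n).filter (fun d => rep d ∧ h d = c), T w h x c d =
        ∑ d ∈ (Finset.range n).filter (fun d => rep d ∧ h d = c), w d * pp x c d := by
      refine Finset.sum_congr rfl fun d hd => ?_
      simp only [Finset.mem_filter, Finset.mem_range] at hd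
      unfold T
      rw [hd.2.2, pp_self]
      omega
    have r3 : ∑ d ∈ (Finset.range n).filter (fun d => rep d ∧ h d = c), T w h x (c + 1) d =
        (∑ d ∈ (Finset.range n).filter (fun d => rep d ∧ h d = c), w d * pp x c d) *
          (2 - 2 * x c) := by
      rw [Finset.sum_mul]
      refine Finset.sum_congr rfl fun d hd => ?_
      simp only [Finset.mem_filter, Finset.mem_range] at hd
      have hdc : d ≠ c := by
        rintro rfl
        exact hne hd.2.2
      unfold T
      rw [hd.2.2, pp_self_succ, pp_succ x hdc]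
    have r4 : (if h c < n then T w h x c c else 0) =
        (if h c < n then w c * (2 - pp x c (h c)) else 0) := by
      unfold T
      rw [pp_self, mul_one]
    have r5 : (if h c < n then T w h x (c + 1) c else 0) =
        (if h c < n then w c * (2 - pp x c (h c)) else 0) * (2 * x c) := by
      unfold T
      rw [pp_self_succ, pp_succ x hne]
      split_ifs
      · ring
      · simp
    rw [r1, r2, r3, r4, r5]
    have hg' := hg c hc hr
    revert hg'
    generalize ∑ d ∈ (Finset.range n).filter (fun d => rep d ∧ h d = c), w d * pp x c d = B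
    generalize (if h c < n then w c * (2 - pp x c (h c)) else 0) = A
    intro hg'
    have h2 := hx c
    rcases Nat.lt_succ_iff_lt_or_eq.1 h2 with h3 | h3
    · have h4 : x c = 0 := by omega
      rw [h4] at hg' ⊢
      have h5 : ¬ B ≤ A := fun h6 => by simpa using hg'.2 h6
      omega
    · rw [h3] at hg' ⊢
      have h5 := hg'.1 rfl
      omega
  · refine le_of_eq (Finset.sum_congr rfl fun d hd => ?_)
    simp only [Finset.mem_filter, Finset.mem_range] at hd
    have h1 : d ≠ c := by
      rintro rfl
      exact hr hd.2.1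
    have h2 : h d ≠ c := by
      rintro rfl
      rcases hh d hd.1 hd.2.1 with h3 | h3
      · omega
      · exact hr h3.2.1
    unfold T
    rw [pp_succ x h1, pp_succ x h2]

end PGreedyAux

theorem greedy (n : ℕ) (rep : ℕ → Prop) (w h x : ℕ → ℕ) (hx : ∀ c, x c < 2)
    (hh : ∀ c < n, rep c → h c = n ∨ (h c < n ∧ rep (h c) ∧ h c ≠ c))
    (hg : ∀ c < n, rep c → (x c = 1 ↔
      ∑ d ∈ (Finset.range n).filter (fun d => rep d ∧ h d = c),
        w d * (if d < c then 2 * x d else 1) ≤
      (if h c < n then w c * (2 - (if h c < c then 2 * x (h c) else 1)) else 0))) :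
    ∑ c ∈ (Finset.range n).filter (fun c => rep c ∧ h c < n), w c ≤
      4 * ∑ c ∈ (Finset.range n).filter (fun c => rep c ∧ h c < n ∧ x c = 1 ∧ x (h c) = 0),
        w c := by
  have key : ∀ c ≤ n, ∑ d ∈ (Finset.range n).filter (fun d => rep d ∧ h d < n),
      PGreedyAux.T w h x 0 d ≤ ∑ d ∈ (Finset.range n).filter (fun d => rep d ∧ h d < n),
      PGreedyAux.T w h x c d := by
    intro c
    induction c with
    | zero => intro _; exact le_rfl
    | succ c ih =>
      intro hc
      exact (ih (by omega)).trans (PGreedyAux.step n rep w h x hx hh hg c (by omega))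
  have h0 : ∑ d ∈ (Finset.range n).filter (fun d => rep d ∧ h d < n),
      PGreedyAux.T w h x 0 d = ∑ c ∈ (Finset.range n).filter (fun c => rep c ∧ h c < n), w c := by
    refine Finset.sum_congr rfl fun d _ => ?_
    simp [PGreedyAux.T, PGreedyAux.pp]
  have hn : ∑ d ∈ (Finset.range n).filter (fun d => rep d ∧ h d < n),
      PGreedyAux.T w h x n d =
      4 * ∑ c ∈ (Finset.range n).filter (fun c => rep c ∧ h c < n ∧ x c = 1 ∧ x (h c) = 0),
        w c := by
    have e : (Finset.range n).filter (fun c => rep c ∧ h c < n ∧ x c = 1 ∧ x (h c) = 0) =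
        ((Finset.range n).filter (fun d => rep d ∧ h d < n)).filter
          (fun c => x c = 1 ∧ x (h c) = 0) := by
      ext d
      simp only [Finset.mem_filter]
      tauto
    rw [e, Finset.sum_filter (s := (Finset.range n).filter (fun d => rep d ∧ h d < n))
      (p := fun c => x c = 1 ∧ x (h c) = 0), Finset.mul_sum]
    refine Finset.sum_congr rfl fun d hd => ?_
    simp only [Finset.mem_filter, Finset.mem_range] at hd
    unfold PGreedyAux.T PGreedyAux.pp
    rw [if_pos hd.1, if_pos hd.2.2]
    have h1 := hx d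
    have h2 := hx (h d)
    rcases Nat.lt_succ_iff_lt_or_eq.1 h1 with h3 | h3
    · have h4 : x d = 0 := by omega
      simp [h4]
    · rcases Nat.lt_succ_iff_lt_or_eq.1 h2 with h5 | h5
      · have h6 : x (h d) = 0 := by omega
        rw [h3, h6]
        simp
        ring
      · rw [h3, h5]
        simp
  rw [← h0, ← hn]
  exact key n le_rfl

end Pool.Agent.MP9d6bd1
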