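import Mathlib
import Pool.Agent.Lib.MP_9d6bd1_lc.Spec2
import Pool.Agent.Lib.MP_9d6bd1_lc.EvLib
import Pool.Agent.Lib.MP_9d6bd1_lc.RunLib
import Pool.Agent.Lib.MP_9d6bd1_lc.PClusA
import Pool.Agent.Lib.MP_9d6bd1_lc.PClusB
import Pool.Agent.Lib.MP_9d6bd1_lc.PBits
import Pool.Agent.Lib.MP_9d6bd1_lc.PGreedy
import Pool.Agent.Lib.MP_9d6bd1_lc.PDecay

/-!
# MP_9d6bd1_lc, module P14: one round of the partition
-/

set_option autoImplicit false

open Classical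

namespace Pool.Agent.MP9d6bd1

open E

namespace PRoundAux

open PClusAAux (fin coe_fin)
open PClusBAux (cid_lt cid_low cid_cid KC_lt KC_low kst_lt exists_of_wt_pos)

section comb

variable {κ : Par} {σ : St}

/-- `a` is merged into `b` -/
def Mg (h x : ℕ → ℕ) (a b : ℕ) : Prop := x a ≠ 0 ∧ h a = b ∧ x b = 0

/-- step along a new kept entry -/
def RR (κ : Par) (σ : St) (h x : ℕ → ℕ) (u y : ℕ) : Prop :=
  (cur κ σ).deg u ≤ σ.g 4 ∧ ∃ j < (cur κ σ).deg u, (cur κ σ).nb u j = y ∧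
    (cur κ σ).deg y ≤ σ.g 4 ∧
    (cid κ σ y = cid κ σ u ∨ Mg h x (cid κ σ y) (cid κ σ u) ∨ Mg h x (cid κ σ u) (cid κ σ y))

theorem Mg_ctr {h x : ℕ → ℕ} (hx : ∀ c, x c < 2) {a b : ℕ} (hb : b < σ.g 3) (hm : Mg h x a b) :
    ctr (σ.g 3) h x a = b ∧ ctr (σ.g 3) h x b = b := by
  obtain ⟨h1, h2, h3⟩ := hm
  have h4 : x a = 1 := by have := hx a; omega
  unfold ctr
  constructor
  · rw [h2, if_pos ⟨h4, hb, h3⟩]
  · rw [if_neg (fun hh => by have := hh.1; omega)]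

theorem RR_lt (hG : (cur κ σ).Ok) {h x : ℕ → ℕ} {u y : ℕ} (hu : u < σ.g 3)
    (hr : RR κ σ h x u y) : y < σ.g 3 ∧ (cur κ σ).deg y ≤ σ.g 4 := by
  obtain ⟨_, j, hj, rfl, hl, _⟩ := hr
  exact ⟨hG.lt u hu j hj, hl⟩

theorem RR_ctr (hG : (cur κ σ).Ok) (hK : KOk κ σ (σ.g 5)) {h x : ℕ → ℕ} (hx : ∀ c, x c < 2)
    {u y : ℕ} (hu : u < σ.g 3) (hr : RR κ σ h x u y) :
    ctr (σ.g 3) h x (cid κ σ u) = ctr (σ.g 3) h x (cid κ σ y) := by
  have hy := (RR_lt hG hu hr).1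
  obtain ⟨_, j, hj, _, hl, hc⟩ := hr
  rcases hc with hc | hc | hc
  · rw [hc]
  · have := Mg_ctr (σ := σ) hx (cid_lt hG hK hu) hc
    rw [this.1, this.2]
  · have := Mg_ctr (σ := σ) hx (cid_lt hG hK hy) hc
    rw [this.1, this.2]

theorem RR_symm (hG : (cur κ σ).Ok) {h x : ℕ → ℕ} {u y : ℕ} (hu : u < σ.g 3)
    (hr : RR κ σ h x u y) : RR κ σ h x y u := by
  have hy := (RR_lt hG hu hr).1
  obtain ⟨h1, j, hj, h2, hl, hc⟩ := hr
  have h3 : 0 < (cur κ σ).cnt u y := by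
    refine Finset.card_pos.mpr ⟨j, ?_⟩
    rw [Finset.mem_filter, Finset.mem_range]
    exact ⟨hj, h2⟩
  rw [hG.symm u hu y hy] at h3
  obtain ⟨j', hj'⟩ := Finset.card_pos.mp h3
  rw [Finset.mem_filter, Finset.mem_range] at hj'
  refine ⟨hl, j', hj'.1, hj'.2, h1, ?_⟩
  rcases hc with hc | hc | hc
  · exact Or.inl hc.symm
  · exact Or.inr (Or.inr hc)
  · exact Or.inr (Or.inl hc)

theorem RR_reach (hG : (cur κ σ).Ok) (hK : KOk κ σ (σ.g 5)) {h x : ℕ → ℕ} (hx : ∀ c, x c < 2)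
    {u y : ℕ} (hu : u < σ.g 3) (hr : Relation.ReflTransGen (RR κ σ h x) u y) :
    y < σ.g 3 ∧ ctr (σ.g 3) h x (cid κ σ u) = ctr (σ.g 3) h x (cid κ σ y) ∧
      Relation.ReflTransGen (RR κ σ h x) y u ∧
      ((cur κ σ).deg u ≤ σ.g 4 → (cur κ σ).deg y ≤ σ.g 4) := by
  induction hr with
  | refl => exact ⟨hu, rfl, Relation.ReflTransGen.refl, id⟩
  | tail h1 h2 ih =>
    obtain ⟨i1, i2, i3, i4⟩ := ih
    exact ⟨(RR_lt hG i1 h2).1, i2.trans (RR_ctr hG hK hx i1 h2),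
      Relation.ReflTransGen.head (RR_symm hG i1 h2) i3, fun _ => (RR_lt hG i1 h2).2⟩

theorem KC_sub (hG : (cur κ σ).Ok) (hK : KOk κ σ (σ.g 5)) {h x : ℕ → ℕ}
    {u y : ℕ} (hu : u < σ.g 3) (hy : y ∈ KC κ σ u) : Relation.ReflTransGen (RR κ σ h x) u y := by
  have hy' : Relation.ReflTransGen (kst κ σ) u y := hy
  clear hy
  induction hy' with
  | refl => exact Relation.ReflTransGen.refl
  | @tail a c h1 h2 ih =>
    refine Relation.ReflTransGen.tail ih ?_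
    have ha : a < σ.g 3 := KC_lt hG hK hu h1
    have hc : c < σ.g 3 := (kst_lt hG hK ha h2).1
    have e1 : cid κ σ a = cid κ σ c :=
      (cid_eq_iff κ σ _ hG hK a c ha hc).mpr (Relation.ReflTransGen.single h2)
    obtain ⟨j, hj, hb, rfl⟩ := h2
    have h3 := hK.val a ha j hj hb
    exact ⟨h3.1, j, h3.2.1, rfl, h3.2.2, Or.inl e1.symm⟩

theorem cid_sub (hG : (cur κ σ).Ok) (hK : KOk κ σ (σ.g 5)) {h x : ℕ → ℕ}
    {u y : ℕ} (hu : u < σ.g 3) (hy : y < σ.g 3) (he : cid κ σ u = cid κ σ y) :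
    Relation.ReflTransGen (RR κ σ h x) u y :=
  KC_sub hG hK hu ((cid_eq_iff κ σ _ hG hK u y hu hy).mp he)

/-- properties of the heaviest neighbour -/
def HH (κ : Par) (σ : St) (h : ℕ → ℕ) : Prop :=
  ∀ c < σ.g 3, (cur κ σ).deg c ≤ σ.g 4 → cid κ σ c = c →
      (h c = σ.g 3 ∧ ∀ d, d ≠ c → (cur κ σ).wt (σ.g 4) (cid κ σ) c d = 0) ∨
      (h c < σ.g 3 ∧ h c ≠ c ∧ cid κ σ (h c) = h c ∧ (cur κ σ).deg (h c) ≤ σ.g 4 ∧
        0 < (cur κ σ).wt (σ.g 4) (cid κ σ) c (h c) ∧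
        ∀ d, d ≠ c → (cur κ σ).wt (σ.g 4) (cid κ σ) c d ≤
          (cur κ σ).wt (σ.g 4) (cid κ σ) c (h c))

theorem exists_of_wt' {c d : ℕ} (h : 0 < (cur κ σ).wt (σ.g 4) (cid κ σ) c d) :
    ∃ u j, u < σ.g 3 ∧ (cur κ σ).deg u ≤ σ.g 4 ∧ j < (cur κ σ).deg u ∧
      (cur κ σ).deg ((cur κ σ).nb u j) ≤ σ.g 4 ∧ cid κ σ u = c ∧
      cid κ σ ((cur κ σ).nb u j) = d := by
  obtain ⟨p, hp⟩ := Finset.card_pos.mp h
  simp only [FG.ents, Finset.mem_filter, Finset.mem_product, Finset.mem_range] at hp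
  obtain ⟨⟨⟨h1, h2⟩, h3, h4, h5⟩, h6, h7⟩ := hp
  exact ⟨p.1, p.2, h1, h3, h4, h5, h6, h7⟩

theorem ctr_cases {h x : ℕ → ℕ} (hh : HH κ σ h) {c : ℕ}
    (hc : c < σ.g 3) (hl : (cur κ σ).deg c ≤ σ.g 4) (hcc : cid κ σ c = c) :
    ctr (σ.g 3) h x c = c ∨ (ctr (σ.g 3) h x c = h c ∧ x c = 1 ∧ h c < σ.g 3 ∧ x (h c) = 0 ∧
      h c ≠ c ∧ cid κ σ (h c) = h c ∧ (cur κ σ).deg (h c) ≤ σ.g 4 ∧
      0 < (cur κ σ).wt (σ.g 4) (cid κ σ) c (h c)) := by
  unfold ctr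
  by_cases h1 : x c = 1 ∧ h c < σ.g 3 ∧ x (h c) = 0
  · rw [if_pos h1]
    obtain ⟨h2, h3, h4⟩ := h1
    rcases hh c hc hl hcc with h5 | ⟨_, h6, h7, h8, h9, _⟩
    · omega
    · exact Or.inr ⟨rfl, h2, h3, h4, h6, h7, h8, h9⟩
  · rw [if_neg h1]
    exact Or.inl rfl

theorem to_ctr (hG : (cur κ σ).Ok) (hK : KOk κ σ (σ.g 5)) {h x : ℕ → ℕ}
    (hh : HH κ σ h) {u : ℕ} (hu : u < σ.g 3) (hl : (cur κ σ).deg u ≤ σ.g 4) :
    ∃ y < σ.g 3, Relation.ReflTransGen (RR κ σ h x) u y ∧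
      cid κ σ y = ctr (σ.g 3) h x (cid κ σ u) := by
  have hc := cid_lt hG hK hu
  have hcl := cid_low hG hK hu hl
  have hcc := cid_cid hG hK hu
  rcases ctr_cases (x := x) hh hc hcl hcc with h1 | ⟨h1, h2, h3, h4, h5, h6, h7, h8⟩
  · exact ⟨u, hu, Relation.ReflTransGen.refl, h1.symm⟩
  · obtain ⟨w, j, k1, k2, k3, k4, k5, k6⟩ := exists_of_wt' h8
    have k7 := hG.lt w k1 j k3
    refine ⟨(cur κ σ).nb w j, k7, ?_, by rw [k6, h1]⟩
    refine Relation.ReflTransGen.tail (cid_sub hG hK hu k1 k5.symm) ?_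
    refine ⟨k2, j, k3, rfl, k4, Or.inr (Or.inr ?_)⟩
    rw [k5, k6]
    exact ⟨by omega, rfl, h4⟩

theorem reach_iff (hG : (cur κ σ).Ok) (hK : KOk κ σ (σ.g 5)) {h x : ℕ → ℕ} (hx : ∀ c, x c < 2)
    (hh : HH κ σ h) {u y : ℕ} (hu : u < σ.g 3) (hl : (cur κ σ).deg u ≤ σ.g 4) (hy : y < σ.g 3)
    (hly : (cur κ σ).deg y ≤ σ.g 4) : Relation.ReflTransGen (RR κ σ h x) u y ↔
      ctr (σ.g 3) h x (cid κ σ u) = ctr (σ.g 3) h x (cid κ σ y) := by
  constructor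
  · intro hr
    exact (RR_reach hG hK hx hu hr).2.1
  · intro he
    obtain ⟨a, ha, h1, h2⟩ := to_ctr (x := x) hG hK hh hu hl
    obtain ⟨b, hb, h3, h4⟩ := to_ctr (x := x) hG hK hh hy hly
    have h5 : cid κ σ a = cid κ σ b := by rw [h2, h4, he]
    exact (h1.trans (cid_sub hG hK ha hb h5)).trans (RR_reach hG hK hx hy h3).2.2.1

theorem fin_card {b : ℕ} (hG : (cur κ σ).Ok) (hK : KOk κ σ b) {u : ℕ} (hu : u < σ.g 3) :
    (fin κ σ u).card ≤ b := by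
  have h1 := hK.size u hu
  rw [← coe_fin κ σ b hG hK hu, Set.ncard_coe_finset] at h1
  exact h1

theorem mem_fin' {b : ℕ} (hG : (cur κ σ).Ok) (hK : KOk κ σ b) {u y : ℕ} (hu : u < σ.g 3)
    (hy : y < σ.g 3) : y ∈ fin κ σ u ↔ cid κ σ u = cid κ σ y := by
  rw [cid_eq_iff κ σ b hG hK u y hu hy, ← coe_fin κ σ b hG hK hu, Finset.mem_coe]

theorem size_le {b : ℕ} (hG : (cur κ σ).Ok) (hK : KOk κ σ (σ.g 5)) (hKb : KOk κ σ b)
    {h x : ℕ → ℕ} (hx : ∀ c, x c < 2)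
    (hh : HH κ σ h) {u : ℕ} (hu : u < σ.g 3) :
    {y | Relation.ReflTransGen (RR κ σ h x) u y}.ncard ≤ b + σ.g 4 * b * b := by
  by_cases hl : (cur κ σ).deg u ≤ σ.g 4
  · set c0 := ctr (σ.g 3) h x (cid κ σ u) with hc0
    obtain ⟨a, ha, h1, h2⟩ := to_ctr (x := x) hG hK hh hu hl
    rw [← hc0] at h2
    have hc0lt : c0 < σ.g 3 := by
      rw [← h2]
      exact cid_lt hG hK ha
    have hc0c : cid κ σ c0 = c0 := by
      rw [← h2]
      exact cid_cid hG hK ha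
    have hsub : {y | Relation.ReflTransGen (RR κ σ h x) u y} ⊆
        ((fin κ σ c0 ∪ (fin κ σ c0).biUnion (fun w => (Finset.range (min (σ.g 4)
          ((cur κ σ).deg w))).biUnion fun j => fin κ σ ((cur κ σ).nb w j)) : Finset ℕ) :
            Set ℕ) := by
      intro y hy
      obtain ⟨k1, k2, k3, k4⟩ := RR_reach hG hK hx hu hy
      rw [← hc0] at k2
      have hyl := k4 hl
      rw [Finset.mem_coe, Finset.mem_union]
      rcases ctr_cases (x := x) hh (cid_lt hG hK k1) (cid_low hG hK k1 hyl)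
        (cid_cid hG hK k1) with m1 | ⟨m1, m2, m3, m4, m5, m6, m7, m8⟩
      · left
        rw [mem_fin' hG hK hc0lt k1, hc0c, k2, m1]
      · right
        rw [PDecayAux.wt_symm hG, ← m1, ← k2] at m8
        obtain ⟨w, j, n1, n2, n3, n4, n5, n6⟩ := exists_of_wt' m8
        rw [Finset.mem_biUnion]
        refine ⟨w, ?_, ?_⟩
        · rw [mem_fin' hG hK hc0lt n1, hc0c, n5]
        · rw [Finset.mem_biUnion]
          refine ⟨j, Finset.mem_range.mpr (by omega), ?_⟩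
          rw [mem_fin' hG hK (hG.lt w n1 j n3) k1, n6]
    refine (Set.ncard_le_ncard hsub (Finset.finite_toSet _)).trans ?_
    rw [Set.ncard_coe_finset]
    refine (Finset.card_union_le _ _).trans ?_
    have h3 := fin_card hG hKb hc0lt
    refine Nat.add_le_add h3 ?_
    have h4 : ((fin κ σ c0).biUnion (fun w => (Finset.range (min (σ.g 4)
          ((cur κ σ).deg w))).biUnion fun j => fin κ σ ((cur κ σ).nb w j))).card ≤
        (fin κ σ c0).card * (σ.g 4 * b) := by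
      refine Finset.card_biUnion_le_card_mul _ _ _ fun w hw => ?_
      have hwN : w < σ.g 3 := by
        rw [PClusAAux.fin, Finset.mem_filter] at hw
        exact Finset.mem_range.mp hw.1
      have h5 : ((Finset.range (min (σ.g 4)
          ((cur κ σ).deg w))).biUnion fun j => fin κ σ ((cur κ σ).nb w j)).card ≤
          (Finset.range (min (σ.g 4) ((cur κ σ).deg w))).card * b := by
        refine Finset.card_biUnion_le_card_mul _ _ _ fun j hj => ?_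
        rw [Finset.mem_range] at hj
        exact fin_card hG hKb (hG.lt w hwN j (by omega))
      refine h5.trans ?_
      rw [Finset.card_range]
      exact Nat.mul_le_mul_right _ (min_le_left _ _)
    calc _ ≤ (fin κ σ c0).card * (σ.g 4 * b) := h4
      _ ≤ b * (σ.g 4 * b) := Nat.mul_le_mul_right _ h3
      _ = σ.g 4 * b * b := by ring
  · have h1 : {y | Relation.ReflTransGen (RR κ σ h x) u y} = {u} := by
      ext y
      constructor
      · intro hy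
        rcases Relation.ReflTransGen.cases_head hy with h2 | ⟨z, h2, _⟩
        · exact h2.symm
        · exact absurd h2.1 hl
      · rintro rfl
        exact Relation.ReflTransGen.refl
    rw [h1, Set.ncard_singleton]
    have h2 := fin_card hG hKb hu
    have h3 : 0 < (fin κ σ u).card := by
      refine Finset.card_pos.mpr ⟨u, ?_⟩
      rw [mem_fin' hG hKb hu hu]
    omega

theorem conn (hG : (cur κ σ).Ok) (hK : KOk κ σ (σ.g 5)) {u : ℕ} (hu : u < σ.g 3)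
    (hl : (cur κ σ).deg u ≤ σ.g 4) :
    ((cur κ σ).gr.induce ((cur κ σ).cls (σ.g 4) (cid κ σ) (cid κ σ u))).Connected := by
  have hmem : u ∈ (cur κ σ).cls (σ.g 4) (cid κ σ) (cid κ σ u) := ⟨hu, hl, rfl⟩
  have key : ∀ y, y ∈ KC κ σ u → ∃ hy : y ∈ (cur κ σ).cls (σ.g 4) (cid κ σ) (cid κ σ u),
      ((cur κ σ).gr.induce ((cur κ σ).cls (σ.g 4) (cid κ σ) (cid κ σ u))).Reachable
        ⟨u, hmem⟩ ⟨y, hy⟩ := by
    intro y hy
    have hy' : Relation.ReflTransGen (kst κ σ) u y := hy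
    clear hy
    induction hy' with
    | refl => exact ⟨hmem, SimpleGraph.Reachable.refl _⟩
    | @tail a c h1 h2 ih =>
      obtain ⟨ha, ih⟩ := ih
      have haN : a < σ.g 3 := ha.1
      obtain ⟨hcN, hcl⟩ := kst_lt hG hK haN h2
      have hcm : c ∈ KC κ σ u := Relation.ReflTransGen.tail h1 h2
      have hcc : c ∈ (cur κ σ).cls (σ.g 4) (cid κ σ) (cid κ σ u) :=
        ⟨hcN, hcl, ((cid_eq_iff κ σ _ hG hK u c hu hcN).mpr hcm).symm⟩
      refine ⟨hcc, ih.trans (SimpleGraph.Adj.reachable ?_)⟩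
      rw [SimpleGraph.comap_adj]
      obtain ⟨j, hj, hb, hj2⟩ := h2
      have h3 := hK.val a haN j hj hb
      change (cur κ σ).gr.Adj a c
      rw [FG.gr, SimpleGraph.fromRel_adj]
      refine ⟨?_, Or.inl ⟨haN, hcN, j, h3.2.1, hj2⟩⟩
      intro he
      exact hG.ne a haN j h3.2.1 (by rw [hj2, he])
  rw [SimpleGraph.connected_iff_exists_forall_reachable]
  refine ⟨⟨u, hmem⟩, ?_⟩
  rintro ⟨y, hy⟩
  obtain ⟨_, h2⟩ := key y ((cid_eq_iff κ σ _ hG hK u y hu hy.1).mp hy.2.2.symm)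
  exact h2

end comb

/-! ### frames -/

/-- the scratch variables -/
def GS : List ℕ := [21, 23, 24, 35]

theorem bt_congr {κ : Par} {σ τ : St} {b : Fin 16} (h8 : τ.g 8 = σ.g 8) (hb : τ.m b = σ.m b)
    (h11 : τ.m 11 = σ.m 11) (i : ℕ) : bt κ τ b i = bt κ σ b i := by
  unfold bt bitE
  simp only [ev_div, ev_mod, ev_ld, ev_g, ev_v, h8, hb, h11, ev_ofNat] <;> rfl

theorem cur_congr {κ : Par} {σ τ : St} (h3 : τ.g 3 = σ.g 3) (h20 : τ.g 20 = σ.g 20)
    (h0 : τ.m 0 = σ.m 0) : cur κ τ = cur κ σ := by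
  have hg : ∀ x, (fun x => decide (x = 20)) x = true → τ.g x = σ.g x := by
    intro x hx
    have : x = 20 := by simpa using hx
    rw [this, h20]
  have hm : ∀ b, (fun b : Fin 16 => decide (b = 0)) b = true → τ.m b = σ.m b := by
    intro b hb
    have : b = 0 := by simpa using hb
    rw [this, h0]
  unfold cur
  congr 1
  · funext u
    exact ev_congr _ _ κ τ σ hg hm dgE rfl [u]
  · funext u j
    exact ev_congr _ _ κ τ σ hg hm nbE rfl [u, j]

theorem cur_same {κ : Par} {σ τ : St} (h : Same GS [2, 3, 4, 5] σ τ) : cur κ τ = cur κ σ :=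
  cur_congr (h.1 3 (by decide)) (h.1 20 (by decide)) (h.2 0 (by decide))

theorem kst_congr {κ : Par} {σ τ : St} (h : Same GS [3, 4, 5] σ τ) : kst κ τ = kst κ σ := by
  have h4 : τ.g 4 = σ.g 4 := h.1 4 (by decide)
  have h8 : τ.g 8 = σ.g 8 := h.1 8 (by decide)
  have hc : cur κ τ = cur κ σ := cur_same (h.mono (by decide) (by decide))
  funext u y
  unfold kst
  rw [h4, hc]
  simp only [bt_congr h8 (h.2 2 (by decide)) (h.2 11 (by decide))]

theorem KC_congr {κ : Par} {σ τ : St} (h : Same GS [3, 4, 5] σ τ) : KC κ τ = KC κ σ := by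
  funext u
  unfold KC
  rw [kst_congr h]

theorem cid_congr {κ : Par} {σ τ : St} (h : Same GS [3, 4, 5] σ τ) : cid κ τ = cid κ σ := by
  funext u
  unfold cid
  rw [KC_congr h]

theorem pok_same {κ : Par} {σ τ : St} (h : Same GS [2, 3, 4, 5] σ τ) (hP : POk κ σ) :
    POk κ τ := by
  have h3 : τ.g 3 = σ.g 3 := h.1 3 (by decide)
  have h4 : τ.g 4 = σ.g 4 := h.1 4 (by decide)
  have h5 : τ.g 5 = σ.g 5 := h.1 5 (by decide)
  have h6 : τ.g 6 = σ.g 6 := h.1 6 (by decide)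
  have h7 : τ.g 7 = σ.g 7 := h.1 7 (by decide)
  have h8 : τ.g 8 = σ.g 8 := h.1 8 (by decide)
  have h9 : τ.g 9 = σ.g 9 := h.1 9 (by decide)
  have h11 : τ.m 11 = σ.m 11 := h.2 11 (by decide)
  exact ⟨by rw [h4]; exact hP.D1, by rw [h5]; exact hP.L1, by rw [h4, h5, h6]; exact hP.X,
    by rw [h7]; exact hP.J, by rw [h9]; exact hP.B1, by rw [h9]; exact hP.B2,
    by rw [h4, h5]; exact hP.cap, hP.top, by rw [h3]; exact hP.N, by rw [h8]; exact hP.q1,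
    by rw [h8]; exact hP.q2, by rw [h8]; exact hP.q3, by rw [h8, h11]; exact hP.pow⟩

theorem kok_congr {κ : Par} {σ τ : St} {b : ℕ} (h : Same GS [3, 4, 5] σ τ)
    (hK : KOk κ σ b) : KOk κ τ b := by
  have h3 : τ.g 3 = σ.g 3 := h.1 3 (by decide)
  have h4 : τ.g 4 = σ.g 4 := h.1 4 (by decide)
  have h8 : τ.g 8 = σ.g 8 := h.1 8 (by decide)
  have hc : cur κ τ = cur κ σ := cur_same (h.mono (by decide) (by decide))
  have hb : ∀ i, bt κ τ 2 i = bt κ σ 2 i := bt_congr h8 (h.2 2 (by decide)) (h.2 11 (by decide))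
  refine ⟨?_, ?_, ?_⟩
  · rw [h3, h4, hc]
    simp only [hb]
    exact hK.val
  · rw [h3, kst_congr h]
    exact hK.symm
  · rw [h3, KC_congr h]
    exact hK.size

theorem hv_congr {κ : Par} {σ τ : St} (h : Same GS [3, 4, 5] σ τ) (l : List ℕ) :
    hvE.ev κ τ l = hvE.ev κ σ l := by
  refine ev_congr (fun x => decide (x ∉ GS)) (fun b => decide (b ∉ ([3, 4, 5] : List (Fin 16))))
    κ τ σ ?_ ?_ hvE (by decide) l
  · intro x hx
    exact h.1 x (by simpa using hx)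
  · intro b hb
    exact h.2 b (by simpa using hb)

/-! ### the decisions -/

/-- condition for the decision -/
def Cond (κ : Par) (σ : St) (h x : ℕ → ℕ) (c : ℕ) : Prop :=
  ∑ d ∈ (Finset.range (σ.g 3)).filter
      (fun d => ((cur κ σ).deg d ≤ σ.g 4 ∧ cid κ σ d = d) ∧ h d = c),
    (cur κ σ).wt (σ.g 4) (cid κ σ) d (h d) * (if d < c then 2 * x d else 1) ≤
  (if h c < σ.g 3 then (cur κ σ).wt (σ.g 4) (cid κ σ) c (h c) *
    (2 - (if h c < c then 2 * x (h c) else 1)) else 0)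

theorem Cond_congr {κ : Par} {σ : St} {h x x' : ℕ → ℕ} {c : ℕ} (hx : ∀ d < c, x d = x' d) :
    Cond κ σ h x c ↔ Cond κ σ h x' c := by
  unfold Cond
  have e1 : ∑ d ∈ (Finset.range (σ.g 3)).filter
      (fun d => ((cur κ σ).deg d ≤ σ.g 4 ∧ cid κ σ d = d) ∧ h d = c),
    (cur κ σ).wt (σ.g 4) (cid κ σ) d (h d) * (if d < c then 2 * x d else 1) =
    ∑ d ∈ (Finset.range (σ.g 3)).filter
      (fun d => ((cur κ σ).deg d ≤ σ.g 4 ∧ cid κ σ d = d) ∧ h d = c),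
    (cur κ σ).wt (σ.g 4) (cid κ σ) d (h d) * (if d < c then 2 * x' d else 1) := by
    refine Finset.sum_congr rfl fun d _ => ?_
    by_cases hd : d < c
    · rw [if_pos hd, if_pos hd, hx d hd]
    · rw [if_neg hd, if_neg hd]
  have e2 : (if h c < c then 2 * x (h c) else 1) = (if h c < c then 2 * x' (h c) else 1) := by
    by_cases hd : h c < c
    · rw [if_pos hd, if_pos hd, hx _ hd]
    · rw [if_neg hd, if_neg hd]
  rw [e1, e2]

theorem HH_hv {κ : Par} {σ : St} (hP : POk κ σ) (hG : (cur κ σ).Ok) (hK : KOk κ σ (σ.g 5)) :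
    HH κ σ (fun c => hvE.ev κ σ [c]) := by
  intro c hc hl hcc
  have h1 := (hv_spec κ σ hP hG hK c hc hl).2
  rw [hcc] at h1
  exact h1

theorem pp_ev {κ : Par} {σ : St} (c : ℕ) :
    ppE.ev κ σ [c] = if bt κ σ 4 c = 0 then 1 else 2 * bt κ σ 5 c := by
  unfold ppE
  simp only [ev_ite, ev_call1, ev_v, ev_mul, ev_ofNat, List.getD_cons_zero]
  rfl

theorem dc_val {κ : Par} {σ τ : St} (hP : POk κ σ) (hG : (cur κ σ).Ok) (hK : KOk κ σ (σ.g 5))
    (hS : Same GS [3, 4, 5] σ τ) {i : ℕ} (hi : i < σ.g 3) (hl : (cur κ σ).deg i ≤ σ.g 4)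
    (hc : cid κ σ i = i)
    (ha : ∀ c < σ.g 3, bt κ τ 4 c =
      if ((cur κ σ).deg c ≤ σ.g 4 ∧ cid κ σ c = c) ∧ c < i then 1 else 0) :
    dcE.ev κ τ [i] = if Cond κ σ (fun c => hvE.ev κ σ [c]) (bt κ τ 5) i then 1 else 0 := by
  have h3 : τ.g 3 = σ.g 3 := hS.1 3 (by decide)
  have h4 : τ.g 4 = σ.g 4 := hS.1 4 (by decide)
  have h5 : τ.g 5 = σ.g 5 := hS.1 5 (by decide)
  have hcur : cur κ τ = cur κ σ := cur_same (hS.mono (by decide) (by decide))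
  have hcid := cid_congr (κ := κ) hS
  have hpp : ∀ c < σ.g 3, ((cur κ σ).deg c ≤ σ.g 4 ∧ cid κ σ c = c) →
      ppE.ev κ τ [c] = if c < i then 2 * bt κ τ 5 c else 1 := by
    intro c hc' hr
    by_cases h : c < i
    · have e : bt κ τ 4 c = 1 := by rw [ha c hc', if_pos ⟨hr, h⟩]
      rw [pp_ev, e, if_pos h, if_neg one_ne_zero]
    · have e : bt κ τ 4 c = 0 := by rw [ha c hc', if_neg (fun hh => h hh.2)]
      rw [pp_ev, e, if_neg h, if_pos rfl]
  rw [dc_spec κ τ (pok_same (hS.mono (by decide) (by decide)) hP) (by rw [hcur]; exact hG)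
    (by rw [h5]; exact kok_congr hS hK) i (by rw [h3]; exact hi) (by rw [hcur, h4]; exact hl)
    (by rw [hcid]; exact hc)]
  refine if_congr ?_ rfl rfl
  rw [h3, h4, hcur, hcid]
  simp only [hv_congr hS]
  unfold Cond
  have e1 : ∑ c ∈ (Finset.range (σ.g 3)).filter (fun c => (cur κ σ).deg c ≤ σ.g 4 ∧
      cid κ σ c = c ∧ hvE.ev κ σ [c] = i), (cur κ σ).wt (σ.g 4) (cid κ σ) c i * ppE.ev κ τ [c] =
      ∑ d ∈ (Finset.range (σ.g 3)).filter
      (fun d => ((cur κ σ).deg d ≤ σ.g 4 ∧ cid κ σ d = d) ∧ hvE.ev κ σ [d] = i),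
    (cur κ σ).wt (σ.g 4) (cid κ σ) d (hvE.ev κ σ [d]) * (if d < i then 2 * bt κ τ 5 d else 1) := by
    refine Finset.sum_congr ?_ ?_
    · refine Finset.filter_congr fun d _ => ?_
      exact (and_assoc).symm
    · intro d hd
      rw [Finset.mem_filter, Finset.mem_range] at hd
      rw [hpp d hd.1 hd.2.1, hd.2.2]
  rw [e1]
  by_cases h : hvE.ev κ σ [i] < σ.g 3
  · rw [if_pos h, if_pos h]
    rcases HH_hv hP hG hK i hi hl hc with h6 | h6
    · have := h6.1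
      dsimp only at this
      omega
    · rw [hpp _ h ⟨h6.2.2.2.1, h6.2.2.1⟩]
  · rw [if_neg h, if_neg h]

/-- the invariant of `decS` -/
def DInv (κ : Par) (σ : St) (i : ℕ) (τ : St) : Prop :=
  Same GS [3, 4, 5] σ τ ∧ τ.m 3 = σ.m 3 ∧ (∀ r, τ.m 4 r < 2 ^ σ.g 8) ∧ (∀ r, τ.m 5 r < 2 ^ σ.g 8) ∧
  (∀ c < σ.g 3, bt κ τ 4 c =
    if ((cur κ σ).deg c ≤ σ.g 4 ∧ cid κ σ c = c) ∧ c < i then 1 else 0) ∧
  (∀ c < σ.g 3, ¬ (((cur κ σ).deg c ≤ σ.g 4 ∧ cid κ σ c = c) ∧ c < i) → bt κ τ 5 c = 0) ∧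
  (∀ c < σ.g 3, c < i → ((cur κ σ).deg c ≤ σ.g 4 ∧ cid κ σ c = c) →
    (bt κ τ 5 c = 1 ↔ Cond κ σ (fun c => hvE.ev κ σ [c]) (bt κ τ 5) c))

theorem same_upd {G : List ℕ} {B : List (Fin 16)} (τ : St) (x i : ℕ) (hx : x ∈ G) :
    Same G B τ ⟨Function.update τ.g x i, τ.m⟩ := by
  refine ⟨fun y hy => ?_, fun _ _ => rfl⟩
  have : y ≠ x := fun h => hy (h ▸ hx)
  simp [this]

theorem dinv_step {κ : Par} {σ τ : St} (hP : POk κ σ) (hG : (cur κ σ).Ok)
    (hK : KOk κ σ (σ.g 5)) (hl : σ.g 3 / σ.g 8 < κ.lim) {i : ℕ} (hi : i < σ.g 3)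
    (h : DInv κ σ i τ) :
    DInv κ σ (i + 1) ((S.ite (and (call1 lowE (.g 21)) (eqn (call1 idE (.g 21)) (.g 21)))
      (seqs [.set 35 (call1 dcE (.g 21)), setb 5 (.g 21) (.g 35), setb 4 (.g 21) 1]) .skip).run κ
        ⟨Function.update τ.g 21 i, τ.m⟩) := by
  obtain ⟨hS, h3m, w4, w5, ha, hb, hc⟩ := h
  obtain ⟨τ0, hτ0⟩ : ∃ ρ : St, ρ = ⟨Function.update τ.g 21 i, τ.m⟩ := ⟨_, rfl⟩
  rw [← hτ0]
  have s0 : Same [21, 35] [] τ τ0 := by rw [hτ0]; exact same_upd τ 21 i (by decide)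
  have hS0 : Same GS [3, 4, 5] σ τ0 := hS.trans (s0.mono (by decide) (by decide))
  have g21 : τ0.g 21 = i := by rw [hτ0]; simp
  have g3 : τ0.g 3 = σ.g 3 := hS0.1 3 (by decide)
  have g4 : τ0.g 4 = σ.g 4 := hS0.1 4 (by decide)
  have g5 : τ0.g 5 = σ.g 5 := hS0.1 5 (by decide)
  have g8 : τ0.g 8 = σ.g 8 := hS0.1 8 (by decide)
  have g8' : τ.g 8 = σ.g 8 := hS.1 8 (by decide)
  have hcur : cur κ τ0 = cur κ σ := cur_same (hS0.mono (by decide) (by decide))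
  have hcid := cid_congr (κ := κ) hS0
  have hP0 : POk κ τ0 := pok_same (hS0.mono (by decide) (by decide)) hP
  have hm0 : ∀ b, τ0.m b = τ.m b := fun b => s0.2 b (by decide +revert)
  have hbt0 : ∀ b k, bt κ τ0 b k = bt κ τ b k := fun b k =>
    bt_congr (by rw [g8, g8']) (hm0 b) (hm0 11) k
  have hbt5 : bt κ τ0 5 = bt κ τ 5 := funext fun k => hbt0 5 k
  have hcond : ((and (call1 lowE (.g 21)) (eqn (call1 idE (.g 21)) (.g 21))).ev κ τ0 [] ≠ 0 ↔
      ((cur κ σ).deg i ≤ σ.g 4 ∧ cid κ σ i = i)) := by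
    simp only [ev_and, ev_eqn, ev_call1, ev_g]
    rw [g21, PClusBAux.low_ev, id_spec κ τ0 hP0 (by rw [hcur]; exact hG)
      (by rw [g5]; exact kok_congr hS0 hK) i (by rw [g3]; exact hi), hcur, hcid, g4]
    by_cases h1 : (cur κ σ).deg i ≤ σ.g 4
    · by_cases h2 : cid κ σ i = i
      · simp [h1, h2]
      · simp [h1, h2]
    · simp [h1]
  have hne : ∀ c, c < i + 1 → c ≠ i → c < i := fun c h1 h2 => by omega
  by_cases hrep : (cur κ σ).deg i ≤ σ.g 4 ∧ cid κ σ i = i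
  · -- a cluster
    have hdc := dc_val hP hG hK hS0 hi hrep.1 hrep.2 (fun c hc' => by rw [hbt0]; exact ha c hc')
    rw [hbt5] at hdc
    have hdc2 : dcE.ev κ τ0 [i] < 2 := by
      rw [hdc]
      split_ifs <;> norm_num
    have htop : 2 ≤ κ.top := by have := hP.N; omega
    have hrun : (S.ite (and (call1 lowE (.g 21)) (eqn (call1 idE (.g 21)) (.g 21)))
      (seqs [.set 35 (call1 dcE (.g 21)), setb 5 (.g 21) (.g 35), setb 4 (.g 21) 1]) .skip).run κ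
        τ0 = (setb 4 (.g 21) 1).run κ ((setb 5 (.g 21) (.g 35)).run κ
          ((S.set 35 (call1 dcE (.g 21))).run κ τ0)) := by
      simp only [S.run, if_neg (hcond.mpr hrep), seqs]
    rw [hrun]
    obtain ⟨τ1, hτ1⟩ : ∃ ρ : St, ρ = (S.set 35 (call1 dcE (.g 21))).run κ τ0 := ⟨_, rfl⟩
    obtain ⟨τ2, hτ2⟩ : ∃ ρ : St, ρ = (setb 5 (.g 21) (.g 35)).run κ τ1 := ⟨_, rfl⟩
    obtain ⟨τ3, hτ3⟩ : ∃ ρ : St, ρ = (setb 4 (.g 21) 1).run κ τ2 := ⟨_, rfl⟩
    rw [← hτ1, ← hτ2, ← hτ3]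
    have s1 : Same [35] [] τ0 τ1 := by rw [hτ1]; exact run_same _ _ κ _ rfl τ0
    have s2 : Same [] [5] τ1 τ2 := by rw [hτ2]; exact run_same _ _ κ _ rfl τ1
    have s3 : Same [] [4] τ2 τ3 := by rw [hτ3]; exact run_same _ _ κ _ rfl τ2
    have hS1 : Same GS [3, 4, 5] σ τ1 := hS0.trans (s1.mono (by decide) (by decide))
    have hS2 : Same GS [3, 4, 5] σ τ2 := hS1.trans (s2.mono (by decide) (by decide))
    have hS3 : Same GS [3, 4, 5] σ τ3 := hS2.trans (s3.mono (by decide) (by decide))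
    have g21' : τ1.g 21 = i := (s1.1 21 (by decide)).trans g21
    have g21'' : τ2.g 21 = i := (s2.1 21 (by decide)).trans g21'
    have g35 : τ1.g 35 = dcE.ev κ τ0 [i] := by
      have : τ1.g 35 = min (dcE.ev κ τ0 [τ0.g 21]) κ.top := by
        rw [hτ1]
        simp [S.run]
      rw [this, g21, min_eq_left (by omega)]
    have e81 : τ1.g 8 = σ.g 8 := hS1.1 8 (by decide)
    have e82 : τ2.g 8 = σ.g 8 := hS2.1 8 (by decide)
    have e83 : τ3.g 8 = σ.g 8 := hS3.1 8 (by decide)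
    have m1 : ∀ b, τ1.m b = τ.m b := fun b => (s1.2 b (by decide +revert)).trans (hm0 b)
    have k2 := PBitsAux.bt_eq
    have z2 := setb_spec κ τ1 (pok_same (hS1.mono (by decide) (by decide)) hP) 5 (by decide)
      (.g 21) (.g 35) i (dcE.ev κ τ0 [i]) (σ.g 3) (fun l => g21') g35 hdc2 hi
      (by rw [e81]; exact hl) (fun r => by rw [m1, e81]; exact w5 r)
    rw [← hτ2] at z2
    have z3 := setb_spec κ τ2 (pok_same (hS2.mono (by decide) (by decide)) hP) 4 (by decide)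
      (.g 21) 1 i 1 (σ.g 3) (fun l => g21'') rfl (by norm_num) hi
      (by rw [e82]; exact hl) (fun r => by rw [s2.2 4 (by decide), m1, e82]; exact w4 r)
    rw [← hτ3] at z3
    have b5 : ∀ k, bt κ τ3 5 k = if k = i then dcE.ev κ τ0 [i] else bt κ τ 5 k := by
      intro k
      rw [bt_congr (e83.trans e82.symm) (s3.2 5 (by decide)) (s3.2 11 (by decide)), z2.1 k,
        bt_congr (e81.trans g8'.symm) (m1 5) (m1 11)]
    have b4 : ∀ k, bt κ τ3 4 k = if k = i then 1 else bt κ τ 4 k := by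
      intro k
      rw [z3.1 k, bt_congr (e82.trans e81.symm) (s2.2 4 (by decide)) (s2.2 11 (by decide)),
        bt_congr (e81.trans g8'.symm) (m1 4) (m1 11)]
    refine ⟨hS3, ?_, ?_, ?_, ?_, ?_, ?_⟩
    · rw [s3.2 3 (by decide), s2.2 3 (by decide), m1, h3m]
    · intro r
      rw [← e82]
      exact z3.2 r
    · intro r
      rw [s3.2 5 (by decide), ← e81]
      exact z2.2 r
    · intro c hcN
      rw [b4]
      by_cases hci : c = i
      · rw [if_pos hci, if_pos]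
        rw [hci]
        exact ⟨hrep, Nat.lt_succ_self i⟩
      · rw [if_neg hci, ha c hcN]
        refine if_congr ?_ rfl rfl
        exact ⟨fun hh => ⟨hh.1, by omega⟩, fun hh => ⟨hh.1, hne c hh.2 hci⟩⟩
    · intro c hcN hn
      have hci : c ≠ i := by
        rintro rfl
        exact hn ⟨hrep, Nat.lt_succ_self c⟩
      rw [b5, if_neg hci]
      exact hb c hcN (fun hh => hn ⟨hh.1, by omega⟩)
    · intro c hcN hci hr
      have hold : ∀ d < c, bt κ τ3 5 d = bt κ τ 5 d := fun d hd => by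
        rw [b5, if_neg (by omega)]
      rw [Cond_congr hold, b5]
      by_cases hci' : c = i
      · subst hci'
        rw [if_pos rfl, hdc]
        by_cases hC : Cond κ σ (fun c => hvE.ev κ σ [c]) (bt κ τ 5) c
        · simp [hC]
        · simp [hC]
      · rw [if_neg hci']
        exact hc c hcN (hne c hci hci') hr
  · have hrun : (S.ite (and (call1 lowE (.g 21)) (eqn (call1 idE (.g 21)) (.g 21)))
      (seqs [.set 35 (call1 dcE (.g 21)), setb 5 (.g 21) (.g 35), setb 4 (.g 21) 1]) .skip).run κ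
        τ0 = τ0 := by
      have hz : (and (call1 lowE (.g 21)) (eqn (call1 idE (.g 21)) (.g 21))).ev κ τ0 [] = 0 := by
        by_contra hh
        exact hrep (hcond.mp hh)
      simp only [S.run, if_pos hz]
    rw [hrun]
    refine ⟨hS0, ?_, ?_, ?_, ?_, ?_, ?_⟩
    · rw [hm0, h3m]
    · intro r
      rw [hm0]
      exact w4 r
    · intro r
      rw [hm0]
      exact w5 r
    · intro c hcN
      rw [hbt0, ha c hcN]
      refine if_congr ?_ rfl rfl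
      constructor
      · exact fun hh => ⟨hh.1, by omega⟩
      · rintro ⟨h1, h2⟩
        refine ⟨h1, hne c h2 ?_⟩
        rintro rfl
        exact hrep h1
    · intro c hcN hn
      rw [hbt0]
      exact hb c hcN (fun hh => hn ⟨hh.1, by omega⟩)
    · intro c hcN hci hr
      rw [hbt5]
      refine hc c hcN (hne c hci ?_) hr
      rintro rfl
      exact hrep hr

theorem dec_run {κ : Par} {σ τ : St} (hP : POk κ σ) (hG : (cur κ σ).Ok)
    (hK : KOk κ σ (σ.g 5)) (hl : σ.g 3 / σ.g 8 < κ.lim) (h : DInv κ σ 0 τ) :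
    DInv κ σ (σ.g 3) (decS.run κ τ) := by
  have htop : σ.g 3 ≤ κ.top := by have := hP.N; omega
  refine loop_inv κ 21 (.g 3) _ τ (σ.g 3) ?_ (DInv κ σ) h ?_
  · rw [ev_g, h.1.1 3 (by decide)]
    exact min_eq_left htop
  · intro i hi ρ hρ
    exact dinv_step hP hG hK hl hi hρ

/-! ### the new kept bits -/

theorem nk_congr {κ : Par} {σ τ : St} (h : Same GS [3] σ τ) (l : List ℕ) :
    nkE.ev κ τ l = nkE.ev κ σ l := by
  refine ev_congr (fun x => decide (x ∉ GS)) (fun b => decide (b ∉ ([3] : List (Fin 16))))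
    κ τ σ ?_ ?_ nkE (by decide) l
  · intro x hx
    exact h.1 x (by simpa using hx)
  · intro b hb
    exact h.2 b (by simpa using hb)

/-- the invariant of `nkS`: the first `n` bits are done -/
def NInv (κ : Par) (σ : St) (n : ℕ) (τ : St) : Prop :=
  Same GS [3] σ τ ∧ (∀ r, τ.m 3 r < 2 ^ σ.g 8) ∧
  ∀ k < n, bt κ τ 3 k = nkE.ev κ σ [k / σ.g 4, k % σ.g 4]

theorem ninv_step {κ : Par} {σ τ : St} (hP : POk κ σ)
    (hnk : ∀ u < σ.g 3, ∀ j, nkE.ev κ σ [u, j] < 2)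
    (hl : σ.g 3 * σ.g 4 / σ.g 8 < κ.lim) {i j : ℕ} (hi : i < σ.g 3) (hj : j < σ.g 4)
    (h : NInv κ σ (i * σ.g 4 + j) τ) (g21 : τ.g 21 = i) :
    NInv κ σ (i * σ.g 4 + (j + 1)) ((seqs [.set 35 (call2 nkE (.g 21) (.g 24)),
      setb 3 (.g 21 * .g 4 + .g 24) (.g 35)]).run κ ⟨Function.update τ.g 24 j, τ.m⟩) ∧
    ((seqs [.set 35 (call2 nkE (.g 21) (.g 24)),
      setb 3 (.g 21 * .g 4 + .g 24) (.g 35)]).run κ ⟨Function.update τ.g 24 j, τ.m⟩).g 21 = i := by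
  obtain ⟨hS, w3, hb⟩ := h
  obtain ⟨τ0, hτ0⟩ : ∃ ρ : St, ρ = ⟨Function.update τ.g 24 j, τ.m⟩ := ⟨_, rfl⟩
  rw [← hτ0]
  have s0 : Same [24] [] τ τ0 := by rw [hτ0]; exact same_upd τ 24 j (by decide)
  have hS0 : Same GS [3] σ τ0 := hS.trans (s0.mono (by decide) (by decide))
  obtain ⟨τ1, hτ1⟩ : ∃ ρ : St, ρ = (S.set 35 (call2 nkE (.g 21) (.g 24))).run κ τ0 := ⟨_, rfl⟩
  obtain ⟨τ2, hτ2⟩ : ∃ ρ : St, ρ = (setb 3 (.g 21 * .g 4 + .g 24) (.g 35)).run κ τ1 := ⟨_, rfl⟩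
  have hrun : (seqs [.set 35 (call2 nkE (.g 21) (.g 24)),
      setb 3 (.g 21 * .g 4 + .g 24) (.g 35)]).run κ τ0 = τ2 := by
    rw [hτ2, hτ1]
    rfl
  rw [hrun]
  have s1 : Same [35] [] τ0 τ1 := by rw [hτ1]; exact run_same _ _ κ _ rfl τ0
  have s2 : Same [] [3] τ1 τ2 := by rw [hτ2]; exact run_same _ _ κ _ rfl τ1
  have hS1 : Same GS [3] σ τ1 := hS0.trans (s1.mono (by decide) (by decide))
  have hS2 : Same GS [3] σ τ2 := hS1.trans (s2.mono (by decide) (by decide))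
  have a21 : τ0.g 21 = i := (s0.1 21 (by decide)).trans g21
  have a24 : τ0.g 24 = j := by rw [hτ0]; simp
  have b21 : τ1.g 21 = i := (s1.1 21 (by decide)).trans a21
  have b24 : τ1.g 24 = j := (s1.1 24 (by decide)).trans a24
  have b4 : τ1.g 4 = σ.g 4 := hS1.1 4 (by decide)
  have e8 : τ.g 8 = σ.g 8 := hS.1 8 (by decide)
  have e81 : τ1.g 8 = σ.g 8 := hS1.1 8 (by decide)
  have m1 : ∀ b, τ1.m b = τ.m b := fun b =>
    (s1.2 b (by decide +revert)).trans (s0.2 b (by decide +revert))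
  have hv := hnk i hi j
  have htop : 2 ≤ κ.top := by have := hP.N; omega
  have g35 : τ1.g 35 = nkE.ev κ σ [i, j] := by
    have : τ1.g 35 = min (nkE.ev κ τ0 [τ0.g 21, τ0.g 24]) κ.top := by
      rw [hτ1]
      simp [S.run]
    rw [this, a21, a24, nk_congr hS0, min_eq_left (by omega)]
  have hlt : i * σ.g 4 + j < σ.g 3 * σ.g 4 := by
    calc i * σ.g 4 + j < i * σ.g 4 + σ.g 4 := by omega
      _ = (i + 1) * σ.g 4 := by ring
      _ ≤ _ := Nat.mul_le_mul_right _ hi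
  have z := setb_spec κ τ1 (pok_same (hS1.mono (by decide) (by decide)) hP) 3 (by decide)
      (.g 21 * .g 4 + .g 24) (.g 35) (i * σ.g 4 + j) (nkE.ev κ σ [i, j]) (σ.g 3 * σ.g 4)
      (fun l => by rw [ev_add, ev_mul, ev_g, ev_g, ev_g, b21, b24, b4]) g35 hv hlt
      (by rw [e81]; exact hl) (fun r => by rw [m1, e81]; exact w3 r)
  rw [← hτ2] at z
  refine ⟨⟨hS2, ?_, ?_⟩, ?_⟩
  · intro r
    rw [← e81]
    exact z.2 r
  · intro k hk
    rw [z.1 k]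
    by_cases hki : k = i * σ.g 4 + j
    · rw [if_pos hki]
      have h1 : k / σ.g 4 = i := by
        rw [hki, Nat.mul_comm, Nat.mul_add_div (by omega), Nat.div_eq_of_lt hj, Nat.add_zero]
      have h2 : k % σ.g 4 = j := by
        rw [hki, Nat.mul_comm, Nat.mul_add_mod, Nat.mod_eq_of_lt hj]
      rw [h1, h2]
    · rw [if_neg hki, bt_congr (e81.trans e8.symm) (m1 3) (m1 11)]
      exact hb k (by omega)
  · exact (s2.1 21 (by decide)).trans b21

theorem nk_run {κ : Par} {σ : St} (hP : POk κ σ)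
    (hnk : ∀ u < σ.g 3, ∀ j, nkE.ev κ σ [u, j] < 2) (hD : σ.g 4 ≤ κ.cap)
    (hl : σ.g 3 * σ.g 4 / σ.g 8 < κ.lim) (hw : ∀ r, σ.m 3 r < 2 ^ σ.g 8) :
    NInv κ σ (σ.g 3 * σ.g 4) (nkS.run κ σ) := by
  have htop : σ.g 3 ≤ κ.top := by have := hP.N; omega
  have htop4 : σ.g 4 ≤ κ.top := by have := hP.top; omega
  refine loop_inv κ 21 (.g 3) _ σ (σ.g 3) (min_eq_left htop)
    (fun i τ => NInv κ σ (i * σ.g 4) τ) ?_ ?_
  · exact ⟨Same.refl _ _ _, hw, fun k hk => absurd hk (by simp)⟩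
  · intro i hi τ h
    have s0 : Same GS [3] τ ⟨Function.update τ.g 21 i, τ.m⟩ := same_upd τ 21 i (by decide)
    have key := loop_inv κ 24 (.g 4) (seqs [.set 35 (call2 nkE (.g 21) (.g 24)),
      setb 3 (.g 21 * .g 4 + .g 24) (.g 35)]) ⟨Function.update τ.g 21 i, τ.m⟩ (σ.g 4) ?_
      (fun j τ' => NInv κ σ (i * σ.g 4 + j) τ' ∧ τ'.g 21 = i) ?_ ?_
    · have e : (i + 1) * σ.g 4 = i * σ.g 4 + σ.g 4 := by ring
      rw [e]
      exact key.1
    · rw [ev_g, (h.1.trans s0).1 4 (by decide)]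
      exact min_eq_left htop4
    · refine ⟨⟨h.1.trans s0, h.2.1, ?_⟩, by simp⟩
      intro k hk
      exact h.2.2 k (by simpa using hk)
    · rintro j hj ρ ⟨hρ1, hρ2⟩
      exact ninv_step hP hnk hl hi hj hρ1 hρ2

/-! ### the copy -/

theorem copy_run {κ : Par} {σ : St} (hP : POk κ σ) (ht : κ.lim ≤ κ.top)
    (hl : σ.g 3 * σ.g 4 / σ.g 8 < κ.lim) (hw : ∀ r, σ.m 3 r < 2 ^ σ.g 8)
    (hw2 : ∀ r, σ.m 2 r < 2 ^ σ.g 8) :
    Same [23] [2] σ ((S.loop 23 (.g 3 * .g 4 / .g 8 + 1) (.st 2 (.g 23) (.ld 3 (.g 23)))).run κ σ) ∧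
    (∀ r, ((S.loop 23 (.g 3 * .g 4 / .g 8 + 1) (.st 2 (.g 23) (.ld 3 (.g 23)))).run κ σ).m 2 r <
      2 ^ σ.g 8) ∧
    ∀ k < σ.g 3 * σ.g 4,
      bt κ ((S.loop 23 (.g 3 * .g 4 / .g 8 + 1) (.st 2 (.g 23) (.ld 3 (.g 23)))).run κ σ) 2 k =
        bt κ σ 3 k := by
  have key := loop_inv κ 23 (.g 3 * .g 4 / .g 8 + 1) (.st 2 (.g 23) (.ld 3 (.g 23))) σ
    (σ.g 3 * σ.g 4 / σ.g 8 + 1) ?_
    (fun i τ => Same [23] [2] σ τ ∧ ∀ r, τ.m 2 r = if r < i then σ.m 3 r else σ.m 2 r) ?_ ?_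
  · obtain ⟨k1, k2⟩ := key
    refine ⟨k1, ?_, ?_⟩
    · intro r
      rw [k2]
      split_ifs
      · exact hw r
      · exact hw2 r
    · intro k hk
      have e8 := k1.1 8 (by decide)
      have e11 := k1.2 11 (by decide)
      rw [PBitsAux.bt_eq κ _ 2 k (by rw [e8]; exact hP.q1) (by rw [e8]; exact hP.q3)
        (by rw [e8, e11]; exact hP.pow), PBitsAux.bt_eq κ σ 3 k hP.q1 hP.q3 hP.pow, e8, k2,
        if_pos (Nat.lt_succ_of_le (Nat.div_le_div_right hk.le))]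
  · rw [ev_add, ev_div, ev_mul, ev_g, ev_g, ev_g, ev_one]
    exact min_eq_left (by omega)
  · exact ⟨Same.refl _ _ _, fun r => by simp⟩
  · rintro i hi τ ⟨i1, i2⟩
    have hil : i < κ.lim := by omega
    have s0 : Same [23] [2] τ ⟨Function.update τ.g 23 i, τ.m⟩ := same_upd τ 23 i (by decide)
    have s1 : Same [23] [2] ⟨Function.update τ.g 23 i, τ.m⟩
      ((S.st 2 (.g 23) (.ld 3 (.g 23))).run κ ⟨Function.update τ.g 23 i, τ.m⟩) :=
      run_same _ _ κ _ rfl _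
    refine ⟨(i1.trans s0).trans s1, fun r => ?_⟩
    have e1 : (E.g 23).ev κ ⟨Function.update τ.g 23 i, τ.m⟩ [] = i := by simp
    have e3 : τ.m 3 = σ.m 3 := i1.2 3 (by decide)
    have e4 : min (σ.m 3 i) κ.top = σ.m 3 i := min_eq_left ((hw i).le.trans hP.q2)
    by_cases h : r = i
    · subst h
      simp [S.run, e3, e4, hil]
    · simp only [S.run, e1, if_pos hil, Function.update_self, Function.update_of_ne h, i2]
      by_cases h2 : r < i
      · rw [if_pos h2, if_pos (by omega)]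
      · rw [if_neg h2, if_neg (by omega)]

end PRoundAux

open PRoundAux

theorem round_spec (κ : Par) (σ : St) (b : ℕ) (hP : POk κ σ) (hG : (cur κ σ).Ok)
    (hK : KOk κ σ b) (hb : b + σ.g 4 * b * b ≤ σ.g 5) (hr : σ.g 3 * σ.g 4 / σ.g 8 < κ.lim)
    (ht : κ.lim ≤ κ.top) (hw : ∀ c ∈ [2, 3, 4, 5], ∀ r, σ.m c r < 2 ^ σ.g 8) :
    KOk κ (roundS.run κ σ) (b + σ.g 4 * b * b) ∧
    (Planar (cur κ σ).gr → 24 * (cur κ σ).WI (σ.g 4) (cid κ (roundS.run κ σ)) ≤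
      23 * (cur κ σ).WI (σ.g 4) (cid κ σ)) ∧
    (∀ c ∈ [2, 3, 4, 5], ∀ r, (roundS.run κ σ).m c r < 2 ^ σ.g 8) := by
  have hK5 : KOk κ σ (σ.g 5) := ⟨hK.val, hK.symm, fun u hu => (hK.size u hu).trans (by omega)⟩
  have hl : σ.g 3 / σ.g 8 < κ.lim :=
    lt_of_le_of_lt (Nat.div_le_div_right (Nat.le_mul_of_pos_right _ hP.D1)) hr
  have hDcap : σ.g 4 ≤ κ.cap := PClusBAux.D_le_cap hP
  obtain ⟨τ1, hτ1⟩ : ∃ ρ : St, ρ = (clr 4 (.g 3)).run κ σ := ⟨_, rfl⟩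
  obtain ⟨τ2, hτ2⟩ : ∃ ρ : St, ρ = (clr 5 (.g 3)).run κ τ1 := ⟨_, rfl⟩
  obtain ⟨τ3, hτ3⟩ : ∃ ρ : St, ρ = decS.run κ τ2 := ⟨_, rfl⟩
  obtain ⟨τ4, hτ4⟩ : ∃ ρ : St, ρ = nkS.run κ τ3 := ⟨_, rfl⟩
  obtain ⟨τ5, hτ5⟩ : ∃ ρ : St, ρ = (S.loop 23 (.g 3 * .g 4 / .g 8 + 1)
    (.st 2 (.g 23) (.ld 3 (.g 23)))).run κ τ4 := ⟨_, rfl⟩
  have hrun : roundS.run κ σ = τ5 := by
    rw [hτ5, hτ4, hτ3, hτ2, hτ1]
    rfl
  rw [hrun]
  -- clearing
  have s1 : Same [23] [4] σ τ1 := by rw [hτ1]; exact run_same _ _ κ _ rfl σ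
  have s2 : Same [23] [5] τ1 τ2 := by rw [hτ2]; exact run_same _ _ κ _ rfl τ1
  have hS1 : Same GS [3, 4, 5] σ τ1 := s1.mono (by decide) (by decide)
  have hS2 : Same GS [3, 4, 5] σ τ2 := hS1.trans (s2.mono (by decide) (by decide))
  have z1 := clr_spec κ σ hP 4 (by decide) (.g 3) (σ.g 3) rfl hl (by omega) (hw 4 (by simp))
  rw [← hτ1] at z1
  have e81 : τ1.g 8 = σ.g 8 := hS1.1 8 (by decide)
  have e82 : τ2.g 8 = σ.g 8 := hS2.1 8 (by decide)
  have e31 : τ1.g 3 = σ.g 3 := hS1.1 3 (by decide)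
  have z2 := clr_spec κ τ1 (pok_same (hS1.mono (by decide) (by decide)) hP) 5 (by decide) (.g 3)
    (σ.g 3) (by rw [ev_g, e31]) (by rw [e81]; exact hl) (by rw [e81]; omega)
    (fun r => by rw [s1.2 5 (by decide), e81]; exact hw 5 (by simp) r)
  rw [← hτ2] at z2
  have hD0 : DInv κ σ 0 τ2 := by
    refine ⟨hS2, ?_, ?_, ?_, ?_, ?_, ?_⟩
    · rw [s2.2 3 (by decide), s1.2 3 (by decide)]
    · intro r
      rw [s2.2 4 (by decide)]
      exact z1.2 r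
    · intro r
      rw [← e81]
      exact z2.2 r
    · intro c hc
      rw [if_neg (fun hh => absurd hh.2 (Nat.not_lt_zero _)), bt_congr (e82.trans e81.symm)
        (s2.2 4 (by decide)) (s2.2 11 (by decide))]
      exact z1.1 c hc
    · intro c hc _
      exact z2.1 c hc
    · intro c _ hc
      exact absurd hc (Nat.not_lt_zero _)
  -- decisions
  have hD := dec_run hP hG hK5 hl hD0
  rw [← hτ3] at hD
  obtain ⟨hS3, m33, w43, w53, -, -, hdec⟩ := hD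
  obtain ⟨x, hx⟩ : ∃ x : ℕ → ℕ, x = bt κ τ3 5 := ⟨_, rfl⟩
  obtain ⟨h, hh⟩ : ∃ h : ℕ → ℕ, h = fun c => hvE.ev κ σ [c] := ⟨_, rfl⟩
  rw [← hx, ← hh] at hdec
  have hx2 : ∀ c, x c < 2 := fun c => by rw [hx]; exact bt_lt κ τ3 5 c
  have hHH : HH κ σ h := by rw [hh]; exact HH_hv hP hG hK5
  have hc3 : cur κ τ3 = cur κ σ := cur_same (hS3.mono (by decide) (by decide))
  have hi3 := cid_congr (κ := κ) hS3
  have e33 : τ3.g 3 = σ.g 3 := hS3.1 3 (by decide)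
  have e43 : τ3.g 4 = σ.g 4 := hS3.1 4 (by decide)
  have e53 : τ3.g 5 = σ.g 5 := hS3.1 5 (by decide)
  have e83 : τ3.g 8 = σ.g 8 := hS3.1 8 (by decide)
  have hP3 : POk κ τ3 := pok_same (hS3.mono (by decide) (by decide)) hP
  -- new kept bits
  have hnk : ∀ u < σ.g 3, ∀ j, nkE.ev κ τ3 [u, j] =
      if (cur κ σ).deg u ≤ σ.g 4 ∧ j < (cur κ σ).deg u ∧
        (cur κ σ).deg ((cur κ σ).nb u j) ≤ σ.g 4 ∧
        (cid κ σ ((cur κ σ).nb u j) = cid κ σ u ∨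
          Mg h x (cid κ σ ((cur κ σ).nb u j)) (cid κ σ u) ∨
          Mg h x (cid κ σ u) (cid κ σ ((cur κ σ).nb u j))) then 1 else 0 := by
    intro u hu j
    rw [nk_spec κ τ3 hP3 (by rw [hc3]; exact hG) (by rw [e53]; exact kok_congr hS3 hK5) u j
      (by rw [e33]; exact hu)]
    have hm : ∀ a c, mrg κ τ3 a c ↔ Mg h x a c := by
      intro a c
      unfold mrg Mg
      rw [hv_congr hS3, hh, hx]
    rw [hc3, hi3, e43]
    simp only [hm]
  have hnk2 : ∀ u < τ3.g 3, ∀ j, nkE.ev κ τ3 [u, j] < 2 := by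
    intro u hu j
    rw [e33] at hu
    rw [hnk u hu j]
    split_ifs <;> norm_num
  have hN := nk_run hP3 hnk2 (by rw [e43]; exact hDcap) (by rw [e33, e43, e83]; exact hr)
    (fun r => by rw [m33, e83]; exact hw 3 (by simp) r)
  rw [← hτ4, e33, e43] at hN
  obtain ⟨hS4, w34, hb34⟩ := hN
  rw [e83] at w34
  rw [e43] at hb34
  have hS4' : Same GS [3, 4, 5] σ τ4 := hS3.trans (hS4.mono (by decide) (by decide))
  have e34 : τ4.g 3 = σ.g 3 := hS4'.1 3 (by decide)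
  have e44 : τ4.g 4 = σ.g 4 := hS4'.1 4 (by decide)
  have e84 : τ4.g 8 = σ.g 8 := hS4'.1 8 (by decide)
  have hP4 : POk κ τ4 := pok_same (hS4'.mono (by decide) (by decide)) hP
  obtain ⟨s5, w25, hb25⟩ := copy_run hP4 ht (by rw [e34, e44, e84]; exact hr)
    (fun r => by rw [e84]; exact w34 r)
    (fun r => by rw [hS4'.2 2 (by decide), e84]; exact hw 2 (by simp) r)
  rw [← hτ5] at s5 w25 hb25
  rw [e84] at w25
  rw [e34, e44] at hb25
  have hS5 : Same GS [2, 3, 4, 5] σ τ5 :=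
    (hS4'.mono (by decide) (by decide)).trans (s5.mono (by decide) (by decide))
  have e35 : τ5.g 3 = σ.g 3 := hS5.1 3 (by decide)
  have e45 : τ5.g 4 = σ.g 4 := hS5.1 4 (by decide)
  have hc5 : cur κ τ5 = cur κ σ := cur_same hS5
  -- the bits after the round
  have hbits : ∀ u < σ.g 3, ∀ j < σ.g 4, bt κ τ5 2 (u * σ.g 4 + j) = nkE.ev κ τ3 [u, j] := by
    intro u hu j hj
    have hlt : u * σ.g 4 + j < σ.g 3 * σ.g 4 := by
      calc u * σ.g 4 + j < u * σ.g 4 + σ.g 4 := by omega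
        _ = (u + 1) * σ.g 4 := by ring
        _ ≤ _ := Nat.mul_le_mul_right _ hu
    rw [hb25 _ hlt, hb34 _ hlt]
    have h1 : (u * σ.g 4 + j) / σ.g 4 = u := by
      rw [Nat.mul_comm, Nat.mul_add_div (by omega), Nat.div_eq_of_lt hj, Nat.add_zero]
    have h2 : (u * σ.g 4 + j) % σ.g 4 = j := by
      rw [Nat.mul_comm, Nat.mul_add_mod, Nat.mod_eq_of_lt hj]
    rw [h1, h2]
  have hne : ∀ u < σ.g 3, ∀ j, nkE.ev κ τ3 [u, j] ≠ 0 → (cur κ σ).deg u ≤ σ.g 4 ∧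
        j < (cur κ σ).deg u ∧ (cur κ σ).deg ((cur κ σ).nb u j) ≤ σ.g 4 ∧
        (cid κ σ ((cur κ σ).nb u j) = cid κ σ u ∨
          Mg h x (cid κ σ ((cur κ σ).nb u j)) (cid κ σ u) ∨
          Mg h x (cid κ σ u) (cid κ σ ((cur κ σ).nb u j))) := by
    intro u hu j hn
    rw [hnk u hu j] at hn
    by_contra hc
    rw [if_neg hc] at hn
    exact hn rfl
  have hkst : ∀ u < σ.g 3, ∀ y, kst κ τ5 u y ↔ RR κ σ h x u y := by
    intro u hu y
    unfold kst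
    rw [e45, hc5]
    constructor
    · rintro ⟨j, hj, hbj, hy⟩
      rw [hbits u hu j hj] at hbj
      obtain ⟨k1, k2, k3, k4⟩ := hne u hu j hbj
      exact ⟨k1, j, k2, hy, by rw [← hy]; exact k3, by rw [← hy]; exact k4⟩
    · rintro ⟨k1, j, k2, hy, k3, k4⟩
      refine ⟨j, by omega, ?_, hy⟩
      rw [hbits u hu j (by omega), hnk u hu j, if_pos]
      · exact one_ne_zero
      · rw [hy]
        exact ⟨k1, k2, k3, k4⟩
  have hKC : ∀ u < σ.g 3, ∀ y, y ∈ KC κ τ5 u ↔ Relation.ReflTransGen (RR κ σ h x) u y := by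
    intro u hu y
    constructor
    · intro hy
      have hy' : Relation.ReflTransGen (kst κ τ5) u y := hy
      have key : y < σ.g 3 ∧ Relation.ReflTransGen (RR κ σ h x) u y := by
        clear hy
        induction hy' with
        | refl => exact ⟨hu, Relation.ReflTransGen.refl⟩
        | tail h1 h2 ih =>
          rw [hkst _ ih.1] at h2
          exact ⟨(RR_lt hG ih.1 h2).1, ih.2.tail h2⟩
      exact key.2
    · intro hy
      have key : y < σ.g 3 ∧ Relation.ReflTransGen (kst κ τ5) u y := by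
        induction hy with
        | refl => exact ⟨hu, Relation.ReflTransGen.refl⟩
        | tail h1 h2 ih =>
          have h3 := (RR_lt hG ih.1 h2).1
          rw [← hkst _ ih.1] at h2
          exact ⟨h3, ih.2.tail h2⟩
      exact key.2
  have hKC' : ∀ u < σ.g 3, KC κ τ5 u = {y | Relation.ReflTransGen (RR κ σ h x) u y} :=
    fun u hu => Set.ext (hKC u hu)
  have hKnew : KOk κ τ5 (b + σ.g 4 * b * b) := by
    refine ⟨?_, ?_, ?_⟩
    · rw [e35, e45, hc5]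
      intro u hu j hj hbj
      rw [hbits u hu j hj] at hbj
      obtain ⟨k1, k2, k3, k4⟩ := hne u hu j hbj
      exact ⟨k1, k2, k3⟩
    · rw [e35]
      intro u hu y hy
      rw [hkst u hu] at hy
      rw [hkst y (RR_lt hG hu hy).1]
      exact RR_symm hG hu hy
    · rw [e35]
      intro u hu
      rw [hKC' u hu]
      exact size_le hG hK5 hK hx2 hHH hu
  refine ⟨hKnew, ?_, ?_⟩
  · intro hpl
    have hgr : ∑ c ∈ (Finset.range (σ.g 3)).filter
          (fun c => ((cur κ σ).deg c ≤ σ.g 4 ∧ cid κ σ c = c) ∧ h c < σ.g 3),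
          (cur κ σ).wt (σ.g 4) (cid κ σ) c (h c) ≤
        4 * ∑ c ∈ (Finset.range (σ.g 3)).filter
          (fun c => ((cur κ σ).deg c ≤ σ.g 4 ∧ cid κ σ c = c) ∧ h c < σ.g 3 ∧ x c = 1 ∧
            x (h c) = 0), (cur κ σ).wt (σ.g 4) (cid κ σ) c (h c) := by
      have gr := greedy (σ.g 3) (fun c => (cur κ σ).deg c ≤ σ.g 4 ∧ cid κ σ c = c)
        (fun c => (cur κ σ).wt (σ.g 4) (cid κ σ) c (h c)) h x hx2 ?_ ?_
      · convert gr
      · intro c hc hrc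
        rcases hHH c hc hrc.1 hrc.2 with h1 | h1
        · exact Or.inl h1.1
        · exact Or.inr ⟨h1.1, ⟨h1.2.2.2.1, h1.2.2.1⟩, h1.2.1⟩
      · intro c hc hrc
        have h1 := hdec c hc hc hrc
        unfold Cond at h1
        convert h1
    refine decay (cur κ σ) hG hpl (σ.g 4) (cid κ σ) h x hx2 ?_ ?_ ?_ hgr (cid κ τ5) ?_
    · intro u hu hlow
      exact ⟨PClusBAux.cid_lt hG hK5 hu, PClusBAux.cid_low hG hK5 hu hlow,
        PClusBAux.cid_cid hG hK5 hu⟩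
    · intro u hu hlow
      exact conn hG hK5 hu hlow
    · exact hHH
    · intro u hu hul y hy hyl
      have hG5 : (cur κ τ5).Ok := by rw [hc5]; exact hG
      rw [cid_eq_iff κ τ5 _ hG5 hKnew u y (by rw [e35]; exact hu) (by rw [e35]; exact hy),
        hKC u hu]
      exact reach_iff hG hK5 hx2 hHH hu hul hy hyl
  · intro c hc r
    simp only [List.mem_cons, List.not_mem_nil, or_false] at hc
    rcases hc with rfl | rfl | rfl | rfl
    · exact w25 r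
    · rw [s5.2 3 (by decide)]
      exact w34 r
    · rw [s5.2 4 (by decide), hS4.2 4 (by decide)]
      exact w43 r
    · rw [s5.2 5 (by decide), hS4.2 5 (by decide)]
      exact w53 r


end Pool.Agent.MP9d6bd1
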