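import Mathlib
import Pool.Agent.Lib.MP_9d6bd1_lc.PRound
import Pool.Agent.Lib.MP_9d6bd1_lc.PClusA
import Pool.Agent.Lib.MP_9d6bd1_lc.PClusB
import Pool.Agent.Lib.MP_9d6bd1_lc.PBits
import Pool.Agent.Lib.MP_9d6bd1_lc.RunLib

/-!
# MP_9d6bd1_lc, module P15: the partition
-/

set_option autoImplicit false

open Classical

namespace Pool.Agent.MP9d6bd1

open E

namespace PPartAux

/-- the scratch variables -/
def GS : List ℕ := [21, 22, 23, 24, 35]

/-! ### congruence lemmas -/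

theorem bt_congr {κ : Par} {σ τ : St} {b : Fin 16} (h8 : τ.g 8 = σ.g 8) (hb : τ.m b = σ.m b)
    (h11 : τ.m 11 = σ.m 11) (i : ℕ) : bt κ τ b i = bt κ σ b i := by
  unfold bt bitE
  simp only [ev_div, ev_mod, ev_ld, ev_g, ev_v, h8, hb, h11, ev_ofNat]

theorem cur_congr {κ : Par} {σ τ : St} (h3 : τ.g 3 = σ.g 3) (h20 : τ.g 20 = σ.g 20)
    (h0 : τ.m 0 = σ.m 0) : cur κ τ = cur κ σ := by
  have hg : ∀ x, (fun x => decide (x = 20)) x = true → τ.g x = σ.g x := by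
    intro x hx
    have : x = 20 := by simpa using hx
    rw [this, h20]
  have hm : ∀ b, (fun b : Fin 16 => decide (b = 0)) b = true → τ.m b = σ.m b := by
    intro b hb
    have : b = 0 := by simpa using hb
    rw [this, h0]
  unfold cur
  congr 1
  · funext u
    exact ev_congr _ _ κ τ σ hg hm dgE rfl [u]
  · funext u j
    exact ev_congr _ _ κ τ σ hg hm nbE rfl [u, j]

theorem kst_congr {κ : Par} {σ τ : St} (h : Same GS [3, 4, 5, 6] σ τ) : kst κ τ = kst κ σ := by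
  have h3 : τ.g 3 = σ.g 3 := h.1 3 (by decide)
  have h4 : τ.g 4 = σ.g 4 := h.1 4 (by decide)
  have h8 : τ.g 8 = σ.g 8 := h.1 8 (by decide)
  have h20 : τ.g 20 = σ.g 20 := h.1 20 (by decide)
  have hc : cur κ τ = cur κ σ := cur_congr h3 h20 (h.2 0 (by decide))
  funext u y
  unfold kst
  rw [h4, hc]
  simp only [bt_congr h8 (h.2 2 (by decide)) (h.2 11 (by decide))]

theorem KC_congr {κ : Par} {σ τ : St} (h : Same GS [3, 4, 5, 6] σ τ) : KC κ τ = KC κ σ := by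
  funext u
  unfold KC
  rw [kst_congr h]

theorem cid_congr {κ : Par} {σ τ : St} (h : Same GS [3, 4, 5, 6] σ τ) : cid κ τ = cid κ σ := by
  funext u
  unfold cid
  rw [KC_congr h]

theorem cur_same {κ : Par} {σ τ : St} (h : Same GS [2, 3, 4, 5, 6] σ τ) : cur κ τ = cur κ σ :=
  cur_congr (h.1 3 (by decide)) (h.1 20 (by decide)) (h.2 0 (by decide))

theorem pok_same {κ : Par} {σ τ : St} (h : Same GS [2, 3, 4, 5, 6] σ τ) (hP : POk κ σ) :
    POk κ τ := by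
  have h3 : τ.g 3 = σ.g 3 := h.1 3 (by decide)
  have h4 : τ.g 4 = σ.g 4 := h.1 4 (by decide)
  have h5 : τ.g 5 = σ.g 5 := h.1 5 (by decide)
  have h6 : τ.g 6 = σ.g 6 := h.1 6 (by decide)
  have h7 : τ.g 7 = σ.g 7 := h.1 7 (by decide)
  have h8 : τ.g 8 = σ.g 8 := h.1 8 (by decide)
  have h9 : τ.g 9 = σ.g 9 := h.1 9 (by decide)
  have h11 : τ.m 11 = σ.m 11 := h.2 11 (by decide)
  exact ⟨by rw [h4]; exact hP.D1, by rw [h5]; exact hP.L1, by rw [h4, h5, h6]; exact hP.X,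
    by rw [h7]; exact hP.J, by rw [h9]; exact hP.B1, by rw [h9]; exact hP.B2,
    by rw [h4, h5]; exact hP.cap, hP.top, by rw [h3]; exact hP.N, by rw [h8]; exact hP.q1,
    by rw [h8]; exact hP.q2, by rw [h8]; exact hP.q3, by rw [h8, h11]; exact hP.pow⟩

theorem kok_congr {κ : Par} {σ τ : St} {b : ℕ} (h : Same GS [3, 4, 5, 6] σ τ)
    (hK : KOk κ σ b) : KOk κ τ b := by
  have h3 : τ.g 3 = σ.g 3 := h.1 3 (by decide)
  have h4 : τ.g 4 = σ.g 4 := h.1 4 (by decide)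
  have h8 : τ.g 8 = σ.g 8 := h.1 8 (by decide)
  have h20 : τ.g 20 = σ.g 20 := h.1 20 (by decide)
  have hc : cur κ τ = cur κ σ := cur_congr h3 h20 (h.2 0 (by decide))
  have hb : ∀ i, bt κ τ 2 i = bt κ σ 2 i := bt_congr h8 (h.2 2 (by decide)) (h.2 11 (by decide))
  refine ⟨?_, ?_, ?_⟩
  · rw [h3, h4, hc]
    simp only [hb]
    exact hK.val
  · rw [h3, kst_congr h]
    exact hK.symm
  · rw [h3, KC_congr h]
    exact hK.size

/-! ### arithmetic -/

theorem BB_mono (D : ℕ) {i j : ℕ} (h : i ≤ j) : BB D i ≤ BB D j := by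
  induction j with
  | zero =>
    have : i = 0 := by omega
    rw [this]
  | succ j ih =>
    rcases Nat.lt_or_ge i (j + 1) with h1 | h1
    · exact (ih (by omega)).trans (Nat.le_add_right _ _)
    · have : i = j + 1 := by omega
      rw [this]

theorem bern (D : ℕ) (hD : 1 ≤ D) : (D + 1) * 23 ^ (24 * D) ≤ 24 ^ (24 * D) := by
  have h1 : ∀ n : ℕ, 23 ^ n * 23 + n * 23 ^ n ≤ 23 * 24 ^ n := by
    intro n
    induction n with
    | zero => norm_num
    | succ n ih =>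
      have h2 : 23 ^ n ≤ 24 ^ n := Nat.pow_le_pow_left (by norm_num) n
      rw [pow_succ, pow_succ]
      nlinarith
  have h2 := h1 (24 * D)
  have h3 : 0 < 23 ^ (24 * D) := by positivity
  nlinarith

theorem le_of_decay {D WI W : ℕ} (hD : 1 ≤ D)
    (h : 24 ^ (24 * D) * WI ≤ 23 ^ (24 * D) * W) : (D + 1) * WI ≤ W := by
  have h1 := bern D hD
  have h3 : 0 < 23 ^ (24 * D) := by positivity
  have h4 : 23 ^ (24 * D) * ((D + 1) * WI) ≤ 23 ^ (24 * D) * W := by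
    calc 23 ^ (24 * D) * ((D + 1) * WI) = (D + 1) * 23 ^ (24 * D) * WI := by ring
      _ ≤ 24 ^ (24 * D) * WI := Nat.mul_le_mul_right _ h1
      _ ≤ _ := h
  exact Nat.le_of_mul_le_mul_left h4 h3

/-! ### graph lemmas -/

theorem kok_init {κ : Par} {τ : St} (h : ∀ k < τ.g 3 * τ.g 4, bt κ τ 2 k = 0) : KOk κ τ 1 := by
  have h0 : ∀ u < τ.g 3, ∀ j < τ.g 4, bt κ τ 2 (u * τ.g 4 + j) = 0 := by
    intro u hu j hj
    refine h _ ?_
    calc u * τ.g 4 + j < u * τ.g 4 + τ.g 4 := by omega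
      _ = (u + 1) * τ.g 4 := by ring
      _ ≤ _ := Nat.mul_le_mul_right _ hu
  have h1 : ∀ u < τ.g 3, ∀ y, ¬ kst κ τ u y := by
    rintro u hu y ⟨j, hj, hb, _⟩
    exact hb (h0 u hu j hj)
  refine ⟨?_, ?_, ?_⟩
  · intro u hu j hj hb
    exact absurd (h0 u hu j hj) hb
  · intro u hu y hy
    exact absurd hy (h1 u hu y)
  · intro u hu
    have : KC κ τ u = {u} := by
      ext y
      constructor
      · intro hy
        have hy' : Relation.ReflTransGen (kst κ τ) u y := hy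
        rcases Relation.ReflTransGen.cases_head hy' with h2 | ⟨z, h2, _⟩
        · exact h2.symm
        · exact absurd h2 (h1 u hu z)
      · rintro rfl
        exact Relation.ReflTransGen.refl
    rw [this]
    simp

theorem ents_card (F : FG) (D : ℕ) : (F.ents D).card ≤ F.W := by
  have h : (F.ents D).card = ∑ u ∈ Finset.range F.N, ((F.ents D).filter fun p => p.1 = u).card := by
    refine Finset.card_eq_sum_card_fiberwise fun p hp => ?_
    have hp' := Finset.mem_filter.mp hp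
    exact (Finset.mem_product.mp hp'.1).1
  rw [h]
  refine Finset.sum_le_sum fun u _ => ?_
  calc ((F.ents D).filter fun p => p.1 = u).card
      ≤ ((Finset.range (F.deg u)).image fun j => (u, j)).card := by
        refine Finset.card_le_card fun p hp => ?_
        obtain ⟨hp1, hp2⟩ := Finset.mem_filter.mp hp
        have hp3 := (Finset.mem_filter.mp hp1).2.2.1
        rw [Finset.mem_image]
        refine ⟨p.2, Finset.mem_range.mpr (hp2 ▸ hp3), ?_⟩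
        rw [← hp2]
    _ ≤ (Finset.range (F.deg u)).card := Finset.card_image_le
    _ = F.deg u := Finset.card_range _

theorem WI_le (F : FG) (D : ℕ) (lab : ℕ → ℕ) : F.WI D lab ≤ F.W :=
  (Finset.card_filter_le _ _).trans (ents_card F D)

/-- the vertices of high degree -/
theorem high_card (F : FG) (D : ℕ) :
    (D + 1) * ((Finset.range F.N).filter fun u => ¬ F.deg u ≤ D).card ≤ F.W := by
  unfold FG.W
  calc (D + 1) * ((Finset.range F.N).filter fun u => ¬ F.deg u ≤ D).card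
      = ∑ u ∈ (Finset.range F.N).filter (fun u => ¬ F.deg u ≤ D), (D + 1) := by
        rw [Finset.sum_const, smul_eq_mul, mul_comm]
    _ ≤ ∑ u ∈ (Finset.range F.N).filter (fun u => ¬ F.deg u ≤ D), F.deg u := by
        refine Finset.sum_le_sum fun u hu => ?_
        have := (Finset.mem_filter.mp hu).2
        omega
    _ ≤ ∑ u ∈ Finset.range F.N, F.deg u :=
        Finset.sum_le_sum_of_subset (Finset.filter_subset _ _)

/-- the vertices of low degree at the border of their class -/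
theorem bord_card (F : FG) (D : ℕ) (lab : ℕ → ℕ) :
    ((Finset.range F.N).filter fun u => F.deg u ≤ D ∧ ∃ j < F.deg u, F.deg (F.nb u j) ≤ D ∧
      lab (F.nb u j) ≠ lab u).card ≤ F.WI D lab := by
  refine (Finset.card_le_card ?_).trans (Finset.card_image_le (f := Prod.fst)
    (s := (F.ents D).filter fun p => lab p.1 ≠ lab (F.nb p.1 p.2)))
  intro u hu
  obtain ⟨h1, h2, j, h3, h4, h5⟩ := Finset.mem_filter.mp hu
  rw [Finset.mem_image]
  refine ⟨(u, j), ?_, rfl⟩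
  rw [Finset.mem_filter, FG.ents, Finset.mem_filter, Finset.mem_product]
  exact ⟨⟨⟨h1, Finset.mem_range.mpr (lt_of_lt_of_le h3 h2)⟩, h2, h3, h4⟩, Ne.symm h5⟩

/-- the clusters are sets of vertices -/
theorem KC_lt {κ : Par} {σ : St} {b : ℕ} (hG : (cur κ σ).Ok) (hK : KOk κ σ b) {u : ℕ}
    (hu : u < σ.g 3) : ∀ y ∈ KC κ σ u, y < σ.g 3 := by
  intro y hy
  have hy' : Relation.ReflTransGen (kst κ σ) u y := hy
  induction hy' with
  | refl => exact hu
  | tail h1 h2 ih =>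
    obtain ⟨j, hj, hb, rfl⟩ := h2
    have hz := ih h1
    exact hG.lt _ hz j (hK.val _ hz j hj hb).2.1

end PPartAux

open PPartAux

/-! ### the marks -/

namespace PPartAux

/-- the mark of `u` with respect to the labelling `lab` -/
def Mk (F : FG) (D : ℕ) (lab : ℕ → ℕ) (u : ℕ) : Prop :=
  ¬ (F.deg u ≤ D ∧ ∀ j < F.deg u, F.deg (F.nb u j) ≤ D → lab (F.nb u j) = lab u)

theorem mark_card (F : FG) (D W' : ℕ) (lab : ℕ → ℕ) (hW : (D + 1) * F.WI D lab ≤ W')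
    (hW' : F.W ≤ W') : (D + 1) * {u | u < F.N ∧ Mk F D lab u}.ncard ≤ 2 * W' := by
  have h1 := high_card F D
  have h2 := bord_card F D lab
  have h3 : {u | u < F.N ∧ Mk F D lab u} ⊆
      ((((Finset.range F.N).filter fun u => ¬ F.deg u ≤ D) ∪
        ((Finset.range F.N).filter fun u => F.deg u ≤ D ∧ ∃ j < F.deg u, F.deg (F.nb u j) ≤ D ∧
      lab (F.nb u j) ≠ lab u) : Finset ℕ) : Set ℕ) := by
    rintro u ⟨hu, hm⟩
    rw [Finset.coe_union, Set.mem_union, Finset.mem_coe, Finset.mem_coe, Finset.mem_filter,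
      Finset.mem_filter]
    by_cases h : F.deg u ≤ D
    · right
      refine ⟨Finset.mem_range.mpr hu, h, ?_⟩
      by_contra hc
      refine hm ⟨h, fun j hj hd => ?_⟩
      by_contra hne
      exact hc ⟨j, hj, hd, hne⟩
    · left
      exact ⟨Finset.mem_range.mpr hu, h⟩
  have h4 := Set.ncard_le_ncard h3 (Finset.finite_toSet _)
  rw [Set.ncard_coe_finset] at h4
  have h5 := h4.trans (Finset.card_union_le _ _)
  calc (D + 1) * {u | u < F.N ∧ Mk F D lab u}.ncard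
      ≤ (D + 1) * (((Finset.range F.N).filter fun u => ¬ F.deg u ≤ D).card +
        ((Finset.range F.N).filter fun u => F.deg u ≤ D ∧ ∃ j < F.deg u, F.deg (F.nb u j) ≤ D ∧
      lab (F.nb u j) ≠ lab u).card) := Nat.mul_le_mul_left _ h5
    _ ≤ F.W + (D + 1) * F.WI D lab := by
        rw [Nat.mul_add]
        exact Nat.add_le_add h1 (Nat.mul_le_mul_left _ h2)
    _ ≤ 2 * W' := by omega

/-- the loop for the marks -/
theorem mark_run (κ : Par) (σ : St) (hP : POk κ σ) (hG : (cur κ σ).Ok) (hK : KOk κ σ (σ.g 5))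
    (hl : σ.g 3 / σ.g 8 < κ.lim) (hw : ∀ r, σ.m 6 r < 2 ^ σ.g 8) :
    Same [21, 35] [6] σ (markS.run κ σ) ∧ (∀ r, (markS.run κ σ).m 6 r < 2 ^ σ.g 8) ∧
      ∀ k < σ.g 3, bt κ (markS.run κ σ) 6 k ≠ 0 ↔ Mk (cur κ σ) (σ.g 4) (cid κ σ) k := by
  have htop : σ.g 3 ≤ κ.top := by have := hP.N; omega
  have htop2 : 2 ≤ κ.top := by have := hP.N; omega
  have hmk : ∀ k < σ.g 3, (mkE.ev κ σ [k] ≠ 0 ↔ Mk (cur κ σ) (σ.g 4) (cid κ σ) k) ∧
      mkE.ev κ σ [k] < 2 := by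
    intro k hk
    rw [mk_spec κ σ hP hG hK k hk]
    unfold Mk
    split_ifs with h
    · exact ⟨⟨fun h' => absurd rfl h', fun h' => absurd h h'⟩, by norm_num⟩
    · exact ⟨⟨fun _ => h, fun _ => one_ne_zero⟩, by norm_num⟩
  have key := loop_inv κ 21 (.g 3) (seqs [.set 35 (call1 mkE (.g 21)), setb 6 (.g 21) (.g 35)]) σ
    (σ.g 3) (min_eq_left htop)
    (fun i τ => Same [21, 35] [6] σ τ ∧ (∀ r, τ.m 6 r < 2 ^ σ.g 8) ∧
      ∀ k < i, bt κ τ 6 k = mkE.ev κ σ [k])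
    ⟨Same.refl _ _ _, hw, fun k hk => absurd hk (Nat.not_lt_zero _)⟩ ?_
  · obtain ⟨k1, k2, k3⟩ := key
    refine ⟨k1, k2, fun k hk => ?_⟩
    have h1 := k3 k hk
    have h2 := (hmk k hk).1
    change bt κ ((S.loop 21 (.g 3) (seqs [.set 35 (call1 mkE (.g 21)),
      setb 6 (.g 21) (.g 35)])).run κ σ) 6 k ≠ 0 ↔ _
    rw [h1]
    exact h2
  · intro i hi τ ⟨i1, i2, i3⟩
    obtain ⟨hmi, hmi2⟩ := hmk i hi
    obtain ⟨τ1, hτ1⟩ : ∃ ρ : St, ρ = ⟨Function.update τ.g 21 i, τ.m⟩ := ⟨_, rfl⟩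
    obtain ⟨τ2, hτ2⟩ : ∃ ρ : St, ρ = (S.set 35 (call1 mkE (.g 21))).run κ τ1 := ⟨_, rfl⟩
    have s1 : Same [21, 35] [] τ τ1 := by
      rw [hτ1]
      refine ⟨fun y hy => ?_, fun _ _ => rfl⟩
      have : y ≠ 21 := fun h => hy (by simp [h])
      simp [this]
    have s2 : Same [21, 35] [] τ1 τ2 := by rw [hτ2]; exact run_same _ _ κ _ rfl τ1
    have s12 := s1.trans s2
    have s02 : Same [21, 35] [6] σ τ2 := i1.trans (s12.mono (by simp) (by simp))
    have s01 : Same [21, 35] [6] σ τ1 := i1.trans (s1.mono (by simp) (by simp))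
    have g21 : τ1.g 21 = i := by rw [hτ1]; simp
    have hev : mkE.ev κ τ1 [i] = mkE.ev κ σ [i] := by
      refine ev_congr (fun x => decide (x ≠ 21 ∧ x ≠ 35)) (fun b => decide (b ≠ 6)) κ τ1 σ
        ?_ ?_ mkE (by decide) [i]
      · intro x hx
        have hx' : x ≠ 21 ∧ x ≠ 35 := by simpa using hx
        exact s01.1 x (by simp [hx'.1, hx'.2])
      · intro b hb
        have hb' : b ≠ 6 := by simpa using hb
        exact s01.2 b (by simp [hb'])
    have g35 : τ2.g 35 = mkE.ev κ σ [i] := by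
      have : τ2.g 35 = min (mkE.ev κ τ1 [τ1.g 21]) κ.top := by
        rw [hτ2]
        simp [S.run]
      rw [this, g21, hev]
      exact min_eq_left (by omega)
    have g21' : τ2.g 21 = i := by
      have : τ2.g 21 = τ1.g 21 := by
        rw [hτ2]
        simp [S.run]
      rw [this, g21]
    have hP2 : POk κ τ2 := pok_same (s02.mono (by simp [GS]) (by simp)) hP
    have h8 : τ2.g 8 = σ.g 8 := s02.1 8 (by decide)
    have m6 : τ2.m 6 = τ.m 6 := s12.2 6 (by decide)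
    have m11 : τ2.m 11 = τ.m 11 := s12.2 11 (by decide)
    have h8' : τ2.g 8 = τ.g 8 := s12.1 8 (by decide)
    obtain ⟨q1, q2⟩ := setb_spec κ τ2 hP2 6 (by decide) (.g 21) (.g 35) i (mkE.ev κ σ [i])
      (σ.g 3) (fun l => by rw [ev_g, g21']) (by rw [ev_g, g35]) hmi2 hi (by rw [h8]; exact hl)
      (by rw [h8, m6]; exact i2)
    have hrun : (seqs [.set 35 (call1 mkE (.g 21)), setb 6 (.g 21) (.g 35)]).run κ
        ⟨Function.update τ.g 21 i, τ.m⟩ = (setb 6 (.g 21) (.g 35)).run κ τ2 := by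
      rw [hτ2, hτ1]
      rfl
    rw [hrun]
    refine ⟨s02.trans (run_same _ _ κ _ rfl τ2), by rw [← h8]; exact q2, fun k hk => ?_⟩
    rw [q1 k]
    by_cases h : k = i
    · rw [if_pos h, h]
    · rw [if_neg h, bt_congr h8' m6 m11, i3 k (by omega)]

end PPartAux

open PPartAux

theorem part_spec (κ : Par) (σ : St) (hP : POk κ σ) (hG : (cur κ σ).Ok)
    (hJ : σ.g 7 = 24 * σ.g 4) (hB : BB (σ.g 4) (σ.g 7) ≤ σ.g 5)
    (hr : σ.g 3 * σ.g 4 / σ.g 8 < κ.lim) (ht : κ.lim ≤ κ.top)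
    (hw : ∀ c ∈ [2, 3, 4, 5, 6], ∀ r, σ.m c r < 2 ^ σ.g 8) :
    ROk κ (partS.run κ σ) ∧
    (Planar (cur κ σ).gr →
      (σ.g 4 + 1) * (Rm κ (partS.run κ σ)).ncard ≤ 2 * (cur κ σ).W) ∧
    (∀ c ∈ [2, 3, 4, 5, 6], ∀ r, (partS.run κ σ).m c r < 2 ^ σ.g 8) := by
  have hD1 := hP.D1
  have hrN : σ.g 3 / σ.g 8 < κ.lim := by
    refine lt_of_le_of_lt (Nat.div_le_div_right ?_) hr
    exact Nat.le_mul_of_pos_right _ hD1
  -- the three initial loops
  obtain ⟨σ1, hσ1⟩ : ∃ τ, τ = (clr 2 (.g 3 * .g 4)).run κ σ := ⟨_, rfl⟩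
  have t1 : Same GS [2] σ σ1 := by rw [hσ1]; exact run_same _ _ κ _ rfl σ
  have s1 : Same GS [2, 3, 4, 5, 6] σ σ1 := t1.mono (by simp) (by simp)
  obtain ⟨σ2, hσ2⟩ : ∃ τ, τ = (clr 3 (.g 3 * .g 4)).run κ σ1 := ⟨_, rfl⟩
  have t2 : Same GS [3] σ1 σ2 := by rw [hσ2]; exact run_same _ _ κ _ rfl σ1
  have s2 : Same GS [2, 3, 4, 5, 6] σ σ2 := s1.trans (t2.mono (by simp) (by simp))
  obtain ⟨σ3, hσ3⟩ : ∃ τ, τ = (clr 6 (.g 3)).run κ σ2 := ⟨_, rfl⟩
  have t3 : Same GS [6] σ2 σ3 := by rw [hσ3]; exact run_same _ _ κ _ rfl σ2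
  have s3 : Same GS [2, 3, 4, 5, 6] σ σ3 := s2.trans (t3.mono (by simp) (by simp))
  obtain ⟨a1, a2⟩ := clr_spec κ σ hP 2 (by decide) (.g 3 * .g 4) (σ.g 3 * σ.g 4) rfl hr
    (lt_of_lt_of_le hr ht) (hw 2 (by simp))
  rw [← hσ1] at a1 a2
  obtain ⟨b1, b2⟩ := clr_spec κ σ1 (pok_same s1 hP) 3 (by decide) (.g 3 * .g 4)
    (σ.g 3 * σ.g 4) (by rw [ev_mul, ev_g, ev_g, s1.1 3 (by decide), s1.1 4 (by decide)])
    (by rw [s1.1 8 (by decide)]; exact hr)
    (by rw [s1.1 8 (by decide)]; exact lt_of_lt_of_le hr ht)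
    (by rw [s1.1 8 (by decide), t1.2 3 (by decide)]; exact hw 3 (by simp))
  rw [← hσ2] at b1 b2
  obtain ⟨c1, c2⟩ := clr_spec κ σ2 (pok_same s2 hP) 6 (by decide) (.g 3)
    (σ.g 3) (by rw [ev_g, s2.1 3 (by decide)])
    (by rw [s2.1 8 (by decide)]; exact hrN)
    (by rw [s2.1 8 (by decide)]; exact lt_of_lt_of_le hrN ht)
    (by rw [s2.1 8 (by decide), t2.2 6 (by decide), t1.2 6 (by decide)]; exact hw 6 (by simp))
  rw [← hσ3] at c1 c2
  rw [s1.1 8 (by decide)] at b2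
  rw [s2.1 8 (by decide)] at c2
  have w3 : ∀ c ∈ [2, 3, 4, 5, 6], ∀ r, σ3.m c r < 2 ^ σ.g 8 := by
    intro c hc r
    simp only [List.mem_cons, List.not_mem_nil, or_false] at hc
    rcases hc with rfl | rfl | rfl | rfl | rfl
    · rw [t3.2 2 (by decide), t2.2 2 (by decide)]
      exact a2 r
    · rw [t3.2 3 (by decide)]
      exact b2 r
    · rw [t3.2 4 (by decide), t2.2 4 (by decide), t1.2 4 (by decide)]
      exact hw 4 (by simp) r
    · rw [t3.2 5 (by decide), t2.2 5 (by decide), t1.2 5 (by decide)]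
      exact hw 5 (by simp) r
    · exact c2 r
  have k3 : KOk κ σ3 1 := by
    refine kok_init fun k hk => ?_
    rw [s3.1 3 (by decide), s3.1 4 (by decide)] at hk
    have h1 := a1 k hk
    have t13 : Same GS [3, 6] σ1 σ3 :=
      (t2.mono (by simp) (by simp)).trans (t3.mono (by simp) (by simp))
    rw [bt_congr (t13.1 8 (by decide)) (t13.2 2 (by decide)) (t13.2 11 (by decide))]
    exact h1
  -- the rounds
  obtain ⟨σ4, hσ4⟩ : ∃ τ, τ = (S.loop 22 (.g 7) roundS).run κ σ3 := ⟨_, rfl⟩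
  have hJtop : min ((E.g 7).ev κ σ3 []) κ.top = σ.g 7 := by
    rw [ev_g, s3.1 7 (by decide)]
    refine min_eq_left ?_
    have := hP.J
    have := hP.top
    omega
  have key := loop_inv κ 22 (.g 7) roundS σ3 (σ.g 7) hJtop
    (fun i τ => Same GS [2, 3, 4, 5, 6] σ τ ∧ KOk κ τ (BB (σ.g 4) i) ∧
      (∀ c ∈ [2, 3, 4, 5, 6], ∀ r, τ.m c r < 2 ^ σ.g 8) ∧
      (Planar (cur κ σ).gr → 24 ^ i * (cur κ σ).WI (σ.g 4) (cid κ τ) ≤
        23 ^ i * (cur κ σ).W)) ⟨s3, k3, w3, fun _ => by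
          rw [pow_zero, pow_zero, one_mul, one_mul]
          exact WI_le _ _ _⟩ ?_
  swap
  · intro i hi τ ⟨i1, i2, i3, i4⟩
    obtain ⟨τ1, hτ1⟩ : ∃ ρ : St, ρ = ⟨Function.update τ.g 22 i, τ.m⟩ := ⟨_, rfl⟩
    rw [← hτ1]
    have u1 : Same GS [] τ τ1 := by
      rw [hτ1]
      refine ⟨fun y hy => ?_, fun _ _ => rfl⟩
      have : y ≠ 22 := fun h => hy (by simp [h, GS])
      simp [this]
    have u2 : Same GS [2, 3, 4, 5, 6] σ τ1 := i1.trans (u1.mono (by simp) (by simp))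
    have h3 : τ1.g 3 = σ.g 3 := u2.1 3 (by decide)
    have h4 : τ1.g 4 = σ.g 4 := u2.1 4 (by decide)
    have h5 : τ1.g 5 = σ.g 5 := u2.1 5 (by decide)
    have h8 : τ1.g 8 = σ.g 8 := u2.1 8 (by decide)
    have hc : cur κ τ1 = cur κ σ := cur_same u2
    have hb : BB (σ.g 4) i + σ.g 4 * BB (σ.g 4) i * BB (σ.g 4) i ≤ σ.g 5 :=
      (BB_mono (σ.g 4) (i := i + 1) (j := σ.g 7) hi).trans hB
    obtain ⟨r1, r2, r3⟩ := round_spec κ τ1 (BB (σ.g 4) i) (pok_same u2 hP) (by rw [hc]; exact hG)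
      (kok_congr (u1.mono (by simp) (by simp)) i2) (by rw [h4, h5]; exact hb)
      (by rw [h3, h4, h8]; exact hr) ht (by
        intro c hc' r
        rw [h8, u1.2 c (by simp)]
        refine i3 c ?_ r
        simp only [List.mem_cons, List.not_mem_nil, or_false] at hc' ⊢
        tauto)
    have u3 : Same GS [2, 3, 4, 5] τ1 (roundS.run κ τ1) := run_same _ _ κ _ rfl τ1
    rw [h4] at r1
    rw [hc, h4, cid_congr (u1.mono (by simp) (by simp)) (κ := κ)] at r2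
    rw [h8] at r3
    refine ⟨u2.trans (u3.mono (by simp) (by simp)), r1, ?_, fun hp => ?_⟩
    · intro c hc' r
      simp only [List.mem_cons, List.not_mem_nil, or_false] at hc'
      rcases hc' with rfl | rfl | rfl | rfl | rfl
      · exact r3 2 (by simp) r
      · exact r3 3 (by simp) r
      · exact r3 4 (by simp) r
      · exact r3 5 (by simp) r
      · rw [u3.2 6 (by decide), u1.2 6 (by decide)]
        exact i3 6 (by simp) r
    · have e1 := i4 hp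
      have e2 := r2 hp
      calc 24 ^ (i + 1) * (cur κ σ).WI (σ.g 4) (cid κ (roundS.run κ τ1))
          = 24 ^ i * (24 * (cur κ σ).WI (σ.g 4) (cid κ (roundS.run κ τ1))) := by ring
        _ ≤ 24 ^ i * (23 * (cur κ σ).WI (σ.g 4) (cid κ τ)) := Nat.mul_le_mul_left _ e2
        _ = 23 * (24 ^ i * (cur κ σ).WI (σ.g 4) (cid κ τ)) := by ring
        _ ≤ 23 * (23 ^ i * (cur κ σ).W) := Nat.mul_le_mul_left _ e1
        _ = _ := by ring
  rw [← hσ4] at key
  obtain ⟨s4, k4, w4, d4⟩ := key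
  have h43 : σ4.g 3 = σ.g 3 := s4.1 3 (by decide)
  have h44 : σ4.g 4 = σ.g 4 := s4.1 4 (by decide)
  have h45 : σ4.g 5 = σ.g 5 := s4.1 5 (by decide)
  have h48 : σ4.g 8 = σ.g 8 := s4.1 8 (by decide)
  have hc4 : cur κ σ4 = cur κ σ := cur_same s4
  have hG4 : (cur κ σ4).Ok := by rw [hc4]; exact hG
  have k4' : KOk κ σ4 (σ4.g 5) :=
    ⟨k4.val, k4.symm, fun u hu => (k4.size u hu).trans (by rw [h45]; exact hB)⟩
  -- the marks
  obtain ⟨m1, m2, m3⟩ := mark_run κ σ4 (pok_same s4 hP) hG4 k4' (by rw [h43, h48]; exact hrN)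
    (by rw [h48]; exact w4 6 (by simp))
  have hrun : partS.run κ σ = markS.run κ σ4 := by
    rw [hσ4, hσ3, hσ2, hσ1]
    rfl
  rw [hrun]
  obtain ⟨ρ, hρ⟩ : ∃ ρ, ρ = markS.run κ σ4 := ⟨_, rfl⟩
  rw [← hρ] at m1 m2 m3 ⊢
  have s5 : Same GS [2, 3, 4, 5, 6] σ ρ := s4.trans (m1.mono (by simp [GS]) (by simp))
  have h53 : ρ.g 3 = σ.g 3 := s5.1 3 (by decide)
  have h54 : ρ.g 4 = σ.g 4 := s5.1 4 (by decide)
  have h55 : ρ.g 5 = σ.g 5 := s5.1 5 (by decide)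
  have hc5 : cur κ ρ = cur κ σ := cur_same s5
  rw [h43, h44, hc4] at m3
  have hRm : Rm κ ρ = {u | u < (cur κ σ).N ∧ Mk (cur κ σ) (σ.g 4) (cid κ σ4) u} := by
    ext u
    unfold Rm
    change (u < ρ.g 3 ∧ _) ↔ (u < σ.g 3 ∧ _)
    rw [h53]
    constructor
    · rintro ⟨h1, h2⟩
      exact ⟨h1, (m3 u h1).mp h2⟩
    · rintro ⟨h1, h2⟩
      exact ⟨h1, (m3 u h1).mpr h2⟩
  have hnot : ∀ u < σ.g 3, u ∉ Rm κ ρ → (cur κ σ).deg u ≤ σ.g 4 ∧
      ∀ j < (cur κ σ).deg u, (cur κ σ).deg ((cur κ σ).nb u j) ≤ σ.g 4 →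
        cid κ σ4 ((cur κ σ).nb u j) = cid κ σ4 u := by
    intro u hu hn
    by_contra hc
    exact hn (by rw [hRm]; exact ⟨hu, hc⟩)
  refine ⟨⟨?_, ?_⟩, ?_, ?_⟩
  · intro u hu hn
    rw [h53] at hu
    rw [hc5, h54]
    exact (hnot u hu hn).1
  · intro u hu hn
    rw [h53] at hu
    rw [h55]
    have hsub : PC κ ρ u ⊆ KC κ σ4 u := by
      intro y hy
      have hy' : Relation.ReflTransGen (ust κ ρ) u y := hy
      have h1 : y < σ.g 3 ∧ y ∉ Rm κ ρ ∧ cid κ σ4 y = cid κ σ4 u := by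
        clear hy
        induction hy' with
        | refl => exact ⟨hu, hn, rfl⟩
        | @tail y z h1 h2 ih =>
          obtain ⟨e1, e2, e3⟩ := ih
          obtain ⟨j, hj, hz, hzn⟩ := h2
          rw [hc5] at hj hz
          have hzl : z < σ.g 3 := by
            rw [← hz]
            exact hG.lt y e1 j hj
          obtain ⟨f1, f2⟩ := hnot y e1 e2
          obtain ⟨f3, _⟩ := hnot z hzl hzn
          refine ⟨hzl, hzn, ?_⟩
          rw [← e3, ← hz]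
          exact f2 j hj (by rw [hz]; exact f3)
      exact (cid_eq_iff κ σ4 _ hG4 k4' u y (by rw [h43]; exact hu)
        (by rw [h43]; exact h1.1)).mp h1.2.2.symm
    have hfin : (KC κ σ4 u).Finite := by
      refine (Set.finite_lt_nat (σ.g 3)).subset fun y hy => ?_
      have := KC_lt hG4 k4' (by rw [h43]; exact hu) y hy
      rw [h43] at this
      exact this
    refine (Set.ncard_le_ncard hsub hfin).trans ?_
    rw [← h45]
    exact k4'.size u (by rw [h43]; exact hu)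
  · intro hp
    rw [hRm]
    refine mark_card (cur κ σ) (σ.g 4) (cur κ σ).W (cid κ σ4) ?_ le_rfl
    refine le_of_decay hD1 ?_
    have := d4 hp
    rw [hJ] at this
    exact this
  · intro c hc r
    by_cases h6 : c = 6
    · subst h6
      rw [← h48]
      exact m2 r
    · rw [m1.2 c (by simp [h6])]
      exact w4 c hc r

namespace PPartAux

/-! ### the costs -/

theorem loop_cost_inv (G : List ℕ) (B : List (Fin 16)) (κ : Par) (x : ℕ) (e : E) (s : S)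
    (σ : St) (n c : ℕ) (hn : e.ev κ σ [] ≤ n) (hx : x ∈ G) (hw : s.writes G B = true)
    (hs : ∀ τ, Same G B σ τ → s.cost κ τ ≤ c) :
    (S.loop x e s).cost κ σ ≤ 1 + n * (1 + c) := by
  have hupd : ∀ (τ : St) (i : ℕ), Same G B τ ⟨Function.update τ.g x i, τ.m⟩ := by
    intro τ i
    refine ⟨fun y hy => ?_, fun _ _ => rfl⟩
    have : y ≠ x := fun h => hy (h ▸ hx)
    simp [this]
  have h := loop_cost κ x e s σ _ rfl (fun _ τ => Same G B σ τ) (fun _ => c)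
    (Same.refl G B σ) ?_
  · refine h.trans (Nat.add_le_add_left ?_ 1)
    rw [Finset.sum_const, Finset.card_range, smul_eq_mul]
    exact Nat.mul_le_mul_right _ ((min_le_left _ _).trans hn)
  · intro i _ τ hτ
    have h1 := hτ.trans (hupd τ i)
    exact ⟨h1.trans (run_same G B κ s hw _), hs _ h1⟩

theorem clr_cost (κ : Par) (σ : St) (b : Fin 16) (n : E) (m : ℕ) (hm : n.ev κ σ [] ≤ m) :
    (clr b n).cost κ σ ≤ 3 + 2 * m := by
  have h := loop_cost_const κ 23 (n / (.g 8 : E) + 1) (.st b (.g 23) 0) σ (m + 1) 1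
    ((min_le_left _ _).trans (by
      rw [ev_add, ev_div, ev_one]
      exact Nat.succ_le_succ ((Nat.div_le_self _ _).trans hm))) (fun τ => le_rfl)
  refine h.trans ?_
  omega

theorem decS_cost (κ : Par) (σ : St) : decS.cost κ σ ≤ 1 + σ.g 3 * 5 := by
  refine (loop_cost_const κ 21 (.g 3) _ σ (σ.g 3) 4 (min_le_left _ _) ?_).trans ?_
  · intro τ
    simp only [S.cost, seqs, setb]
    split_ifs <;> omega
  · omega

theorem nkS_cost (κ : Par) (σ : St) : nkS.cost κ σ ≤ 1 + σ.g 3 * (1 + (1 + σ.g 4 * 3)) := by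
  refine loop_cost_inv [21, 24, 35] [3] κ 21 (.g 3) _ σ (σ.g 3) _ le_rfl (by decide) rfl ?_
  intro τ hτ
  have h4 : τ.g 4 = σ.g 4 := hτ.1 4 (by decide)
  refine (loop_cost_const κ 24 (.g 4) _ τ (σ.g 4) 2 ?_ ?_).trans ?_
  · rw [ev_g, h4]
    exact min_le_left _ _
  · intro ρ
    simp only [S.cost, seqs, setb]
    omega
  · omega

theorem round_cost (κ : Par) (σ : St) :
    roundS.cost κ σ ≤ 20 * ((σ.g 3 + 1) * (σ.g 4 + 1)) := by
  have e1 := clr_cost κ σ 4 (.g 3) (σ.g 3) le_rfl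
  obtain ⟨σ1, hσ1⟩ : ∃ τ, τ = (clr 4 (.g 3)).run κ σ := ⟨_, rfl⟩
  have s1 : Same GS [2, 3, 4, 5] σ σ1 := by rw [hσ1]; exact run_same _ _ κ _ rfl σ
  have e2 := clr_cost κ σ1 5 (.g 3) (σ.g 3) (by rw [ev_g, s1.1 3 (by decide)])
  obtain ⟨σ2, hσ2⟩ : ∃ τ, τ = (clr 5 (.g 3)).run κ σ1 := ⟨_, rfl⟩
  have s2 : Same GS [2, 3, 4, 5] σ σ2 := by
    rw [hσ2]; exact s1.trans (run_same _ _ κ _ rfl σ1)
  have e3 := decS_cost κ σ2
  obtain ⟨σ3, hσ3⟩ : ∃ τ, τ = decS.run κ σ2 := ⟨_, rfl⟩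
  have s3 : Same GS [2, 3, 4, 5] σ σ3 := by
    rw [hσ3]; exact s2.trans (run_same _ _ κ _ rfl σ2)
  have e4 := nkS_cost κ σ3
  obtain ⟨σ4, hσ4⟩ : ∃ τ, τ = nkS.run κ σ3 := ⟨_, rfl⟩
  have s4 : Same GS [2, 3, 4, 5] σ σ4 := by
    rw [hσ4]; exact s3.trans (run_same _ _ κ _ rfl σ3)
  have e5 := loop_cost_const κ 23 (.g 3 * .g 4 / .g 8 + 1) (.st 2 (.g 23) (.ld 3 (.g 23))) σ4
    (σ.g 3 * σ.g 4 + 1) 1 ((min_le_left _ _).trans (by
      rw [ev_add, ev_div, ev_one, ev_mul, ev_g, ev_g, s4.1 3 (by decide), s4.1 4 (by decide)]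
      exact Nat.succ_le_succ (Nat.div_le_self _ _))) (fun τ => le_rfl)
  rw [s2.1 3 (by decide)] at e3
  rw [s3.1 3 (by decide), s3.1 4 (by decide)] at e4
  have e : roundS.cost κ σ = (clr 4 (.g 3)).cost κ σ + ((clr 5 (.g 3)).cost κ σ1 +
      (decS.cost κ σ2 + (nkS.cost κ σ3 +
        (S.loop 23 (.g 3 * .g 4 / .g 8 + 1) (.st 2 (.g 23) (.ld 3 (.g 23)))).cost κ σ4))) := by
    rw [hσ4, hσ3, hσ2, hσ1]
    rfl
  rw [e]
  nlinarith

theorem mark_cost (κ : Par) (σ : St) : markS.cost κ σ ≤ 1 + σ.g 3 * 3 := by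
  refine (loop_cost_const κ 21 (.g 3) _ σ (σ.g 3) 2 (min_le_left _ _) ?_).trans ?_
  · intro τ
    simp only [S.cost, seqs, setb]
    omega
  · omega

end PPartAux

open PPartAux

theorem part_cost (κ : Par) (σ : St) (hD : σ.g 4 ≤ κ.cap) (hJ : σ.g 7 ≤ κ.cap)
    (hq : 1 ≤ σ.g 8) : partS.cost κ σ ≤ 1000 * (σ.g 3 + 1) * (κ.cap + 1) ^ 2 := by
  have e1 := clr_cost κ σ 2 (.g 3 * .g 4) (σ.g 3 * σ.g 4) le_rfl
  obtain ⟨σ1, hσ1⟩ : ∃ τ, τ = (clr 2 (.g 3 * .g 4)).run κ σ := ⟨_, rfl⟩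
  have s1 : Same GS [2, 3, 4, 5, 6] σ σ1 := by rw [hσ1]; exact run_same _ _ κ _ rfl σ
  have e2 := clr_cost κ σ1 3 (.g 3 * .g 4) (σ.g 3 * σ.g 4)
    (by rw [ev_mul, ev_g, ev_g, s1.1 3 (by decide), s1.1 4 (by decide)])
  obtain ⟨σ2, hσ2⟩ : ∃ τ, τ = (clr 3 (.g 3 * .g 4)).run κ σ1 := ⟨_, rfl⟩
  have s2 : Same GS [2, 3, 4, 5, 6] σ σ2 := by
    rw [hσ2]; exact s1.trans (run_same _ _ κ _ rfl σ1)
  have e3 := clr_cost κ σ2 6 (.g 3) (σ.g 3) (by rw [ev_g, s2.1 3 (by decide)])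
  obtain ⟨σ3, hσ3⟩ : ∃ τ, τ = (clr 6 (.g 3)).run κ σ2 := ⟨_, rfl⟩
  have s3 : Same GS [2, 3, 4, 5, 6] σ σ3 := by
    rw [hσ3]; exact s2.trans (run_same _ _ κ _ rfl σ2)
  have e4 := loop_cost_inv GS [2, 3, 4, 5, 6] κ 22 (.g 7) roundS σ3 (σ.g 7)
    (20 * ((σ.g 3 + 1) * (σ.g 4 + 1))) (by rw [ev_g, s3.1 7 (by decide)]) (by decide) rfl
    (fun τ hτ => by
      have h := s3.trans hτ
      have := round_cost κ τ
      rw [h.1 3 (by decide), h.1 4 (by decide)] at this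
      exact this)
  obtain ⟨σ4, hσ4⟩ : ∃ τ, τ = (S.loop 22 (.g 7) roundS).run κ σ3 := ⟨_, rfl⟩
  have s4 : Same GS [2, 3, 4, 5, 6] σ σ4 := by
    rw [hσ4]; exact s3.trans (run_same _ _ κ _ rfl σ3)
  have e5 := mark_cost κ σ4
  rw [s4.1 3 (by decide)] at e5
  have e : partS.cost κ σ = (clr 2 (.g 3 * .g 4)).cost κ σ + ((clr 3 (.g 3 * .g 4)).cost κ σ1 +
      ((clr 6 (.g 3)).cost κ σ2 + ((S.loop 22 (.g 7) roundS).cost κ σ3 + markS.cost κ σ4))) := by
    rw [hσ4, hσ3, hσ2, hσ1]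
    rfl
  rw [e]
  obtain ⟨N, hN⟩ : ∃ N, N = σ.g 3 := ⟨_, rfl⟩
  obtain ⟨D, hDd⟩ : ∃ D, D = σ.g 4 := ⟨_, rfl⟩
  obtain ⟨J, hJd⟩ : ∃ J, J = σ.g 7 := ⟨_, rfl⟩
  rw [← hN, ← hDd] at e1 e2
  rw [← hN] at e3 e5
  rw [← hN, ← hDd, ← hJd] at e4
  rw [← hN]
  rw [← hDd] at hD
  rw [← hJd] at hJ
  have hc : (N + 1) * (D + 1) ≤ (N + 1) * (κ.cap + 1) := Nat.mul_le_mul_left _ (by omega)
  have h1 : N * D ≤ (N + 1) * (κ.cap + 1) := by
    refine le_trans ?_ hc
    nlinarith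
  have h2 : J * (1 + 20 * ((N + 1) * (D + 1))) ≤
      (κ.cap + 1) * (21 * ((N + 1) * (κ.cap + 1))) := by
    refine Nat.mul_le_mul (by omega) ?_
    have : 1 ≤ (N + 1) * (D + 1) := Nat.succ_le_of_lt (by positivity)
    omega
  have h3 : (N + 1) * (κ.cap + 1) ≤ (N + 1) * (κ.cap + 1) * (κ.cap + 1) :=
    Nat.le_mul_of_pos_right _ (by omega)
  have h4 : N + 1 ≤ (N + 1) * (κ.cap + 1) := Nat.le_mul_of_pos_right _ (by omega)
  have h5 : (κ.cap + 1) * (21 * ((N + 1) * (κ.cap + 1))) =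
      21 * ((N + 1) * (κ.cap + 1) * (κ.cap + 1)) := by ring
  have h6 : 1000 * (N + 1) * (κ.cap + 1) ^ 2 = 1000 * ((N + 1) * (κ.cap + 1) * (κ.cap + 1)) := by
    ring
  rw [h6]
  rw [h5] at h2
  omega

end Pool.Agent.MP9d6bd1
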