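import Mathlib
import Pool.Agent.Lib.MP_9d6bd1_lc.Spec2
import Pool.Agent.Lib.MP_9d6bd1_lc.EvLib
import Pool.Agent.Lib.MP_9d6bd1_lc.RunLib
import Pool.Agent.Lib.MP_9d6bd1_lc.PBits

/-!
# MP_9d6bd1_lc, module P16: ranks of the marked vertices
-/

set_option autoImplicit false

open Classical

namespace Pool.Agent.MP9d6bd1

open E

namespace PRankAux

theorem bt_congr (κ : Par) (σ τ : St) (b : Fin 16) (i : ℕ) (h8 : σ.g 8 = τ.g 8)
    (hb : σ.m b = τ.m b) (h11 : σ.m 11 = τ.m 11) : bt κ σ b i = bt κ τ b i := by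
  refine ev_congr (fun x => decide (x = 8)) (fun c => decide (c = b ∨ c = 11)) κ σ τ ?_ ?_ _ ?_ _
  · intro x hx
    rw [decide_eq_true_eq] at hx
    rw [hx]
    exact h8
  · intro c hc
    rw [decide_eq_true_eq] at hc
    rcases hc with hc | hc
    · rw [hc]
      exact hb
    · rw [hc]
      exact h11
  · simp [bitE, E.uses, HDiv.hDiv, Div.div, HMod.hMod, Mod.mod, OfNat.ofNat]

theorem rank_eq (κ : Par) (σ : St) (u : ℕ) (hu : u ≤ σ.g 3) :
    rank κ σ u = ∑ i ∈ Finset.range u, bt κ σ 6 i := by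
  have h1 : (Rm κ σ ∩ {x | x < u}) =
      (((Finset.range u).filter fun i => bt κ σ 6 i ≠ 0 : Finset ℕ) : Set ℕ) := by
    ext x
    simp only [Rm, Set.mem_inter_iff, Set.mem_ofPred_eq, Finset.coe_filter, Finset.mem_range]
    constructor
    · rintro ⟨⟨_, h2⟩, h3⟩
      exact ⟨h3, h2⟩
    · rintro ⟨h3, h2⟩
      exact ⟨⟨by omega, h2⟩, h3⟩
  rw [rank, h1, Set.ncard_coe_finset, Finset.card_filter]
  refine Finset.sum_congr rfl fun i _ => ?_
  have := bt_lt κ σ 6 i
  split_ifs with h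
  · omega
  · omega

theorem Rm_ncard (κ : Par) (σ : St) : (Rm κ σ).ncard = ∑ i ∈ Finset.range (σ.g 3), bt κ σ 6 i := by
  rw [← rank_eq κ σ (σ.g 3) le_rfl, rank]
  congr 1
  ext x
  simp only [Rm, Set.mem_inter_iff, Set.mem_ofPred_eq]
  constructor
  · rintro ⟨h1, h2⟩
    exact ⟨⟨h1, h2⟩, h1⟩
  · rintro ⟨h1, _⟩
    exact h1

theorem sum_le (κ : Par) (σ : St) (u : ℕ) : ∑ i ∈ Finset.range u, bt κ σ 6 i ≤ u := by
  calc ∑ i ∈ Finset.range u, bt κ σ 6 i ≤ ∑ _i ∈ Finset.range u, 1 :=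
        Finset.sum_le_sum fun i _ => by have := bt_lt κ σ 6 i; omega
    _ = u := by simp

end PRankAux

open PRankAux

theorem rank_spec (κ : Par) (σ : St) (hP : POk κ σ) (hr : σ.g 3 / σ.g 9 < κ.lim) :
    RkOk κ (rankS.run κ σ) := by
  have hB1 := hP.B1
  have hB2 := hP.B2
  have hN := hP.N
  have hcap := hP.cap
  have htop := hP.top
  obtain ⟨B, hB⟩ : ∃ B, B = σ.g 9 := ⟨_, rfl⟩
  rw [← hB] at hB1 hB2 hr
  have key := loop_inv κ 21 (.g 3) (seqs [
    .ite (eqn (.g 21 % .g 9) 0) (.st 7 (.g 21 / .g 9) (.g 11)) .skip,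
    .set 11 (.g 11 + call1 (bitE 6) (.g 21))]) ((S.set 11 0).run κ σ) (σ.g 3) ?_
    (fun j τ => τ.g 11 = ∑ i ∈ Finset.range j, bt κ σ 6 i ∧
      (∀ x, x ≠ 11 → x ≠ 21 → τ.g x = σ.g x) ∧ (∀ b, b ≠ 7 → τ.m b = σ.m b) ∧
      ∀ t, t * B < j → τ.m 7 t = ∑ i ∈ Finset.range (t * B), bt κ σ 6 i) ?_ ?_
  · have e : rankS.run κ σ = (S.loop 21 (.g 3) (seqs [
        .ite (eqn (.g 21 % .g 9) 0) (.st 7 (.g 21 / .g 9) (.g 11)) .skip,
        .set 11 (.g 11 + call1 (bitE 6) (.g 21))])).run κ ((S.set 11 0).run κ σ) := rfl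
    rw [← e] at key
    obtain ⟨τ, hτ⟩ : ∃ τ, τ = rankS.run κ σ := ⟨_, rfl⟩
    rw [← hτ] at key ⊢
    obtain ⟨k1, k2, k3, k4⟩ := key
    have g3 : τ.g 3 = σ.g 3 := k2 3 (by norm_num) (by norm_num)
    have g8 : τ.g 8 = σ.g 8 := k2 8 (by norm_num) (by norm_num)
    have g9 : τ.g 9 = B := by rw [k2 9 (by norm_num) (by norm_num), hB]
    have hbt : ∀ i, bt κ τ 6 i = bt κ σ 6 i := fun i =>
      bt_congr κ τ σ 6 i g8 (k3 6 (by decide)) (k3 11 (by decide))
    refine ⟨fun u hu => ?_, ?_⟩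
    · rw [rank_eq κ τ u hu.le]
      rw [g3] at hu
      simp only [hbt]
      obtain ⟨q, hq⟩ : ∃ q, q = u / B := ⟨_, rfl⟩
      have hqu : q * B ≤ u := by rw [hq]; exact Nat.div_mul_le_self u B
      have huq : u < q * B + B := by
        rw [hq]
        have := Nat.lt_div_mul_add (a := u) hB1
        omega
      have hql : q < κ.lim := lt_of_le_of_lt (by rw [hq]; exact Nat.div_le_div_right hu.le) hr
      have hs : ∑ i ∈ Finset.range u, bt κ σ 6 i = ∑ i ∈ Finset.range (q * B), bt κ σ 6 i +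
          ∑ i ∈ Finset.range B, if q * B + i < u then bt κ σ 6 (q * B + i) else 0 := by
        obtain ⟨d, hd⟩ : ∃ d, u = q * B + d := ⟨u - q * B, by omega⟩
        rw [hd, Finset.sum_range_add]
        congr 1
        rw [← Finset.sum_subset (s₁ := Finset.range d) (s₂ := Finset.range B)
          (Finset.range_mono (by omega))]
        · refine Finset.sum_congr rfl fun i hi => ?_
          rw [if_pos (by have := Finset.mem_range.mp hi; omega)]
        · intro i _ hi
          rw [if_neg (by rw [Finset.mem_range] at hi; omega)]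
      rw [hs]
      refine ev_sum κ τ [u] (.g 9) (.ld 7 (.v 0 / .g 9)) _ B _ _ (by simp [g9]) hB2 ?_ ?_ ?_
      · rw [ev_ld, ev_div, ev_v, ev_g, g9, List.getD_cons_zero, ← hq, if_pos hql]
        exact k4 q (lt_of_le_of_lt hqu hu)
      · intro i hi acc
        simp only [ev_ite, ev_less, ev_add, ev_mul, ev_div, ev_v, ev_g, ev_call1, g9]
        have e1 : ([u] ++ [i, acc, B]).getD 0 0 = u := rfl
        have e2 : ([u] ++ [i, acc, B]).getD 1 0 = i := rfl
        have e3 : ([u] ++ [i, acc, B]).getD 2 0 = acc := rfl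
        rw [e1, e2, e3, ← hq]
        have e4 : (bitE 6).ev κ τ [q * B + i] = bt κ σ 6 (q * B + i) := hbt _
        rw [e4]
        split_ifs <;> simp_all
      · rw [← hs]
        exact (sum_le κ σ u).trans (by omega)
    · rw [k1, Rm_ncard, g3]
      exact Finset.sum_congr rfl fun i _ => (hbt i).symm
  · simp only [S.run, ev_g]
    rw [Function.update_of_ne (by norm_num)]
    omega
  · refine ⟨by simp [S.run], fun x h1 _ => ?_, fun b _ => rfl, fun t ht => absurd ht (by omega)⟩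
    simp only [S.run]
    exact Function.update_of_ne h1 _ _
  · intro j hj τ ⟨i1, i2, i3, i4⟩
    have hjl : j / B < κ.lim := lt_of_le_of_lt (Nat.div_le_div_right hj.le) hr
    have hjt : ∑ i ∈ Finset.range j, bt κ σ 6 i ≤ κ.top := (sum_le κ σ j).trans (by omega)
    have hjt' : ∑ i ∈ Finset.range (j + 1), bt κ σ 6 i ≤ κ.top :=
      (sum_le κ σ (j + 1)).trans (by omega)
    obtain ⟨ρ, hρ⟩ : ∃ ρ : St, ρ = ⟨Function.update τ.g 21 j, τ.m⟩ := ⟨_, rfl⟩
    rw [← hρ]
    have r21 : ρ.g 21 = j := by rw [hρ]; exact Function.update_self (21 : ℕ) j τ.g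
    have r11 : ρ.g 11 = ∑ i ∈ Finset.range j, bt κ σ 6 i := by
      rw [hρ]
      exact (Function.update_of_ne (show (11 : ℕ) ≠ 21 by norm_num) j τ.g).trans i1
    have rx : ∀ x, x ≠ 11 → x ≠ 21 → ρ.g x = σ.g x := by
      intro x h1 h2
      rw [hρ]
      exact (Function.update_of_ne h2 j τ.g).trans (i2 x h1 h2)
    have rm : ρ.m = τ.m := by rw [hρ]
    have r9 : ρ.g 9 = B := by rw [rx 9 (by norm_num) (by norm_num), hB]
    -- first statement
    obtain ⟨ω, hω⟩ : ∃ ω : St, ω = (S.ite (eqn (.g 21 % .g 9) 0) (.st 7 (.g 21 / .g 9) (.g 11))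
      .skip).run κ ρ := ⟨_, rfl⟩
    have hωv : ω = if j % B = 0 then ⟨ρ.g, Function.update ρ.m 7
        (Function.update (ρ.m 7) (j / B) (∑ i ∈ Finset.range j, bt κ σ 6 i))⟩ else ρ := by
      rw [hω]
      simp only [S.run, ev_eqn, ev_mod, ev_div, ev_g, ev_zero, r21, r9, r11, if_pos hjl,
        min_eq_left hjt]
      split_ifs <;> simp_all
    have wg : ω.g = ρ.g := by
      rw [hωv]
      split_ifs <;> rfl
    have wm : ∀ b, b ≠ 7 → ω.m b = σ.m b := by
      intro b hb
      rw [hωv, ← i3 b hb, ← rm]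
      split_ifs
      · exact Function.update_of_ne hb _ _
      · rfl
    have w7 : ∀ t, t * B < j + 1 → ω.m 7 t = ∑ i ∈ Finset.range (t * B), bt κ σ 6 i := by
      intro t ht
      rw [hωv]
      by_cases h : t * B = j
      · have h1 : j % B = 0 := by rw [← h]; exact Nat.mul_mod_left t B
        have h2 : j / B = t := by rw [← h]; exact Nat.mul_div_cancel t hB1
        rw [if_pos h1, h2, h]
        simp
      · have h1 : t * B < j := by omega
        have h2 : t ≠ j / B ∨ ¬ (j % B = 0) := by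
          by_contra hcon
          push Not at hcon
          apply h
          rw [hcon.1]
          have := Nat.div_add_mod j B
          rw [hcon.2, mul_comm] at this
          simpa using this
        split_ifs with h3
        · have h4 : t ≠ j / B := by
            rcases h2 with h2 | h2
            · exact h2
            · exact absurd h3 h2
          simp only [Function.update_self]
          rw [Function.update_of_ne h4, rm]
          exact i4 t h1
        · rw [rm]
          exact i4 t h1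
    have hb : (call1 (bitE 6) (.g 21)).ev κ ω [] = bt κ σ 6 j := by
      rw [ev_call1, ev_g, wg, r21]
      exact bt_congr κ ω σ 6 j (by rw [wg]; exact rx 8 (by norm_num) (by norm_num))
        (wm 6 (by decide)) (wm 11 (by decide))
    have hrun : (seqs [
        .ite (eqn (.g 21 % .g 9) 0) (.st 7 (.g 21 / .g 9) (.g 11)) .skip,
        .set 11 (.g 11 + call1 (bitE 6) (.g 21))]).run κ ρ =
        ⟨Function.update ω.g 11 (∑ i ∈ Finset.range (j + 1), bt κ σ 6 i), ω.m⟩ := by
      have e : (seqs [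
        .ite (eqn (.g 21 % .g 9) 0) (.st 7 (.g 21 / .g 9) (.g 11)) .skip,
        .set 11 (.g 11 + call1 (bitE 6) (.g 21))]).run κ ρ =
          (S.set 11 (.g 11 + call1 (bitE 6) (.g 21))).run κ ω := by rw [hω]; rfl
      rw [e]
      simp only [S.run]
      rw [ev_add, hb, ev_g, wg, r11, ← Finset.sum_range_succ, min_eq_left hjt']
    rw [hrun]
    refine ⟨by simp, fun x h1 h2 => ?_, wm, w7⟩
    change Function.update ω.g 11 _ x = _
    rw [Function.update_of_ne h1, wg]
    exact rx x h1 h2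

theorem rank_cost (κ : Par) (σ : St) : rankS.cost κ σ ≤ 10 * (σ.g 3 + 1) := by
  have h := loop_cost_const κ 21 (.g 3) (seqs [
    .ite (eqn (.g 21 % .g 9) 0) (.st 7 (.g 21 / .g 9) (.g 11)) .skip,
    .set 11 (.g 11 + call1 (bitE 6) (.g 21))]) ((S.set 11 0).run κ σ) (σ.g 3) 3 ?_ ?_
  · have e : rankS.cost κ σ = 1 + (S.loop 21 (.g 3) (seqs [
        .ite (eqn (.g 21 % .g 9) 0) (.st 7 (.g 21 / .g 9) (.g 11)) .skip,
        .set 11 (.g 11 + call1 (bitE 6) (.g 21))])).cost κ ((S.set 11 0).run κ σ) := rfl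
    rw [e]
    omega
  · simp [S.run]
  · intro τ
    simp only [seqs, S.cost]
    split_ifs <;> omega

end Pool.Agent.MP9d6bd1
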