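import Mathlib
import Pool.Agent.Lib.MP_9d6bd1_lc.Spec3
import Pool.Agent.Lib.MP_9d6bd1_lc.EvLib
import Pool.Agent.Lib.MP_9d6bd1_lc.RunLib
import Pool.Agent.Lib.MP_9d6bd1_lc.PPart
import Pool.Agent.Lib.MP_9d6bd1_lc.PRank
import Pool.Agent.Lib.MP_9d6bd1_lc.PEmitA
import Pool.Agent.Lib.MP_9d6bd1_lc.PEmitB
import Pool.Agent.Lib.MP_9d6bd1_lc.PBuild
import Pool.Agent.Lib.MP_9d6bd1_lc.PNewA
import Pool.Agent.Lib.MP_9d6bd1_lc.PNewB
import Pool.Agent.Lib.MP_9d6bd1_lc.PNewC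

/-!
# MP_9d6bd1_lc, module P22: one reduction
-/

set_option autoImplicit false

open Classical

namespace Pool.Agent.MP9d6bd1

open E

namespace PReduceAux

/-! ### agreement of states -/

/-- the parameters and the current graph agree -/
structure Ag (σ τ : St) : Prop where
  g : ∀ x, x ∈ [3, 4, 5, 6, 7, 8, 9, 20] → τ.g x = σ.g x
  m : ∀ b : Fin 16, b ∈ [(0 : Fin 16), 11] → τ.m b = σ.m b

/-- the parameters, the current graph and the marks agree -/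
structure Am (σ τ : St) : Prop where
  g : ∀ x, x ∈ [3, 4, 5, 6, 7, 8, 9, 20] → τ.g x = σ.g x
  m : ∀ b : Fin 16, b ∈ [(0 : Fin 16), 6, 11] → τ.m b = σ.m b

/-- the parameters, the current graph, the marks and the rank directory agree -/
structure Ar (σ τ : St) : Prop where
  g : ∀ x, x ∈ [3, 4, 5, 6, 7, 8, 9, 11, 20] → τ.g x = σ.g x
  m : ∀ b : Fin 16, b ∈ [(0 : Fin 16), 6, 7, 11] → τ.m b = σ.m b

theorem Ar.am {σ τ : St} (h : Ar σ τ) : Am σ τ :=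
  ⟨fun x hx => h.g x (by revert hx; simp only [List.mem_cons, List.not_mem_nil, or_false]; omega),
    fun b hb => h.m b (by revert hb; simp only [List.mem_cons, List.not_mem_nil, or_false]; tauto)⟩

theorem Am.ag {σ τ : St} (h : Am σ τ) : Ag σ τ :=
  ⟨h.g, fun b hb => h.m b (by
    revert hb; simp only [List.mem_cons, List.not_mem_nil, or_false]; tauto)⟩

theorem ag_of_same (G : List ℕ) (B : List (Fin 16)) {σ τ : St} (h : Same G B σ τ)
    (hG : ([3, 4, 5, 6, 7, 8, 9, 20].all fun x => decide (x ∉ G)) = true)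
    (hB : ([(0 : Fin 16), 11].all fun b => decide (b ∉ B)) = true) : Ag σ τ := by
  rw [List.all_eq_true] at hG hB
  exact ⟨fun x hx => h.1 x (of_decide_eq_true (hG x hx)),
    fun b hb => h.2 b (of_decide_eq_true (hB b hb))⟩

theorem am_of_same (G : List ℕ) (B : List (Fin 16)) {σ τ : St} (h : Same G B σ τ)
    (hG : ([3, 4, 5, 6, 7, 8, 9, 20].all fun x => decide (x ∉ G)) = true)
    (hB : ([(0 : Fin 16), 6, 11].all fun b => decide (b ∉ B)) = true) : Am σ τ := by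
  rw [List.all_eq_true] at hG hB
  exact ⟨fun x hx => h.1 x (of_decide_eq_true (hG x hx)),
    fun b hb => h.2 b (of_decide_eq_true (hB b hb))⟩

theorem ar_of_same (G : List ℕ) (B : List (Fin 16)) {σ τ : St} (h : Same G B σ τ)
    (hG : ([3, 4, 5, 6, 7, 8, 9, 11, 20].all fun x => decide (x ∉ G)) = true)
    (hB : ([(0 : Fin 16), 6, 7, 11].all fun b => decide (b ∉ B)) = true) : Ar σ τ := by
  rw [List.all_eq_true] at hG hB
  exact ⟨fun x hx => h.1 x (of_decide_eq_true (hG x hx)),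
    fun b hb => h.2 b (of_decide_eq_true (hB b hb))⟩

theorem ev_ag (κ : Par) {σ τ : St} (h : Ag σ τ) (e : E)
    (he : e.uses (fun x => decide (x ∈ [3, 4, 5, 6, 7, 8, 9, 20]))
      (fun b => decide (b ∈ [(0 : Fin 16), 11])) = true) (l : List ℕ) :
    e.ev κ τ l = e.ev κ σ l :=
  ev_congr _ _ κ τ σ (fun x hx => h.g x (of_decide_eq_true hx))
    (fun b hb => h.m b (of_decide_eq_true hb)) e he l

theorem ev_am (κ : Par) {σ τ : St} (h : Am σ τ) (e : E)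
    (he : e.uses (fun x => decide (x ∈ [3, 4, 5, 6, 7, 8, 9, 20]))
      (fun b => decide (b ∈ [(0 : Fin 16), 6, 11])) = true) (l : List ℕ) :
    e.ev κ τ l = e.ev κ σ l :=
  ev_congr _ _ κ τ σ (fun x hx => h.g x (of_decide_eq_true hx))
    (fun b hb => h.m b (of_decide_eq_true hb)) e he l

theorem ev_ar (κ : Par) {σ τ : St} (h : Ar σ τ) (e : E)
    (he : e.uses (fun x => decide (x ∈ [3, 4, 5, 6, 7, 8, 9, 11, 20]))
      (fun b => decide (b ∈ [(0 : Fin 16), 6, 7, 11])) = true) (l : List ℕ) :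
    e.ev κ τ l = e.ev κ σ l :=
  ev_congr _ _ κ τ σ (fun x hx => h.g x (of_decide_eq_true hx))
    (fun b hb => h.m b (of_decide_eq_true hb)) e he l

theorem cur_ag (κ : Par) {σ τ : St} (h : Ag σ τ) : cur κ τ = cur κ σ := by
  have h3 : τ.g 3 = σ.g 3 := h.g 3 (by decide)
  have hd : ∀ u, dgE.ev κ τ [u] = dgE.ev κ σ [u] := fun u => ev_ag κ h dgE (by rfl) _
  have hn : ∀ u j, nbE.ev κ τ [u, j] = nbE.ev κ σ [u, j] := fun u j => ev_ag κ h nbE (by rfl) _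
  simp only [cur, h3, hd, hn]

theorem POk_ag (κ : Par) {σ τ : St} (h : Ag σ τ) (hP : POk κ σ) : POk κ τ := by
  have h3 : τ.g 3 = σ.g 3 := h.g 3 (by decide)
  have h4 : τ.g 4 = σ.g 4 := h.g 4 (by decide)
  have h5 : τ.g 5 = σ.g 5 := h.g 5 (by decide)
  have h6 : τ.g 6 = σ.g 6 := h.g 6 (by decide)
  have h7 : τ.g 7 = σ.g 7 := h.g 7 (by decide)
  have h8 : τ.g 8 = σ.g 8 := h.g 8 (by decide)
  have h9 : τ.g 9 = σ.g 9 := h.g 9 (by decide)
  have hm : τ.m 11 = σ.m 11 := h.m 11 (by decide)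
  obtain ⟨a1, a2, a3, a4, a5, a6, a7, a8, a9, a10, a11, a12, a13⟩ := hP
  constructor
  · rw [h4]; exact a1
  · rw [h5]; exact a2
  · rw [h6, h4, h5]; exact a3
  · rw [h7]; exact a4
  · rw [h9]; exact a5
  · rw [h9]; exact a6
  · rw [h4, h5]; exact a7
  · exact a8
  · rw [h3]; exact a9
  · rw [h8]; exact a10
  · rw [h8]; exact a11
  · rw [h8]; exact a12
  · rw [h8, hm]; exact a13

theorem bt6_am (κ : Par) {σ τ : St} (h : Am σ τ) (i : ℕ) : bt κ τ 6 i = bt κ σ 6 i :=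
  ev_am κ h (bitE 6) (by rfl) _

theorem Rm_am (κ : Par) {σ τ : St} (h : Am σ τ) : Rm κ τ = Rm κ σ := by
  have h3 : τ.g 3 = σ.g 3 := h.g 3 (by decide)
  simp only [Rm, h3, bt6_am κ h]

theorem ust_am (κ : Par) {σ τ : St} (h : Am σ τ) : ust κ τ = ust κ σ := by
  funext a b
  simp only [ust, cur_ag κ h.ag, Rm_am κ h]

theorem PC_am (κ : Par) {σ τ : St} (h : Am σ τ) (u : ℕ) : PC κ τ u = PC κ σ u := by
  simp only [PC, ust_am κ h]

theorem ROk_am (κ : Par) {σ τ : St} (h : Am σ τ) (hR : ROk κ σ) : ROk κ τ := by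
  have h3 : τ.g 3 = σ.g 3 := h.g 3 (by decide)
  have h4 : τ.g 4 = σ.g 4 := h.g 4 (by decide)
  have h5 : τ.g 5 = σ.g 5 := h.g 5 (by decide)
  constructor
  · rw [h3, h4, cur_ag κ h.ag, Rm_am κ h]; exact hR.deg
  · rw [h3, h5, Rm_am κ h]
    simp only [PC_am κ h]
    exact hR.size

theorem rank_am (κ : Par) {σ τ : St} (h : Am σ τ) (u : ℕ) : rank κ τ u = rank κ σ u := by
  simp only [rank, Rm_am κ h]

theorem RkOk_ar (κ : Par) {σ τ : St} (h : Ar σ τ) (hK : RkOk κ σ) : RkOk κ τ := by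
  have h3 : τ.g 3 = σ.g 3 := h.g 3 (by decide)
  have h11 : τ.g 11 = σ.g 11 := h.g 11 (by decide)
  constructor
  · intro u hu
    rw [ev_ar κ h rkE (by rfl), rank_am κ h.am]
    exact hK.rk u (h3 ▸ hu)
  · rw [h11, Rm_am κ h.am]
    exact hK.NR

theorem TT_am (κ : Par) {σ τ : St} (h : Am σ τ) (u : ℕ) : TT κ τ u = TT κ σ u := by
  simp only [TT, PC_am κ h, cur_ag κ h.ag, Rm_am κ h]

theorem Pcs_am (κ : Par) {σ τ : St} (h : Am σ τ) : Pcs κ τ = Pcs κ σ := by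
  have h3 : τ.g 3 = σ.g 3 := h.g 3 (by decide)
  simp only [Pcs, PC_am κ h, h3, Rm_am κ h]

theorem kk_am (κ : Par) {σ τ : St} (h : Am σ τ) (u : ℕ) : kk κ τ u = kk κ σ u := by
  simp only [kk, TT_am κ h]

theorem ll_am (κ : Par) {σ τ : St} (h : Am σ τ) (u : ℕ) : ll κ τ u = ll κ σ u := by
  simp only [ll, PC_am κ h]

theorem cc_am (κ : Par) {σ τ : St} (h : Am σ τ) (u : ℕ) : cc κ τ u = cc κ σ u := by
  simp only [cc, kk_am κ h, ll_am κ h]
  exact ev_am κ h cdE (by rfl) _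

theorem isThin_am (κ : Par) {σ τ : St} (h : Am σ τ) (u : ℕ) : isThin κ τ u ↔ isThin κ σ u := by
  simp only [isThin, kk_am κ h, ll_am κ h, cc_am κ h]
  rw [ev_am κ h npE (by rfl)]

theorem prs_am (κ : Par) {σ τ : St} (h : Am σ τ) : prs κ τ = prs κ σ := by
  simp only [prs, Rm_am κ h, cur_ag κ h.ag, Pcs_am κ h, isThin_am κ h, TT_am κ h]

/-! ### frames -/

theorem part_same (κ : Par) (σ : St) :
    Same [21, 22, 23, 24, 35] [2, 3, 4, 5, 6] σ (partS.run κ σ) :=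
  run_same _ _ κ partS (by rfl) σ

theorem rank_same (κ : Par) (σ : St) : Same [11, 21] [7] σ (rankS.run κ σ) :=
  run_same _ _ κ rankS (by rfl) σ

theorem emitA_same (C : ℕ) (κ : Par) (σ : St) :
    Same [10, 12, 13, 21, 25, 26, 28, 29, 30, 31, 32] [8, 9] σ ((emitA C).run κ σ) :=
  run_same _ _ κ (emitA C) (by rfl) σ

theorem emitB_same (κ : Par) (σ : St) :
    Same [10, 13, 21, 23, 24, 27, 28, 29, 30, 33] [8, 9, 10] σ (emitB.run κ σ) :=
  run_same _ _ κ emitB (by rfl) σ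

theorem build_same (κ : Par) (σ : St) : Same [3, 20, 23] [0, 1, 12] σ (buildS.run κ σ) :=
  run_same _ _ κ buildS (by rfl) σ

/-! ### the state after the rank directory -/

theorem POk_of (KE K₁ C₁ : ℕ) (κ : Par) (σ : St) (h : MOk KE K₁ C₁ κ σ) : POk κ σ := by
  obtain ⟨⟨p1, hL, L1, hX, hJ, J2, hcap, htop, hN, q1, q2, q3, p2, lim1, lim2, lim3, lim4⟩,
    h9, hpow, hbits, hok, hW⟩ := h
  constructor
  · exact p1
  · exact L1
  · exact hX
  · omega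
  · omega
  · omega
  · exact hcap
  · exact htop
  · exact hN
  · exact q1
  · exact q2
  · exact q3
  · exact hpow

/-- facts on the state after the rank directory -/
structure Mid (κ : Par) (σ τ : St) : Prop where
  P : POk κ τ
  hc : cur κ τ = cur κ σ
  R : ROk κ τ
  K : RkOk κ τ
  pl : Planar (cur κ σ).gr → (σ.g 4 + 1) * τ.g 11 ≤ 2 * (cur κ σ).W
  bits : ∀ c ∈ [2, 3, 4, 5, 6], ∀ r, τ.m c r < 2 ^ σ.g 8
  same : Same [11, 21, 22, 23, 24, 35] [2, 3, 4, 5, 6, 7] σ τ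

theorem mid (KE K₁ C₁ : ℕ) (κ : Par) (σ : St) (h : MOk KE K₁ C₁ κ σ) :
    Mid κ σ (rankS.run κ (partS.run κ σ)) := by
  have hP := POk_of KE K₁ C₁ κ σ h
  have hn := h.num
  have hJ := hn.hJ
  have s1 := part_same κ σ
  have s2 := rank_same κ (partS.run κ σ)
  have hp := part_spec κ σ hP h.hok hJ (by rw [hJ]; exact hn.hL) hn.lim1 hn.lim4 h.hbits
  obtain ⟨σ₁, hσ₁⟩ : ∃ σ₁, σ₁ = partS.run κ σ := ⟨_, rfl⟩
  rw [← hσ₁] at s1 s2 hp ⊢
  obtain ⟨a1, a2, a3⟩ := hp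
  have g1 : Ag σ σ₁ := ag_of_same _ _ s1 (by rfl) (by rfl)
  have hP1 : POk κ σ₁ := POk_ag κ g1 hP
  have h3 : σ₁.g 3 = σ.g 3 := g1.g 3 (by decide)
  have h9 : σ₁.g 9 = σ.g 9 := g1.g 9 (by decide)
  have hr := rank_spec κ σ₁ hP1 (by rw [h3, h9, h.h9]; exact hn.lim2)
  obtain ⟨τ, hτ⟩ : ∃ τ, τ = rankS.run κ σ₁ := ⟨_, rfl⟩
  rw [← hτ] at s2 hr ⊢
  have g2 : Am σ₁ τ := am_of_same _ _ s2 (by rfl) (by rfl)
  have hc : cur κ τ = cur κ σ := (cur_ag κ g2.ag).trans (cur_ag κ g1)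
  refine ⟨POk_ag κ g2.ag hP1, hc, ROk_am κ g2 a1, hr, fun hpl => ?_, fun c hc r => ?_, ?_⟩
  · rw [hr.NR, Rm_am κ g2]
    exact a2 hpl
  · have : τ.m c = σ₁.m c := by
      refine s2.2 c ?_
      revert hc
      simp only [List.mem_cons, List.not_mem_nil, or_false]
      rintro (rfl | rfl | rfl | rfl | rfl) <;> decide
    rw [this]
    exact a3 c hc r
  · exact (s1.mono (by decide) (by decide)).trans (s2.mono (by decide) (by decide))

theorem guard_nonplanar (KE K₁ C₁ : ℕ) (hK₁ : K₁ = 4 * KE) (κ : Par) (σ : St)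
    (h : MOk KE K₁ C₁ κ σ) (τ : St) (hm : Mid κ σ τ)
    (hg : K₁ * τ.g 3 < τ.g 11 * τ.g 9) : ¬ Planar (cur κ σ).gr := by
  intro hpl
  have h1 := hm.pl hpl
  have h2 := h.hW
  have h3 : τ.g 3 = σ.g 3 := hm.same.1 3 (by decide)
  have h9 : τ.g 9 = σ.g 9 := hm.same.1 9 (by decide)
  rw [h3, h9, h.h9] at hg
  have h4 : K₁ * σ.g 3 = 2 * (2 * KE * σ.g 3) := by rw [hK₁]; ring
  nlinarith

theorem set3 (KE : ℕ) (κ : Par) (τ : St) (h1 : τ.g 11 ≤ κ.top) (h2 : KE * τ.g 11 ≤ κ.top)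
    (ρ : St) (hρ : ρ = (S.set 14 (.c KE * .g 11)).run κ ((S.set 13 0).run κ
      ((S.set 12 (.g 11)).run κ τ))) :
    ρ.g 12 = τ.g 11 ∧ ρ.g 13 = 0 ∧ ρ.g 14 = KE * τ.g 11 ∧ Same [12, 13, 14] [] τ ρ := by
  have e1 : (S.set 12 (.g 11)).run κ τ = ⟨Function.update τ.g 12 (τ.g 11), τ.m⟩ := by
    simp only [S.run, ev_g, min_eq_left h1]
  have e2 : (S.set 13 0).run κ ((S.set 12 (.g 11)).run κ τ) =
      ⟨Function.update (Function.update τ.g 12 (τ.g 11)) 13 0, τ.m⟩ := by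
    rw [e1]
    simp only [S.run, ev_zero, Nat.zero_min]
  have e3 : ρ = ⟨Function.update (Function.update (Function.update τ.g 12 (τ.g 11)) 13 0) 14
      (KE * τ.g 11), τ.m⟩ := by
    rw [hρ, e2]
    simp only [S.run, ev_mul, ev_c, ev_g]
    rw [Function.update_of_ne (show (11 : ℕ) ≠ 13 by norm_num),
      Function.update_of_ne (show (11 : ℕ) ≠ 12 by norm_num), min_eq_left h2]
  rw [e3]
  refine ⟨?_, ?_, ?_, ⟨fun x hx => ?_, fun b _ => rfl⟩⟩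
  · change Function.update (Function.update (Function.update τ.g 12 (τ.g 11)) 13 0) 14
      (KE * τ.g 11) 12 = _
    rw [Function.update_of_ne (by norm_num), Function.update_of_ne (by norm_num),
      Function.update_self]
  · change Function.update (Function.update (Function.update τ.g 12 (τ.g 11)) 13 0) 14
      (KE * τ.g 11) 13 = _
    rw [Function.update_of_ne (by norm_num), Function.update_self]
  · change Function.update (Function.update (Function.update τ.g 12 (τ.g 11)) 13 0) 14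
      (KE * τ.g 11) 14 = _
    rw [Function.update_self]
  · simp only [List.mem_cons, List.not_mem_nil, or_false, not_or] at hx
    change Function.update (Function.update (Function.update τ.g 12 (τ.g 11)) 13 0) 14
      (KE * τ.g 11) x = _
    rw [Function.update_of_ne hx.2.2, Function.update_of_ne hx.2.1, Function.update_of_ne hx.1]

/-- number of marked vertices -/
theorem NR_num (KE K₁ C₁ : ℕ) (κ : Par) (σ : St)
    (h : MOk KE K₁ C₁ κ σ) (τ : St) (hm : Mid κ σ τ)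
    (hg : ¬ K₁ * τ.g 3 < τ.g 11 * τ.g 9) :
    C₁ * τ.g 11 + 2 + 2 * (KE * τ.g 11) < κ.lim ∧ τ.g 11 ≤ κ.lim ∧ KE * τ.g 11 ≤ κ.lim ∧
    2 * (C₁ * τ.g 11) ≤ σ.g 3 := by
  have h3 : τ.g 3 = σ.g 3 := hm.same.1 3 (by decide)
  have h9 : τ.g 9 = σ.g 9 := hm.same.1 9 (by decide)
  have hn := h.num
  rw [h3, h9, h.h9, not_lt] at hg
  have hp1 : 0 < σ.g 4 := hn.p1
  have h1 : τ.g 11 ≤ K₁ * σ.g 3 / σ.g 4 := (Nat.le_div_iff_mul_le hp1).mpr hg
  have h2 := hn.lim3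
  have h4 : (C₁ + 2 * KE + 1) * τ.g 11 ≤ (C₁ + 2 * KE + 1) * (K₁ * σ.g 3 / σ.g 4) :=
    Nat.mul_le_mul_left _ h1
  have h5 : (C₁ + 2 * KE + 1) * τ.g 11 = C₁ * τ.g 11 + 2 * (KE * τ.g 11) + τ.g 11 := by ring
  refine ⟨by omega, by omega, by omega, ?_⟩
  have h6 : 2 * C₁ * (τ.g 11 * σ.g 4) ≤ 2 * C₁ * (K₁ * σ.g 3) := Nat.mul_le_mul_left _ hg
  have h7 : 2 * C₁ * K₁ * σ.g 3 ≤ σ.g 4 * σ.g 3 := Nat.mul_le_mul_right _ hn.p2
  have h8 : σ.g 4 * (2 * (C₁ * τ.g 11)) ≤ σ.g 4 * σ.g 3 := by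
    calc σ.g 4 * (2 * (C₁ * τ.g 11)) = 2 * C₁ * (τ.g 11 * σ.g 4) := by ring
      _ ≤ 2 * C₁ * (K₁ * σ.g 3) := h6
      _ = 2 * C₁ * K₁ * σ.g 3 := by ring
      _ ≤ _ := h7
  exact Nat.le_of_mul_le_mul_left h8 hp1

/-- monotonicity in the number of vertices -/
theorem NumOk_mono (KE K₁ C₁ : ℕ) (κ : Par) (n n' p L J X q : ℕ)
    (h : NumOk KE K₁ C₁ κ n p L J X q) (hn : n' ≤ n) : NumOk KE K₁ C₁ κ n' p L J X q := by
  obtain ⟨p1, hL, L1, hX, hJ, J2, hcap, htop, hN, q1, q2, q3, p2, lim1, lim2, lim3, lim4⟩ := h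
  refine ⟨p1, hL, L1, hX, hJ, J2, hcap, htop, by omega, q1, q2, q3, p2, ?_, ?_, ?_, lim4⟩
  · exact lt_of_le_of_lt (Nat.div_le_div_right (Nat.mul_le_mul_right _ hn)) lim1
  · exact lt_of_le_of_lt (Nat.div_le_div_right hn) lim2
  · refine lt_of_le_of_lt ?_ lim3
    exact Nat.add_le_add_right (Nat.mul_le_mul_left _
      (Nat.div_le_div_right (Nat.mul_le_mul_left _ hn))) _

/-! ### the emission of the edges -/

/-- facts on the state before the emission -/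
structure Pre (KE C₁ : ℕ) (κ : Par) (σ τ ρ : St) : Prop where
  P : POk κ ρ
  hc : cur κ ρ = cur κ σ
  R : ROk κ ρ
  K : RkOk κ ρ
  g10 : ρ.g 10 = 0
  g11 : ρ.g 11 = τ.g 11
  g12 : ρ.g 12 = τ.g 11
  g13 : ρ.g 13 = 0
  g14 : ρ.g 14 = KE * τ.g 11
  n1 : C₁ * τ.g 11 + 2 + 2 * (KE * τ.g 11) < κ.lim
  n2 : τ.g 11 ≤ κ.lim
  n3 : KE * τ.g 11 ≤ κ.lim
  n4 : 2 * (C₁ * τ.g 11) ≤ σ.g 3
  bits : ∀ c ∈ [2, 3, 4, 5, 6], ∀ r, ρ.m c r < 2 ^ σ.g 8
  same : Ag σ ρ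

theorem pre (KE K₁ C₁ : ℕ) (κ : Par) (σ : St)
    (h : MOk KE K₁ C₁ κ σ) (h10 : σ.g 10 = 0) (τ : St) (hm : Mid κ σ τ)
    (hg : ¬ K₁ * τ.g 3 < τ.g 11 * τ.g 9)
    (ρ : St) (hρ : ρ = (S.set 14 (.c KE * .g 11)).run κ ((S.set 13 0).run κ
      ((S.set 12 (.g 11)).run κ τ))) : Pre KE C₁ κ σ τ ρ := by
  obtain ⟨n1, n2, n3, n4⟩ := NR_num KE K₁ C₁ κ σ h τ hm hg
  have hl := h.num.lim4
  obtain ⟨s1, s2, s3, s4⟩ := set3 KE κ τ (by omega) (by omega) ρ hρ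
  have ha : Ar τ ρ := ar_of_same _ _ s4 (by rfl) (by rfl)
  have hs : Ag σ τ := ag_of_same _ _ hm.same (by rfl) (by rfl)
  refine ⟨POk_ag κ ha.am.ag hm.P, (cur_ag κ ha.am.ag).trans hm.hc, ROk_am κ ha.am hm.R,
    RkOk_ar κ ha hm.K, ?_, s4.1 11 (by decide), s1, s2, s3, n1, n2, n3, n4, ?_,
    ag_of_same _ _ ((hm.same.mono (G' := [11, 12, 13, 14, 21, 22, 23, 24, 35])
      (B' := [2, 3, 4, 5, 6, 7]) (by decide) (by decide)).trans
      (s4.mono (by decide) (by decide))) (by rfl) (by rfl)⟩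
  · rw [s4.1 10 (by decide), hm.same.1 10 (by decide), h10]
  · intro c hc r
    rw [s4.2 c (by simp)]
    exact hm.bits c hc r

theorem emit (C KE K₁ C₁ : ℕ) (hC : ∀ (T : Set ℕ) (A : SimpleGraph ℕ), T.Finite →
      A.support.Finite → Irr T A → rho T A ≤ C * (T.ncard + 1))
    (hKE : KE = 39 + 51 * C) (hC₁ : C₁ = 1 + 17 * C)
    (κ : Par) (σ : St) (h : MOk KE K₁ C₁ κ σ) (τ ρ : St) (hp : Pre KE C₁ κ σ τ ρ)
    (ω : St) (hω : ω = (emitA C).run κ ρ) (φ : St) (hφ : φ = emitB.run κ ω) :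
    (ω.g 10 ≠ 0 → ¬ Planar (cur κ σ).gr) ∧
    (ω.g 10 = 0 →
      (φ.g 10 ≠ 0 ∨ C₁ * φ.g 11 < φ.g 12 → ¬ Planar (cur κ σ).gr) ∧
      (φ.g 10 = 0 → ¬ C₁ * φ.g 11 < φ.g 12 →
        MOk KE K₁ C₁ κ (buildS.run κ φ) ∧
        (Planar (cur κ (buildS.run κ φ)).gr ↔ Planar (cur κ σ).gr) ∧
        2 * (buildS.run κ φ).g 3 ≤ σ.g 3 ∧
        φ.g 12 ≤ C₁ * τ.g 11 ∧ φ.g 13 ≤ KE * τ.g 11)) ∧
    emitB.cost κ ω ≤ 100 * (σ.g 3 + (cur κ σ).W + τ.g 11 + 1) := by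
  obtain ⟨hP, hc, hR, hK, g10, g11, g12, g13, g14, n1, n2, n3, n4, bits, same⟩ := hp
  have hl := h.num.lim4
  have hok : (cur κ ρ).Ok := by rw [hc]; exact h.hok
  have hNR : (Rm κ ρ).ncard = τ.g 11 := by rw [← hK.NR, g11]
  -- facts on emitA
  have sA := emitA_same C κ ρ
  have eA := emitA_spec C κ ρ hP hok hR hK g10 (by rw [g12, g11]) g13 (by rw [g14]; exact n3) hl
  rw [← hω] at sA eA
  have aA : Ar ρ ω := ar_of_same _ _ sA (by rfl) (by rfl)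
  have hPω : POk κ ω := POk_ag κ aA.am.ag hP
  have hcω : cur κ ω = cur κ σ := (cur_ag κ aA.am.ag).trans hc
  have hokω : (cur κ ω).Ok := by rw [hcω]; exact h.hok
  have g11ω : ω.g 11 = τ.g 11 := by rw [sA.1 11 (by decide), g11]
  have g14ω : ω.g 14 = KE * τ.g 11 := by rw [sA.1 14 (by decide), g14]
  have g3ω : ω.g 3 = σ.g 3 := by rw [sA.1 3 (by decide), same.g 3 (by decide)]
  have hprs : prs κ ω = prs κ ρ := prs_am κ aA.am
  have hcount : Planar (cur κ σ).gr →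
      ∑ u ∈ Gds κ ρ, ecount C κ ρ u + (prs κ ρ).ncard ≤ KE * τ.g 11 ∧
      (Rm κ ρ).ncard + ∑ u ∈ Gds κ ρ, lg C κ ρ u ≤ C₁ * τ.g 11 := by
    intro hpl
    have := new_count C hC κ ρ hP hok hR (by rw [hc]; exact hpl)
    rw [hNR, ← hKE, ← hC₁] at this
    rw [hNR]
    exact this
  refine ⟨fun hne hpl => hne ?_, fun h0 => ?_, ?_⟩
  · rw [eA.1]
    refine ⟨fun u hu hb => bad_nonplanar κ ρ hP hok hR u hu hb (by rw [hc]; exact hpl), ?_⟩
    have := (hcount hpl).1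
    rw [g14]
    omega
  · obtain ⟨hbad, hsum⟩ := eA.1.mp h0
    obtain ⟨a1, a2, a3, a4⟩ := eA.2 h0
    have g13ω : ω.g 13 ≤ ω.g 14 := by rw [a2, g14ω, ← g14]; exact hsum
    have sB := emitB_same κ ω
    have eB := emitB_spec κ ω hPω hokω (ROk_am κ aA.am hR) (RkOk_ar κ aA hK) h0 g13ω
      (by rw [g14ω]; exact n3) hl (by rw [g11ω]; exact n2)
    rw [← hφ] at sB eB
    have g11φ : φ.g 11 = τ.g 11 := by rw [sB.1 11 (by decide), g11ω]
    have g12φ : φ.g 12 = ω.g 12 := sB.1 12 (by decide)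
    refine ⟨?_, fun h0' hle => ?_⟩
    · rintro (hne | hlt) hpl
      · apply hne
        rw [eB.1, a2, g14ω, hprs]
        exact (hcount hpl).1
      · rw [g11φ, g12φ, a1] at hlt
        exact absurd (hcount hpl).2 (not_le.mpr hlt)
    · obtain ⟨b1, b2, b3⟩ := eB.2 h0'
      have hEC := eB.1.mp h0'
      rw [← b1, g14ω] at hEC
      rw [not_lt, g11φ] at hle
      have hNV : τ.g 11 ≤ φ.g 12 := by rw [g12φ, a1, hNR]; exact Nat.le_add_right _ _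
      have hed : ∀ e < φ.g 13, φ.m 8 e < φ.g 12 ∧ φ.m 9 e < φ.g 12 ∧ φ.m 8 e ≠ φ.m 9 e := by
        intro e he
        rcases b3 e he with ⟨c1, c2, c3⟩ | ⟨c1, c2, c3⟩
        · rw [c2, c3, g12φ]
          exact a4 e c1
        · rw [g11ω] at c1 c2
          exact ⟨lt_of_lt_of_le c1 hNV, lt_of_lt_of_le c2 hNV, c3⟩
      have sC := build_same κ φ
      obtain ⟨d1, d2, d3, d4, d5⟩ := build_spec κ φ (by omega) hl hed
      obtain ⟨ψ, hψ⟩ : ∃ ψ, ψ = buildS.run κ φ := ⟨_, rfl⟩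
      rw [← hψ] at sC d1 d2 d3 d4 d5 ⊢
      have hmon : 2 * ψ.g 3 ≤ σ.g 3 := by rw [d1]; omega
      have hgx : ∀ x, x ∈ [4, 5, 6, 7, 8, 9] → ψ.g x = σ.g x := by
        intro x hx
        rw [sC.1 x (by revert hx; simp only [List.mem_cons, List.not_mem_nil, or_false]; omega),
          sB.1 x (by revert hx; simp only [List.mem_cons, List.not_mem_nil, or_false]; omega),
          sA.1 x (by revert hx; simp only [List.mem_cons, List.not_mem_nil, or_false]; omega),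
          same.g x (by revert hx; simp only [List.mem_cons, List.not_mem_nil, or_false]; omega)]
      have h4 := hgx 4 (by decide)
      have h5 := hgx 5 (by decide)
      have h6 := hgx 6 (by decide)
      have h7 := hgx 7 (by decide)
      have h8 := hgx 8 (by decide)
      have h9 := hgx 9 (by decide)
      refine ⟨⟨?_, ?_, ?_, ?_, d3, ?_⟩, ?_, hmon, hle, hEC⟩
      · rw [h4, h5, h6, h7, h8]
        exact NumOk_mono KE K₁ C₁ κ (σ.g 3) _ _ _ _ _ _ h.num (by omega)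
      · rw [h4, h9, h.h9]
      · rw [h8, sC.2 11 (by decide), sB.2 11 (by decide), sA.2 11 (by decide),
          same.m 11 (by decide)]
        exact h.hpow
      · intro c hc' r
        have e1 : ψ.m c = ρ.m c := by
          revert hc'
          simp only [List.mem_cons, List.not_mem_nil, or_false]
          rintro (rfl | rfl | rfl | rfl | rfl) <;>
          rw [sC.2 _ (by decide), sB.2 _ (by decide), sA.2 _ (by decide)]
        rw [e1, h8]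
        exact bits c hc' r
      · rw [d4, d1]
        calc 2 * φ.g 13 ≤ 2 * (KE * τ.g 11) := Nat.mul_le_mul_left _ hEC
          _ ≤ 2 * (KE * φ.g 12) := Nat.mul_le_mul_left _ (Nat.mul_le_mul_left _ hNV)
          _ = 2 * KE * φ.g 12 := by ring
      · have key : ∀ x y, (cur κ ψ).gr.Adj x y ↔
            (∃ u ∈ Gds κ ρ, ∃ a b, (gadg C κ ρ u).Adj a b ∧ x = newn C κ ρ u a ∧
              y = newn C κ ρ u b) ∨
            (∃ a b, s(a, b) ∈ prs κ ρ ∧ x = rank κ ρ a ∧ y = rank κ ρ b) := by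
          intro x y
          rw [d5, b2, a3, hprs]
          simp only [rank_am κ aA.am]
        have hgr : (cur κ ψ).gr = newG C κ ρ := by
          ext x y
          rw [newG, SimpleGraph.fromRel_adj, ← key, ← key]
          constructor
          · intro hadj
            exact ⟨hadj.ne, Or.inl hadj⟩
          · rintro ⟨_, hadj | hadj⟩
            · exact hadj
            · exact hadj.symm
        rw [hgr, new_planar C hC κ ρ hP hok hR hbad, hc]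
  · have := emitB_cost κ ω
    rw [g3ω, hcω, g11ω] at this
    exact this

/-! ### one reduction -/

theorem less_eq_zero (κ : Par) (σ : St) (a b : E) (l : List ℕ) :
    (less a b).ev κ σ l = 0 ↔ ¬ a.ev κ σ l < b.ev κ σ l := by
  rw [ev_less]
  split_ifs with h
  · simp [h]
  · simp [h]

theorem or_eq_zero (κ : Par) (σ : St) (a b : E) (l : List ℕ) :
    (E.or a b).ev κ σ l = 0 ↔ a.ev κ σ l = 0 ∧ b.ev κ σ l = 0 := by
  rw [ev_or]
  split_ifs with h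
  · simp [h]
  · simp [h]

theorem run_ite0 (κ : Par) (σ : St) (e : E) (s t : S) (h : e.ev κ σ [] = 0) :
    (S.ite e s t).run κ σ = t.run κ σ := by
  simp only [S.run, if_pos h]

theorem run_ite1 (κ : Par) (σ : St) (e : E) (s t : S) (h : ¬ e.ev κ σ [] = 0) :
    (S.ite e s t).run κ σ = s.run κ σ := by
  simp only [S.run, if_neg h]

theorem cost_ite0 (κ : Par) (σ : St) (e : E) (s t : S) (h : e.ev κ σ [] = 0) :
    (S.ite e s t).cost κ σ = 1 + t.cost κ σ := by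
  simp only [S.cost, if_pos h]

theorem cost_ite1 (κ : Par) (σ : St) (e : E) (s t : S) (h : ¬ e.ev κ σ [] = 0) :
    (S.ite e s t).cost κ σ = 1 + s.cost κ σ := by
  simp only [S.cost, if_neg h]

theorem run_seq (κ : Par) (σ : St) (s t : S) : (S.seq s t).run κ σ = t.run κ (s.run κ σ) := rfl

theorem cost_seq (κ : Par) (σ : St) (s t : S) :
    (S.seq s t).cost κ σ = s.cost κ σ + t.cost κ (s.run κ σ) := rfl

theorem seqs_one (s : S) : seqs [s] = s := rfl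

theorem seqs_cons (s t : S) (l : List S) : seqs (s :: t :: l) = .seq s (seqs (t :: l)) := rfl

theorem run_skip (κ : Par) (σ : St) : S.skip.run κ σ = σ := rfl

theorem cost_skip (κ : Par) (σ : St) : S.skip.cost κ σ = 1 := rfl

theorem cost_set (κ : Par) (σ : St) (x : ℕ) (e : E) : (S.set x e).cost κ σ = 1 := rfl

/-- the four intermediate states -/
structure Sts (C KE : ℕ) (κ : Par) (σ τ ρ ω φ : St) : Prop where
  h1 : τ = rankS.run κ (partS.run κ σ)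
  h2 : ρ = (S.set 14 (.c KE * .g 11)).run κ ((S.set 13 0).run κ ((S.set 12 (.g 11)).run κ τ))
  h3 : ω = (emitA C).run κ ρ
  h4 : φ = emitB.run κ ω

/-- run and cost in the four cases -/
theorem cases4 (C KE K₁ C₁ : ℕ) (κ : Par) (σ τ ρ ω φ : St) (hs : Sts C KE κ σ τ ρ ω φ) :
    (K₁ * τ.g 3 < τ.g 11 * τ.g 9 →
      (reduceS C KE K₁ C₁).run κ σ = (S.set 10 1).run κ τ ∧
      (reduceS C KE K₁ C₁).cost κ σ = partS.cost κ σ + (rankS.cost κ (partS.run κ σ) + (1 + 1))) ∧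
    (¬ K₁ * τ.g 3 < τ.g 11 * τ.g 9 →
      (ω.g 10 ≠ 0 →
        (reduceS C KE K₁ C₁).run κ σ = ω ∧
        (reduceS C KE K₁ C₁).cost κ σ = partS.cost κ σ + (rankS.cost κ (partS.run κ σ) +
          (1 + (1 + (1 + (1 + ((emitA C).cost κ ρ + (1 + 1)))))))) ∧
      (ω.g 10 = 0 →
        (φ.g 10 ≠ 0 ∨ C₁ * φ.g 11 < φ.g 12 →
          (reduceS C KE K₁ C₁).run κ σ = (S.set 10 1).run κ φ ∧
          (reduceS C KE K₁ C₁).cost κ σ = partS.cost κ σ + (rankS.cost κ (partS.run κ σ) +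
            (1 + (1 + (1 + (1 + ((emitA C).cost κ ρ + (1 + (emitB.cost κ ω + (1 + 1)))))))))) ∧
        (φ.g 10 = 0 → ¬ C₁ * φ.g 11 < φ.g 12 →
          (reduceS C KE K₁ C₁).run κ σ = buildS.run κ φ ∧
          (reduceS C KE K₁ C₁).cost κ σ = partS.cost κ σ + (rankS.cost κ (partS.run κ σ) +
            (1 + (1 + (1 + (1 + ((emitA C).cost κ ρ + (1 + (emitB.cost κ ω +
              (1 + buildS.cost κ φ)))))))))))) := by
  obtain ⟨h1, h2, h3, h4⟩ := hs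
  obtain ⟨X, hX⟩ : ∃ X : S, X = .ite (or (.g 10) (less (.c C₁ * .g 11) (.g 12))) (.set 10 1)
    buildS := ⟨_, rfl⟩
  obtain ⟨Y, hY⟩ : ∃ Y : S, Y = .ite (.g 10) .skip (seqs [emitB, X]) := ⟨_, rfl⟩
  obtain ⟨Z, hZ⟩ : ∃ Z : S, Z = .ite (less (.c K₁ * .g 3) (.g 11 * .g 9)) (.set 10 1)
    (seqs [.set 12 (.g 11), .set 13 0, .set 14 (.c KE * .g 11), emitA C, Y]) := ⟨_, rfl⟩
  have r0 : reduceS C KE K₁ C₁ = seqs [partS, rankS, Z] := by rw [hZ, hY, hX]; rfl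
  have r1 : (reduceS C KE K₁ C₁).run κ σ = Z.run κ τ := by
    rw [r0, h1, seqs_cons, seqs_cons, seqs_one, run_seq, run_seq]
  have c1 : (reduceS C KE K₁ C₁).cost κ σ =
      partS.cost κ σ + (rankS.cost κ (partS.run κ σ) + Z.cost κ τ) := by
    rw [r0, h1, seqs_cons, seqs_cons, seqs_one, cost_seq, cost_seq]
  have eg : (less (.c K₁ * .g 3) (.g 11 * .g 9)).ev κ τ [] = 0 ↔
      ¬ K₁ * τ.g 3 < τ.g 11 * τ.g 9 := less_eq_zero κ τ _ _ _
  have ex : (or (.g 10) (less (.c C₁ * .g 11) (.g 12))).ev κ φ [] = 0 ↔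
      φ.g 10 = 0 ∧ ¬ C₁ * φ.g 11 < φ.g 12 := by
    rw [or_eq_zero, less_eq_zero]
    rfl
  refine ⟨fun hg => ?_, fun hg => ?_⟩
  · have e1 : ¬ (less (.c K₁ * .g 3) (.g 11 * .g 9)).ev κ τ [] = 0 := by rw [eg]; exact not_not.mpr hg
    rw [r1, c1, hZ, run_ite1 κ τ _ _ _ e1, cost_ite1 κ τ _ _ _ e1, cost_set]
    exact ⟨rfl, rfl⟩
  · have e1 := eg.mpr hg
    have r2 : Z.run κ τ = Y.run κ ω := by
      rw [hZ, run_ite0 κ τ _ _ _ e1, h3, h2, seqs_cons, seqs_cons, seqs_cons, seqs_cons, seqs_one,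
        run_seq, run_seq, run_seq, run_seq]
    have c2 : Z.cost κ τ = 1 + (1 + (1 + (1 + ((emitA C).cost κ ρ + Y.cost κ ω)))) := by
      rw [hZ, cost_ite0 κ τ _ _ _ e1, h3, h2, seqs_cons, seqs_cons, seqs_cons, seqs_cons, seqs_one,
        cost_seq, cost_seq, cost_seq, cost_seq, cost_set, cost_set, cost_set]
    refine ⟨fun h0 => ?_, fun h0 => ?_⟩
    · have e2 : ¬ (E.g 10).ev κ ω [] = 0 := h0
      rw [r1, c1, r2, c2, hY, run_ite1 κ ω _ _ _ e2, cost_ite1 κ ω _ _ _ e2, run_skip, cost_skip]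
      exact ⟨rfl, rfl⟩
    · have e2 : (E.g 10).ev κ ω [] = 0 := h0
      have r3 : Y.run κ ω = X.run κ φ := by
        rw [hY, run_ite0 κ ω _ _ _ e2, h4, seqs_cons, seqs_one, run_seq]
      have c3 : Y.cost κ ω = 1 + (emitB.cost κ ω + X.cost κ φ) := by
        rw [hY, cost_ite0 κ ω _ _ _ e2, h4, seqs_cons, seqs_one, cost_seq]
      refine ⟨fun hx => ?_, fun hx1 hx2 => ?_⟩
      · have e3 : ¬ (or (.g 10) (less (.c C₁ * .g 11) (.g 12))).ev κ φ [] = 0 := by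
          rw [ex]
          rintro ⟨k1, k2⟩
          rcases hx with hx | hx
          · exact hx k1
          · exact k2 hx
        rw [r1, c1, r2, c2, r3, c3, hX, run_ite1 κ φ _ _ _ e3, cost_ite1 κ φ _ _ _ e3, cost_set]
        exact ⟨rfl, rfl⟩
      · have e3 : (or (.g 10) (less (.c C₁ * .g 11) (.g 12))).ev κ φ [] = 0 := ex.mpr ⟨hx1, hx2⟩
        rw [r1, c1, r2, c2, r3, c3, hX, run_ite0 κ φ _ _ _ e3, cost_ite0 κ φ _ _ _ e3]
        exact ⟨rfl, rfl⟩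

theorem set10 (κ : Par) (σ : St) (h : 1 ≤ κ.top) : ((S.set 10 1).run κ σ).g 10 = 1 := by
  simp only [S.run, ev_one, Function.update_self]
  exact min_eq_left h

end PReduceAux

open PReduceAux

theorem reduce_spec (C KE K₁ C₁ : ℕ) (hC : ∀ (T : Set ℕ) (A : SimpleGraph ℕ), T.Finite →
      A.support.Finite → Irr T A → rho T A ≤ C * (T.ncard + 1))
    (hKE : KE = 39 + 51 * C) (hK₁ : K₁ = 4 * KE) (hC₁ : C₁ = 1 + 17 * C)
    (κ : Par) (σ : St) (h : MOk KE K₁ C₁ κ σ) (h10 : σ.g 10 = 0) :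
    (((reduceS C KE K₁ C₁).run κ σ).g 10 ≠ 0 → ¬ Planar (cur κ σ).gr) ∧
    (((reduceS C KE K₁ C₁).run κ σ).g 10 = 0 →
      MOk KE K₁ C₁ κ ((reduceS C KE K₁ C₁).run κ σ) ∧
      (Planar (cur κ ((reduceS C KE K₁ C₁).run κ σ)).gr ↔ Planar (cur κ σ).gr) ∧
      2 * ((reduceS C KE K₁ C₁).run κ σ).g 3 ≤ σ.g 3) := by
  have htop : 1 ≤ κ.top := by have := h.num.hN; omega
  obtain ⟨τ, hτ⟩ : ∃ τ, τ = rankS.run κ (partS.run κ σ) := ⟨_, rfl⟩
  obtain ⟨ρ, hρ⟩ : ∃ ρ, ρ = (S.set 14 (.c KE * .g 11)).run κ ((S.set 13 0).run κ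
    ((S.set 12 (.g 11)).run κ τ)) := ⟨_, rfl⟩
  obtain ⟨ω, hω⟩ : ∃ ω, ω = (emitA C).run κ ρ := ⟨_, rfl⟩
  obtain ⟨φ, hφ⟩ : ∃ φ, φ = emitB.run κ ω := ⟨_, rfl⟩
  obtain ⟨q1, q2⟩ := cases4 C KE K₁ C₁ κ σ τ ρ ω φ ⟨hτ, hρ, hω, hφ⟩
  have hm : Mid κ σ τ := by rw [hτ]; exact mid KE K₁ C₁ κ σ h
  by_cases hg : K₁ * τ.g 3 < τ.g 11 * τ.g 9
  · have hnp := guard_nonplanar KE K₁ C₁ hK₁ κ σ h τ hm hg
    rw [(q1 hg).1, set10 κ τ htop]
    exact ⟨fun _ => hnp, fun h => absurd h one_ne_zero⟩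
  · obtain ⟨q3, q4⟩ := q2 hg
    have hp := pre KE K₁ C₁ κ σ h h10 τ hm hg ρ hρ
    obtain ⟨e1, e2, _⟩ := emit C KE K₁ C₁ hC hKE hC₁ κ σ h τ ρ hp ω hω φ hφ
    by_cases h0 : ω.g 10 = 0
    · obtain ⟨q5, q6⟩ := q4 h0
      obtain ⟨e3, e4⟩ := e2 h0
      by_cases hx : φ.g 10 ≠ 0 ∨ C₁ * φ.g 11 < φ.g 12
      · rw [(q5 hx).1, set10 κ φ htop]
        exact ⟨fun _ => e3 hx, fun h => absurd h one_ne_zero⟩
      · push Not at hx
        have hx2 := not_lt.mpr hx.2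
        obtain ⟨e5, e6, e7, _⟩ := e4 hx.1 hx2
        rw [(q6 hx.1 hx2).1]
        refine ⟨fun hne => absurd ?_ hne, fun _ => ⟨e5, e6, e7⟩⟩
        rw [(build_same κ φ).1 10 (by decide)]
        exact hx.1
    · rw [(q3 h0).1]
      exact ⟨fun _ => e1 h0, fun h => absurd h h0⟩

theorem reduce_cost (C KE K₁ C₁ : ℕ) (hC : ∀ (T : Set ℕ) (A : SimpleGraph ℕ), T.Finite →
      A.support.Finite → Irr T A → rho T A ≤ C * (T.ncard + 1))
    (hKE : KE = 39 + 51 * C) (hK₁ : K₁ = 4 * KE) (hC₁ : C₁ = 1 + 17 * C)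
    (κ : Par) (σ : St) (h : MOk KE K₁ C₁ κ σ) (h10 : σ.g 10 = 0) :
    (reduceS C KE K₁ C₁).cost κ σ ≤
      (10000 + 1000 * KE + 1000 * C₁) * (σ.g 3 + 1) * (κ.cap + 1) ^ 2 := by
  obtain ⟨τ, hτ⟩ : ∃ τ, τ = rankS.run κ (partS.run κ σ) := ⟨_, rfl⟩
  obtain ⟨ρ, hρ⟩ : ∃ ρ, ρ = (S.set 14 (.c KE * .g 11)).run κ ((S.set 13 0).run κ
    ((S.set 12 (.g 11)).run κ τ)) := ⟨_, rfl⟩
  obtain ⟨ω, hω⟩ : ∃ ω, ω = (emitA C).run κ ρ := ⟨_, rfl⟩
  obtain ⟨φ, hφ⟩ : ∃ φ, φ = emitB.run κ ω := ⟨_, rfl⟩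
  obtain ⟨q1, q2⟩ := cases4 C KE K₁ C₁ κ σ τ ρ ω φ ⟨hτ, hρ, hω, hφ⟩
  have hm : Mid κ σ τ := by rw [hτ]; exact mid KE K₁ C₁ κ σ h
  have hPσ := POk_of KE K₁ C₁ κ σ h
  have hn := h.num
  have k1 : partS.cost κ σ ≤ 1000 * (σ.g 3 + 1) * (κ.cap + 1) ^ 2 :=
    part_cost κ σ (by have := h.h9; have := hPσ.B2; omega) hPσ.J hPσ.q1
  have k2 : rankS.cost κ (partS.run κ σ) ≤ 10 * (σ.g 3 + 1) := by
    have := rank_cost κ (partS.run κ σ)
    rw [(part_same κ σ).1 3 (by decide)] at this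
    exact this
  obtain ⟨K, hK⟩ : ∃ K, K = (κ.cap + 1) ^ 2 := ⟨_, rfl⟩
  have hK1 : 1 ≤ K := by rw [hK]; exact Nat.one_le_pow _ _ (by omega)
  obtain ⟨A, hA⟩ : ∃ A, A = σ.g 3 + 1 := ⟨_, rfl⟩
  have hA1 : 1 ≤ A := by omega
  rw [← hK, ← hA] at k1 ⊢
  rw [← hA] at k2
  have hAK : A ≤ A * K := Nat.le_mul_of_pos_right _ hK1
  have b1 : (10000 + 1000 * KE + 1000 * C₁) * A * K =
      10000 * (A * K) + 1000 * (KE * (A * K)) + 1000 * (C₁ * (A * K)) := by ring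
  have b2 : 1000 * A * K = 1000 * (A * K) := by ring
  rw [b1]
  rw [b2] at k1
  by_cases hg : K₁ * τ.g 3 < τ.g 11 * τ.g 9
  · rw [(q1 hg).2]
    omega
  · obtain ⟨q3, q4⟩ := q2 hg
    have hp := pre KE K₁ C₁ κ σ h h10 τ hm hg ρ hρ
    obtain ⟨e1, e2, e8⟩ := emit C KE K₁ C₁ hC hKE hC₁ κ σ h τ ρ hp ω hω φ hφ
    have k3 : (emitA C).cost κ ρ ≤ 1000 * (A * K) := by
      have := emitA_cost C κ ρ
      rw [hp.same.g 3 (by decide), ← hA, ← hK, b2] at this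
      exact this
    have hNR : τ.g 11 ≤ σ.g 3 := by
      rw [hm.K.NR]
      have h3 : τ.g 3 = σ.g 3 := hm.same.1 3 (by decide)
      have hsub : Rm κ τ ⊆ ((Finset.range (σ.g 3) : Finset ℕ) : Set ℕ) := by
        intro x hx
        rw [Finset.coe_range, Set.mem_Iio, ← h3]
        exact hx.1
      have := Set.ncard_le_ncard hsub (Finset.finite_toSet _)
      rw [Set.ncard_coe_finset, Finset.card_range] at this
      exact this
    have hW := h.hW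
    have k4 : 2 * KE * σ.g 3 ≤ 2 * (KE * (A * K)) := by
      calc 2 * KE * σ.g 3 = 2 * (KE * σ.g 3) := by ring
        _ ≤ 2 * (KE * (A * K)) := Nat.mul_le_mul_left _ (Nat.mul_le_mul_left _ (by omega))
    by_cases h0 : ω.g 10 = 0
    · obtain ⟨q5, q6⟩ := q4 h0
      obtain ⟨e3, e4⟩ := e2 h0
      by_cases hx : φ.g 10 ≠ 0 ∨ C₁ * φ.g 11 < φ.g 12
      · rw [(q5 hx).2]
        omega
      · push Not at hx
        have hx2 := not_lt.mpr hx.2
        obtain ⟨e5, e6, e7, e9, e10⟩ := e4 hx.1 hx2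
        rw [(q6 hx.1 hx2).2]
        have k5 := build_cost κ φ
        have k6 : C₁ * τ.g 11 ≤ C₁ * (A * K) := Nat.mul_le_mul_left _ (by omega)
        have k7 : KE * τ.g 11 ≤ KE * (A * K) := Nat.mul_le_mul_left _ (by omega)
        omega
    · rw [(q3 h0).2]
      omega

end Pool.Agent.MP9d6bd1
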