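import Mathlib
import Pool.Agent.Lib.MP_9d6bd1_lc.Spec3
import Pool.Agent.Lib.MP_9d6bd1_lc.EvLib
import Pool.Agent.Lib.MP_9d6bd1_lc.RunLib
import Pool.Agent.Lib.MP_9d6bd1_lc.GFew
import Pool.Agent.Lib.MP_9d6bd1_lc.PReduce

/-!
# MP_9d6bd1_lc: the main loop
-/

set_option autoImplicit false

open Classical

namespace Pool.Agent.MP9d6bd1

open E

namespace PMainAux

theorem cur_congr (κ : Par) (σ τ : St) (h3 : σ.g 3 = τ.g 3) (h20 : σ.g 20 = τ.g 20)
    (h0 : σ.m 0 = τ.m 0) : cur κ σ = cur κ τ := by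
  have key : ∀ e : E, e.uses (fun x => x == 20) (fun b => b == 0) = true →
      ∀ l, e.ev κ σ l = e.ev κ τ l := by
    intro e he l
    refine ev_congr (fun x => x == 20) (fun b => b == 0) κ σ τ ?_ ?_ e he l
    · intro x hx
      simp only [beq_iff_eq] at hx
      rw [hx, h20]
    · intro b hb
      simp only [beq_iff_eq] at hb
      rw [hb, h0]
  unfold cur
  rw [h3]
  congr 1
  · funext u
    exact key dgE (by decide) [u]
  · funext u j
    exact key nbE (by decide) [u, j]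

theorem mok_congr {KE K₁ C₁ : ℕ} {κ : Par} {σ τ : St} (h : MOk KE K₁ C₁ κ σ)
    (hg : ∀ x ∈ [3, 4, 5, 6, 7, 8, 9, 20], τ.g x = σ.g x) (hm : τ.m = σ.m) :
    MOk KE K₁ C₁ κ τ := by
  have h3 := hg 3 (by simp)
  have h4 := hg 4 (by simp)
  have h5 := hg 5 (by simp)
  have h6 := hg 6 (by simp)
  have h7 := hg 7 (by simp)
  have h8 := hg 8 (by simp)
  have h9 := hg 9 (by simp)
  have h20 := hg 20 (by simp)
  have hc : cur κ τ = cur κ σ := cur_congr κ τ σ h3 h20 (by rw [hm])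
  refine ⟨?_, ?_, ?_, ?_, ?_, ?_⟩
  · rw [h3, h4, h5, h6, h7, h8]; exact h.num
  · rw [h9, h4]; exact h.h9
  · rw [h8, hm]; exact h.hpow
  · rw [h8, hm]; exact h.hbits
  · rw [hc]; exact h.hok
  · rw [hc, h3]; exact h.hW

/-- state after the construction of the power table -/
theorem power_table (κ : Par) (σ : St) (q : ℕ) (hq : σ.g 8 = q) (h2 : 2 ^ q ≤ κ.top)
    (h3 : q < κ.lim) (h1 : 1 ≤ q) (τ : St)
    (hτ : τ = (S.loop 23 (.g 8) (.st 11 (.g 23 + 1) (2 * .ld 11 (.g 23)))).run κ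
      ((S.st 11 0 1).run κ σ)) :
    (∀ x, x ≠ 23 → τ.g x = σ.g x) ∧ (∀ b, b ≠ 11 → τ.m b = σ.m b) ∧
      ∀ r ≤ q, τ.m 11 r = 2 ^ r := by
  subst hτ
  have hqt : q < κ.top := lt_of_lt_of_le Nat.lt_two_pow_self h2
  set σ1 := (S.st 11 0 1).run κ σ with hσ1
  have e1 : σ1.g = σ.g ∧ (∀ b, b ≠ 11 → σ1.m b = σ.m b) ∧ σ1.m 11 0 = 1 := by
    rw [hσ1]
    simp only [S.run, ev_zero, ev_one]
    rw [if_pos (by omega)]
    refine ⟨rfl, fun b hb => ?_, ?_⟩
    · simp [hb]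
    · simp
      omega
  obtain ⟨g1, m1, z1⟩ := e1
  have hn : min ((E.g 8).ev κ σ1 []) κ.top = q := by
    rw [ev_g, g1, hq]
    omega
  refine loop_inv κ 23 (.g 8) _ σ1 q hn (fun i τ => (∀ x, x ≠ 23 → τ.g x = σ.g x) ∧
    (∀ b, b ≠ 11 → τ.m b = σ.m b) ∧ ∀ r ≤ i, τ.m 11 r = 2 ^ r) ?_ ?_
  · refine ⟨fun x _ => by rw [g1], m1, fun r hr => ?_⟩
    have : r = 0 := by omega
    subst this
    rw [z1, pow_zero]
  · rintro i hi τ ⟨hg, hm, hp⟩
    have hpow : 2 ^ (i + 1) ≤ κ.top :=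
      le_trans (Nat.pow_le_pow_right (by norm_num) (by omega)) h2
    have hrun : (S.st 11 (.g 23 + 1) (2 * .ld 11 (.g 23))).run κ
        ⟨Function.update τ.g 23 i, τ.m⟩ = ⟨Function.update τ.g 23 i,
          Function.update τ.m 11 (Function.update (τ.m 11) (i + 1) (2 ^ (i + 1)))⟩ := by
      have hi1 : (E.g 23 + 1 : E).ev κ ⟨Function.update τ.g 23 i, τ.m⟩ [] = i + 1 := by
        simp
      have hv : (2 * E.ld 11 (.g 23) : E).ev κ ⟨Function.update τ.g 23 i, τ.m⟩ [] =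
          2 ^ (i + 1) := by
        simp only [ev_mul, ev_ld, ev_g, Function.update_self]
        rw [if_pos (by omega), hp i le_rfl, pow_succ]
        simp [mul_comm]
      simp only [S.run]
      rw [hi1, hv, if_pos (by omega), min_eq_left hpow]
    rw [hrun]
    refine ⟨fun x hx => ?_, fun b hb => ?_, fun r hr => ?_⟩
    · simp only [Function.update_of_ne hx]
      exact hg x hx
    · simp only [Function.update_of_ne hb]
      exact hm b hb
    · simp only [Function.update_self]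
      rcases Nat.lt_succ_iff_lt_or_eq.1 (Nat.lt_succ_of_le hr) with h | h
      · rw [Function.update_of_ne (by omega)]
        exact hp r (by omega)
      · rw [h, Function.update_self]

theorem planar_empty (F : FG) (h : F.N = 0) : Planar F.gr := by
  have h1 : F.gr.edgeSet = ∅ := by
    rw [SimpleGraph.edgeSet_eq_empty]
    ext a b
    unfold FG.gr
    rw [SimpleGraph.fromRel_adj, h]
    simp
  apply planar_few_edges
  · rw [h1]; exact Set.finite_empty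
  · rw [h1]; simp

end PMainAux

open PMainAux

theorem main_spec (C KE K₁ C₁ : ℕ) (hC : ∀ (T : Set ℕ) (A : SimpleGraph ℕ), T.Finite →
      A.support.Finite → Irr T A → rho T A ≤ C * (T.ncard + 1))
    (hKE : KE = 39 + 51 * C) (hK₁ : K₁ = 4 * KE) (hC₁ : C₁ = 1 + 17 * C)
    (κ : Par) (σ : St) (hm : ∀ b r, σ.m b r = 0)
    (hn : NumOk KE K₁ C₁ κ (σ.g 3) (σ.g 4) (σ.g 5) (σ.g 7) (σ.g 6) (σ.g 8))
    (h9 : σ.g 9 = σ.g 4) (h20 : σ.g 20 = 1) (hq : σ.g 3 < 2 ^ σ.g 8)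
    (hG : σ.g 10 = 0 → (cur κ σ).Ok ∧ (cur κ σ).W ≤ 2 * KE * σ.g 3) :
    (((mainS C KE K₁ C₁).run κ σ).g 0 = 1 ↔ σ.g 10 = 0 ∧ Planar (cur κ σ).gr) ∧
    (mainS C KE K₁ C₁).cost κ σ ≤
      (30000 + 3000 * KE + 3000 * C₁) * (σ.g 3 + σ.g 8 + 1) * (κ.cap + 1) ^ 2 := by
  have hqt : σ.g 8 + 1 ≤ κ.top :=
    le_trans (Nat.succ_le_of_lt Nat.lt_two_pow_self) hn.q2
  set σ1 := (S.st 11 0 1).run κ σ with hσ1
  set σ2 := (S.loop 23 (.g 8) (.st 11 (.g 23 + 1) (2 * .ld 11 (.g 23)))).run κ σ1 with hσ2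
  obtain ⟨g2, m2, p2⟩ := power_table κ σ (σ.g 8) rfl hn.q2 hn.q3 hn.q1 σ2 hσ2
  have hc2 : cur κ σ2 = cur κ σ :=
    cur_congr κ σ2 σ (g2 3 (by norm_num)) (g2 20 (by norm_num)) (m2 0 (by decide))
  have hM : σ.g 10 = 0 → MOk KE K₁ C₁ κ σ2 := by
    intro h10
    obtain ⟨hok, hW⟩ := hG h10
    refine ⟨?_, ?_, ?_, ?_, ?_, ?_⟩
    · rw [g2 3 (by norm_num), g2 4 (by norm_num), g2 5 (by norm_num), g2 6 (by norm_num),
        g2 7 (by norm_num), g2 8 (by norm_num)]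
      exact hn
    · rw [g2 9 (by norm_num), g2 4 (by norm_num)]
      exact h9
    · rw [g2 8 (by norm_num)]
      exact p2
    · intro c hc r
      have hc' : c ≠ 11 := by
        rintro rfl
        revert hc
        decide
      rw [m2 c hc', hm c r]
      positivity
    · rw [hc2]; exact hok
    · rw [hc2, g2 3 (by norm_num)]; exact hW
  set I : ℕ → St → Prop := fun i τ =>
    (τ.g 10 = 0 → σ.g 10 = 0 ∧ MOk KE K₁ C₁ κ τ ∧
      (Planar (cur κ τ).gr ↔ Planar (cur κ σ).gr) ∧ 2 ^ i * τ.g 3 ≤ σ.g 3) ∧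
    (τ.g 10 ≠ 0 → ¬ (σ.g 10 = 0 ∧ Planar (cur κ σ).gr)) with hI
  set A := 10000 + 1000 * KE + 1000 * C₁ with hA
  have h0 : I 0 σ2 := by
    refine ⟨fun h => ?_, fun h h' => ?_⟩
    · rw [g2 10 (by norm_num)] at h
      refine ⟨h, hM h, by rw [hc2], ?_⟩
      rw [g2 3 (by norm_num)]
      simp
    · rw [g2 10 (by norm_num)] at h
      exact h h'.1
  have hs : ∀ i < σ.g 8 + 1, ∀ τ, I i τ →
      I (i + 1) ((S.ite (.g 10) .skip (reduceS C KE K₁ C₁)).run κ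
        ⟨Function.update τ.g 34 i, τ.m⟩) ∧
      (S.ite (.g 10) .skip (reduceS C KE K₁ C₁)).cost κ ⟨Function.update τ.g 34 i, τ.m⟩ ≤
        1 + A * (σ.g 3 / 2 ^ i + 1) * (κ.cap + 1) ^ 2 := by
    intro i _ τ hτ
    set τ' : St := ⟨Function.update τ.g 34 i, τ.m⟩ with hτ'
    have hg : ∀ x, x ≠ 34 → τ'.g x = τ.g x := fun x hx => by
      simp [hτ', hx]
    have h10 : (E.g 10).ev κ τ' [] = τ.g 10 := by
      rw [ev_g]; exact hg 10 (by norm_num)
    have hA1 : 1 ≤ A * (σ.g 3 / 2 ^ i + 1) * (κ.cap + 1) ^ 2 := by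
      have : 0 < A * (σ.g 3 / 2 ^ i + 1) * (κ.cap + 1) ^ 2 := by
        rw [hA]; positivity
      omega
    by_cases hb : τ.g 10 = 0
    · obtain ⟨hs0, hMτ, hPτ, hNτ⟩ := hτ.1 hb
      have hM' : MOk KE K₁ C₁ κ τ' := by
        refine mok_congr hMτ (fun x hx => hg x ?_) rfl
        rintro rfl
        simp at hx
      have hc' : cur κ τ' = cur κ τ :=
        cur_congr κ τ' τ (hg 3 (by norm_num)) (hg 20 (by norm_num)) rfl
      have h10' : τ'.g 10 = 0 := by rw [hg 10 (by norm_num)]; exact hb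
      obtain ⟨r1, r2⟩ := reduce_spec C KE K₁ C₁ hC hKE hK₁ hC₁ κ τ' hM' h10'
      have r3 := reduce_cost C KE K₁ C₁ hC hKE hK₁ hC₁ κ τ' hM' h10'
      constructor
      · simp only [S.run]
        rw [h10, if_pos hb]
        refine ⟨fun h => ?_, fun h h' => ?_⟩
        · obtain ⟨a1, a2, a3⟩ := r2 h
          refine ⟨hs0, a1, ?_, ?_⟩
          · rw [a2, hc']; exact hPτ
          · rw [hg 3 (by norm_num)] at a3
            calc 2 ^ (i + 1) * ((reduceS C KE K₁ C₁).run κ τ').g 3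
                = 2 ^ i * (2 * ((reduceS C KE K₁ C₁).run κ τ').g 3) := by ring
              _ ≤ 2 ^ i * τ.g 3 := Nat.mul_le_mul_left _ a3
              _ ≤ σ.g 3 := hNτ
        · refine r1 h ?_
          rw [hc']
          exact hPτ.2 h'.2
      · simp only [S.cost]
        rw [h10, if_pos hb]
        refine Nat.add_le_add_left (r3.trans ?_) 1
        refine Nat.mul_le_mul_right _ (Nat.mul_le_mul_left _ (Nat.add_le_add_right ?_ 1))
        rw [hg 3 (by norm_num), Nat.le_div_iff_mul_le (by positivity), mul_comm]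
        exact hNτ
    · constructor
      · simp only [S.run]
        rw [h10, if_neg hb]
        refine ⟨fun h => ?_, fun _ => hτ.2 hb⟩
        rw [hg 10 (by norm_num)] at h
        exact absurd h hb
      · simp only [S.cost]
        rw [h10, if_neg hb]
        exact Nat.add_le_add_left hA1 1
  have hn3 : min ((E.g 8 + 1 : E).ev κ σ2 []) κ.top = σ.g 8 + 1 := by
    rw [ev_add, ev_g, ev_one, g2 8 (by norm_num)]
    omega
  set σ3 := (S.loop 34 (.g 8 + 1) (.ite (.g 10) .skip (reduceS C KE K₁ C₁))).run κ σ2 with hσ3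
  have hI3 : I (σ.g 8 + 1) σ3 :=
    loop_inv κ 34 (.g 8 + 1) _ σ2 (σ.g 8 + 1) hn3 I h0 fun i hi τ hτ => (hs i hi τ hτ).1
  have hcost3 := loop_cost κ 34 (.g 8 + 1) _ σ2 (σ.g 8 + 1) hn3 I _ h0 hs
  have hrun : (mainS C KE K₁ C₁).run κ σ =
      ⟨Function.update σ3.g 0 (min ((neg (.g 10)).ev κ σ3 []) κ.top), σ3.m⟩ := rfl
  constructor
  · rw [hrun]
    simp only [Function.update_self, ev_neg, ev_g]
    have htop : 1 ≤ κ.top := by omega
    by_cases hb : σ3.g 10 = 0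
    · rw [if_pos hb, min_eq_left htop]
      obtain ⟨a1, a2, a3, a4⟩ := hI3.1 hb
      simp only [true_iff]
      refine ⟨a1, a3.1 (planar_empty _ ?_)⟩
      show σ3.g 3 = 0
      by_contra h
      have h1 : 1 ≤ σ3.g 3 := by omega
      have h2 : 2 ^ (σ.g 8 + 1) * 1 ≤ 2 ^ (σ.g 8 + 1) * σ3.g 3 := Nat.mul_le_mul_left _ h1
      rw [pow_succ] at h2 a4
      omega
    · rw [if_neg hb]
      simp only [Nat.zero_min, zero_ne_one, false_iff]
      exact hI3.2 hb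
  · have hcost : (mainS C KE K₁ C₁).cost κ σ = 1 +
        ((S.loop 23 (.g 8) (.st 11 (.g 23 + 1) (2 * .ld 11 (.g 23)))).cost κ σ1 +
        ((S.loop 34 (.g 8 + 1) (.ite (.g 10) .skip (reduceS C KE K₁ C₁))).cost κ σ2 + 1)) := rfl
    have hg1 : σ1.g 8 = σ.g 8 := by
      rw [hσ1]
      simp only [S.run]
      split_ifs <;> rfl
    have hcost2 := loop_cost_const κ 23 (.g 8) (.st 11 (.g 23 + 1) (2 * .ld 11 (.g 23))) σ1
      (σ.g 8) 1 (by rw [ev_g, hg1]; exact min_le_left _ _) (fun τ => le_rfl)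
    have hsum : ∑ i ∈ Finset.range (σ.g 8 + 1),
        (1 + (1 + A * (σ.g 3 / 2 ^ i + 1) * (κ.cap + 1) ^ 2)) ≤
        2 * (σ.g 8 + 1) + A * (2 * σ.g 3 + (σ.g 8 + 1)) * (κ.cap + 1) ^ 2 := by
      have h1 : ∑ i ∈ Finset.range (σ.g 8 + 1), σ.g 3 / 2 ^ i ≤ 2 * σ.g 3 := by
        have := Nat.geom_sum_le (b := 2) le_rfl (σ.g 3) (σ.g 8 + 1)
        simpa [mul_comm] using this
      calc ∑ i ∈ Finset.range (σ.g 8 + 1),
            (1 + (1 + A * (σ.g 3 / 2 ^ i + 1) * (κ.cap + 1) ^ 2))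
          = 2 * (σ.g 8 + 1) + A * (∑ i ∈ Finset.range (σ.g 8 + 1), σ.g 3 / 2 ^ i +
              (σ.g 8 + 1)) * (κ.cap + 1) ^ 2 := by
            rw [Finset.sum_add_distrib, Finset.sum_add_distrib, ← Finset.sum_mul,
              ← Finset.mul_sum, Finset.sum_add_distrib]
            simp
            ring
        _ ≤ _ := by gcongr
    rw [hcost]
    have hfin : 1 + ((1 + σ.g 8 * (1 + 1)) + ((1 + (2 * (σ.g 8 + 1) +
        A * (2 * σ.g 3 + (σ.g 8 + 1)) * (κ.cap + 1) ^ 2)) + 1)) ≤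
        (30000 + 3000 * KE + 3000 * C₁) * (σ.g 3 + σ.g 8 + 1) * (κ.cap + 1) ^ 2 := by
      have e1 : 30000 + 3000 * KE + 3000 * C₁ = 3 * A := by rw [hA]; ring
      have e2 : 10000 ≤ A := by rw [hA]; omega
      rw [e1]
      have e3 : 1 ≤ (κ.cap + 1) ^ 2 := Nat.one_le_pow _ _ (by omega)
      set P := (κ.cap + 1) ^ 2
      have e4 : 4 * σ.g 8 + 6 ≤ A * (σ.g 3 + 2 * σ.g 8 + 2) * P := by
        calc 4 * σ.g 8 + 6 ≤ 10000 * (σ.g 3 + 2 * σ.g 8 + 2) * 1 := by omega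
          _ ≤ A * (σ.g 3 + 2 * σ.g 8 + 2) * P := by gcongr
      calc _ = (4 * σ.g 8 + 6) + A * (2 * σ.g 3 + (σ.g 8 + 1)) * P := by ring
        _ ≤ A * (σ.g 3 + 2 * σ.g 8 + 2) * P + A * (2 * σ.g 3 + (σ.g 8 + 1)) * P := by omega
        _ = 3 * A * (σ.g 3 + σ.g 8 + 1) * P := by ring
    refine le_trans ?_ hfin
    omega

end Pool.Agent.MP9d6bd1
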