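import Mathlib
import Pool.Agent.Lib.MP_9d6bd1_lc.Spec3

/-!
# MP_9d6bd1_lc: choice of the parameters
-/

set_option autoImplicit false

open Classical

namespace Pool.Agent.MP9d6bd1

namespace PParamAAux

theorem BB_pos (D j : ℕ) : 1 ≤ BB D j := by
  induction j with
  | zero => simp [BB]
  | succ j ih => simp only [BB]; omega

theorem BB_le (D j : ℕ) : BB D j ≤ (D + 1) ^ (2 ^ j - 1) := by
  induction j with
  | zero => simp [BB]
  | succ j ih =>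
    have h1 := BB_pos D j
    have h2 : BB D (j + 1) ≤ (D + 1) * (BB D j * BB D j) := by
      simp only [BB]
      nlinarith
    have h3 : (D + 1) * (BB D j * BB D j) ≤
        (D + 1) * ((D + 1) ^ (2 ^ j - 1) * (D + 1) ^ (2 ^ j - 1)) := by gcongr
    have h4 : (D + 1) * ((D + 1) ^ (2 ^ j - 1) * (D + 1) ^ (2 ^ j - 1))
        = (D + 1) ^ (2 ^ (j + 1) - 1) := by
      rw [← pow_add, ← pow_succ']
      congr 1
      have : 1 ≤ 2 ^ j := Nat.one_le_two_pow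
      rw [pow_succ]; omega
    omega

/-- the quantity to be bounded -/
def FF (p : ℕ) : ℕ := 2 ^ (3 * ((p + 1) * BB p (24 * p) + 6) ^ 2)

/-- the bound -/
def GG (p : ℕ) : ℕ := 2 ^ 2 ^ 2 ^ (25 * p + 3)

theorem succ_le_two_pow (p : ℕ) : p + 1 ≤ 2 ^ p := Nat.lt_two_pow_self

theorem FF_le (p : ℕ) (hp : 1 ≤ p) : FF p ≤ GG p := by
  unfold FF GG
  have hL : BB p (24 * p) ≤ 2 ^ 2 ^ (25 * p) := by
    calc BB p (24 * p) ≤ (p + 1) ^ (2 ^ (24 * p) - 1) := BB_le _ _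
      _ ≤ (p + 1) ^ (2 ^ (24 * p)) := Nat.pow_le_pow_right (by omega) (Nat.sub_le _ _)
      _ ≤ (2 ^ p) ^ (2 ^ (24 * p)) := Nat.pow_le_pow_left (succ_le_two_pow p) _
      _ = 2 ^ (p * 2 ^ (24 * p)) := by rw [← pow_mul]
      _ ≤ 2 ^ 2 ^ (25 * p) := by
          apply Nat.pow_le_pow_right (by norm_num)
          have hpp : p ≤ 2 ^ p := by have := succ_le_two_pow p; omega
          calc p * 2 ^ (24 * p) ≤ 2 ^ p * 2 ^ (24 * p) := Nat.mul_le_mul_right _ hpp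
            _ = 2 ^ (25 * p) := by rw [← pow_add]; congr 1; ring
  have ht : p + 3 ≤ 2 ^ (25 * p) := by
    have h1 : p + 3 ≤ 2 ^ (p + 2) := by
      have := succ_le_two_pow (p + 2); omega
    exact h1.trans (Nat.pow_le_pow_right (by norm_num) (by omega))
  generalize hT : 2 ^ (25 * p) = t at *
  have h2 : (p + 1) * BB p (24 * p) + 6 ≤ 2 ^ (2 * t) := by
    have h3 : (p + 1) * BB p (24 * p) ≤ 2 ^ p * 2 ^ t :=
      Nat.mul_le_mul (succ_le_two_pow p) hL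
    have h4 : 2 ^ p * 2 ^ t + 6 ≤ 2 ^ (p + t + 3) := by
      have h5 : 1 ≤ 2 ^ (p + t) := Nat.one_le_two_pow
      have h6 : 2 ^ (p + t + 3) = 8 * 2 ^ (p + t) := by rw [pow_add]; ring
      rw [h6, ← pow_add]; omega
    have h7 : 2 ^ (p + t + 3) ≤ 2 ^ (2 * t) := Nat.pow_le_pow_right (by norm_num) (by omega)
    omega
  apply Nat.pow_le_pow_right (by norm_num)
  have h8 : (2:ℕ) ^ (25 * p + 3) = 8 * t := by rw [pow_add, hT]; ring
  rw [h8]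
  calc 3 * ((p + 1) * BB p (24 * p) + 6) ^ 2 ≤ 2 ^ 2 * (2 ^ (2 * t)) ^ 2 := by
        apply Nat.mul_le_mul (by norm_num) (Nat.pow_le_pow_left h2 2)
    _ = 2 ^ (4 * t + 2) := by rw [← pow_mul, ← pow_add]; congr 1; ring
    _ ≤ 2 ^ (8 * t) := Nat.pow_le_pow_right (by norm_num) (by omega)

theorem GG_mono {p q : ℕ} (h : p ≤ q) : GG p ≤ GG q := by
  unfold GG
  apply Nat.pow_le_pow_right (by norm_num)
  apply Nat.pow_le_pow_right (by norm_num)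
  apply Nat.pow_le_pow_right (by norm_num)
  omega

theorem log_pos_imp {z : ℕ} (h : 1 ≤ Nat.log 2 z) : 1 ≤ z := by
  rcases Nat.eq_zero_or_pos z with h0 | h0
  · subst h0; simp at h
  · exact h0

theorem tower {y : ℕ} (h : 1 ≤ Nat.log 2 (Nat.log 2 (Nat.log 2 (Nat.log 2 y)))) :
    2 ^ 2 ^ 2 ^ 2 ^ (Nat.log 2 (Nat.log 2 (Nat.log 2 (Nat.log 2 y)))) ≤ y := by
  have h3 := log_pos_imp h
  have h2 := log_pos_imp h3
  have h1 := log_pos_imp h2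
  have h0 := log_pos_imp h1
  have g3 := Nat.pow_log_le_self 2 (x := Nat.log 2 (Nat.log 2 (Nat.log 2 y))) (by omega)
  have g2 := Nat.pow_log_le_self 2 (x := Nat.log 2 (Nat.log 2 y)) (by omega)
  have g1 := Nat.pow_log_le_self 2 (x := Nat.log 2 y) (by omega)
  have g0 := Nat.pow_log_le_self 2 (x := y) (by omega)
  have k2 := (Nat.pow_le_pow_right (n := 2) (by norm_num) g3).trans g2
  have k1 := (Nat.pow_le_pow_right (n := 2) (by norm_num) k2).trans g1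
  exact (Nat.pow_le_pow_right (n := 2) (by norm_num) k1).trans g0

theorem lin_le_pow {x : ℕ} (h : 8 ≤ x) : 27 * x ≤ 2 ^ x := by
  induction x, h using Nat.le_induction with
  | base => norm_num
  | succ x hx ih => rw [pow_succ]; omega

theorem main_bound (p₀ : ℕ) (hp : 1 ≤ p₀) (y : ℕ) :
    FF (p₀ + Nat.log 2 (Nat.log 2 (Nat.log 2 (Nat.log 2 y)))) ≤ GG (26 * p₀ + 10) + y := by
  have htw := @tower y
  generalize Nat.log 2 (Nat.log 2 (Nat.log 2 (Nat.log 2 y))) = x at htw ⊢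
  have h1 := FF_le (p₀ + x) (by omega)
  rcases Nat.lt_or_ge x (25 * p₀ + 10) with h | h
  · have h2 := GG_mono (p := p₀ + x) (q := 26 * p₀ + 10) (by omega)
    omega
  · have h2 : GG (p₀ + x) ≤ y := by
      refine le_trans ?_ (htw (by omega))
      unfold GG
      apply Nat.pow_le_pow_right (by norm_num)
      apply Nat.pow_le_pow_right (by norm_num)
      apply Nat.pow_le_pow_right (by norm_num)
      have := lin_le_pow (x := x) (by omega)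
      omega
    omega

theorem le_FF (p : ℕ) : (p + 1) * BB p (24 * p) ≤ FF p ∧ 24 * p ≤ FF p ∧ p ^ 2 ≤ FF p ∧
    (p + 1) ^ BB p (24 * p) ≤ FF p := by
  have hB := BB_pos p (24 * p)
  unfold FF
  generalize BB p (24 * p) = b at *
  have h0 : p + 1 ≤ (p + 1) * b := Nat.le_mul_of_pos_right _ (by omega)
  have hm : 3 * ((p + 1) * b + 6) ^ 2 ≤ 2 ^ (3 * ((p + 1) * b + 6) ^ 2) :=
    (Nat.lt_two_pow_self).le
  refine ⟨?_, ?_, ?_, ?_⟩
  · refine le_trans ?_ hm; nlinarith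
  · refine le_trans ?_ hm; nlinarith
  · refine le_trans ?_ hm; nlinarith
  · calc (p + 1) ^ b ≤ (2 ^ p) ^ b := Nat.pow_le_pow_left (succ_le_two_pow p) _
      _ = 2 ^ (p * b) := by rw [← pow_mul]
      _ ≤ _ := Nat.pow_le_pow_right (by norm_num) (by nlinarith)

/-- numerical core -/
theorem core (KE K₁ C₁ p₀ M₀ KL Z n p L cap lim lg : ℕ) (hp₀ : p₀ = 2 * C₁ * K₁ + 1)
    (hKL : KL = M₀ + 5 + (C₁ + 2 * KE + 1) * K₁) (hZ : Z = 8 + 4 * (M₀ + 1) + KL * (M₀ + 4))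
    (hp1 : 1 ≤ p) (hpp : p₀ ≤ p) (hL : 1 ≤ L)
    (e1 : (p + 1) * L ≤ cap) (e3 : p ^ 2 ≤ cap)
    (hlog : lg ≤ n) (hlg : 2 ^ (lg + 1) ≤ 2 * (n + 1)) (hcap : cap ≤ M₀ + lg)
    (hlim : lim = KL * (n / p + lg + cap + 1)) :
    4 * cap ≤ Z * (n + 1) ∧ 2 * n + 2 ≤ Z * (n + 1) ∧ 2 ^ (lg + 1) ≤ Z * (n + 1) ∧
    lg + 1 < lim ∧ 2 * C₁ * K₁ ≤ p ∧ n * p / (lg + 1) < lim ∧ n / p < lim ∧
    (C₁ + 2 * KE + 1) * (K₁ * n / p) + 2 < lim ∧ lim ≤ Z * (n + 1) ∧ 8 * n + 8 ≤ Z * (n + 1) ∧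
    L + p ≤ cap := by
  have hsum : L + p ≤ (p + 1) * L := by nlinarith
  have hZ' : Z * (n + 1) = 8 * (n + 1) + 4 * (M₀ * n + M₀ + n + 1) + KL * (M₀ + 4) * (n + 1) := by
    rw [hZ]; ring
  have hdivp : n / p ≤ n := Nat.div_le_self _ _
  have hnp : n < p * (n / p + 1) := by
    have h1 := Nat.div_add_mod n p
    have h2 := Nat.mod_lt n (by omega : p > 0)
    rw [mul_add, mul_one]
    omega
  generalize n / p = d at *
  have hKL2 : 2 * (d + lg + cap + 1) ≤ KL * (d + lg + cap + 1) :=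
    Nat.mul_le_mul_right _ (by omega)
  refine ⟨?_, ?_, ?_, ?_, ?_, ?_, ?_, ?_, ?_, ?_, ?_⟩
  · rw [hZ']
    have : 0 ≤ M₀ * n := Nat.zero_le _
    omega
  · rw [hZ']; omega
  · rw [hZ']; omega
  · rw [hlim]; omega
  · omega
  · have h1 : p ^ 2 ≤ (M₀ + 1) * (lg + 1) := by
      have : (M₀ + 1) * (lg + 1) = M₀ * lg + M₀ + lg + 1 := by ring
      omega
    have h2 : n * p / (lg + 1) * (lg + 1) ≤ n * p := Nat.div_mul_le_self _ _
    generalize n * p / (lg + 1) = a at *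
    have h3 : a * p ≤ (M₀ + 1) * n := by
      have h4 : a * p * (lg + 1) ≤ (M₀ + 1) * n * (lg + 1) := by
        calc a * p * (lg + 1) = (a * (lg + 1)) * p := by ring
          _ ≤ (n * p) * p := Nat.mul_le_mul_right _ h2
          _ = n * p ^ 2 := by ring
          _ ≤ n * ((M₀ + 1) * (lg + 1)) := Nat.mul_le_mul_left _ h1
          _ = _ := by ring
      exact Nat.le_of_mul_le_mul_right h4 (by omega)
    have h5 : a * p < (M₀ + 1) * (d + 1) * p := by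
      calc a * p ≤ (M₀ + 1) * n := h3
        _ < (M₀ + 1) * (p * (d + 1)) := Nat.mul_lt_mul_of_pos_left hnp (by omega)
        _ = _ := by ring
    have h6 : a < (M₀ + 1) * (d + 1) := Nat.lt_of_mul_lt_mul_right h5
    rw [hlim]
    have h7 : M₀ + 1 ≤ KL := by omega
    calc a < (M₀ + 1) * (d + 1) := h6
      _ ≤ KL * (d + 1) := Nat.mul_le_mul_right _ h7
      _ ≤ _ := Nat.mul_le_mul_left _ (by omega)
  · rw [hlim]; omega
  · have h1 : K₁ * n / p ≤ K₁ * (d + 1) := by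
      apply Nat.div_le_of_le_mul
      calc K₁ * n ≤ K₁ * (p * (d + 1)) := Nat.mul_le_mul_left _ hnp.le
        _ = _ := by ring
    have h2 : (C₁ + 2 * KE + 1) * (K₁ * n / p) ≤ (C₁ + 2 * KE + 1) * K₁ * (d + 1) := by
      calc (C₁ + 2 * KE + 1) * (K₁ * n / p) ≤ (C₁ + 2 * KE + 1) * (K₁ * (d + 1)) :=
            Nat.mul_le_mul_left _ h1
        _ = _ := by ring
    rw [hlim]
    have h3 : (C₁ + 2 * KE + 1) * K₁ + 5 ≤ KL := by omega
    have h4 : ((C₁ + 2 * KE + 1) * K₁ + 5) * (d + 1) ≤ KL * (d + 1) :=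
      Nat.mul_le_mul_right _ h3
    have h5 : KL * (d + 1) ≤ KL * (d + lg + cap + 1) := Nat.mul_le_mul_left _ (by omega)
    have h6 : ((C₁ + 2 * KE + 1) * K₁ + 5) * (d + 1)
        = (C₁ + 2 * KE + 1) * K₁ * (d + 1) + 5 * (d + 1) := by ring
    omega
  · rw [hlim, hZ']
    have h1 : d + lg + cap + 1 ≤ (M₀ + 4) * (n + 1) := by
      have : (M₀ + 4) * (n + 1) = M₀ * n + M₀ + 4 * n + 4 := by ring
      omega
    have h2 : KL * (d + lg + cap + 1) ≤ KL * ((M₀ + 4) * (n + 1)) := Nat.mul_le_mul_left _ h1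
    have h3 : KL * ((M₀ + 4) * (n + 1)) = KL * (M₀ + 4) * (n + 1) := by ring
    omega
  · rw [hZ']; omega
  · omega

end PParamAAux

open PParamAAux

theorem params (KE K₁ C₁ : ℕ) : ∃ p₀ M₀ KL Z : ℕ, 1 ≤ Z ∧ ∀ (inp : ℕ → ℕ) (n : ℕ),
    NumOk KE K₁ C₁ ⟨inp, pcap M₀ n, plim p₀ M₀ KL n, Z * (n + 1)⟩ n (pp p₀ n)
      (BB (pp p₀ n) (24 * pp p₀ n)) (24 * pp p₀ n)
      ((pp p₀ n + 1) ^ BB (pp p₀ n) (24 * pp p₀ n)) (Nat.log 2 n + 1) ∧
    24 * pp p₀ n ≤ Z * (n + 1) ∧ BB (pp p₀ n) (24 * pp p₀ n) ≤ Z * (n + 1) ∧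
    (pp p₀ n + 1) ^ BB (pp p₀ n) (24 * pp p₀ n) ≤ Z * (n + 1) ∧ pcap M₀ n ≤ Z * (n + 1) ∧
    8 * n + 8 ≤ Z * (n + 1) ∧ BB (pp p₀ n) (24 * pp p₀ n) + pp p₀ n ≤ Z * (n + 1) := by
  refine ⟨2 * C₁ * K₁ + 1, GG (26 * (2 * C₁ * K₁ + 1) + 10),
    GG (26 * (2 * C₁ * K₁ + 1) + 10) + 5 + (C₁ + 2 * KE + 1) * K₁,
    8 + 4 * (GG (26 * (2 * C₁ * K₁ + 1) + 10) + 1) +
      (GG (26 * (2 * C₁ * K₁ + 1) + 10) + 5 + (C₁ + 2 * KE + 1) * K₁) *
      (GG (26 * (2 * C₁ * K₁ + 1) + 10) + 4), by omega, ?_⟩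
  intro inp n
  have hF' := main_bound (2 * C₁ * K₁ + 1) (by omega) (Nat.log 2 (Nat.log 2 n))
  obtain ⟨p₀, hp₀⟩ : ∃ p₀, p₀ = 2 * C₁ * K₁ + 1 := ⟨_, rfl⟩
  rw [← hp₀] at hF' ⊢
  obtain ⟨M₀, hM₀⟩ : ∃ M₀, M₀ = GG (26 * p₀ + 10) := ⟨_, rfl⟩
  rw [← hM₀] at hF' ⊢
  obtain ⟨KL, hKL⟩ : ∃ KL, KL = M₀ + 5 + (C₁ + 2 * KE + 1) * K₁ := ⟨_, rfl⟩
  rw [← hKL]
  obtain ⟨Z, hZ⟩ : ∃ Z, Z = 8 + 4 * (M₀ + 1) + KL * (M₀ + 4) := ⟨_, rfl⟩
  rw [← hZ]
  have hlog : Nat.log 2 n ≤ n := Nat.log_le_self 2 n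
  have hloglog : Nat.log 2 (Nat.log 2 n) ≤ Nat.log 2 n := Nat.log_le_self 2 _
  have hF : FF (pp p₀ n) ≤ pcap M₀ n := hF'
  have hp1 : 1 ≤ pp p₀ n := by unfold pp; omega
  have hpp : p₀ ≤ pp p₀ n := by unfold pp; omega
  obtain ⟨e1, e2, e3, e4⟩ := le_FF (pp p₀ n)
  have hBp := BB_pos (pp p₀ n) (24 * pp p₀ n)
  have hcap : pcap M₀ n ≤ M₀ + Nat.log 2 n := by unfold pcap; omega
  have hlim : plim p₀ M₀ KL n = KL * (n / pp p₀ n + Nat.log 2 n + pcap M₀ n + 1) := rfl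
  have hlg : 2 ^ (Nat.log 2 n + 1) ≤ 2 * (n + 1) := by
    rw [pow_succ]
    rcases Nat.eq_zero_or_pos n with h0 | h0
    · subst h0; norm_num
    · have := Nat.pow_log_le_self 2 (x := n) (by omega)
      omega
  obtain ⟨c1, c2, c3, c4, c5, c6, c7, c8, c9, c10, c11⟩ :=
    core KE K₁ C₁ p₀ M₀ KL Z n (pp p₀ n) (BB (pp p₀ n) (24 * pp p₀ n)) (pcap M₀ n)
      (plim p₀ M₀ KL n) (Nat.log 2 n) hp₀ hKL hZ hp1 hpp hBp (e1.trans hF)
      (e3.trans hF) hlog hlg hcap hlim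
  exact ⟨⟨hp1, le_rfl, hBp, rfl, rfl, e2.trans hF, hF, c1, c2, by omega, c3, c4, c5, c6, c7, c8,
    c9⟩, (e2.trans hF).trans (by omega), by omega, (e4.trans hF).trans (by omega), by omega,
    c10, by omega⟩

end Pool.Agent.MP9d6bd1
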