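import Mathlib
import Pool.Agent.Lib.MP_9d6bd1_lc.Spec3

/-!
# MP_9d6bd1_lc: asymptotics of the parameters, part B
-/

set_option autoImplicit false

open Classical

namespace Pool.Agent.MP9d6bd1

namespace PParamBAux

open Filter Asymptotics

theorem pow_le_two_pow (a K : ℕ) : ∃ C : ℕ, ∀ l : ℕ, (a + l) ^ K ≤ C * 2 ^ l := by
  have h : (fun n : ℕ => ((n : ℝ)) ^ K) =o[atTop] fun n : ℕ => (2 : ℝ) ^ n :=
    isLittleO_pow_const_const_pow_of_one_lt K (by norm_num)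
  obtain ⟨N, hN⟩ := eventually_atTop.1 (h.bound (zero_lt_one))
  refine ⟨2 ^ a + N ^ K, fun l => ?_⟩
  rcases le_or_gt N (a + l) with hl | hl
  · have h1 := hN (a + l) hl
    rw [Real.norm_of_nonneg (by positivity), Real.norm_of_nonneg (by positivity), one_mul] at h1
    have h2 : (a + l) ^ K ≤ 2 ^ (a + l) := by exact_mod_cast h1
    calc (a + l) ^ K ≤ 2 ^ (a + l) := h2
      _ = 2 ^ a * 2 ^ l := pow_add _ _ _
      _ ≤ (2 ^ a + N ^ K) * 2 ^ l := by gcongr; omega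
  · calc (a + l) ^ K ≤ N ^ K := Nat.pow_le_pow_left hl.le _
      _ ≤ (2 ^ a + N ^ K) := Nat.le_add_left _ _
      _ ≤ (2 ^ a + N ^ K) * 2 ^ l := Nat.le_mul_of_pos_right _ (by positivity)

theorem tendsto_log : Tendsto (Nat.log 2) atTop atTop :=
  tendsto_atTop_atTop.2 fun b => ⟨2 ^ b, fun a ha => Nat.le_log_of_pow_le (by norm_num) ha⟩

theorem tendsto_pp (p₀ : ℕ) : Tendsto (pp p₀) atTop atTop :=
  tendsto_atTop_mono (fun _ => Nat.le_add_left _ _) (tendsto_log.iterate 6)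

theorem log_le_logb (n : ℕ) : ((Nat.log 2 n : ℕ) : ℝ) ≤ Real.logb 2 n := by
  have := Real.natLog_le_logb n 2
  exact_mod_cast this

theorem isLittleO_log : (fun n : ℕ => ((Nat.log 2 n : ℕ) : ℝ)) =o[atTop] fun n : ℕ => (n : ℝ) := by
  have h1 : (fun n : ℕ => Real.log (n : ℝ)) =o[atTop] fun n : ℕ => (n : ℝ) :=
    Real.isLittleO_log_id_atTop.comp_tendsto tendsto_natCast_atTop_atTop
  have h2 : (fun n : ℕ => ((Nat.log 2 n : ℕ) : ℝ)) =O[atTop] fun n : ℕ => Real.log (n : ℝ) := by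
    refine IsBigO.of_bound (1 / Real.log 2) (Eventually.of_forall fun n => ?_)
    have h3 := log_le_logb n
    have h4 : (0 : ℝ) < Real.log 2 := Real.log_pos (by norm_num)
    have h5 : (0 : ℝ) ≤ Real.log (n : ℝ) := Real.log_natCast_nonneg n
    rw [Real.norm_of_nonneg (by positivity), Real.norm_of_nonneg h5]
    calc ((Nat.log 2 n : ℕ) : ℝ) ≤ Real.logb 2 n := h3
      _ = 1 / Real.log 2 * Real.log n := by rw [Real.logb]; ring
  exact h2.trans_isLittleO h1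

theorem isLittleO_div (p₀ : ℕ) :
    (fun n : ℕ => ((n / pp p₀ n : ℕ) : ℝ)) =o[atTop] fun n : ℕ => (n : ℝ) := by
  refine IsLittleO.of_bound fun c hc => ?_
  have h := (tendsto_pp p₀).eventually (eventually_ge_atTop (⌈1 / c⌉₊ + 1))
  filter_upwards [h] with n hn
  have h1 : (1 / c : ℝ) ≤ pp p₀ n := by
    calc (1 / c : ℝ) ≤ (⌈1 / c⌉₊ : ℝ) := Nat.le_ceil _
      _ ≤ ((⌈1 / c⌉₊ + 1 : ℕ) : ℝ) := by push_cast; linarith
      _ ≤ pp p₀ n := by exact_mod_cast hn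
  have h0 : (0 : ℝ) < pp p₀ n := lt_of_lt_of_le (by positivity) h1
  rw [Real.norm_of_nonneg (by positivity), Real.norm_of_nonneg (by positivity)]
  calc ((n / pp p₀ n : ℕ) : ℝ) ≤ (n : ℝ) / (pp p₀ n : ℝ) := Nat.cast_div_le
    _ ≤ c * n := by
        rw [div_le_iff₀ h0]
        have h2 : 1 ≤ c * pp p₀ n := by
          rw [div_le_iff₀ hc] at h1
          linarith
        have h3 : (0 : ℝ) ≤ n := by positivity
        nlinarith

theorem isLittleO_const (a : ℝ) : (fun _ : ℕ => a) =o[atTop] fun n : ℕ => (n : ℝ) :=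
  (isLittleO_const_id_atTop a).comp_tendsto tendsto_natCast_atTop_atTop

end PParamBAux

open PParamBAux

theorem cap_small (M₀ K : ℕ) : ∃ C' : ℕ, ∀ n : ℕ,
    (pcap M₀ n + 1) ^ K ≤ C' * (Nat.log 2 n + 1) := by
  obtain ⟨C, hC⟩ := pow_le_two_pow (M₀ + 1) K
  refine ⟨C, fun n => ?_⟩
  have h1 := hC (Nat.log 2 (Nat.log 2 n))
  have h2 : 2 ^ Nat.log 2 (Nat.log 2 n) ≤ Nat.log 2 n + 1 := by
    rcases Nat.eq_zero_or_pos (Nat.log 2 n) with h | h
    · simp [h]
    · exact (Nat.pow_log_le_self 2 h.ne').trans (Nat.le_succ _)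
  have h3 : pcap M₀ n + 1 = M₀ + 1 + Nat.log 2 (Nat.log 2 n) := by
    unfold pcap; ring
  rw [h3]
  exact h1.trans (Nat.mul_le_mul_left _ h2)

theorem lim_small (p₀ M₀ KL R : ℕ) (c' : ℕ) (ε : ℝ) (hε : 0 < ε) : ∃ n₀ : ℕ, ∀ n ≥ n₀,
    ∀ w ≤ c' * (Nat.log 2 n + 1),
      (((16 * plim p₀ M₀ KL n + R) * w : ℕ) : ℝ) ≤ ε * (n * Real.logb 2 n) := by
  have hcap : (fun n : ℕ => ((pcap M₀ n : ℕ) : ℝ)) =o[Filter.atTop] fun n : ℕ => (n : ℝ) := by
    have h1 : (fun n : ℕ => (M₀ : ℝ) + ((Nat.log 2 n : ℕ) : ℝ)) =o[Filter.atTop]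
        fun n : ℕ => (n : ℝ) := (isLittleO_const (M₀ : ℝ)).add isLittleO_log
    refine Asymptotics.IsBigO.trans_isLittleO (Asymptotics.IsBigO.of_bound 1
      (Filter.Eventually.of_forall fun n => ?_)) h1
    rw [Real.norm_of_nonneg (by positivity), Real.norm_of_nonneg (by positivity), one_mul]
    unfold pcap
    have : Nat.log 2 (Nat.log 2 n) ≤ Nat.log 2 n := Nat.log_le_self 2 _
    exact_mod_cast (Nat.add_le_add_left this M₀)
  have hf : (fun n : ℕ => ((16 * plim p₀ M₀ KL n + R : ℕ) : ℝ)) =o[Filter.atTop]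
      fun n : ℕ => (n : ℝ) := by
    have h := ((((isLittleO_div p₀).add isLittleO_log).add hcap).add
      (isLittleO_const 1)).const_mul_left (16 * (KL : ℝ))
    have h2 := h.add (isLittleO_const (R : ℝ))
    refine h2.congr_left fun n => ?_
    unfold plim
    push_cast
    ring
  set δ : ℝ := ε / (2 * c' + 1) with hδ
  have hδ0 : 0 < δ := by positivity
  obtain ⟨N, hN⟩ := Filter.eventually_atTop.1 (hf.bound hδ0)
  refine ⟨max N 2, fun n hn w hw => ?_⟩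
  have hn2 : 2 ≤ n := le_trans (le_max_right _ _) hn
  have h1 := hN n (le_trans (le_max_left _ _) hn)
  rw [Real.norm_of_nonneg (by positivity), Real.norm_of_nonneg (by positivity)] at h1
  have hlog1 : 1 ≤ Nat.log 2 n := Nat.le_log_of_pow_le (by norm_num) (by simpa using hn2)
  have hw2 : w ≤ 2 * c' * Nat.log 2 n := by
    calc w ≤ c' * (Nat.log 2 n + 1) := hw
      _ ≤ c' * (Nat.log 2 n + Nat.log 2 n) := by gcongr
      _ = 2 * c' * Nat.log 2 n := by ring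
  have hw3 : (w : ℝ) ≤ (2 * c' + 1) * Real.logb 2 n := by
    have h4 : (w : ℝ) ≤ 2 * c' * (Nat.log 2 n : ℕ) := by exact_mod_cast hw2
    have h5 := log_le_logb n
    have h6 : (0 : ℝ) ≤ (Nat.log 2 n : ℕ) := by positivity
    have h7 : (0 : ℝ) ≤ c' := by positivity
    nlinarith
  have hlb : (0 : ℝ) ≤ Real.logb 2 n := le_trans (by positivity) (log_le_logb n)
  rw [Nat.cast_mul]
  calc ((16 * plim p₀ M₀ KL n + R : ℕ) : ℝ) * (w : ℝ)
      ≤ (δ * n) * ((2 * c' + 1) * Real.logb 2 n) := by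
        apply mul_le_mul h1 hw3 (by positivity) (by positivity)
    _ = ε * (n * Real.logb 2 n) := by
        rw [hδ]; field_simp

end Pool.Agent.MP9d6bd1
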