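import Mathlib
import Pool.Agent.Lib.MP_9d6bd1_lc.Spec3
import Pool.Agent.Lib.MP_9d6bd1_lc.EvLib
import Pool.Agent.Lib.MP_9d6bd1_lc.RunLib

/-!
# MP_9d6bd1_lc, module P24: the preamble
-/

set_option autoImplicit false

open Classical

namespace Pool.Agent.MP9d6bd1

namespace PPreAux

/-- assertion: the variables in `K` have their final values, the memory is empty -/
def A (F : ℕ → ℕ) (K : List ℕ) (τ : St) : Prop :=
  (∀ x ∈ K, τ.g x = F x) ∧ ∀ b r, τ.m b r = 0

/-- Hoare triples with costs -/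
def H (κ : Par) (s : S) (P Q : St → Prop) (c : ℕ) : Prop :=
  ∀ σ, P σ → Q (s.run κ σ) ∧ s.cost κ σ ≤ c

theorem H.seq {κ : Par} {s t : S} {P Q R : St → Prop} {c d : ℕ} (h1 : H κ s P Q c)
    (h2 : H κ t Q R d) : H κ (.seq s t) P R (c + d) := by
  intro σ hσ
  obtain ⟨h3, h4⟩ := h1 σ hσ
  obtain ⟨h5, h6⟩ := h2 _ h3
  exact ⟨h5, Nat.add_le_add h4 h6⟩

theorem A.set {F : ℕ → ℕ} {K : List ℕ} {τ : St} (h : A F K τ) (x : ℕ) :
    A F (x :: K) ⟨Function.update τ.g x (F x), τ.m⟩ := by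
  refine ⟨fun y hy => ?_, h.2⟩
  by_cases hyx : y = x
  · subst hyx
    simp
  · have : y ∈ K := by
      rcases List.mem_cons.mp hy with h1 | h1
      · exact absurd h1 hyx
      · exact h1
    simp only [Function.update_of_ne hyx]
    exact h.1 y this

theorem A.other {F : ℕ → ℕ} {K : List ℕ} {τ : St} (h : A F K τ) (x v : ℕ) (hx : x ∉ K) :
    A F K ⟨Function.update τ.g x v, τ.m⟩ := by
  refine ⟨fun y hy => ?_, h.2⟩
  have hyx : y ≠ x := fun h1 => hx (h1 ▸ hy)
  simp only [Function.update_of_ne hyx]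
  exact h.1 y hy

theorem H.set {κ : Par} {F : ℕ → ℕ} {K : List ℕ} (x : ℕ) (e : E)
    (he : ∀ τ, A F K τ → min (e.ev κ τ []) κ.top = F x) :
    H κ (.set x e) (A F K) (A F (x :: K)) 1 := by
  intro σ hσ
  refine ⟨?_, le_rfl⟩
  have h1 : (S.set x e).run κ σ = ⟨Function.update σ.g x (F x), σ.m⟩ := by
    simp only [S.run, he σ hσ]
  rw [h1]
  exact hσ.set x

/-- logarithms -/
theorem H.log {κ : Par} {F : ℕ → ℕ} {K : List ℕ} (x y : ℕ) (hx : x ∈ K) (hy : y ∉ K)
    (h23 : 23 ∉ K) (h35 : 35 ∉ K) (hxt : F x ≤ κ.top) (h1 : 1 ≤ κ.top)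
    (hy23 : y ≠ 23) (hy35 : y ≠ 35) (hF : F y = Nat.log 2 (F x)) :
    H κ (logS x y) (A F K) (A F (y :: K)) (3 + 4 * F x) := by
  have hx23 : x ≠ 23 := fun h => h23 (h ▸ hx)
  have hx35 : x ≠ 35 := fun h => h35 (h ▸ hx)
  have hxy : x ≠ y := fun h => hy (h ▸ hx)
  -- the invariant
  set I : ℕ → St → Prop := fun i τ => A F K τ ∧ τ.g y = min i (Nat.log 2 (F x)) ∧
    τ.g 35 = 2 ^ τ.g y with hI
  have hstep : ∀ i < F x, ∀ τ, I i τ →
      I (i + 1) ((S.ite (E.less (.g x) (2 * .g 35)) .skip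
        (seqs [.set 35 (2 * .g 35), .set y (.g y + 1)])).run κ
          ⟨Function.update τ.g 23 i, τ.m⟩) ∧
      (S.ite (E.less (.g x) (2 * .g 35)) .skip
        (seqs [.set 35 (2 * .g 35), .set y (.g y + 1)])).cost κ
          ⟨Function.update τ.g 23 i, τ.m⟩ ≤ 3 := by
    intro i hi τ hτ
    obtain ⟨hA, hgy, hg35⟩ := hτ
    have hgx : τ.g x = F x := hA.1 x hx
    have hFx : F x ≠ 0 := by omega
    have hA' : A F K ⟨Function.update τ.g 23 i, τ.m⟩ := hA.other 23 i h23
    have e1 : (E.less (.g x) (2 * .g 35) : E).ev κ ⟨Function.update τ.g 23 i, τ.m⟩ [] =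
        if F x < 2 * 2 ^ τ.g y then 1 else 0 := by
      have ea : (E.g x).ev κ ⟨Function.update τ.g 23 i, τ.m⟩ [] = F x := by
        show Function.update τ.g 23 i x = F x
        rw [Function.update_of_ne hx23, hgx]
      have eb : (2 * E.g 35 : E).ev κ ⟨Function.update τ.g 23 i, τ.m⟩ [] = 2 * 2 ^ τ.g y := by
        show 2 * Function.update τ.g 23 i 35 = _
        rw [Function.update_of_ne (by norm_num : (35 : ℕ) ≠ 23), hg35]
      rw [ev_less, ea, eb]
    by_cases hc : F x < 2 * 2 ^ τ.g y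
    · have hlog : Nat.log 2 (F x) ≤ τ.g y := by
        have : Nat.log 2 (F x) < τ.g y + 1 := by
          apply Nat.log_lt_of_lt_pow hFx
          rw [pow_succ]
          omega
        omega
      have hrun : ((S.ite (E.less (.g x) (2 * .g 35)) .skip
        (seqs [.set 35 (2 * .g 35), .set y (.g y + 1)])).run κ
          ⟨Function.update τ.g 23 i, τ.m⟩) = ⟨Function.update τ.g 23 i, τ.m⟩ := by
        simp only [S.run, e1, if_pos hc]
        rfl
      have hcost : (S.ite (E.less (.g x) (2 * .g 35)) .skip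
        (seqs [.set 35 (2 * .g 35), .set y (.g y + 1)])).cost κ
          ⟨Function.update τ.g 23 i, τ.m⟩ ≤ 3 := by
        simp only [S.cost, e1, if_pos hc]
        norm_num
      refine ⟨?_, hcost⟩
      rw [hrun]
      refine ⟨hA', ?_, ?_⟩
      · show Function.update τ.g 23 i y = _
        rw [Function.update_of_ne hy23, hgy]
        omega
      · show Function.update τ.g 23 i 35 = 2 ^ Function.update τ.g 23 i y
        rw [Function.update_of_ne hy23, Function.update_of_ne (by norm_num : (35 : ℕ) ≠ 23), hg35]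
    · have hlog : τ.g y + 1 ≤ Nat.log 2 (F x) := by
        apply Nat.le_log_of_pow_le (by norm_num)
        rw [pow_succ]
        omega
      have hle : 2 * 2 ^ τ.g y ≤ κ.top := by omega
      have hyt : τ.g y + 1 ≤ κ.top := by
        have := Nat.log_le_self 2 (F x)
        omega
      set ρ : St := ⟨Function.update (Function.update (Function.update τ.g 23 i) 35
        (2 * 2 ^ τ.g y)) y (τ.g y + 1), τ.m⟩ with hρ
      have hrun : ((S.ite (E.less (.g x) (2 * .g 35)) .skip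
        (seqs [.set 35 (2 * .g 35), .set y (.g y + 1)])).run κ
          ⟨Function.update τ.g 23 i, τ.m⟩) = ρ := by
        simp only [S.run, e1, if_neg hc, seqs, ev_mul, ev_ofNat, ev_g, ev_add]
        rw [Function.update_of_ne (by norm_num : (35 : ℕ) ≠ 23), hg35, min_eq_left hle,
          Function.update_of_ne hy35, Function.update_of_ne hy23, min_eq_left hyt]
        simp [hρ]
      have hcost : (S.ite (E.less (.g x) (2 * .g 35)) .skip
        (seqs [.set 35 (2 * .g 35), .set y (.g y + 1)])).cost κ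
          ⟨Function.update τ.g 23 i, τ.m⟩ ≤ 3 := by
        simp only [S.cost, e1, if_neg hc, seqs]
        norm_num
      refine ⟨?_, hcost⟩
      rw [hrun]
      refine ⟨?_, ?_, ?_⟩
      · exact ((hA'.other 35 (2 * 2 ^ τ.g y) h35).other y (τ.g y + 1) hy)
      · simp only [hρ, Function.update_self]
        omega
      · simp only [hρ, Function.update_self]
        rw [Function.update_of_ne (Ne.symm hy35), Function.update_self, pow_succ, mul_comm]
  intro σ hσ
  set σ₁ : St := ⟨Function.update (Function.update σ.g y 0) 35 1, σ.m⟩ with hσ₁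
  have hrun1 : (logS x y).run κ σ = (S.loop 23 (.g x) (.ite (E.less (.g x) (2 * .g 35)) .skip
    (seqs [.set 35 (2 * .g 35), .set y (.g y + 1)]))).run κ σ₁ := by
    have e0 : min ((0 : E).ev κ σ []) κ.top = 0 := by simp
    have e2 : ∀ τ : St, min ((1 : E).ev κ τ []) κ.top = 1 := by
      intro τ
      simp [h1]
    show S.run κ (S.loop 23 (.g x) _) (S.run κ (S.set 35 1) (S.run κ (S.set y 0) σ)) = _
    congr 1
    simp only [S.run, e0, e2, hσ₁]
  have hA1 : A F K σ₁ := (hσ.other y 0 hy).other 35 1 h35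
  have hgx1 : σ₁.g x = F x := hA1.1 x hx
  have hn : min ((E.g x).ev κ σ₁ []) κ.top = F x := by
    rw [ev_g, hgx1, min_eq_left hxt]
  have hI0 : I 0 σ₁ := by
    refine ⟨hA1, ?_, ?_⟩
    · simp only [hσ₁]
      rw [Function.update_of_ne hy35, Function.update_self]
      simp
    · simp only [hσ₁]
      rw [Function.update_self, Function.update_of_ne hy35, Function.update_self]
      simp
  constructor
  · rw [hrun1]
    have := loop_inv κ 23 (.g x) (.ite (E.less (.g x) (2 * .g 35)) .skip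
      (seqs [.set 35 (2 * .g 35), .set y (.g y + 1)])) σ₁ (F x) hn I hI0
      (fun i hi τ hτ => (hstep i hi τ hτ).1)
    obtain ⟨hA2, hg2, _⟩ := this
    refine ⟨fun z hz => ?_, hA2.2⟩
    rcases List.mem_cons.mp hz with h2 | h2
    · rw [h2, hg2, hF]
      apply min_eq_right
      exact Nat.log_le_self 2 (F x)
    · exact hA2.1 z h2
  · have h3 := loop_cost κ 23 (.g x) (.ite (E.less (.g x) (2 * .g 35)) .skip
      (seqs [.set 35 (2 * .g 35), .set y (.g y + 1)])) σ₁ (F x) hn I (fun _ => 3) hI0 hstep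
    have h4 : (logS x y).cost κ σ = 1 + (1 + (S.loop 23 (.g x)
      (.ite (E.less (.g x) (2 * .g 35)) .skip
        (seqs [.set 35 (2 * .g 35), .set y (.g y + 1)]))).cost κ σ₁) := by
      have e0 : min ((0 : E).ev κ σ []) κ.top = 0 := by simp
      have e2 : ∀ τ : St, min ((1 : E).ev κ τ []) κ.top = 1 := by
        intro τ
        simp [h1]
      show 1 + (1 + S.cost κ (S.loop 23 (.g x) _)
        (S.run κ (S.set 35 1) (S.run κ (S.set y 0) σ))) = _
      congr 3
      simp only [S.run, e0, e2, hσ₁]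
    rw [h4]
    rw [Finset.sum_const, Finset.card_range, smul_eq_mul] at h3
    omega

/-- loops that compute one variable -/
theorem H.loop {κ : Par} {F : ℕ → ℕ} {K : List ℕ} (x y : ℕ) (e : E) (f : ℕ → ℕ) (hx : x ∈ K)
    (hy : y ∉ K) (hy23 : y ≠ 23) (h23 : 23 ∉ K) (hxt : F x ≤ κ.top) (hF : F y = f (F x))
    (hf : ∀ i < F x, ∀ τ, A F K τ → τ.g y = f i → min (e.ev κ τ []) κ.top = f (i + 1)) :
    H κ (.loop 23 (.g x) (.set y e)) (fun τ => A F K τ ∧ τ.g y = f 0) (A F (y :: K))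
      (1 + 2 * F x) := by
  have hx23 : x ≠ 23 := fun h => h23 (h ▸ hx)
  set I : ℕ → St → Prop := fun i τ => A F K τ ∧ τ.g y = f i with hI
  have hstep : ∀ i < F x, ∀ τ, I i τ →
      I (i + 1) ((S.set y e).run κ ⟨Function.update τ.g 23 i, τ.m⟩) ∧
      (S.set y e).cost κ ⟨Function.update τ.g 23 i, τ.m⟩ ≤ 1 := by
    intro i hi τ hτ
    obtain ⟨hA, hgy⟩ := hτ
    have hA' : A F K ⟨Function.update τ.g 23 i, τ.m⟩ := hA.other 23 i h23
    have hgy' : (⟨Function.update τ.g 23 i, τ.m⟩ : St).g y = f i := by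
      show Function.update τ.g 23 i y = f i
      rw [Function.update_of_ne hy23, hgy]
    have h1 := hf i hi _ hA' hgy'
    refine ⟨?_, le_rfl⟩
    have h2 : (S.set y e).run κ ⟨Function.update τ.g 23 i, τ.m⟩ =
        ⟨Function.update (Function.update τ.g 23 i) y (f (i + 1)), τ.m⟩ := by
      simp only [S.run, h1]
    rw [h2]
    refine ⟨hA'.other y _ hy, ?_⟩
    simp
  intro σ hσ
  have hn : min ((E.g x).ev κ σ []) κ.top = F x := by
    rw [ev_g, hσ.1.1 x hx, min_eq_left hxt]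
  constructor
  · obtain ⟨h2, h3⟩ := loop_inv κ 23 (.g x) (.set y e) σ (F x) hn I hσ
      (fun i hi τ hτ => (hstep i hi τ hτ).1)
    refine ⟨fun z hz => ?_, h2.2⟩
    rcases List.mem_cons.mp hz with h4 | h4
    · rw [h4, h3, hF]
    · exact h2.1 z h4
  · have h3 := loop_cost κ 23 (.g x) (.set y e) σ (F x) hn I (fun _ => 1) hσ hstep
    rw [Finset.sum_const, Finset.card_range, smul_eq_mul] at h3
    omega

/-- initialisation of a variable computed by a loop -/
theorem H.init {κ : Par} {F : ℕ → ℕ} {K : List ℕ} (y : ℕ) (e : E) (v : ℕ) (hy : y ∉ K)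
    (he : ∀ τ, A F K τ → min (e.ev κ τ []) κ.top = v) :
    H κ (.set y e) (A F K) (fun τ => A F K τ ∧ τ.g y = v) 1 := by
  intro σ hσ
  refine ⟨?_, le_rfl⟩
  have h1 : (S.set y e).run κ σ = ⟨Function.update σ.g y v, σ.m⟩ := by
    simp only [S.run, he σ hσ]
  rw [h1]
  refine ⟨hσ.other y v hy, ?_⟩
  simp

theorem BB_mono (D : ℕ) {i j : ℕ} (h : i ≤ j) : BB D i ≤ BB D j := by
  induction h with
  | refl => exact le_rfl
  | step _ ih => exact ih.trans (Nat.le_add_right _ _)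

end PPreAux

open PPreAux

theorem pre_run (p₀ M₀ KL : ℕ) (κ : Par) (n : ℕ) (hn : κ.inp 0 = n) (h0 : κ.cap = 0)
    (h1 : κ.lim = 0) (ht : 6 * n + 2 ≤ κ.top) (hp : 24 * pp p₀ n ≤ κ.top)
    (hL : BB (pp p₀ n) (24 * pp p₀ n) ≤ κ.top)
    (hX : (pp p₀ n + 1) ^ BB (pp p₀ n) (24 * pp p₀ n) ≤ κ.top)
    (hM : pcap M₀ n ≤ κ.top) (hl : plim p₀ M₀ KL n ≤ κ.top) :
    let τ := (preS p₀ M₀ KL).run κ st0
    τ.g 1 = pcap M₀ n ∧ τ.g 2 = plim p₀ M₀ KL n ∧ τ.g 3 = n ∧ τ.g 4 = pp p₀ n ∧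
    τ.g 5 = BB (pp p₀ n) (24 * pp p₀ n) ∧
    τ.g 6 = (pp p₀ n + 1) ^ BB (pp p₀ n) (24 * pp p₀ n) ∧ τ.g 7 = 24 * pp p₀ n ∧
    τ.g 8 = Nat.log 2 n + 1 ∧ τ.g 9 = pp p₀ n ∧
    τ.g 10 = (if 6 * n < min (κ.inp (n + 1)) κ.top - min (κ.inp 1) κ.top then 1 else 0) ∧
    τ.g 20 = 1 ∧ (∀ b r, τ.m b r = 0) ∧
    (preS p₀ M₀ KL).cost κ st0 ≤
      1000 * (n + BB (pp p₀ n) (24 * pp p₀ n) + pp p₀ n + 1) := by
  have _ := h0
  have _ := h1
  set p := pp p₀ n with hpdef
  set L := BB p (24 * p) with hLdef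
  -- final values
  set F : ℕ → ℕ := fun x =>
    if x = 1 then pcap M₀ n else if x = 2 then plim p₀ M₀ KL n else if x = 3 then n else
    if x = 4 then p else if x = 5 then L else if x = 6 then (p + 1) ^ L else
    if x = 7 then 24 * p else if x = 8 then Nat.log 2 n + 1 else if x = 9 then p else
    if x = 10 then (if 6 * n < min (κ.inp (n + 1)) κ.top - min (κ.inp 1) κ.top then 1 else 0) else
    if x = 20 then 1 else if x = 37 then Nat.log 2 n else if x = 38 then (Nat.log 2)^[2] n else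
    if x = 39 then (Nat.log 2)^[3] n else if x = 40 then (Nat.log 2)^[4] n else
    if x = 41 then (Nat.log 2)^[5] n else if x = 42 then (Nat.log 2)^[6] n else 0 with hF
  have ht1 : 1 ≤ κ.top := by omega
  have hlog : ∀ k, (Nat.log 2)^[k] n ≤ n := by
    intro k
    induction k with
    | zero => exact le_rfl
    | succ k ih =>
      rw [Function.iterate_succ_apply']
      exact (Nat.log_le_self _ _).trans ih
  have hs : ∀ k, (Nat.log 2)^[k + 1] n = Nat.log 2 ((Nat.log 2)^[k] n) := fun k =>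
    Function.iterate_succ_apply' _ _ _
  have hlogn : Nat.log 2 n ≤ n := Nat.log_le_self _ _
  have F1 : F 1 = pcap M₀ n := rfl
  have F2 : F 2 = plim p₀ M₀ KL n := rfl
  have F3 : F 3 = n := rfl
  have F4 : F 4 = p := rfl
  have F5 : F 5 = L := rfl
  have F6 : F 6 = (p + 1) ^ L := rfl
  have F7 : F 7 = 24 * p := rfl
  have F8 : F 8 = Nat.log 2 n + 1 := rfl
  have F9 : F 9 = p := rfl
  have F10 : F 10 = (if 6 * n < min (κ.inp (n + 1)) κ.top - min (κ.inp 1) κ.top then 1 else 0) :=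
    rfl
  have F20 : F 20 = 1 := rfl
  have F37 : F 37 = (Nat.log 2)^[1] n := rfl
  have F38 : F 38 = (Nat.log 2)^[2] n := rfl
  have F39 : F 39 = (Nat.log 2)^[3] n := rfl
  have F40 : F 40 = (Nat.log 2)^[4] n := rfl
  have F41 : F 41 = (Nat.log 2)^[5] n := rfl
  have F42 : F 42 = (Nat.log 2)^[6] n := rfl
  clear_value F
  have l1 : (Nat.log 2)^[1] n = Nat.log 2 n := rfl
  have l2 : (Nat.log 2)^[2] n = Nat.log 2 (Nat.log 2 n) := rfl
  have G3 : F 3 ≤ n := F3.le
  have G37 : F 37 ≤ n := F37.le.trans (hlog 1)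
  have G38 : F 38 ≤ n := F38.le.trans (hlog 2)
  have G39 : F 39 ≤ n := F39.le.trans (hlog 3)
  have G40 : F 40 ≤ n := F40.le.trans (hlog 4)
  have G41 : F 41 ≤ n := F41.le.trans (hlog 5)
  have hnt : n ≤ κ.top := by omega
  have hA0 : A F [] st0 := ⟨by simp, fun _ _ => rfl⟩
  have key : H κ (preS p₀ M₀ KL) (A F [])
      (A F [10, 20, 2, 1, 8, 6, 5, 7, 4, 9, 42, 41, 40, 39, 38, 37, 3])
      (1000 * (n + L + p + 1)) := by
    have step : ∀ {c : ℕ}, H κ (preS p₀ M₀ KL) (A F [])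
        (A F [10, 20, 2, 1, 8, 6, 5, 7, 4, 9, 42, 41, 40, 39, 38, 37, 3]) c →
        c ≤ 1000 * (n + L + p + 1) →
        H κ (preS p₀ M₀ KL) (A F [])
          (A F [10, 20, 2, 1, 8, 6, 5, 7, 4, 9, 42, 41, 40, 39, 38, 37, 3])
          (1000 * (n + L + p + 1)) := fun h hc σ hσ => ⟨(h σ hσ).1, (h σ hσ).2.trans hc⟩
    refine step (H.seq (H.set 3 _ ?_) (H.seq (H.log 3 37 (by simp) (by simp) (by simp) (by simp)
      (G3.trans hnt) ht1 (by simp) (by simp) ?_)
      (H.seq (H.log 37 38 (by simp) (by simp) (by simp) (by simp)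
      (G37.trans hnt) ht1 (by simp) (by simp) ?_)
      (H.seq (H.log 38 39 (by simp) (by simp) (by simp) (by simp)
      (G38.trans hnt) ht1 (by simp) (by simp) ?_)
      (H.seq (H.log 39 40 (by simp) (by simp) (by simp) (by simp)
      (G39.trans hnt) ht1 (by simp) (by simp) ?_)
      (H.seq (H.log 40 41 (by simp) (by simp) (by simp) (by simp)
      (G40.trans hnt) ht1 (by simp) (by simp) ?_)
      (H.seq (H.log 41 42 (by simp) (by simp) (by simp) (by simp)
      (G41.trans hnt) ht1 (by simp) (by simp) ?_) (H.seq (H.set 9 _ ?_) (H.seq (H.set 4 _ ?_)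
      (H.seq (H.set 7 _ ?_) (H.seq (H.init 5 _ (BB p 0) (by simp) ?_)
      (H.seq (H.loop 7 5 _ (BB p) (by simp) (by simp) (by simp) (by simp) ?_ ?_ ?_)
      (H.seq (H.init 6 _ ((p + 1) ^ 0) (by simp) ?_)
      (H.seq (H.loop 5 6 _ (fun i => (p + 1) ^ i) (by simp) (by simp) (by simp) (by simp) ?_ ?_ ?_)
      (H.seq (H.set 8 _ ?_) (H.seq (H.set 1 _ ?_) (H.seq (H.set 2 _ ?_) (H.seq (H.set 20 _ ?_)
      (H.set 10 _ ?_)))))))))))))))))))  ?_
    · intro τ _
      rw [F3]
      simp [hn, hnt]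
    · rw [F37, F3]; rfl
    · rw [F38, F37]; rfl
    · rw [F39, F38]; exact hs 2
    · rw [F40, F39]; exact hs 3
    · rw [F41, F40]; exact hs 4
    · rw [F42, F41]; exact hs 5
    · -- 9
      intro τ hτ
      have h42 : τ.g 42 = (Nat.log 2)^[6] n := (hτ.1 42 (by simp)).trans F42
      rw [ev_add, ev_c, ev_g, h42, F9]
      have : p₀ + (Nat.log 2)^[6] n = p := rfl
      rw [this, min_eq_left (by omega)]
    · -- 4
      intro τ hτ
      have h9 : τ.g 9 = p := (hτ.1 9 (by simp)).trans F9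
      rw [ev_g, h9, min_eq_left (by omega), F4]
    · -- 7
      intro τ hτ
      have h9 : τ.g 9 = p := (hτ.1 9 (by simp)).trans F9
      rw [ev_mul, ev_ofNat, ev_g, h9, min_eq_left (by omega), F7]
    · -- 5
      intro τ hτ
      rw [ev_one, min_eq_left ht1]
      rfl
    · rw [F7]; exact hp
    · rw [F5, F7]
    · intro i hi τ hτ h5
      rw [F7] at hi
      have h4 : τ.g 4 = p := (hτ.1 4 (by simp)).trans F4
      rw [ev_add, ev_mul, ev_mul, ev_g, ev_g, h5, h4]
      have hi' : i + 1 ≤ 24 * p := hi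
      have h6 : BB p (i + 1) ≤ κ.top := (BB_mono p hi').trans hL
      exact min_eq_left h6
    · intro τ hτ
      rw [ev_one, min_eq_left ht1]
      rfl
    · rw [F5]; exact hL
    · rw [F6, F5]
    · intro i hi τ hτ h6
      rw [F5] at hi
      have h4 : τ.g 4 = p := (hτ.1 4 (by simp)).trans F4
      rw [ev_mul, ev_add, ev_g, ev_g, ev_one, h6, h4]
      have hi' : i + 1 ≤ L := hi
      have h7 : (p + 1) ^ (i + 1) ≤ κ.top := (Nat.pow_le_pow_right (by omega) hi').trans hX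
      rw [pow_succ] at h7
      show min ((p + 1) ^ i * (p + 1)) κ.top = (p + 1) ^ (i + 1)
      rw [pow_succ]
      exact min_eq_left h7
    · -- 8
      intro τ hτ
      have h37 : τ.g 37 = Nat.log 2 n := (hτ.1 37 (by simp)).trans F37
      rw [ev_add, ev_g, ev_one, h37, min_eq_left (by omega), F8]
    · -- 1
      intro τ hτ
      have h38 : τ.g 38 = Nat.log 2 (Nat.log 2 n) := (hτ.1 38 (by simp)).trans F38
      rw [ev_add, ev_g, ev_c, h38, F1]
      exact min_eq_left hM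
    · -- 2
      intro τ hτ
      have h3 : τ.g 3 = n := (hτ.1 3 (by simp)).trans F3
      have h9 : τ.g 9 = p := (hτ.1 9 (by simp)).trans F9
      have h37 : τ.g 37 = Nat.log 2 n := (hτ.1 37 (by simp)).trans F37
      have h1 : τ.g 1 = pcap M₀ n := (hτ.1 1 (by simp)).trans F1
      rw [ev_mul, ev_add, ev_add, ev_add, ev_div, ev_c, ev_g, ev_g, ev_g, ev_g, ev_one, h3, h9,
        h37, h1, F2]
      exact min_eq_left hl
    · -- 20
      intro τ hτ
      rw [ev_one, min_eq_left ht1, F20]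
    · -- 10
      intro τ hτ
      have h3 : τ.g 3 = n := (hτ.1 3 (by simp)).trans F3
      have e1 : (6 * E.g 3 : E).ev κ τ [] = 6 * n := by
        rw [ev_mul, ev_ofNat, ev_g, h3]
      have e2 : (E.inp (.g 3 + 1) - .inp 1 : E).ev κ τ [] =
          min (κ.inp (n + 1)) κ.top - min (κ.inp 1) κ.top := by
        rw [ev_sub, ev_inp, ev_inp, ev_add, ev_g, ev_one, h3]
      rw [ev_less, e1, e2, F10]
      split_ifs
      · exact min_eq_left ht1
      · simp
    · rw [F5, F7]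
      clear F1 F2 F3 F4 F6 F8 F9 F10 F20 F37 F38 F39 F40 F41 F42 hX hM hl hL hp h0 h1 hn
      clear hlog hs
      omega
  obtain ⟨⟨h2, h3⟩, h4⟩ := key st0 hA0
  exact ⟨(h2 1 (by simp)).trans F1, (h2 2 (by simp)).trans F2, (h2 3 (by simp)).trans F3,
    (h2 4 (by simp)).trans F4, (h2 5 (by simp)).trans F5, (h2 6 (by simp)).trans F6,
    (h2 7 (by simp)).trans F7, (h2 8 (by simp)).trans F8, (h2 9 (by simp)).trans F9,
    (h2 10 (by simp)).trans F10, (h2 20 (by simp)).trans F20, h3, h4⟩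

end Pool.Agent.MP9d6bd1
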