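import Mathlib
import Pool.Agent.Lib.MP_9d6bd1_lc.Spec3
import Pool.Agent.Lib.MP_9d6bd1_lc.PAdeq
import Pool.Agent.Lib.MP_9d6bd1_lc.PMain
import Pool.Agent.Lib.MP_9d6bd1_lc.PPre
import Pool.Agent.Lib.MP_9d6bd1_lc.PParamA
import Pool.Agent.Lib.MP_9d6bd1_lc.PParamB
import Pool.Agent.Lib.MP_9d6bd1_lc.PInput
import Pool.Agent.Lib.MP_9d6bd1_lc.GGadget

/-!
# MP_9d6bd1_lc: the planarity test (final assembly)
-/

set_option autoImplicit false

open Classical

namespace Pool.Agent.MP9d6bd1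

/-- the number of entries is at most `n ^ 2` -/
theorem end_le {n : ℕ} {G : SimpleGraph (Fin n)} {inp : ℕ → ℕ} (hG : AdjArrays G inp) :
    inp (n + 1) ≤ n + 2 + n * n := by
  have h1 : ∀ v ≤ n, inp (v + 1) ≤ n + 2 + v * n := by
    intro v hv
    induction v with
    | zero => rw [hG.start]; omega
    | succ v ih =>
      have h2 := ih (by omega)
      have h3 : inp (v + 2) - inp (v + 1) ≤ n := by
        have h4 : ((Finset.Ico (inp (v + 1)) (inp (v + 2))).image inp).card ≤ n := by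
          have h5 : (Finset.Ico (inp (v + 1)) (inp (v + 2))).image inp ⊆ Finset.range n := by
            intro x hx
            obtain ⟨p, hp, rfl⟩ := Finset.mem_image.mp hx
            have := Finset.mem_Ico.mp hp
            exact Finset.mem_range.mpr (hG.mem ⟨v, by omega⟩ p this.1 this.2)
          simpa using Finset.card_le_card h5
        rw [Finset.card_image_of_injOn] at h4
        · simpa using h4
        · intro p hp q hq hpq
          have h6 := Finset.mem_Ico.mp hp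
          have h7 := Finset.mem_Ico.mp hq
          exact hG.inj ⟨v, by omega⟩ p q h6.1 h6.2 h7.1 h7.2 hpq
      have h8 := hG.mono v (by omega)
      have h9 : (v + 1) * n = v * n + n := by ring
      show inp (v + 2) ≤ _
      omega
  exact h1 n le_rfl

theorem final : ∃ (P : List Instr) (c C : ℕ) (s : ℕ → ℕ),
    (∀ (n : ℕ) (G : SimpleGraph (Fin n)) (inp : ℕ → ℕ), AdjArrays G inp →
      ∀ w : ℕ, c * (Nat.log 2 n + 1) ≤ w →
        ∃ T ≤ C * (n + 1) * (Nat.log 2 n + 1), Decides P w inp (s n) T (Planar G)) ∧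
    ∀ (c' : ℕ) (ε : ℝ), 0 < ε → ∃ n₀ : ℕ, ∀ n ≥ n₀, ∀ w ≤ c' * (Nat.log 2 n + 1),
      (((s n + numRegs P) * w : ℕ) : ℝ) ≤ ε * (n * Real.logb 2 n) := by
  obtain ⟨Cg, hCg⟩ := gadget
  set KE := 39 + 51 * Cg with hKE
  set K₁ := 4 * KE with hK₁
  set C₁ := 1 + 17 * Cg with hC₁
  obtain ⟨p₀, M₀, KL, Z, hZ, hpar⟩ := params KE K₁ C₁
  obtain ⟨P, K, hP⟩ := adequacy (preS p₀ M₀ KL) (mainS Cg KE K₁ C₁) Z hZ
  -- constants
  obtain ⟨C', hC'⟩ := cap_small M₀ (K + 2)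
  -- word length: top < 2 ^ w and n + 2 + n * n < 2 ^ w
  obtain ⟨a, ha⟩ : ∃ a, Z ≤ 2 ^ a := ⟨Z, Nat.lt_two_pow_self.le⟩
  refine ⟨P, K + a + 4, K * (1000 * (Z + 2) + (30000 + 3000 * KE + 3000 * C₁) * 2 * C' + 1), 
    fun n => 16 * plim p₀ M₀ KL n, ?_, fun c' ε hε => lim_small p₀ M₀ KL (numRegs P) c' ε hε⟩
  intro n G inp hG w hw
  have h2n : n < 2 ^ (Nat.log 2 n + 1) := Nat.lt_pow_succ_log_self (by norm_num) n
  set g := Nat.log 2 n + 1 with hg
  have hg1 : 1 ≤ g := by omega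
  have hwK : K * g ≤ w := le_trans (Nat.mul_le_mul_right _ (by omega)) hw
  have hpow1 : 2 ^ (a + 4 * g) ≤ 2 ^ w := by
    refine Nat.pow_le_pow_right (by norm_num) (le_trans ?_ hw)
    nlinarith
  have hn1 : n + 1 ≤ 2 ^ g := h2n
  have h16 : 2 ^ (a + 4 * g) = 2 ^ a * (2 ^ g * 2 ^ g * (2 ^ g * 2 ^ g)) := by
    rw [pow_add, show 4 * g = g + g + (g + g) by ring, pow_add, pow_add]
  have hgp : 2 ≤ 2 ^ g := by
    calc 2 = 2 ^ 1 := by norm_num
      _ ≤ 2 ^ g := Nat.pow_le_pow_right (by norm_num) hg1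
  have hap : 1 ≤ 2 ^ a := Nat.one_le_two_pow
  have htopw : Z * (n + 1) < 2 ^ w := by
    calc Z * (n + 1) ≤ 2 ^ a * 2 ^ g := Nat.mul_le_mul ha hn1
      _ < 2 ^ (a + 4 * g) := by
        rw [← pow_add]
        exact Nat.pow_lt_pow_right (by norm_num) (by omega)
      _ ≤ 2 ^ w := hpow1
  have hendw : inp (n + 1) < 2 ^ w := by
    have h1 := end_le hG
    have h2 : n + 2 + n * n < 2 ^ (4 * g) := by
      have h3 : 2 ^ (4 * g) = 2 ^ g * 2 ^ g * (2 ^ g * 2 ^ g) := by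
        rw [show 4 * g = g + g + (g + g) by ring, pow_add, pow_add]
      have h4 : (n + 1) * (n + 1) ≤ 2 ^ g * 2 ^ g := Nat.mul_le_mul hn1 hn1
      have h5 : 4 ≤ 2 ^ g * 2 ^ g := Nat.mul_le_mul hgp hgp
      rw [h3]
      nlinarith
    calc inp (n + 1) ≤ n + 2 + n * n := h1
      _ < 2 ^ (4 * g) := h2
      _ ≤ 2 ^ (a + 4 * g) := Nat.pow_le_pow_right (by norm_num) (by omega)
      _ ≤ 2 ^ w := hpow1
  have hnw : n < 2 ^ w := by
    have := hG.size
    have h1 : n ≤ Z * (n + 1) := by nlinarith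
    omega
  have hinp0 : inp 0 = n := hG.size
  -- phase 1
  obtain ⟨κ₁, hκ₁⟩ : ∃ κ : Par, κ = ⟨fun q => inp q % 2 ^ w, 0, 0, Z * (inp 0 + 1)⟩ := ⟨_, rfl⟩
  have hκtop : κ₁.top = Z * (n + 1) := by rw [hκ₁, hinp0]
  obtain ⟨hnum, q1, q2, q3, q4, q5, q6⟩ := hpar (fun q => inp q % 2 ^ w) n
  have hlim4 := hnum.lim4
  simp only at hlim4
  have hpre := pre_run p₀ M₀ KL κ₁ n (by simp [hκ₁, hinp0, Nat.mod_eq_of_lt hnw])
    (by rw [hκ₁]) (by rw [hκ₁]) (by rw [hκtop]; omega) (by rw [hκtop]; exact q1) (by rw [hκtop]; exact q2)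
    (by rw [hκtop]; exact q3) (by rw [hκtop]; exact q4) (by rw [hκtop]; exact hlim4)
  simp only at hpre
  obtain ⟨σ₁, hσ₁⟩ : ∃ σ, σ = (preS p₀ M₀ KL).run κ₁ st0 := ⟨_, rfl⟩
  rw [← hσ₁] at hpre
  obtain ⟨e1, e2, e3, e4, e5, e6, e7, e8, e9, e10, e20, em, ecost⟩ := hpre
  obtain ⟨κ₂, hκ₂⟩ : ∃ κ : Par, κ = ⟨fun q => inp q % 2 ^ w, σ₁.g 1, σ₁.g 2,
    Z * (inp 0 + 1)⟩ := ⟨_, rfl⟩
  have hκ₂' : κ₂ = ⟨fun q => inp q % 2 ^ w, pcap M₀ n, plim p₀ M₀ KL n, Z * (n + 1)⟩ := by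
    rw [hκ₂, e1, e2, hinp0]
  have hnum2 : NumOk KE K₁ C₁ κ₂ (σ₁.g 3) (σ₁.g 4) (σ₁.g 5) (σ₁.g 7) (σ₁.g 6) (σ₁.g 8) := by
    rw [hκ₂', e3, e4, e5, e6, e7, e8]
    exact hnum
  have htop2 : κ₂.top = Z * (n + 1) := by rw [hκ₂']
  have hinput := input_spec n G inp hG κ₂ σ₁ e3 e20 (fun a _ h => by
    have : inp a < 2 ^ w := lt_of_le_of_lt (by rw [htop2] at h; exact h) htopw
    simp [hκ₂, Nat.mod_eq_of_lt this]) (by rw [htop2]; exact q5)
  have hend : κ₁.inp (n + 1) = inp (n + 1) := by simp [hκ₁, Nat.mod_eq_of_lt hendw]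
  have hst : κ₁.inp 1 = n + 2 := by
    have : n + 2 < 2 ^ w := lt_of_le_of_lt (le_trans (by omega) q5) htopw
    simp [hκ₁, hG.start, Nat.mod_eq_of_lt this]
  have h10 : σ₁.g 10 = 0 ↔ inp (n + 1) - inp 1 ≤ 6 * n := by
    rw [e10, hend, hst, hκtop, hG.start]
    split_ifs with h
    · simp only [false_iff]
      omega
    · simp only [true_iff]
      omega
  have hmain := main_spec Cg KE K₁ C₁ hCg hKE hK₁ hC₁ κ₂ σ₁ em hnum2 (by rw [e9, e4]) e20
    (by rw [e3, e8]; exact h2n) (fun h => by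
      obtain ⟨f1, f2, f3⟩ := hinput.1 (h10.mp h)
      refine ⟨f1, le_trans f2 ?_⟩
      rw [e3, hKE]
      exact Nat.mul_le_mul_right n (by omega))
  obtain ⟨hout, hcost⟩ := hmain
  have hP' := hP w inp (by rw [hinp0]; exact hwK) κ₁ κ₂ hκ₁
  rw [← hσ₁] at hP'
  obtain ⟨T, s', hT, hrun, hpc, hreg⟩ := hP' hκ₂ (16 * plim p₀ M₀ KL n) (by rw [hκ₂'])
  refine ⟨T, ?_, s', hrun, hpc, ?_⟩
  · -- time
    refine hT.trans ?_
    have hcap : κ₂.cap = pcap M₀ n := by rw [hκ₂']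
    have t1 : (preS p₀ M₀ KL).cost κ₁ st0 ≤ 1000 * (Z + 1) * (n + 1) := by
      refine ecost.trans ?_
      have h1 : n + BB (pp p₀ n) (24 * pp p₀ n) + pp p₀ n + 1 ≤ (Z + 1) * (n + 1) := by
        have : (Z + 1) * (n + 1) = Z * (n + 1) + (n + 1) := by ring
        omega
      rw [mul_assoc]
      exact Nat.mul_le_mul_left _ h1
    have t2 : (mainS Cg KE K₁ C₁).cost κ₂ σ₁ * (κ₂.cap + 1) ^ K ≤
        (30000 + 3000 * KE + 3000 * C₁) * 2 * C' * ((n + 1) * g) := by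
      have h1 : σ₁.g 3 + σ₁.g 8 + 1 ≤ 2 * (n + 1) := by
        rw [e3, e8]
        have : Nat.log 2 n ≤ n := Nat.log_le_self 2 n
        omega
      calc (mainS Cg KE K₁ C₁).cost κ₂ σ₁ * (κ₂.cap + 1) ^ K
          ≤ ((30000 + 3000 * KE + 3000 * C₁) * (2 * (n + 1)) * (κ₂.cap + 1) ^ 2) *
            (κ₂.cap + 1) ^ K := by
            refine Nat.mul_le_mul_right _ (hcost.trans ?_)
            exact Nat.mul_le_mul_right _ (Nat.mul_le_mul_left _ h1)
        _ = (30000 + 3000 * KE + 3000 * C₁) * (2 * (n + 1)) * (κ₂.cap + 1) ^ (K + 2) := by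
            ring
        _ ≤ (30000 + 3000 * KE + 3000 * C₁) * (2 * (n + 1)) * (C' * g) := by
            refine Nat.mul_le_mul_left _ ?_
            rw [hcap]
            exact hC' n
        _ = _ := by ring
    calc K * ((preS p₀ M₀ KL).cost κ₁ st0 +
          (mainS Cg KE K₁ C₁).cost κ₂ σ₁ * (κ₂.cap + 1) ^ K + 1)
        ≤ K * (1000 * (Z + 1) * (n + 1) +
          (30000 + 3000 * KE + 3000 * C₁) * 2 * C' * ((n + 1) * g) + 1) := by
          refine Nat.mul_le_mul_left _ ?_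
          omega
      _ ≤ K * (1000 * (Z + 2) + (30000 + 3000 * KE + 3000 * C₁) * 2 * C' + 1) * (n + 1) * g := by
          have h3 : n + 1 ≤ (n + 1) * g := Nat.le_mul_of_pos_right _ (by omega)
          have h4 : 1 ≤ (n + 1) * g := Nat.mul_pos (by omega) (by omega)
          have h5 : 1000 * (Z + 1) * (n + 1) ≤ 1000 * (Z + 2) * ((n + 1) * g) :=
            Nat.mul_le_mul (by omega) h3
          calc K * (1000 * (Z + 1) * (n + 1) +
                (30000 + 3000 * KE + 3000 * C₁) * 2 * C' * ((n + 1) * g) + 1)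
              ≤ K * (1000 * (Z + 2) * ((n + 1) * g) +
                (30000 + 3000 * KE + 3000 * C₁) * 2 * C' * ((n + 1) * g) +
                1 * ((n + 1) * g)) := by
                refine Nat.mul_le_mul_left _ ?_
                omega
            _ = _ := by ring
  · rw [hreg, hout, h10]
    constructor
    · rintro ⟨h1, h2⟩
      exact (hinput.1 h1).2.2.mp h2
    · intro h
      by_cases h1 : inp (n + 1) - inp 1 ≤ 6 * n
      · exact ⟨h1, (hinput.1 h1).2.2.mpr h⟩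
      · exact absurd h (hinput.2 (by omega))

end Pool.Agent.MP9d6bd1
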