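import Mathlib
import Pool.Agent.Lib.MP_9d6bd1_lc.GDefs
import Pool.Agent.Lib.MP_9d6bd1_lc.GMinor
import Pool.Agent.Lib.MP_9d6bd1_lc.GTransfer

set_option autoImplicit false

/-!
# MP_9d6bd1_lc, module G23: counting pieces with at least three attachments, and pairs
-/

open Classical

namespace Pool.Agent.MP9d6bd1

namespace GPiecesAux

open GMinorAux

theorem edgeSet_finite {V : Type} {G : SimpleGraph V} (hf : G.support.Finite) :
    G.edgeSet.Finite := by
  refine ((hf.prod hf).image (fun p : V × V => s(p.1, p.2))).subset ?_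
  intro e
  induction e using Sym2.ind with
  | _ u v =>
    intro h
    rw [SimpleGraph.mem_edgeSet] at h
    exact ⟨(u, v), ⟨⟨v, h⟩, ⟨u, h.symm⟩⟩, rfl⟩

/-- the edges inside the pieces and between the pieces and `R` -/
def pg {V ι : Type} (G : SimpleGraph V) (R : Set V) (P : ι → Set V) : SimpleGraph V where
  Adj u v := G.Adj u v ∧ ((∃ i, u ∈ P i ∧ v ∈ P i) ∨ (∃ i, u ∈ P i ∧ v ∈ R) ∨
    ∃ i, v ∈ P i ∧ u ∈ R)
  symm := ⟨fun _ _ h => ⟨h.1.symm, by
    rcases h.2 with ⟨i, h1, h2⟩ | h1 | h1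
    · exact Or.inl ⟨i, h2, h1⟩
    · exact Or.inr (Or.inr h1)
    · exact Or.inr (Or.inl h1)⟩⟩
  loopless := ⟨fun v h => G.loopless.irrefl v h.1⟩

theorem pg_le {V ι : Type} (G : SimpleGraph V) (R : Set V) (P : ι → Set V) : pg G R P ≤ G :=
  fun _ _ h => h.1

/-- the label of a vertex -/
noncomputable def lab {V ι : Type} (P : ι → Set V) (v : V) : V ⊕ ι :=
  if h : ∃ i, v ∈ P i then Sum.inr h.choose else Sum.inl v

theorem lab_mem {V ι : Type} {P : ι → Set V} (hd : ∀ i j, i ≠ j → Disjoint (P i) (P j)) {i : ι}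
    {v : V} (hv : v ∈ P i) : lab P v = Sum.inr i := by
  have h : ∃ i, v ∈ P i := ⟨i, hv⟩
  unfold lab
  rw [dif_pos h]
  congr 1
  by_contra hne
  exact Set.disjoint_left.1 (hd _ _ hne) h.choose_spec hv

theorem lab_not {V ι : Type} {P : ι → Set V} {v : V} (hv : ∀ i, v ∉ P i) :
    lab P v = Sum.inl v := by
  unfold lab
  rw [dif_neg]
  rintro ⟨i, hi⟩
  exact hv i hi

theorem lab_eq_inr {V ι : Type} {P : ι → Set V} {i : ι}
    {v : V} (hv : lab P v = Sum.inr i) : v ∈ P i := by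
  unfold lab at hv
  split_ifs at hv with h
  rw [← Sum.inr.inj hv]
  exact h.choose_spec

theorem lab_eq_inl {V ι : Type} {P : ι → Set V} {u v : V} (hv : lab P v = Sum.inl u) : v = u := by
  unfold lab at hv
  split_ifs at hv with h
  exact Sum.inl.inj hv

theorem pg_conn {V ι : Type} {G : SimpleGraph V} {R : Set V} {P : ι → Set V} {i : ι}
    (hP : (G.induce (P i)).Connected) : ((pg G R P).induce (P i)).Connected := by
  have h := connected_iff.1 hP
  rw [connected_iff]
  refine ⟨h.1, fun a ha b hb => rtg_lift id ?_ (h.2 a ha b hb)⟩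
  intro u v huv
  exact ⟨⟨huv.1, Or.inl ⟨i, huv.2.1, huv.2.2⟩⟩, huv.2.1, huv.2.2⟩

/-- the graph on `R` and the pieces -/
noncomputable def hg {V ι : Type} (G : SimpleGraph V) (R : Set V) (P : ι → Set V) :
    SimpleGraph (V ⊕ ι) := (pg G R P).map (lab P)

theorem hg_planar {V ι : Type} {G : SimpleGraph V} (hG : Planar G) (R : Set V) {P : ι → Set V}
    (hP : ∀ i, (G.induce (P i)).Connected) (hd : ∀ i j, i ≠ j → Disjoint (P i) (P j)) :
    Planar (hg G R P) := by
  refine planar_map _ _ ?_ (planar_mono (pg_le G R P) hG)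
  rintro (v | i) hw
  · obtain ⟨u, hu⟩ := exists_of_mem_support hw
    have h1 : lab P ⁻¹' {Sum.inl v} = {v} := by
      ext x
      simp only [Set.mem_preimage, Set.mem_singleton_iff]
      constructor
      · exact lab_eq_inl
      · rintro rfl
        have h2 := lab_eq_inl hu
        rw [← h2]
        rw [h2]
        rw [h2] at hu
        exact hu
    rw [h1]
    exact connected_singleton _ v
  · have h1 : lab P ⁻¹' {Sum.inr i} = P i := by
      ext x
      simp only [Set.mem_preimage, Set.mem_singleton_iff]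
      exact ⟨lab_eq_inr, lab_mem hd⟩
    rw [h1]
    exact pg_conn (hP i)

theorem hg_adj_cases {V ι : Type} {G : SimpleGraph V} {R : Set V} {P : ι → Set V}
    (hd : ∀ i j, i ≠ j → Disjoint (P i) (P j)) (hPR : ∀ i, Disjoint (P i) R) {x y : V ⊕ ι}
    (h : (hg G R P).Adj x y) :
    (∃ i, ∃ r ∈ R, x = Sum.inr i ∧ y = Sum.inl r) ∨
      ∃ i, ∃ r ∈ R, x = Sum.inl r ∧ y = Sum.inr i := by
  obtain ⟨hne, u, v, huv, rfl, rfl⟩ := h
  have hR : ∀ r ∈ R, lab P r = Sum.inl r := fun r hr =>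
    lab_not fun i hi => Set.disjoint_left.1 (hPR i) hi hr
  rcases huv.2 with ⟨i, h1, h2⟩ | ⟨i, h1, h2⟩ | ⟨i, h1, h2⟩
  · exact absurd ((lab_mem hd h1).trans (lab_mem hd h2).symm) hne
  · exact Or.inl ⟨i, v, h2, lab_mem hd h1, hR v h2⟩
  · exact Or.inr ⟨i, u, h2, hR u h2, lab_mem hd h1⟩

theorem hg_adj {V ι : Type} {G : SimpleGraph V} {R : Set V} {P : ι → Set V}
    (hd : ∀ i j, i ≠ j → Disjoint (P i) (P j)) (hPR : ∀ i, Disjoint (P i) R) {i : ι} {r : V}
    (hr : r ∈ nbr G (P i) ∩ R) : (hg G R P).Adj (Sum.inr i) (Sum.inl r) := by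
  obtain ⟨⟨_, v, hv, hvr⟩, hR⟩ := hr
  have h1 : lab P r = Sum.inl r := lab_not fun i hi => Set.disjoint_left.1 (hPR i) hi hR
  refine ⟨by simp, v, r, ⟨hvr.symm, Or.inr (Or.inl ⟨i, hv, hR⟩)⟩, lab_mem hd hv, h1⟩

end GPiecesAux

open GPiecesAux GMinorAux

theorem pieces_bound {V ι : Type} [Fintype ι] (G : SimpleGraph V) (hf : G.support.Finite)
    (hG : Planar G) (R : Set V) (hR : R.Finite) (P : ι → Set V)
    (hP : ∀ i, (G.induce (P i)).Connected)
    (hd : ∀ i j, i ≠ j → Disjoint (P i) (P j)) (hPR : ∀ i, Disjoint (P i) R)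
    (h3 : ∀ i, 3 ≤ (nbr G (P i) ∩ R).ncard) :
    ∑ i, (nbr G (P i) ∩ R).ncard ≤ 6 * R.ncard := by
  have hH := hg_planar hG R hP hd
  have hsub : (hg G R P).support ⊆ Sum.inl '' R ∪ Set.range Sum.inr := by
    rintro x ⟨y, hxy⟩
    rcases hg_adj_cases hd hPR hxy with ⟨i, r, hr, rfl, rfl⟩ | ⟨i, r, hr, rfl, rfl⟩
    · exact Or.inr ⟨i, rfl⟩
    · exact Or.inl ⟨r, hr, rfl⟩
  have hfin : (Sum.inl '' R ∪ Set.range Sum.inr : Set (V ⊕ ι)).Finite :=
    (hR.image _).union (Set.finite_range _)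
  have hHf : (hg G R P).support.Finite := hfin.subset hsub
  have hsc : (hg G R P).support.ncard ≤ R.ncard + Fintype.card ι := by
    refine (Set.ncard_le_ncard hsub hfin).trans ((Set.ncard_union_le _ _).trans ?_)
    refine Nat.add_le_add (Set.ncard_image_le hR) ?_
    rw [← Set.image_univ]
    refine (Set.ncard_image_le Set.finite_univ).trans ?_
    rw [Set.ncard_univ, Nat.card_eq_fintype_card]
  have hb := planar_bip' (hg G R P) hHf hH (Set.range Sum.inr) (by
    intro u v huv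
    rcases hg_adj_cases hd hPR huv with ⟨i, r, hr, rfl, rfl⟩ | ⟨i, r, hr, rfl, rfl⟩
    · simp
    · simp)
  -- the sum counts edges
  have hRf : ∀ i, (nbr G (P i) ∩ R).Finite := fun i => hR.subset Set.inter_subset_right
  have hsum : ∑ i, (nbr G (P i) ∩ R).ncard ≤ (hg G R P).edgeSet.ncard := by
    have h1 : ∑ i, (nbr G (P i) ∩ R).ncard =
        ((Finset.univ : Finset ι).sigma (fun i => (hRf i).toFinset)).card := by
      rw [Finset.card_sigma]
      exact Finset.sum_congr rfl fun i _ => Set.ncard_eq_toFinset_card _ (hRf i)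
    have hEf := edgeSet_finite hHf
    rw [h1, Set.ncard_eq_toFinset_card _ hEf]
    refine Finset.card_le_card_of_injOn
      (fun p => (s(Sum.inr p.1, Sum.inl p.2) : Sym2 (V ⊕ ι))) ?_ ?_
    · rintro ⟨i, r⟩ hp
      simp only [Finset.coe_sigma, Finset.coe_univ, Set.mem_sigma_iff, Set.mem_univ, true_and,
        Set.Finite.coe_toFinset] at hp
      simp only [Set.Finite.coe_toFinset, SimpleGraph.mem_edgeSet]
      exact hg_adj hd hPR hp
    · rintro ⟨i, r⟩ _ ⟨j, t⟩ _ h
      simp only [Sym2.eq_iff, Sum.inr.injEq, Sum.inl.injEq, reduceCtorEq, and_self,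
        or_false] at h
      obtain ⟨rfl, rfl⟩ := h
      rfl
  have h3' : 3 * Fintype.card ι ≤ ∑ i, (nbr G (P i) ∩ R).ncard := by
    calc 3 * Fintype.card ι = ∑ _i : ι, 3 := by simp [mul_comm]
      _ ≤ _ := Finset.sum_le_sum fun i _ => h3 i
  omega

namespace GPiecesAux

/-- the attachment into which the piece `i` is contracted -/
def IsUsed {V ι : Type} (G : SimpleGraph V) (R : Set V) (P : ι → Set V) (a : V) (i : ι) : Prop :=
  ∃ b, a ≠ b ∧ nbr G (P i) ∩ R = {a, b}

end GPiecesAux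

theorem pairs_bound {V ι : Type} [Fintype ι] (G : SimpleGraph V) (hf : G.support.Finite)
    (hG : Planar G) (R : Set V) (hR : R.Finite) (P : ι → Set V)
    (hP : ∀ i, (G.induce (P i)).Connected)
    (hd : ∀ i j, i ≠ j → Disjoint (P i) (P j)) (hPR : ∀ i, Disjoint (P i) R)
    (S : Set (Sym2 V)) (hS : ∀ e ∈ S, ∃ u v, u ≠ v ∧ u ∈ R ∧ v ∈ R ∧ e = s(u, v) ∧
      (G.Adj u v ∨ ∃ i, nbr G (P i) ∩ R = {u, v})) :
    S.ncard ≤ 3 * R.ncard := by
  -- the chosen attachment
  let U : ι → Prop := fun i => ∃ a, IsUsed G R P a i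
  let att : ι → V → V := fun i v => if h : U i then h.choose else v
  have hatt : ∀ i, U i → ∀ v, IsUsed G R P (att i v) i := by
    intro i hi v
    have h1 : att i v = hi.choose := dif_pos hi
    rw [h1]
    exact hi.choose_spec
  let f : V → V := fun v => if h : ∃ i, v ∈ P i then att h.choose v else v
  have hfP : ∀ i v, v ∈ P i → f v = att i v := by
    intro i v hv
    have h : ∃ i, v ∈ P i := ⟨i, hv⟩
    have h1 : f v = att h.choose v := dif_pos h
    rw [h1]
    congr 1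
    by_contra hne
    exact Set.disjoint_left.1 (hd _ _ hne) h.choose_spec hv
  have hfR : ∀ v, (∀ i, v ∉ P i) → f v = v := by
    intro v hv
    exact dif_neg (by rintro ⟨i, hi⟩; exact hv i hi)
  have hRP : ∀ v ∈ R, ∀ i, v ∉ P i := fun v hv i hi => Set.disjoint_left.1 (hPR i) hi hv
  have hfR' : ∀ v ∈ R, f v = v := fun v hv => hfR v (hRP v hv)
  have hattU : ∀ i, U i → ∀ v w, att i v = att i w := by
    intro i hi v w
    have h1 : att i v = hi.choose := dif_pos hi
    have h2 : att i w = hi.choose := dif_pos hi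
    rw [h1, h2]
  have hattR : ∀ i, U i → ∀ v, att i v ∈ nbr G (P i) ∩ R := by
    intro i hi v
    obtain ⟨b, _, hb⟩ := hatt i hi v
    rw [hb]
    simp
  -- the graph
  let K : SimpleGraph V :=
    { Adj := fun u v => G.Adj u v ∧ ((u ∈ R ∧ v ∈ R) ∨ (∃ i, U i ∧ u ∈ P i ∧ v ∈ P i) ∨
        (∃ i, U i ∧ u ∈ P i ∧ v ∈ R) ∨ ∃ i, U i ∧ v ∈ P i ∧ u ∈ R)
      symm := ⟨fun _ _ h => ⟨h.1.symm, by
        rcases h.2 with ⟨h1, h2⟩ | ⟨i, h1, h2, h3⟩ | h1 | h1
        · exact Or.inl ⟨h2, h1⟩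
        · exact Or.inr (Or.inl ⟨i, h1, h3, h2⟩)
        · exact Or.inr (Or.inr (Or.inr h1))
        · exact Or.inr (Or.inr (Or.inl h1))⟩⟩
      loopless := ⟨fun v h => G.loopless.irrefl v h.1⟩ }
  have hKG : K ≤ G := fun _ _ h => h.1
  -- supports
  have hKs : ∀ u v, K.Adj u v → f u ∈ R := by
    intro u v huv
    rcases huv.2 with ⟨h1, _⟩ | ⟨i, h1, h2, _⟩ | ⟨i, h1, h2, _⟩ | ⟨i, _, _, h2⟩
    · rwa [hfR' u h1]
    · rw [hfP i u h2]
      exact (hattR i h1 u).2
    · rw [hfP i u h2]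
      exact (hattR i h1 u).2
    · rwa [hfR' u h2]
  have hsupp : (K.map f).support ⊆ R := by
    rintro w ⟨w', hw⟩
    obtain ⟨_, u, v, huv, rfl, _⟩ := hw
    exact hKs u v huv
  have hHf : (K.map f).support.Finite := hR.subset hsupp
  have hpl : Planar (K.map f) := by
    refine planar_map K f ?_ (planar_mono hKG hG)
    intro w hw
    have hwR : w ∈ R := hsupp hw
    rw [connected_iff]
    have hww : f w = w := hfR' w hwR
    refine ⟨⟨w, hww⟩, ?_⟩
    -- everything is connected with `w`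
    have key : ∀ a, f a = w → RS K (f ⁻¹' {w}) a w ∧ RS K (f ⁻¹' {w}) w a := by
      intro a ha
      by_cases haP : ∃ i, a ∈ P i
      · obtain ⟨i, hi⟩ := haP
        have h1 := hfP i a hi
        have hU : U i := by
          by_contra hno
          have h2 : att i a = a := dif_neg hno
          rw [h2] at h1
          rw [h1] at ha
          rw [ha] at hi
          exact hRP w hwR i hi
        have h2 : att i a = w := by rw [← h1]; exact ha
        have h3 := hattR i hU a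
        rw [h2] at h3
        obtain ⟨⟨_, p, hp, hpw⟩, _⟩ := h3
        have hsubP : P i ⊆ f ⁻¹' {w} := by
          intro x hx
          change f x = w
          rw [hfP i x hx, hattU i hU x a, h2]
        have hcon := (connected_iff.1 (hP i)).2
        have hlift : ∀ x ∈ P i, ∀ y ∈ P i, RS K (f ⁻¹' {w}) x y := by
          intro x hx y hy
          refine rtg_lift id ?_ (hcon x hx y hy)
          intro u v huv
          exact ⟨⟨huv.1, Or.inr (Or.inl ⟨i, hU, huv.2.1, huv.2.2⟩)⟩, hsubP huv.2.1, hsubP huv.2.2⟩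
        have hKpw : K.Adj w p := ⟨hpw, Or.inr (Or.inr (Or.inr ⟨i, hU, hp, hwR⟩))⟩
        exact ⟨rs_trans (hlift a hi p hp) (rs_single hKpw.symm (hsubP hp) hww),
          rs_trans (rs_single hKpw hww (hsubP hp)) (hlift p hp a hi)⟩
      · push Not at haP
        have h1 := hfR a haP
        rw [h1] at ha
        subst ha
        exact ⟨Relation.ReflTransGen.refl, Relation.ReflTransGen.refl⟩
    intro a ha b hb
    exact rs_trans (key a ha).1 (key b hb).2
  have hE := planar_edges' (K.map f) hHf hpl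
  have hsub : S ⊆ (K.map f).edgeSet := by
    intro e he
    obtain ⟨u, v, huv, hu, hv, rfl, h⟩ := hS e he
    rw [SimpleGraph.mem_edgeSet]
    rcases h with h | ⟨i, hi⟩
    · exact ⟨huv, u, v, ⟨h, Or.inl ⟨hu, hv⟩⟩, hfR' u hu, hfR' v hv⟩
    · have hU : U i := ⟨u, v, huv, hi⟩
      have hmem : ∀ x, att i x = u ∨ att i x = v := by
        intro x
        have h1 := hattR i hU x
        rw [hi] at h1
        simpa using h1
      -- the attachment is `u` or `v`
      have h1 : ∀ x ∈ ({u, v} : Set V), ∃ p ∈ P i, G.Adj p x := by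
        intro x hx
        rw [← hi] at hx
        obtain ⟨p, hp, h2⟩ := hx.1.2
        exact ⟨p, hp, h2.symm⟩
      obtain ⟨p, hp, hpv⟩ := h1 v (by simp)
      obtain ⟨p', hp', hpu⟩ := h1 u (by simp)
      rcases hmem p with h2 | h2
      · refine ⟨huv, p, v, ⟨hpv, Or.inr (Or.inr (Or.inl ⟨i, hU, hp, hv⟩))⟩, ?_, hfR' v hv⟩
        rw [hfP i p hp, h2]
      · refine ⟨huv, u, p', ⟨hpu.symm, Or.inr (Or.inr (Or.inr ⟨i, hU, hp', hu⟩))⟩, hfR' u hu, ?_⟩
        rw [hfP i p' hp', hattU i hU p' p, h2]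
  have h1 := Set.ncard_le_ncard hsub (edgeSet_finite hHf)
  have h2 := Set.ncard_le_ncard hsupp hR
  omega

end Pool.Agent.MP9d6bd1
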