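import Mathlib
import Pool.Agent.Lib.MP_9d6bd1_lc.Spec2
import Pool.Agent.Lib.MP_9d6bd1_lc.PNp
import Pool.Agent.Lib.MP_9d6bd1_lc.GIndex
import Pool.Agent.Lib.MP_9d6bd1_lc.GReplace
import Pool.Agent.Lib.MP_9d6bd1_lc.GTransfer
import Pool.Agent.Lib.MP_9d6bd1_lc.GPieces
import Pool.Agent.Lib.MP_9d6bd1_lc.PPieceA
import Pool.Agent.Lib.MP_9d6bd1_lc.PPieceB
import Pool.Agent.Lib.MP_9d6bd1_lc.PNewA

/-!
# MP_9d6bd1_lc, module P21c: the new graph is small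
-/

set_option autoImplicit false

open Classical

namespace Pool.Agent.MP9d6bd1

namespace PNewCAux

open GIndexAux

/-! ### graphs -/

theorem exists_perm (f : ℕ → ℕ) (S : Set ℕ) (hS : S.Finite) (hf : Set.InjOn f S) :
    ∃ τ : Equiv.Perm ℕ, ∀ a ∈ S, τ a = f a := by
  have := hS.to_subtype
  obtain ⟨τ, hτ⟩ := Equiv.Perm.exists_extending_pair (Subtype.val : S → ℕ) (fun x : S => f x)
    Subtype.val_injective (fun x y h => Subtype.ext (hf x.2 y.2 h))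
  exact ⟨τ, fun a ha => hτ ⟨a, ha⟩⟩

theorem map_congr (f g : ℕ → ℕ) (A : SimpleGraph ℕ) (h : ∀ a ∈ A.support, f a = g a) :
    A.map f = A.map g := by
  ext u v
  simp only [SimpleGraph.map_adj']
  constructor
  · rintro ⟨hne, a, b, hab, rfl, rfl⟩
    exact ⟨hne, a, b, hab, (h a ⟨b, hab⟩).symm, (h b ⟨a, hab.symm⟩).symm⟩
  · rintro ⟨hne, a, b, hab, rfl, rfl⟩
    exact ⟨hne, a, b, hab, h a ⟨b, hab⟩, h b ⟨a, hab.symm⟩⟩

theorem planar_map_inj (f : ℕ → ℕ) (A : SimpleGraph ℕ) (S : Set ℕ) (hS : S.Finite)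
    (hA : A.support ⊆ S) (hf : Set.InjOn f S) : Planar (A.map f) ↔ Planar A := by
  obtain ⟨τ, hτ⟩ := exists_perm f S hS hf
  rw [map_congr f τ A fun a ha => (hτ a (hA ha)).symm]
  exact planar_perm τ A

theorem cg_adj (s c a b : ℕ) : (cg s c).Adj a b ↔ a ≠ b ∧
    ((a < s ∧ b < s ∧ c / 2 ^ (a * s + b) % 2 = 1) ∨
      (b < s ∧ a < s ∧ c / 2 ^ (b * s + a) % 2 = 1)) := Iff.rfl

theorem cg_support (s c : ℕ) : (cg s c).support ⊆ {a | a < s} := by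
  rintro a ⟨b, hab⟩
  rcases ((cg_adj s c a b).1 hab).2 with h | h
  · exact h.1
  · exact h.2.1

theorem cg_support_finite (s c : ℕ) : (cg s c).support.Finite :=
  (Set.finite_lt_nat s).subset (cg_support s c)

theorem two_bit (m : ℕ) : 2 / 2 ^ m % 2 = 1 ↔ m = 1 := by
  rcases m with _ | _ | m
  · simp
  · simp
  · have h : 2 / 2 ^ (m + 1 + 1) = 0 := by
      apply Nat.div_eq_of_lt
      have : 1 ≤ 2 ^ m := Nat.one_le_two_pow
      rw [pow_succ, pow_succ]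
      omega
    rw [h]
    simp

theorem cg_two : cg (2 + 6) 2 = SimpleGraph.edge 0 1 := by
  ext a b
  rw [cg_adj, two_bit, two_bit, SimpleGraph.edge_adj]
  omega

theorem edge_map (f : ℕ → ℕ) (a b : ℕ) :
    (SimpleGraph.edge a b).map f = SimpleGraph.edge (f a) (f b) := by
  ext u v
  simp only [SimpleGraph.map_adj', SimpleGraph.edge_adj]
  constructor
  · rintro ⟨hne, x, y, ⟨h, _⟩, rfl, rfl⟩
    refine ⟨?_, hne⟩
    rcases h with ⟨rfl, rfl⟩ | ⟨rfl, rfl⟩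
    · exact Or.inl ⟨rfl, rfl⟩
    · exact Or.inr ⟨rfl, rfl⟩
  · rintro ⟨h, hne⟩
    rcases h with ⟨rfl, rfl⟩ | ⟨rfl, rfl⟩
    · exact ⟨hne, a, b, ⟨Or.inl ⟨rfl, rfl⟩, fun h => hne (by rw [h])⟩, rfl, rfl⟩
    · exact ⟨hne, b, a, ⟨Or.inr ⟨rfl, rfl⟩, fun h => hne (by rw [h])⟩, rfl, rfl⟩

theorem ug_two (l c : ℕ) : ug 2 l c 2 = cg (2 + l) c ⊔ SimpleGraph.edge 0 1 := by
  unfold ug
  rw [cg_two, edge_map]
  rfl

/-! ### pieces -/

variable {κ : Par} {σ : St}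

theorem gr_adj (F : FG) (u v : ℕ) : F.gr.Adj u v ↔ u ≠ v ∧
    ((u < F.N ∧ v < F.N ∧ ∃ j < F.deg u, F.nb u j = v) ∨
      (v < F.N ∧ u < F.N ∧ ∃ j < F.deg v, F.nb v j = u)) := Iff.rfl

theorem gr_support (F : FG) : F.gr.support ⊆ {a | a < F.N} := by
  rintro a ⟨b, hab⟩
  rcases ((gr_adj F a b).1 hab).2 with h | h
  · exact h.1
  · exact h.2.1

theorem ust_lt (hG : (cur κ σ).Ok) {a b : ℕ} (ha : a < σ.g 3) (h : ust κ σ a b) :
    b < σ.g 3 ∧ b ∉ Rm κ σ ∧ (cur κ σ).gr.Adj a b := by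
  obtain ⟨j, hj, hb, hR⟩ := h
  have h1 := hG.lt a ha j hj
  have h2 := hG.ne a ha j hj
  rw [hb] at h1 h2
  exact ⟨h1, hR, (gr_adj _ _ _).2 ⟨h2.symm, Or.inl ⟨ha, h1, j, hj, hb⟩⟩⟩

theorem ust_symm (hG : (cur κ σ).Ok) {a b : ℕ} (ha : a < σ.g 3) (ha' : a ∉ Rm κ σ)
    (h : ust κ σ a b) : ust κ σ b a := by
  have hb := ust_lt hG ha h
  obtain ⟨j, hj, hj', _⟩ := h
  have h1 := hG.symm a ha b hb.1
  have h2 : 0 < (cur κ σ).cnt a b := by
    unfold FG.cnt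
    rw [Finset.card_pos]
    exact ⟨j, Finset.mem_filter.2 ⟨Finset.mem_range.2 hj, hj'⟩⟩
  rw [h1] at h2
  unfold FG.cnt at h2
  rw [Finset.card_pos] at h2
  obtain ⟨i, hi⟩ := h2
  rw [Finset.mem_filter, Finset.mem_range] at hi
  exact ⟨i, hi.1, hi.2, ha'⟩

theorem pc_mem (hG : (cur κ σ).Ok) {u y : ℕ} (hu : u < σ.g 3) (hu' : u ∉ Rm κ σ)
    (hy : y ∈ PC κ σ u) : y < σ.g 3 ∧ y ∉ Rm κ σ := by
  have hy' : Relation.ReflTransGen (ust κ σ) u y := hy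
  induction hy' with
  | refl => exact ⟨hu, hu'⟩
  | tail h1 h2 ih =>
    have h3 := ust_lt hG (ih h1).1 h2
    exact ⟨h3.1, h3.2.1⟩

theorem pc_symm (hG : (cur κ σ).Ok) {u y : ℕ} (hu : u < σ.g 3) (hu' : u ∉ Rm κ σ)
    (hy : y ∈ PC κ σ u) : u ∈ PC κ σ y := by
  have hy' : Relation.ReflTransGen (ust κ σ) u y := hy
  induction hy' with
  | refl => exact Relation.ReflTransGen.refl
  | tail h1 h2 ih =>
    have h3 := pc_mem hG hu hu' h1
    exact Relation.ReflTransGen.head (ust_symm hG h3.1 h3.2 h2) (ih h1)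

theorem pc_conn (hG : (cur κ σ).Ok) {u : ℕ} (hu : u < σ.g 3) (hu' : u ∉ Rm κ σ) :
    ((cur κ σ).gr.induce (PC κ σ u)).Connected := by
  have key : ∀ y ∈ PC κ σ u, GMinorAux.RS (cur κ σ).gr (PC κ σ u) u y ∧
      GMinorAux.RS (cur κ σ).gr (PC κ σ u) y u := by
    intro y hy
    have hy' : Relation.ReflTransGen (ust κ σ) u y := hy
    induction hy' with
    | refl => exact ⟨Relation.ReflTransGen.refl, Relation.ReflTransGen.refl⟩
    | tail h1 h2 ih =>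
      have h3 := pc_mem hG hu hu' h1
      have h4 := (ust_lt hG h3.1 h2).2.2
      have h5 := ih h1
      exact ⟨h5.1.tail ⟨h4, h1, hy⟩, Relation.ReflTransGen.head ⟨h4.symm, hy, h1⟩ h5.2⟩
  rw [GMinorAux.connected_iff]
  exact ⟨⟨u, Relation.ReflTransGen.refl⟩, fun a ha b hb => (key a ha).2.trans (key b hb).1⟩

theorem mem_pcs {u : ℕ} (hu : u ∈ Pcs κ σ) :
    u < σ.g 3 ∧ u ∉ Rm κ σ ∧ sInf (PC κ σ u) = u := by
  unfold Pcs at hu
  rw [Finset.mem_filter, Finset.mem_range] at hu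
  exact hu

theorem pc_disj (hG : (cur κ σ).Ok) {u v : ℕ} (hu : u ∈ Pcs κ σ) (hv : v ∈ Pcs κ σ)
    (huv : u ≠ v) : Disjoint (PC κ σ u) (PC κ σ v) := by
  obtain ⟨hu1, hu2, hu3⟩ := mem_pcs hu
  obtain ⟨hv1, hv2, hv3⟩ := mem_pcs hv
  rw [Set.disjoint_left]
  intro y hy hy'
  apply huv
  rw [← hu3, ← hv3]
  congr 1
  have hy1 : u ∈ PC κ σ y := pc_symm hG hu1 hu2 hy
  have hy2 : v ∈ PC κ σ y := pc_symm hG hv1 hv2 hy'
  ext z
  constructor
  · intro hz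
    exact Relation.ReflTransGen.trans (Relation.ReflTransGen.trans hy' hy1) hz
  · intro hz
    exact Relation.ReflTransGen.trans (Relation.ReflTransGen.trans hy hy2) hz

theorem pc_rm (hG : (cur κ σ).Ok) {u : ℕ} (hu : u ∈ Pcs κ σ) :
    Disjoint (PC κ σ u) (Rm κ σ) := by
  obtain ⟨hu1, hu2, _⟩ := mem_pcs hu
  rw [Set.disjoint_left]
  intro y hy
  exact (pc_mem hG hu1 hu2 hy).2

theorem tt_sub (u : ℕ) : TT κ σ u ⊆ Rm κ σ := fun _ hy => hy.1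

theorem rm_finite : (Rm κ σ).Finite := (Set.finite_lt_nat (σ.g 3)).subset fun _ hu => hu.1

theorem nm_injOn (hP : POk κ σ) (hG : (cur κ σ).Ok) (hR : ROk κ σ) {u : ℕ}
    (hu : u ∈ Pcs κ σ) : Set.InjOn (nmf κ σ u) {a | a < kk κ σ u + ll κ σ u} := by
  obtain ⟨hu1, hu2, _⟩ := mem_pcs hu
  obtain ⟨h1, h2⟩ := nm_spec κ σ hP hG hR u hu1 hu2
  have hd : ∀ a b, a < kk κ σ u → kk κ σ u ≤ b ∧ b < kk κ σ u + ll κ σ u →
      nmf κ σ u a ≠ nmf κ σ u b := by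
    intro a b ha hb hab
    have h3 : nmf κ σ u a ∈ TT κ σ u := h1.mapsTo ha
    have h4 : nmf κ σ u b ∈ PC κ σ u := h2.mapsTo hb
    rw [← hab] at h4
    exact (pc_mem hG hu1 hu2 h4).2 (tt_sub u h3)
  intro a ha b hb hab
  have ha' : a < kk κ σ u + ll κ σ u := ha
  have hb' : b < kk κ σ u + ll κ σ u := hb
  by_cases h3 : a < kk κ σ u <;> by_cases h4 : b < kk κ σ u
  · exact h1.injOn h3 h4 hab
  · exact absurd hab (hd a b h3 ⟨by omega, hb'⟩)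
  · exact absurd hab.symm (hd b a h4 ⟨by omega, ha'⟩)
  · exact h2.injOn ⟨by omega, ha'⟩ ⟨by omega, hb'⟩ hab

/-- a piece with two attachments which is replaced by a gadget -/
theorem not_thin (hP : POk κ σ) (hG : (cur κ σ).Ok) (hR : ROk κ σ) {u : ℕ}
    (hu : u ∈ Pcs κ σ) (hk : kk κ σ u = 2) (ht : ¬ isThin κ σ u) :
    ¬ Planar (inc (cur κ σ).gr (PC κ σ u) ⊔
      SimpleGraph.edge (nmf κ σ u 0) (nmf κ σ u 1)) := by
  obtain ⟨hu1, hu2, _⟩ := mem_pcs hu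
  have h1 := (pk_spec κ σ hP hG hR u hu1 hu2).2
  have h2 := pl_spec κ σ hP hG hR u hu1 hu2
  have hcap : 2 ^ (3 * (kk κ σ u + ll κ σ u + 6) ^ 2) ≤ κ.cap := by
    refine le_trans (Nat.pow_le_pow_right (by norm_num) ?_) hP.cap
    refine Nat.mul_le_mul_left 3 (Nat.pow_le_pow_left ?_ 2)
    have e : (σ.g 4 + 1) * σ.g 5 = σ.g 5 * σ.g 4 + σ.g 5 := by ring
    rw [e]
    omega
  have htop : κ.cap ≤ κ.top := by
    have := hP.top
    omega
  have h3 := np_spec κ σ (kk κ σ u) (ll κ σ u) (cc κ σ u) 2 hcap htop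
  have h4 : ¬ Planar (ug (kk κ σ u) (ll κ σ u) (cc κ σ u) 2) := by
    intro hp
    rw [if_pos hp] at h3
    exact ht ⟨hk, h3⟩
  intro hp
  apply h4
  have h5 := (cd_spec κ σ hP hG hR u hu1 hu2).1
  rw [← h5, ← edge_map, ← map_sup] at hp
  rw [hk] at hp ⊢
  rw [ug_two]
  have h6 := nm_injOn hP hG hR hu
  rw [hk] at h6
  refine (planar_map_inj _ _ _ (Set.finite_lt_nat _) ?_ h6).1 hp
  rintro a ⟨b, hab⟩
  show a < 2 + ll κ σ u
  rcases hab with hab | hab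
  · exact cg_support _ _ ⟨b, hab⟩
  · rw [SimpleGraph.edge_adj] at hab
    omega

theorem tt_pair (hP : POk κ σ) (hG : (cur κ σ).Ok) (hR : ROk κ σ) {u : ℕ}
    (hu : u ∈ Pcs κ σ) (hk : kk κ σ u = 2) :
    TT κ σ u = {nmf κ σ u 0, nmf κ σ u 1} ∧ nmf κ σ u 0 ≠ nmf κ σ u 1 := by
  obtain ⟨hu1, hu2, _⟩ := mem_pcs hu
  obtain ⟨h1, _⟩ := nm_spec κ σ hP hG hR u hu1 hu2
  rw [hk] at h1
  constructor
  · rw [← h1.image_eq]
    ext y
    constructor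
    · rintro ⟨a, ha, rfl⟩
      have ha' : a < 2 := ha
      have h3 : a = 0 ∨ a = 1 := by omega
      rcases h3 with rfl | rfl
      · exact Or.inl rfl
      · exact Or.inr rfl
    · rintro (rfl | rfl)
      · exact ⟨0, by simp, rfl⟩
      · exact ⟨1, by simp, rfl⟩
  · intro h
    have h0 : (0 : ℕ) ∈ {a : ℕ | a < 2} := by simp
    have h2 : (1 : ℕ) ∈ {a : ℕ | a < 2} := by simp
    exact absurd (h1.injOn h0 h2 h) (by norm_num)

theorem ecount_le (C : ℕ) (hC : ∀ (T : Set ℕ) (A : SimpleGraph ℕ), T.Finite →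
      A.support.Finite → Irr T A → rho T A ≤ C * (T.ncard + 1))
    (hP : POk κ σ) (hG : (cur κ σ).Ok) (hR : ROk κ σ)
    (hp : Planar (cur κ σ).gr) {u : ℕ} (hu : u ∈ Gds κ σ) :
    ecount C κ σ u ≤ 3 * (kk κ σ u + lg C κ σ u) := by
  have hu' : u ∈ Pcs κ σ ∧ isGad κ σ u := Finset.mem_filter.1 hu
  have hb : ¬ isBad κ σ u := fun h => bad_nonplanar κ σ hP hG hR u hu'.1 h hp
  have h1 := (piece_red C hC κ σ hP hG hR u hu'.1 hb).2
  rw [if_pos hu'.2] at h1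
  have h2 : Planar (inc (cur κ σ).gr (PC κ σ u)) :=
    planar_mono (fun _ _ h => h.1) hp
  have h3 : Planar ((gadg C κ σ u).map (nmf κ σ u)) := by
    have h4 := h1.2 ⊥ (by simp) (by simp)
    rw [sup_bot_eq, sup_bot_eq] at h4
    exact h4.1 h2
  have hle : kk κ σ u + lg C κ σ u ≤ kk κ σ u + ll κ σ u := by
    have : lg C κ σ u ≤ ll κ σ u := min_le_left _ _
    omega
  have hsub : (gadg C κ σ u).support ⊆ {a | a < kk κ σ u + lg C κ σ u} := cg_support _ _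
  have h5 : Planar (gadg C κ σ u) := by
    refine (planar_map_inj _ _ _ (Set.finite_lt_nat _) ?_ (nm_injOn hP hG hR hu'.1)).1 h3
    intro a ha
    have h6 : a < kk κ σ u + lg C κ σ u := hsub ha
    show a < kk κ σ u + ll κ σ u
    omega
  have h6 : (gadg C κ σ u).support.ncard ≤ kk κ σ u + lg C κ σ u := by
    refine (Set.ncard_le_ncard hsub (Set.finite_lt_nat _)).trans ?_
    have : ({a | a < kk κ σ u + lg C κ σ u} : Set ℕ) =
        ↑(Finset.range (kk κ σ u + lg C κ σ u)) := by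
      ext i
      simp
    rw [this, Set.ncard_coe_finset, Finset.card_range]
  calc ecount C κ σ u ≤ 3 * (gadg C κ σ u).support.ncard :=
        planar_edges' _ (cg_support_finite _ _) h5
    _ ≤ 3 * (kk κ σ u + lg C κ σ u) := Nat.mul_le_mul_left 3 h6

end PNewCAux

open PNewCAux

theorem new_count (C : ℕ) (hC : ∀ (T : Set ℕ) (A : SimpleGraph ℕ), T.Finite →
      A.support.Finite → Irr T A → rho T A ≤ C * (T.ncard + 1))
    (κ : Par) (σ : St) (hP : POk κ σ) (hG : (cur κ σ).Ok) (hR : ROk κ σ)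
    (hp : Planar (cur κ σ).gr) :
    ∑ u ∈ Gds κ σ, ecount C κ σ u + (prs κ σ).ncard ≤ (39 + 51 * C) * (Rm κ σ).ncard ∧
    (Rm κ σ).ncard + ∑ u ∈ Gds κ σ, lg C κ σ u ≤ (1 + 17 * C) * (Rm κ σ).ncard := by
  set n : ℕ := (Rm κ σ).ncard with hn
  have hf : (cur κ σ).gr.support.Finite := (Set.finite_lt_nat _).subset (gr_support _)
  have hnbr : ∀ u ∈ Pcs κ σ, nbr (cur κ σ).gr (PC κ σ u) = TT κ σ u := fun u hu =>
    (piece_red C hC κ σ hP hG hR u hu fun h => bad_nonplanar κ σ hP hG hR u hu h hp).1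
  have hnbr' : ∀ u ∈ Pcs κ σ, nbr (cur κ σ).gr (PC κ σ u) ∩ Rm κ σ = TT κ σ u := fun u hu => by
    rw [hnbr u hu]
    exact Set.inter_eq_left.2 (tt_sub u)
  set G3 : Finset ℕ := (Gds κ σ).filter fun u => 3 ≤ kk κ σ u with hG3
  set G2 : Finset ℕ := (Gds κ σ).filter fun u => ¬ 3 ≤ kk κ σ u with hG2
  have hG3' : ∀ u ∈ G3, u ∈ Gds κ σ ∧ u ∈ Pcs κ σ ∧ 3 ≤ kk κ σ u := fun u hu => by
    have h1 := Finset.mem_filter.1 hu
    exact ⟨h1.1, (Finset.mem_filter.1 h1.1).1, h1.2⟩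
  have hG2' : ∀ u ∈ G2, u ∈ Gds κ σ ∧ u ∈ Pcs κ σ ∧ kk κ σ u = 2 ∧ ¬ isThin κ σ u :=
    fun u hu => by
    have h1 := Finset.mem_filter.1 hu
    have h2 := Finset.mem_filter.1 h1.1
    refine ⟨h1.1, h2.1, ?_, h2.2.2⟩
    have h3 := h2.2.1
    have h4 := h1.2
    omega
  -- pieces with at least three attachments
  have hs3 : ∑ u ∈ G3, kk κ σ u ≤ 6 * n := by
    have h1 := pieces_bound (ι := ↥G3) (cur κ σ).gr hf hp (Rm κ σ) rm_finite
      (fun i => PC κ σ i)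
      (fun i => pc_conn hG (mem_pcs (hG3' i i.2).2.1).1 (mem_pcs (hG3' i i.2).2.1).2.1)
      (fun i j hij => pc_disj hG (hG3' i i.2).2.1 (hG3' j j.2).2.1
        fun h => hij (Subtype.ext h))
      (fun i => pc_rm hG (hG3' i i.2).2.1)
      (fun i => by
        rw [hnbr' i (hG3' i i.2).2.1]
        exact (hG3' i i.2).2.2)
    refine le_trans (le_of_eq ?_) h1
    rw [← Finset.sum_coe_sort G3]
    exact Finset.sum_congr rfl fun i _ => by
      rw [hnbr' i (hG3' i i.2).2.1]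
      rfl
  have hc3 : G3.card ≤ 2 * n := by
    have h1 : G3.card * 3 ≤ ∑ u ∈ G3, kk κ σ u := by
      rw [← smul_eq_mul]
      exact Finset.card_nsmul_le_sum _ _ _ fun u hu => (hG3' u hu).2.2
    omega
  -- pairs
  have hpairs : ∀ S : Set (Sym2 ℕ), (∀ e ∈ S, ∃ a b, a ≠ b ∧ a ∈ Rm κ σ ∧ b ∈ Rm κ σ ∧
      e = s(a, b) ∧ ((cur κ σ).gr.Adj a b ∨ ∃ u ∈ Pcs κ σ, TT κ σ u = {a, b})) →
      S.ncard ≤ 3 * n := by
    intro S hS
    refine pairs_bound (ι := ↥(Pcs κ σ)) (cur κ σ).gr hf hp (Rm κ σ) rm_finite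
      (fun i => PC κ σ i)
      (fun i => pc_conn hG (mem_pcs i.2).1 (mem_pcs i.2).2.1)
      (fun i j hij => pc_disj hG i.2 j.2 fun h => hij (Subtype.ext h))
      (fun i => pc_rm hG i.2) S ?_
    intro e he
    obtain ⟨a, b, h1, h2, h3, h4, h5⟩ := hS e he
    refine ⟨a, b, h1, h2, h3, h4, ?_⟩
    rcases h5 with h5 | ⟨u, hu, h5⟩
    · exact Or.inl h5
    · exact Or.inr ⟨⟨u, hu⟩, by rw [hnbr' u hu]; exact h5⟩
  have hprs : (prs κ σ).ncard ≤ 3 * n := by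
    refine hpairs _ ?_
    rintro e ⟨a, b, h1, h2, h3, h4, h5⟩
    refine ⟨a, b, h1, h2, h3, h4, ?_⟩
    rcases h5 with h5 | ⟨u, hu, _, h5⟩
    · exact Or.inl h5
    · exact Or.inr ⟨u, hu, h5⟩
  have hc2 : G2.card ≤ 3 * n := by
    set e : ℕ → Sym2 ℕ := fun u => s(nmf κ σ u 0, nmf κ σ u 1) with he
    have hinj : Set.InjOn e ↑G2 := by
      intro u hu v hv huv
      by_contra hne
      obtain ⟨_, hu1, hu2, hu3⟩ := hG2' u hu
      obtain ⟨_, hv1, hv2, hv3⟩ := hG2' v hv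
      obtain ⟨t1, t2⟩ := tt_pair hP hG hR hu1 hu2
      obtain ⟨t3, t4⟩ := tt_pair hP hG hR hv1 hv2
      have hTT : TT κ σ v = {nmf κ σ u 0, nmf κ σ u 1} := by
        rw [t3]
        simp only [he, Sym2.eq_iff] at huv
        rcases huv with ⟨h1, h2⟩ | ⟨h1, h2⟩
        · rw [h1, h2]
        · rw [h1, h2, Set.pair_comm]
      refine bad_pair (cur κ σ).gr (PC κ σ u) (PC κ σ v) (nmf κ σ u 0) (nmf κ σ u 1) t2
        (by rw [hnbr u hu1, t1]) (pc_conn hG (mem_pcs hv1).1 (mem_pcs hv1).2.1)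
        (pc_disj hG hu1 hv1 hne) ?_ ?_ (not_thin hP hG hR hu1 hu2 hu3) hp
      · rw [hnbr v hv1, hTT]
        exact Or.inl rfl
      · rw [hnbr v hv1, hTT]
        exact Or.inr rfl
    have h1 : (↑(G2.image e) : Set (Sym2 ℕ)).ncard ≤ 3 * n := by
      refine hpairs _ ?_
      intro x hx
      rw [Finset.mem_coe, Finset.mem_image] at hx
      obtain ⟨u, hu, rfl⟩ := hx
      obtain ⟨_, hu1, hu2, _⟩ := hG2' u hu
      obtain ⟨t1, t2⟩ := tt_pair hP hG hR hu1 hu2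
      refine ⟨nmf κ σ u 0, nmf κ σ u 1, t2, ?_, ?_, rfl, Or.inr ⟨u, hu1, t1⟩⟩
      · exact tt_sub u (by rw [t1]; exact Or.inl rfl)
      · exact tt_sub u (by rw [t1]; exact Or.inr rfl)
    rw [Set.ncard_coe_finset, Finset.card_image_of_injOn hinj] at h1
    exact h1
  -- new vertices
  have hlg : ∀ u, lg C κ σ u ≤ C * (kk κ σ u + 1) := fun u => min_le_right _ _
  have hl3 : ∑ u ∈ G3, lg C κ σ u ≤ 8 * (C * n) := by
    calc ∑ u ∈ G3, lg C κ σ u ≤ ∑ u ∈ G3, C * (kk κ σ u + 1) :=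
          Finset.sum_le_sum fun u _ => hlg u
      _ = C * (∑ u ∈ G3, kk κ σ u + G3.card) := by
          rw [← Finset.mul_sum, Finset.sum_add_distrib, Finset.sum_const, smul_eq_mul, mul_one]
      _ ≤ C * (6 * n + 2 * n) := Nat.mul_le_mul_left C (by omega)
      _ = 8 * (C * n) := by ring
  have hl2' : ∀ u ∈ G2, lg C κ σ u ≤ 3 * C := fun u hu => by
    have h1 := hlg u
    rw [(hG2' u hu).2.2.1] at h1
    linarith
  have hl2 : ∑ u ∈ G2, lg C κ σ u ≤ 9 * (C * n) := by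
    calc ∑ u ∈ G2, lg C κ σ u ≤ ∑ u ∈ G2, 3 * C := Finset.sum_le_sum hl2'
      _ = G2.card * (3 * C) := by rw [Finset.sum_const, smul_eq_mul]
      _ ≤ 3 * n * (3 * C) := Nat.mul_le_mul_right _ hc2
      _ = 9 * (C * n) := by ring
  have hsplit : ∀ f : ℕ → ℕ, ∑ u ∈ Gds κ σ, f u = ∑ u ∈ G3, f u + ∑ u ∈ G2, f u := fun f =>
    (Finset.sum_filter_add_sum_filter_not _ _ _).symm
  have he3 : ∑ u ∈ G3, ecount C κ σ u ≤ 18 * n + 24 * (C * n) := by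
    calc ∑ u ∈ G3, ecount C κ σ u ≤ ∑ u ∈ G3, 3 * (kk κ σ u + lg C κ σ u) :=
          Finset.sum_le_sum fun u hu => ecount_le C hC hP hG hR hp (hG3' u hu).1
      _ = 3 * (∑ u ∈ G3, kk κ σ u + ∑ u ∈ G3, lg C κ σ u) := by
          rw [← Finset.mul_sum, Finset.sum_add_distrib]
      _ ≤ 18 * n + 24 * (C * n) := by omega
  have he2 : ∑ u ∈ G2, ecount C κ σ u ≤ 18 * n + 27 * (C * n) := by
    calc ∑ u ∈ G2, ecount C κ σ u ≤ ∑ u ∈ G2, 3 * (kk κ σ u + lg C κ σ u) :=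
          Finset.sum_le_sum fun u hu => ecount_le C hC hP hG hR hp (hG2' u hu).1
      _ = 3 * (∑ u ∈ G2, kk κ σ u + ∑ u ∈ G2, lg C κ σ u) := by
          rw [← Finset.mul_sum, Finset.sum_add_distrib]
      _ = 3 * (2 * G2.card + ∑ u ∈ G2, lg C κ σ u) := by
          rw [Finset.sum_congr rfl fun u hu => (hG2' u hu).2.2.1, Finset.sum_const, smul_eq_mul,
            mul_comm G2.card 2]
      _ ≤ 18 * n + 27 * (C * n) := by omega
  constructor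
  · rw [hsplit]
    have e : (39 + 51 * C) * n = 39 * n + 51 * (C * n) := by ring
    rw [e]
    omega
  · rw [hsplit]
    have e : (1 + 17 * C) * n = n + 17 * (C * n) := by ring
    rw [e]
    omega

end Pool.Agent.MP9d6bd1
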