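import Mathlib

/-!
# MP_9d6bd1_lc: rotation systems and planarity
-/

set_option autoImplicit false

namespace Pool.Agent.MP9d6bd1

/-- number of cycles (orbits) of a permutation -/
noncomputable def numOrb {α : Type} (π : Equiv.Perm α) : ℕ :=
  Nat.card (Quotient (Equiv.Perm.SameCycle.setoid π))

/-- reversal of darts as a permutation -/
def revPerm {V : Type} (G : SimpleGraph V) : Equiv.Perm G.Dart :=
  Function.Involutive.toPerm _ (SimpleGraph.Dart.symm_involutive (G := G))

/-- the face permutation: arriving along `d`, leave along the dart that follows the reversal of
`d` in the rotation. Its cycles are the faces. -/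
def facePerm {V : Type} {G : SimpleGraph V} (σ : Equiv.Perm G.Dart) : Equiv.Perm G.Dart :=
  (revPerm G).trans σ

/-- number of connected components with at least one edge -/
noncomputable def numComp {V : Type} (G : SimpleGraph V) : ℕ :=
  {c : G.ConnectedComponent | ∃ v ∈ G.support, G.connectedComponentMk v = c}.ncard

/-- `σ` is a rotation system (a cyclic order of the edges at every vertex) of genus zero: with `V`
the number of vertices that are not isolated, `E` the number of edges, `F` the number of faces and
`C` the number of components with an edge, `V - E + F = 2 C` (Euler's formula). -/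
structure PlanarRot {V : Type} (G : SimpleGraph V) (σ : Equiv.Perm G.Dart) : Prop where
  src : ∀ d, (σ d).fst = d.fst
  cyc : ∀ d d' : G.Dart, d.fst = d'.fst → σ.SameCycle d d'
  euler : G.support.ncard + numOrb (facePerm σ) = G.edgeSet.ncard + 2 * numComp G

/-- `G` has a planar embedding, given as a rotation system. -/
def RotPlanar {V : Type} (G : SimpleGraph V) : Prop := ∃ σ : Equiv.Perm G.Dart, PlanarRot G σ

end Pool.Agent.MP9d6bd1
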