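import Mathlib
import Pool.Agent.Lib.MP_9d6bd1_lc.Rot

/-!
# MP_9d6bd1_lc: graphs with at most one edge have planar rotation systems
-/

set_option autoImplicit false

open Classical

namespace Pool.Agent.MP9d6bd1

theorem rot_base {V : Type} [Finite V] (G : SimpleGraph V) (h : G.edgeSet.ncard ≤ 1) :
    RotPlanar G := by
  rcases Nat.lt_or_ge 0 G.edgeSet.ncard with h0 | h0
  · -- one edge
    have h1 : G.edgeSet.ncard = 1 := by omega
    obtain ⟨e, he⟩ := Set.ncard_eq_one.mp h1
    induction e using Sym2.ind with
    | _ a b =>
    have hab : G.Adj a b := by
      have : s(a, b) ∈ G.edgeSet := by rw [he]; rfl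
      exact this
    have hadj : ∀ u v, G.Adj u v → (u = a ∧ v = b) ∨ (u = b ∧ v = a) := by
      intro u v huv
      have : s(u, v) ∈ G.edgeSet := huv
      rw [he] at this
      simpa using this
    have hne : a ≠ b := hab.ne
    have hsupp : G.support = {a, b} := by
      ext v
      simp only [Set.mem_insert_iff, Set.mem_singleton_iff, SimpleGraph.mem_support]
      constructor
      · rintro ⟨w, hw⟩
        rcases hadj v w hw with h2 | h2
        · exact Or.inl h2.1
        · exact Or.inr h2.1
      · rintro (rfl | rfl)
        · exact ⟨b, hab⟩
        · exact ⟨a, hab.symm⟩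
    refine ⟨1, ⟨fun d => rfl, ?_, ?_⟩⟩
    · intro d d' hd
      have : d = d' := by
        have h3 := hadj _ _ d.adj
        have h4 := hadj _ _ d'.adj
        ext
        · exact hd
        · rcases h3 with h3 | h3 <;> rcases h4 with h4 | h4
          · rw [h3.2, h4.2]
          · exact absurd (h3.1.symm.trans (hd.trans h4.1)) hne
          · exact absurd (h4.1.symm.trans (hd.symm.trans h3.1)) hne
          · rw [h3.2, h4.2]
      rw [this]
    · have e1 : G.support.ncard = 2 := by
        rw [hsupp]
        exact Set.ncard_pair hne
      have e2 : numOrb (facePerm (1 : Equiv.Perm G.Dart)) = 1 := by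
        unfold numOrb
        rw [Nat.card_eq_one_iff_unique]
        constructor
        · constructor
          intro x y
          induction x using Quotient.inductionOn with
          | _ x =>
          induction y using Quotient.inductionOn with
          | _ y =>
          apply Quotient.sound
          have h3 := hadj _ _ x.adj
          have h4 := hadj _ _ y.adj
          by_cases hxy : x = y
          · rw [hxy]
          · have h5 : y = x.symm := by
              ext
              · rcases h3 with h3 | h3 <;> rcases h4 with h4 | h4
                · exact absurd (SimpleGraph.Dart.ext _ _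
                    (Prod.ext (h3.1.trans h4.1.symm) (h3.2.trans h4.2.symm))) hxy
                · exact h4.1.trans h3.2.symm
                · exact h4.1.trans h3.2.symm
                · exact absurd (SimpleGraph.Dart.ext _ _
                    (Prod.ext (h3.1.trans h4.1.symm) (h3.2.trans h4.2.symm))) hxy
              · rcases h3 with h3 | h3 <;> rcases h4 with h4 | h4
                · exact absurd (SimpleGraph.Dart.ext _ _
                    (Prod.ext (h3.1.trans h4.1.symm) (h3.2.trans h4.2.symm))) hxy
                · exact h4.2.trans h3.1.symm
                · exact h4.2.trans h3.1.symm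
                · exact absurd (SimpleGraph.Dart.ext _ _
                    (Prod.ext (h3.1.trans h4.1.symm) (h3.2.trans h4.2.symm))) hxy
            refine ⟨1, ?_⟩
            rw [h5]
            rfl
        · exact ⟨Quotient.mk _ ⟨(a, b), hab⟩⟩
      have e3 : numComp G = 1 := by
        unfold numComp
        rw [Set.ncard_eq_one]
        refine ⟨G.connectedComponentMk a, ?_⟩
        ext c
        simp only [Set.mem_ofPred_eq, Set.mem_singleton_iff]
        constructor
        · rintro ⟨v, hv, rfl⟩
          rw [hsupp] at hv
          rcases hv with rfl | hv
          · rfl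
          · rw [Set.mem_singleton_iff] at hv
            subst hv
            exact SimpleGraph.ConnectedComponent.sound hab.symm.reachable
        · rintro rfl
          exact ⟨a, by rw [hsupp]; simp, rfl⟩
      rw [e1, e2, e3, h1]
  · -- no edge
    have h1 : G.edgeSet.ncard = 0 := by omega
    have h2 : G.edgeSet = ∅ := (Set.ncard_eq_zero (Set.toFinite _)).mp h1
    have hE : IsEmpty G.Dart := by
      constructor
      intro d
      have : d.edge ∈ G.edgeSet := d.edge_mem
      rw [h2] at this
      exact this
    have hsupp : G.support = ∅ := by
      rw [Set.eq_empty_iff_forall_notMem]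
      rintro v ⟨w, hw⟩
      have : s(v, w) ∈ G.edgeSet := hw
      rw [h2] at this
      exact this
    refine ⟨1, ⟨fun d => rfl, fun d => (hE.false d).elim, ?_⟩⟩
    have e2 : numOrb (facePerm (1 : Equiv.Perm G.Dart)) = 0 := by
      unfold numOrb
      rw [Nat.card_eq_zero]
      left
      constructor
      intro x
      induction x using Quotient.inductionOn with
      | _ x => exact hE.false x
    have e3 : numComp G = 0 := by
      unfold numComp
      rw [Set.ncard_eq_zero (Set.toFinite _)]
      rw [Set.eq_empty_iff_forall_notMem]
      rintro c ⟨v, hv, -⟩
      rw [hsupp] at hv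
      exact hv
    rw [e2, e3, h1, hsupp]
    simp

end Pool.Agent.MP9d6bd1
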