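import Mathlib
import Pool.Agent.Lib.MP_9d6bd1_lc.GDefs
import Pool.Agent.Lib.MP_9d6bd1_lc.GEven
import Pool.Agent.Lib.MP_9d6bd1_lc.Rot

/-!
# MP_9d6bd1_lc: a dual from a planar rotation system
-/

set_option autoImplicit false

open Classical

namespace Pool.Agent.MP9d6bd1

namespace RDualAux

variable {V : Type}

/-- faces -/
abbrev Face {G : SimpleGraph V} (σ : Equiv.Perm G.Dart) : Type :=
  Quotient (Equiv.Perm.SameCycle.setoid (facePerm σ))

/-- the face of a dart -/
def fc {G : SimpleGraph V} (σ : Equiv.Perm G.Dart) (d : G.Dart) : Face σ :=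
  Quotient.mk (Equiv.Perm.SameCycle.setoid (facePerm σ)) d

theorem facePerm_apply {G : SimpleGraph V} (σ : Equiv.Perm G.Dart) (d : G.Dart) :
    facePerm σ d = σ d.symm := rfl

theorem fc_symm {G : SimpleGraph V} (σ : Equiv.Perm G.Dart) (d : G.Dart) :
    fc σ d.symm = fc σ (σ d) := by
  apply Quotient.sound
  show (facePerm σ).SameCycle d.symm (σ d)
  refine ⟨1, ?_⟩
  rw [zpow_one, facePerm_apply, SimpleGraph.Dart.symm_symm]

theorem finite_dart [Finite V] (G : SimpleGraph V) : Finite G.Dart :=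
  Finite.of_injective (fun d : G.Dart => d.toProd) (fun a b h => SimpleGraph.Dart.ext a b h)

/-- cut of a set of faces -/
def cutF {G : SimpleGraph V} (σ : Equiv.Perm G.Dart) (J : Set (Face σ)) : Set (Sym2 V) :=
  {e | ∃ d : G.Dart, d.edge = e ∧ ¬ (fc σ d ∈ J ↔ fc σ d.symm ∈ J)}

theorem mem_cutF {G : SimpleGraph V} (σ : Equiv.Perm G.Dart) (J : Set (Face σ)) (d : G.Dart) :
    d.edge ∈ cutF σ J ↔ ¬ (fc σ d ∈ J ↔ fc σ d.symm ∈ J) := by
  constructor
  · rintro ⟨d', h, hd⟩
    rcases (SimpleGraph.dart_edge_eq_iff d' d).1 h with rfl | rfl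
    · exact hd
    · rw [SimpleGraph.Dart.symm_symm] at hd
      tauto
  · intro h
    exact ⟨d, rfl, h⟩

theorem cutF_subset {G : SimpleGraph V} (σ : Equiv.Perm G.Dart) (J : Set (Face σ)) :
    cutF σ J ⊆ G.edgeSet := by
  rintro e ⟨d, rfl, -⟩
  exact d.edge_mem

theorem cutF_symmDiff {G : SimpleGraph V} (σ : Equiv.Perm G.Dart) (I J : Set (Face σ)) :
    cutF σ (symmDiff I J) = symmDiff (cutF σ I) (cutF σ J) := by
  ext e
  constructor
  · rintro ⟨d, rfl, h⟩
    rw [Set.mem_symmDiff, mem_cutF, mem_cutF]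
    simp only [Set.mem_symmDiff] at h
    tauto
  · intro h
    have he : e ∈ G.edgeSet := by
      rcases h with h | h
      · exact cutF_subset σ _ h.1
      · exact cutF_subset σ _ h.1
    obtain ⟨d, rfl⟩ : ∃ d : G.Dart, d.edge = e := by
      induction e using Sym2.ind with
      | _ a b => exact ⟨⟨(a, b), he⟩, rfl⟩
    rw [Set.mem_symmDiff, mem_cutF, mem_cutF] at h
    rw [mem_cutF]
    simp only [Set.mem_symmDiff]
    tauto

theorem even_cutF [Finite V] {G : SimpleGraph V} (σ : Equiv.Perm G.Dart)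
    (hsrc : ∀ d, (σ d).fst = d.fst) (J : Set (Face σ)) : EvenSet (cutF σ J) := by
  intro v
  have hfin := finite_dart G
  let A : Set G.Dart := {d | d.fst = v ∧ fc σ d ∈ J}
  have hA : (σ ⁻¹' A).ncard = A.ncard := by
    rw [← Equiv.image_symm_eq_preimage]
    exact Set.ncard_image_of_injective _ σ.symm.injective
  have himg : {e | e ∈ cutF σ J ∧ v ∈ e} =
      SimpleGraph.Dart.edge '' (symmDiff A (σ ⁻¹' A)) := by
    ext e
    constructor
    · rintro ⟨⟨d, rfl, hd⟩, hv⟩
      have hv' : v = d.fst ∨ v = d.snd := by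
        have : d.edge = s(d.fst, d.snd) := rfl
        rw [this, Sym2.mem_iff] at hv
        exact hv
      rcases hv' with hv' | hv'
      · refine ⟨d, ?_, rfl⟩
        rw [fc_symm] at hd
        rw [Set.mem_symmDiff]
        simp only [A, Set.mem_preimage, Set.mem_ofPred_eq, hsrc, ← hv', true_and]
        tauto
      · refine ⟨d.symm, ?_, SimpleGraph.Dart.edge_symm d⟩
        have hd' : ¬ (fc σ d.symm ∈ J ↔ fc σ (σ d.symm) ∈ J) := by
          rw [← fc_symm, SimpleGraph.Dart.symm_symm]
          tauto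
        have hfst : d.symm.fst = v := hv'.symm
        rw [Set.mem_symmDiff]
        simp only [A, Set.mem_preimage, Set.mem_ofPred_eq, hsrc, hfst, true_and]
        tauto
    · rintro ⟨d, hd, rfl⟩
      rw [Set.mem_symmDiff] at hd
      simp only [A, Set.mem_preimage, Set.mem_ofPred_eq, hsrc] at hd
      refine ⟨⟨d, rfl, ?_⟩, ?_⟩
      · rw [fc_symm]; tauto
      · have h1 : d.fst = v := by tauto
        have : d.edge = s(d.fst, d.snd) := rfl
        rw [this, Sym2.mem_iff]
        exact Or.inl h1.symm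
  have hinj : Set.InjOn (SimpleGraph.Dart.edge (G := G)) (symmDiff A (σ ⁻¹' A)) := by
    intro d hd d' hd' h
    have h1 : d.fst = v := by
      rw [Set.mem_symmDiff] at hd
      simp only [A, Set.mem_preimage, Set.mem_ofPred_eq, hsrc] at hd
      tauto
    have h2 : d'.fst = v := by
      rw [Set.mem_symmDiff] at hd'
      simp only [A, Set.mem_preimage, Set.mem_ofPred_eq, hsrc] at hd'
      tauto
    rcases (SimpleGraph.dart_edge_eq_iff d d').1 h with h3 | h3
    · exact h3
    · exfalso
      have h4 : d.fst = d'.snd := by rw [h3]; rfl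
      have h5 := d'.fst_ne_snd
      exact h5 (by rw [h2, ← h1, h4])
  rw [himg, hinj.ncard_image]
  have h := GEvenAux.ncard_symmDiff_add A (σ ⁻¹' A)
  rw [hA] at h
  rw [Nat.even_iff]
  omega

/-- the component of a face -/
def cmp {G : SimpleGraph V} (σ : Equiv.Perm G.Dart) (hsrc : ∀ d, (σ d).fst = d.fst) :
    Face σ → G.ConnectedComponent :=
  Quotient.lift (s := Equiv.Perm.SameCycle.setoid (facePerm σ))
    (fun d => G.connectedComponentMk d.fst) (by
      intro a b h
      obtain ⟨i, hi⟩ := (h : (facePerm σ).SameCycle a b)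
      have step : ∀ d : G.Dart,
          G.connectedComponentMk (facePerm σ d).fst = G.connectedComponentMk d.fst := by
        intro d
        rw [facePerm_apply, hsrc]
        apply SimpleGraph.ConnectedComponent.sound
        exact (d.adj.symm).reachable
      have key : ∀ (i : ℤ) (d : G.Dart), G.connectedComponentMk ((facePerm σ ^ i) d).fst
          = G.connectedComponentMk d.fst := by
        intro i
        induction i with
        | zero => intro d; simp
        | succ i ih =>
          intro d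
          rw [zpow_add_one, Equiv.Perm.mul_apply, ih, step]
        | pred i ih =>
          intro d
          rw [zpow_sub_one, Equiv.Perm.mul_apply, ih]
          have := step ((facePerm σ)⁻¹ d)
          have h0 : facePerm σ ((facePerm σ)⁻¹ d) = d := Equiv.apply_symm_apply _ d
          rw [h0] at this
          exact this.symm
      show G.connectedComponentMk a.fst = G.connectedComponentMk b.fst
      rw [← hi, key])

theorem cmp_fc {G : SimpleGraph V} (σ : Equiv.Perm G.Dart) (hsrc : ∀ d, (σ d).fst = d.fst)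
    (d : G.Dart) : cmp σ hsrc (fc σ d) = G.connectedComponentMk d.fst := rfl

theorem exists_fc {G : SimpleGraph V} (σ : Equiv.Perm G.Dart) (φ : Face σ) :
    ∃ d, fc σ d = φ := Quotient.exists_rep φ

/-- kernel of `cutF` -/
theorem closed_of_cutF {G : SimpleGraph V} (σ : Equiv.Perm G.Dart)
    (hsrc : ∀ d, (σ d).fst = d.fst) (hcyc : ∀ d d' : G.Dart, d.fst = d'.fst → σ.SameCycle d d')
    (J : Set (Face σ)) (hJ : cutF σ J = ∅) (φ ψ : Face σ) (h : cmp σ hsrc φ = cmp σ hsrc ψ) :
    φ ∈ J ↔ ψ ∈ J := by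
  have h1 : ∀ d : G.Dart, fc σ d ∈ J ↔ fc σ d.symm ∈ J := by
    intro d
    by_contra hn
    have : d.edge ∈ cutF σ J := (mem_cutF σ J d).2 hn
    rw [hJ] at this
    exact this
  have h2 : ∀ d : G.Dart, fc σ (σ d) ∈ J ↔ fc σ d ∈ J := by
    intro d
    rw [← fc_symm]
    exact (h1 d).symm
  have h3 : ∀ (i : ℤ) (d : G.Dart), fc σ ((σ ^ i) d) ∈ J ↔ fc σ d ∈ J := by
    intro i
    induction i with
    | zero => intro d; simp
    | succ i ih =>
      intro d
      rw [zpow_add_one, Equiv.Perm.mul_apply, ih, h2]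
    | pred i ih =>
      intro d
      rw [zpow_sub_one, Equiv.Perm.mul_apply, ih]
      have := h2 (σ⁻¹ d)
      have h0 : σ (σ⁻¹ d) = d := Equiv.apply_symm_apply _ d
      rw [h0] at this
      exact this.symm
  have h4 : ∀ d d' : G.Dart, d.fst = d'.fst → (fc σ d ∈ J ↔ fc σ d' ∈ J) := by
    intro d d' hd
    obtain ⟨i, hi⟩ := hcyc d d' hd
    rw [← hi, h3]
  have h5 : ∀ (u w : V) (p : G.Walk u w) (d d' : G.Dart), d.fst = u → d'.fst = w →
      (fc σ d ∈ J ↔ fc σ d' ∈ J) := by
    intro u w p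
    induction p with
    | nil =>
      intro d d' hd hd'
      exact h4 d d' (hd.trans hd'.symm)
    | @cons u x w hadj p ih =>
      intro d d' hd hd'
      let d0 : G.Dart := ⟨(u, x), hadj⟩
      rw [h4 d d0 hd, h1 d0]
      exact ih d0.symm d' rfl hd'
  obtain ⟨d, rfl⟩ := exists_fc σ φ
  obtain ⟨d', rfl⟩ := exists_fc σ ψ
  rw [cmp_fc, cmp_fc] at h
  obtain ⟨p⟩ := SimpleGraph.ConnectedComponent.exact h
  exact h5 _ _ p d d' rfl rfl

/-- components with an edge -/
abbrev Kc {G : SimpleGraph V} (σ : Equiv.Perm G.Dart) (hsrc : ∀ d, (σ d).fst = d.fst) : Type :=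
  {c : G.ConnectedComponent // ∃ φ : Face σ, cmp σ hsrc φ = c}

/-- a face in the component -/
noncomputable def ch {G : SimpleGraph V} (σ : Equiv.Perm G.Dart)
    (hsrc : ∀ d, (σ d).fst = d.fst) (c : Kc σ hsrc) : Face σ := c.2.choose

theorem cmp_ch {G : SimpleGraph V} (σ : Equiv.Perm G.Dart) (hsrc : ∀ d, (σ d).fst = d.fst)
    (c : Kc σ hsrc) : cmp σ hsrc (ch σ hsrc c) = c.1 := c.2.choose_spec

/-- component as an element of `Kc` -/
def kap {G : SimpleGraph V} (σ : Equiv.Perm G.Dart) (hsrc : ∀ d, (σ d).fst = d.fst)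
    (φ : Face σ) : Kc σ hsrc := ⟨cmp σ hsrc φ, φ, rfl⟩

theorem mem_support_dart {G : SimpleGraph V} (d : G.Dart) : d.fst ∈ G.support :=
  G.mem_support.2 ⟨d.snd, d.adj⟩

theorem numComp_eq {G : SimpleGraph V} (σ : Equiv.Perm G.Dart) (hsrc : ∀ d, (σ d).fst = d.fst) :
    numComp G = Nat.card (Kc σ hsrc) := by
  unfold numComp
  have : {c : G.ConnectedComponent | ∃ v ∈ G.support, G.connectedComponentMk v = c} =
      {c | ∃ φ : Face σ, cmp σ hsrc φ = c} := by
    ext c
    constructor
    · rintro ⟨v, hv, rfl⟩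
      obtain ⟨w, hw⟩ := G.mem_support.1 hv
      exact ⟨fc σ ⟨(v, w), hw⟩, rfl⟩
    · rintro ⟨φ, rfl⟩
      obtain ⟨d, rfl⟩ := exists_fc σ φ
      exact ⟨d.fst, mem_support_dart d, rfl⟩
  rw [this]
  rfl

/-- injectivity used for the lower bound of the number of cuts -/
theorem inj_cut {G : SimpleGraph V} (σ : Equiv.Perm G.Dart)
    (hsrc : ∀ d, (σ d).fst = d.fst) (hcyc : ∀ d d' : G.Dart, d.fst = d'.fst → σ.SameCycle d d')
    (I J : Set (Face σ)) (h1 : cutF σ I = cutF σ J)
    (h2 : ∀ c, ch σ hsrc c ∈ I ↔ ch σ hsrc c ∈ J) : I = J := by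
  have h3 : cutF σ (symmDiff I J) = ∅ := by
    rw [cutF_symmDiff, h1, symmDiff_self]; rfl
  have h4 : ∀ φ, φ ∉ symmDiff I J := by
    intro φ hφ
    have h5 := closed_of_cutF σ hsrc hcyc _ h3 φ (ch σ hsrc (kap σ hsrc φ)) (by
      rw [cmp_ch]; rfl)
    have h6 := h5.1 hφ
    rw [Set.mem_symmDiff] at h6
    have h7 := h2 (kap σ hsrc φ)
    tauto
  ext φ
  have := h4 φ
  rw [Set.mem_symmDiff] at this
  tauto

/-- parity of the symmetric difference -/
theorem odd_symmDiff [Finite V] (Y Z : Set (Sym2 V)) (v : V) :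
    Odd {e | e ∈ symmDiff Y Z ∧ v ∈ e}.ncard ↔
      ¬ (Odd {e | e ∈ Y ∧ v ∈ e}.ncard ↔ Odd {e | e ∈ Z ∧ v ∈ e}.ncard) := by
  rw [GEvenAux.at_symmDiff]
  have h1 := GEvenAux.ncard_symmDiff_add {e | e ∈ Y ∧ v ∈ e} {e | e ∈ Z ∧ v ∈ e}
  rw [Nat.odd_iff, Nat.odd_iff, Nat.odd_iff]
  omega

/-- sets of edges with prescribed parity away from the base points -/
theorem exists_parity [Finite V] (G : SimpleGraph V) (b : V → V)
    (hb : ∀ v ∈ G.support, G.Reachable v (b v)) (hbb : ∀ v, b (b v) = b v) (P : Finset V)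
    (hP : ∀ v ∈ P, v ∈ G.support ∧ b v ≠ v) :
    ∃ Z ⊆ G.edgeSet, ∀ v, b v ≠ v → (Odd {e | e ∈ Z ∧ v ∈ e}.ncard ↔ v ∈ P) := by
  induction P using Finset.induction_on with
  | empty =>
    refine ⟨∅, Set.empty_subset _, ?_⟩
    intro v _
    have : {e : Sym2 V | e ∈ (∅ : Set (Sym2 V)) ∧ v ∈ e} = ∅ := by ext e; simp
    rw [this]
    simp
  | insert a P ha ih =>
    obtain ⟨Z, hZ, hZP⟩ := ih (fun v hv => hP v (Finset.mem_insert_of_mem hv))
    obtain ⟨ha1, ha2⟩ := hP a (Finset.mem_insert_self a P)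
    obtain ⟨p, hp⟩ := (hb a ha1).exists_isPath
    refine ⟨symmDiff Z {e | e ∈ p.edges}, ?_, ?_⟩
    · rintro e (h | h)
      · exact hZ h.1
      · exact p.edges_subset_edgeSet h.1
    · intro v hv
      rw [odd_symmDiff, hZP v hv]
      have h1 := even_path G a (b a) (Ne.symm ha2) p hp v
      have h2 : {e | e ∈ {e | e ∈ p.edges} ∧ v ∈ e} = {e | e ∈ p.edges ∧ v ∈ e} := rfl
      rw [h2, h1, Finset.mem_insert]
      have h3 : v ≠ b a := by
        rintro rfl
        exact hv (hbb a)
      by_cases hva : v = a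
      · subst hva
        simp [ha]
      · simp [hva, h3]

/-- all even sets of edges are cuts -/
theorem surj_cutF [Finite V] {G : SimpleGraph V} (σ : Equiv.Perm G.Dart)
    (h : PlanarRot G σ) (Z : Set (Sym2 V)) (hZ : Z ⊆ G.edgeSet) (he : EvenSet Z) :
    ∃ J, cutF σ J = Z := by
  have hsrc := h.src
  have hcyc := h.cyc
  have hfd := finite_dart G
  have hfF : Finite (Face σ) := Quotient.finite _
  have hfC : Finite G.ConnectedComponent := Quot.finite _
  -- base points
  have hbase : ∀ c : Kc σ hsrc, ∃ v ∈ G.support, G.connectedComponentMk v = c.1 := by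
    rintro ⟨c, φ, rfl⟩
    obtain ⟨d, rfl⟩ := exists_fc σ φ
    exact ⟨d.fst, mem_support_dart d, rfl⟩
  choose bs hbs1 hbs2 using hbase
  have hsupp : ∀ v ∈ G.support, ∃ φ : Face σ, cmp σ hsrc φ = G.connectedComponentMk v := by
    intro v hv
    obtain ⟨w, hw⟩ := G.mem_support.1 hv
    exact ⟨fc σ ⟨(v, w), hw⟩, rfl⟩
  let b : V → V := fun v => if hv : v ∈ G.support then bs ⟨G.connectedComponentMk v, hsupp v hv⟩
    else v
  have hb0 : ∀ v (hv : v ∈ G.support), b v = bs ⟨G.connectedComponentMk v, hsupp v hv⟩ := by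
    intro v hv
    simp only [b, dif_pos hv]
  have hb : ∀ v ∈ G.support, G.Reachable v (b v) := by
    intro v hv
    rw [hb0 v hv]
    exact (SimpleGraph.ConnectedComponent.exact (hbs2 ⟨G.connectedComponentMk v, hsupp v hv⟩)).symm
  have hbbs : ∀ c, b (bs c) = bs c := by
    intro c
    rw [hb0 _ (hbs1 c)]
    congr 1
    exact Subtype.ext (hbs2 c)
  have hbb : ∀ v, b (b v) = b v := by
    intro v
    by_cases hv : v ∈ G.support
    · rw [hb0 v hv, hbbs]
    · have : b v = v := by simp only [b, dif_neg hv]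
      rw [this, this]
  have hbinj : Function.Injective bs := by
    intro c c' hc
    apply Subtype.ext
    rw [← hbs2 c, ← hbs2 c', hc]
  -- the vertices that are not base points
  let N : Set V := {v | v ∈ G.support ∧ b v ≠ v}
  have hN : N.ncard + Nat.card (Kc σ hsrc) = G.support.ncard := by
    have h1 : (Set.range bs).ncard = Nat.card (Kc σ hsrc) := by
      rw [← Set.image_univ, Set.ncard_image_of_injective _ hbinj, Set.ncard_univ]
    have h2 : G.support = N ∪ Set.range bs := by
      ext v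
      constructor
      · intro hv
        by_cases hvb : b v = v
        · right
          exact ⟨⟨G.connectedComponentMk v, hsupp v hv⟩, by rw [← hb0 v hv]; exact hvb⟩
        · left; exact ⟨hv, hvb⟩
      · rintro (hv | ⟨c, rfl⟩)
        · exact hv.1
        · exact hbs1 c
    have h3 : Disjoint N (Set.range bs) := by
      rw [Set.disjoint_left]
      rintro v hv ⟨c, rfl⟩
      exact hv.2 (hbbs c)
    rw [← h1, h2, Set.ncard_union_eq h3]
  -- the section
  have hsec : ∀ P : Set N, ∃ Z ⊆ G.edgeSet, ∀ v : N,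
      (Odd {e | e ∈ Z ∧ (v : V) ∈ e}.ncard ↔ v ∈ P) := by
    intro P
    have hPf : (Subtype.val '' P).Finite := Set.toFinite _
    obtain ⟨Z, hZ, hZP⟩ := exists_parity G b hb hbb hPf.toFinset (by
      intro v hv
      rw [Set.Finite.mem_toFinset] at hv
      obtain ⟨w, -, rfl⟩ := hv
      exact w.2)
    refine ⟨Z, hZ, ?_⟩
    intro v
    rw [hZP v v.2.2, Set.Finite.mem_toFinset]
    constructor
    · rintro ⟨w, hw, hwv⟩
      rw [Subtype.ext hwv] at hw
      exact hw
    · intro hv
      exact ⟨v, hv, rfl⟩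
  choose sec hsec1 hsec2 using hsec
  -- upper bound for the number of even sets
  let Ev : Set (Set (Sym2 V)) := {Z | Z ⊆ G.edgeSet ∧ EvenSet Z}
  have hEv : Nat.card Ev * 2 ^ N.ncard ≤ 2 ^ G.edgeSet.ncard := by
    let F : Ev × Set N → Set G.edgeSet := fun x => Subtype.val ⁻¹' (symmDiff x.1.1 (sec x.2))
    have hF : Function.Injective F := by
      rintro ⟨⟨Z, hZ, hZe⟩, P⟩ ⟨⟨Z', hZ', hZe'⟩, P'⟩ hh
      have h1 : symmDiff Z (sec P) = symmDiff Z' (sec P') := by
        have hs1 : symmDiff Z (sec P) ⊆ G.edgeSet := by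
          rintro e (h | h)
          · exact hZ h.1
          · exact hsec1 P h.1
        have hs2 : symmDiff Z' (sec P') ⊆ G.edgeSet := by
          rintro e (h | h)
          · exact hZ' h.1
          · exact hsec1 P' h.1
        ext e
        constructor
        · intro h
          have : (⟨e, hs1 h⟩ : G.edgeSet) ∈ F (⟨Z, hZ, hZe⟩, P) := h
          rw [hh] at this
          exact this
        · intro h
          have : (⟨e, hs2 h⟩ : G.edgeSet) ∈ F (⟨Z', hZ', hZe'⟩, P') := h
          rw [← hh] at this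
          exact this
      have h2 : P = P' := by
        ext v
        rw [← hsec2 P v, ← hsec2 P' v]
        have h3 := odd_symmDiff Z (sec P) (v : V)
        have h4 := odd_symmDiff Z' (sec P') (v : V)
        rw [h1] at h3
        have h5 := Nat.not_odd_iff_even.2 (hZe v)
        have h6 := Nat.not_odd_iff_even.2 (hZe' v)
        tauto
      subst h2
      have h3 : Z = Z' := symmDiff_left_injective _ h1
      subst h3
      rfl
    have hc := Nat.card_le_card_of_injective _ hF
    have h1 : Nat.card (Set G.edgeSet) = 2 ^ G.edgeSet.ncard := by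
      have : Fintype G.edgeSet := Fintype.ofFinite _
      rw [Nat.card_eq_fintype_card, Fintype.card_set, ← Nat.card_eq_fintype_card]
      rfl
    have h2 : Nat.card (Set N) = 2 ^ N.ncard := by
      have : Fintype N := Fintype.ofFinite _
      rw [Nat.card_eq_fintype_card, Fintype.card_set, ← Nat.card_eq_fintype_card]
      rfl
    rw [Nat.card_prod, h1, h2] at hc
    exact hc
  -- lower bound for the number of cuts
  have hCut : 2 ^ numOrb (facePerm σ) ≤ (Set.range (cutF σ)).ncard * 2 ^ Nat.card (Kc σ hsrc) := by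
    let F : Set (Face σ) → Set.range (cutF σ) × Set (Kc σ hsrc) :=
      fun J => (⟨cutF σ J, J, rfl⟩, {c | ch σ hsrc c ∈ J})
    have hF : Function.Injective F := by
      intro I J hIJ
      simp only [F, Prod.mk.injEq] at hIJ
      apply inj_cut σ hsrc hcyc I J (congrArg Subtype.val hIJ.1)
      intro c
      have : (c ∈ {c | ch σ hsrc c ∈ I}) ↔ (c ∈ {c | ch σ hsrc c ∈ J}) := by rw [hIJ.2]
      exact this
    have hc := Nat.card_le_card_of_injective _ hF
    have h1 : Nat.card (Set (Face σ)) = 2 ^ numOrb (facePerm σ) := by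
      have : Fintype (Face σ) := Fintype.ofFinite _
      rw [Nat.card_eq_fintype_card, Fintype.card_set, ← Nat.card_eq_fintype_card]
      rfl
    have h2 : Nat.card (Set (Kc σ hsrc)) = 2 ^ Nat.card (Kc σ hsrc) := by
      have : Fintype (Kc σ hsrc) := Fintype.ofFinite _
      rw [Nat.card_eq_fintype_card, Fintype.card_set, ← Nat.card_eq_fintype_card]
    rw [Nat.card_prod, h1, h2] at hc
    exact hc
  have hsub : Set.range (cutF σ) ⊆ Ev := by
    rintro _ ⟨J, rfl⟩
    exact ⟨cutF_subset σ J, even_cutF σ hsrc J⟩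
  have hle : Ev.ncard ≤ (Set.range (cutF σ)).ncard := by
    have heul := h.euler
    rw [numComp_eq σ hsrc] at heul
    have e1 : Nat.card Ev = Ev.ncard := rfl
    rw [e1] at hEv
    generalize Nat.card (Kc σ hsrc) = C at *
    generalize numOrb (facePerm σ) = F at *
    generalize G.edgeSet.ncard = E at *
    generalize G.support.ncard = n at *
    generalize N.ncard = k at *
    generalize (Set.range (cutF σ)).ncard = x at *
    generalize Ev.ncard = y at *
    have h1 : y * 2 ^ (n + C) ≤ x * 2 ^ (n + C) := by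
      calc y * 2 ^ (n + C) = (y * 2 ^ k) * 2 ^ (2 * C) := by
            rw [← hN, mul_assoc, ← pow_add]; congr 2; ring
        _ ≤ 2 ^ E * 2 ^ (2 * C) := Nat.mul_le_mul_right _ hEv
        _ = 2 ^ n * 2 ^ F := by rw [← pow_add, ← pow_add, heul]
        _ ≤ 2 ^ n * (x * 2 ^ C) := Nat.mul_le_mul_left _ hCut
        _ = x * 2 ^ (n + C) := by rw [pow_add]; ring
    exact Nat.le_of_mul_le_mul_right h1 (by positivity)
  have heq : Set.range (cutF σ) = Ev := Set.eq_of_subset_of_ncard_le hsub hle (Set.toFinite _)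
  have : Z ∈ Ev := ⟨hZ, he⟩
  rw [← heq] at this
  exact this

end RDualAux

open RDualAux

theorem dual_of_rot {V : Type} [Finite V] (G : SimpleGraph V) (h : RotPlanar G) :
    HasDual G := by
  obtain ⟨σ, hσ⟩ := h
  have hsrc := hσ.src
  have hfd := finite_dart G
  have hfF : Finite (Face σ) := Quotient.finite _
  let R : Set (Face σ) := Set.range (ch σ hsrc)
  let q : Face σ → Option {φ : Face σ // φ ∉ R} := fun φ => if hφ : φ ∈ R then none else
    some ⟨φ, hφ⟩
  have hq1 : ∀ c, q (ch σ hsrc c) = none := by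
    intro c
    have : ch σ hsrc c ∈ R := ⟨c, rfl⟩
    simp only [q, dif_pos this]
  have hq2 : ∀ φ (hφ : φ ∉ R), q φ = some ⟨φ, hφ⟩ := by
    intro φ hφ
    simp only [q, dif_neg hφ]
  have hdart : ∀ e ∈ G.edgeSet, ∃ d : G.Dart, d.edge = e := by
    intro e he
    induction e using Sym2.ind with
    | _ a b => exact ⟨⟨(a, b), he⟩, rfl⟩
  let l : Sym2 V → Option {φ : Face σ // φ ∉ R} := fun e =>
    if h : e ∈ G.edgeSet then q (fc σ (hdart e h).choose) else none
  let r : Sym2 V → Option {φ : Face σ // φ ∉ R} := fun e =>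
    if h : e ∈ G.edgeSet then q (fc σ (hdart e h).choose.symm) else none
  have hcut : ∀ J, cut G l r J = cutF σ (q ⁻¹' J) := by
    intro J
    ext e
    constructor
    · rintro ⟨he, hne⟩
      have hd := (hdart e he).choose_spec
      simp only [l, r, dif_pos he] at hne
      have := (mem_cutF σ (q ⁻¹' J) (hdart e he).choose).2 hne
      rw [hd] at this
      exact this
    · intro he'
      have he := cutF_subset σ _ he'
      have hd := (hdart e he).choose_spec
      refine ⟨he, ?_⟩
      simp only [l, r, dif_pos he]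
      have h1 : (hdart e he).choose.edge ∈ cutF σ (q ⁻¹' J) := by rw [hd]; exact he'
      exact (mem_cutF σ (q ⁻¹' J) (hdart e he).choose).1 h1
  refine ⟨Option {φ : Face σ // φ ∉ R}, l, r, inferInstance, ⟨none⟩, ?_, ?_, ?_⟩
  · intro J
    rw [hcut]
    exact even_cutF σ hsrc _
  · intro Z hZ he
    obtain ⟨J0, hJ0⟩ := surj_cutF σ hσ Z hZ he
    let J1 : Set (Face σ) := {φ | ¬ (φ ∈ J0 ↔ ch σ hsrc (kap σ hsrc φ) ∈ J0)}
    have hJ1 : cutF σ J1 = cutF σ J0 := by
      ext e
      constructor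
      · rintro ⟨d, rfl, hd⟩
        rw [mem_cutF]
        have hk : kap σ hsrc (fc σ d) = kap σ hsrc (fc σ d.symm) := by
          apply Subtype.ext
          show cmp σ hsrc (fc σ d) = cmp σ hsrc (fc σ d.symm)
          rw [cmp_fc, cmp_fc]
          exact SimpleGraph.ConnectedComponent.sound d.adj.reachable
        simp only [J1, Set.mem_ofPred_eq, hk] at hd
        tauto
      · rintro ⟨d, rfl, hd⟩
        rw [mem_cutF]
        have hk : kap σ hsrc (fc σ d) = kap σ hsrc (fc σ d.symm) := by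
          apply Subtype.ext
          show cmp σ hsrc (fc σ d) = cmp σ hsrc (fc σ d.symm)
          rw [cmp_fc, cmp_fc]
          exact SimpleGraph.ConnectedComponent.sound d.adj.reachable
        simp only [J1, Set.mem_ofPred_eq, hk]
        tauto
    have hkch : ∀ c, kap σ hsrc (ch σ hsrc c) = c := fun c => Subtype.ext (cmp_ch σ hsrc c)
    have hR : ∀ φ ∈ R, φ ∉ J1 := by
      rintro _ ⟨c, rfl⟩
      simp only [J1, Set.mem_ofPred_eq, hkch]
      tauto
    refine ⟨{x | ∃ φ : {φ : Face σ // φ ∉ R}, x = some φ ∧ φ.1 ∈ J1}, ?_⟩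
    rw [hcut, ← hJ0, ← hJ1]
    congr 1
    ext φ
    constructor
    · rintro ⟨ψ, h1, h2⟩
      by_cases hφ : φ ∈ R
      · simp only [q, dif_pos hφ] at h1
        exact absurd h1 (by simp)
      · rw [hq2 φ hφ] at h1
        have h3 := Option.some.inj h1
        rw [← h3] at h2
        exact h2
    · intro hφ
      have hφR : φ ∉ R := fun h => hR φ h hφ
      exact ⟨⟨φ, hφR⟩, hq2 φ hφR, hφ⟩
  · intro J hJ
    rw [hcut] at hJ
    have h1 : ∀ φ, φ ∈ q ⁻¹' J ↔ none ∈ J := by
      intro φ
      rw [closed_of_cutF σ hsrc hσ.cyc _ hJ φ (ch σ hsrc (kap σ hsrc φ)) (by rw [cmp_ch]; rfl)]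
      show q (ch σ hsrc (kap σ hsrc φ)) ∈ J ↔ none ∈ J
      rw [hq1]
    by_cases h0 : none ∈ J
    · right
      rw [Set.eq_univ_iff_forall]
      intro x
      match x with
      | none => exact h0
      | some φ =>
        have := (h1 φ.1).2 h0
        rw [Set.mem_preimage, hq2 φ.1 φ.2] at this
        exact this
    · left
      rw [Set.eq_empty_iff_forall_notMem]
      intro x hx
      match x with
      | none => exact h0 hx
      | some φ =>
        apply h0
        apply (h1 φ.1).1
        rw [Set.mem_preimage, hq2 φ.1 φ.2]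
        exact hx

end Pool.Agent.MP9d6bd1
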