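import Mathlib
import Pool.Agent.Lib.MP_9d6bd1_lc.GDefs
import Pool.Agent.Lib.MP_9d6bd1_lc.GEven
import Pool.Agent.Lib.MP_9d6bd1_lc.GFace
import Pool.Agent.Lib.MP_9d6bd1_lc.Rot

/-!
# MP_9d6bd1_lc, module W3b: rotation system from the faces of a 2-connected graph
-/

set_option autoImplicit false

open Classical

namespace Pool.Agent.MP9d6bd1

namespace RFacesAux

/-- two involutions without fixed points have a common colouring with two colours -/
theorem two_col {F : Type} (α β : F → F) (hα : Function.Involutive α)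
    (hβ : Function.Involutive β) (hα' : ∀ x, α x ≠ x) (hβ' : ∀ x, β x ≠ x) :
    ∃ s : F → Bool, (∀ x, s (α x) = !s x) ∧ ∀ x, s (β x) = !s x := by
  obtain ⟨a, ha⟩ : ∃ a : Equiv.Perm F, ∀ x, a x = α x := ⟨hα.toPerm α, fun _ => rfl⟩
  obtain ⟨b, hb⟩ : ∃ b : Equiv.Perm F, ∀ x, b x = β x := ⟨hβ.toPerm β, fun _ => rfl⟩
  have haa : a * a = 1 := by
    ext x
    rw [Equiv.Perm.mul_apply, ha, ha, hα x]
    rfl
  have hbb : b * b = 1 := by
    ext x
    rw [Equiv.Perm.mul_apply, hb, hb, hβ x]
    rfl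
  have ha' : a⁻¹ = a := inv_eq_of_mul_eq_one_left haa
  have hb' : b⁻¹ = b := inv_eq_of_mul_eq_one_left hbb
  obtain ⟨ρ, hρ⟩ : ∃ ρ : Equiv.Perm F, ρ = a * b := ⟨_, rfl⟩
  have hρi : ρ⁻¹ = b * a := by rw [hρ, mul_inv_rev, ha', hb']
  have hsc : SemiconjBy a ρ ρ⁻¹ := by
    rw [SemiconjBy, hρi, hρ, ← mul_assoc, haa, one_mul, mul_assoc, haa, mul_one]
  have hk : ∀ (k : ℤ) (x : F), a ((ρ ^ k) x) = (ρ ^ (-k)) (a x) := by
    intro k x
    have h := hsc.zpow_right k
    rw [inv_zpow, ← zpow_neg] at h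
    exact congrArg (fun g : Equiv.Perm F => g x) h
  have hno : ∀ x, ¬ ρ.SameCycle x (a x) := by
    rintro x ⟨k, hk1⟩
    rcases Int.even_or_odd k with ⟨m, hm⟩ | ⟨m, hm⟩
    · have h1 : a ((ρ ^ m) x) = (ρ ^ m) x := by
        rw [hk m x, ← hk1, hm, ← Equiv.Perm.mul_apply, ← zpow_add]
        congr 2
        ring
      exact hα' _ ((ha _).symm.trans h1)
    · have h1 : a ((ρ ^ m) x) = (ρ ^ (1 + m)) x := by
        rw [hk m x, ← hk1, hm, ← Equiv.Perm.mul_apply, ← zpow_add]
        congr 2
        ring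
      have h3 : a (b ((ρ ^ m) x)) = (ρ ^ (1 + m)) x := by
        rw [zpow_add, zpow_one, hρ]
        rfl
      have h2 : b ((ρ ^ m) x) = (ρ ^ m) x := a.injective (h3.trans h1.symm)
      exact hβ' _ ((hb _).symm.trans h2)
  have hmap : ∀ x y, ρ.SameCycle x y → ρ.SameCycle (a x) (a y) := by
    rintro x y ⟨k, rfl⟩
    exact ⟨-k, (hk k x).symm⟩
  obtain ⟨mk, hmk⟩ : ∃ mk : F → Quotient (Equiv.Perm.SameCycle.setoid ρ),
    ∀ x y, mk x = mk y ↔ ρ.SameCycle x y := ⟨fun x => Quotient.mk _ x, fun x y => Quotient.eq⟩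
  have key : ∀ x, (WellOrderingRel (mk (a x)) (mk x) ↔ ¬ WellOrderingRel (mk x) (mk (a x))) := by
    intro x
    have hne : mk x ≠ mk (a x) := fun h => hno x ((hmk _ _).mp h)
    constructor
    · intro h1 h2
      exact asymm h1 h2
    · intro h1
      rcases trichotomous_of WellOrderingRel (mk x) (mk (a x)) with h | h | h
      · exact absurd h h1
      · exact absurd h hne
      · exact h
  refine ⟨fun x => decide (WellOrderingRel (mk x) (mk (a x))), ?_, ?_⟩
  · intro x
    have e1 : α x = a x := (ha x).symm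
    have e2 : a (a x) = x := by
      rw [← Equiv.Perm.mul_apply, haa]
      rfl
    simp only [e1, e2]
    by_cases h : WellOrderingRel (mk x) (mk (a x))
    · have := (key x).not.mpr (not_not.mpr h)
      simp [h, this]
    · have := (key x).mpr h
      simp [h, this]
  · intro x
    have e1 : β x = b x := (hb x).symm
    have e2 : mk (b x) = mk (a x) := by
      rw [hmk]
      have h1 : ρ.SameCycle (ρ x) x := ⟨-1, by simp⟩
      have h2 := hmap _ _ h1
      have h3 : a (ρ x) = b x := by
        rw [hρ, Equiv.Perm.mul_apply, ← Equiv.Perm.mul_apply, haa]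
        rfl
      rw [h3] at h2
      exact h2
    have e3 : mk (a (b x)) = mk x := by
      rw [hmk]
      refine ⟨-1, ?_⟩
      have : a (b x) = ρ x := by rw [hρ]; rfl
      rw [this]
      simp
    simp only [e1, e2, e3]
    by_cases h : WellOrderingRel (mk x) (mk (a x))
    · have := (key x).not.mpr (not_not.mpr h)
      simp [h, this]
    · have := (key x).mpr h
      simp [h, this]

/-- a finite set with an involution without fixed points -/
theorem even_of_invol {F : Type} (S : Finset F) (β : F → F) (hβ : Function.Involutive β)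
    (hβ' : ∀ x, β x ≠ x) (hS : ∀ x ∈ S, β x ∈ S) : Even S.card := by
  have h : ∑ x ∈ S, (1 : ZMod 2) = 0 :=
    Finset.sum_involution (fun a _ => β a) (fun _ _ => by decide) (fun a _ _ => hβ' a)
      (fun a ha => hS a ha) (fun a _ => hβ a)
  rw [Finset.sum_const, nsmul_eq_mul, mul_one] at h
  exact (ZMod.natCast_eq_zero_iff_even).mp h

/-- counting flags and darts modulo two -/
theorem flags_mod {D : Type} (A : Finset D) (p : D × Bool → Prop) :
    Even (((A ×ˢ (Finset.univ : Finset Bool)).filter p).card +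
      (A.filter fun d => ¬ (p (d, true) ↔ p (d, false))).card) := by
  rw [Finset.card_filter, Finset.card_filter, Finset.sum_product, ← Finset.sum_add_distrib]
  refine Finset.even_sum _ fun d _ => ?_
  simp only [Fintype.sum_bool]
  by_cases h1 : p (d, true) <;> by_cases h2 : p (d, false) <;> simp [h1, h2]

variable {V ι : Type} {G : SimpleGraph V}

theorem dart_eq {d d' : G.Dart} (h : d.fst = d'.fst) (he : d.edge = d'.edge) : d = d' := by
  rw [SimpleGraph.dart_edge_eq_iff] at he
  rcases he with he | he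
  · exact he
  · exfalso
    rw [he] at h
    exact d'.adj.ne h.symm

/-- the edges at a vertex and the darts at a vertex -/
theorem edges_at [Fintype G.Dart] (Z : Set (Sym2 V)) (hZ : Z ⊆ G.edgeSet) (v : V) :
    {e | e ∈ Z ∧ v ∈ e}.ncard =
      (Finset.univ.filter fun d : G.Dart => d.fst = v ∧ d.edge ∈ Z).card := by
  have h : {e | e ∈ Z ∧ v ∈ e} =
      (((Finset.univ.filter fun d : G.Dart => d.fst = v ∧ d.edge ∈ Z).image
        SimpleGraph.Dart.edge : Finset (Sym2 V)) : Set (Sym2 V)) := by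
    ext e
    rw [Finset.mem_coe, Finset.mem_image]
    constructor
    · rintro ⟨he, hv⟩
      obtain ⟨w, rfl⟩ := Sym2.mem_iff_exists.mp hv
      have hadj : G.Adj v w := hZ he
      exact ⟨⟨(v, w), hadj⟩, Finset.mem_filter.mpr ⟨Finset.mem_univ _, rfl, he⟩, rfl⟩
    · rintro ⟨d, hd, rfl⟩
      obtain ⟨-, h1, h2⟩ := Finset.mem_filter.mp hd
      refine ⟨h2, ?_⟩
      rw [← h1]
      exact Sym2.mem_mk_left _ _
  rw [h, Set.ncard_coe_finset, Finset.card_image_of_injOn]
  intro d hd d' hd' hdd
  obtain ⟨-, h1, -⟩ := Finset.mem_filter.mp hd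
  obtain ⟨-, h2, -⟩ := Finset.mem_filter.mp hd'
  exact dart_eq (h1.trans h2.symm) hdd

/-- face of a flag -/
def fc (l r : Sym2 V → ι) (x : G.Dart × Bool) : ι := if x.2 then l x.1.edge else r x.1.edge

theorem flag_eq {l r : Sym2 V → ι} (hlr : ∀ e ∈ G.edgeSet, l e ≠ r e) {x y : G.Dart × Bool}
    (h1 : x.1 = y.1) (h2 : fc l r x = fc l r y) : x = y := by
  obtain ⟨d, b⟩ := x
  obtain ⟨d', b'⟩ := y
  simp only at h1
  subst h1
  have h3 := hlr d.edge d.edge_mem
  cases b <;> cases b' <;> simp only [fc, if_true, Bool.false_eq_true, if_false] at h2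
  · rfl
  · exact absurd h2.symm h3
  · exact absurd h2 h3
  · rfl

theorem mem_cut1 {l r : Sym2 V → ι} (hlr : ∀ e ∈ G.edgeSet, l e ≠ r e) {e : Sym2 V}
    (he : e ∈ G.edgeSet) (j : ι) : e ∈ cut G l r {j} ↔ l e = j ∨ r e = j := by
  have h3 := hlr e he
  constructor
  · rintro ⟨-, h⟩
    by_contra hc
    push Not at hc
    exact h ⟨fun h1 => absurd h1 hc.1, fun h1 => absurd h1 hc.2⟩
  · rintro (h | h)
    · refine ⟨he, fun h1 => ?_⟩
      exact h3 (h.trans (h1.mp h).symm)
    · refine ⟨he, fun h1 => ?_⟩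
      exact h3 ((h1.mpr h).trans h.symm)

theorem fc_mem {l r : Sym2 V → ι} (hlr : ∀ e ∈ G.edgeSet, l e ≠ r e) (x : G.Dart × Bool) :
    x.1.edge ∈ cut G l r {fc l r x} := by
  rw [mem_cut1 hlr x.1.edge_mem]
  unfold fc
  cases x.2 <;> simp

theorem exists_flag {l r : Sym2 V → ι} (hlr : ∀ e ∈ G.edgeSet, l e ≠ r e) (d : G.Dart) (j : ι)
    (h : d.edge ∈ cut G l r {j}) : ∃ b, fc l r (d, b) = j := by
  rw [mem_cut1 hlr d.edge_mem] at h
  rcases h with h | h
  · exact ⟨true, by simpa [fc] using h⟩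
  · exact ⟨false, by simpa [fc] using h⟩

/-- the other flag with the same vertex and the same face -/
theorem exists_beta {l r : Sym2 V → ι} (hlr : ∀ e ∈ G.edgeSet, l e ≠ r e)
    (htwo : ∀ j v, {e | e ∈ cut G l r {j} ∧ v ∈ e}.ncard = 0 ∨
      {e | e ∈ cut G l r {j} ∧ v ∈ e}.ncard = 2) (hfin : G.edgeSet.Finite)
    (x : G.Dart × Bool) : ∃ y : G.Dart × Bool, y ≠ x ∧ y.1.fst = x.1.fst ∧ fc l r y = fc l r x ∧
      ∀ z : G.Dart × Bool, z.1.fst = x.1.fst → fc l r z = fc l r x → z = x ∨ z = y := by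
  obtain ⟨T, hT⟩ : ∃ T, T = {e | e ∈ cut G l r {fc l r x} ∧ x.1.fst ∈ e} := ⟨_, rfl⟩
  have hTf : T.Finite := by
    rw [hT]
    exact hfin.subset fun e he => he.1.1
  have hxT : x.1.edge ∈ T := by
    rw [hT]
    exact ⟨fc_mem hlr x, Sym2.mem_mk_left _ _⟩
  have h2 : T.ncard = 2 := by
    rcases htwo (fc l r x) x.1.fst with h | h
    · rw [← hT] at h
      have := (Set.ncard_eq_zero hTf).mp h
      rw [this] at hxT
      exact absurd hxT (Set.notMem_empty _)
    · rw [← hT] at h
      exact h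
  obtain ⟨e', he', hne', hall⟩ : ∃ e' ∈ T, e' ≠ x.1.edge ∧ ∀ e ∈ T, e = x.1.edge ∨ e = e' := by
    obtain ⟨e1, e2, h12, hTe⟩ := Set.ncard_eq_two.mp h2
    rw [hTe] at hxT ⊢
    rcases hxT with h | h
    · refine ⟨e2, by simp, ?_, ?_⟩
      · rw [h]; exact h12.symm
      · rintro e (he | he)
        · left; rw [he, h]
        · right; exact he
    · have h : x.1.edge = e2 := h
      refine ⟨e1, by simp, ?_, ?_⟩
      · rw [h]; exact h12
      · rintro e (he | he)
        · right; exact he
        · left; rw [h]; exact he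
  rw [hT] at he'
  obtain ⟨hc', hv'⟩ := he'
  obtain ⟨w, rfl⟩ := Sym2.mem_iff_exists.mp hv'
  have hadj : G.Adj x.1.fst w := hc'.1
  obtain ⟨b, hb⟩ := exists_flag hlr (⟨(x.1.fst, w), hadj⟩ : G.Dart) _ hc'
  refine ⟨(⟨(x.1.fst, w), hadj⟩, b), ?_, rfl, hb, ?_⟩
  · intro h
    apply hne'
    rw [← h]
    rfl
  · intro z hz1 hz2
    have hzT : z.1.edge ∈ T := by
      rw [hT, ← hz2, ← hz1]
      exact ⟨fc_mem hlr z, Sym2.mem_mk_left _ _⟩
    rcases hall _ hzT with h | h
    · left
      exact flag_eq hlr (dart_eq hz1 h) hz2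
    · right
      refine flag_eq hlr (dart_eq hz1 h) (hz2.trans hb.symm)

/-- everything that is needed about the flags -/
structure Flg (G : SimpleGraph V) (l r : Sym2 V → ι) (β : G.Dart × Bool → G.Dart × Bool)
    (s : G.Dart × Bool → Bool) : Prop where
  invol : Function.Involutive β
  ne : ∀ x, β x ≠ x
  fst : ∀ x, (β x).1.fst = x.1.fst
  face : ∀ x, fc l r (β x) = fc l r x
  sa : ∀ d b, s (d.symm, b) = !s (d, b)
  sb : ∀ x, s (β x) = !s x
  sc : ∀ d b, s (d, !b) = !s (d, b)

theorem exists_flg [Finite V] {l r : Sym2 V → ι} (hD : IsDual G l r)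
    (hlr : ∀ e ∈ G.edgeSet, l e ≠ r e)
    (htwo : ∀ j v, {e | e ∈ cut G l r {j} ∧ v ∈ e}.ncard = 0 ∨
      {e | e ∈ cut G l r {j} ∧ v ∈ e}.ncard = 2) : ∃ β s, Flg G l r β s := by
  have := Fintype.ofFinite V
  have hfin : G.edgeSet.Finite := Set.toFinite _
  have hβ := exists_beta hlr htwo hfin
  choose β b1 b2 b3 b4 using hβ
  have binv : Function.Involutive β := by
    intro x
    rcases b4 x (β (β x)) ((b2 _).trans (b2 x)) ((b3 _).trans (b3 x)) with h | h
    · exact h
    · exact absurd h (b1 (β x))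
  obtain ⟨s0, s1, s2⟩ := two_col (fun x : G.Dart × Bool => (x.1.symm, x.2)) β
    (fun x => by simp) binv (fun x h => x.1.symm_ne (congrArg Prod.fst h)) b1
  have s1' : ∀ (d : G.Dart) b, s0 (d.symm, b) = !s0 (d, b) := fun d b => s1 (d, b)
  -- the set of edges where the colouring must be changed
  obtain ⟨Z, hZ⟩ : ∃ Z : Set (Sym2 V), Z = {e | ∃ d : G.Dart, d.edge = e ∧
    (s0 (d, true) = true ↔ s0 (d, false) = true)} := ⟨_, rfl⟩
  have hZe : ∀ d : G.Dart, d.edge ∈ Z ↔ (s0 (d, true) = true ↔ s0 (d, false) = true) := by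
    intro d
    rw [hZ]
    constructor
    · rintro ⟨d', h1, h2⟩
      rw [SimpleGraph.dart_edge_eq_iff] at h1
      rcases h1 with h1 | h1
      · rw [← h1]; exact h2
      · rw [h1, s1', s1'] at h2
        simpa using h2
    · intro h
      exact ⟨d, rfl, h⟩
  have hZs : Z ⊆ G.edgeSet := by
    rw [hZ]
    rintro e ⟨d, rfl, -⟩
    exact d.edge_mem
  have hZeven : EvenSet Z := by
    intro v
    rw [edges_at Z hZs v]
    obtain ⟨A, hA⟩ : ∃ A : Finset G.Dart, A = Finset.univ.filter fun d => d.fst = v := ⟨_, rfl⟩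
    have h1 : Even (((A ×ˢ (Finset.univ : Finset Bool)).filter fun x => s0 x = true).card +
        (A.filter fun d => ¬ (s0 (d, true) = true ↔ s0 (d, false) = true)).card) := by
      convert flags_mod A (fun x => s0 x = true)
    have h2 : ((A ×ˢ (Finset.univ : Finset Bool)).filter fun x => s0 x = true).card =
        ((A ×ˢ (Finset.univ : Finset Bool)).filter fun x => ¬ s0 x = true).card := by
      have hm : ∀ x, x ∈ A ×ˢ (Finset.univ : Finset Bool) → β x ∈ A ×ˢ (Finset.univ : Finset Bool) := by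
        intro x hx
        rw [Finset.mem_product, hA, Finset.mem_filter] at hx ⊢
        exact ⟨⟨Finset.mem_univ _, (b2 x).trans hx.1.2⟩, Finset.mem_univ _⟩
      refine Finset.card_nbij' β β ?_ ?_ (fun x _ => binv x) (fun x _ => binv x)
      · intro x hx
        rw [Finset.mem_coe, Finset.mem_filter] at hx ⊢
        refine ⟨hm x hx.1, ?_⟩
        rw [s2, hx.2]
        decide
      · intro x hx
        rw [Finset.mem_coe, Finset.mem_filter] at hx ⊢
        refine ⟨hm x hx.1, ?_⟩
        rw [s2]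
        have := hx.2
        simp at this
        rw [this]
        rfl
    have h3 := Finset.card_filter_add_card_filter_not (s := A ×ˢ (Finset.univ : Finset Bool))
      (fun x => s0 x = true)
    rw [Finset.card_product, Finset.card_univ, Fintype.card_bool] at h3
    have h4 : (A.filter fun d => (s0 (d, true) = true ↔ s0 (d, false) = true)).card +
        (A.filter fun d => ¬ (s0 (d, true) = true ↔ s0 (d, false) = true)).card = A.card := by
      convert Finset.card_filter_add_card_filter_not (s := A)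
        (fun d => (s0 (d, true) = true ↔ s0 (d, false) = true))
    have h5 : (Finset.univ.filter fun d : G.Dart => d.fst = v ∧ d.edge ∈ Z) =
        A.filter fun d => (s0 (d, true) = true ↔ s0 (d, false) = true) := by
      rw [hA, Finset.filter_filter]
      refine Finset.filter_congr fun d _ => ?_
      rw [hZe]
    rw [h5]
    rw [Nat.even_iff] at h1 ⊢
    omega
  obtain ⟨J, hJ⟩ := hD.exist Z hZs hZeven
  have hJe : ∀ d : G.Dart, (¬ (l d.edge ∈ J ↔ r d.edge ∈ J)) ↔
      (s0 (d, true) = true ↔ s0 (d, false) = true) := by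
    intro d
    rw [← hZe, ← hJ]
    exact ⟨fun h => ⟨d.edge_mem, h⟩, fun h => h.2⟩
  refine ⟨β, fun x => xor (s0 x) (decide (fc l r x ∈ J)), binv, b1, b2, b3, ?_, ?_, ?_⟩
  · intro d b
    have : fc l r (d.symm, b) = fc l r (d, b) := by
      unfold fc
      simp
    rw [this, s1']
    simp
  · intro x
    rw [b3, s2]
    simp
  · have h0 : ∀ d : G.Dart, xor (s0 (d, true)) (decide (fc l r (d, true) ∈ J)) =
        !xor (s0 (d, false)) (decide (fc l r (d, false) ∈ J)) := by
      intro d
      have h := hJe d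
      have e1 : fc l r (d, true) = l d.edge := by simp [fc]
      have e2 : fc l r (d, false) = r d.edge := by simp [fc]
      rw [e1, e2]
      by_cases h1 : l d.edge ∈ J <;> by_cases h2 : r d.edge ∈ J <;>
        cases h3 : s0 (d, true) <;> cases h4 : s0 (d, false) <;> simp_all
    intro d b
    cases b
    · exact h0 d
    · have := h0 d
      simp only [Bool.not_true]
      rw [this, Bool.not_not]

theorem same_inv {α γ : Type} (σ : Equiv.Perm α) (f : α → γ) (h : ∀ x, f (σ x) = f x) {x y : α}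
    (hxy : σ.SameCycle x y) : f x = f y := by
  obtain ⟨k, rfl⟩ := hxy
  induction k using Int.induction_on with
  | zero => rfl
  | succ n ih =>
    rw [add_comm, zpow_add, zpow_one, Equiv.Perm.mul_apply, h]
    exact ih
  | pred n ih =>
    rw [← h ((σ ^ (-(n : ℤ) - 1)) x), ← Equiv.Perm.mul_apply]
    have : σ * σ ^ (-(n : ℤ) - 1) = σ ^ (-(n : ℤ)) := by
      rw [← zpow_one_add]
      congr 1
      ring
    rw [this]
    exact ih

theorem fc_symm (l r : Sym2 V → ι) (d : G.Dart) (b : Bool) :
    fc l r (d.symm, b) = fc l r (d, b) := by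
  unfold fc
  simp

namespace Flg

variable {l r : Sym2 V → ι} {β : G.Dart × Bool → G.Dart × Bool} {s : G.Dart × Bool → Bool}

theorem spec (h : Flg G l r β s) (d : G.Dart) : s (d, s (d, true)) = true := by
  cases hs : s (d, true)
  · have := h.sc d true
    rw [hs] at this
    simpa using this
  · exact hs

theorem pos (h : Flg G l r β s) {x : G.Dart × Bool} (hx : s x = true) :
    (x.1, s (x.1, true)) = x := by
  obtain ⟨d, b⟩ := x
  cases b
  · have := h.sc d false
    rw [hx] at this
    simp only [Bool.not_false, Bool.not_true] at this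
    simp only [this]
  · simp only [hx]

theorem neg (h : Flg G l r β s) {x : G.Dart × Bool} (hx : s x = false) :
    (x.1, !s (x.1, true)) = x := by
  obtain ⟨d, b⟩ := x
  cases b
  · have := h.sc d false
    rw [hx] at this
    simp only [Bool.not_false] at this
    simp only [this, Bool.not_true]
  · simp only [hx, Bool.not_false]

theorem sneg (h : Flg G l r β s) (d : G.Dart) : s (d, !s (d, true)) = false := by
  rw [h.sc, h.spec]
  rfl

/-- the rotation -/
noncomputable def rot (h : Flg G l r β s) : Equiv.Perm G.Dart where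
  toFun d := (β (d, !s (d, true))).1
  invFun d := (β (d, s (d, true))).1
  left_inv d := by
    have h1 : s (β (d, !s (d, true))) = true := by rw [h.sb, h.sneg]; rfl
    have h2 := h.pos h1
    change (β ((β (d, !s (d, true))).1, s ((β (d, !s (d, true))).1, true))).1 = d
    rw [h2, h.invol]
  right_inv d := by
    have h1 : s (β (d, s (d, true))) = false := by rw [h.sb, h.spec]; rfl
    have h2 := h.neg h1
    change (β ((β (d, s (d, true))).1, !s ((β (d, s (d, true))).1, true))).1 = d
    rw [h2, h.invol]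

/-- the face of a dart -/
def fa (_ : Flg G l r β s) (d : G.Dart) : ι := fc l r (d, s (d, true))

theorem rot_fst (h : Flg G l r β s) (d : G.Dart) : (h.rot d).fst = d.fst := h.fst _

theorem face_apply (h : Flg G l r β s) (d : G.Dart) :
    facePerm h.rot d = (β (d.symm, s (d, true))).1 := by
  have h1 : facePerm h.rot d = h.rot d.symm := rfl
  have h2 : h.rot d.symm = (β (d.symm, !s (d.symm, true))).1 := rfl
  rw [h1, h2, h.sa, Bool.not_not]

theorem face_fst (h : Flg G l r β s) (d : G.Dart) : (facePerm h.rot d).fst = d.snd := by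
  rw [h.face_apply, h.fst]
  rfl

theorem fa_face (h : Flg G l r β s) (d : G.Dart) : h.fa (facePerm h.rot d) = h.fa d := by
  rw [h.face_apply]
  unfold fa
  have h1 : s (β (d.symm, s (d, true))) = true := by rw [h.sb, h.sa, h.spec]; rfl
  rw [h.pos h1, h.face, fc_symm]

theorem fa_unique (h : Flg G l r β s) (hlr : ∀ e ∈ G.edgeSet, l e ≠ r e) {x y : G.Dart}
    (hf : h.fa x = h.fa y) (he : x.edge = y.edge) : x = y := by
  rw [SimpleGraph.dart_edge_eq_iff] at he
  rcases he with he | he
  · exact he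
  · exfalso
    rw [he] at hf
    unfold fa at hf
    rw [fc_symm] at hf
    have h1 := flag_eq hlr (x := (y, s (y.symm, true))) (y := (y, s (y, true))) rfl hf
    have h2 : s (y.symm, true) = s (y, true) := congrArg Prod.snd h1
    rw [h.sa] at h2
    exact absurd h2 (by simp)

theorem fa_surj (h : Flg G l r β s) (hne : ∀ j, (cut G l r {j}).Nonempty)
    (hlr : ∀ e ∈ G.edgeSet, l e ≠ r e) (j : ι) : ∃ d, h.fa d = j := by
  obtain ⟨e, he⟩ := hne j
  obtain ⟨d, rfl⟩ : ∃ d : G.Dart, d.edge = e := by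
    have h1 := he.1
    induction e using Sym2.ind with
    | _ v w => exact ⟨⟨(v, w), h1⟩, rfl⟩
  obtain ⟨b, hb⟩ := exists_flag hlr d j he
  cases hs : s (d, b)
  · refine ⟨d.symm, ?_⟩
    have h1 : s (d.symm, b) = true := by rw [h.sa, hs]; rfl
    have h2 := h.pos h1
    unfold fa
    rw [h2, fc_symm, hb]
  · refine ⟨d, ?_⟩
    have h2 := h.pos hs
    unfold fa
    rw [h2, hb]

/-- the rotation at a vertex is one cycle -/
theorem one_cycle [Fintype V] (h : Flg G l r β s) (hD : IsDual G l r)
    (h2 : TwoConn G G.support) {d d' : G.Dart} (hd : d.fst = d'.fst) :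
    h.rot.SameCycle d d' := by
  have : Fintype G.Dart := Fintype.ofFinite _
  by_contra hno
  obtain ⟨A, hA⟩ : ∃ A : Finset G.Dart, A = Finset.univ.filter fun x => h.rot.SameCycle d x :=
    ⟨_, rfl⟩
  have hmem : ∀ x, x ∈ A ↔ h.rot.SameCycle d x := by
    intro x
    rw [hA, Finset.mem_filter]
    exact ⟨fun h => h.2, fun h => ⟨Finset.mem_univ _, h⟩⟩
  have hfst : ∀ x ∈ A, x.fst = d.fst := by
    intro x hx
    exact (same_inv h.rot (fun d : G.Dart => d.fst) h.rot_fst ((hmem x).mp hx)).symm
  have hclosed : ∀ x : G.Dart × Bool, x.1 ∈ A → (β x).1 ∈ A := by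
    intro x hx
    rw [hmem] at hx ⊢
    cases hs : s x
    · have h3 : (β x).1 = h.rot x.1 := by
        have : h.rot x.1 = (β (x.1, !s (x.1, true))).1 := rfl
        rw [this, h.neg hs]
      rw [h3]
      exact Equiv.Perm.sameCycle_apply_right.mpr hx
    · have h3 : (β x).1 = h.rot.symm x.1 := by
        have : h.rot.symm x.1 = (β (x.1, s (x.1, true))).1 := rfl
        rw [this, h.pos hs]
      rw [h3]
      exact Equiv.Perm.sameCycle_symm_apply_right.mpr hx
  have hev : ∀ J : Set ι, Even (A.filter fun x => x.edge ∈ cut G l r J).card := by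
    intro J
    have e1 : Even ((A ×ˢ (Finset.univ : Finset Bool)).filter fun x => fc l r x ∈ J).card := by
      refine even_of_invol _ β h.invol h.ne fun x hx => ?_
      rw [Finset.mem_filter, Finset.mem_product] at hx ⊢
      refine ⟨⟨hclosed x hx.1.1, Finset.mem_univ _⟩, ?_⟩
      rw [h.face]
      exact hx.2
    have e2 := flags_mod A (fun x => fc l r x ∈ J)
    have e3 : (A.filter fun x => x.edge ∈ cut G l r J) =
        A.filter fun d => ¬ (fc l r (d, true) ∈ J ↔ fc l r (d, false) ∈ J) := by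
      refine Finset.filter_congr fun x _ => ?_
      simp only [fc, if_true, Bool.false_eq_true, if_false]
      exact ⟨fun hx => hx.2, fun hx => ⟨x.edge_mem, hx⟩⟩
    rw [e3]
    rw [Nat.even_add] at e2
    convert e2.mp (by convert e1)
  -- a cycle through the two edges
  have hne : d.snd ≠ d'.snd := by
    intro hs
    apply hno
    have : d = d' := dart_eq hd (by
      change s(d.fst, d.snd) = s(d'.fst, d'.snd)
      rw [hd, hs])
    rw [this]
  have hsup : ∀ x : G.Dart, x.snd ∈ G.support \ {x.fst} := by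
    intro x
    refine ⟨(SimpleGraph.mem_support G).mpr ⟨x.fst, x.adj.symm⟩, ?_⟩
    exact fun h => x.adj.ne (Set.mem_singleton_iff.mp h).symm
  obtain ⟨Z, z1, z2, z3, z4, z5, -⟩ := GFaceAux.cyc_through G d.fst (G.support \ {d.fst})
    (fun h => h.2 rfl) (h2.2 d.fst) (hsup d) (by rw [hd]; exact hsup d') hne d.adj
    (by rw [hd]; exact d'.adj)
  obtain ⟨J, hJ⟩ := hD.exist Z z1 z2
  have h3 := hev J
  rw [hJ] at h3
  have h4 : (A.filter fun x => x.edge ∈ Z) = {d} := by
    ext x
    rw [Finset.mem_filter, Finset.mem_singleton]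
    constructor
    · rintro ⟨hx, hxZ⟩
      have hxf := hfst x hx
      rcases z5 _ hxZ (by rw [← hxf]; exact Sym2.mem_mk_left _ _) with h5 | h5
      · exact dart_eq hxf h5
      · exfalso
        apply hno
        have : x = d' := dart_eq (hxf.trans hd) (by
          rw [h5, hd]
          rfl)
        rw [← this]
        exact (hmem x).mp hx
    · rintro rfl
      exact ⟨(hmem _).mpr (Equiv.Perm.SameCycle.refl _ _), z3⟩
  rw [h4, Finset.card_singleton] at h3
  exact absurd h3 (by decide)

/-- the cycles of the face permutation are the faces -/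
theorem face_cycles [Fintype V] (h : Flg G l r β s) (hlr : ∀ e ∈ G.edgeSet, l e ≠ r e)
    (hmin : ∀ j, ∀ Z ⊆ cut G l r {j}, EvenSet Z → Z = ∅ ∨ Z = cut G l r {j}) {d d' : G.Dart}
    (hf : h.fa d = h.fa d') : (facePerm h.rot).SameCycle d d' := by
  have : Fintype G.Dart := Fintype.ofFinite _
  obtain ⟨O, hO⟩ : ∃ O : Finset G.Dart, O = Finset.univ.filter fun x =>
    (facePerm h.rot).SameCycle d x := ⟨_, rfl⟩
  have hmem : ∀ x, x ∈ O ↔ (facePerm h.rot).SameCycle d x := by
    intro x
    rw [hO, Finset.mem_filter]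
    exact ⟨fun h => h.2, fun h => ⟨Finset.mem_univ _, h⟩⟩
  have hfa : ∀ x ∈ O, h.fa x = h.fa d := by
    intro x hx
    exact (same_inv (facePerm h.rot) h.fa h.fa_face ((hmem x).mp hx)).symm
  have hinj : Set.InjOn SimpleGraph.Dart.edge (O : Set G.Dart) := by
    intro x hx y hy hxy
    exact h.fa_unique hlr ((hfa x hx).trans (hfa y hy).symm) hxy
  obtain ⟨Z, hZ⟩ : ∃ Z : Set (Sym2 V), Z = {e | ∃ x ∈ O, x.edge = e} := ⟨_, rfl⟩
  have hsub : Z ⊆ cut G l r {h.fa d} := by
    rw [hZ]
    rintro e ⟨x, hx, rfl⟩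
    rw [← hfa x hx]
    exact fc_mem hlr (x, s (x, true))
  have hev : EvenSet Z := by
    intro u
    have e1 : {e | e ∈ Z ∧ u ∈ e} =
        (((O.filter fun x => x.fst = u) ∪ (O.filter fun x => x.snd = u)).image
          SimpleGraph.Dart.edge : Finset (Sym2 V)) := by
      ext e
      rw [Finset.mem_coe, Finset.mem_image, hZ]
      constructor
      · rintro ⟨⟨x, hx, rfl⟩, hu⟩
        refine ⟨x, ?_, rfl⟩
        rw [Finset.mem_union, Finset.mem_filter, Finset.mem_filter]
        have hu' : u ∈ s(x.fst, x.snd) := hu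
        rcases Sym2.mem_iff.mp hu' with h1 | h1
        · exact Or.inl ⟨hx, h1.symm⟩
        · exact Or.inr ⟨hx, h1.symm⟩
      · rintro ⟨x, hx, rfl⟩
        rw [Finset.mem_union, Finset.mem_filter, Finset.mem_filter] at hx
        rcases hx with ⟨hx, h1⟩ | ⟨hx, h1⟩
        · exact ⟨⟨x, hx, rfl⟩, by rw [← h1]; exact Sym2.mem_mk_left _ _⟩
        · exact ⟨⟨x, hx, rfl⟩, by rw [← h1]; exact Sym2.mem_mk_right _ _⟩
    have e2 : Disjoint (O.filter fun x => x.fst = u) (O.filter fun x => x.snd = u) := by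
      rw [Finset.disjoint_left]
      intro x h1 h2
      have h3 := (Finset.mem_filter.mp h1).2
      have h4 := (Finset.mem_filter.mp h2).2
      exact x.adj.ne (h3.trans h4.symm)
    have e3 : (O.filter fun x => x.snd = u).card = (O.filter fun x => x.fst = u).card := by
      refine Finset.card_nbij' (fun x => facePerm h.rot x) (fun x => (facePerm h.rot).symm x) ?_ ?_
        (fun x _ => by simp) (fun x _ => by simp)
      · intro x hx
        rw [Finset.mem_coe, Finset.mem_filter, hmem] at hx ⊢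
        exact ⟨Equiv.Perm.sameCycle_apply_right.mpr hx.1, (h.face_fst x).trans hx.2⟩
      · intro x hx
        rw [Finset.mem_coe, Finset.mem_filter, hmem] at hx ⊢
        refine ⟨Equiv.Perm.sameCycle_symm_apply_right.mpr hx.1, ?_⟩
        have h1 := h.face_fst ((facePerm h.rot).symm x)
        rw [Equiv.apply_symm_apply] at h1
        rw [← h1]
        exact hx.2
    rw [e1, Set.ncard_coe_finset, Finset.card_image_of_injOn, Finset.card_union_of_disjoint e2, e3]
    · exact ⟨_, rfl⟩
    · intro x hx y hy hxy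
      refine hinj ?_ ?_ hxy
      · rw [Finset.mem_coe, Finset.mem_union, Finset.mem_filter, Finset.mem_filter] at hx
        rcases hx with hx | hx
        · exact hx.1
        · exact hx.1
      · rw [Finset.mem_coe, Finset.mem_union, Finset.mem_filter, Finset.mem_filter] at hy
        rcases hy with hy | hy
        · exact hy.1
        · exact hy.1
  have hdZ : d.edge ∈ Z := by
    rw [hZ]
    exact ⟨d, (hmem d).mpr (Equiv.Perm.SameCycle.refl _ _), rfl⟩
  rcases hmin _ Z hsub hev with h1 | h1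
  · rw [h1] at hdZ
    exact absurd hdZ (Set.notMem_empty _)
  · have h2 : d'.edge ∈ Z := by
      rw [h1, hf]
      exact fc_mem hlr (d', s (d', true))
    rw [hZ] at h2
    obtain ⟨x, hx, hxe⟩ := h2
    have : x = d' := h.fa_unique hlr ((hfa x hx).trans hf) hxe
    rw [← this]
    exact (hmem x).mp hx

end Flg

theorem numComp_one [Finite V] (h2 : TwoConn G G.support) : numComp G = 1 := by
  have hreach : ∀ v ∈ G.support, ∀ w ∈ G.support, G.Reachable v w := by
    intro v hv w hw
    have h3 : ({v, w} : Set V).ncard < G.support.ncard :=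
      lt_of_le_of_lt ((Set.ncard_insert_le v {w}).trans (by rw [Set.ncard_singleton])) h2.1
    obtain ⟨z, hz, hz'⟩ := Set.exists_mem_notMem_of_ncard_lt_ncard h3
    have hzv : v ≠ z := fun h => hz' (by simp [h])
    have hzw : w ≠ z := fun h => hz' (by simp [h])
    have := h2.2 z ⟨v, hv, hzv⟩ ⟨w, hw, hzw⟩
    exact this.map (SimpleGraph.Embedding.induce (G.support \ {z})).toHom
  have hne : G.support.Nonempty := by
    rw [← Set.ncard_pos (Set.toFinite _)]
    have := h2.1
    omega
  obtain ⟨v, hv⟩ := hne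
  unfold numComp
  rw [Set.ncard_eq_one]
  refine ⟨G.connectedComponentMk v, ?_⟩
  ext c
  constructor
  · rintro ⟨w, hw, rfl⟩
    exact SimpleGraph.ConnectedComponent.eq.mpr (hreach w hw v hv)
  · intro h
    have h' : c = G.connectedComponentMk v := h
    exact ⟨v, hv, h'.symm⟩

end RFacesAux

open RFacesAux

theorem rot_of_faces {V ι : Type} [Finite V] [Finite ι] (G : SimpleGraph V) (l r : Sym2 V → ι)
    (hD : IsDual G l r) (h2 : TwoConn G G.support) (hlr : ∀ e ∈ G.edgeSet, l e ≠ r e)
    (hne : ∀ j, (cut G l r {j}).Nonempty)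
    (hmin : ∀ j, ∀ Z ⊆ cut G l r {j}, EvenSet Z → Z = ∅ ∨ Z = cut G l r {j})
    (htwo : ∀ j v, {e | e ∈ cut G l r {j} ∧ v ∈ e}.ncard = 0 ∨
      {e | e ∈ cut G l r {j} ∧ v ∈ e}.ncard = 2)
    (hc : G.support.ncard + Nat.card ι = G.edgeSet.ncard + 2) : RotPlanar G := by
  have := Fintype.ofFinite V
  obtain ⟨β, s, h⟩ := exists_flg hD hlr htwo
  refine ⟨h.rot, h.rot_fst, fun d d' hd => h.one_cycle hD h2 hd, ?_⟩
  have h1 : numOrb (facePerm h.rot) = Nat.card ι := by
    unfold numOrb
    refine Nat.card_eq_of_bijective (Quotient.lift h.fa fun x y hxy =>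
      same_inv (facePerm h.rot) h.fa h.fa_face hxy) ⟨?_, ?_⟩
    · intro x y hxy
      induction x using Quotient.ind with
      | _ x =>
        induction y using Quotient.ind with
        | _ y => exact Quotient.sound (h.face_cycles hlr hmin hxy)
    · intro j
      obtain ⟨d, hd⟩ := h.fa_surj hne hlr j
      exact ⟨Quotient.mk _ d, hd⟩
  rw [h1, numComp_one h2]
  exact hc

end Pool.Agent.MP9d6bd1
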