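import Mathlib
import Pool.Agent.Lib.MP_9d6bd1_lc.GDefs
import Pool.Agent.Lib.MP_9d6bd1_lc.Rot

/-!
# MP_9d6bd1_lc, module W1: one-point unions of planar rotation systems
-/

set_option autoImplicit false

open Classical

namespace Pool.Agent.MP9d6bd1

namespace RSumAux

open Equiv.Perm

theorem step_pres {α : Type} [Finite α] (π : Equiv.Perm α) (R : α → α → Prop)
    (hr : ∀ x, R x x) (ht : ∀ x y z, R x y → R y z → R x z) (hs : ∀ x, R x (π x)) {x y : α}
    (h : π.SameCycle x y) : R x y := by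
  obtain ⟨i, -, rfl⟩ := h.exists_pow_eq'
  induction i with
  | zero => simpa using hr x
  | succ i ih =>
    rw [pow_succ', Equiv.Perm.mul_apply]
    exact ht _ _ _ (ih ⟨i, by simp⟩) (hs _)

theorem same_ab {α : Type} [Finite α] [DecidableEq α] (π : Equiv.Perm α) (a b : α)
    (h : ¬ π.SameCycle a b) : (π * Equiv.swap a b).SameCycle b a := by
  have hk : ∃ k : ℕ, 0 < k ∧ (π ^ k) a = a := by
    refine ⟨orderOf π, orderOf_pos π, ?_⟩
    rw [pow_orderOf_eq_one]
    rfl
  have h1 := (Nat.find_spec hk).1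
  have h2 := (Nat.find_spec hk).2
  have h3 : ∀ i, 0 < i → i < Nat.find hk → (π ^ i) a ≠ a := fun i hi hlt he =>
    Nat.find_min hk hlt ⟨hi, he⟩
  generalize Nat.find hk = k at h1 h2 h3
  have key : ∀ i, i + 1 ≤ k → ((π * Equiv.swap a b) ^ (i + 1)) b = (π ^ (i + 1)) a := by
    intro i
    induction i with
    | zero =>
      intro _
      simp
    | succ i ih =>
      intro hi
      rw [pow_succ' _ (i + 1), Equiv.Perm.mul_apply, ih (by omega), Equiv.Perm.mul_apply,
        Equiv.swap_apply_of_ne_of_ne (h3 _ (by omega) (by omega)), ← Equiv.Perm.mul_apply,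
        ← pow_succ']
      intro he
      exact h ⟨((i + 1 : ℕ) : ℤ), by rw [zpow_natCast]; exact he⟩
  obtain ⟨j, rfl⟩ : ∃ j, k = j + 1 := ⟨k - 1, by omega⟩
  refine ⟨((j + 1 : ℕ) : ℤ), ?_⟩
  rw [zpow_natCast, key j le_rfl, h2]

theorem numOrb_mul_swap' {α : Type} [Finite α] [DecidableEq α] (π : Equiv.Perm α) (a b : α)
    (h : ¬ π.SameCycle a b) : numOrb (π * Equiv.swap a b) + 1 = numOrb π := by
  set π' := π * Equiv.swap a b with hπ'
  have hab : a ≠ b := fun e => h (e ▸ Equiv.Perm.SameCycle.refl π a)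
  have c2 : π'.SameCycle b a := same_ab π a b h
  have pa : π' a = π b := by simp [hπ']
  have pb : π' b = π a := by simp [hπ']
  have pn : ∀ x, x ≠ a → x ≠ b → π' x = π x := fun x hx hx' => by
    simp [hπ', Equiv.swap_apply_of_ne_of_ne hx hx']
  have c1 : ∀ x y, π.SameCycle x y → π'.SameCycle x y := by
    intro x y hxy
    refine step_pres π (fun x y => π'.SameCycle x y) (fun x => Equiv.Perm.SameCycle.refl _ x)
      (fun x y z h1 h2 => h1.trans h2) ?_ hxy
    intro z
    by_cases hz : z = a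
    · subst hz
      rw [← pb]
      exact c2.symm.trans (Equiv.Perm.sameCycle_apply_right.2 (Equiv.Perm.SameCycle.refl _ _))
    · by_cases hz' : z = b
      · subst hz'
        rw [← pa]
        exact c2.trans (Equiv.Perm.sameCycle_apply_right.2 (Equiv.Perm.SameCycle.refl _ _))
      · rw [← pn z hz hz']
        exact Equiv.Perm.sameCycle_apply_right.2 (Equiv.Perm.SameCycle.refl _ _)
  have c3 : ∀ x y, π'.SameCycle x y → π.SameCycle x y ∨
      ((π.SameCycle x a ∨ π.SameCycle x b) ∧ (π.SameCycle y a ∨ π.SameCycle y b)) := by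
    intro x y hxy
    refine step_pres π' (fun x y => π.SameCycle x y ∨
      ((π.SameCycle x a ∨ π.SameCycle x b) ∧ (π.SameCycle y a ∨ π.SameCycle y b)))
      (fun x => Or.inl (Equiv.Perm.SameCycle.refl _ x)) ?_ ?_ hxy
    · rintro x y z (h1 | ⟨h1, h1'⟩) (h2 | ⟨h2, h2'⟩)
      · exact Or.inl (h1.trans h2)
      · exact Or.inr ⟨h2.imp h1.trans h1.trans, h2'⟩
      · exact Or.inr ⟨h1, h1'.imp h2.symm.trans h2.symm.trans⟩
      · exact Or.inr ⟨h1, h2'⟩
    · intro z
      by_cases hz : z = a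
      · subst hz
        rw [pa]
        exact Or.inr ⟨Or.inl (Equiv.Perm.SameCycle.refl _ _), Or.inr
          (Equiv.Perm.sameCycle_apply_left.2 (Equiv.Perm.SameCycle.refl _ _))⟩
      · by_cases hz' : z = b
        · subst hz'
          rw [pb]
          exact Or.inr ⟨Or.inr (Equiv.Perm.SameCycle.refl _ _), Or.inl
            (Equiv.Perm.sameCycle_apply_left.2 (Equiv.Perm.SameCycle.refl _ _))⟩
        · rw [pn z hz hz']
          exact Or.inl (Equiv.Perm.sameCycle_apply_right.2 (Equiv.Perm.SameCycle.refl _ _))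
  let Q := Quotient (Equiv.Perm.SameCycle.setoid π)
  let Q' := Quotient (Equiv.Perm.SameCycle.setoid π')
  let mk : α → Q := Quotient.mk (Equiv.Perm.SameCycle.setoid π)
  let mk' : α → Q' := Quotient.mk (Equiv.Perm.SameCycle.setoid π')
  have hQ : Finite Q := Quotient.finite _
  let f : Q → Q' := Quotient.map' id (fun x y hxy => c1 x y hxy)
  have hf : ∀ x, f (mk x) = mk' x := fun x => rfl
  have hmk : ∀ x y, mk x = mk y ↔ π.SameCycle x y := fun x y => Quotient.eq
  have hmk' : ∀ x y, mk' x = mk' y ↔ π'.SameCycle x y := fun x y => Quotient.eq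
  have hbij : Function.Bijective (fun q : {q : Q // q ≠ mk b} => f q.1) := by
    constructor
    · rintro ⟨q1, h1⟩ ⟨q2, h2⟩ he
      obtain ⟨x, rfl⟩ := Quotient.exists_rep q1
      obtain ⟨y, rfl⟩ := Quotient.exists_rep q2
      have he' : mk' x = mk' y := he
      rw [hmk'] at he'
      apply Subtype.ext
      refine (hmk x y).2 ?_
      have h1' : ¬ π.SameCycle x b := fun hh => h1 ((hmk x b).2 hh)
      have h2' : ¬ π.SameCycle y b := fun hh => h2 ((hmk y b).2 hh)
      rcases c3 x y he' with hh | ⟨hh, hh'⟩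
      · exact hh
      · exact (hh.resolve_right h1').trans (hh'.resolve_right h2').symm
    · intro q'
      obtain ⟨x, rfl⟩ := Quotient.exists_rep q'
      by_cases hx : π.SameCycle x b
      · refine ⟨⟨mk a, fun he => h ((hmk a b).1 he)⟩, ?_⟩
        exact (hmk' a x).2 (c2.symm.trans (c1 _ _ hx.symm))
      · exact ⟨⟨mk x, fun he => hx ((hmk x b).1 he)⟩, rfl⟩
  have e1 : Nat.card Q' = Nat.card {q : Q // q ≠ mk b} := (Nat.card_eq_of_bijective _ hbij).symm
  have e2 : Nat.card {q : Q // q ≠ mk b} + 1 = Nat.card Q := by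
    have : Fintype Q := Fintype.ofFinite Q
    rw [Nat.card_eq_fintype_card, Nat.card_eq_fintype_card, Fintype.card_subtype_compl,
      Fintype.card_subtype_eq]
    have : 0 < Fintype.card Q := Fintype.card_pos_iff.2 ⟨mk b⟩
    omega
  change Nat.card Q' + 1 = Nat.card Q
  rw [e1, e2]

end RSumAux

open RSumAux in
theorem numOrb_mul_swap {α : Type} [Finite α] (π : Equiv.Perm α) (a b : α)
    (h : ¬ π.SameCycle a b) : numOrb (π * Equiv.swap a b) + 1 = numOrb π :=
  numOrb_mul_swap' π a b h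

namespace RSumAux

theorem same_of_same {α : Type} [Finite α] [DecidableEq α] (π : Equiv.Perm α) (a b : α)
    (h : ¬ π.SameCycle a b) {x y : α} (hxy : π.SameCycle x y) :
    (π * Equiv.swap a b).SameCycle x y := by
  have c2 := same_ab π a b h
  refine step_pres π (fun x y => (π * Equiv.swap a b).SameCycle x y)
    (fun x => Equiv.Perm.SameCycle.refl _ x) (fun x y z h1 h2 => h1.trans h2) ?_ hxy
  intro z
  have hs : ∀ u, (π * Equiv.swap a b).SameCycle u ((π * Equiv.swap a b) u) := fun u =>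
    Equiv.Perm.sameCycle_apply_right.2 (Equiv.Perm.SameCycle.refl _ _)
  by_cases hz : z = a
  · subst hz
    have := hs b
    rw [Equiv.Perm.mul_apply, Equiv.swap_apply_right] at this
    exact c2.symm.trans this
  · by_cases hz' : z = b
    · subst hz'
      have := hs a
      rw [Equiv.Perm.mul_apply, Equiv.swap_apply_left] at this
      exact c2.trans this
    · have := hs z
      rwa [Equiv.Perm.mul_apply, Equiv.swap_apply_of_ne_of_ne hz hz'] at this

theorem same_map {α β : Type} [Finite α] (π : Equiv.Perm α) (π' : Equiv.Perm β) (f : α → β)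
    (hf : ∀ x, π' (f x) = f (π x)) {x y : α} (h : π.SameCycle x y) : π'.SameCycle (f x) (f y) := by
  refine step_pres π (fun x y => π'.SameCycle (f x) (f y))
    (fun x => Equiv.Perm.SameCycle.refl _ _) (fun x y z h1 h2 => h1.trans h2) (fun z => ?_) h
  rw [← hf]
  exact Equiv.Perm.sameCycle_apply_right.2 (Equiv.Perm.SameCycle.refl _ _)

section sum

variable {α β γ : Type} [Finite α] [Finite β] [Finite γ] (π₁ : Equiv.Perm α)
  (π₂ : Equiv.Perm β) (π : Equiv.Perm γ) (e : α ⊕ β ≃ γ)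
  (h1 : ∀ x, π (e (Sum.inl x)) = e (Sum.inl (π₁ x)))
  (h2 : ∀ y, π (e (Sum.inr y)) = e (Sum.inr (π₂ y)))

include h1 h2

omit [Finite α] [Finite β] in
theorem sum_step {u v : γ} (h : π.SameCycle u v) :
    (∀ x, u = e (Sum.inl x) → ∃ y, v = e (Sum.inl y) ∧ π₁.SameCycle x y) ∧
    (∀ x, u = e (Sum.inr x) → ∃ y, v = e (Sum.inr y) ∧ π₂.SameCycle x y) := by
  refine step_pres π (fun u v =>
    (∀ x, u = e (Sum.inl x) → ∃ y, v = e (Sum.inl y) ∧ π₁.SameCycle x y) ∧
    (∀ x, u = e (Sum.inr x) → ∃ y, v = e (Sum.inr y) ∧ π₂.SameCycle x y)) ?_ ?_ ?_ h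
  · exact fun u => ⟨fun x hx => ⟨x, hx, Equiv.Perm.SameCycle.refl _ _⟩,
      fun x hx => ⟨x, hx, Equiv.Perm.SameCycle.refl _ _⟩⟩
  · rintro u v w ⟨a1, a2⟩ ⟨b1, b2⟩
    constructor
    · intro x hx
      obtain ⟨y, hy, hxy⟩ := a1 x hx
      obtain ⟨z, hz, hyz⟩ := b1 y hy
      exact ⟨z, hz, hxy.trans hyz⟩
    · intro x hx
      obtain ⟨y, hy, hxy⟩ := a2 x hx
      obtain ⟨z, hz, hyz⟩ := b2 y hy
      exact ⟨z, hz, hxy.trans hyz⟩
  · intro u
    constructor
    · rintro x rfl
      exact ⟨π₁ x, h1 x, Equiv.Perm.sameCycle_apply_right.2 (Equiv.Perm.SameCycle.refl _ _)⟩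
    · rintro x rfl
      exact ⟨π₂ x, h2 x, Equiv.Perm.sameCycle_apply_right.2 (Equiv.Perm.SameCycle.refl _ _)⟩

omit [Finite α] [Finite β] in
theorem not_same (x : α) (y : β) : ¬ π.SameCycle (e (Sum.inl x)) (e (Sum.inr y)) := by
  intro h
  obtain ⟨z, hz, -⟩ := (sum_step π₁ π₂ π e h1 h2 h).1 x rfl
  exact absurd (e.injective hz) (by simp)

theorem numOrb_sum : numOrb π = numOrb π₁ + numOrb π₂ := by
  let Q := Quotient (Equiv.Perm.SameCycle.setoid π)
  let Q₁ := Quotient (Equiv.Perm.SameCycle.setoid π₁)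
  let Q₂ := Quotient (Equiv.Perm.SameCycle.setoid π₂)
  have i1 : Finite Q₁ := Quotient.finite _
  have i2 : Finite Q₂ := Quotient.finite _
  let f₁ : Q₁ → Q := Quotient.map' (fun x => e (Sum.inl x))
    (fun x y hxy => same_map π₁ π (fun x => e (Sum.inl x)) h1 hxy)
  let f₂ : Q₂ → Q := Quotient.map' (fun x => e (Sum.inr x))
    (fun x y hxy => same_map π₂ π (fun x => e (Sum.inr x)) h2 hxy)
  have hmk : ∀ u v : γ, (Quotient.mk (Equiv.Perm.SameCycle.setoid π) u =
    Quotient.mk (Equiv.Perm.SameCycle.setoid π) v) ↔ π.SameCycle u v := fun u v => Quotient.eq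
  have hbij : Function.Bijective (Sum.elim f₁ f₂) := by
    constructor
    · rintro (q | q) (q' | q') he
      · obtain ⟨x, rfl⟩ := Quotient.exists_rep q
        obtain ⟨y, rfl⟩ := Quotient.exists_rep q'
        have he' : π.SameCycle (e (Sum.inl x)) (e (Sum.inl y)) := (hmk _ _).1 he
        obtain ⟨z, hz, hxz⟩ := (sum_step π₁ π₂ π e h1 h2 he').1 x rfl
        obtain rfl : y = z := by simpa using e.injective hz
        exact congrArg Sum.inl (Quotient.eq.2 hxz)
      · obtain ⟨x, rfl⟩ := Quotient.exists_rep q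
        obtain ⟨y, rfl⟩ := Quotient.exists_rep q'
        have he' : π.SameCycle (e (Sum.inl x)) (e (Sum.inr y)) := (hmk _ _).1 he
        exact absurd he' (not_same π₁ π₂ π e h1 h2 x y)
      · obtain ⟨x, rfl⟩ := Quotient.exists_rep q
        obtain ⟨y, rfl⟩ := Quotient.exists_rep q'
        have he' : π.SameCycle (e (Sum.inr x)) (e (Sum.inl y)) := (hmk _ _).1 he
        exact absurd he'.symm (not_same π₁ π₂ π e h1 h2 y x)
      · obtain ⟨x, rfl⟩ := Quotient.exists_rep q
        obtain ⟨y, rfl⟩ := Quotient.exists_rep q'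
        have he' : π.SameCycle (e (Sum.inr x)) (e (Sum.inr y)) := (hmk _ _).1 he
        obtain ⟨z, hz, hxz⟩ := (sum_step π₁ π₂ π e h1 h2 he').2 x rfl
        obtain rfl : y = z := by simpa using e.injective hz
        exact congrArg Sum.inr (Quotient.eq.2 hxz)
    · intro q
      obtain ⟨u, rfl⟩ := Quotient.exists_rep q
      obtain ⟨w, rfl⟩ := e.surjective u
      rcases w with x | y
      · exact ⟨Sum.inl (Quotient.mk _ x), rfl⟩
      · exact ⟨Sum.inr (Quotient.mk _ y), rfl⟩
  have := Nat.card_eq_of_bijective _ hbij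
  rw [Nat.card_sum] at this
  exact this.symm

end sum

theorem reach_retract {V : Type} {G H : SimpleGraph V} (r : V → V)
    (hr : ∀ x y, G.Adj x y → H.Reachable (r x) (r y)) {x y : V} (h : G.Reachable x y) :
    H.Reachable (r x) (r y) := by
  obtain ⟨p⟩ := h
  induction p with
  | nil => exact SimpleGraph.Reachable.refl _
  | cons hadj _ ih => exact (hr _ _ hadj).trans ih

/-- a retraction to the first graph -/
theorem reach_left {V : Type} (G₁ G₂ : SimpleGraph V) (v : V)
    (hv : G₁.support ∩ G₂.support ⊆ {v}) {x y : V} (h : (G₁ ⊔ G₂).Reachable x y) :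
    G₁.Reachable (if x ∈ G₂.support then v else x) (if y ∈ G₂.support then v else y) := by
  refine reach_retract (G := G₁ ⊔ G₂) (H := G₁) (fun x => if x ∈ G₂.support then v else x) ?_ h
  rintro x y (hxy | hxy)
  · have hx : x ∈ G₁.support := ⟨y, hxy⟩
    have hy : y ∈ G₁.support := ⟨x, hxy.symm⟩
    have e : ∀ z ∈ G₁.support, (if z ∈ G₂.support then v else z) = z := by
      intro z hz
      split_ifs with h2
      · exact (hv ⟨hz, h2⟩).symm
      · rfl
    simp only [e x hx, e y hy]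
    exact hxy.reachable
  · have hx : x ∈ G₂.support := ⟨y, hxy⟩
    have hy : y ∈ G₂.support := ⟨x, hxy.symm⟩
    simp only [hx, hy, if_true]
    exact SimpleGraph.Reachable.refl _

theorem reach_left' {V : Type} (G₁ G₂ : SimpleGraph V) (v : V)
    (hv : G₁.support ∩ G₂.support ⊆ {v}) {x y : V} (hx : x ∈ G₁.support) (hy : y ∈ G₁.support)
    (h : (G₁ ⊔ G₂).Reachable x y) : G₁.Reachable x y := by
  have := reach_left G₁ G₂ v hv h
  have e : ∀ z ∈ G₁.support, (if z ∈ G₂.support then v else z) = z := by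
    intro z hz
    split_ifs with h2
    · exact (hv ⟨hz, h2⟩).symm
    · rfl
  rwa [e x hx, e y hy] at this

theorem reach_cross {V : Type} (G₁ G₂ : SimpleGraph V) (v : V)
    (hv : G₁.support ∩ G₂.support ⊆ {v}) {x y : V} (hx : x ∈ G₁.support) (hy : y ∈ G₂.support)
    (h : (G₁ ⊔ G₂).Reachable x y) : G₁.Reachable x v := by
  have := reach_left G₁ G₂ v hv h
  have e : ∀ z ∈ G₁.support, (if z ∈ G₂.support then v else z) = z := by
    intro z hz
    split_ifs with h2
    · exact (hv ⟨hz, h2⟩).symm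
    · rfl
  rwa [e x hx, if_pos hy] at this

theorem supp_reach {V : Type} (G : SimpleGraph V) {x y : V} (h : G.Reachable x y)
    (hx : x ∈ G.support) : y ∈ G.support := by
  obtain ⟨p⟩ := h
  induction p with
  | nil => exact hx
  | cons hadj _ ih => exact ih ⟨_, hadj.symm⟩

theorem comp_image {V : Type} [Finite V] (G₁ G : SimpleGraph V) (hle : G₁ ≤ G)
    (hr : ∀ x ∈ G₁.support, ∀ y ∈ G₁.support, G.Reachable x y → G₁.Reachable x y) :
    (G.connectedComponentMk '' G₁.support).ncard = numComp G₁ := by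
  have e : G.connectedComponentMk '' G₁.support =
      (fun c : G₁.ConnectedComponent => c.map (SimpleGraph.Hom.ofLE hle)) ''
        (G₁.connectedComponentMk '' G₁.support) := by
    rw [Set.image_image]
    rfl
  rw [e, Set.InjOn.ncard_image]
  · rfl
  · rintro _ ⟨x, hx, rfl⟩ _ ⟨y, hy, rfl⟩ he
    have he' : G.connectedComponentMk x = G.connectedComponentMk y := he
    rw [SimpleGraph.ConnectedComponent.eq] at he' ⊢
    exact hr x hx y hy he'

theorem support_sup' {V : Type} (G₁ G₂ : SimpleGraph V) :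
    (G₁ ⊔ G₂).support = G₁.support ∪ G₂.support := by
  ext x
  constructor
  · rintro ⟨y, hy | hy⟩
    · exact Or.inl ⟨y, hy⟩
    · exact Or.inr ⟨y, hy⟩
  · rintro (⟨y, hy⟩ | ⟨y, hy⟩)
    · exact ⟨y, Or.inl hy⟩
    · exact ⟨y, Or.inr hy⟩

theorem numComp_sup {V : Type} [Finite V] (G₁ G₂ : SimpleGraph V)
    (h : (G₁.support ∩ G₂.support).Subsingleton) :
    numComp (G₁ ⊔ G₂) + (G₁.support ∩ G₂.support).ncard = numComp G₁ + numComp G₂ := by
  have key : ∀ v : V, G₁.support ∩ G₂.support ⊆ {v} →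
      numComp (G₁ ⊔ G₂) + ((G₁ ⊔ G₂).connectedComponentMk '' G₁.support ∩
        (G₁ ⊔ G₂).connectedComponentMk '' G₂.support).ncard = numComp G₁ + numComp G₂ := by
    intro v hv
    have hv' : G₂.support ∩ G₁.support ⊆ {v} := by rwa [Set.inter_comm]
    have e1 := comp_image G₁ (G₁ ⊔ G₂) le_sup_left
      (fun x hx y hy hxy => reach_left' G₁ G₂ v hv hx hy hxy)
    have e2 := comp_image G₂ (G₁ ⊔ G₂) le_sup_right
      (fun x hx y hy hxy => reach_left' G₂ G₁ v hv' hx hy (by rwa [sup_comm]))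
    rw [← e1, ← e2, ← Set.ncard_union_add_ncard_inter, ← Set.image_union, ← support_sup']
    rfl
  rcases Set.eq_empty_or_nonempty (G₁.support ∩ G₂.support) with h0 | ⟨v, hv⟩
  · rcases Set.eq_empty_or_nonempty G₂.support with h2 | ⟨v, hv⟩
    · have h3 : G₂ = ⊥ := by
        ext x y
        simp only [SimpleGraph.bot_adj, iff_false]
        intro hxy
        have : x ∈ G₂.support := ⟨y, hxy⟩
        rw [h2] at this
        exact this
      subst h3
      rw [sup_bot_eq, h0, Set.ncard_empty]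
      simp [numComp]
    · have := key v (by rw [h0]; exact Set.empty_subset _)
      rw [h0, Set.ncard_empty]
      have e : ((G₁ ⊔ G₂).connectedComponentMk '' G₁.support ∩
        (G₁ ⊔ G₂).connectedComponentMk '' G₂.support) = ∅ := by
        rw [Set.eq_empty_iff_forall_notMem]
        rintro _ ⟨⟨x, hx, rfl⟩, ⟨y, hy, he⟩⟩
        have he' := SimpleGraph.ConnectedComponent.eq.1 he.symm
        have h4 := reach_cross G₁ G₂ v (by rw [h0]; exact Set.empty_subset _) hx hy he'
        have h5 := supp_reach G₁ h4 hx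
        have : v ∈ G₁.support ∩ G₂.support := ⟨h5, hv⟩
        rw [h0] at this
        exact this
      rw [e, Set.ncard_empty] at this
      exact this
  · have hs : G₁.support ∩ G₂.support = {v} := h.eq_singleton_of_mem hv
    have := key v hs.subset
    have e : ((G₁ ⊔ G₂).connectedComponentMk '' G₁.support ∩
        (G₁ ⊔ G₂).connectedComponentMk '' G₂.support) = {(G₁ ⊔ G₂).connectedComponentMk v} := by
      ext c
      simp only [Set.mem_singleton_iff]
      constructor
      · rintro ⟨⟨x, hx, rfl⟩, ⟨y, hy, he⟩⟩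
        have he' := SimpleGraph.ConnectedComponent.eq.1 he.symm
        have h4 := reach_cross G₁ G₂ v hs.subset hx hy he'
        exact SimpleGraph.ConnectedComponent.eq.2 (h4.mono le_sup_left)
      · rintro rfl
        exact ⟨⟨v, hv.1, rfl⟩, ⟨v, hv.2, rfl⟩⟩
    rw [e, Set.ncard_singleton] at this
    rw [hs, Set.ncard_singleton]
    exact this

end RSumAux

namespace RSumAux

section dart

variable {V : Type} [Finite V] (G₁ G₂ : SimpleGraph V)

/-- darts of a union -/
def dmap : G₁.Dart ⊕ G₂.Dart → (G₁ ⊔ G₂).Dart :=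
  Sum.elim (fun d => ⟨d.toProd, Or.inl d.adj⟩) (fun d => ⟨d.toProd, Or.inr d.adj⟩)

omit [Finite V] in
theorem no_common (h : (G₁.support ∩ G₂.support).Subsingleton) {x y : V} (h1 : G₁.Adj x y)
    (h2 : G₂.Adj x y) : False :=
  h1.ne (h ⟨⟨y, h1⟩, ⟨y, h2⟩⟩ ⟨⟨x, h1.symm⟩, ⟨x, h2.symm⟩⟩)

omit [Finite V] in
theorem dmap_bij (h : (G₁.support ∩ G₂.support).Subsingleton) :
    Function.Bijective (dmap G₁ G₂) := by
  constructor
  · rintro (d | d) (d' | d') he
    · have : d.toProd = d'.toProd := congrArg (fun x : (G₁ ⊔ G₂).Dart => x.toProd) he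
      exact congrArg Sum.inl (SimpleGraph.Dart.ext _ _ this)
    · have : d.toProd = d'.toProd := congrArg (fun x : (G₁ ⊔ G₂).Dart => x.toProd) he
      have h1 := d.adj
      have h2 := d'.adj
      rw [← this] at h2
      exact (no_common G₁ G₂ h h1 h2).elim
    · have : d.toProd = d'.toProd := congrArg (fun x : (G₁ ⊔ G₂).Dart => x.toProd) he
      have h1 := d.adj
      have h2 := d'.adj
      rw [← this] at h2
      exact (no_common G₁ G₂ h h2 h1).elim
    · have : d.toProd = d'.toProd := congrArg (fun x : (G₁ ⊔ G₂).Dart => x.toProd) he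
      exact congrArg Sum.inr (SimpleGraph.Dart.ext _ _ this)
  · rintro ⟨p, hp | hp⟩
    · exact ⟨Sum.inl ⟨p, hp⟩, rfl⟩
    · exact ⟨Sum.inr ⟨p, hp⟩, rfl⟩

omit [Finite V] in
theorem edge_sup (h : (G₁.support ∩ G₂.support).Subsingleton) [Finite V] :
    (G₁ ⊔ G₂).edgeSet.ncard = G₁.edgeSet.ncard + G₂.edgeSet.ncard := by
  rw [SimpleGraph.edgeSet_sup, Set.ncard_union_eq]
  rw [Set.disjoint_left]
  intro e h1 h2
  induction e using Sym2.ind with
  | _ a b => exact no_common G₁ G₂ h h1 h2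

theorem rot_sum_aux (h : (G₁.support ∩ G₂.support).Subsingleton)
    (e : G₁.Dart ⊕ G₂.Dart ≃ (G₁ ⊔ G₂).Dart)
    (e1 : ∀ d, (e (Sum.inl d)).toProd = d.toProd) (e2 : ∀ d, (e (Sum.inr d)).toProd = d.toProd)
    (σ₁ : Equiv.Perm G₁.Dart) (σ₂ : Equiv.Perm G₂.Dart) (h₁ : PlanarRot G₁ σ₁)
    (h₂ : PlanarRot G₂ σ₂) : RotPlanar (G₁ ⊔ G₂) := by
  have fG : ∀ G : SimpleGraph V, Finite G.Dart := fun G =>
    Finite.of_injective (fun d : G.Dart => d.toProd) (fun a b hab => SimpleGraph.Dart.ext _ _ hab)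
  have i1 := fG G₁
  have i2 := fG G₂
  have i3 := fG (G₁ ⊔ G₂)
  let σ₀ : Equiv.Perm (G₁ ⊔ G₂).Dart := e.permCongr (Equiv.sumCongr σ₁ σ₂)
  have s1 : ∀ d, σ₀ (e (Sum.inl d)) = e (Sum.inl (σ₁ d)) := fun d => by
    simp [σ₀, Equiv.permCongr_apply]
  have s2 : ∀ d, σ₀ (e (Sum.inr d)) = e (Sum.inr (σ₂ d)) := fun d => by
    simp [σ₀, Equiv.permCongr_apply]
  have r1 : ∀ d, (e (Sum.inl d)).symm = e (Sum.inl d.symm) := fun d => by
    apply SimpleGraph.Dart.ext
    rw [e1, SimpleGraph.Dart.symm_toProd, e1, SimpleGraph.Dart.symm_toProd]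
  have r2 : ∀ d, (e (Sum.inr d)).symm = e (Sum.inr d.symm) := fun d => by
    apply SimpleGraph.Dart.ext
    rw [e2, SimpleGraph.Dart.symm_toProd, e2, SimpleGraph.Dart.symm_toProd]
  have f1 : ∀ d, facePerm σ₀ (e (Sum.inl d)) = e (Sum.inl (facePerm σ₁ d)) := fun d => by
    change σ₀ (e (Sum.inl d)).symm = e (Sum.inl (σ₁ d.symm))
    rw [r1, s1]
  have f2 : ∀ d, facePerm σ₀ (e (Sum.inr d)) = e (Sum.inr (facePerm σ₂ d)) := fun d => by
    change σ₀ (e (Sum.inr d)).symm = e (Sum.inr (σ₂ d.symm))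
    rw [r2, s2]
  have hF := numOrb_sum _ _ _ e f1 f2
  have hns := not_same _ _ _ e s1 s2
  have hnf := not_same _ _ _ e f1 f2
  have hC := numComp_sup G₁ G₂ h
  have hE := edge_sup G₁ G₂ h
  have hV : (G₁ ⊔ G₂).support.ncard + (G₁.support ∩ G₂.support).ncard =
      G₁.support.ncard + G₂.support.ncard := by
    rw [support_sup']
    exact Set.ncard_union_add_ncard_inter _ _
  have src₀ : ∀ d, (σ₀ d).fst = d.fst := by
    intro d
    obtain ⟨w, rfl⟩ := e.surjective d
    rcases w with d | d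
    · rw [s1, e1, e1]
      exact h₁.src d
    · rw [s2, e2, e2]
      exact h₂.src d
  have c1 : ∀ d d', d.fst = d'.fst → σ₀.SameCycle (e (Sum.inl d)) (e (Sum.inl d')) :=
    fun d d' hd => same_map σ₁ σ₀ (fun x => e (Sum.inl x)) s1 (h₁.cyc d d' hd)
  have c2 : ∀ d d', d.fst = d'.fst → σ₀.SameCycle (e (Sum.inr d)) (e (Sum.inr d')) :=
    fun d d' hd => same_map σ₂ σ₀ (fun x => e (Sum.inr x)) s2 (h₂.cyc d d' hd)
  have eu1 := h₁.euler
  have eu2 := h₂.euler
  rcases Set.eq_empty_or_nonempty (G₁.support ∩ G₂.support) with h0 | ⟨v, hv⟩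
  · refine ⟨σ₀, ⟨src₀, ?_, ?_⟩⟩
    · intro d d' hd
      obtain ⟨w, rfl⟩ := e.surjective d
      obtain ⟨w', rfl⟩ := e.surjective d'
      rcases w with d | d <;> rcases w' with d' | d'
      · rw [e1, e1] at hd
        exact c1 d d' hd
      · rw [e1, e2] at hd
        have : d.fst ∈ G₁.support ∩ G₂.support := ⟨⟨_, d.adj⟩, by
          rw [show d.fst = d'.fst from hd]
          exact ⟨_, d'.adj⟩⟩
        rw [h0] at this
        exact this.elim
      · rw [e2, e1] at hd
        have : d'.fst ∈ G₁.support ∩ G₂.support := ⟨⟨_, d'.adj⟩, by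
          rw [show d'.fst = d.fst from hd.symm]
          exact ⟨_, d.adj⟩⟩
        rw [h0] at this
        exact this.elim
      · rw [e2, e2] at hd
        exact c2 d d' hd
    · rw [h0, Set.ncard_empty] at hC hV
      omega
  · have hs : G₁.support ∩ G₂.support = {v} := h.eq_singleton_of_mem hv
    obtain ⟨a, ha⟩ : ∃ a : G₁.Dart, a.fst = v := by
      obtain ⟨y, hy⟩ := hv.1
      exact ⟨⟨(v, y), hy⟩, rfl⟩
    obtain ⟨b, hb⟩ : ∃ b : G₂.Dart, b.fst = v := by
      obtain ⟨y, hy⟩ := hv.2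
      exact ⟨⟨(v, y), hy⟩, rfl⟩
    have hab := hns a b
    have ea : (e (Sum.inl a)).fst = v := by rw [e1]; exact ha
    have eb : (e (Sum.inr b)).fst = v := by rw [e2]; exact hb
    refine ⟨σ₀ * Equiv.swap (e (Sum.inl a)) (e (Sum.inr b)), ⟨?_, ?_, ?_⟩⟩
    · intro d
      rw [Equiv.Perm.mul_apply, src₀]
      by_cases h1 : d = e (Sum.inl a)
      · rw [h1, Equiv.swap_apply_left, ea, eb]
      · by_cases h2 : d = e (Sum.inr b)
        · rw [h2, Equiv.swap_apply_right, ea, eb]
        · rw [Equiv.swap_apply_of_ne_of_ne h1 h2]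
    · have hba := same_ab _ _ _ hab
      have cross : ∀ (d : G₁.Dart) (d' : G₂.Dart), d.fst = d'.fst →
          (σ₀ * Equiv.swap (e (Sum.inl a)) (e (Sum.inr b))).SameCycle (e (Sum.inl d))
            (e (Sum.inr d')) := by
        intro d d' hd
        have : d.fst ∈ G₁.support ∩ G₂.support := ⟨⟨_, d.adj⟩, by
          rw [hd]
          exact ⟨_, d'.adj⟩⟩
        rw [hs] at this
        have hdv : d.fst = v := this
        exact ((same_of_same _ _ _ hab (c1 d a (hdv.trans ha.symm))).trans hba.symm).trans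
          (same_of_same _ _ _ hab (c2 b d' (hb.trans (hdv.symm.trans hd))))
      intro d d' hd
      obtain ⟨w, rfl⟩ := e.surjective d
      obtain ⟨w', rfl⟩ := e.surjective d'
      rcases w with d | d <;> rcases w' with d' | d'
      · rw [e1, e1] at hd
        exact same_of_same _ _ _ hab (c1 d d' hd)
      · rw [e1, e2] at hd
        exact cross d d' hd
      · rw [e2, e1] at hd
        exact (cross d' d hd.symm).symm
      · rw [e2, e2] at hd
        exact same_of_same _ _ _ hab (c2 d d' hd)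
    · have hfp : facePerm (σ₀ * Equiv.swap (e (Sum.inl a)) (e (Sum.inr b))) =
          facePerm σ₀ * Equiv.swap (e (Sum.inl a.symm)) (e (Sum.inr b.symm)) := by
        ext1 d
        rw [Equiv.Perm.mul_apply]
        change σ₀ (Equiv.swap (e (Sum.inl a)) (e (Sum.inr b)) d.symm) =
          σ₀ ((Equiv.swap (e (Sum.inl a.symm)) (e (Sum.inr b.symm)) d).symm)
        have hi : Function.Injective (fun d : (G₁ ⊔ G₂).Dart => d.symm) :=
          SimpleGraph.Dart.symm_involutive.injective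
        have := hi.map_swap (e (Sum.inl a.symm)) (e (Sum.inr b.symm)) d
        simp only [r1, r2, SimpleGraph.Dart.symm_symm] at this
        rw [this]
      have := numOrb_mul_swap' (facePerm σ₀) _ _ (hnf a.symm b.symm)
      rw [← hfp] at this
      rw [hs, Set.ncard_singleton] at hC hV
      omega

end dart

end RSumAux

open RSumAux in
theorem rot_sum1 {V : Type} [Finite V] (G₁ G₂ : SimpleGraph V)
    (h : (G₁.support ∩ G₂.support).Subsingleton) (h₁ : RotPlanar G₁) (h₂ : RotPlanar G₂) :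
    RotPlanar (G₁ ⊔ G₂) := by
  obtain ⟨σ₁, h₁⟩ := h₁
  obtain ⟨σ₂, h₂⟩ := h₂
  exact rot_sum_aux G₁ G₂ h (Equiv.ofBijective _ (dmap_bij G₁ G₂ h)) (fun _ => rfl)
    (fun _ => rfl) σ₁ σ₂ h₁ h₂

end Pool.Agent.MP9d6bd1
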