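import Mathlib
import Pool.Agent.Lib.MP_9d6bd1_lc.GDefs
import Pool.Agent.Lib.MP_9d6bd1_lc.GEven
import Pool.Agent.Lib.MP_9d6bd1_lc.GFace

/-!
# MP_9d6bd1_lc: the dual of a 2-connected graph
-/

set_option autoImplicit false

open Classical

namespace Pool.Agent.MP9d6bd1

namespace RTwoAux

/-- two edges at a common vertex of a 2-connected graph lie on a common cycle. -/
theorem two_edges {V : Type} [Finite V] (G : SimpleGraph V) (h2 : TwoConn G G.support)
    {p a b : V} (hab : a ≠ b) (hpa : G.Adj p a) (hpb : G.Adj p b) :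
    ∃ Z : Set (Sym2 V), Z ⊆ G.edgeSet ∧ EvenSet Z ∧ s(p, a) ∈ Z ∧ s(p, b) ∈ Z ∧
      (∀ e ∈ Z, p ∈ e → e = s(p, a) ∨ e = s(p, b)) := by
  obtain ⟨Z, h1, h3, h4, h5, h6, -⟩ := GFaceAux.cyc_through G p (G.support \ {p})
    (fun h => h.2 rfl) (h2.2 p) (a := a) (b := b)
    ⟨G.mem_support.2 ⟨p, hpa.symm⟩, hpa.ne'⟩ ⟨G.mem_support.2 ⟨p, hpb.symm⟩, hpb.ne'⟩ hab hpa hpb
  exact ⟨Z, h1, h3, h4, h5, h6⟩

theorem faces_ne {V ι : Type} [Finite V] [Finite ι] (G : SimpleGraph V) (l r : Sym2 V → ι)
    (hD : IsDual G l r) (h2 : TwoConn G G.support) : ∀ e ∈ G.edgeSet, l e ≠ r e := by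
  intro e he hlr
  induction e using Sym2.ind with
  | _ p a =>
    have hpa : G.Adj p a := he
    obtain ⟨b, -, hb, hpb⟩ := GFaceAux.exists_other G G.support h2 (x := p) (y := a)
      (G.mem_support.2 ⟨a, hpa⟩) hpa.ne
    obtain ⟨Z, hZ, hev, h1, -, -⟩ := two_edges G h2 hb.symm hpa hpb
    obtain ⟨J, hJ⟩ := hD.exist Z hZ hev
    rw [← hJ] at h1
    apply h1.2
    rw [hlr]

theorem exists_edge {V : Type} [Finite V] (G : SimpleGraph V) (h2 : TwoConn G G.support) :
    ∃ e, e ∈ G.edgeSet := by
  have h3 : 0 < G.support.ncard := by have := h2.1; omega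
  obtain ⟨v, hv⟩ := (Set.ncard_pos (Set.toFinite _)).1 h3
  obtain ⟨w, hw⟩ := G.mem_support.1 hv
  exact ⟨s(v, w), hw⟩

theorem cut_ne {V ι : Type} [Finite V] [Finite ι] (G : SimpleGraph V) (l r : Sym2 V → ι)
    (hD : IsDual G l r) (h2 : TwoConn G G.support) (j : ι) : (cut G l r {j}).Nonempty := by
  rw [Set.nonempty_iff_ne_empty]
  intro h
  rcases hD.conn _ h with h1 | h1
  · exact (Set.singleton_nonempty j).ne_empty h1
  · obtain ⟨e, he⟩ := exists_edge G h2
    apply faces_ne G l r hD h2 e he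
    have h3 : ∀ x : ι, x = j := fun x => by
      have : x ∈ ({j} : Set ι) := h1 ▸ Set.mem_univ x
      exact this
    rw [h3 (l e), h3 (r e)]

/-- connectivity of the support. -/
theorem support_walk {V : Type} [Finite V] (G : SimpleGraph V) (h2 : TwoConn G G.support)
    (P : V → Prop) (hP : ∀ u v, G.Adj u v → P u → P v) (u v : V) (hu : u ∈ G.support)
    (hv : v ∈ G.support) (h : P u) : P v := by
  have h3 : ({u, v} : Set V).ncard < G.support.ncard :=
    lt_of_le_of_lt (Set.ncard_insert_le u {v}) (by rw [Set.ncard_singleton]; exact h2.1)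
  obtain ⟨z, -, hz⟩ := Set.exists_mem_notMem_of_ncard_lt_ncard h3
  have hzu : u ≠ z := fun h => hz (by simp [h])
  have hzv : v ≠ z := fun h => hz (by simp [h])
  obtain ⟨q⟩ := h2.2 z ⟨u, hu, hzu⟩ ⟨v, hv, hzv⟩
  have key : ∀ (x y : ↥(G.support \ {z})) (q : (G.induce (G.support \ {z})).Walk x y),
      P x → P y := by
    intro x y q
    induction q with
    | nil => exact id
    | cons hadj _ ih => exact fun hx => ih (hP _ _ hadj hx)
  exact key _ _ q h

theorem cut_min {V ι : Type} [Finite V] [Finite ι] (G : SimpleGraph V) (l r : Sym2 V → ι)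
    (hD : IsDual G l r) (h2 : TwoConn G G.support) (j : ι) (Z : Set (Sym2 V))
    (hZ : Z ⊆ cut G l r {j}) (he : EvenSet Z) : Z = ∅ ∨ Z = cut G l r {j} := by
  by_contra hno
  push Not at hno
  obtain ⟨hne, hne2⟩ := hno
  have hZE : Z ⊆ G.edgeSet := fun e h => (hZ h).1
  obtain ⟨J1, hjJ1, hJ1⟩ : ∃ J1 : Set ι, j ∉ J1 ∧ cut G l r J1 = Z := by
    obtain ⟨J, hJ⟩ := hD.exist Z hZE he
    by_cases hj : j ∈ J
    · exact ⟨Jᶜ, fun h => h hj, by rw [cut_compl, hJ]⟩
    · exact ⟨J, hj, hJ⟩
  have hC2 : ∀ e, e ∈ cut G l r (J1 ∪ {j}) ↔ e ∈ cut G l r {j} ∧ e ∉ Z := by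
    intro e
    have h1 : J1 ∪ {j} = symmDiff J1 {j} := by
      ext x
      simp only [Set.mem_union, Set.mem_singleton_iff, Set.mem_symmDiff]
      constructor
      · rintro (h | h)
        · left
          exact ⟨h, fun hx => hjJ1 (hx ▸ h)⟩
        · right
          exact ⟨h, fun hx => hjJ1 (h ▸ hx)⟩
      · rintro (h | h)
        · exact Or.inl h.1
        · exact Or.inr h.1
    rw [h1, cut_symmDiff, hJ1, Set.mem_symmDiff]
    constructor
    · rintro (h | h)
      · exact absurd (hZ h.1) h.2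
      · exact h
    · exact fun h => Or.inr h
  have hlr := faces_ne G l r hD h2
  -- no edge between J1 and J2
  have hno : ∀ e ∈ G.edgeSet, ¬ (l e ∈ J1 ∧ r e ∉ J1 ∧ r e ≠ j) ∧
      ¬ (r e ∈ J1 ∧ l e ∉ J1 ∧ l e ≠ j) := by
    intro e heE
    constructor
    · rintro ⟨h1, h3, h4⟩
      have h5 : e ∈ Z := by
        rw [← hJ1]
        exact ⟨heE, by tauto⟩
      have h6 : e ∈ cut G l r (J1 ∪ {j}) := by
        refine ⟨heE, ?_⟩
        simp only [Set.mem_union, Set.mem_singleton_iff]
        tauto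
      exact ((hC2 e).1 h6).2 h5
    · rintro ⟨h1, h3, h4⟩
      have h5 : e ∈ Z := by
        rw [← hJ1]
        exact ⟨heE, by tauto⟩
      have h6 : e ∈ cut G l r (J1 ∪ {j}) := by
        refine ⟨heE, ?_⟩
        simp only [Set.mem_union, Set.mem_singleton_iff]
        tauto
      exact ((hC2 e).1 h6).2 h5
  -- E1 is the set of edges with a face in J1
  set P : Sym2 V → Prop := fun e => l e ∈ J1 ∨ r e ∈ J1 with hP
  have hEv : ∀ Y : Set (Sym2 V), Y ⊆ G.edgeSet → EvenSet Y → EvenSet {e | e ∈ Y ∧ P e} := by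
    intro Y hY hYe
    obtain ⟨J, hjJ, hJ⟩ : ∃ J : Set ι, j ∉ J ∧ cut G l r J = Y := by
      obtain ⟨J, hJ⟩ := hD.exist Y hY hYe
      by_cases hj : j ∈ J
      · exact ⟨Jᶜ, fun h => h hj, by rw [cut_compl, hJ]⟩
      · exact ⟨J, hj, hJ⟩
    have h3 : {e | e ∈ Y ∧ P e} = cut G l r (J ∩ J1) := by
      ext e
      rw [← hJ]
      simp only [cut, Set.mem_ofPred_eq, Set.mem_inter_iff, hP]
      constructor
      · rintro ⟨⟨h4, h5⟩, h6⟩
        refine ⟨h4, ?_⟩
        have h7 := hno e h4
        by_cases hl : l e ∈ J1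
        · by_cases hr : r e ∈ J1
          · tauto
          · have h8 : r e = j := by
              by_contra h8
              exact h7.1 ⟨hl, hr, h8⟩
            have h9 : r e ∉ J := h8 ▸ hjJ
            tauto
        · have hr : r e ∈ J1 := by tauto
          have h8 : l e = j := by
            by_contra h8
            exact h7.2 ⟨hr, hl, h8⟩
          have h9 : l e ∉ J := h8 ▸ hjJ
          tauto
      · rintro ⟨h4, h5⟩
        have h7 := hno e h4
        by_cases hl : l e ∈ J1
        · by_cases hr : r e ∈ J1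
          · tauto
          · have h8 : r e = j := by
              by_contra h8
              exact h7.1 ⟨hl, hr, h8⟩
            have h9 : r e ∉ J := h8 ▸ hjJ
            tauto
        · by_cases hr : r e ∈ J1
          · have h8 : l e = j := by
              by_contra h8
              exact h7.2 ⟨hr, hl, h8⟩
            have h9 : l e ∉ J := h8 ▸ hjJ
            tauto
          · tauto
    rw [h3]
    exact hD.even _
  -- edges at a vertex are of the same type
  have hvert : ∀ p a b, G.Adj p a → G.Adj p b → P s(p, a) → P s(p, b) := by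
    intro p a b hpa hpb h1
    by_contra h3
    have hab : a ≠ b := by
      rintro rfl
      exact h3 h1
    obtain ⟨Y, hY, hYe, h4, h5, h6⟩ := two_edges G h2 hab hpa hpb
    have h7 := hEv Y hY hYe p
    have h8 : {e | e ∈ {e | e ∈ Y ∧ P e} ∧ p ∈ e} = {s(p, a)} := by
      apply Set.eq_singleton_iff_unique_mem.2
      refine ⟨⟨⟨h4, h1⟩, by simp⟩, ?_⟩
      rintro e ⟨⟨h9, h10⟩, h11⟩
      rcases h6 e h9 h11 with h12 | h12
      · exact h12
      · exact absurd (h12 ▸ h10) h3
    rw [h8, Set.ncard_singleton] at h7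
    exact absurd h7 (by decide)
  -- an edge of each type
  obtain ⟨e1, he1⟩ := hne
  obtain ⟨e2, he2, he2'⟩ : ∃ e, e ∈ cut G l r {j} ∧ e ∉ Z := by
    by_contra h
    push Not at h
    exact hne2 (Set.Subset.antisymm hZ h)
  have hP1 : P e1 := by
    have h1 := he1
    rw [← hJ1] at h1
    have h3 := h1.2
    simp only [hP]
    tauto
  have hP2 : ¬ P e2 := by
    have h1 := (hC2 e2).2 ⟨he2, he2'⟩
    have h3 : e2 ∉ cut G l r J1 := by rw [hJ1]; exact he2'
    have h4 := h1.2
    have h5 : (l e2 ∈ J1 ↔ r e2 ∈ J1) := by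
      by_contra h5
      exact h3 ⟨he2.1, h5⟩
    have h6 := he2.2
    simp only [Set.mem_union, Set.mem_singleton_iff] at h4 h6
    simp only [hP]
    intro h7
    have h8 : l e2 ∈ J1 ∧ r e2 ∈ J1 := by tauto
    have h9 : l e2 ≠ j := fun h => hjJ1 (h ▸ h8.1)
    have h10 : r e2 ≠ j := fun h => hjJ1 (h ▸ h8.2)
    tauto
  have he1E : e1 ∈ G.edgeSet := hZE he1
  have he2E : e2 ∈ G.edgeSet := he2.1
  induction e1 using Sym2.ind with
  | _ u u' =>
    induction e2 using Sym2.ind with
    | _ w w' =>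
      have huu' : G.Adj u u' := he1E
      have hww' : G.Adj w w' := he2E
      have h3 : ∀ b, G.Adj w b → P s(w, b) := by
        apply support_walk G h2 (fun x => ∀ b, G.Adj x b → P s(x, b)) ?_ u w
          (G.mem_support.2 ⟨u', huu'⟩) (G.mem_support.2 ⟨w', hww'⟩)
        · intro b hb
          exact hvert u u' b huu' hb hP1
        · intro x y hxy hx b hb
          have h4 := hx y hxy
          rw [Sym2.eq_swap] at h4
          exact hvert y x b hxy.symm hb h4
      exact hP2 (h3 w' hww')

theorem cut_deg {V ι : Type} [Finite V] [Finite ι] (G : SimpleGraph V) (l r : Sym2 V → ι)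
    (hD : IsDual G l r) (h2 : TwoConn G G.support) (j : ι) (v : V) :
    {e | e ∈ cut G l r {j} ∧ v ∈ e}.ncard = 0 ∨ {e | e ∈ cut G l r {j} ∧ v ∈ e}.ncard = 2 := by
  obtain ⟨m, c, hc, hsub⟩ := exists_cyc_of_even G (cut G l r {j}) (fun e h => h.1) (hD.even _)
    (cut_ne G l r hD h2 j)
  have h3 := hc.len
  have heq : seg c 0 m = cut G l r {j} := by
    rcases cut_min G l r hD h2 j _ hsub (even_cyc G m c hc) with h | h
    · exfalso
      have h4 : s(c 0, c (0 + 1)) ∈ seg c 0 m := GEvenAux.mem_seg_self m c 0 (by omega)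
      rw [h] at h4
      exact h4
    · exact h
  rw [← heq]
  by_cases hv : ∃ t, t < m ∧ c t = v
  · right
    obtain ⟨t, ht, rfl⟩ := hv
    have h : {e | e ∈ seg c 0 m ∧ c t ∈ e} = {s(c t, c (t + 1)), GEvenAux.prevE m c t} := by
      ext e
      constructor
      · rintro ⟨h1, h2⟩
        exact GEvenAux.at_sub G m c hc t ht e h1 h2
      · rintro (h1 | h1)
        · rw [h1]
          exact ⟨GEvenAux.mem_seg_self m c t ht, by simp⟩
        · rw [h1]
          exact ⟨GEvenAux.mem_seg_prev m c h3 t ht, GEvenAux.mem_prev G m c hc t⟩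
    rw [h, Set.ncard_pair (GEvenAux.ne_prev G m c hc t ht)]
  · left
    have h : {e | e ∈ seg c 0 m ∧ v ∈ e} = ∅ := by
      rw [Set.eq_empty_iff_forall_notMem]
      rintro e ⟨⟨t, -, ht, rfl⟩, hve⟩
      rw [Sym2.mem_iff] at hve
      rcases hve with h1 | h1
      · exact hv ⟨t, ht, h1.symm⟩
      · rcases Nat.lt_or_ge (t + 1) m with h4 | h4
        · exact hv ⟨t + 1, h4, h1.symm⟩
        · have hm : t + 1 = m := by omega
          rw [hm, hc.close] at h1
          exact hv ⟨0, by omega, h1.symm⟩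
    rw [h, Set.ncard_empty]

/-! ### Euler formula by ranks over `ZMod 2` -/

theorem zmod2 (x : ZMod 2) : x = 0 ∨ x = 1 := by
  revert x
  decide

theorem finrank_const {K α : Type} [Field K] [Fintype α] [Nonempty α]
    (N : Submodule K (α → K)) (h : ∀ f, f ∈ N ↔ ∃ c : K, ∀ a, f a = c) :
    Module.finrank K N = 1 := by
  have h1 : N = Submodule.span K {(fun _ => 1 : α → K)} := by
    ext f
    rw [h, Submodule.mem_span_singleton]
    constructor
    · rintro ⟨c, hc⟩
      refine ⟨c, ?_⟩
      funext a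
      simp [hc a]
    · rintro ⟨c, rfl⟩
      exact ⟨c, fun a => by simp⟩
  rw [h1, finrank_span_singleton]
  intro h0
  obtain ⟨a⟩ := ‹Nonempty α›
  have := congrFun h0 a
  simp at this

theorem euler {V ι : Type} [Finite V] [Finite ι] (G : SimpleGraph V) (l r : Sym2 V → ι)
    (hD : IsDual G l r) (h2 : TwoConn G G.support) :
    G.support.ncard + Nat.card ι = G.edgeSet.ncard + 2 := by
  have hfV : Fintype V := Fintype.ofFinite _
  have hfι : Fintype ι := Fintype.ofFinite _
  have hfE : Fintype G.edgeSet := Fintype.ofFinite _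
  have hfS : Fintype G.support := Fintype.ofFinite _
  obtain ⟨e0, he0⟩ := exists_edge G h2
  have hne0 := faces_ne G l r hD h2 e0 he0
  have : Nonempty ι := ⟨l e0⟩
  have : Nonempty G.support := by
    induction e0 using Sym2.ind with
    | _ a b => exact ⟨⟨a, G.mem_support.2 ⟨b, he0⟩⟩⟩
  let M : Matrix G.support G.edgeSet (ZMod 2) := fun v e => if (v : V) ∈ (e : Sym2 V) then 1 else 0
  let N : Matrix G.edgeSet ι (ZMod 2) := fun e j =>
    (if l (e : Sym2 V) = j then 1 else 0) + (if r (e : Sym2 V) = j then 1 else 0)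
  have hN : ∀ g e, N.mulVec g e = g (l (e : Sym2 V)) + g (r (e : Sym2 V)) := by
    intro g e
    simp [N, Matrix.mulVec, dotProduct, add_mul, Finset.sum_add_distrib]
  have hMT : ∀ (h : G.support → ZMod 2) (u w : G.support) (hadj : G.Adj u w),
      Matrix.mulVec M.transpose h ⟨s((u : V), (w : V)), hadj⟩ = h u + h w := by
    intro h u w hadj
    have huw : u ≠ w := fun h => hadj.ne (congrArg Subtype.val h)
    have h0 : Matrix.mulVec M.transpose h ⟨s((u : V), (w : V)), hadj⟩ =
        ∑ x : G.support, if (x : V) = u ∨ (x : V) = w then h x else 0 := by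
      simp only [Matrix.mulVec, dotProduct]
      apply Finset.sum_congr rfl
      intro x _
      have h2 : M.transpose ⟨s((u : V), (w : V)), hadj⟩ x =
          if (x : V) ∈ s((u : V), (w : V)) then 1 else 0 := rfl
      rw [h2, ite_mul, one_mul, zero_mul]
      simp only [Sym2.mem_iff]
    rw [h0, ← Finset.sum_filter]
    have h1 : (Finset.univ.filter fun x : G.support => (x : V) = u ∨ (x : V) = w) = {u, w} := by
      ext x
      simp [Subtype.ext_iff]
    rw [h1, Finset.sum_pair huw]
  -- the kernel of the transpose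
  have hkT : Module.finrank (ZMod 2) (LinearMap.ker M.transpose.mulVecLin) = 1 := by
    apply finrank_const
    intro f
    rw [LinearMap.mem_ker, Matrix.mulVecLin_apply]
    constructor
    · intro h0
      obtain ⟨a⟩ := ‹Nonempty G.support›
      refine ⟨f a, ?_⟩
      intro b
      have := support_walk G h2 (fun x => ∀ hx : x ∈ G.support, f ⟨x, hx⟩ = f a) ?_ a b a.2 b.2
        (fun _ => rfl)
      · exact this b.2
      · intro u v huv hu hv
        have hu' : u ∈ G.support := G.mem_support.2 ⟨v, huv⟩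
        have h3 := hMT f ⟨u, hu'⟩ ⟨v, hv⟩ huv
        rw [h0] at h3
        rw [← hu hu']
        have h4 : f ⟨u, hu'⟩ + f ⟨v, hv⟩ = 0 := h3.symm
        rcases zmod2 (f ⟨u, hu'⟩) with h5 | h5 <;> rcases zmod2 (f ⟨v, hv⟩) with h6 | h6 <;>
          rw [h5, h6] at h4 ⊢
        · simp at h4
        · simp at h4
    · rintro ⟨c, hc⟩
      funext e
      obtain ⟨e, he⟩ := e
      induction e using Sym2.ind with
      | _ a b =>
        have hab : G.Adj a b := he
        have h3 := hMT f ⟨a, G.mem_support.2 ⟨b, hab⟩⟩ ⟨b, G.mem_support.2 ⟨a, hab.symm⟩⟩ hab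
        rw [hc, hc] at h3
        refine h3.trans ?_
        rcases zmod2 c with h5 | h5 <;> rw [h5]
        · rfl
        · rfl
  -- the kernel of N
  have hkN : Module.finrank (ZMod 2) (LinearMap.ker N.mulVecLin) = 1 := by
    apply finrank_const
    intro g
    rw [LinearMap.mem_ker, Matrix.mulVecLin_apply]
    constructor
    · intro h0
      have h3 : cut G l r {j | g j = 1} = ∅ := by
        rw [Set.eq_empty_iff_forall_notMem]
        rintro e ⟨he, h4⟩
        apply h4
        have h5 := congrFun h0 ⟨e, he⟩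
        rw [hN] at h5
        simp only [Pi.zero_apply] at h5
        simp only [Set.mem_ofPred_eq]
        rcases zmod2 (g (l e)) with h6 | h6 <;> rcases zmod2 (g (r e)) with h7 | h7 <;>
          rw [h6, h7] at h5 ⊢
        · simp at h5
        · simp at h5
      rcases hD.conn _ h3 with h4 | h4
      · refine ⟨0, fun a => ?_⟩
        rcases zmod2 (g a) with h6 | h6
        · exact h6
        · exfalso
          have : a ∈ ({j | g j = 1} : Set ι) := h6
          rw [h4] at this
          exact this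
      · refine ⟨1, fun a => ?_⟩
        have : a ∈ ({j | g j = 1} : Set ι) := by rw [h4]; exact Set.mem_univ a
        exact this
    · rintro ⟨c, hc⟩
      funext e
      rw [hN, hc, hc]
      rcases zmod2 c with h5 | h5 <;> rw [h5]
      · rfl
      · rfl
  -- the number of odd coordinates
  have hM : ∀ (f : G.edgeSet → ZMod 2) (v : G.support), M.mulVec f v =
      (({e | e ∈ {e | ∃ h : e ∈ G.edgeSet, f ⟨e, h⟩ = 1} ∧ (v : V) ∈ e}.ncard : ℕ) : ZMod 2) := by
    intro f v
    have h1 : M.mulVec f v = ∑ e : G.edgeSet, if (v : V) ∈ (e : Sym2 V) ∧ f e = 1 then 1 else 0 := by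
      simp only [M, Matrix.mulVec, dotProduct]
      apply Finset.sum_congr rfl
      intro e _
      rcases zmod2 (f e) with h6 | h6 <;> by_cases h7 : (v : V) ∈ (e : Sym2 V) <;> simp [h6, h7]
    rw [h1, Finset.sum_boole]
    congr 1
    have h2 : {e | e ∈ {e | ∃ h : e ∈ G.edgeSet, f ⟨e, h⟩ = 1} ∧ (v : V) ∈ e} =
        Subtype.val '' ((Finset.univ.filter fun e : G.edgeSet => (v : V) ∈ (e : Sym2 V) ∧ f e = 1 :
          Finset G.edgeSet) : Set G.edgeSet) := by
      ext e
      simp only [Set.mem_ofPred_eq, Set.mem_image, Finset.coe_filter, Finset.mem_univ, true_and]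
      constructor
      · rintro ⟨⟨h3, h4⟩, h5⟩
        exact ⟨⟨e, h3⟩, ⟨h5, h4⟩, rfl⟩
      · rintro ⟨x, ⟨h3, h4⟩, rfl⟩
        exact ⟨⟨x.2, h4⟩, h3⟩
    rw [h2, Set.ncard_image_of_injective _ Subtype.val_injective, Set.ncard_coe_finset]
  -- range N = ker M
  have hrk : LinearMap.range N.mulVecLin = LinearMap.ker M.mulVecLin := by
    ext f
    rw [LinearMap.mem_ker, LinearMap.mem_range, Matrix.mulVecLin_apply]
    constructor
    · rintro ⟨g, rfl⟩
      rw [Matrix.mulVecLin_apply]
      funext v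
      rw [hM]
      have h3 := hD.even {j | g j = 1} v
      have h4 : {e | ∃ h : e ∈ G.edgeSet, N.mulVec g ⟨e, h⟩ = 1} = cut G l r {j | g j = 1} := by
        ext e
        simp only [Set.mem_ofPred_eq, cut]
        constructor
        · rintro ⟨h5, h6⟩
          refine ⟨h5, ?_⟩
          rw [hN] at h6
          simp only at h6
          intro h7
          rcases zmod2 (g (l e)) with h8 | h8 <;> rcases zmod2 (g (r e)) with h9 | h9 <;>
            rw [h8, h9] at h6 h7
          · simp at h6
          · simp at h7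
          · simp at h7
          · exact absurd h6 (by decide)
        · rintro ⟨h5, h6⟩
          refine ⟨h5, ?_⟩
          rw [hN]
          simp only
          rcases zmod2 (g (l e)) with h8 | h8 <;> rcases zmod2 (g (r e)) with h9 | h9 <;>
            rw [h8, h9] at h6 ⊢
          · simp at h6
          · simp
          · simp
          · simp at h6
      rw [h4, Pi.zero_apply]
      exact (ZMod.natCast_eq_zero_iff_even).2 h3
    · intro h0
      have h3 : EvenSet {e | ∃ h : e ∈ G.edgeSet, f ⟨e, h⟩ = 1} := by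
        intro v
        by_cases hv : v ∈ G.support
        · have h4 := congrFun h0 ⟨v, hv⟩
          rw [hM, Pi.zero_apply] at h4
          exact (ZMod.natCast_eq_zero_iff_even).1 h4
        · have h4 : {e | e ∈ {e | ∃ h : e ∈ G.edgeSet, f ⟨e, h⟩ = 1} ∧ v ∈ e} = ∅ := by
            rw [Set.eq_empty_iff_forall_notMem]
            rintro e ⟨⟨h5, -⟩, h6⟩
            obtain ⟨w, rfl⟩ := Sym2.mem_iff_exists.1 h6
            exact hv (G.mem_support.2 ⟨w, h5⟩)
          rw [h4, Set.ncard_empty]
          exact Even.zero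
      obtain ⟨J, hJ⟩ := hD.exist _ (fun e he => he.1) h3
      refine ⟨fun j => if j ∈ J then 1 else 0, ?_⟩
      rw [Matrix.mulVecLin_apply]
      funext e
      rw [hN]
      have h5 : f e = 1 ↔ (e : Sym2 V) ∈ cut G l r J := by
        rw [hJ]
        constructor
        · intro h
          exact ⟨e.2, h⟩
        · rintro ⟨_, h⟩
          exact h
      have h6 : (e : Sym2 V) ∈ cut G l r J ↔ ¬ (l e ∈ J ↔ r e ∈ J) := by
        simp only [cut, Set.mem_ofPred_eq, e.2, true_and]
      rcases zmod2 (f e) with h7 | h7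
      · rw [h7] at h5 ⊢
        have h8 : ¬ (e : Sym2 V) ∈ cut G l r J := by
          intro h8
          exact absurd (h5.2 h8) (by decide)
        rw [h6] at h8
        by_cases h9 : l (e : Sym2 V) ∈ J <;> by_cases h10 : r (e : Sym2 V) ∈ J
        · simp only [h9, h10, if_true]; rfl
        · exfalso; tauto
        · exfalso; tauto
        · simp only [h9, h10, if_false]; rfl
      · rw [h7] at h5 ⊢
        have h8 : (e : Sym2 V) ∈ cut G l r J := h5.1 rfl
        rw [h6] at h8
        by_cases h9 : l (e : Sym2 V) ∈ J <;> by_cases h10 : r (e : Sym2 V) ∈ J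
        · exfalso; tauto
        · simp only [h9, h10, if_true, if_false]; rfl
        · simp only [h9, h10, if_true, if_false]; rfl
        · exfalso; tauto
  -- rank-nullity
  have r1 := LinearMap.finrank_range_add_finrank_ker M.mulVecLin
  have r2 := LinearMap.finrank_range_add_finrank_ker M.transpose.mulVecLin
  have r3 := LinearMap.finrank_range_add_finrank_ker N.mulVecLin
  have r4 : Module.finrank (ZMod 2) (LinearMap.range M.transpose.mulVecLin) =
      Module.finrank (ZMod 2) (LinearMap.range M.mulVecLin) := Matrix.rank_transpose M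
  rw [hkT, r4] at r2
  rw [hkN, hrk] at r3
  simp only [Module.finrank_fintype_fun_eq_card] at r1 r2 r3
  have c1 : G.support.ncard = Fintype.card G.support := by
    rw [← Nat.card_eq_fintype_card]; rfl
  have c2 : G.edgeSet.ncard = Fintype.card G.edgeSet := by
    rw [← Nat.card_eq_fintype_card]; rfl
  rw [c1, c2, Nat.card_eq_fintype_card]
  omega

end RTwoAux

/-- the dual of a 2-connected graph: every edge has two different faces, the boundaries of faces
are minimal cuts (cycles), and the Euler formula holds. -/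
theorem dual_two {V ι : Type} [Finite V] [Finite ι] (G : SimpleGraph V) (l r : Sym2 V → ι)
    (hD : IsDual G l r) (h2 : TwoConn G G.support) :
    (∀ e ∈ G.edgeSet, l e ≠ r e) ∧ (∀ j, (cut G l r {j}).Nonempty) ∧
    (∀ j, ∀ Z ⊆ cut G l r {j}, EvenSet Z → Z = ∅ ∨ Z = cut G l r {j}) ∧
    (∀ j v, {e | e ∈ cut G l r {j} ∧ v ∈ e}.ncard = 0 ∨
      {e | e ∈ cut G l r {j} ∧ v ∈ e}.ncard = 2) ∧
    G.support.ncard + Nat.card ι = G.edgeSet.ncard + 2 :=
  ⟨RTwoAux.faces_ne G l r hD h2, RTwoAux.cut_ne G l r hD h2,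
    fun j Z hZ he => RTwoAux.cut_min G l r hD h2 j Z hZ he,
    fun j v => RTwoAux.cut_deg G l r hD h2 j v, RTwoAux.euler G l r hD h2⟩

end Pool.Agent.MP9d6bd1
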