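import Mathlib
import Pool.Agent.Lib.MP_9d6bd1_lc.GDefs
import Pool.Agent.Lib.MP_9d6bd1_lc.Rot
import Pool.Agent.Lib.MP_9d6bd1_lc.GWagner
import Pool.Agent.Lib.MP_9d6bd1_lc.GDualMono
import Pool.Agent.Lib.MP_9d6bd1_lc.RSum
import Pool.Agent.Lib.MP_9d6bd1_lc.RBase
import Pool.Agent.Lib.MP_9d6bd1_lc.RTwo
import Pool.Agent.Lib.MP_9d6bd1_lc.RFaces
import Pool.Agent.Lib.MP_9d6bd1_lc.RDual

/-!
# MP_9d6bd1_lc, module W5: planar graphs are the graphs with a rotation system of genus zero
-/

set_option autoImplicit false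

open Classical

namespace Pool.Agent.MP9d6bd1

namespace RMainAux

theorem few_edges {V : Type} [Finite V] (G : SimpleGraph V) (h : G.support.ncard ≤ 2) :
    G.edgeSet.ncard ≤ 1 := by
  rw [Set.ncard_le_one (Set.toFinite _)]
  intro e he f hf
  induction e using Sym2.ind with
  | _ a b =>
    induction f using Sym2.ind with
    | _ c d =>
      rw [SimpleGraph.mem_edgeSet] at he hf
      have h1 : ({a, b} : Set V) = G.support := by
        apply Set.eq_of_subset_of_ncard_le _ _ (Set.toFinite _)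
        · rintro x (rfl | rfl)
          · exact ⟨b, he⟩
          · exact ⟨a, he.symm⟩
        · rw [Set.ncard_pair he.ne]
          exact h
      have hc : c ∈ ({a, b} : Set V) := h1 ▸ ⟨d, hf⟩
      have hd : d ∈ ({a, b} : Set V) := h1 ▸ ⟨c, hf.symm⟩
      rcases hc with rfl | hc <;> rcases hd with rfl | hd
      · exact absurd rfl hf.ne
      · rw [Set.mem_singleton_iff] at hd
        rw [hd]
      · rw [Set.mem_singleton_iff] at hc
        rw [hc, Sym2.eq_swap]
      · rw [Set.mem_singleton_iff] at hc hd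
        exact absurd (hc.trans hd.symm) hf.ne

theorem inc_le {V : Type} (G : SimpleGraph V) (Z : Set V) : inc G Z ≤ G := fun _ _ h => h.1

theorem off_le {V : Type} (G : SimpleGraph V) (Z : Set V) : off G Z ≤ G := fun _ _ h => h.1

theorem inc_sup_off {V : Type} (G : SimpleGraph V) (Z : Set V) : inc G Z ⊔ off G Z = G := by
  apply le_antisymm (sup_le (inc_le G Z) (off_le G Z))
  intro u v huv
  by_cases h : u ∈ Z ∨ v ∈ Z
  · exact Or.inl ⟨huv, h⟩
  · push Not at h
    exact Or.inr ⟨huv, h.1, h.2⟩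

theorem lt_of_sub {V : Type} [Finite V] {H G : SimpleGraph V} (h : H ≤ G) (e : Sym2 V)
    (he : e ∈ G.edgeSet) (he' : e ∉ H.edgeSet) : H.edgeSet.ncard < G.edgeSet.ncard := by
  apply Set.ncard_lt_ncard _ (Set.toFinite _)
  exact ⟨SimpleGraph.edgeSet_mono h, fun h' => he' (h' he)⟩

theorem rot_of_dual {V : Type} [Finite V] (G : SimpleGraph V) (hG : HasDual G) :
    RotPlanar G := by
  induction hn : G.edgeSet.ncard using Nat.strong_induction_on generalizing G with
  | _ n ih =>
    by_cases h1 : G.edgeSet.ncard ≤ 1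
    · exact rot_base G h1
    have hc3 : 3 ≤ G.support.ncard := by
      by_contra h
      exact h1 (few_edges G (by omega))
    by_cases h2 : ∀ z, (G.induce (G.support \ {z})).Preconnected
    · obtain ⟨ι, l, r, hf, -, hD⟩ := hG
      obtain ⟨a1, a2, a3, a4, a5⟩ := dual_two G l r hD ⟨hc3, h2⟩
      exact rot_of_faces G l r hD ⟨hc3, h2⟩ a1 a2 a3 a4 a5
    · push Not at h2
      obtain ⟨z, hnp⟩ := h2
      unfold SimpleGraph.Preconnected at hnp
      push Not at hnp
      obtain ⟨u, v, huv⟩ := hnp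
      set C : Set V := {w | ∃ h : w ∈ G.support \ {z},
        (G.induce (G.support \ {z})).Reachable u ⟨w, h⟩} with hC
      have huC : (u : V) ∈ C := ⟨u.2, SimpleGraph.Reachable.refl _⟩
      have hvC : (v : V) ∉ C := fun h => huv h.2
      have hstep : ∀ x ∈ C, ∀ w, G.Adj x w → w ∈ C ∨ w = z := by
        rintro x ⟨hx, hr⟩ w hxw
        by_cases hw : w = z
        · exact Or.inr hw
        · left
          have hw' : w ∈ G.support \ {z} := ⟨⟨x, hxw.symm⟩, hw⟩
          refine ⟨hw', hr.trans ?_⟩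
          have : (G.induce (G.support \ {z})).Adj ⟨x, hx⟩ ⟨w, hw'⟩ := hxw
          exact this.reachable
      obtain ⟨u', hu'⟩ := u.2.1
      obtain ⟨v', hv'⟩ := v.2.1
      have hv'C : v' ∉ C := by
        intro h
        rcases hstep v' h v.1 hv'.symm with h' | h'
        · exact hvC h'
        · exact v.2.2 h'
      have e1 : s(u.1, u') ∈ G.edgeSet := hu'
      have e2 : s(v.1, v') ∈ G.edgeSet := hv'
      have n1 : s(v.1, v') ∉ (inc G C).edgeSet := by
        rintro ⟨-, h | h⟩
        · exact hvC h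
        · exact hv'C h
      have n2 : s(u.1, u') ∉ (off G C).edgeSet := fun h => h.2.1 huC
      rw [← inc_sup_off G C]
      refine rot_sum1 _ _ ?_ (ih _ (hn ▸ lt_of_sub (inc_le G C) _ e2 n1) _
        (dual_mono (inc_le G C) hG) rfl) (ih _ (hn ▸ lt_of_sub (off_le G C) _ e1 n2) _
        (dual_mono (off_le G C) hG) rfl)
      refine Set.subsingleton_singleton.anti (t := {z}) ?_
      rintro w ⟨⟨w₁, hw₁⟩, ⟨w₂, hw₂⟩⟩
      rcases hw₁.2 with h | h
      · exact absurd h hw₂.2.1
      · rcases hstep w₁ h w hw₁.1.symm with h' | h'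
        · exact absurd h' hw₂.2.1
        · exact h'

end RMainAux

open RMainAux

theorem planar_iff_rot {V : Type} [Finite V] (G : SimpleGraph V) :
    Planar G ↔ RotPlanar G :=
  (planar_iff_dual G).trans ⟨rot_of_dual G, dual_of_rot G⟩

end Pool.Agent.MP9d6bd1
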